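import Pool.Agent.Lib.MP_696deb_nt.B6.HYb
import Pool.Agent.Lib.MP_696deb_nt.S5.GF

/-! Densities, and the curves of conductor 11, 19 and 35. -/

set_option autoImplicit false

open scoped Classical
open Filter Topology NumberTheorySymbols

namespace Pool.Agent.B6

open Pool.Agent.Lib.MP_696deb_nt Pool.Agent.Lib.MP_696deb_nt.B2 Pool.Agent.B4.GE

/-- The rank part of the conjecture for a short model, with the common value `r`. -/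
def Both (a b : ℤ) (r : ℕ∞) : Prop := ∃ G : ℂ → ℂ, Differentiable ℂ G ∧
  (∀ s : ℂ, (3 : ℝ) / 2 < s.re → HasProd (fun p : ℕ =>
    if p.Prime ∧ ¬ ((p : ℤ) ∣ 2 * (-4 * a ^ 3 - 27 * b ^ 2)) then
      (1 - ((p : ℂ) - (Nat.card {x : ZMod p × ZMod p //
        x.2 ^ 2 = x.1 ^ 3 + (a : ZMod p) * x.1 + (b : ZMod p)} : ℂ))
          * (p : ℂ) ^ (-s) + (p : ℂ) ^ (1 - 2 * s))⁻¹
    else 1) (G s)) ∧
  analyticOrderAt G 1 = ((Module.finrank ℤ (WeierstrassCurve.Affine.Point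
    (WeierstrassCurve.toAffine
      ({ a₁ := 0, a₂ := 0, a₃ := 0, a₄ := (a : ℚ), a₆ := (b : ℚ) } :
        WeierstrassCurve ℚ))) : ℕ) : ℕ∞) ∧
  Module.Finite ℤ (WeierstrassCurve.Affine.Point (WeierstrassCurve.toAffine
    ({ a₁ := 0, a₂ := 0, a₃ := 0, a₄ := (a : ℚ), a₆ := (b : ℚ) } : WeierstrassCurve ℚ))) ∧
  analyticOrderAt G 1 = r

theorem Both.unique {a b : ℤ} {r r' : ℕ∞} (h : Both a b r) (h' : Both a b r') : r = r' := by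
  obtain ⟨_, -, -, h1, -, h2⟩ := h
  obtain ⟨_, -, -, h3, -, h4⟩ := h'
  rw [← h2, h1, ← h3, h4]

/-- Half of the twists have both ranks equal to `r`. -/
def Half (N : ℕ) (c₄ c₆ : ℤ) (r : ℕ) : Prop := Tendsto (fun X : ℕ =>
  (Set.ncard {d : ℤ | |d| ≤ X ∧ Squarefree d ∧ d % 4 = 1 ∧ IsCoprime d N ∧
    ∀ a b : ℤ, a = -27 * c₄ * d ^ 2 → b = -54 * c₆ * d ^ 3 → Both a b r} : ℝ) /
  (Set.ncard {d : ℤ | |d| ≤ X ∧ Squarefree d ∧ d % 4 = 1 ∧ IsCoprime d N} : ℝ)) atTop (𝓝 (1 / 2))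

/-- Almost all twists have corank at most one. -/
def Smith [Cw] : Prop := ∀ ε : ℝ, 0 < ε → ∃ X0 : ℕ, ∀ X ≥ X0,
  (((Finset.Icc (-(X : ℤ)) X).filter fun d => Squarefree d ∧ ¬ Cork d).card : ℝ) ≤ ε * X

theorem half_conv [Cs] (hs : Smith) (h : Conv) {r : ℕ} (hr : r ≤ 1) :
    Half NN WZ.c₄ WZ.c₆ r := by
  refine V.half_of (P := fun r d => ∀ a b : ℤ, a = -27 * WZ.c₄ * d ^ 2 → b = -54 * WZ.c₆ * d ^ 3 →
    Both a b r) NN NN_ne (fun d h0 h1 => by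
      simpa using (h0 _ _ rfl rfl).unique (h1 _ _ rfl rfl)) (fun ε hε => ?_) hr
  obtain ⟨X0, h1⟩ := hs ε hε
  refine ⟨X0, fun X hX => le_trans (Nat.cast_le.2 (Finset.card_le_card fun d hd => ?_)) (h1 X hX)⟩
  rw [Finset.mem_filter] at hd ⊢
  obtain ⟨k0, ⟨k1, k2, k3⟩, k4⟩ := hd
  exact ⟨k0, k1, fun hc => k4 fun a b ha hb => res_of (h d k1 k2 k3 hc) ha hb⟩

/-- The certified curves. -/
theorem cert_cs {N : ℕ} {c₄ c₆ : ℤ} (h : (N, c₄, c₆) ∈ ({(11, 496, 20008), (19, 448, 10088),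
    (35, -416, 1448)} : Set (ℕ × ℤ × ℤ))) : ∃ C : Cs, @NN C = N ∧ (@WZ C.toCw).c₄ = c₄ ∧
      (@WZ C.toCw).c₆ = c₆ ∧ ∃ D, @Hyp C D := by
  simp only [Set.mem_insert_iff, Set.mem_singleton_iff, Prod.mk.injEq] at h
  rcases h with ⟨rfl, rfl, rfl⟩ | ⟨rfl, rfl, rfl⟩ | ⟨rfl, rfl, rfl⟩
  exacts [⟨cs11, rfl, by decide, by decide, hyp11⟩, ⟨cs19, rfl, by decide, by decide, hyp19⟩,
    ⟨cs35, rfl, by decide, by decide, hyp35⟩]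

theorem half_cert (hs : ∀ C : Cs, @Smith C.toCw) (hc : ∀ (C : Cs) D, @Hyp C D → @Conv C) {N : ℕ}
    {c₄ c₆ : ℤ} (h : (N, c₄, c₆) ∈ ({(11, 496, 20008), (19, 448, 10088),
      (35, -416, 1448)} : Set (ℕ × ℤ × ℤ))) {r : ℕ} (hr : r ≤ 1) : Half N c₄ c₆ r := by
  obtain ⟨C, rfl, rfl, rfl, D, k⟩ := cert_cs h
  exact half_conv (hs C) (hc C D k) hr

theorem conv_cert (hc : ∀ (C : Cs) D, @Hyp C D → @Conv C) {N : ℕ}
    {c₄ c₆ : ℤ} (h : (N, c₄, c₆) ∈ ({(11, 496, 20008), (19, 448, 10088),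
      (35, -416, 1448)} : Set (ℕ × ℤ × ℤ))) {d : ℤ} (hd : Squarefree d) (h4 : d % 4 = 1)
    (hN : IsCoprime d N) {a b : ℤ} (ha : a = -27 * c₄ * d ^ 2) (hb : b = -54 * c₆ * d ^ 3)
    (hS : Stmt.CorankLE
      ({ a₁ := 0, a₂ := 0, a₃ := 0, a₄ := (a : ℚ), a₆ := (b : ℚ) } : WeierstrassCurve ℚ) 1) :
    Both a b (if jacobiSym (-N) d.natAbs = 1 then 0 else 1) := by
  obtain ⟨C, rfl, rfl, rfl, D, k⟩ := cert_cs h
  exact res_conv (hc C D k) hd h4 hN ha hb hS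

end Pool.Agent.B6
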