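import Pool.Agent.Lib.MP_696deb_nt.B6.Tw0
import Pool.Agent.Lib.MP_696deb_nt.B2.LKa
import Pool.Agent.Lib.MP_696deb_nt.B2.Stmt
import Pool.Agent.Lib.MP_696deb_nt.VarChange

/-! The quadratic twist and the twisted action; the Selmer condition. -/

set_option autoImplicit false

open scoped Classical
open WeierstrassCurve WeierstrassCurve.Affine

namespace Pool.Agent.B6

open Pool.Agent.Lib.MP_696deb_nt (Pt pmap xco yco xco_some yco_some xco_pmap yco_pmap xco_neg pmap_injective pmap_pmap VC)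
open Pool.Agent.Lib.MP_696deb_nt.B2

variable [Cw]

variable {d : ℤ}

theorem lk_vc (hd : d ≠ 0) {K : Type} [Field K] {f : K →+* Qbar} {W : WeierstrassCurve K}
    (h1 : f W.a₁ = 0) (h2 : f W.a₂ = 0) (h3 : f W.a₃ = 0)
    (h4 : f W.a₄ = -27 * WZ.c₄ * d ^ 2) (h6 : f W.a₆ = -54 * WZ.c₆ * d ^ 3) :
    VC f W (Wu.baseChange Qbar) (1 / (6 * rt d)) (-WZ.b₂ / 12) (-WZ.a₁ / 2)
      (WZ.a₁ * WZ.b₂ / 24 - WZ.a₃ / 2) := by
  have h0 := b1b_rt_ne hd
  refine ⟨by simp [h0], ?_, ?_, ?_, ?_, ?_⟩ <;>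
    simp only [h1, h2, h3, h4, h6, Wu_a₁, Wu_a₂, Wu_a₃, Wu_a₄, Wu_a₆, c₄, c₆, b₂, b₄, b₆] <;>
    push_cast
  · ring
  · ring
  · ring
  · rw [← rt_sq d]; field_simp; ring
  · rw [← rt_sq d]; field_simp; ring

theorem lk_vcQ (hd : d ≠ 0) : VC (algebraMap ℚ Qbar) (Et d) (Wu.baseChange Qbar)
    (1 / (6 * rt d)) (-WZ.b₂ / 12) (-WZ.a₁ / 2) (WZ.a₁ * WZ.b₂ / 24 - WZ.a₃ / 2) :=
  lk_vc hd (by simp [Et]) (by simp [Et]) (by simp [Et]) (by simp [Et]) (by simp [Et])

theorem lk_vcB (hd : d ≠ 0) : VC (RingHom.id Qbar) ((Et d).baseChange Qbar) (Wu.baseChange Qbar)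
    (1 / (6 * rt d)) (-WZ.b₂ / 12) (-WZ.a₁ / 2) (WZ.a₁ * WZ.b₂ / 24 - WZ.a₃ / 2) :=
  lk_vc hd (by simp [Et, WeierstrassCurve.baseChange]) (by simp [Et, WeierstrassCurve.baseChange])
    (by simp [Et, WeierstrassCurve.baseChange]) (by simp [Et, WeierstrassCurve.baseChange])
    (by simp [Et, WeierstrassCurve.baseChange])

/-- The isomorphism between the twist and the curve. -/
noncomputable def lkPhi (hd : d ≠ 0) : Pt (Et d) Qbar ≃+ EE :=
  AddEquiv.ofBijective (lk_vcB hd).hom ⟨(lk_vcB hd).hom_injective, by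
    have h0 := b1b_rt_ne hd
    rintro (_ | ⟨X, Y, h⟩)
    · exact ⟨0, rfl⟩
    · exact (lk_vcB hd).mem_range h (x := (X + WZ.b₂ / 12) * (6 * rt d) ^ 2)
        (y := (Y + WZ.a₁ * X / 2 + WZ.a₃ / 2) * (6 * rt d) ^ 3)
        (by rw [RingHom.id_apply]; field_simp; ring)
        (by simp only [RingHom.id_apply]; field_simp; ring)⟩

theorem lkPhi_pmap (hd : d ≠ 0) (g : Gam) (P : Pt (Et d) Qbar) :
    lkPhi hd (pmap (g : Qbar →+* Qbar) P) = tw d g (lkPhi hd P) := by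
  rcases P with _ | ⟨x, y, h⟩
  · exact (map_zero _).trans (by rw [← Point.zero_def, map_zero, tw, smul_zero, smul_zero])
  have k := chi_spec (rt_sq d) g
  unfold tw
  rcases Int.units_eq_one_or (chi d g) with e | e <;> rw [e] at k ⊢
  · rw [Units.val_one, one_smul]
    refine (Point.some.injEq ..).mpr ⟨?_, ?_⟩ <;> simp [k, map_ofNat]
  · rw [Units.val_neg, Units.val_one, neg_one_smul]
    refine (Point.some.injEq ..).mpr ⟨?_, ?_⟩ <;> simp [k, map_ofNat, negY, Wu]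
    ring

/-- The twisted action of one element. -/
noncomputable def lkT (d : ℤ) (g : Gam) : EE →+ EE :=
  AddMonoidHom.mk' (tw d g) fun P Q => by simp only [tw, smul_add]

theorem lkT_apply (g : Gam) (P : EE) : lkT d g P = tw d g P := rfl

theorem lk_tw_mul (g h : Gam) (P : EE) : tw d (g * h) P = tw d g (tw d h P) := by
  simp only [tw, map_mul, Units.val_mul, mul_smul]
  rw [smul_comm g (chi d h : ℤ)]

theorem lk_tw_one (P : EE) : tw d 1 P = P := by simp [tw]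

theorem lk_pts (hd : d ≠ 0) (P : EE) : P ∈ (lk_vcQ hd).hom.range ↔ ∀ g, tw d g P = P := by
  obtain ⟨P, rfl⟩ := (lkPhi hd).surjective P
  simp only [← lkPhi_pmap, EmbeddingLike.apply_eq_iff_eq]
  rcases P with _ | ⟨x, y, h⟩
  · exact iff_of_true ⟨0, rfl⟩ fun g => rfl
  constructor
  · rintro ⟨_ | ⟨a, b, k⟩, e⟩ g
    · exact absurd e.symm (Point.some_ne_zero _)
    · obtain ⟨e1, e2⟩ := (Point.some.injEq ..).mp e
      obtain rfl : algebraMap ℚ Qbar a = x := (lk_vcB hd).X_inj.1 e1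
      obtain rfl : algebraMap ℚ Qbar b = y := (lk_vcB hd).Y_inj.1 e2
      exact (Point.some.injEq ..).mpr ⟨g.commutes a, g.commutes b⟩
  · intro k
    obtain ⟨a, rfl⟩ := fx_top (x := x) fun g _ => congrArg xco (k g)
    obtain ⟨b, rfl⟩ := fx_top (x := y) fun g _ => congrArg yco (k g)
    exact (lk_vcQ hd).mem_range _ rfl rfl

theorem lk_card (m : ℕ) : Nat.card (nsmulAddMonoidHom (α := EE) (2 ^ m)).ker = 4 ^ m := by
  refine lk_card_tors exists_half ?_ m
  have e : ((nsmulAddMonoidHom (α := EE) 2).ker : Set EE) = ({0, T1, T2, T3} : Finset EE) := by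
    ext P
    simpa using two_eq_zero
  obtain ⟨a, b, c, x, y, z⟩ := T_ne
  rw [← SetLike.coe_sort_coe, e, Finset.coe_sort_coe, Nat.card_eq_finsetCard,
    Finset.card_insert_of_notMem (by simp [a.symm, b.symm, c.symm]),
    Finset.card_insert_of_notMem (by simp [x, y]), Finset.card_pair z]

variable {ξ : Gam → EE}

theorem hSel.one (h : hSel d ξ) : ξ 1 = 0 := by
  have := h.coc 1 1
  rw [mul_one, lk_tw_one] at this
  exact left_eq_add.1 this

theorem hSel.conj (h : hSel d ξ) {c : Gam} {S : EE} (e : ξ c = tw d c S - S) (k : Gam) :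
    ξ (k * c * k⁻¹) = tw d (k * c * k⁻¹) (tw d k S - ξ k) - (tw d k S - ξ k) := by
  have h1 := h.coc (k * c * k⁻¹) k
  rw [inv_mul_cancel_right, h.coc, e] at h1
  have h2 : tw d (k * c * k⁻¹) (tw d k S) = tw d k (tw d c S) := by
    rw [← lk_tw_mul, ← lk_tw_mul, inv_mul_cancel_right]
  simp only [← lkT_apply, map_sub] at h1 h2 ⊢
  rw [h2, eq_sub_of_add_eq h1.symm]
  abel

theorem lk_loc (hd : d ≠ 0) {F : Type} [Field F] [CharZero F]
    (h : ∀ j : Qbar →+* AlgebraicClosure F, ∃ S, ∀ (s : Stmt.AbsGal F) (σ : Gam),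
      (∀ x, j (σ x) = s (j x)) → ξ σ = tw d σ S - S) :
    Stmt.LocTriv (Et d) F fun σ => (lkPhi hd).symm (ξ σ) := fun j => by
  obtain ⟨S, hS⟩ := h j
  obtain ⟨S, rfl⟩ := (lkPhi hd).surjective S
  refine ⟨pmap j S, fun s (σ : Gam) k => ?_⟩
  have e : (s : AlgebraicClosure F →+* AlgebraicClosure F).comp j =
      j.comp (σ : Qbar →+* Qbar) := RingHom.ext fun x => (k x).symm
  change pmap j ((lkPhi hd).symm (ξ σ)) =
    pmap (s : AlgebraicClosure F →+* AlgebraicClosure F) (pmap j S) - pmap j S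
  rw [hS s σ k, ← lkPhi_pmap, ← map_sub, AddEquiv.symm_apply_apply, map_sub, pmap_pmap, pmap_pmap,
    e]

theorem lk_isSel (hd : d ≠ 0) (h : hSel d ξ) {n : ℕ} (hn : ∀ g, n • ξ g = 0) :
    Stmt.IsSel (Et d) n fun σ => (lkPhi hd).symm (ξ σ) := by
  refine ⟨?_, fun σ : Gam => ?_, fun σ τ : Gam => ?_, lk_loc hd fun j => ?_,
    fun p _ => lk_loc hd fun j => ?_⟩
  · let _ : TopologicalSpace EE := ⊥
    have : DiscreteTopology EE := ⟨rfl⟩
    exact ((IsLocallyConstant.iff_continuous ξ).2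
      (continuousOn_univ.1 h.sm.continuousOn)).comp _
  · exact (map_nsmul (lkPhi hd).symm n _).symm.trans (by rw [hn, map_zero])
  · refine (lkPhi hd).injective ?_
    change _ = lkPhi hd (_ + pmap (σ : Qbar →+* Qbar) _)
    simp only [map_add, lkPhi_pmap, AddEquiv.apply_symm_apply]
    exact h.coc σ τ
  · obtain ⟨k, hk⟩ := lk_real j
    obtain ⟨S, hS⟩ := h.inf
    refine ⟨tw d k S - ξ k, fun s σ e => ?_⟩
    rcases hk s σ e with rfl | rfl
    · rw [h.one, lk_tw_one, sub_self]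
    · exact h.conj hS k
  · obtain ⟨w, hw⟩ := lk_plc p j
    obtain ⟨S, hS⟩ := h.loc w
    exact ⟨S, fun s σ e => hS σ (hw s σ e)⟩

theorem lk_cork (hd : d ≠ 0) (h : Stmt.CorankLE (Et d) 1) : Cork d := by
  obtain ⟨C, hC⟩ := h
  refine ⟨C, fun m s hs => ?_⟩
  let r : Setoid (Gam → EE) := ⟨fun ξ η => ∃ S, 2 ^ m • S = 0 ∧ ∀ g, ξ g - η g = lkT d g S - S,
    fun _ => ⟨0, by simp⟩,
    fun ⟨S, a, b⟩ => ⟨-S, by rw [smul_neg, a, neg_zero], fun g => by
      rw [← neg_sub, b, map_neg]; abel⟩,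
    fun ⟨S, a, b⟩ ⟨S', a', b'⟩ => ⟨S + S', by rw [smul_add, a, a', add_zero], fun g => by
      rw [← sub_add_sub_cancel, b, b', map_add]; abel⟩⟩
  have fin : Finite (nsmulAddMonoidHom (α := EE) (2 ^ m)).ker :=
    Nat.finite_of_card_ne_zero (by rw [lk_card]; positivity)
  have h1 : s.card ≤ 4 ^ m * (s.image (Quotient.mk r)).card := by
    refine Finset.card_le_mul_card_image s _ fun q hq => ?_
    obtain ⟨η, -, rfl⟩ := Finset.mem_image.1 hq
    rw [← lk_card, ← Nat.card_eq_finsetCard]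
    have k : ∀ x : (s.filter fun ξ => Quotient.mk r ξ = Quotient.mk r η),
        ∃ S : (nsmulAddMonoidHom (α := EE) (2 ^ m)).ker, ∀ g, x.1 g - η g = lkT d g S - S :=
      fun x => by
        obtain ⟨S, a, b⟩ := Quotient.exact (Finset.mem_filter.1 x.2).2
        exact ⟨⟨S, a⟩, b⟩
    choose f hf using k
    exact Nat.card_le_card_of_injective f fun x y e =>
      Subtype.ext (funext fun g => sub_left_inj.1 ((hf x g).trans (e ▸ (hf y g).symm)))
  choose f hf1 hf2 using fun q : s.image (Quotient.mk r) => Finset.mem_image.1 q.2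
  let F : s.image (Quotient.mk r) → Gam → Pt (Et d) Qbar := fun q σ => (lkPhi hd).symm (f q σ)
  have key : ∀ q q', Stmt.Cohom (Et d) (2 ^ m) (F q) (F q') → q = q' := by
    rintro q q' ⟨S, a, b⟩
    refine Subtype.ext ((hf2 q).symm.trans ((Quotient.sound (s := r)
      ⟨lkPhi hd S, ?_, fun g : Gam => ?_⟩).trans (hf2 q')))
    · exact (map_nsmul (lkPhi hd) _ _).symm.trans ((congrArg _ a).trans (map_zero _))
    · have := congrArg (lkPhi hd) (b g)
      change lkPhi hd (_ - _) = lkPhi hd (pmap (g : Qbar →+* Qbar) S - S) at this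
      simpa only [F, map_sub, lkPhi_pmap, AddEquiv.apply_symm_apply, lkT_apply] using this
  have inj : Function.Injective F := fun q q' e => key q q' (e ▸ ⟨0, smul_zero _, fun σ => by
    rw [sub_self, sub_zero]; rfl⟩)
  have h2 := hC m (Finset.univ.map ⟨F, inj⟩) (fun x hx => by
    obtain ⟨q, -, rfl⟩ := Finset.mem_map.1 hx
    exact lk_isSel hd (hs _ (hf1 q)).1 (hs _ (hf1 q)).2) fun x hx y hy e => by
    obtain ⟨q, -, rfl⟩ := Finset.mem_map.1 hx
    obtain ⟨q', -, rfl⟩ := Finset.mem_map.1 hy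
    rw [key q q' e]
  have h3 := (Finset.card_map _).symm.trans_le h2
  rw [Finset.card_univ, Fintype.card_coe, one_mul] at h3
  refine h1.trans ((Nat.mul_le_mul_left _ h3).trans_eq ?_)
  rw [show 8 = 4 * 2 from rfl, mul_pow]
  ring

end Pool.Agent.B6
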