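import Pool.Agent.Lib.MP_696deb_nt.B6.LKc

set_option autoImplicit false

open scoped Classical
open NumberTheorySymbols

namespace Pool.Agent.B6

open Pool.Agent.Lib.MP_696deb_nt (Pt pmap xco yco xco_some yco_some xco_pmap yco_pmap xco_neg pmap_injective pmap_pmap)
open Pool.Agent.Lib.MP_696deb_nt.B2

variable [Cw]

theorem m_cork {d : ℤ} (hd : d ≠ 0) (h : Stmt.CorankLE (Et d) 1) : Cork d :=
  lk_cork hd h

theorem m_rank {d : ℤ} (hd : d ≠ 0) (h : Cork d) : Module.Finite ℤ (Et d).toAffine.Point ∧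
    Module.finrank ℤ (Et d).toAffine.Point ≤ 1 :=
  have := lk_fg hd h
  ⟨this, lk_rank _ (lk_vcQ hd).hom_injective (lk_pts hd) h⟩

/-- Rational points of the twist and points fixed by the twisted action. -/
theorem m_pts {d : ℤ} (hd : d ≠ 0) : ∃ f : (Et d).toAffine.Point →+ EE,
    Function.Injective f ∧ ∀ P, P ∈ f.range ↔ ∀ g, tw d g P = P :=
  ⟨_, (lk_vcQ hd).hom_injective, lk_pts hd⟩

theorem m_nz {d : ℤ} (hd : d ≠ 0) (h : Cork d) :
    Nz d ↔ ∃ P : EE, ¬ IsOfFinAddOrder P ∧ ∀ g, tw d g P = P :=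
  have := lk_fg hd h
  lk_nz _ (lk_vcQ hd).hom_injective (lk_pts hd)

end Pool.Agent.B6
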