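import Pool.Agent.Lib.MP_696deb_nt.B4.FIa
import Pool.Agent.Lib.MP_696deb_nt.B6.MLK
import Pool.Agent.Lib.MP_696deb_nt.B2.B4c

/-! Complex conjugation on twisted Heegner points of arbitrary discriminant, and rational points
of quadratic twists. -/

set_option autoImplicit false

open Finset Filter Topology NumberTheorySymbols ComplexConjugate
open scoped Classical

namespace Pool.Agent.B6

open Pool.Agent.Lib.MP_696deb_nt Pool.Agent.B4

section

variable {W : WeierstrassCurve ℚ} {N e : ℕ} {D r : ℤ} {Q R : Fm} {T : Finset Fm}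

theorem gp_zero {p : ℕ} (hp : p.Prime) (h : ∀ x y, (p : ℤ) ∣ fval Q x y) : Gal.gp p Q = 0 := by
  rw [Gal.gp, if_pos (by simpa [fval] using h 1 0),
    jac_zero_of_dvd hp (by simpa [fval] using h 0 1)]

theorem gch_map {a b c d : ℤ} (ho : Odd e) (hd : (e : ℤ) ∣ fdisc Q) (h : a * d - b * c = 1) :
    gch e (fmap Q a b c d) = gch e Q := by
  refine prod_congr rfl fun p hp => ?_
  have p1 := Nat.prime_of_mem_primeFactors hp
  have p2 := Nat.dvd_of_mem_primeFactors hp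
  have p3 : p ≠ 2 := fun k => by
    rw [k] at p2; exact (Nat.not_even_iff_odd.2 ho) (even_iff_two_dvd.2 p2)
  have p4 : (p : ℤ) ∣ fdisc Q := (Int.natCast_dvd_natCast.2 p2).trans hd
  by_cases k : ∀ x y, (p : ℤ) ∣ fval (fmap Q a b c d) x y
  · refine (gp_zero p1 k).trans (gp_zero p1 fun x y => ?_).symm
    have := k (d * x - b * y) (a * y - c * x)
    rwa [fval_fmap, show a * (d * x - b * y) + b * (a * y - c * x) = x by linear_combination x * h,
      show c * (d * x - b * y) + d * (a * y - c * x) = y by linear_combination y * h] at this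
  push Not at k
  obtain ⟨x, y, p5⟩ := k
  refine (Gal.gp_eq p1 p3 (fdisc_fmap h Q ▸ p4) p5).trans ?_
  rw [fval_fmap] at p5 ⊢
  exact (Gal.gp_eq p1 p3 p4 p5).symm

theorem gch_geq (h : Hg N D r Q) (h' : Hg N D r R) (hD : D < 0) (ho : Odd e) (hd : (e : ℤ) ∣ D)
    (k : GEq N (froot R) (froot Q)) : gch e R = gch e Q := by
  obtain ⟨g, h1, -, h2⟩ := k
  have h3 := h1
  rw [Matrix.det_fin_two] at h3
  have h4 : fdisc Q < 0 := h.disc ▸ hD
  have h5 := fdisc_fmap h3 Q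
  have h6 := fmap_pos h3 h4 h.pos
  obtain rfl : R = fmap Q (g 0 0) (g 0 1) (g 1 0) (g 1 1) :=
    froot_inj (h5 ▸ h4) h6 h'.pos (by rw [h5, h.disc, h'.disc]) (by
      rw [← act_adjugate (M := g) (by omega) (h'.im_pos hD), ← h2, ← mob_froot h3 h4 h.pos]
      exact act_adjugate (by omega) (im_froot_pos (h5 ▸ h4) h6))
  exact gch_map ho (h.disc ▸ hd) h3

/-- The action of complex conjugation on the twisted Heegner point. -/
theorem conj_sum (hT : HRp N D r T) (P : GE.Par W N) (hD : D < 0) (he : Squarefree e) (ho : Odd e)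
    (hd : (e : ℤ) ∣ D) (hc : e.Coprime N) :
    pmap (starRingEnd ℂ) (∑ Q ∈ T, gch e Q • P.φ (froot Q)) =
      (∑ Q ∈ T, gch e Q) • P.per.unif P.t0 - J(N | e) • ∑ Q ∈ T, gch e Q • P.φ (froot Q) := by
  have hN := P.N0
  choose! ω o1 o2 using fun Q hQ => hT.ex _ ((hT.mem Q hQ).st hN hD).1
  have i := fun Q hQ => (hT.mem Q hQ).im_pos hD
  have inj : Set.InjOn ω T := fun Q hQ R hR k => by
    have k1 := ((hT.mem Q hQ).st hN hD)
    have := (((o2 Q hQ).symm (i _ (o1 Q hQ))).trans (k ▸ o2 R hR) (k1.1.im_pos hD)).sig hN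
      (k1.1.im_pos hD)
    rw [k1.2, ((hT.mem R hR).st hN hD).2, sig_sig hN, sig_sig hN] at this
    exact hT.uniq Q hQ R hR this
  have s := sum_nbij ω o1 inj (surjOn_of_injOn_of_card_le ω o1 inj le_rfl)
    (f := fun Q => gch e (ω Q) • P.φ (froot (ω Q))) (g := fun Q => gch e Q • P.φ (froot Q))
    fun _ _ => rfl
  rw [map_sum, ← s, Finset.sum_smul (R := ℤ) (M := Pt W ℂ), smul_sum, ← sum_sub_distrib]
  refine sum_congr rfl fun Q hQ => ?_
  have k1 := (hT.mem Q hQ).st hN hD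
  obtain ⟨g, g1, g2, g3⟩ := o2 Q hQ
  rw [map_zsmul, P.φ_conj (i Q hQ), gch_geq k1.1 (hT.mem _ (o1 Q hQ)) hD ho hd (o2 Q hQ), smul_smul,
    ← (hT.mem Q hQ).gch_st he ho hd hc, ← smul_sub,
    ← P.inv0 g ⟨g1, g2⟩ _ (i _ (o1 Q hQ)), ← g3, k1.2, B4.sig, P.φ_al (by simpa using i Q hQ),
    sub_sub_cancel]

end

open Pool.Agent.Lib.MP_696deb_nt.B2

variable [Cw] {d e : ℤ} {n : ℕ} {y : EE}

theorem fi_jC {P : EE} : IsOfFinAddOrder (pmap jC P) ↔ IsOfFinAddOrder P :=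
  (pmap_injective jC).isOfFinAddOrder_iff

theorem fi_finrank (hd : d ≠ 0) (h : Cork d) (hz : ¬ Nz d) :
    Module.finrank ℤ (Et d).toAffine.Point = 0 := by
  have := (m_rank hd h).1
  obtain ⟨f, f1, f2⟩ := m_pts hd
  rw [Module.finrank_eq_zero_iff_isTorsion]
  refine isAddTorsion_iff_isTorsion_int.mp fun P => ?_
  by_contra k
  exact hz ((m_nz hd h).mpr ⟨f P, mt f1.isOfFinAddOrder_iff.mp k, (f2 _).mp ⟨P, rfl⟩⟩)

theorem fi_finrank_one (hd : d ≠ 0) (h : Cork d) (h1 : ¬ IsOfFinAddOrder y)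
    (h2 : ∀ g, tw d g y = y) : Module.finrank ℤ (Et d).toAffine.Point = 1 := by
  obtain ⟨hf, hle⟩ := m_rank hd h
  obtain ⟨f, f1, f2⟩ := m_pts hd
  obtain ⟨Q, rfl⟩ := (f2 y).2 h2
  exact le_antisymm hle (RankOne.one_le_finrank fun k => h1 (f.isOfFinAddOrder k))

theorem K1_of_near {w : Plc} (hw : ¬ (w.p : ℤ) ∣ WZ.Δ) {R S : EE} (h : GE.Near w R S) :
    R - S ∈ K1 w :=
  h.elim (fun h => sub_mem (mem_K1.2 h.1) (mem_K1.2 h.2)) fun h =>
    K1_near hw (mt mem_K1.1 h.1) (mt mem_K1.1 h.2.1) h.2.2.1 h.2.2.2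

theorem near_iff {w : Plc} (hw : ¬ (w.p : ℤ) ∣ WZ.Δ) (R S : EE) : R - S ∈ K1 w ↔ GE.Near w R S :=
  ⟨fun h => by
    by_cases k : R ∈ K1 w
    · exact .inl ⟨k, mem_K1.1 (by simpa using sub_mem k h)⟩
    · exact .inr ⟨k, fun k' => k (by simpa using add_mem h (mem_K1.2 k')), near_of_K1 k h⟩,
    K1_of_near hw⟩

/-- A point over the quadratic field that is fixed by conjugation up to torsion. -/
theorem fi_rat (hn : 0 < n) (h1 : ∀ g ∈ GK n, tw e g y = y)
    (h2 : IsOfFinAddOrder (tw e cc y - y)) (hy : ¬ IsOfFinAddOrder y) :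
    ∃ Q : EE, ¬ IsOfFinAddOrder Q ∧ ∀ g, tw e g Q = Q := by
  obtain ⟨m, m0, hm⟩ := isOfFinAddOrder_iff_nsmul_eq_zero.mp h2
  have h3 : ∀ g ∈ GK n, lkT e g (m • y) = m • y := fun g hg => by
    rw [map_nsmul, lkT_apply, h1 g hg]
  rw [smul_sub, sub_eq_zero, ← lkT_apply, ← map_nsmul, lkT_apply] at hm
  refine ⟨m • y, fun k => hy (k.of_nsmul m0.ne'), fun g => ?_⟩
  by_cases hg : g ∈ GK n
  · exact h3 g hg
  · rw [← mul_one g, ← cc_mul_cc, ← mul_assoc, lk_tw_mul, hm]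
    exact h3 _ (mul_mem_GK hg (cc_notMem hn))

/-- The genus point of an arbitrary negative discriminant gives a rational point of the twist with
the right sign. -/
theorem fi_nz {N A : ℕ} {D r s : ℤ} {T : Finset Fm} {P : GE.Par Wu N} (hn : 0 < n)
    (hT : HRp N D r T) (hD : D < 0) (hA : Squarefree A) (ho : Odd A) (hd : (A : ℤ) ∣ D)
    (hc : A.Coprime N) (ht : IsOfFinAddOrder (P.per.unif P.t0))
    (h : IsOfFinAddOrder (pmap jC y - s • ∑ Q ∈ T, gch A Q • P.φ (froot Q)))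
    (h1 : ∀ g ∈ GK n, tw e g y = y) (hs : (chi e cc : ℤ) * J(N | A) = -1)
    (hy : ¬ IsOfFinAddOrder y) : ∃ Q : EE, ¬ IsOfFinAddOrder Q ∧ ∀ g, tw e g Q = Q := by
  refine fi_rat hn h1 ?_ hy
  obtain ⟨t, h, k⟩ : ∃ t, IsOfFinAddOrder t ∧
      pmap jC y = s • ∑ Q ∈ T, gch A Q • P.φ (froot Q) + t := ⟨_, h, by rw [add_sub_cancel]⟩
  rw [← fi_jC, map_sub, tw, map_zsmul, jC_cc_pt, k, map_add, map_zsmul,
    conj_sum hT P hD hA ho hd hc]
  have := ((ht.zsmul (i := (chi e cc : ℤ) * s * ∑ Q ∈ T, gch A Q)).add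
    (((pmap (starRingEnd ℂ)).isOfFinAddOrder h).zsmul (i := (chi e cc : ℤ)))).add h.neg
  generalize ∑ Q ∈ T, gch A Q • P.φ (froot Q) = Y, P.per.unif P.t0 = t0,
    pmap (starRingEnd ℂ) t = t', ∑ Q ∈ T, gch A Q = m, (chi e cc : ℤ) = u, J(N | A) = j at *
  rwa [show u • (s • (m • t0 - j • Y) + t') - (s • Y + t) = (u * s * m) • t0 + u • t' + -t by
    linear_combination (norm := module) (-s * hs) • Y]

end Pool.Agent.B6
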