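import Pool.Agent.Lib.MP_696deb_nt.RankZero

/-! Elementary number theory for the choice of the auxiliary field. -/

set_option autoImplicit false

open NumberTheorySymbols

namespace Pool.Agent.B6

open Pool.Agent.Lib.MP_696deb_nt

theorem kl_crt {a b : ℤ} (h : IsCoprime a b) (x y : ℤ) : ∃ z, a ∣ z - x ∧ b ∣ z - y := by
  obtain ⟨u, v, e⟩ := h
  exact ⟨x * (v * b) + y * (u * a), ⟨(y - x) * u, by linear_combination x * e⟩,
    ⟨(x - y) * v, by linear_combination y * e⟩⟩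

theorem kl_sq {N : ℕ} (hN : Squarefree N) {x : ℤ} (h : ∀ p : ℕ, p.Prime → p ∣ N → J(x | p) = 1) :
    ∃ β : ℤ, (N : ℤ) ∣ β ^ 2 - x := by
  induction N using Nat.recOnPosPrimePosCoprime with
  | prime_pow p k hp hk =>
    obtain rfl : k = 1 := by
      rcases (Nat.squarefree_pow_iff hp.ne_one hk.ne').1 hN with ⟨-, e⟩
      exact e
    have := Fact.mk hp
    rw [pow_one]
    obtain ⟨y, hy⟩ := ZMod.isSquare_of_jacobiSym_eq_one (h p hp (by simp))
    obtain ⟨y, rfl⟩ := ZMod.intCast_surjective y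
    exact ⟨y, (ZMod.intCast_zmod_eq_zero_iff_dvd _ _).1 (by push_cast; rw [hy]; ring)⟩
  | zero => exact absurd hN not_squarefree_zero
  | one => exact ⟨0, by simp⟩
  | coprime a b _ _ hab iha ihb =>
    obtain ⟨u, hu⟩ := iha (hN.squarefree_of_dvd (dvd_mul_right a b))
      fun p hp k => h p hp (k.mul_right b)
    obtain ⟨v, hv⟩ := ihb (hN.squarefree_of_dvd (dvd_mul_left b a))
      fun p hp k => h p hp (k.mul_left a)
    have hc := Nat.isCoprime_iff_coprime.2 hab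
    obtain ⟨z, ⟨s, hs⟩, t, ht⟩ := kl_crt hc u v
    refine ⟨z, Nat.cast_mul (α := ℤ) a b ▸ hc.mul_dvd ?_ ?_⟩
    · convert dvd_add hu (dvd_mul_right (a : ℤ) (s * (z + u))) using 1
      linear_combination (z + u) * hs
    · convert dvd_add hv (dvd_mul_right (b : ℤ) (t * (z + v))) using 1
      linear_combination (z + v) * ht

theorem kl_root {N : ℕ} (hN : Squarefree N) (ho : Odd N) {x : ℤ} (h4 : x % 4 = 1)
    (h : ∀ p : ℕ, p.Prime → p ∣ N → J(x | p) = 1) : ∃ β : ℤ, 4 * (N : ℤ) ∣ β ^ 2 - x := by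
  obtain ⟨u, hu⟩ := kl_sq hN h
  have hc : IsCoprime (4 : ℤ) N := by
    have := Nat.isCoprime_iff_coprime.2 ((Nat.coprime_two_left.2 ho).pow_left 2)
    exact_mod_cast this
  obtain ⟨z, ⟨s, hs⟩, t, ht⟩ := kl_crt hc 1 u
  refine ⟨z, hc.mul_dvd ⟨s * (z + 1) - x / 4, ?_⟩ ?_⟩
  · have : x = 4 * (x / 4) + 1 := by omega
    linear_combination (z + 1) * hs - this
  · convert dvd_add hu (dvd_mul_right (N : ℤ) (t * (z + u))) using 1
    linear_combination (z + u) * ht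

theorem kl_condB {q l : ℕ} (hq : q.Prime) (hl : l.Prime) (h : J(l | q) = -1) :
    CondB ((q * l : ℕ) : ℤ) := by
  intro d d' e d0 h1 h2
  have := Fact.mk hq
  have ns : ¬ IsSquare ((l : ℤ) : ZMod q) := ZMod.nonsquare_of_jacobiSym_eq_neg_one h
  have q0 : (0 : ℤ) < q := by exact_mod_cast hq.pos
  have l0 : (0 : ℤ) < l := by exact_mod_cast hl.pos
  have hq' := Nat.prime_iff_prime_int.1 hq
  have key : ∀ {a b : ℤ}, 0 < a → a * b = l → a = 1 ∨ a = l := fun {a b} a0 k => by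
    lift a to ℕ using a0.le
    have := (Nat.dvd_prime hl).1 (Int.natCast_dvd_natCast.1 ⟨b, k.symm⟩)
    omega
  push_cast at e
  rcases hq'.dvd_or_dvd (show (q : ℤ) ∣ d * d' from ⟨l, e⟩) with ⟨t, rfl⟩ | ⟨t, rfl⟩
  · have e2 : d' * t = l := mul_left_cancel₀ q0.ne' (by linear_combination e)
    have d1 : 0 < d' := pos_of_mul_pos_left (b := q * t) (by rw [mul_comm, e]; positivity) d0.le
    exact (key d1 e2).elim .inr fun k => absurd (k ▸ h2 q hq (dvd_mul_right _ _)) ns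
  · have e2 : d * t = l := mul_left_cancel₀ q0.ne' (by linear_combination e)
    exact (key d0 e2).elim .inl fun k => absurd (k ▸ h1 q hq (dvd_mul_right _ _)) ns

theorem kl_split {q : ℕ} (hq : q.Prime) (q4 : q % 4 = 3) {d : ℤ} (hd : Squarefree d)
    (d4 : d % 4 = 1) : ∃ f e e₁ : ℤ, d = f * e ∧ e * e₁ = -q ∧ e % 4 = 1 ∧ e₁ % 4 = 1 ∧ f % 4 = 1 ∧
      IsCoprime f q := by
  have hq' := Nat.prime_iff_prime_int.1 hq
  by_cases h : (q : ℤ) ∣ d
  · obtain ⟨t, rfl⟩ := h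
    refine ⟨-t, -q, 1, by ring, by ring, by omega, rfl, ?_, ?_⟩
    · have := Int.emod_emod_of_dvd t (show (4 : ℤ) ∣ 4 by norm_num)
      rw [Int.mul_emod, show (q : ℤ) % 4 = 3 by omega] at d4
      omega
    · exact ((hq'.coprime_iff_not_dvd.2 fun k =>
        hq'.not_isUnit (hd _ (mul_dvd_mul_left _ k))).symm).neg_left
  · exact ⟨d, 1, -q, by ring, by ring, rfl, by omega, d4, (hq'.coprime_iff_not_dvd.2 h).symm⟩

theorem kl_a {N q m : ℕ} (h1 : IsCoprime (8 * N : ℤ) q) (h2 : IsCoprime (8 * N * q : ℤ) m)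
    (N0 : N ≠ 0) (q0 : q ≠ 0) (m0 : m ≠ 0) : ∃ a : ℕ, (8 * N : ℤ) ∣ a - 1 ∧ (q : ℤ) ∣ a - -1 ∧
      (m : ℤ) ∣ a - -q := by
  obtain ⟨x, x1, x2⟩ := kl_crt h1 1 (-1)
  obtain ⟨y, y1, y2⟩ := kl_crt h2 x (-q)
  have p : (0 : ℤ) < 8 * N * q * m := by positivity
  have e : ((y % (8 * N * q * m)).toNat : ℤ) = y - 8 * N * q * m * (y / (8 * N * q * m)) := by
    rw [Int.toNat_of_nonneg (Int.emod_nonneg _ p.ne'), Int.emod_def]
  obtain ⟨s, hs⟩ := y1
  obtain ⟨t, ht⟩ := y2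
  obtain ⟨u, hu⟩ := x1
  obtain ⟨v, hv⟩ := x2
  generalize y / (8 * N * q * m) = k at e
  generalize (y % (8 * N * q * m)).toNat = a at e
  exact ⟨a, ⟨q * s + u - q * m * k, by linear_combination e + hs + hu⟩,
    ⟨8 * N * s + v - 8 * N * m * k, by linear_combination e + hs + hv⟩,
    ⟨t - 8 * N * q * k, by linear_combination e + ht⟩⟩

theorem kl_jac {a b : ℤ} {m : ℕ} (h : (m : ℤ) ∣ a - b) : J(a | m) = J(b | m) :=
  jacobiSym.mod_left' (Int.modEq_iff_dvd.2 h).symm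

end Pool.Agent.B6
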