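import Pool.Agent.Lib.MP_696deb_nt.B6.PAk2
import Pool.Agent.Lib.MP_696deb_nt.B4.PAq
import Pool.Agent.Lib.MP_696deb_nt.B2.PAr

/-! The upper bound at a prime of height one, and the rank at the augmentation ideal. -/

set_option autoImplicit false

open scoped Classical
open Finset Matrix PowerSeries Filter Submodule LinearMap

namespace Pool.Agent.B6.PA

open Pool.Agent.Lib.MP_696deb_nt Pool.Agent.Lib.MP_696deb_nt.B2
open Pool.Agent.Lib.MP_696deb_nt.B2.PA hiding Sys Eqv PAr_val PAr_ne PAr_chain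

variable {O F Γ : Type} [CommRing O] [IsDomain O] [IsDiscreteValuationRing O] [AddCommGroup F]
  [Module O F] [Group Γ] {N : Subgroup Γ} {par : Prop} {f h : O} {k0 : Γ → Fin 2 → O}

theorem PAr_val (S : Sys O (IsLocalRing.maximalIdeal O) Γ N F par f h k0) (hh : h ≠ 0) :
    S.kap S.n0 (S.ev S.φ0 1) ≠ 0 ∧ Ring.ord O (S.kap S.n0 (S.ev S.φ0 1)) = Ring.ord O h := by
  obtain ⟨a, ha, e⟩ := S.kap_h
  have hu := IsLocalRing.notMem_maximalIdeal.1 ha
  rw [e]
  exact ⟨mul_ne_zero hu.ne_zero hh, Ring.ord_mul_of_isUnit_left hu h⟩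

theorem PAr_ne (S : Sys O (IsLocalRing.maximalIdeal O) Γ N F par f h k0) (hh : h ≠ 0) :
    S.kap S.n0 ≠ 0 := fun e => (PAr_val S hh).1 (by simp [e])

theorem PAr_chain (S : Sys O (IsLocalRing.maximalIdeal O) Γ N F par f h k0) (hh : h ≠ 0) :
    Ring.ord O f + 2 * rl (range (S.kap S.n0)) ⊤ ≤
      rl (S.R S.n0) (ker (S.kap S.n0)) + Ring.ord O (h ^ 2) := by
  obtain ⟨p, p1, p2⟩ := S.pres
  have k1 := ord_le_pres S.M p p1 p2 (nu := 0) (q0 := 1) (q1 := 1) (by simp) (by simp)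
  have e := S.R_n0
  rw [← span_rot] at e
  have k2 := @B4.PA.bridge ⟨0⟩ O F _ _ _ _ _ _ (S.ev S.φ0) _ _ (e ▸ S.kap_R S.n0)
    (e ▸ S.rk1 S.n0 (PAr_ne S hh)) (by simpa using (PAr_val S hh).1) S.iso0
  simp only [zero_smul, sub_zero, zero_add, rot_one] at k2
  rw [S.det, Set.range_zero, span_zero_singleton, sup_bot_eq, Ring.ord_one, add_zero,
    add_zero] at k1
  rw [← e, (PAr_val S hh).2] at k2
  rw [sq, PAr_mul, ← two_mul]
  exact (add_le_add_left k1 _).trans k2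

theorem Sys.upper (S : Sys O (IsLocalRing.maximalIdeal O) Γ N F par f h k0) (hh : h ≠ 0) :
    Ring.ord O f ≤ Ring.ord O (h ^ 2) := by
  have hn := PAr_ne S hh
  obtain ⟨g, a, -, -, ha, -, e, -⟩ := prim hn (S.kap_R S.n0) (S.rk1 S.n0 hn)
  have k := (PAr_chain S hh).trans (add_le_add_left (S.bd S.n0 hn) _)
  have c : 2 * rl (range (S.kap S.n0)) ⊤ ≠ ⊤ := by
    rw [e, two_mul, ← PAr_mul]
    exact Ring.ord_ne_top (mem_nonZeroDivisors_of_ne_zero (mul_ne_zero ha ha))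
  rw [add_comm] at k
  exact (ENat.add_le_add_iff_left c).1 k

theorem Sys.surj (S : Sys O (IsLocalRing.maximalIdeal O) Γ N F par f h k0) (hp : par)
    (hg : h ^ 2 ≠ 0) (hf : Ring.ord O (h ^ 2) ≤ Ring.ord O f) :
    ∃ σ ∈ N, ∃ i, k0 σ i ∉ IsLocalRing.maximalIdeal O := by
  have hh : h ≠ 0 := fun e => hg (by simp [e])
  have hn := PAr_ne S hh
  have k := (add_le_add_left hf _).trans (PAr_chain S hh)
  rw [rl_eq_zero.2 (S.parity hp hn), add_comm] at k
  have k1 := (ENat.add_le_add_iff_right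
    (Ring.ord_ne_top (mem_nonZeroDivisors_of_ne_zero hg))).1 k
  have k2 : rl (range (S.kap S.n0)) ⊤ = 0 := by simpa using k1
  obtain ⟨x, hx⟩ := rl_eq_zero.1 k2 (mem_top : (1 : O) ∈ ⊤)
  by_contra hc
  push Not at hc
  obtain ⟨t, ht, m⟩ := S.gen S.n0 x
  have le : S.R S.n0 ⊔ span O {y | ∃ σ ∈ N, ∃ i, y = S.ev σ i} ≤
      Submodule.comap (S.kap S.n0) (IsLocalRing.maximalIdeal O) := by
    refine sup_le (fun y hy => ?_) (span_le.2 ?_)
    · rw [Submodule.mem_comap, LinearMap.mem_ker.1 (S.kap_R S.n0 hy)]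
      exact zero_mem _
    · rintro _ ⟨σ, hσ, i, rfl⟩
      rw [SetLike.mem_coe, Submodule.mem_comap, S.kap_k0]
      exact hc σ hσ i
  have := le m
  rw [Submodule.mem_comap, map_smul, hx, smul_eq_mul, mul_one] at this
  exact ht this

theorem Sys.dim1 (S : Sys O (IsLocalRing.maximalIdeal O) Γ N F par f h k0) (hp : par)
    (hh : h ≠ 0) : Dim1 (IsLocalRing.maximalIdeal O) (S.R S.n0) := by
  have hn := PAr_ne S hh
  obtain ⟨g, a, g1, -, ha, e, -, -⟩ := prim hn (S.kap_R S.n0) (S.rk1 S.n0 hn)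
  obtain ⟨x0, hx⟩ := g1 1
  have key : ∀ t : F →ₗ[O] O ⧸ IsLocalRing.maximalIdeal O, S.R S.n0 ≤ ker t → ∀ x,
      t x = g x • t x0 := fun t ht x => by
    have : x - g x • x0 ∈ ker (S.kap S.n0) := by
      simp [LinearMap.mem_ker, e, hx]
    have := LinearMap.mem_ker.1 (ht (S.parity hp hn this))
    rwa [map_sub, map_smul, sub_eq_zero] at this
  intro t t' ht ht'
  obtain ⟨b, hb⟩ := Ideal.Quotient.mk_surjective (t x0)
  obtain ⟨b', hb'⟩ := Ideal.Quotient.mk_surjective (t' x0)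
  by_cases k : b ∈ IsLocalRing.maximalIdeal O
  · refine ⟨1, 0, .inl (IsLocalRing.notMem_maximalIdeal.2 isUnit_one), ?_⟩
    ext x
    simp [key t ht x, ← hb, Ideal.Quotient.eq_zero_iff_mem.2 k]
  · refine ⟨-b', b, .inr k, ?_⟩
    ext x
    simp only [LinearMap.add_apply, LinearMap.smul_apply, LinearMap.zero_apply, key t ht x,
      key t' ht' x, ← hb, ← hb', Algebra.smul_def, Ideal.Quotient.algebraMap_eq, map_neg]
    ring

end Pool.Agent.B6.PA
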