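import Pool.Agent.Lib.MP_696deb_nt.B6.PAu
import Pool.Agent.Lib.MP_696deb_nt.B2.PAd
import Pool.Agent.Lib.MP_696deb_nt.B6.PAh3
import Pool.Agent.Lib.MP_696deb_nt.B6.PAr
import Pool.Agent.Lib.MP_696deb_nt.B2.PAm
import Pool.Agent.Lib.MP_696deb_nt.B2.PAg2

/-! The patching theorem. -/

set_option autoImplicit false

open scoped Classical
open Finset Matrix PowerSeries Filter Submodule LinearMap

namespace Pool.Agent.B6.PA

open Pool.Agent.Lib.MP_696deb_nt
open Pool.Agent.Lib.MP_696deb_nt.B2 hiding Lev Lag IsoW CoW PAStmt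
open Pool.Agent.Lib.MP_696deb_nt.B2.PA hiding Sys Eqv L_one L_add L_conj L_sah0 L_sah perp_lag
  isoT_of coT_of NN mem_NN RFi hi kapi rel_lag kapi_evi kapi_rel rel_add rel_conj rel_gen
  Ro Ro_van sys_step tame_S0 k0i sys_of PAr_val PAr_ne PAr_chain coord_ne

variable {G : Type} [Group G] {θ : G →* G} {e : ℕ} {lv : ℕ → ℕ} (hlv : ∀ k, k < lv k)
  (T : ∀ k, Lev G θ e (lv k))

include hlv in
/-- The square presentation in the limit. -/
theorem branch_pres {C : ℕ} (hC : ∀ k, Nat.card (Wk ((T k).S (T k).n0) (aa 1 1)) ≤ C) :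
    (∀ k, PGen (C + 2) (perp (T k).SF)) ∧ ∃ (r : ℕ) (M : Matrix (Fin r) (Fin r) Lam),
      Nonempty ((Fr (ℕ → G × Fin 2) ⧸ RFi T) ≃ₗ[Lam] Cok M) := by
  have h1 : ∀ k, 1 ≤ lv k := fun k => (Nat.zero_le k).trans_lt (hlv k)
  have hf : ∀ k, Finite (T k).SF := fun k =>
    have := (T k).fin0
    Finite.of_injective _ (Submodule.inclusion_injective (inf_le_left : (T k).SF ≤ (T k).S0))
  have hG : ∀ k, PGen (C + 2) (perp (T k).SF) := fun k => by
    have := (T k).fin0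
    have : Finite ((T k).S (T k).n0) := Finite.of_injective _
      (Submodule.inclusion_injective ((T k).S_n0.trans_le inf_le_left))
    have := fin_perp (S := (T k).S (T k).n0)
    have h2 : PGen C (perp ((T k).S (T k).n0)) := gen_of_cnt _ (by
      rw [cnt_perp (aa_anti (h1 k) (h1 k))]
      exact (hC k).trans Nat.lt_two_pow_self.le)
    rw [(T k).S_n0, perp_van] at h2
    exact (PGen.of_sup (fun i => ((T k).s0, i)) le_rfl h2).mono le_rfl (perp_anti inf_le_left)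
  refine ⟨hG, U_sq (r0 := C + 2) hlv fun k => sq_pres (h1 k) _ (aa_le_perp _) (hG k) ?_⟩
  rw [cnt_perp le_sup_left, cnt_self]
  exact (T k).sq

theorem tame_SF {r0 : ℕ} (hG : ∀ k, PGen r0 (perp (T k).SF)) : Tame fun k => (T k).SF :=
  (tame_S0 T hG).le fun _ => inf_le_left

section

variable {r0 : ℕ} (hG : ∀ k, PGen r0 (perp (T k).SF)) {r : ℕ} (M : Matrix (Fin r) (Fin r) Lam)
  (E : (Fr (ℕ → G × Fin 2) ⧸ RFi T) ≃ₗ[Lam] Cok M)
include hlv hG E

theorem cntM_lim (j i : ℕ) : ∀ᶠ k in UU, j ≤ lv k ∧ i ≤ lv k ∧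
    cntM M (aa j i) = Nat.card (Wk (T k).SF (aa j i)) := by
  rw [← cnt_cok _ M E]
  exact cnt_lim hlv (tame_SF T hG) j i

theorem branch_dvd (hg : hi T ≠ 0) : ∀ π : Lam, Prime π → ∀ n, π ^ n ∣ M.det → π ^ n ∣ hi T ^ 2 := by
  intro π hπ n hn
  have hP : (Ideal.span {π}).IsPrime := (Ideal.span_singleton_prime hπ.ne_zero).2 hπ
  obtain ⟨y, hy, h2⟩ : ∃ y, YY y ∧ y ∉ Ideal.span {π} := by
    by_contra! hc
    have h1 := Ideal.mem_span_singleton.1 (hc 2 (.inl rfl))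
    have h2 := Ideal.mem_span_singleton.1 (hc X (.inr rfl))
    exact two_notMem (Ideal.mem_span_singleton.2
      ((hπ.associated_of_dvd prime_X h2).symm.dvd.trans h1))
  obtain ⟨S, -⟩ := sys_of hlv T hG M E hy h2 (par := False) False.elim
  obtain ⟨S', -⟩ := S.loc
  have := dvr_at hπ
  have h := S'.upper fun h0 => hg ((map_eq_zero_iff _ (lo_inj _)).1 h0)
  refine (ord_at hπ _ n).2 (((ord_at hπ _ n).1 hn).trans ?_)
  simpa only [map_pow] using h

theorem branch_fin (hg : hi T ≠ 0) (hd : hi T ^ 2 ∣ M.det) (hc : ∃ C, ∀ k j, j ≤ lv k →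
      Nat.card (Wk ((T k).S (T k).n0) (aa j 1)) ≤ C * 4 ^ j) :
    (∃ σ ∈ NN T, ∃ i, k0i T σ i ∉ Ideal.span {(X : Lam)}) ∧
      ∃ C, ∀ j, ∃ k, j ≤ lv k ∧ Nat.card (Wk ((T k).S (T k).n0) (aa j 1)) ≤ C * 2 ^ j := by
  have hP : (Ideal.span {(X : Lam)}).IsPrime := (Ideal.span_singleton_prime prime_X.ne_zero).2 prime_X
  obtain ⟨S, hS⟩ := sys_of hlv T hG M E (.inl rfl) two_notMem (par := True) fun _ => ⟨rfl, hc⟩
  obtain ⟨S', hS'⟩ := S.loc
  have := dvr_at prime_X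
  have hg' : algebraMap Lam (LO (Ideal.span {(X : Lam)})) (hi T) ≠ 0 :=
    (map_ne_zero_iff _ (lo_inj _)).2 hg
  have hd' := Ring.ord_le_ord_of_dvd (map_dvd (algebraMap Lam (LO (Ideal.span {(X : Lam)}))) hd)
  rw [map_pow] at hd'
  constructor
  · obtain ⟨σ, hσ, i, hi⟩ := S'.surj trivial (pow_ne_zero 2 hg') hd'
    exact ⟨σ, hσ, i, (lo_notMem _).1 hi⟩
  · have h1 := S'.dim1 trivial hg'
    rw [hS', hS] at h1
    have hn0 : Tame fun k => (T k).S (T k).n0 :=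
      (tame_S0 T hG).le fun k => (T k).S_n0.trans_le inf_le_left
    obtain ⟨r, hr⟩ := hn0.2
    have := U_fg hr
    obtain ⟨C, hC⟩ := cnt_of_dim1 (PRel fun k => perp ((T k).S (T k).n0)) (Dim1.of_loc h1)
    refine ⟨C, fun j => ?_⟩
    obtain ⟨k, h4, -, h5⟩ := (cnt_lim hlv hn0 j 1).exists
    exact ⟨k, h4, h5 ▸ hC j⟩

end

theorem lamb_le {f : Lam} {m : ℕ} (h : f ∉ aa 1 (m + 1)) : lamb f ≤ m := by
  by_contra hc
  refine h ?_
  rw [pam_aa_red, Ideal.mem_comap, Ideal.mem_span_singleton, X_pow_dvd_iff]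
  exact fun n hn => coeff_of_lt_order n
    ((Nat.cast_le.2 (Nat.lt_succ_iff.1 hn)).trans_lt (not_le.1 hc))

theorem pa : PAStmt := by
  intro G _ θ e lv T hlv ⟨j0, hm⟩ hc
  obtain ⟨hG, r, M, ⟨E⟩⟩ := branch_pres hlv T fun k =>
    hc.choose_spec k 1 ((Nat.zero_le k).trans_lt (hlv k))
  obtain ⟨k, ⟨-, h3, h4⟩, h5⟩ :=
    ((cntM_lim hlv T hG M E 1 j0).and (ul_spec (fun k => (T k).h * (T k).h) j0)).exists
  obtain ⟨m, hj, hg, hcard⟩ := hm k h3
  have lh2 : lamb (hi T ^ 2) ≤ m := lamb_le fun h => hg (by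
    have := add_mem (aa_anti (j := 1) (i := m + 1) ((Nat.zero_le m).trans_lt hj) hj h5) h
    rwa [sq, hi, ← ul_mul, show ((fun k => (T k).h) * fun k => (T k).h) =
      fun k => (T k).h * (T k).h from rfl, sub_add_cancel, ← sq] at this)
  have h0 : hi T ≠ 0 := fun h => by
    rw [h, zero_pow two_ne_zero, lamb_zero] at lh2
    exact ENat.natCast_ne_top m (top_le_iff.1 lh2)
  have hdv := branch_dvd hlv T hG M E h0
  have lM : lamb M.det ≠ ⊤ := fun h => by
    have h6 : (2 : Lam) ∣ M.det := by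
      rw [lamb, order_eq_top] at h
      have h7 : M.det ∈ aa 1 0 ⊓ Ideal.span {(2 : Lam)} := ⟨mem_aa.2 (by simp), closedI _ fun j =>
        (show aa 1 j ≤ Ideal.span {2} ⊔ aa j j from Ideal.span_le.2 (by
          rintro _ (rfl | rfl)
          · exact mem_sup_left (Ideal.subset_span (by simp))
          · exact mem_sup_right (Ideal.subset_span (by simp)))) (by
          rw [pam_aa_red, Ideal.mem_comap]
          exact h ▸ zero_mem _)⟩
      exact Ideal.mem_span_singleton.1 h7.2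
    have h7 := hdv 2 prime_two 1 (by rwa [pow_one])
    rw [pow_one] at h7
    rw [lamb_congr (g := 0) (by rw [sub_zero]; exact Ideal.mem_span_singleton.2 h7),
      lamb_zero] at lh2
    exact ENat.natCast_ne_top _ (top_le_iff.1 lh2)
  obtain ⟨w, hw⟩ : M.det ∣ hi T ^ 2 := dvd_of_primes lM fun π hπ _ => hdv π hπ
  have uw : IsUnit w := lamb_eq_zero.1 (by
    obtain ⟨n, hn⟩ := ENat.ne_top_iff_exists.1 lM
    have h6 : m ≤ n :=
      (Nat.pow_le_pow_iff_right one_lt_two).1 ((h4 ▸ hcard).trans (cnt_two_le M hn.ge j0))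
    rw [hw, lamb_mul, ← hn] at lh2
    have h8 : (n : ℕ∞) + lamb w ≤ n + 0 := by
      rw [add_zero]
      exact lh2.trans (Nat.cast_le.2 h6)
    exact le_zero_iff.1 ((ENat.add_le_add_iff_left (ENat.natCast_ne_top n)).1 h8))
  obtain ⟨⟨σ, hσ, i, hi⟩, h7⟩ :=
    branch_fin hlv T hG M E h0 (hw ▸ uw.mul_right_dvd.2 dvd_rfl) hc
  refine ⟨fun ⟨a, ha⟩ => hi ?_, h7⟩
  have hP : (Ideal.span {(X : Lam)}).IsPrime := (Ideal.span_singleton_prime prime_X.ne_zero).2 prime_X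
  refine (hP.mem_or_mem (x := 2 ^ a) ?_).resolve_left fun h => two_notMem (hP.mem_of_pow_mem a h)
  choose t ht using fun k => Ideal.mem_span_singleton'.1 (ha k (σ k) ((mem_NN T).1 hσ k) i)
  have h8 := congrArg (lim hlv) (funext ht :
    (t * fun k => Ideal.Quotient.mk (aa (lv k) (lv k)) X) =
      2 ^ a * fun k => (T k).kap (T k).n0 (σ k) i)
  rw [map_mul, map_mul, lim_mk hlv fun _ => X, ul_const, map_pow, map_ofNat] at h8
  rw [k0i, kapi_evi hlv, ← h8]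
  exact Ideal.mul_mem_left _ _ (Ideal.subset_span rfl)

end Pool.Agent.B6.PA
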