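import Pool.Agent.Lib.MP_696deb_nt.B6.LF1
import Pool.Agent.Lib.MP_696deb_nt.B2.LA
import Pool.Agent.Lib.MP_696deb_nt.B2.PAd

/-! Tame places where inertia acts through scalars or through transvections. -/

set_option autoImplicit false

open scoped NNReal Classical
open Finset Matrix PowerSeries

namespace Pool.Agent.B6

open Pool.Agent.Lib.MP_696deb_nt Pool.Agent.Lib.MP_696deb_nt.B2 Pool.Agent.Lib.MP_696deb_nt.B6

variable {B : Type} [AddCommGroup B] [Module Lam B] {D H : Subgroup Gam}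
  {a : Gam → (Fin 2 → B) →+ Fin 2 → B} {c : Gam → Fin 2 → B} {w : Plc} {q k : ℕ} {φ τ g σ : Gam}
  {A : Matrix (Fin 2) (Fin 2) Lam}

theorem lf_unit' {u : Lam} (h : u ∉ aa 1 1) : IsUnit u := by
  rwa [← PA.max_eq, IsLocalRing.notMem_maximalIdeal] at h

theorem lf_one_notMem : (1 : Lam) ∉ aa 1 1 :=
  PA.max_eq ▸ IsLocalRing.notMem_maximalIdeal.2 isUnit_one

theorem lf_unit {u : Lam} (h : u - 1 ∈ aa 1 1) : IsUnit u :=
  lf_unit' fun k => lf_one_notMem (by simpa using sub_mem k h)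

theorem lf_two_mem : (2 : Lam) ∈ aa 1 1 := by simpa using two_mem_aa 1 1

theorem lf_adj (A : Matrix (Fin 2) (Fin 2) Lam) (x : Fin 2 → B) :
    mact B A.adjugate (mact B A x) = A.det • x ∧ mact B A (mact B A.adjugate x) = A.det • x := by
  constructor <;> rw [← mact_mul]
  · rw [adjugate_mul, mact_smul, mact_one]
  · rw [mul_adjugate, mact_smul, mact_one]

theorem lf_sub_one (A : Matrix (Fin 2) (Fin 2) Lam) (x : Fin 2 → B) :
    mact B (A - 1) x = mact B A x - x := by rw [mact_sub, mact_one]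

theorem lf_det (A : Matrix (Fin 2) (Fin 2) Lam) (s u : Lam) :
    (s • A - u • (1 : Matrix (Fin 2) (Fin 2) Lam)).det = s ^ 2 * A.det - s * u * A.trace + u ^ 2 := by
  simp [det_fin_two, trace_fin_two]
  ring

/-- The action is linear. -/
def Lin (a : Gam → (Fin 2 → B) →+ Fin 2 → B) : Prop :=
  ∀ g (s : Lam) x, a g (s • x) = s • a g x

theorem Lin.coc (hl : Lin a) (hc : Coc D a c) (s : Lam) : Coc D a (s • c) :=
  ⟨hc.1.comp (s • ·), fun g hg l hl' => by simp only [Pi.smul_apply, hc.2 g hg l hl', hl g, smul_add]⟩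

theorem Lin.cob (hl : Lin a) (s : Lam) (x : Fin 2 → B) : cob a (s • x) g = s • cob a x g := by
  rw [B2.cob, B2.cob, hl, smul_sub]

theorem lf_pow_scalar (ha : Act0 D a) (hl : Lin a) (hg : g ∈ D) {s : Lam} (e : ∀ x, a g x = s • x)
    (j : ℕ) (x : Fin 2 → B) : a (g ^ j) x = s ^ j • x := by
  induction j with
  | zero => rw [pow_zero, pow_zero, ha.one, one_smul]
  | succ j ih => rw [pow_succ', ha.mul _ hg _ (pow_mem hg j), ih, hl, e, pow_succ, mul_smul]

/-- The tame relation when the generator of inertia acts as minus one. -/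
theorem TA.neg_rel (t : TA H w q φ τ a) (hl : Lin a) (hτ : ∀ x, a τ x = -x)
    (hc : Coc (H ⊓ Dec w) a c) : a φ (c τ) - c τ = -((2 : Lam) • c φ) := by
  have e := lf_pow_scalar t.act hl t.tm.τ_mem (s := -1) fun x => by rw [hτ, neg_one_smul]
  have r := t.rel hc t.tm.gen.1
  rw [lf_pow t.act hc t.tm.τ_mem] at r
  simp only [e, ← sum_smul, neg_one_geom_sum, if_neg (Nat.not_even_iff_odd.2 t.tm.odd_q),
    t.tm.odd_q.neg_one_pow] at r
  linear_combination (norm := module) r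

/-- Two kills the cohomology. -/
theorem TA.neg_two (t : TA H w q φ τ a) (hl : Lin a) (hτ : ∀ x, a τ x = -x)
    (hc : Coc (H ⊓ Dec w) a c) : ∃ x, ∀ g ∈ H ⊓ Dec w, (2 : Lam) • c g = cob a x g :=
  ⟨-c τ, fun _ hg => t.eq_cob (hl.coc hc 2) (by rw [hτ, Pi.smul_apply]; module) (by
    rw [map_neg, Pi.smul_apply]
    linear_combination (norm := module) t.neg_rel hl hτ hc) hg⟩

/-- The square of an element of the ideal generated by two and the Euler factor kills the
cohomology. -/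
theorem TA.neg_sq (t : TA H w q φ τ a) (hB : Kil k B) (hl : Lin a) (hτ : ∀ x, a τ x = -x)
    (hφ : ∀ x, a φ x = mact B A x) {s α β : Lam} (hs : s - (α * (A - 1).det + 2 * β) ∈ aa k k)
    (hc : Coc (H ⊓ Dec w) a c) : ∃ x, ∀ g ∈ H ⊓ Dec w, (s * s) • c g = cob a x g := by
  have e := fun x => hB.pi.congr hs x
  have r := t.neg_rel hl hτ hc
  have r1 := (lf_adj (A - 1) (c τ)).1
  rw [lf_sub_one, ← hφ, r, map_neg, map_smul] at r1
  obtain ⟨y, hy⟩ : ∃ y, y = α • mact B (A - 1).adjugate (c φ) - β • c τ := ⟨_, rfl⟩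
  have h1 := (hl.coc hc s).lo_sub (lf_coc_cob t.act y)
  have h2 : (s • c - cob a y) τ = 0 := by
    rw [Pi.sub_apply, Pi.smul_apply, e, cob, hτ, hy]
    linear_combination (norm := module) -α • r1
  have h3 := t.neg_rel hl hτ h1
  rw [h2, map_zero, sub_zero, zero_eq_neg] at h3
  refine ⟨α • mact B (A - 1).adjugate ((s • c - cob a y) φ) + s • y, fun g hg => ?_⟩
  rw [lf_cob_add, hl.cob s, ← t.eq_cob (hl.coc h1 s) ?_ ?_ hg, mul_smul, Pi.smul_apply,
    Pi.sub_apply, smul_sub, sub_add_cancel, Pi.smul_apply]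
  · have h4 := congrArg (mact B (A - 1).adjugate) h3
    rw [map_smul, map_zero] at h4
    rw [Pi.smul_apply, h2, hτ]
    linear_combination (norm := module) α • h4
  · rw [Pi.smul_apply, e, hφ, ← lf_sub_one, map_smul, (lf_adj _ _).2]
    linear_combination (norm := module) β • h3

theorem lf_o3_unit (h1 : A.trace - 1 ∈ aa 1 1) (h2 : A.det - 1 ∈ aa 1 1) {u : Lam}
    (hu : u - 1 ∈ aa 1 1) : IsUnit (A - u • (1 : Matrix (Fin 2) (Fin 2) Lam)).det := by
  refine lf_unit ?_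
  have := lf_det A 1 u
  rw [one_smul] at this
  convert add_mem (sub_mem h2 (Ideal.mul_mem_left _ u h1)) (Ideal.mul_mem_left _ u hu) using 1
  rw [this]
  ring

/-- Elements of order three have no eigenvector. -/
theorem lf_o3_eig (h1 : A.trace - 1 ∈ aa 1 1) (h2 : A.det - 1 ∈ aa 1 1) {u : Lam}
    (hu : u - 1 ∈ aa 1 1) {x : Fin 2 → B} (h : mact B A x = u • x) : x = 0 := by
  have e := (lf_adj (A - u • 1) x).1
  rw [mact_sub, mact_smul, mact_one, h, sub_self, map_zero] at e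
  exact (lf_o3_unit h1 h2 hu).smul_eq_zero.1 e.symm

theorem lf_o3_surj (h1 : A.trace - 1 ∈ aa 1 1) (h2 : A.det - 1 ∈ aa 1 1) (y : Fin 2 → B) :
    ∃ x, y = mact B A x - x := by
  obtain ⟨u, hu⟩ := lf_o3_unit h1 h2 (u := 1) (by simp)
  rw [one_smul] at hu
  exact ⟨(u⁻¹ : Lamˣ).1 • mact B (A - 1).adjugate y, by
    rw [← lf_sub_one, map_smul, (lf_adj _ _).2, ← hu, smul_smul, u.inv_mul, one_smul]⟩

/-- The cohomology vanishes if the Frobenius element has order three modulo two. -/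
theorem TA.o3 (t : TA H w q φ τ a) (hl : Lin a) {s : Lam} (hτ : ∀ x, a τ x = s • x)
    (hs : s - 1 ∈ aa 1 1) (hφ : ∀ x, a φ x = mact B A x) (h1 : A.trace - 1 ∈ aa 1 1)
    (h2 : A.det - 1 ∈ aa 1 1) (hc : Coc (H ⊓ Dec w) a c) :
    ∃ x, ∀ g ∈ H ⊓ Dec w, c g = cob a x g := by
  obtain ⟨x, hx⟩ := lf_o3_surj h1 h2 (c φ)
  rw [← hφ] at hx
  have h3 := hc.lo_sub (lf_coc_cob t.act x)
  have h4 : (c - cob a x) φ = 0 := sub_eq_zero.2 hx
  have r := t.rel h3 t.tm.gen.1
  rw [h4, map_zero, zero_add, add_zero, lf_pow t.act h3 t.tm.τ_mem, hφ] at r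
  simp only [lf_pow_scalar t.act hl t.tm.τ_mem hτ, ← sum_smul] at r
  refine ⟨x, fun g hg => t.eq_cob hc (sub_eq_zero.1 (lf_o3_eig h1 h2 ?_ r)) hx hg⟩
  obtain ⟨j, hj⟩ := t.tm.odd_q
  have h5 : ∑ i ∈ range q, (s ^ i - 1) ∈ aa 1 1 := sum_mem fun i _ => by
    rw [← geom_sum_mul]
    exact Ideal.mul_mem_left _ _ hs
  convert add_mem h5 (Ideal.mul_mem_left _ (j : Lam) lf_two_mem) using 1
  rw [sum_sub_distrib, sum_const, card_range, hj, nsmul_eq_mul]
  push_cast
  ring

/-- The image of a transvection minus one. -/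
theorem lf_un {P : Matrix (Fin 2) (Fin 2) Lam} {u : Lam} (hP : P.det = 1) (hu : IsUnit u)
    (h : A * P = P * !![1, u; 0, 1]) (y : Fin 2 → B) :
    (∃ x, y = mact B A x - x) ↔ P 0 0 • y 1 - P 1 0 • y 0 = 0 := by
  obtain ⟨u, rfl⟩ := hu
  have e : A = P * !![1, u.1; 0, 1] * P.adjugate := by
    rw [← h, mul_assoc, mul_adjugate, hP, one_smul, mul_one]
  rw [det_fin_two] at hP
  have e1 : ∀ (x : Fin 2 → B) i,
      (mact B A x - x) i = (u.1 * P i 0) • (P 0 0 • x 1 - P 1 0 • x 0) := fun x i => by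
    have e2 : A - 1 = u.1 • !![-(P 0 0 * P 1 0), P 0 0 * P 0 0; -(P 1 0 * P 1 0), P 1 0 * P 0 0] := by
      rw [e]
      ext i j : 1
      fin_cases i <;> fin_cases j <;> simp [adjugate_fin_two, mul_apply, Fin.sum_univ_two] <;>
        first | linear_combination hP | ring
    rw [← lf_sub_one, e2, mact_apply]
    fin_cases i <;> simp <;> module
  constructor
  · rintro ⟨x, rfl⟩
    rw [e1, e1]
    module
  · intro h0
    obtain ⟨s, hs⟩ : ∃ s, s = (u⁻¹ : Lamˣ).1 • (P 1 1 • y 0 - P 0 1 • y 1) := ⟨_, rfl⟩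
    have e3 : u.1 • s = P 1 1 • y 0 - P 0 1 • y 1 := by rw [hs, smul_smul, u.mul_inv, one_smul]
    refine ⟨![P 0 1 • s, P 1 1 • s], funext fun i => ?_⟩
    have e4 : P 0 0 • P 1 1 • s - P 1 0 • P 0 1 • s = s := by
      rw [smul_smul, smul_smul, ← sub_smul, mul_comm (P 1 0), hP, one_smul]
    rw [e1]
    simp only [cons_val_one, cons_val_zero, e4]
    rw [mul_comm, mul_smul, e3, ← one_smul Lam (y i), ← hP]
    fin_cases i
    · linear_combination (norm := (simp; module)) P 0 1 • h0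
    · linear_combination (norm := (simp; module)) P 1 1 • h0

/-- A matrix whose determinant is small has a kernel. -/
theorem lf_ker {j : ℕ} (hj : 2 ≤ j) (h : A.det ∈ aa 1 2) :
    4 ≤ Nat.card (mact (Lam ⧸ aa 1 j) A).toAddMonoidHom.ker := by
  have key : ∀ {V : Type} [AddCommGroup V] [Module Lam V] (π : (Fin 2 → Lam ⧸ aa 1 j) →ₗ[Lam] V),
      Function.Surjective π → Nat.card V = 4 → (∀ x, π (mact _ A x) = 0) →
      4 ≤ Nat.card (mact (Lam ⧸ aa 1 j) A).toAddMonoidHom.ker := fun π h1 h2 h3 => by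
    have e1 := card_ker_range (mact (Lam ⧸ aa 1 j) A).toAddMonoidHom
    have e2 := card_ker_range π.toAddMonoidHom
    rw [AddMonoidHom.range_eq_top.2 h1, AddSubgroup.card_top, h2, e1, mul_comm] at e2
    have e3 : Nat.card (mact (Lam ⧸ aa 1 j) A).toAddMonoidHom.range ≤
        Nat.card π.toAddMonoidHom.ker := AddSubgroup.card_le_of_le (by
      rintro _ ⟨x, rfl⟩
      exact h3 x)
    exact Nat.le_of_mul_le_mul_left (e2.symm.le.trans (Nat.mul_le_mul_right _ e3)) Nat.card_pos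
  by_cases h0 : ∀ i l, A.adjugate i l ∈ aa 1 1
  · have h1 : ∀ i l, A i l ∈ aa 1 1 := fun i l => by
      have h2 := h0 (1 - i) (1 - l)
      have h3 := neg_mem (h0 i l)
      fin_cases i <;> fin_cases l <;> simp [adjugate_fin_two] at h2 h3 ⊢ <;> assumption
    have hI : aa 1 j ≤ aa 1 1 := PA.aa_anti le_rfl (by omega)
    refine key ((Submodule.factor hI).compLeft (Fin 2)) (fun v => ?_)
      (by rw [Nat.card_fun, PA.card_quot]; simp) fun x => funext fun i => ?_
    · choose x hx using fun i => Submodule.factor_surjective hI (v i)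
      exact ⟨x, funext hx⟩
    · change Submodule.factor hI (mact _ A x i) = 0
      rw [mact_apply, map_add, map_smul, map_smul, kil_Ak 1 _ (h1 i 0), kil_Ak 1 _ (h1 i 1),
        add_zero]
  · push Not at h0
    obtain ⟨i, l, h1⟩ := h0
    obtain ⟨u, hu⟩ := lf_unit' h1
    have hI : aa 1 j ≤ aa 1 2 := PA.aa_anti le_rfl hj
    refine key (Submodule.factor hI ∘ₗ .proj i ∘ₗ mact _ A.adjugate) (fun v => ?_)
      (by rw [PA.card_quot]; simp) fun x => ?_
    · obtain ⟨x, rfl⟩ := Submodule.factor_surjective hI v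
      refine ⟨Pi.single l ((u⁻¹ : Lamˣ).1 • x), congrArg (Submodule.factor hI) ?_⟩
      change mact _ A.adjugate _ i = x
      have e : A.adjugate i l • (u⁻¹ : Lamˣ).1 • x = x := by
        rw [← hu, smul_smul, u.mul_inv, one_smul]
      rw [mact_apply]
      fin_cases l <;> simpa using e
    · change Submodule.factor hI (mact _ A.adjugate (mact _ A x) i) = 0
      obtain ⟨z, hz⟩ := Ideal.Quotient.mk_surjective (Submodule.factor hI (x i))
      rw [(lf_adj A x).1, Pi.smul_apply, map_smul, ← hz]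
      exact Ideal.Quotient.eq_zero_iff_mem.2 (Ideal.mul_mem_right _ _ h)

theorem N2_fix : ∀ A A' : N2, A * A' = 1 → ∀ v : W2, v ≠ 0 → A *ᵥ v = v → A.trace ≠ 1 := by
  decide

/-- A decomposition group that fixes a vector has no element of order three. -/
theorem lf_no3 (t : Tm H w q φ τ) {sig : Gam →* N2} (hs : Sm ⊤ sig) {v : W2} (hv : v ≠ 0)
    (h1 : ∀ σ ∈ Ine w, sig σ *ᵥ v = v) (h2 : sig φ *ᵥ v = v) (hg : g ∈ H ⊓ Dec w) :
    (sig g).trace ≠ 1 := by
  obtain ⟨U, u1, -, u3⟩ := hs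
  obtain ⟨n, σ, hσ, k⟩ := t.dg hg u1
  refine N2_fix _ (sig g⁻¹) (by rw [← map_mul, mul_inv_cancel, map_one]) v hv ?_
  rw [← u3 _ trivial g trivial k, map_mul, ← mulVec_mulVec, h1 σ hσ, map_pow]
  clear k
  induction n with
  | zero => rw [pow_zero, one_mulVec]
  | succ n ih => rw [pow_succ (sig φ), ← mulVec_mulVec, h2, ih]

end Pool.Agent.B6
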