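import Pool.Agent.Lib.MP_696deb_nt.B6.TWc

/-! Points that are unramified above the bad primes, and the unit lemma. -/

set_option autoImplicit false

open scoped NNReal
open Finset Matrix NumberTheorySymbols

namespace Pool.Agent.B6

open Pool.Agent.Lib.MP_696deb_nt Pool.Agent.Lib.MP_696deb_nt.B2 Pool.Agent.Lib.MP_696deb_nt.B6

/-- The matrices have no common fixed vector. -/
def Fx2 (A B : B6.M2) : Prop := ∀ x : V2, A *ᵥ x = x → B *ᵥ x = x → x = 0

instance (A B : B6.M2) : Decidable (Fx2 A B) := inferInstanceAs (Decidable (∀ _, _))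

theorem fx2_zero : ∀ {A : B6.M2}, Ord2 A → ∀ {B : B6.M2}, Ord2 B → A ≠ B → Fx2 A B := by
  decide +kernel

theorem v2_two' : ∀ y : V2, 2 • y = 0 := by decide +kernel

variable [Md]

variable {n k : ℕ} {S : HS n} {T : Tate} {lam w : Plc} {f : ℤ} {z g : Gam} {P : EE}

theorem EN_smul (h : P ∈ EN) (g : Gam) : g • P ∈ EN := fun σ hσ => by
  have := h _ (IN_conj hσ g⁻¹)
  rw [inv_inv, mul_smul, mul_smul, inv_smul_eq_iff] at this
  exact this

/-- There are no points of order two that are unramified above the bad primes. -/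
theorem Tate.EN_two (T : Tate) (h : P ∈ EN) (h2 : 2 • P = 0) : P = 0 := by
  obtain ⟨w, v, s, t, e⟩ := T.exists_tv
  obtain ⟨x, rfl⟩ := T.surj_i2 P h2
  obtain ⟨h1, h3, h4⟩ := e.ord2
  rw [fx2_zero h1 h3 h4 x (T.inj 1 ((T.smul_i2 s x).symm.trans (h s (ine_le_IN e.wN e.hs.1))))
    (T.inj 1 ((T.smul_i2 t x).symm.trans (h t (ine_le_IN e.vN e.ht.1)))), map_zero]

theorem Tate.EN_pow (T : Tate) {m : ℕ} (h : P ∈ EN) (h2 : 2 ^ m • P = 0) : P = 0 := by
  induction m generalizing P with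
  | zero => simpa using h2
  | succ m ih => exact T.EN_two h (ih (nsmul_mem h 2) (by rwa [smul_smul, ← pow_succ]))

/-- Unramified torsion points have odd order. -/
theorem Tate.EN_tors (T : Tate) (h : P ∈ EN) (h2 : IsOfFinAddOrder P) :
    ∃ m : ℕ, Odd m ∧ m • P = 0 := by
  obtain ⟨j, h0, e⟩ := isOfFinAddOrder_iff_nsmul_eq_zero.1 h2
  obtain ⟨a, m, hm, rfl⟩ := Nat.exists_eq_two_pow_mul_odd h0.ne'
  exact ⟨m, hm, T.EN_pow (nsmul_mem h m) (by rwa [smul_smul])⟩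

/-- Kummer classes of unramified points are coboundaries on inertia above the bad primes. -/
theorem Tate.kum_pow (T : Tate) (hw : w.p ∣ NN) {m : ℕ} {R : EE}
    (h : ∀ σ ∈ Ine w, σ • 2 ^ m • R = 2 ^ m • R) :
    ∃ t : EE, 2 ^ m • t = 0 ∧ ∀ σ ∈ Ine w, σ • R - R = σ • t - t := by
  obtain ⟨Q, h1, h2⟩ : ∃ Q : EE, (∀ σ ∈ Ine w, σ • Q = Q) ∧ 2 ^ m • Q = 2 ^ m • R := by
    generalize 2 ^ m • R = P at h
    induction m with
    | zero => exact ⟨P, h, one_smul _ _⟩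
    | succ m ih =>
      obtain ⟨Q, h1, h2⟩ := ih
      obtain ⟨Q', h3, h4⟩ := T.kumN w hw Q h1
      exact ⟨Q', h3, by rw [pow_succ, mul_smul, h4, h2]⟩
  exact ⟨R - Q, by rw [smul_sub, h2, sub_self], fun σ hσ => by
    rw [smul_sub, h1 σ hσ, sub_sub_sub_cancel_right]⟩

theorem Od.zsmul (h : Od P) (hP : P ∈ EN) {a : ℤ} (ha : Odd a) : Od (a • P) := fun R hR e => by
  obtain ⟨j, rfl⟩ := ha
  refine h (R - j • P) (sub_mem hR (zsmul_mem hP j)) ?_
  rw [smul_sub, e]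
  module

theorem HS.y_EN (S : HS n) (hn : Nok n) {c : ℕ} (hc : Adm n c) (a : S.C c) : S.y c a ∈ EN :=
  fun g hg => by rw [S.gal c hc g (hn.IN_le hg), S.ψ_IN hn hc hg, one_mul]

theorem HS.ychi_EN (S : HS n) (hn : Nok n) (e : ℤ) : S.ychi e ∈ EN :=
  sum_mem fun a _ => zsmul_mem (S.y_EN hn (adm_one n) a) _

theorem ES.y_EN (Y : ES S f) (hn : Nok n) (hf : Fok n f) {c : ℕ} (hc : Adm n c) (a : S.C c) :
    Y.y c a ∈ EN := fun g hg => by
  have := Y.gal c hc g (hn.IN_le hg) a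
  rwa [tw, hf.chi_IN hg, Units.val_one, one_smul, S.ψ_IN hn hc hg, one_mul] at this

theorem HS.ychi_N (hl : Adm n lam.p) (hz : z ∈ S.N T k lam f) (e : ℤ) : z • S.ychi e = S.ychi e := by
  rw [HS.ychi, smul_sum]
  exact sum_congr rfl fun a _ => by
    rw [smul_comm, S.gal 1 (adm_one n) z hz.1, HS.ψ_N hl hz, one_mul]

theorem HS.gen_one (S : HS n) (a : S.C 1) : S.gen 1 a = 1 := by
  obtain ⟨g, hg, rfl⟩ := S.surj 1 (adm_one n) a
  rw [S.gen_ψ 1 (one_dvd _) rfl g hg, xi_eq_zero.1 (B2.xi_one g)]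

/-- Complex conjugation acts on the Heegner point by minus one, up to torsion. -/
theorem HS.cc_ychi (S : HS n) : IsOfFinAddOrder (cc • S.ychi 1 - (-1 : ℤ) • S.ychi 1) := by
  obtain ⟨b, t, ht, h⟩ := S.conj
  have e : ∑ a, S.y 1 (b * a⁻¹) = ∑ a, S.y 1 a :=
    Fintype.sum_equiv ((Equiv.inv _).trans (Equiv.mulLeft b)) _ _ fun _ => rfl
  simp only [HS.ychi, S.gen_one, Units.val_one, one_smul, neg_smul, sub_neg_eq_add]
  simp only [smul_sum, h, sum_sub_distrib, e, sub_add_cancel, sum_const]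
  exact ht.nsmul

/-- The unit lemma: the Kummer cocycle of a point that is not divisible by two maps `N` onto the
points of order two. -/
theorem HS.unit (hn : Nok n) (hf : Fok n f) (hl : Adm n lam.p) (hP : P ∈ EN) (ho : Od P)
    (hN : ∀ z ∈ S.N T k lam f, z • P = P) {R : EE} (hR : 2 • R = P) (x : V2) :
    ∃ z ∈ S.N T k lam f, z • R - R = T.i2 x := by
  subst hR
  obtain ⟨w, v, s, t, e⟩ := T.exists_tv
  obtain ⟨h1, h2, h3⟩ := e.ord2
  have kum : ∀ (w : Plc) (s : Gam), w.p ∣ NN → s ∈ Ine w →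
      ∃ x, s • R - R = s • T.i2 x - T.i2 x := fun w s hw hs => by
    obtain ⟨t, t1, t2⟩ := T.kum_pow hw (m := 1) (R := R) fun σ hσ => hP σ (ine_le_IN hw hσ)
    obtain ⟨x, rfl⟩ := T.surj_i2 t t1
    exact ⟨x, t2 s hs⟩
  refine (tw_unit T.smul_i2 T.surj_i2 (I := IN) (S.normal_N T k lam f)
    (fun z hz => T.r2_of (by omega) hz.2.1) h1 h2 h3 (fun σ hσ => ?_) hN (kum w s e.wN e.hs.1)
    (kum v t e.vN e.ht.1)).elim (fun ⟨y, hy⟩ => (ho _ hy ?_).elim) fun h => h x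
  · obtain ⟨u, u1, u2⟩ := e.big _ (T.det_IN hσ) (k + 2)
    have u3 := mul_mem (inv_mem (e.le_IN u1)) hσ
    exact ⟨u, u1, hn.IN_le u3, by rw [map_mul, mred_mul, ← u2, ← mred_mul, ← map_mul,
      inv_mul_cancel, map_one, mred_one], fun _ => S.ψ_IN hn hl u3, hf.chi_IN u3⟩
  · rw [smul_sub, ← map_nsmul, v2_two', map_zero, sub_zero]

/-- The Kummer cocycle does not depend on the root on elements that act trivially modulo two. -/
theorem Tate.un_of (T : Tate) (hg : T.r2 g = 1) {R : EE} {x : V2} (e : g • R - R = T.i2 x)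
    (hx : x 1 ≠ 0) : T.Un (2 • R) g := fun R' v h1 h2 => by
  obtain ⟨y, hy⟩ := T.surj_i2 (R' - R) (by rw [smul_sub, h1, sub_self])
  have h3 := T.smul_i2 g y
  rw [hg, one_mulVec, hy, smul_sub] at h3
  have h4 : T.emb 1 v = T.i2 x := by
    rw [h2, ← e]
    linear_combination (norm := abel1) h3
  rwa [T.inj 1 h4]

/-- At most deep places the Kummer cocycle of a point that is not divisible by two is a unit. -/
theorem HS.often_un (hn : Nok n) (hf : Fok n f) (hl : Adm n lam.p) (hP : P ∈ EN) (ho : Od P)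
    (hN : ∀ z ∈ S.N T k lam f, z • P = P) {ε : ℤ} (hε : Odd ε)
    (hc : IsOfFinAddOrder (cc • P - ε • P)) : S.Often T k lam f fun w => T.Un P (fq w) := by
  obtain ⟨R, rfl⟩ := exists_half P
  obtain ⟨m, hm, m0⟩ := T.EN_tors (sub_mem (EN_smul hP cc) (zsmul_mem hP ε)) hc
  have r1 : ∀ z ∈ S.N T k lam f, T.r2 z = 1 := fun z hz => T.r2_of (by omega) hz.2.1
  obtain ⟨c, hc⟩ : ∃ c : EE → V2, ∀ x, c (T.i2 x) = x :=
    ⟨_, Function.leftInverse_invFun (f := T.i2) (T.inj 1)⟩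
  have ex : ∀ z ∈ S.N T k lam f, ∃ x, T.i2 x = z • R - R := fun z hz =>
    T.surj_i2 _ (by rw [smul_sub, smul_comm, hN z hz, sub_self])
  refine ⟨1, fun g => c (g • R - R) 1, (sm_pt _ R).comp fun Q => c (Q - R) 1,
    fun g hg u hu => ?_, ?_, fun w hw h => ?_⟩
  · obtain ⟨x, hx⟩ := ex g hg
    obtain ⟨y, hy⟩ := ex u hu
    have e := T.smul_i2 g y
    rw [r1 g hg, one_mulVec, hy, smul_sub, ← mul_smul] at e
    have e' : (g * u) • R - R = T.i2 (x + y) := by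
      rw [map_add, hx, hy]
      linear_combination (norm := abel1) e
    simp only [e', ← hx, ← hy, hc]
    rfl
  · obtain ⟨z, hz, e⟩ := HS.unit hn hf hl hP ho hN rfl ![1, 0]
    have e' := tw_cc T.smul_i2 T.surj_i2 (r1 z hz) (hN z hz) (by
      conv_rhs => rw [← hN _ (HS.N_cc hz), ← mul_smul, ← mul_assoc, ← mul_assoc, cc_mul_cc, one_mul,
        mul_smul]) hm hε m0 e
    refine ⟨z, hz, ?_⟩
    simp only [e, e', hc, T.r2_cc]
    exact fun h => absurd ((congrFun swap_ne 1).symm.trans h) (by decide)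
  · obtain ⟨x, hx⟩ := ex _ hw.fq_mem
    exact T.un_of (r1 _ hw.fq_mem) hx.symm (by simpa only [← hx, hc] using h)

theorem HS.often_unit (hn : Nok n) (hf : Fok n f) (hl : Adm n lam.p) (ho : Od (S.ychi 1)) :
    S.Often T k lam f fun w => T.Un (S.ychi 1) (fq w) :=
  HS.often_un hn hf hl (S.ychi_EN hn 1) ho (fun _ hz => HS.ychi_N hl hz 1) odd_neg_one S.cc_ychi

theorem exists_unit (ch : ChebStmt) (hn : Nok n) (hf : Fok n f) (h : S.Tw k lam f)
    (ho : Od (S.ychi 1)) : ∃ w, S.Dp T k lam f w ∧ T.Un (S.ychi 1) (fq w) := by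
  have := HS.often_unit (T := T) (k := k) hn hf h.adm ho
  obtain ⟨w, h1, h2, -⟩ := HS.Often.exists ch hn h.adm this this
  exact ⟨w, h1, h2⟩

end Pool.Agent.B6
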