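import Pool.Agent.Lib.MP_696deb_nt.B2.XAa
import Pool.Agent.Lib.MP_696deb_nt.B6.XTW
import Pool.Agent.Lib.MP_696deb_nt.B6.LA

/-! The matrix action on the group of the quadratic field. -/

set_option autoImplicit false

open scoped NNReal Classical
open Finset Matrix NumberTheorySymbols PowerSeries

namespace Pool.Agent.B6

open Pool.Agent.Lib.MP_696deb_nt Pool.Agent.Lib.MP_696deb_nt.B2

variable [Md]

variable {T : Tate} {n k : ℕ} {f : ℤ} {lam w : Plc} {ψ : Gam → Lam} {Q : Finset Plc} {g : Gam}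

/-- The matrix of an element. -/
noncomputable def mA (T : Tate) (ψ : Gam → Lam) (k : ℕ) (g : Gam) :
    Matrix (Fin 2) (Fin 2) (Ak k) := (rep T ψ g).map (Ideal.Quotient.mk (aa k k))

theorem mA_mulVec (x : Fin 2 → Ak k) : mA T ψ k g *ᵥ x = act T ψ (Ak k) g x := (act_quot x).symm

theorem mA_eq : mA T ψ k g = ψ g • (T.ρ g).map (cA k) := by
  ext i j
  exact map_mul (Ideal.Quotient.mk (aa k k)) (ψ g) (C (T.ρ g i j))

theorem mA_of {a : Lam} (h : ψ g - a ∈ aa k k) : mA T ψ k g = a • (T.ρ g).map (cA k) := by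
  rw [mA_eq]
  ext i j
  exact (kil_Ak k).congr h _

theorem mA_one (h : ψ g - 1 ∈ aa k k) : mA T ψ k g = (cA k).mapMatrix (T.ρ g) := by
  rw [mA_of h, one_smul]
  rfl

theorem cA_sw (T : Tate) : (cA k).mapMatrix (T.ρ cc) = sw (Ak k) := by
  rw [T.conj]
  ext i j
  fin_cases i <;> fin_cases j <;> simp [sw]

/-- The action as a homomorphism. -/
noncomputable def actK (T : Tate) (h : Chr0 f n k lam ψ) :
    GK n →* Matrix (Fin 2) (Fin 2) (Ak k) where
  toFun g := mA T ψ k g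
  map_one' := xa_ext fun x => by
    rw [mA_mulVec, one_mulVec]
    exact (h.act0 T (kil_Ak k)).one x
  map_mul' g g' := xa_ext fun x => by
    rw [← mulVec_mulVec, mA_mulVec, mA_mulVec, mA_mulVec]
    exact (h.act0 T (kil_Ak k)).mul g g.2 g' g'.2 x

theorem actK_apply (h : Chr0 f n k lam ψ) (g : GK n) : actK T h g = mA T ψ k g := rfl

variable {S : HS n} {e : ℤ}

theorem xa_z1 (h : S.Tw k lam f) (hf : Fok n f) (c : Chr0 f n k lam (S.psf k lam f e)) :
    ∃ z : GK n, actK T c z = (1 + X : Lam) • 1 ∧ (1 + X : Lam) • actK T c (thK n z) = 1 ∧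
      ∀ g : GK n, z * g * z⁻¹ * g⁻¹ ∈ (S.N T k lam f).subgroupOf (GK n) := by
  obtain ⟨z, hz, e1, e2⟩ := h.exists_z hf e
  have m := h.adm.ine hz.1
  have r := T.unr lam h.adm.nd30 z hz.1
  refine ⟨⟨z, m⟩, by rw [actK_apply, mA_eq, e1, r, Matrix.map_one _ (map_zero _) (map_one _)], ?_,
    fun g => HS.comm_N (c := 1) m (by rw [r, one_smul]) g.2⟩
  rw [actK_apply, thK_coe, mA_eq, map_mul, map_mul, r, mul_one, ← map_mul, cc_mul_cc, map_one,
    Matrix.map_one _ (map_zero _) (map_one _), smul_smul]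
  ext i j
  exact ((kil_Ak k).congr e2 _).trans (one_smul _ _)

theorem xa_fl (h : S.Tw k lam f) (c : Chr0 f n k lam ψ) :
    IsUnit (actK T c (toK n (fq lam)) - 1).det := by
  have o := h.adm.out (fr_spec lam)
  rw [actK_apply, toK_coe n (show fq lam ∈ GK n from mul_mem_GK o o),
    mA_one (g := fq lam) (c.dih _ o),
    ← map_one (cA k).mapMatrix, ← map_sub, ← RingHom.map_det]
  exact (h.unit_fq T).map _

theorem xa_IN (hn : Nok n) (hf : Fok n f) (hl : Adm n lam.p) (hg : g ∈ IN) :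
    mA T (S.psf k lam f e) k g = (cA k).mapMatrix (T.ρ g) :=
  mA_one (by rw [HS.psf_IN hn hf hl hg, sub_self]; exact zero_mem _)

theorem xa_un (hn : Nok n) (hf : Fok n f) (hl : Adm n lam.p)
    (c : Chr0 f n k lam (S.psf k lam f e)) : ∃ u : Fin 2 → GK n,
    (∀ v, (actK T c (u v) - 1) * (actK T c (u v) - 1) = 0) ∧
    IsUnit ((actK T c (u 0) - 1) * (actK T c (u 1) - 1)).trace ∧
    ∀ v, actK T c (thK n (u v)) = sw _ * actK T c (u v) * sw _ := by
  obtain ⟨w, v, s, t, h⟩ := T.exists_tv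
  have i0 := ine_le_IN h.wN h.hs.1
  have i1 := ine_le_IN h.vN h.ht.1
  have a : ∀ g (hg : g ∈ IN), actK T c ⟨g, hn.IN_le hg⟩ = (cA k).mapMatrix (T.ρ g) :=
    fun g hg => xa_IN hn hf hl hg
  have sq : ∀ (w : Plc) g (hw : w.p ∣ NN) (hg : g ∈ Ine w),
      (actK T c ⟨g, hn.IN_le (ine_le_IN hw hg)⟩ - 1) *
        (actK T c ⟨g, hn.IN_le (ine_le_IN hw hg)⟩ - 1) = 0 := fun w g hw hg => by
    rw [a g (ine_le_IN hw hg), ← map_one (cA k).mapMatrix, ← map_sub, ← map_mul, T.unip hw hg,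
      map_zero]
  have th : ∀ g (hg : g ∈ IN), actK T c (thK n ⟨g, hn.IN_le hg⟩) =
      sw _ * actK T c ⟨g, hn.IN_le hg⟩ * sw _ := fun g hg => by
    rw [a g hg, ← cA_sw T, ← map_mul, ← map_mul, ← map_mul, ← map_mul]
    exact xa_IN hn hf hl (IN_cc hg)
  refine ⟨![⟨s, hn.IN_le i0⟩, ⟨t, hn.IN_le i1⟩], Fin.forall_fin_two.2
    ⟨sq w s h.wN h.hs.1, sq v t h.vN h.ht.1⟩, ?_, Fin.forall_fin_two.2 ⟨th s i0, th t i1⟩⟩
  refine (congrArg IsUnit ?_).mp (h.tr.map (cA k))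
  rw [cons_val_zero, cons_val_one, cons_val_zero, a s i0, a t i1, ← map_one (cA k).mapMatrix,
    ← map_sub, ← map_sub, ← map_mul, RingHom.mapMatrix_apply, ← AddMonoidHom.map_trace (cA k)]

theorem xa_scalar (hn : Nok n) (hf : Fok n f) (hl : Adm n lam.p)
    (c : Chr0 f n k lam (S.psf k lam f e)) : ∃ z : GK n, actK T c z = (-1 : Ak k) • 1 ∧
      ∀ g : GK n, z * g * z⁻¹ * g⁻¹ ∈ (S.N T k lam f).subgroupOf (GK n) := by
  obtain ⟨z, h0, h1, h2, -, -, h4⟩ := S.exists_scalar (T := T) (k := k) hn hf hl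
  refine ⟨⟨z, h1⟩, ?_, fun g => h4 g g.2⟩
  rw [actK_apply, xa_IN hn hf hl h0, RingHom.mapMatrix_apply, cA_mred (A' := -1) (h2.trans ?_)]
  · ext i j
    fin_cases i <;> fin_cases j <;> simp
  · ext i j
    fin_cases i <;> fin_cases j <;> simp [mred]

end Pool.Agent.B6
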