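import Pool.Agent.Lib.MP_696deb_nt.B6.LF0

/-! Cup products for smooth modules, and the unramified condition is its own annihilator. -/

set_option autoImplicit false

open scoped NNReal Classical
open Finset

namespace Pool.Agent.B6

open Pool.Agent.Lib.MP_696deb_nt Pool.Agent.Lib.MP_696deb_nt.B2 Pool.Agent.Lib.MP_696deb_nt.B6

variable {M M' : Type} [AddCommGroup M] [AddCommGroup M'] {D H : Subgroup Gam} {a : Gam → M →+ M}
  {a' : Gam → M' →+ M'} {c c₁ : Gam → M} {c' c₁' : Gam → M'} {w : Plc} {q m : ℕ} {φ τ g σ : Gam}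
  {b : M →+ M' →+ ZMod (2 ^ m)}

theorem lf_c2 (hd : Dual0 m D a a' b) (h : Coc D a c) (h' : Coc D a' c') :
    C2 m D (cupb b a' c c') := by
  refine ⟨(h.1.comp₂ hd.act'.sm Prod.mk).left.comp₂ h'.1.right fun x y => b x.1 (x.2 y),
    fun g hg k hk l hl => ?_⟩
  simp only [cupb]
  rw [← hd.eqv g hg, h.2 g hg k hk, h'.2 k hk l hl, hd.act'.mul g hg k hk]
  simp only [map_add, AddMonoidHom.add_apply]
  ring

theorem lf_spl_left (hd : Dual0 m D a a' b) {x : M} (h : ∀ g ∈ D, c g = cob a x g)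
    (h' : Coc D a' c') : Spl m D (cupb b a' c c') := by
  refine ⟨fun g => b x (c' g), h'.1.comp fun y => b x y, fun g hg k hk => ?_⟩
  simp only [cupb]
  rw [h g hg, h'.2 g hg k hk, cob, map_sub, AddMonoidHom.sub_apply, hd.eqv g hg, map_add]
  ring

theorem lf_spl_right (hd : Dual0 m D a a' b) (h : Coc D a c) {y : M'}
    (h' : ∀ g ∈ D, c' g = cob a' y g) : Spl m D (cupb b a' c c') := by
  refine ⟨fun g => -b (c g) (a' g y), h.1.comp₂ hd.act'.sm fun x f => -b x (f y),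
    fun g hg k hk => ?_⟩
  simp only [cupb]
  rw [mul_neg, ← hd.eqv g hg, h' k hk, h.2 g hg k hk, hd.act'.mul g hg k hk, cob]
  simp only [map_add, map_sub, AddMonoidHom.add_apply]
  ring

theorem lf_inv_left (F : CFT) (hH : Op H) (hd : Dual0 m (H ⊓ Dec w) a a' b) {x : M}
    (h : ∀ g ∈ H ⊓ Dec w, c g = cob a x g) (h' : Coc (H ⊓ Dec w) a' c') :
    F.inv m H w (cupb b a' c c') = 0 :=
  (F.zero_iff hH (lf_spl_left hd h h').c2).2 (lf_spl_left hd h h')

theorem lf_inv_right (F : CFT) (hH : Op H) (hd : Dual0 m (H ⊓ Dec w) a a' b)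
    (h : Coc (H ⊓ Dec w) a c) {y : M'} (h' : ∀ g ∈ H ⊓ Dec w, c' g = cob a' y g) :
    F.inv m H w (cupb b a' c c') = 0 :=
  (F.zero_iff hH (lf_spl_right hd h h').c2).2 (lf_spl_right hd h h')

theorem lf_inv_add_left (F : CFT) (hH : Op H) (hd : Dual0 m (H ⊓ Dec w) a a' b)
    (h : Coc (H ⊓ Dec w) a c) (h₁ : Coc (H ⊓ Dec w) a c₁) (h' : Coc (H ⊓ Dec w) a' c') :
    F.inv m H w (cupb b a' (c + c₁) c') =
      F.inv m H w (cupb b a' c c') + F.inv m H w (cupb b a' c₁ c') :=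
  (F.congr fun g _ k _ => by simp [cupb]).trans (F.add hH (lf_c2 hd h h') (lf_c2 hd h₁ h'))

theorem lf_inv_add_right (F : CFT) (hH : Op H) (hd : Dual0 m (H ⊓ Dec w) a a' b)
    (h : Coc (H ⊓ Dec w) a c) (h' : Coc (H ⊓ Dec w) a' c') (h₁ : Coc (H ⊓ Dec w) a' c₁') :
    F.inv m H w (cupb b a' c (c' + c₁')) =
      F.inv m H w (cupb b a' c c') + F.inv m H w (cupb b a' c c₁') :=
  (F.congr fun g _ k _ => by simp [cupb]).trans (F.add hH (lf_c2 hd h h') (lf_c2 hd h h₁))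

/-- The values of a cocycle that vanishes on inertia are fixed by inertia. -/
theorem lf_fix (ha : Act0 (H ⊓ Dec w) a) (h : Coc (H ⊓ Dec w) a c) (u : ∀ σ ∈ H ⊓ Ine w, c σ = 0)
    (hg : g ∈ H ⊓ Dec w) (hσ : σ ∈ H ⊓ Ine w) : a σ (c g) = c g := by
  have _ := ha
  have h1 : g⁻¹ * σ * g ∈ H ⊓ Ine w := ⟨H.mul_mem (H.mul_mem (H.inv_mem hg.1) hσ.1) hg.1, by
    simpa using conj_mem_Ine ((Dec w).inv_mem hg.2) hσ.2⟩
  have h2 := h.2 g hg _ ⟨h1.1, Ine_le w h1.2⟩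
  rw [show g * (g⁻¹ * σ * g) = σ * g by group, h.2 σ ⟨hσ.1, Ine_le w hσ.2⟩ g hg, u σ hσ, u _ h1,
    map_zero, zero_add, add_zero] at h2
  exact h2

theorem lf_inv_unr (F : CFT) (hH : Op H) (hd : Dual0 m (H ⊓ Dec w) a a' b)
    (h : Coc (H ⊓ Dec w) a c) (h' : Coc (H ⊓ Dec w) a' c') (u : ∀ σ ∈ H ⊓ Ine w, c σ = 0)
    (u' : ∀ σ ∈ H ⊓ Ine w, c' σ = 0) : F.inv m H w (cupb b a' c c') = 0 := by
  refine F.unr hH (lf_c2 hd h h') fun g hg l hl σ hσ τ hτ => ?_
  have hσ' : σ ∈ H ⊓ Dec w := ⟨hσ.1, hσ.2.1⟩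
  rw [cupb, cupb, h.2 g hg σ hσ', h'.2 l hl τ ⟨hτ.1, hτ.2.1⟩, u σ hσ, u' τ hτ, map_zero, map_zero,
    add_zero, add_zero, hd.act'.mul g hg σ hσ', lf_fix hd.act' h' u' hl hσ]

/-- The reciprocity law for cup products. -/
theorem lf_recip (F : CFT) (hH : Op H) (hT : TC H) (hd : Dual0 m H a a' b) {s : Finset Plc}
    (hs : Apart H s) (h : Coc H a c) (h' : Coc H a' c')
    (u : ∀ w, Away H s w → ∀ σ ∈ H ⊓ Ine w, c σ = 0)
    (u' : ∀ w, Away H s w → ∀ σ ∈ H ⊓ Ine w, c' σ = 0) :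
    ∑ w ∈ s, F.inv m H w (cupb b a' c c') = 0 :=
  F.recip s hH (lf_c2 hd h h') (.inl hT) hs fun w hw => lf_inv_unr F hH (hd.mono inf_le_left)
    (h.mono inf_le_left) (h'.mono inf_le_left) (u w hw) (u' w hw)

theorem lf_card [Finite M] [Finite M'] (h : Dual0 m H a a' b) : Nat.card M' = Nat.card M := by
  have e1 : b.ker = ⊥ := (AddSubgroup.eq_bot_iff_forall _).2 fun x hx =>
    h.left x fun y => by rw [AddMonoidHom.mem_ker.1 hx, AddMonoidHom.zero_apply]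
  have e2 : b.flip.ker = ⊥ := (AddSubgroup.eq_bot_iff_forall _).2 fun y hy =>
    h.right y fun x => by
      rw [← AddMonoidHom.flip_apply b x y, AddMonoidHom.mem_ker.1 hy, AddMonoidHom.zero_apply]
  have e := pair_card b
  rw [e1, e2, AddSubgroup.card_bot, AddSubgroup.card_bot, mul_one, mul_one] at e
  exact e.symm

theorem lf_two (h : Dual0 m H a a' b) (x : M) : 2 ^ m • x = 0 :=
  h.left _ fun y => by
    rw [map_nsmul, AddMonoidHom.nsmul_apply, nsmul_eq_mul, ZMod.natCast_self, zero_mul]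

/-- Unramified classes are orthogonal. -/
theorem lf_inv_ur (F : CFT) (hH : Op H) (hd : Dual0 m (H ⊓ Dec w) a a' b)
    (h : Coc (H ⊓ Dec w) a c) (h' : Coc (H ⊓ Dec w) a' c') {x : M} {y : M'}
    (u : ∀ σ ∈ Ine w, c σ = cob a x σ) (u' : ∀ σ ∈ Ine w, c' σ = cob a' y σ) :
    F.inv m H w (cupb b a' c c') = 0 := by
  have k := lf_coc_cob hd.act x
  have k' := lf_coc_cob hd.act' y
  rw [← sub_add_cancel c (cob a x), lf_inv_add_left F hH hd (h.lo_sub k) k h',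
    lf_inv_left F hH hd (fun _ _ => rfl) h', add_zero, ← sub_add_cancel c' (cob a' y),
    lf_inv_add_right F hH hd (h.lo_sub k) (h'.lo_sub k') k',
    lf_inv_right F hH hd (h.lo_sub k) fun _ _ => rfl, add_zero]
  exact lf_inv_unr F hH hd (h.lo_sub k) (h'.lo_sub k') (fun σ hσ => sub_eq_zero.2 (u σ hσ.2))
    fun σ hσ => sub_eq_zero.2 (u' σ hσ.2)

/-- Unramified cocycles with a given value at the Frobenius element. -/
theorem lf_exists_unr (t : Tm H w q φ τ) (hM : ∀ x : M, 2 ^ m • x = 0) (ha : Act (H ⊓ Dec w) a)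
    {y : M} (hy : ∀ σ ∈ Ine w, a σ y = y) :
    ∃ c, Coc (H ⊓ Dec w) a c ∧ c φ = y ∧ ∀ σ ∈ Ine w, c σ = 0 := by
  obtain ⟨e, he⟩ := ha.two φ t.φ_mem
  obtain ⟨ω, o1, o2, o3, o4⟩ := t.exists_om (e + m + 1)
  let f : M → M := fun x => y + a φ x
  have f1 : ∀ (j : ℕ) x, f^[j] x = f^[j] 0 + a (φ ^ j) x := fun j x => by
    induction j with
    | zero => simp [ha.one]
    | succ j ih =>
      rw [Function.iterate_succ_apply', Function.iterate_succ_apply', ih, pow_succ',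
        ha.mul _ t.φ_mem _ (pow_mem t.φ_mem j)]
      simp only [f, map_add, add_assoc]
  have f2 : ∀ (j : ℕ) x, f^[2 ^ e * j] x = j • f^[2 ^ e] 0 + x := fun j x => by
    induction j with
    | zero => simp
    | succ j ih => rw [mul_add_one, add_comm, Function.iterate_add_apply, f1, he, ih, succ_nsmul',
        add_assoc]
  have f3 : ∀ (j : ℕ) x, f^[j % 2 ^ (e + m + 1)] x = f^[j] x := fun j x =>
    Function.IsPeriodicPt.iterate_mod_apply (by
      change f^[_] x = x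
      rw [add_assoc, pow_add, f2, pow_succ, mul_nsmul, hM, nsmul_zero, zero_add]) j
  have f4 : ∀ j : ℕ, ∀ σ ∈ Ine w, a σ (f^[j] 0) = f^[j] 0 := fun j => by
    induction j with
    | zero => simp
    | succ j ih =>
      intro σ hσ
      have h1 : φ⁻¹ * σ * φ ∈ Ine w := by simpa using conj_mem_Ine (inv_mem t.frob.1) hσ
      rw [Function.iterate_succ_apply']
      simp only [f, map_add]
      rw [hy σ hσ, ← ha.mul _ (t.ine_le hσ) _ t.φ_mem, show σ * φ = φ * (φ⁻¹ * σ * φ) by group,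
        ha.mul _ t.φ_mem _ (t.ine_le h1), ih _ h1]
  have o5 : ∀ j : ℕ, ω (φ ^ j) = j := fun j => by
    induction j with
    | zero => simpa using o4 1 (one_mem _)
    | succ j ih => rw [pow_succ φ, o2 _ (pow_mem t.φ_mem j) _ t.φ_mem, ih, o3, Nat.cast_succ]
  have f5 : ∀ g ∈ H ⊓ Dec w, ∀ j : ℕ, a (φ ^ (ω g).val) (f^[j] 0) = a g (f^[j] 0) :=
    fun g hg j => by
      obtain ⟨U, u1, -, u3⟩ := o1.comp₂ ha.sm Prod.mk
      obtain ⟨i, σ, hσ, k⟩ := t.dg hg u1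
      have h1 := pow_mem t.φ_mem i
      obtain ⟨k1, k2⟩ := Prod.mk.inj (u3 _ (mul_mem h1 (t.ine_le hσ)) g hg k)
      rw [← k1, ← k2, o2 _ h1 _ (t.ine_le hσ), o4 σ hσ, add_zero, o5, ZMod.val_natCast,
        ha.mul _ h1 _ (t.ine_le hσ), f4 j σ hσ]
      refine add_left_cancel (a := f^[i] 0) ?_
      rw [← f1, ← f3 i 0, ← f1, f3]
  refine ⟨fun g => f^[(ω g).val] 0, ⟨o1.comp fun s => f^[s.val] 0, fun g hg k hk => ?_⟩, ?_,
    fun σ hσ => ?_⟩
  · beta_reduce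
    rw [o2 g hg k hk, ZMod.val_add, f3, Function.iterate_add_apply, f1, f5 g hg]
  · have : Fact (1 < 2 ^ (e + m + 1)) := ⟨Nat.one_lt_two_pow (by omega)⟩
    simp only [o3, ZMod.val_one, Function.iterate_one, f, map_zero, add_zero]
  · simp only [o4 σ hσ, ZMod.val_zero, Function.iterate_zero_apply]

/-- The number of unramified cocycles. -/
theorem card_Lur [Finite M] (t : Tm H w q φ τ) (hM : ∀ x : M, 2 ^ m • x = 0)
    (ha : Act (H ⊓ Dec w) a) : Nat.card (Lur H w a) = Nat.card M := by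
  have ta := TA.of_act t hM ha
  have f1 := ta.finite
  have f2 : Finite (Lur H w a) := Finite.of_injective _ (AddSubgroup.inclusion_injective
    (locC_Lur t.ine ta.act).1)
  choose x hx using fun c : Lur H w a => c.2.2
  choose u u1 u2 u3 using fun y : H0 (Ine w) a => lf_exists_unr t hM ha y.2
  have k : ∀ (c : Lur H w a) (y : H0 (Ine w) a), ∀ σ ∈ Ine w,
      (c.1 - cob a (x c + y)) σ = 0 := fun c y σ hσ => by
    rw [Pi.sub_apply, lf_cob_add, hx c σ hσ, cob, cob, y.2 σ hσ, sub_self, add_zero, sub_self]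
  refine Nat.eq_of_mul_eq_mul_right (Nat.card_pos (α := H0 (Ine w) a)) ?_
  rw [← Nat.card_prod, ← Nat.card_prod]
  refine le_antisymm (Nat.card_le_card_of_injective (fun z => (x z.1 + z.2,
    ⟨(z.1.1 - cob a (x z.1 + z.2)) φ, fun σ hσ => lf_fix ta.act (z.1.2.1.1.lo_sub
      (lf_coc_cob ta.act _)) (fun σ hσ => k _ _ σ hσ.2) t.φ_mem ⟨t.ine hσ, hσ⟩⟩)) ?_)
    (Nat.card_le_card_of_injective (fun z =>
      let c : Lur H w a := ⟨rs _ (u z.2 + cob a z.1), (rs_mem_Lur t.ine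
        ((u1 _).add (lf_coc_cob ta.act _))).2 ⟨z.1, fun σ hσ => by
          rw [Pi.add_apply, u3 _ σ hσ, zero_add]⟩⟩
      (c, ⟨z.1 - x c, fun σ hσ => by
        have := hx c σ hσ
        rw [show c.1 σ = _ from rs_of_mem (t.ine_le hσ) _, Pi.add_apply, u3 _ σ hσ, zero_add,
          ← sub_eq_zero, ← lf_cob_sub] at this
        exact sub_eq_zero.1 this⟩)) ?_)
  · rintro ⟨c, y⟩ ⟨c', y'⟩ e
    have e1 : x c + y = x c' + y' := congrArg Prod.fst e
    have e2 : (c.1 - cob a (x c + y)) φ = (c'.1 - cob a (x c' + y')) φ :=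
      congrArg (fun z => z.2.1) e
    have e3 := (k c y τ t.gen.1).trans (k c' y' τ t.gen.1).symm
    rw [Pi.sub_apply, Pi.sub_apply, e1, sub_left_inj] at e2 e3
    obtain rfl : c = c' := Subtype.ext (funext fun g => by
      by_cases hg : g ∈ H ⊓ Dec w
      · exact ta.ext c.2.1.1 c'.2.1.1 e3 e2 hg
      · rw [c.2.1.2 g hg, c'.2.1.2 g hg])
    exact Prod.ext rfl (Subtype.ext (add_left_cancel e1))
  · rintro ⟨z, y⟩ ⟨z', y'⟩ e
    obtain ⟨e1, e2⟩ := Prod.mk.inj e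
    have e3 := congrArg Subtype.val e2
    simp only [e1, sub_left_inj] at e3
    have e4 := congrFun (congrArg Subtype.val e1) φ
    simp only [rs_of_mem t.φ_mem, Pi.add_apply, u2, e3, add_left_inj] at e4
    exact Prod.ext e3 (Subtype.ext e4)

/-- The unramified conditions are exact annihilators of each other. -/
theorem maxIso_Lur (F : CFT) [Finite M] [Finite M'] (t : Tm H w q φ τ)
    (hd : Dual m (H ⊓ Dec w) a a' b) : MaxIso F m H w a a' b (Lur H w a) (Lur H w a') := by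
  have h0 := dual0_of hd
  refine ⟨locC_Lur t.ine h0.act, locC_Lur t.ine h0.act',
    fun c ⟨h1, x, h2⟩ c' ⟨h3, y, h4⟩ => lf_inv_ur F t.op h0 h1.1 h3.1 h2 h4, ?_⟩
  rw [card_Lur t hd.pow_smul hd.act, card_Lur t hd.flip.pow_smul hd.act', hd.card_eq, ldeg,
    if_neg t.odd, add_zero, sq]

end Pool.Agent.B6
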