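import Pool.Agent.Lib.MP_696deb_nt.B2.GW

/-! Duality for finite Galois modules all of whose composition factors are the irreducible plane
over the field with two elements: definitions and statements. -/

set_option autoImplicit false

open scoped NNReal Classical
open Finset Matrix

namespace Pool.Agent.Lib.MP_696deb_nt.B6

open Pool.Agent.Lib.MP_696deb_nt.B2

/-- The plane over the field with two elements. -/
abbrev W2 : Type := Fin 2 → Z2

/-- Its endomorphisms. -/
abbrev N2 : Type := Matrix (Fin 2) (Fin 2) Z2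

section

variable {M M' : Type} [AddCommGroup M] [AddCommGroup M']

/-- A smooth action of `H`. -/
structure Act0 (H : Subgroup Gam) (a : Gam → M →+ M) : Prop where
  sm : Sm H a
  one : ∀ x, a 1 x = x
  mul : ∀ g ∈ H, ∀ h ∈ H, ∀ x, a (g * h) x = a g (a h x)

/-- The kernel of `sig` acts through a two-group, and the elements whose image has order three
act without fixed vector. -/
structure Act3 (sig : Gam →* N2) (H : Subgroup Gam) (a : Gam → M →+ M) : Prop
    extends Act0 H a where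
  two : ∀ g ∈ H, sig g = 1 → ∃ n : ℕ, ∀ x, a (g ^ 2 ^ n) x = x
  fpf : ∀ g ∈ H, (sig g).trace = 1 → ∀ x, a g x = x → x = 0

/-- Two smooth modules in duality. -/
structure Dual0 (m : ℕ) (H : Subgroup Gam) (a : Gam → M →+ M) (a' : Gam → M' →+ M')
    (b : M →+ M' →+ ZMod (2 ^ m)) : Prop where
  act : Act0 H a
  act' : Act0 H a'
  eqv : ∀ g ∈ H, ∀ x y, b (a g x) (a' g y) = cy m g * b x y
  left : ∀ x, (∀ y, b x y = 0) → x = 0
  right : ∀ y, (∀ x, b x y = 0) → y = 0

/-- Two modules of the above kind in duality. -/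
structure Dual3 (sig : Gam →* N2) (m : ℕ) (H : Subgroup Gam) (a : Gam → M →+ M)
    (a' : Gam → M' →+ M') (b : M →+ M' →+ ZMod (2 ^ m)) : Prop where
  sm : Sm ⊤ sig
  act : Act3 sig H a
  act' : Act3 sig H a'
  eqv : ∀ g ∈ H, ∀ x y, b (a g x) (a' g y) = cy m g * b x y
  left : ∀ x, (∀ y, b x y = 0) → x = 0
  right : ∀ y, (∀ x, b x y = 0) → y = 0

end

/-- Local duality. -/
def LD3Stmt (F : CFT) : Prop := ∀ (sig : Gam →* N2) (m : ℕ) (H : Subgroup Gam) (w : Plc)
  (M M' : Type) [AddCommGroup M] [AddCommGroup M'] [Finite M] [Finite M'] (a : Gam → M →+ M)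
  (a' : Gam → M' →+ M') (b : M →+ M' →+ ZMod (2 ^ m)),
  Op H → Dual3 sig m (H ⊓ Dec w) a a' b → LDcore F H w a a' b ∧
    ∀ L : AddSubgroup (Gam → M), LocC H w a L →
      Nat.card L * Nat.card (Perp F m H w a' b L) = Nat.card M ^ (2 + ldeg H w)

/-- The formula of Greenberg and Wiles. -/
def GW3Stmt (F : CFT) : Prop := ∀ (sig : Gam →* N2) (m : ℕ) (H : Subgroup Gam) (M M' : Type)
  [AddCommGroup M] [AddCommGroup M'] [Finite M] [Finite M'] (a : Gam → M →+ M)
  (a' : Gam → M' →+ M') (b : M →+ M' →+ ZMod (2 ^ m)) (s R X T : Finset Plc)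
  (L : Plc → AddSubgroup (Gam → M)) (L' : Plc → AddSubgroup (Gam → M')),
  Op H → TC H → Dual3 sig m H a a' b → Apart H s → s = R ∪ X ∪ T → Disjoint R X → Disjoint R T →
  Disjoint X T → (∀ w ∈ R ∪ X, w.p ≠ 2) →
  (∀ w, Away H s w → w.p ≠ 2 ∧ ∀ σ ∈ H ⊓ Ine w, ∀ x, a σ x = x) →
  (∀ w ∈ T, MaxIso F m H w a a' b (L w) (L' w)) →
  Finite (Sel H a s R T L) ∧
    Nat.card (Sel H a s R T L) * Nat.card M ^ (T.card + H.index / 2) =
      Nat.card (Sel H a' s X T L') * ∏ w ∈ T, Nat.card (L w)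

section

variable {M M' : Type} [AddCommGroup M] [AddCommGroup M'] {m : ℕ} {H D : Subgroup Gam}
  {a : Gam → M →+ M} {a' : Gam → M' →+ M'} {b : M →+ M' →+ ZMod (2 ^ m)} {sig : Gam →* N2}

theorem act0_of (h : Act H a) : Act0 H a := ⟨h.sm, h.one, h.mul⟩

theorem dual0_of (h : Dual m H a a' b) : Dual0 m H a a' b :=
  ⟨act0_of h.act, act0_of h.act', h.eqv, h.left, h.right⟩

theorem Act0.mono (h : Act0 H a) (k : D ≤ H) : Act0 D a :=
  ⟨h.sm.mono k, h.one, fun g hg g' hg' => h.mul g (k hg) g' (k hg')⟩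

theorem Act3.mono (h : Act3 sig H a) (k : D ≤ H) : Act3 sig D a :=
  ⟨h.toAct0.mono k, fun g hg => h.two g (k hg), fun g hg => h.fpf g (k hg)⟩

theorem Dual0.mono (h : Dual0 m H a a' b) (k : D ≤ H) : Dual0 m D a a' b :=
  ⟨h.act.mono k, h.act'.mono k, fun g hg => h.eqv g (k hg), h.left, h.right⟩

theorem Dual0.flip (h : Dual0 m H a a' b) : Dual0 m H a' a b.flip :=
  ⟨h.act', h.act, fun g hg x y => h.eqv g hg y x, h.right, h.left⟩

theorem Dual3.mono (h : Dual3 sig m H a a' b) (k : D ≤ H) : Dual3 sig m D a a' b :=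
  ⟨h.sm, h.act.mono k, h.act'.mono k, fun g hg => h.eqv g (k hg), h.left, h.right⟩

theorem Dual3.flip (h : Dual3 sig m H a a' b) : Dual3 sig m H a' a b.flip :=
  ⟨h.sm, h.act', h.act, fun g hg x y => h.eqv g hg y x, h.right, h.left⟩

theorem Dual3.zero (h : Dual3 sig m H a a' b) : Dual0 m H a a' b :=
  ⟨h.act.toAct0, h.act'.toAct0, h.eqv, h.left, h.right⟩

theorem N2.sq : ∀ A B : N2, A * B = 1 → A.trace ≠ 1 → A * A = 1 := by
  decide

/-- Without elements of order three the action is through a two-group. -/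
theorem Act3.act (h : Act3 sig H a) (k : ∀ g ∈ H, (sig g).trace ≠ 1) : Act H a :=
  ⟨h.sm, h.one, h.mul, fun g hg => by
    obtain ⟨n, hn⟩ := h.two (g * g) (mul_mem hg hg) (by
      rw [map_mul]
      exact N2.sq _ (sig g⁻¹) (by rw [← map_mul, mul_inv_cancel, map_one]) (k g hg))
    exact ⟨n + 1, by rwa [pow_succ', pow_mul, pow_two]⟩⟩

theorem Dual3.dual (h : Dual3 sig m H a a' b) (k : ∀ g ∈ H, (sig g).trace ≠ 1) :
    Dual m H a a' b := ⟨h.act.act k, h.act'.act k, h.eqv, h.left, h.right⟩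

end

end Pool.Agent.Lib.MP_696deb_nt.B6
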