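import Pool.Agent.Lib.MP_696deb_nt.B6.Red0

/-! The twisted action and Selmer cocycles of quadratic twists. -/

set_option autoImplicit false

open scoped NNReal Classical

namespace Pool.Agent.B6

open Pool.Agent.Lib.MP_696deb_nt Pool.Agent.Lib.MP_696deb_nt.B2

variable [Cw]

/-- The action twisted by a quadratic character. -/
noncomputable def tw (d : ℤ) (g : Gam) (P : EE) : EE := (chi d g : ℤ) • g • P

/-- Cocycles for the twisted action that are locally trivial at every place. -/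
structure hSel (d : ℤ) (ξ : Gam → EE) : Prop where
  sm : Sm ⊤ ξ
  coc : ∀ g h, ξ (g * h) = ξ g + tw d g (ξ h)
  loc : ∀ w : Plc, ∃ S, ∀ g ∈ Dec w, ξ g = tw d g S - S
  inf : ∃ S, ξ cc = tw d cc S - S

/-- The Selmer group of the twist has corank at most one. -/
def Cork (d : ℤ) : Prop := ∃ C : ℕ, ∀ (m : ℕ) (s : Finset (Gam → EE)),
  (∀ ξ ∈ s, hSel d ξ ∧ ∀ g, 2 ^ m • ξ g = 0) → s.card ≤ C * 8 ^ m

/-- The twist has a rational point that is not divisible by two modulo torsion. -/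
def Nz (d : ℤ) : Prop := ∃ P : EE, (∀ g, tw d g P = P) ∧
  ∀ Q : EE, (∀ g, tw d g Q = Q) → ¬ IsOfFinAddOrder (P - 2 • Q)

/-- The quadratic twist `y ^ 2 = x ^ 3 - 27 c₄ d ^ 2 x - 54 c₆ d ^ 3`. -/
def Et (d : ℤ) : WeierstrassCurve ℚ := ⟨0, 0, 0, -27 * WZ.c₄ * d ^ 2, -54 * WZ.c₆ * d ^ 3⟩

end Pool.Agent.B6
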