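import Pool.Agent.Lib.MP_696deb_nt.B6.Cs
import Pool.Agent.Lib.MP_696deb_nt.B6.Tw0
import Pool.Agent.Lib.MP_696deb_nt.B6.GW0
import Pool.Agent.Lib.MP_696deb_nt.B2.D1
import Pool.Agent.Lib.MP_696deb_nt.B4.Lk0

/-! The Tate module, Selmer cocycles of quadratic twists, and systems of Heegner points. -/

set_option autoImplicit false

open scoped NNReal Classical
open Finset Matrix NumberTheorySymbols

namespace Pool.Agent.B6

open Pool.Agent.Lib.MP_696deb_nt Pool.Agent.Lib.MP_696deb_nt.B2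

section

variable [Cw]

/-- The congruence relation of Eichler and Shimura outside of `M`. -/
def EsStmt (a : ℕ → ℤ) (M : ℕ) : Prop := ∀ (w : Plc) (φ : Gam) (P : EE), ¬ w.p ∣ M →
  IsFrob w w.p φ → φ • φ • P - a w.p • φ • P + w.p • P ∈ K1 w

/-- The sum of the complex points over a family of forms, weighted by a genus character. -/
noncomputable def ysum (φ : ℂ → Pt Wu ℂ) (B : ℕ) (T : Finset Fm) : Pt Wu ℂ :=
  ∑ Q ∈ T, gch B Q • φ (froot Q)

end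

section

variable [Cs]

/-- The group generated by the inertia groups above the bad primes. -/
noncomputable def IN : Subgroup Gam := ⨆ w : {w : Plc // w.p ∣ NN}, Ine w.1

/-- The points that are unramified above the bad primes. -/
noncomputable def EN : AddSubgroup EE where
  carrier := {P | ∀ g ∈ IN, g • P = P}
  zero_mem' g _ := smul_zero g
  add_mem' h k g hg := by rw [smul_add, h g hg, k g hg]
  neg_mem' h g hg := by rw [smul_neg, h g hg]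

theorem mem_EN {P : EE} : P ∈ EN ↔ ∀ g ∈ IN, g • P = P := Iff.rfl

/-- Points that are not divisible by two among the unramified points. -/
def Od (P : EE) : Prop := ∀ R ∈ EN, 2 • R ≠ P

/-- Discriminants prime to twice the conductor. -/
structure Good (n : ℕ) : Prop where
  sqf : Squarefree n
  mod4 : n % 4 = 3
  cop : Nat.Coprime n NN

/-- The discriminants that are used. -/
structure Nok (n : ℕ) : Prop where
  good : Good n
  m8 : n % 8 = 3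
  gt : 3 < n
  root : ∃ r : ℤ, 4 * (NN : ℤ) ∣ r ^ 2 + n
  condB : CondB n

/-- Fundamental discriminants all of whose primes are good and split. -/
structure Fok (n : ℕ) (f : ℤ) : Prop where
  sqf : Squarefree f
  m4 : f % 4 = 1
  spl : ∀ r : ℕ, r.Prime → (r : ℤ) ∣ f → ¬ r ∣ NN ∧ J(-n | r) = 1

/-- The number of primes of `f` modulo which the cubic has a root. -/
noncomputable def m0 (f : ℤ) : ℕ := (f.natAbs.primeFactors.filter Rt).card

/-- The Heegner point of the field of discriminant `-n` is not divisible by two. -/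
def Prim (φ : ℂ → Pt Wu ℂ) (n : ℕ) : Prop := ∀ (r : ℤ) (T : Finset Fm) (P : EE),
  4 * (NN : ℤ) ∣ r ^ 2 + n → B4.HRp NN (-n) r T → pmap jC P = ysum φ 1 T → Od P

end

/-- A curve together with Hecke eigenvalues and a multiple of all primes that must be avoided. -/
class Md extends Cs where
  al : ℕ → ℤ
  M : ℕ
  M_ne : M ≠ 0
  dvd_M : 2 * N ∣ M
  par : ∀ l : ℕ, l.Prime → ¬ l ∣ 2 * N → (Even (al l) ↔ Rt l)

variable [Md]

/-- The Hecke eigenvalues. -/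
def al (l : ℕ) : ℤ := Md.al l

/-- A multiple of all primes that must be avoided. -/
def MM : ℕ := Md.M

theorem MM_ne : MM ≠ 0 := Md.M_ne

theorem dvd_MM : 2 * NN ∣ MM := Md.dvd_M

theorem nd_of_MM {l : ℕ} (h : ¬ l ∣ MM) : ¬ l ∣ 2 * NN := fun k => h (k.trans dvd_MM)

theorem even_al {l : ℕ} (hl : l.Prime) (h : ¬ l ∣ 2 * NN) : Even (al l) ↔ Rt l := Md.par l hl h

/-- The two-adic Tate module with a basis, and what is used of it. -/
structure Tate where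
  ρ : Gam →* Matrix (Fin 2) (Fin 2) ℤ_[2]
  emb : (m : ℕ) → (Fin 2 → ZMod (2 ^ m)) →+ EE
  inj : ∀ m, Function.Injective (emb m)
  surj : ∀ m P, 2 ^ m • P = 0 → ∃ x, emb m x = P
  two : ∀ m k x, 2 ^ k • emb (m + k) x =
    emb m fun i => ZMod.castHom (pow_dvd_pow 2 (Nat.le_add_right m k)) (ZMod (2 ^ m)) (x i)
  smul : ∀ m g x, g • emb m x = emb m (mred m (ρ g) *ᵥ x)
  sm : ∀ m, Sm ⊤ fun g => mred m (ρ g)
  det : ∀ g, (ρ g).det = cyc g
  conj : ρ cc = !![0, 1; 1, 0]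
  iso : ∀ (m : ℕ) (D : Subgroup Gam) (x y : Gam → Fin 2 → ZMod (2 ^ m)) (S S' : EE),
    IsClosed (D : Set Gam) → (∀ g ∈ D, emb m (x g) = g • S - S) →
    (∀ g ∈ D, emb m (y g) = g • S' - S') →
    Spl m D fun g h => det2 (x g) (mred m (ρ g) *ᵥ y h)
  kumc : ∀ (n m : ℕ) (w : Plc), n % 8 = 3 → w.p = 2 → (16 ^ m : ℕ∞) ≤
    Set.encard {c : Gam → Fin 2 → ZMod (2 ^ m) | (∀ g ∉ GK n ⊓ Dec w, c g = 0) ∧
      ∃ S : EE, ∀ g ∈ GK n ⊓ Dec w, emb m (c g) = g • S - S}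
  unr : ∀ w : Plc, ¬ w.p ∣ 2 * NN → ∀ σ ∈ Ine w, ρ σ = 1
  es : ∀ (w : Plc) (φ : Gam) (P : EE), ¬ w.p ∣ MM → IsFrob w w.p φ →
    φ • φ • P - al w.p • φ • P + w.p • P ∈ K1 w
  tr : ∀ (w : Plc) (φ : Gam), ¬ w.p ∣ MM → IsFrob w w.p φ → (ρ φ).trace = al w.p
  hasse : ∀ (w : Plc) (φ : Gam) (f : ℕ) (u : ℤˣ), ¬ w.p ∣ 2 * NN → IsFrob w (w.p ^ f) φ → f ≠ 0 →
    ((u : ℤ) • ρ φ - 1).det ≠ 0
  par : ∀ (w : Plc) (φ : Gam), ¬ w.p ∣ 2 * NN → IsFrob w w.p φ →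
    ((mred 1 (ρ φ)).trace = 1 ↔ ¬ Rt w.p)
  mult : ∀ w : Plc, w.p ∣ NN →
    ∃ (B : Matrix (Fin 2) (Fin 2) ℤ_[2]) (s : ℤ), (s = 1 ∨ s = -1) ∧ B.det = 1 ∧
    (∀ σ ∈ Ine w, ∃ c, ρ σ * B = B * !![1, c; 0, 1] ∧ (Gen w σ → IsUnit c)) ∧
    ∀ φ, IsFrob w w.p φ → ∃ b, ρ φ * B = B * !![(s : ℤ_[2]) * w.p, b; 0, s]
  big : ∀ w : Plc, w.p ∣ NN → ∀ s, Gen w s → ∃ g : Gam,
    IsUnit ((ρ s - 1) * (ρ (g * s * g⁻¹) - 1)).trace ∧
    ∀ A : Matrix (Fin 2) (Fin 2) ℤ_[2], A.det = 1 → ∀ k,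
      ∃ u ∈ Subgroup.closure {s, g * s * g⁻¹}, mred k (ρ u) = mred k A
  kumN : ∀ w : Plc, w.p ∣ NN → ∀ P : EE, (∀ σ ∈ Ine w, σ • P = P) →
    ∃ Q : EE, (∀ σ ∈ Ine w, σ • Q = Q) ∧ 2 • Q = P

/-- The representation on the points of order two. -/
noncomputable def Tate.sig (T : Tate) : Gam →* B6.N2 :=
  (RingHom.mapMatrix (PadicInt.toZModPow 1)).toMonoidHom.comp T.ρ

theorem Tate.sig_apply (T : Tate) (g : Gam) : T.sig g = mred 1 (T.ρ g) := rfl

/-- Elements that act on the points of order two through an element of order three. -/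
def Tate.O3 (T : Tate) (g : Gam) : Prop := (T.sig g).trace = 1

/-- Admissible conductors: products of distinct inert primes. -/
def Adm (n c : ℕ) : Prop := Squarefree c ∧ ∀ l : ℕ, l.Prime → l ∣ c → ¬ l ∣ MM ∧ J(-n | l) = -1

/-- The traces of Heegner points to the two-primary ring class fields of the imaginary quadratic
field of discriminant `-n`. -/
structure HS (n : ℕ) where
  C : ℕ → Type
  [grp : ∀ c, CommGroup (C c)]
  [fin : ∀ c, Fintype (C c)]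
  pr : ∀ c c', C c' →* C c
  ψ : ∀ c, Gam → C c
  y : ∀ c, C c → EE
  ν : ∀ l s : ℕ, C l →* Multiplicative (ZMod (2 ^ s))
  gen : ℤ → C 1 →* ℤˣ
  two : ∀ c (a : C c), ∃ k : ℕ, a ^ 2 ^ k = 1
  sm : ∀ c, Adm n c → Sm (GK n) (ψ c)
  mul : ∀ c, Adm n c → ∀ g ∈ GK n, ∀ h ∈ GK n, ψ c (g * h) = ψ c g * ψ c h
  surj : ∀ c, Adm n c → ∀ a, ∃ g ∈ GK n, ψ c g = a
  pr_ψ : ∀ c c', Adm n c' → c ∣ c' → ∀ g ∈ GK n, pr c c' (ψ c' g) = ψ c g
  dih : ∀ c, Adm n c → ∀ g ∉ GK n, ψ c (g * g) = 1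
  unr : ∀ c (w : Plc), Adm n c → ¬ w.p ∣ c → ∀ σ ∈ GK n ⊓ Ine w, ψ c σ = 1
  gal : ∀ c, Adm n c → ∀ g ∈ GK n, ∀ a, g • y c a = y c (ψ c g * a)
  conj : ∃ (b : C 1) (t : EE), IsOfFinAddOrder t ∧ ∀ a, cc • y 1 a = t - y 1 (b * a⁻¹)
  trace : ∀ c l, l.Prime → Adm n (c * l) → ∀ a,
    ∑ a' with pr c (c * l) a' = a, y (c * l) a' = al l • y c a
  kron : ∀ c (w : Plc) (φ : Gam), Adm n (c * w.p) → IsFrob w w.p φ → ∀ a',
    y (c * w.p) a' - ordCompl[2] (w.p + 1) • φ • y c (pr c (c * w.p) a') ∈ K1 w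
  ν_gen : ∀ (w : Plc) (s : ℕ) (τ : Gam), Adm n w.p → 2 ^ (s + 1) ∣ w.p + 1 → Gen w τ →
    IsUnit (ν w.p s (ψ w.p τ)).toAdd
  ν_ram : ∀ (l s : ℕ) (w : Plc), l.Prime → Adm n l → 2 ^ (s + 1) ∣ l + 1 → w.p ∣ n →
    ∀ g ∈ GK n ⊓ Dec w, ν l s (ψ l g) = 1
  ν_fib : ∀ (c l s : ℕ), l.Prime → Adm n (c * l) → 2 ^ (s + 1) ∣ l + 1 → ∀ a x,
    (univ.filter fun a' => pr c (c * l) a' = a ∧ ν l s (pr l (c * l) a') = x).card * 2 ^ s =
      ordProj[2] (l + 1)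
  gen_ψ : ∀ e : ℤ, e ∣ n → e % 4 = 1 → ∀ g ∈ GK n, gen e (ψ 1 g) = chi e g

attribute [instance] HS.grp HS.fin

/-- The Heegner point of a genus character. -/
noncomputable def HS.ychi {n : ℕ} (S : HS n) (e : ℤ) : EE := ∑ a, (S.gen e a : ℤ) • S.y 1 a

/-- Euler systems of points for the twist by `f`, indexed by the class groups of `S`. -/
structure ES {n : ℕ} (S : HS n) (f : ℤ) where
  y : ∀ c, S.C c → EE
  gal : ∀ c, Adm n c → ∀ g ∈ GK n, ∀ a, tw f g (y c a) = y c (S.ψ c g * a)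
  trace : ∀ c l, l.Prime → Adm n (c * l) → ∀ a,
    ∑ a' with S.pr c (c * l) a' = a, y (c * l) a' = al l • y c a
  kron : ∀ c (w : Plc) (φ : Gam), Adm n (c * w.p) → IsFrob w w.p φ → ∀ a',
    y (c * w.p) a' - ordCompl[2] (w.p + 1) • φ • y c (S.pr c (c * w.p) a') ∈ K1 w

omit [Md] in
/-- The group ring acts on functions by translations. -/
noncomputable def shA (C V : Type) [CommGroup C] [AddCommGroup V] :
    MonoidAlgebra ℤ C →ₐ[ℤ] Module.End ℤ (C → V) :=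
  MonoidAlgebra.lift ℤ _ C
    { toFun := fun b => LinearMap.funLeft ℤ V fun a => b * a
      map_one' := LinearMap.ext fun y => funext fun a => congrArg y (one_mul a)
      map_mul' := fun b c => LinearMap.ext fun y => funext fun a =>
        congrArg y ((congrArg (· * a) (mul_comm b c)).trans (mul_assoc c b a)) }

omit [Md] in
theorem shA_single {C V : Type} [CommGroup C] [AddCommGroup V] (b : C) (m : ℤ) (y : C → V) (a : C) :
    shA C V (MonoidAlgebra.single b m) y a = m • y (b * a) := by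
  rw [shA, MonoidAlgebra.lift_single]
  rfl

section

variable {n : ℕ} {S : HS n} {f : ℤ}

/-- The point of the branch `f e`. -/
noncomputable def ES.ychi (Y : ES S f) (e : ℤ) : EE := ∑ a, (S.gen e a : ℤ) • Y.y 1 a

/-- The product of the Euler factors at the primes of `f`. -/
noncomputable def HS.Eul (S : HS n) (f : ℤ) (l : ℕ) (φ : ℕ → Gam) : MonoidAlgebra ℤ (S.C l) :=
  ∏ r ∈ f.natAbs.primeFactors, (MonoidAlgebra.single 1 (al r) -
    MonoidAlgebra.single (S.ψ l (φ r)) 1 - MonoidAlgebra.single (S.ψ l (φ r))⁻¹ 1)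

/-- The congruence between the twisted system and the system of Heegner points. -/
def ES.Cong (Y : ES S f) : Prop := ∃ φ : ℕ → Gam,
  (∀ r ∈ f.natAbs.primeFactors, ∃ w : Plc, w.p = r ∧ IsFrob w r (φ r)) ∧
  ∀ l, Adm n l → ∀ a, ∃ u : EE, (∀ g ∈ GK n, S.ψ l g = 1 → chi f g = 1 → g • u = u) ∧
    Y.y l a = shA _ EE (S.Eul f l φ) (S.y l) a + 2 • u

end

/-- The points of the system are the complex Heegner points. -/
def HS.Link {n : ℕ} (S : HS n) (φ : ℂ → Pt Wu ℂ) (r : ℤ) : Prop := ∃ T, B4.HRp NN (-n) r T ∧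
  ∀ e : ℤ, e ∣ n → e % 4 = 1 → ∃ s : ℤ, (s = 1 ∨ s = -1) ∧
    pmap jC (S.ychi e) = s • ysum φ e.natAbs T

/-- The same for the twisted system. -/
def ES.Link {n : ℕ} {S : HS n} {f : ℤ} (Y : ES S f) (φ : ℂ → Pt Wu ℂ) (r : ℤ) : Prop :=
  ∃ T, B4.HRp NN (-(n * f ^ 2)) (r * f.natAbs) T ∧
    ∀ e : ℤ, e ∣ n → e % 4 = 1 → ∃ s : ℤ, (s = 1 ∨ s = -1) ∧
      pmap jC (Y.ychi e) = s • ysum φ (f * e).natAbs T

end Pool.Agent.B6
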