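import Pool.Agent.Lib.MP_696deb_nt.B2.LO3
import Pool.Agent.Lib.MP_696deb_nt.B6.LOK0

/-! The Kummer condition: change of level, spanning, cocycle property, isotropy. -/

set_option autoImplicit false

open scoped NNReal Classical
open Finset Matrix

namespace Pool.Agent.B6

open Pool.Agent.Lib.MP_696deb_nt Pool.Agent.Lib.MP_696deb_nt.B2

variable [Md]

variable {T : Tate} {D : Subgroup Gam} {m k : ℕ} {B B' : Type} [AddCommGroup B] [AddCommGroup B']

theorem Tate.emb_nat (T : Tate) {j N : ℕ} (h : m + j = N) (x : Fin 2 → ℕ) :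
    2 ^ j • T.emb N (fun i => x i) = T.emb m fun i => x i := by
  subst h
  rw [T.two]
  simp only [map_natCast]

theorem Tate.emb_pow (T : Tate) (x : Fin 2 → ZMod (2 ^ m)) : 2 ^ m • T.emb m x = 0 := by
  rw [← map_nsmul, ← T.emb m |>.map_zero]
  congr 1
  ext i
  rw [Pi.smul_apply, nsmul_eq_mul, ZMod.natCast_self, zero_mul, Pi.zero_apply]

theorem Tate.emb_smul (T : Tate) {t : ZMod (2 ^ k)} (ht : 2 ^ m • t = 0) :
    ∃ n : ℕ, ∀ x : Fin 2 → ZMod (2 ^ m), T.emb k (fun i => (x i).val • t) = n • T.emb m x := by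
  rw [← ZMod.natCast_zmod_val t, nsmul_eq_mul, ← Nat.cast_mul, ZMod.natCast_eq_zero_iff] at ht
  obtain ⟨n, hn⟩ := ht
  refine ⟨n, fun x => ?_⟩
  have e1 := T.emb_nat (j := m) (m := k) rfl fun i => (x i).val * t.val
  have e2 := T.emb_nat (j := k) (m := m) (add_comm m k) fun i => (x i).val
  simp only [ZMod.natCast_zmod_val] at e2
  simp only [Nat.cast_mul, ZMod.natCast_zmod_val] at e1
  simp only [nsmul_eq_mul]
  rw [← e1, ← e2, ← map_nsmul, ← map_nsmul, ← map_nsmul]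
  congr 1
  ext i
  have := congrArg (Nat.cast : ℕ → ZMod (2 ^ (k + m))) hn
  rw [Pi.smul_apply, Pi.smul_apply, Pi.smul_apply]
  simp only [nsmul_eq_mul, Nat.cast_mul] at this ⊢
  linear_combination ((x i).val : ZMod (2 ^ (k + m))) * this

theorem Tate.exists_up (T : Tate) (h : k ≤ m) : ∃ u : ZMod (2 ^ k) →+ ZMod (2 ^ m),
    Function.Injective u ∧ ∀ x : Fin 2 → ZMod (2 ^ k), T.emb m (fun i => u (x i)) = T.emb k x := by
  obtain ⟨j, rfl⟩ := Nat.exists_eq_add_of_le h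
  have h0 : 2 ^ k • (2 ^ j : ZMod (2 ^ (k + j))) = 0 := by
    have := ZMod.natCast_self (2 ^ (k + j))
    rw [nsmul_eq_mul]
    push_cast at this ⊢
    rw [← pow_add, this]
  let u : ZMod (2 ^ k) →+ ZMod (2 ^ (k + j)) :=
    AddMonoidHom.mk' (fun s => s.val • (2 ^ j : ZMod (2 ^ (k + j)))) fun s t => by
      rw [← add_nsmul, lo3_nsmul h0 (a := s.val + t.val) (x := s + t) (by simp)]
  have e : ∀ x : Fin 2 → ZMod (2 ^ k), T.emb (k + j) (fun i => u (x i)) = T.emb k x := fun x => by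
    have := T.emb_nat (m := k) (j := j) rfl fun i => (x i).val
    simp only [ZMod.natCast_zmod_val] at this
    rw [← this, ← map_nsmul]
    congr 1
    ext i
    simp [u, mul_comm]
  refine ⟨u, (injective_iff_map_eq_zero u).2 fun s hs => ?_, e⟩
  have := e fun _ => s
  rw [hs, show (fun _ => 0) = (0 : Fin 2 → ZMod (2 ^ (k + j))) from rfl, map_zero] at this
  exact congrFun ((injective_iff_map_eq_zero _).1 (T.inj k) _ this.symm) 0

theorem lo3_half (j : ℕ) (S : EE) : ∃ S', 2 ^ j • S' = S := by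
  induction j with
  | zero => exact ⟨S, by simp⟩
  | succ j ih =>
    obtain ⟨P, rfl⟩ := ih
    obtain ⟨Q, rfl⟩ := exists_half P
    exact ⟨Q, by rw [pow_succ, mul_nsmul']⟩

theorem KumP.smul_val {x : Gam → Fin 2 → ZMod (2 ^ m)} (h : KumP T m D x) {t : ZMod (2 ^ k)}
    (ht : 2 ^ m • t = 0) : KumP T k D fun g i => (x g i).val • t := by
  obtain ⟨S, h⟩ := h
  obtain ⟨n, hn⟩ := T.emb_smul ht
  exact ⟨n • S, fun g hg => by rw [hn, h g hg, smul_comm g n S, nsmul_sub]⟩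

theorem KumP.lift {x : Gam → Fin 2 → ZMod (2 ^ k)} (h : KumP T k D x) (hk : k ≤ m) :
    ∃ y, KumP T m D y ∧ ∀ g ∈ D, ∀ i, ((y g i).val : ZMod (2 ^ k)) = x g i := by
  obtain ⟨j, rfl⟩ := Nat.exists_eq_add_of_le hk
  obtain ⟨S, h⟩ := h
  obtain ⟨S, rfl⟩ := lo3_half j S
  have e : ∀ g ∈ D, 2 ^ j • (g • S - S) = T.emb k (x g) := fun g hg => by
    rw [h g hg, smul_comm g, nsmul_sub]
  have : ∀ g, ∃ y, g ∈ D → T.emb (k + j) y = g • S - S := fun g => by
    by_cases hg : g ∈ D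
    · exact (T.surj (k + j) (g • S - S) (by rw [pow_add, mul_nsmul', e g hg, T.emb_pow])).imp
        fun _ h _ => h
    · exact ⟨0, fun h => absurd h hg⟩
  choose y hy using this
  refine ⟨y, ⟨S, hy⟩, fun g hg => congrFun (T.inj k ?_)⟩
  rw [← e g hg, ← hy g hg, ← T.emb_nat (j := j) rfl]
  simp only [ZMod.natCast_zmod_val]

theorem KumP.coc {x : Gam → Fin 2 → ZMod (2 ^ m)} (h : KumP T m D x) :
    Sm D x ∧ ∀ g ∈ D, ∀ k ∈ D, x (g * k) = x g + mred m (T.ρ g) *ᵥ x k := by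
  obtain ⟨S, h⟩ := h
  obtain ⟨U, u1, u2, u3⟩ := sm_pt D S
  refine ⟨⟨U, u1, u2, fun g hg k hk e => T.inj m ?_⟩, fun g hg k hk => T.inj m ?_⟩
  · rw [h g hg, h k hk, show g • S = k • S from u3 g hg k hk e]
  · rw [map_add, ← T.smul, h _ (mul_mem hg hk), h g hg, h k hk, mul_smul, smul_sub]
    abel

/-- Elementary classes satisfy the Kummer condition. -/
theorem KumC.of_smul {x : Gam → Fin 2 → ZMod (2 ^ m)} (h : KumP T m D x) {e : B}
    (he : 2 ^ m • e = 0) : KumC T D fun g i => (x g i).val • e := fun _ f =>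
  (h.smul_val (t := f e) (by rw [← map_nsmul, he, map_zero])).congr fun _ _ =>
    funext fun _ => map_nsmul f _ _

theorem KumC.sum {ι : Type*} (s : Finset ι) {c : ι → Gam → Fin 2 → B}
    (h : ∀ i ∈ s, KumC T D (c i)) : KumC T D fun g j => ∑ i ∈ s, c i g j :=
  (sum_induction c (KumC T D) (fun _ _ => KumC.add) KumC.zero h).congr fun g _ => by
    ext j
    simp only [Finset.sum_apply]

/-- Every class that satisfies the Kummer condition is a sum of elementary classes. -/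
theorem KumC.span [Finite B] (hB : ∀ x : B, 2 ^ m • x = 0) {c : Gam → Fin 2 → B}
    (h : KumC T D c) : ∃ (ι : Type) (_ : Fintype ι) (x : ι → Gam → Fin 2 → ZMod (2 ^ m))
      (e : ι → B), (∀ i, KumP T m D (x i)) ∧ ∀ g ∈ D, ∀ j, c g j = ∑ i, (x i g j).val • e i := by
  obtain ⟨ι, _, k, e, p, hk, he, hp⟩ := lo3_coord hB
  choose x h1 h2 using fun i => (h (k i) (p i)).lift (hk i)
  exact ⟨ι, inferInstance, x, e, h1, fun g hg j =>
    (hp _).trans (sum_congr rfl fun i _ => (lo3_nsmul (he i) (h2 i g hg j)).symm)⟩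

variable {a : Gam → (Fin 2 → B) →+ Fin 2 → B} {a' : Gam → (Fin 2 → B') →+ Fin 2 → B'}

theorem KumC.coc [Finite B] (hB : ∀ x : B, 2 ^ m • x = 0) (ha : TAct T D a)
    {c : Gam → Fin 2 → B} (h : KumC T D c) : Coc D a c := by
  refine ⟨?_, fun g hg k hk => funext fun j => lo3_sep hB fun n f => ?_⟩
  · obtain ⟨ι, _, x, e, h1, h2⟩ := h.span hB
    exact ((Sm.pi fun i => (h1 i).coc.1).comp fun z j => ∑ i, (z i j).val • e i).congr
      fun g hg => funext fun j => (h2 g hg j).symm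
  · rw [Pi.add_apply, map_add, congrFun (ha n f g hg (c k)) j]
    exact congrFun ((h n f).coc.2 g hg k hk) j

theorem KumC.cob (ha : TAct T D a) (x : Fin 2 → B) : KumC T D (cob a x) := fun n f =>
  ⟨T.emb n fun i => f (x i), fun g hg => by
    rw [T.smul, ← ha n f g hg, ← map_sub]
    congr 1
    ext i
    exact map_sub f _ _⟩

theorem locC_LK {H : Subgroup Gam} {w : Plc} [Finite B] (hB : ∀ x : B, 2 ^ m • x = 0)
    (ha : TAct T (H ⊓ Dec w) a) : LocC H w a (LK T (H ⊓ Dec w) B) :=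
  ⟨fun _ h => ⟨h.1.coc hB ha, h.2⟩, fun x =>
    ⟨(KumC.cob ha x).congr fun _ hg => rs_of_mem hg _, fun _ hg => rs_of_notMem hg _⟩⟩

theorem rs_mem_LK {c : Gam → Fin 2 → B} : rs D c ∈ LK T D B ↔ KumC T D c :=
  ⟨fun h => h.1.congr fun _ hg => (rs_of_mem hg _).symm, fun h =>
    ⟨h.congr fun _ hg => rs_of_mem hg _, fun _ hg => rs_of_notMem hg _⟩⟩

/-- The cup product of two Kummer classes splits. -/
theorem KumC.iso [Finite B] (hB : ∀ x : B, 2 ^ m • x = 0) (hD : IsClosed (D : Set Gam))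
    (ha' : TAct T D a') (β : B →+ B' →+ ZMod (2 ^ m))
    {b : (Fin 2 → B) →+ (Fin 2 → B') →+ ZMod (2 ^ m)}
    (hb : ∀ x y, b x y = β (x 0) (y 1) - β (x 1) (y 0)) {c : Gam → Fin 2 → B}
    {c' : Gam → Fin 2 → B'} (h : KumC T D c) (h' : KumC T D c') : Spl m D (cupb b a' c c') := by
  obtain ⟨ι, _, x, e, h1, h2⟩ := h.span hB
  refine lo3_spl_sum univ (c := fun i g k =>
    det2 (x i g) (mred m (T.ρ g) *ᵥ fun j => β (e i) (c' k j))) (fun i _ => ?_) fun g hg k _ => ?_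
  · obtain ⟨S, hS⟩ := h1 i
    obtain ⟨S', hS'⟩ := h' m (β (e i))
    exact T.iso m D _ _ S S' hD hS hS'
  · simp only [cupb, hb, h2 g hg, map_sum, map_nsmul, AddMonoidHom.finsetSum_apply,
      AddMonoidHom.nsmul_apply, nsmul_eq_mul, ZMod.natCast_zmod_val, ← sum_sub_distrib]
    exact sum_congr rfl fun i _ => by rw [← ha' m (β (e i)) g hg, det2]

/-- The number of Kummer classes at two. -/
theorem card_LK {n : ℕ} {w : Plc} (hn : n % 8 = 3) (hw : w.p = 2) (hB : ∀ x : B, 2 ^ m • x = 0)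
    [Finite (LK T (GK n ⊓ Dec w) B)] : Nat.card B ^ 4 ≤ Nat.card (LK T (GK n ⊓ Dec w) B) := by
  obtain ⟨y, y1, y2⟩ := lo3_indep (F := ZMod 2) (V := Gam → Fin 2 → ZMod 2) _ 4
    (le_trans (by simp) (T.kumc n 1 w hn hw))
  choose x x1 x2 using fun i => KumP.lift (T := T) (k := 1) (y1 i).2 (Nat.le_add_left 1 m)
  have hB' : ∀ x : B, 2 ^ (m + 1) • x = 0 := fun x => by rw [pow_succ, mul_nsmul, hB, nsmul_zero]
  let Φ : (Fin 4 → B) → LK T (GK n ⊓ Dec w) B := fun b =>
    ⟨rs _ fun g j => ∑ i, (x i g j).val • b i,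
      rs_mem_LK.2 (KumC.sum _ fun i _ => KumC.of_smul (x1 i) (hB' _))⟩
  have : Function.Injective Φ := fun b b' e => by
    refine sub_eq_zero.1 (lo3_inj (y := y) y2
      (x := fun i g j => if g ∈ GK n ⊓ Dec w then (x i g j).val else 0) (fun i g j => ?_) hB
      fun g j => ?_)
    · split_ifs with hg
      · exact x2 i g hg j
      · rw [(y1 i).1 g hg, Nat.cast_zero, Pi.zero_apply]
    · split_ifs with hg
      · have := congrFun (congrFun (congrArg Subtype.val e) g) j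
        simp only [Φ, rs_of_mem hg] at this
        simp only [Pi.sub_apply, nsmul_sub, sum_sub_distrib, this, sub_self]
      · simp
  simpa [Nat.card_fun] using Nat.card_le_card_of_injective Φ this

end Pool.Agent.B6
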