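import Pool.Agent.Lib.MP_696deb_nt.B2.LO3b
import Pool.Agent.Lib.MP_696deb_nt.B6.LO3
import Pool.Agent.Lib.MP_696deb_nt.B6.LF1

/-! The Kummer condition is cartesian and is its own annihilator. -/

set_option autoImplicit false

open scoped NNReal Classical
open Finset Matrix

namespace Pool.Agent.B6

open Pool.Agent.Lib.MP_696deb_nt Pool.Agent.Lib.MP_696deb_nt.B2 Pool.Agent.Lib.MP_696deb_nt.B6

variable [Md]

variable {T : Tate} {D : Subgroup Gam} {m k : ℕ} {B B' : Type} [AddCommGroup B] [AddCommGroup B']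

theorem lo3_sep' (T : Tate) [Finite B] (hB : ∀ x : B, 2 ^ m • x = 0) {x : B}
    (h : ∀ f : B →+ ZMod (2 ^ m), f x = 0) : x = 0 := by
  obtain ⟨ι, _, k, e, p, hk, -, hp⟩ := lo3_coord hB
  rw [hp x]
  refine sum_eq_zero fun i _ => ?_
  obtain ⟨u, hu, -⟩ := T.exists_up (hk i)
  rw [(injective_iff_map_eq_zero u).1 hu _ (h (u.comp (p i))), ZMod.val_zero, zero_nsmul]

/-- It suffices to test the Kummer condition at one level on a separating family. -/
theorem kumC_of_sep_hom [Finite B] {c : Gam → Fin 2 → B}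
    (h : ∀ x : B, (∀ f : B →+ ZMod (2 ^ m), (KumP T m D fun g i => f (c g i)) → f x = 0) → x = 0)
    (f : B →+ ZMod (2 ^ m)) : KumP T m D fun g i => f (c g i) := by
  let W : AddSubgroup (B →+ ZMod (2 ^ m)) :=
    { carrier := {f | KumP T m D fun g i => f (c g i)}
      zero_mem' := KumP.zero
      add_mem' := fun h k => h.add k
      neg_mem' := fun h => h.neg }
  have := finite_hom (A := B) (n := 2 ^ m)
  have e := ann_ann (AddMonoidHom.id (B →+ ZMod (2 ^ m))) W
  have e2 : f ∈ ann (AddMonoidHom.id (B →+ ZMod (2 ^ m))).flip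
      (ann (AddMonoidHom.id (B →+ ZMod (2 ^ m))) W) := mem_ann.2 fun x hx => by
    rw [h x fun f hf => mem_ann.1 hx f hf]
    exact map_zero f
  rw [e, (AddMonoidHom.ker_eq_bot_iff _).2 Function.injective_id, sup_bot_eq] at e2
  exact e2

/-- The Kummer condition can be tested on a separating family of homomorphisms. -/
theorem KumC.of_sep [Finite B] [Finite B'] (hB' : ∀ x : B', 2 ^ m • x = 0) {ι : Type*}
    (φ : ι → B →+ B') (hφ : ∀ x, (∀ i, φ i x = 0) → x = 0) {c : Gam → Fin 2 → B}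
    (h : ∀ i, KumC T D fun g j => φ i (c g j)) : KumC T D c := fun k f => by
  obtain ⟨u, -, hu⟩ := T.exists_up (Nat.le_add_left k m)
  obtain ⟨S, hS⟩ := kumC_of_sep_hom (T := T) (D := D) (c := c) (m := m + k) (fun x hx => hφ x fun i =>
    lo3_sep' T (m := m + k) (fun y => by rw [pow_add, mul_nsmul, hB', nsmul_zero]) fun f' =>
      hx (f'.comp (φ i)) (h i _ f')) (u.comp f)
  exact ⟨S, fun g hg => (hu _).symm.trans (hS g hg)⟩

theorem KumC.of_inj [Finite B'] (hB' : ∀ x : B', 2 ^ m • x = 0) (φ : B →+ B')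
    (hφ : Function.Injective φ) {c : Gam → Fin 2 → B} (h : KumC T D fun g j => φ (c g j)) :
    KumC T D c :=
  have := Finite.of_injective φ hφ
  KumC.of_sep hB' (fun _ : Unit => φ) (fun x hx => (injective_iff_map_eq_zero φ).1 hφ x (hx ()))
    fun _ => h

/-- For cyclic coefficients the condition is the usual one. -/
theorem KumP.kumC {x : Gam → Fin 2 → ZMod (2 ^ m)} (h : KumP T m D x) : KumC T D x :=
  (KumC.of_smul h (e := (1 : ZMod (2 ^ m))) (by
    rw [nsmul_eq_mul, ZMod.natCast_self, zero_mul])).congr fun _ _ => funext fun _ => by simp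

theorem KumC.kumP {x : Gam → Fin 2 → ZMod (2 ^ m)} (h : KumC T D x) : KumP T m D x :=
  h m (AddMonoidHom.id _)

/-- Kummer classes lift along surjections. -/
theorem KumC.lift [Finite B'] (hB : ∀ x : B, 2 ^ m • x = 0) (φ : B →+ B')
    (hφ : Function.Surjective φ) {c : Gam → Fin 2 → B'} (h : KumC T D c) :
    ∃ c' : Gam → Fin 2 → B, KumC T D c' ∧ ∀ g ∈ D, ∀ j, φ (c' g j) = c g j := by
  obtain ⟨ι, _, x, e, h1, h2⟩ := h.span (m := m) fun y => by
    obtain ⟨z, rfl⟩ := hφ y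
    rw [← map_nsmul, hB, map_zero]
  choose e' he using fun i => hφ (e i)
  exact ⟨_, KumC.sum univ fun i _ => KumC.of_smul (h1 i) (hB (e' i)), fun g hg j => by
    simp only [map_sum, map_nsmul, he, h2 g hg j]⟩

/-- The Kummer conditions at two are exact annihilators of each other. -/
theorem maxIso_LK {F : CFT} (ld : LD3Stmt F) {sig : Gam →* N2} {n : ℕ} {w : Plc} (hn : n % 8 = 3) (hw : w.p = 2)
    [Finite B] [Finite B'] {a : Gam → (Fin 2 → B) →+ Fin 2 → B}
    {a' : Gam → (Fin 2 → B') →+ Fin 2 → B'} (ha : TAct T (GK n ⊓ Dec w) a)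
    (ha' : TAct T (GK n ⊓ Dec w) a') (hB : ∀ x : B, 2 ^ m • x = 0) (hB' : ∀ x : B', 2 ^ m • x = 0)
    (β : B →+ B' →+ ZMod (2 ^ m)) {b : (Fin 2 → B) →+ (Fin 2 → B') →+ ZMod (2 ^ m)}
    (hb : ∀ x y, b x y = β (x 0) (y 1) - β (x 1) (y 0)) (hd : Dual3 sig m (GK n ⊓ Dec w) a a' b) :
    MaxIso F m (GK n) w a a' b (LK T (GK n ⊓ Dec w) B) (LK T (GK n ⊓ Dec w) B') := by
  have l1 := locC_LK hB ha
  have l2 := locC_LK hB' ha'
  have f1 := (ld sig m _ w _ _ a a' b (op_GK n) hd).1.1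
  have f2 := (ld sig m _ w _ _ a' a b.flip (op_GK n) hd.flip).1.1
  have := Finite.of_injective _ (AddSubgroup.inclusion_injective l1.1)
  have := Finite.of_injective _ (AddSubgroup.inclusion_injective l2.1)
  refine ⟨l1, l2, fun c hc c' hc' => ?_, ?_⟩
  · have := hc.1.iso hB ((op_GK n).closed.inter (closed_Dec w)) ha' β hb hc'.1
    exact (F.zero_iff (op_GK n) this.c2).2 this
  · have e := (lf_card hd.zero).ge
    simp only [Nat.card_fun, Nat.card_eq_fintype_card, Fintype.card_fin] at e ⊢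
    rw [ldeg_two hn hw]
    refine le_trans ?_ (Nat.mul_le_mul (card_LK hn hw hB) (card_LK hn hw hB'))
    calc _ = Nat.card B ^ 4 * (Nat.card B ^ 2) ^ 2 := by ring
      _ ≤ Nat.card B ^ 4 * (Nat.card B' ^ 2) ^ 2 := by gcongr
      _ = _ := by ring

end Pool.Agent.B6
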