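import Pool.Agent.Lib.MP_23455a_nt.H3.CH

/-! The density theorem of Frobenius for elements whose order divides a power of six. -/

set_option autoImplicit false

open scoped NNReal Classical
open Filter Topology Finset

namespace Pool.Agent.Lib.MP_696deb_nt.B6

open Pool.Agent.Lib.MP_696deb_nt.B2
open Pool.Agent.H3 (exists_frob_avoid ch3_rep)

theorem cheb6 {U : Subgroup Gam} (hU : Op U) (hN : U.Normal) {s : Gam} {k : ℕ}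
    (hs : s ^ 6 ^ k ∈ U) (B : Finset ℕ) :
    ∃ (w : Plc) (φ : Gam) (a : ℕ), w.p ∉ B ∧ IsFrob w w.p φ ∧ a.Coprime 6 ∧ φ⁻¹ * s ^ a ∈ U := by
  obtain ⟨σ, hσ⟩ : ∃ σ : Gam ⧸ U, σ = s := ⟨_, rfl⟩
  have h0 : σ ^ (6 ^ k : ℤ) = 1 := by
    have h1 := (QuotientGroup.eq_one_iff _).2 hs
    rw [QuotientGroup.mk_pow, ← hσ, ← zpow_natCast] at h1
    exact_mod_cast h1
  have fin : ∀ (φ : Gam) (n : ℤ), σ ^ n = φ → ¬ 2 ∣ n → ¬ 3 ∣ n →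
      ∃ a : ℕ, a.Coprime 6 ∧ φ⁻¹ * s ^ a ∈ U := by
    intro φ n e h2 h3
    have h1 : (1 : ℤ) ≤ 6 ^ k := one_le_pow₀ (by norm_num)
    have h4 : 0 ≤ n + 6 * (6 ^ k * |n|) := by nlinarith [abs_nonneg n, neg_abs_le n]
    obtain ⟨a, ha⟩ := Int.eq_ofNat_of_zero_le h4
    refine ⟨a, ?_, QuotientGroup.eq.1 ?_⟩
    · refine (Nat.Coprime.mul_left (Nat.prime_two.coprime_iff_not_dvd.2 ?_)
        (Nat.prime_three.coprime_iff_not_dvd.2 ?_)).symm <;> omega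
    · rw [QuotientGroup.mk_pow, ← hσ, ← zpow_natCast, ← ha, zpow_add,
        show 6 * (6 ^ k * |n|) = 6 ^ k * (6 * |n|) by ring, zpow_mul, h0, one_zpow, mul_one, e]
  obtain ⟨J, hJ⟩ : ∃ J : ℤ → Subgroup Gam, ∀ m g, g ∈ J m ↔ ∃ n : ℤ, σ ^ (m * n) = g :=
    ⟨fun m => (Subgroup.zpowers (σ ^ m)).comap (QuotientGroup.mk' U), fun m g => by
      simp only [Subgroup.mem_comap, Subgroup.mem_zpowers_iff, zpow_mul, QuotientGroup.mk'_apply]⟩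
  have ho : ∀ m, Op (J m) := fun m => Subgroup.isOpen_mono (fun g hg => (hJ m g).2
    ⟨0, by rw [mul_zero, zpow_zero, (QuotientGroup.eq_one_iff g).2 hg]⟩) hU
  have hle : ∀ m, J m ≤ J 1 := fun m g hg => by
    obtain ⟨n, e⟩ := (hJ m g).1 hg
    exact (hJ 1 g).2 ⟨m * n, by rw [one_mul, e]⟩
  have hn : ∀ m, ∀ g ∈ J 1, ∀ φ ∈ J m, g * φ * g⁻¹ ∈ J m := fun m g hg φ hφ => by
    obtain ⟨a, e⟩ := (hJ 1 g).1 hg
    obtain ⟨n, e'⟩ := (hJ m φ).1 hφ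
    refine (hJ m _).2 ⟨n, ?_⟩
    rw [QuotientGroup.mk_mul, QuotientGroup.mk_mul, QuotientGroup.mk_inv, ← e, ← e',
      zpow_mul_comm, mul_inv_cancel_right]
  have hp : ∀ d : ℕ, s ^ d ∈ J 1 := fun d => pow_mem ((hJ 1 s).2 ⟨1, by simp [hσ]⟩) d
  by_cases h3 : s ∈ J 3
  · obtain ⟨n, e⟩ := (hJ 3 s).1 h3
    have h4 : σ ^ (3 * n - 1) = 1 := by rw [zpow_sub_one, e, ← hσ, mul_inv_cancel]
    obtain ⟨a, b, hab⟩ : IsCoprime ((3 : ℤ) ^ k) (3 * n - 1) :=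
      IsCoprime.pow_left ⟨n, -1, by ring⟩
    have h5 : σ ^ 2 ^ k = 1 := by
      rw [← zpow_natCast, show ((2 ^ k : ℕ) : ℤ) = 6 ^ k * a + (3 * n - 1) * (2 ^ k * b) by
        push_cast
        rw [show (6 : ℤ) ^ k = 2 ^ k * 3 ^ k by rw [← mul_pow]; norm_num]
        linear_combination (-2 ^ k) * hab, zpow_add, zpow_mul, h0, zpow_mul, h4]
      simp
    obtain ⟨v, φ, a, b1, b2, ⟨c, rfl⟩, b4⟩ := B2.cheb U s k B hU hN
      ((QuotientGroup.eq_one_iff _).1 (by rw [QuotientGroup.mk_pow, ← hσ, h5]))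
    have h6 : σ ^ ((2 * c + 1 : ℕ) : ℤ) = φ := by
      rw [QuotientGroup.eq.2 b4, QuotientGroup.mk_pow, ← hσ, zpow_natCast]
    by_cases h7 : (3 : ℤ) ∣ ((2 * c + 1 : ℕ) : ℤ)
    · have h9 : σ ^ (((2 * c + 1 : ℕ) : ℤ) + (3 * n - 1) * 2) = φ := by
        rw [zpow_add, zpow_mul, h4, one_zpow, mul_one, h6]
      obtain ⟨a, ha⟩ := fin φ _ h9 (by omega) (by omega)
      exact ⟨v, φ, a, b1, b2, ha⟩
    · obtain ⟨a, ha⟩ := fin φ _ h6 (by omega) h7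
      exact ⟨v, φ, a, b1, b2, ha⟩
  have h4 : ∀ d, 0 < d → d < 3 → s ^ d ∉ J 3 := fun d d0 d3 e => by
    obtain rfl | rfl : d = 1 ∨ d = 2 := by omega
    · exact h3 (by rwa [pow_one] at e)
    · have h5 : s ^ 3 ∈ J 3 := (hJ 3 _).2 ⟨1, by
        rw [QuotientGroup.mk_pow, ← hσ, mul_one, ← zpow_natCast]; rfl⟩
      have h6 := mul_mem (inv_mem e) h5
      rw [pow_succ s 2, inv_mul_cancel_left] at h6
      exact h3 h6
  have h5 : ∀ (φ : Gam) (m n : ℤ), σ ^ n = φ → φ ∉ J m → ¬ m ∣ n := by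
    rintro φ m _ e h ⟨n, rfl⟩
    exact h ((hJ m φ).2 ⟨n, e⟩)
  by_cases h2 : s ∈ J 2
  · obtain ⟨v, φ, b1, b2, b3, -, b4⟩ := exists_frob_avoid (ho 1) (ho 3) (ho 3) (hle 3) (hle 3)
      (hn 3) (hn 3) (fun i => s ^ (i : ℕ)) (fun i => s ^ (i : ℕ)) (fun _ => hp _) (fun _ => hp _)
      (ch3_rep fun d d0 d2 => h4 d d0 (by omega)) (ch3_rep h4) B
    obtain ⟨n, e⟩ := (hJ 1 φ).1 b3
    rw [one_mul] at e
    have h6 := h5 φ 3 n e b4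
    by_cases h7 : 2 ∣ n
    · obtain ⟨c, e'⟩ := (hJ 2 s).1 h2
      have h8 : σ ^ (2 * c - 1) = 1 := by rw [zpow_sub_one, e', ← hσ, mul_inv_cancel]
      have h9 : σ ^ (n + (2 * c - 1) * 3) = φ := by
        rw [zpow_add, zpow_mul, h8, one_zpow, mul_one, e]
      obtain ⟨a, ha⟩ := fin φ _ h9 (by omega) (by omega)
      exact ⟨v, φ, a, b1, b2, ha⟩
    · obtain ⟨a, ha⟩ := fin φ n e h7 h6
      exact ⟨v, φ, a, b1, b2, ha⟩
  · obtain ⟨v, φ, b1, b2, b3, b4, b5⟩ := exists_frob_avoid (ho 1) (ho 2) (ho 3) (hle 2) (hle 3)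
      (hn 2) (hn 3) (fun i => s ^ (i : ℕ)) (fun i => s ^ (i : ℕ)) (fun _ => hp _) (fun _ => hp _)
      (ch3_rep fun d d0 d2 => by
        obtain rfl : d = 1 := by omega
        rwa [pow_one]) (ch3_rep h4) B
    obtain ⟨n, e⟩ := (hJ 1 φ).1 b3
    rw [one_mul] at e
    obtain ⟨a, ha⟩ := fin φ n e (h5 φ 2 n e b4) (h5 φ 3 n e b5)
    exact ⟨v, φ, a, b1, b2, ha⟩

end Pool.Agent.Lib.MP_696deb_nt.B6
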