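import Pool.Agent.Lib.MP_696deb_nt.B6.PTa
import Pool.Agent.Lib.MP_696deb_nt.B6.CH6
import Pool.Agent.Lib.MP_696deb_nt.B4.QS
import Pool.Agent.Lib.MP_696deb_nt.B2.TW2

/-! The prime of the tower and the unit lemma: the part that does not depend on the curve. -/

set_option autoImplicit false

open scoped NNReal
open Finset Matrix NumberTheorySymbols

namespace Pool.Agent.B6

open Pool.Agent.Lib.MP_696deb_nt Pool.Agent.Lib.MP_696deb_nt.B2 Pool.Agent.Lib.MP_696deb_nt.B6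

/-- A Frobenius element with prescribed symbols that acts as a generator of the powers of `s`. -/
theorem tw_frob {G : Type} [Monoid G] {r : Gam →* G} (hr : Sm ⊤ r) {s : Gam} (h6 : r s ^ 6 = 1)
    (hc : cyc s = -1) (X : Finset ℤ) (v : ℕ) (B : Finset ℕ) :
    ∃ (w : Plc) (φ : Gam) (a : ℕ), w.p ∉ B ∧ w.p ≠ 2 ∧ IsFrob w w.p φ ∧ a.Coprime 6 ∧
      r φ = r s ^ a ∧ 2 ^ v ∣ w.p + 1 ∧ ∀ x ∈ X, chi x φ = chi x s := by
  have cm : ∀ g h, cy v (g * h) = cy v g * cy v h := fun g h => by rw [cy, cyc_mul, map_mul]; rfl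
  have c1 : cy v 1 = 1 := by rw [cy, cyc_one, map_one]
  have cp : ∀ (g : Gam) (a : ℕ), cy v (g ^ a) = cy v g ^ a := fun g a => by
    induction a with
    | zero => rw [pow_zero, pow_zero, c1]
    | succ a ih => rw [pow_succ, pow_succ, cm, ih]
  have cs : cy v s = -1 := by rw [cy, hc, map_neg, map_one]
  let U : Subgroup Gam :=
    { carrier := {g | r g = 1 ∧ cy v g = 1 ∧ ∀ x ∈ X, chi x g = 1}
      one_mem' := ⟨map_one _, c1, fun _ _ => map_one _⟩
      mul_mem' := fun h h' => ⟨by rw [map_mul, h.1, h'.1, mul_one], by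
        rw [cm, h.2.1, h'.2.1, mul_one], fun x hx => by rw [map_mul, h.2.2 x hx, h'.2.2 x hx, mul_one]⟩
      inv_mem' := fun {g} h => ⟨by
        rw [← mul_one (r g⁻¹), ← h.1, ← map_mul, inv_mul_cancel, map_one, h.1], by
        rw [← mul_one (cy v g⁻¹), ← h.2.1, ← cm, inv_mul_cancel, c1, h.2.1], fun x hx => by
        rw [map_inv, h.2.2 x hx, inv_one]⟩ }
  have u1 : U.Normal := ⟨fun g h k => ⟨by
    rw [map_mul, map_mul, h.1, mul_one, ← map_mul, mul_inv_cancel, map_one], by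
    rw [cm, cm, h.2.1, mul_one, ← cm, mul_inv_cancel, c1], fun x hx => by
    rw [map_mul, map_mul, h.2.2 x hx, mul_one, ← map_mul, mul_inv_cancel, map_one]⟩⟩
  have u2 : Op U := by
    obtain ⟨W, w1, -, w3⟩ := (hr.comp₂ (sm_cy v) Prod.mk).comp₂
      (Sm.pi fun x : X => sm_chi (x : ℤ)) Prod.mk
    refine Subgroup.isOpen_mono (fun g hg => ?_) w1
    have k := w3 1 trivial g trivial (by simpa using hg)
    simp only [Prod.mk.injEq, map_one, c1] at k
    exact ⟨k.1.1.symm, k.1.2.symm, fun x hx => (congrFun k.2 ⟨x, hx⟩).symm⟩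
  obtain ⟨w, φ, a, k1, k2, k3, k4⟩ := cheb6 u2 u1 (s := s) (k := 1) ⟨by
    rw [map_pow, pow_one, h6], by rw [cp, cs]; norm_num, fun x _ => by
    rw [map_pow, show 6 ^ 1 = 2 * 3 by norm_num, pow_mul, Int.units_sq, one_pow]⟩ (insert 2 B)
  rw [mem_insert, not_or] at k1
  have k5 : Odd a := Nat.coprime_two_right.1 (k3.coprime_dvd_right (by norm_num))
  obtain ⟨u, hu, e⟩ : ∃ u ∈ U, s ^ a = φ * u := ⟨_, k4, (mul_inv_cancel_left _ _).symm⟩
  refine ⟨w, φ, a, k1.2, k1.1, k2, k3, by rw [← map_pow, e, map_mul, hu.1, mul_one],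
    (ZMod.natCast_eq_zero_iff _ _).1 ?_, fun x hx => ?_⟩
  · have := congrArg (cy v) e
    rw [cp, cs, k5.neg_one_pow, cm, hu.2.1, mul_one, cy, cyc_frob k1.1 k2, map_natCast] at this
    rw [Nat.cast_add, ← this, Nat.cast_one, neg_add_cancel]
  · have := congrArg (chi x) e
    rwa [map_mul, hu.2.2 x hx, mul_one, map_pow, Int.units_pow_eq_pow_mod_two, Nat.odd_iff.1 k5,
      pow_one, eq_comm] at this

theorem chi_ine_ne {w : Plc} {p : ℕ} (h2 : w.p ≠ 2) (hp : p.Prime) (h : p ≠ w.p) {σ : Gam}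
    (hσ : σ ∈ Ine w) : chi p σ = 1 :=
  chi_ine (mu0_ndvd h2 fun k => h ((Nat.prime_dvd_prime_iff_eq w.prime hp).1
    (Int.natCast_dvd_natCast.1 k)).symm) hσ

/-- A product of generators of inertia. -/
theorem tw_tau {G : Type} [Monoid G] (r : Gam →* G) (F : Finset ℕ)
    (hF : ∀ q ∈ F, q.Prime ∧ q ≠ 2 ∧ ∀ w : Plc, w.p = q → ∀ σ ∈ Ine w, r σ = 1) :
    ∃ τ, r τ = 1 ∧ cyc τ = 1 ∧ ∀ p : ℕ, p.Prime → chi p τ = if p ∈ F then -1 else 1 := by
  induction F using Finset.induction_on with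
  | empty => exact ⟨1, map_one _, cyc_one, fun p _ => by simp⟩
  | insert q F hq ih =>
    obtain ⟨τ, h1, h2, h3⟩ := ih fun p hp => hF p (mem_insert_of_mem hp)
    obtain ⟨q1, q2, q3⟩ := hF q (mem_insert_self _ _)
    obtain ⟨w, rfl⟩ := exists_plc q1
    obtain ⟨σ, hσ⟩ := exists_gen q2
    refine ⟨σ * τ, by rw [map_mul, q3 w rfl σ hσ.1, h1, mul_one],
      by rw [cyc_mul, cyc_ine q2 hσ.1, h2, mul_one], fun p hp => ?_⟩
    rw [map_mul, h3 p hp]
    by_cases e : p = w.p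
    · rw [e, hσ.2, if_neg hq, if_pos (mem_insert_self _ _), mul_one]
    · rw [chi_ine_ne q2 hp e hσ.1, one_mul]
      simp [e]

/-- Matrices of order two. -/
def Ord2 (A : B6.M2) : Prop := A * A = 1 ∧ A ≠ 1

instance (A : B6.M2) : Decidable (Ord2 A) := inferInstanceAs (Decidable (_ ∧ _))

theorem ord3_mul : ∀ {A : B6.M2}, Ord2 A → ∀ {B : B6.M2}, Ord2 B → A ≠ B → Ord3 (A * B) := by
  decide +kernel

/-- The vector `z` is moved by `A` as `x` and by `B` as `y`. -/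
def Mv (A B : B6.M2) (x y z : V2) : Prop := A *ᵥ z - z = A *ᵥ x - x ∧ B *ᵥ z - z = B *ᵥ y - y

instance (A B : B6.M2) (x y z : V2) : Decidable (Mv A B x y z) :=
  inferInstanceAs (Decidable (_ ∧ _))

theorem two_lines : ∀ {A : B6.M2}, Ord2 A → ∀ {B : B6.M2}, Ord2 B → A ≠ B → ∀ x y : V2,
    ∃ z, Mv A B x y z := by decide +kernel

theorem tw_rec {l r : ℕ} (hl : l % 4 = 3) (hr : Odd r) : J(-l | r) = J(r | l) := by
  rw [jacobiSym.neg _ hr]
  rcases Nat.odd_mod_four_iff.1 (Nat.odd_iff.1 hr) with h | h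
  · rw [ZMod.χ₄_nat_one_mod_four h, one_mul,
      jacobiSym.quadratic_reciprocity_one_mod_four h (Nat.odd_iff.2 (by omega))]
  · rw [ZMod.χ₄_nat_three_mod_four h, jacobiSym.quadratic_reciprocity_three_mod_four h hl]
    ring

/-- The prime of the tower. -/
theorem tw_prime {r : Gam →* B6.M2} (hr : Sm ⊤ r) {w₀ : Plc} {t : Gam} (ht : t ∈ Ine w₀)
    (h2 : w₀.p ≠ 2) (h3 : Ord3 (r (cc * t))) (F P : Finset ℕ)
    (hF : ∀ q ∈ F, q.Prime ∧ q ≠ 2 ∧ ∀ w : Plc, w.p = q → ∀ σ ∈ Ine w, r σ = 1)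
    (hP : ∀ p ∈ P, p.Prime ∧ p ≠ w₀.p) (v : ℕ) (B : Finset ℕ) :
    ∃ (w : Plc) (φ : Gam), w.p ∉ B ∧ w.p ∉ P ∧ IsFrob w w.p φ ∧ Ord3 (r φ) ∧ 2 ^ v ∣ w.p + 1 ∧
      w.p % 4 = 3 ∧ ∀ p ∈ P, J(p | w.p) = if p ∈ F then -1 else 1 := by
  obtain ⟨τ, t1, t2, t3⟩ := tw_tau r F hF
  have e : r (cc * t * τ) = r (cc * t) := by rw [map_mul, t1, mul_one]
  obtain ⟨w, φ, a, k1, k2, k3, k4, k5, k6, k7⟩ := tw_frob hr (s := cc * t * τ) (by
    rw [e, show 6 = 3 * 2 from rfl, pow_mul, pow_three', h3.cube, one_pow])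
    (by rw [cyc_mul, cyc_mul, cyc_cc, cyc_ine h2 ht, t2, mul_one, mul_one])
    (P.image (↑)) (v + 2) (B ∪ P)
  rw [mem_union, not_or] at k1
  refine ⟨w, φ, k1.1, k1.2, k3, ?_, (pow_dvd_pow 2 (by omega)).trans k6, ?_, fun p hp => ?_⟩
  · rw [k5, e]
    exact h3.pow (Nat.prime_three.coprime_iff_not_dvd.1 (k4.coprime_dvd_right (by norm_num)).symm)
  · have : 2 ^ 2 ∣ w.p + 1 := (pow_dvd_pow 2 (by omega)).trans k6
    omega
  obtain ⟨p1, p2⟩ := hP p hp
  rw [← chi_frob (mu0_ndvd k2 fun k => k1.2 (((Nat.prime_dvd_prime_iff_eq w.prime p1).1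
      (Int.natCast_dvd_natCast.1 k)) ▸ hp)) k3, k7 _ (mem_image_of_mem _ hp), map_mul, map_mul,
    chi_cc (by exact_mod_cast p1.ne_zero), if_pos (by exact_mod_cast p1.pos),
    chi_ine_ne h2 p1 p2 ht, t3 p p1]
  split_ifs <;> simp

/-- A prime that is three modulo four and has trivial symbols at the primes of `n` is inert. -/
theorem tw_inert {n l : ℕ} (hn : n ≠ 0) (l4 : l % 4 = 3)
    (h : ∀ p : ℕ, p.Prime → p ∣ n → J(p | l) = 1) : J(-n | l) = -1 := by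
  have h1 : J(n | l) = 1 := by
    induction n using Nat.recOnMul with
    | zero => exact absurd rfl hn
    | one => simp
    | prime p hp => exact h p hp dvd_rfl
    | mul a b ha hb =>
      rw [Nat.cast_mul, jacobiSym.mul_left,
        ha (left_ne_zero_of_mul hn) fun p hp k => h p hp (k.mul_right _),
        hb (right_ne_zero_of_mul hn) fun p hp k => h p hp (k.mul_left _), mul_one]
  rw [jacobiSym.neg _ (Nat.odd_iff.2 (by omega)), ZMod.χ₄_nat_three_mod_four l4, h1, mul_one]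

variable {n : ℕ}

/-- A character of the rational numbers that is unramified outside the discriminant and trivial
at the ramified primes of the quadratic field is trivial on the quadratic field. -/
theorem tw_genus (sq : Squarefree n) (m4 : n % 4 = 3) (cb : CondB n) {χ : Gam → ZMod 2}
    (h1 : Sm ⊤ χ) (h2 : IsHom ⊤ χ) (h3 : ∀ w : Plc, ¬ (w.p : ℤ) ∣ n → ∀ σ ∈ Ine w, χ σ = 0)
    (h4 : ∀ w : Plc, (w.p : ℤ) ∣ n → ∀ g ∈ GK n ⊓ Dec w, χ g = 0) : ∀ g ∈ GK n, χ g = 0 := by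
  obtain ⟨c, c1, c2, -, c4⟩ := quad_class (n := n) (Int.odd_iff.2 (by omega)) h1 h2 h3
  obtain ⟨c', e⟩ := dvd_neg.2 c1
  have sq' : Squarefree (c * c') := Int.squarefree_natAbs.1 (by simpa [← e] using sq)
  have c0 := left_ne_zero_of_mul sq'.ne_zero
  have c0' := right_ne_zero_of_mul sq'.ne_zero
  have c3 : c' % 4 = 1 := by
    have h1 : c * c' % 4 = 1 := by omega
    rwa [Int.mul_emod, c2, one_mul, Int.emod_emod_of_dvd _ dvd_rfl] at h1
  have same : ∀ g ∈ GK n, xi c' g = xi c g := fun g hg => by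
    have h := mem_GK.1 hg
    rw [e, xi_mul c0 c0'] at h
    exact b4b_eq h
  have key : ∀ x y : ℤ, x * y = -n → x % 4 = 1 → (∀ g ∈ GK n, xi x g = χ g) →
      ∀ p : ℕ, p.Prime → (p : ℤ) ∣ y → IsSquare (x : ZMod p) := fun x y e' x4 k p hp hy => by
    obtain ⟨w, rfl⟩ := exists_plc hp
    have : Fact w.p.Prime := ⟨hp⟩
    have hn : (w.p : ℤ) ∣ n := dvd_neg.1 (e' ▸ hy.mul_left x)
    obtain ⟨w2, s, s1, s2⟩ := exists_ine_notMem sq m4 hn
    have nx : ¬ (w.p : ℤ) ∣ x := fun k2 => (Nat.prime_iff_prime_int.1 hp).not_isUnit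
      ((Int.squarefree_natAbs.1 (by simpa [e'] using sq) : Squarefree (x * y)) _ (mul_dvd_mul k2 hy))
    refine ZMod.isSquare_of_jacobiSym_eq_one (jac_of_dec w2 nx fun g hg => ?_)
    by_cases k1 : g ∈ GK n
    · rw [k g k1, h4 w hn g ⟨k1, hg⟩]
    · have k2 := mul_mem_GK k1 s2
      have k3 := xi_hom x g s
      rw [xi_ine x4 nx s1, add_zero, k _ k2, h4 w hn _ ⟨k2, mul_mem hg (Ine_le w s1)⟩] at k3
      exact k3.symm
  intro g hg
  rcases (condA_iff_condB sq m4).2 cb c c' e.symm c2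
    (key c c' e.symm c2 fun g _ => (c4 g).symm)
    (key c' c (by rw [mul_comm, e]) c3 fun g hg => (same g hg).trans (c4 g).symm) with rfl | rfl
  · rw [c4, B2.xi_one]
  · rw [c4, ← same g hg, B2.xi_one]

/-- The parity of the exponent of the tower is the quadratic character of conductor `l`. -/
theorem tw_par (sq : Squarefree n) (m4 : n % 4 = 3) (cb : CondB n) {w : Plc} (p4 : w.p % 4 = 3)
    (hj : ∀ p : ℕ, p.Prime → p ∣ n → J(-w.p | p) = 1) {ξ : Gam → ZMod 2} (h1 : Sm (GK n) ξ)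
    (h2 : IsHom (GK n) ξ) (h3 : ∀ g ∉ GK n, ξ (g * g) = 0)
    (h4 : ∀ v : Plc, ¬ v.p ∣ w.p → ∀ σ ∈ GK n ⊓ Ine v, ξ σ = 0)
    (h5 : ∃ τ ∈ GK n ⊓ Ine w, ξ τ ≠ 0)
    (h6 : ∀ v : Plc, v.p ∣ n → ∀ g ∈ GK n ⊓ Dec v, ξ g = 0) :
    ∀ g ∈ GK n, ξ g = xi (-w.p) g := by
  have l0 : -(w.p : ℤ) ≠ 0 := by omega
  obtain ⟨e, e1, e2, e3, e4⟩ := B4.quad n w.p ξ m4 w.prime.ne_zero (Nat.odd_iff.2 (by omega))
    h1 h2 h3 h4
  obtain ⟨τ, hτ, hu⟩ := h5
  have dl : (w.p : ℤ) ∣ e := by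
    by_contra k
    exact hu ((e4 τ hτ.1).trans (xi_ine e3 k hτ.2))
  obtain ⟨e', rfl⟩ := neg_dvd.2 dl
  have e0 := right_ne_zero_of_mul e1.ne_zero
  have e5 : e' ∣ n := (mul_dvd_mul_iff_left l0).1 (e2.trans (by
    rw [mul_comm]
    exact mul_dvd_mul_right (dvd_neg.2 dvd_rfl) _))
  have e6 : e' % 4 = 1 := by
    rwa [Int.mul_emod, show -(w.p : ℤ) % 4 = 1 by omega, one_mul,
      Int.emod_emod_of_dvd _ dvd_rfl] at e3
  intro g hg
  rw [e4 g hg, xi_mul l0 e0, tw_genus sq m4 cb (sm_xi e') (fun g _ k _ => xi_hom _ g k)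
    (fun v hv σ hσ => xi_ine e6 (fun k => hv (k.trans e5)) hσ) (fun v hv k hk => ?_) g hg, add_zero]
  have hv' := Int.natCast_dvd_natCast.1 hv
  have k1 := e4 k hk.1
  rwa [h6 v hv' k hk, xi_mul l0 e0, B2.xi_dec (fun h => by rw [h] at hv'; omega)
    (hj _ v.prime hv') hk.2, zero_add, eq_comm] at k1

section

variable {M : Type} [AddCommGroup M] [DistribMulAction Gam M] {r : Gam →* B6.M2} {ι : V2 →+ M}

/-- The unit lemma: a Kummer cocycle that is unramified along two transvections is either trivial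
on the group `I` or maps `N` onto the points of order two. -/
theorem tw_unit (hι : ∀ g x, g • ι x = ι (r g *ᵥ x)) (h2 : ∀ P : M, 2 • P = 0 → ∃ x, ι x = P)
    {N I : Subgroup Gam} (hn : N.Normal) (hN : ∀ z ∈ N, r z = 1) {s t : Gam} (s2 : Ord2 (r s))
    (t2 : Ord2 (r t)) (st : r s ≠ r t)
    (big : ∀ σ ∈ I, ∃ g ∈ Subgroup.closure {s, t}, g⁻¹ * σ ∈ N) {R : M}
    (hR : ∀ z ∈ N, z • 2 • R = 2 • R) (hs : ∃ x, s • R - R = s • ι x - ι x)
    (ht : ∃ x, t • R - R = t • ι x - ι x) :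
    (∃ x, ∀ σ ∈ I, σ • (R - ι x) = R - ι x) ∨ ∀ x, ∃ z ∈ N, z • R - R = ι x := by
  obtain ⟨x, hx⟩ := hs
  obtain ⟨y, hy⟩ := ht
  obtain ⟨u, u1, u2⟩ := two_lines s2 t2 st x y
  have fs : s • (R - ι u) = R - ι u := by
    rw [smul_sub, hι, eq_add_of_sub_eq hx, hι, ← map_sub, ← u1, map_sub]
    abel
  have ft : t • (R - ι u) = R - ι u := by
    rw [smul_sub, hι, eq_add_of_sub_eq hy, hι, ← map_sub, ← u2, map_sub]
    abel
  have fN : ∀ z ∈ N, ∀ x, z • ι x = ι x := fun z hz x => by rw [hι, hN z hz, one_mulVec]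
  by_cases h0 : ∀ z ∈ N, z • R = R
  · refine .inl ⟨u, fun σ hσ => ?_⟩
    obtain ⟨g, g1, g2⟩ := big σ hσ
    have g3 : Subgroup.closure {s, t} ≤ MulAction.stabilizer Gam (R - ι u) :=
      (Subgroup.closure_le _).2 (Set.insert_subset fs (Set.singleton_subset_iff.2 ft))
    rw [← mul_inv_cancel_left g σ, mul_smul, smul_sub (g⁻¹ * σ), h0 _ g2, fN _ g2]
    exact g3 g1
  refine .inr fun x => ?_
  push Not at h0
  obtain ⟨z, hz, h0⟩ := h0
  obtain ⟨v, hv⟩ := h2 (z • R - R) (by rw [smul_sub, smul_comm, hR z hz, sub_self])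
  have v0 : v ≠ 0 := fun e => h0 (sub_eq_zero.1 (by rw [← hv, e, map_zero]))
  have f : (s * t) • (R - ι u) = R - ι u := by rw [mul_smul, ft, fs]
  have key : ∀ z ∈ N, ∀ v, ι v = z • R - R →
      (s * t * z * (s * t)⁻¹) • R - R = ι (r (s * t) *ᵥ v) := fun z hz v hv => by
    have e1 : z • (R - ι u) = R - ι u + ι v := by
      rw [smul_sub, fN z hz, hv]
      abel
    have e2 := fN _ (hn.conj_mem z hz (s * t)) u
    have e3 : (s * t * z * (s * t)⁻¹) • (R - ι u) = R - ι u + ι (r (s * t) *ᵥ v) := by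
      rw [mul_smul, inv_smul_eq_iff.2 f.symm, mul_smul, e1, smul_add, f, hι]
    rw [smul_sub, e2] at e3
    linear_combination (norm := abel1) e3
  have o3 : Ord3 (r (s * t)) := map_mul r s t ▸ ord3_mul s2 t2 st
  rcases o3.span v0 x with rfl | rfl | rfl | rfl
  · exact ⟨1, one_mem _, by rw [one_smul, sub_self, map_zero]⟩
  · exact ⟨z, hz, hv.symm⟩
  · exact ⟨_, hn.conj_mem z hz _, key z hz v hv⟩
  · exact ⟨_, hn.conj_mem _ (hn.conj_mem z hz _) _,
      key _ (hn.conj_mem z hz _) _ (key z hz v hv).symm⟩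

/-- The conjugate of a Kummer cocycle under complex conjugation. -/
theorem tw_cc (hι : ∀ g x, g • ι x = ι (r g *ᵥ x)) (h2 : ∀ P : M, 2 • P = 0 → ∃ x, ι x = P)
    {R : M} {z : Gam} (hz : r z = 1) (hy : z • 2 • R = 2 • R) (hy' : z • cc • 2 • R = cc • 2 • R)
    {m : ℕ} (hm : Odd m) {ε : ℤ} (hε : Odd ε) (ht : m • (cc • 2 • R - ε • 2 • R) = 0) {x : V2}
    (hx : z • R - R = ι x) : (cc * z * cc) • R - R = ι (r cc *ᵥ x) := by
  obtain ⟨T, hT⟩ : ∃ T, cc • R = T + ε • R := ⟨_, (sub_add_cancel _ _).symm⟩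
  have e0 : 2 • T = cc • 2 • R - ε • 2 • R := by
    rw [smul_comm cc, hT, smul_add, smul_comm ε, add_sub_cancel_right]
  obtain ⟨y, e1⟩ := h2 (m • T) (by rw [smul_comm, e0, ht])
  have e2 : m • (z • T - T) = 0 := by
    rw [smul_sub, smul_comm, ← e1, hι, hz, one_mulVec, sub_self]
  have e3 : 2 • (z • T - T) = 0 := by
    rw [smul_sub, smul_comm, e0, smul_sub, hy', smul_comm z ε, hy, sub_self]
  obtain ⟨m, rfl⟩ := hm
  rw [add_smul, mul_comm, mul_smul, e3, smul_zero, zero_add, one_smul, sub_eq_zero] at e2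
  obtain ⟨k, rfl⟩ := hε
  have e4 : (2 * k + 1) • ι x = ι x := by
    rw [add_smul, mul_comm, mul_smul, two_smul, ← map_add, v2_self, map_zero, smul_zero, zero_add,
      one_smul]
  rw [mul_smul, mul_smul, hT, smul_add z, e2, smul_comm z, eq_add_of_sub_eq hx,
    smul_add (2 * k + 1), e4, add_left_comm, ← hT, smul_add, ← mul_smul, cc_mul_cc, one_smul, hι,
    add_sub_cancel_right]

end

end Pool.Agent.B6
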