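import Pool.Agent.Lib.MP_696deb_nt.B6.D2
import Pool.Agent.Lib.MP_696deb_nt.B6.TWa
import Pool.Agent.Lib.MP_696deb_nt.B2.LB

/-! The primes of the horizontal tower and deep primes. -/

set_option autoImplicit false

open scoped NNReal
open Finset Matrix NumberTheorySymbols

namespace Pool.Agent.B6

open Pool.Agent.Lib.MP_696deb_nt Pool.Agent.Lib.MP_696deb_nt.B2 Pool.Agent.Lib.MP_696deb_nt.B6

/-- The hypotheses on two unipotent matrices. -/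
def Unip (A B : B6.M2) : Prop :=
  (A - 1) * (A - 1) = 0 ∧ (B - 1) * (B - 1) = 0 ∧ ((A - 1) * (B - 1)).trace ≠ 0

instance (A B : B6.M2) : Decidable (Unip A B) := inferInstanceAs (Decidable (_ ∧ _ ∧ _))

theorem Unip.ord2 : ∀ {A B : B6.M2}, Unip A B → Ord2 A ∧ Ord2 B ∧ A ≠ B := by decide +kernel

theorem ord2_swap : Ord2 !![0, 1; 1, 0] := by decide +kernel

theorem ord3_iff : ∀ A B : B6.M2, A * B = 1 → (Ord3 A ↔ A.trace = 1) := by decide +kernel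

theorem swap_ne : (![1, 0] : V2) + (!![0, 1; 1, 0] : B6.M2) *ᵥ ![1, 0] = ![1, 1] := by
  decide +kernel

variable [Md]

variable {n : ℕ} {f : ℤ} {w : Plc} {φ g : Gam} {N : Subgroup Gam}

theorem Nok.pos (hn : Nok n) : 0 < n := by
  have := hn.m8
  omega

theorem Nok.m4 (hn : Nok n) : n % 4 = 3 := hn.good.mod4

theorem Good.not_dvd (h : Good n) {p : ℕ} (hp : p.Prime) (k : p ∣ NN) : ¬ p ∣ n := fun e =>
  hp.ne_one (Nat.eq_one_of_dvd_coprimes h.cop e k)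

theorem dvd_two_NN {p : ℕ} (hp : p.Prime) : p ∣ 2 * NN ↔ p = 2 ∨ p ∣ NN := by
  rw [hp.dvd_mul, Nat.prime_dvd_prime_iff_eq hp Nat.prime_two]

omit [Md] in
theorem ne_two_of [Cs] (hw : ¬ w.p ∣ 2 * NN) : w.p ≠ 2 := fun k => hw (k ▸ dvd_mul_right 2 NN)

/-- The bad primes split. -/
theorem Nok.jac (hn : Nok n) {p : ℕ} (hp : p.Prime) (hw : p ∣ NN) : J(-n | p) = 1 := by
  obtain ⟨r, hr⟩ := hn.root
  have h1 : (p : ℤ) ∣ r ^ 2 + n := ((Int.natCast_dvd_natCast.2 hw).mul_left 4).trans hr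
  rw [tw_jac (y := r ^ 2) (by rw [← dvd_neg, neg_sub, sub_neg_eq_add]; exact h1), jacobiSym.sq_one']
  rw [← Int.isCoprime_iff_gcd_eq_one, isCoprime_comm,
    (Nat.prime_iff_prime_int.1 hp).irreducible.coprime_iff_not_dvd]
  exact fun k => hn.good.not_dvd hp hw
    (Int.natCast_dvd_natCast.1 ((dvd_add_right (k.pow two_ne_zero)).1 h1))

theorem Nok.split (hn : Nok n) (hw : w.p ∣ NN) : Dec w ≤ GK n :=
  dec_le_split (ne_two_of_dvd hw) (hn.jac w.prime hw)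

theorem Nok.ine_two (hn : Nok n) (hw : w.p = 2) : Ine w ≤ GK n := fun _ hg =>
  B4c_mem.2 (chi_ine_two hw (by have := hn.m8; omega) hg)

theorem Nok.out_two (hn : Nok n) (hw : w.p = 2) : fr w ∉ GK n :=
  lo3_inert hn.m8 hw (hw ▸ fr_spec w)

theorem Nok.IN_le (hn : Nok n) : IN ≤ GK n := iSup_le fun w => (Ine_le w.1).trans (hn.split w.2)

theorem ine_le_IN (hw : w.p ∣ NN) : Ine w ≤ IN :=
  le_iSup (fun w : {w : Plc // w.p ∣ NN} => Ine w.1) ⟨w, hw⟩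

theorem Fok.ne (hf : Fok n f) : f ≠ 0 := hf.sqf.ne_zero

theorem Fok.ne_two (hf : Fok n f) {r : ℕ} (h : (r : ℤ) ∣ f) : r ≠ 2 := by
  rintro rfl
  have := hf.m4
  omega

theorem Fok.nd30 (hf : Fok n f) {r : ℕ} (hr : r.Prime) (h : (r : ℤ) ∣ f) : ¬ r ∣ 2 * NN := fun k =>
  ((dvd_two_NN hr).1 k).elim (hf.ne_two h) (hf.spl r hr h).1

theorem Fok.not_dvd (hf : Fok n f) {r : ℕ} (hr : r.Prime) (h : (r : ℤ) ∣ f) : ¬ r ∣ n := fun k =>
  B4c_not_dvd (w := pl r hr) (a := -n) (by rw [pl_p]; exact hf.ne_two h)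
    (by rw [pl_p, (hf.spl r hr h).2]; exact one_ne_zero)
    (by rw [pl_p]; exact (dvd_neg.2 (Int.natCast_dvd_natCast.2 k)).mul_left 2)

theorem Fok.split (hf : Fok n f) (hw : (w.p : ℤ) ∣ f) : Dec w ≤ GK n :=
  dec_le_split (hf.ne_two hw) (hf.spl _ w.prime hw).2

theorem Fok.chi_ine (hf : Fok n f) (hw : ¬ (w.p : ℤ) ∣ f) (hg : g ∈ Ine w) : chi f g = 1 :=
  xi_eq_zero.1 (xi_ine hf.m4 hw hg)

/-- The character of the twist is trivial on the inertia groups above the bad primes. -/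
theorem Fok.chi_IN (hf : Fok n f) (hg : g ∈ IN) : chi f g = 1 :=
  (iSup_le fun w _ hσ => hf.chi_ine (fun k => (hf.spl _ w.1.prime k).1 w.2) hσ :
    IN ≤ (chi f).ker) hg

theorem Adm.ndM (h : Adm n w.p) : ¬ w.p ∣ MM := (h.2 _ w.prime dvd_rfl).1

theorem Adm.nd30 (h : Adm n w.p) : ¬ w.p ∣ 2 * NN := nd_of_MM h.ndM

theorem Adm.ne_two (h : Adm n w.p) : w.p ≠ 2 := ne_two_of h.nd30

theorem Adm.ndN (h : Adm n w.p) : ¬ w.p ∣ NN := fun k => h.nd30 (k.mul_left 2)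

theorem Adm.inert (h : Adm n w.p) : J(-n | w.p) = -1 := (h.2 _ w.prime dvd_rfl).2

theorem Adm.ndf (h : Adm n w.p) (hf : Fok n f) : ¬ (w.p : ℤ) ∣ f := fun k =>
  absurd (h.inert.symm.trans (hf.spl _ w.prime k).2) (by decide)

theorem Adm.nd (h : Adm n w.p) : ¬ (w.p : ℤ) ∣ 2 * -n :=
  B4c_not_dvd h.ne_two (by rw [h.inert]; decide)

theorem Adm.ine (h : Adm n w.p) : Ine w ≤ GK n := fun _ hg => B4c_mem.2 (B2.chi_ine h.nd hg)

theorem Adm.out (h : Adm n w.p) (hφ : IsFrob w w.p φ) : φ ∉ GK n := fun k => by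
  have := chi_frob h.nd hφ
  rw [B4c_mem.1 k, h.inert] at this
  exact absurd this (by decide)

theorem Adm.of_prime (h1 : ¬ w.p ∣ MM) (h2 : J(-n | w.p) = -1) : Adm n w.p :=
  ⟨w.prime.squarefree, fun l hl e => by
    obtain rfl := (Nat.prime_dvd_prime_iff_eq hl w.prime).1 e
    exact ⟨h1, h2⟩⟩

/-- A deep prime enlarges an admissible conductor. -/
theorem Adm.mul {c p : ℕ} (h : Adm n c) (hp : p.Prime) (h1 : ¬ p ∣ c) (h2 : ¬ p ∣ MM)
    (h3 : J(-n | p) = -1) : Adm n (c * p) :=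
  ⟨(Nat.squarefree_mul ((Nat.coprime_comm.1 (hp.coprime_iff_not_dvd.2 h1)))).2 ⟨h.1, hp.squarefree⟩,
    fun l hl k => (hl.dvd_mul.1 k).elim (h.2 l hl) fun k => by
      obtain rfl := (Nat.prime_dvd_prime_iff_eq hl hp).1 k
      exact ⟨h2, h3⟩⟩

theorem Adm.of_dvd {c c' : ℕ} (h : Adm n c') (k : c ∣ c') : Adm n c :=
  ⟨h.1.squarefree_of_dvd k, fun l hl k' => h.2 l hl (k'.trans k)⟩

theorem adm_one (n : ℕ) : Adm n 1 :=
  ⟨squarefree_one, fun _ hl k => absurd (Nat.dvd_one.1 k) hl.ne_one⟩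

/-- The representation on the points of order two, over `ZMod 2`. -/
noncomputable def Tate.r2 (T : Tate) : Gam →* B6.M2 := T.sig

/-- The points of order two. -/
noncomputable def Tate.i2 (T : Tate) : V2 →+ EE := T.emb 1

theorem Tate.smul_i2 (T : Tate) (g : Gam) (x : V2) : g • T.i2 x = T.i2 (T.r2 g *ᵥ x) := T.smul 1 g x

theorem Tate.surj_i2 (T : Tate) (P : EE) (h : 2 • P = 0) : ∃ x, T.i2 x = P := T.surj 1 P h

theorem Tate.sm_r2 (T : Tate) : Sm ⊤ T.r2 := T.sm 1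

theorem Tate.r2_of (T : Tate) {m : ℕ} (hm : 1 ≤ m) (h : mred m (T.ρ g) = 1) : T.r2 g = 1 :=
  (la_mred_le hm (h.trans (mred_one m).symm)).trans (mred_one 1)

theorem Tate.mred_cc (T : Tate) (m : ℕ) : mred m (T.ρ cc) = !![0, 1; 1, 0] := by
  rw [T.conj]
  ext i j
  fin_cases i <;> fin_cases j <;> simp [mred]

theorem Tate.r2_cc (T : Tate) : T.r2 cc = !![0, 1; 1, 0] := T.mred_cc 1

theorem Tate.o3_iff (T : Tate) : T.O3 g ↔ Ord3 (T.r2 g) :=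
  (ord3_iff (T.r2 g) (T.r2 g⁻¹) (by rw [← map_mul, mul_inv_cancel, map_one])).symm

/-- The inertia groups above the bad primes are unipotent. -/
theorem Tate.unip (T : Tate) (hw : w.p ∣ NN) (hg : g ∈ Ine w) : (T.ρ g - 1) * (T.ρ g - 1) = 0 := by
  obtain ⟨B, -, -, hB, h, -⟩ := T.mult w hw
  obtain ⟨c, e, -⟩ := h g hg
  have e1 : (T.ρ g - 1) * B = B * !![0, c; 0, 0] := by
    rw [sub_mul, e, one_mul, sub_eq_iff_eq_add, ← mul_add_one]
    refine congrArg _ ?_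
    ext i j
    fin_cases i <;> fin_cases j <;> simp
  have e2 : (T.ρ g - 1) * (T.ρ g - 1) * B = 0 := by
    rw [mul_assoc, e1, ← mul_assoc, e1, mul_assoc]
    convert mul_zero B
    ext i j
    fin_cases i <;> fin_cases j <;> simp
  have := congrArg (· * B.adjugate) e2
  simpa only [mul_assoc, mul_adjugate, hB, one_smul, mul_one, zero_mul] using this

/-- Two transvections that generate the special linear group at every level. -/
structure Tate.Tv (T : Tate) (w v : Plc) (s t : Gam) : Prop where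
  wN : w.p ∣ NN
  vN : v.p ∣ NN
  hs : Gen w s
  ht : Gen v t
  tr : IsUnit ((T.ρ s - 1) * (T.ρ t - 1)).trace
  big : ∀ A : Matrix (Fin 2) (Fin 2) ℤ_[2], A.det = 1 → ∀ k,
    ∃ u ∈ Subgroup.closure {s, t}, mred k (T.ρ u) = mred k A

theorem Tate.exists_tv (T : Tate) : ∃ w v s t, T.Tv w v s t := by
  obtain ⟨p, hp, h⟩ := Nat.exists_prime_and_dvd NN_gt.ne'
  obtain ⟨w, rfl⟩ := exists_plc hp
  obtain ⟨s, hs⟩ := exists_gen (ne_two_of_dvd h)
  obtain ⟨g, h1, h2⟩ := T.big w h s hs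
  exact ⟨w, g • w, s, _, h, h, hs, hs.smul g, h1, h2⟩

theorem Tate.Tv.ord2 {T : Tate} {v : Plc} {s t : Gam} (h : T.Tv w v s t) :
    Ord2 (T.r2 s) ∧ Ord2 (T.r2 t) ∧ T.r2 s ≠ T.r2 t := by
  have k : ∀ x y : Gam, (T.r2 x - 1) * (T.r2 y - 1) = mred 1 ((T.ρ x - 1) * (T.ρ y - 1)) :=
    fun x y => ((RingHom.mapMatrix (PadicInt.toZModPow (p := 2) 1)).map_mul _ _).trans
      (by rw [map_sub, map_sub, map_one]; rfl) |>.symm
  have k0 : mred 1 0 = 0 := (RingHom.mapMatrix (PadicInt.toZModPow (p := 2) 1)).map_zero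
  refine Unip.ord2 ⟨by rw [k, T.unip h.wN h.hs.1]; exact k0,
    by rw [k, T.unip h.vN h.ht.1]; exact k0, ?_⟩
  have : Fact (1 < 2 ^ 1) := ⟨by norm_num⟩
  rw [k]
  exact (mred_trace 1 _).trans_ne (h.tr.map (PadicInt.toZModPow (p := 2) 1)).ne_zero

theorem Tate.Tv.le_IN {T : Tate} {v : Plc} {s t : Gam} (h : T.Tv w v s t) :
    Subgroup.closure {s, t} ≤ IN := (Subgroup.closure_le _).2 fun _ e =>
  e.elim (fun e => e ▸ ine_le_IN h.wN h.hs.1) fun e => e ▸ ine_le_IN h.vN h.ht.1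

theorem HS.ex_hom (S : HS n) {l : ℕ} (h : Adm n l) (s : ℕ) : IsHom (GK n) (S.ex l s) :=
  fun g hg k hk => by rw [HS.ex, S.mul l h g hg k hk, map_mul, toAdd_mul]; rfl

theorem HS.ex_sm (S : HS n) {l : ℕ} (h : Adm n l) (s : ℕ) : Sm (GK n) (S.ex l s) :=
  (S.sm l h).comp fun x => (S.ν l s x).toAdd

theorem HS.ex_of (S : HS n) {l : ℕ} (s : ℕ) {g : Gam} (h : S.ψ l g = 1) : S.ex l s g = 0 := by
  rw [HS.ex, h, map_one, toAdd_one]

theorem HS.ex_sq (S : HS n) {l : ℕ} (h : Adm n l) (s : ℕ) {g : Gam} (hg : g ∉ GK n) :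
    S.ex l s (g * g) = 0 := S.ex_of s (S.dih l h g hg)

theorem HS.ex_ine (S : HS n) {l : ℕ} (h : Adm n l) (s : ℕ) {w : Plc} (hw : ¬ w.p ∣ l) {σ : Gam}
    (hσ : σ ∈ GK n ⊓ Ine w) : S.ex l s σ = 0 := S.ex_of s (S.unr l w h hw σ hσ)

/-- Conjugation by an element outside of the group of the quadratic field acts by inversion. -/
theorem HS.ex_conj (S : HS n) {l : ℕ} (h : Adm n l) (s : ℕ) {τ g : Gam} (hτ : τ ∉ GK n)
    (hg : g ∈ GK n) : S.ex l s (τ * g * τ⁻¹) = -S.ex l s g := by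
  have h1 : τ * g ∉ GK n := fun k => hτ (by simpa using mul_mem k (inv_mem hg))
  have h2 := (normal_GK n).conj_mem g hg τ
  have h4 := S.ex_sq h s h1
  have h5 := mul_mem_GK hτ hτ
  rw [show τ * g * (τ * g) = τ * g * τ⁻¹ * (τ * τ * g) by group, S.ex_hom h s _ h2 _ (mul_mem h5 hg),
    S.ex_hom h s _ h5 _ hg, S.ex_sq h s hτ, zero_add] at h4
  exact eq_neg_of_add_eq_zero_left h4

theorem HS.ex_cc (S : HS n) {l : ℕ} (h : Adm n l) (hn : 0 < n) (s : ℕ) {g : Gam}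
    (hg : g ∈ GK n) : S.ex l s (cc * g * cc) = -S.ex l s g := by
  simpa only [cc_inv] using S.ex_conj h s (cc_notMem hn) hg

theorem exists_tower (T : Tate) (hn : Nok n) (hf : Fok n f) (S : HS n) {s : ℕ} (hs : 0 < s)
    (B : ℕ) : ∃ (w : Plc) (φ z : Gam), B < w.p ∧ TwP S f s w φ z := by
  obtain ⟨w₀, t, t0, t1, t2⟩ : ∃ (w₀ : Plc) (t : Gam), w₀.p ∣ NN ∧ t ∈ Ine w₀ ∧
      Ord3 (T.r2 (cc * t)) := by
    obtain ⟨w, v, s, t, h⟩ := T.exists_tv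
    obtain ⟨h1, h2, h3⟩ := h.ord2
    by_cases e : T.r2 cc = T.r2 s
    · exact ⟨v, t, h.vN, h.ht.1, by rw [map_mul, e]; exact ord3_mul h1 h2 h3⟩
    · exact ⟨w, s, h.wN, h.hs.1, map_mul T.r2 cc s ▸ ord3_mul (T.r2_cc ▸ ord2_swap) h1 e⟩
  have n0 := hn.pos
  have mF : ∀ q : ℕ, q ∈ f.natAbs.primeFactors ↔ q.Prime ∧ (q : ℤ) ∣ f := fun q => by
    simp only [Nat.mem_primeFactors, Int.natCast_dvd, ne_eq, Int.natAbs_eq_zero, hf.ne,
      not_false_eq_true, and_true]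
  have mn : ∀ q : ℕ, q.Prime → q ∣ n → q ∈ n.primeFactors ∪ f.natAbs.primeFactors := fun q h k =>
    mem_union_left _ (Nat.mem_primeFactors.2 ⟨h, k, n0.ne'⟩)
  obtain ⟨w, φ, k1, -, hφ, k3, l2, p4, k4⟩ := tw_prime T.sm_r2 t1 (ne_two_of_dvd t0) t2
    f.natAbs.primeFactors (n.primeFactors ∪ f.natAbs.primeFactors) (fun q hq =>
      have e := (mF q).1 hq
      ⟨e.1, hf.ne_two e.2, fun v hv σ hσ => T.r2_of le_rfl (by
        rw [T.unr v (hv ▸ hf.nd30 e.1 e.2) σ hσ, mred_one])⟩)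
    (fun p hp => by
      rcases mem_union.1 hp with e | e
      · exact ⟨Nat.prime_of_mem_primeFactors e, fun k =>
          hn.good.not_dvd w₀.prime t0 (k ▸ Nat.dvd_of_mem_primeFactors e)⟩
      · exact ⟨((mF p).1 e).1, fun k => (hf.spl p ((mF p).1 e).1 ((mF p).1 e).2).1 (k ▸ t0)⟩)
    (s + 1) (range (B + MM + 1))
  rw [mem_range, not_lt] at k1
  have w2 : w.p ≠ 2 := by omega
  have ndM : ¬ w.p ∣ MM := fun k => by
    have := Nat.le_of_dvd (Nat.pos_of_ne_zero MM_ne) k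
    have := w.prime.two_le
    omega
  have j1 : ∀ p : ℕ, p.Prime → p ∣ n → J(p | w.p) = 1 := fun p hp k => by
    rw [k4 p (mn p hp k), if_neg fun e => hf.not_dvd hp ((mF p).1 e).2 k]
  have adm : Adm n w.p := .of_prime ndM (tw_inert n0.ne' p4 j1)
  have jn : ∀ p : ℕ, p.Prime → p ∣ n → J(-w.p | p) = 1 := fun p hp k => by
    rw [tw_rec p4 (hp.odd_of_ne_two ?_), j1 p hp k]
    rintro rfl
    have := hn.m4
    omega
  have hI := adm.ine
  have s2 : 2 ∣ 2 ^ s := dvd_pow_self 2 hs.ne'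
  obtain ⟨τ, hτ⟩ := exists_gen w2
  have hu : IsUnit (S.ex w.p s τ) := S.ν_gen w s τ adm l2 hτ
  have par := tw_par hn.good.sqf hn.m4 hn.condB p4 jn
    (ξ := fun g => ZMod.castHom s2 (ZMod 2) (S.ex w.p s g)) ((S.ex_sm adm s).comp _)
    (fun g hg k hk => by simp only [S.ex_hom adm s g hg k hk, map_add])
    (fun g hg => by simp only [S.ex_sq adm s hg, map_zero])
    (fun v hv σ hσ => by simp only [S.ex_ine adm s hv hσ, map_zero])
    ⟨τ, ⟨hI hτ.1, hτ.1⟩, (hu.map (ZMod.castHom s2 (ZMod 2))).ne_zero⟩ fun v hv k hk => by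
      simp only [HS.ex, S.ν_ram w.p s v w.prime adm l2 hv k hk, toAdd_one, map_zero]
  obtain ⟨u, hu⟩ := hu
  have ez : S.ex w.p s (τ ^ (u⁻¹ : (ZMod (2 ^ s))ˣ).val.val) = 1 := by
    rw [tw_hom_pow (S.ex_hom adm s) (hI hτ.1), nsmul_eq_mul, ZMod.natCast_zmod_val, ← hu,
      Units.inv_mul]
  refine ⟨w, φ, _, by omega, adm, adm.nd30, fun k => adm.nd ((dvd_neg.2 k).mul_left 2), l2,
    (T.par w φ adm.nd30 hφ).1 (T.o3_iff.2 k3), hφ, adm.out hφ, hI, ⟨pow_mem hτ.1 _, ?_⟩, ez,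
    fun v hv g hg => ?_⟩
  · have k1 := par _ (hI (pow_mem hτ.1 (u⁻¹ : (ZMod (2 ^ s))ˣ).val.val))
    simp only [ez, map_one] at k1
    rw [← neg_one_mul, B2.xi_mul (by decide) (by exact_mod_cast w.prime.ne_zero),
      xi_eq_zero.2 (B2.chi_ine (mu0_ndvd w2 fun k => w.prime.ne_one (by
        simpa using Int.natCast_dvd.1 k)) (pow_mem hτ.1 _)), zero_add] at k1
    exact xi_eq_one.1 k1.symm
  · have h1 : J(-w.p | v.p) = -1 := by
      rw [tw_rec p4 (v.prime.odd_of_ne_two (hf.ne_two hv)),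
        k4 _ (mem_union_right _ ((mF _).2 ⟨v.prime, hv⟩)), if_pos ((mF _).2 ⟨v.prime, hv⟩)]
    have h2 := chi_frob (B4c_not_dvd (hf.ne_two hv) (by rw [h1]; decide)) hg
    have h3 := par g (hf.split hv hg.1)
    rw [xi_eq_one.2 (Units.ext (h2.trans h1))] at h3
    rw [← ZMod.natCast_eq_one_iff_odd, ← h3]
    simp only [ZMod.castHom_apply, ZMod.natCast_val]

theorem deep_rho (T : Tate) {m : ℕ} (h : mred m (T.ρ (cc * φ)) = 1) :
    mred m (T.ρ φ) = !![0, 1; 1, 0] := by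
  rw [← T.mred_cc, ← mul_one (mred m (T.ρ cc)), ← h, ← mred_mul, ← map_mul, ← mul_assoc, cc_mul_cc,
    one_mul]

theorem deep_dvd (T : Tate) {m : ℕ} (hw : ¬ w.p ∣ MM) (hφ : IsFrob w w.p φ)
    (h : mred m (T.ρ (cc * φ)) = 1) : 2 ^ m ∣ w.p + 1 ∧ (2 : ℤ) ^ m ∣ al w.p := by
  have h1 := congrArg Matrix.det (deep_rho T h)
  have h2 := congrArg Matrix.trace (deep_rho T h)
  rw [mred_det, T.det, cyc_frob (ne_two_of (nd_of_MM hw)) hφ, map_natCast] at h1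
  rw [mred_trace, T.tr w φ hw hφ, map_intCast] at h2
  refine ⟨(ZMod.natCast_eq_zero_iff _ _).1 ?_, ?_⟩
  · push_cast
    rw [h1]
    simp
  · have := (ZMod.intCast_zmod_eq_zero_iff_dvd _ _).1 (h2.trans (by simp))
    exact_mod_cast this

/-- The data of a deep prime. -/
structure TwD (n m : ℕ) (N : Subgroup Gam) (w : Plc) (φ s : Gam) : Prop where
  nd30 : ¬ w.p ∣ MM
  nd : ¬ (w.p : ℤ) ∣ n
  inert : J(-n | w.p) = -1
  frob : IsFrob w w.p φ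
  mem : cc * φ ∈ N
  out : φ ∉ GK n
  sq : φ * φ ∈ N
  ine : Ine w ≤ N
  gen : Gen w s
  dvd : 2 ^ m ∣ w.p + 1
  dvd_a : (2 : ℤ) ^ m ∣ al w.p

theorem exists_TwD (ch : ChebStmt) (T : Tate) (h0 : 0 < n) (hN : Op N) (hn : N.Normal)
    (hK : N ≤ GK n) {m : ℕ} (hρ : ∀ g ∈ N, mred m (T.ρ g) = 1) {A : Type} [AddCommGroup A]
    {k : ℕ} (hA : ∀ y : A, 2 ^ k • y = 0) {Z : Set (Gam → A)} (hZ : Z.Finite)
    (h : ∀ c ∈ Z, Sm N c ∧ IsHom N c) {σ : Gam} (hσ : σ ∈ N) (B : ℕ) :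
    ∃ (w : Plc) (φ s : Gam) (a : ℕ), B < w.p ∧ TwD n m N w φ s ∧ Odd a ∧
      ∀ c ∈ Z, c (φ * φ) = a • (c σ + c (cc * σ * cc)) := by
  obtain ⟨w, φ, a, k1, k2, k3, k4, k5, k6⟩ :=
    exists_deep' ch hN hn hA hZ h hσ (range (B + 2 * n + MM + 3))
  rw [mem_range, not_lt] at k1
  have nd30 : ¬ w.p ∣ MM := fun k => by
    have := Nat.le_of_dvd (Nat.pos_of_ne_zero MM_ne) k
    omega
  have nd : ¬ (w.p : ℤ) ∣ 2 * n := fun k => by
    have := Int.le_of_dvd (by omega) k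
    omega
  obtain ⟨s, hs⟩ := exists_gen (w := w) (by omega)
  have out := deep_out h0 hK k4
  obtain ⟨d1, d2⟩ := deep_dvd T nd30 k2 (hρ _ k4)
  exact ⟨w, φ, s, a, by omega, ⟨nd30, fun k => nd (k.mul_left 2), inert_of_frob k2 out nd, k2, k4,
    out, deep_sq hn k4, k5, hs, d1, d2⟩, k3, k6⟩

end Pool.Agent.B6
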