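import Pool.Agent.Lib.MP_696deb_nt.B6.KDd
import Pool.Agent.Lib.MP_696deb_nt.B6.TWb
import Pool.Agent.Lib.MP_696deb_nt.B6.LO3

/-! The classes of Kolyvagin of a twisted Euler system. -/

set_option autoImplicit false

open scoped NNReal Classical
open Finset Matrix NumberTheorySymbols PowerSeries

namespace Pool.Agent.B6

open Pool.Agent.Lib.MP_696deb_nt Pool.Agent.Lib.MP_696deb_nt.B2

variable [Md]

variable {n k c : ℕ} {S : HS n} {T : Tate} {lam w : Plc} {f e : ℤ} {g : Gam} {P : EE}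
  {Q : Finset Plc}

/-- There is no unramified torsion point whose order is a power of two. -/
theorem Tate.fix_EN (T : Tate) {m : ℕ} (h : 2 ^ m • P = 0) (hP : P ∈ EN) : P = 0 := by
  obtain ⟨x, rfl⟩ := T.surj m P h
  obtain ⟨w, v, s, t, H⟩ := T.exists_tv
  have key : ∀ A : Matrix (Fin 2) (Fin 2) ℤ_[2], A.det = 1 → mred m A *ᵥ x = x := fun A hA => by
    obtain ⟨u, u1, u2⟩ := H.big A hA m
    exact T.inj m (by rw [← u2, ← T.smul, hP u (H.le_IN u1)])
  have h1 := congrFun (key !![1, 1; 0, 1] (by simp)) 0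
  have h2 := congrFun (key !![1, 0; 1, 1] (by simp)) 1
  simp [mred, mulVec, dotProduct, Fin.sum_univ_two] at h1 h2
  rw [show x = 0 from funext fun i => by fin_cases i <;> assumption, map_zero]

theorem kc_IN (hn : Nok n) (h : Adm n c) (hg : g ∈ IN) : S.ψ c g = 1 := by
  have h1 : IsHom (GK n) fun g => Additive.ofMul (S.ψ c g) := fun g hg u hu =>
    congrArg Additive.ofMul (S.mul c h g hg u hu)
  have h2 : IN ≤ kerOn (GK n) _ h1 := iSup_le fun w σ hσ =>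
    have h3 := hn.split w.2 (Ine_le _ hσ)
    ⟨h3, S.unr c w h (fun e => nd_of_MM (h.2 _ w.1.prime e).1 (w.2.mul_left 2)) σ ⟨h3, hσ⟩⟩
  exact (h2 hg).2

theorem kc_chi (hn : Nok n) (hf : Fok n f) (hw : w.p = 2) (hg : g ∈ GK n ⊓ Dec w) :
    chi f g = 1 := by
  obtain ⟨U, u1, -, u3⟩ := (sm_chi f : Sm (GK n) _)
  obtain ⟨m, σ, hσ, e, -⟩ := dec_gen_inert (fr_spec w) (hn.out_two hw) (hn.ine_two hw) hg u1
  rw [← u3 _ (mul_mem (pow_mem (mul_mem_GK (hn.out_two hw) (hn.out_two hw)) m) (hn.ine_two hw hσ))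
    g hg.1 e, map_mul, map_pow, map_mul, Int.units_mul_self, one_pow, chi_ine_two hw hf.m4 hσ,
    mul_one]

/-- The data for the construction of Kolyvagin. -/
noncomputable def ES.ks (Y : ES S f) (T : Tate) (hn : Nok n) (hf : Fok n f) : KS n f where
  Ad := Adm n
  al := al
  C := S.C
  pr := S.pr
  ψ := S.ψ
  y := Y.y
  ν := S.ν
  ρ := T.ρ
  emb := T.emb
  inj := T.inj
  onto := T.surj
  smul := T.smul
  of_dvd := Adm.of_dvd
  ad_mul h h' k := h.mul (Plc.prime _) k h'.ndM h'.inert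
  out h := h.out (fr_spec _)
  ine := Adm.ine
  odd := Adm.ne_two
  good h k := h.ndN ((dvd_Δ (Plc.prime _)).1 k)
  unf h _ := hf.chi_ine (h.ndf hf)
  sm := S.sm
  mul := S.mul
  surj := S.surj
  pr_ψ := S.pr_ψ
  dih := S.dih
  unr := S.unr
  gal := Y.gal
  trace := Y.trace
  kron c w h := Y.kron c w _ h (fr_spec w)
  ν_gen w s h e := S.ν_gen w s _ h e (gn_spec h.ne_two)
  ν_fib := S.ν_fib
  es w P h := T.es w _ P h.ndM (fr_spec w)
  fix _ h _ P e k := T.fix_EN e fun g hg =>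
    (KS.tw_of (hf.chi_IN hg) P).symm.trans (k g (hn.IN_le hg) (kc_IN hn h hg))

/-- The character of the branch `e` with values in the ring of level `k`. -/
noncomputable def HS.PsA (S : HS n) (k : ℕ) (lam : Plc) (e : ℤ) : S.C lam.p →* Ak k where
  toFun x := Ideal.Quotient.mk _ (S.Psi k lam e x)
  map_one' := by simp [HS.Psi]
  map_mul' x y := by
    rw [← map_mul, Ideal.Quotient.eq]
    convert Ideal.mul_mem_left _ ((S.gen e (S.pr 1 lam.p (x * y)) : ℤ) : Lam) (xtw_mod k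
      ((S.ν lam.p (2 * k + 3) x).toAdd.val + (S.ν lam.p (2 * k + 3) y).toAdd.val)) using 1
    simp only [HS.Psi, map_mul, toAdd_mul, ZMod.val_add, Units.val_mul, Int.cast_mul, pow_add]
    ring

theorem HS.evk_PsA (x : S.C lam.p) : evk k (S.PsA k lam e x) = (S.gen e (S.pr 1 lam.p x) : ℤ) := by
  change evk k (Ideal.Quotient.mk _ _) = _
  rw [evk, B2.ev, Ideal.Quotient.lift_mk]
  simp [HS.Psi]

theorem kc_act (g : Gam) (x : Fin 2 → Ak k) : act T (S.psf k lam f e) (Ak k) g x =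
    (chi f g : ℤ) • (mred k (T.ρ g)).map (kdI k) *ᵥ S.PsA k lam e (S.ψ lam.p g) • x := by
  funext i
  rw [act_apply, mact_apply, mulVec_smul, Pi.smul_apply, Pi.smul_apply, mulVec, dotProduct]
  simp only [rep, HS.psf, HS.psi, mred, Matrix.smul_apply, map_apply, Fin.sum_univ_two, kdI_C,
    Algebra.smul_def, Ideal.Quotient.algebraMap_eq, map_mul, Algebra.algebraMap_self,
    RingHom.id_apply, eq_intCast, map_intCast, HS.PsA, MonoidHom.coe_mk, OneHom.coe_mk]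
  ring

theorem kc_tr {l : ℕ} {y : ∀ c, S.C c → EE}
    (hy : ∀ a, ∑ a' with S.pr 1 (1 * l) a' = a, y (1 * l) a' = al l • y 1 a) (ε : S.C 1 → ℤ) :
    ∑ x, ε (S.pr 1 l x) • y l x = al l • ∑ a, ε a • y 1 a := by
  rw [one_mul] at hy
  rw [← sum_fiberwise_of_maps_to (t := univ) (g := S.pr 1 l) (fun _ _ => mem_univ _), smul_sum]
  refine sum_congr rfl fun b _ => ?_
  rw [smul_comm, ← hy b, smul_sum]
  exact sum_congr rfl fun a ha => by rw [(mem_filter.1 ha).2]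

theorem kc_fix (hg : g ∈ S.N T k lam f) {m : ℕ} (hm : m ≤ k + 2) (P : EE) (hP : 2 ^ m • P = 0) :
    g • P = P := by
  obtain ⟨x, rfl⟩ := T.surj m P hP
  rw [T.smul, la_mred_le hm (hg.2.1.trans (la_mred_one _).symm), la_mred_one, one_mulVec]

theorem kc_euler (hf : Fok n f) {φ₀ z : Gam} (h : TwP S f (2 * k + 3) lam φ₀ z) {φ : ℕ → Gam}
    (hφ : ∀ r ∈ f.natAbs.primeFactors, ∃ w : Plc, w.p = r ∧ IsFrob w r (φ r)) :
    Pw k (2 * m0 f) (chL (S.PsA k lam e) (S.Eul f lam.p φ)) := by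
  rw [HS.Eul, map_prod, m0, card_filter, mul_sum]
  refine Pw.prod _ fun r hr => ?_
  obtain ⟨w, rfl, hw⟩ := hφ r hr
  have h1 : (w.p : ℤ) ∣ f := Int.natCast_dvd.2 (Nat.dvd_of_mem_primeFactors hr)
  have := pw_euler (k := k) (al w.p) (h.gf w h1 _ hw) (a := S.PsA k lam e (S.ψ _ (φ w.p)))
    (b := S.PsA k lam e (S.ψ _ (φ w.p))⁻¹) (w := S.Psi k lam e (S.ψ _ (φ w.p))⁻¹)
    (((Units.isUnit _).map (Int.castRingHom Lam)).mul
      ((isUnit_iff_constantCoeff.2 (by simp)).pow _)) rfl rfl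
    (by rw [← map_mul, mul_inv_cancel, map_one])
  simpa only [map_sub, chL_single, inv_one, map_one, mul_one, Int.cast_one, one_mul, inv_inv,
    even_al w.prime (hf.nd30 w.prime h1), mul_ite, mul_zero] using this

theorem kc_unit (hl : Adm n lam.p) (ho : ¬ Rt lam.p) (hg : g ∈ S.N T k lam f) (hk : 1 ≤ k)
    (hu : T.Un (S.ychi 1) g) {R : S.C lam.p → EE} (hR : ∀ x, 2 ^ k • R x = S.y lam.p x)
    {y : Fin 2 → ZMod (2 ^ k)} (hy : T.emb k y =
      ∑ x, (S.gen e (S.pr 1 lam.p x) : ℤ) • (g • R x - R x)) (z : ZMod (2 ^ k)) : y 1 ≠ 2 * z := by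
  intro h
  obtain ⟨k, rfl⟩ := Nat.exists_eq_add_of_le hk
  have h1 : ∀ a, S.gen 1 a = 1 := fun a => by
    obtain ⟨g, hg, rfl⟩ := S.surj 1 (adm_one n) a
    simpa using (S.gen_ψ 1 (one_dvd _) rfl g hg).trans (chi_sq 1 g)
  have h2 := kc_tr (S.trace 1 _ lam.prime (by rwa [one_mul])) fun _ => 1
  obtain ⟨m, hm⟩ := Int.not_even_iff_odd.1 (mt (even_al lam.prime hl.nd30).1 ho)
  have h3 : ∀ x, g • S.y lam.p x = S.y lam.p x := fun x => by
    rw [S.gal _ hl g hg.1, hg.2.2.1 hl, one_mul]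
  have h4 : g • S.ychi 1 = S.ychi 1 := by
    simp only [HS.ychi, smul_sum, smul_comm g, S.gal _ (adm_one n) g hg.1,
      ← S.pr_ψ 1 _ hl (one_dvd _) g hg.1, hg.2.2.1 hl, map_one, one_mul]
  refine hu (2 ^ k • ∑ x, R x - m • S.ychi 1) _ ?_ ((T.two 1 k y).symm.trans ?_) ?_
  · simp only [one_smul] at h2
    rw [smul_sub, ← mul_smul, ← pow_succ', add_comm k, smul_sum, sum_congr rfl fun x _ => hR x, h2,
      hm, HS.ychi]
    simp only [h1, Units.val_one, one_smul]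
    module
  · rw [hy, smul_sub g, smul_comm g m, h4, sub_sub_sub_cancel_right, smul_comm g, ← smul_sub,
      smul_sum (r := g), ← sum_sub_distrib, smul_sum, smul_sum]
    refine sum_congr rfl fun x _ => ?_
    have h5 : 2 • 2 ^ k • (g • R x - R x) = 0 := by
      rw [← mul_smul, ← pow_succ', add_comm k, smul_sub, smul_comm, hR, h3, sub_self]
    rcases Int.units_eq_one_or (S.gen e (S.pr 1 lam.p x)) with e | e <;> rw [e]
    · rw [Units.val_one, one_smul]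
    · rw [Units.val_neg, Units.val_one, neg_one_smul, smul_neg, neg_two h5]
  · rw [h, map_mul, map_ofNat]
    exact mul_eq_zero_of_left rfl _

/-- The classes of Kolyvagin. -/
theorem kc (T : Tate) (hn : Nok n) (hf : Fok n f) (Y : ES S f) (hY : Y.Cong) (h : S.Tw k lam f)
    (e : ℤ) : ∃ (κ : Finset Plc → Gam → Fin 2 → Ak k) (R : EE),
    (∀ Q, S.DpS T k lam f Q → κ Q ∈ SU T n f lam (S.psf k lam f e) Q (fun _ => .tr) (Ak k)) ∧
    (∀ Q w, w ∉ Q → S.DpS T k lam f (insert w Q) →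
      κ (insert w Q) (gn w) = sw _ *ᵥ κ Q (fq w)) ∧
    2 ^ k • R = al lam.p • Y.ychi e ∧
    (∀ g ∈ S.N T k lam f, T.emb k (fun i => evk k (κ ∅ g i)) = g • R - R) ∧
    ∀ g ∈ S.N T k lam f, T.Un (S.ychi 1) g → 4 * m0 f < k → ∀ x : Lam,
      Ideal.Quotient.mk _ x = κ ∅ g 1 → x ^ 2 ∉ aa 1 (4 * m0 f + 1) := by
  obtain ⟨φ₀, z, h⟩ := h
  have hl := h.adm
  obtain ⟨κ, R, k1, k2, k3, k4⟩ := KS.core (S := Y.ks T hn hf) (k := k) hl (Ψ := S.PsA k lam e)
    (a := act T (S.psf k lam f e) (Ak k)) fun g _ => kc_act g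
  have dp : ∀ Q, S.DpS T k lam f Q → (Y.ks T hn hf).Dps k lam Q := fun Q hQ =>
    have h1 := fun w hw => deep_dvd T (hQ.dp w hw).adm.ndM (fr_spec w) (hQ.dp w hw).mem.2.1
    ⟨fun w hw => (hQ.dp w hw).adm, fun w hw => (hQ.dp w hw).ne,
      fun w hw => (pow_dvd_pow 2 (by omega)).trans (h1 w hw).1,
      fun w hw => (pow_dvd_pow 2 (by omega)).trans (h1 w hw).2,
      fun w hw => deep_rho T ((la_mred_le (Nat.le_add_right k 2)
        ((hQ.dp w hw).mem.2.1.trans (la_mred_one _).symm)).trans (la_mred_one k)), hQ.inj⟩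
  have ev := fun v => KS.emb_evk (S := Y.ks T hn hf) (Ψ := S.PsA k lam e) HS.evk_PsA v
  have fx : ∀ g ∈ S.N T k lam f, ∀ x, 2 ^ k • (g • R x - R x) = 0 := fun g hg x => by
    rw [smul_sub, smul_comm, k3, ← KS.tw_of hg.2.2.2]
    exact sub_eq_zero.2 ((Y.gal _ hl g hg.1 x).trans (by rw [hg.2.2.1 hl, one_mul]; rfl))
  refine ⟨κ, ∑ x, (S.gen e (S.pr 1 lam.p x) : ℤ) • R x, fun Q hQ => ?_,
    fun Q w hw hQ => k2 Q w hw (dp _ hQ), ?_, fun g hg => ?_, fun g hg hu hk x hx => ?_⟩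
  · have K := k1 Q (dp Q hQ)
    have hc : Adm n (cQ lam Q) := (dp Q hQ).adm hl
    refine ⟨K.z1, fun w h1 h2 h3 h4 σ hσ => K.unr w (ne_two_of h1)
      (fun k => h1 (((dvd_Δ w.prime).1 k).mul_left 2)) (not_dvd_cQ h3 h4) σ hσ (hf.chi_ine h2 hσ.2),
      fun w hw => K.cob _ (fun g hg => have h1 := ine_le_IN hw hg
        ⟨hn.IN_le h1, kc_IN hn hc h1, hf.chi_IN h1⟩) (T.kumN w hw), ?_,
      fun w hw => ⟨(Submodule.mem_bot _).2 (K.tr w hw), trivial⟩⟩
    obtain ⟨U, v, hv⟩ := K.kum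
    have h1 := fun g (hg : g ∈ GK n ⊓ Dec w2) => hv g hg.1 (KS.dec (S := Y.ks T hn hf) hc
      (fun e => nd_of_MM (hc.2 _ w2.prime e).1 (w2_p ▸ dvd_mul_right 2 NN)) (hn.ine_two w2_p)
      (hn.out_two w2_p) hg) (kc_chi hn hf w2_p hg)
    exact (KumC.sum univ fun x _ => KumC.of_smul (m := k) (x := v x)
      ⟨U x, fun g hg => (h1 g hg).1 x⟩ ((kil_Ak k).two (S.PsA k lam e x))).congr
      fun g hg => funext (h1 g hg).2
  · rw [smul_sum, ES.ychi, ← kc_tr (Y.trace 1 _ lam.prime (by rwa [one_mul]))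
      fun a => (S.gen e a : ℤ)]
    exact sum_congr rfl fun x _ => by rw [smul_comm, k3]; rfl
  · rw [k4 g hg.1 (hg.2.2.1 hl) hg.2.2.2, smul_sum, ← sum_sub_distrib]
    refine (ev _).trans (sum_congr rfl fun x _ => ?_)
    rw [KS.emb_crd (fx g hg x), smul_sub, smul_comm g]
  · obtain ⟨φ, hφ, hY⟩ := hY
    choose u u1 u2 using hY lam.p hl
    obtain ⟨R', v, r1, r2⟩ := (Y.ks T hn hf).exists_root k (g := g) (y := S.y lam.p) fun x => by
      rw [S.gal _ hl g hg.1, hg.2.2.1 hl, one_mul]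
    obtain ⟨s, hs⟩ := KS.cmb_cong (S := Y.ks T hn hf) (Ψ := S.PsA k lam e)
      (kc_fix hg (Nat.le_add_right k 2)) (fun x => u1 x g hg.1 (hg.2.2.1 hl) hg.2.2.2)
      (fun x => (k3 x).trans (u2 x)) r1 r2 1
    rw [k4 g hg.1 (hg.2.2.1 hl) hg.2.2.2, hs] at hx
    have h1 := ((kc_euler (e := e) hf h hφ).mul (pw_zero (kc_unit hl h.nrt hg (by omega) hu r1
      ((ev v).trans (sum_congr rfl fun x _ => by rw [r2])))))
    have := (h1.add s).sq (by omega) hx
    rwa [add_zero, ← mul_assoc] at this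

end Pool.Agent.B6
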