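import Pool.Agent.Lib.MP_696deb_nt.B6.XTG

/-! Points on both twists give a lower bound on the target branch. -/

set_option autoImplicit false

open scoped NNReal Classical
open Finset Matrix NumberTheorySymbols PowerSeries

namespace Pool.Agent.B6

open Pool.Agent.Lib.MP_696deb_nt Pool.Agent.Lib.MP_696deb_nt.B2

variable [Md]

variable {n : ℕ} {f d d' e e' : ℤ}

/-- The Kummer cocycle of a point that is defined over the quadratic field. -/
theorem xnz_kum (T : Tate) (j : ℕ) (hc : TwPr n f d d') {z : Gam} (hz : z ∈ GK n) (h3 : T.O3 z)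
    {R : EE} (hR : ∀ g ∈ GK n, tw d g R = R) : ∃ x, KV T n f d j x ∧ x z = 0 ∧ ∃ W : EE,
      2 ^ j • W = R ∧ ∀ g ∈ GK n, T.emb j (x g) = tw d g W - W := by
  have e0 : ∀ Y, 2 ^ j • Y = R → ∀ g ∈ GK n, ∃ v, T.emb j v = tw d g Y - Y := fun Y hY g hg =>
    T.surj j _ (by rw [smul_sub, ← lkT_apply, ← map_nsmul, lkT_apply, hY, hR g hg, sub_self])
  obtain ⟨Y, hY, h0⟩ : ∃ Y, 2 ^ j • Y = R ∧ tw d z Y = Y := by
    obtain ⟨Y, hY⟩ := lo3_half j R
    obtain ⟨v, hv⟩ := e0 Y hY z hz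
    obtain ⟨y, rfl⟩ := Finite.surjective_of_injective ((injective_iff_map_eq_zero
      (tv T d j z - AddMonoidHom.id (Vm j))).2 fun y hy => tv_eig (d := d) h3 odd_one
        ((sub_eq_zero.1 hy).trans (one_smul _ _).symm)) v
    refine ⟨Y - T.emb j y, by rw [smul_sub, emb_kill, sub_zero, hY], ?_⟩
    rw [AddMonoidHom.sub_apply, map_sub, emb_tv, AddMonoidHom.id_apply] at hv
    rw [← lkT_apply, map_sub, lkT_apply, lkT_apply]
    linear_combination (norm := abel1) -hv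
  have : ∀ g, ∃ x, (g ∈ GK n → T.emb j x = tw d g Y - Y) ∧ (g ∉ GK n → x = 0) := fun g => by
    by_cases hg : g ∈ GK n
    · exact (e0 Y hY g hg).imp fun _ h => ⟨fun _ => h, fun k => absurd hg k⟩
    · exact ⟨0, fun k => absurd k hg, fun _ => rfl⟩
  choose c c1 c2 using this
  refine ⟨c, ⟨⟨⟨?_, fun g hg u hu => T.inj j ?_⟩, c2⟩, fun w hw hf σ hσ => T.inj j ?_,
    fun w hw => ?_, hc.kum_iff.2 ⟨Y, fun g hg => c1 g hg.1⟩⟩,
    T.inj j (by rw [c1 z hz, h0, sub_self, map_zero]), Y, hY, c1⟩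
  · obtain ⟨U, u1, u2, u3⟩ := (sm_chi (H := GK n) d).comp₂ (sm_pt (GK n) Y)
      fun e P => (e : ℤ) • P - Y
    exact ⟨U, u1, u2, fun g hg u hu e => T.inj j
      ((c1 g hg).trans ((u3 g hg u hu e).trans (c1 u hu).symm))⟩
  · rw [map_add, emb_tv, c1 _ (mul_mem hg hu), c1 g hg, c1 u hu, lk_tw_mul,
      ← lkT_apply g (_ - _), map_sub]
    exact (sub_add_sub_cancel' _ _ _).symm
  · have e1 := emb_kill T (c σ)
    rw [map_zero]
    rw [c1 σ hσ.1, tw, hc.chi_ine hf hσ, Units.val_one, one_smul] at e1 ⊢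
    exact K1_tors (ne_two_of hw) (K1_ine (fun e => hw (((dvd_Δ w.prime).1 e).mul_left 2)) hσ.2 Y) e1
  · have k : ∀ σ ∈ Ine w, σ ∈ GK n ∧ ∀ P, tw d σ P = σ • P := fun σ hσ => by
      have k := hc.nok.split hw (Ine_le w hσ)
      exact ⟨k, fun P => by
        rw [tw, hc.chi_ine (fun k => (hc.fok.spl _ w.prime k).1 hw) ⟨k, hσ⟩, Units.val_one, one_smul]⟩
    obtain ⟨t, t1, t2⟩ := T.kum_pow hw (m := j) (R := Y) fun σ hσ => by
      rw [hY, ← (k σ hσ).2, hR σ (k σ hσ).1]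
    obtain ⟨y, rfl⟩ := T.surj j t t1
    exact ⟨y, fun σ hσ => T.inj j (by
      rw [c1 σ (k σ hσ).1, cob, map_sub, emb_tv, (k σ hσ).2, (k σ hσ).2, t2 σ hσ])⟩

omit [Md] in
/-- Primitive points are only divisible in the obvious way. -/
theorem xnz_prim [Cw] {P : EE} (hP : ∀ g, tw d g P = P)
    (h : ∀ Q : EE, (∀ g, tw d g Q = Q) → ¬ IsOfFinAddOrder (P - 2 • Q)) {W : EE}
    (hW : ∀ g, tw d g W = W) (j : ℕ) : ∀ α : ℤ, IsOfFinAddOrder (2 ^ j • W - α • P) →
      2 ^ j ∣ α := by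
  induction j with
  | zero => exact fun α _ => by simp
  | succ j ih =>
    intro α hα
    rcases Int.even_or_odd' α with ⟨t, rfl | rfl⟩
    · rw [pow_succ']
      refine mul_dvd_mul_left 2 (ih t (IsOfFinAddOrder.of_nsmul (n := 2) ?_ two_ne_zero))
      rwa [show 2 • (2 ^ j • W - t • P) = 2 ^ (j + 1) • W - (2 * t) • P by module]
    · refine absurd ?_ (h (2 ^ j • W - t • P) fun g => ?_)
      · rw [show P - 2 • (2 ^ j • W - t • P) = -(2 ^ (j + 1) • W - (2 * t + 1) • P) by module]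
        exact hα.neg
      · rw [← lkT_apply, map_sub, map_nsmul, map_zsmul, lkT_apply, lkT_apply, hW, hP]

omit [Md] in
/-- The trace from the quadratic field. -/
theorem xnz_plus [Cw] (hn : 0 < n) {P P' W : EE} (hP : ∀ g, tw d g P = P)
    (h : ∀ Q : EE, (∀ g, tw d g Q = Q) → ¬ IsOfFinAddOrder (P - 2 • Q)) (hP' : tw d cc P' = -P')
    (hW : ∀ g ∈ GK n, tw d g W = W) {j : ℕ} {α β : ℤ} (e : 2 ^ j • W = α • P + β • P') :
    2 ^ j ∣ 2 * α := by
  have e1 : ∀ g ∈ GK n, tw d g (W + tw d cc W) = W + tw d cc W := fun g hg => by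
    rw [← lkT_apply, map_add, lkT_apply, lkT_apply, hW g hg, ← lk_tw_mul,
      show g * cc = cc * (cc * g * cc) by rw [← mul_assoc, ← mul_assoc, cc_mul_cc, one_mul],
      lk_tw_mul, hW _ (conj_cc_mem hg)]
  refine xnz_prim hP h (W := W + tw d cc W) (fun g => ?_) j _ ?_
  · by_cases hg : g ∈ GK n
    · exact e1 g hg
    · rw [show g = g * cc * cc by rw [mul_assoc, cc_mul_cc, mul_one], lk_tw_mul (g * cc),
        ← lkT_apply cc (_ + _), map_add, lkT_apply, lkT_apply, ← lk_tw_mul cc cc, cc_mul_cc,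
        lk_tw_one, add_comm]
      exact e1 _ (mul_mem_GK hg (cc_notMem hn))
  · rw [smul_add, ← lkT_apply, ← map_nsmul, e, map_add, map_zsmul, map_zsmul, lkT_apply,
      lkT_apply, hP, hP', show α • P + β • P' + (α • P + β • -P') - (2 * α) • P = 0 by module]
    exact IsOfFinAddOrder.zero

/-- Points on both twists give rank two. -/
theorem nz_bound (_F : CFT) (_su : SUStmt) (_ch : ChebStmt) (T : Tate) (hn : Nok n) (hf : Fok n f)
    (S : HS n) (he : e * e' = -n) (h4 : e % 4 = 1) (h : Nz (f * e)) (h' : Nz (f * e')) :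
    ∃ C : ℕ, ∀ k lam, S.Tw k lam f → ∀ j ≤ k, 4 ^ j ≤
      C * Nat.card (SM T n f lam (S.psf k lam f e) ∅ (fun _ => .tr) (Lam ⧸ aa j 1)) := by
  obtain ⟨P, hP, h⟩ := h
  obtain ⟨P', hP', h'⟩ := h'
  have hc := twPr hn hf he h4
  obtain ⟨K, hK⟩ := hc.card_KV T
  refine ⟨4 ^ 7, fun k lam hT j _ => ?_⟩
  have iff := fun c : Gam → Fin 2 → Lam ⧸ aa j 1 => hc.inSU_iff (T := T) (c := c) hT.adm hT.nrt
    fun _ => HS.psf_X (S := S) (k := k) hT.adm hf.ne (dvd_neg.1 ⟨e', he.symm⟩) h4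
  have fin : Finite (SM T n f lam (S.psf k lam f e) ∅ (fun _ => .tr) (Lam ⧸ aa j 1)) :=
    tg_finite (hK j j) (f := fun c g => evV j (c.1 g))
      (fun c c' e => Subtype.ext (funext fun g => evV_inj j (congrFun e g))) fun c =>
        ⟨⟨_, _, (iff _).1 c.2.1, (iff 0).1 (zero_mem (SU T n f lam _ ∅ _ _)), funext fun g => by
          simp⟩, funext fun g => Vm_kill _⟩
  generalize f * e = d, f * e' = d' at *
  have e1 : ∀ g ∈ GK n, ∀ Q, tw d' g Q = tw d g Q := fun g hg Q => by rw [tw, tw, hc.eq g hg]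
  have e2 : ∀ Q, tw d' cc Q = -tw d cc Q := fun Q => by
    rw [tw, tw, hc.ne _ (cc_notMem hn.pos), Units.val_neg, neg_smul]
  have out := hT.adm.out (fr_spec lam)
  have key := fun z : Fin (2 ^ (j - 7)) × Fin (2 ^ (j - 7)) =>
    xnz_kum T j hc (mul_mem_GK out out) (T.o3_fq hT.adm.nd30 hT.nrt)
      (R := (64 * z.1 : ℤ) • P + (64 * z.2 : ℤ) • P') fun g hg => by
        rw [← lkT_apply, map_add, map_zsmul, map_zsmul, lkT_apply, lkT_apply, hP, ← e1 g hg, hP']
  choose x x1 x2 W hW1 hW2 using key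
  choose c hx using fun z g => evV_surj j (x z g)
  have hc1 : ∀ z, c z ∈ SM T n f lam (S.psf k lam f e) ∅ (fun _ => .tr) (Lam ⧸ aa j 1) := fun z =>
    ⟨(iff _).2 (by simpa only [hx] using x1 z),
      evV_inj j ((hx z _).trans ((x2 z).trans (map_zero _).symm))⟩
  have inj : Function.Injective fun z => (⟨c z, hc1 z⟩ :
      SM T n f lam (S.psf k lam f e) ∅ (fun _ => .tr) (Lam ⧸ aa j 1)) := fun z y e => by
    have e3 : c z = c y := congrArg Subtype.val e
    have e4 : ∀ g ∈ GK n, tw d g (W z - W y) = W z - W y := fun g hg => by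
      have := hW2 z g hg
      rw [← hx, e3, hx, hW2 y g hg] at this
      rw [← lkT_apply, map_sub, lkT_apply, lkT_apply]
      linear_combination (norm := abel1) -this
    have e5 : 2 ^ j • (W z - W y) =
        (64 * ((z.1 : ℤ) - y.1)) • P + (64 * ((z.2 : ℤ) - y.2)) • P' := by
      rw [smul_sub, hW1, hW1]
      module
    refine Prod.ext (xnz_eq (xnz_plus hn.pos hP h ?_ e4 e5))
      (xnz_eq (xnz_plus (P' := P) hn.pos hP' h' ?_ (fun g hg => (e1 g hg _).trans (e4 g hg))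
        (e5.trans (add_comm _ _))))
    · rw [← neg_neg (tw d cc P'), ← e2, hP']
    · rw [e2, hP]
  have le := Nat.card_le_card_of_injective _ inj
  rw [Nat.card_prod, Nat.card_fin, ← mul_pow] at le
  refine le_trans ?_ (Nat.mul_le_mul_left _ le)
  rw [show 2 * 2 = 4 from rfl, ← pow_add]
  exact Nat.pow_le_pow_right (by norm_num) (by omega)

end Pool.Agent.B6
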