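import Pool.Agent.Lib.MP_696deb_nt.B6.PTd
import Pool.Agent.Lib.MP_696deb_nt.B6.TWb

/-! In every class of primes of order three there is a twist of corank at most one. -/

set_option autoImplicit false

open scoped NNReal Classical
open Finset Matrix NumberTheorySymbols

namespace Pool.Agent.B6

open Pool.Agent.Lib.MP_696deb_nt Pool.Agent.Lib.MP_696deb_nt.B2 Pool.Agent.Lib.MP_696deb_nt.B6

section
variable [Cw]

/-- The group of Selmer cocycles. -/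
def selG (d : ℤ) : AddSubgroup (Gam → EE) where
  carrier := {ξ | hSel d ξ}
  zero_mem' := by
    have := lkC_sel (d := d) 0
    rwa [show lkC d 0 = 0 from funext fun g => by simp [lkC]] at this
  add_mem' {ξ η} h k := ⟨h.sm.comp₂ k.sm (· + ·), fun g g' => by
      simp only [Pi.add_apply, h.coc, k.coc, ← lkT_apply, map_add]
      abel,
    fun w => (h.loc w).elim fun S hS => (k.loc w).elim fun S' hS' => ⟨S + S', fun g hg => by
      simp only [Pi.add_apply, hS g hg, hS' g hg, ← lkT_apply, map_add]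
      abel⟩,
    h.inf.elim fun S hS => k.inf.elim fun S' hS' => ⟨S + S', by
      simp only [Pi.add_apply, hS, hS', ← lkT_apply, map_add]
      abel⟩⟩
  neg_mem' {ξ} h := ⟨h.sm.comp (-·), fun g g' => by
      simp only [Pi.neg_apply, h.coc, ← lkT_apply, map_neg, neg_add],
    fun w => (h.loc w).elim fun S hS => ⟨-S, fun g hg => by
      simp only [Pi.neg_apply, hS g hg, ← lkT_apply, map_neg]
      abel⟩,
    h.inf.elim fun S hS => ⟨-S, by
      simp only [Pi.neg_apply, hS, ← lkT_apply, map_neg]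
      abel⟩⟩

theorem hSel.unr {d : ℤ} {ξ : Gam → EE} (h : hSel d ξ) {w : Plc} (h1 : ¬ (w.p : ℤ) ∣ 2 * d)
    (h2 : ¬ (w.p : ℤ) ∣ WZ.Δ) {m : ℕ} {σ : Gam} (hσ : σ ∈ Ine w) (h3 : 2 ^ m • ξ σ = 0) :
    ξ σ = 0 := by
  obtain ⟨S, hS⟩ := h.loc w
  refine K1_tors (w := w) (fun e => h1 (e ▸ dvd_mul_right _ _)) ?_ h3
  rw [hS σ (Ine_le w hσ), tw, chi_ine h1 hσ, Units.val_one, one_smul]
  exact K1_ine h2 hσ S

end

variable [Md] {T : Tate} {P : Finset ℕ} {s f f' : Gam} {w w' : Plc} {d : ℤ} {ξ : Gam → EE}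

theorem Tate.inj_i2 (T : Tate) : Function.Injective T.i2 := T.inj 1

theorem Tate.two_i2 (T : Tate) (x : V2) : 2 • T.i2 x = 0 := by
  rw [← map_nsmul, v2_two, map_zero]

theorem Tate.tw_i2 (T : Tate) (d : ℤ) (g : Gam) (x : V2) :
    tw d g (T.i2 x) = T.i2 (T.r2 g *ᵥ x) := by
  rw [tw_two _ _ (T.two_i2 x), T.smul_i2]

theorem Tate.coord (T : Tate) (h : Sm ⊤ ξ) (h2 : ∀ g, 2 • ξ g = 0) :
    ∃ a : Gam → V2, Sm ⊤ a ∧ ∀ g, T.i2 (a g) = ξ g :=
  ⟨fun g => Function.invFun T.i2 (ξ g), h.comp _, fun g =>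
    Function.invFun_eq (T.surj_i2 _ (h2 g))⟩

/-- The normalised cocycle of a Selmer class of order two. -/
theorem Tate.norm (T : Tate) (hs : Ord3 (T.r2 s)) (h : hSel d ξ) (h2 : ∀ g, 2 • ξ g = 0) :
    ∃ (a : Gam → V2) (y : V2), Cc T.r2 a ∧ a s = 0 ∧
      ∀ g, T.i2 (a g) = ξ g - lkC d (T.i2 y) g := by
  obtain ⟨a, a1, a2⟩ := T.coord h.sm h2
  obtain ⟨y, hy⟩ := hs.cob (a s)
  refine ⟨fun g => a g - (T.r2 g *ᵥ y - y), y, ⟨a1.comp₂ T.sm_r2 fun u A => u - (A *ᵥ y - y),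
    fun g k => ?_⟩, sub_eq_zero.2 hy, fun g => ?_⟩
  · have : a (g * k) = a g + T.r2 g *ᵥ a k := T.inj_i2 (by
      rw [map_add, ← T.tw_i2 d, a2, a2, a2, h.coc])
    simp only [this, map_mul, mulVec_sub, mulVec_mulVec]
    abel
  · rw [map_sub, map_sub, a2, lkC, lkT_apply, T.tw_i2]

theorem tw_cl (h2 : 2 ∈ P) (hd : d ≠ 0) (h : Cl P T.r2 s w f) (h' : Cl P T.r2 s w' f') {v : Plc}
    (hv : v.p ∈ P) {g : Gam} (hg : g ∈ Dec v) (S : EE) :
    tw (d * w.p) g S = tw (d * w'.p) g S := by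
  have k := xi_eq_zero.1 (xi_dec h2 h.out h'.out h.frob h'.frob (h.neg.trans h'.neg.symm)
    (fun l hl => (h.sym l hl).trans (h'.sym l hl).symm) hv hg)
  have e : (w.p : ℤ) ≠ 0 := by exact_mod_cast w.prime.ne_zero
  have e' : (w'.p : ℤ) ≠ 0 := by exact_mod_cast w'.prime.ne_zero
  rw [chi_mul e e'] at k
  rw [tw, tw, chi_mul hd e, chi_mul hd e', eq_inv_of_mul_eq_one_left k, Int.units_inv_eq_self]

theorem partner (F : CFT) (T : Tate) {d1 : ℤ} (hd : d1 ≠ 0) (X : Finset ℤ) (hX : ∀ x ∈ X, x ≠ 0)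
    (B : ℕ) {s : Gam} (hs : T.O3 s) : ∃ l : ℕ, l.Prime ∧ B < l ∧ ¬ Rt l ∧
      (∀ x ∈ X, J(x | l) = chi x s) ∧ Cork (d1 * l) := by
  have hs := T.o3_iff.1 hs
  obtain ⟨P, hP⟩ : ∃ P : Finset ℕ, ∀ p : ℕ, p.Prime →
      (p ∈ P ↔ (p : ℤ) ∣ 2 * NN * d1 * ∏ x ∈ X, x) := by
    refine ⟨(2 * NN * d1 * ∏ x ∈ X, x).natAbs.primeFactors, fun p hp => ?_⟩
    have : (NN : ℤ) ≠ 0 := by exact_mod_cast NN_ne
    simp [Int.natCast_dvd, hp, hd, NN_ne, prod_ne_zero_iff.2 hX]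
  have p2 : 2 ∈ P := (hP 2 Nat.prime_two).2 ⟨NN * d1 * ∏ x ∈ X, x, by push_cast; ring⟩
  have p3 : ∀ v : Plc, v.p ∉ P → ¬ v.p ∣ 2 * NN := fun v hv k => hv ((hP _ v.prime).2
    (((Int.natCast_dvd_natCast.2 k).mul_right _).mul_right _))
  have p4 : ∀ v : Plc, v.p ∉ P → ¬ (v.p : ℤ) ∣ WZ.Δ := fun v hv k =>
    p3 v hv (((dvd_Δ v.prime).1 k).mul_left 2)
  have p5 : ∀ v u : Plc, v.p ∉ P → v.p ≠ u.p → ¬ (v.p : ℤ) ∣ 2 * (d1 * u.p) := fun v u hv e k => by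
    rw [← mul_assoc] at k
    refine ((Nat.prime_iff_prime_int.1 v.prime).dvd_or_dvd k).elim (fun k => hv ?_) fun k =>
      e ((Nat.prime_dvd_prime_iff_eq v.prime u.prime).1 (by exact_mod_cast k))
    exact (hP _ v.prime).2 (k.trans ⟨NN * ∏ x ∈ X, x, by ring⟩)
  have hr : Rep P T.r2 := ⟨T.sm_r2, p2, fun v hv σ hσ => T.r2_of le_rfl (by
    rw [T.unr v (p3 v hv) σ hσ, mred_one]), T.r2_cc ▸ ord2_swap.2⟩
  obtain ⟨w₀, f₀, -, c₀, -⟩ := pt_core F hr hs ⊥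
    (fun a ha => by
      obtain rfl : a = 0 := ha
      exact ⟨⟨⟨⊤, isOpen_univ, inferInstance, fun _ _ _ _ _ => rfl⟩, by simp⟩, rfl,
        fun _ _ _ _ => rfl⟩)
    (fun a ha b hb v _ => by
      obtain rfl : a = 0 := ha
      exact spl_of 0 ⟨⊤, isOpen_univ, inferInstance, fun _ _ _ _ _ => rfl⟩ fun g _ h _ => by
        simp [cp, dt_zero_left])
    (fun _ => ∅) (fun _ _ _ _ _ _ _ _ _ h => h.elim) ∅
  have d0 : ∀ v : Plc, d1 * v.p ≠ 0 := fun v => mul_ne_zero hd (by exact_mod_cast v.prime.ne_zero)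
  let S : AddSubgroup (Gam → V2) :=
    { carrier := {a | (Cc T.r2 a ∧ a s = 0 ∧ Unr P a) ∧ ∀ v : Plc, v.p ∈ P →
        ∃ Q, ∀ g ∈ Dec v, T.i2 (a g) = tw (d1 * w₀.p) g Q - Q}
      zero_mem' := ⟨⟨⟨⟨⊤, isOpen_univ, inferInstance, fun _ _ _ _ _ => rfl⟩, by simp⟩, rfl,
        fun _ _ _ _ => rfl⟩, fun _ _ => ⟨0, fun g _ => by simp [tw]⟩⟩
      add_mem' := fun {a b} h k => ⟨⟨⟨h.1.1.sm.comp₂ k.1.1.sm (· + ·), fun g g' => by
          simp only [Pi.add_apply, h.1.1.mul, k.1.1.mul, mulVec_add]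
          abel⟩, by rw [Pi.add_apply, h.1.2.1, k.1.2.1, add_zero], fun v hv σ hσ => by
          rw [Pi.add_apply, h.1.2.2 v hv σ hσ, k.1.2.2 v hv σ hσ, add_zero]⟩,
        fun v hv => (h.2 v hv).elim fun Q hQ => (k.2 v hv).elim fun Q' hQ' =>
          ⟨Q + Q', fun g hg => by
            simp only [Pi.add_apply, hQ g hg, hQ' g hg, ← lkT_apply, map_add]
            abel⟩⟩
      neg_mem' := fun {a} h => by
        rwa [show -a = a from funext fun g => neg_eq_of_add_eq_zero_left (v2_self _)] }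
  have fin : (S : Set (Gam → V2)).Finite := (finite_cc T.sm_r2 hs P).subset fun a ha => ha.1
  have : Finite S := fin
  have iso : ∀ (c b : Gam → V2) (v : Plc) (Q : EE), b ∈ S → v.p ∈ P →
      (∀ g ∈ Dec v, T.i2 (c g) = tw (d1 * w₀.p) g Q - Q) → Spl 1 (Dec v) (cp T.r2 c b) :=
    fun c b v Q hb hv hc => (hb.2 v hv).elim fun Q' hQ' =>
      iso_tw (d0 w₀) T.inj_i2 T.smul_i2 (closed_Dec v) hc hQ'
  obtain ⟨w, f, hw, c, a₀, h₀⟩ := pt_core F hr hs S (fun a ha => ha.1)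
    (fun a ha b hb v hv => (ha.2 v hv).elim fun Q hQ => iso a b v Q hb hv hQ)
    (fun l => {a | ∃ ξ, hSel (d1 * l) ξ ∧ ∀ g, T.i2 (a g) = 2 • ξ g})
    (fun w f w' f' c c' hne a ha ⟨ξ, x1, x2⟩ ⟨η, y1, y2⟩ => by
      obtain ⟨b, b1, b2⟩ := T.coord (x1.sm.comp₂ y1.sm (· - ·)) fun g => by
        rw [smul_sub, ← x2, ← y2, sub_self]
      refine ⟨b, ⟨b1, fun g h => T.inj_i2 ?_⟩, fun v hv σ hσ => T.inj_i2 ?_, fun b' hb' v hv => ?_⟩
      · have e : (w.p : ℤ) ≠ 0 := by exact_mod_cast w.prime.ne_zero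
        have e' : (w'.p : ℤ) ≠ 0 := by exact_mod_cast w'.prime.ne_zero
        have k : chi (d1 * w'.p) g = chi (w.p * w'.p) g * chi (d1 * w.p) g := by
          rw [chi_mul hd e, chi_mul hd e', chi_mul e e', mul_comm (chi w.p g), mul_comm (chi d1 g),
            mul_comm (chi d1 g), mul_assoc, ← mul_assoc (chi w.p g), Int.units_mul_self, one_mul]
        rw [← mulVec_smul, add_assoc, ← mulVec_add, map_add, ← T.tw_i2 (d1 * w.p), map_add, b2, b2,
          b2, x1.coc, y1.coc, tw, tw, tw, k]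
        rcases Int.units_eq_one_or (chi (w.p * w'.p) g) with e1 | e1
        · rw [xi_eq_zero.2 e1, e1, zero_smul, map_zero, add_zero, one_mul, smul_sub, smul_sub]
          abel
        · rw [xi_eq_one.2 e1, e1, one_smul, y2, neg_one_mul, Units.val_neg, neg_smul, two_nsmul]
          simp only [smul_add, smul_sub]
          abel
      · rw [mem_insert, mem_insert, not_or, not_or] at hv
        rw [b2, map_zero, x1.unr (p5 v w hv.2.2 hv.1) (p4 v hv.2.2) (m := 2) hσ (by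
            rw [sq, mul_smul, ← x2, T.two_i2]),
          y1.unr (p5 v w' hv.2.2 hv.2.1) (p4 v hv.2.2) (m := 2) hσ (by
            rw [sq, mul_smul, ← y2, T.two_i2]), sub_self]
      · obtain ⟨Q, hQ⟩ := x1.loc v
        obtain ⟨Q', hQ'⟩ := y1.loc v
        refine iso b b' v (Q - Q') hb' hv fun g hg => ?_
        rw [b2, hQ g hg, hQ' g hg, tw_cl p2 hd c c₀ hv hg, tw_cl p2 hd c' c₀ hv hg]
        simp only [← lkT_apply, map_sub]
        abel)
    (range (B + 1))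
  have mem : ∀ ξ, hSel (d1 * w.p) ξ → (∀ g, 2 • ξ g = 0) → ∃ a ∈ S, ∃ y,
      ∀ g, T.i2 (a g) = ξ g - lkC (d1 * w.p) (T.i2 y) g := fun ξ h h2 => by
    obtain ⟨a, y, a1, a2, a3⟩ := T.norm hs h h2
    have k : hSel (d1 * w.p) (ξ - lkC (d1 * w.p) (T.i2 y)) :=
      (selG _).sub_mem (show ξ ∈ selG _ from h) (lkC_sel _)
    refine ⟨a, ⟨⟨a1, a2, fun v hv σ hσ => ?_⟩, fun v hv => (k.loc v).imp fun Q hQ g hg => ?_⟩, y,
      a3⟩
    · by_cases e : v.p = w.p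
      · obtain ⟨g, rfl⟩ := plc_conj e.symm
        refine cc_unr a1 (hr.ne_two hv) (hr.unr _ hv) (c.frob.smul g).1 ?_ hσ
        rw [map_mul, map_mul]
        exact c.ord.conj (r_inv _ g)
      · refine T.inj_i2 ?_
        rw [a3, map_zero]
        exact k.unr (p5 v w hv e) (p4 v hv) (m := 1) hσ (by
          rw [pow_one, Pi.sub_apply, ← a3, T.two_i2])
    · rw [a3, ← tw_cl p2 hd c c₀ hv hg]
      exact hQ g hg
  let Φ : (Gam → V2) × V2 → Gam → EE := fun z g => T.i2 (z.1 g) + lkC (d1 * w.p) (T.i2 z.2) g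
  refine ⟨w.p, w.prime, by simpa using hw, (T.par w f (p3 w c.out) c.frob).1
    (T.o3_iff.2 c.ord), fun x hx => ?_,
    ((fin.toFinset ×ˢ univ).image Φ).card, fun m t ht => ?_⟩
  · have k : ∀ p : ℕ, p.Prime → (p : ℤ) ∣ x → p ∈ P := fun p hp k =>
      (hP p hp).2 ((k.trans (dvd_prod_of_mem _ hx)).mul_left _)
    rw [← chi_frob (fun e => ((Nat.prime_iff_prime_int.1 w.prime).dvd_or_dvd e).elim
      (fun e => p3 w c.out (Dvd.dvd.mul_right (by exact_mod_cast e) _))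
      fun e => c.out (k _ w.prime e)) c.frob,
      chi_congr c.neg (hX x hx) fun p hp e => c.sym p (k p hp e)]
  · refine (card_tors (selG (d1 * w.p)) _ ((({0, a₀} : Finset _) ×ˢ univ).image Φ)
      (fun ξ h h2 => ?_) (fun ξ h h4 => ?_) m t fun ξ h => ⟨(ht ξ h).1, funext fun g => ?_⟩).trans
      (Nat.mul_le_mul_left _ (Nat.pow_le_pow_left (card_image_le.trans ?_) m))
    · obtain ⟨a, a1, y, a2⟩ := mem ξ h (congrFun h2)
      exact mem_image.2 ⟨(a, y), by simpa using a1, funext fun g => by simp [Φ, a2]⟩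
    · obtain ⟨a, a1, y, a2⟩ := mem (2 • ξ) ((selG _).nsmul_mem h 2) fun g => by
        rw [Pi.smul_apply, ← mul_smul]
        exact congrFun h4 g
      obtain ⟨Y, hY⟩ := exists_half (T.i2 y)
      have k := h₀ a a1 ⟨ξ - lkC (d1 * w.p) Y, (selG _).sub_mem h (lkC_sel _), fun g => by
        rw [a2, ← hY, Pi.sub_apply, smul_sub, lkC, lkC, smul_sub, map_nsmul]
        rfl⟩
      exact mem_image.2 ⟨(a, y), by simpa using k, funext fun g => by simp [Φ, a2]⟩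
    · rw [Pi.smul_apply, pow_succ', mul_smul, (ht ξ h).2, smul_zero]
      rfl
    · rw [card_product]
      exact Nat.mul_le_mul card_le_two (show (univ : Finset V2).card ≤ 4 by decide)

end Pool.Agent.B6
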