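import Pool.Agent.Lib.MP_696deb_nt.B6.TAb
import Pool.Agent.Lib.MP_696deb_nt.B4.TMa

/-! The action on the roots of the cubic, and a basis adapted to complex conjugation. -/

set_option autoImplicit false

open scoped NNReal Classical
open Matrix

namespace Pool.Agent.B6

open Pool.Agent.Lib.MP_696deb_nt (Pt pmap xco yco)
open Pool.Agent.Lib.MP_696deb_nt.B2
open Pool.Agent.B4 (tm_unit tm_cases tm_even)

variable [Cw]

theorem tad_chi {g : Gam} (h : ∀ i, g (er i) = er i) : chi WZ.Δ g = 1 := by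
  have h1 : (4 * ((er 0 - er 1) * ((er 0 - er 2) * (er 1 - er 2)))) ^ 2 = (WZ.Δ : Qbar) := by
    rw [er_Δ]; ring
  have h2 := chi_spec h1 g
  have h0 : 4 * ((er 0 - er 1) * ((er 0 - er 2) * (er 1 - er 2))) ≠ 0 := fun k =>
    Int.cast_ne_zero.2 WZ_ne (by rw [← h1, k]; ring : (WZ.Δ : Qbar) = 0)
  simp only [map_mul, map_sub, map_ofNat, h] at h2
  refine (Int.units_eq_one_or _).resolve_right fun k => h0 ?_
  rw [k] at h2
  push_cast at h2
  linear_combination (1 / 2) * h2

theorem tad_root {g : Gam} (h : ∀ P : EE, 2 • P = 0 → g • P = P) {x : Qbar} (hx : cub x = 0) :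
    g x = x := (two_fix g (two_tp x hx)).1 (h _ (two_tp x hx))

theorem TB.fix_two (T : TB) {g : Gam} (h : mred 1 (T.ρ g) = 1) {P : EE} (hP : 2 • P = 0) :
    g • P = P := by
  obtain ⟨x, rfl⟩ := T.surj 1 P hP
  rw [T.smul, h, one_mulVec]

theorem TB.chi_one (T : TB) {g : Gam} (h : mred 1 (T.ρ g) = 1) : chi WZ.Δ g = 1 :=
  tad_chi fun i => tad_root (fun _ => T.fix_two h) (cub_er i)

theorem TB.mod2 (T : TB) {g : Gam} (h : ∀ x, cub x = 0 → g x = x) : mred 1 (T.ρ g) = 1 :=
  T.mred_eq_one fun P hP => (two_fix g hP).2 ((two_iff.1 hP).elim (fun k => by simp [k]) (h _))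

theorem tad_change (T : TB) {B D : M2} (h : IsUnit B.det) {g : Gam} (e : T.ρ g * B = B * D) :
    ∃ T' : TB, T'.ρ g = D := by
  obtain ⟨E, hE⟩ := T.toEmb.exists_change h
  obtain ⟨T', rfl⟩ := E.exists_rho
  refine ⟨T', mred_ext fun m => T'.mred_eq fun x => ?_⟩
  rw [hE, hE, T.smul, mulVec_mulVec, mulVec_mulVec, ← mred_mul, ← mred_mul, e]

theorem exists_conj (E : Emb) (hd : WZ.Δ < 0) : ∃ T : TB, T.ρ cc = !![0, 1; 1, 0] := by
  obtain ⟨T, -⟩ := E.exists_rho
  have h0 : mred 1 (T.ρ cc) ≠ 1 := fun k => by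
    have := T.chi_one k
    rw [chi_cc hd.ne, if_neg hd.not_gt] at this
    exact absurd this (by decide)
  have h1 : T.ρ cc * T.ρ cc = 1 := by rw [← map_mul, cc_mul_cc, map_one]
  have h2 := (T.det cc).trans cyc_cc
  obtain ⟨a, b, c, d, hC⟩ : ∃ a b c d, T.ρ cc = !![a, b; c, d] := ⟨_, _, _, _, eta_fin_two _⟩
  rw [hC] at h0 h1 h2
  have h3 := congrFun (congrFun h1 0) 0
  have h4 := congrFun (congrFun h1 1) 1
  simp only [mul_fin_two, of_apply, cons_val', cons_val_zero, cons_val_one, cons_val_fin_one,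
    one_apply_eq, det_fin_two_of] at h2 h3 h4
  obtain rfl : d = -a := by
    have : (d + a) ^ 2 = 0 := by linear_combination h3 + h4 + 2 * h2
    exact eq_neg_of_add_eq_zero_left (pow_eq_zero_iff two_ne_zero |>.1 this)
  by_cases hc : IsUnit c
  · refine tad_change T (B := !![1, a; 0, c]) (by simpa using hc) ?_
    rw [hC]
    ext i j
    fin_cases i <;> fin_cases j <;> simp <;> first | ring1 | linear_combination h3
  by_cases hb : IsUnit b
  · refine tad_change T (B := !![0, b; 1, -a]) (by simpa using hb) ?_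
    rw [hC]
    ext i j
    fin_cases i <;> fin_cases j <;> simp <;> first | ring1 | linear_combination h3
  rw [tm_unit] at hb hc
  have k1 := (tm_cases _).resolve_right hb
  have k2 := congrArg (PadicInt.toZModPow 1) h3
  rw [map_add, map_mul, map_mul, k1, zero_mul, add_zero, map_one] at k2
  have k3 : PadicInt.toZModPow 1 a = 1 := (tm_cases _).resolve_left fun k => by
    rw [k] at k2
    exact absurd k2 (by decide)
  refine absurd ?_ h0
  ext i j
  fin_cases i <;> fin_cases j <;> simp [mred_apply, k1, k3, (tm_cases _).resolve_right hc]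

end Pool.Agent.B6
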