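import Pool.Agent.Lib.MP_696deb_nt.B6.XTW
import Pool.Agent.Lib.MP_696deb_nt.B6.TAd

/-! Elements and primes of order three with prescribed quadratic symbols. -/

set_option autoImplicit false

open Finset Matrix NumberTheorySymbols

namespace Pool.Agent.B6

open Pool.Agent.Lib.MP_696deb_nt Pool.Agent.Lib.MP_696deb_nt.B2 Pool.Agent.Lib.MP_696deb_nt.B6

/-- The position of a matrix with respect to the subgroup of order three. -/
def Cos3 (A U : B6.M2) : Prop := Ord3 A ∨ Ord3 (A * U) ∨ A * !![0, 1; 1, 0] = 1 ∨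
  A * !![0, 1; 1, 0] * U = 1 ∨ A * !![0, 1; 1, 0] * U * U = 1

instance (A U : B6.M2) : Decidable (Cos3 A U) := inferInstanceAs (Decidable (_ ∨ _))

theorem cos3 : ∀ {U : B6.M2}, Ord3 U → ∀ A B : B6.M2, A * B = 1 → Cos3 A U := by decide +kernel

theorem jac_congr_right {x : ℤ} {a b : ℕ} (ha : Odd a) (hb : Odd b) (h : a ≡ b [MOD 4 * x.natAbs]) :
    J(x | a) = J(x | b) := by rw [jacobiSym.mod_right x ha, jacobiSym.mod_right x hb, h]

variable [Md] (T : Tate) {s g : Gam}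

theorem Tate.chi_one (h : T.r2 g = 1) : chi (-NN) g = 1 := by
  obtain ⟨t, t0, ht⟩ := WZ_disc
  have n0 : (-NN : ℤ) ≠ 0 := neg_ne_zero.2 (Int.natCast_ne_zero.2 NN_ne)
  have := tad_chi (g := g) fun i => tad_root (fun P hP => by
    obtain ⟨x, rfl⟩ := T.surj_i2 P hP
    rw [T.smul_i2, h, one_mulVec]) (cub_er i)
  rwa [ht, show -(NN * t ^ 2) = -NN * (t * t) by ring, chi_mul n0 (mul_ne_zero t0 t0),
    chi_mul t0 t0, Int.units_mul_self, mul_one] at this

/-- The only constraint for an element of order three is the character of the discriminant. -/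
theorem Tate.exists_o3_of (h : chi (-NN) g = 1) : ∃ s, T.O3 s ∧ ∀ x, chi x s = chi x g := by
  obtain ⟨p, hp, k⟩ := Nat.exists_prime_and_dvd NN_gt.ne'
  obtain ⟨w, rfl⟩ := exists_plc hp
  obtain ⟨s, hs⟩ := exists_gen (ne_two_of_dvd k)
  obtain ⟨t, h1, h2⟩ := T.big w k s hs
  obtain ⟨a1, a2, a3⟩ := (⟨k, k, hs, hs.smul t, h1, h2⟩ : T.Tv w (t • w) s _).ord2
  have h3 := ord3_mul a1 a2 a3
  rw [← map_mul] at h3
  have h4 : ∀ x, chi x (s * (t * s * t⁻¹)) = 1 := fun x => by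
    rw [map_mul, map_mul, map_mul, map_inv, mul_inv_cancel_comm, Int.units_mul_self]
  generalize s * (t * s * t⁻¹) = u at h3 h4
  have h5 : chi (-NN) (g * cc) ≠ 1 := by
    have := NN_pos
    rw [map_mul, h, chi_cc (by omega), if_neg (by omega)]
    decide
  rcases cos3 h3 _ _ (r_inv T.r2 g) with e | e | e | e | e
  · exact ⟨g, T.o3_iff.2 e, fun _ => rfl⟩
  · exact ⟨g * u, T.o3_iff.2 (map_mul T.r2 g u ▸ e), fun x => by rw [map_mul, h4, mul_one]⟩
  all_goals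
    simp only [← T.r2_cc, ← map_mul] at e
    exact absurd (by simpa only [map_mul _ _ u, h4, mul_one] using T.chi_one e) h5

omit [Md] in
theorem exists_chi {M a : ℕ} (hM : M ≠ 0) (hc : a.Coprime (2 * M)) :
    ∃ g : Gam, ∀ x : ℤ, x ∣ 2 * M → (chi x g : ℤ) = J(x | a) := by
  have c8 : a.Coprime (8 * M) := by
    have := (hc.coprime_mul_right_right.pow_right 2).mul_right hc
    rwa [← mul_assoc] at this
  obtain ⟨l, -, hl, e⟩ := Nat.forall_exists_prime_gt_and_modEq 0 (by omega) c8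
  obtain ⟨w, rfl⟩ := exists_plc hl
  obtain ⟨φ, hφ⟩ := exists_frob w
  have c : w.p.Coprime (8 * M) := by rwa [Nat.Coprime, e.gcd_eq]
  have o : ∀ b : ℕ, b.Coprime (8 * M) → Odd b := fun b h =>
    Nat.coprime_two_right.1 (h.coprime_dvd_right ⟨4 * M, by ring⟩)
  refine ⟨φ, fun x hx => (chi_frob (fun k => hl.coprime_iff_not_dvd.1 c ?_) hφ).trans
    (jac_congr_right (o _ c) (o _ c8) (e.of_dvd ?_))⟩
  · exact Int.natCast_dvd_natCast.1 ((k.trans (mul_dvd_mul_left 2 hx)).trans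
      ⟨2, by push_cast; ring⟩)
  · exact (Nat.mul_dvd_mul_left 4 (Int.natAbs_dvd_natAbs.2 hx)).trans
      (dvd_of_eq (by simp [Int.natAbs_mul, ← mul_assoc]))

theorem Tate.exists_o3 {M a : ℕ} (hM : M ≠ 0) (hN : NN ∣ M) (hc : a.Coprime (2 * M))
    (hj : J(-NN | a) = 1) : ∃ s, T.O3 s ∧ ∀ x : ℤ, x ∣ 2 * M → (chi x s : ℤ) = J(x | a) := by
  obtain ⟨g, hg⟩ := exists_chi hM hc
  obtain ⟨s, h1, h2⟩ := T.exists_o3_of (g := g) (Units.val_eq_one.1 ((hg _ (neg_dvd.2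
    ((Int.natCast_dvd_natCast.2 hN).mul_left 2))).trans hj))
  exact ⟨s, h1, fun x hx => h2 x ▸ hg x hx⟩

/-- Primes of order three with the symbols of a given element. -/
theorem Tate.o3_prime (hs : T.O3 s) (X : Finset ℤ) (B : ℕ) : ∃ l : ℕ, l.Prime ∧ B < l ∧
    ¬ l ∣ 2 * NN ∧ ¬ Rt l ∧ ∀ x ∈ X, x ≠ 0 → J(x | l) = chi x s := by
  let f := T.r2.prod (MonoidHom.pi fun x : X => chi (x : ℤ))
  have u2 : Op f.ker := by
    obtain ⟨W, w1, -, w3⟩ := T.sm_r2.comp₂ (Sm.pi fun x : X => sm_chi (x : ℤ)) Prod.mk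
    refine Subgroup.isOpen_mono (fun g hg => ?_) w1
    exact (w3 1 trivial g trivial (by simpa using hg)).symm.trans (map_one f)
  have h3 := T.o3_iff.1 hs
  obtain ⟨w, φ, a, k1, k2, k3, k4⟩ := cheb6 u2 f.normal_ker (s := s) (k := 1) (Prod.ext (by
    change T.r2 _ = 1
    rw [map_pow, show 6 ^ 1 = 3 * 2 from rfl, pow_mul, pow_three', h3.cube, one_pow])
    (funext fun x => by
      change chi _ _ = 1
      rw [map_pow, show 6 ^ 1 = 2 * 3 from rfl, pow_mul, Int.units_sq, one_pow]))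
    (range (B + 2 * NN + 1 + X.sup fun x => (2 * x).natAbs))
  rw [mem_range, not_lt] at k1
  have e := (MonoidHom.eq_iff f).2 k4
  have n0 := NN_pos
  have h1 : ¬ w.p ∣ 2 * NN := fun k => by have := Nat.le_of_dvd (by omega) k; omega
  refine ⟨w.p, w.prime, by omega, h1, (T.par w φ h1 k2).1 (T.o3_iff.2 ?_), fun x hx x0 => ?_⟩
  · rw [show T.r2 φ = T.r2 (s ^ a) from (congrArg Prod.fst e).symm, map_pow]
    exact h3.pow (Nat.prime_three.coprime_iff_not_dvd.1 (k3.coprime_dvd_right (by norm_num)).symm)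
  · have h2 := le_sup (f := fun x => (2 * x).natAbs) hx
    rw [← chi_frob (fun k => by
      have := Nat.le_of_dvd (by omega) (Int.natCast_dvd.1 k); omega) k2,
      show chi x φ = chi x (s ^ a) from (congrFun (congrArg Prod.snd e) ⟨x, hx⟩).symm, map_pow,
      Int.units_pow_eq_pow_mod_two, Nat.odd_iff.1 (Nat.coprime_two_right.1
        (k3.coprime_dvd_right (by norm_num))), pow_one]

/-- Primes of order three in a given class. -/
theorem Tate.exists_o3_prime (T : Tate) {M a : ℕ} (hM : M ≠ 0) (hN : NN ∣ M) (hc : a.Coprime (2 * M))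
    (hj : J(-NN | a) = 1) (B : ℕ) : ∃ l : ℕ, l.Prime ∧ B < l ∧ ¬ l ∣ 2 * NN ∧ ¬ Rt l ∧
      ∀ x : ℤ, x ∣ 2 * M → J(x | l) = J(x | a) := by
  obtain ⟨s, h1, h2⟩ := T.exists_o3 hM hN hc hj
  obtain ⟨l, a1, a2, a3, a4, a5⟩ := T.o3_prime h1 (2 * M : ℤ).divisors B
  have m0 : (2 * M : ℤ) ≠ 0 := by omega
  exact ⟨l, a1, a2, a3, a4, fun x hx => (a5 x (Int.mem_divisors.2 ⟨hx, m0⟩)
    (ne_zero_of_dvd_ne_zero m0 hx)).trans (h2 x hx)⟩

end Pool.Agent.B6
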