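import Pool.Agent.Lib.MP_696deb_nt.B6.MCM
import Pool.Agent.Lib.MP_696deb_nt.B6.MCO
import Pool.Agent.Lib.MP_696deb_nt.B6.FIa
import Pool.Agent.Lib.MP_696deb_nt.B6.KLa
import Pool.Agent.Lib.MP_696deb_nt.B6.MPT
import Pool.Agent.Lib.MP_696deb_nt.B6.SDc
import Pool.Agent.Lib.MP_696deb_nt.B2.QS
import Pool.Agent.Lib.MP_696deb_nt.B2.MCF
import Pool.Agent.Lib.MP_696deb_nt.B2.MCH

/-! The choice of the auxiliary field and the rank of the twist. -/

set_option autoImplicit false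

open scoped Classical
open Finset NumberTheorySymbols

namespace Pool.Agent.B6

open Pool.Agent.Lib.MP_696deb_nt Pool.Agent.Lib.MP_696deb_nt.B2 Pool.Agent.B4

theorem kl_rec {l a m : ℕ} (l4 : l % 4 = 1) (a4 : a % 4 = 1) (hm : Odd m)
    (h : J(m | l) = J(m | a)) : J(l | m) = J(a | m) := by
  rw [jacobiSym.quadratic_reciprocity_one_mod_four l4 hm,
    jacobiSym.quadratic_reciprocity_one_mod_four a4 hm, h]

theorem kl_eight {l : ℕ} (hl : Odd l) (h1 : J(-1 | l) = 1) (h2 : J(2 | l) = 1) : l % 8 = 1 := by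
  rw [jacobiSym.at_neg_one hl, ZMod.χ₄_nat_eq_if_mod_four] at h1
  rw [jacobiSym.at_two hl, ZMod.χ₈_nat_eq_if_mod_eight] at h2
  have := Nat.odd_iff.1 hl
  split_ifs at h1 h2 <;> omega

variable [Md]

/-- The auxiliary prime. -/
theorem exists_aux (T : Tate) {q : ℕ} (hq : q.Prime) (q8 : q % 8 = 3) (qN : q.Coprime NN)
    {f d₁ : ℤ} (f4 : f % 4 = 1) (fN : IsCoprime f NN) (fq : IsCoprime f q) (hd : d₁ ≠ 0)
    (B : ℕ) : ∃ l : ℕ, l.Prime ∧ B < l ∧ ¬ Rt l ∧ l % 8 = 1 ∧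
      (∀ p : ℕ, p ∣ NN → J(l | p) = 1) ∧ J(l | q) = -1 ∧
      (∀ r : ℕ, (r : ℤ) ∣ f → J(l | r) = J(-q | r)) ∧ Cork (d₁ * l) := by
  obtain ⟨F⟩ := m_cft
  have q2 : Odd q := Nat.odd_iff.2 (by omega)
  have f2 : Odd f.natAbs := Nat.odd_iff.2 (by omega)
  have c8 : ∀ {m : ℕ}, Odd m → IsCoprime (8 : ℤ) m := fun h => by
    exact_mod_cast Nat.isCoprime_iff_coprime.2 ((Nat.coprime_two_left.2 h).pow_left 3)
  have ab : ∀ {x : ℤ}, IsCoprime f x → IsCoprime x (f.natAbs : ℤ) := fun h => by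
    rw [Int.natCast_natAbs]
    exact h.symm.abs_right
  have c1 : IsCoprime (8 * NN : ℤ) q := (c8 q2).mul_left (Nat.isCoprime_iff_coprime.2 qN.symm)
  obtain ⟨a, a1, a2, a3⟩ := kl_a c1 (((c8 f2).mul_left (ab fN)).mul_left (ab fq)) NN_ne hq.ne_zero
    f2.pos.ne'
  have a8 : a % 8 = 1 := by
    have := (dvd_mul_right _ _).trans a1
    omega
  have aN : (NN : ℤ) ∣ a - 1 := (dvd_mul_left _ _).trans a1
  have oM : Odd (NN * q * f.natAbs) := (NN_odd.mul q2).mul f2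
  have cop : a.Coprime (2 * (NN * q * f.natAbs)) := by
    refine (Nat.coprime_two_right.2 (Nat.odd_iff.2 (by omega))).mul_right
      ((Nat.Coprime.mul_right ?_ ?_).mul_right ?_) <;> rw [← Nat.isCoprime_iff_coprime]
    · obtain ⟨t, ht⟩ := aN
      exact ⟨1, -t, by linear_combination ht⟩
    · obtain ⟨t, ht⟩ := a2
      exact ⟨-1, t, by linear_combination -ht⟩
    · obtain ⟨t, ht⟩ := a3
      rw [sub_eq_iff_eq_add.1 ht]
      exact (ab fq).neg_left.mul_add_left_left t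
  obtain ⟨s, s1, s2⟩ := T.exists_o3 oM.pos.ne' ((dvd_mul_right _ _).mul_right _) cop (by
    rw [jacobiSym.neg _ (Nat.odd_iff.2 (by omega)), ZMod.χ₄_nat_one_mod_four (by omega), one_mul,
      ← jacobiSym.quadratic_reciprocity_one_mod_four (by omega) NN_odd, kl_jac aN,
      jacobiSym.one_left])
  have m1 : J(-1 | a) = 1 := by
    rw [jacobiSym.at_neg_one (Nat.odd_iff.2 (by omega)), ZMod.χ₄_nat_one_mod_four (by omega)]
  have m2 : J(2 | a) = 1 := by
    rw [jacobiSym.at_two (Nat.odd_iff.2 (by omega)), ZMod.χ₈_nat_eq_if_mod_eight]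
    split_ifs <;> omega
  obtain ⟨l, l1, l2, l3, l4, l5⟩ := partner F T hd
    (insert (-1) ((2 * (NN * q * f.natAbs)).divisors.image (↑))) (fun x hx => by
      rcases mem_insert.1 hx with rfl | hx
      · omega
      · obtain ⟨y, hy, rfl⟩ := mem_image.1 hx
        exact_mod_cast (Nat.pos_of_mem_divisors hy).ne') (B + 2) s1
  have k : ∀ m : ℕ, m ∣ 2 * (NN * q * f.natAbs) → J(m | l) = J(m | a) := fun m hm =>
    (l4 _ (mem_insert_of_mem (mem_image_of_mem _ (Nat.mem_divisors.2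
      ⟨hm, mul_ne_zero two_ne_zero oM.pos.ne'⟩)))).trans (s2 _ (by exact_mod_cast hm))
  have l8 := kl_eight (l1.odd_of_ne_two (by omega))
    ((l4 _ (mem_insert_self ..)).trans ((s2 _ (neg_dvd.2 (one_dvd _))).trans m1))
    ((k 2 (dvd_mul_right _ _)).trans m2)
  have k' : ∀ m : ℕ, m ∣ NN * q * f.natAbs → J(l | m) = J(a | m) := fun m hm =>
    kl_rec (by omega) (by omega) (oM.of_dvd_nat hm) (k m (hm.mul_left 2))
  refine ⟨l, l1, by omega, l3, l8, fun p hp => ?_, ?_, fun r hr => ?_, l5⟩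
  · rw [k' p ((hp.mul_right _).mul_right _), kl_jac ((Int.natCast_dvd_natCast.2 hp).trans aN),
      jacobiSym.one_left]
  · rw [k' q ((dvd_mul_left _ _).mul_right _), kl_jac a2, jacobiSym.at_neg_one q2,
      ZMod.χ₄_nat_three_mod_four (by omega)]
  · rw [k' r ((Int.natCast_dvd.1 hr).mul_left _),
      kl_jac ((Int.natCast_dvd_natCast.2 (Int.natCast_dvd.1 hr)).trans a3)]

theorem ES.gk {n : ℕ} {S : HS n} {f e : ℤ} (Y : ES S f) (hf : f ≠ 0) (he : e ∣ n) (h4 : e % 4 = 1)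
    {g : Gam} (hg : g ∈ GK n) : tw (f * e) g (Y.ychi e) = Y.ychi e := by
  rw [tw, ES.ychi, smul_sum, smul_sum, ← Equiv.sum_comp (Equiv.mulLeft (S.ψ 1 g))
    fun a => (S.gen e a : ℤ) • Y.y 1 a]
  refine sum_congr rfl fun a _ => ?_
  rw [Equiv.coe_mulLeft, ← Y.gal 1 (adm_one n) g hg, tw, map_mul, S.gen_ψ e he h4 g hg,
    chi_mul hf (by omega), smul_comm g, smul_smul, smul_smul, Units.val_mul, Units.val_mul]
  congr 1
  ring

theorem kl_sign {d : ℤ} (d4 : d % 4 = 1) : J(-NN | d.natAbs) = chi d cc * J(NN | d.natAbs) := by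
  rw [jacobiSym.neg _ (Nat.odd_iff.2 (by omega)), chi_cc (by omega)]
  split_ifs
  · rw [ZMod.χ₄_nat_one_mod_four (by omega), Units.val_one]
  · rw [ZMod.χ₄_nat_three_mod_four (by omega), Units.val_neg, Units.val_one]

/-- The rank of the twist. -/
theorem kl_rank {P : GE.Par Wu NN} (ht : IsOfFinAddOrder (P.per.unif P.t0)) {n : ℕ} (n0 : 0 < n)
    {d d' f r s : ℤ} (f0 : f ≠ 0) (hm : d * d' = -(n * f ^ 2)) (hd : Squarefree d) (d4 : d % 4 = 1)
    (dN : IsCoprime d NN) {T : Finset Fm} (hT : HRp NN (-(n * f ^ 2)) r T) {y : EE}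
    (e : pmap jC y = s • ysum P.φ d.natAbs T) (h1 : ∀ g ∈ GK n, tw d g y = y) (h : Cork d)
    (h' : Cork d') (hy : ¬ IsOfFinAddOrder y) (hz : ¬ (Nz d ∧ Nz d')) :
    Module.finrank ℤ (Et d).toAffine.Point = if J(-NN | d.natAbs) = 1 then 0 else 1 := by
  have d0 : d ≠ 0 := by omega
  have D0 : -(n * f ^ 2) < 0 := neg_lt_zero.2 (by positivity)
  have d0' : d' ≠ 0 := by
    rintro rfl
    omega
  have cN : d.natAbs.Coprime NN := Int.isCoprime_iff_gcd_eq_one.1 dN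
  have nz := fun (e' : ℤ) => fi_nz (e := e') n0 hT D0 (Int.squarefree_natAbs.2 hd)
    (Nat.odd_iff.2 (by omega)) (Int.natAbs_dvd.2 ⟨d', hm.symm⟩) cN ht
    (show IsOfFinAddOrder (pmap jC y - s • _) from sub_eq_zero.2 e ▸ IsOfFinAddOrder.zero)
  have ch : ∀ g, chi d g * chi d' g = chi (-n) g := fun g => by
    rw [← chi_mul d0 d0', hm, ← neg_mul, chi_mul (by omega) (pow_ne_zero 2 f0), chi_sq, mul_one]
  split_ifs with hJ
  · refine fi_finrank d0 h fun k => hz ⟨k, (m_nz d0' h').2 (nz d' (fun g hg => ?_) ?_ hy)⟩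
    · have := (ch g).trans (B4c_mem.1 hg)
      rw [tw, ← inv_eq_of_mul_eq_one_right this, Int.units_inv_eq_self]
      exact h1 g hg
    · have := (ch cc).trans (B4c_notMem.1 (cc_notMem n0))
      rw [eq_inv_mul_iff_mul_eq.2 this, Int.units_inv_eq_self, mul_neg, mul_one, Units.val_neg,
        neg_mul, ← kl_sign d4, hJ]
  · obtain ⟨Q, q1, q2⟩ := nz d h1 (kl_sign d4 ▸ (jacobiSym.eq_one_or_neg_one (by
      rw [Int.neg_gcd, Int.gcd_natCast_natCast]
      exact cN.symm)).resolve_left hJ) hy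
    exact fi_finrank_one d0 h q1 q2

/-- A nontorsion Heegner point for every twist of corank at most one. -/
theorem k_core (T : Tate) (P : GE.Par Wu NN) (G : GE.Geo P)
    (ha : ∀ l, l.Prime → ¬ l ∣ 2 * NN → al l = P.a l) (hM : G.M ∣ MM)
    (ht : IsOfFinAddOrder (P.per.unif P.t0)) {q : ℕ} (hq : q.Prime) (q8 : q % 8 = 3) (q3 : 3 < q)
    (qN : q.Coprime NN) (hr : ∃ r : ℤ, 4 * (NN : ℤ) ∣ r ^ 2 + q)
    (mv : ∃ B : ℕ, ∀ l > B, l.Prime → l % 4 = 1 → ¬ l ∣ 2 * NN → J(-q | l) = -1 → ¬ Rt l →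
      (∃ r : ℤ, 4 * (NN : ℤ) ∣ r ^ 2 + (q * l : ℕ)) → Prim P.φ (q * l))
    {d : ℤ} (hd : Squarefree d) (d4 : d % 4 = 1) (dN : IsCoprime d NN) (h : Cork d) :
    (∃ x : ℕ, Squarefree x ∧ x.Coprime NN ∧ (d.natAbs * x) % 4 = 3 ∧
      (∀ k : ℕ, d.natAbs * x ≠ 3 * k ^ 2) ∧ ∃ (ρ : ℤ) (U : Finset Fm),
        4 * (NN : ℤ) ∣ ρ ^ 2 + (d.natAbs * x : ℕ) ∧ HRp NN (-(d.natAbs * x : ℕ)) ρ U ∧
          ¬ IsOfFinAddOrder (ysum P.φ d.natAbs U)) ∧
    Module.Finite ℤ (Et d).toAffine.Point ∧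
    Module.finrank ℤ (Et d).toAffine.Point = if J(-NN | d.natAbs) = 1 then 0 else 1 := by
  obtain ⟨F⟩ := m_cft
  obtain ⟨B, mv⟩ := mv
  obtain ⟨r₀, hr⟩ := hr
  obtain ⟨f, e, e₁, rfl, ee, e4, e14, f4, fq⟩ := kl_split hq (by omega) hd d4
  have f0 : f ≠ 0 := by omega
  have hq' := Nat.prime_iff_prime_int.1 hq
  have e1q : e₁ ∣ q := ⟨-e, by linear_combination ee⟩
  have sf : Squarefree f := hd.squarefree_of_dvd (dvd_mul_right _ _)
  have fN : IsCoprime f NN := dN.of_mul_left_left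
  have s1 : Squarefree (f * e₁) := squarefree_mul_iff.2
    ⟨(fq.of_isCoprime_of_dvd_right e1q).isRelPrime, sf, hq'.squarefree.squarefree_of_dvd e1q⟩
  obtain ⟨l, l1, l2, l3, l8, lN, lq, lf, h'⟩ := exists_aux T hq q8 qN f4 fN fq s1.ne_zero
    (B + 2 * NN + q + f.natAbs)
  have hl' := Nat.prime_iff_prime_int.1 l1
  have nd : ∀ {m : ℕ}, m ≠ 0 → m < l → ¬ l ∣ m := fun h0 h1 k =>
    absurd (Nat.le_of_dvd h0.bot_lt k) (by omega)
  have N0 := NN_pos
  have lN' : l.Coprime NN := l1.coprime_iff_not_dvd.2 (nd NN_ne (by omega))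
  have n8 : q * l % 8 = 3 := by rw [Nat.mul_mod, q8, l8]
  obtain ⟨β, hβ⟩ := kl_root NN_sqf NN_odd (x := l) (by omega) fun p _ k => lN p k
  have root : 4 * (NN : ℤ) ∣ (r₀ * β) ^ 2 + (q * l : ℕ) := by
    rw [show (r₀ * β) ^ 2 + (q * l : ℕ) = (r₀ ^ 2 + q) * β ^ 2 - q * (β ^ 2 - l) by push_cast; ring]
    exact dvd_sub (hr.mul_right _) (hβ.mul_left q)
  have hn : Nok (q * l) := ⟨⟨(Nat.squarefree_mul ((Nat.coprime_primes hq l1).2 (by omega))).2
    ⟨hq.squarefree, l1.squarefree⟩, by omega, qN.mul_left lN'⟩, n8, by nlinarith [l1.pos],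
    ⟨_, root⟩, kl_condB hq l1 lq⟩
  have hf : Fok (q * l) f := ⟨sf, f4, fun r r1 r2 => ⟨fun k => r1.ne_one (by
      have := (fN.of_isCoprime_of_dvd_left r2).isUnit_of_dvd' dvd_rfl (Int.natCast_dvd_natCast.2 k)
      exact_mod_cast Int.isUnit_iff_natAbs_eq.1 this), by
    rw [Nat.cast_mul, ← neg_mul, jacobiSym.mul_left, lf r r2, ← sq]
    exact jacobiSym.sq_one (Int.isCoprime_iff_gcd_eq_one.1
      (fq.of_isCoprime_of_dvd_left r2).symm.neg_left)⟩⟩
  obtain ⟨S, ⟨T₁, t1, t2⟩, hY⟩ := m_cm F P G ha hM ht hn root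
  obtain ⟨Y, hY, T₂, u1, u2⟩ := hY f hf
  have ho : Od (S.ychi 1) := by
    obtain ⟨s, hs, k⟩ := t2 1 (one_dvd _) rfl
    have := mv l (by omega) l1 (by omega) (nd (by omega) (by omega)) (by
      rw [jacobiSym.neg _ (Nat.odd_iff.2 (by omega)), ZMod.χ₄_nat_one_mod_four (by omega), one_mul,
        ← jacobiSym.quadratic_reciprocity_one_mod_four (by omega) (Nat.odd_iff.2 (by omega)), lq])
      l3 ⟨_, root⟩ _ T₁ (s • S.ychi 1) root t1 (by
        rw [map_zsmul, k, smul_smul, show s * s = 1 by rcases hs with rfl | rfl <;> rfl, one_smul]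
        rfl)
    exact fun R hR k => this (s • R) (zsmul_mem hR s) (by rw [smul_comm, k])
  have ee' : e * (e₁ * l) = -((q * l : ℕ) : ℤ) := by
    push_cast
    linear_combination l * ee
  have en : e ∣ ((q * l : ℕ) : ℤ) := ⟨-(e₁ * l), by linear_combination ee'⟩
  rw [mul_assoc] at h'
  obtain ⟨hy, hz⟩ := m_core F m_su m_cheb T quad hn hf Y hY ho ee' e4 h h'
  obtain ⟨s, -, k⟩ := u2 e en e4
  have hm : f * e * (f * (e₁ * l)) = -(((q * l : ℕ) : ℤ) * f ^ 2) := by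
    linear_combination f ^ 2 * ee'
  have hx : (f * e).natAbs * (f * (e₁ * l)).natAbs = q * l * f.natAbs ^ 2 := by
    rw [← Int.natAbs_mul, hm, Int.natAbs_neg, Int.natAbs_mul, Int.natAbs_pow, Int.natAbs_natCast]
  have hx' : (((f * e).natAbs * (f * (e₁ * l)).natAbs : ℕ) : ℤ) = ((q * l : ℕ) : ℤ) * f ^ 2 := by
    rw [hx, Nat.cast_mul (q * l), Nat.cast_pow, Int.natAbs_sq]
  refine ⟨⟨(f * (e₁ * l)).natAbs, Int.squarefree_natAbs.2 ?_, ?_, ?_, fun k e => ?_, _, T₂, ?_,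
    hx' ▸ u1, fun t => hy (fi_jC.1 (k ▸ t.zsmul))⟩, (m_rank hd.ne_zero h).1,
    kl_rank ht hn.pos f0 hm hd d4 dN u1 k (fun g hg => Y.gk f0 en e4 hg) h h' hy hz⟩
  · rw [← mul_assoc]
    refine squarefree_mul_iff.2 ⟨(hl'.coprime_iff_not_dvd.2 fun k => ?_).symm.isRelPrime, s1,
      hl'.squarefree⟩
    rcases hl'.dvd_or_dvd k with k | k
    · exact nd (by omega) (by omega) (Int.natCast_dvd.1 k)
    · exact nd hq.ne_zero (by omega) (Int.natCast_dvd_natCast.1 (k.trans e1q))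
  · exact Int.isCoprime_iff_gcd_eq_one.1 (fN.mul_left
      (((Nat.isCoprime_iff_coprime.2 qN).of_isCoprime_of_dvd_left e1q).mul_left
        (Nat.isCoprime_iff_coprime.2 lN')))
  · have : f.natAbs ^ 2 % 4 = 1 := by
      rcases (show f.natAbs % 4 = 1 ∨ f.natAbs % 4 = 3 by omega) with k | k <;>
        rw [Nat.pow_mod, k]
    rw [hx, Nat.mul_mod, this, show q * l % 4 = 3 by omega]
  · rw [hx] at e
    have := congrArg (fun x => x.factorization l) e
    have k0 : k ≠ 0 := by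
      rintro rfl
      have : 0 < q * l * f.natAbs ^ 2 := by have := hn.pos; positivity
      omega
    simp only [Nat.factorization_mul hn.pos.ne' (pow_ne_zero 2 (Int.natAbs_ne_zero.2 f0)),
      Nat.factorization_mul hq.ne_zero l1.ne_zero, Nat.factorization_mul three_ne_zero
        (pow_ne_zero 2 k0), Nat.factorization_pow, Finsupp.add_apply, Finsupp.smul_apply,
      l1.factorization_self, Nat.factorization_eq_zero_of_lt (show q < l by omega),
      Nat.factorization_eq_zero_of_lt (show 3 < l by omega), smul_eq_mul] at this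
    omega
  · rw [hx', mul_pow, Int.natAbs_sq, ← add_mul]
    exact root.mul_right _

end Pool.Agent.B6
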