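import Pool.Agent.Lib.MP_696deb_nt.B6.TA0
import Pool.Agent.Lib.MP_696deb_nt.B2.TAa

/-! The period lattice gives a basis of the Tate module. -/

set_option autoImplicit false

open scoped NNReal Classical Real PeriodPair
open Matrix NumberTheorySymbols Complex Pool.Agent.Shared.Weier

namespace Pool.Agent.B6

open Pool.Agent.Lib.MP_696deb_nt (Pt pmap xco yco xco_some yco_some xco_pmap yco_pmap xco_neg pmap_injective pmap_pmap)
open Pool.Agent.Lib.MP_696deb_nt.B2

variable [Cw]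

open Pool.Agent.Lib.MP_696deb_nt (dup2 two_nsmul_some)

theorem exists_per (c4 : WZ.c₄ ≠ 0) (c6 : WZ.c₆ ≠ 0) :
    ∃ L : PeriodPair, IsPer L (Wu.baseChange ℂ) := by
  have h4 : (Wu.baseChange ℂ).c₄ ≠ 0 := by rw [Wu_c₄]; exact_mod_cast c4
  have h6 : (Wu.baseChange ℂ).c₆ ≠ 0 := by rw [Wu_c₆]; exact_mod_cast c6
  obtain ⟨L, h2, h3⟩ := Lib.MP_696deb_nt.Unif.exists_periodPair
    (g₂ := (Wu.baseChange ℂ).c₄ / 12) (g₃ := (Wu.baseChange ℂ).c₆ / 216)
    (div_ne_zero h4 (by norm_num)) (div_ne_zero h6 (by norm_num)) fun e =>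
      (Wu.baseChange ℂ).isUnit_Δ.ne_zero (by
        linear_combination (Wu.baseChange ℂ).c_relation / 1728 + e)
  exact ⟨L, by rw [h2]; ring, by rw [h3]; ring⟩

theorem cub_alg {x : ℂ} (h : cub x = 0) : IsAlgebraic ℚ x := by
  open Polynomial in
  refine ⟨C 4 * X ^ 3 + C (WZ.b₂ : ℚ) * X ^ 2 + C (2 * WZ.b₄ : ℚ) * X + C (WZ.b₆ : ℚ),
    fun e => ?_, by simpa [cub, map_ofNat] using h⟩
  have := congrArg (coeff · 3) e
  simp only [coeff_add, coeff_C_mul, coeff_X_pow, coeff_X, coeff_C, coeff_zero] at this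
  norm_num at this

variable [hp : Fact (∃ L : PeriodPair, IsPer L (Wu.baseChange ℂ))]

/-- A period lattice. -/
noncomputable def Lu : PeriodPair := hp.out.choose

theorem isPerU : IsPer Lu (Wu.baseChange ℂ) := hp.out.choose_spec

/-- The uniformization. -/
noncomputable def unU : ℂ →+ Pt Wu ℂ := isPerU.unif

theorem unU_eq_iff {z w : ℂ} : unU z = unU w ↔ z - w ∈ Lu.lattice := isPerU.unif_eq_iff

theorem unU_eq_zero_iff {z : ℂ} : unU z = 0 ↔ z ∈ Lu.lattice := isPerU.unif_eq_zero_iff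

theorem unU_surjective : Function.Surjective unU := isPerU.unif_surjective

omit hp in
theorem taa_alg (m : ℕ) {R : Pt Wu ℂ} (h : 2 ^ m • R = 0) : ∃ P : EE, pmap jC P = R := by
  induction m generalizing R with
  | zero => exact ⟨0, (map_zero _).trans ((one_smul ℕ R).symm.trans h).symm⟩
  | succ m ih =>
    obtain ⟨P, hP⟩ := ih (R := 2 • R) (by rw [← mul_smul, ← pow_succ, h])
    obtain ⟨Q, rfl⟩ := exists_half P
    have e : 2 • (R - pmap jC Q) = 0 := by rw [smul_sub, ← map_nsmul, hP, sub_self]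
    suffices ∃ P : EE, pmap jC P = R - pmap jC Q by
      obtain ⟨P, hP⟩ := this
      exact ⟨P + Q, by rw [map_add, hP, sub_add_cancel]⟩
    generalize R - pmap jC Q = R at e
    rcases R with _ | ⟨x, y, hR⟩
    · exact ⟨0, map_zero _⟩
    refine exists_pt_of_alg (cub_alg ?_)
    by_contra k
    obtain ⟨_, _, e'⟩ := two_nsmul_some hR fun e => k (by
      rw [dup2, Wu_b₂, Wu_b₄, Wu_b₆] at e
      exact e)
    exact WeierstrassCurve.Affine.Point.some_ne_zero _ (e'.symm.trans e)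

/-- The sigma function. -/
noncomputable abbrev taaS : ℂ → ℂ := Shared.Weier.sig Lu

/-- A lattice vector. -/
noncomputable def taaV (a b : ℤ) : ℂ := a * Lu.ω₁ + b * Lu.ω₂

theorem taa_mem (a b : ℤ) : taaV a b ∈ Lu.lattice := PeriodPair.mem_lattice.2 ⟨a, b, rfl⟩

theorem taa_nsmul (m : ℕ) (u : ℂ) : 2 ^ m • unU u = unU (2 ^ m * u) := by
  rw [← map_nsmul, nsmul_eq_mul, Nat.cast_pow, Nat.cast_ofNat]

theorem taa_iff {m : ℕ} {a b c d : ℤ} : unU (taaV a b / 2 ^ m) = unU (taaV c d / 2 ^ m) ↔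
    (a : ZMod (2 ^ m)) = c ∧ (b : ZMod (2 ^ m)) = d := by
  rw [unU_eq_iff, PeriodPair.mem_lattice, eq_comm, ZMod.intCast_eq_intCast_iff_dvd_sub,
    eq_comm (a := (b : ZMod (2 ^ m))), ZMod.intCast_eq_intCast_iff_dvd_sub]
  have := taa_ne m
  constructor
  · rintro ⟨s, t, e⟩
    obtain ⟨h1, h2⟩ := LinearIndependent.pair_iff.1 Lu.indep (a - c - 2 ^ m * s)
      (b - d - 2 ^ m * t) (by
        simp only [real_smul, taaV] at e ⊢
        field_simp at e
        push_cast
        linear_combination -e)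
    exact ⟨⟨s, by exact_mod_cast sub_eq_zero.1 h1⟩, t, by exact_mod_cast sub_eq_zero.1 h2⟩
  · rintro ⟨⟨s, hs⟩, t, ht⟩
    refine ⟨s, t, ?_⟩
    rw [eq_add_of_sub_eq hs, eq_add_of_sub_eq ht, taaV, taaV]
    push_cast
    field_simp
    ring

theorem taa_ex (m : ℕ) (x : Fin 2 → ZMod (2 ^ m)) : ∃ P : EE, ∀ a b : ℤ, (a : ZMod (2 ^ m)) = x 0 →
    (b : ZMod (2 ^ m)) = x 1 → pmap jC P = unU (taaV a b / 2 ^ m) := by
  obtain ⟨P, hP⟩ := taa_alg m (R := unU (taaV (x 0).val (x 1).val / 2 ^ m)) (by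
    rw [taa_nsmul, mul_div_cancel₀ _ (taa_ne m), unU_eq_zero_iff]
    exact taa_mem _ _)
  exact ⟨P, fun a b ha hb => hP.trans (taa_iff.2 ⟨by simp [ha], by simp [hb]⟩)⟩

/-- The torsion points. -/
noncomputable def taaE (m : ℕ) : (Fin 2 → ZMod (2 ^ m)) →+ EE :=
  AddMonoidHom.mk' (fun x => (taa_ex m x).choose) fun x y => pmap_injective jC (by
    rw [map_add, (taa_ex m x).choose_spec _ _ (taa_int _) (taa_int _),
      (taa_ex m y).choose_spec _ _ (taa_int _) (taa_int _),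
      (taa_ex m (x + y)).choose_spec ((x 0).val + (y 0).val) ((x 1).val + (y 1).val) (by simp)
        (by simp), ← map_add, taaV, taaV, taaV]
    push_cast
    ring_nf)

theorem taa_spec {m : ℕ} {x : Fin 2 → ZMod (2 ^ m)} {a b : ℤ} (ha : (a : ZMod (2 ^ m)) = x 0)
    (hb : (b : ZMod (2 ^ m)) = x 1) : pmap jC (taaE m x) = unU (taaV a b / 2 ^ m) :=
  (taa_ex m x).choose_spec a b ha hb

variable {A B : EE} {u v : ℂ}

theorem taa_sig (h : pmap jC A = unU u) (h0 : A ≠ 0) : u ∉ Lu.lattice := fun k =>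
  h0 (pmap_injective jC (by rw [h, unU_eq_zero_iff.2 k, map_zero]))

theorem taa_x (h : pmap jC A = unU u) (h0 : A ≠ 0) : jC (xco A) = 
    ℘[Lu] u + -WZ.b₂ / 12 := by
  rw [← xco_pmap, h, unU, isPerU.unif_of_notMem (taa_sig h h0), xco_some, ux, Wu_b₂]
  ring

theorem taa_add (h : pmap jC A = unU u) (k : pmap jC B = unU v) :
    pmap jC (A + B) = unU (u + v) := by rw [map_add, map_add, h, k]

theorem taa_pow (h : pmap jC A = unU u) (m : ℕ) : pmap jC (2 ^ m • A) = unU (2 ^ m * u) := by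
  rw [map_nsmul, h, taa_nsmul]

theorem taa_two (h : pmap jC A = unU u) : pmap jC (2 • A) = unU (2 * u) := by
  simpa using taa_pow h 1

theorem taa_ps2 (h : pmap jC A = unU u) (k : pmap jC B = unU v) (h1 : A ≠ 0) (h2 : B ≠ 0)
    (h3 : A + B ≠ 0) (h4 : A + 2 • B ≠ 0) : jC (ps2 A B) =
      taaS (2 * u + v) * taaS v ^ 3 / (taaS (u + 2 * v) * taaS u ^ 3) := by
  have a1 := taa_sig h h1
  have a2 := taa_sig k h2
  have a3 := taa_sig (taa_add h k) h3
  have := sig_ne (taa_sig (taa_add h (taa_two k)) h4)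
  have := sig_ne a1
  have := sig_ne a2
  have := sig_ne a3
  rw [ps2, map_div₀, map_sub, map_sub, taa_x h h1, taa_x k h2, taa_x (taa_add h k) h3,
    add_sub_add_right_eq_sub, add_sub_add_right_eq_sub, wp_sub a3 a1, wp_sub a3 a2,
    show u + v + u = 2 * u + v by ring, show u + v + v = u + 2 * v by ring, add_sub_cancel_left,
    add_sub_cancel_right]
  field_simp

/-- The factor that depends on one variable. -/
noncomputable def taaF (m : ℕ) (u : ℂ) : ℂ := ∏ i ∈ Finset.range m, taaS (2 ^ i * u) ^ 3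

theorem taa_psi (m : ℕ) (h : pmap jC A = unU u) (k : pmap jC B = unU v) (hw : Gw m A B) :
    jC (wpsi m A B) =
      taaS (2 ^ m * u + v) / taaS (u + 2 ^ m * v) * taaF m v * (taaF m u)⁻¹ := by
  induction m generalizing A u with
  | zero =>
    have := sig_ne (taa_sig (taa_add h k) (by simpa using hw.2.2 0 0 le_rfl le_rfl))
    simp [wpsi, taaF, this]
  | succ m ih =>
    obtain ⟨w0, w1, w2, w3, w4, w5⟩ := hw.succ
    have := sig_ne (taa_sig (taa_add (taa_two h) (taa_pow k m)) w4)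
    rw [wpsi, map_mul, ih (taa_two h) w0, taa_ps2 h (taa_pow k m) w1 w2 w3 w5,
      show taaF (m + 1) v = taaF m v * taaS (2 ^ m * v) ^ 3 from Finset.prod_range_succ _ _,
      show taaF (m + 1) u = taaF m (2 * u) * taaS u ^ 3 by
        simp only [taaF, Finset.prod_range_succ', pow_succ (2 : ℂ), mul_assoc, pow_zero,
          one_mul],
      mul_inv, ← mul_assoc (2 ^ m), ← mul_assoc 2, ← pow_succ, ← pow_succ']
    generalize (taaF m (2 * u))⁻¹ = c
    simp only [div_eq_mul_inv, mul_inv]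
    linear_combination (taaS (2 ^ (m + 1) * u + v) * taaF m v * c * taaS (2 ^ m * v) ^ 3 *
      (taaS (u + 2 ^ (m + 1) * v))⁻¹ * (taaS u ^ 3)⁻¹) * mul_inv_cancel₀ this

theorem taa_root (m : ℕ) : ∃ k : ℕ, k.Coprime (2 ^ m) ∧
    jC (zeta m) ^ k = cexp (leg Lu / 2 ^ m) := by
  have h1 : IsPrimitiveRoot (jC (zeta m)) (2 ^ m) := (zeta_prim m).map_of_injective jC.injective
  have h2 := isPrimitiveRoot_exp (2 ^ m) (by positivity)
  have h3 : IsPrimitiveRoot (cexp (leg Lu / 2 ^ m)) (2 ^ m) := by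
    rcases legendre (L := Lu) with e | e <;> rw [e]
    · simpa using h2
    · simpa [neg_div, exp_neg] using h2.inv
  obtain ⟨k, -, e⟩ := h1.eq_pow_of_pow_eq_one h3.pow_eq_one
  exact ⟨k, (h1.pow_iff_coprime (by positivity) k).1 (e ▸ h3), e⟩

theorem taa_weil (m : ℕ) : ∃ u : (ZMod (2 ^ m))ˣ, ∀ A B x y, Gv m A B →
    wpsi m (A + taaE m x) (B + taaE m y) * wpsi m A B =
      zeta m ^ (u * det2 x y).val * (wpsi m A (B + taaE m y) * wpsi m (A + taaE m x) B) := by
  obtain ⟨k, k1, k2⟩ := taa_root m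
  refine ⟨ZMod.unitOfCoprime k k1, fun A B x y h => jC.injective ?_⟩
  obtain ⟨u, hu⟩ := unU_surjective (pmap jC A)
  obtain ⟨v, hv⟩ := unU_surjective (pmap jC B)
  obtain ⟨a, ha⟩ := ZMod.intCast_surjective (x 0)
  obtain ⟨b, hb⟩ := ZMod.intCast_surjective (x 1)
  obtain ⟨c, hc⟩ := ZMod.intCast_surjective (y 0)
  obtain ⟨d, hd⟩ := ZMod.intCast_surjective (y 1)
  have n0 := taa_ne m
  have t : ∀ x, 2 ^ m • taaE m x = 0 := fun x => by
    rw [← map_nsmul, show 2 ^ m • x = 0 from funext fun i => by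
      rw [Pi.smul_apply, nsmul_eq_mul, ZMod.natCast_self, zero_mul, Pi.zero_apply], map_zero]
  have hu' := taa_add hu.symm (taa_spec ha hb)
  have hv' := taa_add hv.symm (taa_spec hc hd)
  have g2 : Gw m (A + taaE m x) B := by simpa using h _ 0 (t x) (smul_zero _)
  have g3 : Gw m A (B + taaE m y) := by simpa using h 0 _ (smul_zero _) (t y)
  have s1 := sig_ne (taa_sig (taa_add hu.symm (taa_pow hv.symm m))
    (by simpa using h.gw.2.2 0 m (by omega) le_rfl))
  have s2 := sig_ne (taa_sig (taa_add hu' (taa_pow hv.symm m))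
    (by simpa using g2.2.2 0 m (by omega) le_rfl))
  have z : jC (zeta m ^ (ZMod.unitOfCoprime k k1 * det2 x y).val) =
      cexp (Shared.Weier.eta Lu (taaV a b) * (taaV c d / 2 ^ m) - Shared.Weier.eta Lu (taaV c d) * (taaV a b / 2 ^ m)) := by
    obtain ⟨s, hs⟩ := (ZMod.intCast_eq_intCast_iff_dvd_sub
      ((ZMod.unitOfCoprime k k1 * det2 x y).val : ℤ) (k * (a * d - b * c)) (2 ^ m)).1 (by
        simp [det2, ha, hb, hc, hd])
    have z0 : jC (zeta m) ^ 2 ^ m = 1 := by rw [← map_pow, (zeta_prim m).pow_eq_one, map_one]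
    have z1 : jC (zeta m) ≠ 0 := fun e => by simp [e] at z0
    rw [map_pow, ← zpow_natCast, ← sub_eq_iff_eq_add.2 (sub_eq_iff_eq_add'.1 hs), zpow_sub₀ z1,
      _root_.zpow_mul, _root_.zpow_mul, zpow_natCast, zpow_natCast, z0, k2, _root_.one_zpow, div_one,
      ← exp_int_mul, taaV, taaV, eta_lattice, eta_lattice, leg]
    congr 1
    push_cast
    ring
  obtain ⟨e, -, -, e1⟩ := sig_add (taa_mem a b)
  obtain ⟨e', he, -, e2⟩ := sig_add (taa_mem c d)
  have e0 : e' ≠ 0 := by rcases he with rfl | rfl <;> simp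
  rw [map_mul, map_mul, map_mul, z, taa_psi m hu' hv' (h _ _ (t x) (t y)),
    taa_psi m hu.symm hv.symm h.gw, taa_psi m hu.symm hv' g3,
    taa_psi m hu' hv.symm g2]
  generalize taaV a b = l at *
  generalize taaV c d = l' at *
  simp only [mul_add (2 ^ m : ℂ), mul_div_cancel₀ _ n0, add_right_comm _ l, ← add_assoc _ _ l', e1,
    e2]
  generalize (taaF m u)⁻¹ = c1
  generalize (taaF m (u + l / 2 ^ m))⁻¹ = c2
  simp only [mul_add, exp_add, exp_sub]
  field_simp

omit hp in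
theorem exists_emb (c4 : WZ.c₄ ≠ 0) (c6 : WZ.c₆ ≠ 0) : Nonempty Emb := by
  have := Fact.mk (exists_per c4 c6)
  refine ⟨⟨taaE, fun m x y h => ?_, fun m P h => ?_, fun m k x => pmap_injective jC ?_, taa_weil⟩⟩
  · have e := congrArg (pmap jC) h
    rw [taa_spec (taa_int _) (taa_int _), taa_spec (taa_int _) (taa_int _), taa_iff, taa_int,
      taa_int, taa_int, taa_int] at e
    funext i
    fin_cases i
    exacts [e.1, e.2]
  · obtain ⟨u, hu⟩ := unU_surjective (pmap jC P)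
    obtain ⟨a, b, e⟩ := PeriodPair.mem_lattice.1 (unU_eq_zero_iff.1
      ((taa_pow hu.symm m).symm.trans (by rw [h, map_zero])))
    refine ⟨![a, b], pmap_injective jC ?_⟩
    rw [taa_spec (a := a) (b := b) rfl rfl, taaV, e, mul_div_cancel_left₀ _ (taa_ne m), hu]
  · rw [taa_pow (taa_spec (taa_int _) (taa_int _)),
      taa_spec (a := (x 0).val) (b := (x 1).val) (by simp) (by simp), pow_add (2 : ℂ)]
    congr 1
    have := taa_ne m
    have := taa_ne k
    field_simp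

end Pool.Agent.B6
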