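import Pool.Agent.Lib.MP_696deb_nt.B6.TAb
import Pool.Agent.Lib.MP_696deb_nt.B2.TAc

/-! Kummer cocycles are orthogonal for the Weil pairing. -/

set_option autoImplicit false

open scoped NNReal Classical
open Matrix NumberTheorySymbols

namespace Pool.Agent.B6

open Pool.Agent.Lib.MP_696deb_nt (Pt pmap xco yco xco_some yco_some xco_pmap yco_pmap xco_neg pmap_injective pmap_pmap)
open Pool.Agent.Lib.MP_696deb_nt.B2

variable [Cw]

variable (T : TB) {m : ℕ} {D : Subgroup Gam} {x y z : Gam → Fin 2 → ZMod (2 ^ m)} {S S' R : EE}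

/-- `x` is the Kummer cocycle of `S`. -/
def TacK (D : Subgroup Gam) (x : Gam → Fin 2 → ZMod (2 ^ m)) (S : EE) : Prop :=
  ∀ g ∈ D, T.emb m (x g) = g • S - S

/-- The cup product. -/
noncomputable def tacU (x y : Gam → Fin 2 → ZMod (2 ^ m)) (g h : Gam) : ZMod (2 ^ m) :=
  det2 (x g) (mred m (T.ρ g) *ᵥ y h)

theorem tac_det (g : Gam) (a b : Fin 2 → ZMod (2 ^ m)) :
    det2 (mred m (T.ρ g) *ᵥ a) (mred m (T.ρ g) *ᵥ b) = cy m g * det2 a b := by
  rw [det2_mulVec, mred_det, T.det, cy]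

theorem tac_mul (g h : Gam) (a : Fin 2 → ZMod (2 ^ m)) :
    mred m (T.ρ (g * h)) *ᵥ a = mred m (T.ρ g) *ᵥ mred m (T.ρ h) *ᵥ a := by
  rw [map_mul, mred_mul, mulVec_mulVec]

variable {T}

theorem TacK.coc (hx : TacK T D x S) {g h : Gam} (hg : g ∈ D) (hh : h ∈ D) :
    x (g * h) = x g + mred m (T.ρ g) *ᵥ x h := T.inj m (by
  rw [map_add, ← T.smul, hx _ hg, hx _ hh, hx _ (mul_mem hg hh), smul_sub, mul_smul]
  abel)

theorem TacK.sm (hx : TacK T D x S) : Sm D x :=
  ((sm_pt D S).comp fun P => Function.invFun (T.emb m) (P - S)).congr fun g hg => by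
    rw [← hx g hg, Function.leftInverse_invFun (T.inj m)]

theorem TacK.fix (hx : TacK T D x S) {g : Gam} (hg : g ∈ D) : g • 2 ^ m • S = 2 ^ m • S := by
  rw [smul_comm, ← sub_eq_zero, ← smul_sub, ← hx g hg, T.tors]

theorem TacK.add (hx : TacK T D x S) (hy : TacK T D y S') : TacK T D (x + y) (S + S') :=
  fun g hg => by
    rw [Pi.add_apply, map_add, hx g hg, hy g hg, smul_add]
    abel

theorem tac_ex (h : ∀ g : Gam, g • 2 ^ m • R = 2 ^ m • R) :
    ∃ z : Gam → Fin 2 → ZMod (2 ^ m), TacK T D z R := by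
  choose z hz using fun g : Gam => T.surj m (g • R - R) (by rw [smul_sub, smul_comm, h, sub_self])
  exact ⟨z, fun g _ => hz g⟩

theorem tac_c2 (hx : TacK T D x S) (hy : TacK T D y S') : C2 m D (tacU T x y) := by
  refine ⟨((hx.sm.comp₂ ((T.sm m).mono le_top) Prod.mk).left.comp₂ hy.sm.right
    fun a b => det2 a.1 (a.2 *ᵥ b)), fun g hg h hh k hk => ?_⟩
  simp only [tacU]
  rw [← tac_det, hx.coc hg hh, hy.coc hh hk, tac_mul, mulVec_add]
  simp only [det2, Pi.add_apply]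
  ring

theorem tac_swap (hx : TacK T D x S) (hy : TacK T D y S') (h : Spl m D (tacU T y x)) :
    Spl m D (tacU T x y) := by
  refine tac_lin h (c' := fun g k => tacU T x y g k - tacU T y x g k)
    ⟨fun g => det2 (y g) (x g), hy.sm.comp₂ hx.sm det2, fun g hg k hk => ?_⟩ 1 1
    fun _ _ _ _ => by ring
  simp only [tacU]
  rw [← tac_det, hx.coc hg hk, hy.coc hg hk]
  simp only [det2, Pi.add_apply]
  ring

theorem tac_cob (hx : TacK T D x S) (hy : TacK T D y S') (h1 : ∀ g ∈ D, g • R = R)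
    (h2 : 2 ^ m • (S' - R) = 0) : Spl m D (tacU T x y) := by
  obtain ⟨s, hs⟩ := T.surj m _ h2
  have e : ∀ g ∈ D, y g = mred m (T.ρ g) *ᵥ s - s := fun g hg => T.inj m (by
    rw [map_sub, ← T.smul, hs, hy g hg, smul_sub, h1 g hg]
    abel)
  refine ⟨fun g => -det2 (x g) (mred m (T.ρ g) *ᵥ s),
    hx.sm.comp₂ ((T.sm m).mono le_top) fun a b => -det2 a (b *ᵥ s), fun g hg k hk => ?_⟩
  simp only [tacU]
  rw [mul_neg, ← tac_det, hx.coc hg hk, e k hk, tac_mul, mulVec_sub]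
  simp only [det2, Pi.add_apply, Pi.sub_apply]
  ring

theorem tac_gen (hD : IsClosed (D : Set Gam)) (hx : TacK T D x S) (hy : TacK T D y S')
    (h : Gv m S S') : Spl m D (tacU T x y) := by
  obtain ⟨u, hu⟩ := T.weil m
  have k1 : ∀ g ∈ D, Gv m S (g • S') := fun g hg => by
    simpa [hy g hg] using h.add (smul_zero _) (T.tors m (y g))
  have k0 := wpsi_ne h.gw
  have key : Spl m D fun g k => u * tacU T x y g k := by
    refine (spl_iff hD ((tac_c2 hx hy).smul u)).2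
      ⟨fun g => if g ∈ D then wpsi m S (g • S') / wpsi m S S' else 1,
        ((sm_pt D S').comp fun P => wpsi m S P / wpsi m S S').congr fun g hg => (if_pos hg).symm,
        fun g => ?_, fun g hg k hk => ?_⟩
    · dsimp only
      split_ifs with hg
      exacts [div_ne_zero (wpsi_ne (k1 g hg).gw) k0, one_ne_zero]
    · have e := hu S (g • S') (x g) (mred m (T.ρ g) *ᵥ y k) (k1 g hg)
      have k2 : wpsi m (g • S) (g • S') ≠ 0 := by
        rw [← wpsi_smul]
        exact (map_ne_zero g).2 k0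
      rw [← T.smul, hx g hg, hy k hk, smul_sub, add_sub_cancel, add_sub_cancel] at e
      simp only [if_pos hg, if_pos hk, if_pos (mul_mem hg hk), tacU]
      rw [map_div₀, wpsi_smul, wpsi_smul, mul_smul]
      field_simp
      linear_combination -e
  exact tac_lin key key ↑u⁻¹ 0 fun g _ k _ => by simp

theorem tac_lift (T : TB) {k : ℕ} {P : EE} (h : 2 ^ k • P = 0) : ∃ s : Fin 2 → ℤ_[2],
    T.emb k (fun i => PadicInt.toZModPow k (s i)) = P := by
  obtain ⟨a, rfl⟩ := T.surj k P h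
  exact ⟨fun i => ((a i).val : ℕ), by simp⟩

theorem tac_red (T : TB) (m k : ℕ) (s : Fin 2 → ℤ_[2]) :
    2 ^ k • T.emb (m + k) (fun i => PadicInt.toZModPow (m + k) (s i)) =
      T.emb m fun i => PadicInt.toZModPow m (s i) :=
  (T.two m k _).trans (congrArg _ (funext fun i => by
    rw [ZMod.castHom_apply, PadicInt.cast_toZModPow _ _ (Nat.le_add_right m k)]))

omit [Cw] in
theorem tac_mv (m : ℕ) (A : M2) (s : Fin 2 → ℤ_[2]) :
    (mred m A *ᵥ fun i => PadicInt.toZModPow m (s i)) =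
      fun i => PadicInt.toZModPow m ((A *ᵥ s) i) := by
  funext i
  simp [mulVec, dotProduct, mred_apply]

omit [Cw] in
theorem tac_zeta (m k : ℕ) (a : ℤ_[2]) :
    zeta (m + k) ^ (PadicInt.toZModPow (m + k) (2 ^ k * a)).val =
      zeta m ^ (PadicInt.toZModPow m a).val := by
  have e : ∀ k, zeta (m + k) ^ 2 ^ k = zeta m := fun k => by
    induction k with
    | zero => exact pow_one _
    | succ k ih => rw [pow_succ', pow_mul, ← add_assoc, zeta_succ_sq, ih]
  obtain ⟨n, hn⟩ : ∃ n : ℕ, PadicInt.toZModPow m a = n := ⟨_, (ZMod.natCast_zmod_val _).symm⟩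
  have h : PadicInt.toZModPow (m + k) (2 ^ k * a) = (2 ^ k * n : ℕ) := by
    rw [← map_natCast (PadicInt.toZModPow m), red_eq_iff] at hn
    rw [← map_natCast (PadicInt.toZModPow (m + k)), red_eq_iff, Nat.cast_mul, Nat.cast_pow,
      Nat.cast_ofNat, ← mul_sub, pow_add, mul_comm]
    exact mul_dvd_mul_left _ hn
  rw [h, hn, b1b_zeta_cast, b1b_zeta_cast, pow_mul, e]

theorem tac_tors (hD : IsClosed (D : Set Gam)) (hy : TacK T D y S) {k : ℕ}
    (h : 2 ^ (m + k) • S = 0) : Spl m D (tacU T y y) := by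
  obtain ⟨s, hs⟩ := tac_lift T h
  have e : ∀ g ∈ D, ∃ Y : Fin 2 → ℤ_[2], (∀ i, (T.ρ g *ᵥ s) i = s i + 2 ^ k * Y i) ∧
      y g = fun i => PadicInt.toZModPow m (Y i) := fun g hg => by
    have e1 : y g = fun i => PadicInt.toZModPow m ((y g i).val : ℕ) := by simp
    have e2 := hy g hg
    rw [e1, ← tac_red T m k, ← hs, T.smul, tac_mv, ← map_sub, ← map_nsmul] at e2
    choose Z hZ using fun i => red_eq_iff.1 (((map_sub _ _ _).trans
      (congrFun (T.inj _ e2) i).symm).trans (map_nsmul _ _ _).symm)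
    refine ⟨fun i => ((y g i).val : ℕ) + 2 ^ m * Z i, fun i => ?_, funext fun i => ?_⟩
    · have := hZ i
      rw [nsmul_eq_mul, Nat.cast_pow, Nat.cast_ofNat] at this
      linear_combination this
    · exact (congrFun e1 i).trans (red_eq_iff.2 ⟨-Z i, by ring⟩)
  choose! Y h1 h2 using e
  refine (spl_iff hD (tac_c2 hy hy)).2 ⟨fun g => zeta (m + (k + k)) ^
    (PadicInt.toZModPow (m + (k + k)) (det2 s (T.ρ g *ᵥ s))).val,
    (((T.sm (m + (k + k))).mono le_top).comp fun A => zeta (m + (k + k)) ^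
      (det2 (fun i => PadicInt.toZModPow _ (s i))
        (A *ᵥ fun i => PadicInt.toZModPow _ (s i))).val).congr fun g _ => ?_,
    fun g => b3b_ne _ _, fun g hg l hl => ?_⟩
  · simp only [tac_mv, det2, map_sub, map_mul]
  · have e1 : tacU T y y g l = PadicInt.toZModPow m (det2 (Y g) (T.ρ g *ᵥ Y l)) := by
      simp only [tacU, h2 g hg, h2 l hl, tac_mv, det2, map_sub, map_mul]
    dsimp only
    rw [e1, ← tac_zeta m (k + k), smul_zeta_val, ← zeta_val_add, ← zeta_val_add, cy, ← map_mul,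
      ← map_add, ← map_add, ← T.det, ← det2_mulVec, map_mul, ← mulVec_mulVec]
    congr 3
    have e2 : ∀ i, (T.ρ g *ᵥ T.ρ l *ᵥ s) i = (T.ρ g *ᵥ s) i + 2 ^ k * (T.ρ g *ᵥ Y l) i := fun i => by
      simp only [mulVec, dotProduct, Fin.sum_univ_two] at h1 ⊢
      rw [h1 l hl, h1 l hl]
      ring
    simp only [det2, e2, h1 g hg]
    ring

theorem tac_self (hD : IsClosed (D : Set Gam)) (hy : TacK T D y S) : Spl m D (tacU T y y) := by
  by_cases h : IsOfFinAddOrder S
  swap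
  · exact tac_gen hD hy hy (gv_self h)
  obtain ⟨n, n0, hn⟩ := isOfFinAddOrder_iff_nsmul_eq_zero.1 h
  obtain ⟨k, o, ho, rfl⟩ := Nat.exists_eq_two_pow_mul_odd n0.ne'
  have h1 : TacK T D (o • y) (o • S) := fun g hg => by
    rw [Pi.smul_apply, map_nsmul, hy g hg, smul_sub, smul_comm]
  have h2 := tac_tors hD h1 (k := k) (by
    rw [pow_add, mul_smul, ← mul_smul _ o, hn, smul_zero])
  obtain ⟨u, hu⟩ := (ZMod.isUnit_iff_coprime o (2 ^ m)).2
    ((Nat.coprime_two_right.2 ho).pow_right _)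
  refine tac_lin h2 h2 (↑u⁻¹ * ↑u⁻¹) 0 fun g _ k _ => ?_
  rw [tacU, tacU, Pi.smul_apply, Pi.smul_apply, mulVec_smul]
  simp only [det2, Pi.smul_apply]
  simp only [nsmul_eq_mul, ← hu]
  linear_combination (-(y g 0 * (mred m (T.ρ g) *ᵥ y k) 1 - y g 1 * (mred m (T.ρ g) *ᵥ y k) 0) *
    (1 + (↑u⁻¹ * ↑u : ZMod (2 ^ m)))) * u.inv_mul

theorem tac_mem (hD : IsClosed (D : Set Gam)) (hx : TacK T D x S) (hy : TacK T D y S')
    (h : 2 ^ m • S ∈ AddSubgroup.zmultiples (2 ^ m • S')) : Spl m D (tacU T x y) := by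
  obtain ⟨a, ha⟩ := AddSubgroup.mem_zmultiples_iff.1 h
  have h1 : TacK T D (x - a • y) (S - a • S') := fun g hg => by
    rw [Pi.sub_apply, Pi.smul_apply, map_sub, map_zsmul, hx g hg, hy g hg, smul_sub g,
      smul_comm g, smul_sub]
    abel
  refine tac_lin (tac_swap h1 hy (tac_cob hy h1 (R := 0) (fun g _ => smul_zero g)
    (by rw [sub_zero, smul_sub, smul_comm, ha, sub_self]))) (tac_self hD hy) 1 a fun g _ k _ => ?_
  simp only [tacU, det2, Pi.sub_apply, Pi.smul_apply]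
  simp only [zsmul_eq_mul]
  ring

theorem TB.iso (T : TB) (m : ℕ) (D : Subgroup Gam) (x y : Gam → Fin 2 → ZMod (2 ^ m)) (S S' : EE)
    (hD : IsClosed (D : Set Gam)) (hx : ∀ g ∈ D, T.emb m (x g) = g • S - S)
    (hy : ∀ g ∈ D, T.emb m (y g) = g • S' - S') :
    Spl m D fun g h => det2 (x g) (mred m (T.ρ g) *ᵥ y h) := by
  by_cases h1 : 2 ^ m • S ∈ AddSubgroup.zmultiples (2 ^ m • S')
  · exact tac_mem hD hx hy h1
  by_cases h2 : 2 ^ m • S' ∈ AddSubgroup.zmultiples (2 ^ m • S)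
  · exact tac_swap hx hy (tac_mem hD hy hx h2)
  · exact tac_gen hD hx hy (Gnn.gv ⟨h1, h2⟩)

end Pool.Agent.B6
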