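import Pool.Agent.Lib.MP_696deb_nt.B6.TAh

/-! The image of inertia, and the parity of the trace of Frobenius. -/

set_option autoImplicit false

open scoped NNReal Classical
open Matrix

namespace Pool.Agent.B6

open Pool.Agent.Lib.MP_696deb_nt (Pt pmap xco yco)
open Pool.Agent.Lib.MP_696deb_nt.B2
open Pool.Agent.B4 (tm_unit tm_cases tm_even tm_upow tm_conj_pow)

theorem tai_lpow (c : ℤ_[2]) (j : ℕ) : (!![1, 0; c, 1] : M2) ^ j = !![1, 0; j * c, 1] := by
  induction j with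
  | zero => rw [pow_zero, Nat.cast_zero, zero_mul, one_fin_two]
  | succ j ih =>
    rw [pow_succ, ih]
    ext i k
    fin_cases i <;> fin_cases k <;> simp
    ring

theorem tai_nat {a : ℤ_[2]} (ha : IsUnit a) (t : ℤ_[2]) (k : ℕ) :
    ∃ j : ℕ, PadicInt.toZModPow k ((j : ℤ_[2]) * a) = PadicInt.toZModPow k t := by
  obtain ⟨u, e⟩ := ha.exists_left_inv
  refine ⟨(PadicInt.toZModPow k (t * u)).val, ?_⟩
  rw [map_mul, map_natCast, ZMod.natCast_zmod_val, ← map_mul, mul_assoc, e, mul_one]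

/-- Two transvections generate the special linear group. -/
theorem tai_gen (ρ : Gam →* M2) {s t : Gam} {C : M2} (hC : IsUnit C.det) {a b : ℤ_[2]}
    (ha : IsUnit a) (hb : IsUnit b) (h1 : ρ s * C = C * !![1, a; 0, 1])
    (h2 : ρ t * C = C * !![1, 0; b, 1]) (A : M2) (hA : A.det = 1) (k : ℕ) :
    ∃ u ∈ Subgroup.closure {s, t}, mred k (ρ u) = mred k A := by
  obtain ⟨⟨C, C', c1, c2⟩, rfl⟩ := (isUnit_iff_isUnit_det C).2 hC
  simp only at h1 h2
  let S : M2 → Prop := fun X => ∃ u ∈ Subgroup.closure {s, t}, mred k (ρ u * C) = mred k (C * X)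
  have mul : ∀ {X Y}, S X → S Y → S (X * Y) := by
    rintro X Y ⟨u, hu, e⟩ ⟨v, hv, f⟩
    refine ⟨u * v, mul_mem hu hv, ?_⟩
    rw [map_mul, mul_assoc, mred_mul, f, ← mred_mul, ← mul_assoc, mred_mul, e, ← mred_mul,
      mul_assoc]
  have hU : ∀ x, S !![1, x; 0, 1] := fun x => by
    obtain ⟨j, hj⟩ := tai_nat ha x k
    refine ⟨s ^ j, pow_mem (Subgroup.subset_closure (by simp)) j, ?_⟩
    rw [map_pow, tm_conj_pow h1, tm_upow, mred_mul, mred_mul]
    congr 1
    ext i l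
    fin_cases i <;> fin_cases l <;> first | rfl | exact hj
  have hL : ∀ x, S !![1, 0; x, 1] := fun x => by
    obtain ⟨j, hj⟩ := tai_nat hb x k
    refine ⟨t ^ j, pow_mem (Subgroup.subset_closure (by simp)) j, ?_⟩
    rw [map_pow, tm_conj_pow h2, tai_lpow, mred_mul, mred_mul]
    congr 1
    ext i l
    fin_cases i <;> fin_cases l <;> first | rfl | exact hj
  have k1 : ∀ x y z r : ℤ_[2], x * r - y * z = 1 → IsUnit z → S !![x, y; z, r] :=
    fun x y z r e hz => by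
      obtain ⟨z', hz'⟩ := hz.exists_right_inv
      have := mul (mul (hU ((x - 1) * z')) (hL z)) (hU ((r - 1) * z'))
      convert this using 1
      ext i l
      fin_cases i <;> fin_cases l <;> simp
      · linear_combination -(x - 1) * hz'
      · linear_combination -z' * e - (y + (x - 1) * (r - 1) * z') * hz'
      · linear_combination -(r - 1) * hz'
  have k2 : ∀ X : M2, X.det = 1 → S X := fun X hX => by
    obtain ⟨x, y, z, r, rfl⟩ : ∃ x y z r, X = !![x, y; z, r] := ⟨_, _, _, _, eta_fin_two X⟩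
    rw [det_fin_two_of] at hX
    by_cases hz : IsUnit z
    · exact k1 _ _ _ _ hX hz
    have hx : IsUnit (x + z) := by
      have e := congrArg (PadicInt.toZModPow 1) hX
      rw [tm_unit] at hz ⊢
      rw [map_sub, map_mul, map_mul, map_one] at e
      rw [map_add]
      revert hz e
      generalize PadicInt.toZModPow 1 x = x', PadicInt.toZModPow 1 y = y',
        PadicInt.toZModPow 1 z = z', PadicInt.toZModPow 1 r = r'
      revert x' y' z' r'
      decide
    have := mul (hL (-1)) (k1 x y (x + z) (y + r) (by linear_combination hX) hx)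
    convert this using 1
    ext i l
    fin_cases i <;> fin_cases l <;> simp
  obtain ⟨u, hu, e⟩ := k2 (C' * A * C) (by
    rw [det_mul, det_mul, hA, mul_one, ← det_mul, c2, det_one])
  refine ⟨u, hu, ?_⟩
  rw [← mul_one (ρ u), ← c1, ← mul_assoc, mred_mul, e, ← mred_mul, ← mul_assoc, ← mul_assoc, c1,
    one_mul, mul_assoc, c1, mul_one]

theorem tai_int {w : Plc} {x : Qbar} (h : w.V x ≤ 1) (k : w.V (x ^ w.p - x) < 1) :
    ∃ n : ℤ, w.V (x - n) < 1 := by
  obtain ⟨y, h1, h2⟩ := w.exists_int h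
  have : Fact w.p.Prime := ⟨w.prime⟩
  have := b2a_max w
  let := Ideal.Quotient.field (b2aP w)
  have : CharP (Zbar ⧸ b2aP w) w.p := (CharP.charP_iff_prime_eq_zero w.prime).2 (by
    rw [← map_natCast (Ideal.Quotient.mk (b2aP w))]
    exact Ideal.Quotient.eq_zero_iff_mem.2 (b2a_p_mem w))
  have h3 : w.V (y ^ w.p - y) < 1 := by
    rw [show y ^ w.p - y = (x ^ w.p - x) - (x ^ w.p - y ^ w.p) + (x - y) by ring]
    exact w.V.map_add_lt (w.V.map_sub_lt k
      (b2a_pow_sub w h (w.V_le_one_of_isIntegral h1) h2 _)) h2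
  have h4 : Ideal.Quotient.mk (b2aP w) ⟨y, h1⟩ ^ w.p = Ideal.Quotient.mk (b2aP w) ⟨y, h1⟩ := by
    rw [← map_pow]
    exact Ideal.Quotient.eq.2 (b2a_mem.2 h3)
  obtain ⟨n, hn⟩ := (mem_bot_iff_intCast w.p _).1 ((Subfield.mem_bot_iff_pow_eq_self _ w.p).2 h4)
  rw [← map_intCast (Ideal.Quotient.mk (b2aP w))] at hn
  have h5 : w.V (y - n) < 1 := b2a_mem.1 (Ideal.Quotient.eq.1 hn.symm)
  exact ⟨n, by simpa using w.V.map_add_lt h2 h5⟩

variable [Cs]

theorem TB.big (T : TB) (w : Plc) (hw : w.p ∣ NN) (s : Gam) (hs : Gen w s) : ∃ g : Gam,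
    IsUnit ((T.ρ s - 1) * (T.ρ (g * s * g⁻¹) - 1)).trace ∧
    ∀ A : M2, A.det = 1 → ∀ k,
      ∃ u ∈ Subgroup.closure {s, g * s * g⁻¹}, mred k (T.ρ u) = mred k A := by
  have h2 := ne_two_of_dvd hw
  obtain ⟨a, b, c, h⟩ := exists_bad hw
  have ha := h.root.2 (.inl rfl)
  obtain ⟨v, v1, v2⟩ := T.exists_vec hw (two_tp a ha) fun σ hσ =>
    (two_fix σ (two_tp a ha)).2 (h.act hσ.1).1
  obtain ⟨g, hg⟩ : ∃ g : Gam, g a ≠ a := by
    by_contra! k
    obtain ⟨r, rfl⟩ := fx_top (x := a) fun g _ => k g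
    exact cub_irr r ((algebraMap ℚ Qbar).injective (by rw [map_cub, map_zero]; exact ha))
  obtain ⟨v', hv'⟩ : ∃ v', v' = T.ρ g *ᵥ v := ⟨_, rfl⟩
  have e1 : (T.emb 1 fun i => PadicInt.toZModPow 1 (v' i)) = g • tp a ha := by
    rw [hv', ← tah_red, ← T.smul, v1]
  have e2 : T.ρ (g * s * g⁻¹) *ᵥ v' = v' := by
    rw [hv', mulVec_mulVec, ← map_mul, inv_mul_cancel_right, map_mul, ← mulVec_mulVec, v2 s hs.1]
  have hd : IsUnit (v 0 * v' 1 - v' 0 * v 1) := by
    have n1 : (fun i => PadicInt.toZModPow 1 (v i)) ≠ 0 := fun k =>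
      tp_ne a ha (by rw [← v1, k, map_zero])
    have n2 : (fun i => PadicInt.toZModPow 1 (v' i)) ≠ 0 := fun k =>
      tp_ne a ha ((smul_eq_zero_iff_eq g).1 (by rw [← e1, k, map_zero]))
    have n3 : (fun i => PadicInt.toZModPow 1 (v' i)) ≠ fun i => PadicInt.toZModPow 1 (v i) :=
      fun k => hg ((two_fix g (two_tp a ha)).1 (by rw [← e1, k, v1]))
    have key : ∀ x y : Fin 2 → ZMod (2 ^ 1), x ≠ 0 → y ≠ 0 → y ≠ x →
      x 0 * y 1 - y 0 * x 1 = 1 := by decide
    rw [tm_unit, map_sub, map_mul, map_mul]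
    exact key _ _ n1 n2 n3
  have hs' : Gen (g • w) (g * s * g⁻¹) := ⟨mem_Ine_smul.2 (by simpa [mul_assoc] using hs.1), by
    rw [smul_p, map_mul, map_mul, map_inv, hs.2, mul_right_comm, mul_inv_cancel, one_mul]⟩
  have dC : IsUnit (!![v 0, v' 0; v 1, v' 1] : M2).det := by rwa [det_fin_two_of]
  have dC' : IsUnit (!![v' 0, v 0; v' 1, v 1] : M2).det := by
    rw [det_fin_two_of, ← IsUnit.neg_iff]
    convert hd using 1
    ring
  have col : ∀ x y : Fin 2 → ℤ_[2], (!![x 0, y 0; x 1, y 1] : M2) *ᵥ ![1, 0] = x := fun x y =>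
    funext fun i => by fin_cases i <;> simp [mulVec, dotProduct]
  obtain ⟨α, hα⟩ := tah_uni dC ((T.det s).trans (cyc_ine h2 hs.1)) (by rw [col, v2 s hs.1])
  obtain ⟨β, hβ⟩ := tah_uni dC' ((T.det _).trans (cyc_ine (w := g • w) h2 hs'.1)) (by rw [col, e2])
  have uα : IsUnit α := by_contra fun k => T.gen_ne hw hs (tah_mod2 dC hα k)
  have uβ : IsUnit β := by_contra fun k => T.gen_ne (w := g • w) hw hs' (tah_mod2 dC' hβ k)
  have hβ' : T.ρ (g * s * g⁻¹) * !![v 0, v' 0; v 1, v' 1] =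
      !![v 0, v' 0; v 1, v' 1] * !![1, 0; β, 1] := by
    have := congrArg (· * !![0, 1; 1, 0]) hβ
    simp only [mul_assoc _ _ (!![0, 1; 1, 0] : M2), mul_fin_two] at this ⊢
    simpa [add_comm] using this
  refine ⟨g, ?_, tai_gen T.ρ dC uα uβ hα hβ'⟩
  generalize (!![v 0, v' 0; v 1, v' 1] : M2) = C at dC hα hβ'
  obtain ⟨⟨C, C', c1, c2⟩, rfl⟩ := (isUnit_iff_isUnit_det C).2 dC
  simp only at hα hβ'
  have e : (T.ρ s - 1) * (T.ρ (g * s * g⁻¹) - 1) * C =
      C * ((!![1, α; 0, 1] - 1) * (!![1, 0; β, 1] - 1)) := by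
    rw [mul_assoc, sub_mul _ _ C, hβ', one_mul, ← mul_sub_one, ← mul_assoc, sub_mul _ _ C, hα,
      one_mul, ← mul_sub_one, mul_assoc]
  generalize (T.ρ s - 1) * (T.ρ (g * s * g⁻¹) - 1) = X at e
  rw [← mul_one X, ← c1, ← mul_assoc, e, trace_mul_comm, ← mul_assoc, c2, one_mul]
  convert uα.mul uβ using 1
  simp [trace_fin_two, mul_apply]

theorem TB.par (T : TB) (w : Plc) (φ : Gam) (h2 : w.p ≠ 2) (hw : ¬ (w.p : ℤ) ∣ WZ.Δ)
    (hφ : IsFrob w w.p φ) : (mred 1 (T.ρ φ)).trace = 1 ↔ ¬ Rt w.p := by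
  have key : ∀ a b c d : ZMod (2 ^ 1), a * d - b * c = 1 →
      (a + d = 1 ↔ ¬ ∃ x : Fin 2 → ZMod (2 ^ 1), x ≠ 0 ∧ !![a, b; c, d] *ᵥ x = x) := by decide
  have d : (mred 1 (T.ρ φ)).det = 1 := by
    rw [mred_det, T.det, ← tm_unit]
    exact cyc_unit φ
  rw [det_fin_two] at d
  rw [trace_fin_two, key _ _ _ _ d, ← eta_fin_two, not_iff_not]
  have pp : ∀ n : ℤ, w.V (cub (n : Qbar)) < 1 ↔ cub (n : ZMod w.p) = 0 := fun n => by
    have a1 := map_cub (Int.castRingHom Qbar) n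
    have a2 := map_cub (Int.castRingHom (ZMod w.p)) n
    rw [eq_intCast, eq_intCast] at a1 a2
    rw [← a1, ← a2, ZMod.intCast_zmod_eq_zero_iff_dvd, ← not_iff_not, ← w.V_int_eq_one, not_lt]
    exact ⟨le_antisymm (w.V_int_le _), fun k => k.ge⟩
  have rt : ∀ {a b c : Qbar}, Rts a b c → ∀ n : ℤ, w.V (n - a) < 1 → w.V (cub (n : Qbar)) < 1 :=
    fun {a b c} h n k => by
      rw [h.cub_eq, mul_left_comm]
      exact r0_mul w k (mul_mem (ofNat_mem _ 4) (mul_mem
        (sub_mem (intCast_mem _ _) (V_root h2 (h.root.2 (.inr (.inl rfl)))))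
        (sub_mem (intCast_mem _ _) (V_root h2 (h.root.2 (.inr (.inr rfl)))))))
  have fx : ∀ {a b c : Qbar}, Rts a b c → ∀ n : ℤ, w.V (n - a) < 1 →
      ∃ x, x ≠ 0 ∧ mred 1 (T.ρ φ) *ᵥ x = x := fun {a b c} h n k => by
    have ha := h.root.2 (.inl rfl)
    have ma : a ∈ w.V.integer := V_root h2 ha
    have mb : b ∈ w.V.integer := V_root h2 (h.root.2 (.inr (.inl rfl)))
    have mc : c ∈ w.V.integer := V_root h2 (h.root.2 (.inr (.inr rfl)))
    have k1 : w.V (a - φ a) < 1 := by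
      have k2 : w.V (n - φ a) < 1 := by
        rw [← map_intCast φ, ← map_sub, mem_Dec.1 hφ.1]
        exact k
      simpa using w.V.map_sub_lt k2 k
    have k3 : ¬ w.V ((a - b) * ((a - c) * (b - c))) < 1 := fun e => by
      have k4 := w.V_int_eq_one.2 hw
      rw [h.disc, mul_comm, sq, mul_assoc] at k4
      exact (r0_mul w e (mul_mem e.le (ofNat_mem _ 16))).ne k4
    have k5 : φ a = a := by
      rcases h.root.1 (cub_smul φ ha) with e | e | e
      · exact e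
      · exact absurd (r0_mul w (e ▸ k1) (mul_mem (sub_mem ma mc) (sub_mem mb mc))) k3
      · rw [mul_left_comm] at k3
        exact absurd (r0_mul w (e ▸ k1) (mul_mem (sub_mem ma mb) (sub_mem mb mc))) k3
    obtain ⟨x, hx⟩ := T.surj 1 _ (two_tp a ha)
    exact ⟨x, fun e => tp_ne a ha (by rw [← hx, e, map_zero]), T.inj 1 (by
      rw [← T.smul, hx, (two_fix φ (two_tp a ha)).2 k5])⟩
  constructor
  · rintro ⟨x, x0, hx⟩
    have t := T.tors 1 x
    have r := (two_iff.1 t).resolve_left (T.ne x0)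
    have f := (two_fix φ t).1 (by rw [T.smul, hx])
    have m := V_root h2 r
    have k := hφ.2 _ m
    rw [f, w.V.map_sub_swap] at k
    obtain ⟨n, hn⟩ := tai_int m k
    rw [w.V.map_sub_swap] at hn
    refine ⟨n, (pp n).1 ?_⟩
    rcases cub_eq_zero.1 r with e | e | e <;> rw [e] at hn
    exacts [rt rts_er n hn, rt rts_er.rot n hn, rt rts_er.rot.rot n hn]
  · rintro ⟨x, hx⟩
    obtain ⟨n, rfl⟩ := ZMod.intCast_surjective x
    have k := (pp n).2 hx
    by_cases k0 : w.V (n - er 0) < 1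
    · exact fx rts_er n k0
    by_cases k1 : w.V (n - er 1) < 1
    · exact fx rts_er.rot n k1
    refine fx rts_er.rot.rot n (not_le.1 fun k2 => k.not_ge ?_)
    rw [cub_eq, map_mul, map_mul, map_mul, show (4 : Qbar) = 2 ^ 2 by norm_num, tag_V h2, one_mul]
    exact one_le_mul (not_lt.1 k0) (one_le_mul (not_lt.1 k1) k2)

end Pool.Agent.B6
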