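import Pool.Agent.Lib.MP_696deb_nt.B6.TAb

/-! Places of good reduction. -/

set_option autoImplicit false

open scoped NNReal Classical
open Matrix NumberTheorySymbols

namespace Pool.Agent.B6

open Pool.Agent.Lib.MP_696deb_nt (Pt pmap xco yco)
open Pool.Agent.Lib.MP_696deb_nt.B2

theorem taf_root (w : Plc) {q : ℕ} (hq : 1 < q) : ∃ R : Finset Qbar, ∀ x : Qbar,
    w.V (x ^ q - x) < 1 → ∃ r ∈ R, w.V (x - r) < 1 := by
  have hm : (Polynomial.X ^ q - Polynomial.X : Polynomial Qbar).Monic :=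
    (Polynomial.monic_X_pow q).sub_of_left (by
      rw [Polynomial.degree_X, Polynomial.degree_X_pow]; exact_mod_cast hq)
  have e := (IsAlgClosed.splits (Polynomial.X ^ q - Polynomial.X : Polynomial Qbar)
    ).eq_prod_roots_of_monic hm
  generalize (Polynomial.X ^ q - Polynomial.X : Polynomial Qbar).roots = s at e
  refine ⟨s.toFinset, fun x hx => ?_⟩
  by_contra k
  push Not at k
  have e1 := congrArg (fun f => w.V (Polynomial.eval x f)) e
  simp only [Polynomial.eval_sub, Polynomial.eval_pow, Polynomial.eval_X,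
    Polynomial.eval_multiset_prod, map_multiset_prod, Multiset.map_map, Function.comp_def,
    Polynomial.eval_C] at e1
  rw [e1] at hx
  refine hx.not_ge (Multiset.one_le_prod_of_one_le fun y hy => ?_)
  obtain ⟨r, hr, rfl⟩ := Multiset.mem_map.1 hy
  exact k r (Multiset.mem_toFinset.2 hr)

variable [Cw]

theorem TB.unr (T : TB) (w : Plc) (h2 : w.p ≠ 2) (hw : ¬ (w.p : ℤ) ∣ WZ.Δ) (σ : Gam)
    (h : σ ∈ Ine w) : T.ρ σ = 1 := by
  refine mred_ext fun m => ?_
  rw [mred_one]
  refine T.mred_eq_one fun P hP =>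
    sub_eq_zero.1 (K1_tors h2 (K1_ine hw h P) (m := m) ?_)
  rw [smul_sub, smul_comm, hP, smul_zero, sub_zero]

theorem TB.tr (T : TB) (w : Plc) (φ : Gam) (a : ℤ) (h2 : w.p ≠ 2) (h : IsFrob w w.p φ)
    (he : ∀ P : EE, φ • φ • P - a • φ • P + w.p • P ∈ K1 w) : (T.ρ φ).trace = a := by
  have d : (T.ρ φ).det = w.p := (T.det φ).trans (cyc_frob h2 h)
  have e : T.ρ φ * T.ρ φ - a • T.ρ φ + w.p • (1 : M2) = 0 := mred_ext fun m => by
    change (PadicInt.toZModPow m).mapMatrix _ = (PadicInt.toZModPow m).mapMatrix _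
    rw [map_zero, map_add, map_sub, map_mul, map_zsmul, map_nsmul, map_one]
    refine Matrix.ext_of_mulVec_single fun j => T.inj m ?_
    rw [zero_mulVec, map_zero]
    refine K1_tors h2 ?_ (T.tors m _)
    have k := he (T.emb m (Pi.single j 1))
    rw [T.smul, T.smul] at k
    rw [add_mulVec, sub_mulVec, smul_mulVec, smul_mulVec, one_mulVec, ← mulVec_mulVec, map_add,
      map_sub, map_zsmul, map_nsmul]
    exact k
  generalize T.ρ φ = A at d e
  have e0 := congrFun (congrFun e 0) 0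
  have e1 := congrFun (congrFun e 0) 1
  rw [Matrix.add_apply, Matrix.sub_apply, Matrix.smul_apply, Matrix.smul_apply, Matrix.mul_apply,
    Fin.sum_univ_two, zsmul_eq_mul, nsmul_eq_mul, Matrix.zero_apply] at e0 e1
  rw [one_apply_eq] at e0
  rw [one_apply_ne (by decide)] at e1
  rw [det_fin_two] at d
  rw [trace_fin_two]
  have p0 : (w.p : ℤ_[2]) ≠ 0 := by exact_mod_cast w.prime.ne_zero
  refine mul_right_cancel₀ p0 ?_
  linear_combination A 1 1 * e0 - A 1 0 * e1 + (a - A 0 0) * d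

/-- Only finitely many torsion points are fixed by a Frobenius element. -/
theorem taf_fin {w : Plc} (h2 : w.p ≠ 2) (hw : ¬ (w.p : ℤ) ∣ WZ.Δ) {φ : Gam} {q : ℕ} (hq : 1 < q)
    (h : IsFrob w q φ) : ∃ C : ℕ, ∀ (m : ℕ) (s : Finset EE),
      (∀ P ∈ s, 2 ^ m • P = 0 ∧ φ • P = P) → s.card ≤ C := by
  obtain ⟨R, hR⟩ := taf_root w hq
  refine ⟨(R ×ˢ R).card + 1, fun m s hs => ?_⟩
  have n : ∀ P ∈ s.erase 0, P ∉ K1 w := fun P hP k =>
    Finset.ne_of_mem_erase hP (K1_tors h2 k (hs P (Finset.mem_of_mem_erase hP)).1)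
  have k : ∀ P ∈ s.erase 0, ∃ r ∈ R ×ˢ R, w.V (xco P - r.1) < 1 ∧ w.V (yco P - r.2) < 1 :=
    fun P hP => by
      have e := (hs P (Finset.mem_of_mem_erase hP)).2
      have h1 := h.2 _ (V_xco_le (n P hP)).1
      have h3 := h.2 _ (V_xco_le (n P hP)).2
      rw [← xco_smul, e, w.V.map_sub_swap] at h1
      rw [← yco_smul, e, w.V.map_sub_swap] at h3
      obtain ⟨r, r1, r2⟩ := hR _ h1
      obtain ⟨t, t1, t2⟩ := hR _ h3
      exact ⟨(r, t), Finset.mem_product.2 ⟨r1, t1⟩, r2, t2⟩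
  choose! f f1 f2 using k
  have c : (s.erase 0).card ≤ (R ×ˢ R).card :=
    Finset.card_le_card_of_injOn f (fun P hP => f1 P hP) fun P hP Q hQ e => by
      have a := f2 P hP
      have b := f2 Q hQ
      rw [← e] at b
      refine sub_eq_zero.1 (K1_tors h2 (K1_near hw (n P hP) (n Q hQ) ?_ ?_)
        (m := m) ?_)
      · simpa using w.V.map_sub_lt a.1 b.1
      · simpa using w.V.map_sub_lt a.2 b.2
      · rw [smul_sub, (hs P (Finset.mem_of_mem_erase hP)).1, (hs Q (Finset.mem_of_mem_erase hQ)).1,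
          sub_zero]
  have := Finset.pred_card_le_card_erase (s := s) (a := 0)
  omega

theorem TB.hasse (T : TB) (w : Plc) (φ : Gam) (f : ℕ) (u : ℤˣ) (h2 : w.p ≠ 2)
    (hw : ¬ (w.p : ℤ) ∣ WZ.Δ) (h : IsFrob w (w.p ^ f) φ) (hf : f ≠ 0) : ((u : ℤ) • T.ρ φ - 1).det ≠ 0 := by
  intro e
  obtain ⟨x, x0, hx⟩ := exists_mulVec_eq_zero_iff.2 e
  obtain ⟨i, hi⟩ := Function.ne_iff.1 x0
  have hq := Nat.one_lt_pow hf w.prime.one_lt
  obtain ⟨C, hC⟩ := taf_fin h2 hw (Nat.one_lt_mul_iff.2 ⟨by omega, by omega, .inl hq⟩) (h.mul h)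
  obtain ⟨m, hm⟩ : ∃ m : ℕ, ¬ 2 ^ m ∣ (C.factorial : ℤ_[2]) * x i := by
    by_contra k
    push Not at k
    exact mul_ne_zero (Nat.cast_ne_zero.2 C.factorial_ne_zero) hi
      (eq_of_dvd fun m => by simpa using k m)
  obtain ⟨y, hy⟩ : ∃ y : Fin 2 → ZMod (2 ^ m), y = fun j => PadicInt.toZModPow m (x j) := ⟨_, rfl⟩
  have e1 : (u : ℤ) • φ • T.emb m y = T.emb m y := by
    rw [T.smul, ← map_zsmul]
    refine congrArg _ (funext fun j => ?_)
    have := congrArg (PadicInt.toZModPow m) (congrFun hx j)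
    rw [sub_mulVec, one_mulVec, smul_mulVec, Pi.sub_apply, Pi.smul_apply, map_sub, map_zsmul,
      Pi.zero_apply, map_zero, sub_eq_zero] at this
    rw [hy, Pi.smul_apply]
    refine Eq.trans (congrArg _ ?_) this
    simp [mulVec, dotProduct, mred_apply]
  have e2 : (φ * φ) • T.emb m y = T.emb m y := by
    rw [mul_smul]
    conv_rhs => rw [← e1, ← e1, smul_comm φ, ← mul_smul, ← Units.val_mul, Int.units_mul_self]
    simp
  have key : ∀ a b : ℕ, a ≤ C → b < a → a • T.emb m y ≠ b • T.emb m y := fun a b ha hb k => by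
    obtain ⟨c, rfl⟩ := Nat.exists_eq_add_of_lt hb
    rw [add_assoc, add_smul, add_eq_left, ← map_nsmul] at k
    have k1 := congrFun (T.inj m (k.trans (map_zero _).symm)) i
    rw [hy, Pi.smul_apply, ← map_nsmul, Pi.zero_apply, ← map_zero (PadicInt.toZModPow m),
      red_eq_iff, sub_zero, nsmul_eq_mul] at k1
    exact hm (k1.trans (mul_dvd_mul_right
      (Nat.cast_dvd_cast (Nat.dvd_factorial (by omega) (by omega))) _))
  have c := hC m ((Finset.range (C + 1)).image fun a => a • T.emb m y) fun P hP => by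
    obtain ⟨a, -, rfl⟩ := Finset.mem_image.1 hP
    exact ⟨by rw [smul_comm, T.tors, smul_zero], by rw [smul_comm, e2]⟩
  rw [Finset.card_image_of_injOn, Finset.card_range] at c
  · omega
  intro a ha b hb k
  have ha' := Finset.mem_range.1 ha
  have hb' := Finset.mem_range.1 hb
  rcases lt_trichotomy a b with l | l | l
  exacts [absurd k.symm (key b a (by omega) l), l, absurd k (key a b (by omega) l)]

end Pool.Agent.B6
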