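import Pool.Agent.Lib.MP_696deb_nt.B6.TAj
import Pool.Agent.Lib.MP_696deb_nt.B6.TAf

/-! The number of Kummer cocycles at a place above two of good reduction. -/

set_option autoImplicit false

open scoped NNReal Classical
open Matrix

namespace Pool.Agent.B6

open Pool.Agent.Lib.MP_696deb_nt (Pt pmap xco yco)
open Pool.Agent.Lib.MP_696deb_nt.B2

theorem tak_fin {G ι : Type} [AddCommGroup G] {H K : AddSubgroup G} (R : Finset ι)
    (r : G → ι → Prop) (h1 : ∀ P ∈ K, ∃ i ∈ R, r P i)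
    (h2 : ∀ P ∈ K, ∀ Q ∈ K, ∀ i, r P i → r Q i → P - Q ∈ H) : H.relIndex K ≠ 0 := by
  choose f f1 f2 using h1
  have : Finite (K ⧸ H.addSubgroupOf K) := Finite.of_injective
    (fun q => (⟨f q.out.1 q.out.2, f1 _ q.out.2⟩ : R)) fun a b e => by
      rw [← a.out_eq, ← b.out_eq]
      refine QuotientAddGroup.eq.2 ?_
      have := h2 _ b.out.2 _ a.out.2 _ (f2 _ b.out.2) (by
        have e' : f _ a.out.2 = f _ b.out.2 := congrArg Subtype.val e
        rw [← e']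
        exact f2 _ a.out.2)
      rwa [sub_eq_neg_add] at this
  exact AddSubgroup.index_ne_zero_of_finite

/-- The index of a group in the group of its halves depends only on the commensurability class. -/
theorem tak_idx {G ι : Type} [AddCommGroup G] [Fintype ι] {A B : AddSubgroup G} (d : G →+ G)
    (hd : Function.Surjective d) (hA : A ≤ A.comap d) (hB : B ≤ B.comap d) (h : B ≤ A)
    (h0 : B.relIndex A ≠ 0) (S : ι → G) (h1 : ∀ i, d (S i) ∈ B)
    (h2 : ∀ i j, S i - S j ∈ B → i = j) :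
    ∃ S' : ι → G, (∀ i, d (S' i) ∈ A) ∧ ∀ i j, S' i - S' j ∈ A → i = j := by
  have e : A.relIndex (A.comap d) = B.relIndex (B.comap d) := by
    have e1 := AddSubgroup.relIndex_mul_relIndex B A (A.comap d) h hA
    have e2 := AddSubgroup.relIndex_mul_relIndex B (B.comap d) (A.comap d) hB
      (AddSubgroup.comap_mono h)
    rw [AddSubgroup.relIndex_comap, AddSubgroup.map_comap_eq_self_of_surjective hd, ← e1,
      mul_comm] at e2
    exact (mul_left_cancel₀ h0 e2).symm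
  have i1 : Function.Injective fun i =>
      (QuotientAddGroup.mk ⟨S i, h1 i⟩ : B.comap d ⧸ B.addSubgroupOf (B.comap d)) :=
    fun i j k => (h2 j i (by
      have := QuotientAddGroup.eq.1 k
      rwa [sub_eq_neg_add])).symm
  obtain ⟨f⟩ : Nonempty (ι ↪ A.comap d ⧸ A.addSubgroupOf (A.comap d)) := by
    rcases finite_or_infinite (A.comap d ⧸ A.addSubgroupOf (A.comap d)) with k | k
    · have k1 : Nat.card (A.comap d ⧸ A.addSubgroupOf (A.comap d)) =
          Nat.card (B.comap d ⧸ B.addSubgroupOf (B.comap d)) := e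
      have := Nat.finite_of_card_ne_zero (k1 ▸ Nat.card_pos.ne')
      obtain ⟨q⟩ := Finite.card_eq.1 k1
      exact ⟨⟨_, q.symm.injective.comp i1⟩⟩
    · exact ⟨(Fintype.equivFin ι).toEmbedding.trans
        (Fin.valEmbedding.trans (Infinite.natEmbedding _))⟩
  refine ⟨fun i => (f i).out.1, fun i => (f i).out.2, fun i j k => f.injective ?_⟩
  rw [← (f i).out_eq, ← (f j).out_eq, eq_comm]
  refine QuotientAddGroup.eq.2 ?_
  rwa [sub_eq_neg_add] at k

variable {n : ℕ} {w : Plc}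

theorem tak_om (hn : n % 8 = 3) (hw : w.p = 2) : ∃ c : Fin 2 × Fin 2 → Qbar,
    (∀ i, Fx (GK n ⊓ Dec w) (c i) ∧ w.V (c i) ≤ 1) ∧ ∀ i j, w.V (c i - c j) < 1 → i = j := by
  have h3 : Fx (GK n ⊓ Dec w) (rt (-3)) := fun g hg => chi_eq_one.1 (by
    have h1 := chi_dec_two (a := -3 * -n) hw (by omega) hg.2
    rwa [chi_mul (by omega) (by omega), MonoidHom.mem_ker.1 hg.1, mul_one] at h1)
  obtain ⟨ω, hω⟩ : ∃ ω, ω = (rt (-3) - 1) / 2 := ⟨_, rfl⟩
  have e : ω ^ 2 + ω + 1 = 0 := by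
    have := rt_sq (-3)
    push_cast at this
    rw [hω]
    linear_combination (1 / 4) * this
  have i : ω ∈ w.V.integer := r0_quad w (one_mem _) (by
    rw [show ω ^ 2 + 1 * ω = -1 by linear_combination e]
    exact neg_mem (one_mem _))
  refine ⟨fun i => ((i.1 : ℕ) : Qbar) + (i.2 : ℕ) * ω, fun j => ⟨fun g hg => ?_,
    (add_mem (natCast_mem _ _) (mul_mem (natCast_mem _ _) i) : _ ∈ w.V.integer)⟩, ?_⟩
  · simp only [hω, map_add, map_mul, map_natCast, map_div₀, map_sub, map_one, map_ofNat, h3 g hg]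
  have key : ∀ a b : ℤ, w.V (a + b * ω) < 1 → 2 ∣ a ^ 2 - a * b + b ^ 2 := fun a b k => by
    have k1 := r0_mul w k (a := a + b * ω ^ 2)
      (add_mem (intCast_mem _ _) (mul_mem (intCast_mem _ _) (pow_mem i 2)))
    rw [show (a + b * ω) * (a + b * ω ^ 2) = ((a ^ 2 - a * b + b ^ 2 : ℤ) : Qbar) by
      push_cast; linear_combination (a * b + b ^ 2 * (ω - 1)) * e] at k1
    by_contra k2
    exact k1.ne (w.V_int_eq_one.2 (by rwa [hw]))
  rintro ⟨a, b⟩ ⟨c, d⟩ k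
  have := key (((a : ℕ) : ℤ) - (c : ℕ)) (((b : ℕ) : ℤ) - (d : ℕ)) (by
    convert k using 2
    push_cast
    ring)
  revert this
  clear k
  revert a b c d
  decide

variable [Cw]

/-- The points fixed by a subgroup. -/
noncomputable def fixE (D : Subgroup Gam) : AddSubgroup EE where
  carrier := {P | ∀ g ∈ D, g • P = P}
  zero_mem' g _ := smul_zero g
  add_mem' h k g hg := by rw [smul_add, h g hg, k g hg]
  neg_mem' h g hg := by rw [smul_neg, h g hg]

/-- The points with small parameter. -/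
noncomputable def Kz (w : Plc) : AddSubgroup EE where
  carrier := {P | P ∈ K1 w ∧ w.V (zc P) < 2⁻¹}
  zero_mem' := ⟨zero_mem _, by simp⟩
  add_mem' := fun {P Q} h k => ⟨add_mem h.1 k.1, by
    have m : max (w.V (zc P)) (w.V (zc Q)) < 2⁻¹ := max_lt h.2 k.2
    rw [← sub_add_cancel (zc (P + Q)) (zc P + zc Q)]
    refine w.V.map_add_lt (((zc_add h.1 k.1 (le_max_left _ _) (le_max_right _ _)).trans ?_).trans_lt m)
      (w.V.map_add_lt h.2 k.2)
    exact pow_le_of_le_one zero_le (max_le (zc_lt h.1).le (zc_lt k.1).le) two_ne_zero⟩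
  neg_mem' h := ⟨neg_mem h.1, by rw [V_zc_neg h.1]; exact h.2⟩

omit [Cw] in
theorem tak_two (hw : w.p = 2) : w.V 2 = 2⁻¹ := by
  have := w.hV
  rw [hw] at this
  exact_mod_cast this

theorem Kz_two (hw : w.p = 2) {P : EE} (h : P ∈ Kz w) : w.V (zc (2 • P)) = 2⁻¹ * w.V (zc P) := by
  by_cases p0 : P = 0
  · simp [p0]
  have e : w.V (zc P + zc P) = 2⁻¹ * w.V (zc P) := by rw [← two_mul, map_mul, tak_two hw]
  rw [two_nsmul, ← sub_add_cancel (zc (P + P)) (zc P + zc P), w.V.map_add_eq_of_lt_right, e]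
  rw [e]
  refine (zc_add h.1 h.1 le_rfl le_rfl).trans_lt ?_
  rw [sq]
  exact mul_lt_mul_of_pos_right h.2 (zc_pos h.1 p0)

theorem zc_sub {P Q : EE} {m : ℝ≥0} (hP : P ∈ K1 w) (hQ : Q ∈ K1 w) (m1 : w.V (zc P) ≤ m)
    (m2 : w.V (zc Q) ≤ m) : w.V (zc (P - Q) - (zc P - zc Q)) ≤ m ^ 2 := by
  rw [show zc (P - Q) - (zc P - zc Q) = (zc (P + -Q) - (zc P + zc (-Q))) + (zc Q + zc (-Q)) by
    rw [sub_eq_add_neg P]; ring]
  exact w.V.map_add_le (zc_add hP (neg_mem hQ) m1 (by rwa [V_zc_neg hQ]))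
    ((taj_neg hQ).trans (pow_le_pow_left₀ zero_le m2 2))

theorem tak_sixteen (E : Emb) (hn : n % 8 = 3) (hw : w.p = 2) (hd : ¬ (w.p : ℤ) ∣ WZ.Δ) :
    ∃ S : (Fin 2 × Fin 2) × (Fin 2 → ZMod (2 ^ 1)) → EE, (∀ i, 2 • S i ∈ fixE (GK n ⊓ Dec w)) ∧
      ∀ i j, S i - S j ∈ fixE (GK n ⊓ Dec w) → i = j := by
  have hI : Ine w ≤ GK n ⊓ Dec w := fun σ hσ => ⟨chi_ine_two hw (by omega) hσ, hσ.1⟩
  obtain ⟨c, c1, c2⟩ := tak_om hn hw
  obtain ⟨φ, hφ⟩ := exists_frob w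
  have hφ2 : φ * φ ∈ GK n ⊓ Dec w :=
    ⟨(map_mul _ φ φ).trans (Int.units_mul_self _), mul_mem hφ.1 hφ.1⟩
  have hD : GK n ⊓ Dec w ≤ Dec w := inf_le_right
  generalize GK n ⊓ Dec w = D at *
  have v2 := tak_two hw
  obtain ⟨R, hR⟩ := taf_root w (q := w.p * w.p) (by rw [hw]; norm_num)
  replace hR : ∀ x, Fx D x → w.V x ≤ 1 → ∃ r ∈ R, w.V (x - r) < 1 := fun x h1 h2 => hR x (by
    have := (hφ.mul hφ).2 x h2
    rwa [h1 _ hφ2, w.V.map_sub_swap] at this)
  have gap : ∀ x, Fx D x → w.V x < 1 → w.V x ≤ 2⁻¹ := fun x h1 h2 => by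
    by_cases x0 : x = 0
    · simp [x0]
    obtain ⟨k, hk⟩ := V_of_fx_ine (fun g hg => h1 g (hI hg)) x0
    rw [hk, hw] at h2 ⊢
    rw [inv_lt_one₀ (by positivity), Nat.cast_ofNat, one_lt_zpow_iff_right₀ one_lt_two] at h2
    refine inv_anti₀ two_pos ?_
    simpa using zpow_le_zpow_right₀ (a := (2 : ℝ≥0)) one_le_two (show 1 ≤ k from h2)
  have fz : ∀ P ∈ fixE D, Fx D (zc P) := fun P hP g hg => by rw [← zc_smul, hP g hg]
  have f2 : ∀ x, Fx D x → Fx D (x / 2) := fun x h g hg => by rw [map_div₀, h g hg, map_ofNat]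
  have d2 : ∀ x, w.V (x / 2) = 2 * w.V x := fun x => by rw [map_div₀, v2, div_inv_eq_mul, mul_comm]
  have i1 : (fixE D ⊓ K1 w).relIndex (fixE D) ≠ 0 := by
    refine tak_fin (Finset.insertNone (R ×ˢ R)) (fun P i => i.elim (P ∈ K1 w) fun r =>
      P ∉ K1 w ∧ w.V (xco P - r.1) < 1 ∧ w.V (yco P - r.2) < 1) (fun P hP => ?_) ?_
    · by_cases k : P ∈ K1 w
      · exact ⟨none, Finset.none_mem_insertNone, k⟩
      obtain ⟨r, r1, r2⟩ := hR _ (fun g hg => by rw [← xco_smul, hP g hg]) (V_xco_le k).1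
      obtain ⟨t, t1, t2⟩ := hR _ (fun g hg => by rw [← yco_smul, hP g hg]) (V_xco_le k).2
      exact ⟨some (r, t), Finset.some_mem_insertNone.2 (Finset.mem_product.2 ⟨r1, t1⟩), k, r2, t2⟩
    · rintro P hP Q hQ (_ | r) a b
      · exact AddSubgroup.mem_inf.2 ⟨sub_mem hP hQ, sub_mem a b⟩
      · exact AddSubgroup.mem_inf.2 ⟨sub_mem hP hQ, K1_near hd a.1 b.1
          (by simpa using w.V.map_sub_lt a.2.1 b.2.1) (by simpa using w.V.map_sub_lt a.2.2 b.2.2)⟩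
  have i2 : (fixE D ⊓ Kz w).relIndex (fixE D ⊓ K1 w) ≠ 0 := by
    refine tak_fin R (fun P r => w.V (zc P / 2 - r) < 1) (fun P hP => hR _ (f2 _ (fz P hP.1)) ?_)
      fun P hP Q hQ r a b => ⟨(sub_mem hP hQ).1, (sub_mem hP hQ).2, ?_⟩
    · rw [d2]
      exact (mul_le_mul_right (gap _ (fz P hP.1) (zc_lt hP.2)) 2).trans (by norm_num)
    · have k1 := zc_sub hP.2 hQ.2 (gap _ (fz P hP.1) (zc_lt hP.2)) (gap _ (fz Q hQ.1) (zc_lt hQ.2))
      have k2 := w.V.map_sub_lt a b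
      rw [show zc P / 2 - r - (zc Q / 2 - r) = (zc P - zc Q) / 2 by ring, d2] at k2
      rw [← sub_add_cancel (zc (P - Q)) (zc P - zc Q)]
      refine w.V.map_add_lt (k1.trans_lt (by norm_num)) (lt_of_mul_lt_mul_left (a := 2) ?_ zero_le)
      rwa [mul_inv_cancel₀ two_ne_zero]
  have v4 : ∀ x, w.V (4 * x) = 2⁻¹ * 2⁻¹ * w.V x := fun x => by
    rw [show (4 : Qbar) = 2 * 2 by norm_num, map_mul, map_mul, v2]
  have v5 : ∀ i, w.V (4 * c i) ≤ 2⁻¹ * 2⁻¹ := fun i => by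
    rw [v4]; exact mul_le_of_le_one_right' (c1 i).2
  choose b b1 b2 using fun i => exists_zc (w := w) (z := 4 * c i) ((v5 i).trans_lt (by norm_num))
  have b3 : ∀ i, b i ∈ fixE D ⊓ Kz w := fun i => ⟨fun g hg => zc_inj ((K1_smul (hD hg)).2 (b1 i))
    (b1 i) (by rw [zc_smul, b2, map_mul, map_ofNat, (c1 i).1 g hg]), b1 i, by
      rw [b2]; exact (v5 i).trans_lt (by norm_num)⟩
  choose H hH using fun i => exists_half (b i)
  have t2 : ∀ x, 2 • E.emb 1 x = 0 := E.tors 1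
  refine tak_idx (B := fixE D ⊓ Kz w) (nsmulAddMonoidHom 2) exists_half
    (fun P hP => nsmul_mem hP 2) (fun P hP => nsmul_mem hP 2) inf_le_left
    (AddSubgroup.relIndex_ne_zero_trans i2 i1) (fun i => H i.1 + E.emb 1 i.2) (fun i => ?_) ?_
  · rw [nsmulAddMonoidHom_apply, smul_add, hH, t2, add_zero]
    exact b3 _
  rintro ⟨i, x⟩ ⟨j, y⟩ k
  have k1 := Kz_two hw k.2
  obtain rfl : i = j := c2 i j (by
    have k2 := gap _ (f2 _ (fz _ k.1)) (by
      rw [d2]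
      exact (mul_lt_mul_of_pos_left k.2.2 two_pos).trans_eq (mul_inv_cancel₀ two_ne_zero))
    rw [d2] at k2
    rw [smul_sub, smul_add, smul_add, hH, hH, t2, t2, add_zero, add_zero] at k1
    have k3 := zc_sub (b1 i) (b1 j) (b2 i ▸ v5 i) (b2 j ▸ v5 j)
    have k4 : w.V (4 * (c i - c j)) < 2⁻¹ * 2⁻¹ * 1 := by
      rw [mul_sub, ← b2, ← b2, ← sub_sub_cancel (zc (b i - b j)) (zc (b i) - zc (b j))]
      refine w.V.map_sub_lt ?_ (k3.trans_lt (by norm_num))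
      rw [k1]
      generalize w.V (zc _) = t at k2
      rw [← NNReal.coe_le_coe] at k2
      rw [← NNReal.coe_lt_coe]
      push_cast at k2 ⊢
      linarith
    rw [v4] at k4
    exact lt_of_mul_lt_mul_left k4 zero_le)
  simp only [add_sub_add_left_eq_sub] at k k1
  rw [smul_sub, t2, t2, sub_zero, zc_zero, map_zero] at k1
  have k5 : E.emb 1 x - E.emb 1 y = 0 := by_contra fun e =>
    (mul_pos (by norm_num) (zc_pos k.2.1 e)).ne k1
  rw [E.inj 1 (sub_eq_zero.1 k5)]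

theorem tak_cnt {D : Subgroup Gam} {ι : Type} [Fintype ι] {S : ι → EE} (h1 : ∀ i, 2 • S i ∈ fixE D)
    (h2 : ∀ i j, S i - S j ∈ fixE D → i = j) (m : ℕ) : ∃ s : Finset (Gam → EE),
      s.card = Fintype.card ι ^ m ∧ ∀ ξ ∈ s, (∀ g ∉ D, ξ g = 0) ∧
      (∀ g, 2 ^ m • ξ g = 0) ∧ ∃ S : EE, ∀ g ∈ D, ξ g = g • S - S := by
  induction m with
  | zero =>
    refine ⟨{0}, rfl, fun ξ hξ => ?_⟩
    rw [Finset.mem_singleton.1 hξ]
    exact ⟨fun _ _ => rfl, fun _ => smul_zero _, 0, fun g _ => by simp⟩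
  | succ m ih =>
    obtain ⟨s, hs, hz⟩ := ih
    choose R hR using fun i => tab_half m (S i)
    let η : ι → Gam → EE := fun i g => if g ∈ D then g • R i - R i else 0
    have e1 : ∀ i, ∀ g ∈ D, η i g = g • R i - R i := fun i g hg => if_pos hg
    have e0 : ∀ i, ∀ g ∉ D, η i g = 0 := fun i g hg => if_neg hg
    have e2 : ∀ i, ∀ g ∈ D, 2 ^ m • η i g = g • S i - S i :=
      fun i g hg => by rw [e1 i g hg, smul_sub, smul_comm, hR]
    refine ⟨(Finset.univ ×ˢ s).image fun t => η t.1 + t.2, ?_, fun ξ hξ => ?_⟩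
    · rw [Finset.card_image_of_injOn, Finset.card_product, hs, Finset.card_univ, pow_succ']
      rintro ⟨i, ξ⟩ hξ ⟨j, ξ'⟩ hξ' e
      have k : η i + ξ = η j + ξ' := e
      have a1 := (hz ξ (Finset.mem_product.1 hξ).2).2.1
      have a2 := (hz ξ' (Finset.mem_product.1 hξ').2).2.1
      obtain rfl : i = j := h2 i j fun g hg => by
        have k2 := congrArg (fun f : Gam → EE => 2 ^ m • f g) k
        simp only [Pi.add_apply, smul_add, a1, a2, add_zero, e2 _ g hg] at k2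
        rw [smul_sub, sub_eq_sub_iff_sub_eq_sub, k2]
      rw [add_left_cancel k]
    · obtain ⟨⟨i, ξ'⟩, h', rfl⟩ := Finset.mem_image.1 hξ
      obtain ⟨a0, a1, Q, a2⟩ := hz ξ' (Finset.mem_product.1 h').2
      dsimp only
      refine ⟨fun g hg => ?_, fun g => ?_, R i + Q, fun g hg => ?_⟩
      · rw [Pi.add_apply, e0 i g hg, a0 g hg, add_zero]
      · rw [Pi.add_apply, pow_succ', mul_smul, smul_add, a1, add_zero]
        by_cases hg : g ∈ D
        · rw [e2 i g hg, smul_sub, smul_comm, h1 i g hg, sub_self]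
        · rw [e0 i g hg, smul_zero, smul_zero]
      · rw [Pi.add_apply, e1 i g hg, a2 g hg, smul_add]
        abel

theorem Emb.kumc (E : Emb) (n m : ℕ) (w : Plc) (hn : n % 8 = 3) (hw : w.p = 2)
    (hd : ¬ (w.p : ℤ) ∣ WZ.Δ) : (16 ^ m : ℕ∞) ≤
    Set.encard {c : Gam → Fin 2 → ZMod (2 ^ m) | (∀ g ∉ GK n ⊓ Dec w, c g = 0) ∧
      ∃ S : EE, ∀ g ∈ GK n ⊓ Dec w, E.emb m (c g) = g • S - S} := by
  obtain ⟨S, h1, h2⟩ := tak_sixteen E hn hw hd
  obtain ⟨s, hs, hz⟩ := tak_cnt h1 h2 m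
  choose! f hf using E.surj m
  have e : (16 ^ m : ℕ∞) = (s : Set (Gam → EE)).encard := by
    rw [Set.encard_coe_eq_coe_finsetCard, hs]
    norm_cast
  rw [e]
  refine Set.encard_le_encard_of_injOn (f := fun ξ g => f (ξ g)) (fun ξ hξ => ?_)
    fun ξ hξ ξ' hξ' k => funext fun g => ?_
  · obtain ⟨a0, a1, Q, a2⟩ := hz ξ hξ
    refine ⟨fun g hg => E.inj m ?_, Q, fun g hg => ?_⟩
    · rw [hf _ (a1 g), a0 g hg, map_zero]
    · rw [hf _ (a1 g), a2 g hg]
  · rw [← hf _ ((hz ξ hξ).2.1 g), ← hf _ ((hz ξ' hξ').2.1 g)]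
    exact congrArg _ (congrFun k g)

end Pool.Agent.B6
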