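import Pool.Agent.Lib.MP_696deb_nt.B6.D1
import Pool.Agent.Lib.MP_696deb_nt.B6.TAa
import Pool.Agent.Lib.MP_696deb_nt.B6.TAc
import Pool.Agent.Lib.MP_696deb_nt.B6.TAi
import Pool.Agent.Lib.MP_696deb_nt.B6.TAk

/-! The Tate module. -/

set_option autoImplicit false

namespace Pool.Agent.B6

open Pool.Agent.Lib.MP_696deb_nt.B2

section

variable [Cs]

theorem mta_c4 : WZ.c₄ ≠ 0 := fun k => by
  obtain ⟨p, hp, h⟩ := Nat.exists_prime_and_dvd NN_gt.ne'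
  exact (Nat.prime_iff_prime_int.1 hp).not_isUnit
    (WZ_cop.isUnit_of_dvd' (k ▸ dvd_zero _) ((dvd_Δ hp).2 h))

theorem mta_c6 : WZ.c₆ ≠ 0 := fun k => by
  obtain ⟨p, hp, h⟩ := Nat.exists_prime_and_dvd NN_gt.ne'
  have h1 := (dvd_Δ hp).2 h
  have h2 := Nat.prime_iff_prime_int.1 hp
  have e := WZ.c_relation
  rw [k] at e
  refine h2.not_isUnit (WZ_cop.isUnit_of_dvd' (h2.dvd_of_dvd_pow (n := 3) ?_) h1)
  rw [show WZ.c₄ ^ 3 = 1728 * WZ.Δ by linear_combination -e]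
  exact h1.mul_left _

theorem mta_good {w : Plc} (h : ¬ w.p ∣ 2 * NN) : w.p ≠ 2 ∧ ¬ (w.p : ℤ) ∣ WZ.Δ :=
  ⟨fun k => h (k ▸ dvd_mul_right 2 NN), fun k => h (((dvd_Δ w.prime).1 k).mul_left 2)⟩

theorem exists_TB : ∃ T : TB, T.ρ cc = !![0, 1; 1, 0] :=
  (exists_emb mta_c4 mta_c6).elim fun E => exists_conj E WZ_neg

end

theorem m_tate [Md] (he : EsStmt al MM) : Nonempty Tate := by
  obtain ⟨T, hc⟩ := exists_TB
  exact ⟨⟨T.ρ, T.emb, T.inj, T.surj, T.two, T.smul, T.sm, T.det, hc, T.iso,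
    fun n m w hn hw => T.kumc n m w hn hw fun k => ne_two_of_dvd ((dvd_Δ w.prime).1 k) hw,
    fun w hw => T.unr w (mta_good hw).1 (mta_good hw).2, he,
    fun w φ hw h => T.tr w φ _ (mta_good (nd_of_MM hw)).1 h fun P => he w φ P hw h,
    fun w φ f u hw => T.hasse w φ f u (mta_good hw).1 (mta_good hw).2,
    fun w φ hw => T.par w φ (mta_good hw).1 (mta_good hw).2, T.mult, T.big,
    fun _ hw => div_ine hw⟩⟩

end Pool.Agent.B6
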