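import Pool.Agent.Lib.MP_696deb_nt.B6.Red0

/-! Semistable curves with negative discriminant and irreducible two-division cubic. -/

set_option autoImplicit false

namespace Pool.Agent.B6

/-- The discriminant is `-N s ^ 2` with `N` its radical, the reduction is multiplicative at the
primes of `N`, and there is no rational point of order two. -/
class Cs extends Cw where
  N : ℕ
  sqf : Squarefree N
  odd : Odd N
  gt : 1 < N
  disc : ∃ s : ℤ, W.Δ = -(N * s ^ 2)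
  rad : ∀ p : ℕ, p.Prime → (p : ℤ) ∣ W.Δ → p ∣ N
  cop : IsCoprime W.c₄ W.Δ
  irr : ∀ x : ℚ, 4 * x ^ 3 + W.b₂ * x ^ 2 + 2 * W.b₄ * x + W.b₆ ≠ 0

variable [Cs]

/-- The conductor. -/
def NN : ℕ := Cs.N

theorem NN_sqf : Squarefree NN := Cs.sqf

theorem NN_odd : Odd NN := Cs.odd

theorem NN_gt : 1 < NN := Cs.gt

theorem NN_pos : 0 < NN := NN_odd.pos

theorem NN_ne : NN ≠ 0 := NN_pos.ne'

theorem WZ_disc : ∃ s : ℤ, s ≠ 0 ∧ WZ.Δ = -(NN * s ^ 2) := by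
  obtain ⟨s, hs⟩ : ∃ s : ℤ, WZ.Δ = -(NN * s ^ 2) := Cs.disc
  exact ⟨s, fun k => WZ_ne (by rw [hs, k]; ring), hs⟩

theorem WZ_neg : WZ.Δ < 0 := by
  obtain ⟨s, h0, hs⟩ := WZ_disc
  have := NN_pos
  rw [hs, neg_lt_zero]
  positivity

theorem dvd_Δ {p : ℕ} (hp : p.Prime) : (p : ℤ) ∣ WZ.Δ ↔ p ∣ NN := by
  refine ⟨Cs.rad p hp, fun h => ?_⟩
  obtain ⟨s, -, hs⟩ := WZ_disc
  rw [hs, dvd_neg]
  exact (Int.natCast_dvd_natCast.2 h).mul_right _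

theorem WZ_cop : IsCoprime WZ.c₄ WZ.Δ := Cs.cop

theorem cub_irr (x : ℚ) : cub x ≠ 0 := Cs.irr x

theorem ne_two_of_dvd {p : ℕ} (h : p ∣ NN) : p ≠ 2 := by
  rintro rfl
  exact Nat.not_even_iff_odd.2 NN_odd (even_iff_two_dvd.2 h)

/-- The valuation of the discriminant at a bad prime is odd. -/
theorem val_Δ {p : ℕ} (hp : p.Prime) (h : p ∣ NN) :
    ∃ (k : ℕ) (u : ℤ), Odd k ∧ ¬ (p : ℤ) ∣ u ∧ WZ.Δ = p ^ k * u := by
  obtain ⟨s, h0, hs⟩ := WZ_disc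
  obtain ⟨M, hM⟩ := h
  have h1 : ¬ p ∣ M := fun ⟨t, ht⟩ => hp.prime.not_isUnit (NN_sqf p ⟨t, by rw [hM, ht, mul_assoc]⟩)
  have hp' := Nat.prime_iff_prime_int.1 hp
  obtain ⟨j, t, h2, rfl⟩ := WfDvdMonoid.max_power_factor h0 hp'.irreducible
  refine ⟨2 * j + 1, -(M * t ^ 2), odd_two_mul_add_one j, fun k => ?_, by
    rw [hs, hM]; push_cast; ring⟩
  rcases hp'.dvd_or_dvd (dvd_neg.1 k) with k | k
  · exact h1 (Int.natCast_dvd_natCast.1 k)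
  · exact h2 (hp'.dvd_of_dvd_pow k)

/-- The two-division cubic has a root modulo `l`. -/
def Rt (l : ℕ) : Prop := ∃ x : ZMod l, cub x = 0

end Pool.Agent.B6
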