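import Pool.Agent.Lib.MP_696deb_nt.B6.PTb
import Pool.Agent.Lib.MP_696deb_nt.B6.CH6
import Pool.Agent.Lib.MP_696deb_nt.B2.GWa

/-! Varying a prime of order three until at most one class lifts. -/

set_option autoImplicit false

open scoped NNReal Classical
open Finset Matrix

namespace Pool.Agent.Lib.MP_696deb_nt.B6

open Pool.Agent.Lib.MP_696deb_nt.B2

variable {r : Gam →* M2} {P : Finset ℕ} {a b : Gam → V2} {s g u : Gam}
  {S : AddSubgroup (Gam → V2)} {φ : S → S → Gam → ZMod 2}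

theorem pt_inj {ι α : Type} [Fintype ι] (Q : ι → α → Prop) (p : α → ℕ)
    (h : ∀ (i : ι) (B : Finset ℕ), ∃ x, p x ∉ B ∧ Q i x) :
    ∃ x : ι → α, (∀ i, Q i (x i)) ∧ ∀ i j, p (x i) = p (x j) → i = j := by
  suffices ∀ t : Finset ι, ∃ x : ι → α, (∀ i, Q i (x i)) ∧
      ∀ i ∈ t, ∀ j ∈ t, p (x i) = p (x j) → i = j by
    obtain ⟨x, h1, h2⟩ := this univ
    exact ⟨x, h1, fun i j => h2 i (mem_univ i) j (mem_univ j)⟩
  intro t
  induction t using Finset.induction_on with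
  | empty => exact ⟨fun i => (h i ∅).choose, fun i => (h i ∅).choose_spec.2, by simp⟩
  | insert k t hk ih =>
    obtain ⟨x, h1, h2⟩ := ih
    obtain ⟨y, h3, h4⟩ := h k (t.image fun i => p (x i))
    have h5 : ∀ i ∈ t, Function.update x k y i = x i := fun i hi =>
      Function.update_of_ne (ne_of_mem_of_not_mem hi hk) _ _
    refine ⟨Function.update x k y, fun i => ?_, fun i hi j hj e => ?_⟩
    · by_cases e : i = k
      · rwa [e, Function.update_self]
      · rw [Function.update_of_ne e]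
        exact h1 i
    · rcases mem_insert.1 hi with k1 | k1 <;> rcases mem_insert.1 hj with k2 | k2
      · rw [k1, k2]
      · rw [k1, Function.update_self, h5 j k2] at e
        exact absurd (mem_image.2 ⟨j, k2, e.symm⟩) h3
      · rw [k2, Function.update_self, h5 i k1] at e
        exact absurd (mem_image.2 ⟨i, k1, e⟩) h3
      · rw [h5 i k1, h5 j k2] at e
        exact h2 i k1 j k2 e

theorem pt_zero (ha : Cc r a) (hb : Cc r b) (hs : Ord3 (r s)) (h1 : r g = 1) (h2 : a g ≠ 0)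
    (h3 : ∀ h, r h = 1 → a h = 0 → b h = 0) {h : Gam} (h4 : r h = 1) :
    (a h = 0 ∧ b h = 0) ∨ (a h = a g ∧ b h = b g) ∨ (a h = r s *ᵥ a g ∧ b h = r s *ᵥ b g) ∨
      (a h = r s *ᵥ r s *ᵥ a g ∧ b h = r s *ᵥ r s *ᵥ b g) := by
  have k : ∀ t, r t = 1 → a h = a t → b h = b t := fun t k1 k2 => by
    have k3 := h3 (t * h) (by rw [map_mul, k1, h4, mul_one])
      (by rw [ha.mul, k1, one_mulVec, k2, v2_self])
    rw [hb.mul, k1, one_mulVec] at k3
    exact add_left_cancel (k3.trans (v2_self _).symm)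
  rcases hs.span h2 (a h) with e | e | e | e
  · exact .inl ⟨e, h3 h h4 e⟩
  · exact .inr (.inl ⟨e, k g h1 e⟩)
  · exact .inr (.inr (.inl ⟨e, (k _ (r_conj s h1) (e.trans (ha.conj s h1).symm)).trans
      (hb.conj s h1)⟩))
  · refine .inr (.inr (.inr ⟨e, ?_⟩))
    rw [k _ (r_conj s (r_conj s h1)) (by rw [e, ha.conj s (r_conj s h1), ha.conj s h1]),
      hb.conj s (r_conj s h1), hb.conj s h1]

theorem pt_ker (hr : Rep P r) (ha : Cc r a) (hb : Cc r b) (hs : Ord3 (r s)) (a0 : a s = 0)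
    (b0 : b s = 0) (h1 : r g = 1) (h2 : a g ≠ 0)
    (h3 : ∀ h, r h = 1 → a h = 0 → dt (a g) (b h) = 0) : b = 0 ∨ b = a := by
  have h4 : ∀ h, r h = 1 → a h = 0 → b h = 0 := fun h k1 k2 => hs.perp h2 (h3 h k1 k2) (by
    rw [← hb.conj s k1]
    exact h3 _ (r_conj s k1) (by rw [ha.conj s k1, k2, mulVec_zero]))
  have h5 := fun {h} (k : r h = 1) => pt_zero ha hb hs h1 h2 h4 k
  have h6 := h5 (r_conj cc h1)
  rw [ha.conj cc h1, hb.conj cc h1] at h6
  have h7 : r cc * r cc = 1 := by rw [← map_mul, cc_mul_cc, map_one]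
  have h8 : Same (r s) (r cc) (a g) (b g) := by
    revert h6 h2 hs h7
    generalize r s = A, r cc = T, a g = x, b g = y
    intro hs h2 h6 h7
    have k1 : ∀ {A : M2}, Ord3 A → ∀ {x : V2}, x ≠ 0 →
        x ≠ A *ᵥ x ∧ x ≠ A *ᵥ A *ᵥ x ∧ A *ᵥ x ≠ A *ᵥ A *ᵥ x := by decide +kernel
    have k2 : T *ᵥ x ≠ 0 := fun e => h2 (by
      rw [← one_mulVec x, ← h7, ← mulVec_mulVec, e, mulVec_zero])
    obtain ⟨k3, k4, k5⟩ := k1 hs h2
    rcases h6 with ⟨e, -⟩ | ⟨e, e'⟩ | ⟨e, e'⟩ | ⟨e, e'⟩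
    · exact absurd e k2
    · exact ⟨fun _ => e', fun k => absurd (e.symm.trans k) k3, fun k => absurd (e.symm.trans k) k4⟩
    · exact ⟨fun k => absurd (k.symm.trans e) k3, fun _ => e', fun k => absurd (e.symm.trans k) k5⟩
    · exact ⟨fun k => absurd (k.symm.trans e) k4, fun k => absurd (k.symm.trans e) k5, fun _ => e'⟩
  rcases hs.endo h7 hr.cc h2 h8 with e | e
  · refine .inl (hb.eq_zero hs b0 fun h hh => ?_)
    rcases h5 hh with k | k | k | k <;> simp [k.2, e]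
  · refine .inr (sub_eq_zero.1 ((hb.sub ha).eq_zero hs (by simp [a0, b0]) fun h hh => ?_))
    rcases h5 hh with k | k | k | k <;> simp [k.1, k.2, e]

/-- Primes of order three with the quadratic symbols of `s`. -/
structure Cl (P : Finset ℕ) (r : Gam →* M2) (s : Gam) (w : Plc) (f : Gam) : Prop where
  out : w.p ∉ P
  frob : IsFrob w w.p f
  ord : Ord3 (r f)
  neg : chi (-1) f = chi (-1) s
  sym : ∀ l ∈ P, chi l f = chi l s

/-- The elements by which the class is varied. -/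
structure Nn (P : Finset ℕ) (r : Gam →* M2) (S : AddSubgroup (Gam → V2)) (u : Gam) : Prop where
  one : r u = 1
  zero : ∀ a ∈ S, a u = 0
  neg : chi (-1) u = 1
  sym : ∀ l ∈ P, chi l u = 1

theorem Nn.id (hS : ∀ a ∈ S, Cc r a) : Nn P r S 1 :=
  ⟨map_one _, fun a ha => (hS a ha).one, map_one _, fun _ _ => map_one _⟩

theorem Nn.mul (hS : ∀ a ∈ S, Cc r a) (h : Nn P r S g) (h' : Nn P r S u) : Nn P r S (g * u) :=
  ⟨by rw [map_mul, h.one, h'.one, mul_one], fun a ha => by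
    rw [(hS a ha).mul_zero _ (h'.zero a ha), h.zero a ha], by rw [map_mul, h.neg, h'.neg, mul_one],
    fun l hl => by rw [map_mul, h.sym l hl, h'.sym l hl, mul_one]⟩

theorem Nn.inv (hS : ∀ a ∈ S, Cc r a) (h : Nn P r S u) : Nn P r S u⁻¹ :=
  ⟨by rw [← r_inv r u, h.one, one_mul], fun a ha => (hS a ha).inv (h.zero a ha),
    by rw [map_inv, h.neg, inv_one], fun l hl => by rw [map_inv, h.sym l hl, inv_one]⟩

theorem Nn.conj (hS : ∀ a ∈ S, Cc r a) (h : Nn P r S u) (g : Gam) : Nn P r S (g * u * g⁻¹) :=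
  ⟨r_conj g h.one, fun a ha => by rw [(hS a ha).conj g h.one, h.zero a ha, mulVec_zero],
    by rw [map_mul, map_mul, h.neg, mul_one, ← map_mul, mul_inv_cancel, map_one], fun l hl => by
      rw [map_mul, map_mul, h.sym l hl, mul_one, ← map_mul, mul_inv_cancel, map_one]⟩

theorem Nn.comm (hS : ∀ a ∈ S, Cc r a) (h : r g = 1) (h' : r u = 1) :
    Nn P r S (g * u * g⁻¹ * u⁻¹) := by
  have k : ∀ m : ℤ, chi m (g * u * g⁻¹ * u⁻¹) = 1 := fun m => by
    rw [map_mul, map_mul, map_mul, map_inv, map_inv, mul_inv_cancel_comm, mul_inv_cancel]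
  refine ⟨by rw [map_mul, r_conj g h', one_mul, ← r_inv r u, h', one_mul], fun a ha => ?_, k _,
    fun l _ => k l⟩
  have k1 := (hS a ha).mul u u⁻¹
  rw [mul_inv_cancel, (hS a ha).one, h', one_mulVec] at k1
  rw [(hS a ha).mul, (hS a ha).conj g h', r_conj g h', h, one_mulVec, one_mulVec, ← k1]

theorem pt_cheb [Finite S] (hr : Rep P r) (hs : Ord3 (r s)) (hS : ∀ a ∈ S, Cc r a)
    (hφ : ∀ a b : S, Gov r a b (φ a b)) (hu : Nn P r S u) (B : Finset ℕ) :
    ∃ x : Plc × Gam, x.1.p ∉ B ∧ Cl P r s x.1 x.2 ∧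
      ∀ a b, φ a b (x.2 ^ 3) = φ a b (s ^ 3) + φ a b u := by
  let U : Subgroup Gam :=
    { carrier := {v | Nn P r S v ∧ ∀ a b, φ a b v = 0}
      one_mem' := ⟨.id hS, fun a b => (hφ a b).one (hS a a.2)⟩
      mul_mem' := fun h h' => ⟨h.1.mul hS h'.1, fun a b => by
        rw [(hφ a b).left (h.1.zero a a.2), h.2, h'.2, add_zero]⟩
      inv_mem' := fun {v} h => ⟨h.1.inv hS, fun a b => by
        have := (hφ a b).left (h.1.zero a a.2) v⁻¹
        rw [mul_inv_cancel, (hφ a b).one (hS a a.2), h.2, zero_add] at this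
        exact this.symm⟩ }
  have u1 : U.Normal := ⟨fun v h g => ⟨h.1.conj hS g, fun a b => by
    rw [(hφ a b).conj (hS a a.2) g h.1.one (h.1.zero a a.2) (h.1.zero b b.2), h.2]⟩⟩
  have u2 : Op U := by
    obtain ⟨W, w1, -, w3⟩ := ((hr.sm.comp₂ (Sm.pi fun a : S => (hS a a.2).sm) Prod.mk).comp₂
      ((sm_chi (-1)).comp₂ (Sm.pi fun l : P => sm_chi (l : ℕ)) Prod.mk) Prod.mk).comp₂
      (Sm.pi fun a : S => Sm.pi fun b : S => (hφ a b).sm) Prod.mk
    refine Subgroup.isOpen_mono (fun v hv => ?_) w1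
    have k := w3 1 trivial v trivial (by simpa using hv)
    simp only [Prod.mk.injEq, map_one] at k
    exact ⟨⟨k.1.1.1.symm, fun a ha => (congrFun k.1.1.2 ⟨a, ha⟩).symm.trans (hS a ha).one,
      k.1.2.1.symm, fun l hl => (congrFun k.1.2.2 ⟨l, hl⟩).symm⟩, fun a b =>
      (congrFun (congrFun k.2 a) b).symm.trans ((hφ a b).one (hS a a.2))⟩
  have h1 : Ord3 (r (s * u)) := by rwa [map_mul, hu.one, mul_one]
  have h2 : ∀ m : ℤ, chi m ((s * u) ^ 6 ^ 1) = 1 := fun m => by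
    rw [map_pow, show 6 ^ 1 = 2 * 3 by norm_num, pow_mul, Int.units_sq, one_pow]
  have h3 : ∀ a ∈ S, a ((s * u) ^ 3) = 0 := fun a ha => (hS a ha).cube h1
  obtain ⟨w, f, k, k1, k2, k3, k4⟩ := cheb6 u2 u1 (s := s * u) (k := 1)
    ⟨⟨by rw [show 6 ^ 1 = 3 * 2 by norm_num, pow_mul, map_pow, r_cube h1, one_pow], fun a ha => by
      rw [show 6 ^ 1 = 3 * 2 by norm_num, pow_mul, (hS a ha).pow (h3 a ha)], h2 _, fun l _ => h2 l⟩,
      fun a b => by
        rw [show 6 ^ 1 = 3 * 2 by norm_num, pow_mul, sq, (hφ a b).left (h3 a a.2), z2_self]⟩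
    (B ∪ P)
  rw [mem_union, not_or] at k1
  have k5 : Odd k := Nat.coprime_two_right.1 (k3.coprime_dvd_right (by norm_num))
  have k6 : ¬ 3 ∣ k := Nat.prime_three.coprime_iff_not_dvd.1
    (k3.coprime_dvd_right (by norm_num)).symm
  obtain ⟨v, hv, e⟩ : ∃ v ∈ U, (s * u) ^ k = f * v := ⟨_, k4, (mul_inv_cancel_left _ _).symm⟩
  have k7 : ∀ m : ℤ, chi m v = 1 → chi m u = 1 → chi m f = chi m s := fun m e1 e2 => by
    have := congrArg (chi m) e
    rwa [map_mul, e1, mul_one, map_pow, map_mul, e2, mul_one, Int.units_pow_eq_pow_mod_two,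
      Nat.odd_iff.1 k5, pow_one, eq_comm] at this
  refine ⟨(w, f), k1.1, ⟨k1.2, k2, ?_, k7 _ hv.1.neg hu.neg,
    fun l hl => k7 _ (hv.1.sym l hl) (hu.sym l hl)⟩, fun a b => ?_⟩
  · have := h1.pow k6
    rwa [← map_pow, e, map_mul, hv.1.one, mul_one] at this
  · have k8 := (hφ a b).cube (hS a a.2) (hS b b.2) f hv.1.one (hv.1.zero a a.2) (hv.1.zero b b.2)
    rw [← e, ← pow_mul, mul_comm k, pow_mul, (hφ a b).pow (hS a a.2) (h3 b b.2), hv.2, add_zero,
      (hφ a b).cube (hS a a.2) (hS b b.2) s hu.one (hu.zero a a.2) (hu.zero b b.2),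
      (ZMod.natCast_eq_one_iff_odd).2 k5, one_mul] at k8
    exact k8.symm

theorem pt_card [Finite S] (hr : Rep P r) (hs : Ord3 (r s)) (hS : ∀ a ∈ S, Cc r a ∧ a s = 0)
    (hφ : ∀ a b : S, Gov r a b (φ a b)) {a : S} (a0 : a ≠ 0) (Y : AddSubgroup (S → ZMod 2))
    (hY : ∀ u, Nn P r S u → (fun b => φ a b u) ∈ Y) : Nat.card S ≤ 2 * Nat.card Y := by
  have ha := (hS a a.2).1
  obtain ⟨g, h1, h2⟩ : ∃ g, r g = 1 ∧ a.1 g ≠ 0 := by
    by_contra k
    exact a0 (Subtype.ext (ha.eq_zero hs (hS a a.2).2 fun g hg =>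
      by_contra fun k' => k ⟨g, hg, k'⟩))
  let W : AddSubgroup (S →+ ZMod 2) :=
    { carrier := {y | ∃ h, r h = 1 ∧ a.1 h = 0 ∧ ∀ b : S, y b = dt (a.1 g) (b.1 h)}
      zero_mem' := ⟨1, map_one _, ha.one, fun b => by rw [(hS b b.2).1.one, dt_zero_right]; rfl⟩
      add_mem' := by
        rintro y y' ⟨h, k1, k2, k3⟩ ⟨h', k1', k2', k3'⟩
        exact ⟨h * h', by rw [map_mul, k1, k1', mul_one], by rw [ha.mul_zero _ k2', k2], fun b => by
          rw [(hS b b.2).1.mul, k1, one_mulVec, dt_add_right, ← k3, ← k3']; rfl⟩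
      neg_mem' := by
        rintro y ⟨h, k1, k2, k3⟩
        exact ⟨h, k1, k2, fun b => by rw [← k3]; exact ZMod.neg_eq_self_mod_two _⟩ }
  have : Finite (S →+ ZMod 2) := finite_hom
  have h3 := card_ann (AddMonoidHom.id (S →+ ZMod 2)) W
  rw [show (AddMonoidHom.id (S →+ ZMod 2)).ker = ⊥ from
    (AddMonoidHom.ker_eq_bot_iff _).2 Function.injective_id, inf_bot_eq, AddSubgroup.card_bot,
    mul_one] at h3
  have h4 : Nat.card (ann (AddMonoidHom.id (S →+ ZMod 2)) W) ≤ 2 := by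
    have k1 : (ann (AddMonoidHom.id (S →+ ZMod 2)) W : Set S) ⊆ {0, a} := fun b hb => by
      rcases pt_ker hr ha (hS b b.2).1 hs (hS a a.2).2 (hS b b.2).2 h1 h2 fun h k1 k2 =>
        hb (AddMonoidHom.mk' (fun b : S => dt (a.1 g) (b.1 h)) fun _ _ => dt_add_right _ _ _)
          ⟨h, k1, k2, fun _ => rfl⟩ with e | e
      exacts [.inl (Subtype.ext e), .inr (Subtype.ext e)]
    exact (Set.ncard_le_ncard k1).trans ((Set.ncard_insert_le _ _).trans (by simp))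
  have h5 : Nat.card W ≤ Nat.card Y := Nat.card_le_card_of_injective
    (fun y : W => (⟨y.1, by
      obtain ⟨h, k1, k2, k3⟩ := y.2
      have := hY _ (.comm (fun a ha => (hS a ha).1) h1 k1)
      simp only [(hφ a _).comm ha h1 k1 k2, ← k3] at this
      exact this⟩ : Y)) fun y y' e => Subtype.ext (DFunLike.coe_injective (congrArg Subtype.val e))
  rw [← h3, mul_comm]
  exact Nat.mul_le_mul h4 h5

/-- For some prime of the class at most one nonzero cocycle lifts. -/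
theorem pt_core (F : CFT) (hr : Rep P r) (hs : Ord3 (r s)) (S : AddSubgroup (Gam → V2)) [Finite S]
    (hS : ∀ a ∈ S, Cc r a ∧ a s = 0 ∧ Unr P a)
    (iso : ∀ a ∈ S, ∀ b ∈ S, ∀ w : Plc, w.p ∈ P → Spl 1 (Dec w) (cp r a b))
    (L : ℕ → Set (Gam → V2))
    (hL : ∀ w f w' f', Cl P r s w f → Cl P r s w' f' → w.p ≠ w'.p → ∀ a ∈ S, a ∈ L w.p →
      a ∈ L w'.p → ∃ c, Dif r (xi (w.p * w'.p)) a c ∧ Unr (insert w.p (insert w'.p P)) c ∧
        ∀ b ∈ S, ∀ v : Plc, v.p ∈ P → Spl 1 (Dec v) (cp r c b)) (B : Finset ℕ) :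
    ∃ w f, w.p ∉ B ∧ Cl P r s w f ∧ ∃ a₀, ∀ a ∈ S, a ∈ L w.p → a = 0 ∨ a = a₀ := by
  by_contra hcon
  have h0 : ∀ a ∈ S, Cc r a := fun a ha => (hS a ha).1
  choose φ hφ uφ using fun a b : S => exists_gov F hr (h0 a a.2) (h0 b b.2) (hS a a.2).2.2
    (hS b b.2).2.2 (iso a a.2 b b.2)
  let Ω : AddSubgroup (S → S → ZMod 2) :=
    { carrier := {ω | ∃ u, Nn P r S u ∧ ∀ a b, ω a b = φ a b u}
      zero_mem' := ⟨1, .id h0, fun a b => ((hφ a b).one (h0 a a.2)).symm⟩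
      add_mem' := by
        rintro y y' ⟨u, k1, k2⟩ ⟨u', k1', k2'⟩
        exact ⟨u * u', k1.mul h0 k1', fun a b => by
          rw [(hφ a b).left (k1.zero a a.2), ← k2, ← k2']; rfl⟩
      neg_mem' := by
        rintro y ⟨u, k1, k2⟩
        exact ⟨u, k1, fun a b => by rw [← k2]; exact ZMod.neg_eq_self_mod_two _⟩ }
  have := Fintype.ofFinite S
  have := Fintype.ofFinite Ω
  obtain ⟨x, h1, h2⟩ := pt_inj (fun (ω : Ω) (x : Plc × Gam) => x.1.p ∉ B ∧ Cl P r s x.1 x.2 ∧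
      ∀ a b, φ a b (x.2 ^ 3) = φ a b (s ^ 3) + ω.1 a b) (fun x => x.1.p) fun ω B' => by
    obtain ⟨u, k1, k2⟩ := ω.2
    obtain ⟨x, k3, k4, k5⟩ := pt_cheb hr hs h0 hφ k1 (B' ∪ B)
    rw [mem_union, not_or] at k3
    exact ⟨x, k3.1, k3.2, k4, fun a b => by rw [k5, k2]⟩
  have h3 := card_mul_le_card_mul (s := (univ : Finset Ω)) (t := (univ : Finset S).erase 0)
    (m := 2) (n := 2 * Nat.card Ω / Nat.card S) (fun ω a => a.1 ∈ L (x ω).1.p)
    (fun ω _ => by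
      by_contra k
      obtain ⟨a₀, k1⟩ := card_le_one_iff_subset_singleton.1 (Nat.lt_succ_iff.1 (not_le.1 k))
      refine hcon ⟨_, _, (h1 ω).1, (h1 ω).2.1, a₀, fun a ha hl => ?_⟩
      by_cases e : (⟨a, ha⟩ : S) = 0
      · exact .inl (congrArg Subtype.val e)
      · exact .inr (congrArg Subtype.val (mem_singleton.1
          (k1 (mem_filter.2 ⟨mem_erase.2 ⟨e, mem_univ (⟨a, ha⟩ : S)⟩, hl⟩)))))
    fun a ha => by
      have k1 := card_map_inf (Pi.evalAddMonoidHom (fun _ : S => S → ZMod 2) a) Ω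
      have k2 := pt_card hr hs (fun a ha => ⟨h0 a ha, (hS a ha).2.1⟩) hφ (mem_erase.1 ha).1
        (Ω.map (Pi.evalAddMonoidHom (fun _ : S => S → ZMod 2) a))
        fun u hu => ⟨fun a b => φ a b u, ⟨u, hu, fun _ _ => rfl⟩, rfl⟩
      rw [Nat.le_div_iff_mul_le Nat.card_pos, k1, mul_left_comm]
      refine Nat.mul_le_mul ?_ k2
      rcases (bipartiteBelow (fun (ω : Ω) (a : S) => a.1 ∈ L (x ω).1.p) univ a).eq_empty_or_nonempty
        with e | ⟨ω₀, e⟩
      · rw [e]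
        exact Nat.zero_le _
      rw [← Fintype.card_coe, ← Nat.card_eq_fintype_card]
      refine Nat.card_le_card_of_injective (fun ω => ⟨ω.1.1 - ω₀.1, Ω.sub_mem ω.1.2 ω₀.2, ?_⟩)
        fun ω ω' e => Subtype.ext (Subtype.ext (sub_left_injective (congrArg Subtype.val e)))
      by_cases e' : ω.1 = ω₀
      · rw [e', sub_self]
        exact zero_mem _
      have k3 : (x ω).1.p ≠ (x ω₀).1.p := fun k => e' (h2 _ _ k)
      have k4 := (h1 ω).2.1
      have k5 := (h1 ω₀).2.1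
      obtain ⟨c, c1, c2, c3⟩ := hL _ _ _ _ k4 k5 k3 a a.2 (mem_filter.1 ω.2).2 (mem_filter.1 e).2
      refine funext fun b => sub_eq_zero.2 ?_
      have k6 := pt_recip F hr (h0 a a.2) (h0 b b.2) (hS a a.2).2.2 (hS b b.2).2.2 (hφ a b) (uφ a b)
        k4.out k5.out k3 k4.frob k5.frob k4.ord k5.ord c1 c2
        (fun v hv g hg => xi_dec hr.two k4.out k5.out k4.frob k5.frob (k4.neg.trans k5.neg.symm)
          (fun l hl => (k4.sym l hl).trans (k5.sym l hl).symm) hv hg) (c3 b b.2)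
      rw [(h1 ω).2.2, (h1 ω₀).2.2] at k6
      exact add_left_cancel k6
  rw [card_erase_of_mem (mem_univ _), card_univ, card_univ, ← Nat.card_eq_fintype_card,
    ← Nat.card_eq_fintype_card] at h3
  have h4 := Nat.div_mul_le_self (2 * Nat.card Ω) (Nat.card S)
  have h5 : 0 < Nat.card Ω := Nat.card_pos
  have h6 : 0 < Nat.card S := Nat.card_pos
  generalize 2 * Nat.card Ω / Nat.card S = n at h3 h4
  obtain ⟨m, hm⟩ := Nat.exists_eq_succ_of_ne_zero h6.ne'
  rw [hm] at h3 h4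
  rw [Nat.succ_sub_one, mul_comm m] at h3
  rw [Nat.mul_succ] at h4
  have h7 : n = 0 := by omega
  rw [h7, zero_mul] at h3
  omega

end Pool.Agent.Lib.MP_696deb_nt.B6
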