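import Pool.Agent.Lib.MP_696deb_nt.B2.GWi
import Pool.Agent.Lib.MP_696deb_nt.B2.CFc
import Pool.Agent.Lib.MP_696deb_nt.Sm.Chi

/-! Finitely many quadratic characters are unramified outside a finite set. -/

set_option autoImplicit false

open scoped Classical
open Finset Function

namespace Pool.Agent.B6.S

open Pool.Agent.Lib.MP_696deb_nt Pool.Agent.Lib.MP_696deb_nt.Sm

section

open B2 Pool.Agent.Lib.MP_580eba_nt

variable {H : Subgroup GQ} {κ : GQ → Z2}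

theorem sf_mul {x : Qb} (h : Kum 1 H x κ) (t : (Kf H)ˣ) :
    Kum 1 H (x * (((t ^ 2 : (Kf H)ˣ) : Kf H) : Qb)) κ := by
  obtain ⟨r, h0, h1, h2⟩ := h
  refine ⟨r * ((t : Kf H) : Qb), mul_ne_zero h0 fun e => t.ne_zero (Subtype.ext e), ?_,
    fun g hg => ?_⟩
  · rw [mul_pow, h1]
    rfl
  · rw [map_mul, h2 g hg, fx_Kf _ g hg, mul_right_comm]

theorem sf_even (hH : Op H) [NumberField (Kf H)] {a : (Kf H)ˣ} (h : Kum 1 H ((a : Kf H) : Qb) κ)
    {w : Plc} {v : Pl (Kf H)} (hv : Un w v) (h0 : ∀ σ ∈ H ⊓ Ine w, κ σ = 0) :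
    ∃ y : (Kf H)ˣ, a / y ^ 2 ∈ UU v := by
  obtain ⟨r, r0, h1, h2⟩ := h
  obtain ⟨π, p1, p2, -, p3⟩ := exists_unif hH w
  obtain ⟨k, hk⟩ := p3 r (fun g hg => by rw [h2 g hg.1, h0 g hg]; simp) r0
  have p0 : (⟨π, b3a_fx.1 p1⟩ : Kf H) ≠ 0 := fun e => by
    rw [show π = 0 from congrArg Subtype.val e] at p2
    simp at p2
  refine ⟨Units.mk0 _ p0 ^ k, (hv.eq_one _).2 ?_⟩
  simp only [Units.val_div_eq_div_val, Units.val_pow_eq_pow_val, Units.val_zpow_eq_zpow_val,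
    Units.val_mk0, IntermediateField.coe_div, IntermediateField.coe_pow, map_div₀, map_pow, ← h1,
    hk, pow_one]
  rw [show (((⟨π, b3a_fx.1 p1⟩ : Kf H) ^ k : Kf H) : Qb) = π ^ k from
    map_zpow₀ (algebraMap (Kf H) Qb) _ k, map_zpow₀]
  exact div_self (pow_ne_zero _ (zpow_ne_zero _ p2.ne'))

theorem sf_unit (hH : Op H) [NumberField (Kf H)] (s : Finset Plc) : ∃ S : Finset (Pl (Kf H)),
    ∀ κ ∈ Zu H tr s, ∃ b ∈ ES S, Kum 1 H ((b : Kf H) : Qb) κ := by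
  choose u hu using fun w : Plc => exists_un (H := H) w
  obtain ⟨T, -, hT⟩ := exists_gens (∅ : Finset (Pl (Kf H)))
  refine ⟨s.image u ∪ T, fun κ hκ => ?_⟩
  obtain ⟨x, hx⟩ := kum_surj (H := H) (m := 1) (κ := κ) hH.closed hκ.1.1.1 fun g hg k hk => by
    rw [cy_one_eq, one_mul, GWi_coc hκ.1.1 g hg k hk]
  obtain ⟨a, rfl⟩ : ∃ a : (Kf H)ˣ, ((a : Kf H) : Qb) = x :=
    ⟨Units.mk0 ⟨x, b3a_fx.1 hx.fx.2⟩ fun e => hx.fx.1 (congrArg Subtype.val e), rfl⟩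
  have h1 : ∀ v : Pl (Kf H), ∃ y : (Kf H)ˣ, v ∉ s.image u → a / y ^ 2 ∈ UU v := fun v => by
    by_cases hv : v ∈ s.image u
    · exact ⟨1, fun k => absurd hv k⟩
    obtain ⟨w, hw⟩ := exists_over v
    exact (sf_even hH hx hw (hκ.2 w fun w' h g hg e => hv (mem_image.2
      ⟨w', h, (e ▸ (hu w').smul hg).uniq hw⟩))).imp fun _ k _ => k
  choose y hy using h1
  obtain ⟨t, ht⟩ := hT y (((s.image u).finite_toSet.union (finite_val a.ne_zero)).subset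
    fun v hv => by
      by_contra k
      rw [Set.mem_union, not_or] at k
      have := div_mem (mem_UU.2 (not_not.1 k.2)) (hy v k.1)
      rw [div_div_cancel] at this
      exact hv (val_eq_one_of_sq this))
  refine ⟨a * t⁻¹ ^ 2, mem_ES.2 fun v hv => ?_, sf_mul hx t⁻¹⟩
  rw [mem_union, not_or] at hv
  convert mul_mem (hy v hv.1) (pow_mem (ht v hv.2) 2) using 1
  rw [div_pow, div_mul_div_cancel, inv_pow, div_eq_mul_inv]

theorem sf_fin (hH : Op H) : FinH H := by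
  intro s
  have := nf_Kf hH
  obtain ⟨S, hS⟩ := sf_unit hH s
  have := Subgroup.index_ne_zero_iff_finite.1 ((index_ES S).trans_ne (pow_ne_zero _ two_ne_zero))
  refine Set.Finite.to_subtype ((Set.finite_iUnion
    fun q : ES S ⧸ ((ES S).map (pw _)).subgroupOf (ES S) => Set.Subsingleton.finite
      (s := {κ | κ ∈ Z1 H tr ∧ Kum 1 H ((q.out.1 : Kf H) : Qb) κ})
        fun κ h κ' h' => funext fun g => ?_).subset fun κ hκ => ?_)
  · by_cases hg : g ∈ H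
    · obtain ⟨z, hz⟩ := h.2.sub h'.2
      simpa [cy_one_eq, sub_eq_zero] using hz g hg
    · rw [h.1.2 g hg, h'.1.2 g hg]
  · obtain ⟨b, hb, k⟩ := hS κ hκ
    obtain ⟨⟨c, t, _, e⟩, hc⟩ := QuotientGroup.mk_out_eq_mul
      (((ES S).map (pw _)).subgroupOf (ES S)) ⟨b, hb⟩
    refine Set.mem_iUnion.2 ⟨QuotientGroup.mk ⟨b, hb⟩, hκ.1, ?_⟩
    rw [hc, Subgroup.coe_mul, ← show t ^ 2 = c.1 from e]
    exact sf_mul k t

end

theorem finH {H : Subgroup GQ} (hH : B2.Op H) (hT : B2.TC H) : B2.FinH H := sf_fin hH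

end Pool.Agent.B6.S
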