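import Pool.Agent.Lib.MP_696deb_nt.B6.TAc
import Pool.Agent.Lib.MP_696deb_nt.B6.TAa
import Pool.Agent.Lib.MP_696deb_nt.B6.LKc
import Pool.Agent.Lib.MP_696deb_nt.B6.Cs
import Pool.Agent.Lib.MP_696deb_nt.B6.PTc
import Pool.Agent.Lib.MP_696deb_nt.B6.SF

/-! Kummer cocycles of quadratic twists are orthogonal modulo two; finiteness and counting. -/

set_option autoImplicit false

open scoped NNReal Classical
open Finset Matrix

namespace Pool.Agent.B6

open Pool.Agent.Lib.MP_696deb_nt Pool.Agent.Lib.MP_696deb_nt.B2 Pool.Agent.Lib.MP_696deb_nt.B6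

variable {r : Gam →* B6.M2} {D : Subgroup Gam} {x y a : Gam → V2} {P : Finset ℕ} {s f : Gam}
  {w : Plc}

theorem dt_eq_zero : ∀ u v : V2, dt u v = 0 ↔ u = 0 ∨ v = 0 ∨ u = v := by decide +kernel

theorem z2_ext : ∀ s t : ZMod 2, (s = 0 ↔ t = 0) → s = t := by decide

theorem v2_two : ∀ u : V2, 2 • u = 0 := by decide +kernel

theorem iso_two [Cw] (c4 : WZ.c₄ ≠ 0) (c6 : WZ.c₆ ≠ 0) {ι : V2 →+ EE} (hι : Function.Injective ι)
    (hr : ∀ g v, g • ι v = ι (r g *ᵥ v)) (hD : IsClosed (D : Set Gam)) {S S' : EE}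
    (hx : ∀ g ∈ D, ι (x g) = g • S - S) (hy : ∀ g ∈ D, ι (y g) = g • S' - S') :
    Spl 1 D (cp r x y) := by
  obtain ⟨E⟩ := exists_emb c4 c6
  obtain ⟨T, -⟩ := E.exists_rho
  choose A hA using fun v : V2 => T.surj 1 (ι v) (by rw [pow_one, ← map_nsmul, v2_two, map_zero])
  have h1 : ∀ u v, A u = A v ↔ u = v := fun u v =>
    ⟨fun e => hι (by rw [← hA, e, hA]), congrArg A⟩
  have h0 : A 0 = 0 := T.inj 1 (by rw [hA, map_zero, map_zero])
  have h2 : ∀ u v, dt (A u) (A v) = dt u v := fun u v => z2_ext _ _ (by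
    rw [dt_eq_zero, dt_eq_zero, h1, ← h1 u 0, ← h1 v 0, h0])
  have h3 : ∀ g v, mred 1 (T.ρ g) *ᵥ A v = A (r g *ᵥ v) := fun g v => T.inj 1 (by
    rw [← T.smul, hA, hA, hr])
  obtain ⟨β, k1, k2⟩ := T.iso 1 D (fun g => A (x g)) (fun g => A (y g)) S S' hD
    (fun g hg => by rw [hA, hx g hg]) fun g hg => by rw [hA, hy g hg]
  refine ⟨β, k1, fun g hg h hh => ?_⟩
  rw [← k2 g hg h hh, cp, ← h2, ← h3]
  rfl

theorem iso_two' {W : WeierstrassCurve ℚ} (W' : WeierstrassCurve ℤ)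
    (e : W = W'.map (Int.castRingHom ℚ)) (h0 : W'.Δ ≠ 0) (c4 : W'.c₄ ≠ 0) (c6 : W'.c₆ ≠ 0)
    {ι : V2 →+ Pt W Qbar} (hι : Function.Injective ι)
    (hr : ∀ (g : Gam) v, pmap (g : Qbar →+* Qbar) (ι v) = ι (r g *ᵥ v))
    (hD : IsClosed (D : Set Gam)) {S S' : Pt W Qbar}
    (hx : ∀ g ∈ D, ι (x g) = pmap (g : Qbar →+* Qbar) S - S)
    (hy : ∀ g ∈ D, ι (y g) = pmap (g : Qbar →+* Qbar) S' - S') : Spl 1 D (cp r x y) := by
  subst e
  exact @iso_two r D x y ⟨W', h0⟩ c4 c6 ι hι hr hD S S' hx hy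

theorem tw_two [Cw] (d : ℤ) (g : Gam) {Q : EE} (h : 2 • Q = 0) : tw d g Q = g • Q := by
  rcases Int.units_eq_one_or (chi d g) with e | e <;> rw [tw, e]
  · simp
  · rw [Units.val_neg, Units.val_one, neg_one_smul, ← smul_neg, neg_two h]

theorem cs_ne [Cs] : WZ.c₄ ≠ 0 ∧ WZ.c₆ ≠ 0 := by
  obtain ⟨p, hp, h⟩ := Nat.exists_prime_and_dvd NN_gt.ne'
  have h1 := (dvd_Δ hp).2 h
  have h2 := Nat.prime_iff_prime_int.1 hp
  have h3 : ¬ (p : ℤ) ∣ WZ.c₄ := fun k => h2.not_isUnit (WZ_cop.isUnit_of_dvd' k h1)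
  refine ⟨fun k => h3 (k ▸ dvd_zero _), fun k => h3 (h2.dvd_of_dvd_pow (n := 3) ?_)⟩
  have := WZ.c_relation
  rw [k, zero_pow two_ne_zero, sub_zero] at this
  exact this ▸ h1.mul_left _

theorem iso_tw [Cs] {d : ℤ} (hd : d ≠ 0) {ι : V2 →+ EE} (hι : Function.Injective ι)
    (hr : ∀ g v, g • ι v = ι (r g *ᵥ v)) (hD : IsClosed (D : Set Gam)) {S S' : EE}
    (hx : ∀ g ∈ D, ι (x g) = tw d g S - S) (hy : ∀ g ∈ D, ι (y g) = tw d g S' - S') :
    Spl 1 D (cp r x y) := by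
  have e : Et d = (⟨0, 0, 0, -27 * WZ.c₄ * d ^ 2, -54 * WZ.c₆ * d ^ 3⟩ : WeierstrassCurve ℤ).map
      (Int.castRingHom ℚ) := by
    ext <;> simp [Et]
  have k : ∀ {x : Gam → V2} {S : EE}, (∀ g ∈ D, ι (x g) = tw d g S - S) → ∀ g ∈ D,
      (lkPhi hd).symm (ι (x g)) =
        pmap (g : Qbar →+* Qbar) ((lkPhi hd).symm S) - (lkPhi hd).symm S := fun h g hg =>
    (lkPhi hd).injective (by simp only [map_sub, lkPhi_pmap, AddEquiv.apply_symm_apply, h g hg])
  refine iso_two' _ e (fun k => ?_) ?_ ?_ (ι := (lkPhi hd).symm.toAddMonoidHom.comp ι)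
    ((lkPhi hd).symm.injective.comp hι) (fun g v => (lkPhi hd).injective ?_) hD (k hx) (k hy)
  · have := (Et_elliptic hd).1.ne_zero
    rw [e, WeierstrassCurve.map_Δ, k, map_zero] at this
    exact this rfl
  · have := cs_ne.1
    generalize WZ.c₄ = c at this ⊢
    simp [WeierstrassCurve.c₄, WeierstrassCurve.b₂, WeierstrassCurve.b₄, hd, this]
  · have := cs_ne.2
    generalize WZ.c₆ = c at this ⊢
    simp [WeierstrassCurve.c₆, WeierstrassCurve.b₂, WeierstrassCurve.b₄, WeierstrassCurve.b₆, hd,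
      this]
  · rw [lkPhi_pmap]
    simp only [AddMonoidHom.comp_apply, AddEquiv.coe_toAddMonoidHom, AddEquiv.apply_symm_apply]
    rw [tw_two _ _ (by rw [← map_nsmul, v2_two, map_zero]), hr]

/-- Cocycles are unramified at places of order three. -/
theorem cc_unr (ha : Cc r a) (h2 : w.p ≠ 2) (h1 : ∀ σ ∈ Ine w, r σ = 1) (hf : f ∈ Dec w)
    (h3 : Ord3 (r f)) {σ : Gam} (hσ : σ ∈ Ine w) : a σ = 0 := by
  obtain ⟨τ, hτ⟩ := exists_gen h2
  have k : ∀ σ ∈ Ine w, ∃ k : ℕ, a σ = k • a τ ∧ xi w.p σ = k := fun σ hσ => by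
    obtain ⟨k, hk⟩ := tame_gen h2 hτ (π := fun g => Multiplicative.ofAdd (a g, xi w.p g))
      ((ha.sm.mono le_top).comp₂ (sm_xi _) fun x y => Multiplicative.ofAdd (x, y))
      (fun g hg k _ => by simp only [ha.mul, h1 g hg, one_mulVec, xi_hom]; rfl)
      (fun g _ => ⟨1, by
        rw [pow_one, sq, ← ofAdd_add, Prod.mk_add_mk, z2_self, v2_self]; rfl⟩) hσ
    rw [← ofAdd_nsmul, EmbeddingLike.apply_eq_iff_eq, Prod.smul_mk, Prod.mk.injEq,
      xi_eq_one.2 hτ.2, nsmul_one] at hk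
    exact ⟨k, hk⟩
  obtain ⟨j, k1, k2⟩ := k (f * τ * f⁻¹) (by
    have : f⁻¹ • w = w := (Dec w).inv_mem hf
    have h4 := mem_Ine_smul (g := f⁻¹) (w := w) (k := τ)
    rw [this, inv_inv] at h4
    exact h4.1 hτ.1)
  have h4 := xi_hom w.p f f⁻¹
  rw [mul_inv_cancel, xi_eq_zero.2 (map_one _)] at h4
  rw [xi_hom, xi_hom, add_right_comm, ← h4, zero_add, xi_eq_one.2 hτ.2] at k2
  rw [ha.conj f (h1 τ hτ.1), ← Nat.cast_smul_eq_nsmul (ZMod 2), ← k2, one_smul] at k1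
  obtain ⟨i, k3, -⟩ := k σ hσ
  rw [k3, h3.fix k1, smul_zero]

theorem finite_cc (hr : Sm ⊤ r) (hs : Ord3 (r s)) (P : Finset ℕ) :
    {a : Gam → V2 | Cc r a ∧ a s = 0 ∧ Unr P a}.Finite := by
  have hH : Op r.ker := by
    obtain ⟨U, u1, -, u3⟩ := hr
    exact Subgroup.isOpen_mono (fun g hg => (u3 1 trivial g trivial
      (by simpa using hg)).symm.trans (map_one r)) u1
  obtain ⟨t, -, -, ht⟩ := exists_reps hH P
  have := S.sf_fin hH t
  refine Finite.of_injective (β := Fin 2 → Zu r.ker tr t) (fun a i => ⟨rs r.ker fun g => a.1 g i,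
    ⟨⟨((a.2.1.sm.mono le_top).comp (· i)).congr fun g hg => (if_pos hg).symm,
      fun g hg h hh => ?_⟩, fun g hg => if_neg hg⟩, fun v hv σ hσ => ?_⟩) fun a b e => ?_
  · rw [rs_of_mem hg, rs_of_mem hh, rs_of_mem (mul_mem hg hh), a.2.1.mul, show r g = 1 from hg,
      one_mulVec]
    rfl
  · rw [rs_of_mem hσ.1, a.2.2.2 v (fun k => ht v k hv) σ hσ.2]
    rfl
  · refine Subtype.ext (sub_eq_zero.1 ((a.2.1.sub b.2.1).eq_zero hs (by
      rw [Pi.sub_apply, a.2.2.1, b.2.2.1, sub_self]) fun g hg => sub_eq_zero.2 (funext fun i => ?_)))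
    have := congrFun (congrArg Subtype.val (congrFun e i)) g
    have k : g ∈ r.ker := hg
    exact (if_pos k).symm.trans (this.trans (if_pos k))

theorem card_tors {A : Type*} [AddCommGroup A] (Z : AddSubgroup A) (T U : Finset A)
    (hT : ∀ z ∈ Z, 2 • z = 0 → z ∈ T) (hU : ∀ z ∈ Z, 4 • z = 0 → 2 • z ∈ U) (m : ℕ) (t : Finset A)
    (h : ∀ z ∈ t, z ∈ Z ∧ 2 ^ (m + 1) • z = 0) : t.card ≤ T.card * U.card ^ m := by
  induction m generalizing t with
  | zero => simpa using card_le_card fun z hz => hT z (h z hz).1 (by simpa using (h z hz).2)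
  | succ m ih =>
    rw [pow_succ, ← mul_assoc]
    refine card_le_mul_card_image_of_maps_to (f := fun z => 2 ^ (m + 1) • z) (fun z hz => ?_) _
      fun u _ => ?_
    · rw [pow_succ', mul_smul]
      refine hU _ (Z.nsmul_mem (h z hz).1 _) ?_
      rw [← (h z hz).2, ← mul_smul]
      congr 1
      ring
    · rcases (t.filter fun z => 2 ^ (m + 1) • z = u).eq_empty_or_nonempty with e | ⟨z₀, e⟩
      · rw [e]
        exact Nat.zero_le _
      rw [← card_image_of_injective _ (sub_left_injective (b := z₀))]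
      refine ih _ fun z hz => ?_
      obtain ⟨z, k, rfl⟩ := mem_image.1 hz
      rw [mem_filter] at k e
      exact ⟨Z.sub_mem (h z k.1).1 (h z₀ e.1).1, by rw [smul_sub, k.2, e.2, sub_self]⟩

theorem chi_congr {g h : Gam} (h1 : chi (-1) g = chi (-1) h) {n : ℤ} (h0 : n ≠ 0)
    (h2 : ∀ p : ℕ, p.Prime → (p : ℤ) ∣ n → chi p g = chi p h) : chi n g = chi n h := by
  have k : ∀ m : ℕ, m ≠ 0 → (m : ℤ) ∣ n → chi m g = chi m h := fun m => by
    induction m using induction_on_primes with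
    | zero => exact fun e => absurd rfl e
    | one => exact fun _ _ => by simpa using (chi_sq 1 g).trans (chi_sq 1 h).symm
    | prime_mul p m hp ih =>
      intro e k
      have e' := right_ne_zero_of_mul e
      push_cast at k ⊢
      rw [chi_mul (by exact_mod_cast hp.ne_zero) (by exact_mod_cast e'),
        chi_mul (by exact_mod_cast hp.ne_zero) (by exact_mod_cast e'),
        h2 p hp (dvd_of_mul_right_dvd k), ih e' (dvd_of_mul_left_dvd k)]
  have k1 := k n.natAbs (by omega) (Int.natAbs_dvd.2 dvd_rfl)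
  rcases Int.natAbs_eq n with e | e
  · rwa [e]
  · rw [e, neg_eq_neg_one_mul, chi_mul (by decide) (by omega), chi_mul (by decide) (by omega), h1,
      k1]

end Pool.Agent.B6
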