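import Pool.Agent.Lib.MP_696deb_nt.B6.Red0
import Pool.Agent.Lib.MP_696deb_nt.B6.CH6
import Pool.Agent.Lib.MP_696deb_nt.B2.B2c

/-! Primes at which the two-division cubic has no root. -/

set_option autoImplicit false

open Finset NumberTheorySymbols

namespace Pool.Agent.B6

open Pool.Agent.Lib.MP_696deb_nt Pool.Agent.Lib.MP_696deb_nt.B2 Pool.Agent.Lib.MP_696deb_nt.B6

/-- Permutations without a fixed point. -/
def Nf (σ : Equiv.Perm (Fin 3)) : Prop := ∀ i, σ i ≠ i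

instance (σ : Equiv.Perm (Fin 3)) : Decidable (Nf σ) := inferInstanceAs (Decidable (∀ _, _))

theorem nf_gen : ∀ a b c : Equiv.Perm (Fin 3), a 0 ≠ 0 → b 1 ≠ 1 → c 2 ≠ 2 →
    Nf a ∨ Nf b ∨ Nf c ∨ Nf (a * b) ∨ Nf (a * c) ∨ Nf (b * c) := by decide +kernel

theorem nf_six : ∀ a : Equiv.Perm (Fin 3), a ^ 6 = 1 ∧ (Nf a → Nf (a ^ 1) ∧ Nf (a ^ 5)) := by
  decide +kernel

theorem nf_pow {σ : Equiv.Perm (Fin 3)} (h : Nf σ) {a : ℕ} (ha : a.Coprime 6) : Nf (σ ^ a) := by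
  have h2 : ¬ 2 ∣ a := Nat.prime_two.coprime_iff_not_dvd.1 (ha.coprime_dvd_right (by decide)).symm
  have h3 : ¬ 3 ∣ a := Nat.prime_three.coprime_iff_not_dvd.1 (ha.coprime_dvd_right (by decide)).symm
  rw [pow_eq_pow_mod a (nf_six σ).1]
  rcases (by omega : a % 6 = 1 ∨ a % 6 = 5) with e | e <;> rw [e]
  exacts [((nf_six σ).2 h).1, ((nf_six σ).2 h).2]

theorem nf_cases : ∀ a : Equiv.Perm (Fin 3), a = 1 ∨ Nf a ∨ (a 0 = 1 ∧ a 1 = 0 ∧ a 2 = 2) ∨
    (a 0 = 2 ∧ a 1 = 1 ∧ a 2 = 0) ∨ (a 0 = 0 ∧ a 1 = 2 ∧ a 2 = 1) := by decide +kernel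

variable [Cw]

theorem exists_pr : ∃ σ : Gam →* Equiv.Perm (Fin 3), ∀ g i, g (er i) = er (σ g i) := by
  have h : ∀ (g : Gam) (i : Fin 3), ∃ j, g (er i) = er j := fun g i => by
    rcases cub_eq_zero.1 (show cub (g (er i)) = 0 by rw [← map_cub, cub_er, map_zero]) with
      e | e | e <;> exact ⟨_, e⟩
  choose s hs using h
  let A : MulAction Gam (Fin 3) := { smul := s
                                     one_smul := fun i => er_inj (hs 1 i).symm
                                     mul_smul := fun g k i => er_inj ((hs _ i).symm.trans (by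
                                      rw [AlgEquiv.mul_apply, hs, hs]; rfl)) }
  exact ⟨MulAction.toPermHom Gam (Fin 3), hs⟩

theorem un_frob {w : Plc} {φ : Gam} (h2 : w.p ≠ 2) (hw : ¬ (w.p : ℤ) ∣ WZ.Δ) (hφ : φ ∈ Dec w)
    {x : ZMod w.p} (hx : cub x = 0) : ∃ i, φ (er i) = er i := by
  obtain ⟨n, rfl⟩ := ZMod.intCast_surjective x
  have a1 := map_cub (Int.castRingHom Qbar) n
  have a2 := map_cub (Int.castRingHom (ZMod w.p)) n
  rw [eq_intCast, eq_intCast] at a1 a2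
  have k : w.V (cub (n : Qbar)) ≠ 1 := by
    rw [← a1, Ne, w.V_int_eq_one, not_not, ← ZMod.intCast_zmod_eq_zero_iff_dvd, a2, hx]
  have m : ∀ i, er i ∈ w.V.integer := fun i => V_root h2 (cub_er i)
  obtain ⟨i, hi⟩ : ∃ i, w.V (n - er i) < 1 := by
    by_contra! e
    have e1 : ∀ i, w.V (n - er i) = 1 := fun i =>
      le_antisymm (sub_mem (intCast_mem w.V.integer n) (m i)) (e i)
    have e2 : w.V ((2 : ℤ) : Qbar) = 1 := w.V_int_eq_one.2 fun k =>
      h2 ((Nat.prime_dvd_prime_iff_eq w.prime Nat.prime_two).1 (by exact_mod_cast k))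
    refine k ?_
    rw [cub_eq, show (4 : Qbar) = (2 : ℤ) * (2 : ℤ) by norm_num]
    simp only [map_mul, e1, e2, mul_one]
  have k1 : w.V (er i - φ (er i)) < 1 := by
    have k2 : w.V (n - φ (er i)) < 1 := by
      rw [← map_intCast φ, ← map_sub, mem_Dec.1 hφ]
      exact hi
    simpa using w.V.map_sub_lt k2 hi
  obtain ⟨σ, hσ⟩ := exists_pr
  refine ⟨i, by_contra fun e => ?_⟩
  rw [hσ] at k1 e
  have k3 : w.V ((er 0 - er 1) * ((er 0 - er 2) * (er 1 - er 2))) < 1 := by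
    have s : ∀ i j, er i - er j ∈ w.V.integer := fun i j => sub_mem (m i) (m j)
    have k2 := k1
    rw [w.V.map_sub_swap] at k2
    generalize σ φ i = j at *
    fin_cases i <;> fin_cases j <;> first
      | exact absurd rfl e
      | exact r0_mul w k1 (mul_mem (s _ _) (s _ _))
      | exact r0_mul w k2 (mul_mem (s _ _) (s _ _))
      | exact mul_left_comm (er 0 - er 2) _ _ ▸ r0_mul w k1 (mul_mem (s _ _) (s _ _))
      | exact mul_left_comm (er 0 - er 2) _ _ ▸ r0_mul w k2 (mul_mem (s _ _) (s _ _))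
      | exact mul_rotate' (er 1 - er 2) _ _ ▸ r0_mul w k1 (mul_mem (s _ _) (s _ _))
      | exact mul_rotate' (er 1 - er 2) _ _ ▸ r0_mul w k2 (mul_mem (s _ _) (s _ _))
  have k4 := w.V_int_eq_one.2 hw
  rw [er_Δ, mul_comm, sq, mul_assoc] at k4
  exact (r0_mul w k3 (mul_mem k3.le (ofNat_mem _ 16))).ne k4

theorem un_prime {s : Gam} (hs : ∀ i, s (er i) ≠ er i) {a : ℤ} (ha : a ≠ 0) (B : ℕ) :
    ∃ l : ℕ, l.Prime ∧ B < l ∧ (∀ x : ZMod l, cub x ≠ 0) ∧ J(a | l) = chi a s := by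
  obtain ⟨σ, hσ⟩ := exists_pr
  let f := σ.prod (chi a)
  have u : Op f.ker := by
    refine Subgroup.isOpen_mono (H₁ := (chi a).ker ⊓ (MulAction.stabilizer Gam (er 0) ⊓
      (MulAction.stabilizer Gam (er 1) ⊓ MulAction.stabilizer Gam (er 2))))
      (fun g ⟨h0, h1, h2, h3⟩ => Prod.ext (Equiv.ext fun i => er_inj ((hσ g i).symm.trans ?_)) h0)
      ((op_ker_chi a).inf (Op.inf (stabilizer_isOpen_of_isIntegral _)
        (Op.inf (stabilizer_isOpen_of_isIntegral _) (stabilizer_isOpen_of_isIntegral _))))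
    fin_cases i
    exacts [h1, h2, h3]
  obtain ⟨w, φ, k, k1, k2, k3, k4⟩ := cheb6 u f.normal_ker (s := s) (k := 1) (Prod.ext (by
    change σ _ = 1
    rw [map_pow, pow_one, (nf_six _).1]) (by
    change chi _ _ = 1
    rw [map_pow, show 6 ^ 1 = 2 * 3 from rfl, pow_mul, Int.units_sq, one_pow]))
    (range (B + 3 + (2 * a).natAbs + WZ.Δ.natAbs))
  rw [mem_range, not_lt] at k1
  have e := (MonoidHom.eq_iff f).2 k4
  have d0 := WZ_ne
  refine ⟨w.p, w.prime, by omega, fun x hx => ?_, ?_⟩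
  · obtain ⟨i, hi⟩ := un_frob (by omega) (fun k => by
      have := Nat.le_of_dvd (by omega) (Int.natCast_dvd.1 k); omega) k2.1 hx
    rw [hσ, show σ φ = σ (s ^ k) from (congrArg Prod.fst e).symm, map_pow] at hi
    exact nf_pow (fun j c => hs j (by rw [hσ, c])) k3 i (er_inj hi)
  · rw [← chi_frob (fun k => by
      have := Nat.le_of_dvd (by omega) (Int.natCast_dvd.1 k); omega) k2,
      show chi a φ = chi a (s ^ k) from (congrArg Prod.snd e).symm, map_pow,
      Int.units_pow_eq_pow_mod_two, Nat.odd_iff.1 (Nat.coprime_two_right.1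
        (k3.coprime_dvd_right (by norm_num))), pow_one]

theorem un_three (irr : ∀ x : ℚ, cub x ≠ 0) : ∃ s : Gam, ∀ i, s (er i) ≠ er i := by
  obtain ⟨σ, hσ⟩ := exists_pr
  have h : ∀ i, ∃ g : Gam, σ g i ≠ i := fun i => by
    by_contra! k
    obtain ⟨r, hr⟩ := fx_top (x := er i) fun g _ => by rw [hσ, k]
    have := cub_er i
    rw [hr, ← eq_ratCast (algebraMap ℚ Qbar), ← map_cub, map_eq_zero] at this
    exact irr r this
  choose g hg using h
  have : ∃ s, Nf (σ s) := by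
    rcases nf_gen _ _ _ (hg 0) (hg 1) (hg 2) with e | e | e | e | e | e
    exacts [⟨_, e⟩, ⟨_, e⟩, ⟨_, e⟩, ⟨_, (map_mul σ _ _).symm ▸ e⟩, ⟨_, (map_mul σ _ _).symm ▸ e⟩,
      ⟨_, (map_mul σ _ _).symm ▸ e⟩]
  exact this.imp fun s h i e => h i (er_inj ((hσ s i).symm.trans e))

theorem un_even {g : Gam} (h : chi WZ.Δ g = 1) :
    (∀ i, g (er i) = er i) ∨ ∀ i, g (er i) ≠ er i := by
  obtain ⟨σ, hσ⟩ := exists_pr
  have h1 : (4 * ((er 0 - er 1) * ((er 0 - er 2) * (er 1 - er 2)))) ^ 2 = (WZ.Δ : Qbar) := by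
    rw [er_Δ]; ring
  have h2 := chi_spec h1 g
  have h0 : 4 * ((er 0 - er 1) * ((er 0 - er 2) * (er 1 - er 2))) ≠ 0 := fun k =>
    Int.cast_ne_zero.2 WZ_ne (by rw [← h1, k]; ring : (WZ.Δ : Qbar) = 0)
  simp only [map_mul, map_sub, map_ofNat, h, hσ, Units.val_one, Int.cast_one, one_mul] at h2
  rcases nf_cases (σ g) with e | e | e | e | e
  · exact .inl fun i => by rw [hσ, e]; rfl
  · exact .inr fun i k => e i (er_inj ((hσ g i).symm.trans k))
  all_goals
    rw [e.1, e.2.1, e.2.2] at h2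
    exact absurd (by linear_combination (-1 / 2) * h2) h0

/-- If the cubic has a root at all large primes that are inert in the field of `-N`, then this field
is the field of the discriminant. -/
theorem un_disc (irr : ∀ x : ℚ, cub x ≠ 0) {N : ℕ} (hN : Squarefree N) {B : ℕ}
    (h : ∀ l : ℕ, l.Prime → B < l → J(-N | l) = -1 → ∃ x : ZMod l, cub x = 0) :
    ∃ s : ℤ, WZ.Δ = -(N * s ^ 2) := by
  have n0 : (0 : ℤ) < N := Int.natCast_pos.2 hN.ne_zero.bot_lt
  have n1 : (-N : ℤ) ≠ 0 := by omega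
  obtain ⟨s, hs⟩ := un_three irr
  have key : ∀ g, chi WZ.Δ g = 1 → chi (-N) g = 1 := by
    have k : ∀ t : Gam, (∀ i, t (er i) ≠ er i) → chi (-N) t = 1 := fun t ht => by
      obtain ⟨l, l1, l2, l3, l4⟩ := un_prime ht n1 B
      refine (Int.units_eq_one_or _).resolve_right fun e => ?_
      obtain ⟨x, hx⟩ := h l l1 l2 (by rw [l4, e]; rfl)
      exact l3 x hx
    intro g hg
    refine (un_even hg).elim (fun e => ?_) (k g)
    have := k (s * g) fun i => by rw [AlgEquiv.mul_apply, e]; exact hs i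
    rwa [map_mul, k s hs, one_mul] at this
  have c1 : chi (-N) cc = -1 := by rw [chi_cc n1, if_neg (by omega)]
  have c2 : chi WZ.Δ cc = -1 :=
    (Int.units_eq_one_or _).resolve_left fun e => absurd (c1.symm.trans (key _ e)) (by decide)
  obtain ⟨r, hr⟩ := fx_top (x := rt (-N * WZ.Δ)) fun g _ => chi_eq_one.1 (by
    rw [chi_mul n1 WZ_ne]
    rcases Int.units_eq_one_or (chi WZ.Δ g) with e | e
    · rw [key g e, e, one_mul]
    · have := key (g * cc) (by rw [map_mul, e, c2]; rfl)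
      rw [map_mul, c1, mul_neg_one, neg_eq_iff_eq_neg] at this
      rw [this, e]; rfl)
  have h1 := rt_sq (-N * WZ.Δ)
  rw [hr] at h1
  have h2 : IsSquare ((-N * WZ.Δ : ℤ) : ℚ) := ⟨r, by rw [← sq]; exact_mod_cast h1.symm⟩
  obtain ⟨t, ht⟩ := Rat.isSquare_intCast_iff.1 h2
  obtain ⟨u, rfl⟩ : (N : ℤ) ∣ t := ((Int.squarefree_natCast.2 hN).dvd_pow_iff_dvd two_ne_zero).1
    ⟨-WZ.Δ, by linear_combination -ht⟩
  exact ⟨u, mul_left_cancel₀ n1 (by linear_combination ht)⟩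

end Pool.Agent.B6
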