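import Pool.Agent.Lib.MP_696deb_nt.B4.FIa
import Pool.Agent.Lib.MP_696deb_nt.B5.ZFb

/-! The two notions of systems of representatives of Heegner forms agree. -/

set_option autoImplicit false

namespace Pool.Agent.B6

open Pool.Agent.Lib.MP_696deb_nt Pool.Agent.B4

variable {N : ℕ} {D r : ℤ} {Q R : Fm} {T U : Finset Fm}

theorem hg_iff : Hg N D r Q ↔ G5.Fam N D r Q ∧ 0 < Q.1 :=
  ⟨fun h => ⟨⟨h.lev, h.disc, h.res⟩, h.pos⟩, fun h => ⟨h.1.2.1, h.2, h.1.1, h.1.2.2⟩⟩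

theorem geq_iff (hD : D < 0) (h : Hg N D r Q) (h' : Hg N D r R) :
    GEq N (froot R) (froot Q) ↔ G5.FEq N Q R :=
  ⟨fun ⟨_, g1, g2, g3⟩ => (G5.feq_of_root ⟨g1, g2⟩ (h.disc ▸ hD) h.pos h'.pos
    (h'.disc.trans h.disc.symm) g3).2,
    fun k => (k.root (h.disc ▸ hD) h.pos).imp fun _ e => ⟨e.1.1, e.1.2, e.2⟩⟩

theorem hrp_iff (hD : D < 0) : HRp N D r T ↔ G5.FReps N D r T := by
  refine ⟨fun h => ⟨fun Q k => (hg_iff.1 (h.mem Q k)).1, fun Q k => (h.mem Q k).pos,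
    fun Q k k' => ?_, fun Q k R k' e => ?_⟩, fun h => ?_⟩
  · obtain ⟨R, h1, h2⟩ := h.ex Q (hg_iff.2 ⟨k, k'⟩)
    exact ⟨R, h1, ((geq_iff hD (hg_iff.2 ⟨k, k'⟩) (h.mem R h1)).1 h2).symm⟩
  · exact h.uniq Q k R k' ((geq_iff hD (h.mem R k') (h.mem Q k)).2 e.symm)
  have m : ∀ Q ∈ T, Hg N D r Q := fun Q k => hg_iff.2 ⟨h.fam Q k, h.pos Q k⟩
  refine ⟨m, fun Q k => ?_, fun Q k R k' e => ?_⟩
  · obtain ⟨R, h1, h2⟩ := h.ex Q (hg_iff.1 k).1 k.pos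
    exact ⟨R, h1, (geq_iff hD k (m R h1)).2 h2.symm⟩
  · exact h.uniq Q k R k' ((geq_iff hD (m R k') (m Q k)).1 e).symm

theorem exists_hrp (hN : N ≠ 0) (hD : D < 0) (r : ℤ) : ∃ T, HRp N D r T :=
  (G5.exists_freps hN hD r).imp fun _ => (hrp_iff hD).2

/-- The orientation matters only modulo `2 N`. -/
theorem hrp_congr {s : ℤ} (h : HRp N D r T) (e : 2 * (N : ℤ) ∣ r - s) : HRp N D s T := by
  have k : ∀ {r s : ℤ} {Q : Fm}, 2 * (N : ℤ) ∣ r - s → Hg N D r Q → Hg N D s Q := fun e h =>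
    ⟨h.disc, h.pos, h.lev, by simpa using dvd_add h.res e⟩
  exact ⟨fun Q m => k e (h.mem Q m), fun Q m => h.ex Q (k (dvd_sub_comm.1 e) m), h.uniq⟩

/-- The twisted sums do not depend on the system of representatives. -/
theorem hrp_sum {V : Type} [AddCommGroup V] {φ : ℂ → V} (hφ : GE.Inv0 N φ) (hD : D < 0) {B : ℕ}
    (hB : Odd B) (hd : (B : ℤ) ∣ D) (h : HRp N D r T) (h' : HRp N D r U) :
    ∑ Q ∈ T, gch B Q • φ (froot Q) = ∑ Q ∈ U, gch B Q • φ (froot Q) :=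
  ((hrp_iff hD).1 h).sum_eq ((hrp_iff hD).1 h') _ fun Q R k1 k2 k3 => by
    rw [k3.gch hB (k1.2.1 ▸ hd), k3.inv0 hφ (k1.2.1 ▸ hD) k2]

end Pool.Agent.B6
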