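import Pool.Agent.Lib.MP_696deb_nt.B6.CMc
import Pool.Agent.Lib.MP_696deb_nt.B6.CMx
import Pool.Agent.Lib.MP_696deb_nt.B4.HSb

/-! The systems of Heegner points of a modular parametrization. -/

set_option autoImplicit false

open scoped Classical NumberTheorySymbols

namespace Pool.Agent.B6

open Pool.Agent.Lib.MP_696deb_nt Pool.Agent.Lib.MP_696deb_nt.B2 Pool.Agent.Lib.MP_696deb_nt.B2.CM
open Pool.Agent.B4 (OkN HRp Nw Aw nn ok_neg hs_nu hs_gen hs_unr hs_fib)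
open Pool.Agent.Lib.MP_696deb_nt.B3.CM (fs Gd th kc_odd gd_odd th_one ind)
open Pool.Agent.B6.CM

variable {n c m B : ℕ} {r f e : ℤ} {T U : Finset Fm}

section

variable [Cs]

theorem cm_mem_EN {R : EE} (h : ∀ w : Plc, w.p ∣ NN → ∀ g ∈ Ine w, g • R = R) : R ∈ EN :=
  fun _ hg => (iSup_le fun w g k => h w.1 w.2 g k : IN ≤ MulAction.stabilizer Gam R) hg

variable {P : B4.GE.Par Wu NN} (G : B4.GE.Geo P)
include G

theorem yA_EN (ok : OkN NN n c r) (x : Pc n c) : yA P n c r x ∈ EN :=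
  cm_mem_EN fun _ hw _ hg => ine_yA G ok hw (ne_two_of_dvd hw) hg x

end

variable [Md]

/-- The genus points of a conductor that is a product of inert primes, modulo two. -/
theorem m_seed {P : B4.GE.Par Wu NN} (G : B4.GE.Geo P) (hn : Good n) (h3 : 3 < n)
    (hr : 4 * (NN : ℤ) ∣ r ^ 2 + n) (hm : Squarefree m)
    (hi : ∀ l : ℕ, l.Prime → l ∣ m → ¬ l ∣ 2 * NN ∧ J(-n | l) = -1) (h1 : m ∣ B) (h2 : B ∣ n * m)
    (hT : HRp NN (-n) r T) (hU : HRp NN (-(n * m ^ 2)) (r * m) U) :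
    ∃ Y ∈ EN, ∃ R ∈ EN, (∀ g ∈ GK n, g • Y = Y) ∧ pmap jC Y = ysum P.φ 1 T ∧
      ysum P.φ B U = pmap jC ((∏ l ∈ m.primeFactors, P.a l) • Y + 2 • R) := by
  have i0 := finite_Pc hn.mod4 h3
  let i1 : ∀ c, Fintype (Pc n c) := fun c => Fintype.ofFinite _
  have ok1 : OkN NN n 1 r := ⟨⟨hn.mod4, h3, one_ne_zero⟩, hr, by simpa using hn.cop⟩
  have ok : OkN NN n m r := ⟨⟨hn.mod4, h3, hm.ne_zero⟩, hr, hn.cop.mul_left
    (Nat.coprime_of_dvd fun k hk k1 k2 => (hi k hk k1).1 (k2.mul_left 2))⟩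
  have h4 : Squarefree (n * m) := (Nat.squarefree_mul (Nat.coprime_of_dvd fun k hk k1 k2 => by
    have := (hi k hk k2).2
    rw [jac_zero_of_dvd hk (dvd_neg.2 (Int.natCast_dvd_natCast.2 k1))] at this
    omega)).2 ⟨hn.sqf, hm⟩
  have h5 : ¬ 2 ∣ B := fun k => (Nat.prime_two.dvd_mul.1 (k.trans h2)).elim
    (by have := hn.mod4; omega) fun k => (hi 2 Nat.prime_two k).1 (dvd_mul_right _ _)
  obtain ⟨o, o1, rfl⟩ : ∃ o : ℤ, o % 4 = 1 ∧ B = o.natAbs := by
    by_cases k : B % 4 = 1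
    exacts [⟨B, by omega, rfl⟩, ⟨-B, by omega, by simp⟩]
  have o2 : o ∣ n * m := by exact_mod_cast Int.natAbs_dvd.1 (Int.natCast_dvd_natCast.2 h2)
  refine ⟨∑ x, yA P n 1 r x, sum_mem fun x _ => yA_EN G ok1 x,
    -∑ z, ind (-th n m o z) • yA P n m r z,
    neg_mem (sum_mem fun z _ => zsmul_mem (yA_EN G ok z) _), fun g hg => ?_, ?_, ?_⟩
  · rw [Finset.smul_sum, Finset.sum_congr rfl fun x _ => smul_yA G ok1 hg x]
    exact Equiv.sum_comp (Equiv.mulLeft (rho n 1 g)) (yA P n 1 r)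
  · have := link_sum P ok1 hn.sqf (o := 1) (T := T) (by simpa using hT) squarefree_one rfl
      (one_dvd _) fun _ _ h => h
    simp only [th_one ok1.toOk, Units.val_one, one_smul] at this
    rw [map_sum, Finset.sum_congr rfl fun x _ => jC_yA G ok1 x]
    exact this
  · have k := fs_inert G (c := 1) m.primeFactors (fun l hl => by
      have p1 := Nat.prime_of_mem_primeFactors hl
      exact ⟨p1, (hi l p1 (Nat.dvd_of_mem_primeFactors hl)).2, p1.not_dvd_one⟩) m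
      (by rw [Nat.prod_primeFactors_of_squarefree hm, one_mul]) ok
    rw [ysum, ← link_sum P ok hn.sqf hU (Int.squarefree_natAbs.1 (h4.squarefree_of_dvd h2)) o1 o2
      fun _ _ h => h.trans h1, Finset.smul_sum, ← Finset.sum_congr rfl fun x _ => k x,
      show ∑ x, fs 1 m (yA P n m r) x = ∑ z, yA P n m r z from
        Finset.sum_fiberwise Finset.univ (pj n 1 m) _,
      ← Finset.sum_neg_distrib, Finset.smul_sum, ← Finset.sum_add_distrib, map_sum]
    refine Finset.sum_congr rfl fun z _ => ?_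
    rw [← jC_yA G ok, ← map_zsmul, units_eq (th n m o z)]
    congr 1
    module

theorem Nok.nw (hn : Nok n) : Nw n := ⟨hn.good.sqf, hn.m8, hn.gt, hn.condB⟩

theorem Adm.aw (h : Adm n c) : Aw n c := ⟨h.1, fun l hl k => ⟨fun e =>
  nd_of_MM (h.2 l hl k).1 (e ▸ dvd_mul_right 2 NN), (h.2 l hl k).2⟩⟩

theorem Nok.okN (hn : Nok n) (hr : 4 * (NN : ℤ) ∣ r ^ 2 + n) (hc : Adm n c) : OkN NN n c r :=
  ⟨hn.nw.ok hc.aw, hr, hn.good.cop.mul_left (Nat.coprime_of_dvd fun k hk h1 h2 =>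
    nd_of_MM (hc.2 k hk h1).1 (h2.mul_left 2))⟩

theorem Fok.okN (hf : Fok n f) (ok : OkN NN n c r) : OkN NN n (c * f.natAbs) r :=
  okN_mul ok (Int.natAbs_ne_zero.2 hf.sqf.ne_zero) (Nat.coprime_of_dvd fun k hk h1 =>
    (hf.spl k hk (Int.natCast_dvd.2 h1)).1)

theorem Fok.nd_mul (hf : Fok n f) {l : ℕ} (hl : l.Prime) (hJ : J(-n | l) = -1) (hc : ¬ l ∣ c) :
    ¬ l ∣ c * f.natAbs := fun k => (hl.dvd_mul.1 k).elim hc fun k => by
  have := (hf.spl l hl (Int.natCast_dvd.2 k)).2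
  omega

theorem m_cm (F : CFT) (P : B4.GE.Par Wu NN) (G : B4.GE.Geo P)
    (ha : ∀ l : ℕ, l.Prime → ¬ l ∣ 2 * NN → al l = P.a l) (hM : G.M ∣ MM)
    (ht : IsOfFinAddOrder (P.per.unif P.t0)) (hn : Nok n) (hr : 4 * (NN : ℤ) ∣ r ^ 2 + n) :
    ∃ S : HS n, S.Link P.φ r ∧ ∀ f, Fok n f → ∃ Y : ES S f, Y.Cong ∧ Y.Link P.φ r := by
  have hw := hn.nw
  have i0 := hw.fin
  let i1 : ∀ c, Fintype (Pc n c) := fun c => Fintype.ofFinite _
  let i2 : ∀ c, Fintype (Tw (Pc n c)) := fun c => Fintype.ofFinite _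
  have ok := hn.okN hr ⟨squarefree_one, fun _ hl h => absurd (Nat.dvd_one.1 h) hl.ne_one⟩
  choose ν hν using hs_nu F hw
  choose θ hθ using hs_gen hw
  have k0 : ∀ {c l : ℕ}, l.Prime → Adm n (c * l) → al l = P.a l ∧ ¬ l ∣ G.M ∧ ¬ (l : ℤ) ∣ WZ.Δ :=
    fun hl h => by
      have k := (h.2 _ hl (dvd_mul_left _ _)).1
      exact ⟨ha _ hl (nd_of_MM k), fun e => k (e.trans hM),
        fun e => nd_of_MM k (((dvd_Δ hl).1 e).mul_left 2)⟩
  have k1 : ∀ e : ℤ, e ∣ n → e % 4 = 1 → Gd n 1 e ∧ ∀ x, θ e (tq _ x) = th n 1 e x :=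
    fun e k h4 => by
      have g1 : Gd n 1 e := (kc_odd ok.m4 h4 (by simpa using k)).exists_th ok.toOk
      refine ⟨g1, fun x => ?_⟩
      obtain ⟨g, hg, rfl⟩ := rho_surj ok.toOk x
      rw [g1.th hg]
      exact hθ e k h4 g hg
  let S : HS n := {
    C := fun c => Tw (Pc n c)
    pr := fun c c' => twm (pj n c c')
    ψ := psi n
    y := fun c => tz (yA P n c r)
    ν := ν
    gen := θ
    two := fun _ => tw_two
    sm := fun c _ => (sm_rho _ n c).comp (tq _)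
    mul := fun _ h => psi_mul (hw.ok h.aw)
    surj := fun _ h => psi_surj (hw.ok h.aw)
    pr_ψ := fun _ _ h k g _ => pr_psi (hw.ok h.aw) k g
    dih := fun _ h _ hg => by rw [psi, rho_sq (hw.ok h.aw) hg, map_one]
    unr := fun _ _ h k _ hg => hs_unr F hw h.aw k hg
    gal := fun _ h g hg => tr_map (DistribSMul.toAddMonoidHom EE g) (smul_yA G (hn.okN hr h) hg)
    conj := by
      have e1 := cc_yA G ok
      refine ⟨tq _ (nn NN n 1 r)⁻¹, Nat.card (oddP (Pc n 1)) • _, IsOfFinAddOrder.nsmul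
        ((pmap_injective jC).isOfFinAddOrder_iff.1 (e1 1 ▸ ht)), fun a => ?_⟩
      rw [tz, Finset.smul_sum, Finset.sum_congr rfl fun x _ => eq_sub_of_add_eq
        (pmap_injective jC ((e1 x).trans (e1 1).symm)), Finset.sum_sub_distrib,
        Finset.sum_const, card_tq_fib, sum_tq_inv (yA P n 1 r) _ a]
      rfl
    trace := fun _ _ hl h a => by
      obtain ⟨-, hJ, hc⟩ := h.aw.mul hl
      rw [(k0 hl h).1]
      convert tr_trace (trA_inert G (hn.okN hr h) hl rfl hJ hc) a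
    kron := fun c w _ h hg => by
      obtain ⟨h2, hJ, hc⟩ := h.aw.mul w.prime
      exact tr_kron (hn.okN hr h).of_mul.toOk h2 hJ hc
        (kron_yA G (hn.okN hr h) rfl (k0 w.prime h).2.1 (k0 w.prime h).2.2 hJ hc hg)
    ν_gen := fun w s τ h k hτ => (hν _ s w.prime h.aw k).2 w τ rfl hτ
    ν_ram := fun l s _ hl h k e _ hg =>
      (hν l s hl h.aw k).1 _ (tq_rho_ram_sq (hw.ok h.aw) hw.sqf e hg)
    ν_fib := fun c l s hl h k a x => by
      convert hs_fib F hw hl h.aw (ν l s) (hν l s hl (h.aw.dvd (dvd_mul_left l c)) k).2 a x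
    gen_ψ := hθ }
  refine ⟨S, ?_, fun f hf => ?_⟩
  · obtain ⟨T, hT⟩ := exists_hrp NN_ne (D := -n) (by have := hn.gt; omega) r
    refine ⟨T, hT, fun e k h4 => ⟨1, .inl rfl, ?_⟩⟩
    rw [one_smul, ysum, ← link_sum P ok hw.sqf (T := T) (by simpa using hT)
      ((Int.squarefree_natCast.2 hw.sqf).squarefree_of_dvd k) h4 (by simpa using k)
      fun p hp h => absurd h hp.not_dvd_one]
    refine (congrArg _ (sum_tr (θ e) _)).trans ((map_sum _ _ _).trans
      (Finset.sum_congr rfl fun x _ => ?_))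
    rw [map_zsmul, jC_yA G ok, (k1 e k h4).2]
  have g0 : ∀ {c : ℕ}, OkN NN n c r → Gd n (c * f.natAbs) f := fun ok =>
    gd_odd (hf.okN ok).toOk hf.m4 (dvd_mul_left _ _)
  let Y : ES S f := {
    y := fun c => tz (wt P r (↑) f c (c * f.natAbs))
    gal := fun _ h g hg => tr_map
      ((zsmulAddGroupHom (chi f g : ℤ)).comp (DistribSMul.toAddMonoidHom EE g))
      (tw_wt G (hf.okN (hn.okN hr h)) (dvd_mul_right _ _) (g0 (hn.okN hr h)) hg)
    trace := fun c l hl h a => by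
      obtain ⟨-, hJ, hc⟩ := h.aw.mul hl
      rw [(k0 hl h).1]
      convert tr_trace (wt_trace G (hf.okN (hn.okN hr h)) hl hJ (hf.nd_mul hl hJ hc)
        (dvd_mul_right _ _) (mul_right_comm c l _) (g0 (hn.okN hr h).of_mul)) a
    kron := fun c w _ h hg => by
      obtain ⟨h2, hJ, hc⟩ := h.aw.mul w.prime
      exact tr_kron (hn.okN hr h).of_mul.toOk h2 hJ hc
        (wt_kron G (hf.okN (hn.okN hr h)) (k0 w.prime h).2.1 (k0 w.prime h).2.2 hJ
          (hf.nd_mul w.prime hJ hc) (dvd_mul_right _ _) (mul_right_comm c _ _)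
          (g0 (hn.okN hr h).of_mul) hg) }
  refine ⟨Y, And.symm ⟨?_, ?_⟩⟩
  · have ok' := hf.okN ok
    obtain ⟨T, hT⟩ := exists_hrp NN_ne (ok_neg ok'.toOk) (r * (1 * f.natAbs : ℕ))
    refine ⟨T, by simpa using hT, fun e k h4 => ⟨1, .inl rfl, ?_⟩⟩
    have m4 : f * e % 4 = 1 := by rw [Int.mul_emod, hf.m4, h4]; rfl
    have md : f * e ∣ n * (1 * f.natAbs : ℕ) := by
      rw [mul_comm, one_mul]
      exact mul_dvd_mul k (Int.dvd_natAbs.2 dvd_rfl)
    have sq : Squarefree (f * e) := squarefree_mul_iff.2 ⟨(Int.isCoprime_iff_gcd_eq_one.2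
      (Nat.coprime_of_dvd fun p hp p1 p2 => by
        have := (hf.spl p hp (Int.natCast_dvd.2 p1)).2
        rw [jac_zero_of_dvd hp (dvd_neg.2 ((Int.natCast_dvd.2 p2).trans k))] at this
        omega)).isRelPrime, hf.sqf, (Int.squarefree_natCast.2 hw.sqf).squarefree_of_dvd k⟩
    rw [one_smul, ysum, ← link_sum P ok' hw.sqf hT sq m4 md fun p _ h => by
      rw [Int.natAbs_mul]; exact (one_mul f.natAbs ▸ h).mul_right _]
    refine (congrArg _ ((sum_tr (θ e) _).trans ((Finset.sum_congr rfl fun x _ => ?_).trans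
      (Finset.sum_fiberwise Finset.univ (pj n 1 (1 * f.natAbs)) fun z =>
        (th n _ (f * e) z : ℤ) • yA P n _ r z)))).trans ((map_sum _ _ _).trans
          (Finset.sum_congr rfl fun z _ => by rw [map_zsmul, jC_yA G ok']))
    rw [wt, fs, Finset.smul_sum]
    refine Finset.sum_congr rfl fun z hz => ?_
    rw [← (Finset.mem_filter.1 hz).2, smul_smul, (k1 e k h4).2,
      ← (k1 e k h4).1.th_pj ok'.toOk (one_dvd _)]
    obtain ⟨g, hg, rfl⟩ := rho_surj ok'.toOk z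
    rw [(g0 ok).th hg, ((k1 e k h4).1.of_dvd ok'.toOk (one_dvd _)).th hg,
      Gd.th ((kc_odd ok.m4 m4 md).exists_th ok'.toOk) hg, chi_mul hf.sqf.ne_zero (by omega),
      Units.val_mul, mul_comm]
  · choose! φ hφ using fun (l : ℕ) (hl : l.Prime) => show ∃ φ, ∃ w : Plc, w.p = l ∧ IsFrob w l φ by
      obtain ⟨w, rfl⟩ := exists_plc hl
      exact (B2.exists_frob w).imp fun _ h => ⟨w, rfl, h⟩
    refine ⟨φ, fun l hl => hφ l (Nat.prime_of_mem_primeFactors hl), fun c hc a => ?_⟩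
    have ok1 := hn.okN hr hc
    have k2 : ∀ l ∈ f.natAbs.primeFactors, l.Prime ∧ l ≠ 2 ∧ ¬ l ∣ NN ∧ J(-n | l) = 1 :=
      fun l hl => by
        have p1 := Nat.prime_of_mem_primeFactors hl
        have p2 := Int.natCast_dvd.2 (Nat.dvd_of_mem_primeFactors hl)
        exact ⟨p1, by rintro rfl; have := hf.m4; omega, hf.spl l p1 p2⟩
    have e1 := tr_eul G (c := c) φ f.natAbs.primeFactors (fun l hl => by
      obtain ⟨p1, p2, -, p4⟩ := k2 l hl
      exact ⟨p2, p4, fun k => by have := (hc.2 l p1 k).2; omega, hφ l p1⟩) _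
      (by rw [Nat.prod_primeFactors_of_squarefree (Int.squarefree_natAbs.2 hf.sqf)]) (hf.okN ok1)
    refine ⟨tz (fun x => -wt P r (fun a => ind (-a)) f c (c * f.natAbs) x) a, fun g h1 h2 h3 => ?_,
      ?_⟩
    · refine (tr_map (DistribSMul.toAddMonoidHom EE g) (fun x => ?_) a).trans
        (congrArg _ ((congrArg (· * a) h2).trans (one_mul a)))
      rw [DistribSMul.toAddMonoidHom_apply, smul_neg,
        smul_wt G (hf.okN ok1) (dvd_mul_right _ _) (g0 ok1) h1, h3]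
      simp only [one_mul]
    · refine Eq.trans ?_ (congrArg (· + _) ((congrFun e1 a).trans
        (congrArg (shA _ EE · _ a) (Finset.prod_congr rfl fun l hl => ?_))))
      · change tz _ a = _
        rw [tz, tz, tz, Finset.smul_sum, ← Finset.sum_add_distrib]
        exact Finset.sum_congr rfl fun x _ => wt_eq x
      · obtain ⟨p1, p2, p3, -⟩ := k2 l hl
        rw [ha l p1 fun k => (p1.dvd_mul.1 k).elim
          (fun k => p2 ((Nat.prime_dvd_prime_iff_eq p1 Nat.prime_two).1 k)) p3]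

end Pool.Agent.B6
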