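import Pool.Agent.Lib.MP_696deb_nt.B6.Red0

/-! The parameter `-x / y` on the kernel of reduction. -/

set_option autoImplicit false

open scoped NNReal Classical
open WeierstrassCurve WeierstrassCurve.Affine

namespace Pool.Agent.B6

open Pool.Agent.Lib.MP_696deb_nt Pool.Agent.Lib.MP_696deb_nt.B2

variable [Cw] {w : Plc} {P Q : EE}

/-- The parameter at the origin. -/
noncomputable def zc (P : EE) : Qbar := -xco P / yco P

@[simp] theorem zc_zero : zc 0 = 0 := by simp [zc]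

theorem zc_smul (g : Gam) (P : EE) : zc (g • P) = g (zc P) := by
  rw [zc, zc, xco_smul, yco_smul, map_div₀, map_neg]

theorem taj_xy (h : 1 < w.V (xco P)) : w.V (yco P) ^ 2 = w.V (xco P) ^ 3 := by
  have p0 : P ≠ 0 := by rintro rfl; simp at h
  have e := r0_eqn p0
  generalize xco P = x, yco P = y at h e
  have x0 : 0 < w.V x := zero_lt_one.trans h
  have a1 : ∀ (a : ℤ) (t : Qbar), w.V (a * t) ≤ w.V t := fun a t => by
    rw [map_mul]; exact mul_le_of_le_one_left' (w.V_int_le a)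
  have l1 : w.V x ^ 2 < w.V x ^ 3 := pow_lt_pow_right₀ h (by norm_num)
  have l2 : w.V x ≤ w.V x ^ 2 := le_self_pow₀ h.le two_ne_zero
  have r1 : w.V (x ^ 3 + WZ.a₂ * x ^ 2 + WZ.a₄ * x + WZ.a₆) = w.V x ^ 3 := by
    rw [add_assoc, add_assoc, w.V.map_add_eq_of_lt_left, map_pow]
    rw [map_pow]
    refine lt_of_le_of_lt (w.V.map_add_le ((a1 _ _).trans (map_pow _ _ _).le)
      (w.V.map_add_le ((a1 _ _).trans l2) ((w.V_int_le _).trans (h.le.trans l2)))) l1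
  have r2 : w.V (WZ.a₁ * x + WZ.a₃) ≤ w.V x :=
    w.V.map_add_le (a1 _ _) ((w.V_int_le _).trans h.le)
  rw [← e, show y ^ 2 + WZ.a₁ * x * y + WZ.a₃ * y = y * (y + (WZ.a₁ * x + WZ.a₃)) by ring,
    map_mul] at r1
  rcases le_or_gt (w.V y) (w.V x) with k | k
  · have := mul_le_mul' k (w.V.map_add_le k r2)
    rw [r1, ← sq] at this
    exact absurd l1 this.not_gt
  · rw [← r1, w.V.map_add_eq_of_lt_left (r2.trans_lt k), sq]

theorem taj_z (h : 1 < w.V (xco P)) : 0 < w.V (zc P) ∧ w.V (zc P) < 1 ∧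
    w.V (zc P) ^ 2 * w.V (xco P) = 1 ∧ w.V (zc P) ^ 3 * w.V (yco P) = 1 := by
  have e := taj_xy h
  rw [zc, map_div₀, w.V.map_neg]
  generalize w.V (xco P) = X, w.V (yco P) = Y at h e
  have x0 : 0 < X := zero_lt_one.trans h
  have y0 : 0 < Y := pos_iff_ne_zero.2 fun k => pow_ne_zero 3 x0.ne' (by rw [← e, k]; simp)
  have e1 : (X / Y) ^ 2 * X = 1 := by
    rw [div_pow, div_mul_eq_mul_div, ← pow_succ, e, div_self (pow_ne_zero 3 x0.ne')]
  refine ⟨div_pos x0 y0, not_le.1 fun k => ?_, e1, ?_⟩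
  · exact (one_lt_mul_of_le_of_lt (one_le_pow₀ k) h).ne' e1
  · rw [div_pow, ← e, div_mul_eq_mul_div, ← pow_succ, div_self (pow_ne_zero 3 y0.ne')]

theorem zc_lt (h : P ∈ K1 w) : w.V (zc P) < 1 := by
  rcases h with rfl | h
  · simp
  · exact (taj_z h).2.1

theorem zc_pos (h : P ∈ K1 w) (h0 : P ≠ 0) : 0 < w.V (zc P) := (taj_z (h.resolve_left h0)).1

theorem taj_neg (h : P ∈ K1 w) : w.V (zc P + zc (-P)) ≤ w.V (zc P) ^ 2 := by
  rcases h with rfl | h
  · simp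
  have p0 : P ≠ 0 := by rintro rfl; simp at h
  have h' : 1 < w.V (xco (-P)) := by rwa [xco_neg]
  have e1 := taj_xy h
  have e2 := taj_xy h'
  have e3 := r0_neg p0
  rw [xco_neg, ← e1, pow_left_inj₀ zero_le zero_le two_ne_zero] at e2
  have y0 : w.V (yco P) ≠ 0 := fun k => by simpa [k] using (taj_z h).2.2.2
  have y1 : yco P ≠ 0 := by simpa using y0
  have y2 : yco (-P) ≠ 0 := by rw [← e2] at y0; simpa using y0
  have r2 : w.V (WZ.a₁ * xco P + WZ.a₃) ≤ w.V (xco P) := w.V.map_add_le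
    (by rw [map_mul]; exact mul_le_of_le_one_left' (w.V_int_le _)) ((w.V_int_le _).trans h.le)
  rw [zc, zc, xco_neg, show -xco P / yco P + -xco P / yco (-P) =
    xco P * (WZ.a₁ * xco P + WZ.a₃) / (yco P * yco (-P)) by
      field_simp; linear_combination -xco P * e3, map_div₀, map_mul, map_mul, e2, map_div₀,
    w.V.map_neg, div_pow, sq, sq]
  exact div_le_div_of_nonneg_right (mul_le_mul_right r2 _) zero_le

theorem V_zc_neg (h : P ∈ K1 w) : w.V (zc (-P)) = w.V (zc P) := by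
  by_cases p0 : P = 0
  · simp [p0]
  have l : w.V (zc P) ^ 2 < w.V (zc P) := by
    rw [sq]; exact mul_lt_of_lt_one_right (zc_pos h p0) (zc_lt h)
  rw [← add_sub_cancel_left (zc P) (zc (-P)), w.V.map_sub_eq_of_lt_right ((taj_neg h).trans_lt l)]

/-- Three points on a line. -/
theorem taj_line {m : ℝ≥0} (hP : 1 < w.V (xco P)) (hQ : 1 < w.V (xco Q))
    (h : 1 < w.V (xco (-(P + Q)))) (m1 : w.V (zc P) ≤ m) (m2 : w.V (zc Q) ≤ m)
    (m3 : w.V (zc (-(P + Q))) ≤ m) : w.V (zc P + zc Q + zc (-(P + Q))) ≤ m ^ 2 := by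
  have p0 : P ≠ 0 := by rintro rfl; simp at hP
  have q0 : Q ≠ 0 := by rintro rfl; simp at hQ
  have r0 : P + Q ≠ 0 := fun k => by simp [k] at h
  obtain ⟨l, ν, e1, e2, e3, s1, s2⟩ := r0_line p0 q0 r0
  have e := r0_eqn p0
  obtain ⟨a0, a1, a2, a3⟩ := taj_z hP
  obtain ⟨b0, b1, b2, b3⟩ := taj_z hQ
  obtain ⟨c0, c1, c2, c3⟩ := taj_z h
  rw [← xco_neg (P + Q)] at e3 s1 s2
  have z1 : zc P = -xco P / yco P := rfl
  have z2 : zc Q = -xco Q / yco Q := rfl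
  have z3 : zc (-(P + Q)) = -xco (-(P + Q)) / yco (-(P + Q)) := rfl
  generalize zc P = z, zc Q = z', zc (-(P + Q)) = z'', xco P = x, yco P = y, xco Q = x',
    yco Q = y', xco (-(P + Q)) = x'', yco (-(P + Q)) = y'' at *
  have s3 : x * x' * x'' = ν * (ν + WZ.a₃) - WZ.a₆ := by
    rw [e1] at e
    linear_combination -e + x * s2 - x ^ 2 * s1
  have y1 : y ≠ 0 := by rintro rfl; simp at a3
  have y2 : y' ≠ 0 := by rintro rfl; simp at b3
  have y3 : y'' ≠ 0 := by rintro rfl; simp at c3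
  have v1 : 1 < w.V (x * x' * x'') := by
    rw [map_mul, map_mul]
    exact one_lt_mul'' (one_lt_mul'' hP hQ) h
  have v2 : 1 < w.V ν := not_le.1 fun k => v1.not_ge (by
    have k' : ν ∈ w.V.integer := k
    rw [s3]
    exact (sub_mem (mul_mem k' (add_mem k' (intCast_mem _ _))) (intCast_mem _ _) :
      _ ∈ w.V.integer))
  have v3 : w.V (ν + WZ.a₃) = w.V ν := w.V.map_add_eq_of_lt_left ((w.V_int_le _).trans_lt v2)
  have v4 : w.V (x * x' * x'') = w.V ν ^ 2 := by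
    rw [s3, w.V.map_sub_eq_of_lt_left, map_mul, v3, sq]
    rw [map_mul, v3]
    exact (w.V_int_le _).trans_lt (one_lt_mul'' v2 v2)
  have n0 : ν ≠ 0 := by rintro rfl; simp at v2
  obtain ⟨μ, rfl⟩ : ∃ μ, ν = μ⁻¹ := ⟨ν⁻¹, (inv_inv ν).symm⟩
  have u0 : μ ≠ 0 := fun k => n0 (by rw [k, inv_zero])
  have u1 : w.V μ ≠ 0 := by simpa using u0
  have v5 : w.V μ = w.V z * w.V z' * w.V z'' := by
    rw [← pow_left_inj₀ zero_le zero_le two_ne_zero]
    rw [map_mul, map_mul, map_inv₀] at v4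
    calc w.V μ ^ 2 = w.V μ ^ 2 * ((w.V z ^ 2 * w.V x) * (w.V z' ^ 2 * w.V x') *
          (w.V z'' ^ 2 * w.V x'')) := by rw [a2, b2, c2, one_mul, one_mul, mul_one]
      _ = w.V μ ^ 2 * (w.V x * w.V x' * w.V x'') * (w.V z * w.V z' * w.V z'') ^ 2 := by ring
      _ = _ := by rw [v4, ← mul_pow, mul_inv_cancel₀ u1, one_pow, one_mul]
  have v6 : w.V (y * y' * y'' * μ ^ 3) = 1 := by
    rw [map_mul, map_mul, map_mul, map_pow, v5]
    calc _ = (w.V z ^ 3 * w.V y) * (w.V z' ^ 3 * w.V y') * (w.V z'' ^ 3 * w.V y'') := by ring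
      _ = 1 := by rw [a3, b3, c3, one_mul, one_mul]
  have v7 : w.V μ ≤ w.V z * m ^ 2 := by
    rw [v5, mul_assoc, sq]
    exact mul_le_mul_right (mul_le_mul' m2 m3) _
  have v8 : w.V (l * μ) ≤ m ^ 2 ∧ w.V (l * μ) ≤ 1 := by
    have k1 : z * (l * μ) = y⁻¹ * 1 - μ := by
      rw [z1]; field_simp; linear_combination μ * e1 + mul_inv_cancel₀ u0
    have k2 : w.V (y⁻¹ * 1) = w.V z * w.V z ^ 2 := by
      rw [mul_one, map_inv₀, ← pow_succ', eq_comm]
      exact eq_inv_of_mul_eq_one_left a3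
    have k3 : ∀ r : ℝ≥0, w.V μ ≤ w.V z * r → w.V z ^ 2 ≤ r → w.V (l * μ) ≤ r := fun r i j => by
      refine le_of_mul_le_mul_left ?_ a0
      rw [← map_mul, k1]
      exact w.V.map_sub_le (k2 ▸ mul_le_mul_right j _) i
    refine ⟨k3 _ v7 (pow_le_pow_left₀ zero_le m1 2), k3 _ ?_ (pow_le_one₀ zero_le a1.le)⟩
    rw [v5, mul_assoc]
    exact mul_le_mul_right (mul_le_one' b1.le c1.le) _
  have v9 : w.V μ ≤ m ^ 2 := v7.trans (mul_le_of_le_one_left' a1.le)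
  have i1 : μ ∈ w.V.integer := by
    change w.V μ ≤ 1
    rw [v5]
    exact mul_le_one' (mul_le_one' a1.le b1.le) c1.le
  have i2 : l * μ ∈ w.V.integer := v8.2
  have key : (z + z' + z'') * (y * y' * y'' * μ ^ 3) = l * μ * (WZ.a₁ - WZ.a₃ * (l * μ) +
      3 * WZ.a₆ * (l * μ) * μ - 2 * WZ.a₄ * μ) + μ * WZ.a₂ := by
    have k1 : (z + z' + z'') * (y * y' * y'') = -(x * y' * y'' + x' * y * y'' + x'' * y * y') := by
      rw [z1, z2, z3]; field_simp; ring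
    rw [← mul_assoc, k1, e1, e2, e3]
    have k2 := mul_inv_cancel₀ u0
    generalize μ⁻¹ = ν at *
    linear_combination (-3 * l ^ 2 * μ ^ 3) * s3 + (-2 * l * ν * μ ^ 3) * s2 +
      (-ν ^ 2 * μ ^ 3) * s1 + (-WZ.a₃ * l ^ 2 * μ ^ 2 - 2 * WZ.a₄ * l * μ ^ 2 +
        (WZ.a₁ * l * μ + WZ.a₂ * μ) * (μ * ν + 1)) * k2
  have fin := congrArg w.V key
  rw [map_mul, v6, mul_one] at fin
  rw [fin]
  refine w.V.map_add_le ?_ ?_ <;> rw [map_mul]
  · refine (mul_le_of_le_one_right' ?_).trans v8.1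
    exact (sub_mem (add_mem (sub_mem (intCast_mem _ _) (mul_mem (intCast_mem _ _) i2))
      (mul_mem (mul_mem (mul_mem (ofNat_mem _ 3) (intCast_mem _ _)) i2) i1))
      (mul_mem (mul_mem (ofNat_mem _ 2) (intCast_mem _ _)) i1) : _ ∈ w.V.integer)
  · exact (mul_le_of_le_one_right' (w.V_int_le _)).trans v9

/-- The parameter is additive up to terms of degree two. -/
theorem zc_add {m : ℝ≥0} (hP : P ∈ K1 w) (hQ : Q ∈ K1 w) (m1 : w.V (zc P) ≤ m)
    (m2 : w.V (zc Q) ≤ m) : w.V (zc (P + Q) - (zc P + zc Q)) ≤ m ^ 2 := by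
  by_cases p0 : P = 0
  · simp [p0]
  by_cases q0 : Q = 0
  · simp [q0]
  by_cases r0 : P + Q = 0
  · rw [r0, zc_zero, zero_sub, w.V.map_neg, eq_neg_of_add_eq_zero_right r0]
    exact (taj_neg hP).trans (pow_le_pow_left₀ zero_le m1 2)
  have hR := neg_mem (add_mem hP hQ)
  have r1 := neg_ne_zero.2 r0
  have key := fun m => taj_line (m := m) (hP.resolve_left p0) (hQ.resolve_left q0)
    (hR.resolve_left r1)
  have m3 : w.V (zc (-(P + Q))) ≤ m := not_lt.1 fun k => by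
    have k1 := key _ (m1.trans k.le) (m2.trans k.le) le_rfl
    rw [w.V.map_add_eq_of_lt_right ((w.V.map_add_le m1 m2).trans_lt k), sq] at k1
    exact k1.not_gt (mul_lt_of_lt_one_right (zc_pos hR r1) (zc_lt hR))
  have k2 := (taj_neg hR).trans (pow_le_pow_left₀ zero_le m3 2)
  rw [neg_neg] at k2
  rw [show zc (P + Q) - (zc P + zc Q) =
    (zc (-(P + Q)) + zc (P + Q)) - (zc P + zc Q + zc (-(P + Q))) by ring]
  exact w.V.map_sub_le k2 (key m m1 m2 m3)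

theorem zc_inj (hP : P ∈ K1 w) (hQ : Q ∈ K1 w) (h : zc P = zc Q) : P = Q := by
  by_cases p0 : P = 0
  · by_contra k
    have := zc_pos hQ fun e => k (p0.trans e.symm)
    simp [← h, p0] at this
  have q0 : Q ≠ 0 := fun e => by simpa [h, e] using zc_pos hP p0
  have key : ∀ {R : EE}, R ∈ K1 w → R ≠ 0 → ∃ u, w.V u < 1 ∧ u ≠ 0 ∧ yco R = -u⁻¹ ∧
      xco R = zc R * u⁻¹ ∧ u = zc R ^ 3 + WZ.a₁ * zc R * u + WZ.a₂ * zc R ^ 2 * u + WZ.a₃ * u ^ 2 +
        WZ.a₄ * zc R * u ^ 2 + WZ.a₆ * u ^ 3 := fun {R} hR r0 => by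
    obtain ⟨-, a1, -, a3⟩ := taj_z (hR.resolve_left r0)
    have y0 : yco R ≠ 0 := fun k => by simp [k] at a3
    refine ⟨-(yco R)⁻¹, ?_, by simpa using y0, by simp, by rw [zc]; field_simp, ?_⟩
    · rw [w.V.map_neg, map_inv₀, ← eq_inv_of_mul_eq_one_left a3]
      exact pow_lt_one₀ zero_le a1 three_ne_zero
    · rw [zc]
      field_simp
      linear_combination -r0_eqn r0
  obtain ⟨u, u1, u0, u2, u3, u4⟩ := key hP p0
  obtain ⟨v, v1, v0, v2, v3, v4⟩ := key hQ q0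
  have z1 := zc_lt hP
  rw [← h] at v3 v4
  generalize zc P = z at *
  have e : (u - v) * (1 + (z * -(WZ.a₁ + WZ.a₂ * z) + (u + v) * -(WZ.a₃ + WZ.a₄ * z) +
      (u * -(WZ.a₆ * (u + v)) + v * -(WZ.a₆ * v)))) = 0 := by linear_combination u4 - v4
  have iz : z ∈ w.V.integer := z1.le
  have iu : u ∈ w.V.integer := u1.le
  have iv : v ∈ w.V.integer := v1.le
  have k := r0_one w (w.V.map_add_lt (w.V.map_add_lt
    (r0_mul w z1 (neg_mem (add_mem (intCast_mem _ WZ.a₁) (mul_mem (intCast_mem _ WZ.a₂) iz))))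
    (r0_mul w (w.V.map_add_lt u1 v1)
      (neg_mem (add_mem (intCast_mem _ WZ.a₃) (mul_mem (intCast_mem _ WZ.a₄) iz)))))
    (w.V.map_add_lt (r0_mul w u1 (neg_mem (mul_mem (intCast_mem _ WZ.a₆) (add_mem iu iv))))
      (r0_mul w v1 (neg_mem (mul_mem (intCast_mem _ WZ.a₆) iv)))))
  obtain rfl : u = v := sub_eq_zero.1 ((mul_eq_zero.1 e).resolve_right fun e' => by
    rw [e', map_zero] at k
    exact zero_ne_one k)
  exact r0_ext p0 q0 (u3.trans v3.symm) (u2.trans v2.symm)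

theorem exists_zc {z : Qbar} (hz : w.V z < 1) : ∃ P ∈ K1 w, zc P = z := by
  by_cases z0 : z = 0
  · exact ⟨0, zero_mem _, by simp [z0]⟩
  let F : Cubic Qbar := ⟨z ^ 3, 1 + z * -(WZ.a₁ + WZ.a₂ * z), WZ.a₃ + WZ.a₄ * z, -WZ.a₆⟩
  have ha : F.a ≠ 0 := pow_ne_zero 3 z0
  obtain ⟨r, s, t, h⟩ := (Cubic.splits_iff_roots_eq_three (φ := RingHom.id Qbar) ha).1
    (IsAlgClosed.splits _)
  have h1 : 1 + z * -(WZ.a₁ + WZ.a₂ * z) = z ^ 3 * -(r + s + t) := Cubic.b_eq_three_roots ha h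
  have h2 : WZ.a₃ + WZ.a₄ * z = z ^ 3 * (r * s + r * t + s * t) := Cubic.c_eq_three_roots ha h
  have h3 : -(WZ.a₆ : Qbar) = z ^ 3 * -(r * s * t) := Cubic.d_eq_three_roots ha h
  have iz : z ∈ w.V.integer := hz.le
  have key : ∀ y, z ^ 3 * ((y - r) * (y - s) * (y - t)) = 0 → 1 < w.V y → ∃ P ∈ K1 w, zc P = z :=
    fun y e k => by
      have y0 : y ≠ 0 := by rintro rfl; simp at k
      have hp : (Wu.baseChange Qbar).toAffine.Nonsingular (-z * y) y := (Wu_nonsingular _ _).2 (by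
        linear_combination e + y ^ 2 * h1 + y * h2 + h3)
      refine ⟨.some _ _ hp, by_contra fun n => k.not_ge (V_xco_le n).2, ?_⟩
      rw [zc, xco_some, yco_some]
      field_simp
  by_cases k1 : 1 < w.V r
  · exact key r (by ring) k1
  by_cases k2 : 1 < w.V s
  · exact key s (by ring) k2
  refine key t (by ring) (not_le.1 fun k3 => ?_)
  have k4 := r0_one w
    (r0_mul w hz (neg_mem (add_mem (intCast_mem _ WZ.a₁) (mul_mem (intCast_mem _ WZ.a₂) iz))))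
  rw [h1, pow_succ', mul_assoc] at k4
  exact (r0_mul w hz (mul_mem (pow_mem iz 2) (neg_mem (add_mem
    (add_mem (not_lt.1 k1 : r ∈ w.V.integer) (not_lt.1 k2 : s ∈ w.V.integer)) k3)))).ne k4

end Pool.Agent.B6
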