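import Pool.Agent.Lib.MP_696deb_nt.B6.D1
import Pool.Agent.Lib.MP_696deb_nt.B5.Z3
import Pool.Agent.Lib.MP_696deb_nt.Cartier

/-! The hypotheses and the conclusion of the converse theorem. -/

set_option autoImplicit false

open scoped Classical
open NumberTheorySymbols

namespace Pool.Agent.B6

open Pool.Agent.Lib.MP_696deb_nt Pool.Agent.Lib.MP_696deb_nt.B2 Pool.Agent.B4

variable [Cs]

/-- The Heegner point of the field of discriminant `-q` is not twice a point over that field. -/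
def SeedC (φ : ℂ → Pt Wu ℂ) (q : ℕ) : Prop := ∃ (r : ℤ) (T : Finset Fm),
  4 * (NN : ℤ) ∣ r ^ 2 + q ∧ HRp NN (-q) r T ∧
    ∀ R : EE, (∀ g ∈ GK q, g • R = R) → 2 • pmap jC R ≠ ysum φ 1 T

/-- The newform of the curve, with nonzero central value and a primitive Heegner point. -/
structure Hyp (D : GE.MD Wu NN) : Prop where
  nw : G5.Nw D
  tr : ∀ (l : ℕ) [Fact l.Prime], ¬ l ∣ 2 * NN → D.c l = tr l cub
  t0 : D.par.t0 ≠ 0
  seed : ∃ q : ℕ, q.Prime ∧ q % 8 = 3 ∧ 3 < q ∧ q.Coprime NN ∧ SeedC D.par.φ q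

/-- The rank part of the conjecture for the twist by `d`, with both ranks equal to `r`. -/
def Bsd (d : ℤ) (r : ℕ) : Prop := G5.AnR (-27 * WZ.c₄ * d ^ 2) (-54 * WZ.c₆ * d ^ 3) r ∧
  Module.Finite ℤ (Et d).toAffine.Point ∧ Module.finrank ℤ (Et d).toAffine.Point = r

/-- The converse theorem. -/
def Conv : Prop := ∀ d : ℤ, Squarefree d → d % 4 = 1 → IsCoprime d NN → Cork d →
  Bsd d (if J(-NN | d.natAbs) = 1 then 0 else 1)

end Pool.Agent.B6
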