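import Pool.Agent.Lib.MP_696deb_nt.B6.CEb
import Pool.Agent.Lib.MP_696deb_nt.B6.TWb
import Pool.Agent.Lib.MP_696deb_nt.B6.H0
import Pool.Agent.Lib.MP_696deb_nt.B6.MLK
import Pool.Agent.Lib.MP_696deb_nt.B5.LFa
import Pool.Agent.Lib.MP_696deb_nt.B5.ZLb
import Pool.Agent.Lib.MP_696deb_nt.B2.MCH

/-! The Euler product of the short model of a twist, and inert primes that are not supersingular. -/

set_option autoImplicit false

open NumberTheorySymbols Matrix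

namespace Pool.Agent.B6

open Pool.Agent.Lib.MP_696deb_nt Pool.Agent.Lib.MP_696deb_nt.B2 Pool.Agent.B4.GE
open Pool.Agent.G5 (LA)

section

variable [Cw] {N : ℕ} {D : MD Wu N}

theorem New.nw (n : New D) : G5.Nw D := fun r hr h => ⟨n.sq r hr h, n.hU r hr h⟩

theorem New.t0_ne (n : New D) : D.par.t0 ≠ 0 := fun e => n.t0 (by
  rw [← D.par_t0, e]
  exact zero_mem _)

theorem New.LA_one (n : New D) : LA D.par.F 1 1 ≠ 0 := by
  rw [G5.LA_one]
  exact n.t0_ne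

/-- The first coefficient of the short model of the twist. -/
def sA (d : ℤ) : ℤ := -27 * WZ.c₄ * d ^ 2

/-- The second coefficient of the short model of the twist. -/
def sB (d : ℤ) : ℤ := -54 * WZ.c₆ * d ^ 3

theorem Et_eq (d : ℤ) : Et d = ⟨0, 0, 0, sA d, sB d⟩ := by
  simp [Et, sA, sB]

theorem sh_disc (d : ℤ) : -4 * sA d ^ 3 - 27 * sB d ^ 2 = (108 * d) ^ 2 * (108 * d ^ 2) ^ 2 * WZ.Δ := by
  rw [sA, sB]
  linear_combination (-78732 * d ^ 6) * WZ.c_relation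

end

section

variable [Cs] {D : MD Wu NN} {d : ℤ}

theorem trs_short {c : ℕ → ℤ} (n : ∀ (l : ℕ) [Fact l.Prime], ¬ l ∣ 2 * NN → c l = tr l cub)
    (h4 : d % 4 = 1) (l : ℕ) (hl : l.Prime)
    (k : ¬ (l : ℤ) ∣ 2 * (-4 * sA d ^ 3 - 27 * sB d ^ 2)) : ¬ l ∣ NN * d.natAbs ∧
    J((l : ℤ) | d.natAbs) * c l = l - (Nat.card {q : ZMod l × ZMod l //
      q.2 ^ 2 = q.1 ^ 3 + (sA d : ZMod l) * q.1 + (sB d : ZMod l)} : ℤ) := by
  have := Fact.mk hl
  rw [sh_disc] at k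
  have l2 : l ≠ 2 := fun e => k (by rw [e]; exact dvd_mul_right _ _)
  have k2 : ¬ l ∣ NN := fun e => k ((((dvd_Δ hl).2 e).mul_left _).mul_left _)
  have k3 : ((108 * d : ℤ) : ZMod l) ≠ 0 := fun e => k (((((dvd_pow
    ((ZMod.intCast_zmod_eq_zero_iff_dvd _ l).1 e) two_ne_zero).mul_right _)).mul_right _).mul_left _)
  push_cast at k3
  refine ⟨fun e => (hl.dvd_mul.1 e).elim k2 fun e => right_ne_zero_of_mul k3
    ((ZMod.intCast_zmod_eq_zero_iff_dvd d l).2 (Int.natCast_dvd.2 e)), ?_⟩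
  rw [card_eq_sub_tr l l2 fun x => x ^ 3 + sA d * x + sB d, sub_sub_cancel,
    n l fun e => (hl.dvd_mul.1 e).elim (fun e => l2 ((Nat.prime_dvd_prime_iff_eq hl
      Nat.prime_two).1 e)) k2, G5.jac_abs h4 (hl.odd_of_ne_two l2),
    ← jacobiSym.legendreSym.to_jacobiSym,
    ← tr_affine l (α := 36 * d) (fun e => k3 (by linear_combination 3 * e)) (3 * d * WZ.b₂)
      fun x => x ^ 3 + sA d * x + sB d, legendreSym, ← one_mul (quadraticChar _ _),
    ← quadraticChar_sq_one' k3, ← map_mul, ← tr_mul]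
  congr 1 with x
  simp only [sA, sB, cub, WeierstrassCurve.c₄, WeierstrassCurve.c₆]
  push_cast
  ring

theorem sh_ne (hd : d ≠ 0) : -4 * sA d ^ 3 - 27 * sB d ^ 2 ≠ 0 := by
  rw [sh_disc]
  exact mul_ne_zero (by positivity) WZ_ne

/-- The analytic rank of the short model. -/
theorem bsd_an (h : Hyp D) (hd : Squarefree d) (h4 : d % 4 = 1) :
    G5.AnR (-27 * WZ.c₄ * d ^ 2) (-54 * WZ.c₆ * d ^ 3) (analyticOrderAt (LA D.par.F d.natAbs) 1) :=
  G5.md_anr D h.nw (Int.squarefree_natAbs.2 hd) (Int.natAbs_odd.2 ⟨d / 2, by omega⟩)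
    (sh_ne hd.ne_zero) (trs_short h.tr h4)

theorem bsd_lf (h : Hyp D) (hd : Squarefree d) (h4 : d % 4 = 1) :
    (LA D.par.F d.natAbs 1 ≠ 0 → G5.AnR (-27 * WZ.c₄ * d ^ 2) (-54 * WZ.c₆ * d ^ 3) 0) ∧
      (LA D.par.F d.natAbs 1 = 0 → deriv (LA D.par.F d.natAbs) 1 ≠ 0 →
        G5.AnR (-27 * WZ.c₄ * d ^ 2) (-54 * WZ.c₆ * d ^ 3) 1) :=
  G5.lf_stmt _ _ D _ _ _ h.nw (Int.squarefree_natAbs.2 hd) (Int.natAbs_odd.2 ⟨d / 2, by omega⟩)
    (sh_ne hd.ne_zero) (trs_short h.tr h4)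

theorem bsd_an0 (h : Hyp D) (hd : Squarefree d) (h4 : d % 4 = 1) (k : LA D.par.F d.natAbs 1 ≠ 0) :
    G5.AnR (-27 * WZ.c₄ * d ^ 2) (-54 * WZ.c₆ * d ^ 3) 0 := (bsd_lf h hd h4).1 k

theorem bsd_an1 (h : Hyp D) (hd : Squarefree d) (h4 : d % 4 = 1) (k : LA D.par.F d.natAbs 1 = 0)
    (k' : deriv (LA D.par.F d.natAbs) 1 ≠ 0) :
    G5.AnR (-27 * WZ.c₄ * d ^ 2) (-54 * WZ.c₆ * d ^ 3) 1 := (bsd_lf h hd h4).2 k k'

theorem Hyp.LA_one (h : Hyp D) : LA D.par.F 1 1 ≠ 0 := by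
  rw [G5.LA_one]
  exact h.t0

theorem Hyp.par (h : Hyp D) (l : ℕ) (hl : l.Prime) (k : ¬ l ∣ 2 * NN) : Even (D.c l) ↔ Rt l := by
  have := Fact.mk hl
  rw [h.tr l k, cub_fun, even_tr' (fun e => k (e ▸ dvd_mul_right _ _))
    (fun e => k (((dvd_Δ hl).1 e).mul_left _)) rfl rfl rfl]
  exact exists_congr fun x => by rw [cub_fun]

theorem Et_short {a b : ℤ} (ha : a = -27 * WZ.c₄ * d ^ 2) (hb : b = -54 * WZ.c₆ * d ^ 3) :
    ({ a₁ := 0, a₂ := 0, a₃ := 0, a₄ := (a : ℚ), a₆ := (b : ℚ) } : WeierstrassCurve ℚ) = Et d := by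
  rw [ha, hb]
  exact (Et_eq d).symm

/-- The conclusion in explicit form. -/
theorem res_of {r : ℕ} (h : Bsd d r) {a b : ℤ} (ha : a = -27 * WZ.c₄ * d ^ 2)
    (hb : b = -54 * WZ.c₆ * d ^ 3) : ∃ G : ℂ → ℂ, Differentiable ℂ G ∧
      (∀ s : ℂ, (3 : ℝ) / 2 < s.re → HasProd (fun p : ℕ =>
        if p.Prime ∧ ¬ ((p : ℤ) ∣ 2 * (-4 * a ^ 3 - 27 * b ^ 2)) then
          (1 - ((p : ℂ) - (Nat.card {x : ZMod p × ZMod p //
            x.2 ^ 2 = x.1 ^ 3 + (a : ZMod p) * x.1 + (b : ZMod p)} : ℂ))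
              * (p : ℂ) ^ (-s) + (p : ℂ) ^ (1 - 2 * s))⁻¹
        else 1) (G s)) ∧
      analyticOrderAt G 1 = ((Module.finrank ℤ (WeierstrassCurve.Affine.Point
        (WeierstrassCurve.toAffine
          ({ a₁ := 0, a₂ := 0, a₃ := 0, a₄ := (a : ℚ), a₆ := (b : ℚ) } :
            WeierstrassCurve ℚ))) : ℕ) : ℕ∞) ∧
      Module.Finite ℤ (WeierstrassCurve.Affine.Point (WeierstrassCurve.toAffine
        ({ a₁ := 0, a₂ := 0, a₃ := 0, a₄ := (a : ℚ), a₆ := (b : ℚ) } : WeierstrassCurve ℚ))) ∧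
      analyticOrderAt G 1 = r := by
  rw [Et_short ha hb, ha, hb]
  obtain ⟨⟨G, g1, g2, g3⟩, h2, h3⟩ := h
  exact ⟨G, g1, g2, by rw [g3, h3], h2, g3⟩

/-- The same with the value that the converse theorem gives. -/
theorem res_conv (h : Conv) (hd : Squarefree d) (h4 : d % 4 = 1) (hN : IsCoprime d NN) {a b : ℤ}
    (ha : a = -27 * WZ.c₄ * d ^ 2) (hb : b = -54 * WZ.c₆ * d ^ 3) (hS : Stmt.CorankLE
      ({ a₁ := 0, a₂ := 0, a₃ := 0, a₄ := (a : ℚ), a₆ := (b : ℚ) } : WeierstrassCurve ℚ) 1) :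
    ∃ G : ℂ → ℂ, Differentiable ℂ G ∧
      (∀ s : ℂ, (3 : ℝ) / 2 < s.re → HasProd (fun p : ℕ =>
        if p.Prime ∧ ¬ ((p : ℤ) ∣ 2 * (-4 * a ^ 3 - 27 * b ^ 2)) then
          (1 - ((p : ℂ) - (Nat.card {x : ZMod p × ZMod p //
            x.2 ^ 2 = x.1 ^ 3 + (a : ZMod p) * x.1 + (b : ZMod p)} : ℂ))
              * (p : ℂ) ^ (-s) + (p : ℂ) ^ (1 - 2 * s))⁻¹
        else 1) (G s)) ∧
      analyticOrderAt G 1 = ((Module.finrank ℤ (WeierstrassCurve.Affine.Point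
        (WeierstrassCurve.toAffine
          ({ a₁ := 0, a₂ := 0, a₃ := 0, a₄ := (a : ℚ), a₆ := (b : ℚ) } :
            WeierstrassCurve ℚ))) : ℕ) : ℕ∞) ∧
      Module.Finite ℤ (WeierstrassCurve.Affine.Point (WeierstrassCurve.toAffine
        ({ a₁ := 0, a₂ := 0, a₃ := 0, a₄ := (a : ℚ), a₆ := (b : ℚ) } : WeierstrassCurve ℚ))) ∧
      analyticOrderAt G 1 = if jacobiSym (-NN) d.natAbs = 1 then 0 else 1 := by
  obtain ⟨G, g1, g2, g3, g4, g5⟩ :=
    res_of (h d hd h4 hN (m_cork hd.ne_zero (Et_short ha hb ▸ hS))) ha hb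
  refine ⟨G, g1, g2, g3, g4, g5.trans ?_⟩
  split_ifs <;> rfl

end

variable [Md] {w : Plc} {g : Gam}

theorem Tate.unip' (T : Tate) (hw : w.p ≠ 2) (hg : g ∈ Ine w) : (T.ρ g - 1) * (T.ρ g - 1) = 0 := by
  by_cases e : w.p ∣ NN
  · exact T.unip e hg
  · rw [T.unr w (fun k => ((dvd_two_NN w.prime).1 k).elim hw e) g hg, sub_self, mul_zero]

theorem Tate.tr_ine (T : Tate) (hw : w.p ≠ 2) (hg : g ∈ Ine w) : (T.ρ g).trace = 2 := by
  have h := T.unip' hw hg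
  have h1 := congrFun (congrFun h 0) 0
  have h2 := congrFun (congrFun h 0) 1
  have h3 := T.det g
  rw [cyc_ine hw hg, det_fin_two] at h3
  simp [mul_apply, Fin.sum_univ_two] at h1 h2
  rw [trace_fin_two]
  linear_combination T.ρ g 1 1 * h1 - T.ρ g 1 0 * h2 + (2 - T.ρ g 0 0 - T.ρ g 1 1 + T.ρ g 1 1) * h3

theorem Tate.inert (T : Tate) : G5.Inert al := fun n M hn h4 hM => by
  obtain ⟨p, hp, h⟩ := Nat.exists_prime_and_dvd (n := n) (by omega)
  obtain ⟨w, rfl⟩ := exists_plc hp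
  have h2 : w.p ≠ 2 := fun e => by rw [e] at h; omega
  obtain ⟨s, hs⟩ := exists_gen h2
  have c1 : chi (-n) s = -1 := by
    obtain ⟨y, rfl⟩ := h
    have hp := Nat.prime_iff_prime_int.1 hp
    rw [Nat.cast_mul, ← mul_neg, chi_mul hp.ne_zero (by
      rintro e
      simp [neg_eq_zero.1 e |> Nat.cast_eq_zero.1] at h4), hs.2,
      chi_ine (fun e => ?_) hs.1, mul_one]
    rcases hp.dvd_or_dvd e with e | e
    · exact h2 ((Nat.prime_dvd_prime_iff_eq w.prime Nat.prime_two).1 (by exact_mod_cast e))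
    · exact w.prime.prime.not_isUnit (hn _ (mul_dvd_mul_left _ (by exact_mod_cast dvd_neg.1 e)))
  let r := ((RingHom.mapMatrix (PadicInt.toZModPow 2)).toMonoidHom.comp T.ρ).toHomUnits
  have e : ∀ g, (r g).1 = mred 2 (T.ρ g) := fun g => rfl
  obtain ⟨v, φ, a, k1, k2, k3, k4, k5⟩ := m_cheb (r.ker ⊓ (chi (-n)).ker) s 2
    (M * MM * n).primeFactors (by
      obtain ⟨W, w1, -, w3⟩ := T.sm 2
      refine (Subgroup.isOpen_mono (fun g hg => Units.ext ?_) w1).inter (op_ker_chi _)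
      exact (w3 1 trivial g trivial (by simpa using hg)).symm.trans (congrArg Units.val r.map_one)) inferInstance ⟨Units.ext (by
      have k := congrArg (RingHom.mapMatrix (PadicInt.toZModPow 2)) (T.unip' h2 hs.1)
      rw [map_mul, map_sub, map_one, map_zero] at k
      rw [map_pow, Units.val_pow_eq_pow_val, Units.val_one]
      change ((r s).1 - 1) * ((r s).1 - 1) = 0 at k
      generalize (r s).1 = B at k ⊢
      obtain ⟨X, rfl⟩ : ∃ X, B = 1 + X := ⟨B - 1, by abel⟩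
      rw [add_sub_cancel_left] at k
      have k4 : (4 : ℕ) • X = 0 := by
        ext i j
        exact (nsmul_eq_mul 4 (X i j)).trans (mul_eq_zero_of_left rfl _)
      have : (1 + X) ^ 4 = 1 + 4 • X + (X * X) * (6 + 4 • X + X * X) := by noncomm_ring
      rwa [k, k4, zero_mul, add_zero, add_zero] at this), by
      change chi _ (s ^ 2 ^ 2) = 1
      rw [map_pow, c1]
      rfl⟩
  have n0 : n ≠ 0 := by omega
  rw [Nat.mem_primeFactors_of_ne_zero (mul_ne_zero (mul_ne_zero hM MM_ne) n0), not_and] at k1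
  have k6 := k1 v.prime
  have k7 : ¬ v.p ∣ MM := fun e => k6 ((e.mul_left _).mul_right _)
  have v2 := ne_two_of (nd_of_MM k7)
  change r _ = 1 at k4
  change chi _ _ = 1 at k5
  rw [map_mul, map_inv, inv_mul_eq_one] at k4 k5
  refine ⟨v.p, v.prime, fun e => k6 ((e.mul_right _).mul_right _), ?_, fun k => ?_⟩
  · have := G5.jac_abs (d := -n) (by omega) (v.prime.odd_of_ne_two v2)
    rw [Int.natAbs_neg, Int.natAbs_natCast] at this
    rw [this, ← chi_frob (mu0_ndvd v2 fun e => k6 (.mul_left (by exact_mod_cast dvd_neg.1 e) _)) k2,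
      k5, map_pow, c1, k3.neg_one_pow]
    rfl
  · have := congrArg (fun u => u.1.trace) k4
    simp only [e, mred_trace, T.tr v φ k7 k2, k, T.tr_ine h2 (pow_mem hs.1 a), Int.cast_zero,
      map_zero, map_ofNat] at this
    exact absurd this (by decide)

end Pool.Agent.B6
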