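import Pool.Agent.Lib.MP_696deb_nt.B6.SDa
import Pool.Agent.Lib.MP_696deb_nt.B6.XTW
import Pool.Agent.Lib.MP_696deb_nt.B6.CMx
import Pool.Agent.Lib.MP_696deb_nt.B5.Z3

/-! Moving the seed: Heegner points that are not divisible by two. -/

set_option autoImplicit false

open Finset
open scoped Classical NumberTheorySymbols

namespace Pool.Agent.B6

open Pool.Agent.Lib.MP_696deb_nt Pool.Agent.Lib.MP_696deb_nt.B2 Pool.Agent.Lib.MP_696deb_nt.B2.CM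
open Pool.Agent.B4 (OkN HRp GE.Par GE.Geo GE.MD)
open Pool.Agent.G5 (LA GK6Stmt)

section

variable [Md] {n : ℕ} {r : ℤ}

/-- Complex points that come from unramified points which are not divisible by two. -/
def OdC (Y : Pt Wu ℂ) : Prop := ∃ R ∈ EN, pmap jC R = Y ∧ Od R

/-- The Heegner point of the field of discriminant `-q` is not divisible by two. -/
def Seed (φ : ℂ → Pt Wu ℂ) (q : ℕ) : Prop :=
  ∃ (r : ℤ) (T : Finset Fm), 4 * (NN : ℤ) ∣ r ^ 2 + q ∧ HRp NN (-q) r T ∧ OdC (ysum φ 1 T)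

theorem Good.g5 (h : Good n) : G5.Good NN n := ⟨h.sqf, h.mod4, h.cop, NN_sqf, NN_odd, NN_gt⟩

theorem jac_level (h4 : n % 4 = 3) (hc : n.Coprime NN) (hr : 4 * (NN : ℤ) ∣ r ^ 2 + n) :
    J(-NN | n) = -1 := by
  have h1 : (NN : ℤ) ∣ r ^ 2 + n := (dvd_mul_left _ _).trans hr
  have h2 : J(-n | NN) = 1 := by
    rw [jacobiSym.mod_left' (a₂ := r ^ 2) (Int.modEq_iff_dvd.2 (by rwa [sub_neg_eq_add]))]
    refine jacobiSym.sq_one' (Int.isCoprime_iff_gcd_eq_one.1 ?_)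
    obtain ⟨u, v, e⟩ := Nat.isCoprime_iff_coprime.2 hc
    obtain ⟨k, hk⟩ := h1
    exact ⟨-u * r, u * k + v, by linear_combination e - u * hk⟩
  rw [jacobiSym.neg _ (Nat.odd_iff.2 (by omega)), ← G5.jac_neg_swap h4 NN_odd, h2,
    ZMod.χ₄_nat_three_mod_four h4, mul_one]

theorem od_add {R U : EE} (h : Od R) (hU : U ∈ EN) : Od (R + 2 • U) := fun S hS e =>
  h (S - U) (sub_mem hS hU) (by rw [smul_sub, e, add_sub_cancel_right])

/-- All genus points are congruent modulo two. -/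
theorem ysum_cong {P : GE.Par Wu NN} (G : GE.Geo P) : ∃ B : ℕ, ∀ (n c : ℕ) (r : ℤ),
    B < n * c ^ 2 → OkN NN n c r → Squarefree n → ∃ R ∈ EN,
      pmap jC R = ∑ᶠ x, yC P.φ NN n c r x ∧ ∀ (T : Finset Fm) (e : ℕ),
        HRp NN (-(n * c ^ 2)) (r * c) T → e ≠ 0 → (∀ p : ℕ, p.Prime → p ∣ c → p ∣ e) →
        (∀ p : ℕ, p.Prime → p ∣ e → p ≠ 2 ∧ p ∣ n * c) →
        ∃ U ∈ EN, pmap jC (R + 2 • U) = ysum P.φ e T := by
  obtain ⟨B, hB⟩ := yC_EN G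
  refine ⟨B, fun n c r h ok hs => ?_⟩
  choose R r1 r2 using hB n c r h ok
  have i0 := finite_Pc ok.m4 ok.gt
  have i1 := Fintype.ofFinite (Pc n c)
  refine ⟨∑ x, R x, sum_mem fun x _ => r1 x, by
    rw [finsum_eq_sum_of_fintype, map_sum]; simp only [r2], fun T e hT e0 h1 h2 => ?_⟩
  obtain ⟨ε, -, k⟩ := sum_hrp ok hs P.inv0 hT e0 h1 h2
  refine ⟨∑ x, if ε x = 1 then 0 else -R x, sum_mem fun x _ => ?_, ?_⟩
  · split_ifs
    exacts [zero_mem _, neg_mem (r1 x)]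
  · rw [ysum, k, smul_sum, ← sum_add_distrib, map_sum]
    refine sum_congr rfl fun x _ => ?_
    rw [← r2, ← map_zsmul]
    rcases Int.units_eq_one_or (ε x) with e | e
    · simp [e]
    · rw [e, if_neg (by decide)]
      exact congrArg _ (by simp [two_smul])

end

variable [Md] (T : Tate) {R R' : EE}

include T

theorem Tate.od_even (h : Od R) (hR : R ∈ EN) (hR' : R' ∈ EN) {a : ℤ}
    (k : IsOfFinAddOrder (a • R - 2 • R')) : Even a := by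
  obtain ⟨m, m1, m2⟩ := T.EN_tors (sub_mem (zsmul_mem hR a) (nsmul_mem hR' 2)) k
  by_contra e
  refine h.zsmul hR (((Int.odd_coe_nat m).2 m1).mul (Int.not_even_iff_odd.1 e)) (m • R')
    (nsmul_mem hR' m) ?_
  rw [smul_sub, sub_eq_zero] at m2
  rw [mul_smul, natCast_zsmul, m2, smul_comm]

theorem Tate.od_ne (h : Od R) (hR : R ∈ EN) : ¬ IsOfFinAddOrder R := fun k =>
  Int.not_even_one (T.od_even h hR (zero_mem _) (by simpa using k))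

theorem Tate.odc_ne {Y : Pt Wu ℂ} (h : OdC Y) : ¬ IsOfFinAddOrder Y := by
  obtain ⟨R, h1, rfl, h2⟩ := h
  exact mt (pmap_injective jC).isOfFinAddOrder_iff.1 (T.od_ne h2 h1)

theorem Tate.od_dvd (h : Od R) (hR : R ∈ EN) (b : ℕ) (hR' : R' ∈ EN) {a : ℤ}
    (k : IsOfFinAddOrder (a • R - 2 ^ b • R')) : 2 ^ b ∣ a := by
  induction b generalizing a with
  | zero => exact one_dvd a
  | succ b ih =>
    obtain ⟨c, rfl⟩ := (T.od_even h hR (nsmul_mem hR' (2 ^ b)) (a := a)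
      (by rwa [smul_smul, ← pow_succ'])).two_dvd
    rw [pow_succ']
    refine mul_dvd_mul_left 2 (ih (IsOfFinAddOrder.of_nsmul (n := 2) ?_ two_ne_zero))
    rwa [smul_sub, smul_smul, ← pow_succ', ← natCast_zsmul, smul_smul]

/-- The comparison of valuations in two relations. -/
theorem Tate.od_of {R₀ R₁ R₂ : EE} {a ν s t : ℤ} (h0 : Od R₀) (h2 : Od R₂) (k0 : R₀ ∈ EN)
    (k : R ∈ EN) (k2 : R₂ ∈ EN) (hν : ν ≠ 0) (ht : t = 1 ∨ t = -1)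
    (e1 : IsOfFinAddOrder (a • R₀ - (s * ν) • R))
    (e2 : IsOfFinAddOrder (a • R₁ - (t * ν) • R₂)) : Od R₁ := by
  rintro S hS rfl
  obtain ⟨b, u, hu, rfl⟩ := WfDvdMonoid.max_power_factor hν Int.prime_two.irreducible
  obtain ⟨c, rfl⟩ := T.od_dvd h0 k0 b (zsmul_mem k (s * u)) (a := a) (by
    rwa [← natCast_zsmul, smul_smul, mul_left_comm, Nat.cast_pow])
  have := (T.od_even h2 k2 (zsmul_mem hS c) (a := t * u) (IsOfFinAddOrder.of_nsmul (n := 2 ^ b)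
    (by convert e2.neg using 1; module) (by positivity))).two_dvd
  rcases ht with rfl | rfl <;> exact hu (by simpa using this)

theorem Tate.seed_of_K {φ : ℂ → Pt Wu ℂ} {q : ℕ} (hq : q.Coprime NN)
    (h : ∃ (r : ℤ) (U : Finset Fm) (P : EE), 4 * (NN : ℤ) ∣ r ^ 2 + q ∧ HRp NN (-q) r U ∧
      (∀ g ∈ GK q, g • P = P) ∧ pmap jC P = ∑ Q ∈ U, φ (froot Q) ∧
      ∀ R : EE, (∀ g ∈ GK q, g • R = R) → 2 • R ≠ P) : Seed φ q := by
  obtain ⟨r, U, P, h1, h2, h3, h4, h5⟩ := h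
  refine ⟨r, U, h1, h2, P, mem_EN_of fun w hw σ hσ => h3 σ (ine_GK hq hw hσ),
    by simp [h4, ysum, gch], fun R hR e => h5 R (fun g hg => sub_eq_zero.1 ?_) e⟩
  exact T.EN_two (sub_mem (EN_smul hR g) hR) (by rw [smul_sub, smul_comm, e, h3 g hg, sub_self])

omit T in
/-- The relation of Gross, Kohnen and Zagier for the curve. -/
theorem gk_of (hK : GK6Stmt) {D : GE.MD Wu NN} (hN : G5.Nw D) {A x M : ℕ} (a1 : Squarefree A)
    (a2 : Odd A) (a3 : A.Coprime NN) (x1 : Squarefree x) (x2 : Odd x) (x3 : x.Coprime NN)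
    (ne : A ≠ x) (hM : M ≠ 0) : ∃ a ν : ℤ, (LA D.par.F A 1 ≠ 0 → ν ≠ 0) ∧
      ∀ (B : ℕ) (ρ ρ₂ : ℤ) (U U₂ : Finset Fm), B ∣ M → Good (A * B) → 3 < A * B →
        J(-NN | B) = -1 → (∀ k : ℕ, B * x ≠ 3 * k ^ 2) → 4 * (NN : ℤ) ∣ ρ ^ 2 + (A * B : ℕ) →
        4 * (NN : ℤ) ∣ ρ₂ ^ 2 + (B * x : ℕ) → HRp NN (-(A * B : ℕ)) ρ U →
        HRp NN (-(B * x : ℕ)) ρ₂ U₂ → ∃ s : ℤ, (s = 1 ∨ s = -1) ∧
          IsOfFinAddOrder (a • ysum D.par.φ B U - (s * ν) • ysum D.par.φ B U₂) := by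
  obtain ⟨a, ν, h1, h2⟩ := hK Wu NN D NN_sqf NN_odd NN_gt hN A x M a1 a2 a3 x1 x2 x3 ne hM
  refine ⟨a, ν, h1, fun B ρ ρ₂ U U₂ b1 b2 b3 b4 b5 b6 b7 b8 b9 => h2 B ρ ρ₂ U U₂ b1 b2.g5 b3 b4 b5
    b6 b7 ((hrp_iff (by omega)).1 b8) ((hrp_iff ?_).1 b9)⟩
  have := Nat.pos_of_ne_zero (mul_ne_zero (ne_zero_of_dvd_ne_zero hM b1) x1.ne_zero)
  omega

omit T [Md] in
theorem ne_three {n c : ℕ} (hs : Squarefree n) (h3 : 3 < n) (hc : c ≠ 0) (k : ℕ) :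
    n * c ^ 2 ≠ 3 * k ^ 2 := fun e => by
  obtain ⟨u, hu⟩ : c ∣ 3 * k := (Nat.pow_dvd_pow_iff two_ne_zero).1 ⟨3 * n, by
    zify at e ⊢; linear_combination -3 * e⟩
  have h1 : 3 * n = u ^ 2 := mul_left_cancel₀ (pow_ne_zero 2 hc) (by
    rw [← mul_pow, ← hu]; zify at e ⊢; linear_combination 3 * e)
  obtain ⟨v, rfl⟩ := Nat.prime_three.dvd_of_dvd_pow (h1 ▸ dvd_mul_right 3 n)
  obtain rfl := Nat.isUnit_iff.1 (hs v ⟨3, by zify at h1 ⊢; linarith⟩)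
  omega

/-- Moving the seed. -/
theorem Tate.sd_move (hK : GK6Stmt) {D : GE.MD Wu NN} (G : GE.Geo D.par) (hN : G5.Nw D)
    (ha : ∀ l, al l = D.c l) (L1 : LA D.par.F 1 1 ≠ 0) {q : ℕ} (hq : Good q) (h3 : 3 < q)
    (hs : Seed D.par.φ q) : ∃ B : ℕ, ∀ m > B, Squarefree m → m % 4 = 1 →
      (∀ l : ℕ, l.Prime → l ∣ m → ¬ l ∣ 2 * NN ∧ J(-q | l) = -1 ∧ ¬ Rt l) →
      ∀ (r : ℤ) (U : Finset Fm) (e : ℕ), 4 * (NN : ℤ) ∣ r ^ 2 + (q * m : ℕ) →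
        HRp NN (-(q * m : ℕ)) r U → e ∣ q * m → OdC (ysum D.par.φ e U) := by
  obtain ⟨B, hB⟩ := ysum_cong G
  obtain ⟨r₀, U₀, s1, s2, R₀, s3, s4, s5⟩ := hs
  refine ⟨B + 1, fun m hm m1 m2 m3 r U e u1 u2 u3 => ?_⟩
  have q4 := hq.mod4
  have c1 : q.Coprime m := Nat.coprime_of_dvd fun l hl k1 k2 => by
    have := (m3 l hl k2).2.1
    rw [jac_zero_of_dvd hl (dvd_neg.2 (Int.natCast_dvd_natCast.2 k1))] at this
    omega
  have c2 : m.Coprime NN := Nat.coprime_of_dvd fun l hl k1 k2 => (m3 l hl k1).1 (k2.mul_left 2)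
  have g1 : Good (q * m) := ⟨(Nat.squarefree_mul c1).2 ⟨hq.sqf, m1⟩, by rw [Nat.mul_mod, q4, m2],
    hq.cop.mul_left c2⟩
  have l1 : m < q * m := by nlinarith
  have l2 : 3 < q * m := by nlinarith
  have o2 : ∀ p : ℕ, p ∣ q * m → p ≠ 2 := fun p k e => by
    have := g1.mod4
    subst e
    omega
  have ok0 : OkN NN q 1 r₀ := ⟨⟨q4, h3, one_ne_zero⟩, s1, by simpa using hq.cop⟩
  have ok1 : OkN NN (q * m) 1 r := ⟨⟨g1.mod4, l2, one_ne_zero⟩, u1, by simpa using g1.cop⟩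
  have ok2 : OkN NN q m r₀ := ⟨⟨q4, h3, m1.ne_zero⟩, s1, g1.cop⟩
  obtain ⟨R₁, a1, -, a2⟩ := hB (q * m) 1 r (by omega) ok1 g1.sqf
  replace a2 := fun e (k : e ∣ q * m) => a2 U e (by simpa using u2)
    (ne_zero_of_dvd_ne_zero g1.sqf.ne_zero k) (fun p hp k => absurd k hp.not_dvd_one)
    fun p _ j => ⟨o2 p (j.trans k), (j.trans k).mul_right _⟩
  obtain ⟨R₂, b1, b2, b3⟩ := hB q m r₀ (by nlinarith) ok2 hq.sqf
  obtain ⟨U₂, t2⟩ := exists_hrp NN_ne (B4.ok_neg ok2.toOk) (r₀ * m)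
  obtain ⟨V₂, b4, b5⟩ := b3 U₂ (q * m) t2 g1.sqf.ne_zero (fun p _ k => k.mul_left _)
    fun p _ k => ⟨o2 p k, k⟩
  obtain ⟨k, k1, k2⟩ := yC_odd D.par ok2 m1 fun l hl k => ⟨o2 l (k.mul_left _), (m3 l hl k).2.1,
    Int.not_even_iff_odd.1 (mt (ha l ▸ even_al hl (m3 l hl k).1).1 (m3 l hl k).2.2)⟩
  have i0 := finite_Pc q4 h3 1
  have i1 := Fintype.ofFinite (Pc q 1)
  obtain ⟨ε, k3, k4⟩ := sum_hrp ok0 hq.sqf D.par.inv0 (T := U₀) (by simpa using s2) one_ne_zero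
    (fun _ _ k => k) fun p hp k => absurd k hp.not_dvd_one
  simp only [k3 rfl, Units.val_one, one_smul] at k4
  obtain rfl : R₂ = k • R₀ := pmap_injective jC (by
    rw [b2, k2, map_zsmul, s4, finsum_eq_sum_of_fintype, ← k4]; simp [ysum])
  obtain ⟨a, ν, n1, n2⟩ := gk_of hK hN (A := 1) (x := m) (M := q * m) squarefree_one odd_one
    (Nat.coprime_one_left _) m1 (Nat.odd_iff.2 (by omega)) c2 (by omega) g1.sqf.ne_zero
  simp only [one_mul] at n2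
  obtain ⟨s, -, e1⟩ := n2 q r₀ r U₀ U (dvd_mul_right _ _) hq h3 (jac_level q4 hq.cop s1)
    (by simpa using ne_three g1.sqf l2 one_ne_zero) s1 u1 s2 u2
  have e0 : ((q * m * m : ℕ) : ℤ) = q * m ^ 2 := by push_cast; ring
  obtain ⟨t, ht, e2⟩ := n2 (q * m) r (r₀ * m) U U₂ dvd_rfl g1 l2 (jac_level g1.mod4 g1.cop u1)
    (by simpa only [mul_assoc, ← sq] using ne_three hq.sqf h3 m1.ne_zero) u1
    (by rw [e0, mul_pow, ← add_mul]; exact s1.mul_right _) u2 (e0 ▸ t2)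
  obtain ⟨V, v1, v2⟩ := a2 q (dvd_mul_right _ _)
  obtain ⟨V₁, v3, v4⟩ := a2 _ dvd_rfl
  obtain ⟨V', v5, v6⟩ := a2 e u3
  have e3 : ysum D.par.φ q U₀ = pmap jC R₀ := s4.symm ▸ sum_congr rfl fun Q hQ => by
    rw [G5.gch_full hq.sqf (.inr ⟨(s2.mem Q hQ).disc, (s2.mem Q hQ).pos⟩)
      (Nat.odd_iff.2 (by omega))]
    simp [gch]
  rw [e3, ← v2, ← map_zsmul, ← map_zsmul, ← map_sub, (pmap_injective jC).isOfFinAddOrder_iff] at e1
  rw [← v4, ← b5, ← map_zsmul, ← map_zsmul, ← map_sub,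
    (pmap_injective jC).isOfFinAddOrder_iff] at e2
  have := od_add (T.od_of s5 (od_add (s5.zsmul s3 k1) b4) s3 (add_mem a1 (nsmul_mem v1 2))
    (add_mem b1 (nsmul_mem b4 2)) (n1 L1) ht e1 e2) (sub_mem v5 v3)
  exact ⟨_, add_mem a1 (nsmul_mem v5 2), v6, by
    rwa [smul_sub, add_assoc, add_sub_cancel] at this⟩

/-- The form that enters the theory of Euler systems. -/
theorem Tate.sd_prim (hK : GK6Stmt) {D : GE.MD Wu NN} (G : GE.Geo D.par) (hN : G5.Nw D)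
    (ha : ∀ l, al l = D.c l) (L1 : LA D.par.F 1 1 ≠ 0) {q : ℕ} (hq : Good q) (h3 : 3 < q)
    (hs : Seed D.par.φ q) : ∃ B : ℕ, ∀ m > B, Squarefree m → m % 4 = 1 →
      (∀ l : ℕ, l.Prime → l ∣ m → ¬ l ∣ 2 * NN ∧ J(-q | l) = -1 ∧ ¬ Rt l) →
      Prim D.par.φ (q * m) := by
  obtain ⟨B, hB⟩ := T.sd_move hK G hN ha L1 hq h3 hs
  refine ⟨B, fun m h1 h2 h3 h4 r U P h5 h6 h7 => ?_⟩
  obtain ⟨R, -, k1, k2⟩ := hB m h1 h2 h3 h4 r U 1 h5 h6 (one_dvd _)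
  rwa [pmap_injective jC (h7.trans k1.symm)]

end Pool.Agent.B6
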