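import Pool.Agent.Lib.MP_696deb_nt.B6.Cs
import Pool.Agent.Lib.MP_696deb_nt.B5.RWb
import Pool.Agent.Lib.MP_696deb_nt.B2.B2c
import Pool.Agent.Lib.MP_696deb_nt.B4.Lk0
import Pool.Agent.Lib.MP_696deb_nt.JInj
import Pool.Agent.Lib.MP_696deb_nt.HForms

/-! Arithmetic tools for certificates: class number one, points that are not divisible by two,
torsion points, and the parity of the trace of Frobenius. -/

set_option autoImplicit false

open scoped NNReal Classical NumberTheorySymbols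
open WeierstrassCurve WeierstrassCurve.Affine

namespace Pool.Agent.B6

open Pool.Agent.Lib.MP_696deb_nt Pool.Agent.Lib.MP_696deb_nt.B2

section forms

/-- A criterion for class number one. -/
def One (q : ℕ) : Prop := ∀ a < q, 2 ≤ a → 3 * a ^ 2 ≤ q → ∀ b < a + 1, ¬ 4 * a ∣ b ^ 2 + q

instance (q : ℕ) : Decidable (One q) := by unfold One; infer_instance

theorem One.red {q : ℕ} (h : One q) (h4 : q % 4 = 3) {Q : Fm} (hQ : Q ∈ redForms q) :
    Q = (1, 1, ((q : ℤ) + 1) / 4) := by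
  obtain ⟨a, b, c⟩ := Q
  obtain ⟨h1, h2, h3, h5⟩ := (mem_redForms (by omega)).1 hQ
  have b0 := abs_nonneg b
  have e : b ^ 2 = |b| ^ 2 := (sq_abs b).symm
  have k : 3 * a ^ 2 ≤ q := by nlinarith
  obtain ⟨a, rfl⟩ := Int.eq_ofNat_of_zero_le (b0.trans h2)
  obtain ⟨t, ht⟩ := Int.eq_ofNat_of_zero_le b0
  rw [ht] at h2 h5 e
  have a1 : a ≤ 1 := not_lt.1 fun a2 => h a (by zify at a2 ⊢; nlinarith) a2
    (by exact_mod_cast k) t (by omega) (Int.natCast_dvd_natCast.1 ⟨c, by push_cast; linear_combination h1 - e⟩)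
  have t1 : t ≤ a := by omega
  rw [e] at h1
  interval_cases a <;> interval_cases t <;> simp only [Nat.cast_zero, Nat.cast_one] at * <;>
    try omega
  obtain rfl : b = 1 := by rwa [abs_of_nonneg (h5 (.inl trivial))] at ht
  obtain rfl : c = ((q : ℤ) + 1) / 4 := by omega
  rfl

/-- There is one class of Heegner forms when the class number is one. -/
theorem hrp_one {N q : ℕ} {r : ℤ} {Q₀ : Fm} (h : One q) (h4 : q % 4 = 3) (h0 : B4.Hg N (-q) r Q₀)
    (hc : IsCoprime (N : ℤ) r) : B4.HRp N (-q) r {Q₀} := by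
  refine ⟨fun Q hQ => Finset.mem_singleton.1 hQ ▸ h0, fun Q hQ => ⟨Q₀, by simp, ?_⟩,
    fun Q hQ R hR _ => (Finset.mem_singleton.1 hQ).trans (Finset.mem_singleton.1 hR).symm⟩
  obtain ⟨a, b, c, d, e, k⟩ := Gal.exists_red hQ.disc (by omega) hQ.pos
  obtain ⟨a', b', c', d', e', k'⟩ := Gal.exists_red h0.disc (by omega) h0.pos
  have k1 := congrArg (fmap · d' (-b') (-c') a') ((h.red h4 k).trans (h.red h4 k').symm)
  simp only [fmap_inv e'] at k1
  rw [fmap_fmap] at k1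
  obtain ⟨x, y, z, w, e1, rfl⟩ : ∃ x y z w : ℤ, x * w - y * z = 1 ∧ Q₀ = fmap Q x y z w :=
    ⟨_, _, _, _, by linear_combination (a * d - b * c) * e' + e, k1.symm⟩
  refine ⟨!![x, y; z, w], by simpa using e1, ?_, by
    rw [act_of, mob_froot e1 (by rw [hQ.disc]; omega) hQ.pos]⟩
  obtain ⟨s, hs⟩ := hQ.lev
  obtain ⟨t, ht⟩ := hQ.res
  obtain ⟨s', hs'⟩ := h0.lev
  obtain ⟨t', ht'⟩ := h0.res
  simp only [fmap, fval] at hs' ht'
  have k2 : z * (Q.2.1 * y + Q.2.2 * w) = N * (t' - t - s * x * y) :=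
    mul_left_cancel₀ two_ne_zero (by linear_combination ht' - ht - 2 * x * y * hs - Q.2.1 * e1)
  refine hc.dvd_of_dvd_mul_right ⟨(s' - s * x ^ 2) * w - (t' - t - s * x * y) * z - 2 * t * z, ?_⟩
  change z * r = _
  linear_combination w * hs' - x ^ 2 * w * hs - z * k2 - z * ht - z * Q.2.1 * e1

/-- The Eisenstein series of weight four vanishes only in the field of cube roots of unity. -/
theorem E4_ne {τ : ℂ} (hτ : 0 < τ.im) {A B C : ℤ} (h : A * τ ^ 2 + B * τ + C = 0)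
    (hs : ¬ IsSquare (3 * (4 * A * C - B ^ 2))) : E4 τ ≠ 0 := fun h0 => by
  have i : 0 < (froot (1, 1, 1)).im := im_froot_pos (by decide) one_pos
  have e := froot_root (Q := (1, 1, 1)) (by decide) one_pos
  generalize froot (1, 1, 1) = ρ at i e
  simp only [Int.cast_one, one_mul] at e
  have lin : ∀ u v : ℤ, u * ρ + v = 0 → u = 0 ∧ v = 0 := fun u v k => by
    have k1 : u = 0 := by simpa [i.ne'] using congrArg Complex.im k
    exact ⟨k1, by simpa [k1] using k⟩
  have e1 : E4 ρ = 0 := by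
    have d := den_ne (a := 0) (b := -1) (c := 1) (d := 1) (by simp) i
    have k := E4_act (g := !![0, -1; 1, 1]) (by simp) i
    rw [act_of, show mob 0 (-1) 1 1 ρ = ρ by rw [mob, div_eq_iff d]; push_cast; linear_combination -e,
      show den !![0, -1; 1, 1] ρ ^ 4 = -ρ - 1 by
        simp [den]; linear_combination (ρ ^ 2 + 3 * ρ + 2) * e] at k
    have k1 : (ρ + 2) * E4 ρ = 0 := by linear_combination k
    exact (mul_eq_zero.1 k1).resolve_left fun k2 => by simpa using (lin 1 2 (by simpa using k2)).1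
  obtain ⟨g, g0, rfl⟩ := exists_act_of_jf_eq i hτ (by simp [jf, h0, e1])
  have d := den_ne' g0 i
  rw [Matrix.det_fin_two] at g0
  simp only [act, mob, den] at h d
  generalize g 0 0 = a, g 0 1 = b, g 1 0 = c, g 1 1 = d' at *
  have h1 := div_mul_cancel₀ ((a : ℂ) * ρ + b) d
  generalize ((a : ℂ) * ρ + b) / (c * ρ + d') = τ at h h1
  obtain ⟨k1, k2⟩ := lin ((fmap (A, B, C) a b c d').2.1 - (fmap (A, B, C) a b c d').1)
    ((fmap (A, B, C) a b c d').2.2 - (fmap (A, B, C) a b c d').1) (by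
      simp only [fmap, fval]
      push_cast
      linear_combination (c * ρ + d') ^ 2 * h - (A * a ^ 2 + B * a * c + C * c ^ 2) * e -
        (A * (τ * (c * ρ + d') + (a * ρ + b)) + B * (c * ρ + d')) * h1)
  simp only [fmap, fval] at k1 k2
  have k3 : (3 * (A * a ^ 2 + B * a * c + C * c ^ 2)) ^ 2 =
      (a * d' - b * c) ^ 2 * (3 * (4 * A * C - B ^ 2)) := by
    linear_combination 3 * (A * a ^ 2 + B * a * c + C * c ^ 2 +
      (2 * A * a * b + B * (a * d' + b * c) + 2 * C * c * d')) * k1 -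
      12 * (A * a ^ 2 + B * a * c + C * c ^ 2) * k2
  obtain ⟨m, hm⟩ := (Int.pow_dvd_pow_iff two_ne_zero).1 ⟨_, k3⟩
  exact hs ⟨m, mul_left_cancel₀ (pow_ne_zero 2 g0) (by rw [← k3, hm]; ring)⟩

end forms

section tors

variable {K : Type*} [Field K] [DecidableEq K] {W : WeierstrassCurve K} {P Q : W.toAffine.Point}
  {x x' : K}

theorem xco_two (hP : P ≠ 0) (hx : xco P = x) (h2 : dup2 W x ≠ 0) (h : dup1 W x = x' * dup2 W x) :
    2 • P ≠ 0 ∧ xco (2 • P) = x' := by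
  rcases P with _ | ⟨u, y, k⟩
  · exact absurd rfl hP
  obtain rfl : u = x := hx
  obtain ⟨y', k', e⟩ := two_nsmul_some k h2
  rw [e]
  exact ⟨Point.some_ne_zero _, by rw [xco_some, h, mul_div_cancel_right₀ _ h2]⟩

omit [DecidableEq K] in
theorem eq_or_neg (hP : P ≠ 0) (hQ : Q ≠ 0) (h : xco P = xco Q) : P = Q ∨ P = -Q := by
  rcases P with _ | ⟨u, y, k⟩
  · exact absurd rfl hP
  rcases Q with _ | ⟨u', y', k'⟩
  · exact absurd rfl hQ
  exact Point.X_eq_iff.1 h

theorem ord_three (hP : P ≠ 0) (hx : xco P = x) (h2 : dup2 W x ≠ 0)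
    (h : dup1 W x = x * dup2 W x) : addOrderOf P = 3 := by
  obtain ⟨k1, k2⟩ := xco_two hP hx h2 h
  refine addOrderOf_eq_prime ?_ hP
  rcases eq_or_neg k1 hP (k2.trans hx.symm) with e | e
  · exact absurd (by rwa [two_nsmul, add_eq_left] at e) hP
  · rw [succ_nsmul, e, neg_add_cancel]

theorem ord_five (hP : P ≠ 0) (hx : xco P = x) (h2 : dup2 W x ≠ 0) (h : dup1 W x = x' * dup2 W x)
    (h2' : dup2 W x' ≠ 0) (h' : dup1 W x' = x * dup2 W x') (hne : x' ≠ x) : addOrderOf P = 5 := by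
  obtain ⟨k1, k2⟩ := xco_two hP hx h2 h
  obtain ⟨k3, k4⟩ := xco_two k1 k2 h2' h'
  have : Fact (Nat.Prime 5) := ⟨Nat.prime_five⟩
  refine addOrderOf_eq_prime ?_ hP
  rcases eq_or_neg k3 hP (k4.trans hx.symm) with e | e
  · have e1 : 2 • P = -P := eq_neg_of_add_eq_zero_left (add_right_cancel (b := P) (by
      rw [zero_add]
      refine Eq.trans ?_ e
      abel))
    exact absurd (by rw [← k2, e1, xco_neg, hx]) hne
  · rw [succ_nsmul, show 4 • P = 2 • 2 • P by abel, e, neg_add_cancel]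

theorem two_root [W.IsElliptic] (h2 : (2 : K) ≠ 0) :
    (∃ P : W.toAffine.Point, addOrderOf P = 2) ↔ ∃ x, dup2 W x = 0 := by
  constructor
  · rintro ⟨P, hP⟩
    have k := hP ▸ addOrderOf_nsmul_eq_zero P
    rcases P with _ | ⟨x, y, h⟩
    · exact absurd (addOrderOf_zero.symm.trans hP) (by decide)
    refine ⟨x, by_contra fun e => ?_⟩
    obtain ⟨y', h', e'⟩ := two_nsmul_some h e
    exact Point.some_ne_zero _ (e'.symm.trans k)
  · rintro ⟨x, h⟩
    obtain ⟨y, hy⟩ : ∃ y, 2 * y = -(W.a₁ * x + W.a₃) := ⟨_, mul_div_cancel₀ _ h2⟩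
    have k : W.toAffine.Nonsingular x y := by
      rw [← equation_iff_nonsingular, equation_iff]
      simp only [dup2, b₂, b₄, b₆] at h
      simp only [toAffine]
      exact mul_left_cancel₀ (mul_ne_zero h2 h2)
        (by linear_combination (2 * y + W.a₁ * x + W.a₃) * hy - h)
    exact ⟨_, addOrderOf_eq_prime (two_nsmul_eq_zero k h) (Point.some_ne_zero _)⟩

end tors

section cast

variable {K : Type*} [Field K] {l : ℕ} (W : WeierstrassCurve ℤ) {a b c : ℤ}

/-- The numerator of the duplication formula. -/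
def d1 (x : ℤ) : ℤ := x ^ 4 - W.b₄ * x ^ 2 - 2 * W.b₆ * x - W.b₈

/-- The denominator of the duplication formula. -/
def d2 (x : ℤ) : ℤ := 4 * x ^ 3 + W.b₂ * x ^ 2 + 2 * W.b₄ * x + W.b₆

theorem dup1_cast (x : ℤ) : dup1 (W.map (Int.castRingHom K)) x = d1 W x := by simp [dup1, d1]

theorem dup2_cast (x : ℤ) : dup2 (W.map (Int.castRingHom K)) x = d2 W x := by simp [dup2, d2]

/-- An integer is the first coordinate of a point of order `t`. -/
def Tor (t : ℕ) (x : ℤ) : Prop := (t = 3 ∧ d1 W x = x * d2 W x ∧ d2 W x ∣ W.Δ ^ 2) ∨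
  t = 5 ∧ ∃ x', d1 W x = x' * d2 W x ∧ d1 W x' = x * d2 W x' ∧
    d2 W x * d2 W x' * (x' - x) ∣ W.Δ ^ 2

variable {W}

theorem Tor.ord [DecidableEq K] {t : ℕ} {x : ℤ} (h : Tor W t x) (h0 : (W.Δ : K) ≠ 0)
    {W' : WeierstrassCurve K} (hW : W' = W.map (Int.castRingHom K)) {P : W'.toAffine.Point}
    (hP : P ≠ 0) (hx : xco P = x) : addOrderOf P = t := by
  subst hW
  have nz : ∀ n : ℤ, n ∣ W.Δ ^ 2 → (n : K) ≠ 0 := fun n ⟨m, hm⟩ k => pow_ne_zero 2 h0 (by
    rw [← Int.cast_pow, hm, Int.cast_mul, k, zero_mul])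
  rcases h with ⟨rfl, h1, h2⟩ | ⟨rfl, x', h1, h2, h3⟩
  · exact ord_three hP hx (dup2_cast (K := K) W x ▸ nz _ h2)
      (by rw [dup1_cast, dup2_cast, h1, Int.cast_mul])
  · have k := nz _ h3
    rw [Int.cast_mul, Int.cast_mul, Int.cast_sub] at k
    exact ord_five (x' := x') hP hx
      (dup2_cast (K := K) W x ▸ left_ne_zero_of_mul (left_ne_zero_of_mul k))
      (by rw [dup1_cast, dup2_cast, h1, Int.cast_mul])
      (dup2_cast (K := K) W x' ▸ right_ne_zero_of_mul (left_ne_zero_of_mul k))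
      (by rw [dup1_cast, dup2_cast, h2, Int.cast_mul]) (sub_ne_zero.1 (right_ne_zero_of_mul k))

theorem ell_mod [Fact l.Prime] (h : ¬ (l : ℤ) ∣ W.Δ) :
    (W.map (Int.castRingHom (ZMod l))).IsElliptic := ⟨by
  rw [map_Δ]
  exact Ne.isUnit (mt (ZMod.intCast_zmod_eq_zero_iff_dvd _ l).1 h)⟩

theorem card_mod [Fact l.Prime] (h2 : l ≠ 2) (h : ¬ (l : ℤ) ∣ W.Δ) (ha : W.b₂ = a)
    (hb : 2 * W.b₄ = b) (hc : W.b₆ = c) :
    (Nat.card (W.map (Int.castRingHom (ZMod l))).toAffine.Point : ℤ) =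
      l + 1 - tr l fun x => 4 * x ^ 3 + a * x ^ 2 + b * x + c := by
  have := ell_mod h
  rw [B5.card_pts h2, ← ha, ← hb, ← hc]
  simp

/-- The order of a torsion point divides the number of points modulo a prime. -/
theorem Tor.dvd [Fact l.Prime] {t : ℕ} {x y : ℤ} (ht : Tor W t x) (he : W.toAffine.Equation x y)
    (h2 : l ≠ 2) (h : ¬ (l : ℤ) ∣ W.Δ) (ha : W.b₂ = a) (hb : 2 * W.b₄ = b) (hc : W.b₆ = c) :
    (t : ℤ) ∣ l + 1 - tr l fun x => 4 * x ^ 3 + a * x ^ 2 + b * x + c := by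
  have := ell_mod h
  have k : (W.map (Int.castRingHom (ZMod l))).toAffine.Nonsingular x y :=
    equation_iff_nonsingular.1 (he.map (Int.castRingHom (ZMod l)))
  rw [← card_mod h2 h ha hb hc, ← ht.ord (mt (ZMod.intCast_zmod_eq_zero_iff_dvd _ l).1 h) rfl
    (Point.some_ne_zero k) rfl]
  exact Int.natCast_dvd_natCast.2 (addOrderOf_dvd_natCard _)

/-- The trace is even if and only if the cubic has a root. -/
theorem even_tr' [hl : Fact l.Prime] (h2 : l ≠ 2) (h : ¬ (l : ℤ) ∣ W.Δ) (ha : W.b₂ = a)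
    (hb : 2 * W.b₄ = b) (hc : W.b₆ = c) :
    Even (tr l fun x => 4 * x ^ 3 + a * x ^ 2 + b * x + c) ↔
      ∃ x : ZMod l, 4 * x ^ 3 + a * x ^ 2 + b * x + c = 0 := by
  have := ell_mod h
  have k := card_mod h2 h ha hb hc
  have k1 := two_root (W := W.map (Int.castRingHom (ZMod l))) (B5.two_ne_zmod h2)
  have fin : Finite (W.map (Int.castRingHom (ZMod l))).toAffine.Point :=
    Finite.of_equiv (Option _) (W.map (Int.castRingHom (ZMod l))).toAffine.pointEquiv.symm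
  obtain ⟨m, hm⟩ := hl.out.odd_of_ne_two h2
  have k2 : (∃ P : (W.map (Int.castRingHom (ZMod l))).toAffine.Point, addOrderOf P = 2) ↔
      2 ∣ Nat.card (W.map (Int.castRingHom (ZMod l))).toAffine.Point :=
    ⟨fun ⟨P, e⟩ => e ▸ addOrderOf_dvd_natCard P, exists_prime_addOrderOf_dvd_card' 2⟩
  simp only [dup2, map_b₂, map_b₄, map_b₆, eq_intCast] at k1
  rw [← ha, ← hb, ← hc, Int.cast_mul, Int.cast_ofNat] at k ⊢
  rw [← k1, k2, even_iff_two_dvd]
  omega

end cast

section half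

theorem V_four (w : Plc) {x a b c d : Qbar} (ha : w.V a ≤ 1) (hb : w.V b ≤ 1) (hc : w.V c ≤ 1)
    (hd : w.V d ≤ 1) (h : x ^ 4 = a * x ^ 3 + b * x ^ 2 + c * x + d) : w.V x ≤ 1 :=
  not_lt.1 fun k => by
    have t : ∀ (u : Qbar) (j : ℕ), w.V u ≤ 1 → j < 4 → w.V (u * x ^ j) < w.V x ^ 4 :=
      fun u j hu hj => by
        rw [map_mul, map_pow]
        exact (mul_le_of_le_one_left' hu).trans_lt (pow_lt_pow_right₀ k hj)
    have := w.V.map_add_lt (w.V.map_add_lt (w.V.map_add_lt (t a 3 ha (by decide))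
      (t b 2 hb (by decide))) (t c 1 hc (by decide))) (t d 0 hd (by decide))
    rw [pow_one, pow_zero, mul_one, ← h, map_pow] at this
    exact this.false

theorem res_char (w : Plc) : CharP (IsLocalRing.ResidueField w.V.valuationSubring) w.p :=
  (CharP.charP_iff_prime_eq_zero w.prime).2 (by
    rw [← map_natCast (IsLocalRing.residue _), IsLocalRing.residue_eq_zero_iff,
      Valuation.mem_maximalIdeal_iff]
    exact b2a_p_lt w)

theorem res_int {w : Plc} {φ : Gam} (h : IsFrob w w.p φ) (y : w.V.valuationSubring)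
    (hy : φ y = y) : ∃ a : ℤ, (a : IsLocalRing.ResidueField _) = IsLocalRing.residue _ y := by
  have : Fact w.p.Prime := ⟨w.prime⟩
  have := res_char w
  refine (mem_bot_iff_intCast w.p _).1 ((Subfield.mem_bot_iff_pow_eq_self _ w.p).2 ?_)
  rw [← map_pow, eq_comm, ← sub_eq_zero, ← map_sub, IsLocalRing.residue_eq_zero_iff,
    Valuation.mem_maximalIdeal_iff]
  have := h.2 y y.2
  rwa [hy] at this

theorem fix_om {q : ℕ} {b c : ℤ} {om : Qbar} (h : om ^ 2 - b * om + c = 0)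
    (hq : b ^ 2 - 4 * c = -q) {g : Gam} (hg : g ∈ GK q) : g om = om := by
  have e := chi_spec (a := -q) (x := 2 * om - b) (by
    rw [← hq]
    push_cast
    linear_combination 4 * h) g
  rw [MonoidHom.mem_ker.1 hg, map_sub, map_mul, map_intCast, map_ofNat] at e
  push_cast at e
  linear_combination (1 / 2) * e

variable [Cw]

/-- A point of a quadratic field that is not divisible by two. -/
theorem no_half {q p : ℕ} (hp : p.Prime) {b c u v : ℤ} {om : Qbar} (h : om ^ 2 - b * om + c = 0)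
    (hq : b ^ 2 - 4 * c = -q) (h1 : ¬ (p : ℤ) ∣ 2 * -q) (hJ : J(-q | p) = 1)
    (hd : ∀ i r : ZMod p, r ^ 2 - b * r + c = 0 →
      i ^ 4 - WZ.b₄ * i ^ 2 - 2 * WZ.b₆ * i - WZ.b₈ ≠ (u + v * r) * cub i)
    {P R : EE} (hP : P ≠ 0) (hx : xco P = u + v * om) (hR : ∀ g ∈ GK q, g • R = R) :
    2 • R ≠ P := by
  rintro rfl
  obtain ⟨w, rfl⟩ := exists_plc hp
  obtain ⟨φ, hφ⟩ := exists_frob w
  have k0 : φ ∈ GK q := MonoidHom.mem_ker.2 (Units.ext ((chi_frob h1 hφ).trans hJ))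
  have k1 : φ (xco R) = xco R := by rw [← xco_smul, hR φ k0]
  have k2 : cub (xco R) ≠ 0 := fun e => hP (two_iff.2 (.inr e))
  have k3 := (xco_two (P := R) (fun e => hP (by rw [e, smul_zero])) rfl (dup2_cub (xco R) ▸ k2)
    (div_mul_cancel₀ _ (dup2_cub (xco R) ▸ k2)).symm).2
  rw [hx, eq_div_iff (dup2_cub (xco R) ▸ k2), dup2_cub] at k3
  simp only [dup1, Wu_b₄, Wu_b₆, Wu_b₈] at k3
  generalize xco R = x at k1 k3
  have o1 : om ∈ w.V.integer := r0_quad w (a := -b) (neg_mem (intCast_mem _ _)) (by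
    rw [show om ^ 2 + -b * om = -c by linear_combination h]
    exact neg_mem (intCast_mem _ _))
  have o2 : u + v * om ∈ w.V.integer := add_mem (intCast_mem _ _) (mul_mem (intCast_mem _ _) o1)
  have o3 : ∀ s t : ℤ, s + (u + v * om) * t ∈ w.V.integer := fun s t =>
    add_mem (intCast_mem _ _) (mul_mem o2 (intCast_mem _ _))
  have o4 : w.V x ≤ 1 := V_four w (o3 0 4) (o3 WZ.b₄ WZ.b₂) (o3 (2 * WZ.b₆) (2 * WZ.b₄))
    (o3 WZ.b₈ WZ.b₆) (by
      rw [cub] at k3
      push_cast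
      linear_combination -k3)
  obtain ⟨x, rfl⟩ : ∃ y : w.V.valuationSubring, (y : Qbar) = x := ⟨⟨x, o4⟩, rfl⟩
  obtain ⟨om, rfl⟩ : ∃ y : w.V.valuationSubring, (y : Qbar) = om := ⟨⟨om, o1⟩, rfl⟩
  obtain ⟨i, hi⟩ := res_int hφ x k1
  obtain ⟨r, hr⟩ := res_int hφ om (fix_om h hq k0)
  have := res_char w
  have : Fact w.p.Prime := ⟨hp⟩
  have inj := (ZMod.castHom dvd_rfl (IsLocalRing.ResidueField w.V.valuationSubring)).injective
  have e1 : om ^ 2 - b * om + c = 0 := Subtype.ext (by simpa using h)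
  have e2 : (u + v * om) * cub x = x ^ 4 - WZ.b₄ * x ^ 2 - 2 * WZ.b₆ * x - WZ.b₈ :=
    Subtype.ext k3
  refine hd i r (inj ?_) (inj ?_)
  · simpa [hr] using congrArg (IsLocalRing.residue _) e1
  · simpa only [hr, hi, map_cub, map_ofNat, map_sub, map_mul, map_add, map_pow, map_intCast] using
      (congrArg (IsLocalRing.residue _) e2).symm

/-- A point with prescribed first coordinate in a quadratic field. -/
theorem seed_pt {q p : ℕ} (hp : p.Prime) {b c u v s t : ℤ} (hq : b ^ 2 - 4 * c = -q)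
    (h1 : ¬ (p : ℤ) ∣ 2 * -q) (hJ : J(-q | p) = 1)
    (hd : ∀ i r : ZMod p, r ^ 2 - b * r + c = 0 →
      i ^ 4 - WZ.b₄ * i ^ 2 - 2 * WZ.b₆ * i - WZ.b₈ ≠ (u + v * r) * cub i)
    (he : ∀ om : Qbar, om ^ 2 - b * om + c = 0 →
      (Wu.baseChange Qbar).toAffine.Nonsingular (u + v * om) (s + t * om))
    {om : ℂ} (h : om ^ 2 - b * om + c = 0) {S : Pt Wu ℂ} (h0 : S ≠ 0) (hx : xco S = u + v * om) :
    ∃ P : EE, (∀ g ∈ GK q, g • P = P) ∧ pmap jC P = S ∧
      ∀ R : EE, (∀ g ∈ GK q, g • R = R) → 2 • R ≠ P := by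
  obtain ⟨o, rfl⟩ : ∃ o, jC o = om := by
    have e : jC (rt (-q)) ^ 2 = (2 * om - b) ^ 2 := by
      rw [← map_pow, rt_sq, map_intCast, ← hq]
      push_cast
      linear_combination -4 * h
    rcases sq_eq_sq_iff_eq_or_eq_neg.1 e with e | e
    · exact ⟨(b + rt (-q)) / 2, by rw [map_div₀, map_add, e, map_intCast, map_ofNat]; ring⟩
    · exact ⟨(b - rt (-q)) / 2, by rw [map_div₀, map_sub, e, map_intCast, map_ofNat]; ring⟩
  have h2 : o ^ 2 - b * o + c = 0 := jC.injective (by simpa using h)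
  have n0 := Point.some_ne_zero (he o h2)
  have k : ∀ g ∈ GK q, g • (Point.some _ _ (he o h2) : EE) = .some _ _ (he o h2) := fun g hg =>
    r0_fix g n0 (by simp [fix_om h2 hq hg]) (by simp [fix_om h2 hq hg])
  rcases eq_or_neg h0 (Q := pmap jC (Point.some _ _ (he o h2) : EE))
    (mt (map_eq_zero_iff _ (pmap_injective jC)).1 n0) (by simp [hx]) with e | e
  · exact ⟨_, k, e.symm, fun R hR => no_half hp h2 hq h1 hJ hd n0 rfl hR⟩
  · exact ⟨-_, fun g hg => by rw [smul_neg, k g hg], by rw [map_neg, e], fun R hR =>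
      no_half hp h2 hq h1 hJ hd (neg_ne_zero.2 n0) (xco_neg _) hR⟩

omit [Cw] in
theorem om_eq {N b : ℤ} (hN : 0 < N) (h : b ^ 2 - 4 * N < 0) :
    (-1 / froot (N, b, 1)) ^ 2 - b * (-1 / froot (N, b, 1)) + N = 0 := by
  have d : fdisc (N, b, 1) < 0 := by simpa [fdisc] using h
  have e := froot_root d hN
  have i : froot (N, b, 1) ≠ 0 := fun k => by simpa [k] using im_froot_pos d hN
  generalize froot (N, b, 1) = τ at e i
  field_simp
  simpa using (by linear_combination e : _)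

end half

end Pool.Agent.B6
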