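import Pool.Agent.Lib.MP_696deb_nt.B5.PL3
import Pool.Agent.Lib.MP_696deb_nt.B6.TAa
import Pool.Agent.Lib.MP_696deb_nt.B6.CEa

/-! From a certificate to modular data with the right coefficients. -/

set_option autoImplicit false

open PowerSeries WeierstrassCurve WeierstrassCurve.Affine Filter

namespace Pool.Agent.B6

open Pool.Agent.Lib.MP_696deb_nt Pool.Agent.B4.GE Pool.Agent.Shared.Weier
open Pool.Agent.B5 (PC RW Sw md_eq_tr)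

variable [Cw]

/-- The properties of certified modular data. -/
structure New {N : ℕ} (D : MD Wu N) : Prop where
  k1 : D.k = 1
  t0 : D.k * D.Ω ∉ D.L.lattice
  tr : ∀ (l : ℕ) [Fact l.Prime], ¬ l ∣ 2 * N → D.c l = tr l cub
  par : ∀ l : ℕ, l.Prime → ¬ l ∣ 2 * N → (Even (D.c l) ↔ ∃ x : ZMod l, cub x = 0)
  hU : ∀ l : ℕ, l.Prime → l ∣ N → ∀ n, D.c (l * n) = D.c l * D.c n
  sq : ∀ l : ℕ, l.Prime → l ∣ N → D.c l ^ 2 = 1

theorem ce_phi {N : ℕ} (D : MD Wu N) {z : ℂ} (h : z ∉ D.L.lattice) : D.per.unif z ≠ 0 ∧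
    xco (D.per.unif z) = D.L.weierstrassP z - WZ.b₂ / 12 := by
  rw [D.per.unif_of_notMem h]
  exact ⟨Point.some_ne_zero _, by rw [xco_some, ux, Wu_b₂]⟩

theorem cub_fun {l : ℕ} : (cub : ZMod l → ZMod l) =
    fun x : ZMod l => 4 * x ^ 3 + WZ.b₂ * x ^ 2 + (2 * WZ.b₄ : ℤ) * x + WZ.b₆ := by
  ext x
  simp [cub]

theorem ce_md (c : PC) (hp : c.p.Prime) (h1 : c.Fin) (h2 : c.chk = true) (ha : WZ.b₂ = c.a)
    (hb : 2 * WZ.b₄ = c.b) (hc : WZ.b₆ = c.c) (c4 : WZ.c₄ ≠ 0) (c6 : WZ.c₆ ≠ 0)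
    (hΔ : ∀ l : ℕ, l.Prime → (l : ℤ) ∣ WZ.Δ → l ∣ c.p) {t : ℕ} [ht : Fact t.Prime] (t3 : 3 ≤ t)
    (tor : Tor WZ t c.x0) {y : ℤ} (hy : WZ.toAffine.Equation c.x0 y)
    (h3 : t < c.L ∧ c.co t = tr t cub) (h4 : c.p < c.L ∧ c.co c.p ^ 2 = 1) :
    ∃ R, c.Gd R ∧ ∃ D : MD Wu c.p, New D ∧ Sw c.a c.b c.c D.L ∧ D.F = R.F ∧
      ∀ n < c.L, D.c n = c.co n := by
  obtain ⟨R, h⟩ := c.rw hp h1 h2
  obtain ⟨L, per⟩ := exists_per c4 c6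
  have cw : B5.Cw c.a c.b c.c Wu := ⟨by rw [← ha]; exact map_b₂ _ _,
    by rw [← hb, Int.cast_mul, Int.cast_ofNat]; exact congrArg _ (map_b₄ _ _),
    by rw [← hc]; exact map_b₆ _ _⟩
  obtain ⟨D, d1, rfl, d2, d3⟩ := R.md cw per h.hW
  have hs := cw.sw per
  have d4 : ∀ n < c.L, D.c n = c.co n := fun n hn => by rw [d1]; exact h.cs n hn
  have p1 : (c.p : ℂ) ≠ 0 := Nat.cast_ne_zero.2 hp.ne_zero
  obtain ⟨o1, o2⟩ := R.zero hs h.hW (Ω := D.Ω) (fun z hz => by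
    rw [← d3, D.fricke hz, sub_add_cancel]) (R.ev_ok.mono fun z hz => by
      rw [h.eB, h.hW z hz.1]
      exact mul_ne_zero (Int.cast_ne_zero.2 h.D0) (pow_ne_zero _ (neg_ne_zero.2 (mul_ne_zero
        (mul_ne_zero p1 (pow_ne_zero _ (B5.q2_ne hz.1))) hz.2.2)))) h.lim
  obtain ⟨o3, o4⟩ := ce_phi D o1
  have o5 := tor.ord (Int.cast_ne_zero.2 WZ_ne) Wu_bc o3 (by rw [o4, ha, o2])
  have l2 : ∀ l : ℕ, ¬ l ∣ 2 * c.p → l ≠ 2 := fun l k e => k (e ▸ dvd_mul_right _ _)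
  have lp : ∀ l : ℕ, ¬ l ∣ 2 * c.p → ¬ l ∣ c.p := fun l k e => k (e.mul_left _)
  have k : ∀ (l : ℕ) [Fact l.Prime], ¬ l ∣ 2 * c.p → D.c l = tr l cub := fun l hl k => by
    by_cases e : l = t
    · subst e
      exact (d4 _ h3.1).trans h3.2
    rw [cub_fun, ha, hb, hc]
    refine md_eq_tr D t3 ((Nat.coprime_primes hl.out ht.out).2 e) (lp l k) (fun m hm => ?_) ?_
      (tor.dvd hy (l2 l k) (mt (hΔ l hl.out) (lp l k)) ha hb hc)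
    · rw [← o5, addOrderOf_dvd_iff_zsmul_eq_zero]
      rwa [MD.par_t0, d2, Rat.cast_one, one_mul] at hm
    · rw [d1, h.ode.cong1 (l2 l k) R.c0 R.c1 h.D0 h.A0]
  refine ⟨R, h, D, ⟨d2, by rwa [d2, Rat.cast_one, one_mul], k, fun l hl e => ?_,
    fun l hl e n => ?_, fun l hl e => ?_⟩, hs, d3, d4⟩
  · have := Fact.mk hl
    rw [k l e, cub_fun, even_tr' (l2 l e) (mt (hΔ l hl) (lp l e)) rfl rfl rfl]
  · simpa only [d1, B5.coeff_tS, e, not_true_eq_false, and_false, if_false, add_zero] using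
      h.hT l hl n
  · rw [(Nat.prime_dvd_prime_iff_eq hl hp).1 e, d4 _ h4.1, h4.2]

end Pool.Agent.B6
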