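import Pool.Agent.Lib.MP_696deb_nt.B6.CMb
import Pool.Agent.Lib.MP_696deb_nt.B6.D1

/-! Sums over classes and over forms, and traces to the two-primary parts. -/

set_option autoImplicit false

open scoped Classical NumberTheorySymbols

namespace Pool.Agent.B6.CM

open Pool.Agent.Lib.MP_696deb_nt Pool.Agent.Lib.MP_696deb_nt.B2 Pool.Agent.Lib.MP_696deb_nt.B2.CM
open Pool.Agent.B4 (OkN HgN HRp exists_hform hg_form ok_neg sp2_mob idl_froot)
open Pool.Agent.Lib.MP_696deb_nt.B3.CM (fs fs_self Gd th gch_th prim_root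
  isIv_root ind two_ind)

variable {N n c d l : ℕ} {r f o A B C : ℤ} {g φ : Gam} {w : Plc} {T : Finset Fm}

/-- The genus character vanishes on forms that are not primitive. -/
theorem gch_imprim {e : ℕ} (hn : Squarefree n) (he : e ≠ 0) (hd : ∀ p : ℕ, p.Prime → p ∣ d → p ∣ e)
    (hD : B ^ 2 + n * d ^ 2 = 4 * A * C) (h : ¬ ∃ x y z : ℤ, x * A + y * B + z * C = 1) :
    gch e (A, B, C) = 0 := by
  obtain ⟨g, x, y, z, a, b, c, e0, rfl, rfl, rfl⟩ := cmb_gcd A B C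
  obtain ⟨p, hp, hg⟩ := Int.exists_prime_and_dvd (n := g) fun k => h (by
    rcases Int.natAbs_eq_iff.1 k with k | k
    · exact ⟨x, y, z, e0.trans k⟩
    · exact ⟨-x, -y, -z, by rw [k] at e0 ⊢; push_cast at e0 ⊢; linear_combination -e0⟩)
  obtain ⟨g, rfl⟩ := hg
  have h1 : p ∣ d := by
    by_contra k
    have k1 : p * p ∣ n * d ^ 2 := ⟨g ^ 2 * (4 * a * c - b ^ 2), by linear_combination hD⟩
    exact hp.not_isUnit (Int.squarefree_natCast.2 hn p
      (((hp.coprime_iff_not_dvd.2 k).mul_left (hp.coprime_iff_not_dvd.2 k)).pow_right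
        |>.dvd_of_dvd_mul_right k1))
  have hq := Int.prime_iff_natAbs_prime.1 hp
  have h2 : ∀ t, (p.natAbs : ℤ) ∣ p * g * t := fun t =>
    Int.natAbs_dvd.2 ((dvd_mul_right _ _).mul_right _)
  rw [gch, Finset.prod_eq_zero (i := p.natAbs) (Nat.mem_primeFactors.2
    ⟨hq, hd _ hq (Int.natAbs_dvd_natAbs.2 h1), he⟩)]
  rw [if_pos (h2 a), jac_zero_of_dvd hq (h2 c)]

/-- Twisted sums over the class group are twisted sums over Heegner forms. -/
theorem link_sum {W : WeierstrassCurve ℚ} (P : B4.GE.Par W N) [Fintype (Pc n d)]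
    (ok : OkN N n d r) (hn : Squarefree n) (hT : HRp N (-(n * d ^ 2)) (r * d) T)
    (hs : Squarefree o) (h4 : o % 4 = 1) (ho : o ∣ n * d)
    (hd : ∀ p : ℕ, p.Prime → p ∣ d → p ∣ o.natAbs) :
    ∑ z, (th n d o z : ℤ) • yC P n d r z = ∑ Q ∈ T, gch o.natAbs Q • P.φ (froot Q) := by
  have hD := ok_neg ok.toOk
  have k : ∀ Q ∈ T, Q.2.1 ^ 2 + n * d ^ 2 = 4 * Q.1 * Q.2.2 ∧ 0 < Q.1 ∧ 0 < (froot Q).im ∧
      Q.1 * froot Q ^ 2 + Q.2.1 * froot Q + Q.2.2 = 0 := fun Q h => by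
    have h := hT.mem Q h
    have h2 := h.disc
    rw [fdisc] at h2
    exact ⟨by linear_combination h2, h.pos, h.im_pos hD, froot_root (h.disc ▸ hD) h.pos⟩
  have h1 : ∀ z : Pc n d, ∃ Q ∈ T, IsIv (Oc n d) (sp2 (froot Q) 1) ∧ cl _ (sp2 (froot Q) 1) = z :=
    fun z => by
      obtain ⟨Q, q1, q2, q3, q4, q5, rfl⟩ := exists_hform ok z
      obtain ⟨R, hR, g, g1, -, g3⟩ := hT.ex Q ⟨q1, q2, q3, q4⟩
      have i := (k R hR).2.2.1
      have k3 := sp2_mob (Matrix.det_fin_two g ▸ g1) i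
      have k4 : (g 1 0 : ℂ) * froot R + g 1 1 ≠ 0 := den_ne' (M := g) (by omega) i
      rw [show mob (g 0 0) (g 0 1) (g 1 0) (g 1 1) (froot R) = froot Q from g3.symm] at k3
      exact ⟨R, hR, k3 ▸ q5.sc k4, by rw [k3, cl_sc q5 k4]⟩
  choose β b1 b2 b3 using h1
  have hg : ∀ Q ∈ T, IsIv (Oc n d) (sp2 (froot Q) 1) → HgN N n d r (froot Q) := fun Q h =>
    hg_form ok (hT.mem Q h).disc (hT.mem Q h).pos (hT.mem Q h).lev (hT.mem Q h).res
  refine Finset.sum_of_injOn β (fun x _ y _ h => by rw [← b3 x, h, b3]) (fun z _ => b1 z)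
    (fun Q hQ h => ?_) fun z _ => ?_
  · obtain ⟨k1, k2, k3, k4⟩ := k Q hQ
    rw [gch_imprim (A := Q.1) hn (Int.natAbs_ne_zero.2 hs.ne_zero) hd k1 fun hp => h ?_, zero_smul]
    have i := isIv_root ok.toOk k1 k2 k3 k4 hp
    exact ⟨_, Finset.mem_univ _, (hT.uniq Q hQ _ (b1 _)
      (hg_geq ok (hg _ (b1 _) (b2 _)) (hg Q hQ i) (b3 _))).symm⟩
  · obtain ⟨k1, k2, k3, k4⟩ := k _ (b1 z)
    rw [← yC_cl P ok (hg _ (b1 z) (b2 z)), b3, ← gch_th (A := (β z).1) ok.toOk hs h4 ho k1 k2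
      (prim_root ok.toOk k1 k2 k3 k4 one_ne_zero (by rw [sc_one]; exact b2 z)),
      idl_froot (hT.mem _ (b1 z)).disc k2, cl_sc (b2 z) (by exact_mod_cast k2.ne'), b3]

theorem units_eq (a : ℤˣ) : (a : ℤ) = 1 + -2 * ind (-a) := by
  rw [neg_mul, two_ind, Units.val_neg]
  ring

theorem not_dvd_prod {s : Finset ℕ} (hl : l.Prime) (hs : ∀ p ∈ s, p.Prime) (h : l ∉ s)
    (hc : ¬ l ∣ c) : ¬ l ∣ c * ∏ p ∈ s, p := fun k => (hl.dvd_mul.1 k).elim hc fun k => by
  obtain ⟨p, hp, k⟩ := (hl.prime.dvd_finsetProd_iff _).1 k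
  exact h ((Nat.prime_dvd_prime_iff_eq hl (hs p hp)).1 k ▸ hp)

variable [∀ c, Fintype (Pc n c)]

/-- The trace to the two-primary part. -/
noncomputable def tz {M : Type} [AddCommMonoid M] (u : Pc n c → M) (a : Tw (Pc n c)) : M :=
  ∑ x with tq _ x = a, u x

theorem tr_map {M : Type} [AddCommMonoid M] (L : M →+ M) {u v : Pc n c → M}
    (h : ∀ x, L (u x) = v (rho n c g * x)) (a : Tw (Pc n c)) :
    L (tz u a) = tz v (psi n c g * a) := by
  rw [tz, map_sum]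
  simp only [h]
  exact sum_tq_mul v _ a

theorem sum_tr {M : Type} [AddCommGroup M] [Fintype (Tw (Pc n c))] (θ : Tw (Pc n c) →* ℤˣ)
    (u : Pc n c → M) : ∑ a, (θ a : ℤ) • tz u a = ∑ x, (θ (tq _ x) : ℤ) • u x := by
  refine Eq.trans (Finset.sum_congr rfl fun a _ => ?_) (Finset.sum_fiberwise Finset.univ (tq _) _)
  rw [tz, Finset.smul_sum]
  exact Finset.sum_congr rfl fun x hx => by rw [(Finset.mem_filter.1 hx).2]

theorem tr_trace {M : Type} [AddCommGroup M] [Fintype (Tw (Pc n d))] {u : Pc n c → M}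
    {v : Pc n d → M} {m : ℤ} (h : ∀ x, fs c d v x = m • u x) (a : Tw (Pc n c)) :
    ∑ a' with twm (pj n c d) a' = a, tz v a' = m • tz u a := by
  rw [tz, Finset.smul_sum, ← Finset.sum_congr rfl fun z _ => h z]
  exact sum_tq_twm v a

variable [Cw]

theorem tr_kron (ok : Ok n c) (h2 : w.p ≠ 2) (hJ : J(-n | w.p) = -1) (hc : ¬ w.p ∣ c)
    {u : Pc n c → EE} {v : Pc n (c * w.p) → EE}
    (h : ∀ x, v x - φ • u (pj n c (c * w.p) x) ∈ K1 w) (a : Tw (Pc n (c * w.p))) :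
    tz v a - ordCompl[2] (w.p + 1) • φ • tz u (twm (pj n c (c * w.p)) a) ∈ K1 w := by
  have k := sum_fib (pj_surj ok w.prime h2 hJ hc) (fun z => φ • u z) a
  rw [card_ker_pj ok w.prime h2 hJ hc] at k
  rw [tz, tz, Finset.smul_sum, ← k, ← Finset.sum_sub_distrib]
  exact sum_mem fun x _ => h x

variable {P : B4.GE.Par Wu N}

theorem wt_smul (k : ℤ) (V : ℤˣ → ℤ) (x : Pc n c) :
    wt P r (fun a => k * V a) f c d x = k • wt P r V f c d x := by
  simp only [wt, fs, mul_smul, Finset.smul_sum]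

theorem wt_eq (x : Pc n c) : wt P r (↑) f c d x =
    fs c d (yA P n d r) x + 2 • -wt P r (fun a => ind (-a)) f c d x := by
  rw [wt, wt, fs, fs, fs, ← Finset.sum_neg_distrib, Finset.smul_sum, ← Finset.sum_add_distrib]
  refine Finset.sum_congr rfl fun z _ => ?_
  rw [units_eq]
  module

variable (G : B4.GE.Geo P)
include G

theorem tw_wt (ok : OkN N n d r) (hc : c ∣ d) (h : Gd n d f) (hg : g ∈ GK n) (x : Pc n c) :
    tw f g (wt P r (↑) f c d x) = wt P r (↑) f c d (rho n c g * x) := by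
  rw [tw, smul_wt G ok hc h hg, ← wt_smul]
  simp only [← Units.val_mul, ← mul_assoc, Int.units_mul_self, one_mul]

/-- The trace along a product of split primes. -/
theorem tr_eul (φ : ℕ → Gam) (s : Finset ℕ) (hs : ∀ l ∈ s, l ≠ 2 ∧ J(-n | l) = 1 ∧ ¬ l ∣ c ∧
    ∃ w : Plc, w.p = l ∧ IsFrob w l (φ l)) : ∀ d, d = c * ∏ l ∈ s, l → OkN N n d r →
      tz (fs c d (yA P n d r)) = shA _ EE (∏ l ∈ s, (MonoidAlgebra.single 1 (P.a l) -
        MonoidAlgebra.single (psi n c (φ l)) 1 - MonoidAlgebra.single (psi n c (φ l))⁻¹ 1))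
        (tz (yA P n c r)) := by
  induction s using Finset.induction_on with
  | empty =>
    rintro d hd -
    rw [Finset.prod_empty, mul_one] at hd
    subst hd
    rw [Finset.prod_empty, map_one]
    exact congrArg tz (funext (fs_self _))
  | insert l s hl ih =>
    intro d hd ok
    obtain ⟨h1, h2, h3, w, rfl, h4⟩ := hs l (Finset.mem_insert_self l s)
    have hs' := fun p hp => hs p (Finset.mem_insert_of_mem hp)
    rw [Finset.prod_insert hl, mul_comm w.p, ← mul_assoc] at hd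
    have h5 := not_dvd_prod w.prime (fun p hp => by
      obtain ⟨-, -, -, v, rfl, -⟩ := hs' p hp
      exact v.prime) hl h3
    funext a
    rw [Finset.prod_insert hl, map_mul, Module.End.mul_apply, ← ih hs' _ rfl (hd ▸ ok).of_mul]
    simp only [map_sub, LinearMap.sub_apply, Pi.sub_apply, shA_single, one_smul, one_mul]
    rw [psi, ← map_inv, tz, tz, tz, tz, ← sum_tq_mul, ← sum_tq_mul, Finset.smul_sum,
      ← Finset.sum_sub_distrib, ← Finset.sum_sub_distrib]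
    exact Finset.sum_congr rfl fun x _ => fs_split G ok hd (dvd_mul_right _ _) h1 h2 h5 h4 x

end Pool.Agent.B6.CM
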