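import Pool.Agent.Lib.MP_696deb_nt.B6.Cw

/-! The algebraic points of the curve, and the kernel of reduction. -/

set_option autoImplicit false

open scoped NNReal Classical
open WeierstrassCurve WeierstrassCurve.Affine

namespace Pool.Agent.B6

open Pool.Agent.Lib.MP_696deb_nt Pool.Agent.Lib.MP_696deb_nt.B2

variable [Cw]

/-- The group of algebraic points. -/
abbrev EE : Type := Pt Wu Qbar

noncomputable instance : DistribMulAction Gam EE where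
  smul g P := pmap (g : Qbar →+* Qbar) P
  one_smul P := by cases P <;> rfl
  mul_smul g h P := by cases P <;> rfl
  smul_zero g := map_zero (pmap (W := Wu) (g : Qbar →+* Qbar))
  smul_add g := map_add (pmap (W := Wu) (g : Qbar →+* Qbar))

theorem smul_pt (g : Gam) (P : EE) : g • P = pmap (g : Qbar →+* Qbar) P := rfl

theorem xco_smul (g : Gam) (P : EE) : xco (g • P) = g (xco P) := xco_pmap _ P

theorem yco_smul (g : Gam) (P : EE) : yco (g • P) = g (yco P) := yco_pmap _ P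

theorem r0_eqn {P : EE} (hP : P ≠ 0) : yco P ^ 2 + WZ.a₁ * xco P * yco P + WZ.a₃ * yco P =
    xco P ^ 3 + WZ.a₂ * xco P ^ 2 + WZ.a₄ * xco P + WZ.a₆ := by
  rcases P with _ | ⟨x, y, h⟩
  · exact absurd rfl hP
  · exact (Wu_nonsingular x y).1 h

theorem r0_negY (x y : Qbar) :
    (Wu.baseChange Qbar).toAffine.negY x y = -y - WZ.a₁ * x - WZ.a₃ := by
  simp only [negY, toAffine, Wu_a₁, Wu_a₃]

theorem r0_neg {P : EE} (hP : P ≠ 0) : yco (-P) = -yco P - WZ.a₁ * xco P - WZ.a₃ := by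
  rcases P with _ | ⟨x, y, h⟩
  · exact absurd rfl hP
  · exact r0_negY x y

theorem r0_ext {P Q : EE} (hP : P ≠ 0) (hQ : Q ≠ 0) (hx : xco P = xco Q) (hy : yco P = yco Q) :
    P = Q := by
  rcases P with _ | ⟨x, y, h⟩
  · exact absurd rfl hP
  rcases Q with _ | ⟨x', y', h'⟩
  · exact absurd rfl hQ
  simp only [Point.some.injEq]
  exact ⟨hx, hy⟩

/-- The line through two points. -/
theorem r0_line {P Q : EE} (hP : P ≠ 0) (hQ : Q ≠ 0) (h : P + Q ≠ 0) : ∃ l ν : Qbar,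
    yco P = l * xco P + ν ∧ yco Q = l * xco Q + ν ∧ yco (-(P + Q)) = l * xco (P + Q) + ν ∧
      xco P + xco Q + xco (P + Q) = l ^ 2 + WZ.a₁ * l - WZ.a₂ ∧
      xco P * xco Q + xco P * xco (P + Q) + xco Q * xco (P + Q) =
        WZ.a₄ - 2 * l * ν - WZ.a₁ * ν - WZ.a₃ * l := by
  rw [r0_neg h]
  rcases P with _ | ⟨x1, y1, h1⟩
  · exact absurd rfl hP
  rcases Q with _ | ⟨x2, y2, h2⟩
  · exact absurd rfl hQ
  have hxy : ¬ (x1 = x2 ∧ y1 = (Wu.baseChange Qbar).toAffine.negY x2 y2) := fun k =>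
    h (Point.add_of_Y_eq k.1 k.2)
  have e1 := (Wu_nonsingular _ _).1 h1
  have e2 := (Wu_nonsingular _ _).1 h2
  have key : ∀ l, l = (Wu.baseChange Qbar).toAffine.slope x1 x2 y1 y2 →
      l * (x1 - x2) = y1 - y2 ∧ l * (y1 + y2 + WZ.a₁ * x1 + WZ.a₃) =
        x1 ^ 2 + x1 * x2 + x2 ^ 2 + WZ.a₂ * (x1 + x2) + WZ.a₄ - WZ.a₁ * y2 := by
    intro l hl
    by_cases hx : x1 = x2
    · have hy := fun k => hxy ⟨hx, k⟩
      obtain rfl := Y_eq_of_Y_ne h1.1 h2.1 hx hy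
      subst hx
      rw [slope_of_Y_ne rfl hy, eq_div_iff (sub_ne_zero.2 hy), r0_negY] at hl
      simp only [toAffine, Wu_a₁, Wu_a₂, Wu_a₄] at hl
      exact ⟨by ring, by linear_combination hl⟩
    · rw [slope_of_X_ne hx, eq_div_iff (sub_ne_zero.2 hx)] at hl
      exact ⟨hl, mul_left_cancel₀ (sub_ne_zero.2 hx)
        (by linear_combination (y1 + y2 + WZ.a₁ * x1 + WZ.a₃) * hl + e1 - e2)⟩
  obtain ⟨a, b⟩ := key _ rfl
  rw [Point.add_some hxy]
  simp only [xco_some, yco_some, addY, r0_negY, negAddY, addX, toAffine, Wu_a₁, Wu_a₂]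
  generalize (Wu.baseChange Qbar).toAffine.slope x1 x2 y1 y2 = l at a b ⊢
  exact ⟨l, y1 - l * x1, by ring, by linear_combination a, by ring, by ring,
    by linear_combination b - (l + WZ.a₁) * a⟩

theorem r0_yco (w : Plc) {P : EE} (h : w.V (xco P) ≤ 1) : w.V (yco P) ≤ 1 := by
  by_cases p0 : P = 0
  · simp [p0]
  have h1 : xco P ∈ w.V.integer := h
  refine r0_quad w (a := WZ.a₁ * xco P + WZ.a₃)
    (add_mem (mul_mem (intCast_mem _ _) h1) (intCast_mem _ _)) ?_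
  rw [show _ + _ = xco P ^ 3 + WZ.a₂ * xco P ^ 2 + WZ.a₄ * xco P + WZ.a₆ by
    linear_combination r0_eqn p0]
  exact add_mem (add_mem (add_mem (pow_mem h1 3) (mul_mem (intCast_mem _ _) (pow_mem h1 2)))
    (mul_mem (intCast_mem _ _) h1)) (intCast_mem _ _)

omit [Cw] in
theorem r0_key (w : Plc) {x1 x2 x3 y3 l ν a₁ a₂ a₃ a₄ : Qbar} (e0 : y3 = l * x3 + ν)
    (e1 : x1 + x2 + x3 = l ^ 2 + a₁ * l - a₂)
    (e2 : x1 * x2 + x1 * x3 + x2 * x3 = a₄ - 2 * l * ν - a₁ * ν - a₃ * l)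
    (h1 : 1 < w.V x1) (h2 : 1 < w.V x2) (h3 : x3 ∈ w.V.integer) (h4 : y3 ∈ w.V.integer)
    (m1 : a₁ ∈ w.V.integer) (m2 : a₂ ∈ w.V.integer) (m3 : a₃ ∈ w.V.integer)
    (m4 : a₄ ∈ w.V.integer) : False := by
  have e3 : x1 * x2 = l ^ 2 * x3 - 2 * l * y3 - a₃ * l - a₁ * y3 + x3 ^ 2 + a₂ * x3 + a₄ := by
    linear_combination e2 - x3 * e1 + (2 * l + a₁) * e0
  clear e0 e2
  rcases le_or_gt (w.V l) 1 with hl | hl
  · have h5 : l ∈ w.V.integer := hl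
    refine (r0_big w h1 ?_).not_gt h2
    rw [e3]
    clear e1 e3 h1 h2 hl
    aesop
  have l0 : l ≠ 0 := by rintro rfl; simp at hl
  obtain ⟨t, rfl⟩ : ∃ t, l = t⁻¹ := ⟨l⁻¹, (inv_inv l).symm⟩
  have t0 : t ≠ 0 := fun k => l0 (by rw [k, inv_zero])
  have t1 : w.V t < 1 := r0_big w hl (by rw [inv_mul_cancel₀ t0]; exact one_mem _)
  have t2 : t ∈ w.V.integer := t1.le
  have a1 : x1 * (x2 * t ^ 2) ∈ w.V.integer := by
    rw [show x1 * (x2 * t ^ 2) =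
        x3 - 2 * t * y3 - a₃ * t + t ^ 2 * (x3 ^ 2 - a₁ * y3 + a₂ * x3 + a₄) by
      rw [← mul_assoc, e3]; field_simp; ring]
    clear e1 e3 h1 h2 hl l0 t0 t1
    aesop
  have a2 := r0_big w h1 a1
  have a3 := r0_big w h2 (a := x1 * t ^ 2) (by rwa [mul_left_comm])
  have a4 := w.V.map_add_lt a3 a2
  rw [show x1 * t ^ 2 + x2 * t ^ 2 = 1 + t * (a₁ + t * (-a₂ - x3)) by
    rw [← add_mul, eq_sub_of_add_eq e1]; field_simp; ring, r0_one w (r0_mul w t1 ?_)] at a4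
  · exact a4.false
  · exact add_mem m1 (mul_mem t2 (sub_mem (neg_mem m2) h3))

theorem red0_add (w : Plc) {P Q : EE} (hP : P = 0 ∨ 1 < w.V (xco P))
    (hQ : Q = 0 ∨ 1 < w.V (xco Q)) : P + Q = 0 ∨ 1 < w.V (xco (P + Q)) := by
  by_cases p0 : P = 0
  · rwa [p0, zero_add]
  by_cases q0 : Q = 0
  · rwa [q0, add_zero]
  refine or_iff_not_imp_left.2 fun h => not_le.1 fun k => ?_
  obtain ⟨l, ν, -, -, e0, e1, e2⟩ := r0_line p0 q0 h
  exact r0_key w e0 e1 e2 (hP.resolve_left p0) (hQ.resolve_left q0) k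
    (r0_yco w (P := -(P + Q)) (by rwa [xco_neg])) (intCast_mem _ _) (intCast_mem _ _)
    (intCast_mem _ _) (intCast_mem _ _)

/-- The kernel of reduction. -/
noncomputable def K1 (w : Plc) : AddSubgroup EE where
  carrier := {P | P = 0 ∨ 1 < w.V (xco P)}
  zero_mem' := .inl rfl
  add_mem' := red0_add w
  neg_mem' h := h.imp neg_eq_zero.2 fun k => by rwa [xco_neg]

theorem mem_K1 {w : Plc} {P : EE} : P ∈ K1 w ↔ P = 0 ∨ 1 < w.V (xco P) := Iff.rfl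

variable {w : Plc} {P Q : EE} {g : Gam}

theorem V_xco_le (h : P ∉ K1 w) : w.V (xco P) ≤ 1 ∧ w.V (yco P) ≤ 1 := by
  have h1 := not_lt.1 fun k => h (.inr k)
  exact ⟨h1, r0_yco w h1⟩

/-- The discriminant after a translation to a point of the curve. -/
theorem r0_disc {x y s t a b c : Qbar}
    (e : y ^ 2 + WZ.a₁ * x * y + WZ.a₃ * y = x ^ 3 + WZ.a₂ * x ^ 2 + WZ.a₄ * x + WZ.a₆)
    (hs : 2 * y + WZ.a₁ * x + WZ.a₃ = s) (ht : 3 * x ^ 2 + 2 * WZ.a₂ * x + WZ.a₄ - WZ.a₁ * y = t)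
    (ha : WZ.a₂ + 3 * x = a) (hc : WZ.a₁ = c) (hb : c ^ 2 + 4 * a = b) : (WZ.Δ : Qbar) =
      s * (b ^ 2 * (c * t - a * s) - 8 * c * (12 * t ^ 2 + 6 * c * t * s + c ^ 2 * s ^ 2) -
        27 * s ^ 3 + 9 * b * (2 * t + c * s) * s) + t * (b ^ 2 * t - 64 * t ^ 2) := by
  subst hb hc ha ht hs
  simp only [Δ, b₂, b₄, b₆, b₈]
  push_cast
  rw [show (WZ.a₆ : Qbar) = y ^ 2 + WZ.a₁ * x * y + WZ.a₃ * y - (x ^ 3 + WZ.a₂ * x ^ 2 + WZ.a₄ * x) by
    linear_combination -e]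
  ring

theorem r0_sing (w : Plc) (hw : ¬ (w.p : ℤ) ∣ WZ.Δ) {x1 x2 x3 y1 y2 l ν : Qbar}
    (e : y1 ^ 2 + WZ.a₁ * x1 * y1 + WZ.a₃ * y1 = x1 ^ 3 + WZ.a₂ * x1 ^ 2 + WZ.a₄ * x1 + WZ.a₆)
    (e3 : y1 = l * x1 + ν) (e4 : -y2 - WZ.a₁ * x2 - WZ.a₃ = l * x2 + ν)
    (e1 : x1 + x2 + x3 = l ^ 2 + WZ.a₁ * l - WZ.a₂)
    (e2 : x1 * x2 + x1 * x3 + x2 * x3 = WZ.a₄ - 2 * l * ν - WZ.a₁ * ν - WZ.a₃ * l)
    (h1 : x1 ∈ w.V.integer) (h2 : x2 ∈ w.V.integer) (h3 : x3 ∈ w.V.integer)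
    (hx : w.V (x1 - x2) < 1) (hy : w.V (y1 - y2) < 1) : False := by
  have k := r0_disc e rfl rfl rfl rfl rfl
  have m1 : (WZ.a₁ : Qbar) ∈ w.V.integer := intCast_mem _ _
  have m2 : (WZ.a₂ : Qbar) ∈ w.V.integer := intCast_mem _ _
  have hl : l ∈ w.V.integer := r0_quad w m1 (by
    rw [show l ^ 2 + WZ.a₁ * l = x1 + x2 + x3 + WZ.a₂ by linear_combination -e1]
    exact add_mem (add_mem (add_mem h1 h2) h3) m2)
  have s1 : w.V (2 * y1 + WZ.a₁ * x1 + WZ.a₃) < 1 := by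
    rw [show 2 * y1 + WZ.a₁ * x1 + WZ.a₃ = (x1 - x2) * (l + WZ.a₁) + (y1 - y2) by
      linear_combination e3 - e4]
    exact w.V.map_add_lt (r0_mul w hx (add_mem hl m1)) hy
  have s2 : w.V (3 * x1 ^ 2 + 2 * WZ.a₂ * x1 + WZ.a₄ - WZ.a₁ * y1) < 1 := by
    rw [show 3 * x1 ^ 2 + 2 * WZ.a₂ * x1 + WZ.a₄ - WZ.a₁ * y1 =
        (y1 - y2) * l + (x1 - x2) * (2 * x1 + x2 + WZ.a₂) by
      linear_combination (x1 + x2) * e1 - e2 - (l + WZ.a₁) * e3 - l * e4]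
    exact w.V.map_add_lt (r0_mul w hy hl) (r0_mul w hx
      (add_mem (add_mem (mul_mem (ofNat_mem _ 2) h1) h2) m2))
  have ha : WZ.a₂ + 3 * x1 ∈ w.V.integer := add_mem m2 (mul_mem (ofNat_mem _ 3) h1)
  generalize 2 * y1 + WZ.a₁ * x1 + WZ.a₃ = s,
    3 * x1 ^ 2 + 2 * WZ.a₂ * x1 + WZ.a₄ - WZ.a₁ * y1 = t, WZ.a₂ + 3 * x1 = a at k s1 s2 ha
  generalize (WZ.a₁ : Qbar) = c at k m1
  have hb : c ^ 2 + 4 * a ∈ w.V.integer := add_mem (pow_mem m1 2) (mul_mem (ofNat_mem _ 4) ha)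
  generalize c ^ 2 + 4 * a = b at k hb
  have hs : s ∈ w.V.integer := s1.le
  have ht : t ∈ w.V.integer := s2.le
  have m : b ^ 2 * (c * t - a * s) - 8 * c * (12 * t ^ 2 + 6 * c * t * s + c ^ 2 * s ^ 2) -
      27 * s ^ 3 + 9 * b * (2 * t + c * s) * s ∈ w.V.integer ∧
      b ^ 2 * t - 64 * t ^ 2 ∈ w.V.integer := by
    clear e e1 e2 e3 e4 hx hy s1 s2 hw k
    aesop
  have s4 := w.V.map_add_lt (r0_mul w s1 m.1) (r0_mul w s2 m.2)
  rw [← k, w.V_int_eq_one.2 hw] at s4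
  exact s4.false

/-- Points with congruent coordinates have the same reduction. -/
theorem K1_near (hw : ¬ (w.p : ℤ) ∣ WZ.Δ) (hP : P ∉ K1 w) (hQ : Q ∉ K1 w)
    (hx : w.V (xco P - xco Q) < 1) (hy : w.V (yco P - yco Q) < 1) : P - Q ∈ K1 w := by
  have p0 : P ≠ 0 := fun k => hP (.inl k)
  have q0 : Q ≠ 0 := fun k => hQ (.inl k)
  rw [sub_eq_add_neg]
  refine or_iff_not_imp_left.2 fun h => not_le.1 fun k => ?_
  obtain ⟨l, ν, e3, e4, -, e1, e2⟩ := r0_line p0 (neg_ne_zero.2 q0) h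
  rw [r0_neg q0] at e4
  rw [xco_neg] at e1 e2 e4
  exact r0_sing w hw (r0_eqn p0) e3 e4 e1 e2 (V_xco_le hP).1 (V_xco_le hQ).1 k hx hy

/-- The converse. -/
theorem near_of_K1 (hP : P ∉ K1 w) (h : P - Q ∈ K1 w) :
    w.V (xco P - xco Q) < 1 ∧ w.V (yco P - yco Q) < 1 := by
  by_cases h0 : P - Q = 0
  · simp [sub_eq_zero.1 h0]
  have hQ : Q ∉ K1 w := fun k => hP (by simpa using add_mem h k)
  have p0 : Q + (P - Q) ≠ 0 := fun k => hP (.inl (by simpa using k))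
  obtain ⟨l, ν, e3, -, e4, e1, e2⟩ := r0_line (fun k => hQ (.inl k)) h0 p0
  rw [r0_neg p0] at e4
  rw [add_sub_cancel] at e1 e2 e4
  have h1 : xco P ∈ w.V.integer := (V_xco_le hP).1
  have h2 : yco P ∈ w.V.integer := (V_xco_le hP).2
  have h3 : xco Q ∈ w.V.integer := (V_xco_le hQ).1
  have h4 : yco Q ∈ w.V.integer := (V_xco_le hQ).2
  have h5 := h.resolve_left h0
  have m1 : (WZ.a₁ : Qbar) ∈ w.V.integer := intCast_mem _ _
  have m2 : (WZ.a₂ : Qbar) ∈ w.V.integer := intCast_mem _ _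
  have m3 : (WZ.a₃ : Qbar) ∈ w.V.integer := intCast_mem _ _
  have m4 : (WZ.a₄ : Qbar) ∈ w.V.integer := intCast_mem _ _
  generalize xco P = x3, yco P = y3, xco Q = x1, yco Q = y1, xco (P - Q) = x2,
    (WZ.a₁ : Qbar) = a₁, (WZ.a₂ : Qbar) = a₂, (WZ.a₃ : Qbar) = a₃, (WZ.a₄ : Qbar) = a₄ at *
  clear hP h h0 hQ p0
  have hl : 1 < w.V l := not_le.1 fun k => h5.not_ge (by
    have h6 : l ∈ w.V.integer := k
    change x2 ∈ w.V.integer
    rw [show x2 = l ^ 2 + a₁ * l - a₂ - x1 - x3 by linear_combination e1]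
    clear e1 e2 e3 e4 h5 k
    aesop)
  constructor
  · refine r0_big w hl ?_
    rw [show l * (x3 - x1) = -y3 - a₁ * x3 - a₃ - y1 by linear_combination e3 - e4]
    exact sub_mem (sub_mem (sub_mem (neg_mem h2) (mul_mem m1 h1)) m3) h4
  · refine r0_big w hl ?_
    rw [show l * (y3 - y1) = a₁ * y1 - (x1 ^ 2 + x1 * x3 + x3 ^ 2 + a₂ * (x1 + x3) + a₄) by
      linear_combination (x1 + x3) * e1 - e2 - (l + a₁) * e3 - l * e4]
    clear e1 e2 e3 e4 h5 hl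
    aesop

theorem K1_smul (hg : g ∈ Dec w) : g • P ∈ K1 w ↔ P ∈ K1 w := by
  rw [mem_K1, mem_K1, xco_smul, mem_Dec.1 hg, smul_eq_zero_iff_eq]

theorem K1_ine (hw : ¬ (w.p : ℤ) ∣ WZ.Δ) (hg : g ∈ Ine w) (P : EE) : g • P - P ∈ K1 w := by
  by_cases h : P ∈ K1 w
  · exact sub_mem ((K1_smul hg.1).2 h) h
  · refine K1_near hw (mt (K1_smul hg.1).1 h) h ?_ ?_
    · rw [xco_smul]; exact hg.2 _ (V_xco_le h).1
    · rw [yco_smul]; exact hg.2 _ (V_xco_le h).2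

theorem dup2_cub {K : Type*} [Field K] [CharZero K] (x : K) :
    dup2 (Wu.baseChange K) x = cub x := by
  simp only [dup2, cub, Wu_b₂, Wu_b₄, Wu_b₆]

theorem cub_xco (hP : P ≠ 0) : cub (xco P) = (2 * yco P + WZ.a₁ * xco P + WZ.a₃) ^ 2 := by
  have := r0_eqn hP
  simp only [cub, b₂, b₄, b₆]
  push_cast
  linear_combination (-4) * this

/-- The points of order two belong to the roots of the cubic. -/
theorem two_iff : 2 • P = 0 ↔ P = 0 ∨ cub (xco P) = 0 := by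
  rcases P with _ | ⟨x, y, h⟩
  · exact iff_of_true (smul_zero 2) (.inl rfl)
  refine ⟨fun k => .inr (by_contra fun e => ?_), fun k => two_nsmul_eq_zero h
    ((dup2_cub x).trans (k.resolve_left (Point.some_ne_zero _)))⟩
  obtain ⟨y', h', e'⟩ := two_nsmul_some h (fun a => e ((dup2_cub x).symm.trans a))
  exact Point.some_ne_zero _ (e'.symm.trans k)

theorem two_eq_zero_iff : 2 • P = 0 ↔ P = 0 ∨ dup2 (Wu.baseChange Qbar) (xco P) = 0 := by
  rw [two_iff, dup2_cub]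

theorem r0_two_y (hP : P ≠ 0) (h : 2 • P = 0) : yco P = -(WZ.a₁ * xco P + WZ.a₃) / 2 := by
  have h1 := (cub_xco hP).symm.trans ((two_iff.1 h).resolve_left hP)
  linear_combination (1 / 2) * (pow_eq_zero_iff two_ne_zero).1 h1

theorem two_ext (hP : P ≠ 0) (hQ : Q ≠ 0) (h : 2 • P = 0) (hx : xco P = xco Q) : P = Q :=
  r0_ext hP hQ hx (by
    rw [r0_two_y hP h, r0_two_y hQ (two_iff.2 (.inr (hx ▸ (two_iff.1 h).resolve_left hP))), hx])

theorem V_root (hw : w.p ≠ 2) {x : Qbar} (h : cub x = 0) : w.V x ≤ 1 := not_lt.1 fun k => by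
  have x0 : x ≠ 0 := by rintro rfl; simp at k
  have t1 : w.V x⁻¹ < 1 := r0_big w k (by rw [mul_inv_cancel₀ x0]; exact one_mem _)
  have t2 : x⁻¹ ∈ w.V.integer := t1.le
  have h3 : w.V ((4 : ℤ) : Qbar) = 1 := w.V_int_eq_one.2 fun e =>
    hw ((Nat.prime_dvd_prime_iff_eq w.prime Nat.prime_two).1
      (w.prime.dvd_of_dvd_pow (n := 2) (by exact_mod_cast e)))
  have h4 := r0_mul w t1 (a := -(WZ.b₂ + x⁻¹ * (2 * WZ.b₄ + x⁻¹ * WZ.b₆))) (neg_mem
    (add_mem (intCast_mem _ _) (mul_mem t2 (add_mem (mul_mem (ofNat_mem _ 2) (intCast_mem _ _))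
      (mul_mem t2 (intCast_mem _ _))))))
  rw [show x⁻¹ * -(WZ.b₂ + x⁻¹ * (2 * WZ.b₄ + x⁻¹ * WZ.b₆)) = ((4 : ℤ) : Qbar) by
    rw [cub] at h
    push_cast
    field_simp
    linear_combination -h, h3] at h4
  exact h4.false

theorem K1_tors (hw : w.p ≠ 2) (h : P ∈ K1 w) {m : ℕ} (k : 2 ^ m • P = 0) : P = 0 := by
  induction m generalizing P with
  | zero => simpa using k
  | succ m ih =>
    have h1 := ih (nsmul_mem h 2) (by rw [smul_smul, ← pow_succ, k])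
    exact (two_iff.1 h1).elim id fun e => h.resolve_right (V_root hw e).not_gt

theorem sm_pt (H : Subgroup Gam) (P : EE) : Sm H fun g => g • P := by
  rcases P with _ | ⟨x, y, h⟩
  · exact (Sm.const 0).congr fun g _ => (smul_zero g).symm
  · refine ((sm_apply x).comp₂ (sm_apply y) fun a b =>
      if k : (Wu.baseChange Qbar).toAffine.Nonsingular a b then (.some a b k : EE) else 0).congr
      fun g _ => ?_
    have k : (Wu.baseChange Qbar).toAffine.Nonsingular (g x) (g y) := by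
      rw [Wu_nonsingular] at h ⊢
      simpa [map_ofNat] using congrArg g h
    exact dif_pos k

theorem r0_pt (x : Qbar) : ∃ y, (Wu.baseChange Qbar).toAffine.Nonsingular x y := by
  obtain ⟨y, hy⟩ := r0_root (WZ.a₁ * x + WZ.a₃) (x ^ 3 + WZ.a₂ * x ^ 2 + WZ.a₄ * x + WZ.a₆)
  exact ⟨y, (Wu_nonsingular _ _).2 (by linear_combination hy)⟩

open Polynomial in
theorem exists_half (P : EE) : ∃ Q, 2 • Q = P := by
  rcases P with _ | ⟨x, y, h⟩
  · exact ⟨0, smul_zero 2⟩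
  obtain ⟨u, hu⟩ := IsAlgClosed.exists_root (X ^ 4 + C (-4 * x) * X ^ 3 +
    C (-WZ.b₄ - x * WZ.b₂) * X ^ 2 + C (-2 * WZ.b₆ - 2 * x * WZ.b₄) * X + C (-WZ.b₈ - x * WZ.b₆))
    (by rw [show degree _ = 4 by compute_degree!]; decide)
  simp only [IsRoot, eval_add, eval_mul, eval_pow, eval_C, eval_X] at hu
  obtain ⟨v, hv⟩ := r0_pt u
  have e : dup1 (Wu.baseChange Qbar) u = x * dup2 (Wu.baseChange Qbar) u := by
    simp only [dup1, dup2, Wu_b₂, Wu_b₄, Wu_b₆, Wu_b₈]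
    linear_combination hu
  have e0 : dup2 (Wu.baseChange Qbar) u ≠ 0 := fun k => dup_ne k (by rw [e, k, mul_zero])
  obtain ⟨y', h', e1⟩ := two_nsmul_some hv e0
  rcases (Point.X_eq_iff (h₁ := h) (h₂ := h')).1 (by rw [e, mul_div_cancel_right₀ _ e0]) with k | k
  · exact ⟨_, e1.trans k.symm⟩
  · exact ⟨-.some u v hv, by rw [neg_nsmul, e1, k]⟩

theorem r0_fix (g : Gam) (hP : P ≠ 0) (hx : g (xco P) = xco P) (hy : g (yco P) = yco P) :
    g • P = P :=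
  r0_ext (mt (smul_eq_zero_iff_eq g).1 hP) hP (xco_smul g P ▸ hx) (yco_smul g P ▸ hy)

theorem two_fix (g : Gam) (h : 2 • P = 0) : g • P = P ↔ g (xco P) = xco P := by
  refine ⟨fun k => by rw [← xco_smul, k], fun k => ?_⟩
  by_cases p0 : P = 0
  · rw [p0, smul_zero]
  · exact (two_ext p0 (mt (smul_eq_zero_iff_eq g).1 p0) h (by rw [xco_smul, k])).symm

theorem exists_roots : ∃ e : Fin 3 → Qbar, (WZ.b₂ : Qbar) = -4 * (e 0 + e 1 + e 2) ∧
    (WZ.b₄ : Qbar) = 2 * (e 0 * e 1 + e 0 * e 2 + e 1 * e 2) ∧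
    (WZ.b₆ : Qbar) = -4 * (e 0 * e 1 * e 2) := by
  have ha : (Wu.baseChange Qbar).twoTorsionPolynomial.a ≠ 0 := (by norm_num : (4 : Qbar) ≠ 0)
  obtain ⟨x, y, z, h⟩ := (Cubic.splits_iff_roots_eq_three (φ := RingHom.id Qbar) ha).1
    (IsAlgClosed.splits _)
  have h1 := Cubic.b_eq_three_roots ha h
  have h2 := Cubic.c_eq_three_roots ha h
  have h3 := Cubic.d_eq_three_roots ha h
  simp only [twoTorsionPolynomial, RingHom.id_apply, Wu_b₂, Wu_b₄, Wu_b₆] at h1 h2 h3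
  exact ⟨![x, y, z], by simp only [Matrix.cons_val]; linear_combination h1,
    by simp only [Matrix.cons_val]; linear_combination (1 / 2) * h2,
    by simp only [Matrix.cons_val]; linear_combination h3⟩

/-- The roots of the cubic. -/
noncomputable def er : Fin 3 → Qbar := exists_roots.choose

theorem er_b₂ : (WZ.b₂ : Qbar) = -4 * (er 0 + er 1 + er 2) := exists_roots.choose_spec.1

theorem er_b₄ : (WZ.b₄ : Qbar) = 2 * (er 0 * er 1 + er 0 * er 2 + er 1 * er 2) :=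
  exists_roots.choose_spec.2.1

theorem er_b₆ : (WZ.b₆ : Qbar) = -4 * (er 0 * er 1 * er 2) := exists_roots.choose_spec.2.2

theorem cub_eq (x : Qbar) : cub x = 4 * ((x - er 0) * ((x - er 1) * (x - er 2))) := by
  rw [cub, er_b₂, er_b₄, er_b₆]
  ring

theorem er_Δ : (WZ.Δ : Qbar) = 16 * ((er 0 - er 1) * ((er 0 - er 2) * (er 1 - er 2))) ^ 2 := by
  have h := (Wu.baseChange Qbar).twoTorsionPolynomial_discr
  simp only [twoTorsionPolynomial, Cubic.discr, Wu_b₂, Wu_b₄, Wu_b₆, Wu_Δ', er_b₂, er_b₄,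
    er_b₆] at h
  linear_combination (-1 / 16) * h

theorem er_ne : er 0 ≠ er 1 ∧ er 0 ≠ er 2 ∧ er 1 ≠ er 2 := by
  have h : (WZ.Δ : Qbar) ≠ 0 := Int.cast_ne_zero.2 WZ_ne
  rw [er_Δ] at h
  simpa [sub_eq_zero, not_or] using h

theorem er_inj : Function.Injective er := by
  obtain ⟨a, b, c⟩ := er_ne
  intro i j h
  fin_cases i <;> fin_cases j <;> simp_all

theorem cub_eq_zero {x : Qbar} : cub x = 0 ↔ x = er 0 ∨ x = er 1 ∨ x = er 2 := by
  simp [cub_eq, sub_eq_zero]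

theorem cub_er (i : Fin 3) : cub (er i) = 0 := cub_eq_zero.2 (by fin_cases i <;> simp)

/-- The point of order two attached to a root. -/
noncomputable def tp (x : Qbar) (h : cub x = 0) : EE :=
  .some x (-(WZ.a₁ * x + WZ.a₃) / 2) ((Wu_nonsingular _ _).2 (by
    simp only [cub, b₂, b₄, b₆] at h
    push_cast at h
    linear_combination (-1 / 4) * h))

theorem tp_ne (x : Qbar) (h : cub x = 0) : tp x h ≠ 0 := Point.some_ne_zero _

theorem xco_tp (x : Qbar) (h : cub x = 0) : xco (tp x h) = x := rfl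

theorem two_tp (x : Qbar) (h : cub x = 0) : 2 • tp x h = 0 := two_iff.2 (.inr h)

/-- The first point of order two. -/
noncomputable def T1 : EE := tp (er 0) (cub_er 0)

/-- The second point of order two. -/
noncomputable def T2 : EE := tp (er 1) (cub_er 1)

/-- The third point of order two. -/
noncomputable def T3 : EE := tp (er 2) (cub_er 2)

theorem xco_T1 : xco T1 = er 0 := rfl

theorem xco_T2 : xco T2 = er 1 := rfl

theorem xco_T3 : xco T3 = er 2 := rfl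

theorem two_T1 : 2 • T1 = 0 := two_tp _ _

theorem two_T2 : 2 • T2 = 0 := two_tp _ _

theorem two_T3 : 2 • T3 = 0 := two_tp _ _

theorem two_eq_zero : 2 • P = 0 ↔ P = 0 ∨ P = T1 ∨ P = T2 ∨ P = T3 := by
  constructor
  · intro h
    refine or_iff_not_imp_left.2 fun h0 => ?_
    exact (cub_eq_zero.1 ((two_iff.1 h).resolve_left h0)).imp (two_ext h0 (tp_ne _ _) h)
      (Or.imp (two_ext h0 (tp_ne _ _) h) (two_ext h0 (tp_ne _ _) h))
  · rintro (rfl | rfl | rfl | rfl)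
    exacts [smul_zero 2, two_T1, two_T2, two_T3]

theorem T_ne : T1 ≠ 0 ∧ T2 ≠ 0 ∧ T3 ≠ 0 ∧ T1 ≠ T2 ∧ T1 ≠ T3 ∧ T2 ≠ T3 :=
  ⟨tp_ne _ _, tp_ne _ _, tp_ne _ _, fun k => er_ne.1 (congrArg xco k),
    fun k => er_ne.2.1 (congrArg xco k), fun k => er_ne.2.2 (congrArg xco k)⟩

theorem neg_two (h : 2 • P = 0) : -P = P := neg_eq_of_add_eq_zero_left (two_nsmul P ▸ h)

theorem T1_add_T2 : T1 + T2 = T3 := by
  obtain ⟨a, b, -, c, -⟩ := T_ne
  rcases two_eq_zero.1 (show 2 • (T1 + T2) = 0 by rw [smul_add, two_T1, two_T2, add_zero]) with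
    k | k | k | k
  · exact absurd ((eq_neg_of_add_eq_zero_left k).trans (neg_two two_T2)) c
  · exact absurd (add_eq_left.1 k) b
  · exact absurd (add_eq_right.1 k) a
  · exact k

/-- Complex points with algebraic coordinates come from algebraic points. -/
theorem exists_pt_of_alg {R : Pt Wu ℂ} (hx : IsAlgebraic ℚ (xco R)) : ∃ P : EE, pmap jC P = R := by
  rcases R with _ | ⟨x, y, h⟩
  · exact ⟨0, map_zero _⟩
  obtain ⟨u, hu⟩ := hx.isIntegral.mem_range_algHom_of_minpoly_splits (K := Qbar)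
    (IsAlgClosed.splits _) jC.toRatAlgHom
  obtain ⟨v, hv⟩ := r0_pt u
  have h' : (Wu.baseChange ℂ).toAffine.Nonsingular (jC u) (jC v) := by
    rw [Wu_nonsingular] at hv ⊢
    simpa [map_ofNat] using congrArg jC hv
  rcases (Point.X_eq_iff (h₁ := h) (h₂ := h')).1 hu.symm with k | k
  · exact ⟨.some u v hv, k.symm⟩
  · exact ⟨-.some u v hv, by rw [map_neg, k]; rfl⟩

theorem jC_cc_pt (P : EE) : pmap jC (cc • P) = pmap (starRingEnd ℂ) (pmap jC P) := by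
  rw [smul_pt, pmap_pmap, pmap_pmap]
  exact congrArg (pmap · P) (RingHom.ext jC_cc)

end Pool.Agent.B6
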