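import Pool.Agent.Lib.MP_696deb_nt.B6.CMa
import Pool.Agent.Lib.MP_696deb_nt.B6.Red0
import Pool.Agent.Lib.MP_696deb_nt.B3.CMk

/-! Algebraic Heegner points of arbitrary conductor. -/

set_option autoImplicit false

open scoped Classical NumberTheorySymbols

namespace Pool.Agent.B6.CM

open Pool.Agent.Lib.MP_696deb_nt Pool.Agent.Lib.MP_696deb_nt.B2 Pool.Agent.Lib.MP_696deb_nt.B2.CM
open Pool.Agent.B4 (OkN HgN nn exists_hgN exists_fibN ok_neg)
open Pool.Agent.Lib.MP_696deb_nt.B3.CM (fs fs_fs fs_congr map_fs fs_mul fs_sub fs_cart fs_self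
  exists_frob_idl Gd th)

variable {N n c d e l : ℕ} {r b k f : ℤ} {τ : ℂ} {g φ : Gam} {w : Plc}

theorem disc_le {n' c' : ℕ} {x : Pc n c} {x' : Pc n' c'} (ok : Ok n c) (ok' : Ok n' c')
    (e : jP n c x = jP n' c' x') : n' * c' ^ 2 ≤ n * c ^ 2 := by
  obtain ⟨I, hI, rfl⟩ := cl_surj x
  obtain ⟨I', hI', rfl⟩ := cl_surj x'
  rw [jP_cl ok hI, jP_cl ok' hI'] at e
  obtain ⟨a, ha, rfl⟩ := jL_inj (hI.isLat ok) (hI'.isLat ok') e
  have h1 : be n c c ∈ ot (Oc n' c') := hI'.mem_of_mul fun z hz =>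
    (hI.sc ha).mul_mem (be_mem ok.m4 (by simp)) hz
  rw [cma_ot ok'.m4] at h1
  obtain ⟨u, v, h1⟩ := mem_sp2.1 h1
  have h2 : ((c : ℂ) - 2 * u - v * c') + c * dl n = v * c' * dl n' := by
    simp only [be] at h1
    push_cast at h1
    linear_combination 2 * h1
  have h3 : (c : ℝ) * √n = v * c' * √n' := by simpa [dl] using congrArg Complex.im h2
  have h4 : ((n * c ^ 2 : ℕ) : ℝ) = (v ^ 2 * (n' * c' ^ 2 : ℕ) : ℤ) := by
    push_cast
    linear_combination (c * √n + v * c' * √n') * h3 - c ^ 2 * Real.sq_sqrt (Nat.cast_nonneg n) +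
      v ^ 2 * c' ^ 2 * Real.sq_sqrt (Nat.cast_nonneg n')
  have h5 : ((n * c ^ 2 : ℕ) : ℤ) = v ^ 2 * (n' * c' ^ 2 : ℕ) := by exact_mod_cast h4
  have h6 : v ≠ 0 := by
    rintro rfl
    have := ok_neg ok
    push_cast at h5
    omega
  have h7 : 1 ≤ v ^ 2 := by have := sq_pos_of_ne_zero h6; omega
  zify at h5 ⊢
  nlinarith [mul_nonneg (Nat.cast_nonneg (α := ℤ) n') (sq_nonneg (c' : ℤ))]

/-- A polynomial vanishes at singular moduli of finitely many discriminants only. -/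
theorem exists_bound {m : Polynomial ℤ} (hm : m ≠ 0) : ∃ B : ℕ, ∀ n c, Ok n c → B < n * c ^ 2 →
    ∀ x, Polynomial.aeval (jQ n c x) m ≠ 0 := by
  let f : ℂ → ℕ := fun z => if h : ∃ p : ℕ × ℕ, Ok p.1 p.2 ∧ ∃ x, jP p.1 p.2 x = z then
    h.choose.1 * h.choose.2 ^ 2 else 0
  have h0 := (Polynomial.map_ne_zero_iff (algebraMap ℤ ℂ).injective_int).2 hm
  refine ⟨(m.map (algebraMap ℤ ℂ)).roots.toFinset.sup f, fun n c ok hn x e => hn.not_ge ?_⟩
  have h : ∃ p : ℕ × ℕ, Ok p.1 p.2 ∧ ∃ y, jP p.1 p.2 y = jP n c x := ⟨(n, c), ok, x, rfl⟩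
  obtain ⟨h1, y, h2⟩ := h.choose_spec
  refine le_trans ?_ (Finset.le_sup (f := f) (b := jP n c x) ?_)
  · simp only [f, dif_pos h]
    exact disc_le h1 ok h2
  · rw [Multiset.mem_toFinset, Polynomial.mem_roots h0, Polynomial.IsRoot,
      Polynomial.eval_map_algebraMap, ← jC_jQ ok, ← B4.GE.map_ev1]
    exact (map_eq_zero jC).2 e

theorem okN_mul (ok : OkN N n c r) (hl : l ≠ 0) (h : l.Coprime N) : OkN N n (c * l) r :=
  ⟨⟨ok.m4, ok.gt, mul_ne_zero ok.ne hl⟩, ok.root, mul_assoc n c l ▸ ok.cop.mul_left h⟩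

variable [Cw] {P : B4.GE.Par Wu N}

variable (P) in
/-- The algebraic Heegner point of a class. -/
noncomputable def yA (n c : ℕ) (r : ℤ) (x : Pc n c) : EE :=
  Function.invFun (pmap (W := Wu) jC) (yC P n c r x)

theorem K1_of_near (hw : ¬ (w.p : ℤ) ∣ WZ.Δ) {R S : EE} (h : B4.GE.Near w R S) : R - S ∈ K1 w :=
  h.elim (fun h => sub_mem (mem_K1.2 h.1) (mem_K1.2 h.2)) fun h =>
    K1_near hw (mt mem_K1.1 h.1) (mt mem_K1.1 h.2.1) h.2.2.1 h.2.2.2

variable (G : B4.GE.Geo P)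
include G

theorem jC_yA (ok : OkN N n c r) (x : Pc n c) : pmap jC (yA P n c r x) = yC P n c r x := by
  obtain ⟨τ, h, rfl⟩ := exists_hgN ok x
  refine Function.invFun_eq ?_
  rw [yC_cl P ok h]
  exact G.alg τ _ h.pos ((jC_jQ ok.toOk _).trans (h.jP ok).1)

theorem smul_av (ok : OkN N n c r) (av : ∀ x, Polynomial.aeval (jQ n c x) G.m ≠ 0) (hg : g ∈ GK n)
    (x : Pc n c) : g • yA P n c r x = yA P n c r (rho n c g * x) := by
  have key : ∀ x, yA P n c r x = G.Φ (jQ n c x) (jQ n c (nn N n c r * x)) := fun x => by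
    obtain ⟨τ, h, rfl⟩ := exists_hgN ok x
    refine pmap_injective jC ?_
    rw [jC_yA G ok, yC_cl P ok h, G.Φ_eq τ _ _ h.pos ((jC_jQ ok.toOk _).trans (h.jP ok).1)
      ((jC_jQ ok.toOk _).trans (h.jP ok).2) (av _)]
  rw [key, key, mul_left_comm, ← smul_jQ ok.toOk hg, ← smul_jQ ok.toOk hg]
  exact G.Φ_gal g _ _

theorem cc_yA (ok : OkN N n c r) (x : Pc n c) :
    pmap jC (cc • yA P n c r x + yA P n c r ((nn N n c r)⁻¹ * x⁻¹)) = P.per.unif P.t0 := by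
  rw [map_add, jC_cc_pt, jC_yA G ok, jC_yA G ok, yC_conj P ok, sub_add_cancel]

section

variable [∀ c, Fintype (Pc n c)]

theorem jC_fs (ok : OkN N n d r) (x : Pc n c) :
    pmap jC (fs c d (yA P n d r) x) = fs c d (yC P n d r) x :=
  (map_fs _ _ x).trans (fs_congr fun z _ => jC_yA G ok z)

theorem trA_inert (ok : OkN N n d r) (hl : l.Prime) (hd : d = c * l) (hJ : J(-n | l) = -1)
    (hc : ¬ l ∣ c) (z : Pc n c) : fs c d (yA P n d r) z = P.a l • yA P n c r z :=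
  pmap_injective jC (by
    rw [jC_fs G ok, tr_inert P ok hl hd hJ hc, map_zsmul, jC_yA G (hd ▸ ok).of_mul])

theorem trA_up (ok : OkN N n e r) (hl : l.Prime) (hd : d = c * l) (he : e = d * l)
    (z : Pc n d) : fs d e (yA P n e r) z = P.a l • yA P n d r z - yA P n c r (pj n c d z) :=
  pmap_injective jC (by
    rw [jC_fs G ok, tr_up P ok hl hd he, map_sub, map_zsmul, jC_yA G (he ▸ ok).of_mul,
      jC_yA G (hd ▸ (he ▸ ok).of_mul).of_mul])

theorem trA_split (ok : OkN N n d r) (hd : d = c * w.p) (h2 : w.p ≠ 2) (hJ : J(-n | w.p) = 1)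
    (hc : ¬ w.p ∣ c) (hφ : IsFrob w w.p φ) (z : Pc n c) :
    fs c d (yA P n d r) z = P.a w.p • yA P n c r z - yA P n c r (rho n c φ * z) -
      yA P n c r ((rho n c φ)⁻¹ * z) := by
  have ok0 : OkN N n c r := (hd ▸ ok).of_mul
  obtain ⟨b, k, e, hb⟩ := exists_root_split ok.m4 w.prime h2 hJ hc
  refine pmap_injective jC ?_
  rw [jC_fs G ok, tr_split P ok w.prime hd e hb, map_sub, map_sub, map_zsmul, jC_yA G ok0,
    jC_yA G ok0, jC_yA G ok0]
  rcases (exists_frob_idl ok0.toOk w.prime h2 e hb rfl hφ).2 with h | h <;> rw [h]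
  rw [inv_inv, sub_right_comm]

end

/-- The action of the Galois group on Heegner points. -/
theorem smul_yA (ok : OkN N n c r) (hg : g ∈ GK n) (x : Pc n c) :
    g • yA P n c r x = yA P n c r (rho n c g * x) := by
  obtain ⟨B, hB⟩ := exists_bound G.m0
  obtain ⟨l, h1, hl⟩ := Nat.exists_infinite_primes (B + N + 1)
  have i0 := finite_Pc ok.m4 ok.gt
  let i1 : ∀ c, Fintype (Pc n c) := fun c => Fintype.ofFinite _
  have h2 : l.Coprime N := Nat.coprime_of_lt_prime ok.N_ne (by omega) hl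
  have key : ∀ d, OkN N n d r → OkN N n (d * l) r ∧ ∀ g ∈ GK n, ∀ x,
      g • yA P n (d * l) r x = yA P n (d * l) r (rho n (d * l) g * x) := fun d ok => by
    have ok1 := okN_mul ok hl.ne_zero h2
    refine ⟨ok1, fun g => smul_av G ok1 (hB _ _ ok1.toOk ?_)⟩
    have := Nat.le_of_dvd (Nat.mul_pos (by have := ok.gt; omega) (pow_pos (Nat.pos_of_ne_zero
      ok1.ne) 2)) (show l ∣ n * (d * l) ^ 2 from ⟨n * d ^ 2 * l, by ring⟩)
    omega
  obtain ⟨ok1, k1⟩ := key c ok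
  obtain ⟨ok2, k2⟩ := key _ ok1
  obtain ⟨h, -, rfl⟩ := rho_surj ok.toOk x
  have e0 := fun z => eq_sub_of_add_eq' (eq_sub_iff_add_eq.1 (trA_up G ok2 hl rfl rfl z))
  have e1 := e0 (rho n (c * l) h)
  have e2 := e0 (rho n (c * l) g * rho n (c * l) h)
  rw [map_mul, pj_rho ok1.toOk (dvd_mul_right c l)] at e2
  rw [pj_rho ok1.toOk (dvd_mul_right c l)] at e1 e2
  rw [e1, e2, smul_sub, smul_comm g, k1 g hg, ← pj_rho ok2.toOk (dvd_mul_right _ l) g, ← fs_mul,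
    fs, fs, Finset.smul_sum]
  simp only [k2 g hg]

/-- Heegner points are unramified at the odd primes of the level. -/
theorem ine_yA (ok : OkN N n c r) (hw : w.p ∣ N) (h2 : w.p ≠ 2) (hg : g ∈ Ine w) (x : Pc n c) :
    g • yA P n c r x = yA P n c r x := by
  obtain ⟨k, hk⟩ := ok.eq
  obtain ⟨u, hu⟩ := Int.natCast_dvd_natCast.2 hw
  have e : (r * c) ^ 2 + n * c ^ 2 = 4 * w.p * (u * k) := by rw [hk, hu]; ring
  have hb : ¬ (w.p : ℤ) ∣ r * c := fun h => (Nat.prime_iff_prime_int.1 w.prime).not_isUnit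
    (ok.cop_r.isUnit_of_dvd' ⟨u, hu⟩ h)
  rw [smul_yA G ok (dec_le_split h2 (jac_of_root w.prime e hb) (Ine_le w hg)),
    rho_ine_split ok.toOk e hb hg, one_mul]

theorem kron_yA (ok : OkN N n d r) (hd : d = c * w.p) (hM : ¬ w.p ∣ G.M)
    (hΔ : ¬ (w.p : ℤ) ∣ WZ.Δ) (hJ : J(-n | w.p) = -1) (hc : ¬ w.p ∣ c) (hg : IsFrob w w.p g)
    (x : Pc n d) : yA P n d r x - g • yA P n c r (pj n c d x) ∈ K1 w := by
  subst hd
  have hl := w.prime
  have h2 : w.p ≠ 2 := fun h => hM (h ▸ (dvd_mul_right 2 N).trans G.dvd)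
  obtain ⟨τ, h, e0, k, -, e1⟩ := exists_fibN ok hl h2 hJ hc (pj n c (c * w.p) x)
  obtain ⟨j, rfl⟩ := (e1 x).1 rfl
  have ok' := ok.of_mul
  obtain ⟨R, hR, i, k1, k2⟩ := G.kron w g τ _ _ hM hg h.pos
    ((jC_jQ ok'.toOk _).trans (h.jP ok').1) (V_jQ ok'.toOk w _)
    ((jC_yA G ok' _).trans (yC_cl P ok' h))
  have e3 : yA P n (c * w.p) r (cl _ (sp2 (hk w.p τ j) 1)) = R j :=
    pmap_injective jC (by rw [jC_yA G ok, yC_cl P ok (k j), hR, act_rP])
  rw [e3, ← e0]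
  by_cases hj : j = i
  · exact hj ▸ K1_of_near hΔ k1
  have hn : g ∉ GK n := fun h => by
    have k := chi_frob (B4c_not_dvd h2 (by rw [hJ]; decide)) hg
    rw [hJ, B4c_mem.1 h] at k
    exact absurd k (by decide)
  refine (K1_smul hg.1).1 ?_
  rw [smul_sub, smul_smul, smul_yA G ok' (mul_mem_GK hn hn), rho_sq ok'.toOk hn, one_mul]
  exact K1_of_near hΔ (k2 j hj)

variable [∀ c, Fintype (Pc n c)]

variable (P) in
/-- Weighted traces of Heegner points. -/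
noncomputable def wt (r : ℤ) (V : ℤˣ → ℤ) (f : ℤ) (c d : ℕ) (x : Pc n c) : EE :=
  fs c d (fun z => V (th n d f z) • yA P n d r z) x

variable {V : ℤˣ → ℤ}

theorem smul_wt (ok : OkN N n d r) (hc : c ∣ d) (h : Gd n d f) (hg : g ∈ GK n) (x : Pc n c) :
    g • wt P r V f c d x = wt P r (fun a => V (chi f g * a)) f c d (rho n c g * x) := by
  rw [wt, wt, ← pj_rho ok.toOk hc, ← fs_mul, fs, fs, Finset.smul_sum]
  refine Finset.sum_congr rfl fun z _ => ?_
  rw [smul_comm, smul_yA G ok hg, map_mul, h.th hg, ← mul_assoc, Int.units_mul_self, one_mul]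

theorem wt_trace (ok : OkN N n e r) (hl : l.Prime) (hJ : J(-n | l) = -1) (hld : ¬ l ∣ d)
    (hc : c ∣ d) (he : e = d * l) (h : Gd n d f) (x : Pc n c) :
    fs c (c * l) (wt P r V f (c * l) e) x = P.a l • wt P r V f c d x := by
  have hd : d ∣ e := he ▸ dvd_mul_right d l
  refine (fs_fs (dvd_mul_right c l) (he ▸ mul_dvd_mul_right hc l) _ x).trans ?_
  rw [wt, ← fs_fs hc hd, fs, fs, Finset.smul_sum]
  refine Finset.sum_congr rfl fun z _ => ?_
  rw [smul_comm, ← trA_inert G ok hl he hJ hld, fs, fs, Finset.smul_sum]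
  refine Finset.sum_congr rfl fun y hy => ?_
  rw [h.th_pj ok.toOk hd, (Finset.mem_filter.1 hy).2]

theorem wt_kron (ok : OkN N n e r) (hM : ¬ w.p ∣ G.M) (hΔ : ¬ (w.p : ℤ) ∣ WZ.Δ)
    (hJ : J(-n | w.p) = -1) (hld : ¬ w.p ∣ d) (hc : c ∣ d) (he : e = d * w.p) (h : Gd n d f)
    (hφ : IsFrob w w.p φ) (x : Pc n (c * w.p)) :
    wt P r V f (c * w.p) e x - φ • wt P r V f c d (pj n c (c * w.p) x) ∈ K1 w := by
  rw [wt, wt, ← fs_cart (he ▸ ok).of_mul.toOk w.prime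
    (fun h => hM (h ▸ (dvd_mul_right 2 N).trans G.dvd)) hJ hld hc rfl he, fs, fs, Finset.smul_sum,
    ← Finset.sum_sub_distrib]
  refine sum_mem fun z _ => ?_
  rw [h.th_pj ok.toOk (he ▸ dvd_mul_right _ _), smul_comm φ, ← smul_sub]
  exact zsmul_mem (kron_yA G ok he hM hΔ hJ hld hφ z) _

theorem fs_split (ok : OkN N n e r) (he : e = d * w.p) (hc : c ∣ d) (h2 : w.p ≠ 2)
    (hJ : J(-n | w.p) = 1) (hd : ¬ w.p ∣ d) (hφ : IsFrob w w.p φ) (x : Pc n c) :
    fs c e (yA P n e r) x = P.a w.p • fs c d (yA P n d r) x -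
      fs c d (yA P n d r) (rho n c φ * x) - fs c d (yA P n d r) ((rho n c φ)⁻¹ * x) := by
  rw [← fs_fs hc (he ▸ dvd_mul_right d _), fs_congr fun z _ => trA_split G ok he h2 hJ hd hφ z,
    fs_sub, fs_sub, fs_mul, fs_mul, map_inv, pj_rho (he ▸ ok).of_mul.toOk hc, sub_left_inj,
    sub_left_inj, fs, fs, Finset.smul_sum]

/-- The trace along a product of inert primes. -/
theorem fs_inert (s : Finset ℕ) (hs : ∀ l ∈ s, l.Prime ∧ J(-n | l) = -1 ∧ ¬ l ∣ c) : ∀ d,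
    d = c * ∏ l ∈ s, l → OkN N n d r → ∀ x,
      fs c d (yA P n d r) x = (∏ l ∈ s, P.a l) • yA P n c r x := by
  induction s using Finset.induction_on with
  | empty =>
    rintro d hd - x
    rw [Finset.prod_empty, mul_one] at hd
    subst hd
    rw [fs_self, Finset.prod_empty, one_smul]
  | insert l s hl ih =>
    intro d hd ok x
    obtain ⟨h1, h2, h3⟩ := hs l (Finset.mem_insert_self l s)
    have hs' := fun p hp => hs p (Finset.mem_insert_of_mem hp)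
    rw [Finset.prod_insert hl, mul_comm l, ← mul_assoc] at hd
    have h4 : ¬ l ∣ c * ∏ l ∈ s, l := fun k => (h1.dvd_mul.1 k).elim h3 fun k => by
      obtain ⟨p, hp, k⟩ := (h1.prime.dvd_finsetProd_iff _).1 k
      exact hl ((Nat.prime_dvd_prime_iff_eq h1 (hs' p hp).1).1 k ▸ hp)
    rw [← fs_fs (dvd_mul_right c _) (hd ▸ dvd_mul_right _ l),
      fs_congr fun z _ => trA_inert G ok h1 hd h2 h4 z, Finset.prod_insert hl, mul_smul,
      ← ih hs' _ rfl (hd ▸ ok).of_mul, fs, fs, Finset.smul_sum]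

end Pool.Agent.B6.CM
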