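import Pool.Agent.Lib.MP_696deb_nt.B6.SEb
import Pool.Agent.Lib.MP_696deb_nt.B6.CMb

/-! A Heegner point that is congruent to its image under the involution of Fricke. -/

set_option autoImplicit false

open scoped Classical Real

namespace Pool.Agent.B6.SE

open Pool.Agent.Lib.MP_696deb_nt Pool.Agent.Lib.MP_696deb_nt.B2 Pool.Agent.Lib.MP_696deb_nt.B2.CM
  Pool.Agent.B4.GE
open Pool.Agent.B4 (OkN HgN nn im_hk im_mul_pos)
open Pool.Agent.Lib.MP_696deb_nt.B3.CM (not_st_inert inert_two nb_hk)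

variable {N n : ℕ} {r : ℤ} {τ τ' a : ℂ} {σ : ℂ ≃+* ℂ} {g : Gam} {I I' J J' : Lt}

theorem cj_dl (hτ : 0 < τ.im) (hτ' : 0 < τ'.im) (ha : a ≠ 0)
    (h : CjS σ (sp2 τ 1) (sc a (sp2 τ' 1))) :
    σ ((2 * π) ^ 12 * Dl τ) = (2 * π / a) ^ 12 * Dl τ' := by
  have k := h.cj (L := Unif.pairOf ⟨τ, hτ⟩ one_ne_zero) (L' := Unif.pairOf ⟨τ', hτ'⟩ ha)
    (show sp2 (1 * τ) 1 = _ by rw [one_mul]) (show sp2 (a * τ') a = _ by rw [sc_sp2, mul_one])
  have e1 := Lib.MP_f8d36e_nt.cmlat_disc ⟨τ, hτ⟩ one_ne_zero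
  have e2 := Lib.MP_f8d36e_nt.cmlat_disc ⟨τ', hτ'⟩ ha
  rw [div_one] at e1
  refine (congrArg σ e1.symm).trans (Eq.trans ?_ e2)
  simp [Lib.MP_f8d36e_nt.disc, k.h2, k.h3, map_ofNat]

theorem cj_le (h : CjS σ I I') (h' : CjS σ J J') : I' ≤ J' ↔ I ≤ J :=
  ⟨fun k z hz => by simpa using h.symm.mul_mem h'.symm (a := 1) (fun _ e => by simpa using k e) hz,
    fun k z hz => by simpa using h.mul_mem h' (a := 1) (fun _ e => by simpa using k e) hz⟩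

theorem mem_nb (ho : Odd N) (hτ : 0 < τ.im) (i : Option (Fin 2)) {z : ℂ}
    (hz : z ∈ sp2 (N * τ) 1) : z ∈ nb 2 N (N * τ) i ↔ z ∈ nb 2 1 τ i := by
  obtain ⟨x, y, rfl⟩ := cmd_mem hz
  have h := (im_mul_pos ho.pos.ne' hτ).ne'
  have e : (x : ℂ) * (N * τ) = (x * N : ℤ) * τ := by push_cast; ring
  rcases i with _ | i
  · rw [cmd_mem_none h, e, cmd_mem_none hτ.ne']
    obtain ⟨m, rfl⟩ := ho
    push_cast
    rw [mul_add, mul_left_comm]
    omega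
  · rw [cmd_mem_some h, e, cmd_mem_some hτ.ne', one_mul, mul_assoc]

theorem conj_uu (ok : OkN N n 1 r) (h8 : n % 8 = 3) (ho : Odd N) (h : HgN N n 1 r τ) (e : Ex g σ)
    (hg : g ∉ GK n) (hx : rho n 1 g * (cl _ (sp2 τ 1))⁻¹ = nn N n 1 r * cl _ (sp2 τ 1)) :
    σ (jf τ) = jN N τ ∧ σ (phiJ (ut N 0 1) τ) * phiJ (ut N 0 1) τ = N ^ 12 ∧
      ∃ i k, i ≠ k ∧ σ (jf (hk 2 τ i)) = jN N (hk 2 τ k) := by
  have p := h.pos
  have n0 : (N : ℂ) ≠ 0 := Nat.cast_ne_zero.2 ok.N_ne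
  have p' := im_mul_pos ok.N_ne p
  have l1 := isLat_sp2 p.ne'
  have l2 := isLat_sp2 p'.ne'
  have iv : IsIv (Oc n 1) (sp2 (N * τ) 1) := h.mul ok ▸ ok.isIv.mul h.iv
  obtain ⟨L, c0⟩ := exists_cjS σ l1
  obtain ⟨a, ha, rfl⟩ := (cl_eq_iff iv (c0.isIv ok.toOk (cmh_dl e n) h.iv)).1 (by
    rw [cl_cj' ok.toOk hg e h.iv c0, hx, nn, ← cl_mul ok.isIv h.iv, h.mul ok])
  refine ⟨by rw [← jL_tau p, ← c0.jL, jL_sc l2 ha, jL_tau p', jN], ?_, ?_⟩
  · have c1 := c0.mul (idl n 1 N (r * (1 : ℕ))) (h.mul ok ▸ l2)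
    obtain ⟨k, hk⟩ := ok.eq
    obtain ⟨x, y, hy⟩ := ok.cop_r
    rw [show mp σ (idl n 1 N (r * (1 : ℕ))) = idl n 1 N (-(r * (1 : ℕ))) by
      rw [idl, mp_sp2, cmb_be_neg (e.dl' hg), cmb_sp2_neg, map_intCast, idl], mul_sc,
      ← h.mul ok, ← mul_assoc, mul_comm (idl _ _ _ (-_)), idl_mul_neg ok.m4 hk ⟨x, y, 0, by
        rw [zero_mul, add_zero, hy]⟩, sc_mul, mul_comm (ot _), h.iv.1, sc_sc, h.mul ok,
      Int.cast_natCast] at c1
    have e1 := cj_dl p p' ha c0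
    have e2 := cj_dl p' p (mul_ne_zero ha n0) c1
    have d1 := Dl_ne p
    have d2 := Dl_ne p'
    have d3 : (π : ℂ) ≠ 0 := Complex.ofReal_ne_zero.2 Real.pi_ne_zero
    have e3 : phiJ (ut N 0 1) τ = N ^ 12 * ((2 * π) ^ 12 * Dl (N * τ)) / ((2 * π) ^ 12 * Dl τ) := by
      rw [phi_ut one_ne_zero, act_dg]
      field_simp
    rw [e3, map_div₀, map_mul, e1, e2, map_pow, map_natCast]
    field_simp
  have t2 := Nat.prime_two
  have s2 : ¬ ((2 : ℕ) : ℤ) ∣ N := by exact_mod_cast ho.not_two_dvd_nat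
  have m := nb_mid (s := 1) t2 p.ne'
  have c2 := c0.sc (a := (2 : ℕ)) (by simp)
  have l3 := fun i => (l1.sc (a := (2 : ℕ)) (by simp)).mid l1 (m i).1.le (m i).2.le
  rw [map_natCast, cmd_sc_comm] at c2
  have c3 : ∀ i, ∃ k, CjS σ (nb 2 1 τ i) (sc a (nb 2 N (N * τ) k)) := fun i => by
    obtain ⟨K, c⟩ := exists_cjS σ (l3 i)
    obtain ⟨K, rfl⟩ := cmd_sc_surj ha K
    obtain ⟨k, rfl⟩ := cmd_mid t2 s2 p'.ne' (I := K) ((cmd_sc_lt ha).1
      ⟨(cj_le c2 c).2 (m i).1.le, fun k => (m i).1.not_ge ((cj_le c c2).1 k)⟩) ((cmd_sc_lt ha).1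
      ⟨(cj_le c c0).2 (m i).2.le, fun k => (m i).2.not_ge ((cj_le c0 c).1 k)⟩)
    exact ⟨k, c⟩
  choose f c3 using c3
  obtain ⟨i, hi⟩ : ∃ i, i ≠ f i := by
    by_contra! k
    simp only [← k] at c3
    have b : be n 1 (1 : ℕ) ∈ Oc n 1 := be_mem ok.m4 (by simp)
    obtain ⟨u, u1, -, u2⟩ := cmd_span t2 l1 (m none).1 (m none).2
    have u3 := cmd_span_lt t2 l1 (h.iv.mul_mem b ((m none).2.le u1))
    obtain ⟨j, hj⟩ : ∃ j, Submodule.span ℤ {be n 1 (1 : ℕ) * u} ⊔ sc (2 : ℕ) (sp2 τ 1) ≤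
        nb 2 1 τ j := by
      rcases eq_nb (s := 1) t2 (cmd_one t2) p.ne' le_sup_right u3.le with k | k | ⟨j, k⟩
      exacts [⟨none, k.le.trans (m none).1.le⟩, absurd k u3.ne, ⟨j, k.le⟩]
    have h1 : ∀ z ∈ nb 2 1 τ none, be n 1 (1 : ℕ) * z ∈ nb 2 1 τ j := fun z hz => by
      obtain ⟨t, ht⟩ := cmd_mem_sup (u2 ▸ hz)
      have := add_mem (hj (Submodule.mem_sup_right ((h.iv.sc (by simp)).mul_mem b ht)))
        (int_mul_mem (hj (Submodule.mem_sup_left (Submodule.mem_span_singleton_self _))) t)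
      rwa [show be n 1 (1 : ℕ) * (z - t * u) + t * (be n 1 (1 : ℕ) * u) = be n 1 (1 : ℕ) * z by
        ring] at this
    obtain rfl := cmd_nb_eq t2 s2 p'.ne' (i := none) (j := j) fun z hz => by
      have k1 := (c3 none).mul_mem (c3 j) h1 ((mul_mem_sc ha).2 hz)
      have k2 := cmd_nb_le _ _ hz
      rw [mul_left_comm, mul_mem_sc ha, cmb_be_neg (e.dl' hg), cmb_neg] at k1
      simpa [sub_mul] using add_mem k1 ((mem_nb ho p j (iv.mul_mem b k2)).2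
        (h1 z ((mem_nb ho p none k2).1 hz)))
    exact not_st_inert ok.toOk t2 (inert_two h8) t2.not_dvd_one h.iv (m none).1 (m none).2 h1
  obtain ⟨u, hu, e1⟩ := nb_hk two_pos 1 τ i
  obtain ⟨v, hv, e2⟩ := nb_hk two_pos N τ (f i)
  simp only [Int.cast_one, one_mul, Int.cast_natCast] at e1 e2
  have k := (c3 i).jL
  have q := im_mul_pos ok.N_ne (im_hk two_pos p (f i))
  rw [e1, e2, sc_sc, jL_sc (isLat_sp2 q.ne') (mul_ne_zero ha hv), jL_tau q,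
    jL_sc (isLat_sp2 (im_hk two_pos p i).ne') hu, jL_tau (im_hk two_pos p i)] at k
  exact ⟨i, f i, hi, k.symm⟩

theorem val_uu {w : Plc} {B : ValuationSubring ℂ} (hB : Over B w) (ok : OkN N n 1 r)
    (h8 : n % 8 = 3) (ho : Odd N) (h : HgN N n 1 r τ) (hi : g ∈ Ine w) (hg : g ∉ GK n)
    (hx : rho n 1 g * (cl _ (sp2 τ 1))⁻¹ = nn N n 1 r * cl _ (sp2 τ 1)) (t : Fin 3) :
    B.valuation (uu N t τ) < 1 := by
  obtain ⟨σ, e⟩ := exists_ex g
  obtain ⟨h0, h1, i, k, h2, h3⟩ := conj_uu ok h8 ho h e hg hx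
  have hj := (jC_jQ ok.toOk _).trans (h.jP ok).1
  have v := hj ▸ (hB _).1.2 (V_jQ ok.toOk w (cl _ (sp2 τ 1)))
  have key : ∀ y : ℂ, (∀ B : ValuationSubring ℂ, B.valuation (jf τ) ≤ 1 → B.valuation y ≤ 1) →
      B.valuation (y - σ y) < 1 := fun y hy => by
    obtain ⟨x, rfl⟩ := gef_alg fun B h => hy B (hj ▸ h _)
    rw [e, ← map_sub, (hB _).2, Valuation.map_sub_swap]
    exact hi.2 x ((hB x).1.1 (hy B v))
  have p := rP_pos Nat.prime_two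
  fin_cases t
  · change B.valuation (_ - _) < 1
    exact h0 ▸ key _ fun _ h => h
  · have k := fun (B : ValuationSubring ℂ) k => (val_isog (V := B.valuation) (ut_pos ok.N_ne)
      h.pos k).1
    change B.valuation (_ - _) < 1
    rw [← h1, sq, ← sub_mul, map_mul]
    exact mul_lt_one_of_nonneg_of_lt_one_left zero_le (key _ k) (k B v)
  · simp only [uu, Fin.reduceFinMk, Matrix.cons_val]
    rw [← Finset.mul_prod_erase _ _ (a := (i, k)) (by simpa using h2), map_mul, CM.act_rP 2 τ k,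
      ← h3, ← CM.act_rP]
    refine mul_lt_one_of_nonneg_of_lt_one_left zero_le (key _ fun _ k => (val_isog (p i) h.pos k).2)
      (val_prod_le _ fun x => Valuation.map_sub_le _ (val_isog (p _) h.pos v).2 ?_)
    rw [jN, ← act_dg]
    exact (val_isog (ut_pos ok.N_ne) (act_pos (p _) h.pos) (val_isog (p _) h.pos v).2).2

end Pool.Agent.B6.SE
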