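import Pool.Agent.Lib.MP_696deb_nt.B6.SEc
import Pool.Agent.Lib.MP_696deb_nt.B6.SEd
import Pool.Agent.Lib.MP_696deb_nt.B6.H0
import Pool.Agent.Lib.MP_696deb_nt.B6.CMc
import Pool.Agent.Lib.MP_696deb_nt.B6.CMx

/-! Heegner points of prime discriminant are not divisible by two. -/

set_option autoImplicit false

open scoped Classical

namespace Pool.Agent.B6.SE

open Pool.Agent.Lib.MP_696deb_nt Pool.Agent.Lib.MP_696deb_nt.B2 Pool.Agent.Lib.MP_696deb_nt.B2.CM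
  Pool.Agent.B4.GE Pool.Agent.B6.CM
open Pool.Agent.B4 (OkN HgN HRp nn exists_hgN)

variable {q : ℕ} {r : ℤ} {g : Gam}

theorem condB (hq : q.Prime) : CondB q := fun d d' h hd _ _ => by
  lift d to ℕ using hd.le
  rcases (Nat.dvd_prime hq).1 (Int.natCast_dvd_natCast.1 ⟨_, h.symm⟩) with rfl | rfl
  exacts [.inl rfl, .inr (mul_left_cancel₀ hd.ne' (h.trans (mul_one _).symm))]

theorem odd_ord (ok : Ok q 1) (hq : q.Prime) (x : Pc q 1) : ∃ k, x ^ (2 * k + 1) = 1 := by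
  obtain ⟨g, hg, rfl⟩ := rho_surj ok x
  obtain ⟨_, ⟨k, rfl⟩, h⟩ := tq_eq_one.1 (B4.tq_sep ok hq.squarefree (condB hq) hg
    fun p hp => by
      rw [hq.primeFactors, Finset.mem_singleton] at hp
      rw [hp, pst, if_neg (by have := ok.m4; omega)]
      exact B4c_mem.1 hg)
  exact ⟨k, h⟩

variable [Cs] {P : Par Wu NN}

theorem eq_zero_of_fix {S : EE} (h : 2 • S = 0) (k : ∀ g : Gam, g • S = S) : S = 0 :=
  (two_iff.1 h).resolve_right fun e => by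
    obtain ⟨x, hx⟩ := fx_top (x := xco S) fun g _ => by rw [← xco_smul, k]
    refine cub_irr x ((algebraMap ℚ Qbar).injective ?_)
    rw [map_cub, map_zero, eq_ratCast, ← hx, e]

theorem smul_out (G : Geo P) (ht : P.t0 ∈ P.L.lattice) (ok : OkN NN q 1 r) (hg : g ∉ GK q)
    (x : Pc q 1) : g • yA P q 1 r x = -yA P q 1 r (rho q 1 g * (nn NN q 1 r)⁻¹ * x⁻¹) := by
  have h1 : g * cc⁻¹ ∈ GK q := mul_mem_GK hg
    (mt (inv_mem_iff.1) (cc_notMem (by have := ok.gt; omega)))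
  have h2 := cc_yA G ok x
  rw [P.per.unif_eq_zero_iff.2 ht, ← map_zero (pmap jC)] at h2
  have h3 := rho_mul ok.toOk h1 cc
  rw [inv_mul_cancel_right, rho_cc ok.toOk, mul_one] at h3
  rw [h3, mul_assoc, ← smul_yA G ok h1, ← smul_neg,
    ← eq_neg_of_add_eq_zero_left (pmap_injective jC h2), smul_smul, inv_mul_cancel_right]

theorem seed_L (P : Par Wu NN) (ht : P.t0 ∈ P.L.lattice) (h2 : P.t0 / 2 ∉ P.L.lattice) :
    ∃ M : ℕ, M ≠ 0 ∧ ∀ q : ℕ, q.Prime → q % 8 = 3 →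
      3 < q → ¬ q ∣ M → ∀ (r : ℤ) (T : Finset Fm), 4 * (NN : ℤ) ∣ r ^ 2 + q → HRp NN (-q) r T →
        ∀ R : EE, (∀ g ∈ GK q, g • R = R) → 2 • pmap jC R ≠ ysum P.φ 1 T := by
  obtain ⟨G⟩ := P.geo
  obtain ⟨M, hM, k⟩ := red NN_odd P (phi_ne G ht h2 NN_sqf NN_odd NN_gt)
  refine ⟨M * NN, mul_ne_zero hM NN_ne, fun q hq h8 h3 hd r T hr hT R hR e => ?_⟩
  have qN : ¬ q ∣ NN := fun k => hd (k.mul_left _)
  have ok : OkN NN q 1 r := ⟨⟨by omega, h3, one_ne_zero⟩, hr, by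
    rw [mul_one]; exact hq.coprime_iff_not_dvd.2 qN⟩
  have i0 := finite_Pc ok.m4 h3
  let i1 : ∀ c, Fintype (Pc q c) := fun c => Fintype.ofFinite _
  obtain ⟨w, rfl⟩ := exists_plc hq
  obtain ⟨w2, hτ⟩ := cmh_gen ok.toOk hq.squarefree (dvd_refl w.p)
  obtain ⟨g, hg⟩ := exists_gen w2
  have g1 := hτ g hg
  have wΔ : ¬ (w.p : ℤ) ∣ WZ.Δ := mt (dvd_Δ hq).1 qN
  have e1 : 2 • R = ∑ x, yA P w.p 1 r x := pmap_injective jC (by
    have := link_sum P ok hq.squarefree (o := 1) (T := T) (by simpa using hT) squarefree_one rfl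
      (one_dvd _) fun _ _ h => h
    simp only [B3.CM.th_one ok.toOk, Units.val_one, one_smul] at this
    rw [map_nsmul, e, map_sum, Finset.sum_congr rfl fun x _ => jC_yA G ok x]
    exact this.symm)
  obtain ⟨c, hc⟩ : ∃ c, c = rho w.p 1 g * (nn NN w.p 1 r)⁻¹ := ⟨_, rfl⟩
  have e2 := smul_out G ht ok g1
  rw [← hc] at e2
  have e3 : g • R + R = 0 := eq_zero_of_fix (by
    rw [smul_add, smul_comm, e1, Finset.smul_sum, Finset.sum_congr rfl fun x _ => e2 x,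
      Finset.sum_neg_distrib, neg_add_eq_zero]
    exact Equiv.sum_comp ((Equiv.inv _).trans (Equiv.mulLeft c)) (yA P w.p 1 r)) fun s => by
      rw [smul_add, smul_smul]
      by_cases hs : s ∈ GK w.p
      · rw [hR s hs, show s * g = g * (g⁻¹ * s * g⁻¹⁻¹) by group, mul_smul,
          hR _ ((normal_GK _).conj_mem s hs g⁻¹)]
      · rw [hR _ (mul_mem_GK hs g1), add_comm, show s = g * (g⁻¹ * s) by group, mul_smul,
          hR _ (mul_mem_GK (mt inv_mem_iff.1 g1) hs)]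
  have e4 : ∑ x, yA P w.p 1 r x ∈ K1 w := by
    have := neg_mem (K1_ine wΔ hg.1 R)
    rwa [eq_neg_of_add_eq_zero_left e3, ← neg_add', neg_neg, ← two_nsmul, e1] at this
  obtain ⟨m, hm⟩ := odd_ord ok.toOk hq c
  obtain ⟨x, hx⟩ : ∃ x, c * x⁻¹ = x := ⟨c ^ (m + 1), by
    rw [mul_inv_eq_iff_eq_mul, ← pow_add, show m + 1 + (m + 1) = 2 * m + 1 + 1 by ring,
      pow_succ, hm, one_mul]⟩
  have u : ∀ y, c * y⁻¹ = y → y = x := fun y hy => by
    obtain ⟨k, hk⟩ := odd_ord ok.toOk hq (y * x⁻¹)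
    rw [mul_inv_eq_iff_eq_mul] at hx hy
    rwa [pow_succ, pow_mul, mul_pow, inv_pow, sq, sq, ← hx, ← hy, mul_inv_cancel, one_pow, one_mul,
      mul_inv_eq_one] at hk
  have e5 : ∑ y ∈ Finset.univ.erase x, yA P w.p 1 r y ∈ K1 w := by
    rw [← QuotientAddGroup.eq_zero_iff, ← QuotientAddGroup.mk'_apply, map_sum]
    refine Finset.sum_involution (fun y _ => c * y⁻¹) (fun y _ => ?_)
      (fun y hy _ k => Finset.ne_of_mem_erase hy (u y k)) (fun y hy => ?_) fun y _ => by simp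
    · rw [← map_add, QuotientAddGroup.mk'_apply, QuotientAddGroup.eq_zero_iff]
      have := neg_mem (K1_ine wΔ hg.1 (yA P w.p 1 r y))
      rwa [e2, ← neg_add', neg_neg, add_comm] at this
    · refine Finset.mem_erase.2 ⟨fun k => Finset.ne_of_mem_erase hy ?_, Finset.mem_univ _⟩
      exact inv_injective (mul_left_cancel (k.trans hx.symm))
  rw [← Finset.add_sum_erase _ _ (Finset.mem_univ x), K1 w |>.add_mem_cancel_right e5] at e4
  obtain ⟨τ, h, rfl⟩ := exists_hgN ok x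
  obtain ⟨B, hB⟩ := exists_over w
  refine k w B τ _ _ hB (fun k => hd (k.mul_right _)) h.pos ((jC_jQ ok.toOk _).trans (h.jP ok).1)
    (V_jQ ok.toOk w _) ((jC_yA G ok _).trans (yC_cl P ok h))
    (val_uu hB ok h8 NN_odd h hg.1 g1 ?_) e4
  rw [hc, mul_assoc, mul_left_comm, inv_mul_eq_iff_eq_mul] at hx
  exact hx

theorem seed_all (P : Par Wu NN) (ht : P.t0 ∈ P.L.lattice) (h2 : P.t0 / 2 ∉ P.L.lattice) :
    ∃ q : ℕ, q.Prime ∧ q % 8 = 3 ∧ 3 < q ∧ q.Coprime NN ∧ SeedC P.φ q := by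
  obtain ⟨M, hM, k⟩ := seed_L P ht h2
  obtain ⟨m, hm⟩ := NN_odd
  obtain ⟨q, h1, hq, h3⟩ := Nat.forall_exists_prime_gt_and_modEq (M + NN + 3) (q := 8 * NN)
    (a := 8 * m + 3) (mul_ne_zero (by omega) NN_ne) (Nat.isCoprime_iff_coprime.1
      ⟨-(8 * m + 5), 4 * m + 2, by rw [hm]; push_cast; ring⟩)
  obtain ⟨s, hs⟩ := h3.symm.dvd
  obtain ⟨T, hT⟩ := exists_hrp NN_ne (D := -q) (by omega) 1
  have h5 : 4 * (NN : ℤ) ∣ 1 ^ 2 + q := ⟨2 * s + 1, by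
    rw [hm] at hs ⊢; push_cast at hs ⊢; linear_combination hs⟩
  have h6 : q % 8 = 3 := by
    have := h3.of_mul_right NN
    rw [Nat.ModEq] at this
    omega
  exact ⟨q, hq, h6, by omega, (Nat.coprime_of_lt_prime NN_ne (by omega) hq), 1, T, h5, hT,
    k q hq h6 (by omega) (Nat.not_dvd_of_pos_of_lt hM.bot_lt (by omega)) 1 T h5 hT⟩

theorem seed_ex (P : Par Wu NN) (ht : P.t0 ∈ P.L.lattice) (h2 : P.t0 / 2 ∉ P.L.lattice)
    (_ : 4 < NN) (_ : NN ≠ 7) (_ : NN ≠ 15) :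
    ∃ q : ℕ, q.Prime ∧ q % 8 = 3 ∧ 3 < q ∧ q.Coprime NN ∧ SeedC P.φ q := seed_all P ht h2

end Pool.Agent.B6.SE
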