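import Pool.Agent.Lib.MP_696deb_nt.B4.GE1

/-! Hecke neighbours of the fixed point of the Fricke involution. -/

set_option autoImplicit false

open Finset Complex

namespace Pool.Agent.B6

open Pool.Agent.Lib.MP_696deb_nt Pool.Agent.B4.GE

variable {W : WeierstrassCurve ℚ} {N : ℕ}

theorem un_pair (P : Par W N) (ht : P.t0 ∈ P.L.lattice) {z : ℂ} (hz : 0 < z.im)
    (e : N * z ^ 2 = -1) {l : ℕ} (hl : l ≠ 0) {k k' : ℕ} (h : (l : ℤ) ∣ 1 + N * k * k') :
    P.φ ((z + k) / l) + P.φ ((z + k') / l) = 0 := by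
  obtain ⟨c, hc⟩ := h
  have l0 : (l : ℂ) ≠ 0 := Nat.cast_ne_zero.2 hl
  have n0 : (N : ℂ) ≠ 0 := Nat.cast_ne_zero.2 P.N0
  have p : ∀ k : ℕ, 0 < ((z + k) / l).im := fun k => by
    rw [div_natCast_im, add_im, natCast_im, add_zero]
    positivity
  have g : G0 N !![l, -k'; -(N * k), c] :=
    ⟨by rw [Matrix.det_fin_two_of]; linear_combination -hc, by simp⟩
  have h3 := den_ne' (M := !![l, -k'; -(N * k), c]) (by rw [g.1]; exact one_ne_zero) (p k')
  have h4 := P.inv0 _ g _ (p k')
  have z0 : z + k ≠ 0 := fun e => by simpa [e] using p k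
  have hc' := congrArg (Int.cast : ℤ → ℂ) hc
  simp only [den, Matrix.of_apply, Matrix.cons_val', Matrix.cons_val_zero, Matrix.cons_val_one,
    Matrix.cons_val_fin_one] at h3
  rw [show act !![l, -k'; -(N * k), c] ((z + k') / l) = -1 / (N * ((z + k) / l)) by
    rw [act_of, mob, div_eq_iff h3]
    push_cast at hc' ⊢
    field_simp
    linear_combination e - hc', P.φ_al (p k), P.per.unif_eq_zero_iff.2 ht, zero_sub] at h4
  rw [← h4, add_neg_cancel]

theorem un_hecke (P : Par W N) (ht : P.t0 ∈ P.L.lattice) {l : ℕ} (hl : l.Prime) (hN : ¬ l ∣ N)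
    (hJ : ∀ k : ZMod l, N * k ^ 2 ≠ -1) : P.a l • P.per.unif (P.t0 / 2) = 0 := by
  have n0 : (0 : ℝ) < N := Nat.cast_pos.2 P.N0.bot_lt
  obtain ⟨z, hz, e⟩ : ∃ z : ℂ, 0 < z.im ∧ N * z ^ 2 = -1 := ⟨(√(N : ℝ))⁻¹ * I, by
    simp only [mul_im, I_re, I_im, mul_zero, mul_one, ← ofReal_inv, ofReal_re, ofReal_im, add_zero]
    positivity, by
      rw [mul_pow, I_sq, ← ofReal_pow, inv_pow, Real.sq_sqrt n0.le, ofReal_inv, ofReal_natCast,
        ← mul_assoc, mul_inv_cancel₀ (Nat.cast_ne_zero.2 P.N0), one_mul]⟩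
  have z0 : z ≠ 0 := fun k => by simp [k] at hz
  have n1 : (N : ℂ) ≠ 0 := Nat.cast_ne_zero.2 P.N0
  have l0 : (l : ℂ) ≠ 0 := Nat.cast_ne_zero.2 hl.ne_zero
  have h1 := P.al z hz
  rw [show -1 / (N * z) = z by rw [div_eq_iff (mul_ne_zero n1 z0)]; linear_combination -e] at h1
  rw [show P.t0 / 2 = P.F z by linear_combination -h1 / 2, ← Par.φ, ← P.φ_hecke hl hN hz]
  obtain ⟨m, rfl⟩ := Nat.exists_eq_succ_of_ne_zero hl.ne_zero
  have := Fact.mk hl
  have n2 : (N : ZMod (m + 1)) ≠ 0 := mt (ZMod.natCast_eq_zero_iff _ _).1 hN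
  have h0 : P.φ (act (rP (m + 1) none) z) + P.φ (act (rP (m + 1) (some 0)) z) = 0 := by
    have p : 0 < (act (rP (m + 1) none) z).im := act_pos (by simp [rP, det_ut]) hz
    have := P.φ_al p
    rw [P.per.unif_eq_zero_iff.2 ht, zero_sub, show -1 / (N * act (rP (m + 1) none) z) =
      act (rP (m + 1) (some 0)) z by
        rw [act_rP_some, rP, act_dg]
        field_simp
        simp only [Fin.val_zero, Nat.cast_zero, add_zero]
        linear_combination -e] at this
    rw [this, add_neg_cancel]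
  let s : Option (ZMod (m + 1)) → Option (ZMod (m + 1)) := fun i =>
    i.elim (some 0) fun k => if k = 0 then none else some (-(N * k)⁻¹)
  refine sum_involution (fun i _ => s i) ?_ ?_ (fun _ _ => mem_univ _) ?_
  · rintro (_ | k) -
    · exact h0
    · by_cases k0 : k = 0
      · subst k0
        exact (add_comm _ _).trans h0
      · have k1 : ∀ k : ZMod (m + 1), k ≠ 0 → s (some k) = some (-(N * k)⁻¹) := fun k h => if_neg h
        have k3 : ∀ k k' : ZMod (m + 1), 1 + N * k * k' = 0 →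
            P.φ (act (rP (m + 1) (some k)) z) + P.φ (act (rP (m + 1) (some k')) z) = 0 :=
          fun k k' h => (congrArg₂ (fun a b => P.φ a + P.φ b) (act_rP_some (l := m + 1) k z)
            (act_rP_some (l := m + 1) k' z)).trans (un_pair P ht hz e hl.ne_zero
              ((ZMod.intCast_zmod_eq_zero_iff_dvd _ _).1 (by
                push_cast
                exact (congrArg₂ (fun a b : ZMod (m + 1) => 1 + N * a * b) (ZMod.natCast_zmod_val k)
                  (ZMod.natCast_zmod_val k')).trans h)))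
        have k4 : ∀ k : ZMod (m + 1), k ≠ 0 → 1 + N * k * -(N * k)⁻¹ = 0 := fun k h => by
          rw [mul_neg, mul_inv_cancel₀ (mul_ne_zero n2 h), add_neg_cancel]
        exact (congrArg (fun i => _ + P.φ (act (rP (m + 1) i) z)) (k1 k k0)).trans
          (k3 k _ (k4 k k0))
  · intro i _ _
    revert i
    change ∀ i : Option (ZMod (m + 1)), _ → _ → s i ≠ i
    rintro (_ | k) - -
    · exact nofun
    · by_cases k0 : k = 0
      · simp [s, k0]
      · simp only [s, Option.elim, if_neg k0, Ne, Option.some.injEq]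
        refine fun h => hJ k ?_
        rw [sq, ← mul_assoc]
        nth_rw 2 [← h]
        rw [mul_neg, mul_inv_cancel₀ (mul_ne_zero n2 k0)]
  · intro i _
    revert i
    change ∀ i : Option (ZMod (m + 1)), _ → s (s i) = i
    rintro (_ | k) -
    · simp [s]
    · by_cases k0 : k = 0
      · simp [s, k0]
      · simp [s, k0, n2, mul_comm]

end Pool.Agent.B6
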