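import Pool.Agent.Lib.MP_696deb_nt.B6.UNa
import Pool.Agent.Lib.MP_696deb_nt.B6.UNb
import Pool.Agent.Lib.MP_696deb_nt.B6.SEe
import Pool.Agent.Lib.MP_696deb_nt.B6.CEb

/-! The hypotheses of the converse theorem follow from a condition on the central value. -/

set_option autoImplicit false

open Classical Complex Filter Topology NumberTheorySymbols
open scoped Real UpperHalfPlane

namespace Pool.Agent.B6

open Pool.Agent.Lib.MP_696deb_nt Pool.Agent.Lib.MP_696deb_nt.B2 Pool.Agent.B4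

/-- Multiplication of the parametrization by an integer. -/
noncomputable def mdMul {W : WeierstrassCurve ℚ} {N : ℕ} (D : GE.MD W N) {m : ℤ} (hm : m ≠ 0) :
    GE.MD W N :=
  { D with
    k := m * D.k
    hk := mul_ne_zero (Int.cast_ne_zero.2 hm) D.hk
    hL := fun γ hγ τ => by
      have := D.L.lattice.smul_mem m (D.hL γ hγ τ)
      rw [zsmul_eq_mul] at this
      push_cast
      rwa [mul_assoc] }

theorem un_norm [Cw] (irr : ∀ x : ℚ, cub x ≠ 0) {N : ℕ} (hN : Squarefree N) (D : GE.MD Wu N)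
    (par : ∀ l : ℕ, l.Prime → 2 * N < l → (Even (D.c l) ↔ ∃ x : ZMod l, cub x = 0))
    (hH : ∀ m : ℤ, Odd m → m * (D.k * D.Ω) / 2 ∉ D.L.lattice) :
    (∃ s : ℤ, WZ.Δ = -(N * s ^ 2)) ∧ ∃ D' : GE.MD Wu N, D'.c = D.c ∧
      D'.par.t0 ∈ D'.par.L.lattice ∧ D'.par.t0 / 2 ∉ D'.par.L.lattice := by
  have n0 := D.N0
  have nd : ∀ {l : ℕ}, 2 * N < l → ¬ l ∣ N := fun h k => by
    have := Nat.le_of_dvd n0.bot_lt k; omega
  obtain ⟨s, hs⟩ := un_three irr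
  obtain ⟨l, l1, l2, l3, -⟩ := un_prime hs one_ne_zero (2 * N)
  have o : Odd ((l : ℤ) + 1 - D.c l) := by
    have h1 := Int.not_even_iff_odd.1 fun e => ((par l l1 l2).1 e).elim l3
    have h2 := l1.odd_of_ne_two (by omega)
    exact (((Int.odd_coe_nat l).2 h2).add_one).sub_odd h1
  have m0 : (l : ℤ) + 1 - D.c l ≠ 0 := fun e => by simp [e] at o
  have e0 : (mdMul D m0).par.t0 = ((l : ℤ) + 1 - D.c l : ℤ) * (D.k * D.Ω) := by
    rw [GE.MD.par_t0, ← mul_assoc]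
    exact congrArg (· * D.Ω) (by simp [mdMul])
  have t1 : (mdMul D m0).par.t0 ∈ D.L.lattice := by
    have := D.par.t0_kill l1 (nd l2)
    rw [← map_zsmul, D.par.per.unif_eq_zero_iff, zsmul_eq_mul] at this
    exact e0 ▸ this
  have t2 : (mdMul D m0).par.t0 / 2 ∉ D.L.lattice := e0 ▸ hH _ o
  refine ⟨un_disc irr hN (B := 2 * N) fun p p1 p2 p3 => (par p p1 p2).1 ?_, mdMul D m0, rfl, t1, t2⟩
  have := Fact.mk p1
  have h1 := un_hecke (mdMul D m0).par t1 p1 (nd p2) fun k e =>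
    ZMod.nonsquare_of_jacobiSym_eq_neg_one p3 ⟨N * k, by
      push_cast
      linear_combination -(N : ZMod p) * e⟩
  by_contra k
  obtain ⟨j, hj⟩ := Int.not_even_iff_odd.1 k
  rw [show (mdMul D m0).par.a p = 2 * j + 1 from hj, ← map_zsmul,
    (mdMul D m0).par.per.unif_eq_zero_iff, zsmul_eq_mul] at h1
  refine t2 ?_
  have := sub_mem h1 (D.L.lattice.smul_mem j t1)
  rw [zsmul_eq_mul] at this
  push_cast at this
  rwa [show (2 * j + 1) * ((mdMul D m0).par.t0 / 2) - j * (mdMul D m0).par.t0 =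
    (mdMul D m0).par.t0 / 2 by ring] at this

theorem hyp_L
    (W : WeierstrassCurve ℤ) (N : ℕ) (hN : Squarefree N) (hN2 : Odd N) (hN1 : 1 < N)
    (hrad : ∀ p : ℕ, p.Prime → (p : ℤ) ∣ W.Δ → p ∣ N) (hc4 : IsCoprime W.c₄ W.Δ)
    (h2 : ∀ x : ℚ, 4 * x ^ 3 + W.b₂ * x ^ 2 + 2 * W.b₄ * x + W.b₆ ≠ 0)
    (f : CuspForm (CongruenceSubgroup.Gamma0 N) 2) (c : ℕ → ℤ) (hc : c 1 = 1)
    (hf : ∀ τ : ℍ, HasSum (fun n : ℕ => (c n : ℂ) * cexp (2 * π * I * τ) ^ n) (f τ))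
    (hT : ∀ l : ℕ, l.Prime → ¬ l ∣ N → ∀ n : ℕ,
      c (l * n) + (if l ∣ n then l * c (n / l) else 0) = c l * c n)
    (hU : ∀ p : ℕ, p.Prime → p ∣ N → c p ^ 2 = 1 ∧ ∀ n : ℕ, c (p * n) = c p * c n)
    (hW : ∀ τ τ' : ℍ, (τ' : ℂ) = -1 / (N * τ) → f τ' = -(N * τ ^ 2) * f τ)
    (hE : ∀ l : ℕ, l.Prime → ¬ l ∣ 2 * N →
      c l = l + 1 - Nat.card (W.map (Int.castRingHom (ZMod l))).toAffine.Point)
    (F : ℂ → ℂ) (hF : ∀ z : ℂ, F z = ∑' n : ℕ, (c n : ℂ) / n * cexp (2 * π * I * z) ^ n)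
    (L : PeriodPair) (h4 : (W.c₄ : ℂ) = 12 * L.g₂) (h6 : (W.c₆ : ℂ) = 216 * L.g₃)
    (k : ℚ) (hL : ∀ γ ∈ CongruenceSubgroup.Gamma0 N, ∀ τ : ℍ,
      k * (F (γ • τ : ℍ) - F τ) ∈ L.lattice)
    (Ω : ℂ) (hΩ : Tendsto (fun y : ℝ => F (y * I)) (𝓝[>] 0) (𝓝 Ω))
    (hH : ∀ m : ℤ, Odd m → m * (k * Ω) / 2 ∉ L.lattice) :
    ∃ (C : Cs) (D : GE.MD (@Wu C.toCw) (@NN C)), @WZ C.toCw = W ∧ @NN C = N ∧ @Hyp C D := by
  have h0 : W.Δ ≠ 0 := fun e => by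
    obtain ⟨p, p1, p2⟩ := Nat.exists_infinite_primes (N + 1)
    exact absurd (Nat.le_of_dvd hN2.pos (hrad p p2 (e ▸ dvd_zero _))) (by omega)
  let C₀ : Cw := ⟨W, h0⟩
  have k0 : k ≠ 0 := fun e => hH 1 odd_one (by simp [e])
  let D₀ : GE.MD Wu N := ⟨hN.ne_zero, f, c, hc, hf, hT, hW, F, hF, L,
    ⟨Wu_c₄.trans h4, Wu_c₆.trans h6⟩, k, k0, hL, Ω, hΩ⟩
  have ht : ∀ (l : ℕ) [Fact l.Prime], ¬ l ∣ 2 * N → c l = tr l cub := fun l hl e => by
    rw [cub_fun]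
    refine (hE l hl.out e).trans ?_
    rw [card_mod (fun k => e (k ▸ dvd_mul_right _ _))
      (fun k => e ((hrad l hl.out k).mul_left _)) rfl rfl rfl, sub_sub_cancel]
    rfl
  obtain ⟨hΔ, D, e, t1, t2⟩ := un_norm h2 hN D₀ (fun l hl k => by
    have := Fact.mk hl
    have e : ¬ l ∣ 2 * N := fun e => by have := Nat.le_of_dvd (by omega) e; omega
    rw [show D₀.c l = _ from ht l e, cub_fun]
    exact even_tr' (W := WZ) (fun k => e (k ▸ dvd_mul_right _ _))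
      (fun k => e ((hrad l hl k).mul_left _)) rfl rfl rfl) hH
  let C : Cs := @Cs.mk C₀ N hN hN2 hN1 hΔ hrad hc4 h2
  refine ⟨C, D, rfl, rfl, fun p h1 h2 => ?_, fun l hl k => ?_, fun k => t2 (by
      rw [show D.par.t0 = 0 from k, zero_div]; exact zero_mem _),
    SE.seed_all D.par t1 t2⟩
  · rw [e]
    exact hU p h1 h2
  · rw [e]
    exact ht l k

end Pool.Agent.B6
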