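import Pool.Agent.Lib.MP_696deb_nt.B6.SEb
import Pool.Agent.Lib.MP_696deb_nt.B6.Red0

/-! The parametrization at the fixed points of the involution of Fricke. -/

set_option autoImplicit false

open scoped Classical

namespace Pool.Agent.B6.SE

open Pool.Agent.Lib.MP_696deb_nt Pool.Agent.Lib.MP_696deb_nt.B2 Pool.Agent.Lib.MP_696deb_nt.B2.CM
  Pool.Agent.B4.GE

variable {N : ℕ} {a b c : ℤ} {z : ℂ}

/-- Fixed points of the involution. -/
structure Fx (N : ℕ) (a b c : ℤ) (z : ℂ) : Prop where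
  pos : 0 < z.im
  det : N * a ^ 2 + b * c = -1
  eq : (N : ℂ) * c * z ^ 2 - 2 * N * a * z - b = 0

theorem Fx.neg (h : Fx N a b c z) : Fx N (-a) (-b) (-c) z :=
  ⟨h.pos, by linear_combination h.det, by push_cast; linear_combination -h.eq⟩

theorem Fx.mul {l : ℕ} (h : Fx N a b (l * c) z) (hl : l ≠ 0) : Fx N a (l * b) c (l * z) :=
  ⟨ga_pos hl h.pos, by linear_combination h.det, by
    have := h.eq; push_cast at this ⊢; linear_combination (l : ℂ) * this⟩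

theorem Fx.add (h : Fx N a b c z) (i : ℤ) :
    Fx N (a + c * i) (b - 2 * N * a * i - N * c * i ^ 2) c (z + i) :=
  ⟨by simpa using h.pos, by linear_combination h.det, by push_cast; linear_combination h.eq⟩

theorem Fx.half (h : Fx N a (2 * b) c z) : Fx N a b (2 * c) (z / 2) :=
  ⟨by simpa using h.pos, by linear_combination h.det, by
    have := h.eq; push_cast at this ⊢; linear_combination (1 / 2 : ℂ) * this⟩

theorem Fx.fix (h : Fx N a b c z) (hN : N ≠ 0) :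
    act (!![a, b; c, -(N * a)] * ut N 0 1) z = z := by
  rw [act_eq_iff (by
    rw [Matrix.det_mul, Matrix.det_fin_two_of, show a * -(N * a) - b * c = 1 by
      linear_combination -h.det, one_mul]
    exact (ut_pos hN).ne') h.pos]
  simp [ut, Matrix.mul_apply]
  linear_combination h.eq

theorem Fx.jN (h : Fx N a b c z) (hN : N ≠ 0) : jN N z = jf z := by
  rw [← congrArg jf (h.fix hN), act_mul _ (ut_pos hN).ne' h.pos, jf_act (by
    rw [Matrix.det_fin_two_of]; linear_combination -h.det) (act_pos (ut_pos hN) h.pos), act_dg,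
    B4.GE.jN]

theorem Fx.alg (h : Fx N a b c z) (hN : N ≠ 0) : ∃ x, jC x = jf z ∧ ∀ w : Plc, w.V x ≤ 1 := by
  have k : IsCM _ z := isCM_of_form (a := N * c) (b := -(2 * N * a)) (c := -b) h.pos
    (by have := h.det; have : (0 : ℤ) < N := by omega
        nlinarith) (by push_cast; linear_combination h.eq)
  obtain ⟨x, hx⟩ := gef_alg fun B _ => k.val_jf B.valuation
  refine ⟨x, hx, fun w => ?_⟩
  obtain ⟨B, hB⟩ := exists_over w
  exact (hB x).1.1 (hx ▸ k.val_jf B.valuation)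

theorem Fx.move (h : Fx N a b c z) (h2 : ¬ (2 ∣ b ∧ 2 ∣ c)) {M : ℤ} (hM : M ≠ 0)
    (hN : (N : ℤ) ∣ M) : ∃ g a' b' c', G0 N g ∧ IsCoprime c' M ∧ Fx N a' b' c' (act g z) := by
  have d := h.det
  obtain ⟨u, v, h3, h4⟩ := cmc_form (m := c) (b := -(2 * N * a)) (k := -(N * b)) hM (by
    by_cases k : 2 ∣ c
    · obtain ⟨e, rfl⟩ : ∃ e, b = 2 * e + 1 := ⟨b / 2, by omega⟩
      exact ⟨-(2 * e + 1) * (1 + 2 * e * N * a ^ 2), e * N * a ^ 3, a ^ 2, by
        linear_combination -(1 + 2 * e * N * a ^ 2) * d⟩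
    · obtain ⟨e, rfl⟩ : ∃ e, c = 2 * e + 1 := ⟨c / 2, by omega⟩
      exact ⟨1 + 2 * e * b, -(e * a), 0, by linear_combination 2 * e * d⟩)
  obtain ⟨x, y, h5⟩ := h4.of_isCoprime_of_dvd_right hN
  obtain ⟨s, p, h6⟩ : IsCoprime u (N * v) := IsCoprime.mul_right
    ⟨x * c * u, y - x * (2 * a * u * v + b * v ^ 2), by linear_combination h5⟩ h3
  have h7 : G0 N !![s, p; -(N * v), u] :=
    ⟨by rw [Matrix.det_fin_two_of]; linear_combination h6, by simp⟩
  refine ⟨_, s * a * u + s * b * v + p * c * u - p * N * a * v,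
    b * s ^ 2 - 2 * N * a * p * s - N * c * p ^ 2, _, h7, h4,
    act_pos (by rw [h7.1]; exact one_pos) h.pos,
    by linear_combination (s * u + p * (N * v)) ^ 2 * d - (s * u + p * (N * v) + 1) * h6, ?_⟩
  have h8 := den_ne' (M := !![s, p; -(N * v), u]) (by rw [h7.1]; exact one_ne_zero) h.pos
  simp only [den, Matrix.of_apply, Matrix.cons_val', Matrix.cons_val_zero, Matrix.cons_val_one,
    Matrix.cons_val_fin_one] at h8
  have e := mul_div_cancel₀ ((s : ℂ) * z + p) h8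
  rw [act_of, mob]
  generalize ((s : ℂ) * z + p) / ((-(N * v) : ℤ) * z + u) = t at e
  refine mul_left_cancel₀ (pow_ne_zero 2 h8) ?_
  push_cast at e ⊢
  linear_combination (s * u + p * (N * v) : ℂ) ^ 2 * h.eq + (N * (c * u ^ 2 - 2 * N * a * u * v -
    N * b * v ^ 2) * ((u - N * v * z) * t + s * z + p) - 2 * N * (s * a * u + s * b * v +
      p * c * u - p * N * a * v) * (u - N * v * z) : ℂ) * e

theorem sq_eq (hN : Squarefree N) {t k : ℤ} (h : t ^ 2 = k * N) : ∃ y, N * y ^ 2 = k := by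
  obtain ⟨y, rfl⟩ := ((Int.squarefree_natCast.2 hN).dvd_pow_iff_dvd two_ne_zero).1
    ⟨k, h.trans (mul_comm _ _)⟩
  exact ⟨y, mul_right_cancel₀ (Int.natCast_ne_zero.2 hN.ne_zero) (by linear_combination h)⟩

theorem exists_fx (hN : Squarefree N) (ho : Odd N) (h4 : 1 < N) (hz : 0 < z.im) (h0 : uu N 0 z = 0)
    (h1 : uu N 1 z = 0) : ∃ a b c, Fx N a b c z := by
  have n0 := hN.ne_zero
  obtain ⟨k, k1, k2⟩ := G5.exists_sl (ga_pos n0 hz) hz (sub_eq_zero.1 h0)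
  have d : (k * ut N 0 1).det = N := by simp [k1, det_ut]
  have e : act (k * ut N 0 1) z = z := by rw [act_mul _ (ut_pos n0).ne' hz, act_dg, ← k2]
  have e1 := phi_of_fixed hz e
  have e2 := den_add_div (by omega) hz e
  have e3 := mul_div_cancel₀ (N : ℂ) (den_ne' (M := k * ut N 0 1) (by omega) hz)
  rw [phi_mul _ (ut_pos n0) hz, phi_det_one k1 (act_pos (ut_pos n0) hz), one_mul] at e1
  replace h1 : phiJ (ut N 0 1) z ^ 2 - N ^ 12 = 0 := h1
  rw [e1] at h1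
  rw [d, Int.cast_natCast] at e2 h1
  generalize (N : ℂ) / den (k * ut N 0 1) z = y at h1 e2 e3
  generalize den (k * ut N 0 1) z = x at e2 e3
  have e4 : y ^ 12 = x ^ 12 := mul_left_cancel₀ (pow_ne_zero 12 (right_ne_zero_of_mul
    (e3 ▸ Nat.cast_ne_zero.2 n0))) (by rw [← e3] at h1; linear_combination h1)
  have e5 : (k * ut N 0 1).trace = 0 ∨ N = 3 ∧ (k * ut N 0 1).trace ^ 2 = 9 := by
    rw [or_iff_not_imp_right]
    intro e5
    generalize (k * ut N 0 1).trace = t at e2 e5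
    have e6 : (t ^ 2 - 4 * N) * (t ^ 2 - 1 * N) * (t ^ 2 - 3 * N) * (t ^ 2 - 2 * N) *
        ((t ^ 2 - 2 * N) ^ 2 - 3 * N ^ 2) * t = 0 := by
      refine Int.cast_injective (α := ℂ) ?_
      push_cast
      rw [← e2, ← e3]
      linear_combination (y - x) * e4
    have e7 : ∀ k : ℤ, 0 < k → k ≤ 4 → t ^ 2 - k * N ≠ 0 := fun k k1 k2 h => by
      obtain ⟨y, rfl⟩ := sq_eq hN (sub_eq_zero.1 h)
      have := Int.le_of_dvd k1 (dvd_mul_right _ _)
      obtain rfl : N = 3 := by obtain ⟨m, rfl⟩ := ho; omega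
      exact e5 ⟨rfl, by push_cast at h k1 k2; omega⟩
    refine (mul_eq_zero.1 e6).resolve_left (mul_ne_zero (mul_ne_zero (mul_ne_zero (mul_ne_zero
      (e7 4 (by omega) le_rfl) (e7 1 (by omega) (by omega))) (e7 3 (by omega) (by omega)))
      (e7 2 (by omega) (by omega))) fun h => ?_)
    obtain ⟨y, hy⟩ := (Int.pow_dvd_pow_iff two_ne_zero).1
      (show (N : ℤ) ^ 2 ∣ (t ^ 2 - 2 * N) ^ 2 from ⟨3, by linear_combination h⟩)
    have : y ^ 2 = 3 := mul_left_cancel₀ (pow_ne_zero 2 (Int.natCast_ne_zero.2 n0)) (by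
      rw [hy] at h; linear_combination h)
    have h1 : y ≤ 2 := by nlinarith
    have h2 : -2 ≤ y := by nlinarith
    interval_cases y <;> omega
  rw [act_eq_iff (by omega) hz] at e
  rw [Matrix.det_fin_two] at k1
  simp [ut, Matrix.mul_apply, Matrix.trace_fin_two] at e e5
  rcases e5 with e5 | ⟨rfl, e5⟩
  · have e6 := congrArg (Int.cast : ℤ → ℂ) e5
    push_cast at e6
    exact ⟨k 0 0, k 0 1, k 1 0, hz, by linear_combination k 0 0 * e5 - k1,
      by linear_combination e - z * e6⟩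
  obtain ⟨s, hs⟩ : (3 : ℤ) ∣ k 0 0 * (3 : ℕ) + k 1 1 :=
    Int.prime_three.dvd_of_dvd_pow (n := 2) ⟨3, e5⟩
  have e6 := congrArg (Int.cast : ℤ → ℂ) hs
  rw [hs] at e5
  push_cast at e6 hs e
  exact ⟨2 * k 0 0 - s, 2 * k 0 1, 2 * k 1 0, hz, by
    push_cast
    nlinarith [congrArg (k 0 0 * ·) hs], by push_cast; linear_combination 2 * e - 2 * z * e6⟩

theorem Fx.conj {a' b' c' : ℤ} {z' : ℂ} (h : Fx N a b c z) (h' : Fx N a' b' c' z')
    (hN : Squarefree N) (ho : Odd N) (e : jf z' = jf z) :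
    (∃ g, G0 N g ∧ z' = act g z) ∧ (2 ∣ b' ∧ 2 ∣ c' → 2 ∣ b ∧ 2 ∣ c) := by
  obtain ⟨g, g1, rfl⟩ := G5.exists_sl h.pos h'.pos e
  have d := h.det
  have d' := h'.det
  have e1 := h'.eq
  have e2 := mul_div_cancel₀ ((g 0 0 : ℂ) * z + g 0 1) (den_ne' (M := g) (by omega) h.pos)
  have g2 := Matrix.det_fin_two g ▸ g1
  rw [act, mob] at e1
  rw [den] at e2
  generalize ((g 0 0 : ℂ) * z + g 0 1) / (g 1 0 * z + g 1 1) = t at e1 e2
  obtain ⟨A, hA⟩ : ∃ A, A = N * c' * g 0 0 ^ 2 - 2 * N * a' * g 0 0 * g 1 0 - b' * g 1 0 ^ 2 :=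
    ⟨_, rfl⟩
  obtain ⟨B, hB⟩ : ∃ B, B = N * c' * g 0 0 * g 0 1 - N * a' * (g 0 0 * g 1 1 + g 0 1 * g 1 0) -
    b' * g 1 0 * g 1 1 := ⟨_, rfl⟩
  obtain ⟨C, hC⟩ : ∃ C, C = N * c' * g 0 1 ^ 2 - 2 * N * a' * g 0 1 * g 1 1 - b' * g 1 1 ^ 2 :=
    ⟨_, rfl⟩
  have e3 : (A : ℂ) * z ^ 2 + 2 * B * z + C = 0 := by
    rw [hA, hB, hC]
    push_cast
    linear_combination (g 1 0 * z + g 1 1 : ℂ) ^ 2 * e1 - (N * c' * ((g 1 0 * z + g 1 1) * t +
      g 0 0 * z + g 0 1) - 2 * N * a' * (g 1 0 * z + g 1 1) : ℂ) * e2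
  have e4 : B ^ 2 - A * C = -N := by
    rw [hA, hB, hC]
    linear_combination N * (g 0 0 * g 1 1 - g 0 1 * g 1 0) ^ 2 * d' -
      N * (g 0 0 * g 1 1 - g 0 1 * g 1 0 + 1) * g2
  obtain ⟨e5, e6⟩ := tau_indep h.pos.ne' (x := 2 * (N * c * B + A * N * a)) (y := N * c * C + A * b)
    (by push_cast; linear_combination N * c * e3 - A * h.eq)
  have n0 : (N : ℤ) ≠ 0 := Int.natCast_ne_zero.2 hN.ne_zero
  have c0 : c ≠ 0 := by
    rintro rfl
    have : 0 ≤ N * a ^ 2 := by positivity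
    omega
  have e7 : A ^ 2 = (N * c) ^ 2 := mul_left_cancel₀ n0 (by
    replace e5 : N * c * B + A * N * a = 0 := by omega
    linear_combination -(N * c) ^ 2 * e4 + (N * c * B - A * N * a) * e5 - A * N * c * e6 +
      A ^ 2 * N * d)
  have e8 : C ^ 2 = b ^ 2 := mul_left_cancel₀ (pow_ne_zero 2 (mul_ne_zero n0 c0)) (by
    linear_combination (N * c * C - A * b) * e6 + b ^ 2 * e7)
  refine ⟨⟨g, ⟨g1, ?_⟩, rfl⟩, ?_⟩
  · obtain ⟨s, hs⟩ := (Int.pow_dvd_pow_iff two_ne_zero).1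
      (show (N : ℤ) ^ 2 ∣ A ^ 2 from ⟨_, e7.trans (mul_pow _ _ _)⟩)
    exact ((Int.squarefree_natCast.2 hN).dvd_pow_iff_dvd two_ne_zero).1
      ⟨c' * (s - c' * g 0 0 ^ 2 + 2 * a' * g 0 0 * g 1 0) - a' ^ 2 * g 1 0 ^ 2, by
        linear_combination g 1 0 ^ 2 * d' + c' * hs - c' * hA⟩
  · rintro ⟨⟨u, rfl⟩, v, rfl⟩
    have p := Int.prime_two
    refine ⟨p.dvd_of_dvd_pow (n := 2) (e8 ▸ Dvd.dvd.pow ⟨N * v * g 0 1 ^ 2 - N * a' * g 0 1 * g 1 1 -
      u * g 1 1 ^ 2, by rw [hC]; ring⟩ two_ne_zero), (p.dvd_or_dvd (p.dvd_of_dvd_pow (n := 2)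
        (e7 ▸ Dvd.dvd.pow ⟨N * v * g 0 0 ^ 2 - N * a' * g 0 0 * g 1 0 - u * g 1 0 ^ 2, by
          rw [hA]; ring⟩ two_ne_zero))).resolve_left (by exact_mod_cast ho.not_two_dvd_nat)⟩

theorem Fx.nbr (h : Fx N a (2 * b) (2 * c) z) (ho : Odd N) : ∃ t : Option (Fin 2) → ℤ,
    ¬ 2 ∣ ∑ i, t i ∧ ∀ i, ∃ a b c, Fx N a b c (act (rP 2 i) z) ∧ (2 ∣ b ∧ 2 ∣ c ↔ 2 ∣ t i) := by
  refine ⟨fun i => i.elim c fun i => b - N * a * (i : ℕ) - N * c * (i : ℕ) ^ 2, ?_, ?_⟩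
  · have d := h.det
    obtain ⟨m, rfl⟩ := ho
    obtain ⟨e, rfl⟩ : ∃ e, a = 2 * e + 1 := by
      rcases Int.even_or_odd' a with ⟨e, rfl | rfl⟩
      · exact absurd d (by rw [mul_pow, mul_left_comm, mul_assoc 2]; omega)
      · exact ⟨e, rfl⟩
    simp [mul_add, add_mul, mul_assoc, mul_left_comm (m : ℤ) 2]
    omega
  rintro (_ | i)
  · rw [act_none]
    exact ⟨_, _, _, Fx.mul (l := 2) h two_ne_zero, by simp⟩
  · have k := h.add (i : ℕ)
    rw [show 2 * b - 2 * N * a * (i : ℕ) - N * (2 * c) * (i : ℕ) ^ 2 =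
      2 * (b - N * a * (i : ℕ) - N * c * (i : ℕ) ^ 2) by ring] at k
    rw [act_rP_some]
    exact ⟨_, _, _, by exact_mod_cast k.half, by simp⟩

theorem Fx.two {W : WeierstrassCurve ℚ} {P : Par W N} (h : Fx N a b c z)
    (ht : P.t0 ∈ P.L.lattice) : 2 • P.φ z = 0 := by
  have n0 : (N : ℂ) ≠ 0 := Nat.cast_ne_zero.2 P.N0
  have z0 : z ≠ 0 := fun k => by simpa [k] using h.pos
  have h1 : G0 N !![-b, a; N * a, c] :=
    ⟨by rw [Matrix.det_fin_two_of]; linear_combination -h.det, by simp⟩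
  have h2 : 0 < (-1 / (N * z)).im := by
    simpa [act_of, mob] using act_pos (M := !![0, -1; (N : ℤ), 0])
      (by simpa using Nat.pos_of_ne_zero P.N0) h.pos
  have h3 := den_ne' (M := !![-b, a; N * a, c]) (by rw [h1.1]; exact one_ne_zero) h2
  have h4 := P.inv0 _ h1 _ h2
  simp only [den, Matrix.of_apply, Matrix.cons_val', Matrix.cons_val_zero, Matrix.cons_val_one,
    Matrix.cons_val_fin_one] at h3
  rw [show act !![-b, a; N * a, c] (-1 / (N * z)) = z by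
    rw [act_of, mob, div_eq_iff h3]
    push_cast
    field_simp
    linear_combination -h.eq, P.φ_al h.pos, P.per.unif_eq_zero_iff.2 ht, zero_sub] at h4
  rw [two_nsmul, ← eq_neg_iff_add_eq_zero, ← h4]

variable [Cw] {P : Par Wu N}

theorem fx_ne (G : Geo P) (ht : P.t0 ∈ P.L.lattice) (h2 : P.t0 / 2 ∉ P.L.lattice) (c : ℕ) :
    c.Coprime G.M → ∀ a b z, Fx N a b c z → P.φ z ≠ 0 := by
  induction c using induction_on_primes with
  | zero =>
    intro _ a b z h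
    have := h.det
    have : 0 ≤ N * a ^ 2 := by positivity
    omega
  | one =>
    intro _ a b z h e
    have k := h.add (-a)
    have n0 : (N : ℂ) ≠ 0 := Nat.cast_ne_zero.2 P.N0
    have z0 : z + (-a : ℤ) ≠ 0 := fun e => (e ▸ k.pos).false
    have h3 := P.al _ k.pos
    have h4 := congrArg (Int.cast : ℤ → ℂ) h.det
    have h5 := h.eq
    rw [show -1 / (N * (z + (-a : ℤ))) = z + (-a : ℤ) by
      rw [div_eq_iff (mul_ne_zero n0 z0)]
      push_cast at h4 h5 ⊢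
      linear_combination -h5 - h4] at h3
    rw [← P.inv0 !![1, -a; 0, 1] ⟨by simp, by simp⟩ z h.pos, Par.φ, P.per.unif_eq_zero_iff,
      show act !![1, -a; 0, 1] z = z + (-a : ℤ) by simp [act_of, mob]] at e
    exact h2 (by rwa [show P.t0 / 2 = P.F (z + (-a : ℤ)) by linear_combination -h3 / 2])
  | prime_mul l c hl ih =>
    intro hc a b z h e
    obtain ⟨w, rfl⟩ := exists_plc hl
    have hM := hl.coprime_iff_not_dvd.1 (Nat.coprime_mul_iff_left.1 hc).1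
    obtain ⟨f, hf⟩ := exists_frob w
    obtain ⟨x, hx, kx⟩ := h.alg P.N0
    obtain ⟨R, hR, i, k1, k2⟩ := G.kron w f z x 0 hM hf h.pos hx (kx w) (by rw [map_zero, e])
    have k3 := Fx.mul (Nat.cast_mul (α := ℤ) _ _ ▸ h) hl.ne_zero
    have k4 := hR none
    rw [act_none] at k4
    refine ih (Nat.coprime_mul_iff_left.1 hc).2 _ _ _ k3 ?_
    rw [← k4, K1_tors (P := R none) (m := 1)
      (fun k => hM (k ▸ (dvd_mul_right 2 N).trans G.dvd)) (mem_K1.2 ?_) (pmap_injective jC (by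
        rw [map_nsmul, k4, pow_one, k3.two ht, map_zero])), map_zero]
    by_cases hi : none = i
    · subst hi
      exact k1.elim (·.1) fun k => absurd (.inl (map_zero _)) k.2.1
    · exact (big_ga hf.1).1 ((k2 _ hi).elim (·.1) fun k => absurd (.inl rfl) k.2.1)

theorem Fx.ne (G : Geo P) (ht : P.t0 ∈ P.L.lattice) (h2 : P.t0 / 2 ∉ P.L.lattice)
    (k : Fx N a b c z) (h : ¬ (2 ∣ b ∧ 2 ∣ c)) : P.φ z ≠ 0 := by
  obtain ⟨g, a', b', c', g1, g2, g3⟩ := k.move (M := G.M) h (Int.natCast_ne_zero.2 G.M0)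
    (Int.natCast_dvd_natCast.2 ((dvd_mul_left N 2).trans G.dvd))
  rw [← P.inv0 g g1 z k.pos]
  have g4 : c'.natAbs.Coprime G.M := by simpa using Int.isCoprime_iff_nat_coprime.1 g2
  rcases Int.natAbs_eq c' with e | e
  · exact fx_ne G ht h2 _ g4 _ _ _ (e ▸ g3)
  · exact fx_ne G ht h2 _ g4 _ _ _ (by simpa only [← neg_eq_iff_eq_neg.2 e] using g3.neg)

/-- The parametrization does not vanish at the common zeros of the three functions. -/
theorem phi_ne (G : Geo P) (ht : P.t0 ∈ P.L.lattice) (h2 : P.t0 / 2 ∉ P.L.lattice)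
    (hN : Squarefree N) (ho : Odd N) (h1 : 1 < N) (z : ℂ)
    (hz : 0 < z.im) (h : ∀ t, uu N t z = 0) : P.φ z ≠ 0 := fun e => by
  obtain ⟨a, b, c, k⟩ := exists_fx hN ho h1 hz (h 0) (h 1)
  obtain ⟨⟨b, rfl⟩, c, rfl⟩ := of_not_not (mt (k.ne G ht h2) (not_not_intro e))
  obtain ⟨t, t1, t2⟩ := k.nbr ho
  choose A B C f t2 using t2
  have h3 := h 2
  simp only [uu, Matrix.cons_val, Finset.prod_eq_zero_iff, Finset.mem_filter, sub_eq_zero] at h3
  obtain ⟨⟨i, j⟩, ⟨-, ij⟩, h3⟩ := h3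
  rw [(f j).jN hN.ne_zero] at h3
  obtain ⟨⟨g, g1, g2⟩, k1⟩ := (f j).conj (f i) hN ho h3
  obtain ⟨-, k2⟩ := (f i).conj (f j) hN ho h3.symm
  have m1 : j ∈ Finset.univ.erase i := Finset.mem_erase.2 ⟨Ne.symm ij, Finset.mem_univ _⟩
  obtain ⟨m, hm⟩ := Finset.card_eq_one.1 (show ((Finset.univ.erase i).erase j).card = 1 by
    simp [Finset.card_erase_of_mem m1])
  have h4 := P.φ_hecke Nat.prime_two ho.not_two_dvd_nat hz
  rw [← Finset.add_sum_erase _ _ (Finset.mem_univ i), ← Finset.add_sum_erase _ _ m1, hm,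
    Finset.sum_singleton] at h4 t1
  rw [e, smul_zero, g2, P.inv0 g g1 _ (f j).pos, ← add_assoc, ← two_nsmul, (f j).two ht,
    zero_add] at h4
  have h5 := (t2 m).1 (of_not_not (mt ((f m).ne G ht h2) (not_not_intro h4)))
  rw [t2, t2] at k1 k2
  omega

end Pool.Agent.B6.SE
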