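import Pool.Agent.Lib.MP_696deb_nt.B6.GW0

/-! Elementary facts on cocycles and cup products for arbitrary smooth actions. -/

set_option autoImplicit false

open scoped NNReal Classical
open Finset

namespace Pool.Agent.Lib.MP_696deb_nt.B6

open Pool.Agent.Lib.MP_696deb_nt.B2

variable {M M' : Type} [AddCommGroup M] [AddCommGroup M'] {m : ℕ} {H D : Subgroup Gam} {w : Plc}
  {a : Gam → M →+ M} {a' : Gam → M' →+ M'} {b : M →+ M' →+ ZMod (2 ^ m)} {c c₁ : Gam → M}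
  {c' c₁' : Gam → M'}

theorem coc_one0 (ha : Act0 H a) (h : Coc H a c) : c 1 = 0 := by
  have e := h.2 1 H.one_mem 1 H.one_mem
  rw [mul_one, ha.one] at e
  exact left_eq_add.1 e

theorem cob_coc0 (ha : Act0 H a) (x : M) : Coc H a (cob a x) :=
  ⟨ha.sm.comp fun φ => φ x - x, fun g hg k hk => by
    simp only [cob, ha.mul g hg k hk, map_sub]
    abel⟩

theorem B1_le0 (ha : Act0 D a) : B1 D a ≤ Z1 D a := by
  rintro _ ⟨x, rfl⟩
  exact rs_mem_Z1 (cob_coc0 ha x)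

theorem Dual0.card_eq [Finite M] [Finite M'] (h : Dual0 m H a a' b) : Nat.card M' = Nat.card M := by
  have e1 : b.ker = ⊥ := (AddSubgroup.eq_bot_iff_forall _).2 fun x hx =>
    h.left x fun y => by rw [AddMonoidHom.mem_ker.1 hx, AddMonoidHom.zero_apply]
  have e2 : b.flip.ker = ⊥ := (AddSubgroup.eq_bot_iff_forall _).2 fun y hy =>
    h.right y fun x => by
      rw [← AddMonoidHom.flip_apply b x y, AddMonoidHom.mem_ker.1 hy, AddMonoidHom.zero_apply]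
  have e := pair_card b
  rw [e1, e2, AddSubgroup.card_bot, AddSubgroup.card_bot, mul_one, mul_one] at e
  exact e.symm

theorem Dual0.pow_smul (h : Dual0 m H a a' b) (x : M) : 2 ^ m • x = 0 :=
  h.left _ fun y => by
    rw [map_nsmul, AddMonoidHom.nsmul_apply, nsmul_eq_mul, ZMod.natCast_self, zero_mul]

theorem Dual0.ine (h : Dual0 m H a a' b) (hw : w.p ≠ 2) (k : ∀ σ ∈ H ⊓ Ine w, ∀ x, a σ x = x) :
    ∀ σ ∈ H ⊓ Ine w, ∀ y, a' σ y = y := by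
  intro σ hσ y
  refine sub_eq_zero.1 (h.right _ fun x => ?_)
  have e := h.eqv σ hσ.1 x y
  rw [k σ hσ, cy, cyc_ine hw hσ.2, map_one, one_mul] at e
  rw [map_sub, e, sub_self]

theorem good_dual0 {s : Finset Plc} (k : GoodA H a s) (h : Dual0 m H a a' b) : GoodA H a' s :=
  fun w hw => ⟨(k w hw).1, h.ine (k w hw).1 (k w hw).2⟩

/-- Ramification only depends on the class of the place. -/
theorem unr_smul0 (ha : Act0 H a) (h : Coc H a c) (k : ∀ σ ∈ H ⊓ Ine w, ∀ x, a σ x = x)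
    (hc : ∀ σ ∈ H ⊓ Ine w, c σ = 0) {g : Gam} (hg : g ∈ H) :
    ∀ σ ∈ H ⊓ Ine (g • w), c σ = 0 := by
  intro σ hσ
  have hτ : g⁻¹ * σ * g ∈ H ⊓ Ine w :=
    ⟨H.mul_mem (H.mul_mem (H.inv_mem hg) hσ.1) hg, mem_Ine_smul.1 hσ.2⟩
  have e0 : σ * g = g * (g⁻¹ * σ * g) := by group
  have e1 := h.2 σ hσ.1 g hg
  rw [e0, h.2 g hg _ hτ.1, hc _ hτ, map_zero, add_zero] at e1
  have e2 : ∀ x, a σ (a g x) = a g x := fun x => by
    rw [← ha.mul σ hσ.1 g hg, e0, ha.mul g hg _ hτ.1, k _ hτ]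
  have e3 : a g (a g⁻¹ (c g)) = c g := by
    rw [← ha.mul g hg _ (inv_mem hg), mul_inv_cancel, ha.one]
  have e4 := e2 (a g⁻¹ (c g))
  rw [e3] at e4
  rw [e4] at e1
  exact right_eq_add.1 e1

/-- A smooth cocycle is unramified at almost all primes. -/
theorem finite_ram0 (ha : Act0 H a) (h : Coc H a c) :
    ∃ s : Finset ℕ, ∀ w : Plc, w.p ∉ s → ∀ σ ∈ H ⊓ Ine w, c σ = 0 := by
  obtain ⟨U, u1, -, u3⟩ := h.1
  obtain ⟨s, hs⟩ := B2.finite_ram u1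
  refine ⟨s, fun w hw σ hσ => ?_⟩
  rw [← u3 1 H.one_mem σ hσ.1 (by simpa using hs w hw hσ.2), coc_one0 ha h]

theorem c2_cupb0 (hd : Dual0 m D a a' b) (h : Coc D a c) (h' : Coc D a' c') :
    C2 m D (cupb b a' c c') := by
  refine ⟨(h.1.comp₂ hd.act'.sm Prod.mk).left.comp₂ h'.1.right fun x y => b x.1 (x.2 y),
    fun g hg k hk l hl => ?_⟩
  simp only [cupb]
  rw [← hd.eqv g hg, h.2 g hg k hk, h'.2 k hk l hl, hd.act'.mul g hg k hk]
  simp only [map_add, AddMonoidHom.add_apply]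
  ring

theorem spl_cupb_left0 (hd : Dual0 m D a a' b) {x : M} (h : ∀ g ∈ D, c g = cob a x g)
    (h' : Coc D a' c') : Spl m D (cupb b a' c c') := by
  refine ⟨fun g => b x (c' g), h'.1.comp fun y => b x y, fun g hg k hk => ?_⟩
  simp only [cupb]
  rw [h g hg, h'.2 g hg k hk, cob, map_sub, AddMonoidHom.sub_apply, hd.eqv g hg, map_add]
  ring

theorem spl_cupb_right0 (hd : Dual0 m D a a' b) (h : Coc D a c) {y : M'}
    (h' : ∀ g ∈ D, c' g = cob a' y g) : Spl m D (cupb b a' c c') := by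
  refine ⟨fun g => -b (c g) (a' g y), h.1.comp₂ hd.act'.sm fun x f => -b x (f y),
    fun g hg k hk => ?_⟩
  simp only [cupb]
  rw [mul_neg, ← hd.eqv g hg, h' k hk, h.2 g hg k hk, hd.act'.mul g hg k hk, cob]
  simp only [map_add, map_sub, AddMonoidHom.add_apply]
  ring

theorem inv_cupb_left0 (F : CFT) (hH : Op H) (hd : Dual0 m (H ⊓ Dec w) a a' b) {x : M}
    (h : ∀ g ∈ H ⊓ Dec w, c g = cob a x g) (h' : Coc (H ⊓ Dec w) a' c') :
    F.inv m H w (cupb b a' c c') = 0 :=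
  (F.zero_iff hH (spl_cupb_left0 hd h h').c2).2 (spl_cupb_left0 hd h h')

theorem inv_cupb_right0 (F : CFT) (hH : Op H) (hd : Dual0 m (H ⊓ Dec w) a a' b)
    (h : Coc (H ⊓ Dec w) a c) {y : M'} (h' : ∀ g ∈ H ⊓ Dec w, c' g = cob a' y g) :
    F.inv m H w (cupb b a' c c') = 0 :=
  (F.zero_iff hH (spl_cupb_right0 hd h h').c2).2 (spl_cupb_right0 hd h h')

theorem inv_cupb_add_left0 (F : CFT) (hH : Op H) (hd : Dual0 m (H ⊓ Dec w) a a' b)
    (h : Coc (H ⊓ Dec w) a c) (h₁ : Coc (H ⊓ Dec w) a c₁) (h' : Coc (H ⊓ Dec w) a' c') :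
    F.inv m H w (cupb b a' (c + c₁) c') =
      F.inv m H w (cupb b a' c c') + F.inv m H w (cupb b a' c₁ c') :=
  (F.congr fun g _ k _ => by simp [cupb]).trans (F.add hH (c2_cupb0 hd h h') (c2_cupb0 hd h₁ h'))

theorem inv_cupb_add_right0 (F : CFT) (hH : Op H) (hd : Dual0 m (H ⊓ Dec w) a a' b)
    (h : Coc (H ⊓ Dec w) a c) (h' : Coc (H ⊓ Dec w) a' c') (h₁ : Coc (H ⊓ Dec w) a' c₁') :
    F.inv m H w (cupb b a' c (c' + c₁')) =
      F.inv m H w (cupb b a' c c') + F.inv m H w (cupb b a' c c₁') :=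
  (F.congr fun g _ k _ => by simp [cupb]).trans (F.add hH (c2_cupb0 hd h h') (c2_cupb0 hd h h₁))

/-- The cup product is anticommutative. -/
theorem inv_cupb_flip0 (F : CFT) (hH : Op H) (hd : Dual0 m (H ⊓ Dec w) a a' b)
    (h : Coc (H ⊓ Dec w) a c) (h' : Coc (H ⊓ Dec w) a' c') :
    F.inv m H w (cupb b.flip a c' c) = -F.inv m H w (cupb b a' c c') := by
  have k1 := c2_cupb0 hd.flip h' h
  have k2 := c2_cupb0 hd h h'
  rw [eq_neg_iff_add_eq_zero, ← F.add hH k1 k2, F.zero_iff hH (k1.add k2)]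
  refine ⟨fun g => -b (c g) (c' g), h.1.comp₂ h'.1 fun x y => -b x y, fun g hg k hk => ?_⟩
  simp only [cupb, Pi.add_apply, AddMonoidHom.flip_apply]
  rw [mul_neg, ← hd.eqv g hg, h.2 g hg k hk, h'.2 g hg k hk]
  simp only [map_add, AddMonoidHom.add_apply]
  ring

/-- The local pairing. -/
theorem exists_lp0 (F : CFT) (hH : Op H) (hd : Dual0 m (H ⊓ Dec w) a a' b) :
    ∃ P : Z1 (H ⊓ Dec w) a →+ Z1 (H ⊓ Dec w) a' →+ ZMod (2 ^ m),
      ∀ c c', P c c' = F.inv m H w (cupb b a' c c') :=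
  ⟨AddMonoidHom.mk' (fun c => AddMonoidHom.mk' (fun c' => F.inv m H w (cupb b a' c c'))
    fun c' c₁ => inv_cupb_add_right0 F hH hd c.2.1 c'.2.1 c₁.2.1) fun c c₁ =>
      AddMonoidHom.ext fun c' => inv_cupb_add_left0 F hH hd c.2.1 c₁.2.1 c'.2.1, fun _ _ => rfl⟩

theorem inv_cupb_unr0 (F : CFT) (hH : Op H) (hd : Dual0 m (H ⊓ Dec w) a a' b)
    (k : ∀ σ ∈ H ⊓ Ine w, ∀ y, a' σ y = y) (h : Coc (H ⊓ Dec w) a c) (h' : Coc (H ⊓ Dec w) a' c')
    (u : ∀ σ ∈ H ⊓ Ine w, c σ = 0) (u' : ∀ σ ∈ H ⊓ Ine w, c' σ = 0) :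
    F.inv m H w (cupb b a' c c') = 0 := by
  refine F.unr hH (c2_cupb0 hd h h') fun g hg l hl σ hσ τ hτ => ?_
  have hσ' : σ ∈ H ⊓ Dec w := ⟨hσ.1, hσ.2.1⟩
  rw [cupb, cupb, h.2 g hg σ hσ', h'.2 l hl τ ⟨hτ.1, hτ.2.1⟩, u σ hσ, u' τ hτ, map_zero, map_zero,
    add_zero, add_zero, hd.act'.mul g hg σ hσ', k σ hσ]

/-- The reciprocity law for cup products. -/
theorem gw_recip0 (F : CFT) (hH : Op H) (hT : TC H) (hd : Dual0 m H a a' b) {s : Finset Plc}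
    (hs : Apart H s) (hg : GoodA H a s) (h : Coc H a c) (h' : Coc H a' c')
    (u : ∀ w, Away H s w → ∀ σ ∈ H ⊓ Ine w, c σ = 0)
    (u' : ∀ w, Away H s w → ∀ σ ∈ H ⊓ Ine w, c' σ = 0) :
    ∑ w ∈ s, F.inv m H w (cupb b a' c c') = 0 :=
  F.recip s hH (c2_cupb0 hd h h') (.inl hT) hs fun w hw => inv_cupb_unr0 F hH (hd.mono inf_le_left)
    ((good_dual0 hg hd) w hw).2 (h.mono inf_le_left) (h'.mono inf_le_left) (u w hw) (u' w hw)

/-- An unramified cocycle that kills Frobenius is zero. -/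
theorem unr_zero0 (L : LD H w) (ha : Act0 (H ⊓ Dec w) a) (h : Coc (H ⊓ Dec w) a c)
    (u : ∀ σ ∈ H ⊓ Ine w, c σ = 0) (h0 : c L.φ = 0) : ∀ g ∈ H ⊓ Dec w, c g = 0 := by
  have h1 : ∀ j : ℕ, c (L.φ ^ j) = 0 := fun j => by
    induction j with
    | zero => exact coc_one0 ha h
    | succ j ih => rw [pow_succ, h.2 _ (pow_mem L.φ_mem' j) _ L.φ_mem', ih, h0, map_zero, add_zero]
  intro g hg
  obtain ⟨U, u1, -, u3⟩ := h.1
  obtain ⟨j, σ, hσ, e⟩ := L.gen g hg U u1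
  rw [← u3 _ (mul_mem (pow_mem L.φ_mem' j) (GWg_le H w hσ)) g hg e.1,
    h.2 _ (pow_mem L.φ_mem' j) _ (GWg_le H w hσ), h1, u σ hσ, map_zero, add_zero]

end Pool.Agent.Lib.MP_696deb_nt.B6
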