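import Pool.Agent.Lib.MP_696deb_nt.B6.SEa

/-! Three modular functions that cut out the fixed points of the involution of Fricke. -/

set_option autoImplicit false

open Polynomial
open scoped Classical

namespace Pool.Agent.B6.SE

open Pool.Agent.Lib.MP_696deb_nt Pool.Agent.Lib.MP_696deb_nt.B2 Pool.Agent.Lib.MP_696deb_nt.B2.CM
  Pool.Agent.B4.GE

variable {W : WeierstrassCurve ℚ} {N M : ℕ} {z : ℂ}

/-- The three functions. -/
noncomputable def uu (N : ℕ) : Fin 3 → ℂ → ℂ := ![fun z => jf z - jN N z,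
  fun z => phiJ (ut N 0 1) z ^ 2 - N ^ 12,
  fun z => ∏ p : Option (Fin 2) × Option (Fin 2) with p.1 ≠ p.2,
    (jf (act (rP 2 p.1) z) - jN N (act (rP 2 p.2) z))]

theorem mem_isog {Γ : Type*} [LinearOrderedCommGroupWithZero Γ] (V : Valuation ℂ Γ) {A : MZ}
    {m n : ℕ} (hA : A.det = m) (hn : n ≠ 0) (h : m ∣ n) :
    (fun z => jf (act A (n * z))) ∈ LR V.integer ∧ (fun z => phiJ A (n * z)) ∈ LR V.integer := by
  obtain ⟨k, rfl⟩ := h
  obtain ⟨hm, hk⟩ := mul_ne_zero_iff.1 hn
  obtain ⟨a, b, d, g, -, h1, rfl⟩ := exists_ut (M := A) (by omega)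
  rw [Matrix.det_mul, h1, one_mul, det_ut] at hA
  obtain rfl : a * d = m := by exact_mod_cast hA
  obtain ⟨ha, hd⟩ := mul_ne_zero_iff.1 hm
  have h2 : 0 < (ut a b d).det := by rw [det_ut]; positivity
  refine ⟨((lz_jf.ut_mem V (b := b) ha hd).expand hk).congr fun z hz => ?_,
    ((phi_ut_mem V (b := b) ha hd).expand hk).congr fun z hz => ?_⟩
  · rw [act_mul _ h2.ne' (ga_pos hn hz), jf_act h1 (act_pos h2 (ga_pos hn hz)), Nat.cast_mul,
      mul_assoc]
  · rw [phi_mul _ h2 (ga_pos hn hz), phi_det_one h1 (act_pos h2 (ga_pos hn hz)), one_mul,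
      Nat.cast_mul, mul_assoc]

theorem ut_pos (hN : N ≠ 0) : 0 < (ut N 0 1).det := by rw [det_ut]; positivity

theorem gi_uu (hN : Odd N) (t : Fin 3) : Gi N (N * 2) M (uu N t) := by
  have h0 := hN.pos.ne'
  have h1 : N * 2 ≠ 0 := by omega
  have h2 := fun i => (isReps_rP Nat.prime_two).det i
  have k1 : ∀ (B : ValuationSubring ℂ) (A g : MZ) (m : ℕ), A.det = m → m ∣ 2 → g.det = 1 →
      (fun z => jf (act A (act g ((N * 2 : ℕ) * z)))) ∈ LR B.valuation.integer ∧
      (fun z => jN N (act A (act g ((N * 2 : ℕ) * z)))) ∈ LR B.valuation.integer :=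
    fun B A g m hA hm hg => by
      have := Nat.pos_of_dvd_of_pos hm two_pos
      refine ⟨(mem_isog _ (A := A * g) (m := m) (by simp [hA, hg]) h1 (hm.mul_left _)).1.congr
        fun z hz => by rw [act_mul _ (by omega) (ga_pos h1 hz)],
        (mem_isog _ (A := ut N 0 1 * (A * g)) (m := N * m) (by simp [hA, hg, det_ut]) h1
          (mul_dvd_mul_left _ hm)).1.congr fun z hz => ?_⟩
      rw [act_mul _ (by simp [hA, hg]; omega) (ga_pos h1 hz), act_mul _ (by omega) (ga_pos h1 hz),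
        act_dg, jN]
  fin_cases t
  · refine ⟨fun g hg z hz => ?_, fun B _ g hg => ?_⟩
    · simp [uu, inv0_jN h0 g hg z hz, jf_act hg.1 hz]
    · have := k1 B 1 g 1 (by simp) (one_dvd _) hg
      simp only [act_one] at this
      exact sub_mem this.1 this.2
  · refine ⟨fun g hg z hz => ?_, fun B _ g hg => ?_⟩
    · obtain ⟨k, k1, k2⟩ := hg.conj
      have := phi_mul (ut N 0 1) (N := g) (by rw [hg.1]; exact one_pos) hz
      rw [phi_det_one hg.1 hz, mul_one, k2, phi_mul _ (ut_pos h0) hz,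
        phi_det_one k1 (act_pos (ut_pos h0) hz), one_mul] at this
      simp [uu, this]
    · refine sub_mem (pow_mem (LE.congr (mem_isog B.valuation (A := ut N 0 1 * g) (m := N)
        (by simp [hg, det_ut]) h1 (dvd_mul_right _ _)).2 fun z hz => ?_) 2)
        (pow_mem (natCast_mem _ N) 12)
      rw [phi_mul _ (by omega) (ga_pos h1 hz), phi_det_one hg (ga_pos h1 hz), mul_one]
  · refine ⟨fun g hg z hz => ?_, fun B _ g hg => ?_⟩
    · obtain ⟨σ, h⟩ := gee_inv Nat.prime_two hN.not_two_dvd_nat (G := fun z => (jf z, jN N z))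
        (fun g hg z hz => Prod.ext (inv0_jf g hg z hz) (inv0_jN h0 g hg z hz)) hg
      simp only [Prod.mk.injEq] at h
      simp only [uu, Fin.reduceFinMk, Matrix.cons_val, (h z hz _).1, (h z hz _).2]
      exact Finset.prod_equiv (σ.prodCongr σ) (by simp) fun _ _ => rfl
    · exact LE.congr (prod_mem (t := Finset.univ.filter fun p => p.1 ≠ p.2)
        fun (p : Option (Fin 2) × Option (Fin 2)) _ => sub_mem
        (k1 B _ g 2 (h2 p.1) dvd_rfl hg).1 (k1 B _ g 2 (h2 p.2) dvd_rfl hg).2) fun z _ => by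
          rw [Finset.prod_apply]; rfl

/-- Points at which the three functions are small do not reduce to the origin. -/
theorem red (hN : Odd N) (P : Par W N)
    (h : ∀ z : ℂ, 0 < z.im → (∀ t, uu N t z = 0) → P.φ z ≠ 0) :
    ∃ M : ℕ, M ≠ 0 ∧ ∀ (w : Plc) (B : ValuationSubring ℂ) (τ : ℂ) (x : Qbar) (Q : Pt W Qbar),
      Over B w → ¬ w.p ∣ M → 0 < τ.im → jC x = jf τ → w.V x ≤ 1 → pmap jC Q = P.φ τ →
      (∀ t, B.valuation (uu N t τ) < 1) → ¬ Big w Q := by
  obtain ⟨T, r, D, hD, e⟩ := P.two_charts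
  obtain ⟨M, hM, k⟩ := ns (T := Fin 3 ⊕ Bool) (n := N * 2)
    (M := (∏ i, (T i).e.leadingCoeff).natAbs) P.N0 (mul_ne_zero P.N0 two_ne_zero)
    (Int.natAbs_ne_zero.2 (Finset.prod_ne_zero_iff.2 fun i _ => leadingCoeff_ne_zero.2 (T i).e0))
    (f := Sum.elim (uu N) fun i z => aeval (jf z) (T i).b * ch ((T i).c : ℂ) true (P.φ z))
    (by
      rintro (t | i)
      · exact gi_uu hN t
      refine ⟨((T i).rf true).inv, fun B hB g hg => ((T i).rf true).mem P.N0 ?_ hg two_ne_zero⟩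
      refine val_eq_one_of_prod _ (a := fun i => ((T i).e.leadingCoeff : ℂ))
        (fun _ => val_int _ _) ?_ (Finset.mem_univ i)
      rw [← Int.cast_prod]
      rcases Int.natAbs_eq (∏ i, (T i).e.leadingCoeff) with k | k <;> rw [k] <;> simpa using hB)
    fun z hz => by
      by_contra! k
      obtain ⟨i, hi⟩ : ∃ i, aeval (jf z) (T i).b ≠ 0 := by
        by_contra! k
        have := congrArg (aeval (jf z)) e
        simp [k, hD, eq_comm] at this
      have h1 := h z hz fun t => k (.inl t)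
      have h2 := (mul_eq_zero.1 (k (.inr i))).resolve_left hi
      simp only [ch, cond_true, cu, if_neg h1, inv_eq_zero, sub_eq_zero] at h2
      exact ((T i).fn z hz hi).elim h1 fun k => k h2
  refine ⟨M, hM, fun w B τ x Q hB hw hτ hx hv hQ hu hb => ?_⟩
  obtain ⟨t | i, ht⟩ := k w B τ x hB hw hτ hx hv
  · exact ht (hu t)
  refine ht ?_
  rw [Sum.elim_inr]
  by_cases hi : aeval (jf τ) (T i).b = 0
  · simp [hi]
  have h1 : Fn ((T i).c : Qbar) Q := by
    rw [← fn_pmap jC, hQ, map_intCast]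
    exact (T i).fn τ hτ hi
  rw [← hQ, ← map_intCast jC, ch_pmap, ← hx, ← map_ev1, ← map_mul, (hB _).2]
  exact b2a_mul_lt w (gef_ev w hv _) ((gep_big h1).1 hb)

end Pool.Agent.B6.SE
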