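import Pool.Agent.Lib.MP_696deb_nt.B6.CEd
import Pool.Agent.Lib.MP_696deb_nt.B6.EP

/-! The certified curves, in the shape that the main theorem uses. -/

set_option autoImplicit false

namespace Pool.Agent.B6

open Pool.Agent.Lib.MP_696deb_nt Pool.Agent.Lib.MP_696deb_nt.B2 Pool.Agent.B4.GE

theorem ysum_one [Cw] (φ : ℂ → Pt Wu ℂ) (T : Finset Fm) : ysum φ 1 T = ∑ Q ∈ T, φ (froot Q) := by
  simp [ysum, gch]

/-- Modular data together with a Heegner point that is not divisible by two. -/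
def Cert [Cs] (q : ℕ) : Prop := ∃ D : MD Wu NN, New D ∧ D.par.t0 ≠ 0 ∧
  ∃ (r : ℤ) (T : Finset Fm) (P : EE), 4 * (NN : ℤ) ∣ r ^ 2 + q ∧ B4.HRp NN (-q) r T ∧
    (∀ g ∈ GK q, g • P = P) ∧ pmap jC P = ysum D.par.φ 1 T ∧
      ∀ R : EE, (∀ g ∈ GK q, g • R = R) → 2 • R ≠ P

theorem cert_of [Cs] {q : ℕ} (h : ∃ D : MD Wu NN, New D ∧ SeedK D.par.φ NN q) : Cert q := by
  obtain ⟨D, n, r, T, P, h1, h2, h3, h4, h5⟩ := h
  exact ⟨D, n, n.t0_ne, r, T, P, h1, h2, h3, h4.trans (ysum_one _ _).symm, h5⟩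

theorem SeedK.seedC [Cs] {φ : ℂ → Pt Wu ℂ} {q : ℕ} (h : SeedK φ NN q) : SeedC φ q := by
  obtain ⟨r, T, P, h1, h2, -, h4, h5⟩ := h
  refine ⟨r, T, h1, h2, fun R k e => h5 R k (pmap_injective jC ?_)⟩
  rw [map_nsmul, e, h4, ysum_one]

theorem hyp_new [Cs] {q : ℕ} (h : ∃ D : MD Wu NN, New D ∧ SeedK D.par.φ NN q) (h1 : q.Prime)
    (h2 : q % 8 = 3) (h3 : 3 < q) (h4 : q.Coprime NN) : ∃ D : MD Wu NN, Hyp D :=
  let ⟨D, n, s⟩ := h
  ⟨D, n.nw, n.tr, n.t0_ne, q, h1, h2, h3, h4, s.seedC⟩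

theorem hyp11 : ∃ D, @Hyp cs11 D :=
  @hyp_new cs11 _ md11 (by norm_num) rfl (by decide) (by decide)

theorem hyp19 : ∃ D, @Hyp cs19 D :=
  @hyp_new cs19 _ md19 (by norm_num) rfl (by decide) (by decide)

theorem c11 : @Cert cs11 19 := @cert_of cs11 _ md11

theorem c19 : @Cert cs19 67 := @cert_of cs19 _ md19

end Pool.Agent.B6
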