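import Pool.Agent.Lib.MP_696deb_nt.B6.CEa

/-! The curves of conductor eleven and nineteen. -/

set_option autoImplicit false

open scoped Classical NumberTheorySymbols
open WeierstrassCurve WeierstrassCurve.Affine

namespace Pool.Agent.B6

open Pool.Agent.Lib.MP_696deb_nt Pool.Agent.Lib.MP_696deb_nt.B2

theorem irr_of_mod {p : ℕ} (hp : p.Prime) (h2 : p ≠ 2) {a b c : ℤ}
    (h : ∀ x : ZMod p, 4 * x ^ 3 + a * x ^ 2 + 2 * b * x + c ≠ 0) (x : ℚ) :
    4 * x ^ 3 + a * x ^ 2 + 2 * b * x + c ≠ 0 := fun e => by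
  have : Fact p.Prime := ⟨hp⟩
  have e1 : 4 * x.num ^ 3 + a * x.num ^ 2 * x.den + 2 * b * x.num * x.den ^ 2 + c * x.den ^ 3 = 0 := by
    have k := x.mul_den_eq_num
    qify
    rw [← k]
    linear_combination (x.den : ℚ) ^ 3 * e
  have e2 := congrArg (Int.cast : ℤ → ZMod p) e1
  push_cast at e2
  by_cases d : (x.den : ZMod p) = 0
  · have t := B5.two_ne_zmod h2
    have k : (x.num : ZMod p) = 0 := pow_eq_zero_iff three_ne_zero |>.1
      (mul_left_cancel₀ (mul_ne_zero t t) (by rw [d] at e2; linear_combination e2))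
    rw [ZMod.intCast_zmod_eq_zero_iff_dvd, Int.natCast_dvd] at k
    exact hp.one_lt.ne' (Nat.eq_one_of_dvd_coprimes x.reduced k ((ZMod.natCast_eq_zero_iff _ _).1 d))
  · refine h (x.num / x.den) ?_
    field_simp
    linear_combination e2

theorem rad_of_dvd {D : ℤ} {N k : ℕ} (h : D ∣ N ^ k) (p : ℕ) (hp : p.Prime) (e : (p : ℤ) ∣ D) :
    p ∣ N := hp.dvd_of_dvd_pow (n := k) (by exact_mod_cast e.trans h)

theorem cw_Wu [Cw] {a b c : ℤ} (ha : WZ.b₂ = a) (hb : 2 * WZ.b₄ = b) (hc : WZ.b₆ = c) :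
    B5.Cw a b c Wu := by
  subst ha hb hc
  constructor <;> simp [Wu]

theorem Tor.kill [Cw] {t : ℕ} {x : ℤ} (h : Tor WZ t x) {S : Pt Wu ℂ} (h0 : S ≠ 0) (hx : xco S = x)
    (m : ℤ) (e : m • S = 0) : (t : ℤ) ∣ m := by
  rw [← h.ord (Int.cast_ne_zero.2 WZ_ne) Wu_bc h0 hx]
  exact addOrderOf_dvd_iff_zsmul_eq_zero.2 e

theorem nd_Δ [Cs] {l : ℕ} (hl : l.Prime) (h : ¬ l ∣ NN) : ¬ (l : ℤ) ∣ WZ.Δ := mt (dvd_Δ hl).1 h

/-- The parity of the trace. -/
theorem even_tr_iff [Cs] {l : ℕ} [hl : Fact l.Prime] (h : ¬ l ∣ 2 * NN) {a b c : ℤ}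
    (ha : WZ.b₂ = a) (hb : 2 * WZ.b₄ = b) (hc : WZ.b₆ = c) :
    Even (tr l fun x => 4 * x ^ 3 + a * x ^ 2 + b * x + c) ↔ Rt l := by
  rw [even_tr' (fun e => h (e ▸ dvd_mul_right _ _)) (nd_Δ hl.out fun e => h (e.mul_left _)) ha hb hc,
    ← ha, ← hb, ← hc, Int.cast_mul, Int.cast_ofNat]
  rfl

theorem tr_eq (l : ℕ) [Fact l.Prime] (g : ZMod l → ZMod l) :
    tr l g = -∑ x : ZMod l, if g x = 0 then 0 else if ∃ y, g x = y * y then 1 else -1 := by
  simp only [tr, quadraticChar_apply, quadraticCharFun, IsSquare]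

instance fact_five : Fact (Nat.Prime 5) := ⟨Nat.prime_five⟩

/-- The curve of conductor eleven. -/
@[reducible] def cs11 : Cs where
  W := ⟨0, -1, 1, -10, -20⟩
  ne := by decide
  N := 11
  sqf := Nat.prime_eleven.squarefree
  odd := by decide
  gt := by decide
  disc := ⟨121, by decide⟩
  rad := rad_of_dvd (k := 5) (by decide)
  cop := Int.isCoprime_iff_gcd_eq_one.2 (by decide)
  irr := irr_of_mod Nat.prime_three (by decide) (by decide)

/-- The curve of conductor nineteen. -/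
@[reducible] def cs19 : Cs where
  W := ⟨0, 1, 1, -9, -15⟩
  ne := by decide
  N := 19
  sqf := (by norm_num : Nat.Prime 19).squarefree
  odd := by decide
  gt := by decide
  disc := ⟨19, by decide⟩
  rad := rad_of_dvd (k := 3) (by decide)
  cop := Int.isCoprime_iff_gcd_eq_one.2 (by decide)
  irr := irr_of_mod Nat.prime_five (by decide) (by decide)

theorem hrp11 : B4.HRp 11 (-19) 5 {(11, 5, 1)} :=
  hrp_one (q := 19) (by decide) rfl ⟨by decide, by decide, by decide, by decide⟩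
    (Int.isCoprime_iff_gcd_eq_one.2 (by decide))

theorem hrp19 : B4.HRp 19 (-67) 3 {(19, 3, 1)} :=
  hrp_one (q := 67) (by decide +kernel) rfl ⟨by decide, by decide, by decide, by decide⟩
    (Int.isCoprime_iff_gcd_eq_one.2 (by decide))

section eleven

attribute [local instance] cs11

theorem cw11 : B5.Cw (-4) (-40) (-79) Wu := cw_Wu rfl rfl rfl

theorem tor11 : Tor WZ 5 16 := .inr ⟨rfl, 5, by decide, by decide, by decide⟩

theorem ord11 {S : Pt Wu ℂ} (h0 : S ≠ 0) (hx : xco S = 16) (m : ℤ) (e : m • S = 0) : 5 ∣ m :=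
  tor11.kill h0 (by simpa using hx) m e

theorem dvd11 {l : ℕ} [hl : Fact l.Prime] (h : ¬ l ∣ 2 * 11) : ((5 : ℕ) : ℤ) ∣ l + 1 -
    tr l fun x => 4 * x ^ 3 + (-4 : ℤ) * x ^ 2 + (-40 : ℤ) * x + (-79 : ℤ) :=
  tor11.dvd (y := 60) ((equation_iff _ _).2 (by decide)) (fun e => h (e ▸ dvd_mul_right _ _))
    (nd_Δ hl.out fun e => h (e.mul_left _)) rfl rfl rfl

theorem tr11 :
    (tr 5 fun x => 4 * x ^ 3 + (-4 : ℤ) * x ^ 2 + (-40 : ℤ) * x + (-79 : ℤ)) = 1 := by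
  rw [tr_eq]
  decide

theorem seed11 {S : Pt Wu ℂ} (h0 : S ≠ 0) (hx : xco S = -17 + 4 * (-1 / froot (11, 5, 1))) :
    ∃ P : EE, (∀ g ∈ GK 19, g • P = P) ∧ pmap jC P = S ∧
      ∀ R : EE, (∀ g ∈ GK 19, g • R = R) → 2 • R ≠ P :=
  seed_pt (p := 7) (b := 5) (c := 11) (u := -17) (v := 4) (s := 27) (t := 4) Nat.prime_seven rfl
    (by decide) (by norm_num) (by decide +kernel) (fun om h => (Wu_nonsingular _ _).2 (by
      change _ + ((0 : ℤ) : Qbar) * _ * _ + ((1 : ℤ) : Qbar) * _ =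
        _ + ((-1 : ℤ) : Qbar) * _ + ((-10 : ℤ) : Qbar) * _ + ((-20 : ℤ) : Qbar)
      push_cast at h ⊢
      linear_combination (528 - 64 * om) * h))
    (om_eq (by decide) (by decide)) h0 (by simpa using hx)

end eleven

section nineteen

attribute [local instance] cs19

theorem cw19 : B5.Cw 4 (-36) (-59) Wu := cw_Wu rfl rfl rfl

theorem tor19 : Tor WZ 3 5 := .inl ⟨rfl, by decide, by decide⟩

theorem ord19 {S : Pt Wu ℂ} (h0 : S ≠ 0) (hx : xco S = 5) (m : ℤ) (e : m • S = 0) : 3 ∣ m :=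
  tor19.kill h0 (by simpa using hx) m e

theorem dvd19 {l : ℕ} [hl : Fact l.Prime] (h : ¬ l ∣ 2 * 19) : ((3 : ℕ) : ℤ) ∣ l + 1 -
    tr l fun x => 4 * x ^ 3 + (4 : ℤ) * x ^ 2 + (-36 : ℤ) * x + (-59 : ℤ) :=
  tor19.dvd (y := 9) ((equation_iff _ _).2 (by decide)) (fun e => h (e ▸ dvd_mul_right _ _))
    (nd_Δ hl.out fun e => h (e.mul_left _)) rfl rfl rfl

theorem tr19 :
    (tr 3 fun x => 4 * x ^ 3 + (4 : ℤ) * x ^ 2 + (-36 : ℤ) * x + (-59 : ℤ)) = -2 := by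
  rw [tr_eq]
  decide

theorem seed19 {S : Pt Wu ℂ} (h0 : S ≠ 0) (hx : xco S = 5 + 3 * (-1 / froot (19, 3, 1))) :
    ∃ P : EE, (∀ g ∈ GK 67, g • P = P) ∧ pmap jC P = S ∧
      ∀ R : EE, (∀ g ∈ GK 67, g • R = R) → 2 • R ≠ P :=
  seed_pt (p := 23) (b := 3) (c := 19) (u := 5) (v := 3) (s := -10) (t := 15) (by norm_num) rfl
    (by decide) (by norm_num) (by decide +kernel) (fun om h => (Wu_nonsingular _ _).2 (by
      change _ + ((0 : ℤ) : Qbar) * _ * _ + ((1 : ℤ) : Qbar) * _ =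
        _ + ((1 : ℤ) : Qbar) * _ + ((-9 : ℤ) : Qbar) * _ + ((-15 : ℤ) : Qbar)
      push_cast at h ⊢
      linear_combination (-27 * om) * h))
    (om_eq (by decide) (by decide)) h0 (by simpa using hx)

end nineteen

end Pool.Agent.B6
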