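import Pool.Agent.Lib.MP_696deb_nt.B5.P11
import Pool.Agent.Lib.MP_696deb_nt.B5.P19
import Pool.Agent.Lib.MP_696deb_nt.B6.CEb
import Pool.Agent.Lib.MP_696deb_nt.B6.CEi

/-! Modular data and Heegner points for the curves of conductor eleven and nineteen. -/

set_option autoImplicit false

open scoped Classical
open WeierstrassCurve WeierstrassCurve.Affine

namespace Pool.Agent.B6

open Pool.Agent.Lib.MP_696deb_nt Pool.Agent.Lib.MP_696deb_nt.B2 Pool.Agent.B4.GE Pool.Agent.B5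

/-- The Heegner point of the field of discriminant `-q` is not twice a point of this field. -/
def SeedK [Cw] (φ : ℂ → Pt Wu ℂ) (N q : ℕ) : Prop := ∃ (r : ℤ) (T : Finset Fm) (P : EE),
  4 * (N : ℤ) ∣ r ^ 2 + q ∧ B4.HRp N (-q) r T ∧ (∀ g ∈ GK q, g • P = P) ∧
    pmap jC P = ∑ Q ∈ T, φ (froot Q) ∧ ∀ R : EE, (∀ g ∈ GK q, g • R = R) → 2 • R ≠ P

theorem ce_root {N b : ℤ} (hN : 0 < N) (h : fdisc (N, b, 1) < 0) : 0 < (froot (N, b, 1)).im ∧
    N * froot (N, b, 1) ^ 2 + b * froot (N, b, 1) + 1 = 0 ∧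
      -1 / froot (N, b, 1) * froot (N, b, 1) = -1 :=
  ⟨im_froot_pos h hN, by simpa using froot_root h hN,
    div_mul_cancel₀ _ (q2_ne (im_froot_pos h hN))⟩

theorem New.phi [Cw] {N : ℕ} {D : MD Wu N} (n : New D) (Q : Fm) :
    D.per.unif (D.F (froot Q)) = ∑ Q ∈ {Q}, D.par.φ (froot Q) := by
  rw [Finset.sum_singleton, MD.par_φ, n.k1, Rat.cast_one, one_mul]

section

attribute [local instance] cs11

theorem md11 : ∃ D : MD Wu NN, New D ∧ SeedK D.par.φ NN 19 := by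
  obtain ⟨R, h, D, n, s, e, -⟩ := ce_md p11 Nat.prime_eleven p11_fin p11_chk rfl rfl rfl (by decide)
    (by decide) Cs.rad (by decide : 3 ≤ 5) tor11 (y := 60) ((equation_iff _ _).2 (by decide))
    ⟨by decide, (cub_fun ▸ tr11).symm⟩ (by decide)
  obtain ⟨r1, r2, r3⟩ := ce_root (N := 11) (b := 5) (by decide) (by decide)
  obtain ⟨o, k⟩ := p11_x h s r1 (by exact_mod_cast r2) r3
  rw [← e] at o k
  obtain ⟨o1, o2⟩ := ce_phi D o
  obtain ⟨P, k1, k2, k3⟩ := seed11 o1 (o2.trans k)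
  exact ⟨D, n, 5, _, P, by decide, hrp11, k1, k2.trans (n.phi _), k3⟩

end

section

attribute [local instance] cs19

theorem md19 : ∃ D : MD Wu NN, New D ∧ SeedK D.par.φ NN 67 := by
  obtain ⟨R, h, D, n, s, e, -⟩ := ce_md p19 (by norm_num [p19]) p19_fin p19_chk rfl rfl rfl
    (by decide) (by decide) Cs.rad (le_refl 3) tor19 (y := 9) ((equation_iff _ _).2 (by decide))
    ⟨by decide, (cub_fun ▸ tr19).symm⟩ (by decide)
  obtain ⟨r1, r2, r3⟩ := ce_root (N := 19) (b := 3) (by decide) (by decide)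
  obtain ⟨o, k⟩ := p19_x h s r1 (by exact_mod_cast r2) r3
  rw [← e] at o k
  obtain ⟨o1, o2⟩ := ce_phi D o
  obtain ⟨P, k1, k2, k3⟩ := seed19 o1 (o2.trans k)
  exact ⟨D, n, 3, _, P, by decide, hrp19, k1, k2.trans (n.phi _), k3⟩

end

end Pool.Agent.B6
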