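import Pool.Agent.Lib.MP_696deb_nt.B6.CQa
import Pool.Agent.Lib.MP_696deb_nt.B6.CEd

/-! Modular data and a Heegner point for the curve of conductor thirty-five. -/

set_option autoImplicit false

open scoped Classical
open WeierstrassCurve WeierstrassCurve.Affine

namespace Pool.Agent.B5

/-- The certificate of level 35. -/
def c35 : C2 where
  p := 5
  q := 7
  a := 3
  b := 1
  c := 4
  d := 1
  ea := 4
  eb := 36
  ec := 5
  x0 := 1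
  D := -192
  β := 48
  γ := 257250000
  M := 4
  K := 3
  k := 4
  m := 9
  n := 81
  L := 81
  j := 0
  s0 := ⟨2, 2, 0, 0⟩
  cl := [
    0, 1, 0, 1, -2, -1, 0, 1, 0, -2, 0, -3, -2, 5, 0, -1, 4, 3, 0, 2, 2, 1, 0, -6, 0, 1, 0, -5,
    -2, 3, 0, -4, 0, -3, 0, -1, 4, 2, 0, 5, 0, -12, 0, -10, 6, 2, 0, 9, 4, 1, 0, 3, -10, 12, 0,
    3, 0, 2, 0, 0, 2, 8, 0, -2, -8, -5, 0, -4, -6, -6, 0, 0, 0, 2, 0, 1, -4, -3, 0, -1, -4, 1, 0,
    12, -2]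
  T := [
    (⟨0, 0, 0, 0⟩, ⟨300, 300, -300, -300⟩), (⟨-1, 1, 1, -1⟩, ⟨-330, 762, -762, 330⟩),
    (⟨1, -1, -1, 1⟩, ⟨762, -330, 330, -762⟩), (⟨-1, -1, 1, 1⟩, ⟨1666, 1666, -1666, -1666⟩),
    (⟨1, 1, -1, -1⟩, ⟨34, 34, -34, -34⟩), (⟨-2, 2, 2, -2⟩, ⟨-46, 134, -134, 46⟩),
    (⟨2, -2, -2, 2⟩, ⟨134, -46, 46, -134⟩), (⟨-2, 4, -1, -1⟩, ⟨0, 750, -375, -375⟩),
    (⟨-1, -1, 4, -2⟩, ⟨147, 147, -294, 0⟩), (⟨-1, -1, -2, 4⟩, ⟨18375, 18375, 0, -36750⟩),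
    (⟨4, -2, -1, -1⟩, ⟨6, 0, -3, -3⟩)]
  LA := [
    (22, ⟨2, 2, 0, 0⟩), (107, ⟨0, 2, 2, 0⟩), (-100, ⟨1, 1, 1, 1⟩), (107, ⟨2, 0, 0, 2⟩),
    (1905, ⟨0, 0, 2, 2⟩), (44, ⟨0, 0, 5, -1⟩), (5500, ⟨0, 0, -1, 5⟩), (4, ⟨-1, 3, 3, -1⟩),
    (4, ⟨3, -1, -1, 3⟩)]
  LB := [
    (-10, ⟨2, 2, 0, 0⟩), (-17, ⟨0, 2, 2, 0⟩), (67, ⟨1, 1, 1, 1⟩), (-17, ⟨2, 0, 0, 2⟩),
    (-363, ⟨0, 0, 2, 2⟩), (-5, ⟨0, 0, 5, -1⟩), (-625, ⟨0, 0, -1, 5⟩), (5, ⟨-1, 3, 3, -1⟩),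
    (5, ⟨3, -1, -1, 3⟩)]

theorem c35_fin : c35.Fin := by decide +kernel

theorem c35_1 : c35.c1 600 = true := by decide +kernel

theorem c35_2 : c35.d2 200 = true := by decide +kernel

theorem c35_3 : c35.d3 600 = true := by decide +kernel

end Pool.Agent.B5

namespace Pool.Agent.B6

open Pool.Agent.Lib.MP_696deb_nt Pool.Agent.Lib.MP_696deb_nt.B2 Pool.Agent.B4.GE Pool.Agent.B5

/-- The curve of conductor thirty-five. -/
@[reducible] def cs35 : Cs where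
  W := ⟨0, 1, 1, 9, 1⟩
  ne := by decide
  N := 35
  sqf := by decide +kernel
  odd := by decide
  gt := by decide
  disc := ⟨35, by decide⟩
  rad := rad_of_dvd (k := 3) (by decide)
  cop := Int.isCoprime_iff_gcd_eq_one.2 (by decide)
  irr := irr_of_mod Nat.prime_three (by decide) (by decide)

attribute [local instance] cs35

theorem md35 : ∃ D : MD Wu NN, New D ∧ SeedK D.par.φ NN 19 := by
  obtain ⟨R, h, hA, hB, hβ, hc⟩ := c35.rw Nat.prime_five Nat.prime_seven (by decide) c35_fin c35_1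
    c35_2 c35_3
  obtain ⟨D, n, s, e⟩ := new_of R h rfl rfl rfl (by decide) (by decide) Cs.rad (le_refl 3)
    (.inl ⟨rfl, by decide, by decide⟩) (y := 3) ((equation_iff _ _).2 (by decide))
    (fun l hl k => rad_of_dvd (k := 4) (by rw [hβ]; decide) l hl k)
    (by rw [hc 3 (by decide), tr_eq]; decide) fun l hl k => by
      rcases (Nat.Prime.dvd_mul hl).1 k with k | k
      · rw [(Nat.prime_dvd_prime_iff_eq hl Nat.prime_five).1 k, hc 5 (by decide)]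
        decide
      · rw [(Nat.prime_dvd_prime_iff_eq hl Nat.prime_seven).1 k, hc 7 (by decide)]
        decide
  obtain ⟨r1, r2, -⟩ := ce_root (N := 35) (b := 11) (by decide) (by decide)
  obtain ⟨φ, hφ⟩ := exists_qa (n := -35) (b := -11) (θ := 35 * froot (35, 11, 1))
    (by push_cast at r2 ⊢; linear_combination 35 * r2)
  obtain ⟨o, k⟩ := R.seed φ s hA hB r1 (hφ.trans (by norm_num [c35])) (k := 4) (K := 1) (ρ := 4)
    (g₁ := ⟨0, 1, -1, -11⟩) (g₂ := ⟨1, 5, -1, -4⟩) (g₃ := ⟨1, 7, -1, -6⟩) (u := 5) (v := 1)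
    (by decide +kernel)
  rw [← e] at o k
  obtain ⟨o1, o2⟩ := ce_phi D o
  obtain ⟨P, k1, k2, k3⟩ := seed_pt (q := 19) (p := 23) (b := -11) (c := 35) (u := 5) (v := 1)
    (s := 7) (t := 1) (by norm_num) rfl (by decide) (by norm_num) (by decide +kernel)
    (fun om h => (Wu_nonsingular _ _).2 (by
      change _ + ((0 : ℤ) : Qbar) * _ * _ + ((1 : ℤ) : Qbar) * _ =
        _ + ((1 : ℤ) : Qbar) * _ + ((9 : ℤ) : Qbar) * _ + ((1 : ℤ) : Qbar)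
      push_cast at h ⊢
      linear_combination (-4 - om) * h))
    (by rw [hφ]; push_cast at r2 ⊢; linear_combination 35 * r2) o1 (o2.trans k)
  exact ⟨D, n, 11, _, P, by decide, hrp_one (q := 19) (by decide) rfl
    ⟨by decide, by decide, by decide, by decide⟩ (Int.isCoprime_iff_gcd_eq_one.2 (by decide)),
    k1, k2.trans (n.phi _), k3⟩

end Pool.Agent.B6
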