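import Pool.Agent.Lib.MP_696deb_nt.B4.HSc
import Pool.Agent.Lib.MP_696deb_nt.B4.FIa
import Pool.Agent.Lib.MP_696deb_nt.B3.CMf

/-! Complex Heegner points of arbitrary conductor and their norm relations. -/

set_option autoImplicit false

open scoped Classical NumberTheorySymbols ComplexConjugate

namespace Pool.Agent.B6.CM

open Pool.Agent.Lib.MP_696deb_nt Pool.Agent.Lib.MP_696deb_nt.B2 Pool.Agent.Lib.MP_696deb_nt.B2.CM
open Pool.Agent.B4 (OkN HgN nn GEq exists_mob exists_hgN im_hk ok_neg im_mul_pos)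
open Pool.Agent.Lib.MP_696deb_nt.B3.CM (St fs sum_nb nb_isIv_of nb_hk not_st_inert mid_idl st_idl
  st_of_isIv exists_up inert_of_jac)

variable {W : WeierstrassCurve ℚ} {N n c d l : ℕ} {r b k : ℤ} {τ τ' : ℂ}

theorem hg_geq (ok : OkN N n c r) (h : HgN N n c r τ) (h' : HgN N n c r τ')
    (e : cl (Oc n c) (sp2 τ 1) = cl _ (sp2 τ' 1)) : GEq N τ' τ := by
  obtain ⟨a, ha, e⟩ := (cl_eq_iff h.iv h'.iv).1 e
  obtain ⟨x, y, z, w, h1, h2, h3⟩ := exists_mob h.pos h'.pos ha e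
  have h4 : a * 1 ∈ sp2 (N * τ') 1 := by
    rw [← h'.mul ok, e, mul_sc, h.mul ok, mul_mem_sc ha]
    exact right_mem_sp2 _ _
  obtain ⟨u, v, h5⟩ := cmd_mem h4
  have h6 : z = N * u := (cmd_ext h'.pos.ne' (y := w) (y' := v) (by
    push_cast; linear_combination h5 - h2)).1
  exact ⟨!![x, y; z, w], by simpa using h1, ⟨u, h6⟩, by rw [act_of, ← h3]⟩

theorem be_mem_N (ok : OkN N n c r) : be n c (r * c) ∈ Oc n c := by
  obtain ⟨k, hk⟩ := ok.eq
  exact be_mem ok.m4 (two_dvd_sub ok.m4 (hk.trans (mul_assoc _ _ _)))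

/-- A neighbour of a Heegner point is a Heegner point for its own order. -/
theorem hg_nb (ok : OkN N n c r) (hl : 0 < l) (h : HgN N n d r τ) (i : Option (Fin l))
    (hI : IsIv (Oc n c) (nb l 1 τ i)) {m : ℕ} (hm : m.Coprime N) (e : m * c = l * d) :
    HgN N n c r (hk l τ i) ∧ cl (Oc n c) (sp2 (hk l τ i) 1) = cl _ (nb l 1 τ i) := by
  have l2 : (l : ℂ) ≠ 0 := by exact_mod_cast hl.ne'
  obtain ⟨a, ha, e0⟩ := nb_hk hl 1 τ i
  simp only [Int.cast_one, one_mul] at e0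
  have h0 : IsIv (Oc n c) (sp2 (hk l τ i) 1) := by
    simpa only [e0, sc_inv_sc ha] using hI.sc (inv_ne_zero ha)
  refine ⟨?_, by rw [e0, cl_sc h0 ha]⟩
  have e' : (m : ℂ) * c = l * d := by exact_mod_cast e
  have e3 : m * be n c (r * c) = l * be n d (r * d) := by
    simp only [be]
    push_cast
    linear_combination (r + dl n) / 2 * e'
  obtain ⟨x, y, e1⟩ := cmd_mem h.one
  obtain ⟨u, v, e2⟩ := cmd_mem h.tau
  have h1 : m * be n c (r * c) ∈ sp2 (N * hk l τ i) 1 ∧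
      m * (be n c (r * c) * hk l τ i) ∈ sp2 (N * hk l τ i) 1 := by
    rw [← mul_assoc, e3]
    rcases i with _ | j
    · exact ⟨mem_sp2.2 ⟨x, l * y, by rw [hk]; push_cast; linear_combination (l : ℂ) * e1⟩,
        mem_sp2.2 ⟨l * u, l ^ 2 * v, by rw [hk]; push_cast; linear_combination (l : ℂ) ^ 2 * e2⟩⟩
    · have e4 : l * hk l τ (some j) = τ + (j : ℕ) := by rw [hk, mul_div_cancel₀ _ l2]
      exact ⟨mem_sp2.2 ⟨l ^ 2 * x, l * (y - x * N * (j : ℕ)), by
        push_cast; linear_combination (l : ℂ) * e1 - l * x * N * e4⟩,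
        mem_sp2.2 ⟨l * (u + (j : ℕ) * x), v + (j : ℕ) * y - (u + (j : ℕ) * x) * N * (j : ℕ), by
          push_cast
          linear_combination e2 + ((j : ℕ) : ℂ) * e1 +
            (be n d (r * d) - (u + (j : ℕ) * x) * N) * e4⟩⟩
  have h2 : ∀ z ∈ sp2 (hk l τ i) 1, m * z ∈ sp2 (N * hk l τ i) 1 → z ∈ sp2 (N * hk l τ i) 1 :=
    fun z hz k => by
      obtain ⟨s, t, e4⟩ := Nat.isCoprime_iff_coprime.2 hm
      obtain ⟨p, q, e5⟩ := cmd_mem hz
      have e6 := congrArg (Int.cast : ℤ → ℂ) e4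
      have := add_mem (int_mul_mem k s) (int_mul_mem
        (mem_sp2.2 ⟨p, N * q, rfl⟩ : _ ∈ sp2 (N * hk l τ i) 1) t)
      rwa [show (s : ℂ) * (m * z) + t * (p * (N * hk l τ i) + (N * q : ℤ) * 1) = z by
        push_cast at e6 ⊢; linear_combination z * e6 - t * N * e5] at this
  exact ⟨im_hk hl h.pos i, h0,
    h2 _ (by simpa using h0.mul_mem (be_mem_N ok) (right_mem_sp2 _ _)) h1.1,
    h2 _ (h0.mul_mem (be_mem_N ok) (left_mem_sp2 _ _)) h1.2⟩

/-- The image of a Heegner point under the involution and the reflection. -/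
theorem hg_sig (ok : OkN N n c r) (h : HgN N n c r τ) : HgN N n c r (B4.sig N τ) ∧
    cl (Oc n c) (sp2 (B4.sig N τ) 1) = (nn N n c r * cl _ (sp2 τ 1))⁻¹ := by
  have n1 : (N : ℂ) ≠ 0 := by exact_mod_cast ok.N_ne
  have t0 : conj τ ≠ 0 := fun k => by simpa [(map_eq_zero _).1 k] using h.pos
  have h2 : (starRingAut : ℂ ≃+* ℂ) (dl n) = -dl n := conj_dl n
  have h3 := ok.isIv.mul h.iv
  have h4 := h3.mp ok.m4 (.inr h2)
  have e0 : B4.sig N τ * (N * conj τ) = 1 := by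
    rw [B4.sig]
    field_simp
  have s0 := left_ne_zero_of_mul_eq_one e0
  have e1 : sp2 (B4.sig N τ) 1 = sc (B4.sig N τ) (mp starRingAut (idl n c N (r * c) * sp2 τ 1)) := by
    rw [h.mul ok, mp_sp2, sc_sp2, map_one, mul_one, map_mul, map_natCast, cmb_comm]
    exact congrArg (sp2 · _) e0.symm
  refine ⟨⟨?_, e1 ▸ h4.sc s0, ?_, ?_⟩, by
    rw [e1, cl_sc h4 s0, cl_mp_neg ok.toOk h2 h3, cl_mul ok.isIv h.iv, nn]⟩
  · have := act_pos (M := !![0, -1; (N : ℤ), 0]) (z := -conj τ)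
      (by simpa using Nat.pos_of_ne_zero ok.N_ne) (by simpa using h.pos)
    simpa [act_of, mob, B4.sig] using this
  all_goals
    obtain ⟨x, y, e2⟩ := cmd_mem h.one
    obtain ⟨u, v, e3⟩ := cmd_mem h.tau
    have e5 : conj (be n c (r * c)) = (r * c : ℤ) - be n c (r * c) := by
      have := cmb_be_neg h2 c (r * c)
      rw [cmb_neg, neg_sub] at this
      exact this
    have f2 := congrArg conj e2
    have f3 := congrArg conj e3
    simp only [map_add, map_mul, map_intCast, map_natCast, e5] at f2 f3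
  · exact mem_sp2.2 ⟨-v, r * c - u * N, by
      push_cast at f3 ⊢
      linear_combination -N * B4.sig N τ * f3 + (r * c - be n c (r * c) - u * N) * e0⟩
  · have h5 : ((r * c : ℤ) : ℂ) - y = u * N := mul_left_cancel₀ (a := τ - conj τ)
      (fun k => h.pos.ne' (Complex.conj_eq_iff_im.1 (sub_eq_zero.1 k).symm))
      (by linear_combination τ * f2 - conj τ * e2 + e3 - f3)
    exact mem_sp2.2 ⟨u, -x, by
      push_cast at f2 h5 ⊢
      linear_combination -B4.sig N τ * f2 + B4.sig N τ * h5 - x * e0⟩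

variable (P : B4.GE.Par W N)

/-- The complex Heegner point of a class. -/
noncomputable def yC (n c : ℕ) (r : ℤ) (x : Pc n c) : Pt W ℂ :=
  if h : ∃ τ, HgN N n c r τ ∧ cl _ (sp2 τ 1) = x then P.φ h.choose else 0

theorem yC_cl (ok : OkN N n c r) (h : HgN N n c r τ) : yC P n c r (cl _ (sp2 τ 1)) = P.φ τ := by
  have k : ∃ τ', HgN N n c r τ' ∧ cl (Oc n c) (sp2 τ' 1) = cl _ (sp2 τ 1) := ⟨τ, h, rfl⟩
  obtain ⟨g, g1, g2, g3⟩ := hg_geq ok k.choose_spec.1 h k.choose_spec.2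
  rw [yC, dif_pos k, g3]
  exact P.inv0 g ⟨g1, g2⟩ τ h.pos

theorem yC_conj (ok : OkN N n c r) (x : Pc n c) : pmap (starRingEnd ℂ) (yC P n c r x) =
    P.per.unif P.t0 - yC P n c r ((nn N n c r)⁻¹ * x⁻¹) := by
  obtain ⟨τ, h, rfl⟩ := exists_hgN ok x
  obtain ⟨h1, h2⟩ := hg_sig ok h
  rw [← mul_inv, ← h2, yC_cl P ok h, yC_cl P ok h1, B4.sig, P.φ_al (by simpa using h.pos),
    sub_sub_cancel, P.φ_conj h.pos]

theorem act_rP (l : ℕ) (τ : ℂ) (i : Option (Fin l)) : act (rP l i) τ = hk l τ i := by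
  rcases i with _ | j <;> simp [rP, ut, act_of, mob, hk]

theorem not_dvd_N (ok : OkN N n (c * l) r) (hl : l.Prime) : ¬ l ∣ N :=
  hl.coprime_iff_not_dvd.1 (ok.cop.coprime_dvd_left ⟨n * c, by ring⟩)

variable [∀ c, Fintype (Pc n c)]

/-- The trace to a lower conductor, in terms of the stable neighbours. -/
theorem fs_yC (ok : OkN N n (c * l) r) (hl : l.Prime) (h : HgN N n c r τ) :
    fs c (c * l) (yC P n (c * l) r) (cl _ (sp2 τ 1)) =
      P.a l • P.φ τ - ∑ i with St n c (nb l 1 τ i), P.φ (hk l τ i) := by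
  have ok' := ok.of_mul
  have hI : IsIv (Oc n c) (sc 1 (sp2 τ 1)) := by rw [sc_one]; exact h.iv
  have h1 := sum_nb (s := 1) ok'.toOk hl (cmd_one hl) h.pos.ne' one_ne_zero hI (yC P n (c * l) r)
  simp only [sc_one] at h1
  rw [fs, h1, ← P.φ_hecke hl (not_dvd_N ok hl) h.pos, Finset.sum_congr rfl
    (g := fun i => P.φ (hk l τ i)) fun i hi => ?_, eq_sub_iff_add_eq',
    Finset.sum_filter_add_sum_filter_not]
  · simp only [act_rP]
  · have h2 := (nb_isIv_of ok'.toOk hl h.pos.ne' one_ne_zero hI (Finset.mem_filter.1 hi).2).1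
    rw [sc_one] at h2
    obtain ⟨h3, h4⟩ := hg_nb ok hl.pos h i h2 (Nat.coprime_one_left N) (by ring)
    rw [← h4, yC_cl P ok h3]

theorem tr_inert (ok : OkN N n d r) (hl : l.Prime) (hd : d = c * l) (hJ : J(-n | l) = -1)
    (hc : ¬ l ∣ c) (z : Pc n c) : fs c d (yC P n d r) z = P.a l • yC P n c r z := by
  subst hd
  obtain ⟨τ, h, rfl⟩ := exists_hgN ok.of_mul z
  rw [fs_yC P ok hl h, yC_cl P ok.of_mul h, Finset.filter_false_of_mem fun i _ =>
    not_st_inert ok.of_mul.toOk hl (inert_of_jac ok.m4 hl hJ) hc h.iv (nb_mid hl h.pos.ne' i).1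
      (nb_mid hl h.pos.ne' i).2, Finset.sum_empty, sub_zero]

theorem tr_up {e : ℕ} (ok : OkN N n e r) (hl : l.Prime) (hd : d = c * l) (he : e = d * l)
    (z : Pc n d) : fs d e (yC P n e r) z = P.a l • yC P n d r z - yC P n c r (pj n c d z) := by
  subst hd he
  have l2 : (l : ℂ) ≠ 0 := by exact_mod_cast hl.ne_zero
  have ok1 := ok.of_mul
  have ok0 := ok1.of_mul
  obtain ⟨τ, h, rfl⟩ := exists_hgN ok1 z
  obtain ⟨j, e1, hj⟩ := exists_up (a := 1) ok0.toOk hl (cmd_one hl) h.pos.ne' one_ne_zero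
    (by rw [sc_one]; exact h.iv)
  simp only [sc_one] at e1
  have hO := h.iv.ext (Oc_le n (dvd_mul_right c l))
  obtain ⟨h3, h4⟩ := hg_nb ok0 hl.pos h j (e1 ▸ hO.sc l2) (m := l * l)
    (Nat.Coprime.mul_left (hl.coprime_iff_not_dvd.2 (not_dvd_N ok hl))
      (hl.coprime_iff_not_dvd.2 (not_dvd_N ok hl))) (by ring)
  rw [fs_yC P ok hl h, yC_cl P ok1 h, pj_cl (dvd_mul_right c l) h.iv, ← cl_sc hO l2, ← e1, ← h4,
    yC_cl P ok0 h3, Finset.sum_eq_single_of_mem j (by simpa using (hj j).not) fun i hi k =>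
      absurd (Finset.mem_filter.1 hi).2 ((hj i).2 k)]

/-- The norm relation at a split prime. -/
theorem tr_split (ok : OkN N n d r) (hl : l.Prime) (hd : d = c * l)
    (e : b ^ 2 + n * c ^ 2 = 4 * l * k) (hb : ¬ (l : ℤ) ∣ b) (z : Pc n c) :
    fs c d (yC P n d r) z = P.a l • yC P n c r z - yC P n c r (cl _ (idl n c l b) * z) -
      yC P n c r ((cl _ (idl n c l b))⁻¹ * z) := by
  subst hd
  have l2 : (l : ℂ) ≠ 0 := by exact_mod_cast hl.ne_zero
  have l0 : (l : ℤ) ≠ 0 := by exact_mod_cast hl.ne_zero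
  have ok0 := ok.of_mul
  obtain ⟨τ, h, rfl⟩ := exists_hgN ok0 z
  have key : ∀ b : ℤ, b ^ 2 + n * c ^ 2 = 4 * l * k → ¬ (l : ℤ) ∣ b → ∃ i,
      idl n c l b * sp2 τ 1 = nb l 1 τ i ∧ St n c (nb l 1 τ i) ∧
      yC P n c r (cl _ (idl n c l b) * cl _ (sp2 τ 1)) = P.φ (hk l τ i) := fun b e hb => by
    have m1 := mid_idl ok0.toOk hl e h.iv
    obtain ⟨i, n1⟩ := cmd_mid hl (cmd_one hl) h.pos.ne' m1.1 m1.2
    have s1 := st_idl ok0.toOk hl e hb h.iv
    obtain ⟨h3, h4⟩ := hg_nb ok0 hl.pos h i (n1 ▸ s1)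
      (hl.coprime_iff_not_dvd.2 (not_dvd_N ok hl)) rfl
    exact ⟨i, n1, n1 ▸ st_of_isIv ok.m4 s1, by
      rw [← cl_mul (isIv_idl ok.m4 e l0 (cmf_prim hl hb k)) h.iv, n1, ← h4, yC_cl P ok0 h3]⟩
  obtain ⟨i, n1, s1, y1⟩ := key b e hb
  obtain ⟨j, n2, s2, y2⟩ := key (-b) (by rw [neg_sq, e]) (by rwa [dvd_neg])
  have m1 := mid_idl ok0.toOk hl e h.iv
  have hne : i ≠ j := by
    rintro rfl
    refine m1.2.not_ge fun z hz => cmd_bez hl hb (m1.1.le ((mul_mem_sc l2).2 hz)) ?_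
    have k1 := Submodule.mul_mem_mul (right_mem_sp2 ((l : ℤ) : ℂ) (be n c b)) hz
    have k2 : be n c (-b) * z ∈ idl n c l b * sp2 τ 1 := by
      rw [n1, ← n2]
      exact Submodule.mul_mem_mul (right_mem_sp2 _ _) hz
    have k3 := sub_mem k1 k2
    rwa [← sub_mul, be_sub] at k3
  have hs : (Finset.univ.filter fun i => St n c (nb l 1 τ i)) = {i, j} := by
    ext m
    simp only [Finset.mem_filter, Finset.mem_univ, true_and, Finset.mem_insert,
      Finset.mem_singleton]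
    refine ⟨fun hw => (hw.eq_idl ok0.toOk hl e hb h.iv (nb_mid hl h.pos.ne' m).1
      (nb_mid hl h.pos.ne' m).2).imp (fun k => ?_) fun k => ?_, ?_⟩
    · exact nb_inj hl (cmd_one hl) h.pos.ne' (k.trans n1)
    · exact nb_inj hl (cmd_one hl) h.pos.ne' (k.trans n2)
    · rintro (rfl | rfl) <;> assumption
  rw [fs_yC P ok hl h, hs, Finset.sum_pair hne, yC_cl P ok0 h,
    ← cl_idl_neg ok.m4 e l0 (cmf_prim hl hb k), y1, y2, sub_sub]

end Pool.Agent.B6.CM
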