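import Pool.Agent.Lib.MP_696deb_nt.B5.Q5
import Pool.Agent.Lib.MP_696deb_nt.B5.K2
import Pool.Agent.Lib.MP_696deb_nt.B6.CEb

/-! Certificates of modularity in level `p q` for a general cubic. -/

set_option autoImplicit false

open PowerSeries Filter Topology

namespace Pool.Agent.B5

open Pool.Agent.Lib.MP_696deb_nt Pool.Agent.B4.GE

/-- The data of a certificate. -/
structure C2 extends Cert where
  ec : ℤ
  x0 : ℤ

/-- The properties of the data given by a certificate. -/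
structure RW.Gd {N : ℕ} {a b c : ℤ} (R : RW N a b c) (x0 : ℤ) : Prop where
  hT : ∀ l : ℕ, l.Prime → ∀ n, coeff n (tS N l R.cs) = coeff l R.cs * coeff n R.cs
  hW : ∀ z : ℂ, 0 < z.im → R.f (-1 / (N * z)) = -(N * z ^ 2 * R.f z)
  hB : ∀ᶠ z in atI, R.B (-1 / (N * z)) ≠ 0
  hx : Tendsto (fun z => R.x (-1 / (N * z))) atI (𝓝 x0)

namespace C2

variable (c : C2)

/-- The cubic form. -/
noncomputable def cu (A B : ℤ⟦X⟧) : ℤ⟦X⟧ :=
  B * (4 * A ^ 3 + C c.ea * A ^ 2 * B + C c.eb * A * B ^ 2 + C c.ec * B ^ 3)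

/-- The checks of leading terms. -/
def d2 (B : ℕ) : Bool :=
  chk c.p c.q (c.M + 1) B (E2 c.p c.q c.M (tq2 c.p c.q c.K c.a c.b c.c c.d c.T)) &&
  chk c.p c.q 1 B (E.sub (E0 c.p c.q c.LA) (.c c.β)) &&
  chk c.p c.q 3 B (E.sub (E0 c.p c.q c.LB) (.mul (.c c.β) (.x 2))) &&
  chk c.p c.q (c.j + 1) B
    (E.sub (E0 c.p c.q (tN0 c.p c.q c.K c.LA)) (.mul (.c (c.x0 * c.γ)) (.x c.j))) &&
  chk c.p c.q (c.j + 1) B (E.sub (E0 c.p c.q (tN0 c.p c.q c.K c.LB)) (.mul (.c c.γ) (.x c.j)))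

/-- The check of the differential equation. -/
def d3 (B : ℕ) : Bool := chk c.p c.q c.n B (.lt 12 (E0 c.p c.q c.LA) (.lt 13 (E0 c.p c.q c.LB)
  (E.sub (.pw (E.sub (.mul (E2 c.p c.q 0 (dd c.s0 c.LA)) (.v 13))
    (.mul (.v 12) (E2 c.p c.q 0 (dd c.s0 c.LB)))) 2)
  (.mul (.mul (.c 144) (.pw (cE c.co 1 c.n) 2)) (.mul (.v 13) (.add (.add (.add
    (.mul (.c 4) (.pw (.v 12) 3)) (.mul (.mul (.c c.ea) (.pw (.v 12) 2)) (.v 13)))
    (.mul (.mul (.c c.eb) (.v 12)) (.pw (.v 13) 2))) (.mul (.c c.ec) (.pw (.v 13) 3))))))))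

theorem ode (hp : c.p ≠ 0) (hq : c.q ≠ 0) {B : ℕ} (h3 : c.d3 B = true) {cs : ℤ⟦X⟧}
    (e : ∀ i < c.n, coeff i cs = c.co i) :
    X ^ c.n ∣ (S2 c.p c.q 0 (dd c.s0 c.LA) * S0 c.p c.q c.LB -
      S0 c.p c.q c.LA * S2 c.p c.q 0 (dd c.s0 c.LB)) ^ 2 -
      C 144 * cs ^ 2 * c.cu (S0 c.p c.q c.LA) (S0 c.p c.q c.LB) := by
  have h : ∀ i < 12, env c.p c.q i = env c.p c.q i := fun _ _ => rfl
  have := chk_dvd hp hq h3
  have g1 := fun A => upd_env h (le_refl 12) A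
  have g2 := fun A B => upd_env (g1 A) (by norm_num : 12 ≤ 13) B
  simp only [E.ser_sub, E.ser, ser_E0 h, ser_E0 (g1 _), ser_E2 (g2 _ _), upd,
    Nat.reduceEqDiff, if_true, if_false, map_ofNat C 4] at this
  obtain ⟨R, hR⟩ := (X_pow_dvd_iff.2 fun i hi => by
    rw [map_sub, e i hi, coeff_mk, sub_self] : X ^ c.n ∣ cs - PowerSeries.mk c.co).add
      (c.dvd_co c.n (upd (upd (env c.p c.q) 12 (S0 c.p c.q c.LA)) 13 (S0 c.p c.q c.LB)))
  rw [sub_add_sub_cancel, sub_eq_iff_eq_add'] at hR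
  convert dvd_sub this (dvd_mul_right _ (C 144 * R * (2 * cs - X ^ c.n * R) *
    c.cu (S0 c.p c.q c.LA) (S0 c.p c.q c.LB))) using 1
  rw [hR, cu]
  ring

theorem rw (hp : c.p.Prime) (hq : c.q.Prime) (hne : c.p ≠ c.q) (h1 : c.Fin) {B1 B2 B3 : ℕ}
    (k1 : c.c1 B1 = true) (k2 : c.d2 B2 = true) (k3 : c.d3 B3 = true) :
    ∃ R : RW (c.p * c.q) c.ea c.eb c.ec, R.Gd c.x0 ∧ R.A = e0 c.p c.q c.LA ∧
      R.B = e0 c.p c.q c.LB ∧ coeff 0 R.Bs = c.β ∧ ∀ n < c.L, coeff n R.cs = c.co n := by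
  obtain ⟨e, b0, D0, β0, γ0, hk, w0, oT, oA, oB, pm, hm, hn, nL, L1, c0, c1, ck⟩ := h1
  have p0 := hp.ne_zero
  have q0 := hq.ne_zero
  have p1 : (c.p : ℂ) ≠ 0 := by exact_mod_cast p0
  have q1' : (c.q : ℂ) ≠ 0 := by exact_mod_cast q0
  have D1 : (c.D : ℂ) ≠ 0 := Int.cast_ne_zero.2 D0
  have h : ∀ i < 12, env c.p c.q i = env c.p c.q i := fun _ _ => rfl
  simp only [d2, Bool.and_eq_true] at k2
  obtain ⟨⟨⟨⟨k4, k5⟩, k6⟩, k7⟩, k8⟩ := k2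
  replace k1 := chk_dvd p0 q0 k1
  replace k4 := chk_dvd p0 q0 k4
  replace k5 := chk_dvd p0 q0 k5
  replace k6 := chk_dvd p0 q0 k6
  replace k7 := chk_dvd p0 q0 k7
  replace k8 := chk_dvd p0 q0 k8
  simp only [E.ser_sub, E.ser, ser_E2 h, ser_E0 h] at k1 k4 k5 k6 k7 k8
  obtain ⟨R, hR⟩ := dvd_sub k1 ((c.dvd_co _ (env c.p c.q)).mul_left (C c.D * X ^ c.M))
  have s1 : QE (e2 c.p c.q c.T) (toC (C c.D * PowerSeries.mk c.co + X ^ c.L * R)) := by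
    have h := qe_e2 p0 q0 (M := c.M) (T := c.T) fun t ht => ⟨(oT t ht).1.2.1, (oT t ht).2.2.1⟩
    rw [show S2 c.p c.q c.M c.T = X ^ c.M * (C c.D * PowerSeries.mk c.co + X ^ c.L * R) by
      linear_combination hR, map_mul, map_pow, map_X] at h
    exact h.of_X_pow_mul.congr fun z _ =>
      (mul_div_cancel_left₀ _ (pow_ne_zero _ (q1_ne z))).symm
  have s2 := s1.smul (c.D : ℂ)⁻¹
  have s3 : ∀ n < c.L, coeff n (C (c.D : ℂ)⁻¹ * toC (C c.D * PowerSeries.mk c.co + X ^ c.L * R)) =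
      c.co n := fun n hn => by
    rw [coeff_C_mul, coeff_map, map_add, coeff_C_mul, coeff_mk, coeff_X_pow_mul', if_neg (by omega),
      add_zero, eq_intCast, Int.cast_mul, inv_mul_cancel_left₀ D1]
  set f : ℂ → ℂ := fun z => (c.D : ℂ)⁻¹ * e2 c.p c.q c.T z with hf
  have inv : ∀ g, G0 (c.p * c.q) g → ∀ z : ℂ, 0 < z.im → f (act g z) = den g z ^ 2 * f z :=
    fun g hg z hz => by
      simp only [hf]
      rw [e2_act p0 q0 (fun t ht => ⟨(oT t ht).1, (oT t ht).2.1⟩) hg hz, mul_left_comm]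
  have hW : ∀ z : ℂ, 0 < z.im → f (act (WN (c.p * c.q)) z) = -(c.p * c.q * z ^ 2 * f z) :=
    fun z hz => by
      have h := e2_WN p0 q0 (K := c.K) (T := c.T) (fun t ht => ⟨(oT t ht).1.1, (oT t ht).2.1,
        (oT t ht).2.2.2.2.2.2.1, (oT t ht).2.2.2.2.2.2.2.1⟩) hz
      rw [e2.eq_1 _ _ (tN2 _ _ _ _), (pm.map _).sum_eq, ← e2, e2_sm] at h
      refine mul_left_cancel₀ (pow_ne_zero c.K (mul_ne_zero p1 q1')) ?_
      push_cast at h
      simp only [hf]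
      linear_combination (c.D : ℂ)⁻¹ * h
  have t1 : Tendsto f atI (𝓝 0) := by
    have := s2.tendsto
    rwa [s3 0 (by omega), c0, Int.cast_zero] at this
  have t2 : Tendsto (sk 2 (Wq c.p c.q c.a c.b c.c c.d) f) atI (𝓝 0) := by
    obtain ⟨S, hS⟩ := k4
    have h := qe_e2 p0 q0 (M := c.M) (T := tq2 c.p c.q c.K c.a c.b c.c c.d c.T) fun t ht => by
      obtain ⟨u, hu, rfl⟩ := List.mem_map.1 ht
      exact ⟨(oT u hu).2.2.2.2.1, (oT u hu).2.2.2.1⟩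
    rw [hS, pow_succ, mul_assoc] at h
    have h3 := (q5_lim h).const_mul ((c.D : ℂ)⁻¹ * ((c.q : ℂ) ^ (c.K + 1))⁻¹)
    rw [coeff_zero_X_mul, Int.cast_zero, mul_zero] at h3
    refine h3.congr' (ev_pos.mono fun z hz => ?_)
    have h4 := den_Wq_ne q0 e hz
    have h5 := e2_Wq p0 q0 e oT hz
    have h6 := q1_ne z
    simp only [sk, hf]
    rw [mul_div_cancel_left₀ _ (pow_ne_zero _ h6), mul_assoc, mul_div_assoc]
    congr 1
    field_simp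
    linear_combination -h5
  have cz := fun g hg => cusp_zero (g := g) hp hq hne e inv hW t1 t2 hg
  have mf : Mk (c.p * c.q) 2 f := ⟨s2.hol, inv, fun g hg => Bdd.of_tendsto (cz g hg)⟩
  obtain ⟨cs, e1, hT⟩ := mult_one_int (idx_pq hp hq hne) hm mf s2 D0
    (ds := C c.D * PowerSeries.mk c.co + X ^ c.L * R)
    (by rw [← mul_assoc, ← map_mul, mul_inv_cancel₀ D1, map_one, one_mul]) s3 L1 c0 c1 ck
  rw [e1] at s2 s3
  have s4 : ∀ n < c.L, coeff n cs = c.co n := fun n hn => by simpa using s3 n hn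
  have mA := mk_e0 hp hq hne hk oA
  have mB := mk_e0 hp hq hne hk oB
  have qA := qe_e0 p0 q0 (L := c.LA) fun t ht => ⟨(oA t ht).1.2.1, (oA t ht).2.1.1⟩
  have qB := qe_e0 p0 q0 (L := c.LB) fun t ht => ⟨(oB t ht).1.2.1, (oB t ht).2.1.1⟩
  obtain ⟨RB, hB⟩ := k6
  obtain ⟨RA, hA⟩ := k5
  have eB : S0 c.p c.q c.LB = X ^ 2 * (C c.β + X * RB) := by linear_combination hB
  have B0 : coeff 0 (C c.β + X * RB) = c.β := by simp
  have lW : ∀ L (x : ℤ), Ok0 c.p c.q c.k c.K L →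
      X ^ (c.j + 1) ∣ S0 c.p c.q (tN0 c.p c.q c.K L) - C x * X ^ c.j →
      Tendsto (fun z => e0 c.p c.q (tN0 c.p c.q c.K L) z / q1 z ^ c.j) atI (𝓝 x) :=
    fun L x h ⟨S, hS⟩ => by
      have := qe_e0 p0 q0 (L := tN0 c.p c.q c.K L) fun t ht => by
        obtain ⟨u, hu, rfl⟩ := List.mem_map.1 ht
        exact ⟨(h u hu).1.2.2, (h u hu).2.1.2.1⟩
      rw [show S0 c.p c.q (tN0 c.p c.q c.K L) = X ^ c.j * (C x + X * S) by
        linear_combination hS] at this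
      simpa using q5_lim this
  have eW : ∀ L, Ok0 c.p c.q c.k c.K L → ∀ z : ℂ, 0 < z.im →
      e0 c.p c.q L (-1 / ((c.p * c.q : ℕ) * z)) = (-Complex.I * z) ^ c.k / (c.p * c.q) ^ c.K *
        q1 z ^ c.j * (e0 c.p c.q (tN0 c.p c.q c.K L) z / q1 z ^ c.j) := fun L h z hz => by
    have := q1_ne z
    rw [← act_WN]
    field_simp
    linear_combination e0_WN p0 q0 h hz
  have u0 : ∀ z : ℂ, 0 < z.im →
      (-Complex.I * z) ^ c.k / (c.p * c.q) ^ c.K * q1 z ^ c.j ≠ 0 := fun z hz =>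
    mul_ne_zero (div_ne_zero (pow_ne_zero _ (mul_ne_zero (neg_ne_zero.2 Complex.I_ne_zero)
      (q2_ne hz))) (pow_ne_zero _ (mul_ne_zero p1 q1'))) (pow_ne_zero _ (q1_ne z))
  have lA := lW _ _ oA k7
  have lB := lW _ _ oB k8
  have γ1 : (c.γ : ℂ) ≠ 0 := Int.cast_ne_zero.2 γ0
  have od : (S2 c.p c.q 0 (dd c.s0 c.LA) * S0 c.p c.q c.LB -
      S0 c.p c.q c.LA * S2 c.p c.q 0 (dd c.s0 c.LB)) ^ 2 -
      C 144 * cs ^ 2 * c.cu (S0 c.p c.q c.LA) (S0 c.p c.q c.LB) = 0 := by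
    have qd : ∀ L, Ok0 c.p c.q c.k c.K L →
        QE (e2 c.p c.q (dd c.s0 L)) (toC (S2 c.p c.q 0 (dd c.s0 L))) := fun L h => by
      simpa using qe_e2 p0 q0 (M := 0) (T := dd c.s0 L) fun t ht => by
        obtain ⟨u, hu, rfl⟩ := List.mem_map.1 ht
        exact ⟨(h u hu).1.2.1, by simpa using (h u hu).2.1.1⟩
    have m1 := ((((mk_dd hp hq hne hk w0 oA).mul mB).sub ((mA.mul
      (mk_dd hp hq hne hk w0 oB)).cast (by ring))).pow 2).cast (k' := 4 * c.k + 4) (by ring)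
    have m2 := (((mf.pow 2).smul ((144 : ℤ) : ℂ)).mul (mB.mul (((((mA.pow 3).smul ((4 : ℤ) : ℂ)).add
      ((((mA.pow 2).smul c.ea).mul mB).cast (by ring))).add (((mA.smul c.eb).mul (mB.pow 2)).cast
        (by ring))).add ((mB.pow 3).smul c.ec)))).cast (k' := 4 * c.k + 4) (by ring)
    have g1 := ((((qd _ oA).mul qB).sub (qA.mul (qd _ oB))).pow 2).sub
      (((s2.pow 2).smul ((144 : ℤ) : ℂ)).mul (qB.mul (((((qA.pow 3).smul ((4 : ℤ) : ℂ)).add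
      (((qA.pow 2).smul c.ea).mul qB)).add ((qA.smul c.eb).mul (qB.pow 2))).add
        ((qB.pow 3).smul c.ec))))
    simp only [← q5_C, ← map_mul toC, ← map_sub toC, ← map_add toC, ← map_pow toC,
      map_ofNat C 4] at g1
    refine toC_inj ((Mk.eq_of_coeff (idx_pq hp hq hne) (m1.sub m2) (q5_zero _ _) g1 (QE.const 0) hn
      fun n hn => ?_).trans (by simp))
    rw [coeff_map, map_zero, map_zero, ← map_zero (Int.castRingHom ℂ),
      ← X_pow_dvd_iff.1 (c.ode p0 q0 k3 fun i hi => s4 i (by omega)) n hn]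
    rfl
  refine ⟨⟨mul_ne_zero p0 q0, f, e0 c.p c.q c.LA, e0 c.p c.q c.LB, cs, S0 c.p c.q c.LA,
    C c.β + X * RB, s2, (s4 0 (by omega)).trans c0, (s4 1 L1).trans c1, inv, cz,
    fun l hl h n => hT_of_tS h (hT l hl n), qA, eB ▸ qB, B0.trans_ne β0, ?_, fun g hg z hz =>
      ⟨_, pow_ne_zero _ (mh_den hg.1 hz), mA.inv g hg z hz, mB.inv g hg z hz⟩, ?_⟩,
    ⟨hT, fun z hz => ?_, ?_, ?_⟩, rfl, rfl, B0, s4⟩
  · rw [B0, show S0 c.p c.q c.LA = C c.β + X * RA by linear_combination hA, map_add,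
      coeff_zero_X_mul, add_zero, coeff_zero_C]
  · rw [← eB]
    rw [q5_dd p0 q0 c.s0 oA, q5_dd p0 q0 c.s0 oB, map_ofNat, cu] at od
    refine mul_left_cancel₀ (a := (144 : ℤ⟦X⟧)) (fun h => ?_) (by linear_combination od)
    have := congrArg (constantCoeff (R := ℤ)) h
    rw [map_ofNat, map_zero] at this
    norm_num at this
  · rw [← act_WN]
    exact (hW z hz).trans (by rw [Nat.cast_mul])
  · filter_upwards [ev_pos, lB.eventually_ne γ1] with z hz h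
    rw [eW _ oB z hz]
    exact mul_ne_zero (u0 z hz) h
  · have := lA.div lB γ1
    rw [Int.cast_mul, mul_div_cancel_right₀ _ γ1] at this
    refine this.congr' (ev_pos.mono fun z hz => ?_)
    simp only [Pi.div_apply, RW.x]
    rw [eW _ oA z hz, eW _ oB z hz, mul_div_mul_left _ _ (u0 z hz)]

end C2

section seed

open QuadraticAlgebra

variable {n b : ℤ} {p q k K N : ℕ} {τ : ℂ} (φ : QuadraticAlgebra ℤ n b →+* ℂ)

/-- The factor of automorphy of a matrix. -/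
def V4.lam (n b : ℤ) (g : V4) : QuadraticAlgebra ℤ n b := ⟨g.w, g.z⟩

/-- The exponent of the multiplier of a matrix. -/
def V4.psi (g : V4) : ZMod 12 := PsiE g.x g.y g.z g.w

/-- The matrix maps `ω` to `d ω / N`. -/
def V4.Eqv (n b : ℤ) (N d : ℕ) (g : V4) : Prop :=
  g.x * g.w - g.y * g.z = 1 ∧ d • (ω * g.lam n b) = N • ⟨g.y, g.x⟩

instance (n b : ℤ) (N d : ℕ) (g : V4) : Decidable (g.Eqv n b N d) := by
  unfold V4.Eqv; infer_instance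

theorem map_mk (x y : ℤ) : φ ⟨x, y⟩ = x + y * φ ω := by
  rw [← map_intCast φ, ← map_intCast φ, ← map_mul, ← map_add]
  congr 1
  ext <;> simp

omit φ in
theorem exists_qa {θ : ℂ} (h : θ ^ 2 = n + b * θ) :
    ∃ φ : QuadraticAlgebra ℤ n b →+* ℂ, φ ω = θ :=
  ⟨(lift (a := n) (b := b) ⟨θ, by rw [← sq, h]; simp⟩).toRingHom, by simp [lift]⟩

theorem eta_at (hN : N ≠ 0) (hτ : 0 < τ.im) (h : φ ω = N * τ) {d : ℕ} {g : V4}
    (e : g.Eqv n b N d) : eta2 (d * τ) = φ (g.lam n b) * (e12 g.psi * eta2 (N * τ)) := by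
  have k := congrArg φ e.2
  rw [map_nsmul, map_nsmul, map_mul, V4.lam, map_mk φ g.w, map_mk φ g.y, h, nsmul_eq_mul,
    nsmul_eq_mul] at k
  rw [q1_at (u := d * τ) (j := φ (g.lam n b)) (v := 1) g.x g.y g.z g.w e.1 (q1_pos hN hτ)
    (mul_left_cancel₀ (Nat.cast_ne_zero.2 hN) (by linear_combination k))
    (by rw [V4.lam, map_mk, h]; ring), mul_one, V4.psi]

/-- The exponent of the multiplier of an eta quotient. -/
def psi3 (g₁ g₂ g₃ s : V4) : ZMod 12 := s.x * g₁.psi + s.y * g₂.psi + s.z * g₃.psi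

/-- The normalized value of a combination of eta quotients. -/
def sv (n b : ℤ) (K : ℕ) (ρ : ZMod 12) (g₁ g₂ g₃ : V4) :
    List (ℤ × V4) → QuadraticAlgebra ℤ n b
  | [] => 0
  | t :: L => (if psi3 g₁ g₂ g₃ t.2 = ρ then t.1 else -t.1 : ℤ) *
      (g₁.lam n b ^ (K + t.2.x).toNat * g₂.lam n b ^ (K + t.2.y).toNat *
        g₃.lam n b ^ (K + t.2.z).toNat) + sv n b K ρ g₁ g₂ g₃ L

/-- Conditions for the evaluation. -/
def OkS (k K : ℕ) (ρ : ZMod 12) (g₁ g₂ g₃ : V4) (L : List (ℤ × V4)) : Prop :=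
  ∀ t ∈ L, t.2.wt = k ∧ (psi3 g₁ g₂ g₃ t.2 = ρ ∨ psi3 g₁ g₂ g₃ t.2 = 6 + ρ) ∧
    0 ≤ K + t.2.x ∧ 0 ≤ K + t.2.y ∧ 0 ≤ K + t.2.z

instance (k K : ℕ) (ρ : ZMod 12) (g₁ g₂ g₃ : V4) (L : List (ℤ × V4)) :
    Decidable (OkS k K ρ g₁ g₂ g₃ L) := by unfold OkS; infer_instance

variable {ρ : ZMod 12} {g₁ g₂ g₃ : V4}

theorem e0_at (hp : p ≠ 0) (hq : q ≠ 0) (hτ : 0 < τ.im) (h : φ ω = (p * q : ℕ) * τ)
    (e₁ : g₁.Eqv n b (p * q) 1) (e₂ : g₂.Eqv n b (p * q) p) (e₃ : g₃.Eqv n b (p * q) q) :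
    ∃ u : ℂ, u ≠ 0 ∧ ∀ L, OkS k K ρ g₁ g₂ g₃ L → e0 p q L τ = u * φ (sv n b K ρ g₁ g₂ g₃ L) := by
  have hN := mul_ne_zero hp hq
  have a₁ := eta_at φ hN hτ h e₁
  have a₂ := eta_at φ hN hτ h e₂
  have a₃ := eta_at φ hN hτ h e₃
  have n₁ := left_ne_zero_of_mul (a₁ ▸ eta2_ne (q1_pos one_ne_zero hτ))
  have n₂ := left_ne_zero_of_mul (a₂ ▸ eta2_ne (q1_pos hp hτ))
  have n₃ := left_ne_zero_of_mul (a₃ ▸ eta2_ne (q1_pos hq hτ))
  have n₀ := eta2_ne (q1_pos hN hτ)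
  rw [Nat.cast_one, one_mul] at a₁
  rw [Nat.cast_mul] at a₁ a₂ a₃ n₀
  refine ⟨e12 ρ * eta2 (p * q * τ) ^ k / (φ (g₁.lam n b) * φ (g₂.lam n b) * φ (g₃.lam n b)) ^ K,
    div_ne_zero (mul_ne_zero (e12_ne _) (pow_ne_zero _ n₀))
      (pow_ne_zero _ (mul_ne_zero (mul_ne_zero n₁ n₂) n₃)), fun L hL => ?_⟩
  induction L with
  | nil => simp [e0, sv]
  | cons t L ih =>
    obtain ⟨⟨h1, h2, h3, h4, h5⟩, h6⟩ := List.forall_mem_cons.1 hL
    have w : ∀ {v : ℂ} {x : ℤ}, v ≠ 0 → 0 ≤ K + x → v ^ (K + x).toNat = v ^ K * v ^ x :=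
      fun hv h => by rw [← zpow_natCast, Int.toNat_of_nonneg h, zpow_add₀ hv, zpow_natCast]
    have s : ((if psi3 g₁ g₂ g₃ t.2 = ρ then t.1 else -t.1 : ℤ) : ℂ) * e12 ρ =
        t.1 * e12 (psi3 g₁ g₂ g₃ t.2) := by
      split_ifs with h7
      · rw [h7]
      · rw [h2.resolve_left h7, e12_add, e12_six]
        push_cast
        ring
    rw [e0_cons, ih h6, sv, map_add, mul_add, map_mul, map_intCast, map_mul, map_mul, map_pow,
      map_pow, map_pow, w n₁ h3, w n₂ h4, w n₃ h5, uq, a₁, a₂, a₃, ← zpow_natCast _ k, ← h1, V4.wt,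
      zpow_add₀ n₀, zpow_add₀ n₀, zpow_add₀ n₀]
    simp only [mul_zpow, e12_zpow]
    generalize ((if psi3 g₁ g₂ g₃ t.2 = ρ then t.1 else -t.1 : ℤ) : ℂ) = y at s
    rw [psi3, e12_add, e12_add] at s
    congr 1
    field_simp
    linear_combination -(φ (g₁.lam n b) * φ (g₂.lam n b) * φ (g₃.lam n b)) ^ K * s

theorem RW.seed {a b' c : ℤ} (R : RW (p * q) a b' c) {L : PeriodPair} (hs : Sw a b' c L)
    {LA LB : List (ℤ × V4)} (hA : R.A = e0 p q LA) (hB : R.B = e0 p q LB) (hτ : 0 < τ.im)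
    (h : φ ω = (p * q : ℕ) * τ) {u v : ℤ}
    (e : g₁.Eqv n b (p * q) 1 ∧ g₂.Eqv n b (p * q) p ∧ g₃.Eqv n b (p * q) q ∧
      OkS k K ρ g₁ g₂ g₃ LA ∧ OkS k K ρ g₁ g₂ g₃ LB ∧
      sv n b K ρ g₁ g₂ g₃ LA = ⟨u, v⟩ * sv n b K ρ g₁ g₂ g₃ LB ∧
      norm (sv n b K ρ g₁ g₂ g₃ LB) ≠ 0) :
    R.F τ ∉ L.lattice ∧ L.weierstrassP (R.F τ) - a / 12 = u + v * φ ω := by
  obtain ⟨e₁, e₂, e₃, o₁, o₂, e₄, e₅⟩ := e
  obtain ⟨w, w0, hw⟩ := e0_at φ (left_ne_zero_of_mul R.N0) (right_ne_zero_of_mul R.N0) hτ h e₁ e₂ e₃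
  have b0 : R.B τ ≠ 0 := by
    rw [hB, hw _ o₂]
    refine mul_ne_zero w0 fun k => e₅ ?_
    have := congrArg φ (algebraMap_norm_eq_mul_star (sv n b K ρ g₁ g₂ g₃ LB))
    rwa [map_mul, k, zero_mul, eq_intCast, map_intCast, Int.cast_eq_zero] at this
  obtain ⟨k1, k2⟩ := R.ext2 hs (t := 1) (p := fun i => if i = 0 then -R.A else R.B)
    (fun i => by
      split_ifs
      exacts [fun z hz => (R.qA.hol z hz).neg, R.qB.hol]) (fun y hy => by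
      simp [Finset.sum_range_succ, RW.x, mul_div_cancel₀ _ hy.2.1]) hτ
  refine ⟨k1 b0, mul_left_cancel₀ b0 ?_⟩
  have := k2 (k1 b0)
  simp only [Finset.sum_range_succ, Finset.sum_range_zero, if_true, one_ne_zero, if_false,
    Pi.neg_apply] at this
  rw [hA, hw _ o₁, e₄, map_mul, map_mk, mul_left_comm, ← hw _ o₂, ← hB] at this
  linear_combination this

end seed

end Pool.Agent.B5

namespace Pool.Agent.B6

open Pool.Agent.Lib.MP_696deb_nt Pool.Agent.B4.GE Pool.Agent.Shared.Weier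
open Pool.Agent.B5 (RW Sw md_eq_tr)
open WeierstrassCurve WeierstrassCurve.Affine

theorem new_of [Cw] {N : ℕ} {a b c x0 : ℤ} (R : RW N a b c) (h : R.Gd x0) (ha : WZ.b₂ = a)
    (hb : 2 * WZ.b₄ = b) (hc : WZ.b₆ = c) (c4 : WZ.c₄ ≠ 0) (c6 : WZ.c₆ ≠ 0)
    (hΔ : ∀ l : ℕ, l.Prime → (l : ℤ) ∣ WZ.Δ → l ∣ N) {t : ℕ} [ht : Fact t.Prime] (t3 : 3 ≤ t)
    (tor : Tor WZ t x0) {y : ℤ} (hy : WZ.toAffine.Equation x0 y)
    (hβ : ∀ l : ℕ, l.Prime → (l : ℤ) ∣ coeff 0 R.Bs → l ∣ 2 * N * t)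
    (h3 : coeff t R.cs = tr t cub) (h4 : ∀ l : ℕ, l.Prime → l ∣ N → coeff l R.cs ^ 2 = 1) :
    ∃ D : MD Wu N, New D ∧ Sw a b c D.L ∧ D.F = R.F := by
  obtain ⟨L, per⟩ := exists_per c4 c6
  have cw : B5.Cw a b c Wu := ⟨by rw [← ha]; exact map_b₂ _ _,
    by rw [← hb, Int.cast_mul, Int.cast_ofNat]; exact congrArg _ (map_b₄ _ _),
    by rw [← hc]; exact map_b₆ _ _⟩
  obtain ⟨D, d1, rfl, d2, d3⟩ := R.md cw per h.hW
  have hs := cw.sw per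
  obtain ⟨o1, o2⟩ := R.zero hs h.hW (Ω := D.Ω) (fun z hz => by
    rw [← d3, D.fricke hz, sub_add_cancel]) h.hB h.hx
  obtain ⟨o3, o4⟩ := ce_phi D o1
  have o5 := tor.ord (Int.cast_ne_zero.2 WZ_ne) Wu_bc o3 (by rw [o4, ha, o2])
  have l2 : ∀ l : ℕ, ¬ l ∣ 2 * N → l ≠ 2 := fun l k e => k (e ▸ dvd_mul_right _ _)
  have lp : ∀ l : ℕ, ¬ l ∣ 2 * N → ¬ l ∣ N := fun l k e => k (e.mul_left _)
  have k : ∀ (l : ℕ) [Fact l.Prime], ¬ l ∣ 2 * N → D.c l = tr l cub := fun l hl k => by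
    by_cases e : l = t
    · subst e
      rw [d1]
      exact h3
    have e1 := (Nat.coprime_primes hl.out ht.out).2 e
    rw [cub_fun, ha, hb, hc]
    refine md_eq_tr D t3 e1 (lp l k) (fun m hm => ?_) ?_
      (tor.dvd hy (l2 l k) (mt (hΔ l hl.out) (lp l k)) ha hb hc)
    · rw [← o5, addOrderOf_dvd_iff_zsmul_eq_zero]
      rwa [MD.par_t0, d2, Rat.cast_one, one_mul] at hm
    · rw [d1, R.ode.cong (l2 l k) R.c0 R.c1 R.A0 fun m =>
        k (e1.dvd_of_dvd_mul_right (hβ l hl.out m))]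
  refine ⟨D, ⟨d2, by rwa [d2, Rat.cast_one, one_mul], k, fun l hl e => ?_,
    fun l hl e n => ?_, fun l hl e => ?_⟩, hs, d3⟩
  · have := Fact.mk hl
    rw [k l e, cub_fun, even_tr' (l2 l e) (mt (hΔ l hl) (lp l e)) rfl rfl rfl]
  · simpa only [d1, B5.coeff_tS, e, not_true_eq_false, and_false, if_false, add_zero] using
      h.hT l hl n
  · rw [d1]
    exact h4 l hl e

end Pool.Agent.B6
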