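import Pool.Agent.Lib.MP_696deb_nt.B2.Red0

/-! An integral model of an elliptic curve. -/

set_option autoImplicit false

open WeierstrassCurve WeierstrassCurve.Affine

namespace Pool.Agent.B6

/-- An integral Weierstrass equation with nonzero discriminant. -/
class Cw where
  W : WeierstrassCurve ℤ
  ne : W.Δ ≠ 0

variable [Cw]

/-- The integral model. -/
def WZ : WeierstrassCurve ℤ := Cw.W

/-- The curve over the rational numbers. -/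
def Wu : WeierstrassCurve ℚ := WZ.map (Int.castRingHom ℚ)

theorem WZ_ne : WZ.Δ ≠ 0 := Cw.ne

theorem Wu_eq : Wu = WZ.map (Int.castRingHom ℚ) := rfl

theorem Wu_Δ : Wu.Δ = WZ.Δ := map_Δ _ _

instance : Wu.IsElliptic := ⟨by
  rw [Wu_Δ]
  exact Ne.isUnit (Int.cast_ne_zero.2 WZ_ne)⟩

section
variable {K : Type*} [Field K] [CharZero K]

theorem Wu_bc : Wu.baseChange K = WZ.map (Int.castRingHom K) := by
  rw [Wu, WeierstrassCurve.baseChange, map_map]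
  exact congrArg _ (RingHom.ext_int _ _)

@[simp] lemma Wu_a₁ : (Wu.baseChange K).a₁ = WZ.a₁ := by rw [Wu_bc]; rfl
@[simp] lemma Wu_a₂ : (Wu.baseChange K).a₂ = WZ.a₂ := by rw [Wu_bc]; rfl
@[simp] lemma Wu_a₃ : (Wu.baseChange K).a₃ = WZ.a₃ := by rw [Wu_bc]; rfl
@[simp] lemma Wu_a₄ : (Wu.baseChange K).a₄ = WZ.a₄ := by rw [Wu_bc]; rfl
@[simp] lemma Wu_a₆ : (Wu.baseChange K).a₆ = WZ.a₆ := by rw [Wu_bc]; rfl
@[simp] lemma Wu_b₂ : (Wu.baseChange K).b₂ = WZ.b₂ := by rw [Wu_bc, map_b₂]; rfl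
@[simp] lemma Wu_b₄ : (Wu.baseChange K).b₄ = WZ.b₄ := by rw [Wu_bc, map_b₄]; rfl
@[simp] lemma Wu_b₆ : (Wu.baseChange K).b₆ = WZ.b₆ := by rw [Wu_bc, map_b₆]; rfl
@[simp] lemma Wu_b₈ : (Wu.baseChange K).b₈ = WZ.b₈ := by rw [Wu_bc, map_b₈]; rfl
@[simp] lemma Wu_c₄ : (Wu.baseChange K).c₄ = WZ.c₄ := by rw [Wu_bc, map_c₄]; rfl
@[simp] lemma Wu_c₆ : (Wu.baseChange K).c₆ = WZ.c₆ := by rw [Wu_bc, map_c₆]; rfl
@[simp] lemma Wu_Δ' : (Wu.baseChange K).Δ = WZ.Δ := by rw [Wu_bc, map_Δ]; rfl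

lemma Wu_nonsingular (x y : K) : (Wu.baseChange K).toAffine.Nonsingular x y ↔
    y ^ 2 + WZ.a₁ * x * y + WZ.a₃ * y = x ^ 3 + WZ.a₂ * x ^ 2 + WZ.a₄ * x + WZ.a₆ := by
  rw [← equation_iff_nonsingular, equation_iff]
  simp only [toAffine, Wu_a₁, Wu_a₂, Wu_a₃, Wu_a₄, Wu_a₆]

end

/-- The two-division cubic. -/
def cub {K : Type*} [CommRing K] (x : K) : K :=
  4 * x ^ 3 + WZ.b₂ * x ^ 2 + 2 * WZ.b₄ * x + WZ.b₆

theorem map_cub {K L F : Type*} [CommRing K] [CommRing L] [FunLike F K L] [RingHomClass F K L]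
    (f : F) (x : K) : f (cub x) = cub (f x) := by
  simp [cub, map_ofNat]

end Pool.Agent.B6
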