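import Pool.Agent.Lib.MP_696deb_nt.B6.GW0
import Pool.Agent.Lib.MP_696deb_nt.B2.LO2

/-! Cocycles on tame decomposition groups when only the inertia group acts through a two-group,
and the unramified local condition. -/

set_option autoImplicit false

open scoped NNReal Classical
open Finset

namespace Pool.Agent.B6

open Pool.Agent.Lib.MP_696deb_nt Pool.Agent.Lib.MP_696deb_nt.B2 Pool.Agent.Lib.MP_696deb_nt.B6

variable {M : Type} [AddCommGroup M] {D H : Subgroup Gam} {a : Gam → M →+ M} {c : Gam → M}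
  {w : Plc} {q m : ℕ} {φ τ g σ : Gam}

theorem lf_cob_zero (a : Gam → M →+ M) (g : Gam) : cob a 0 g = 0 := by
  rw [cob, map_zero, sub_zero]

theorem lf_cob_add (x y : M) : cob a (x + y) g = cob a x g + cob a y g := by
  rw [cob, cob, cob, map_add, add_sub_add_comm]

theorem lf_cob_neg (x : M) : cob a (-x) g = -cob a x g := by
  rw [cob, cob, map_neg, neg_sub']

theorem lf_cob_sub (x y : M) : cob a (x - y) g = cob a x g - cob a y g := by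
  rw [sub_eq_add_neg, lf_cob_add, lf_cob_neg, sub_eq_add_neg]

/-- Local cocycles whose restriction to the inertia group is a coboundary. -/
def Lur (H : Subgroup Gam) (w : Plc) (a : Gam → M →+ M) : AddSubgroup (Gam → M) where
  carrier := {c | c ∈ Z1 (H ⊓ Dec w) a ∧ ∃ x, ∀ σ ∈ Ine w, c σ = cob a x σ}
  zero_mem' := ⟨zero_mem _, 0, fun σ _ => (lf_cob_zero a σ).symm⟩
  add_mem' := fun ⟨h, x, hx⟩ ⟨h', y, hy⟩ => ⟨add_mem h h', x + y, fun σ hσ => by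
    rw [Pi.add_apply, hx σ hσ, hy σ hσ, lf_cob_add]⟩
  neg_mem' := fun ⟨h, x, hx⟩ => ⟨neg_mem h, -x, fun σ hσ => by
    rw [Pi.neg_apply, hx σ hσ, lf_cob_neg]⟩

theorem mem_Lur : c ∈ Lur H w a ↔ c ∈ Z1 (H ⊓ Dec w) a ∧ ∃ x, ∀ σ ∈ Ine w, c σ = cob a x σ :=
  Iff.rfl

theorem rs_mem_Lur (hI : Ine w ≤ H) (h : Coc (H ⊓ Dec w) a c) :
    rs (H ⊓ Dec w) c ∈ Lur H w a ↔ ∃ x, ∀ σ ∈ Ine w, c σ = cob a x σ :=
  (and_iff_right h.lo_rs).trans (exists_congr fun _ => forall₂_congr fun σ hσ => by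
    rw [rs_of_mem (show σ ∈ H ⊓ Dec w from ⟨hI hσ, Ine_le w hσ⟩)])

theorem lf_one (ha : Act0 D a) (h : Coc D a c) : c 1 = 0 := by
  have := h.2 1 D.one_mem 1 D.one_mem
  rwa [mul_one, ha.one, left_eq_add] at this

theorem lf_coc_cob (ha : Act0 D a) (x : M) : Coc D a (cob a x) :=
  ⟨ha.sm.comp fun f => f x - x, fun g hg h hh => by
    simp only [cob, ha.mul g hg h hh, map_sub]
    abel⟩

theorem lf_inv (ha : Act0 D a) (hg : g ∈ D) (x : M) : a g⁻¹ (a g x) = x := by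
  rw [← ha.mul _ (inv_mem hg) _ hg, inv_mul_cancel, ha.one]

theorem lf_inv' (ha : Act0 D a) (hg : g ∈ D) (x : M) : a g (a g⁻¹ x) = x := by
  rw [← ha.mul _ hg _ (inv_mem hg), mul_inv_cancel, ha.one]

theorem lf_pow (ha : Act0 D a) (h : Coc D a c) (hg : g ∈ D) (k : ℕ) :
    c (g ^ k) = ∑ i ∈ range k, a (g ^ i) (c g) := by
  induction k with
  | zero => simpa using lf_one ha h
  | succ k ih => rw [pow_succ, h.2 _ (pow_mem hg k) _ hg, ih, sum_range_succ]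

theorem lf_pow_fix (ha : Act0 D a) (h : Coc D a c) (hg : g ∈ D) (e : a g (c g) = c g) (k : ℕ) :
    c (g ^ k) = k • c g := by
  induction k with
  | zero => simpa using lf_one ha h
  | succ k ih => rw [pow_succ', h.2 _ hg _ (pow_mem hg k), ih, map_nsmul, e, succ_nsmul']

theorem lf_act_mem (ha : Act0 D a) (hg : g ∈ D) {N : AddSubgroup M} (hN : ∀ x ∈ N, a g x ∈ N)
    (k : ℕ) : ∀ x ∈ N, a (g ^ k) x ∈ N := by
  induction k with
  | zero => intro x hx; rwa [pow_zero, ha.one]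
  | succ k ih => intro x hx; rw [pow_succ, ha.mul _ (pow_mem hg k) _ hg]; exact ih _ (hN x hx)

theorem lf_pow_mem (ha : Act0 D a) (h : Coc D a c) (hg : g ∈ D) {N : AddSubgroup M}
    (hN : ∀ x ∈ N, a g x ∈ N) (e : c g ∈ N) (k : ℕ) : c (g ^ k) ∈ N := by
  rw [lf_pow ha h hg]
  exact sum_mem fun i _ => lf_act_mem ha hg hN i _ e

/-- Transport of a coboundary to a conjugate subgroup. -/
theorem lf_conj (ha : Act0 H a) (h : Coc H a c) {γ : Gam} (hγ : γ ∈ H) (hg : g ∈ H) {x : M}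
    (e : c (γ⁻¹ * g * γ) = cob a x (γ⁻¹ * g * γ)) : c g = cob a (a γ x - c γ) g := by
  have h1 := mul_mem (mul_mem (inv_mem hγ) hg) hγ
  have h2 := h.2 γ hγ _ h1
  rw [show γ * (γ⁻¹ * g * γ) = g * γ by group, h.2 g hg γ hγ, e, cob, map_sub, ← ha.mul γ hγ _ h1,
    show γ * (γ⁻¹ * g * γ) = g * γ by group, ha.mul g hg γ hγ] at h2
  rw [cob, map_sub]
  linear_combination (norm := abel1) h2

/-- A tame place together with a module on which the inertia group acts through a two-group. -/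
structure TA (H : Subgroup Gam) (w : Plc) (q : ℕ) (φ τ : Gam) (a : Gam → M →+ M) : Prop where
  tm : Tm H w q φ τ
  act : Act0 (H ⊓ Dec w) a
  ine : ∀ σ ∈ Ine w, ∃ n : ℕ, ∀ x, a (σ ^ 2 ^ n) x = x
  two : ∃ m : ℕ, ∀ x : M, 2 ^ m • x = 0

theorem TA.of_act (t : Tm H w q φ τ) (hM : ∀ x : M, 2 ^ m • x = 0) (ha : Act (H ⊓ Dec w) a) :
    TA H w q φ τ a := ⟨t, act0_of ha, fun σ hσ => ha.two σ (t.ine_le hσ), m, hM⟩

theorem TA.of_act3 {sig : Gam →* N2} (t : Tm H w q φ τ) (hM : ∀ x : M, 2 ^ m • x = 0)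
    (ha : Act3 sig (H ⊓ Dec w) a) (h : ∀ σ ∈ Ine w, (sig σ).trace ≠ 1) : TA H w q φ τ a :=
  ⟨t, ha.toAct0, ((ha.mono t.ine_le).act h).two, m, hM⟩

theorem TA.actI (t : TA H w q φ τ a) : Act (Ine w) a :=
  have := t.act.mono t.tm.ine_le
  ⟨this.sm, this.one, this.mul, t.ine⟩

theorem TA.ine_pow (t : TA H w q φ τ a) (h : Coc (H ⊓ Dec w) a c) (hσ : σ ∈ Ine w) :
    ∃ k : ℕ, c σ = c (τ ^ k) ∧ ∀ x, a σ x = a (τ ^ k) x :=
  t.two.elim fun _ hM => t.tm.gen.lo_pow hM t.tm.odd t.actI (h.lo_mono t.tm.ine_le) hσ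

theorem TA.mem_ine (t : TA H w q φ τ a) (h : Coc (H ⊓ Dec w) a c) {N : AddSubgroup M}
    (hN : ∀ x ∈ N, a τ x ∈ N) (e : c τ ∈ N) (hσ : σ ∈ Ine w) : c σ ∈ N := by
  obtain ⟨k, hk, -⟩ := t.ine_pow h hσ
  exact hk ▸ lf_pow_mem t.act h t.tm.τ_mem hN e k

theorem TA.zero_ine (t : TA H w q φ τ a) (h : Coc (H ⊓ Dec w) a c) (e : c τ = 0)
    (hσ : σ ∈ Ine w) : c σ = 0 :=
  t.mem_ine h (N := ⊥) (fun x hx => by rw [AddSubgroup.mem_bot.1 hx, map_zero]; rfl) e hσ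

theorem TA.cob_ine (t : TA H w q φ τ a) (h : Coc (H ⊓ Dec w) a c) {x : M} (e : c τ = a τ x - x)
    (hσ : σ ∈ Ine w) : c σ = cob a x σ :=
  sub_eq_zero.1 (t.zero_ine (h.lo_sub (lf_coc_cob t.act x)) (sub_eq_zero.2 e) hσ)

theorem TA.mem_of (t : TA H w q φ τ a) (h : Coc (H ⊓ Dec w) a c) {N : AddSubgroup M}
    (hN : ∀ x ∈ N, a τ x ∈ N) (hN' : ∀ x ∈ N, a φ x ∈ N) (e : c τ ∈ N) (e' : c φ ∈ N)
    (hg : g ∈ H ⊓ Dec w) : c g ∈ N := by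
  obtain ⟨U, u1, -, u3⟩ := h.1
  obtain ⟨n, σ, hσ, k⟩ := t.tm.dg hg u1
  have h1 := pow_mem t.tm.φ_mem n
  rw [← u3 _ (mul_mem h1 (t.tm.ine_le hσ)) g hg k, h.2 _ h1 _ (t.tm.ine_le hσ)]
  exact add_mem (lf_pow_mem t.act h t.tm.φ_mem hN' e' n)
    (lf_act_mem t.act t.tm.φ_mem hN' n _ (t.mem_ine h hN e hσ))

theorem TA.eq_zero (t : TA H w q φ τ a) (h : Coc (H ⊓ Dec w) a c) (e : c τ = 0) (e' : c φ = 0)
    (hg : g ∈ H ⊓ Dec w) : c g = 0 :=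
  have k : ∀ g, ∀ x ∈ (⊥ : AddSubgroup M), a g x ∈ (⊥ : AddSubgroup M) := fun g x hx => by
    rw [AddSubgroup.mem_bot.1 hx, map_zero]; rfl
  t.mem_of h (k τ) (k φ) e e' hg

theorem TA.ext (t : TA H w q φ τ a) {c' : Gam → M} (h : Coc (H ⊓ Dec w) a c)
    (h' : Coc (H ⊓ Dec w) a c') (e : c τ = c' τ) (e' : c φ = c' φ) (hg : g ∈ H ⊓ Dec w) :
    c g = c' g :=
  sub_eq_zero.1 (t.eq_zero (h.lo_sub h') (sub_eq_zero.2 e) (sub_eq_zero.2 e') hg)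

theorem TA.eq_cob (t : TA H w q φ τ a) (h : Coc (H ⊓ Dec w) a c) {x : M} (e : c τ = a τ x - x)
    (e' : c φ = a φ x - x) (hg : g ∈ H ⊓ Dec w) : c g = cob a x g :=
  t.ext h (lf_coc_cob t.act x) e e' hg

theorem TA.fix (t : TA H w q φ τ a) {x : M} (e : a τ x = x) (e' : a φ x = x)
    (hg : g ∈ H ⊓ Dec w) : a g x = x :=
  sub_eq_zero.1 (t.eq_zero (lf_coc_cob t.act x) (sub_eq_zero.2 e) (sub_eq_zero.2 e') hg)

theorem TA.fix_ine (t : TA H w q φ τ a) {x : M} (e : a τ x = x) (hσ : σ ∈ Ine w) : a σ x = x :=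
  sub_eq_zero.1 (t.zero_ine (lf_coc_cob t.act x) (sub_eq_zero.2 e) hσ)

theorem TA.conj' (t : TA H w q φ τ a) (h : Coc (H ⊓ Dec w) a c) {n : ℕ} {ψ : Gam}
    (hψ : IsFrob w n ψ) (hσ : σ ∈ Ine w) :
    c (ψ * σ * ψ⁻¹) = c (σ ^ n) ∧ ∀ x, a (ψ * σ * ψ⁻¹) x = a (σ ^ n) x := by
  obtain ⟨m, hM⟩ := t.two
  have h1 := conj_mem_Ine hψ.1 hσ
  have ha' : Act (H ⊓ Ine w) a := t.actI.lo_mono inf_le_right
  have h' := h.lo_mono (inf_le_inf_left H (Ine_le w))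
  have hσ' : σ ∈ H ⊓ Ine w := ⟨t.tm.ine hσ, hσ⟩
  have := tame_frob t.tm.odd (loAff_sm ha' h') (loAff_mul ha' h')
    (fun g hg => loAff_two hM ha' h' hg) t.tm.op hψ hσ' (t.tm.ine h1)
  exact loAff_eq ha' h' ⟨t.tm.ine h1, h1⟩ (pow_mem hσ' n) (by rw [this, loAff_pow ha' h' hσ'])

/-- The tame relation. -/
theorem TA.rel (t : TA H w q φ τ a) (h : Coc (H ⊓ Dec w) a c) (hσ : σ ∈ Ine w) :
    c φ + a φ (c σ) = c (σ ^ q) + a (σ ^ q) (c φ) := by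
  obtain ⟨e1, e2⟩ := t.conj' h t.tm.frob hσ
  rw [← e1, ← e2, ← h.2 _ t.tm.φ_mem _ (t.tm.ine_le hσ),
    ← h.2 _ (t.tm.ine_le (conj_mem_Ine t.tm.frob.1 hσ)) _ t.tm.φ_mem, inv_mul_cancel_right]

theorem TA.finite (t : TA H w q φ τ a) [Finite M] : Finite (Z1 (H ⊓ Dec w) a) :=
  Finite.of_injective (fun c => (c.1 τ, c.1 φ)) fun c c' e => Subtype.ext (funext fun g => by
    by_cases hg : g ∈ H ⊓ Dec w
    · exact t.ext c.2.1 c'.2.1 (congrArg Prod.fst e) (congrArg Prod.snd e) hg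
    · rw [c.2.2 g hg, c'.2.2 g hg])

theorem TA.mem_Lur (t : TA H w q φ τ a) :
    c ∈ Lur H w a ↔ c ∈ Z1 (H ⊓ Dec w) a ∧ ∃ x, c τ = a τ x - x :=
  and_congr_right fun h => exists_congr fun _ =>
    ⟨fun k => k τ t.tm.gen.1, fun k _ hσ => t.cob_ine h.1 k hσ⟩

theorem locC_Lur (hI : Ine w ≤ H) (ha : Act0 (H ⊓ Dec w) a) : LocC H w a (Lur H w a) :=
  ⟨fun _ h => h.1, fun x => (rs_mem_Lur hI (lf_coc_cob ha x)).2 ⟨x, fun _ _ => rfl⟩⟩

end Pool.Agent.B6
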