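import Pool.Agent.Lib.MP_696deb_nt.B2.PA0

/-! The algebraic interface of the patching argument when complex conjugation permutes a basis of
the Tate module: one branch, errors that are prime to every prime ideal of height one. -/

set_option autoImplicit false

open scoped Classical
open Finset Matrix PowerSeries

namespace Pool.Agent.B6

open Pool.Agent.Lib.MP_696deb_nt Pool.Agent.Lib.MP_696deb_nt.B2

/-- The matrix that permutes the basis. -/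
def sw (B : Type*) [CommRing B] : Matrix (Fin 2) (Fin 2) B := !![0, 1; 1, 0]

/-- The symmetric pairing `det (x, sw y)`. -/
def b6 {B : Type*} [CommRing B] (x y : Fin 2 → B) : B := x 0 * y 0 - x 1 * y 1

/-- The two generators of the maximal ideal. -/
def YY (y : Lam) : Prop := y = 2 ∨ y = X

section

variable {G : Type} {k : ℕ}

/-- Admissible errors: divisors of `2 ^ e` and of `X ^ e`. -/
def Err (e : ℕ) (a : Ak k) : Prop := ∀ y, YY y → a ∣ Ideal.Quotient.mk (aa k k) (y ^ e)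

theorem Err.of_unit (e : ℕ) {a : Ak k} (h : IsUnit a) : Err e a := fun _ _ => h.dvd

/-- The local condition at the auxiliary prime. -/
noncomputable def Lag (k : ℕ) (φ σ : G) : Submodule Lam (G → Fin 2 → Ak k) where
  carrier := {c | c φ 1 = 0 ∧ c σ 0 = 0}
  zero_mem' := ⟨rfl, rfl⟩
  add_mem' := fun {c c'} h h' => ⟨by simp only [Pi.add_apply, h.1, h'.1, add_zero], by
    simp only [Pi.add_apply, h.2, h'.2, add_zero]⟩
  smul_mem' := fun a c h => ⟨by simp only [Pi.smul_apply, h.1, smul_zero], by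
    simp only [Pi.smul_apply, h.2, smul_zero]⟩

theorem mem_Lag {φ σ : G} {c : G → Fin 2 → Ak k} : c ∈ Lag k φ σ ↔ c φ 1 = 0 ∧ c σ 0 = 0 :=
  Iff.rfl

/-- The localisations at a deep prime are isotropic up to the factor `a`. -/
def IsoW (a : Lam) (S : Submodule Lam (G → Fin 2 → Ak k)) (φ σ : G) : Prop :=
  ∀ I : Ideal Lam, aa k k ≤ I → ∀ c ∈ Wk S I, ∀ c' ∈ Wk S I,
    a • (b6 (c φ) (c' σ) + b6 (c σ) (c' φ)) = 0

/-- What is orthogonal to all localisations is a localisation up to the factor `a`. -/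
def CoW (a : Lam) (S : Submodule Lam (G → Fin 2 → Ak k)) (φ σ : G) : Prop :=
  ∀ j i : ℕ, 1 ≤ j → j ≤ k → i = j ∨ i = 1 → ∀ x y : Fin 2 → Lam ⧸ aa j i,
    (∀ c ∈ Wk S (aa j i), b6 (c φ) y + b6 (c σ) x = 0) →
    ∃ c ∈ Wk S (aa j i), c φ = a • x ∧ c σ = a • y

theorem Wk_smul {S : Submodule Lam (G → Fin 2 → Ak k)} {I : Ideal Lam} {c : G → Fin 2 → Lam ⧸ I}
    (h : c ∈ Wk S I) (a : Lam) : a • c ∈ Wk S I := fun ι => by
  have e : (fun g i => ι ((a • c) g i)) = a • fun g i => ι (c g i) :=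
    funext fun g => funext fun i => map_smul ι a (c g i)
  rw [e]
  exact S.smul_mem a (h ι)

theorem IsoW.of_dvd {a b : Lam} {S : Submodule Lam (G → Fin 2 → Ak k)} {φ σ : G}
    (h : IsoW a S φ σ) (hb : a ∣ b) : IsoW b S φ σ := fun I hI c hc c' hc' => by
  obtain ⟨t, rfl⟩ := hb
  rw [mul_comm, mul_smul, h I hI c hc c' hc', smul_zero]

theorem CoW.of_dvd {a b : Lam} {S : Submodule Lam (G → Fin 2 → Ak k)} {φ σ : G}
    (h : CoW a S φ σ) (hb : a ∣ b) : CoW b S φ σ := fun j i h1 h2 h3 x y hxy => by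
  obtain ⟨t, rfl⟩ := hb
  obtain ⟨c, hc, h4, h5⟩ := h j i h1 h2 h3 x y hxy
  exact ⟨t • c, Wk_smul hc t, by rw [Pi.smul_apply, h4, mul_comm, mul_smul],
    by rw [Pi.smul_apply, h5, mul_comm, mul_smul]⟩

/-- The form in which isotropy and co-isotropy are needed. -/
theorem iso_co {e : ℕ} {S : Submodule Lam (G → Fin 2 → Ak k)} {φ σ : G} (h2 : IsoW (2 ^ e) S φ σ)
    (hX : IsoW (X ^ e) S φ σ) (hc : CoW 1 S φ σ) (y : Lam) (hy : YY y) :
    IsoW (y ^ e) S φ σ ∧ CoW (y ^ e) S φ σ :=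
  ⟨by rcases hy with rfl | rfl; exacts [h2, hX], hc.of_dvd (one_dvd _)⟩

end

/-- The data at level `k`.  The number `e` bounds all errors. -/
structure Lev (G : Type) [Group G] (θ : G →* G) (e k : ℕ) where
  act : G →* Matrix (Fin 2) (Fin 2) (Ak k)
  N : Subgroup G
  normal : N.Normal
  θN : ∀ σ ∈ N, θ σ ∈ N
  actN : ∀ σ ∈ N, act σ = 1
  z1 : G
  act_z1 : act z1 = (1 + X : Lam) • 1
  act_θz1 : (1 + X : Lam) • act (θ z1) = 1
  z1_comm : ∀ g, z1 * g * z1⁻¹ * g⁻¹ ∈ N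
  z2 : G
  d : Ak k
  act_z2 : act z2 = d • 1
  d_dvd : d - 1 ∣ 2 ^ e
  z2_comm : ∀ g, z2 * g * z2⁻¹ * g⁻¹ ∈ N
  fl : G
  fl_det : Err e (act fl - 1).det
  un : Fin 2 → G
  un_sq : ∀ v, (act (un v) - 1) * (act (un v) - 1) = 0
  un_tr : Err e ((act (un 0) - 1) * (act (un 1) - 1)).trace
  un_θ : ∀ v, act (θ (un v)) = sw _ * act (un v) * sw _
  St : Type
  S : St → Submodule Lam (G → Fin 2 → Ak k)
  kap : St → G → Fin 2 → Ak k
  kap_mem : ∀ n, kap n ∈ S n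
  coc : ∀ n, ∀ c ∈ S n, ∀ g h, c (g * h) = c g + act g *ᵥ c h
  van : ∀ n, ∀ c ∈ S n, c fl = 0
  step : ∀ n, ∀ σ ∈ N, ∃ (n' : St) (Sq : Submodule Lam (G → Fin 2 → Ak k)) (φ s : G)
    (u u1 u2 : Ak k), s ∈ N ∧ S n = Sq ⊓ Van k s ∧ S n' = Sq ⊓ Van k φ ∧
    Err e u ∧ Err e u1 ∧ Err e u2 ∧
    (∀ c ∈ S n, c φ = u • (c σ + c (θ σ))) ∧ (∀ c ∈ S n', c (θ s) = -c s) ∧
    u1 • kap n' s = u2 • (sw _ *ᵥ kap n φ) ∧
    ∀ y, YY y → IsoW (y ^ e) Sq φ s ∧ CoW (y ^ e) Sq φ s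
  n0 : St
  S0 : Submodule Lam (G → Fin 2 → Ak k)
  φ0 : G
  s0 : G
  fin0 : Finite S0
  S_n0 : S n0 = S0 ⊓ Van k s0
  iso0 : ∀ y, YY y → IsoW (y ^ e) S0 φ0 s0
  h : Lam
  kap_h : ∃ u : Ak k, Err e u ∧ kap n0 φ0 1 = u * Ideal.Quotient.mk _ h
  sq : Nat.card (Wk (S0 ⊓ Lag k φ0 s0) (aa k k ⊔ Ideal.span {(2 * X) ^ (k - 1)})) ≤
    Nat.card ↥(S0 ⊓ Lag k φ0 s0)

/-- The main Selmer module. -/
noncomputable def Lev.SF {G : Type} [Group G] {θ : G →* G} {e k : ℕ} (T : Lev G θ e k) :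
    Submodule Lam (G → Fin 2 → Ak k) := T.S0 ⊓ Lag k T.φ0 T.s0

/-- The result of the patching argument. -/
def PAStmt : Prop := ∀ (G : Type) [Group G] (θ : G →* G) (e : ℕ) (lv : ℕ → ℕ)
  (T : ∀ k, Lev G θ e (lv k)), (∀ k, k < lv k) →
  (∃ j, ∀ k, j ≤ lv k → ∃ m < j, (T k).h ^ 2 ∉ aa 1 (m + 1) ∧
    2 ^ m ≤ Nat.card (Wk (T k).SF (aa 1 j))) →
  (∃ C, ∀ k j, j ≤ lv k → Nat.card (Wk ((T k).S (T k).n0) (aa j 1)) ≤ C * 4 ^ j) →
  (¬ ∃ a : ℕ, ∀ k, ∀ σ ∈ (T k).N, ∀ i,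
    2 ^ a * (T k).kap (T k).n0 σ i ∈ Ideal.span {Ideal.Quotient.mk (aa (lv k) (lv k)) X}) ∧
  ∃ C, ∀ j, ∃ k, j ≤ lv k ∧ Nat.card (Wk ((T k).S (T k).n0) (aa j 1)) ≤ C * 2 ^ j

end Pool.Agent.B6
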