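import Pool.Agent.Lib.MP_696deb_nt.B6.GWa

/-! The plane, its three nonzero vectors, corestriction, and composition series. -/

set_option autoImplicit false

open scoped NNReal
open Finset Matrix

namespace Pool.Agent.Lib.MP_696deb_nt.B6

open Pool.Agent.Lib.MP_696deb_nt.B2

/-- The action on the plane. -/
noncomputable def sg (sig : Gam →* N2) (g : Gam) : W2 →+ W2 :=
  AddMonoidHom.mk' (fun v => sig g *ᵥ v) (mulVec_add _)

theorem sg_apply (sig : Gam →* N2) (g : Gam) (v : W2) : sg sig g v = sig g *ᵥ v := rfl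

theorem sg_one (sig : Gam →* N2) (v : W2) : sg sig 1 v = v := by
  rw [sg_apply, map_one, one_mulVec]

theorem sg_mul (sig : Gam →* N2) (g h : Gam) (v : W2) :
    sg sig (g * h) v = sg sig g (sg sig h v) := by
  simp only [sg_apply, map_mul, mulVec_mulVec]

/-- The alternating form. -/
def dW : W2 →+ W2 →+ ZMod (2 ^ 1) :=
  AddMonoidHom.mk' (fun x => AddMonoidHom.mk' (fun y => x 0 * y 1 + x 1 * y 0) fun y z => by
    simp only [Pi.add_apply]; ring) fun x y => AddMonoidHom.ext fun z => by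
      simp only [AddMonoidHom.mk'_apply, Pi.add_apply, AddMonoidHom.add_apply]; ring

theorem dW_apply (x y : W2) : dW x y = x 0 * y 1 + x 1 * y 0 := rfl

/-- The same form with values in a larger cyclic group. -/
def bW (n : ℕ) : W2 →+ W2 →+ ZMod (2 ^ (1 + n)) :=
  (AddMonoidHom.compHom (AddMonoidHom.mk' (up n) (up_add n))).comp dW

theorem bW_apply (n : ℕ) (x y : W2) : bW n x y = up n (dW x y) := rfl

/-- The first basis vector. -/
def e0 : W2 := ![1, 0]

/-- The nonzero vectors. -/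
abbrev X3 : Type := {v : W2 // v ≠ 0}

instance X3.fintype : Fintype X3 := Subtype.fintype _

/-- The first basis vector again. -/
def x0 : X3 := ⟨e0, by decide⟩

theorem sg_ne (sig : Gam →* N2) (g : Gam) (x : X3) : sg sig g x.1 ≠ 0 := fun h =>
  x.2 (by rw [← sg_one sig x.1, ← inv_mul_cancel g, sg_mul, h, map_zero])

/-- The permutation of the nonzero vectors. -/
noncomputable def pm (sig : Gam →* N2) : Gam →* Equiv.Perm X3 :=
  MonoidHom.toHomPerm
    { toFun := fun g x => ⟨sg sig g x.1, sg_ne sig g x⟩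
      map_one' := funext fun x => Subtype.ext (sg_one sig x.1)
      map_mul' := fun g h => funext fun x => Subtype.ext (sg_mul sig g h x.1) }

theorem pm_val (sig : Gam →* N2) (g : Gam) (x : X3) : (pm sig g x).1 = sg sig g x.1 := rfl

/-- The stabilizer of the first basis vector. -/
def P0 (sig : Gam →* N2) : Subgroup Gam where
  carrier := {g | sg sig g e0 = e0}
  one_mem' := sg_one sig e0
  mul_mem' := fun {g h} hg hh => by
    show sg sig (g * h) e0 = e0
    rw [sg_mul, hh, hg]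
  inv_mem' := fun {g} hg => by
    show sg sig g⁻¹ e0 = e0
    nth_rewrite 1 [← show sg sig g e0 = e0 from hg]
    rw [← sg_mul, inv_mul_cancel, sg_one]

theorem mem_P0 {sig : Gam →* N2} {g : Gam} : g ∈ P0 sig ↔ sg sig g e0 = e0 := Iff.rfl

/-- `D'` is the stabilizer of the first vector in `D`, and `r` is a system of representatives. -/
structure Tv (sig : Gam →* N2) (D D' : Subgroup Gam) (r : X3 → Gam) : Prop where
  sm : Sm ⊤ sig
  iff : ∀ g, g ∈ D' ↔ g ∈ D ∧ sg sig g e0 = e0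
  mem : ∀ x, r x ∈ D
  eq : ∀ x, sg sig (r x) e0 = x.1
  one : r x0 = 1
  o3 : ∃ γ ∈ D, (sig γ).trace = 1

/-- The component of `g` in the stabilizer. -/
noncomputable def hc (sig : Gam →* N2) (r : X3 → Gam) (g : Gam) (x : X3) : Gam :=
  (r (pm sig g x))⁻¹ * g * r x

section

variable {M M' N N' A : Type} [AddCommGroup M] [AddCommGroup M'] [AddCommGroup N] [AddCommGroup N']
  [AddCommGroup A]

/-- Corestriction. -/
noncomputable def cor (sig : Gam →* N2) (r : X3 → Gam) (a : Gam → M →+ M) (c : Gam → M) (g : Gam) :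
    M := ∑ x, a (r (pm sig g x)) (c (hc sig r g x))

/-- A submodule that is a plane, the quotient, and the dual sequence. -/
structure Step3 (sig : Gam →* N2) (n : ℕ) (H : Subgroup Gam) (a : Gam → M →+ M)
    (a' : Gam → M' →+ M') (b : M →+ M' →+ ZMod (2 ^ (1 + n))) (a2 : Gam → N →+ N)
    (a2' : Gam → N' →+ N') (b2 : N →+ N' →+ ZMod (2 ^ (1 + n))) (ι : W2 →+ M) (π : M →+ N)
    (j : N' →+ M') (ε : M' →+ W2) : Prop where
  dual : Dual3 sig (1 + n) H a a' b
  dual2 : Dual3 sig (1 + n) H a2 a2' b2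
  ι_inj : Function.Injective ι
  π_surj : Function.Surjective π
  ex : ∀ x, π x = 0 ↔ ∃ t, ι t = x
  j_inj : Function.Injective j
  ε_surj : Function.Surjective ε
  ex' : ∀ y, ε y = 0 ↔ ∃ z, j z = y
  aι : ∀ g ∈ H, ∀ t, a g (ι t) = ι (sg sig g t)
  πa : ∀ g ∈ H, ∀ x, π (a g x) = a2 g (π x)
  ja : ∀ g ∈ H, ∀ z, j (a2' g z) = a' g (j z)
  εa : ∀ g ∈ H, ∀ y, ε (a' g y) = sg sig g (ε y)
  bj : ∀ x z, b x (j z) = b2 (π x) z
  bι : ∀ t y, b (ι t) y = up n (dW t (ε y))

/-- One coordinate of the obstruction to lifting a cocycle. -/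
noncomputable def ob3 (a : Gam → M →+ M) (ι : W2 →+ M) (π : M →+ N) (c : Gam → N) (g h : Gam) :
    Z2 :=
  dW e0 (Function.invFun ι (Function.invFun π (c g) + a g (Function.invFun π (c h)) -
    Function.invFun π (c (g * h))))

/-- The cocycle `c` has a lift on `D`. -/
def Lifts (D : Subgroup Gam) (a : Gam → M →+ M) (π : M →+ N) (c : Gam → N) : Prop :=
  ∃ c₁, Coc D a c₁ ∧ ∀ g ∈ D, π (c₁ g) = c g

/-- The image of the rigidly trivial cocycles. -/
noncomputable def imR3 (H : Subgroup Gam) (a' : Gam → M' →+ M') (s : Finset Plc) (ε : M' →+ A) :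
    AddSubgroup ((Gam → A) × (Plc → A)) :=
  (Rs H a' s).map (AddMonoidHom.prodMap (ε.compLeft Gam) (ε.compLeft Plc))

/-- The part of the image with trivial cocycle. -/
noncomputable def R03 (H : Subgroup Gam) (a' : Gam → M' →+ M') (s : Finset Plc) (ε : M' →+ A) :
    AddSubgroup ((Gam → A) × (Plc → A)) := imR3 H a' s ε ⊓ (AddMonoidHom.fst _ _).ker

/-- The cocycles in the image. -/
noncomputable def SR3 (H : Subgroup Gam) (a' : Gam → M' →+ M') (s : Finset Plc) (ε : M' →+ A) :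
    AddSubgroup (Gam → A) := (imR3 H a' s ε).map (AddMonoidHom.fst _ _)

end

theorem dW_mul : ∀ A B : N2, A * B = 1 → ∀ x y : W2, dW (A *ᵥ x) (A *ᵥ y) = dW x y := by
  simp only [dW_apply]
  decide +kernel

theorem dW_sg (sig : Gam →* N2) (g : Gam) (x y : W2) : dW (sg sig g x) (sg sig g y) = dW x y :=
  dW_mul _ (sig g⁻¹) (by rw [← map_mul, mul_inv_cancel, map_one]) x y

theorem dW_self : ∀ x : W2, dW x x = 0 := by
  simp only [dW_apply]
  decide

theorem dW_comm : ∀ x y : W2, dW x y = dW y x := by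
  simp only [dW_apply]
  decide

theorem dW_left : ∀ x : W2, (∀ y, dW x y = 0) → x = 0 := by
  simp only [dW_apply]
  decide

theorem W2.add_self : ∀ x : W2, x + x = 0 := by decide

theorem W2.neg_eq : ∀ x : W2, -x = x := by decide

theorem card_W2 : Nat.card W2 = 4 := by
  rw [Nat.card_eq_fintype_card]
  rfl

theorem card_X3 : Fintype.card X3 = 3 := by decide

theorem X3.sum : ∑ x : X3, x.1 = 0 := by decide

theorem X3.sum_dW : ∀ v : W2, ∑ x : X3, dW x.1 v • x.1 = v := by
  simp only [dW_apply]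
  decide

theorem X3.sum_dW' : ∀ v : W2, ∑ x : X3, dW x.1 v = 0 := by
  simp only [dW_apply]
  decide

theorem X3.dW_e0 : ∀ x : X3, dW e0 x.1 + 1 = if x = x0 then 1 else 0 := by
  simp only [dW_apply]
  decide

theorem N2.key : ∀ A B : N2, A * B = 1 → A.trace = 1 → A * A + A + 1 = 0 := by
  decide +kernel

theorem N2.fpf' : ∀ A : N2, A * A + A + 1 = 0 → ∀ x : W2, A *ᵥ x = x → x = 0 := by
  decide +kernel

theorem N2.fpf (A B : N2) (h : A * B = 1) (k : A.trace = 1) (x : W2) (e : A *ᵥ x = x) : x = 0 :=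
  N2.fpf' A (N2.key A B h k) x e

theorem N2.tr_zero : ∀ A B : N2, A * B = 1 → A *ᵥ e0 = e0 → A.trace ≠ 1 := by
  decide +kernel

theorem N2.orbit' : ∀ A : N2, A * A + A + 1 = 0 → ∀ x : W2,
    x ∈ ({0, e0, A *ᵥ e0, A *ᵥ A *ᵥ e0} : Finset W2) := by
  decide +kernel

theorem N2.orbit (A B : N2) (h : A * B = 1) (k : A.trace = 1) (x : W2) (e : x ≠ 0) :
    x = e0 ∨ x = A *ᵥ e0 ∨ x = A *ᵥ A *ᵥ e0 := by
  simpa [e] using N2.orbit' A (N2.key A B h k) x

theorem N2.cube : ∀ A B : N2, A * B = 1 → A.trace = 1 → A * A * A = 1 := by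
  decide +kernel

theorem N2.cob : ∀ A B : N2, A * B = 1 → ∀ y : W2, (∀ x, A *ᵥ x = x → dW x y = 0) →
    ∃ z, y = A *ᵥ z - z := by
  simp only [dW_apply]
  decide +kernel

theorem sig_inv (sig : Gam →* N2) (g : Gam) : sig g * sig g⁻¹ = 1 := by
  rw [← map_mul, mul_inv_cancel, map_one]

end Pool.Agent.Lib.MP_696deb_nt.B6
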