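import Pool.Agent.Lib.MP_696deb_nt.B6.GW1
import Pool.Agent.Lib.MP_696deb_nt.B2.GWo

/-! Corestriction from the stabilizer of a vector. -/

set_option autoImplicit false

open scoped NNReal Classical
open Finset Matrix

namespace Pool.Agent.Lib.MP_696deb_nt.B6

open Pool.Agent.Lib.MP_696deb_nt.B2

variable {M M' : Type} [AddCommGroup M] [AddCommGroup M'] {m : ℕ} {H D D' : Subgroup Gam} {w : Plc}
  {a : Gam → M →+ M} {a' : Gam → M' →+ M'} {b : M →+ M' →+ ZMod (2 ^ m)} {c : Gam → M}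
  {c' : Gam → M'} {sig : Gam →* N2} {r : X3 → Gam} {γ : Gam}

theorem op_P0 (h : Sm ⊤ sig) : Op (P0 sig) := by
  obtain ⟨U, u1, -, u3⟩ := h
  refine Subgroup.isOpen_mono (fun g hg => ?_) u1
  rw [mem_P0, sg_apply, ← u3 1 trivial g trivial (by simpa using hg), map_one, one_mulVec]

theorem exists_Tv (h : Sm ⊤ sig) (hγ : γ ∈ D) (ht : (sig γ).trace = 1)
    (k : ∀ g, g ∈ D' ↔ g ∈ D ∧ sg sig g e0 = e0) : ∃ r, Tv sig D D' r := by
  have h1 : ∀ x : X3, ∃ g, g ∈ D ∧ sg sig g e0 = x.1 ∧ (x = x0 → g = 1) := fun x => by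
    by_cases e : x = x0
    · exact ⟨1, one_mem _, by rw [sg_one, e]; rfl, fun _ => rfl⟩
    rcases N2.orbit _ _ (sig_inv sig γ) ht x.1 x.2 with l | l | l
    · exact absurd (Subtype.ext l) e
    · exact ⟨γ, hγ, l.symm, fun l => absurd l e⟩
    · exact ⟨γ * γ, mul_mem hγ hγ, (sg_mul sig γ γ e0).trans l.symm, fun l => absurd l e⟩
  choose r h2 h3 h4 using h1
  exact ⟨r, h, k, h2, h3, h4 x0 rfl, γ, hγ, ht⟩

theorem exists_Tv_glob (h : Sm ⊤ sig) (hγ : γ ∈ H) (ht : (sig γ).trace = 1) :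
    ∃ r, Tv sig H (H ⊓ P0 sig) r := exists_Tv h hγ ht fun _ => Iff.rfl

theorem exists_Tv_loc (h : Sm ⊤ sig) (hγ : γ ∈ H ⊓ Dec w) (ht : (sig γ).trace = 1) :
    ∃ r, Tv sig (H ⊓ Dec w) (H ⊓ P0 sig ⊓ Dec w) r :=
  exists_Tv h hγ ht fun _ => ⟨fun k => ⟨⟨k.1.1, k.2⟩, k.1.2⟩, fun k => ⟨⟨k.1.1, k.2⟩, k.1.2⟩⟩

theorem Tv.le (T : Tv sig D D' r) : D' ≤ D := fun g hg => ((T.iff g).1 hg).1

theorem Tv.fix (T : Tv sig D D' r) {g : Gam} (hg : g ∈ D') : sg sig g e0 = e0 := ((T.iff g).1 hg).2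

theorem Tv.hc_mem (T : Tv sig D D' r) {g : Gam} (hg : g ∈ D) (x : X3) : hc sig r g x ∈ D' := by
  refine (T.iff _).2 ⟨mul_mem (mul_mem (inv_mem (T.mem _)) hg) (T.mem _), ?_⟩
  rw [hc, sg_mul, sg_mul, T.eq, ← pm_val, ← T.eq, ← sg_mul, inv_mul_cancel, sg_one]

theorem hc_mul (g h : Gam) (x : X3) :
    hc sig r (g * h) x = hc sig r g (pm sig h x) * hc sig r h x := by
  simp only [hc, map_mul, Equiv.Perm.mul_apply]
  group

theorem hc_eq (g : Gam) (x : X3) : r (pm sig g x) * hc sig r g x = g * r x := by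
  rw [hc]
  group

theorem Tv.hc_x0 (T : Tv sig D D' r) {g : Gam} (hg : g ∈ D') : hc sig r g x0 = g := by
  rw [hc, show pm sig g x0 = x0 from Subtype.ext (T.fix hg), T.one]
  group

theorem Tv.sm_pm (T : Tv sig D D' r) : Sm D (pm sig) := by
  obtain ⟨U, u1, u2, u3⟩ := T.sm
  refine ⟨U, u1, u2, fun g _ h _ e => Equiv.ext fun x => Subtype.ext ?_⟩
  rw [pm_val, pm_val, sg_apply, sg_apply, u3 g trivial h trivial e]

/-- Smooth functions of the component in the stabilizer. -/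
theorem Tv.sm_hc {α : Type} (T : Tv sig D D' r) {f : Gam → α} (h : Sm D' f) (x : X3) :
    Sm D fun g => f (hc sig r g x) := by
  obtain ⟨U, u1, u2, u3⟩ := T.sm_pm
  obtain ⟨V, v1, v2, v3⟩ := h
  refine ⟨U ⊓ V, u1.inter v1, inferInstance, fun g hg k hk e =>
    v3 _ (T.hc_mem hg x) _ (T.hc_mem hk x) ?_⟩
  have e1 : (hc sig r g x)⁻¹ * hc sig r k x = (r x)⁻¹ * (g⁻¹ * k) * (r x)⁻¹⁻¹ := by
    rw [hc, hc, u3 g hg k hk e.1]
    group
  rw [e1]
  exact v2.conj_mem _ e.2 _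

theorem Tv.relIndex (T : Tv sig D D' r) : D'.relIndex D = 3 := by
  rw [← card_X3, ← Nat.card_eq_fintype_card]
  refine (Nat.card_eq_of_bijective (fun x : X3 => (QuotientGroup.mk ⟨r x, T.mem x⟩ :
    D ⧸ D'.subgroupOf D)) ⟨fun x y e => ?_, fun q => ?_⟩).symm
  · have h1 : (r x)⁻¹ * r y ∈ D' :=
      Subgroup.mem_subgroupOf.1 ((QuotientGroup.eq (s := D'.subgroupOf D)).1 e)
    have h2 := congrArg (sg sig (r x)) (T.fix h1)
    rw [← sg_mul, mul_inv_cancel_left, T.eq, T.eq] at h2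
    exact Subtype.ext h2.symm
  · obtain ⟨g, rfl⟩ := QuotientGroup.mk_surjective q
    refine ⟨pm sig g x0, QuotientGroup.eq.2 ?_⟩
    have h1 := T.hc_mem g.2 x0
    rwa [hc, T.one, mul_one] at h1

theorem Tv.act (T : Tv sig D D' r) (h : Act3 sig D a) : Act D' a :=
  (h.mono T.le).act fun g hg => N2.tr_zero _ _ (sig_inv sig g) (T.fix hg)

theorem Tv.dual (T : Tv sig D D' r) (h : Dual3 sig m D a a' b) : Dual m D' a a' b :=
  (h.mono T.le).dual fun g hg => N2.tr_zero _ _ (sig_inv sig g) (T.fix hg)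

/-- There are no invariants. -/
theorem Tv.H0_eq (T : Tv sig D D' r) (h : Act3 sig D a) : H0 D a = ⊥ := by
  obtain ⟨γ, h1, h2⟩ := T.o3
  exact (AddSubgroup.eq_bot_iff_forall _).2 fun x hx => h.fpf γ h1 h2 x (hx γ h1)

theorem Tv.cor_coc (T : Tv sig D D' r) (ha : Act0 D a) (h : Coc D' a c) :
    Coc D a (cor sig r a c) := by
  refine ⟨((Sm.pi fun x => T.sm_hc h.1 x).comp₂ T.sm_pm
    fun f p => ∑ x, a (r (p x)) (f x)), fun g hg k hk => ?_⟩
  rw [cor, cor, cor, map_sum, ← Equiv.sum_comp (pm sig k)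
    fun x => a (r (pm sig g x)) (c (hc sig r g x)), ← sum_add_distrib]
  refine sum_congr rfl fun x _ => ?_
  rw [hc_mul, h.2 _ (T.hc_mem hg _) _ (T.hc_mem hk _), map_add, map_mul, Equiv.Perm.mul_apply,
    ← ha.mul _ (T.mem _) _ (T.le (T.hc_mem hg _)), hc_eq, ha.mul _ hg _ (T.mem _)]

theorem Tv.cor_res (T : Tv sig D D' r) (h : Coc D a c) :
    ∃ x, ∀ g ∈ D, cor sig r a c g = 3 • c g + cob a x g := by
  refine ⟨∑ x, c (r x), fun g hg => ?_⟩
  have h1 : ∀ x, a (r (pm sig g x)) (c (hc sig r g x)) =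
      c g + a g (c (r x)) - c (r (pm sig g x)) := fun x => by
    rw [← h.2 g hg _ (T.mem x), ← hc_eq (sig := sig), h.2 _ (T.mem _) _ (T.le (T.hc_mem hg x)),
      add_sub_cancel_left]
  rw [cor, sum_congr rfl fun x _ => h1 x, sum_sub_distrib, sum_add_distrib, sum_const, card_univ,
    card_X3, Equiv.sum_comp (pm sig g) fun x => c (r x), cob, map_sum, add_sub_assoc]

theorem Tv.cor_cob (T : Tv sig D D' r) (ha : Act0 D a) {y : M} (h : ∀ g ∈ D', c g = cob a y g) :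
    ∀ g ∈ D, cor sig r a c g = cob a (∑ x, a (r x) y) g := by
  intro g hg
  have h1 : ∀ x, a (r (pm sig g x)) (c (hc sig r g x)) =
      a g (a (r x) y) - a (r (pm sig g x)) y := fun x => by
    rw [h _ (T.hc_mem hg x), cob, map_sub, ← ha.mul _ (T.mem _) _ (T.le (T.hc_mem hg x)), hc_eq,
      ha.mul g hg _ (T.mem x)]
  rw [cor, sum_congr rfl fun x _ => h1 x, sum_sub_distrib,
    Equiv.sum_comp (pm sig g) fun x => a (r x) y, cob, map_sum]

theorem Tv.cor_map (T : Tv sig D D' r) (f : M →+ M') (hf : ∀ g ∈ D, ∀ x, f (a g x) = a' g (f x))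
    (g : Gam) : f (cor sig r a c g) = cor sig r a' (fun k => f (c k)) g := by
  rw [cor, cor, map_sum]
  exact sum_congr rfl fun x _ => hf _ (T.mem _) _

theorem GWb_cy_one (m : ℕ) : cy m 1 = 1 := by rw [cy, cyc_one, map_one]

/-- A splitting of a cup product can be corestricted. -/
theorem Tv.GWb_spl (T : Tv sig D D' r) (ha : Act0 D a) {μ : Gam → M →+ ZMod (2 ^ m)} (h1 : Sm D μ)
    (h2 : ∀ y, μ 1 y = 0) (h3 : ∀ g ∈ D, ∀ k ∈ D, ∀ y, μ (g * k) y = cy m g * μ k y + μ g (a k y))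
    (h : Coc D' a c) (k : Spl m D' fun g k => μ g (c k)) :
    Spl m D fun g k => μ g (cor sig r a c k) := by
  obtain ⟨β, b1, b2⟩ := k
  obtain ⟨aE, hE⟩ : ∃ aE : Gam → ZMod (2 ^ m) × M →+ ZMod (2 ^ m) × M,
      aE = fun g => ((AddMonoidHom.mulLeft (cy m g)).coprod (μ g)).prod
        ((a g).comp (AddMonoidHom.snd _ _)) := ⟨_, rfl⟩
  have e : ∀ g z, aE g z = (cy m g * z.1 + μ g z.2, a g z.2) := fun g z => by rw [hE]; rfl
  have k1 : Act0 D aE := ⟨by
      rw [hE]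
      exact ((sm_cy m).comp₂ h1 Prod.mk).comp₂ ha.sm fun x f =>
        ((AddMonoidHom.mulLeft x.1).coprod x.2).prod (f.comp (AddMonoidHom.snd _ _)),
    fun z => by rw [e, GWb_cy_one, one_mul, h2, add_zero, ha.one],
    fun g hg k hk z => by
      simp only [e, h3 g hg k hk, ha.mul g hg k hk, B3c_cy_mul, Prod.mk.injEq, and_true]
      ring⟩
  have k2 : Coc D' aE fun g => (-β g, c g) := ⟨b1.comp₂ h.1 fun x y => (-x, y), fun g hg k hk => by
    have := b2 g hg k hk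
    simp only [e, h.2 g hg k hk, Prod.mk_add_mk, Prod.mk.injEq, and_true] at this ⊢
    linear_combination -this⟩
  have k3 := T.cor_coc k1 k2
  refine ⟨fun g => -(cor sig r aE (fun g => (-β g, c g)) g).1, k3.1.comp fun z => -z.1,
    fun g hg k hk => ?_⟩
  have k4 := congrArg Prod.fst (k3.2 g hg k hk)
  have k5 := T.cor_map (a := aE) (a' := a) (c := fun g => (-β g, c g)) (AddMonoidHom.snd _ _)
    (fun g _ z => by rw [e]; rfl) k
  rw [e, Prod.fst_add, show (cor sig r aE (fun g => (-β g, c g)) k).2 = cor sig r a c k from k5] at k4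
  linear_combination -k4

/-- The projection formula. -/
theorem Tv.inv_cor (T : Tv sig (H ⊓ Dec w) (H ⊓ P0 sig ⊓ Dec w) r) (F : CFT) (hH : Op H)
    (hd : Dual0 m (H ⊓ Dec w) a a' b) (h : Coc (H ⊓ Dec w) a c)
    (h' : Coc (H ⊓ P0 sig ⊓ Dec w) a' c') :
    F.inv m H w (cupb b a' c (cor sig r a' c')) = F.inv m (H ⊓ P0 sig) w (cupb b a' c c') := by
  have hH' := hH.inf (op_P0 T.sm)
  obtain ⟨L⟩ := exists_LD hH w
  obtain ⟨κ, hκ⟩ := exists_kum m L.π_ne (GWo_fx L)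
  have o1 := L.om_sm m
  have o2 := L.om_hom m
  have c0 := c2_cup o1 o2 hκ.sm hκ.coc
  have c1 := c2_cupb0 (hd.mono T.le) (h.mono T.le) h'
  have hu : IsUnit (F.inv m H w (cup m (L.om m) κ)) := by
    refine GWo_unit fun k => ?_
    rw [← F.red k hH c0, ← inv_om_unif F hH L (GWo_red k hκ)]
    refine F.congr fun g _ h _ => ?_
    rw [cup, map_mul, map_mul, GWo_cast k (L.om m g), ← L.om_red k g,
      show ZMod.castHom (pow_dvd_pow 2 k) (ZMod (2 ^ 1)) (cy m g) = cy 1 g from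
        DFunLike.congr_fun (PadicInt.zmod_cast_comp_toZModPow 1 m k) (cyc g), cy_one_eq, mul_one]
    rfl
  have h3 : IsUnit ((3 : ℕ) : ZMod (2 ^ m)) :=
    (ZMod.isUnit_iff_coprime 3 _).2 (Nat.Coprime.pow_right _ (by norm_num))
  obtain ⟨k, hk⟩ : ∃ k, F.inv m (H ⊓ P0 sig) w (cupb b a' c c') =
      k * ((3 : ℕ) * F.inv m H w (cup m (L.om m) κ)) := by
    obtain ⟨u, hu⟩ := h3.mul hu
    exact ⟨_ * u⁻¹, by rw [← hu, Units.inv_mul_cancel_right]⟩
  have s1 : Spl m (H ⊓ P0 sig ⊓ Dec w) (cupb b a' c c' + fun g h => -k * cup m (L.om m) κ g h) := by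
    rw [← F.zero_iff hH' (c1.add ((c0.mono T.le).smul _)), F.add hH' c1 ((c0.mono T.le).smul _),
      F.smul hH' (c0.mono T.le), F.res hH' inf_le_left c0, T.relIndex, hk]
    ring
  obtain ⟨aC, hC⟩ : ∃ aC : Gam → ZMod (2 ^ m) →+ ZMod (2 ^ m),
      aC = fun g => AddMonoidHom.mulLeft (cy m g) := ⟨_, rfl⟩
  have e : ∀ g z, aC g z = cy m g * z := fun g z => by rw [hC]; rfl
  have k0 : Act0 (H ⊓ Dec w) aC := ⟨by rw [hC]; exact (sm_cy m).comp _,
    fun z => by rw [e, GWb_cy_one, one_mul], fun g _ k _ z => by rw [e, e, e, B3c_cy_mul, mul_assoc]⟩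
  have k1 : Coc (H ⊓ Dec w) aC κ := ⟨hκ.sm, fun g hg k hk => by rw [e, hκ.coc g hg k hk]⟩
  have k2 : Act0 (H ⊓ Dec w) fun g => (a' g).prodMap (aC g) :=
    ⟨hd.act'.sm.comp₂ k0.sm fun f f' => f.prodMap f', fun z => Prod.ext (hd.act'.one _) (k0.one _),
      fun g hg k hk z => Prod.ext (hd.act'.mul g hg k hk _) (k0.mul g hg k hk _)⟩
  have k3 : Coc (H ⊓ P0 sig ⊓ Dec w) (fun g => (a' g).prodMap (aC g)) fun g => (c' g, κ g) :=
    ⟨h'.1.comp₂ (k1.1.mono T.le) Prod.mk, fun g hg k hk =>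
      Prod.ext (h'.2 g hg k hk) (k1.2 g (T.le hg) k (T.le hk))⟩
  have s2 := T.GWb_spl k2 (μ := fun g => ((b (c g)).comp (a' g)).coprod
    (AddMonoidHom.mulLeft (-k * (L.om m g * cy m g))))
    ((h.1.comp₂ hd.act'.sm Prod.mk).comp₂ (o1.comp₂ (sm_cy m) Prod.mk) fun x y =>
      ((b x.1).comp x.2).coprod (AddMonoidHom.mulLeft (-k * (y.1 * y.2))))
    (fun y => by simp [coc_one0 hd.act h, cle_one o2])
    (fun g hg l hl y => by
      simp only [AddMonoidHom.coprod_apply, AddMonoidHom.comp_apply, AddMonoidHom.coe_mulLeft,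
        AddMonoidHom.coe_prodMap, Prod.map_fst, Prod.map_snd, e, h.2 g hg l hl, o2 g hg l hl,
        hd.act'.mul g hg l hl, B3c_cy_mul, map_add, AddMonoidHom.add_apply, hd.eqv g hg]
      ring) k3 (by
      obtain ⟨β, b1, b2⟩ := s1
      refine ⟨β, b1, fun g hg l hl => Eq.trans ?_ (b2 g hg l hl)⟩
      simp only [AddMonoidHom.coprod_apply, AddMonoidHom.comp_apply, AddMonoidHom.coe_mulLeft,
        Pi.add_apply, cupb, cup]
      ring)
  obtain ⟨x, hx⟩ := T.cor_res k1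
  obtain ⟨c2, c3⟩ := B3c_cup_cob (κ := cob aC x) F hH o1 o2 x fun g _ => by rw [cob, e]; ring
  have c4 := c2_cupb0 hd h (T.cor_coc hd.act' h')
  have c5 := (c0.smul (-k * 3)).add (c2.smul (-k))
  have s3 := (F.zero_iff hH s2.c2).2 s2
  rw [F.congr (c' := cupb b a' c (cor sig r a' c') + ((fun g l => -k * 3 * cup m (L.om m) κ g l) +
      fun g l => -k * cup m (L.om m) (cob aC x) g l)) fun g hg l hl => by
        have e1 := T.cor_map (a := fun g => (a' g).prodMap (aC g)) (a' := a')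
          (c := fun g => (c' g, κ g)) (AddMonoidHom.fst _ _) (fun _ _ _ => rfl) l
        have e2 := T.cor_map (a := fun g => (a' g).prodMap (aC g)) (a' := aC)
          (c := fun g => (c' g, κ g)) (AddMonoidHom.snd _ _) (fun _ _ _ => rfl) l
        simp only [AddMonoidHom.coe_fst, AddMonoidHom.coe_snd] at e1 e2
        simp only [AddMonoidHom.coprod_apply, AddMonoidHom.comp_apply, AddMonoidHom.coe_mulLeft,
          Pi.add_apply, cupb, cup, e1, e2, hx l hl, nsmul_eq_mul]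
        push_cast
        ring,
    F.add hH c4 c5, F.add hH (c0.smul _) (c2.smul _), F.smul hH c0, F.smul hH c2, c3] at s3
  rw [hk]
  push_cast
  linear_combination s3

/-- The local pairing is nondegenerate. -/
theorem Tv.nondeg (T : Tv sig (H ⊓ Dec w) (H ⊓ P0 sig ⊓ Dec w) r) (F : CFT) (hH : Op H)
    [Finite M] [Finite M'] (hd : Dual3 sig m (H ⊓ Dec w) a a' b) (h : Coc (H ⊓ Dec w) a c)
    (k : ∀ c', Coc (H ⊓ Dec w) a' c' → F.inv m H w (cupb b a' c c') = 0) :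
    ∃ x, ∀ g ∈ H ⊓ Dec w, c g = cob a x g := by
  obtain ⟨y, hy⟩ := (ld_core F (hH.inf (op_P0 T.sm)) (T.dual hd)).2.2 c (h.mono T.le) fun c' hc' => by
    rw [← T.inv_cor F hH hd.zero h hc']
    exact k _ (T.cor_coc hd.act'.toAct0 hc')
  obtain ⟨x, hx⟩ := T.cor_res h
  have h1 := T.cor_cob hd.act.toAct0 hy
  obtain ⟨u, v, e⟩ : IsCoprime (3 : ℤ) (2 ^ m) := IsCoprime.pow_right (by norm_num)
  refine ⟨u • (∑ x, a (r x) y - x), fun g hg => ?_⟩
  have h2 : (3 : ℤ) • c g = cob a (∑ x, a (r x) y - x) g := by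
    have h3 := hx g hg
    rw [h1 g hg, ← sub_eq_iff_eq_add] at h3
    rw [show (3 : ℤ) • c g = 3 • c g from natCast_zsmul _ 3, ← h3, cob, cob, cob, map_sub]
    abel
  have h4 : ((2 : ℤ) ^ m) • c g = 0 := by
    rw [← hd.zero.pow_smul (c g), ← natCast_zsmul]
    push_cast
    rfl
  rw [cob, map_zsmul, ← smul_sub, ← cob, ← h2, smul_smul, eq_sub_of_add_eq e, sub_smul, one_smul,
    mul_smul, h4, smul_zero, sub_zero]

end Pool.Agent.Lib.MP_696deb_nt.B6
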