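import Pool.Agent.Lib.MP_696deb_nt.B6.GWb

/-! Composition series. -/

set_option autoImplicit false

open scoped NNReal Classical
open Finset Matrix

namespace Pool.Agent.Lib.MP_696deb_nt.B6

open Pool.Agent.Lib.MP_696deb_nt.B2

variable {M M' N N' : Type} [AddCommGroup M] [AddCommGroup M'] [AddCommGroup N] [AddCommGroup N']
  {n : ℕ} {H D D' : Subgroup Gam} {w : Plc} {a : Gam → M →+ M} {a' : Gam → M' →+ M'}
  {b : M →+ M' →+ ZMod (2 ^ (1 + n))} {a2 : Gam → N →+ N} {a2' : Gam → N' →+ N'}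
  {b2 : N →+ N' →+ ZMod (2 ^ (1 + n))} {ι : W2 →+ M} {π : M →+ N} {j : N' →+ M'} {ε : M' →+ W2}
  {sig : Gam →* N2} {r : X3 → Gam} {γ : Gam}

theorem act3_sg (h : Sm ⊤ sig) (H : Subgroup Gam) : Act3 sig H (sg sig) := by
  refine ⟨⟨(h.mono le_top).comp fun A => AddMonoidHom.mk' (fun v => A *ᵥ v) (mulVec_add _),
    sg_one sig, fun g _ k _ => sg_mul sig g k⟩, fun g _ e => ⟨0, fun x => ?_⟩,
    fun g _ e x => N2.fpf _ _ (sig_inv sig g) e x⟩
  rw [pow_zero, pow_one g, sg_apply, e, one_mulVec]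

theorem dual3_W (h : Sm ⊤ sig) (n : ℕ) (H : Subgroup Gam) :
    Dual3 sig (1 + n) H (sg sig) (sg sig) (bW n) := by
  refine ⟨h, act3_sg h H, act3_sg h H, fun g _ x y => ?_,
    fun x k => dW_left x fun y => up_eq_zero.1 (k y),
    fun y k => dW_left y fun x => (dW_comm y x).trans (up_eq_zero.1 (k x))⟩
  rw [bW_apply, bW_apply, dW_sg, cy_mul_up]

theorem GWc_form (f : W2 → Z2) (h : ∀ u v, f (u + v) = f u + f v) : ∃ w, ∀ v, f v = dW v w := by
  have h0 : f 0 = 0 := left_eq_add.1 ((congrArg f (add_zero 0)).symm.trans (h 0 0))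
  have k : ∀ v : W2, v = 0 ∨ v = ![1, 0] ∨ v = ![0, 1] ∨ v = ![1, 0] + ![0, 1] := by decide
  have l : ∀ s t : Z2, t = dW ![1, 0] ![s, t] ∧ s = dW ![0, 1] ![s, t] := by
    simp only [dW_apply]
    decide
  refine ⟨![f ![0, 1], f ![1, 0]], fun v => ?_⟩
  rcases k v with rfl | rfl | rfl | rfl
  · rw [h0, map_zero, AddMonoidHom.zero_apply]
  · exact (l _ _).1
  · exact (l _ _).2
  · rw [h, map_add, AddMonoidHom.add_apply, ← (l _ _).1, ← (l _ _).2]

theorem GWc_span : ∀ u v : W2, dW u v ≠ 0 → ∀ x, x = 0 ∨ x = u ∨ x = v ∨ x = u + v := by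
  simp only [dW_apply]
  decide +kernel

theorem GWc_dW : ∀ x y : X3, (dW x.1 y.1).val = if x = y then 0 else 1 := by
  simp only [dW_apply]
  decide +kernel

theorem GWc_sur : ∀ A : N2, A * A + A + 1 = 0 → ∀ t : W2, ∃ s, A *ᵥ s - s = t := by
  decide +kernel

theorem GWc_rep (φ : W2 → ZMod (2 ^ (1 + n))) (h : ∀ u v, φ (u + v) = φ u + φ v) :
    ∃ w, ∀ v, φ v = up n (dW v w) := by
  have h0 : φ 0 = 0 := left_eq_add.1 ((congrArg φ (add_zero 0)).symm.trans (h 0 0))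
  choose f hf using fun v => exists_up (n := n) (x := φ v) (by rw [← h, W2.add_self, h0])
  obtain ⟨w, hw⟩ := GWc_form f fun u v => up_inj (n := n) (by rw [up_add, hf, hf, hf, h])
  exact ⟨w, fun v => by rw [← hw, hf]⟩

theorem GWc_uq {u u' : W2} (h : ∀ v, up n (dW v u) = up n (dW v u')) : u = u' :=
  sub_eq_zero.1 (dW_left _ fun v => by rw [dW_comm, map_sub, up_inj (h v), sub_self])

theorem GWc_val {t : M} (h : t + t = 0) (s s' : Z2) : (s + s').val • t = s.val • t + s'.val • t := by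
  have e0 : (0 : Z2).val = 0 := rfl
  have e1 : (1 : Z2).val = 1 := rfl
  rcases Z2.cases s with rfl | rfl
  · rw [zero_add, e0, zero_nsmul, zero_add]
  rcases Z2.cases s' with rfl | rfl
  · rw [add_zero, e0, zero_nsmul, add_zero]
  · rw [Z2.add_self, e0, e1, zero_nsmul, one_nsmul, h]

theorem GWc_iota [Finite M] [Nontrivial M] (T : Tv sig H D' r) (ha : Act3 sig H a) {m : ℕ}
    (hm : ∀ x : M, 2 ^ m • x = 0) : ∃ ι : W2 →+ M, Function.Injective ι ∧
      ∀ g ∈ H, ∀ v, a g (ι v) = ι (sg sig g v) := by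
  obtain ⟨t, h0, h2, hf⟩ := exists_fixed (T.act ha) hm
  obtain ⟨γ, hγ, ht⟩ := T.o3
  have k1 : ∀ g ∈ H, ∀ x, a g (a (r x) t) = a (r (pm sig g x)) t := fun g hg x => by
    rw [← ha.mul g hg _ (T.mem x), ← hc_eq (sig := sig), ha.mul _ (T.mem _) _ (T.le (T.hc_mem hg x)),
      hf _ (T.hc_mem hg x)]
  have k2 : ∑ x, a (r x) t = 0 := ha.fpf γ hγ ht _ (by
    simp only [map_sum, k1 γ hγ]
    exact Equiv.sum_comp (pm sig γ) fun x => a (r x) t)
  refine ⟨AddMonoidHom.mk' (fun v => ∑ x : X3, (dW x.1 v).val • a (r x) t) fun u v => ?_,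
    (injective_iff_map_eq_zero _).2 fun v hv => by_contra fun v0 => h0 ?_, fun g hg v => ?_⟩
  · rw [← sum_add_distrib]
    exact sum_congr rfl fun x _ => by
      rw [map_add, GWc_val (by rw [← map_add, h2, map_zero])]
  · have e : ∑ x, a (r x) t = ∑ x : X3, ((dW x.1 v).val • a (r x) t +
        if x = ⟨v, v0⟩ then a (r x) t else 0) := sum_congr rfl fun x _ => by
      rw [GWc_dW x ⟨v, v0⟩]
      split_ifs <;> simp
    rw [sum_add_distrib, k2, show ∑ x : X3, (dW x.1 v).val • a (r x) t = 0 from hv, zero_add,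
      sum_ite_eq', if_pos (mem_univ _)] at e
    rw [← ha.one t, ← inv_mul_cancel (r ⟨v, v0⟩), ha.mul _ (inv_mem (T.mem _)) _ (T.mem _), ← e,
      map_zero]
  · simp only [AddMonoidHom.mk'_apply, map_sum, map_nsmul, k1 g hg]
    rw [← Equiv.sum_comp (pm sig g) fun x => (dW x.1 (sg sig g v)).val • a (r x) t]
    simp only [pm_val, dW_sg]

theorem GWc_surj (ha : Act3 sig H a) (hπ : Function.Surjective π)
    (k : ∀ g ∈ H, ∀ x, π (a g x) = a2 g (π x)) (ex : ∀ x, π x = 0 ↔ ∃ t, ι t = x)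
    (aι : ∀ g ∈ H, ∀ t, a g (ι t) = ι (sg sig g t)) : Act3 sig H a2 := by
  obtain ⟨U, u1, u2, u3⟩ := ha.sm
  refine ⟨⟨⟨U, u1, u2, fun g hg h hh e => AddMonoidHom.ext fun x => ?_⟩, fun x => ?_,
    fun g hg h hh x => ?_⟩, fun g hg e => ?_, fun g hg e x hx => ?_⟩
  · obtain ⟨x, rfl⟩ := hπ x
    rw [← k g hg, ← k h hh, u3 g hg h hh e]
  · obtain ⟨x, rfl⟩ := hπ x
    rw [← k 1 (one_mem _), ha.one]
  · obtain ⟨x, rfl⟩ := hπ x
    rw [← k _ (mul_mem hg hh), ← k h hh, ← k g hg, ha.mul g hg h hh]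
  · obtain ⟨l, hl⟩ := ha.two g hg e
    refine ⟨l, fun x => ?_⟩
    obtain ⟨x, rfl⟩ := hπ x
    rw [← k _ (pow_mem hg _), hl]
  · obtain ⟨x, rfl⟩ := hπ x
    obtain ⟨t, ht⟩ := (ex (a g x - x)).1 (by rw [map_sub, k g hg, hx, sub_self])
    obtain ⟨s, rfl⟩ := GWc_sur _ (N2.key _ _ (sig_inv sig g) e) t
    refine (ex x).2 ⟨s, (sub_eq_zero.1 (ha.fpf g hg e _ ?_)).symm⟩
    rw [map_sub, ← sg_apply, ← aι g hg] at ht
    rw [map_sub]
    linear_combination (norm := abel1) -ht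

theorem GWc_inj (ha : Act3 sig H a') (hj : Function.Injective j)
    (k : ∀ g ∈ H, ∀ z, j (a2' g z) = a' g (j z)) : Act3 sig H a2' := by
  obtain ⟨U, u1, u2, u3⟩ := ha.sm
  refine ⟨⟨⟨U, u1, u2, fun g hg h hh e => AddMonoidHom.ext fun x => hj ?_⟩, fun x => hj ?_,
    fun g hg h hh x => hj ?_⟩, fun g hg e => ?_, fun g hg e x hx => hj ?_⟩
  · rw [k g hg, k h hh, u3 g hg h hh e]
  · rw [k 1 (one_mem _), ha.one]
  · rw [k _ (mul_mem hg hh), k g hg, k h hh, ha.mul g hg h hh]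
  · obtain ⟨l, hl⟩ := ha.two g hg e
    exact ⟨l, fun x => hj (by rw [k _ (pow_mem hg _), hl])⟩
  · rw [map_zero]
    exact ha.fpf g hg e _ (by rw [← k g hg, hx])

theorem exists_step3 [Finite M] [Finite M'] [Nontrivial M] (T : Tv sig H D' r)
    (hd : Dual3 sig (1 + n) H a a' b) :
    ∃ (N N' : Type) (_ : AddCommGroup N) (_ : AddCommGroup N') (_ : Finite N) (_ : Finite N')
      (a2 : Gam → N →+ N) (a2' : Gam → N' →+ N') (b2 : N →+ N' →+ ZMod (2 ^ (1 + n)))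
      (ι : W2 →+ M) (π : M →+ N) (j : N' →+ M') (ε : M' →+ W2),
      Step3 sig n H a a' b a2 a2' b2 ι π j ε := by
  obtain ⟨ι, i1, aι⟩ := GWc_iota T hd.act hd.zero.pow_smul
  obtain ⟨ε, bι⟩ : ∃ ε : M' →+ W2, ∀ t y, b (ι t) y = up n (dW t (ε y)) := by
    choose f hf using fun y => GWc_rep (n := n) (fun v => b (ι v) y) fun u v => by
      rw [map_add, map_add, AddMonoidHom.add_apply]
    exact ⟨AddMonoidHom.mk' f fun s t => GWc_uq (n := n) fun v => by
      rw [map_add, up_add, ← hf, ← hf, ← hf, map_add], fun t y => hf y t⟩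
  have εa : ∀ g ∈ H, ∀ y, ε (a' g y) = sg sig g (ε y) := fun g hg y => GWc_uq (n := n) fun v => by
    have e : v = sg sig g (sg sig g⁻¹ v) := by rw [← sg_mul, mul_inv_cancel, sg_one]
    rw [e, dW_sg, ← bι, ← aι g hg, hd.eqv g hg, bι, cy_mul_up]
  have nz : ∀ v, v ≠ 0 → ∃ y, dW v (ε y) ≠ 0 := fun v hv => by_contra fun k => hv (i1 (by
    rw [map_zero]
    refine hd.left _ fun y => ?_
    rw [bι, not_not.1 fun e => k ⟨y, e⟩, up_zero]))
  have hε : Function.Surjective ε := fun x => by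
    obtain ⟨y1, h1⟩ := nz e0 x0.2
    obtain ⟨y2, h2⟩ := nz (ε y1) fun e => h1 (by rw [e, map_zero])
    rcases GWc_span _ _ h2 x with rfl | rfl | rfl | rfl
    exacts [⟨0, map_zero _⟩, ⟨y1, rfl⟩, ⟨y2, rfl⟩, ⟨y1 + y2, map_add _ _ _⟩]
  let π : M →+ M ⧸ ι.range := QuotientAddGroup.mk' ι.range
  have hπ : Function.Surjective π := QuotientAddGroup.mk'_surjective _
  let j : ε.ker →+ M' := ε.ker.subtype
  have hj : Function.Injective j := Subtype.val_injective
  have A2 : ∀ g, ∃ f : M ⧸ ι.range →+ M ⧸ ι.range, g ∈ H → ∀ x, π (a g x) = f (π x) := fun g => by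
    by_cases hg : g ∈ H
    · refine ⟨QuotientAddGroup.map _ _ (a g) ?_, fun _ _ => rfl⟩
      rintro _ ⟨t, rfl⟩
      exact ⟨_, (aι g hg t).symm⟩
    · exact ⟨0, fun h => absurd h hg⟩
  have A2' : ∀ g, ∃ f : ε.ker →+ ε.ker, g ∈ H → ∀ z, j (f z) = a' g (j z) := fun g => by
    by_cases hg : g ∈ H
    · exact ⟨((a' g).comp j).codRestrict _ fun z =>
        (εa g hg _).trans ((congrArg _ z.2).trans (map_zero _)), fun _ _ => rfl⟩
    · exact ⟨0, fun h => absurd h hg⟩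
  choose a2 πa using A2
  choose a2' ja using A2'
  obtain ⟨b2, bj⟩ : ∃ b2 : M ⧸ ι.range →+ ε.ker →+ ZMod (2 ^ (1 + n)),
      ∀ x z, b x (j z) = b2 (π x) z := by
    refine ⟨QuotientAddGroup.lift _ (b.compl₂ j) ?_, fun _ _ => rfl⟩
    rintro _ ⟨t, rfl⟩
    refine AddMonoidHom.ext fun z => (bι t z).trans ?_
    rw [show ε z = 0 from z.2, map_zero, up_zero, AddMonoidHom.zero_apply]
  have ex : ∀ x, π x = 0 ↔ ∃ t, ι t = x := fun x => QuotientAddGroup.eq_zero_iff x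
  have ex' : ∀ y, ε y = 0 ↔ ∃ z, j z = y := fun y =>
    ⟨fun h => ⟨⟨y, h⟩, rfl⟩, fun ⟨z, hz⟩ => hz ▸ z.2⟩
  refine ⟨M ⧸ ι.range, ε.ker, inferInstance, inferInstance, inferInstance, inferInstance, a2, a2',
    b2, ι, π, j, ε, hd, ⟨hd.sm, GWc_surj hd.act hπ πa ex aι, GWc_inj hd.act' hj ja,
      fun g hg x z => ?_, fun x hx => ?_, fun z hz => hj ?_⟩, i1, hπ, ex, hj, hε, ex', aι, πa, ja,
    εa, bj, bι⟩
  · obtain ⟨x, rfl⟩ := hπ x
    rw [← πa g hg, ← bj, ← bj, ja g hg, hd.eqv g hg]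
  · obtain ⟨x, rfl⟩ := hπ x
    have hz : ∀ y y', ε y = ε y' → b x y = b x y' := fun y y' hy => by
      obtain ⟨z, e⟩ := (ex' (y - y')).1 (by rw [map_sub, hy, sub_self])
      rw [← sub_eq_zero, ← map_sub, ← e, bj, hx]
    choose s hs using hε
    obtain ⟨t, ht⟩ := GWc_rep (n := n) (fun v => b x (s v)) fun u v => by
      rw [← map_add]
      exact hz _ _ (by rw [map_add, hs, hs, hs])
    refine (ex x).2 ⟨t, sub_eq_zero.1 (hd.left _ fun y => ?_)⟩
    rw [map_sub, AddMonoidHom.sub_apply, bι, dW_comm, ← ht, hz _ _ (hs _), sub_self]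
  · rw [map_zero]
    exact hd.right _ fun x => by rw [bj, hz]

theorem Dual0.subsingleton_zero {b : M →+ M' →+ ZMod (2 ^ 0)} (hd : Dual0 0 H a a' b) :
    Subsingleton M := by
  have : Subsingleton (ZMod (2 ^ 0)) := inferInstanceAs (Subsingleton (ZMod 1))
  exact subsingleton_of_forall_eq 0 fun x => hd.left x fun y => Subsingleton.elim _ _

theorem Step3.mono (S : Step3 sig n H a a' b a2 a2' b2 ι π j ε) (k : D ≤ H) :
    Step3 sig n D a a' b a2 a2' b2 ι π j ε := by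
  exact ⟨S.dual.mono k, S.dual2.mono k, S.ι_inj, S.π_surj, S.ex, S.j_inj, S.ε_surj, S.ex',
    fun g hg => S.aι g (k hg), fun g hg => S.πa g (k hg), fun g hg => S.ja g (k hg),
    fun g hg => S.εa g (k hg), S.bj, S.bι⟩

theorem Step3.card (S : Step3 sig n H a a' b a2 a2' b2 ι π j ε) : Nat.card M = 4 * Nat.card N := by
  have h1 : π.ker = ι.range := AddSubgroup.ext S.ex
  rw [card_ker_range π, h1, AddMonoidHom.range_eq_top.2 S.π_surj, AddSubgroup.card_top,
    ← Nat.card_congr (AddMonoidHom.ofInjective S.ι_inj).toEquiv, card_W2]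

theorem Step3.card' (S : Step3 sig n H a a' b a2 a2' b2 ι π j ε) :
    Nat.card M' = 4 * Nat.card N' := by
  have h1 : ε.ker = j.range := AddSubgroup.ext S.ex'
  rw [card_ker_range ε, h1, AddMonoidHom.range_eq_top.2 S.ε_surj, AddSubgroup.card_top,
    ← Nat.card_congr (AddMonoidHom.ofInjective S.j_inj).toEquiv, card_W2, mul_comm]

theorem Step3.good (S : Step3 sig n H a a' b a2 a2' b2 ι π j ε) {s : Finset Plc}
    (k : GoodA H a s) : GoodA H a2 s := by
  refine fun w hw => ⟨(k w hw).1, fun σ hσ x => ?_⟩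
  obtain ⟨x, rfl⟩ := S.π_surj x
  rw [← S.πa σ hσ.1, (k w hw).2 σ hσ]

theorem Step3.goodW (S : Step3 sig n H a a' b a2 a2' b2 ι π j ε) {s : Finset Plc}
    (k : GoodA H a s) : GoodA H (sg sig) s := by
  refine fun w hw => ⟨(k w hw).1, fun σ hσ x => S.ι_inj ?_⟩
  rw [← S.aι σ hσ.1, (k w hw).2 σ hσ]

theorem Step3.π_invFun (S : Step3 sig n H a a' b a2 a2' b2 ι π j ε) (y : N) :
    π (Function.invFun π y) = y := Function.invFun_eq (S.π_surj y)

theorem Step3.ι_invFun (S : Step3 sig n H a a' b a2 a2' b2 ι π j ε) {x : M} (h : π x = 0) :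
    ι (Function.invFun ι x) = x := Function.invFun_eq ((S.ex x).1 h)

theorem Step3.j_invFun (S : Step3 sig n H a a' b a2 a2' b2 ι π j ε) {y : M'} (h : ε y = 0) :
    j (Function.invFun j y) = y := Function.invFun_eq ((S.ex' y).1 h)

theorem Step3.invFun_ι (S : Step3 sig n H a a' b a2 a2' b2 ι π j ε) (t : W2) :
    Function.invFun ι (ι t) = t := Function.leftInverse_invFun S.ι_inj t

theorem Step3.inv_cup_j (S : Step3 sig n D a a' b a2 a2' b2 ι π j ε) (F : CFT)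
    (c : Gam → M) (c' : Gam → N') (hD : H ⊓ Dec w ≤ D) :
    F.inv (1 + n) H w (cupb b a' c fun g => j (c' g)) =
      F.inv (1 + n) H w (cupb b2 a2' (fun g => π (c g)) c') := by
  refine F.congr fun g hg k _ => ?_
  rw [cupb, cupb, ← S.ja g (hD hg), S.bj]

/-- The exact sequence of cocycles. -/
theorem Step3.card_ker (S : Step3 sig n D a a' b a2 a2' b2 ι π j ε) :
    Nat.card (Z1 D a ⊓ (π.compLeft Gam).ker : AddSubgroup (Gam → M)) = Nat.card (Z1 D (sg sig)) ∧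
      (Finite (Z1 D (sg sig)) →
        Finite (Z1 D a ⊓ (π.compLeft Gam).ker : AddSubgroup (Gam → M))) := by
  rw [GWf_Z1 (aA := sg sig) S.ι_inj S.ex fun g hg t => (S.aι g hg t).symm]
  exact GWf_card S.ι_inj _

theorem Step3.card_ker_Zu (S : Step3 sig n H a a' b a2 a2' b2 ι π j ε) (s : Finset Plc) :
    Nat.card (Zu H a s ⊓ (π.compLeft Gam).ker : AddSubgroup (Gam → M)) =
      Nat.card (Zu H (sg sig) s) ∧ (Finite (Zu H (sg sig) s) →
        Finite (Zu H a s ⊓ (π.compLeft Gam).ker : AddSubgroup (Gam → M))) := by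
  rw [GWf_Zu (aA := sg sig) S.ι_inj S.ex fun g hg t => (S.aι g hg t).symm]
  exact GWf_card S.ι_inj _

/-- Induction along a composition series. -/
theorem dual3_ind (T : Tv sig H D' r)
    {P : ∀ (M M' : Type) [AddCommGroup M] [AddCommGroup M'], (Gam → M →+ M) → (Gam → M' →+ M') →
      (M →+ M' →+ ZMod (2 ^ (1 + n))) → Prop}
    (h0 : ∀ (M M' : Type) [AddCommGroup M] [AddCommGroup M'] [Subsingleton M] [Subsingleton M']
      (a : Gam → M →+ M) (a' : Gam → M' →+ M') (b : M →+ M' →+ ZMod (2 ^ (1 + n))), P M M' a a' b)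
    (h1 : ∀ (M M' N N' : Type) [AddCommGroup M] [AddCommGroup M'] [AddCommGroup N]
      [AddCommGroup N'] [Finite M] [Finite M'] [Finite N] [Finite N'] (a : Gam → M →+ M)
      (a' : Gam → M' →+ M') (b : M →+ M' →+ ZMod (2 ^ (1 + n))) (a2 : Gam → N →+ N)
      (a2' : Gam → N' →+ N') (b2 : N →+ N' →+ ZMod (2 ^ (1 + n))) (ι : W2 →+ M) (π : M →+ N)
      (j : N' →+ M') (ε : M' →+ W2), Step3 sig n H a a' b a2 a2' b2 ι π j ε → P N N' a2 a2' b2 →
      P M M' a a' b)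
    (M M' : Type) [AddCommGroup M] [AddCommGroup M'] [Finite M] [Finite M'] (a : Gam → M →+ M)
    (a' : Gam → M' →+ M') (b : M →+ M' →+ ZMod (2 ^ (1 + n))) (hd : Dual3 sig (1 + n) H a a' b) :
    P M M' a a' b := by
  induction hk : Nat.card M using Nat.strong_induction_on generalizing M M' with
  | _ k ih =>
    rcases subsingleton_or_nontrivial M with h | h
    · have : Subsingleton M' := subsingleton_of_forall_eq 0 fun y => hd.right y fun x => by
        rw [Subsingleton.elim x 0, map_zero, AddMonoidHom.zero_apply]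
      exact h0 M M' a a' b
    · obtain ⟨N, N', _, _, _, _, a2, a2', b2, ι, π, j, ε, S⟩ := exists_step3 T hd
      refine h1 M M' N N' a a' b a2 a2' b2 ι π j ε S (ih (Nat.card N) ?_ N N' a2 a2' b2 S.dual2 rfl)
      have := S.card
      have := Nat.card_pos (α := N)
      omega

end Pool.Agent.Lib.MP_696deb_nt.B6
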