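import Pool.Agent.Lib.MP_696deb_nt.B6.GWc

/-! The obstruction to lifting a cocycle. -/

set_option autoImplicit false

open scoped NNReal Classical
open Finset Matrix

namespace Pool.Agent.Lib.MP_696deb_nt.B6

open Pool.Agent.Lib.MP_696deb_nt.B2

variable {M M' N N' : Type} [AddCommGroup M] [AddCommGroup M'] [AddCommGroup N] [AddCommGroup N']
  {n : ℕ} {H D D' : Subgroup Gam} {w : Plc} {a : Gam → M →+ M} {a' : Gam → M' →+ M'}
  {b : M →+ M' →+ ZMod (2 ^ (1 + n))} {a2 : Gam → N →+ N} {a2' : Gam → N' →+ N'}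
  {b2 : N →+ N' →+ ZMod (2 ^ (1 + n))} {ι : W2 →+ M} {π : M →+ N} {j : N' →+ M'} {ε : M' →+ W2}
  {sig : Gam →* N2} {r : X3 → Gam} {γ : Gam}

/-- The full obstruction. -/
noncomputable def GWd_o (a : Gam → M →+ M) (ι : W2 →+ M) (π : M →+ N) (c : Gam → N)
    (g h : Gam) : W2 :=
  Function.invFun ι (Function.invFun π (c g) + a g (Function.invFun π (c h)) -
    Function.invFun π (c (g * h)))

theorem GWd_ob (c : Gam → N) (g h : Gam) : ob3 a ι π c g h = dW e0 (GWd_o a ι π c g h) := rfl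

theorem GWd_fix {g : Gam} (k : sg sig g e0 = e0) (v : W2) : dW e0 (sg sig g v) = dW e0 v := by
  rw [← dW_sg sig g e0 v, k]

theorem GWd_smul (g : Gam) (t : Z2) (v : W2) : sg sig g (t • v) = t • sg sig g v := by
  rw [sg_apply, sg_apply, mulVec_smul]

theorem GWd_e1 : ∀ t : Z2, dW e0 (t • (![0, 1] : W2)) = t := by
  simp only [dW_apply]
  decide

theorem Step3.GWd_ι (S : Step3 sig n D a a' b a2 a2' b2 ι π j ε) {c : Gam → N} (h : Coc D a2 c)
    {g k : Gam} (hg : g ∈ D) (hk : k ∈ D) : ι (GWd_o a ι π c g k) =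
      Function.invFun π (c g) + a g (Function.invFun π (c k)) - Function.invFun π (c (g * k)) :=
  S.ι_invFun (by
    rw [map_sub, map_add, S.πa g hg, S.π_invFun, S.π_invFun, S.π_invFun, h.2 g hg k hk, sub_self])

theorem Step3.ob_c2 (S : Step3 sig n D a a' b a2 a2' b2 ι π j ε) (k : ∀ g ∈ D, sg sig g e0 = e0)
    {c : Gam → N} (h : Coc D a2 c) : C2 1 D (ob3 a ι π c) := by
  refine ⟨(h.1.left.comp₂ (S.dual.act.sm.left.comp₂ h.1.right fun A y => A (Function.invFun π y))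
    fun x z => Function.invFun π x + z).comp₂ h.1.mul fun u v =>
      dW e0 (Function.invFun ι (u - Function.invFun π v)), fun g hg x hx l hl => ?_⟩
  rw [cy_one_eq, one_mul, GWd_ob, GWd_ob, GWd_ob, GWd_ob, ← GWd_fix (k g hg) (GWd_o a ι π c x l),
    ← map_add, ← map_add]
  refine congrArg _ (S.ι_inj ?_)
  rw [map_add, map_add, ← S.aι g hg, S.GWd_ι h hx hl, S.GWd_ι h hg (mul_mem hx hl),
    S.GWd_ι h (mul_mem hg hx) hl, S.GWd_ι h hg hx, S.dual.act.mul g hg x hx, map_sub, map_add,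
    mul_assoc]
  abel

theorem Step3.ob_spl (S : Step3 sig n D a a' b a2 a2' b2 ι π j ε) (k : ∀ g ∈ D, sg sig g e0 = e0)
    {c : Gam → N} (h : Coc D a2 c) (l : Lifts D a π c) : Spl 1 D (ob3 a ι π c) := by
  obtain ⟨c₁, h1, h2⟩ := l
  have e : ∀ g ∈ D, ι (Function.invFun ι (Function.invFun π (c g) - c₁ g)) =
      Function.invFun π (c g) - c₁ g := fun g hg =>
    S.ι_invFun (by rw [map_sub, S.π_invFun, h2 g hg, sub_self])
  refine ⟨fun g => dW e0 (Function.invFun ι (Function.invFun π (c g) - c₁ g)),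
    h.1.comp₂ h1.1 fun y x => dW e0 (Function.invFun ι (Function.invFun π y - x)),
    fun g hg x hx => ?_⟩
  beta_reduce
  rw [cy_one_eq, one_mul, GWd_ob,
    ← GWd_fix (k g hg) (Function.invFun ι (Function.invFun π (c x) - c₁ x)), ← map_add, ← map_sub]
  refine congrArg _ (S.ι_inj ?_)
  rw [S.GWd_ι h hg hx, map_sub, map_add, ← S.aι g hg, e g hg, e x hx, e _ (mul_mem hg hx),
    h1.2 g hg x hx, map_sub]
  abel

theorem Step3.inv_ob_unr (S : Step3 sig n (H ⊓ Dec w) a a' b a2 a2' b2 ι π j ε) (F : CFT)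
    (hH : Op H) (k : ∀ g ∈ H ⊓ Dec w, sg sig g e0 = e0) {c : Gam → N} (h : Coc (H ⊓ Dec w) a2 c)
    (i : ∀ σ ∈ H ⊓ Ine w, ∀ x, a σ x = x) (u : ∀ σ ∈ H ⊓ Ine w, c σ = 0) :
    F.inv 1 H w (ob3 a ι π c) = 0 := by
  have k2 : ∀ σ ∈ H ⊓ Ine w, ∀ y, a2 σ y = y := fun σ hσ y => by
    obtain ⟨x, rfl⟩ := S.π_surj y
    rw [← S.πa σ ⟨hσ.1, hσ.2.1⟩, i σ hσ]
  have e : ∀ g ∈ H ⊓ Dec w, ∀ σ ∈ H ⊓ Ine w, c (g * σ) = c g := fun g hg σ hσ => by
    rw [h.2 g hg σ ⟨hσ.1, hσ.2.1⟩, u σ hσ, map_zero, add_zero]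
  refine F.unr hH (S.ob_c2 k h) fun g hg l hl σ hσ σ' hσ' => ?_
  have m1 : σ ∈ H ⊓ Dec w := ⟨hσ.1, hσ.2.1⟩
  have m2 : σ' ∈ H ⊓ Dec w := ⟨hσ'.1, hσ'.2.1⟩
  rw [ob3, ob3, h.2 _ (mul_mem hg m1) _ (mul_mem hl m2), h.2 g hg l hl, e g hg σ hσ, e l hl σ' hσ',
    S.dual.act.mul g hg σ m1, S.dual2.act.mul g hg σ m1, i σ hσ, k2 σ hσ]

/-- The obstruction is dual to the connecting map. -/
theorem Step3.inv_ob_cup (S : Step3 sig n (H ⊓ Dec w) a a' b a2 a2' b2 ι π j ε) (F : CFT)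
    (hH : Op H) (k : ∀ g ∈ H ⊓ Dec w, sg sig g e0 = e0) {c : Gam → N} (h : Coc (H ⊓ Dec w) a2 c)
    {c' : Gam → N'} {y : M'} (hy : ε y = e0) (h' : ∀ g ∈ H ⊓ Dec w, j (c' g) = cob a' y g) :
    F.inv (1 + n) H w (cupb b2 a2' c c') = up n (F.inv 1 H w (ob3 a ι π c)) := by
  have h1 := S.ob_c2 k h
  rw [← inv_up F hH h1]
  refine GWf_inv_cob F hH (c2_up h1 n) _ (h.1.comp₂ S.dual.act'.sm fun z A =>
    -b (Function.invFun π z) (A y)) fun g hg x hx => ?_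
  have e1 := S.bι (GWd_o a ι π c g x) (a' g (a' x y))
  rw [S.GWd_ι h hg hx, S.εa g hg, S.εa x hx, hy, k x hx, k g hg, map_sub, map_add,
    AddMonoidHom.sub_apply, AddMonoidHom.add_apply, S.dual.eqv g hg, dW_comm, ← GWd_ob] at e1
  have e2 := S.bj (Function.invFun π (c g)) (a2' g (c' x))
  rw [S.π_invFun, S.ja g hg, h' x hx, cob, map_sub, map_sub] at e2
  rw [cupb, S.dual.act'.mul g hg x hx]
  linear_combination e1 - e2

/-- A cochain on the stabilizer that is a cocycle modulo the first vector. -/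
theorem Step3.GWd_c1 (S : Step3 sig n D a a' b a2 a2' b2 ι π j ε) (T : Tv sig D D' r)
    {c : Gam → N} (h : Coc D a2 c) (k : Spl 1 D' (ob3 a ι π c)) :
    ∃ c1 : Gam → M, Sm D' c1 ∧ (∀ g, π (c1 g) = c g) ∧ ∀ g ∈ D', ∀ x ∈ D',
      ∃ z, dW e0 z = 0 ∧ c1 g + a g (c1 x) - c1 (g * x) = ι z := by
  obtain ⟨β, h1, h2⟩ := k
  refine ⟨fun g => Function.invFun π (c g) - ι (β g • ![0, 1]),
    (h.1.mono T.le).comp₂ h1 fun y t => Function.invFun π y - ι (t • ![0, 1]), fun g => ?_,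
    fun g hg x hx => ⟨GWd_o a ι π c g x - (β g • ![0, 1] + sg sig g (β x • ![0, 1]) -
      β (g * x) • ![0, 1]), ?_, ?_⟩⟩
  · rw [map_sub, S.π_invFun, (S.ex _).2 ⟨_, rfl⟩, sub_zero]
  · rw [map_sub, map_sub, map_add, GWd_fix (T.fix hg), GWd_e1, GWd_e1, GWd_e1, ← GWd_ob,
      h2 g hg x hx, cy_one_eq, one_mul, sub_self]
  · beta_reduce
    rw [map_sub ι, map_sub ι, map_add ι, S.GWd_ι h (T.le hg) (T.le hx), ← S.aι g (T.le hg),
      map_sub (a g)]
    abel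

/-- Three lifts, each of them a cocycle modulo one vector. -/
theorem Step3.GWd_K (S : Step3 sig n D a a' b a2 a2' b2 ι π j ε) (T : Tv sig D D' r)
    {c : Gam → N} (h : Coc D a2 c) (k : Spl 1 D' (ob3 a ι π c)) :
    ∃ K : Gam → X3 → M, Sm D K ∧ (∀ g ∈ D, ∀ x, π (K g x) = c g) ∧ ∀ g ∈ D, ∀ l ∈ D, ∀ x,
      ∃ z, dW (pm sig (g * l) x).1 z = 0 ∧
        K g (pm sig l x) + a g (K l x) - K (g * l) x = ι z := by
  obtain ⟨c1, h1, h2, h3⟩ := S.GWd_c1 T h k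
  refine ⟨fun g x => a (r (pm sig g x)) (c1 (hc sig r g x)) +
    Function.invFun π (c (r (pm sig g x))) - a g (Function.invFun π (c (r x))),
    Sm.pi fun x => ((T.sm_hc h1 x).comp₂ T.sm_pm fun y p => a (r (p x)) y +
      Function.invFun π (c (r (p x)))).comp₂ S.dual.act.sm fun y A =>
        y - A (Function.invFun π (c (r x))), fun g hg x => ?_, fun g hg l hl x => ?_⟩
  · have e := h.2 _ (T.mem (pm sig g x)) _ (T.le (T.hc_mem hg x))
    rw [hc_eq, h.2 g hg _ (T.mem x)] at e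
    rw [map_sub, map_add, S.πa _ (T.mem _), S.πa g hg, h2, S.π_invFun, S.π_invFun]
    linear_combination (norm := abel1) -e
  · obtain ⟨z, e1, e2⟩ := h3 _ (T.hc_mem hg (pm sig l x)) _ (T.hc_mem hl x)
    refine ⟨sg sig (r (pm sig (g * l) x)) z, by rw [← T.eq, dW_sg, e1], ?_⟩
    have e3 : ∀ y, a g (a (r (pm sig l x)) y) =
        a (r (pm sig g (pm sig l x))) (a (hc sig r g (pm sig l x)) y) := fun y => by
      rw [← S.dual.act.mul g hg _ (T.mem _), ← hc_eq (sig := sig),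
        S.dual.act.mul _ (T.mem _) _ (T.le (T.hc_mem hg _))]
    beta_reduce
    rw [← S.aι _ (T.mem _), ← e2, hc_mul, map_mul, Equiv.Perm.mul_apply, S.dual.act.mul g hg l hl]
    simp only [map_sub, map_add, e3]
    abel

/-- One coordinate of the obstruction over the stabilizer decides. -/
theorem Step3.lifts (S : Step3 sig n D a a' b a2 a2' b2 ι π j ε) (T : Tv sig D D' r)
    {c : Gam → N} (h : Coc D a2 c) (k : Spl 1 D' (ob3 a ι π c)) : Lifts D a π c := by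
  obtain ⟨K, h1, h2, h3⟩ := S.GWd_K T h k
  obtain ⟨t, ht⟩ : ∃ t : Gam → X3 → W2, ∀ g x,
      t g x = Function.invFun ι (K g x - Function.invFun π (c g)) := ⟨_, fun _ _ => rfl⟩
  have e1 : ∀ g ∈ D, ∀ x, ι (t g x) = K g x - Function.invFun π (c g) := fun g hg x => by
    rw [ht]
    exact S.ι_invFun (by rw [map_sub, S.π_invFun, h2 g hg, sub_self])
  have e2 : ∀ g ∈ D, ∀ l ∈ D, ∀ x, dW (pm sig (g * l) x).1 (t (g * l) x) =
      dW (pm sig g (pm sig l x)).1 (t g (pm sig l x)) + dW (pm sig l x).1 (t l x) +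
        dW (pm sig (g * l) x).1 (GWd_o a ι π c g l) := fun g hg l hl x => by
    obtain ⟨z, k1, k2⟩ := h3 g hg l hl x
    have k3 : t (g * l) x = t g (pm sig l x) + sg sig g (t l x) + GWd_o a ι π c g l - z := by
      refine S.ι_inj ?_
      rw [map_sub, map_add, map_add, ← S.aι g hg, e1 _ (mul_mem hg hl), e1 g hg, e1 l hl,
        S.GWd_ι h hg hl, ← k2, map_sub]
      abel
    rw [k3, map_sub, k1, sub_zero, map_add, map_add, ← dW_sg sig g (pm sig l x).1, map_mul]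
    rfl
  refine ⟨fun g => Function.invFun π (c g) +
    ι (∑ x, dW (pm sig g x).1 (t g x) • (pm sig g x).1), ⟨?_, fun g hg l hl => ?_⟩,
    fun g _ => ?_⟩
  · simp only [ht]
    exact (h.1.comp₂ h1 Prod.mk).comp₂ T.sm_pm fun y p => Function.invFun π y.1 +
      ι (∑ x, dW (p x).1 (Function.invFun ι (y.2 x - Function.invFun π y.1)) • (p x).1)
  · have k1 : ∑ x, dW (pm sig (g * l) x).1 (t (g * l) x) • (pm sig (g * l) x).1 =
        ∑ x, dW (pm sig g x).1 (t g x) • (pm sig g x).1 +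
          sg sig g (∑ x, dW (pm sig l x).1 (t l x) • (pm sig l x).1) + GWd_o a ι π c g l := by
      rw [← X3.sum_dW (GWd_o a ι π c g l), map_sum,
        ← Equiv.sum_comp (pm sig l) fun x => dW (pm sig g x).1 (t g x) • (pm sig g x).1,
        ← Equiv.sum_comp (pm sig (g * l)) fun x => dW x.1 (GWd_o a ι π c g l) • x.1,
        ← sum_add_distrib, ← sum_add_distrib]
      refine sum_congr rfl fun x _ => ?_
      rw [e2 g hg l hl, add_smul, add_smul, GWd_smul, map_mul]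
      rfl
    beta_reduce
    rw [k1, map_add, map_add, S.GWd_ι h hg hl, ← S.aι g hg, map_add (a g)]
    abel
  · rw [map_add, S.π_invFun, (S.ex _).2 ⟨_, rfl⟩, add_zero]

/-- If the decomposition group contains an element of order three, everything lifts. -/
theorem Step3.lifts_loc (S : Step3 sig n (H ⊓ Dec w) a a' b a2 a2' b2 ι π j ε) (F : CFT)
    (hH : Op H) (T : Tv sig (H ⊓ Dec w) (H ⊓ P0 sig ⊓ Dec w) r) {c : Gam → N}
    (h : Coc (H ⊓ Dec w) a2 c) : Lifts (H ⊓ Dec w) a π c := by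
  obtain ⟨y, hy⟩ := S.ε_surj e0
  have S' := S.mono T.le
  have hH' : Op (H ⊓ P0 sig) := Op.inf hH (op_P0 T.sm)
  have e1 : ∀ g ∈ H ⊓ P0 sig ⊓ Dec w, j (Function.invFun j (cob a' y g)) = cob a' y g :=
    fun g hg => S.j_invFun (by rw [cob, map_sub, S'.εa g hg, hy, T.fix hg, sub_self])
  have k1 : Coc (H ⊓ P0 sig ⊓ Dec w) a2' fun g => Function.invFun j (cob a' y g) :=
    (cob_coc0 S'.dual.zero.act' y).of_map j S.j_inj S'.ja e1
  obtain ⟨z, hz⟩ := (S.ex' (∑ x, a' (r x) y)).1 (by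
    rw [map_sum, ← X3.sum]
    exact sum_congr rfl fun x _ => by rw [S.εa _ (T.mem x), hy, T.eq])
  have e2 := S'.inv_ob_cup F hH' (fun g hg => T.fix hg) (h.mono T.le) hy e1
  rw [← T.inv_cor F hH S.dual2.zero h k1, inv_cupb_right0 F hH S.dual2.zero h (y := z)
    fun g hg => S.j_inj (by
      rw [T.cor_map j S.ja, T.cor_cob S.dual.zero.act' e1 g hg, ← hz, cob, cob, map_sub,
        S.ja g hg])] at e2
  exact S.lifts T h ((F.zero_iff hH' (S'.ob_c2 (fun g hg => T.fix hg) (h.mono T.le))).1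
    (up_eq_zero.1 e2.symm))

theorem Step3.lifts_smul (S : Step3 sig n H a a' b a2 a2' b2 ι π j ε) {c : Gam → N}
    (h : Coc H a2 c) (l : Lifts (H ⊓ Dec w) a π c) {g : Gam} (hg : g ∈ H) :
    Lifts (H ⊓ Dec (g • w)) a π c := by
  obtain ⟨c₁, h1, h2⟩ := l
  have m : ∀ d ∈ H ⊓ Dec (g • w), g⁻¹ * d * g ∈ H ⊓ Dec w := fun d hd =>
    ⟨H.mul_mem (H.mul_mem (H.inv_mem hg) hd.1) hg, mem_Dec_smul.1 hd.2⟩
  have e0 : ∀ d, d * g = g * (g⁻¹ * d * g) := fun d => by group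
  have k1 : Coc (H ⊓ Dec (g • w)) a fun d => a g (c₁ (g⁻¹ * d * g)) := by
    refine ⟨(h1.1.conj g⁻¹ g m).comp (a g), fun d hd e he => ?_⟩
    beta_reduce
    rw [show g⁻¹ * (d * e) * g = g⁻¹ * d * g * (g⁻¹ * e * g) by group, h1.2 _ (m d hd) _ (m e he),
      map_add, ← S.dual.act.mul g hg _ (m d hd).1, ← e0, S.dual.act.mul d hd.1 g hg]
  refine ⟨_, k1.sub (cob_coc0 (S.dual.zero.act.mono inf_le_left) (Function.invFun π (c g))),
    fun d hd => ?_⟩
  have e := h.2 d hd.1 g hg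
  rw [e0, h.2 g hg _ (m d hd).1] at e
  rw [Pi.sub_apply, cob, map_sub, map_sub, S.πa g hg, S.πa d hd.1, h2 _ (m d hd), S.π_invFun]
  linear_combination (norm := abel1) e

/-- A cocycle that lifts locally lifts globally. -/
theorem Step3.lifts_glob (S : Step3 sig n H a a' b a2 a2' b2 ι π j ε) (F : CFT) (hH : Op H)
    (hT : TC H) (T : Tv sig H (H ⊓ P0 sig) r) {s : Finset Plc} (hg : GoodA H a s) {c : Gam → N}
    (h : c ∈ Zu H a2 s) (l : ∀ v ∈ s, Lifts (H ⊓ Dec v) a π c) : Lifts H a π c := by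
  have hH' : Op (H ⊓ P0 sig) := Op.inf hH (op_P0 T.sm)
  refine S.lifts T h.1.1 (F.abhn hH' ((S.mono T.le).ob_c2 (fun g k => T.fix k)
    (h.1.1.mono T.le)) (.inl fun g k e => hT g k e.1) fun w => ?_)
  have le : H ⊓ P0 sig ⊓ Dec w ≤ H := inf_le_left.trans inf_le_left
  have fx : ∀ g ∈ H ⊓ P0 sig ⊓ Dec w, sg sig g e0 = e0 := fun g k => T.fix k.1
  by_cases hw : Away H s w
  · exact (S.mono le).inv_ob_unr F hH' fx (h.1.1.mono le)
      (fun σ k => (hg w hw).2 σ ⟨k.1.1, k.2⟩) fun σ k => h.2 w hw σ ⟨k.1.1, k.2⟩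
  · simp only [Away, not_forall, not_not] at hw
    obtain ⟨v, hv, g, k, rfl⟩ := hw
    obtain ⟨c₁, h1, h2⟩ := S.lifts_smul h.1.1 (l v hv) k
    have le' : H ⊓ P0 sig ⊓ Dec (g • v) ≤ H ⊓ Dec (g • v) := inf_le_inf_right _ inf_le_left
    exact (F.zero_iff hH' ((S.mono le).ob_c2 fx (h.1.1.mono le))).2
      ((S.mono le).ob_spl fx (h.1.1.mono le) ⟨c₁, h1.mono le', fun d hd => h2 d (le' hd)⟩)

end Pool.Agent.Lib.MP_696deb_nt.B6
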