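import Pool.Agent.Lib.MP_696deb_nt.B6.GW0
import Pool.Agent.Lib.MP_696deb_nt.B6.SF

/-! Quadratic characters with bounded ramification. -/

set_option autoImplicit false

namespace Pool.Agent.Lib.MP_696deb_nt.B6

open Pool.Agent.Lib.MP_696deb_nt.B2

theorem finH {H : Subgroup Gam} (hH : Op H) : FinH H := Pool.Agent.B6.S.sf_fin hH

end Pool.Agent.Lib.MP_696deb_nt.B6
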