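import Pool.Agent.Lib.MP_696deb_nt.B6.GWc
import Pool.Agent.Lib.MP_696deb_nt.B6.GWf

/-! The cohomology of the plane. -/

set_option autoImplicit false

open scoped NNReal Classical
open Finset Matrix

namespace Pool.Agent.Lib.MP_696deb_nt.B6

open Pool.Agent.Lib.MP_696deb_nt.B2

variable {H D D' : Subgroup Gam} {w : Plc} {sig : Gam →* N2} {r : X3 → Gam}

/-- The comparison map. -/
noncomputable def Phi (D' : Subgroup Gam) : (Gam → W2) × (Gam → Z2) →+ (Gam → Z2) :=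
  (rs D').comp (((dW e0).compLeft Gam).coprod (AddMonoidHom.id _))

theorem Phi_apply {g : Gam} (hg : g ∈ D') (c : Gam → W2) (χ : Gam → Z2) :
    Phi D' (c, χ) g = dW e0 (c g) + χ g := rs_of_mem hg _

theorem GWe_fix {g : Gam} (h : sg sig g e0 = e0) (v : W2) : dW e0 (sg sig g v) = dW e0 v := by
  rw [← dW_sg sig g e0 v, h]

theorem GWe_sg (g : Gam) (t : Z2) (v : W2) : sg sig g (t • v) = t • sg sig g v :=
  mulVec_smul (sig g) t v

theorem GWe_dW (u : W2) (t : Z2) (v : W2) : dW u (t • v) = t * dW u v := by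
  simp only [dW_apply, Pi.smul_apply, smul_eq_mul]
  ring

theorem GWe_three : ∀ t : Z2, 3 • t = t := by decide

theorem GWe_zero : ∀ (m : W2) (t : Z2), (∀ j : X3, dW j.1 m + t = 0) → m = 0 ∧ t = 0 := by
  simp only [dW_apply]
  decide

theorem Tv.GWe_op (T : Tv sig D D' r) (hH : Op H) : Op (H ⊓ P0 sig) := hH.inter (op_P0 T.sm)

theorem Tv.Phi_mem (T : Tv sig D D' r) {c : Gam → W2} {χ : Gam → Z2} (h : Coc D (sg sig) c)
    (k : Coc D tr χ) : Phi D' (c, χ) ∈ Z1 D' tr :=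
  rs_mem_Z1 (((h.mono T.le).map (dW e0) fun _ hg v => GWe_fix (T.fix hg) v).add (k.mono T.le))

theorem Tv.Phi_ker (T : Tv sig D D' r) {c : Gam → W2} {χ : Gam → Z2} (h : Coc D (sg sig) c)
    (k : Coc D tr χ) (e : ∀ g ∈ D', dW e0 (c g) + χ g = 0) :
    (∃ x, ∀ g ∈ D, c g = cob (sg sig) x g) ∧ ∀ g ∈ D, χ g = 0 := by
  have key : ∀ g ∈ D, ∀ x, dW (pm sig g x).1 (c (r (pm sig g x))) + χ (r (pm sig g x)) =
      dW (pm sig g x).1 (c g) + χ g + (dW x.1 (c (r x)) + χ (r x)) := fun g hg x => by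
    have h1 := T.hc_mem hg x
    have h2 := congrArg (dW (pm sig g x).1) (h.2 _ (T.mem (pm sig g x)) _ (T.le h1))
    have h3 := k.2 _ (T.mem (pm sig g x)) _ (T.le h1)
    have h4 := dW_sg sig (r (pm sig g x)) e0 (c (hc sig r g x))
    have h5 := dW_sg sig g x.1 (c (r x))
    rw [hc_eq, h.2 g hg _ (T.mem x), map_add, map_add] at h2
    rw [hc_eq, k.2 g hg _ (T.mem x), tr_apply, tr_apply] at h3
    rw [T.eq] at h4
    rw [← pm_val] at h5
    linear_combination h5 - h2 - h3 - h4 - e _ h1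
  have h0 : ∀ g ∈ D, χ g = 0 := fun g hg => by
    have := sum_congr rfl fun x (_ : x ∈ univ) => key g hg x
    rw [Equiv.sum_comp (pm sig g) fun x => dW x.1 (c (r x)) + χ (r x), sum_add_distrib (f := fun x =>
      dW (pm sig g x).1 (c g) + χ g), sum_add_distrib (g := fun _ => χ g),
      Equiv.sum_comp (pm sig g) fun x => dW x.1 (c g), X3.sum_dW', sum_const, card_univ, card_X3,
      GWe_three, zero_add] at this
    exact right_eq_add.1 this
  refine ⟨⟨-∑ x : X3, (dW x.1 (c (r x)) + χ (r x)) • x.1, fun g hg => ?_⟩, h0⟩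
  rw [cob, map_neg, map_sum, neg_sub_neg, ← X3.sum_dW (c g), ← Equiv.sum_comp (pm sig g),
    ← Equiv.sum_comp (pm sig g) fun x => (dW x.1 (c (r x)) + χ (r x)) • x.1, ← sum_sub_distrib]
  refine sum_congr rfl fun x _ => ?_
  rw [key g hg x, h0 g hg, add_zero, GWe_sg, add_smul, pm_val, add_sub_cancel_right]

theorem Tv.Phi_cor (T : Tv sig D D' r) (χ : Gam → Z2) {g : Gam} (hg : g ∈ D') :
    dW e0 (cor sig r (sg sig) (fun k => χ k • e0) g) + cor sig r tr χ g = χ g := by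
  have e : ∀ x, pm sig g x = x0 ↔ x = x0 := fun x => by
    rw [← (pm sig g).injective.eq_iff (a := x), show pm sig g x0 = x0 from Subtype.ext (T.fix hg)]
  rw [cor, cor, map_sum, ← sum_add_distrib, sum_eq_single x0 (fun x _ k => ?_) (by simp)] <;>
    rw [GWe_sg, T.eq, GWe_dW, tr_apply, ← mul_add_one, X3.dW_e0]
  · rw [if_pos ((e _).2 rfl), mul_one, T.hc_x0 hg]
  · rw [if_neg (mt (e x).1 k), mul_zero]

theorem Tv.GWe_ker (T : Tv sig D D' r) {c : Gam → W2} {χ : Gam → Z2} (h : c ∈ Z1 D (sg sig))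
    (k : χ ∈ Z1 D tr) (e : Phi D' (c, χ) = 0) : c ∈ B1 D (sg sig) ∧ χ = 0 := by
  obtain ⟨h1, h2⟩ := T.Phi_ker h.1 k.1 fun g hg => (Phi_apply hg c χ).symm.trans (congrFun e g)
  exact ⟨rs_eq_self h ▸ rs_mem_B1.2 h1, funext fun g => (em _).elim (h2 g) (k.2 g)⟩

theorem GWe_prod {A B : Type} [AddCommGroup A] [AddCommGroup B] (S : AddSubgroup A)
    (S' : AddSubgroup B) : Nat.card (S.prod S') = Nat.card S * Nat.card S' :=
  (Nat.card_congr (S.prodEquiv S').toEquiv).trans (Nat.card_prod _ _)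

theorem Tv.GWe_B1 (T : Tv sig D D' r) : Nat.card (B1 D (sg sig)) = 4 := by
  rw [← card_W2, ← card_H0_B1 D (sg sig), T.H0_eq (act3_sg T.sm D), AddSubgroup.card_bot, one_mul]

theorem Tv.GWe_card (T : Tv sig D D' r) {S : AddSubgroup (Gam → W2)} {S' : AddSubgroup (Gam → Z2)}
    (h : S ≤ Z1 D (sg sig)) (h' : S' ≤ Z1 D tr) (k : B1 D (sg sig) ≤ S) :
    Nat.card S * Nat.card S' = 4 * Nat.card ((S.prod S').map (Phi D')) := by
  have e : S.prod S' ⊓ (Phi D').ker = (B1 D (sg sig)).prod ⊥ := by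
    refine le_antisymm (fun z hz => T.GWe_ker (h hz.1.1) (h' hz.1.2) hz.2) ?_
    rintro ⟨_, _⟩ ⟨⟨x, rfl⟩, rfl : _ = 0⟩
    refine ⟨⟨k ⟨x, rfl⟩, zero_mem _⟩, funext fun g => ?_⟩
    by_cases hg : g ∈ D'
    · rw [Phi_apply hg, cobH_apply, rs_of_mem (T.le hg), cob, map_sub, GWe_fix (T.fix hg), sub_self]
      exact zero_add _
    · exact rs_of_notMem hg _
  rw [← GWe_prod, card_map_inf (Phi D'), e, GWe_prod, T.GWe_B1, AddSubgroup.card_bot]

theorem Tv.GWe_surj (T : Tv sig D D' r) {χ : Gam → Z2} (h : χ ∈ Z1 D' tr) :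
    rs D (cor sig r (sg sig) fun k => χ k • e0) ∈ Z1 D (sg sig) ∧
      rs D (cor sig r tr χ) ∈ Z1 D tr ∧
      Phi D' (rs D (cor sig r (sg sig) fun k => χ k • e0), rs D (cor sig r tr χ)) = χ := by
  refine ⟨rs_mem_Z1 (T.cor_coc (act3_sg T.sm D).toAct0 (h.1.map ((smulAddHom Z2 W2).flip e0)
    fun g hg t => ?_)), rs_mem_Z1 (T.cor_coc (act0_of (act_tr D)) h.1), funext fun g => ?_⟩
  · exact ((GWe_sg g t e0).trans (congrArg _ (T.fix hg))).symm
  · by_cases hg : g ∈ D'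
    · rw [Phi_apply hg, rs_of_mem (T.le hg), rs_of_mem (T.le hg), T.Phi_cor χ hg]
    · exact (rs_of_notMem hg _).trans (h.2 g hg).symm

/-- The local count. -/
theorem Tv.card_Z1_W (T : Tv sig (H ⊓ Dec w) (H ⊓ P0 sig ⊓ Dec w) r) (hH : Op H) :
    Finite (Z1 (H ⊓ Dec w) (sg sig)) ∧
      Nat.card (Z1 (H ⊓ Dec w) (sg sig)) = 4 ^ (1 + ldeg H w) := by
  have e1 := T.GWe_card le_rfl le_rfl (B1_le0 (act3_sg T.sm _).toAct0)
  have e2 : ((Z1 (H ⊓ Dec w) (sg sig)).prod (Z1 (H ⊓ Dec w) tr)).map (Phi (H ⊓ P0 sig ⊓ Dec w)) =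
      Z1 (H ⊓ P0 sig ⊓ Dec w) tr := by
    refine le_antisymm ?_ fun χ h => ⟨_, ⟨(T.GWe_surj h).1, (T.GWe_surj h).2.1⟩, (T.GWe_surj h).2.2⟩
    rintro _ ⟨z, hz, rfl⟩
    exact T.Phi_mem hz.1.1 hz.2.1
  have e3 : ldeg (H ⊓ P0 sig) w = 3 * ldeg H w := by
    unfold ldeg
    split_ifs
    · rw [← T.relIndex, Subgroup.relIndex_mul_relIndex _ _ _ T.le inf_le_right]
    · rfl
  rw [e2, card_Z1_tr hH, card_Z1_tr (T.GWe_op hH), e3] at e1
  have e4 : Nat.card (Z1 (H ⊓ Dec w) (sg sig)) = 4 ^ (1 + ldeg H w) :=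
    Nat.eq_of_mul_eq_mul_right (pow_pos two_pos (2 + ldeg H w)) (e1.trans (by
      rw [show 4 = 2 ^ 2 from rfl, ← pow_mul]
      ring))
  exact ⟨Nat.finite_of_card_ne_zero (by rw [e4]; positivity), e4⟩

theorem GWe_apart (D : Subgroup Gam) (t : Finset Plc) :
    ∃ s : Finset Plc, Apart D s ∧ ∀ w, Away D s w ↔ Away D t w := by
  induction t using Finset.induction_on with
  | empty => exact ⟨∅, fun _ h => by simp at h, fun _ => Iff.rfl⟩
  | insert v t _ ih =>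
    obtain ⟨s, h1, h2⟩ := ih
    by_cases c : Away D s v
    · refine ⟨insert v s, ?_, fun w => ?_⟩
      · simp only [Apart, forall_mem_insert]
        exact ⟨⟨fun _ _ _ => trivial, fun u hu g hg e => absurd (inv_smul_eq_iff.2 e.symm)
          (c u hu _ (inv_mem hg))⟩, fun u hu => ⟨fun g hg e => absurd e (c u hu g hg), h1 u hu⟩⟩
      · simp only [Away, forall_mem_insert]
        exact and_congr_right' (h2 w)
    · refine ⟨s, h1, fun w => ⟨fun k => (forall_mem_insert ..).2 ⟨fun g hg e =>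
        c fun u hu g' hg' e' => k u hu _ (mul_mem hg hg') ?_, (h2 w).1 k⟩,
        fun k => (h2 w).2 fun u hu => k u (mem_insert_of_mem hu)⟩⟩
      rw [mul_smul, e', e]

/-- The places above a set of places. -/
theorem Tv.exists_cover (T : Tv sig H D' r) (s : Finset Plc) :
    ∃ s' : Finset Plc, Apart D' s' ∧ ∀ w, Away D' s' w ↔ Away H s w := by
  obtain ⟨s', h1, h2⟩ := GWe_apart D' ((univ ×ˢ s).image fun z : X3 × Plc => (r z.1)⁻¹ • z.2)
  refine ⟨s', h1, fun w => (h2 w).trans ⟨fun k v hv g hg e => ?_, fun k => ?_⟩⟩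
  · refine k _ (mem_image_of_mem _ (mk_mem_product (mem_univ (pm sig g⁻¹ x0)) hv)) _
      (inv_mem (T.hc_mem (inv_mem hg) x0)) ?_
    rw [← mul_smul, ← _root_.mul_inv_rev, hc_eq, T.one, mul_one, inv_inv, e]
  · refine forall_mem_image.2 fun z hz g hg e => k _ (mem_product.1 hz).2 _
      (mul_mem (T.le hg) (inv_mem (T.mem z.1))) ?_
    rw [mul_smul, e]

theorem Tv.GWe_Zu (T : Tv sig H D' r) {s s' : Finset Plc} (k : ∀ w, Away D' s' w ↔ Away H s w)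
    {c : Gam → W2} {χ : Gam → Z2} (h : c ∈ Zu H (sg sig) s) (h' : χ ∈ Zu H tr s) :
    Phi D' (c, χ) ∈ Zu D' tr s' :=
  ⟨T.Phi_mem h.1.1 h'.1.1, fun w hw σ hσ => by
    rw [Phi_apply hσ.1, h.2 w ((k w).1 hw) σ ⟨T.le hσ.1, hσ.2⟩,
      h'.2 w ((k w).1 hw) σ ⟨T.le hσ.1, hσ.2⟩, map_zero, add_zero]⟩

theorem Tv.finite_Zu_W (T : Tv sig H (H ⊓ P0 sig) r) (hH : Op H) (s : Finset Plc) :
    Finite (Zu H (sg sig) s) := by
  obtain ⟨s', -, k⟩ := T.exists_cover s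
  have h1 : Finite (B1 H (sg sig)) := Nat.finite_of_card_ne_zero (by rw [T.GWe_B1]; decide)
  have h2 := finH (T.GWe_op hH) s'
  refine finite_of_map ((Phi (H ⊓ P0 sig)).comp (AddMonoidHom.inl _ _)) _
    (Finite.of_injective _ (AddSubgroup.inclusion_injective (K := B1 H (sg sig)) ?_))
    (Finite.of_injective _ (AddSubgroup.inclusion_injective (K := Zu (H ⊓ P0 sig) tr s') ?_))
  · exact fun c h => (T.GWe_ker h.1.1 (zero_mem _) h.2).1
  · rintro _ ⟨c, h, rfl⟩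
    exact T.GWe_Zu k h (zero_mem _)

theorem Tv.card_Zu_W (T : Tv sig H (H ⊓ P0 sig) r) (hH : Op H) {s s' : Finset Plc}
    (hg : GoodA H (sg sig) s) (k : ∀ w, Away (H ⊓ P0 sig) s' w ↔ Away H s w) :
    4 * Nat.card (Zu (H ⊓ P0 sig) tr s') ≤ Nat.card (Zu H (sg sig) s) * Nat.card (Zu H tr s) := by
  have e : ((Zu H (sg sig) s).prod (Zu H tr s)).map (Phi (H ⊓ P0 sig)) =
      Zu (H ⊓ P0 sig) tr s' := by
    refine le_antisymm ?_ fun χ h => ?_
    · rintro _ ⟨z, hz, rfl⟩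
      exact T.GWe_Zu k hz.1 hz.2
    have key : ∀ w, Away H s w → ∀ σ ∈ H ⊓ Ine w, ∀ x, χ (hc sig r σ x) = 0 := fun w hw σ hσ x => by
      refine h.2 ((r x)⁻¹ • w) ((k _).2 fun v hv g hg e => hw v hv _ (mul_mem (T.mem x) hg) ?_) _
        ⟨T.hc_mem hσ.1 x, ?_⟩
      · rw [mul_smul, e, smul_inv_smul]
      · rw [hc, show pm sig σ x = x from Subtype.ext ((hg w hw).2 σ hσ x.1)]
        exact mem_Ine_smul.1 (by rw [smul_inv_smul]; exact hσ.2)
    obtain ⟨h1, h2, h3⟩ := T.GWe_surj h.1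
    refine ⟨_, ⟨⟨h1, fun w hw σ hσ => ?_⟩, h2, fun w hw σ hσ => ?_⟩, h3⟩ <;>
      simp [rs_of_mem hσ.1, cor, key w hw σ hσ]
  rw [T.GWe_card (S := Zu H (sg sig) s) (S' := Zu H tr s) (fun _ h => h.1) (fun _ h => h.1) ?_, e]
  rintro _ ⟨x, rfl⟩
  refine ⟨B1_le0 (act3_sg T.sm H).toAct0 ⟨x, rfl⟩, fun w hw σ hσ => ?_⟩
  rw [cobH_apply, rs_of_mem hσ.1, cob, (hg w hw).2 σ hσ, sub_self]

theorem GWe_conj {M : Type} [AddCommGroup M] {a : Gam → M →+ M} {c : Gam → M} {x : M} {g k : Gam}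
    (ha : Act0 H a) (h : Coc H a c) (e : ∀ d ∈ H ⊓ Dec w, c d = cob a x d) (hg : g ∈ H)
    (hk : k ∈ H ⊓ Dec (g • w)) : c k = cob a (a g x - c g) k := by
  have hd : g⁻¹ * k * g ∈ H ⊓ Dec w :=
    ⟨H.mul_mem (H.mul_mem (H.inv_mem hg) hk.1) hg, mem_Dec_smul.1 hk.2⟩
  have e0 : k * g = g * (g⁻¹ * k * g) := by group
  have e1 := h.2 k hk.1 g hg
  rw [e0, h.2 g hg _ hd.1, e _ hd, cob, map_sub, ← ha.mul g hg _ hd.1, ← e0, ha.mul k hk.1 g hg]
    at e1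
  rw [cob, map_sub, ← sub_eq_iff_eq_add.2 e1]
  abel

/-- The comparison map with rigidifications. -/
noncomputable def GWe_psi (sig : Gam →* N2) (D' : Subgroup Gam) (s' : Finset Plc) (v : Plc → Plc)
    (g : Plc → Gam) : ((Gam → W2) × (Plc → W2)) × (Gam → Z2) × (Plc → Z2) →+
      (Gam → Z2) × (Plc → Z2) :=
  AddMonoidHom.mk' (fun z => (Phi D' (z.1.1, z.2.1), fun w => if w ∈ s' then
    dW e0 (sg sig (g w) (z.1.2 (v w)) - z.1.1 (g w)) + z.2.2 (v w) else 0)) fun z z' =>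
    Prod.ext (map_add (Phi D') (z.1.1, z.2.1) (z'.1.1, z'.2.1)) (funext fun w => by
      simp only [Prod.fst_add, Prod.snd_add, Pi.add_apply, map_add, map_sub]
      split_ifs <;> ring)

theorem Tv.card_Rs_W (T : Tv sig H (H ⊓ P0 sig) r) (hH : Op H) {s s' : Finset Plc}
    (hs : Apart H s) (k : ∀ w, Away (H ⊓ P0 sig) s' w ↔ Away H s w) :
    Nat.card (Rs H (sg sig) s) * Nat.card (Rs H tr s) ≤ 4 * Nat.card (Rs (H ⊓ P0 sig) tr s') := by
  have ex : ∀ {K : Subgroup Gam} {t : Finset Plc} {w : Plc}, ¬ Away K t w →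
      ∃ v ∈ t, ∃ g ∈ K, g • v = w := fun h => by simpa [Away] using h
  choose! v hv g hg e using fun w (hw : w ∈ s') =>
    ex (mt (k w).2 fun c => c w hw 1 (one_mem _) (one_smul _ _))
  have hf : Finite (Rs (H ⊓ P0 sig) tr s') := finite_Sel (finH (T.GWe_op hH) s') _ _ _
  rw [← GWe_prod, card_map_inf (GWe_psi sig (H ⊓ P0 sig) s' v g), ← card_W2]
  refine Nat.mul_le_mul ((Nat.card_mono (Set.finite_range fun x : W2 =>
    ((rs H (cob (sg sig) x), fun u => if u ∈ s then x else 0),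
      ((0 : Gam → Z2), fun u => if u ∈ s then -dW e0 x else 0))) ?_).trans
    (Finite.card_range_le _)) (AddSubgroup.card_le_of_le ?_)
  · rintro ⟨⟨c, μ⟩, χ, ν⟩ ⟨⟨h, h'⟩, h0⟩
    obtain ⟨h1, h2, h3⟩ := GWj_mem.1 h
    obtain ⟨k1, -, k3⟩ := GWj_mem.1 h'
    obtain ⟨⟨x, rfl⟩, rfl⟩ := T.GWe_ker h1.1 k1.1 (congrArg Prod.fst h0)
    have key : ∀ u ∈ s, μ u - x = 0 ∧ dW e0 x + ν u = 0 := fun u hu => GWe_zero _ _ fun j => by
      obtain ⟨w, hw, d, hd, e1⟩ := ex (mt (k ((r j)⁻¹ • u)).1 fun c =>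
        c u hu _ (inv_mem (T.mem j)) rfl)
      have m1 := mul_mem (mul_mem (T.mem j) hd.1) (hg w hw)
      have e2 : (r j * d * g w) • v w = u := by
        rw [mul_smul, mul_smul, e w hw, e1, smul_inv_smul]
      obtain rfl := hs _ (hv w hw) _ hu _ m1 e2
      have e3 := h2 _ hu _ ⟨m1, e2⟩
      have e4 : _ = (0 : Z2) := (if_pos hw).symm.trans (congrFun (congrArg Prod.snd h0) w)
      have e5 := dW_sg sig (r j) e0 (sg sig d (sg sig (g w) (μ (v w) - x)))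
      rw [cobH_apply, rs_of_mem m1, cob, cob, sub_eq_sub_iff_sub_eq_sub, ← neg_inj, neg_sub,
        neg_sub, ← map_sub] at e3
      rw [T.eq, ← sg_mul, ← sg_mul, e3, GWe_fix hd.2] at e5
      simp only [cobH_apply, rs_of_mem (hg w hw), cob, map_sub] at e4 e5 ⊢
      linear_combination e4 + e5
    refine ⟨x, Prod.ext (Prod.ext rfl (funext fun u => ?_)) (Prod.ext rfl (funext fun u => ?_))⟩ <;>
      dsimp only <;> split_ifs with c
    exacts [(sub_eq_zero.1 (key u c).1).symm, (h3 u c).symm,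
      neg_eq_of_add_eq_zero_right (key u c).2, (k3 u c).symm]
  · rintro _ ⟨⟨⟨c, μ⟩, χ, ν⟩, ⟨h, h'⟩, rfl⟩
    obtain ⟨h1, h2, -⟩ := GWj_mem.1 h
    obtain ⟨k1, k2, -⟩ := GWj_mem.1 h'
    refine GWj_mem.2 ⟨T.GWe_Zu k h1 k1, fun w hw d hd => ?_, fun w hw => if_neg hw⟩
    have m1 : d ∈ H ⊓ Dec (g w • v w) := ⟨hd.1.1, (e w hw).symm ▸ hd.2⟩
    rw [Phi_apply hd.1]
    dsimp only
    rw [GWe_conj (act3_sg T.sm H).toAct0 h1.1.1 (h2 _ (hv w hw)) (hg w hw) m1,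
      GWe_conj (act0_of (act_tr H)) k1.1.1 (k2 _ (hv w hw)) (hg w hw) m1, cob, map_sub,
      GWe_fix hd.1.2]
    simp [cob]

theorem card_Zu_tr_le (F : CFT) (su : SUStmt) (ch : ChebStmt) (hH : Op H) (hT : TC H)
    {s : Finset Plc} (hs : Apart H s) (hg : GoodA H tr s) :
    Nat.card (Zu H tr s) ≤ Nat.card (Rs H tr s) * 2 ^ (H.index / 2) := by
  have e1 := gw_core F su ch hH hT (finH hH) (dual_tr H) hs hg (U := fun w => Z1 (H ⊓ Dec w) tr)
    (U' := fun w => B1 (H ⊓ Dec w) tr) (fun w _ => ⟨le_rfl, fun x => B1_le (act_tr _) ⟨x, rfl⟩⟩)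
    fun w _ => perp_Z1 F hH (dual_tr _)
  have e2 : (Zc H tr s fun w => Z1 (H ⊓ Dec w) tr) = Zu H tr s := AddSubgroup.ext fun c =>
    mem_Zc.trans (and_iff_left_of_imp fun h w _ => rs_mem_Z1 (h.1.1.mono inf_le_left))
  have e3 : ∀ w, Nat.card (H0 (H ⊓ Dec w) tr) = 2 := fun w => by
    rw [show H0 (H ⊓ Dec w) tr = ⊤ from eq_top_iff.2 fun _ _ _ _ => rfl, AddSubgroup.card_top,
      Nat.card_zmod, pow_one]
  have e4 := sum_ldeg_le hH hs
  have e5 := Nat.two_mul_div_two_of_even (even_index hH hT)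
  simp only [e2, card_Z1_tr hH, Nat.card_zmod, pow_one, prod_pow_eq_pow_sum, sum_add_distrib,
    sum_const, smul_eq_mul] at e1
  simp only [card_Rs, e3, prod_const]
  refine Nat.le_of_mul_le_mul_right (e1.trans_le ?_) (pow_pos two_pos _)
  rw [mul_assoc, mul_assoc, ← pow_add, ← pow_add]
  exact Nat.mul_le_mul_left _ (Nat.pow_le_pow_right two_pos (by omega))

/-- The basic inequality for the plane. -/
theorem Tv.gw_ineq_W (T : Tv sig H (H ⊓ P0 sig) r) (F : CFT) (su : SUStmt) (ch : ChebStmt)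
    (hH : Op H) (hT : TC H) {s : Finset Plc} (hs : Apart H s) (hg : GoodA H (sg sig) s) :
    Nat.card (Rs H (sg sig) s) * 4 ^ (H.index / 2) ≤ Nat.card (Zu H (sg sig) s) := by
  obtain ⟨s', hs', k⟩ := T.exists_cover s
  have e1 := gw_ineq F su ch (T.GWe_op hH) (fun g c h => hT g c h.1) (finH (T.GWe_op hH))
    (dual_tr _) hs' fun w hw => ⟨(hg w ((k w).1 hw)).1, fun _ _ _ => rfl⟩
  have e2 := T.card_Zu_W hH hg k
  have e3 := T.card_Rs_W hH hs k
  have e4 := card_Zu_tr_le F su ch hH hT hs fun w hw => ⟨(hg w hw).1, fun _ _ _ => rfl⟩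
  have e5 := Nat.two_mul_div_two_of_even (even_index hH hT)
  have e6 := Subgroup.relIndex_mul_index T.le
  have hf : Finite (Rs H tr s) := finite_Sel (finH hH s) _ _ _
  rw [T.relIndex] at e6
  rw [show Nat.card Z2 = 2 from Nat.card_zmod _,
    show (H ⊓ P0 sig).index / 2 = 3 * (H.index / 2) by omega] at e1
  refine Nat.le_of_mul_le_mul_right (le_trans (le_of_eq ?_) ((Nat.mul_le_mul_right _ e3).trans
    (((mul_assoc _ _ _).trans_le (Nat.mul_le_mul_left _ e1)).trans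
      (e2.trans (Nat.mul_le_mul_left _ e4))))) (Nat.mul_pos Nat.card_pos (pow_pos two_pos _))
  rw [show 4 = 2 ^ 2 from rfl, ← pow_mul]
  ring

end Pool.Agent.Lib.MP_696deb_nt.B6
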