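import Pool.Agent.Lib.MP_696deb_nt.B6.GWd
import Pool.Agent.Lib.MP_696deb_nt.B6.GWe

/-! Local duality. -/

set_option autoImplicit false

open scoped NNReal Classical
open Finset Matrix

namespace Pool.Agent.Lib.MP_696deb_nt.B6

open Pool.Agent.Lib.MP_696deb_nt.B2

variable {M M' : Type} [AddCommGroup M] [AddCommGroup M'] {m : ℕ} {H D D' : Subgroup Gam} {w : Plc}
  {a : Gam → M →+ M} {a' : Gam → M' →+ M'} {b : M →+ M' →+ ZMod (2 ^ m)} {c : Gam → M}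
  {c' : Gam → M'} {sig : Gam →* N2} {r : X3 → Gam} {γ : Gam}

theorem GWg_map_le {N : Type} [AddCommGroup N] {a2 : Gam → N →+ N} {π : M →+ N}
    (hπ : ∀ g ∈ D, ∀ x, π (a g x) = a2 g (π x)) : (Z1 D a).map (π.compLeft Gam) ≤ Z1 D a2 := by
  rintro _ ⟨c, hc, rfl⟩
  refine ⟨hc.1.map π hπ, fun g hg => ?_⟩
  show π (c g) = 0
  rw [hc.2 g hg, map_zero]

theorem GWg_lift {N : Type} [AddCommGroup N] {a2 : Gam → N →+ N} {π : M →+ N} {c : Gam → N}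
    (hc : c ∈ Z1 D a2) (l : Lifts D a π c) : c ∈ (Z1 D a).map (π.compLeft Gam) := by
  obtain ⟨c₁, k1, k2⟩ := l
  refine ⟨rs D c₁, rs_mem_Z1 k1, funext fun g => ?_⟩
  show π (rs D c₁ g) = c g
  by_cases hg : g ∈ D
  · rw [rs_of_mem hg, k2 g hg]
  · rw [rs_of_notMem hg, map_zero, hc.2 g hg]

theorem GWg_count {n : ℕ} {b : M →+ M' →+ ZMod (2 ^ (1 + n))} (F : CFT) (hH : Op H) [Finite M]
    [Finite M'] (T : Tv sig (H ⊓ Dec w) (H ⊓ P0 sig ⊓ Dec w) r)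
    (hd : Dual3 sig (1 + n) (H ⊓ Dec w) a a' b) :
    Finite (Z1 (H ⊓ Dec w) a) ∧ Nat.card (Z1 (H ⊓ Dec w) a) = Nat.card M ^ (1 + ldeg H w) := by
  refine dual3_ind T (P := fun M _ _ _ a _ _ =>
    Finite (Z1 (H ⊓ Dec w) a) ∧ Nat.card (Z1 (H ⊓ Dec w) a) = Nat.card M ^ (1 + ldeg H w))
    (fun M M' _ _ _ _ a _ _ => ⟨inferInstance, by
      rw [Nat.card_of_subsingleton (0 : Z1 (H ⊓ Dec w) a), Nat.card_of_subsingleton (0 : M),
        one_pow]⟩) ?_ M M' a a' b hd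
  intro M M' N N' _ _ _ _ _ _ _ _ a a' b a2 a2' b2 ι π j ε S ih
  have e : (Z1 (H ⊓ Dec w) a).map (π.compLeft Gam) = Z1 (H ⊓ Dec w) a2 :=
    le_antisymm (GWg_map_le S.πa) fun c hc => GWg_lift hc (S.lifts_loc F hH T hc.1)
  refine ⟨finite_of_map (π.compLeft Gam) _ (S.card_ker.2 (T.card_Z1_W hH).1) (e ▸ ih.1), ?_⟩
  rw [card_map_inf (π.compLeft Gam) (Z1 (H ⊓ Dec w) a), S.card_ker.1, (T.card_Z1_W hH).2, e, ih.2,
    S.card, mul_pow]

theorem ld_core3 (F : CFT) (hH : Op H) [Finite M] [Finite M']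
    (hd : Dual3 sig m (H ⊓ Dec w) a a' b) : LDcore F H w a a' b := by
  by_cases k : ∀ g ∈ H ⊓ Dec w, (sig g).trace ≠ 1
  · exact ld_core F hH (hd.dual k)
  push Not at k
  obtain ⟨γ, hγ, ht⟩ := k
  obtain ⟨r, T⟩ := exists_Tv_loc hd.sm hγ ht
  rcases Nat.eq_zero_or_pos m with rfl | hm
  · have := hd.zero.subsingleton_zero
    have := hd.zero.flip.subsingleton_zero
    exact GWh_triv F
  obtain ⟨n, rfl⟩ := Nat.exists_eq_add_of_le hm
  refine ⟨(GWg_count F hH T hd).1, ?_, fun c h k => T.nondeg F hH hd h k⟩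
  rw [(GWg_count F hH T hd).2, T.H0_eq hd.act', AddSubgroup.card_bot, mul_one]

theorem GWg_lp (F : CFT) (hH : Op H) [Finite M] [Finite M'] (hd : Dual3 sig m (H ⊓ Dec w) a a' b)
    {P : Z1 (H ⊓ Dec w) a →+ Z1 (H ⊓ Dec w) a' →+ ZMod (2 ^ m)}
    (hP : ∀ c c', P c c' = F.inv m H w (cupb b a' c c')) :
    P.ker = (B1 (H ⊓ Dec w) a).addSubgroupOf _ := by
  ext c
  rw [AddMonoidHom.mem_ker, AddSubgroup.mem_addSubgroupOf, ← rs_eq_self c.2, rs_mem_B1]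
  constructor
  · intro h
    refine (ld_core3 F hH hd).2.2 _ c.2.1 fun c' hc' => ?_
    have := DFunLike.congr_fun h ⟨_, rs_mem_Z1 hc'⟩
    rw [hP] at this
    exact (inv_cupb_congr F (fun _ _ => rfl) fun g hg => (rs_of_mem hg _).symm).trans this
  · rintro ⟨x, hx⟩
    ext c'
    rw [hP]
    exact inv_cupb_left0 F hH hd.zero hx c'.2.1

theorem lp_ker3 (F : CFT) (hH : Op H) [Finite M] [Finite M'] (hd : Dual3 sig m (H ⊓ Dec w) a a' b)
    {P : Z1 (H ⊓ Dec w) a →+ Z1 (H ⊓ Dec w) a' →+ ZMod (2 ^ m)}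
    (hP : ∀ c c', P c c' = F.inv m H w (cupb b a' c c')) :
    P.ker = (B1 (H ⊓ Dec w) a).addSubgroupOf _ ∧
      P.flip.ker = (B1 (H ⊓ Dec w) a').addSubgroupOf _ := by
  refine ⟨GWg_lp F hH hd hP, ?_⟩
  rw [← GWg_lp F hH hd.flip (P := -P.flip) fun c' c => by
    rw [inv_cupb_flip0 F hH hd.zero c.2.1 c'.2.1, ← hP]
    rfl]
  ext c
  simp only [AddMonoidHom.mem_ker, AddMonoidHom.neg_apply, neg_eq_zero]

theorem card_Z1_B13 (F : CFT) (hH : Op H) [Finite M] [Finite M']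
    (hd : Dual3 sig m (H ⊓ Dec w) a a' b) :
    Nat.card (Z1 (H ⊓ Dec w) a') * Nat.card (B1 (H ⊓ Dec w) a) = Nat.card M ^ (2 + ldeg H w) := by
  rw [(ld_core3 F hH hd.flip).2.1, mul_assoc, card_H0_B1, hd.zero.card_eq]
  ring

theorem ld3 (F : CFT) : LD3Stmt F := by
  intro sig m H w M M' _ _ _ _ a a' b hH hd
  refine ⟨ld_core3 F hH hd, fun L hL => ?_⟩
  have f1 := (ld_core3 F hH hd).1
  have f2 := (ld_core3 F hH hd.flip).1
  obtain ⟨P, hP⟩ := exists_lp0 F hH hd.zero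
  have h1 := card_ann P (L.addSubgroupOf _)
  have h2 : (L.addSubgroupOf _ ⊓ P.ker : AddSubgroup (Z1 (H ⊓ Dec w) a)) =
      (B1 (H ⊓ Dec w) a).addSubgroupOf _ := by
    rw [(lp_ker3 F hH hd hP).1]
    refine inf_eq_right.2 fun c hc => ?_
    obtain ⟨x, hx⟩ := hc
    rw [AddSubgroup.mem_addSubgroupOf, ← show rs (H ⊓ Dec w) (cob a x) = c.1 from hx]
    exact hL.2 x
  rw [h2, Nat.card_congr (AddSubgroup.addSubgroupOfEquivOfLe hL.1).toEquiv,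
    Nat.card_congr (AddSubgroup.addSubgroupOfEquivOfLe (B1_le0 hd.zero.act)).toEquiv,
    card_Z1_B13 F hH hd] at h1
  rw [← h1]
  congr 1
  refine Nat.card_congr
    { toFun := fun c => ⟨⟨c.1, c.2.1⟩, fun x hx => by rw [hP]; exact c.2.2 x hx⟩
      invFun := fun c => ⟨c.1.1, c.1.2, fun x hx => by
        rw [← hP ⟨x, hL.1 hx⟩]; exact c.2 _ hx⟩
      left_inv := fun _ => rfl
      right_inv := fun _ => rfl }

theorem GWg_comap {A C : Type} [AddCommGroup A] [AddCommGroup C] {aA : Gam → A →+ A} {f : A →+ M}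
    {p : M →+ C} (hi : Function.Injective f) (ex : ∀ x, p x = 0 ↔ ∃ t, f t = x)
    (hf : ∀ g ∈ D, ∀ x, f (aA g x) = a g (f x)) {U : AddSubgroup (Gam → M)} (hU : U ≤ Z1 D a) :
    Nat.card (U.comap ((f.compLeft Gam).comp (Z1 D aA).subtype)) =
      Nat.card (U ⊓ (p.compLeft Gam).ker : AddSubgroup (Gam → M)) := by
  have hj : Function.Injective ((f.compLeft Gam).comp (Z1 D aA).subtype) := fun χ κ h =>
    Subtype.ext (funext fun g => hi (congrFun h g))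
  have e : (U ⊓ (p.compLeft Gam).ker : AddSubgroup (Gam → M)) =
      (U.comap ((f.compLeft Gam).comp (Z1 D aA).subtype)).map
        ((f.compLeft Gam).comp (Z1 D aA).subtype) := by
    ext c
    constructor
    · rintro ⟨h1, h2⟩
      have h3 : c ∈ Z1 D a ⊓ (p.compLeft Gam).ker := ⟨hU h1, h2⟩
      rw [GWf_Z1 hi ex hf] at h3
      obtain ⟨χ, k1, rfl⟩ := h3
      exact ⟨⟨χ, k1⟩, h1, rfl⟩
    · rintro ⟨χ, h1, rfl⟩
      exact ⟨h1, funext fun g => (ex _).2 ⟨_, rfl⟩⟩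
  rw [e]
  exact Nat.card_congr (AddSubgroup.equivMapOfInjective _ _ hj).toEquiv

theorem GWg_B1_map {N : Type} [AddCommGroup N] {a2 : Gam → N →+ N} {π : M →+ N}
    (hs : Function.Surjective π) (hπ : ∀ g ∈ D, ∀ x, π (a g x) = a2 g (π x)) :
    (B1 D a).map (π.compLeft Gam) = B1 D a2 := by
  have k : ∀ x, π.compLeft Gam (rs D (cob a x)) = rs D (cob a2 (π x)) := fun x => funext fun g => by
    show π (rs D (cob a x) g) = _
    by_cases hg : g ∈ D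
    · rw [rs_of_mem hg, rs_of_mem hg, cob, cob, map_sub, hπ g hg]
    · rw [rs_of_notMem hg, rs_of_notMem hg, map_zero]
  ext c
  constructor
  · rintro ⟨_, ⟨x, rfl⟩, rfl⟩
    exact ⟨π x, (k x).symm⟩
  · rintro ⟨z, rfl⟩
    obtain ⟨x, rfl⟩ := hs z
    exact ⟨_, ⟨x, rfl⟩, k x⟩

/-- The criterion for lifting a local cocycle. -/
theorem Step3.lifts_of_perp {N N' : Type} [AddCommGroup N] [AddCommGroup N'] {n : ℕ}
    {b : M →+ M' →+ ZMod (2 ^ (1 + n))} {a2 : Gam → N →+ N} {a2' : Gam → N' →+ N'}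
    {b2 : N →+ N' →+ ZMod (2 ^ (1 + n))} {ι : W2 →+ M} {π : M →+ N} {j : N' →+ M'} {ε : M' →+ W2}
    (S : Step3 sig n (H ⊓ Dec w) a a' b a2 a2' b2 ι π j ε) [Finite M] [Finite M'] [Finite N]
    [Finite N'] (F : CFT) (hH : Op H) {c : Gam → N} (h : Coc (H ⊓ Dec w) a2 c)
    (k : ∀ (c' : Gam → N') (y : M'), (∀ g ∈ H ⊓ Dec w, j (c' g) = cob a' y g) →
      F.inv (1 + n) H w (cupb b2 a2' c c') = 0) : Lifts (H ⊓ Dec w) a π c := by
  have f1 := (ld_core3 F hH S.dual2).1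
  have f2 := (ld_core3 F hH S.dual2.flip).1
  obtain ⟨P, hP⟩ := exists_lp0 F hH S.dual2.zero
  let U : AddSubgroup (Z1 (H ⊓ Dec w) a2) :=
    ((Z1 (H ⊓ Dec w) a).map (π.compLeft Gam)).addSubgroupOf _
  let W : AddSubgroup (Z1 (H ⊓ Dec w) a2') :=
    (B1 (H ⊓ Dec w) a').comap ((j.compLeft Gam).comp (Z1 (H ⊓ Dec w) a2').subtype)
  have hW : ∀ c' ∈ W, ∃ y, ∀ g ∈ H ⊓ Dec w, j (c'.1 g) = cob a' y g := by
    rintro c' ⟨y, hy⟩
    refine ⟨y, fun g hg => ?_⟩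
    have := congrFun hy g
    rw [cobH_apply, rs_of_mem hg] at this
    exact this.symm
  have w1 : U ≤ ann P.flip W := by
    rintro c ⟨c₁, hc, e⟩ c' hc'
    obtain ⟨y, hy⟩ := hW c' hc'
    rw [AddMonoidHom.flip_apply, hP, ← show (fun g => π (c₁ g)) = c.1 from e,
      ← S.inv_cup_j F c₁ c'.1 le_rfl]
    exact inv_cupb_right0 F hH S.dual.zero hc.1 hy
  have c1 : Nat.card (Z1 (H ⊓ Dec w) a) = Nat.card (Z1 (H ⊓ Dec w) (sg sig)) * Nat.card U := by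
    rw [card_map_inf (π.compLeft Gam) (Z1 (H ⊓ Dec w) a), S.card_ker.1]
    congr 1
    exact (Nat.card_congr (AddSubgroup.addSubgroupOfEquivOfLe (GWg_map_le S.πa)).toEquiv).symm
  have c2 : Nat.card (B1 (H ⊓ Dec w) a') = Nat.card W * Nat.card (B1 (H ⊓ Dec w) (sg sig)) := by
    rw [card_map_inf (ε.compLeft Gam) (B1 (H ⊓ Dec w) a'), GWg_B1_map S.ε_surj S.εa,
      GWg_comap S.j_inj S.ex' S.ja (B1_le0 S.dual.zero.act')]
  have c3 := card_Z1_B13 F hH S.dual.flip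
  have c4 := card_Z1_B13 F hH S.dual2.flip
  have c5 := card_Z1_B13 F hH (dual3_W S.dual.sm n (H ⊓ Dec w))
  have c6 : Nat.card (W ⊓ P.flip.ker : AddSubgroup (Z1 (H ⊓ Dec w) a2')) ≤
      Nat.card (B1 (H ⊓ Dec w) a2') := by
    rw [← Nat.card_congr (AddSubgroup.addSubgroupOfEquivOfLe (B1_le0 S.dual2.zero.act')).toEquiv,
      ← (lp_ker3 F hH S.dual2 hP).2]
    exact AddSubgroup.card_le_of_le inf_le_right
  have w2 : U = ann P.flip W := by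
    refine eq_ann P.flip w1 ((Nat.mul_le_mul_left _ c6).trans (le_of_eq ?_))
    refine Nat.eq_of_mul_eq_mul_left (pow_pos (show 0 < 4 by norm_num) (2 + ldeg H w)) ?_
    rw [card_W2] at c5
    rw [c4, ← mul_pow, ← S.card', ← c3, c1, c2, ← c5]
    ring
  have w3 : (⟨rs (H ⊓ Dec w) c, rs_mem_Z1 h⟩ : Z1 (H ⊓ Dec w) a2) ∈ U := by
    rw [w2]
    intro c' hc'
    obtain ⟨y, hy⟩ := hW c' hc'
    rw [AddMonoidHom.flip_apply, hP]
    exact (inv_cupb_congr F (fun g hg => rs_of_mem hg _) fun _ _ => rfl).trans (k _ y hy)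
  obtain ⟨c₁, hc, e⟩ := w3
  exact ⟨c₁, hc.1, fun g hg => (congrFun e g).trans (rs_of_mem hg _)⟩

end Pool.Agent.Lib.MP_696deb_nt.B6
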