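import Pool.Agent.Lib.MP_696deb_nt.B6.GWg

/-! The global step, first half. -/

set_option autoImplicit false

open scoped NNReal Classical
open Finset Matrix

namespace Pool.Agent.Lib.MP_696deb_nt.B6

open Pool.Agent.Lib.MP_696deb_nt.B2

variable {M M' N N' : Type} [AddCommGroup M] [AddCommGroup M'] [AddCommGroup N] [AddCommGroup N']
  {n : ℕ} {H D D' : Subgroup Gam} {w : Plc} {a : Gam → M →+ M} {a' : Gam → M' →+ M'}
  {b : M →+ M' →+ ZMod (2 ^ (1 + n))} {a2 : Gam → N →+ N} {a2' : Gam → N' →+ N'}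
  {b2 : N →+ N' →+ ZMod (2 ^ (1 + n))} {ι : W2 →+ M} {π : M →+ N} {j : N' →+ M'} {ε : M' →+ W2}
  {sig : Gam →* N2} {r : X3 → Gam} {γ : Gam}

theorem Step3.GWh_lift (S : Step3 sig n H a a' b a2 a2' b2 ι π j ε) {s : Finset Plc} {c : Gam → M'}
    (h : c ∈ Zu H a' s) (h0 : ∀ g, ε (c g) = 0) : ∃ c2 ∈ Zu H a2' s, ∀ g, j (c2 g) = c g := by
  choose c2 hc using fun g => (S.ex' _).1 (h0 g)
  have z : ∀ g, c g = 0 → c2 g = 0 := fun g e => S.j_inj (by rw [hc, e, map_zero])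
  exact ⟨c2, ⟨⟨h.1.1.of_map j S.j_inj S.ja fun g _ => hc g, fun g hg => z g (h.1.2 g hg)⟩,
    fun w hw σ hσ => z σ (h.2 w hw σ hσ)⟩, hc⟩

theorem Step3.GWh_H0 (S : Step3 sig n D a a' b a2 a2' b2 ι π j ε) {c' : Gam → N'} {y : M'}
    (h : ∀ g ∈ D, j (c' g) = cob a' y g) : ε y ∈ H0 D (sg sig) := fun g hg => by
  have := (S.ex' _).2 ⟨_, h g hg⟩
  rwa [cob, map_sub, S.εa g hg, sub_eq_zero] at this

/-- The local pairing with the image of the connecting map. -/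
theorem Step3.GWh_loc (S : Step3 sig n (H ⊓ Dec w) a a' b a2 a2' b2 ι π j ε) (F : CFT) (hH : Op H)
    (Z : AddSubgroup (Gam → N)) (hZ : ∀ c ∈ Z, Coc (H ⊓ Dec w) a2 c) :
    ∃ Q : Z →+ H0 (H ⊓ Dec w) (sg sig) →+ ZMod (2 ^ (1 + n)), ∀ c t (c' : Gam → N') (y : M'),
      (∀ g ∈ H ⊓ Dec w, j (c' g) = cob a' y g) → ε y = t.1 →
        Q c t = F.inv (1 + n) H w (cupb b2 a2' c c') := by
  have h1 : ∀ {c' : Gam → N'} {y : M'}, (∀ g ∈ H ⊓ Dec w, j (c' g) = cob a' y g) →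
      Coc (H ⊓ Dec w) a2' c' := fun {_ y} h =>
    (cob_coc0 S.dual.act'.toAct0 y).of_map j S.j_inj S.ja h
  have h2 : ∀ (c : Z) {c' c'' : Gam → N'} {y y' : M'}, (∀ g ∈ H ⊓ Dec w, j (c' g) = cob a' y g) →
      (∀ g ∈ H ⊓ Dec w, j (c'' g) = cob a' y' g) → ε y = ε y' →
      F.inv (1 + n) H w (cupb b2 a2' c c') = F.inv (1 + n) H w (cupb b2 a2' c c'') := by
    intro c c' c'' y y' h h' e
    obtain ⟨z, hz⟩ := (S.ex' (y - y')).1 (by rw [map_sub, e, sub_self])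
    have k := inv_cupb_add_right0 F hH S.dual2.zero (hZ c c.2) (h1 h')
      (cob_coc0 S.dual2.act'.toAct0 z)
    rw [inv_cupb_right0 F hH S.dual2.zero (hZ c c.2) fun _ _ => rfl, add_zero] at k
    refine Eq.trans (F.congr fun g _ l hl => ?_) k
    rw [cupb, cupb, show c' l = (c'' + cob a2' z) l from S.j_inj (by
      simp only [Pi.add_apply, map_add, h l hl, h' l hl, cob, map_sub, S.ja l hl, hz]
      abel)]
  have h3 : ∀ t : H0 (H ⊓ Dec w) (sg sig), ∃ p : (Gam → N') × M',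
      (∀ g ∈ H ⊓ Dec w, j (p.1 g) = cob a' p.2 g) ∧ ε p.2 = t.1 := fun t => by
    obtain ⟨y, hy⟩ := S.ε_surj t.1
    exact ⟨(fun g => Function.invFun j (cob a' y g), y), fun g hg => S.j_invFun (by
      rw [cob, map_sub, S.εa g hg, hy, t.2 g hg, sub_self]), hy⟩
  choose p h4 h5 using h3
  refine ⟨AddMonoidHom.mk' (fun c => AddMonoidHom.mk'
    (fun t => F.inv (1 + n) H w (cupb b2 a2' c (p t).1)) fun t t' => ?_) fun c c₁ =>
      AddMonoidHom.ext fun t => inv_cupb_add_left0 F hH S.dual2.zero (hZ c c.2) (hZ c₁ c₁.2)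
        (h1 (h4 t)), fun c t c' y h e => h2 c (h4 t) h ((h5 t).trans e.symm)⟩
  refine (h2 c (y' := (p t).2 + (p t').2) (h4 _) (fun g hg => ?_) ?_).trans
    (inv_cupb_add_right0 F hH S.dual2.zero (hZ c c.2) (h1 (h4 t)) (h1 (h4 t')))
  · simp only [Pi.add_apply, map_add, h4 _ g hg, cob]
    abel
  · rw [map_add, h5, h5, h5, AddSubgroup.coe_add]

theorem Step3.card_Rs (S : Step3 sig n H a a' b a2 a2' b2 ι π j ε) (s : Finset Plc) :
    Nat.card (Rs H a' s) =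
      Nat.card (Rs H a2' s) * Nat.card (R03 H a' s ε) * Nat.card (SR3 H a' s ε) := by
  have jc : ∀ x, ∀ g ∈ H, j (cob a2' x g) = cob a' (j x) g := fun x g hg => by
    rw [cob, cob, map_sub, S.ja g hg]
  have e : (Rs H a2' s).map (AddMonoidHom.prodMap (j.compLeft Gam) (j.compLeft Plc)) =
      Rs H a' s ⊓ (AddMonoidHom.prodMap (ε.compLeft Gam) (ε.compLeft Plc)).ker := by
    refine le_antisymm ?_ ?_
    · rintro _ ⟨⟨c, μ⟩, h, rfl⟩
      obtain ⟨⟨h1, h2⟩, h3, h4⟩ := GWj_mem.1 h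
      have z : ∀ {x}, x = 0 → j x = 0 := fun h => h ▸ map_zero j
      exact ⟨(GWj_mem (c := fun g => j (c g)) (μ := fun w => j (μ w))).2
        ⟨⟨⟨h1.1.map j S.ja, fun g hg => z (h1.2 g hg)⟩, fun w hw σ hσ => z (h2 w hw σ hσ)⟩,
          fun w hw g hg => (congrArg j (h3 w hw g hg)).trans (jc _ g hg.1),
          fun w hw => z (h4 w hw)⟩, Prod.ext (funext fun g => (S.ex' _).2 ⟨_, rfl⟩)
          (funext fun w => (S.ex' _).2 ⟨_, rfl⟩)⟩
    · rintro ⟨c, μ⟩ ⟨h, h5⟩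
      obtain ⟨h1, h3, h4⟩ := GWj_mem.1 h
      obtain ⟨c2, k1, k2⟩ := S.GWh_lift h1 (congrFun (congrArg Prod.fst h5))
      choose μ2 k3 using fun w => (S.ex' (μ w)).1 (congrFun (congrArg Prod.snd h5) w)
      exact ⟨(c2, μ2), GWj_mem.2 ⟨k1, fun w hw g hg => S.j_inj (by
        rw [jc _ g hg.1, k2, k3, h3 w hw g hg]), fun w hw => S.j_inj (by
        rw [k3, map_zero, h4 w hw])⟩, Prod.ext (funext k2) (funext k3)⟩
  have i : Function.Injective (AddMonoidHom.prodMap (j.compLeft Gam) (j.compLeft Plc)) :=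
    fun x y h => Prod.ext (funext fun g => S.j_inj (congrFun (congrArg Prod.fst h) g))
      (funext fun w => S.j_inj (congrFun (congrArg Prod.snd h) w))
  rw [card_map_inf (AddMonoidHom.prodMap (ε.compLeft Gam) (ε.compLeft Plc)) (Rs H a' s), ← e,
    AddSubgroup.card_map_of_injective i, mul_assoc, R03, SR3,
    ← card_map_inf (AddMonoidHom.fst _ _) (imR3 H a' s ε), imR3]

/-- The first obstruction: local lifting at the places of `s`. -/
theorem Step3.card_KLift (S : Step3 sig n H a a' b a2 a2' b2 ι π j ε) [Finite M] [Finite M']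
    [Finite N] [Finite N'] (F : CFT) (hH : Op H) (hT : TC H) (T : Tv sig H (H ⊓ P0 sig) r)
    {s : Finset Plc} (hs : Apart H s) (hg : GoodA H a s) [Finite (Zu H a2 s)] :
    Nat.card (Zu H a2 s) * Nat.card (R03 H a' s ε) ≤
      (∏ v ∈ s, Nat.card (H0 (H ⊓ Dec v) (sg sig))) * Nat.card (KLift H a a2 s π) := by
  have S' := fun w : Plc => S.mono (inf_le_left : H ⊓ Dec w ≤ H)
  choose Q hQ using fun v : s =>
    (S' v).GWh_loc F hH (Zu H a2 s) fun c hc => hc.1.1.mono inf_le_left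
  obtain ⟨P, hP⟩ : ∃ P : Zu H a2 s →+ (∀ v : s, H0 (H ⊓ Dec v) (sg sig)) →+ ZMod (2 ^ (1 + n)),
      ∀ c x, P c x = ∑ v : s, Q v c (x v) :=
    ⟨∑ v : s, ((Q v).flip.comp (Pi.evalAddMonoidHom _ v)).flip, fun c x => by
      simp only [AddMonoidHom.finsetSum_apply]
      rfl⟩
  have h1 : ∀ c : P.ker, c.1.1 ∈ KLift H a a2 s π := by
    rintro ⟨⟨c, hc⟩, h0⟩
    obtain ⟨c₁, k1, k2⟩ := S.lifts_glob F hH hT T hg hc fun v hv =>
      (S' v).lifts_of_perp F hH (hc.1.1.mono inf_le_left) fun c' y h => by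
        have := hP ⟨c, hc⟩ (Pi.single ⟨v, hv⟩ ⟨_, (S' v).GWh_H0 h⟩)
        rw [show P ⟨c, hc⟩ = 0 from h0, sum_eq_single ⟨v, hv⟩
          (fun u _ e => by rw [Pi.single_eq_of_ne e, map_zero]) (by simp), Pi.single_eq_same,
          hQ ⟨v, hv⟩ _ _ c' y h rfl] at this
        exact this.symm
    refine ⟨hc, rs H c₁, rs_mem_Z1 k1, funext fun g => ?_⟩
    change π (rs H c₁ g) = c g
    by_cases hg : g ∈ H
    · rw [rs_of_mem hg, k2 g hg]
    · rw [rs_of_notMem hg, map_zero, hc.1.2 g hg]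
  have h2 : ∀ z : R03 H a' s ε, ∃ x ∈ P.flip.ker, ∀ v : s, (x v).1 = z.1.2 v := by
    rintro ⟨_, ⟨⟨c', μ⟩, ⟨k1, k2, k3, -⟩, rfl⟩, k5⟩
    obtain ⟨c2, l1, l2⟩ := S.GWh_lift ⟨k1, k2⟩ (congrFun k5)
    have l3 : ∀ v : s, ∀ g ∈ H ⊓ Dec v, j (c2 g) = cob a' (μ v) g :=
      fun v g hg => (l2 g).trans (k3 v v.2 g hg)
    refine ⟨fun v => ⟨_, (S' v).GWh_H0 (l3 v)⟩, AddMonoidHom.ext fun c => (hP c _).trans ?_,
      fun _ => rfl⟩
    have := gw_recip0 F hH hT S.dual2.zero hs (S.good hg) c.2.1.1 l1.1.1 c.2.2 l1.2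
    rw [← sum_coe_sort] at this
    exact (sum_congr rfl fun v _ => hQ v c _ c2 (μ v) (l3 v) rfl).trans this
  choose x hx hx' using h2
  have h3 : Nat.card (R03 H a' s ε) ≤ Nat.card P.flip.ker :=
    Nat.card_le_card_of_injective (fun z => ⟨_, hx z⟩) fun z z' e => by
      refine Subtype.ext (Prod.ext (z.2.2.trans z'.2.2.symm) (funext fun w => ?_))
      by_cases hw : w ∈ s
      · exact (hx' z ⟨w, hw⟩).symm.trans ((congrArg (fun y => (y.1 ⟨w, hw⟩).1) e).trans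
          (hx' z' ⟨w, hw⟩))
      · have k : ∀ z : R03 H a' s ε, z.1.2 w = 0 := by
          rintro ⟨_, ⟨x, hx, rfl⟩, -⟩
          exact (congrArg ε (hx.2.2.2.1 w hw)).trans (map_zero ε)
        rw [k, k]
  have : Finite (KLift H a a2 s π) :=
    Finite.of_injective _ (AddSubgroup.inclusion_injective (inf_le_left : KLift H a a2 s π ≤ _))
  have h4 : Nat.card P.ker ≤ Nat.card (KLift H a a2 s π) :=
    Nat.card_le_card_of_injective (fun c => ⟨_, h1 c⟩) fun c c' e =>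
      Subtype.ext (Subtype.ext (Subtype.mk.inj e))
  refine (Nat.mul_le_mul_left _ h3).trans ((pair_card P).trans_le (Nat.mul_le_mul ?_ h4))
  rw [Nat.card_pi, prod_coe_sort s fun v => Nat.card (H0 (H ⊓ Dec v) (sg sig))]

end Pool.Agent.Lib.MP_696deb_nt.B6
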