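import Pool.Agent.Lib.MP_696deb_nt.B6.GWe

/-! The global step, second half. -/

set_option autoImplicit false

open scoped NNReal Classical
open Finset Matrix

namespace Pool.Agent.Lib.MP_696deb_nt.B6

open Pool.Agent.Lib.MP_696deb_nt.B2

variable {M M' N N' : Type} [AddCommGroup M] [AddCommGroup M'] [AddCommGroup N] [AddCommGroup N']
  {n : ℕ} {H D D' : Subgroup Gam} {w : Plc} {a : Gam → M →+ M} {a' : Gam → M' →+ M'}
  {b : M →+ M' →+ ZMod (2 ^ (1 + n))} {a2 : Gam → N →+ N} {a2' : Gam → N' →+ N'}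
  {b2 : N →+ N' →+ ZMod (2 ^ (1 + n))} {ι : W2 →+ M} {π : M →+ N} {j : N' →+ M'} {ε : M' →+ W2}
  {sig : Gam →* N2} {r : X3 → Gam} {γ : Gam}

theorem finite_Zu3 {m : ℕ} {b : M →+ M' →+ ZMod (2 ^ m)} [Finite M] [Finite M'] (hH : Op H)
    (hd : Dual3 sig m H a a' b) (s : Finset Plc) : Finite (Zu H a s) := by
  by_cases k : ∃ γ ∈ H, (sig γ).trace = 1
  swap
  · exact finite_Zu (finH hH) (hd.dual fun g hg e => k ⟨g, hg, e⟩) s
  obtain ⟨γ, h1, h2⟩ := k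
  obtain ⟨r, T⟩ := exists_Tv_glob hd.sm h1 h2
  obtain rfl | ⟨n, rfl⟩ : m = 0 ∨ ∃ n, m = 1 + n := by
    rcases m with _ | n
    · exact Or.inl rfl
    · exact Or.inr ⟨n, add_comm _ _⟩
  · have := hd.zero.subsingleton_zero
    infer_instance
  · refine dual3_ind T (P := fun _ _ _ _ a _ _ => Finite (Zu H a s)) ?_ ?_ M M' a a' b hd
    · intro M M' _ _ _ _ a a' b
      infer_instance
    · intro M M' N N' _ _ _ _ _ _ _ _ a a' b a2 a2' b2 ι π j ε S ih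
      refine finite_of_map (π.compLeft Gam) _ ((S.card_ker_Zu s).2 (T.finite_Zu_W hH s))
        (Set.Finite.to_subtype ((Set.toFinite (Zu H a2 s : Set (Gam → N))).subset ?_))
      rintro _ ⟨c, hc, rfl⟩
      exact ⟨⟨hc.1.1.map π S.πa, fun g hg => (congrArg π (hc.1.2 g hg)).trans (map_zero π)⟩,
        fun w hw σ hσ => (congrArg π (hc.2 w hw σ hσ)).trans (map_zero π)⟩

theorem GWi_nsmul (k : ℕ) (t : W2) : k • t = 0 ∨ k • t = t := by
  induction k with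
  | zero => exact Or.inl (zero_nsmul t)
  | succ k ih =>
    rw [succ_nsmul]
    rcases ih with e | e <;> rw [e]
    · exact Or.inr (zero_add t)
    · exact Or.inl (W2.add_self t)

theorem GWi_dW : ∀ (x : Z2) (t y : W2), dW (x • t) y = x * dW t y := by
  simp only [dW_apply]
  decide

/-- The local invariant at a place where only the bottom layer ramifies. -/
theorem Step3.inv_ram (S : Step3 sig n (H ⊓ Dec w) a a' b a2 a2' b2 ι π j ε) (F : CFT) (hH : Op H)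
    (hw : w.p ≠ 2) (L : LD H w) {τ : Gam} (hτ : TG H w τ) (k : ∀ σ ∈ H ⊓ Ine w, ∀ x, a σ x = x)
    {c : Gam → M} (h : Coc (H ⊓ Dec w) a c) (u : π (c τ) = 0) {c' : Gam → M'}
    (h' : Coc (H ⊓ Dec w) a' c') (u' : ∀ σ ∈ H ⊓ Ine w, c' σ = 0) :
    Function.invFun ι (c τ) ∈ H0 (H ⊓ Dec w) (sg sig) ∧
      F.inv (1 + n) H w (cupb b a' c c') = up n (dW (Function.invFun ι (c τ)) (ε (c' L.φ))) := by
  obtain ⟨t, ht⟩ : ∃ t, t = Function.invFun ι (c τ) := ⟨_, rfl⟩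
  have e0 : ι t = c τ := by rw [ht, S.ι_invFun u]
  have hτ' := GWg_le H w hτ.1
  have fx : ∀ g ∈ H ⊓ Dec w, sg sig g t = t := fun g hg => by
    have hσ : g * τ * g⁻¹ ∈ H ⊓ Ine w :=
      ⟨H.mul_mem (H.mul_mem hg.1 hτ.1.1) (H.inv_mem hg.1), conj_mem_Ine hg.2 hτ.1.2⟩
    obtain ⟨i, hi⟩ := hτ.2 (Multiplicative M) (fun g => Multiplicative.ofAdd (c g))
      ((h.1.mono (GWg_le H w)).comp _) (fun g hg g' hg' => by
        beta_reduce
        rw [h.2 g (GWg_le H w hg) g' (GWg_le H w hg'), k g hg, ofAdd_add])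
      (fun g _ => ⟨1 + n, by rw [← ofAdd_nsmul, S.dual.zero.pow_smul, ofAdd_zero]⟩) _ hσ
    have e1 := h.2 _ (GWg_le H w hσ) g hg
    rw [inv_mul_cancel_right, h.2 g hg τ hτ', k _ hσ, add_comm, add_left_inj,
      show c (g * τ * g⁻¹) = i • c τ from hi, ← e0, S.aι g hg, ← map_nsmul] at e1
    rcases GWi_nsmul i t with e | e
    · by_contra hn
      exact sg_ne sig g ⟨t, fun e2 => hn (by rw [e2, map_zero])⟩ ((S.ι_inj e1).trans e)
    · exact (S.ι_inj e1).trans e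
  rw [← ht]
  refine ⟨fx, ?_⟩
  obtain ⟨κ, hκ⟩ := exists_kum (H := H ⊓ Dec w) 1 L.π_ne fun g hg => L.π_fx g hg.1
  have h2 : Coc (H ⊓ Dec w) a fun g => ι (κ g • t) :=
    hκ.coc_tr.map (ι.comp (AddMonoidHom.mk' (fun x : Z2 => x • t) fun x y => add_smul x y t))
      fun g hg x => by
        show ι (x • t) = a g (ι (x • t))
        rw [S.aι g hg]
        rcases Z2.cases x with rfl | rfl
        · rw [zero_smul, map_zero (sg sig g)]
        · rw [one_smul, fx g hg]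
  have e2 : ∀ g ∈ H ⊓ Dec w, ∀ y, dW t (ε (a' g y)) = dW t (ε y) := fun g hg y => by
    rw [S.εa g hg, ← dW_sg sig g t (ε y), fx g hg]
  have h1 : Coc (H ⊓ Dec w) tr fun g => dW t (ε (c' g)) := h'.map ((dW t).comp ε) e2
  have h3 := h.sub h2
  have h4 := hτ.unr h3 S.dual.zero.pow_smul k (by
    rw [Pi.sub_apply, hτ.kum_unif hH hw L hκ, one_smul, e0, sub_self])
  have k' : ∀ σ ∈ H ⊓ Ine w, ∀ y, a' σ y = y := fun σ hσ =>
    S.dual.zero.ine hw (fun σ hσ => k σ ⟨hσ.1.1, hσ.2⟩) σ ⟨⟨hσ.1, Ine_le w hσ.2⟩, hσ.2⟩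
  have h5 := inv_cupb_add_left0 F hH S.dual.zero h3 h2 h'
  rw [sub_add_cancel, inv_cupb_unr0 F hH S.dual.zero k' h3 h' h4 u', zero_add] at h5
  have h6 := inv_up F hH (c2_cupb (dual_tr _) hκ.coc_tr h1) n
  rw [inv_tr_unr F hH hw L hτ hκ.coc_tr h1 (fun σ hσ => by rw [u' σ hσ, map_zero, map_zero]),
    hτ.kum_unif hH hw L hκ, one_mul] at h6
  rw [h5, ← h6]
  refine F.congr fun g hg l _ => ?_
  rw [cupb, cupb, S.bι, GWi_dW, e2 g hg, mu2_apply, tr_apply]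

/-- An unramified cocycle that is orthogonal to the invariants is a coboundary. -/
theorem GWi_cob (h0 : Sm ⊤ sig) (L : LD H w) (k : ∀ σ ∈ H ⊓ Ine w, ∀ x, sg sig σ x = x)
    {χ : Gam → W2} (h : Coc (H ⊓ Dec w) (sg sig) χ) (u : ∀ σ ∈ H ⊓ Ine w, χ σ = 0)
    (e : ∀ x ∈ H0 (H ⊓ Dec w) (sg sig), dW x (χ L.φ) = 0) :
    ∃ z, ∀ g ∈ H ⊓ Dec w, χ g = cob (sg sig) z g := by
  have ha := (act3_sg h0 (H ⊓ Dec w)).toAct0
  have uc : ∀ z, ∀ σ ∈ H ⊓ Ine w, cob (sg sig) z σ = 0 := fun z σ hσ => by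
    rw [cob, k σ hσ, sub_self]
  obtain ⟨z, hz⟩ := N2.cob _ _ (sig_inv sig L.φ) (χ L.φ) fun x hx => e x fun g hg =>
    sub_eq_zero.1 (unr_zero0 L ha (cob_coc0 ha x) (uc x) (sub_eq_zero.2 hx) g hg)
  exact ⟨z, fun g hg => sub_eq_zero.1 (unr_zero0 L ha (h.sub (cob_coc0 ha z))
    (fun σ hσ => by rw [Pi.sub_apply, u σ hσ, uc z σ hσ, sub_self]) (sub_eq_zero.2 hz) g hg)⟩

/-- The second obstruction: ramification at auxiliary places. -/
theorem Step3.card_Zu (S : Step3 sig n H a a' b a2 a2' b2 ι π j ε) [Finite M] [Finite M']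
    [Finite N] [Finite N'] (F : CFT) (su : SUStmt) (ch : ChebStmt) (hH : Op H) (hT : TC H)
    (T : Tv sig H (H ⊓ P0 sig) r) {s : Finset Plc} (hs : Apart H s) (hg : GoodA H a s) :
    Nat.card (KLift H a a2 s π) * ((∏ v ∈ s, Nat.card (H0 (H ⊓ Dec v) (sg sig))) *
      4 ^ (H.index / 2)) * Nat.card (SR3 H a' s ε) ≤ Nat.card (Zu H a s) := by
  have f1 := finite_Zu3 hH S.dual s
  have f2 := finite_Zu3 hH S.dual2 s
  have f3 := T.finite_Zu_W hH s
  have f4 : Finite (KLift H a a2 s π) := Finite.Set.subset (Zu H a2 s) fun _ h => h.1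
  have : Fintype (KLift H a a2 s π) := Fintype.ofFinite _
  choose lf l1 l2 using fun x : KLift H a a2 s π => AddSubgroup.mem_map.1 x.2.2
  choose B hB using fun x => finite_ram0 S.dual.zero.act (l1 x).1
  obtain ⟨s', s1, s2, s3⟩ := gw_exists_ext hH hs (univ.biUnion B)
  have hg' := hg.mono s1
  have f5 := finite_Zu3 hH S.dual s'
  have f8 := T.finite_Zu_W hH s'
  obtain ⟨K, hK⟩ : ∃ K, K = Zu H a s' ⊓ (Zu H a2 s).comap (π.compLeft Gam) := ⟨_, rfl⟩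
  have mK : ∀ c, c ∈ K ↔ c ∈ Zu H a s' ∧ π.compLeft Gam c ∈ Zu H a2 s := fun c => by
    rw [hK]
    rfl
  have f6 : Finite K := Finite.Set.subset (Zu H a s') fun c h => ((mK c).1 h).1
  have c1 : Nat.card (KLift H a a2 s π) * Nat.card (Zu H (sg sig) s') ≤ Nat.card K := by
    have e : K ⊓ (π.compLeft Gam).ker = Zu H a s' ⊓ (π.compLeft Gam).ker :=
      le_antisymm (fun c h => ⟨((mK c).1 h.1).1, h.2⟩) fun c h =>
        ⟨(mK c).2 ⟨h.1, by rw [AddMonoidHom.mem_ker.1 h.2]; exact zero_mem _⟩, h.2⟩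
    have f7 : Finite (K.map (π.compLeft Gam)) :=
      Finite.Set.finite_image (K : Set (Gam → M)) (π.compLeft Gam)
    rw [card_map_inf (π.compLeft Gam) K, e, (S.card_ker_Zu s').1, mul_comm]
    refine Nat.mul_le_mul le_rfl
      (AddSubgroup.card_le_of_le fun x hx => ⟨lf ⟨x, hx⟩, (mK _).2 ⟨⟨l1 _, fun w hw => ?_⟩, ?_⟩,
        l2 _⟩)
    · exact hB _ w fun h => s3 w (mem_biUnion.2 ⟨_, mem_univ _, h⟩) hw
    · rw [l2]
      exact hx.1
  have aw : ∀ v : (s' \ s : Finset Plc), Away H s v := fun v =>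
    s2.away s1 (mem_sdiff.1 v.2).1 (mem_sdiff.1 v.2).2
  choose τ hτ using fun v : (s' \ s : Finset Plc) => exists_TG hH (hg _ (aw v)).1
  have L : ∀ v : Plc, LD H v := fun v => (exists_LD hH v).some
  have p0 : ∀ c : K, ∀ v, π (c.1 (τ v)) = 0 := fun c v =>
    ((mK _).1 c.2).2.2 _ (aw v) _ (hτ v).1
  have ir := fun (c : K) (v : (s' \ s : Finset Plc)) (c' : Gam → M') (h' : c' ∈ Zu H a' s) =>
    (S.mono inf_le_left).inv_ram F hH (hg _ (aw v)).1 (L v) (hτ v) (hg _ (aw v)).2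
      (((mK _).1 c.2).1.1.1.mono inf_le_left) (p0 c v) (h'.1.1.mono inf_le_left) (h'.2 _ (aw v))
  let ram : K →+ (∀ v : (s' \ s : Finset Plc), H0 (H ⊓ Dec v) (sg sig)) := AddMonoidHom.mk'
    (fun c v => ⟨Function.invFun ι (c.1 (τ v)), (ir c v 0 (zero_mem _)).1⟩) fun c d =>
      funext fun v => Subtype.ext (S.ι_inj (by
        rw [S.ι_invFun (p0 (c + d) v)]
        exact ((map_add ι _ _).trans
          (congrArg₂ _ (S.ι_invFun (p0 c v)) (S.ι_invFun (p0 d v)))).symm))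
  have c2 : Nat.card ram.ker ≤ Nat.card (Zu H a s) := by
    refine Nat.card_le_card_of_injective (fun c => ⟨c.1.1, ((mK _).1 c.1.2).1.1, fun w hw => ?_⟩)
      fun c d e => Subtype.ext (Subtype.ext (Subtype.mk.inj e))
    have hc := ((mK _).1 c.1.2).1
    by_cases h : Away H s' w
    · exact hc.2 w h
    simp only [Away, not_forall, not_not] at h
    obtain ⟨v, hv, g, hgH, rfl⟩ := h
    have hv' : v ∈ s' \ s := mem_sdiff.2 ⟨hv, fun h => hw v h g hgH rfl⟩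
    have k := (hg _ (aw ⟨v, hv'⟩)).2
    refine unr_smul0 S.dual.zero.act hc.1.1 k
      ((hτ ⟨v, hv'⟩).unr (hc.1.1.mono inf_le_left) S.dual.zero.pow_smul k ?_) hgH
    have e : Function.invFun ι (c.1.1 (τ ⟨v, hv'⟩)) = 0 :=
      congrArg Subtype.val (congrFun c.2 ⟨v, hv'⟩)
    rw [← S.ι_invFun (p0 c.1 _), e, map_zero]
  have mS : ∀ χ ∈ SR3 H a' s ε, ∃ z ∈ Rs H a' s, ε.compLeft Gam z.1 = χ := by
    rintro _ ⟨_, ⟨z, hz, rfl⟩, rfl⟩
    exact ⟨z, hz, rfl⟩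
  have hS : SR3 H a' s ε ≤ Zu H (sg sig) s := fun χ h => by
    obtain ⟨z, hz, rfl⟩ := mS χ h
    exact ⟨⟨hz.1.1.map ε fun g hg y => S.εa g hg y, fun g hg => by
      simp [hz.1.2 g hg]⟩, fun w hw σ hσ => by simp [hz.2.1 w hw σ hσ]⟩
  have f9 : Finite (SR3 H a' s ε) := Finite.Set.subset (Zu H (sg sig) s) hS
  obtain ⟨P, hP⟩ : ∃ P : SR3 H a' s ε →+
      (∀ v : (s' \ s : Finset Plc), H0 (H ⊓ Dec v) (sg sig)) →+ ZMod (2 ^ 1),
      ∀ χ x, P χ x = ∑ v, dW (x v).1 (χ.1 (L v).φ) :=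
    ⟨AddMonoidHom.mk' (fun χ => AddMonoidHom.mk' (fun x => ∑ v, dW (x v).1 (χ.1 (L v).φ))
      fun x y => by simp only [Pi.add_apply, AddSubgroup.coe_add, map_add, AddMonoidHom.add_apply,
        sum_add_distrib]) fun χ χ' => AddMonoidHom.ext fun x => by
          simp only [AddMonoidHom.mk'_apply, AddMonoidHom.add_apply, AddSubgroup.coe_add,
            Pi.add_apply, map_add, sum_add_distrib], fun _ _ => rfl⟩
  obtain ⟨W, hW⟩ : ∃ W, W = Zc H (sg sig) s' fun w => B1 (H ⊓ Dec w) (sg sig) := ⟨_, rfl⟩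
  have f10 : Finite W := hW ▸ Finite.Set.subset (Zu H (sg sig) s') fun _ h => (mem_Zc.1 h).1
  have c3 : Nat.card (⊤ ⊓ P.ker : AddSubgroup _) ≤ Nat.card W := by
    refine Nat.card_le_card_of_injective (fun χ => ⟨χ.1.1, hW ▸ mem_Zc.2
      ⟨Zu_mono s1 (hS χ.1.2), fun v hv => rs_mem_B1.2 ?_⟩⟩)
      fun c d e => Subtype.ext (Subtype.ext (Subtype.mk.inj e))
    by_cases h : v ∈ s
    · obtain ⟨z, hz, e⟩ := mS _ χ.1.2
      refine ⟨ε (z.2 v), fun g hgD => ?_⟩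
      rw [← e]
      show ε (z.1 g) = _
      rw [hz.2.2.1 v h g hgD, cob, cob, map_sub, S.εa g hgD.1]
    have hv' : v ∈ s' \ s := mem_sdiff.2 ⟨hv, h⟩
    refine GWi_cob T.sm (L v) (S.goodW hg _ (aw ⟨v, hv'⟩)).2 ((hS χ.1.2).1.1.mono inf_le_left)
      ((hS χ.1.2).2 _ (aw ⟨v, hv'⟩)) fun x hx => ?_
    have e := hP χ.1 (Pi.single ⟨v, hv'⟩ ⟨x, hx⟩)
    rw [show P χ.1 = 0 from χ.2.2, sum_eq_single ⟨v, hv'⟩
      (fun u _ e => by rw [Pi.single_eq_of_ne e]; simp) (by simp), Pi.single_eq_same] at e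
    exact e.symm
  have c4 : ram.range ≤ ann P ⊤ := by
    rintro _ ⟨c, rfl⟩ ⟨χ, hχ⟩ -
    obtain ⟨z, hz, rfl⟩ := mS χ hχ
    have hc := ((mK _).1 c.2).1
    have r := gw_recip0 F hH hT S.dual.zero s2 hg' hc.1.1 hz.1.1 hc.2
      fun w hw => hz.2.1 w fun v hv => hw v (s1 hv)
    rw [← sum_sdiff s1, sum_eq_zero (s := s) fun w hw => inv_cupb_right0 F hH
      (S.dual.zero.mono inf_le_left) (hc.1.1.mono inf_le_left) (hz.2.2.1 w hw), add_zero,
      ← sum_coe_sort, sum_congr rfl fun v _ => (ir c v z.1 ⟨hz.1, hz.2.1⟩).2, ← up_sum,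
      up_eq_zero] at r
    exact (hP _ _).trans r
  have c5 := card_ann P ⊤
  have c6 := T.gw_ineq_W F su ch hH hT s2 (S.goodW hg')
  obtain ⟨X, hX⟩ : ∃ X, X = ∏ v ∈ s' \ s, Nat.card (H0 (H ⊓ Dec v) (sg sig)) := ⟨_, rfl⟩
  rw [AddSubgroup.card_top, Nat.card_pi,
    prod_coe_sort (s' \ s) fun v => Nat.card (H0 (H ⊓ Dec v) (sg sig)), ← hX] at c5
  rw [card_Rs, ← hW, ← prod_sdiff s1, ← hX] at c6
  rw [card_ker_range ram] at c1
  have c7 := (Nat.mul_le_mul_left (Nat.card (SR3 H a' s ε)) (AddSubgroup.card_le_of_le c4)).trans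
    (c5.trans_le (Nat.mul_le_mul_left X c3))
  refine Nat.le_of_mul_le_mul_right ?_ (Nat.mul_pos
    (show 0 < X from hX ▸ prod_pos fun _ _ => Nat.card_pos) (Nat.card_pos (α := W)))
  calc _ = Nat.card (KLift H a a2 s π) * (Nat.card W * (X * ∏ v ∈ s,
        Nat.card (H0 (H ⊓ Dec v) (sg sig))) * 4 ^ (H.index / 2)) * Nat.card (SR3 H a' s ε) := by
        ring
    _ ≤ Nat.card (Zu H a s) * Nat.card ram.range * Nat.card (SR3 H a' s ε) :=
      Nat.mul_le_mul_right _ (((Nat.mul_le_mul_left _ c6).trans c1).trans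
        (Nat.mul_le_mul_right _ c2))
    _ ≤ _ := by
      rw [mul_assoc, mul_comm (Nat.card ram.range)]
      exact Nat.mul_le_mul_left _ c7

end Pool.Agent.Lib.MP_696deb_nt.B6
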