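import Pool.Agent.Lib.MP_696deb_nt.B6.GWh
import Pool.Agent.Lib.MP_696deb_nt.B6.GWi

/-! Global duality. -/

set_option autoImplicit false

open scoped NNReal Classical
open Finset Matrix

namespace Pool.Agent.Lib.MP_696deb_nt.B6

open Pool.Agent.Lib.MP_696deb_nt.B2

variable {M M' : Type} [AddCommGroup M] [AddCommGroup M'] {m : ℕ} {H D D' : Subgroup Gam} {w : Plc}
  {a : Gam → M →+ M} {a' : Gam → M' →+ M'} {b : M →+ M' →+ ZMod (2 ^ m)} {c : Gam → M}
  {c' : Gam → M'} {sig : Gam →* N2} {r : X3 → Gam} {γ : Gam}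

/-- The basic inequality. -/
theorem gw_ineq3 (F : CFT) (su : SUStmt) (ch : ChebStmt) (hH : Op H) (hT : TC H)
    [Finite M] [Finite M'] (hd : Dual3 sig m H a a' b) {s : Finset Plc} (hs : Apart H s)
    (hg : GoodA H a s) :
    Nat.card (Rs H a' s) * Nat.card M ^ (H.index / 2) ≤ Nat.card (Zu H a s) := by
  by_cases k : ∀ g ∈ H, (sig g).trace ≠ 1
  · exact gw_ineq F su ch hH hT (finH hH) (hd.dual k) hs hg
  push Not at k
  obtain ⟨γ, hγ, ht⟩ := k
  obtain ⟨r, T⟩ := exists_Tv_glob hd.sm hγ ht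
  rcases Nat.eq_zero_or_pos m with rfl | hm
  · have := hd.zero.subsingleton_zero
    have := hd.zero.flip.subsingleton_zero
    exact GWm_triv s _
  obtain ⟨n, rfl⟩ := Nat.exists_eq_add_of_le hm
  refine dual3_ind T (P := fun M M' _ _ a a' _ => GoodA H a s →
    Nat.card (Rs H a' s) * Nat.card M ^ (H.index / 2) ≤ Nat.card (Zu H a s))
    (fun M M' _ _ _ _ a a' _ _ => GWm_triv s _) ?_ M M' a a' b hd hg
  intro M M' N N' _ _ _ _ _ _ _ _ a a' b a2 a2' b2 ι π j ε S ih hg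
  have f := finite_Zu3 hH S.dual2 s
  have h1 := ih (S.good hg)
  have h2 := S.card_KLift F hH hT T hs hg
  have h3 := S.card_Zu F su ch hH hT T hs hg
  rw [S.card_Rs, S.card]
  calc _ = Nat.card (Rs H a2' s) * Nat.card N ^ (H.index / 2) * Nat.card (R03 H a' s ε) *
        (Nat.card (SR3 H a' s ε) * 4 ^ (H.index / 2)) := by rw [mul_pow]; ring
    _ ≤ Nat.card (Zu H a2 s) * Nat.card (R03 H a' s ε) *
        (Nat.card (SR3 H a' s ε) * 4 ^ (H.index / 2)) := by gcongr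
    _ ≤ (∏ v ∈ s, Nat.card (H0 (H ⊓ Dec v) (sg sig))) * Nat.card (KLift H a a2 s π) *
        (Nat.card (SR3 H a' s ε) * 4 ^ (H.index / 2)) := by gcongr
    _ = Nat.card (KLift H a a2 s π) * ((∏ v ∈ s, Nat.card (H0 (H ⊓ Dec v) (sg sig))) *
        4 ^ (H.index / 2)) * Nat.card (SR3 H a' s ε) := by ring
    _ ≤ _ := h3

/-- The formula for classical local conditions at all places. -/
theorem gw_core3 (F : CFT) (su : SUStmt) (ch : ChebStmt) (hH : Op H) (hT : TC H)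
    [Finite M] [Finite M'] (hd : Dual3 sig m H a a' b) {s : Finset Plc} (hs : Apart H s)
    (hg : GoodA H a s) {U : Plc → AddSubgroup (Gam → M)} {U' : Plc → AddSubgroup (Gam → M')}
    (hU : ∀ w ∈ s, LocC H w a (U w))
    (hU' : ∀ w ∈ s, (U' w : Set (Gam → M')) = Perp F m H w a' b (U w)) :
    Nat.card (Zc H a s U) * Nat.card M ^ (s.card + H.index / 2) =
      Nat.card (Zc H a' s U') * ∏ w ∈ s, Nat.card (U w) := by
  have hl : ∀ w, Dual3 sig m (H ⊓ Dec w) a a' b := fun w => hd.mono inf_le_left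
  have f1 := finite_Zu3 hH hd s
  have f2 := finite_Zu3 hH hd.flip s
  have f3 : ∀ i : s, Finite (Z1 (H ⊓ Dec i.1) a) := fun i => (ld_core3 F hH (hl i)).1
  have f4 : ∀ i : s, Finite (Z1 (H ⊓ Dec i.1) a') := fun i => (ld_core3 F hH (hl i).flip).1
  choose p hp using fun w => exists_lp0 F hH (hl w).zero
  have k1 := fun w => (lp_ker3 F hH (hl w) (hp w)).1
  have k2 := fun w => (lp_ker3 F hH (hl w) (hp w)).2
  have c1 : Nat.card {z // ∀ i : s, GWm_loc H a s i.1 z ∈ (p i.1).ker} =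
      Nat.card (Zc H a s fun w => B1 (H ⊓ Dec w) a) :=
    GWm_card s _ _ fun i c => by rw [k1]; rfl
  have c2 : Nat.card {z // ∀ i : s, GWm_loc H a' s i.1 z ∈ (p i.1).flip.ker} =
      Nat.card (Zc H a' s fun w => B1 (H ⊓ Dec w) a') :=
    GWm_card s _ _ fun i c => by rw [k2]; rfl
  have c3 : ∏ i : s, Nat.card (p i.1).ker = ∏ w ∈ s, Nat.card (B1 (H ⊓ Dec w) a) := by
    rw [← prod_coe_sort s]
    refine prod_congr rfl fun i _ => ?_
    rw [k1]
    exact Nat.card_congr (AddSubgroup.addSubgroupOfEquivOfLe (B1_le0 (hl i).zero.act)).toEquiv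
  have c4 : ∏ i : s, Nat.card (p i.1).flip.ker = ∏ w ∈ s, Nat.card (B1 (H ⊓ Dec w) a') := by
    rw [← prod_coe_sort s]
    refine prod_congr rfl fun i _ => ?_
    rw [k2]
    exact Nat.card_congr (AddSubgroup.addSubgroupOfEquivOfLe (B1_le0 (hl i).zero.act')).toEquiv
  have c5 : ∏ i : s, Nat.card (Z1 (H ⊓ Dec i.1) a') = ∏ w ∈ s, Nat.card (Z1 (H ⊓ Dec w) a') :=
    prod_coe_sort s fun w => Nat.card (Z1 (H ⊓ Dec w) a')
  have i1 := gw_ineq3 F su ch hH hT hd hs hg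
  have i2 := gw_ineq3 F su ch hH hT hd.flip hs (good_dual0 hg hd.zero)
  rw [B2.card_Rs] at i1 i2
  rw [hd.zero.card_eq] at i2
  have ar := GWm_arith (μ := Nat.card M) (s := s.card) (d := ∑ w ∈ s, ldeg H w)
    (v' := ∏ w ∈ s, Nat.card (Z1 (H ⊓ Dec w) a')) (β := ∏ w ∈ s, Nat.card (B1 (H ⊓ Dec w) a))
    (β' := ∏ w ∈ s, Nat.card (B1 (H ⊓ Dec w) a')) Nat.card_pos
    (prod_pos fun _ _ => Nat.card_pos) Nat.card_pos Nat.card_pos i1 i2
    (by
      rw [card_eq_sum_ones, ← sum_add_distrib, ← prod_pow_eq_pow_sum, ← prod_mul_distrib]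
      exact prod_congr rfl fun w _ => by rw [(ld_core3 F hH (hl w).flip).2.1, hd.zero.card_eq])
    (by
      rw [← prod_mul_distrib, ← prod_const]
      exact prod_congr rfl fun w _ => by rw [card_H0_B1, hd.zero.card_eq])
    (by
      rw [card_eq_sum_ones, mul_sum, ← sum_add_distrib, ← prod_pow_eq_pow_sum, ← prod_mul_distrib]
      exact prod_congr rfl fun w _ => card_Z1_B13 F hH (hl w))
    (by
      rw [Nat.two_mul_div_two_of_even (even_index hH hT)]
      exact sum_ldeg_le hH hs)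
  have pt := pt_pi (ι := s) (V := fun i => Z1 (H ⊓ Dec i.1) a) (V' := fun i => Z1 (H ⊓ Dec i.1) a')
    (fun i => p i.1) (fun i => GWm_loc H a s i.1) (fun i => GWm_loc H a' s i.1)
    (fun z z' => by
      rw [← gw_recip0 F hH hT hd.zero hs hg z.2.1.1 z'.2.1.1 z.2.2 z'.2.2, ← sum_coe_sort s]
      exact sum_congr rfl fun i _ => (hp _ _ _).trans (inv_cupb_rs F))
    (by rw [c1, c2, c4, c5]; exact ar.1)
  have p2 := pt.2 (fun i => (U i.1).addSubgroupOf _) fun i => by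
    rw [k1]
    rintro c ⟨x, hx⟩
    rw [AddSubgroup.mem_addSubgroupOf, ← show rs (H ⊓ Dec i.1) (cob a x) = c.1 from hx]
    exact (hU _ i.2).2 x
  have c6 : ∏ i : s, Nat.card ((U i.1).addSubgroupOf (Z1 (H ⊓ Dec i.1) a)) =
      ∏ w ∈ s, Nat.card (U w) := by
    rw [← prod_coe_sort s]
    exact prod_congr rfl fun i _ =>
      Nat.card_congr (AddSubgroup.addSubgroupOfEquivOfLe (hU _ i.2).1).toEquiv
  have c7 : Nat.card {z // ∀ i : s, GWm_loc H a' s i.1 z ∈
      ann (p i.1) ((U i.1).addSubgroupOf _)} = Nat.card (Zc H a' s U') :=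
    GWm_card s _ _ fun i c => by
      rw [← SetLike.mem_coe (p := U' i.1), hU' _ i.2]
      exact ⟨fun h => ⟨c.2, fun x hx => by rw [← hp _ ⟨x, (hU _ i.2).1 hx⟩]; exact h _ hx⟩,
        fun h x hx => by rw [hp]; exact h.2 _ hx⟩
  have p1 := pt.1
  rw [c1, c2, c4, c5] at p1
  rw [GWm_card s U _ fun _ _ => Iff.rfl, c2, c3, c4, c5, c6, c7] at p2
  exact ar.2 p1 _ _ _ p2

end Pool.Agent.Lib.MP_696deb_nt.B6
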