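import Pool.Agent.Lib.MP_696deb_nt.B6.C11
import Pool.Agent.Lib.MP_696deb_nt.B6.C35

/-! The hypotheses of the converse theorem hold for the curve of conductor thirty-five. -/

set_option autoImplicit false

namespace Pool.Agent.B6

theorem hyp35 : ∃ D, @Hyp cs35 D :=
  @hyp_new cs35 _ md35 (by norm_num) rfl (by decide) (by decide)

theorem c35 : @Cert cs35 19 := @cert_of cs35 _ md35

end Pool.Agent.B6
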