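import Pool.Agent.Lib.MP_696deb_nt.B6.Tw0
import Pool.Agent.Lib.MP_696deb_nt.B2.KDd

/-! Euler systems of points of a quadratic twist, and their weighted sums. -/

set_option autoImplicit false

open scoped NNReal Classical
open Finset Matrix NumberTheorySymbols PowerSeries

namespace Pool.Agent.B6

open Pool.Agent.Lib.MP_696deb_nt Pool.Agent.Lib.MP_696deb_nt.B2

variable [Cw]

/-- All that is used in the construction of the classes of Kolyvagin. -/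
structure KS (n : ℕ) (f : ℤ) where
  Ad : ℕ → Prop
  al : ℕ → ℤ
  C : ℕ → Type
  [grp : ∀ c, CommGroup (C c)]
  [fin : ∀ c, Fintype (C c)]
  pr : ∀ c c', C c' →* C c
  ψ : ∀ c, Gam → C c
  y : ∀ c, C c → EE
  ν : ∀ l s : ℕ, C l →* Multiplicative (ZMod (2 ^ s))
  ρ : Gam →* Matrix (Fin 2) (Fin 2) ℤ_[2]
  emb : (m : ℕ) → (Fin 2 → ZMod (2 ^ m)) →+ EE
  inj : ∀ m, Function.Injective (emb m)
  onto : ∀ m P, 2 ^ m • P = 0 → ∃ x, emb m x = P
  smul : ∀ m g x, g • emb m x = emb m (mred m (ρ g) *ᵥ x)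
  of_dvd : ∀ {c c'}, Ad c' → c ∣ c' → Ad c
  ad_mul : ∀ {c} {w : Plc}, Ad c → Ad w.p → ¬ w.p ∣ c → Ad (c * w.p)
  out : ∀ {w : Plc}, Ad w.p → fr w ∉ GK n
  ine : ∀ {w : Plc}, Ad w.p → Ine w ≤ GK n
  odd : ∀ {w : Plc}, Ad w.p → w.p ≠ 2
  good : ∀ {w : Plc}, Ad w.p → ¬ (w.p : ℤ) ∣ WZ.Δ
  unf : ∀ {w : Plc}, Ad w.p → ∀ σ ∈ Ine w, chi f σ = 1
  sm : ∀ c, Ad c → Sm (GK n) (ψ c)
  mul : ∀ c, Ad c → ∀ g ∈ GK n, ∀ h ∈ GK n, ψ c (g * h) = ψ c g * ψ c h
  surj : ∀ c, Ad c → ∀ a, ∃ g ∈ GK n, ψ c g = a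
  pr_ψ : ∀ c c', Ad c' → c ∣ c' → ∀ g ∈ GK n, pr c c' (ψ c' g) = ψ c g
  dih : ∀ c, Ad c → ∀ g ∉ GK n, ψ c (g * g) = 1
  unr : ∀ c (w : Plc), Ad c → ¬ w.p ∣ c → ∀ σ ∈ GK n ⊓ Ine w, ψ c σ = 1
  gal : ∀ c, Ad c → ∀ g ∈ GK n, ∀ a, tw f g (y c a) = y c (ψ c g * a)
  trace : ∀ c l, l.Prime → Ad (c * l) → ∀ a,
    ∑ a' with pr c (c * l) a' = a, y (c * l) a' = al l • y c a
  kron : ∀ c (w : Plc), Ad (c * w.p) → ∀ a',
    y (c * w.p) a' - ordCompl[2] (w.p + 1) • fr w • y c (pr c (c * w.p) a') ∈ K1 w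
  ν_gen : ∀ (w : Plc) (s : ℕ), Ad w.p → 2 ^ (s + 1) ∣ w.p + 1 → IsUnit (ν w.p s (ψ w.p (gn w))).toAdd
  ν_fib : ∀ (c l s : ℕ), l.Prime → Ad (c * l) → 2 ^ (s + 1) ∣ l + 1 → ∀ a x,
    (univ.filter fun a' => pr c (c * l) a' = a ∧ ν l s (pr l (c * l) a') = x).card * 2 ^ s =
      ordProj[2] (l + 1)
  es : ∀ (w : Plc) (P : EE), Ad w.p → fr w • fr w • P - al w.p • fr w • P + w.p • P ∈ K1 w
  fix : ∀ c, Ad c → ∀ (m : ℕ) (P : EE), 2 ^ m • P = 0 →
    (∀ g ∈ GK n, ψ c g = 1 → tw f g P = P) → P = 0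

attribute [instance] KS.grp KS.fin

namespace KS

variable {n k l c c' c'' q : ℕ} {f : ℤ} {S : KS n f} {g h : Gam} {w : Plc} {P : EE}

theorem tw_zero (f : ℤ) (g : Gam) : tw f g 0 = 0 := by simp only [tw, smul_zero]

theorem tw_add (f : ℤ) (g : Gam) (P Q : EE) : tw f g (P + Q) = tw f g P + tw f g Q := by
  simp only [tw, smul_add]

theorem tw_neg (f : ℤ) (g : Gam) (P : EE) : tw f g (-P) = -tw f g P := by simp only [tw, smul_neg]

theorem tw_sub (f : ℤ) (g : Gam) (P Q : EE) : tw f g (P - Q) = tw f g P - tw f g Q := by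
  simp only [tw, smul_sub]

theorem tw_nsmul (f : ℤ) (g : Gam) (j : ℕ) (P : EE) : tw f g (j • P) = j • tw f g P := by
  rw [tw, tw, smul_comm g j P, smul_comm j (chi f g : ℤ)]

theorem tw_zsmul (f : ℤ) (g : Gam) (j : ℤ) (P : EE) : tw f g (j • P) = j • tw f g P := by
  rw [tw, tw, smul_comm g j P, smul_comm j (chi f g : ℤ)]

theorem tw_mul (f : ℤ) (g h : Gam) (P : EE) : tw f (g * h) P = tw f g (tw f h P) := by
  rw [tw, tw, tw, map_mul, Units.val_mul, mul_smul, mul_smul, smul_comm g (chi f h : ℤ)]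

theorem tw_sum {ι : Type} (f : ℤ) (g : Gam) (s : Finset ι) (P : ι → EE) :
    tw f g (∑ i ∈ s, P i) = ∑ i ∈ s, tw f g (P i) := by
  simp only [tw, smul_sum]

theorem tw_of (e : chi f g = 1) (P : EE) : tw f g P = g • P := by
  rw [tw, e, Units.val_one, one_smul]

theorem tw_fq (f : ℤ) (w : Plc) (P : EE) : tw f (fq w) P = fq w • P :=
  tw_of (by rw [fq, map_mul, Int.units_mul_self]) P

theorem sm_tw (f : ℤ) (D : Subgroup Gam) (P : EE) : Sm D fun g => tw f g P :=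
  (sm_chi f).comp₂ (sm_pt D P) fun a P => (a : ℤ) • P

theorem half (j : ℕ) (P : EE) : ∃ Q, 2 ^ j • Q = P := by
  induction j with
  | zero => exact ⟨P, by simp⟩
  | succ j ih =>
    obtain ⟨P, rfl⟩ := ih
    obtain ⟨Q, rfl⟩ := exists_half P
    exact ⟨Q, by rw [pow_succ, mul_nsmul']⟩

theorem pr_pr (h : S.Ad c'') (h1 : c ∣ c') (h2 : c' ∣ c'') (a : S.C c'') :
    S.pr c c' (S.pr c' c'' a) = S.pr c c'' a := by
  obtain ⟨g, hg, rfl⟩ := S.surj _ h a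
  rw [S.pr_ψ _ _ h h2 g hg, S.pr_ψ _ _ (S.of_dvd h h2) h1 g hg, S.pr_ψ _ _ h (h1.trans h2) g hg]

theorem pr_self (h : S.Ad c) (a : S.C c) : S.pr c c a = a := by
  obtain ⟨g, hg, rfl⟩ := S.surj _ h a
  exact S.pr_ψ _ _ h dvd_rfl g hg

theorem ψ_one (h : S.Ad c) : S.ψ c 1 = 1 := by
  simpa using S.mul _ h 1 (one_mem _) 1 (one_mem _)

theorem ψ_inv (h : S.Ad c) (hg : g ∈ GK n) : S.ψ c g⁻¹ = (S.ψ c g)⁻¹ := by
  rw [_root_.eq_inv_iff_mul_eq_one, ← S.mul _ h _ (inv_mem hg) _ hg, inv_mul_cancel, ψ_one h]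

theorem ker (h : S.Ad c') (h1 : c ∣ c') (hg : g ∈ GK n) (e : S.ψ c' g = 1) : S.ψ c g = 1 := by
  rw [← S.pr_ψ _ _ h h1 g hg, e, map_one]

/-- The class of an element of the decomposition group of an inert prime is trivial. -/
theorem dec (h : S.Ad c) (hw : ¬ w.p ∣ c) (hI : Ine w ≤ GK n) (h' : fr w ∉ GK n)
    (hg : g ∈ GK n ⊓ Dec w) : S.ψ c g = 1 := by
  obtain ⟨U, u1, -, u3⟩ := S.sm c h
  obtain ⟨m, σ, hσ, e, -⟩ := dec_gen_inert (fr_spec w) h' hI hg u1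
  have h2 := mul_mem_GK h' h'
  have h3 : ∀ m : ℕ, S.ψ c ((fr w * fr w) ^ m) = 1 := fun m => by
    induction m with
    | zero => rw [pow_zero, ψ_one h]
    | succ m ih => rw [pow_succ, S.mul _ h _ (pow_mem h2 m) _ h2, ih, S.dih c h _ h', one_mul]
  rw [← u3 _ (mul_mem (pow_mem h2 m) (hI hσ)) g hg.1 e, S.mul _ h _ (pow_mem h2 m) _ (hI hσ), h3,
    S.unr c w h hw σ ⟨hI hσ, hσ⟩, one_mul]

theorem fq_mem (h : S.Ad c) (hw : S.Ad w.p) : fq w ∈ GK n ∧ S.ψ c (fq w) = 1 :=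
  ⟨mul_mem_GK (S.out hw) (S.out hw), S.dih c h _ (S.out hw)⟩

/-- The points of the twist that are defined over the ring class field. -/
noncomputable def Fx (S : KS n f) (c : ℕ) : AddSubgroup EE where
  carrier := {P | ∀ g ∈ GK n, S.ψ c g = 1 → tw f g P = P}
  zero_mem' g _ _ := tw_zero f g
  add_mem' h k g hg e := by rw [tw_add, h g hg e, k g hg e]
  neg_mem' h g hg e := by rw [tw_neg, h g hg e]

theorem fx_le (h : S.Ad c') (h1 : c ∣ c') : S.Fx c ≤ S.Fx c' :=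
  fun _ hP g hg e => hP g hg (ker h h1 hg e)

theorem y_fx (h : S.Ad c) (a : S.C c) : S.y c a ∈ S.Fx c := fun g hg e => by
  rw [S.gal c h g hg, e, one_mul]

theorem fx_tw (h : S.Ad c) (hg : g ∈ GK n) (hP : P ∈ S.Fx c) : tw f g P ∈ S.Fx c := by
  intro s hs e
  have h1 : g⁻¹ * s * g ∈ GK n := mul_mem (mul_mem (inv_mem hg) hs) hg
  have h2 := hP _ h1 (by
    rw [S.mul _ h _ (mul_mem (inv_mem hg) hs) _ hg, S.mul _ h _ (inv_mem hg) _ hs, e, ψ_inv h hg,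
      mul_one, inv_mul_cancel])
  rw [← tw_mul, show s * g = g * (g⁻¹ * s * g) by group, tw_mul, h2]

/-- Division by two is unique over ring class fields. -/
theorem uniq (h : S.Ad c) {P' : EE} (hP : P ∈ S.Fx c) (hP' : P' ∈ S.Fx c)
    (e : 2 ^ k • P = 2 ^ k • P') : P = P' :=
  sub_eq_zero.1 (S.fix c h k _ (by rw [smul_sub, e, sub_self]) (sub_mem hP hP'))

/-- Weighted traces. -/
noncomputable def F (S : KS n f) (l c : ℕ) (W : S.C c → ℤ) (x : S.C l) : EE :=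
  ∑ a with S.pr l c a = x, W a • S.y c a

theorem F_fx (h : S.Ad c) (W : S.C c → ℤ) (x : S.C l) : S.F l c W x ∈ S.Fx c :=
  sum_mem fun a _ => zsmul_mem (y_fx h a) _

theorem F_add (W W' : S.C c → ℤ) (x : S.C l) :
    S.F l c (fun a => W a + W' a) x = S.F l c W x + S.F l c W' x := by
  simp only [F, add_smul, sum_add_distrib]

theorem F_sub (W W' : S.C c → ℤ) (x : S.C l) :
    S.F l c (fun a => W a - W' a) x = S.F l c W x - S.F l c W' x := by
  simp only [F, sub_smul, sum_sub_distrib]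

theorem F_mul (m : ℤ) (W : S.C c → ℤ) (x : S.C l) :
    S.F l c (fun a => m * W a) x = m • S.F l c W x := by
  simp only [F, mul_smul, smul_sum]

theorem F_tw (h : S.Ad c) (hl : l ∣ c) (hg : g ∈ GK n) (W : S.C c → ℤ) (x : S.C l) :
    tw f g (S.F l c W ((S.ψ l g)⁻¹ * x)) = S.F l c (fun a => W ((S.ψ c g)⁻¹ * a)) x := by
  unfold F
  rw [tw_sum]
  refine sum_bijective (fun a => S.ψ c g * a) (Group.mulLeft_bijective _) (fun a => ?_)
    fun a _ => ?_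
  · simp only [mem_filter, mem_univ, true_and, map_mul, S.pr_ψ _ _ h hl g hg]
    exact eq_inv_mul_iff_mul_eq
  · simp only [tw_zsmul, S.gal c h g hg, inv_mul_cancel_left]

theorem F_fq (hc : S.Ad c) (hw : S.Ad w.p) (W : S.C c → ℤ) (x : S.C l) :
    fq w • S.F l c W x = S.F l c W x :=
  (tw_fq f w _).symm.trans (F_fx hc W x _ (fq_mem hc hw).1 (fq_mem hc hw).2)

/-- Sums over the fibres of two projections. -/
theorem fib (h : S.Ad c') (hl : l ∣ c) (h1 : c ∣ c') {M : Type} [AddCommMonoid M]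
    (u : S.C c' → M) (x : S.C l) : ∑ a with S.pr l c' a = x, u a =
      ∑ b with S.pr l c b = x, ∑ a with S.pr c c' a = b, u a := by
  rw [← sum_fiberwise_of_maps_to (t := univ.filter fun b => S.pr l c b = x) (g := S.pr c c')]
  · refine sum_congr rfl fun b hb => sum_congr ?_ fun _ _ => rfl
    ext a
    simp only [mem_filter, mem_univ, true_and] at hb ⊢
    exact ⟨fun e => e.2, fun e => ⟨by rw [← pr_pr h hl h1, e, hb], e⟩⟩
  · intro a ha
    simp only [mem_filter, mem_univ, true_and] at ha ⊢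
    rw [pr_pr h hl h1, ha]

theorem F_pr (hq : q.Prime) (h : S.Ad (c * q)) (hl : l ∣ c) (W : S.C c → ℤ) (x : S.C l) :
    S.F l (c * q) (fun a => W (S.pr c (c * q) a)) x = S.al q • S.F l c W x := by
  unfold F
  rw [fib h hl (dvd_mul_right c q), smul_sum]
  refine sum_congr rfl fun b _ => ?_
  rw [smul_comm, ← S.trace c q hq h b, smul_sum]
  exact sum_congr rfl fun a ha => by simp only [(mem_filter.1 ha).2]

/-- Weights whose traces are divisible over the ring class field. -/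
def Dv (S : KS n f) (k l c : ℕ) (W : S.C c → ℤ) : Prop :=
  ∀ x, ∃ P ∈ S.Fx c, 2 ^ k • P = S.F l c W x

theorem Dv.add {W W' : S.C c → ℤ} (h : S.Dv k l c W) (h' : S.Dv k l c W') :
    S.Dv k l c fun a => W a + W' a := fun x => by
  obtain ⟨P, h1, h2⟩ := h x
  obtain ⟨P', h3, h4⟩ := h' x
  exact ⟨P + P', add_mem h1 h3, by rw [smul_add, h2, h4, F_add]⟩

theorem dv_two (h : S.Ad c) {W : S.C c → ℤ} (e : ∀ a, (2 : ℤ) ^ k ∣ W a) : S.Dv k l c W := by
  choose V hV using e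
  intro x
  refine ⟨_, F_fx h V x, ?_⟩
  rw [show W = fun a => 2 ^ k * V a from funext hV, F_mul, ← natCast_zsmul, Nat.cast_pow,
    Nat.cast_ofNat]

theorem dv_sum (h : S.Ad c) {ι : Type} (s : Finset ι) {W : ι → S.C c → ℤ}
    (e : ∀ i ∈ s, S.Dv k l c (W i)) : S.Dv k l c fun a => ∑ i ∈ s, W i a := by
  induction s using Finset.induction_on with
  | empty => exact dv_two h fun _ => by simp
  | insert i s hi ih =>
    simp only [sum_insert hi]
    exact (e i (mem_insert_self _ _)).add (ih fun j hj => e j (mem_insert_of_mem hj))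

theorem dv_pr (hq : q.Prime) (h : S.Ad c') (e : c' = c * q) (hl : l ∣ c)
    (ha : (2 : ℤ) ^ k ∣ S.al q) (W : S.C c → ℤ) : S.Dv k l c' fun a => W (S.pr c c' a) := by
  subst e
  obtain ⟨m, hm⟩ := ha
  intro x
  refine ⟨m • S.F l c W x, zsmul_mem (fx_le h (dvd_mul_right c q)
    (F_fx (S.of_dvd h (dvd_mul_right c q)) W x)) m, ?_⟩
  rw [F_pr hq h hl, hm, mul_smul, ← natCast_zsmul, Nat.cast_pow, Nat.cast_ofNat]

end KS

end Pool.Agent.B6
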