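import Pool.Agent.Lib.MP_696deb_nt.B6.KDa

/-! The torsion valued cocycles of Kolyvagin. -/

set_option autoImplicit false

open scoped NNReal Classical
open Finset Matrix NumberTheorySymbols PowerSeries

namespace Pool.Agent.B6

open Pool.Agent.Lib.MP_696deb_nt Pool.Agent.Lib.MP_696deb_nt.B2

variable [Cw]

namespace KS

variable {n k l c c' M : ℕ} {f m : ℤ} {S : KS n f} {g h : Gam} {w : Plc} {P : EE}

/-- Roots of a weighted trace and of its derivatives. -/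
structure KD (S : KS n f) (k l c : ℕ) (W : S.C c → ℤ) (R : S.C l → EE)
    (D : S.C c → S.C l → EE) : Prop where
  adm : S.Ad c
  dvd : l ∣ c
  hR : ∀ x, 2 ^ k • R x = S.F l c W x
  hD : ∀ b x, 2 ^ k • D b x = S.F l c (fun a => W (b⁻¹ * a) - W a) x
  fx : ∀ b x, D b x ∈ S.Fx c

/-- The cocycle. -/
noncomputable def tt (S : KS n f) (l c : ℕ) (R : S.C l → EE) (D : S.C c → S.C l → EE) (g : Gam)
    (x : S.C l) : EE := tw f g (R ((S.ψ l g)⁻¹ * x)) - R x - D (S.ψ c g) x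

variable {W : S.C c → ℤ} {W' : S.C c' → ℤ} {R R' : S.C l → EE} {D : S.C c → S.C l → EE}
  {D' : S.C c' → S.C l → EE} {Q : Finset Plc}

theorem exists_KD (h : S.Ad c) (hl : l ∣ c) (e : ∀ b, S.Dv k l c fun a => W (b⁻¹ * a) - W a) :
    ∃ R D, KD S k l c W R D := by
  choose D h1 h2 using e
  choose R hR using fun x => half k (S.F l c W x)
  exact ⟨R, D, h, hl, hR, h2, h1⟩

theorem KD.tors (K : KD S k l c W R D) (hg : g ∈ GK n) (x : S.C l) :
    2 ^ k • S.tt l c R D g x = 0 := by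
  rw [tt, smul_sub (2 ^ k), smul_sub (2 ^ k), ← tw_nsmul, K.hR, K.hR, K.hD, F_tw K.adm K.dvd hg,
    F_sub, sub_self]

theorem KD.one (K : KD S k l c W R D) (x : S.C l) : D 1 x = 0 :=
  S.fix c K.adm k _ (by simp [K.hD, F]) (K.fx 1 x)

theorem KD.of_ker (K : KD S k l c W R D) (hg : g ∈ GK n) (e : S.ψ c g = 1) (x : S.C l) :
    S.tt l c R D g x = tw f g (R x) - R x := by
  rw [tt, ker K.adm K.dvd hg e, e, K.one, inv_one, one_mul, sub_zero]

theorem KD.of_ker' (K : KD S k l c W R D) (hg : g ∈ GK n) (e : S.ψ c g = 1) (e' : chi f g = 1)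
    (x : S.C l) : S.tt l c R D g x = g • R x - R x := by rw [K.of_ker hg e, tw_of e']

theorem KD.coc (K : KD S k l c W R D) (hg : g ∈ GK n) (hh : h ∈ GK n) (x : S.C l) :
    S.tt l c R D (g * h) x =
      S.tt l c R D g x + tw f g (S.tt l c R D h ((S.ψ l g)⁻¹ * x)) := by
  have e : D (S.ψ c (g * h)) x = D (S.ψ c g) x + tw f g (D (S.ψ c h) ((S.ψ l g)⁻¹ * x)) := by
    refine uniq K.adm (K.fx _ _) (add_mem (K.fx _ _) (fx_tw K.adm hg (K.fx _ _))) (k := k) ?_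
    rw [smul_add, ← tw_nsmul, K.hD, K.hD, K.hD, F_tw K.adm K.dvd hg, ← F_add,
      S.mul _ K.adm g hg h hh]
    congr 1
    funext a
    rw [_root_.mul_inv_rev, mul_assoc]
    ring
  unfold tt
  rw [e, S.mul _ (S.of_dvd K.adm K.dvd) g hg h hh, _root_.mul_inv_rev, mul_assoc, tw_mul, tw_sub,
    tw_sub]
  abel

theorem KD.sm (K : KD S k l c W R D) : Sm (GK n) (S.tt l c R D) := by
  have h1 : Sm (GK n) fun (g : Gam) (x : S.C l) => tw f g (R x) := Sm.pi fun x => sm_tw _ _ _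
  obtain ⟨U, u1, u2, u3⟩ := Sm.comp₂ h1 (S.sm c K.adm) Prod.mk
  refine ⟨U, u1, u2, fun g hg h hh e => funext fun x => ?_⟩
  have e1 := u3 g hg h hh e
  have e2 : S.ψ c g = S.ψ c h := congrArg Prod.snd e1
  have e3 : ∀ x, tw f g (R x) = tw f h (R x) := congrFun (congrArg Prod.fst e1)
  unfold tt
  rw [e3, ← S.pr_ψ _ _ K.adm K.dvd g hg, ← S.pr_ψ _ _ K.adm K.dvd h hh, e2]

theorem KD.unr (K : KD S k l c W R D) (h2 : w.p ≠ 2) (hw : ¬ (w.p : ℤ) ∣ WZ.Δ) (hc : ¬ w.p ∣ c)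
    (hg : g ∈ GK n ⊓ Ine w) (e : chi f g = 1) (x : S.C l) : S.tt l c R D g x = 0 := by
  refine K1_tors (w := w) h2 ?_ (K.tors hg.1 x)
  rw [K.of_ker' hg.1 (S.unr c w K.adm hc g hg) e]
  exact K1_ine hw hg.2 _

/-- The points whose roots are taken are fixed by what fixes the ring class field. -/
theorem KD.fixed (K : KD S k l c W R D) (hg : g ∈ GK n) (e : S.ψ c g = 1) (e' : chi f g = 1)
    (x : S.C l) : g • 2 ^ k • R x = 2 ^ k • R x := by
  rw [K.hR, ← tw_of e']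
  exact F_fx K.adm W x g hg e

/-- The normalised discrete logarithm at a deep place. -/
noncomputable def th (S : KS n f) (k : ℕ) (w : Plc) (a : S.C w.p) : ZMod (2 ^ k) :=
  Ring.inverse (S.ν w.p k (S.ψ w.p (gn w))).toAdd * (S.ν w.p k a).toAdd

theorem th_mul (a b : S.C w.p) : S.th k w (a * b) = S.th k w a + S.th k w b := by
  simp only [th, map_mul, toAdd_mul, mul_add]

theorem th_inv (a : S.C w.p) : S.th k w a⁻¹ = -S.th k w a := by
  simp only [th, map_inv, toAdd_inv, mul_neg]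

/-- The weights of Kolyvagin. -/
noncomputable def Wt (S : KS n f) (k : ℕ) (Q : Finset Plc) (c : ℕ) (a : S.C c) : ℤ :=
  ∏ w ∈ Q, ((S.th k w (S.pr w.p c a)).val : ℤ)

theorem Wt_pr (h : S.Ad c') (h1 : c ∣ c') (e : ∀ w ∈ Q, w.p ∣ c) (a : S.C c') :
    S.Wt k Q c (S.pr c c' a) = S.Wt k Q c' a :=
  prod_congr rfl fun w hw => by rw [pr_pr h (e w hw) h1]

theorem dv_Wt (h : S.Ad c') (e : ∀ w ∈ Q, ∃ c, c' = c * w.p ∧ l ∣ c ∧
      (∀ v ∈ Q, v ≠ w → v.p ∣ c) ∧ (2 : ℤ) ^ k ∣ S.al w.p) (b : S.C c') :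
    S.Dv k l c' fun a => S.Wt k Q c' (b⁻¹ * a) - S.Wt k Q c' a := by
  let m : Plc → ℤ := fun w => (S.th k w (S.pr w.p c' b⁻¹)).val
  have h1 : S.Dv k l c' fun a => S.Wt k Q c' (b⁻¹ * a) -
      ∏ w ∈ Q, (((S.th k w (S.pr w.p c' a)).val : ℤ) + m w) := dv_two h fun a => by
    have := (ZMod.intCast_zmod_eq_zero_iff_dvd (S.Wt k Q c' (b⁻¹ * a) -
      ∏ w ∈ Q, (((S.th k w (S.pr w.p c' a)).val : ℤ) + m w)) (2 ^ k)).1 (by
        simp only [Wt, m, map_mul, th_mul, Int.cast_sub, Int.cast_prod, Int.cast_add,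
          Int.cast_natCast, ZMod.natCast_zmod_val, add_comm, sub_self])
    exact_mod_cast this
  have h2 : S.Dv k l c' fun a => ∑ t ∈ Q.powerset.erase Q, S.Wt k t c' a * ∏ w ∈ Q \ t, m w := by
    refine dv_sum h _ fun t ht => ?_
    obtain ⟨t1, t2⟩ := mem_erase.1 ht
    obtain ⟨w, w1, w2⟩ := exists_of_ssubset (ssubset_of_subset_of_ne (mem_powerset.1 t2) t1)
    obtain ⟨c, e1, e2, e3, e4⟩ := e w w1
    have := dv_pr (S := S) w.prime h e1 e2 e4 fun a => S.Wt k t c a * ∏ w ∈ Q \ t, m w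
    simpa only [Wt_pr h (Dvd.intro _ e1.symm) fun v hv =>
      e3 v (mem_powerset.1 t2 hv) fun e => w2 (e ▸ hv)] using this
  convert h1.add h2 using 2 with a
  rw [prod_add, ← add_sum_erase _ _ (mem_powerset_self Q), Finset.sdiff_self, prod_empty, mul_one]
  simp only [Wt]
  ring

theorem card_th (h : S.Ad (c * w.p)) (e : 2 ^ (k + 1) ∣ w.p + 1) (hM : w.p + 1 = 2 ^ k * M)
    (b : S.C c) (j : ZMod (2 ^ k)) : (univ.filter fun a => S.pr c (c * w.p) a = b ∧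
      S.th k w (S.pr w.p (c * w.p) a) = j).card * ordCompl[2] (w.p + 1) = M := by
  have hu := S.ν_gen w k (S.of_dvd h (dvd_mul_left _ _)) e
  have h1 := S.ν_fib c w.p k w.prime h e b
    (Multiplicative.ofAdd ((S.ν w.p k (S.ψ w.p (gn w))).toAdd * j))
  have h2 : ∀ a, S.th k w a = j ↔
      S.ν w.p k a = Multiplicative.ofAdd ((S.ν w.p k (S.ψ w.p (gn w))).toAdd * j) := fun a => by
    rw [th, Ring.inverse_mul_eq_iff_eq_mul _ _ _ hu]
    rfl
  simp only [h2]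
  refine Nat.eq_of_mul_eq_mul_left (Nat.two_pow_pos k) ?_
  rw [← mul_assoc, mul_comm (2 ^ k), h1, Nat.ordProj_mul_ordCompl_eq_self, hM]

/-- The congruence relation for weighted traces. -/
theorem F_cong (h : S.Ad (c * w.p)) (hl : l ∣ c) (e : 2 ^ (k + 1) ∣ w.p + 1)
    (hM : w.p + 1 = 2 ^ k * M) (V : ZMod (2 ^ k) → ℤ) (W : S.C c → ℤ) (x : S.C l) :
    S.F l (c * w.p) (fun a => V (S.th k w (S.pr w.p (c * w.p) a)) * W (S.pr c (c * w.p) a)) x -
      ((∑ j, V j) * M) • fr w • S.F l c W x ∈ K1 w := by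
  unfold F
  rw [fib h hl (dvd_mul_right _ _), smul_sum, smul_sum, ← sum_sub_distrib]
  refine sum_mem fun b _ => ?_
  have h1 : ∑ a with S.pr c (c * w.p) a = b, V (S.th k w (S.pr w.p (c * w.p) a)) *
      (ordCompl[2] (w.p + 1) : ℕ) = (∑ j, V j) * M := by
    rw [← sum_fiberwise_of_maps_to (t := univ) (g := fun a => S.th k w (S.pr w.p (c * w.p) a))
      (fun _ _ => mem_univ _), sum_mul]
    refine sum_congr rfl fun j _ => ?_
    rw [sum_congr rfl (g := fun _ => V j * (ordCompl[2] (w.p + 1) : ℕ)) fun a ha => by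
      rw [(mem_filter.1 ha).2], sum_const, filter_filter, ← card_th h e hM b j, nsmul_eq_mul,
      Nat.cast_mul]
    ring
  rw [← h1, sum_smul, ← sum_sub_distrib]
  refine sum_mem fun a ha => ?_
  have h2 := zsmul_mem (S.kron c w h a) (V (S.th k w (S.pr w.p (c * w.p) a)) * W b)
  simp only [(mem_filter.1 ha).2] at h2 ⊢
  convert h2 using 1
  rw [smul_comm (fr w), ← natCast_zsmul]
  generalize fr w • S.y c b = P
  module

theorem es_fq (h : S.Ad w.p) (hM : w.p + 1 = 2 ^ k * M) (hm : S.al w.p = 2 ^ k * m) (R : EE) :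
    fq w • R - R - (m • fr w • 2 ^ k • R - M • 2 ^ k • R) ∈ K1 w := by
  convert S.es w R h using 1
  have h1 : (w.p : ℤ) = 2 ^ k * M - 1 := by
    rw [eq_sub_iff_add_eq]
    exact_mod_cast hM
  rw [fq, mul_smul, smul_comm (fr w) (2 ^ k), hm, ← natCast_zsmul _ w.p, h1,
    ← natCast_zsmul _ M, ← natCast_zsmul _ (2 ^ k), ← natCast_zsmul _ (2 ^ k), Nat.cast_pow,
    Nat.cast_ofNat]
  generalize fr w • R = P
  generalize fr w • P = P'
  module

/-- The classes vanish at the square of Frobenius at the primes that divide the conductor. -/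
theorem KD.tr (K : KD S k l c' W' R' D') (e : c' = c * w.p) (hl : l ∣ c)
    (h1 : 2 ^ (k + 1) ∣ w.p + 1) (h2 : (2 : ℤ) ^ k ∣ S.al w.p)
    (hW : ∀ a, W' a = (S.th k w (S.pr w.p c' a)).val * W (S.pr c c' a)) (x : S.C l) :
    S.tt l c' R' D' (fq w) x = 0 := by
  subst e
  have hw : S.Ad w.p := S.of_dvd K.adm (dvd_mul_left _ _)
  have hc : S.Ad c := S.of_dvd K.adm (dvd_mul_right _ _)
  have hq := fq_mem K.adm hw
  obtain ⟨M, hM⟩ := id h1
  obtain ⟨m, hm⟩ := h2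
  obtain ⟨s, hs⟩ := kd_gauss k
  rw [pow_succ, mul_assoc] at hM
  refine K1_tors (S.odd hw) ?_ (K.tors hq.1 x)
  have h3 := F_cong K.adm hl h1 hM (fun j => (j.val : ℤ)) W x
  rw [← funext hW, ← K.hR, Nat.cast_mul, Nat.cast_ofNat, ← mul_assoc, hs] at h3
  obtain ⟨U, hU⟩ : ∃ U, U = (s * M) • fr w • S.F l c W x := ⟨_, rfl⟩
  have h4 : 2 ^ k • (R' x - U) ∈ K1 w := by
    convert h3 using 1
    rw [hU, ← natCast_zsmul _ (2 ^ k), ← natCast_zsmul _ (2 ^ k), Nat.cast_pow, Nat.cast_ofNat]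
    generalize fr w • S.F l c W x = P
    module
  have h5 : fq w • U = U := by
    rw [hU, smul_comm, show ∀ P : EE, fq w • fr w • P = fr w • fq w • P from fun P => by
      simp only [fq, mul_smul], F_fq hc hw]
  have h6 := add_mem (es_fq hw hM hm (R' x - U))
    (sub_mem (zsmul_mem ((K1_smul (fr_spec w).1).2 h4) m) (nsmul_mem h4 (2 * M)))
  rwa [sub_add_cancel, smul_sub, h5, sub_sub_sub_cancel_right, ← tw_fq f,
    ← K.of_ker hq.1 hq.2] at h6

/-- The relation between the singular part and the finite part. -/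
theorem KD.step (K : KD S k l c W R D) (K' : KD S k l c' W' R' D') (e : c' = c * w.p)
    (hc : ¬ w.p ∣ c) (h1 : 2 ^ (k + 1) ∣ w.p + 1) (h2 : (2 : ℤ) ^ k ∣ S.al w.p)
    (hW : ∀ a, W' a = (S.th k w (S.pr w.p c' a)).val * W (S.pr c c' a)) (x : S.C l) :
    fr w • S.tt l c' R' D' (gn w) x = S.tt l c R D (fq w) x := by
  subst e
  have hw : S.Ad w.p := S.of_dvd K'.adm (dvd_mul_left _ _)
  have hq := fq_mem K.adm hw
  have hs := (gn_spec (S.odd hw)).1
  have hs' := S.ine hw hs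
  obtain ⟨M, hM⟩ := (pow_dvd_pow 2 k.le_succ).trans h1
  obtain ⟨m, hm⟩ := h2
  have p1 : S.ψ c (gn w) = 1 := S.unr c w K.adm hc _ ⟨hs', hs⟩
  have p2 : S.th k w (S.ψ w.p (gn w)) = 1 := Ring.inverse_mul_cancel _ (S.ν_gen w k hw h1)
  obtain ⟨Z, hZ⟩ : ∃ Z, Z = S.F l (c * w.p) (fun a =>
    (if S.th k w (S.pr w.p (c * w.p) a) = 0 then 1 else 0) * W (S.pr c (c * w.p) a)) x := ⟨_, rfl⟩
  have h3 : Z - M • fr w • 2 ^ k • R x ∈ K1 w := by
    have := F_cong K'.adm K.dvd h1 hM (fun j => if j = 0 then 1 else 0) W x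
    rwa [← hZ, ← K.hR, sum_ite_eq', if_pos (mem_univ _), one_mul, natCast_zsmul] at this
  have h4 : D' (S.ψ _ (gn w)) x = Z - m • 2 ^ k • R x := by
    refine uniq K'.adm (K'.fx _ _) (sub_mem (hZ ▸ F_fx K'.adm _ _) (zsmul_mem
      (K.hR x ▸ fx_le K'.adm (dvd_mul_right _ _) (F_fx K.adm _ _)) _)) (k := k) ?_
    have h5 : 2 ^ k • (Z - m • 2 ^ k • R x) = (2 : ℤ) ^ k • Z - S.al w.p • S.F l c W x := by
      rw [hm, K.hR, ← natCast_zsmul _ (2 ^ k), Nat.cast_pow, Nat.cast_ofNat]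
      module
    rw [h5, K'.hD, hZ, ← F_mul, ← F_pr w.prime K'.adm K.dvd, ← F_sub]
    congr 1
    funext a
    rw [hW, hW, map_mul, map_mul, map_inv, map_inv, S.pr_ψ _ _ K'.adm (dvd_mul_left _ _) _ hs',
      S.pr_ψ _ _ K'.adm (dvd_mul_right _ _) _ hs', p1, th_mul, th_inv, p2, inv_one, one_mul,
      ← sub_mul, kd_val]
    push_cast
    ring
  have h5 : S.tt l _ R' D' (gn w) x - (m • 2 ^ k • R x - M • fr w • 2 ^ k • R x) ∈ K1 w := by
    convert sub_mem (K1_ine (S.good hw) hs (R' x)) h3 using 1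
    rw [tt, tw_of (S.unf hw _ hs), ker K.adm K.dvd hs' p1, inv_one, one_mul, h4]
    abel
  have h6 : fr w • fr w • 2 ^ k • R x = 2 ^ k • R x := by
    rw [K.hR, ← mul_smul]
    exact F_fq K.adm hw W x
  have h7 := sub_mem ((K1_smul (fr_spec w).1).2 h5) (es_fq hw hM hm (R x))
  rw [← sub_eq_zero]
  refine K1_tors (S.odd hw) ?_ (m := k) (by
    rw [smul_sub, smul_comm, K'.tors hs', K.tors hq.1, smul_zero, sub_zero])
  convert h7 using 1
  rw [K.of_ker hq.1 hq.2, tw_fq, smul_sub (fr w), smul_sub (fr w), smul_comm (fr w) m,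
    smul_comm (fr w) M, h6]
  abel

end KS

end Pool.Agent.B6
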