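import Pool.Agent.Lib.MP_696deb_nt.B6.KDb
import Pool.Agent.Lib.MP_696deb_nt.B6.PA0

/-! The classes of Kolyvagin with coefficients in the rings of finite level. -/

set_option autoImplicit false

open scoped NNReal Classical
open Finset Matrix NumberTheorySymbols PowerSeries

namespace Pool.Agent.B6

open Pool.Agent.Lib.MP_696deb_nt Pool.Agent.Lib.MP_696deb_nt.B2

variable [Cw]

namespace KS

variable {n k l c : ℕ} {f : ℤ} {S : KS n f} {w : Plc} {g : Gam} {P P' : EE} {Q : Finset Plc}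

/-- Coordinates of torsion points. -/
noncomputable def crd (S : KS n f) (k : ℕ) (P : EE) : Fin 2 → ZMod (2 ^ k) :=
  Function.invFun (S.emb k) P

theorem emb_crd (hP : 2 ^ k • P = 0) : S.emb k (S.crd k P) = P :=
  Function.invFun_eq (S.onto k P hP)

theorem crd_emb (x : Fin 2 → ZMod (2 ^ k)) : S.crd k (S.emb k x) = x :=
  Function.leftInverse_invFun (S.inj k) x

theorem crd_zero : S.crd k 0 = 0 := by rw [← map_zero (S.emb k), crd_emb]

theorem crd_add (hP : 2 ^ k • P = 0) (hP' : 2 ^ k • P' = 0) :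
    S.crd k (P + P') = S.crd k P + S.crd k P' := by
  rw [← emb_crd (S := S) hP, ← emb_crd (S := S) hP', ← map_add, crd_emb, crd_emb, crd_emb]

theorem crd_sub (hP : 2 ^ k • P = 0) (hP' : 2 ^ k • P' = 0) :
    S.crd k (P - P') = S.crd k P - S.crd k P' := by
  rw [← emb_crd (S := S) hP, ← emb_crd (S := S) hP', ← map_sub, crd_emb, crd_emb, crd_emb]

theorem crd_smul (hP : 2 ^ k • P = 0) (g : Gam) :
    S.crd k (g • P) = mred k (S.ρ g) *ᵥ S.crd k P := by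
  rw [← emb_crd (S := S) hP, S.smul, crd_emb, crd_emb]

theorem crd_tw (hP : 2 ^ k • P = 0) (g : Gam) :
    S.crd k (tw f g P) = (chi f g : ℤ) • mred k (S.ρ g) *ᵥ S.crd k P := by
  rw [← emb_crd (S := S) hP, tw, S.smul, ← map_zsmul, crd_emb, crd_emb]

variable {Ψ : S.C l →* Ak k} {a : Gam → (Fin 2 → Ak k) →+ Fin 2 → Ak k}

/-- Twisted sums of vectors. -/
noncomputable def cmb (Ψ : S.C l →* Ak k) (v : S.C l → Fin 2 → ZMod (2 ^ k)) (i : Fin 2) : Ak k :=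
  ∑ x, kdI k (v x i) * Ψ x

theorem cmb_mul (A : Matrix (Fin 2) (Fin 2) (ZMod (2 ^ k))) (v : S.C l → Fin 2 → ZMod (2 ^ k)) :
    cmb Ψ (fun x => A *ᵥ v x) = A.map (kdI k) *ᵥ cmb Ψ v := by
  funext i
  simp only [cmb, mulVec, dotProduct, Fin.sum_univ_two, map_add, map_mul, map_apply, mul_sum,
    ← sum_add_distrib]
  exact sum_congr rfl fun x _ => by ring

theorem cmb_add (v v' : S.C l → Fin 2 → ZMod (2 ^ k)) :
    cmb Ψ (fun x => v x + v' x) = cmb Ψ v + cmb Ψ v' := funext fun i => by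
  simp only [cmb, Pi.add_apply, map_add, add_mul, sum_add_distrib]

theorem cmb_sub (v v' : S.C l → Fin 2 → ZMod (2 ^ k)) :
    cmb Ψ (fun x => v x - v' x) = cmb Ψ v - cmb Ψ v' := funext fun i => by
  simp only [cmb, Pi.sub_apply, map_sub, sub_mul, sum_sub_distrib]

/-- The action on the twisted Tate module. -/
def IsAct (Ψ : S.C l →* Ak k) (a : Gam → (Fin 2 → Ak k) →+ Fin 2 → Ak k) : Prop :=
  ∀ g ∈ GK n, ∀ x, a g x = (chi f g : ℤ) • (mred k (S.ρ g)).map (kdI k) *ᵥ Ψ (S.ψ l g) • x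

theorem cmb_act (ha : IsAct Ψ a) (hg : g ∈ GK n) (v : S.C l → Fin 2 → ZMod (2 ^ k)) :
    cmb Ψ (fun x => (chi f g : ℤ) • mred k (S.ρ g) *ᵥ v ((S.ψ l g)⁻¹ * x)) = a g (cmb Ψ v) := by
  have h1 : cmb Ψ (fun x => v ((S.ψ l g)⁻¹ * x)) = Ψ (S.ψ l g) • cmb Ψ v := by
    funext i
    rw [Pi.smul_apply, smul_eq_mul, cmb, cmb, mul_sum, ← Equiv.sum_comp (Equiv.mulLeft (S.ψ l g))]
    refine sum_congr rfl fun x _ => ?_
    rw [Equiv.coe_mulLeft, inv_mul_cancel_left, map_mul]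
    ring
  rw [ha g hg, ← h1, ← cmb_mul]
  funext i
  simp only [cmb, Pi.smul_apply, map_zsmul, smul_sum, smul_mul_assoc]

/-- The class of a torsion valued cochain. -/
noncomputable def kap (Ψ : S.C l →* Ak k) (t : Gam → S.C l → EE) (g : Gam) : Fin 2 → Ak k :=
  if g ∈ GK n then cmb Ψ fun x => S.crd k (t g x) else 0

theorem kap_of (hg : g ∈ GK n) (t : Gam → S.C l → EE) :
    kap Ψ t g = cmb Ψ fun x => S.crd k (t g x) := if_pos hg

theorem kap_zero {t : Gam → S.C l → EE} (h : ∀ x, t g x = 0) : kap Ψ t g = 0 := by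
  unfold kap
  split_ifs
  · funext i
    simp [cmb, h, crd_zero]
  · rfl

variable {W : S.C c → ℤ} {R : S.C l → EE} {D : S.C c → S.C l → EE}

theorem KD.z1 (K : KD S k l c W R D) (ha : IsAct Ψ a) : kap Ψ (S.tt l c R D) ∈ Z1 (GK n) a := by
  refine ⟨⟨(K.sm.comp fun t => cmb Ψ fun x => S.crd k (t x)).congr fun g hg =>
    (kap_of hg _).symm, fun g hg g' hg' => ?_⟩, fun g hg => if_neg hg⟩
  rw [kap_of hg, kap_of hg', kap_of (mul_mem hg hg'), ← cmb_act ha hg, ← cmb_add]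
  refine congrArg _ (funext fun x => ?_)
  rw [K.coc hg hg', crd_add (K.tors hg x) (by rw [← tw_nsmul, K.tors hg', tw_zero]),
    crd_tw (K.tors hg' _)]

/-- The classes are coboundaries on groups whose fixed points are divisible by two. -/
theorem KD.cob (K : KD S k l c W R D) (ha : IsAct Ψ a) {I : Subgroup Gam}
    (hI : ∀ g ∈ I, g ∈ GK n ∧ S.ψ c g = 1 ∧ chi f g = 1)
    (hd : ∀ P : EE, (∀ σ ∈ I, σ • P = P) → ∃ U : EE, (∀ σ ∈ I, σ • U = U) ∧ 2 • U = P) :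
    ∃ x, ∀ σ ∈ I, kap Ψ (S.tt l c R D) σ = cob a x σ := by
  have h1 : ∀ (m : ℕ) (P : EE), (∀ σ ∈ I, σ • P = P) →
      ∃ U : EE, (∀ σ ∈ I, σ • U = U) ∧ 2 ^ m • U = P := fun m => by
    induction m with
    | zero => exact fun P h => ⟨P, h, by simp⟩
    | succ m ih =>
      intro P h
      obtain ⟨U, u1, rfl⟩ := ih P h
      obtain ⟨V, v1, rfl⟩ := hd U u1
      exact ⟨V, v1, by rw [pow_succ, mul_nsmul']⟩
  choose U u1 u2 using fun x => h1 k (2 ^ k • R x) fun σ hσ =>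
    K.fixed (hI σ hσ).1 (hI σ hσ).2.1 (hI σ hσ).2.2 x
  have h2 : ∀ x, 2 ^ k • (R x - U x) = 0 := fun x => by rw [smul_sub, u2, sub_self]
  refine ⟨cmb Ψ fun x => S.crd k (R x - U x), fun σ hσ => ?_⟩
  obtain ⟨i1, i2, i3⟩ := hI σ hσ
  rw [kap_of i1, B2.cob, ← cmb_act ha i1, ← cmb_sub]
  refine congrArg _ (funext fun x => ?_)
  rw [ker K.adm K.dvd i1 i2, inv_one, one_mul, ← crd_tw (h2 x), tw_of i3,
    ← crd_sub (by rw [smul_comm, h2, smul_zero]) (h2 x), K.of_ker' i1 i2 i3, smul_sub, u1 x σ hσ,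
    sub_sub_sub_cancel_right]

/-- Sets of places at which derivatives are taken. -/
structure Dps (S : KS n f) (k : ℕ) (lam : Plc) (Q : Finset Plc) : Prop where
  ad : ∀ w ∈ Q, S.Ad w.p
  ne : ∀ w ∈ Q, w.p ≠ lam.p
  dvd : ∀ w ∈ Q, 2 ^ (k + 1) ∣ w.p + 1
  al : ∀ w ∈ Q, (2 : ℤ) ^ k ∣ S.al w.p
  rho : ∀ w ∈ Q, mred k (S.ρ (fr w)) = !![0, 1; 1, 0]
  inj : ∀ w ∈ Q, ∀ v ∈ Q, w.p = v.p → w = v

variable {lam : Plc}

theorem Dps.mono (h : S.Dps k lam Q) {Q' : Finset Plc} (e : Q' ⊆ Q) : S.Dps k lam Q' :=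
  ⟨fun w hw => h.ad w (e hw), fun w hw => h.ne w (e hw), fun w hw => h.dvd w (e hw),
    fun w hw => h.al w (e hw), fun w hw => h.rho w (e hw),
    fun w hw v hv => h.inj w (e hw) v (e hv)⟩

theorem Dps.nd (h : S.Dps k lam (insert w Q)) (hw : w ∉ Q) : ¬ w.p ∣ cQ lam Q :=
  not_dvd_cQ (h.ne w (mem_insert_self _ _)) fun v hv e =>
    hw (h.inj w (mem_insert_self _ _) v (mem_insert_of_mem hv) e ▸ hv)

theorem Dps.adm (h : S.Dps k lam Q) (hl : S.Ad lam.p) : S.Ad (cQ lam Q) := by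
  induction Q using Finset.induction_on with
  | empty => simpa [cQ] using hl
  | insert w Q hw ih =>
    rw [cQ_insert hw]
    exact S.ad_mul (ih (h.mono (subset_insert _ _))) (h.ad w (mem_insert_self _ _)) (h.nd hw)

theorem Dps.ex (h : S.Dps k lam Q) (hl : S.Ad lam.p) :
    ∃ R D, KD S k lam.p (cQ lam Q) (S.Wt k Q _) R D := by
  refine exists_KD (h.adm hl) (dvd_mul_right _ _) (dv_Wt (h.adm hl) fun w hw =>
    ⟨cQ lam (Q.erase w), ?_, dvd_mul_right _ _, fun v hv e => dvd_cQ (mem_erase.2 ⟨e, hv⟩),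
      h.al w hw⟩)
  rw [← cQ_insert (notMem_erase w Q), insert_erase hw]

theorem Wt_insert {Q' : Finset Plc} (h : S.Ad (cQ lam Q')) (hw : w ∉ Q) (e : Q' = insert w Q)
    (x : S.C (cQ lam Q')) : S.Wt k Q' _ x =
      (S.th k w (S.pr w.p _ x)).val * S.Wt k Q (cQ lam Q) (S.pr _ _ x) := by
  subst e
  rw [Wt_pr h (Dvd.intro _ (cQ_insert hw).symm) fun v hv => dvd_cQ hv, Wt, prod_insert hw]
  rfl

theorem KD.root {D : S.C c → S.C l → EE} (K : KD S k l c (S.Wt k ∅ c) R D) (hc : c = l)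
    (x : S.C l) : 2 ^ k • R x = S.y l x := by
  subst hc
  have e : (univ.filter fun y => S.pr c c y = x) = {x} := by
    ext y
    simp [pr_self K.adm]
  rw [K.hR, F, e, sum_singleton, Wt, prod_empty, one_smul]

/-- What is known about the class that belongs to a set of places. -/
structure Cls (Ψ : S.C l →* Ak k) (a : Gam → (Fin 2 → Ak k) →+ Fin 2 → Ak k) (c : ℕ)
    (Q : Finset Plc) (κ : Gam → Fin 2 → Ak k) : Prop where
  z1 : κ ∈ Z1 (GK n) a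
  unr : ∀ w : Plc, w.p ≠ 2 → ¬ (w.p : ℤ) ∣ WZ.Δ → ¬ w.p ∣ c → ∀ σ ∈ GK n ⊓ Ine w, chi f σ = 1 →
    κ σ = 0
  cob : ∀ I : Subgroup Gam, (∀ g ∈ I, g ∈ GK n ∧ S.ψ c g = 1 ∧ chi f g = 1) →
    (∀ P : EE, (∀ σ ∈ I, σ • P = P) → ∃ U : EE, (∀ σ ∈ I, σ • U = U) ∧ 2 • U = P) →
    ∃ x, ∀ σ ∈ I, κ σ = B2.cob a x σ
  kum : ∃ (R : S.C l → EE) (v : S.C l → Gam → Fin 2 → ZMod (2 ^ k)), ∀ g ∈ GK n, S.ψ c g = 1 →
    chi f g = 1 → (∀ x, S.emb k (v x g) = g • R x - R x) ∧ ∀ i, κ g i = ∑ x, (v x g i).val • Ψ x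
  tr : ∀ w ∈ Q, κ (fq w) = 0

/-- The classes of Kolyvagin. -/
theorem core (hl : S.Ad lam.p) {Ψ : S.C lam.p →* Ak k} (ha : IsAct Ψ a) :
    ∃ (κ : Finset Plc → Gam → Fin 2 → Ak k) (R : S.C lam.p → EE),
    (∀ Q, S.Dps k lam Q → Cls Ψ a (cQ lam Q) Q (κ Q)) ∧
    (∀ Q w, w ∉ Q → S.Dps k lam (insert w Q) → κ (insert w Q) (gn w) = sw _ *ᵥ κ Q (fq w)) ∧
    (∀ x, 2 ^ k • R x = S.y lam.p x) ∧ ∀ g ∈ GK n, S.ψ lam.p g = 1 → chi f g = 1 →
      κ ∅ g = cmb Ψ fun x => S.crd k (g • R x - R x) := by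
  have ex : ∀ Q, ∃ R D, S.Dps k lam Q → KD S k lam.p (cQ lam Q) (S.Wt k Q _) R D := fun Q => by
    by_cases hQ : S.Dps k lam Q
    · obtain ⟨R, D, K⟩ := hQ.ex hl
      exact ⟨R, D, fun _ => K⟩
    · exact ⟨0, 0, fun k => absurd k hQ⟩
  choose R D K using ex
  have K0 := K ∅ ⟨by simp, by simp, by simp, by simp, by simp, by simp⟩
  have c0 : cQ lam ∅ = lam.p := by simp [cQ]
  refine ⟨fun Q => kap Ψ (S.tt _ _ (R Q) (D Q)), R ∅, fun Q hQ => ⟨(K Q hQ).z1 ha,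
    fun w h1 h2 h3 σ hσ e => kap_zero ((K Q hQ).unr h1 h2 h3 hσ e),
    fun I h1 h2 => (K Q hQ).cob ha h1 h2,
    ⟨R Q, fun x g => S.crd k (S.tt _ _ (R Q) (D Q) g x), fun g hg e e' => ⟨fun x => ?_,
      fun i => by simp only [kap_of hg, cmb, kdI_mul]⟩⟩, fun w hw => kap_zero ?_⟩,
    fun Q w hw hQ => ?_, K0.root c0, fun g hg e e' => ?_⟩
  · rw [emb_crd ((K Q hQ).tors hg x), (K Q hQ).of_ker' hg e e']
  · have e1 := (insert_erase hw).symm
    exact (K Q hQ).tr (c := cQ lam (Q.erase w)) (by rw [← cQ_insert (notMem_erase w Q), ← e1])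
      (dvd_mul_right _ _) (hQ.dvd w hw) (hQ.al w hw) (Wt_insert (K Q hQ).adm (notMem_erase w Q) e1)
  · have hm := mem_insert_self w Q
    have hd := hQ.ad w hm
    have K1 := K Q (hQ.mono (subset_insert _ _))
    have h2 := S.ine hd (gn_spec (S.odd hd)).1
    have h3 := K1.step (K _ hQ) (cQ_insert hw) (hQ.nd hw) (hQ.dvd w hm) (hQ.al w hm)
      (Wt_insert (K _ hQ).adm hw rfl)
    simp only [kap_of h2, kap_of (fq_mem hl hd).1, ← h3, crd_smul ((K _ hQ).tors h2 _), cmb_mul,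
      hQ.rho w hm, mulVec_mulVec]
    rw [show sw (Ak k) * (!![0, 1; 1, 0] : Matrix (Fin 2) (Fin 2) _).map (kdI k) = 1 by
      ext i j
      fin_cases i <;> fin_cases j <;> simp [sw, Matrix.mul_apply], one_mulVec]
  · simp only [kap_of hg, K0.of_ker' hg (c0 ▸ e) e']

end KS

end Pool.Agent.B6
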