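import Pool.Agent.Lib.MP_696deb_nt.B6.KDc
import Pool.Agent.Lib.MP_696deb_nt.B6.D1
import Pool.Agent.Lib.MP_696deb_nt.B2.PAa

/-! The class of conductor one modulo two. -/

set_option autoImplicit false

open scoped NNReal Classical
open Finset Matrix NumberTheorySymbols PowerSeries

namespace Pool.Agent.B6

open Pool.Agent.Lib.MP_696deb_nt Pool.Agent.Lib.MP_696deb_nt.B2

section

variable {C V V' : Type} [CommGroup C] [AddCommGroup V] [AddCommGroup V']

theorem shA_map (φ : V →+ V') (E : MonoidAlgebra ℤ C) (y : C → V) (a : C) :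
    φ (shA C V E y a) = shA C V' E (fun x => φ (y x)) a := by
  induction E using MonoidAlgebra.induction_linear with
  | zero => simp
  | add E E' h h' => simp only [map_add, LinearMap.add_apply, Pi.add_apply, h, h']
  | single b m => rw [shA_single, shA_single, map_zsmul]

/-- The value of the inverse of a character on the group ring. -/
noncomputable def chL {A : Type} [CommRing A] (Ψ : C →* A) : MonoidAlgebra ℤ C →+* A :=
  (MonoidAlgebra.lift ℤ A C (Ψ.comp invMonoidHom)).toRingHom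

theorem chL_single {A : Type} [CommRing A] (Ψ : C →* A) (b : C) (m : ℤ) :
    chL Ψ (MonoidAlgebra.single b m) = m * Ψ b⁻¹ :=
  (MonoidAlgebra.lift_single _ _ _).trans (zsmul_eq_mul _ _)

theorem shA_sum [Fintype C] {A : Type} [CommRing A] (Ψ : C →* A) (E : MonoidAlgebra ℤ C)
    (z : C → A) : ∑ x, shA C A E z x * Ψ x = chL Ψ E * ∑ x, z x * Ψ x := by
  induction E using MonoidAlgebra.induction_linear with
  | zero => simp
  | add E E' h h' =>
    simp only [map_add, LinearMap.add_apply, Pi.add_apply, add_mul, sum_add_distrib, h, h']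
  | single b m =>
    rw [chL_single, mul_sum, ← Equiv.sum_comp (Equiv.mulLeft b⁻¹)]
    refine sum_congr rfl fun x _ => ?_
    rw [shA_single, Equiv.coe_mulLeft, mul_inv_cancel_left, map_mul, zsmul_eq_mul]
    ring

end

/-- Elements of exact order `j` modulo two. -/
def Pw (k j : ℕ) (a : Ak k) : Prop :=
  ∃ (U : Lam) (s : Ak k), IsUnit U ∧ a = Ideal.Quotient.mk _ (U * X ^ j) + 2 * s

section

variable {k i j : ℕ} {a b : Ak k}

theorem Pw.mul (h : Pw k i a) (h' : Pw k j b) : Pw k (i + j) (a * b) := by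
  obtain ⟨U, s, u, rfl⟩ := h
  obtain ⟨U', s', u', rfl⟩ := h'
  refine ⟨U * U', s * Ideal.Quotient.mk _ (U' * X ^ j) + s' * Ideal.Quotient.mk _ (U * X ^ i) +
    2 * s * s', u.mul u', ?_⟩
  simp only [map_mul, map_pow]
  ring

theorem Pw.add (h : Pw k i a) (t : Ak k) : Pw k i (a + 2 * t) := by
  obtain ⟨U, s, u, rfl⟩ := h
  exact ⟨U, s + t, u, by ring⟩

theorem Pw.prod {ι : Type} (s : Finset ι) {m : ι → ℕ} {a : ι → Ak k}
    (h : ∀ r ∈ s, Pw k (m r) (a r)) : Pw k (∑ r ∈ s, m r) (∏ r ∈ s, a r) := by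
  induction s using Finset.induction_on with
  | empty => exact ⟨1, 0, isUnit_one, by simp⟩
  | insert r s hr ih =>
    rw [sum_insert hr, prod_insert hr]
    exact (h r (mem_insert_self _ _)).mul (ih fun t ht => h t (mem_insert_of_mem ht))

theorem Pw.sq (h : Pw k j a) (hj : 2 * j < k) {x : Lam} (hx : Ideal.Quotient.mk _ x = a) :
    x ^ 2 ∉ aa 1 (2 * j + 1) := fun e => by
  obtain ⟨U, s, u, rfl⟩ := h
  obtain ⟨s, rfl⟩ := Ideal.Quotient.mk_surjective s
  rw [← map_ofNat (Ideal.Quotient.mk (aa k k)) 2, ← map_mul, ← map_add, Ideal.Quotient.eq] at hx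
  have h1 := PA.aa_anti (j := 1) (i := 2 * j + 1) (by omega) hj hx
  have h2 : (2 : Lam) ∈ aa 1 (2 * j + 1) := by simpa using two_mem_aa 1 (2 * j + 1)
  have h3 : U ^ 2 * X ^ (2 * j) ∈ aa 1 (2 * j + 1) := by
    convert sub_mem (sub_mem e (Ideal.mul_mem_right (x + (U * X ^ j + 2 * s)) _ h1))
      (Ideal.mul_mem_right (2 * s * (U * X ^ j + s)) _ h2) using 1
    ring
  have h4 := PA.mem_aa.1 ((Ideal.unit_mul_mem_iff_mem _ (u.pow 2)).1 h3) (2 * j) (lt_add_one _)
  rw [coeff_X_pow_self, pow_one] at h4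
  exact PadicInt.prime_p.not_isUnit (isUnit_of_dvd_one (by exact_mod_cast h4))

theorem pw_gen {m : ℕ} (hm : Odd m) : ∃ u : Lam, IsUnit u ∧ (1 + X : Lam) ^ m = 1 + u * X := by
  refine ⟨∑ i ∈ range m, (1 + X) ^ i, isUnit_iff_constantCoeff.2 ?_, ?_⟩
  · have := (xld_unit hm).map (constantCoeff : Lam →+* ℤ_[2])
    simpa using this
  · have := geom_sum_mul (1 + X : Lam) m
    rw [add_sub_cancel_left] at this
    rw [this]
    ring

/-- The Euler factor at a split prime. -/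
theorem pw_euler (c : ℤ) {ε : ℤˣ} {m : ℕ} (hm : Odd m) {w : Lam} (hw : IsUnit w)
    (ha : a = Ideal.Quotient.mk _ (((ε : ℤ) : Lam) * (1 + X) ^ m)) (hb : b = Ideal.Quotient.mk _ w)
    (e : a * b = 1) : Pw k (if Even c then 2 else 0) (c - b - a) := by
  obtain ⟨u, u1, u2⟩ := pw_gen hm
  obtain ⟨t, ht⟩ : ∃ t : Ak k, a = 1 + Ideal.Quotient.mk _ (u * X) + 2 * t := by
    rw [ha, u2]
    rcases Int.units_eq_one_or ε with rfl | rfl
    · exact ⟨0, by simp⟩
    · exact ⟨-(1 + Ideal.Quotient.mk _ (u * X)), by simp; ring⟩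
  obtain ⟨s, h1⟩ : ∃ s, -b - a = Ideal.Quotient.mk _ (w * u ^ 2 * X ^ 2) + 2 * s := by
    refine ⟨-b - a + 1 + 2 * b * t * (a - 1 - t), ?_⟩
    rw [show w * u ^ 2 * X ^ 2 = w * (u * X) ^ 2 by ring, map_mul, map_pow, ← hb,
      show Ideal.Quotient.mk _ (u * X) = a - 1 - 2 * t by rw [ht]; ring]
    linear_combination (2 - a) * e
  split_ifs with hc
  · obtain ⟨r, rfl⟩ := hc
    refine ⟨w * u ^ 2, s + r, hw.mul (u1.pow 2), ?_⟩
    push_cast
    linear_combination h1
  · obtain ⟨r, rfl⟩ := Int.not_even_iff_odd.1 hc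
    refine ⟨1 + w * u ^ 2 * X ^ 2, s + r, isUnit_iff_constantCoeff.2 (by simp), ?_⟩
    rw [pow_zero, mul_one, map_add, map_one]
    push_cast
    linear_combination h1

theorem pw_zero (h : ∀ z, evk k a ≠ 2 * z) : Pw k 0 a := by
  obtain ⟨x, rfl⟩ := Ideal.Quotient.mk_surjective a
  refine ⟨x, 0, by_contra fun hx => ?_, by simp⟩
  have h1 : x ∈ aa 1 1 := PA.max_eq ▸ (IsLocalRing.mem_maximalIdeal x).2 hx
  obtain ⟨z, hz⟩ := PA.mem_aa.1 h1 0 one_pos
  refine h (PadicInt.toZModPow k z) ?_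
  rw [← map_ofNat (PadicInt.toZModPow (p := 2) k) 2, ← map_mul, ← pow_one (2 : ℤ_[2]), ← hz,
    coeff_zero_eq_constantCoeff]
  rfl

end

namespace KS

variable [Cw] {n k l : ℕ} {f : ℤ} {S : KS n f} {g : Gam} {Ψ : S.C l →* Ak k}

theorem exists_root (S : KS n f) (k : ℕ) {ι : Type} {y : ι → EE} (h : ∀ x, g • y x = y x) :
    ∃ (R : ι → EE) (v : ι → Fin 2 → ZMod (2 ^ k)), (∀ x, 2 ^ k • R x = y x) ∧
      ∀ x, S.emb k (v x) = g • R x - R x := by
  choose R hR using fun x => half k (y x)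
  choose v hv using fun x => S.onto k (g • R x - R x) (by
    rw [smul_sub, smul_comm, hR, h, sub_self])
  exact ⟨R, v, hR, hv⟩

/-- The congruence between points gives a congruence between classes. -/
theorem cmb_cong (hg : ∀ P : EE, 2 ^ k • P = 0 → g • P = P) {E : MonoidAlgebra ℤ (S.C l)}
    {y u R R' : S.C l → EE} {v : S.C l → Fin 2 → ZMod (2 ^ k)} (hu : ∀ x, g • u x = u x)
    (hR : ∀ x, 2 ^ k • R x = shA _ EE E y x + 2 • u x) (hR' : ∀ x, 2 ^ k • R' x = y x)
    (hv : ∀ x, S.emb k (v x) = g • R' x - R' x) (i : Fin 2) :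
    ∃ s, cmb Ψ (fun x => S.crd k (g • R x - R x)) i = chL Ψ E * cmb Ψ v i + 2 * s := by
  obtain ⟨U, s, h1, h2⟩ := S.exists_root k hu
  have h3 : ∀ x, g • R x - R x =
      S.emb k (shA _ (Fin 2 → ZMod (2 ^ k)) E v x + (s x + s x)) := fun x => by
    have e1 := hg (R x - shA _ EE E R' x - 2 • U x) (by
      have := shA_map (nsmulAddMonoidHom (2 ^ k)) E R' x
      simp only [nsmulAddMonoidHom_apply, hR'] at this
      rw [smul_sub, smul_sub, hR, this, smul_comm, h1, add_sub_cancel_left, sub_self])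
    have e2 := shA_map (DistribSMul.toAddMonoidHom EE g - AddMonoidHom.id EE) E R' x
    simp only [AddMonoidHom.sub_apply, DistribSMul.toAddMonoidHom_apply, AddMonoidHom.id_apply,
      ← hv, ← shA_map (S.emb k)] at e2
    rw [map_add, map_add, h2, ← e2]
    rw [smul_sub, smul_sub, smul_comm g 2, two_smul, two_smul] at e1
    linear_combination (norm := abel1) e1
  refine ⟨cmb Ψ s i, ?_⟩
  simp only [h3, crd_emb, cmb_add, Pi.add_apply, two_mul]
  congr 1
  rw [cmb, cmb, ← shA_sum]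
  refine sum_congr rfl fun x _ => congrArg (· * Ψ x) ?_
  exact shA_map ((kdI k).toAddMonoidHom.comp (Pi.evalAddMonoidHom _ i)) E v x

theorem emb_evk {ε : S.C l → ℤ} (h : ∀ x, evk k (Ψ x) = ε x) (v : S.C l → Fin 2 → ZMod (2 ^ k)) :
    S.emb k (fun i => evk k (cmb Ψ v i)) = ∑ x, ε x • S.emb k (v x) := by
  have h1 : ∀ u, evk k (kdI k u) = u := fun u => by
    rw [← ZMod.natCast_zmod_val u, map_natCast, map_natCast]
  simp only [← map_zsmul, ← map_sum]
  congr 1
  funext i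
  simp only [cmb, map_sum, map_mul, h1, h, Finset.sum_apply, Pi.smul_apply]
  exact sum_congr rfl fun x _ => by rw [zsmul_eq_mul, mul_comm]

end KS

end Pool.Agent.B6
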