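import Pool.Agent.Lib.MP_696deb_nt.B6.PA0
import Pool.Agent.Lib.MP_696deb_nt.B2.PA1

/-! Internal definitions of the patching argument. -/

set_option autoImplicit false

open scoped Classical
open Finset Matrix PowerSeries Filter Submodule LinearMap

namespace Pool.Agent.B6.PA

open Pool.Agent.Lib.MP_696deb_nt Pool.Agent.Lib.MP_696deb_nt.B2 Pool.Agent.Lib.MP_696deb_nt.B2.PA

/-- The rotation of a pair. -/
def rot {F : Type*} [Neg F] (x : Fin 2 → F) : Fin 2 → F := ![-x 1, x 0]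

@[simp] theorem rot_zero {F : Type*} [Neg F] (x : Fin 2 → F) : rot x 0 = -x 1 := rfl

@[simp] theorem rot_one {F : Type*} [Neg F] (x : Fin 2 → F) : rot x 1 = x 0 := rfl

theorem bb_rot {B : Type*} [CommRing B] (x y : Fin 2 → B) : bb x (rot y) = b6 x y := by
  simp only [bb, b6, rot_zero, rot_one]
  ring

theorem rot_bb {B : Type*} [CommRing B] (x y : Fin 2 → B) : bb (rot x) y = b6 x y := by
  simp only [bb, b6, rot_zero, rot_one]
  ring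

theorem comp_rot {F B φ : Type*} [AddCommGroup F] [AddCommGroup B] [FunLike φ F B]
    [AddMonoidHomClass φ F B] (t : φ) (x : Fin 2 → F) : t ∘ rot x = rot (t ∘ x) := by
  funext i
  fin_cases i
  · exact map_neg t _
  · rfl

theorem rot_smul {B : Type*} [CommRing B] (a : B) (x : Fin 2 → B) : rot (a • x) = a • rot x := by
  funext i
  fin_cases i
  · exact (smul_neg a (x 1)).symm
  · rfl

theorem rot_inj {F : Type*} [AddCommGroup F] {x y : Fin 2 → F} (h : rot x = rot y) : x = y := by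
  funext i
  fin_cases i
  · exact congrFun h 1
  · exact neg_inj.1 (congrFun h 0)

theorem span_rot {O F : Type} [CommRing O] [AddCommGroup F] [Module O F] (x : Fin 2 → F) :
    span O (Set.range (rot x)) = span O (Set.range x) := by
  refine le_antisymm (span_le.2 ?_) (span_le.2 ?_) <;> rintro _ ⟨i, rfl⟩ <;> fin_cases i
  · exact neg_mem (subset_span ⟨1, rfl⟩)
  · exact subset_span ⟨0, rfl⟩
  · exact subset_span ⟨1, rfl⟩
  · exact neg_mem_iff.1 (subset_span ⟨0, rfl⟩)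

theorem sw_vec {B : Type*} [CommRing B] (x : Fin 2 → B) : sw B *ᵥ x = ![x 1, x 0] := by
  ext i
  fin_cases i <;> simp [sw, mulVec, dotProduct, Fin.sum_univ_two]

theorem sw_sq {B : Type*} [CommRing B] : sw B * sw B = 1 := by
  ext i j
  fin_cases i <;> fin_cases j <;> simp [sw]

theorem sw_map {O B : Type} [CommRing O] [CommRing B] (φ : O →+* B) : (sw O).map φ = sw B := by
  ext i j
  fin_cases i <;> fin_cases j <;> simp [sw]

theorem sw_zero {B : Type*} [CommRing B] {x : Fin 2 → B} (h : sw B *ᵥ x = 0) : x = 0 := by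
  rw [← one_mulVec x, ← sw_sq, ← mulVec_mulVec, h, mulVec_zero]

theorem rot_sw {B : Type*} [CommRing B] (x : Fin 2 → B) : rot (sw B *ᵥ x) = -(tauM B *ᵥ x) := by
  rw [sw_vec]
  ext i
  fin_cases i <;> simp [tauM, dotProduct, Fin.sum_univ_two]

/-- Functions on a normal subgroup that are additive and equivariant. -/
structure Eqv {K Γ : Type} [CommRing K] [Group Γ] (N : Subgroup Γ) (θ : Γ →* Γ) (un : Fin 2 → Γ)
    (nm : Fin 2 → Matrix (Fin 2) (Fin 2) K) (z : Γ) (u : K) (c : Γ → Fin 2 → K) : Prop where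
  add : ∀ σ ∈ N, ∀ σ' ∈ N, c (σ * σ') = c σ + c σ'
  un1 : ∀ v, ∀ σ ∈ N, c (un v * σ * (un v)⁻¹) = (1 + nm v) *ᵥ c σ
  un2 : ∀ v, ∀ σ ∈ N, c (θ (un v) * σ * (θ (un v))⁻¹) = (sw K * (1 + nm v) * sw K) *ᵥ c σ
  z1 : ∀ σ ∈ N, c (z * σ * z⁻¹) = u • c σ
  z2 : ∀ σ ∈ N, u • c (θ z * σ * (θ z)⁻¹) = c σ

/-- The limit system over a ring `O`, with errors outside of the ideal `P`. -/
structure Sys (O : Type) [CommRing O] (P : Ideal O) (Γ : Type) [Group Γ] (N : Subgroup Γ)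
    (F : Type) [AddCommGroup F] [Module O F] (par : Prop) (f h : O) (k0 : Γ → Fin 2 → O) where
  θ : Γ →* Γ
  normal : N.Normal
  θN : ∀ σ ∈ N, θ σ ∈ N
  ev : Γ → Fin 2 → F
  z : Γ
  u : O
  hu : u * u ≠ 1
  two : (2 : O) ∉ P ∨ u * u - 1 ∉ P
  un : Fin 2 → Γ
  nm : Fin 2 → Matrix (Fin 2) (Fin 2) O
  nm_sq : ∀ v, nm v * nm v = 0
  nm_tr : (nm 0 * nm 1).trace ∉ P
  St : Type
  R : St → Submodule O F
  kap : St → F →ₗ[O] O
  kap_R : ∀ n, R n ≤ ker (kap n)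
  fg : ∀ n, Module.Finite O (F ⧸ R n)
  gen : ∀ n x, ∃ t ∉ P, t • x ∈ R n ⊔ span O {y | ∃ σ ∈ N, ∃ i, y = ev σ i}
  add : ∀ n, ∀ σ ∈ N, ∀ σ' ∈ N, ∀ i, ev (σ * σ') i - (ev σ i + ev σ' i) ∈ R n
  eq_un : ∀ n v, ∀ σ ∈ N, ∀ i,
    ev (un v * σ * (un v)⁻¹) i - ∑ j, (1 + nm v) i j • ev σ j ∈ R n
  eq_unθ : ∀ n v, ∀ σ ∈ N, ∀ i, ev (θ (un v) * σ * (θ (un v))⁻¹) i -
    ∑ j, (sw O * (1 + nm v) * sw O) i j • ev σ j ∈ R n
  eq_z : ∀ n, ∀ σ ∈ N, ∀ i, ev (z * σ * z⁻¹) i - u • ev σ i ∈ R n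
  eq_zθ : ∀ n, ∀ σ ∈ N, ∀ i, u • ev (θ z * σ * (θ z)⁻¹) i - ev σ i ∈ R n
  step : ∀ n, ∀ σ ∈ N, ∃ (n' : St) (Rq : Submodule O F) (φ s : Γ) (u0 u1 u2 : O), s ∈ N ∧
    R n = Rq ⊔ span O (Set.range (ev s)) ∧ R n' = Rq ⊔ span O (Set.range (ev φ)) ∧
    u0 ∉ P ∧ u1 ∉ P ∧ u2 ∉ P ∧ (∀ i, ev φ i - u0 • (ev σ i + ev (θ σ) i) ∈ R n) ∧
    (∀ i, ev (θ s) i + ev s i ∈ R n') ∧
    u1 • (kap n' ∘ ev s) = u2 • (sw O *ᵥ (kap n ∘ ev φ)) ∧
    IsoS P Rq (ev φ) (rot (ev s)) ∧ CoS P Rq (ev φ) (rot (ev s)) ∧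
    IsoR P Rq (ev φ) (rot (ev s)) ∧ (par → CoR P Rq (ev φ) (rot (ev s)))
  n0 : St
  R0 : Submodule O F
  φ0 : Γ
  s0 : Γ
  R_n0 : R n0 = R0 ⊔ span O (Set.range (ev s0))
  iso0 : IsoS P R0 (ev φ0) (rot (ev s0))
  kap_h : ∃ a ∉ P, kap n0 (ev φ0 1) = a * h
  kap_k0 : ∀ g i, kap n0 (ev g i) = k0 g i
  r : ℕ
  M : Matrix (Fin r) (Fin r) O
  det : M.det = f
  pres : ∃ p : F →ₗ[O] Cok M, Function.Surjective p ∧ R0 ⊔ span O {ev φ0 1, ev s0 0} ≤ ker p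
  dim : par → Dim2 P (R n0)

end Pool.Agent.B6.PA
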