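import Pool.Agent.Lib.MP_696deb_nt.B6.PA1
import Pool.Agent.Lib.MP_696deb_nt.B2.PAi

/-! Pairs of independent classes: a nonzero determinant, or a common eigenspace. -/

set_option autoImplicit false

open scoped Classical
open Finset Matrix PowerSeries Filter Submodule LinearMap

namespace Pool.Agent.B6.PA

open Pool.Agent.Lib.MP_696deb_nt Pool.Agent.Lib.MP_696deb_nt.B2 Pool.Agent.Lib.MP_696deb_nt.B2.PA

variable {K Γ : Type} [Field K] [Group Γ] {N : Subgroup Γ} {θ : Γ →* Γ} {un : Fin 2 → Γ}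
  {nm : Fin 2 → Matrix (Fin 2) (Fin 2) K} {z : Γ} {u : K} {c c' : Γ → Fin 2 → K}

theorem pair_polar (hθ : ∀ σ ∈ N, θ σ ∈ N) (hc : Eqv N θ un nm z u c) (hc' : Eqv N θ un nm z u c')
    (H : ∀ σ ∈ N, (c σ + c (θ σ)) 0 * (c' σ + c' (θ σ)) 1 = (c σ + c (θ σ)) 1 * (c' σ + c' (θ σ)) 0)
    {σ s : Γ} (hσ : σ ∈ N) (hs : s ∈ N) :
    (c σ 0 + c (θ σ) 0) * (c' s 1 + c' (θ s) 1) - (c σ 1 + c (θ σ) 1) * (c' s 0 + c' (θ s) 0) +
      ((c s 0 + c (θ s) 0) * (c' σ 1 + c' (θ σ) 1) - (c s 1 + c (θ s) 1) * (c' σ 0 + c' (θ σ) 0))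
      = 0 := by
  have h1 := H σ hσ
  have h2 := H s hs
  have h3 := H _ (mul_mem hσ hs)
  rw [map_mul, hc.add σ hσ s hs, hc'.add σ hσ s hs, hc.add _ (hθ σ hσ) _ (hθ s hs),
    hc'.add _ (hθ σ hσ) _ (hθ s hs)] at h3
  simp only [Pi.add_apply] at h1 h2 h3
  linear_combination h3 - h1 - h2

theorem Eqv.zz (hθ : ∀ σ ∈ N, θ σ ∈ N) (hc : Eqv N θ un nm z u c) {σ : Γ} (hσ : σ ∈ N) (i : Fin 2) :
    c (z * σ * z⁻¹) i = u * c σ i ∧ u * c (θ (z * σ * z⁻¹)) i = c (θ σ) i := by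
  refine ⟨congrFun (hc.z1 σ hσ) i, ?_⟩
  rw [map_mul, map_mul, map_inv]
  exact congrFun (hc.z2 _ (hθ σ hσ)) i

theorem pair_z (hu : u * u - 1 ≠ 0) (hN : N.Normal) (hθ : ∀ σ ∈ N, θ σ ∈ N)
    (hsq : ∀ v, nm v * nm v = 0) (htr : (nm 0 * nm 1).trace ≠ 0)
    (hc : Eqv N θ un nm z u c) (hc' : Eqv N θ un nm z u c')
    (ind : ∀ a b : K, (∀ σ ∈ N, a • c σ + b • c' σ = 0) → a = 0 ∧ b = 0) :
    ∃ σ ∈ N, (c σ + c (θ σ)) 0 * (c' σ + c' (θ σ)) 1 ≠ (c σ + c (θ σ)) 1 * (c' σ + c' (θ σ)) 0 := by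
  by_contra! H
  have k1 : ∀ σ ∈ N, ∀ s ∈ N, c σ 0 * (c' s 1 + c' (θ s) 1) - c σ 1 * (c' s 0 + c' (θ s) 0) +
      ((c s 0 + c (θ s) 0) * c' σ 1 - (c s 1 + c (θ s) 1) * c' σ 0) = 0 := fun σ hσ s hs => by
    have h1 := pair_polar hθ hc hc' H hσ hs
    have h2 := pair_polar hθ hc hc' H (hN.conj_mem σ hσ z) hs
    rw [(hc.zz hθ hσ 0).1, (hc.zz hθ hσ 1).1, (hc'.zz hθ hσ 0).1, (hc'.zz hθ hσ 1).1] at h2
    rw [← (hc.zz hθ hσ 0).2, ← (hc.zz hθ hσ 1).2, ← (hc'.zz hθ hσ 0).2, ← (hc'.zz hθ hσ 1).2] at h1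
    exact mul_left_cancel₀ hu (by linear_combination u * h2 - h1)
  have k2 : ∀ σ ∈ N, ∀ s ∈ N, c σ 0 * c' s 1 - c σ 1 * c' s 0 + (c s 0 * c' σ 1 - c s 1 * c' σ 0)
      = 0 := fun σ hσ s hs => by
    have h1 := k1 σ hσ s hs
    have h2 := k1 σ hσ _ (hN.conj_mem s hs z)
    rw [(hc.zz hθ hs 0).1, (hc.zz hθ hs 1).1, (hc'.zz hθ hs 0).1, (hc'.zz hθ hs 1).1] at h2
    rw [← (hc.zz hθ hs 0).2, ← (hc.zz hθ hs 1).2, ← (hc'.zz hθ hs 0).2, ← (hc'.zz hθ hs 1).2] at h1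
    exact mul_left_cancel₀ hu (by linear_combination u * h2 - h1)
  have k3 : ∀ s ∈ N, ∀ a, c s a = 0 := fun s hs a => by
    have K0 := pai_key hN hsq htr (un := un) (Φ := fun σ j => ![c, c'] j σ) (fun v σ hσ j => by
      fin_cases j
      exacts [hc.un1 v σ hσ, hc'.un1 v σ hσ]) ![![c' s 1, -c' s 0], ![-c s 1, c s 0]]
      fun σ hσ => by
        simp only [dotProduct, Fin.sum_univ_two, cons_val_zero, cons_val_one]
        linear_combination k2 σ hσ s hs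
    refine neg_eq_zero.1 (ind (c' s a) (-c s a) fun σ hσ => funext fun b => ?_).2
    have h0 := K0 σ hσ 0 b
    have h1 := K0 σ hσ 1 b
    simp only [Fin.sum_univ_two, cons_val_zero, cons_val_one] at h0 h1
    simp only [Pi.add_apply, Pi.smul_apply, smul_eq_mul, Pi.zero_apply]
    fin_cases a
    · exact (by linear_combination -h1 : c' s 0 * c σ b + -c s 0 * c' σ b = 0)
    · exact (by linear_combination h0 : c' s 1 * c σ b + -c s 1 * c' σ b = 0)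
  exact one_ne_zero (ind 1 0 fun σ hσ => funext fun b => by simp [k3 σ hσ b]).1

theorem pair_two (h2 : (2 : K) ≠ 0) (hN : N.Normal) (hθ : ∀ σ ∈ N, θ σ ∈ N)
    (hsq : ∀ v, nm v * nm v = 0) (htr : (nm 0 * nm 1).trace ≠ 0)
    (hc : Eqv N θ un nm z u c) (hc' : Eqv N θ un nm z u c')
    (ind : ∀ a b : K, (∀ σ ∈ N, a • c σ + b • c' σ = 0) → a = 0 ∧ b = 0) :
    (∃ σ ∈ N, (c σ + c (θ σ)) 0 * (c' σ + c' (θ σ)) 1 ≠ (c σ + c (θ σ)) 1 * (c' σ + c' (θ σ)) 0) ∨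
      ∃ ε : K, (ε = 1 ∨ ε = -1) ∧ (∀ σ ∈ N, c (θ σ) = ε • (sw K *ᵥ c σ)) ∧
        ∀ σ ∈ N, c' (θ σ) = ε • (sw K *ᵥ c' σ) := by
  refine or_iff_not_imp_left.2 fun H => ?_
  push Not at H
  obtain ⟨d, hd⟩ : ∃ d : Γ → Fin 2 → K, d = fun σ => sw K *ᵥ c (θ σ) := ⟨_, rfl⟩
  obtain ⟨d', hd'⟩ : ∃ d' : Γ → Fin 2 → K, d' = fun σ => sw K *ᵥ c' (θ σ) := ⟨_, rfl⟩
  have e : ∀ σ, c (θ σ) = sw K *ᵥ d σ := fun σ => by
    rw [hd, mulVec_mulVec, sw_sq, one_mulVec]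
  have e' : ∀ σ, c' (θ σ) = sw K *ᵥ d' σ := fun σ => by
    rw [hd', mulVec_mulVec, sw_sq, one_mulVec]
  have hΦ : ∀ v, ∀ σ ∈ N, ∀ j, ![c, c', d, d'] j (un v * σ * (un v)⁻¹) =
      (1 + nm v) *ᵥ ![c, c', d, d'] j σ := fun v σ hσ j => by
    fin_cases j
    · exact hc.un1 v σ hσ
    · exact hc'.un1 v σ hσ
    · change d _ = _ *ᵥ d σ
      simp only [hd, map_mul, map_inv, hc.un2 v _ (hθ σ hσ), mulVec_mulVec, ← mul_assoc, sw_sq,
        one_mul]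
    · change d' _ = _ *ᵥ d' σ
      simp only [hd', map_mul, map_inv, hc'.un2 v _ (hθ σ hσ), mulVec_mulVec, ← mul_assoc, sw_sq,
        one_mul]
  have K0 := pai_key hN hsq htr (Φ := fun σ j => ![c, c', d, d'] j σ) hΦ
  have k1 : ∀ σ ∈ N, ∀ b, ∀ s ∈ N,
      (d' s 1 - c' s 1 - (d' s 0 - c' s 0)) * (c σ b + d σ b) =
        (d s 1 - c s 1 - (d s 0 - c s 0)) * (c' σ b + d' σ b) := fun σ hσ b s hs => by
    have := K0 ![![c' s 1 + d' s 0, -(c' s 0 + d' s 1)], ![-(c s 1 + d s 0), c s 0 + d s 1],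
      ![-(c' s 0 + d' s 1), c' s 1 + d' s 0], ![c s 0 + d s 1, -(c s 1 + d s 0)]] (fun σ hσ => by
        have h1 := pair_polar hθ hc hc' H hσ hs
        simp only [e, e', sw_vec, cons_val_zero, cons_val_one] at h1
        simp only [Fin.sum_univ_four, dotProduct, Fin.sum_univ_two, cons_val_zero, cons_val_one,
          Matrix.cons_val]
        linear_combination h1) σ hσ
    have h0 := this 0 b
    have h1 := this 1 b
    simp only [Fin.sum_univ_four, cons_val_zero, cons_val_one, Matrix.cons_val] at h0 h1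
    linear_combination -h0 - h1
  have k2 : ∀ σ ∈ N, ∀ b, ∀ s ∈ N, ∀ a, (d' s a - c' s a) * (c σ b + d σ b) =
      (d s a - c s a) * (c' σ b + d' σ b) := fun σ hσ b s hs a => by
    have := K0 ![![-(c' σ b + d' σ b), c' σ b + d' σ b], ![c σ b + d σ b, -(c σ b + d σ b)],
      ![c' σ b + d' σ b, -(c' σ b + d' σ b)], ![-(c σ b + d σ b), c σ b + d σ b]] (fun s hs => by
        simp only [Fin.sum_univ_four, dotProduct, Fin.sum_univ_two, cons_val_zero, cons_val_one,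
          Matrix.cons_val]
        linear_combination k1 σ hσ b s hs) s hs 1 a
    simp only [Fin.sum_univ_four, cons_val_zero, cons_val_one, Matrix.cons_val] at this
    linear_combination this
  by_cases h1 : ∀ σ ∈ N, ∀ b, c σ b + d σ b = 0 ∧ c' σ b + d' σ b = 0
  · refine ⟨-1, .inr rfl, fun σ hσ => ?_, fun σ hσ => ?_⟩
    · rw [e, ← mulVec_smul]
      exact congrArg _ (funext fun b => by simpa using eq_neg_of_add_eq_zero_right (h1 σ hσ b).1)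
    · rw [e', ← mulVec_smul]
      exact congrArg _ (funext fun b => by simpa using eq_neg_of_add_eq_zero_right (h1 σ hσ b).2)
  by_cases h3 : ∀ σ ∈ N, ∀ b, d σ b - c σ b = 0 ∧ d' σ b - c' σ b = 0
  · refine ⟨1, .inl rfl, fun σ hσ => ?_, fun σ hσ => ?_⟩
    · rw [e, one_smul]
      exact congrArg _ (funext fun b => sub_eq_zero.1 (h3 σ hσ b).1)
    · rw [e', one_smul]
      exact congrArg _ (funext fun b => sub_eq_zero.1 (h3 σ hσ b).2)
  simp only [not_forall] at h1 h3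
  obtain ⟨σ, hσ, b, h1⟩ := h1
  obtain ⟨s, hs, a, h3⟩ := h3
  refine (h3 ((ind (d' s a - c' s a) (-(d s a - c s a)) fun t ht => funext fun i => ?_).symm.imp
    neg_eq_zero.1 id)).elim
  have k3 := k2 t ht i s hs a
  have k4 := k2 σ hσ b t ht i
  have k5 := k2 σ hσ b s hs a
  have k6 : (d' s a - c' s a) * (d t i - c t i) = (d s a - c s a) * (d' t i - c' t i) := by
    rcases not_and_or.1 h1 with k | k <;> refine mul_left_cancel₀ k ?_
    · linear_combination (d t i - c t i) * k5 - (d s a - c s a) * k4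
    · linear_combination (d' t i - c' t i) * k5 - (d' s a - c' s a) * k4
  simp only [Pi.add_apply, Pi.smul_apply, smul_eq_mul, Pi.zero_apply]
  exact mul_left_cancel₀ h2 (by linear_combination k3 - k6)

theorem coord_ne (hN : N.Normal) (hsq : ∀ v, nm v * nm v = 0) (htr : (nm 0 * nm 1).trace ≠ 0)
    (hc : Eqv N θ un nm z u c) (h : ∃ σ ∈ N, c σ ≠ 0) (ε : K) : ∃ σ ∈ N, c σ 0 + ε * c σ 1 ≠ 0 := by
  by_contra! H
  obtain ⟨σ, hσ, h⟩ := h
  refine h (funext fun b => ?_)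
  simpa using pai_key hN hsq htr (Φ := fun σ (_ : Unit) => c σ) (fun v σ hσ _ => hc.un1 v σ hσ)
    (fun _ => ![1, ε]) (fun σ hσ => by simpa [dotProduct, Fin.sum_univ_two] using H σ hσ) σ hσ 0 b

end Pool.Agent.B6.PA
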