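import Pool.Agent.Lib.MP_696deb_nt.B6.PAi
import Pool.Agent.Lib.MP_696deb_nt.B2.PAk

/-! One step of the argument of Kolyvagin over a discrete valuation ring. -/

set_option autoImplicit false

open scoped Classical
open Finset Matrix PowerSeries Filter Submodule LinearMap

namespace Pool.Agent.B6.PA

open Pool.Agent.Lib.MP_696deb_nt Pool.Agent.Lib.MP_696deb_nt.B2
open Pool.Agent.Lib.MP_696deb_nt.B2.PA hiding Sys Eqv

variable {O F Γ : Type} [CommRing O] [IsDomain O] [IsDiscreteValuationRing O] [AddCommGroup F]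
  [Module O F] [Group Γ] {N : Subgroup Γ} {par : Prop} {f h : O} {k0 : Γ → Fin 2 → O}
  (S : Sys O (IsLocalRing.maximalIdeal O) Γ N F par f h k0)

theorem Sys.eqv (n : S.St) {B : Type} [CommRing B] [Algebra O B] (t : F →ₗ[O] B)
    (ht : S.R n ≤ ker t) : Eqv N S.θ S.un (fun v => (S.nm v).map (algebraMap O B)) S.z
      (algebraMap O B S.u) fun g => t ∘ S.ev g := by
  have one : ∀ v, (1 + S.nm v).map (algebraMap O B) = 1 + (S.nm v).map (algebraMap O B) :=
    fun v => by rw [Matrix.map_add _ (map_add _), Matrix.map_one _ (map_zero _) (map_one _)]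
  refine ⟨fun σ hσ σ' hσ' => funext fun i => ?_, fun v σ hσ => ?_, fun v σ hσ => ?_,
    fun σ hσ => funext fun i => ?_, fun σ hσ => funext fun i => ?_⟩
  · have e := LinearMap.mem_ker.1 (ht (S.add n σ hσ σ' hσ' i))
    rwa [map_sub, sub_eq_zero, map_add] at e
  · rw [pak_mat ht (S.eq_un n v σ hσ), one]
  · rw [pak_mat ht (S.eq_unθ n v σ hσ), Matrix.map_mul, Matrix.map_mul, one, sw_map]
  · have e := LinearMap.mem_ker.1 (ht (S.eq_z n σ hσ i))
    rwa [map_sub, sub_eq_zero, map_smul, Algebra.smul_def] at e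
  · have e := LinearMap.mem_ker.1 (ht (S.eq_zθ n σ hσ i))
    rwa [map_sub, sub_eq_zero, map_smul, Algebra.smul_def] at e

theorem Sys.eq_zero (n : S.St) {B : Type} [AddCommGroup B] [Module O B] (t : F →ₗ[O] B)
    (ht : S.R n ≤ ker t) (h0 : ∀ σ ∈ N, t ∘ S.ev σ = 0) : t = 0 := by
  ext x
  obtain ⟨a, ha, hx⟩ := S.gen n x
  have k : S.R n ⊔ span O {y | ∃ σ ∈ N, ∃ i, y = S.ev σ i} ≤ ker t := by
    refine sup_le ht (Submodule.span_le.2 ?_)
    rintro y ⟨σ, hσ, i, rfl⟩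
    exact congrFun (h0 σ hσ) i
  have e := LinearMap.mem_ker.1 (k hx)
  rw [map_smul] at e
  exact (IsUnit.smul_eq_zero (IsLocalRing.notMem_maximalIdeal.1 ha)).1 e

theorem Sys.pak_dep (n : S.St) (t : F →ₗ[O] O) (ht : S.R n ≤ ker t) :
    ∃ a b : O, (a ≠ 0 ∨ b ≠ 0) ∧ a • S.kap n + b • t = 0 := by
  by_contra hc
  let K := FractionRing O
  let ι : O →ₗ[O] K := Algebra.linearMap O K
  have inj : Function.Injective (algebraMap O K) := IsFractionRing.injective O K
  have hk : ∀ {t : F →ₗ[O] O}, S.R n ≤ ker t → S.R n ≤ ker (ι ∘ₗ t) := fun h x hx => by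
    rw [LinearMap.mem_ker, LinearMap.comp_apply, LinearMap.mem_ker.1 (h hx), map_zero]
  have nz : ∀ {a : O}, a ∉ IsLocalRing.maximalIdeal O → a ≠ 0 := fun h e => h (e ▸ zero_mem _)
  have h2 : algebraMap O K S.u * algebraMap O K S.u - 1 ≠ 0 := fun e =>
    S.hu (inj (by rw [map_mul, map_one, sub_eq_zero.1 e]))
  have hsq : ∀ v, (S.nm v).map (algebraMap O K) * (S.nm v).map (algebraMap O K) = 0 := fun v => by
    rw [← Matrix.map_mul, S.nm_sq, Matrix.map_zero _ (map_zero _)]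
  have htr : ((S.nm 0).map (algebraMap O K) * (S.nm 1).map (algebraMap O K)).trace ≠ 0 := by
    rw [← Matrix.map_mul, ← AddMonoidHom.map_trace]
    exact fun e => nz S.nm_tr (inj (by rw [map_zero, e]))
  have ind : ∀ a b : K, (∀ σ ∈ N, a • ((ι ∘ₗ S.kap n) ∘ S.ev σ) + b • ((ι ∘ₗ t) ∘ S.ev σ) = 0) →
      a = 0 ∧ b = 0 := by
    intro a b hab
    have z := S.eq_zero n (a • (ι ∘ₗ S.kap n) + b • (ι ∘ₗ t)) (fun x hx => by
      rw [LinearMap.mem_ker, LinearMap.add_apply, LinearMap.smul_apply, LinearMap.smul_apply,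
        LinearMap.mem_ker.1 (hk ht hx), LinearMap.mem_ker.1 (hk (S.kap_R n) hx), smul_zero,
        smul_zero, add_zero]) fun σ hσ => hab σ hσ
    obtain ⟨x, y, hy, rfl⟩ := IsFractionRing.div_surjective (A := O) a
    obtain ⟨x', y', hy', rfl⟩ := IsFractionRing.div_surjective (A := O) b
    have hy0 := nonZeroDivisors.ne_zero hy
    have hy1 := nonZeroDivisors.ne_zero hy'
    have hy2 : algebraMap O K y ≠ 0 := fun e => hy0 (inj (by rw [e, map_zero]))
    have hy3 : algebraMap O K y' ≠ 0 := fun e => hy1 (inj (by rw [e, map_zero]))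
    have z' : (x * y') • S.kap n + (x' * y) • t = 0 := by
      ext w
      have e := LinearMap.congr_fun z w
      simp only [LinearMap.add_apply, LinearMap.smul_apply, LinearMap.comp_apply, ι,
        Algebra.linearMap_apply, smul_eq_mul, LinearMap.zero_apply] at e ⊢
      apply inj
      simp only [map_add, map_mul, map_zero]
      rw [div_mul_eq_mul_div, div_mul_eq_mul_div, div_add_div _ _ hy2 hy3, div_eq_zero_iff] at e
      linear_combination e.resolve_right (mul_ne_zero hy2 hy3)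
    by_cases hx : x * y' = 0 ∧ x' * y = 0
    · rw [(mul_eq_zero.1 hx.1).resolve_right hy1, (mul_eq_zero.1 hx.2).resolve_right hy0]
      simp
    · exact absurd ⟨_, _, not_and_or.1 hx, z'⟩ hc
  obtain ⟨σ, hσ, hd⟩ := pair_z h2 S.normal S.θN hsq htr (S.eqv n _ (hk (S.kap_R n)))
    (S.eqv n _ (hk ht)) ind
  obtain ⟨n', Rq, φ, s, u0, u1, u2, -, hR, hR', hu0, -, hu2, hφ, -, rel, ⟨a, ha, iso⟩, -⟩ :=
    S.step n σ hσ
  have e1 := pak_phi (S.kap_R n) hφ
  have e2 := pak_phi ht hφ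
  have k : ∀ t : F →ₗ[O] O, S.R n ≤ ker t →
      -(t (S.ev φ 1) * S.kap n' (S.ev s 1)) + t (S.ev φ 0) * S.kap n' (S.ev s 0) = 0 := by
    intro t ht
    rw [hR] at ht
    have hs : ∀ i, t (S.ev s i) = 0 := fun i =>
      ht (Submodule.mem_sup_right (Submodule.subset_span ⟨i, rfl⟩))
    have e := S.kap_R n' (hR' ▸ Submodule.mem_sup_left (iso t (le_sup_left.trans ht)))
    rw [LinearMap.mem_ker, map_smul, smul_eq_mul, mul_eq_zero] at e
    simpa [jv, hs] using e.resolve_left (nz ha)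
  have hD : S.kap n (S.ev φ 0) * t (S.ev φ 1) - S.kap n (S.ev φ 1) * t (S.ev φ 0) ≠ 0 := by
    have a0 := congrFun e1 0
    have a1 := congrFun e1 1
    have b0 := congrFun e2 0
    have b1 := congrFun e2 1
    simp only [Function.comp, Pi.smul_apply, Pi.add_apply, smul_eq_mul] at a0 a1 b0 b1
    rw [a0, a1, b0, b1]
    intro e
    simp only [Function.comp, Pi.add_apply, LinearMap.comp_apply, ι, Algebra.linearMap_apply,
      ← map_add, ← map_mul] at hd
    refine hd (congrArg _ (mul_left_cancel₀ (mul_ne_zero (nz hu0) (nz hu0)) ?_))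
    simp only [map_add]
    linear_combination e
  have s0 : S.kap n' (S.ev s 0) = 0 := mul_left_cancel₀ hD (by
    linear_combination t (S.ev φ 1) * k _ (S.kap_R n) - S.kap n (S.ev φ 1) * k t ht)
  have s1 : S.kap n' (S.ev s 1) = 0 := mul_left_cancel₀ hD (by
    linear_combination t (S.ev φ 0) * k _ (S.kap_R n) - S.kap n (S.ev φ 0) * k t ht)
  have z : S.kap n ∘ S.ev φ = 0 :=
    sw_zero ((IsLocalRing.notMem_maximalIdeal.1 hu2).smul_eq_zero.1 (by
      rw [← rel]; funext i; fin_cases i <;> simp [s0, s1]))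
  exact hD (by rw [show S.kap n (S.ev φ 0) = 0 from congrFun z 0,
    show S.kap n (S.ev φ 1) = 0 from congrFun z 1]; ring)

theorem Sys.rk1 (n : S.St) (hn : S.kap n ≠ 0) : Rk1 (S.R n) := by
  intro t t' ht ht'
  have key : ∀ {a b : O} {t : F →ₗ[O] O}, (a ≠ 0 ∨ b ≠ 0) → a • S.kap n + b • t = 0 → b ≠ 0 := by
    rintro a b t h e rfl
    rw [zero_smul, add_zero] at e
    refine hn (LinearMap.ext fun x => ?_)
    exact (mul_eq_zero.1 (LinearMap.congr_fun e x)).resolve_left (h.resolve_right fun k => k rfl)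
  obtain ⟨a, b, h, e⟩ := S.pak_dep n t ht
  obtain ⟨a', b', h', e'⟩ := S.pak_dep n t' ht'
  by_cases ha : a = 0
  · refine ⟨b, 0, Or.inl (key h e), ?_⟩
    rw [ha, zero_smul, zero_add] at e
    rw [e, zero_smul, add_zero]
  · refine ⟨a' * b, -(a * b'), Or.inr (neg_ne_zero.2 (mul_ne_zero ha (key h' e'))), ?_⟩
    ext x
    have e1 := LinearMap.congr_fun e x
    have e2 := LinearMap.congr_fun e' x
    simp only [LinearMap.add_apply, LinearMap.smul_apply, smul_eq_mul, LinearMap.zero_apply]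
      at e1 e2 ⊢
    linear_combination a' * e1 - a * e2

/-- The state `n'` is a good successor of `n`. -/
def Sys.Good (n n' : S.St) : Prop :=
  S.kap n' ≠ 0 ∧ (Bd (S.R n') (S.kap n') → Bd (S.R n) (S.kap n))

/-- The step in clean form. -/
theorem Sys.step' (n : S.St) {σ : Γ} (hσ : σ ∈ N)
    (hne : S.kap n ∘ S.ev σ + S.kap n ∘ S.ev (S.θ σ) ≠ 0) :
    ∃ (n' : S.St) (Rq : Submodule O F) (φ s : Γ) (u0 : O), S.Good n n' ∧ s ∈ N ∧
      S.R n = Rq ⊔ span O (Set.range (S.ev s)) ∧ S.R n' = Rq ⊔ span O (Set.range (S.ev φ)) ∧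
      IsUnit u0 ∧ (∀ i, S.ev φ i - u0 • (S.ev σ i + S.ev (S.θ σ) i) ∈ S.R n) ∧
      (∀ i, S.ev (S.θ s) i + S.ev s i ∈ S.R n') ∧
      (∀ t t' : F →ₗ[O] O ⧸ IsLocalRing.maximalIdeal O, Rq ≤ ker t → Rq ≤ ker t' →
        b6 (t ∘ S.ev φ) (t' ∘ S.ev s) + b6 (t ∘ S.ev s) (t' ∘ S.ev φ) = 0) ∧
      (par → ∀ x y : Fin 2 → O ⧸ IsLocalRing.maximalIdeal O,
        (∀ t : F →ₗ[O] O ⧸ IsLocalRing.maximalIdeal O, Rq ≤ ker t →
          b6 (t ∘ S.ev φ) y + b6 (t ∘ S.ev s) x = 0) →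
        ∃ t : F →ₗ[O] O ⧸ IsLocalRing.maximalIdeal O, Rq ≤ ker t ∧ t ∘ S.ev φ = x ∧
          t ∘ S.ev s = y) := by
  obtain ⟨n', Rq, φ, s, u0, u1, u2, hs, hR, hR', hu0, hu1, hu2, hφ, hθ, rel, iso, co, isoR, coR⟩ :=
    S.step n σ hσ
  rw [IsLocalRing.notMem_maximalIdeal] at hu0 hu1 hu2
  have hn : S.kap n ≠ 0 := fun e => hne (by rw [e]; funext i; simp)
  have ne : S.kap n ∘ S.ev φ ≠ 0 := by
    rw [pak_phi (S.kap_R n) hφ]
    exact fun e => hne (hu0.smul_eq_zero.1 e)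
  have hn' : S.kap n' ≠ 0 := fun e => ne (sw_zero (hu2.smul_eq_zero.1 (by
    rw [← rel, e]; funext i; simp)))
  refine ⟨n', Rq, φ, s, u0, ⟨hn', ?_⟩, hs, hR, hR', hu0, hφ, hθ, fun t t' ht ht' => ?_,
    fun hp x y hxy => ?_⟩
  · rw [← span_rot] at hR
    rw [hR, hR']
    refine plane (hR ▸ S.kap_R n) (hR' ▸ S.kap_R n') (hR ▸ S.rk1 n hn) (hR' ▸ S.rk1 n' hn') hu1
      hu2.neg ?_ ne iso co
    rw [neg_smul, ← smul_neg, ← rot_sw, comp_rot, ← rot_smul, ← rot_smul, rel]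
  · have e := isoR t t' ht ht'
    rwa [comp_rot, comp_rot, bb_rot, rot_bb] at e
  · obtain ⟨a, ha, co⟩ := coR hp
    obtain ⟨b, hb⟩ := (IsLocalRing.notMem_maximalIdeal.1 ha).exists_right_inv
    choose x0 hx using fun i => Ideal.Quotient.mk_surjective (x i)
    choose y0 hy using fun i => Ideal.Quotient.mk_surjective (y i)
    obtain ⟨t, ht, h1, h2⟩ := co (b • x0) (b • rot y0) (pak_dual fun t ht => by
      have e := hxy t ht
      simp only [b6, Function.comp, ← hx, ← hy] at e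
      simp only [jv, map_add, map_smul, Pi.smul_apply, smul_eq_mul, Algebra.smul_def, map_mul,
        Ideal.Quotient.algebraMap_eq, rot_zero, rot_one, map_neg]
      linear_combination Ideal.Quotient.mk _ b * e)
    refine ⟨t, ht, funext fun i => ?_, funext fun i => ?_⟩
    · rw [Function.comp, h1, Pi.smul_apply, smul_eq_mul, ← mul_assoc, hb, one_mul, hx]
    · have h3 := h2 0
      have h4 := h2 1
      rw [Pi.smul_apply, smul_eq_mul, ← mul_assoc, hb, one_mul] at h3 h4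
      rw [rot_zero, rot_zero, map_neg, map_neg, hy, neg_inj] at h3
      rw [rot_one, rot_one, hy] at h4
      fin_cases i
      exacts [h4, h3]

end Pool.Agent.B6.PA
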