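import Pool.Agent.Lib.MP_696deb_nt.B6.PAk
import Pool.Agent.Lib.MP_696deb_nt.B2.PAk2

/-! The induction of Kolyvagin over a discrete valuation ring. -/

set_option autoImplicit false

open scoped Classical
open Finset Matrix PowerSeries Filter Submodule LinearMap

namespace Pool.Agent.B6.PA

open Pool.Agent.Lib.MP_696deb_nt Pool.Agent.Lib.MP_696deb_nt.B2
open Pool.Agent.Lib.MP_696deb_nt.B2.PA hiding Sys Eqv coord_ne

variable {O F Γ : Type} [CommRing O] [IsDomain O] [IsDiscreteValuationRing O] [AddCommGroup F]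
  [Module O F] [Group Γ] {N : Subgroup Γ} {par : Prop} {f h : O} {k0 : Γ → Fin 2 → O}
  (S : Sys O (IsLocalRing.maximalIdeal O) Γ N F par f h k0)

attribute [local instance] Ideal.Quotient.field

/-- The residual functionals. -/
def Sys.D (n : S.St) : Submodule (Kr O) (F →ₗ[O] Kr O) where
  carrier := {t | S.R n ≤ ker t}
  zero_mem' := by simp
  add_mem' := fun {t t'} h h' x hx => by
    rw [LinearMap.mem_ker, LinearMap.add_apply, LinearMap.mem_ker.1 (h hx),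
      LinearMap.mem_ker.1 (h' hx), add_zero]
  smul_mem' := fun a t h x hx => by
    rw [LinearMap.mem_ker, LinearMap.smul_apply, LinearMap.mem_ker.1 (h hx), smul_zero]

theorem Sys.mem_D {n : S.St} {t : F →ₗ[O] Kr O} : t ∈ S.D n ↔ S.R n ≤ ker t := Iff.rfl

instance Sys.finD (n : S.St) : Module.Finite (Kr O) (S.D n) := by
  have := S.fg n
  obtain ⟨m, e, he⟩ := Module.Finite.exists_fin (R := O) (M := F ⧸ S.R n)
  choose x hx using fun i => (S.R n).mkQ_surjective (e i)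
  refine Module.Finite.of_injective ((PAk2ev x) ∘ₗ (S.D n).subtype) ?_
  rw [injective_iff_map_eq_zero]
  rintro ⟨t, ht⟩ h0
  have h1 : ∀ i, t (x i) = 0 := fun i => congrFun h0 i
  have h2 : (S.R n).liftQ t (S.mem_D.1 ht) = 0 := by
    refine LinearMap.ext_on_range he fun i => ?_
    rw [← hx i, Submodule.mkQ_apply, Submodule.liftQ_apply, h1, LinearMap.zero_apply]
  exact Subtype.ext (LinearMap.ext fun y => LinearMap.congr_fun h2 ((S.R n).mkQ y))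

theorem pk_b6 {K : Type} [Field K] {a a' w : Fin 2 → K} (hd : a 0 * a' 1 - a 1 * a' 0 ≠ 0)
    (h1 : b6 a w = 0) (h2 : b6 a' w = 0) : w = 0 := by
  rw [← bb_rot] at h1 h2
  refine rot_inj ((PAk2_bb hd h1 h2).trans ?_)
  funext i
  fin_cases i <;> simp

theorem pk_b0 {K : Type} [CommRing K] (a : Fin 2 → K) : b6 a 0 = 0 ∧ b6 0 a = 0 := by
  simp [b6]

/-- The residual dimension. -/
noncomputable def Sys.dd (n : S.St) : ℕ := Module.finrank (Kr O) (S.D n)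

/-- The residual dimension can be dropped. -/
def Sys.Drp (n : S.St) : Prop := ∃ σ ∈ N, ∃ t ∈ S.D n, ∃ t' ∈ S.D n,
  (t ∘ S.ev σ + t ∘ S.ev (S.θ σ)) 0 * (t' ∘ S.ev σ + t' ∘ S.ev (S.θ σ)) 1 ≠
    (t ∘ S.ev σ + t ∘ S.ev (S.θ σ)) 1 * (t' ∘ S.ev σ + t' ∘ S.ev (S.θ σ)) 0 ∧
  S.kap n ∘ S.ev σ + S.kap n ∘ S.ev (S.θ σ) ≠ 0

theorem Sys.drop (n : S.St) (h : S.Drp n) : ∃ n', S.Good n n' ∧ S.dd n' + 2 ≤ S.dd n := by
  obtain ⟨σ, hσ, t, ht, t', ht', hdet, hne⟩ := h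
  obtain ⟨n', Rq, φ, s, u0, hg, -, hR, hR', hu, hφ, -, iso, -⟩ := S.step' n hσ hne
  refine ⟨n', hg, ?_⟩
  have hu' := PAk2_unit hu
  have hd : (t ∘ S.ev φ) 0 * (t' ∘ S.ev φ) 1 - (t ∘ S.ev φ) 1 * (t' ∘ S.ev φ) 0 ≠ 0 := by
    rw [PAk2_phi hφ ht, PAk2_phi hφ ht, PAk2_phi hφ ht', PAk2_phi hφ ht']
    exact PAk2_det hu' hdet
  have ht1 := S.mem_D.1 ht
  have ht1' := S.mem_D.1 ht'
  rw [hR, PAk2_span] at ht1 ht1'
  have hle : S.D n' ≤ S.D n ⊓ ker (PAk2ev (S.ev φ)) := by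
    intro w hw
    have hw1 := S.mem_D.1 hw
    rw [hR', PAk2_span] at hw1
    refine ⟨?_, hw1.2⟩
    change S.R n ≤ ker w
    rw [hR, PAk2_span]
    refine ⟨hw1.1, ?_⟩
    have h1 := iso t w ht1.1 hw1.1
    have h2 := iso t' w ht1'.1 hw1.1
    rw [hw1.2, (pk_b0 _).1, add_zero] at h1 h2
    exact pk_b6 hd h1 h2
  have htop : (S.D n).map (PAk2ev (S.ev φ)) = ⊤ := by
    rw [eq_top_iff]
    intro v _
    obtain ⟨x, y, hxy⟩ := PAk2_sol hd v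
    exact ⟨x • t + y • t', add_mem (smul_mem _ _ ht) (smul_mem _ _ ht'), hxy⟩
  have h1 := PAk2_rank (S.D n) (PAk2ev (S.ev φ))
  rw [htop, finrank_top, Module.finrank_fin_fun] at h1
  have := PAk2_fin (S.D n) (ker (PAk2ev (S.ev φ)))
  have h2 := PAk2_mono hle
  unfold Sys.dd
  omega

theorem Sys.nm_sq' (v : Fin 2) :
    (S.nm v).map (algebraMap O (Kr O)) * (S.nm v).map (algebraMap O (Kr O)) = 0 := by
  rw [← Matrix.map_mul, S.nm_sq, Matrix.map_zero _ (map_zero _)]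

theorem Sys.nm_tr' :
    ((S.nm 0).map (algebraMap O (Kr O)) * (S.nm 1).map (algebraMap O (Kr O))).trace ≠ 0 := by
  rw [← Matrix.map_mul]
  intro h0
  refine S.nm_tr (Ideal.Quotient.eq_zero_iff_mem.1 ?_)
  rw [← h0]
  simp only [Matrix.trace, Matrix.diag, map_sum, Matrix.map_apply, Ideal.Quotient.algebraMap_eq]

/-- There is a nonzero residual class such that every class outside of its line either gives a
drop, or lies in the same eigenspace. -/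
theorem Sys.dich (n : S.St) (hn : S.kap n ≠ 0) : ∃ g ∈ S.D n, g ≠ 0 ∧
    (∀ σ, g ∘ S.ev σ + g ∘ S.ev (S.θ σ) ≠ 0 → S.kap n ∘ S.ev σ + S.kap n ∘ S.ev (S.θ σ) ≠ 0) ∧
    ((∀ t ∈ S.D n, ∃ b : Kr O, t = b • g) → ker (S.kap n) ≤ S.R n) ∧
    ∀ t ∈ S.D n, (¬ ∃ b : Kr O, t = b • g) → S.Drp n ∨ ∃ ε : Kr O, ((2 : Kr O) ≠ 0 ∧ (ε = 1 ∨ ε = -1)) ∧
      (∀ σ ∈ N, g ∘ S.ev (S.θ σ) = ε • (sw _ *ᵥ (g ∘ S.ev σ))) ∧
      ∀ σ ∈ N, t ∘ S.ev (S.θ σ) = ε • (sw _ *ᵥ (t ∘ S.ev σ)) := by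
  obtain ⟨g0, a, hsur, hR, ha, hκ, -, -⟩ := prim hn (S.kap_R n) (S.rk1 n hn)
  set g : F →ₗ[O] Kr O := (IsLocalRing.maximalIdeal O).mkQ ∘ₗ g0 with hg
  have hgx : ∀ x, g x = Ideal.Quotient.mk _ (g0 x) := fun _ => rfl
  have hgD : g ∈ S.D n := fun x hx => by
    rw [LinearMap.mem_ker, hgx, LinearMap.mem_ker.1 (hR hx), map_zero]
  have hg0 : g ≠ 0 := by
    intro h0
    obtain ⟨x, hx⟩ := hsur 1
    have h1 := hgx x
    rw [h0, hx, map_one, LinearMap.zero_apply] at h1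
    exact zero_ne_one h1
  have hne : ∀ σ, g ∘ S.ev σ + g ∘ S.ev (S.θ σ) ≠ 0 →
      S.kap n ∘ S.ev σ + S.kap n ∘ S.ev (S.θ σ) ≠ 0 := by
    intro σ h1 h2
    refine h1 (funext fun i => ?_)
    have h3 := congrFun h2 i
    rw [hκ] at h3
    have h4 : a * (g0 (S.ev σ i) + g0 (S.ev (S.θ σ) i)) = 0 := by
      rw [mul_add]
      exact h3
    have h5 := (mul_eq_zero.1 h4).resolve_left ha
    change g _ + g _ = 0
    rw [hgx, hgx, ← map_add, h5, map_zero]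
  refine ⟨g, hgD, hg0, hne, fun hall => ?_, fun t ht hnt => ?_⟩
  · have := S.fg n
    refine le_trans (fun x hx => ?_) (base_case hsur hR fun t ht => ?_)
    · rw [LinearMap.mem_ker, hκ, LinearMap.smul_apply, smul_eq_mul] at hx
      exact (mul_eq_zero.1 hx).resolve_left ha
    · obtain ⟨b, hb⟩ := hall t ht
      obtain ⟨b, rfl⟩ := Ideal.Quotient.mk_surjective b
      exact ⟨b, by rw [hb, PAk2_mk_smul]⟩
  · have ind : ∀ a b : Kr O, (∀ σ ∈ N, a • (g ∘ S.ev σ) + b • (t ∘ S.ev σ) = 0) →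
        a = 0 ∧ b = 0 := by
      intro c b hcb
      exact PAk2_solve hg0 hnt
        (S.eq_zero n _ (add_mem (smul_mem _ c hgD) (smul_mem _ b ht) : _ ∈ S.D n) hcb)
    have drp : ∀ σ ∈ N, (g ∘ S.ev σ + g ∘ S.ev (S.θ σ)) 0 * (t ∘ S.ev σ + t ∘ S.ev (S.θ σ)) 1 ≠
        (g ∘ S.ev σ + g ∘ S.ev (S.θ σ)) 1 * (t ∘ S.ev σ + t ∘ S.ev (S.θ σ)) 0 → S.Drp n :=
      fun σ hσ hdet => ⟨σ, hσ, g, hgD, t, ht, hdet, hne σ fun h0 => hdet (by
        simp only [h0, Pi.zero_apply, zero_mul])⟩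
    rcases S.two with h2 | h2
    · have h3 : (2 : Kr O) ≠ 0 := fun h0 =>
        h2 (Ideal.Quotient.eq_zero_iff_mem.1 (by rw [map_ofNat]; exact h0))
      rcases pair_two h3 S.normal S.θN S.nm_sq' S.nm_tr' (S.eqv n g hgD) (S.eqv n t ht)
        ind with ⟨σ, hσ, hdet⟩ | ⟨ε, h4, h5⟩
      · exact .inl (drp σ hσ hdet)
      · exact .inr ⟨ε, ⟨h3, h4⟩, h5⟩
    · obtain ⟨σ, hσ, hdet⟩ := pair_z (fun h0 => h2 (Ideal.Quotient.eq_zero_iff_mem.1 (by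
        rw [map_sub, map_mul, map_one]; exact h0))) S.normal S.θN S.nm_sq' S.nm_tr'
        (S.eqv n g hgD) (S.eqv n t ht) ind
      exact .inl (drp σ hσ hdet)

theorem Sys.dd_pos (n : S.St) (hn : S.kap n ≠ 0) : 1 ≤ S.dd n := by
  obtain ⟨g, hg, hg0, -⟩ := S.dich n hn
  exact (PAk2_pos (S.D n)).2 ⟨g, hg, hg0⟩

theorem Sys.dd_le_one {n : S.St} {g : F →ₗ[O] Kr O} (hg : g ∈ S.D n) (hg0 : g ≠ 0) :
    S.dd n ≤ 1 ↔ ∀ t ∈ S.D n, ∃ b : Kr O, t = b • g :=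
  PAk2_one (S.D n) hg hg0

theorem Sys.base (n : S.St) (hn : S.kap n ≠ 0) (h : S.dd n ≤ 1) : ker (S.kap n) ≤ S.R n := by
  obtain ⟨g, hg, hg0, -, hb, -⟩ := S.dich n hn
  exact hb ((S.dd_le_one hg hg0).1 h)

/-- The class `t` lies in the eigenspace of `ε`. -/
def Sys.Eig (ε : Kr O) (t : F →ₗ[O] Kr O) : Prop :=
  ∀ σ ∈ N, t ∘ S.ev (S.θ σ) = ε • (sw _ *ᵥ (t ∘ S.ev σ))

theorem Sys.Eig.smul {ε : Kr O} {t : F →ₗ[O] Kr O} (h : S.Eig ε t) (b : Kr O) :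
    S.Eig ε (b • t) := by
  intro σ hσ
  change b • (t ∘ S.ev (S.θ σ)) = ε • (sw _ *ᵥ (b • (t ∘ S.ev σ)))
  rw [h σ hσ, Matrix.mulVec_smul, smul_comm]

theorem Sys.eig_uniq {n : S.St} {ε ε' : Kr O} {t : F →ₗ[O] Kr O} (ht : t ∈ S.D n) (h0 : t ≠ 0)
    (h : S.Eig ε t) (h' : S.Eig ε' t) : ε = ε' := by
  by_contra hne
  refine h0 (S.eq_zero n t ht fun σ hσ => ?_)
  have h1 : (ε - ε') • (sw _ *ᵥ (t ∘ S.ev σ)) = 0 := by
    rw [sub_smul, ← h σ hσ, ← h' σ hσ, sub_self]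
  exact sw_zero ((smul_eq_zero.1 h1).resolve_left (sub_ne_zero.2 hne))

theorem Sys.eig_all {n : S.St} (hn : S.kap n ≠ 0) (h : ¬ S.Drp n) {ε : Kr O}
    {w : F →ₗ[O] Kr O} (hw : w ∈ S.D n) (hw0 : w ≠ 0) (hε : S.Eig ε w) :
    ∀ t ∈ S.D n, S.Eig ε t := by
  obtain ⟨g, hg, hg0, -, -, hd⟩ := S.dich n hn
  have hgε : S.Eig ε g := by
    by_cases hm : ∃ b : Kr O, w = b • g
    · obtain ⟨b, hb⟩ := hm
      have hb0 : b ≠ 0 := fun h0 => hw0 (by rw [hb, h0, zero_smul])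
      have h1 := hε.smul S b⁻¹
      rwa [hb, smul_smul, inv_mul_cancel₀ hb0, one_smul] at h1
    · obtain ⟨ε', -, h1, h2⟩ := (hd w hw hm).resolve_left h
      rw [S.eig_uniq hw hw0 hε h2]
      exact h1
  intro t ht
  by_cases hm : ∃ b : Kr O, t = b • g
  · obtain ⟨b, rfl⟩ := hm
    exact hgε.smul S b
  · obtain ⟨ε', -, h1, h2⟩ := (hd t ht hm).resolve_left h
    rw [S.eig_uniq hg hg0 hgε h1]
    exact h2

/-- A linear form on pairs. -/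
def ll {K : Type} [CommRing K] (ε : K) (v : Fin 2 → K) : K := v 0 + ε * v 1

theorem ll_add {K : Type} [CommRing K] (ε : K) (v w : Fin 2 → K) :
    ll ε (v + w) = ll ε v + ll ε w := by
  simp only [ll, Pi.add_apply]
  ring

theorem ll_zero {K : Type} [CommRing K] (ε : K) : ll ε 0 = 0 := by simp [ll]

theorem pk_idx {K : Type} [Field K] {ε : K} (h2 : (2 : K) ≠ 0) (hε : ε = 1 ∨ ε = -1) :
    (∀ x y : Fin 2 → K, 2 * b6 x y = ll ε x * ll (-ε) y + ll (-ε) x * ll ε y) ∧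
    (∀ v : Fin 2 → K, ll ε v = 0 → ll (-ε) v = 0 → v = 0) ∧
    (ll ε ![1, ε] = 2 ∧ ll (-ε) ![1, ε] = 0) ∧
    (∀ v : Fin 2 → K, ll ε (ε • (sw K *ᵥ v)) = ll ε v) ∧
    ∀ v : Fin 2 → K, ll (-ε) (ε • (sw K *ᵥ v)) = -ll (-ε) v := by
  have e : ε * ε = 1 := by rcases hε with rfl | rfl <;> simp
  refine ⟨fun x y => ?_, fun v h0 h1 => ?_, ⟨?_, ?_⟩, fun v => ?_, fun v => ?_⟩
  · simp only [b6, ll]
    linear_combination (2 * x 1 * y 1) * e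
  · simp only [ll] at h0 h1
    funext i
    fin_cases i
    · exact mul_left_cancel₀ h2 (by linear_combination h0 + h1 : 2 * v 0 = 2 * 0)
    · exact mul_left_cancel₀ h2
        (by linear_combination ε * h0 - ε * h1 - 2 * v 1 * e : 2 * v 1 = 2 * 0)
  · simp only [ll, cons_val_zero, cons_val_one]
    linear_combination e
  · simp only [ll, cons_val_zero, cons_val_one]
    linear_combination -e
  · simp only [ll, sw_vec, Pi.smul_apply, smul_eq_mul, cons_val_zero, cons_val_one]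
    linear_combination v 0 * e
  · simp only [ll, sw_vec, Pi.smul_apply, smul_eq_mul, cons_val_zero, cons_val_one]
    linear_combination -v 0 * e

/-- The linear form on residual functionals. -/
def pkl (ε : Kr O) (x : Fin 2 → F) : (F →ₗ[O] Kr O) →ₗ[Kr O] Kr O where
  toFun := fun t => ll ε (t ∘ x)
  map_add' := fun _ _ => ll_add _ _ _
  map_smul' := fun a t => by
    simp only [ll, Function.comp, LinearMap.smul_apply, smul_eq_mul, RingHom.id_apply]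
    ring

theorem pk_phi {R : Submodule O F} {p a b : Fin 2 → F} {u0 : O}
    (hp : ∀ i, p i - u0 • (a i + b i) ∈ R) {t : F →ₗ[O] Kr O} (ht : R ≤ ker t) (ε : Kr O) :
    ll ε (t ∘ p) = Ideal.Quotient.mk _ u0 * ll ε (t ∘ a + t ∘ b) := by
  rw [ll, ll, PAk2_phi hp ht, PAk2_phi hp ht]
  ring

theorem Sys.neutral (n : S.St) (hn : S.kap n ≠ 0) (h : ¬ S.Drp n) (h2 : 2 ≤ S.dd n) :
    ∃ n', S.Good n n' ∧ S.dd n' ≤ S.dd n ∧ (S.Drp n' ∨ (S.dd n' < S.dd n ∧ ¬ par)) := by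
  obtain ⟨g, hg, hg0, hne, -, hd⟩ := S.dich n hn
  have hex : ∃ t ∈ S.D n, ¬ ∃ b : Kr O, t = b • g := by
    by_contra hc
    have h1 := (S.dd_le_one hg hg0).2 fun t ht => by_contra fun h3 => hc ⟨t, ht, h3⟩
    omega
  obtain ⟨t1, ht1, hm⟩ := hex
  obtain ⟨ε, ⟨two, hε⟩, hgε, -⟩ := (hd t1 ht1 hm).resolve_left h
  have hall := S.eig_all hn h hg hg0 hgε
  obtain ⟨hbb, hz, hi, he0, he1⟩ := pk_idx two hε
  have hgN : ∃ σ ∈ N, g ∘ S.ev σ ≠ 0 := by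
    by_contra hc
    exact hg0 (S.eq_zero n g hg fun σ hσ => by_contra fun h3 => hc ⟨σ, hσ, h3⟩)
  obtain ⟨σ, hσ, hσ0⟩ := coord_ne S.normal S.nm_sq' S.nm_tr' (S.eqv n g hg) hgN ε
  have hs0 : ll ε (g ∘ S.ev σ + g ∘ S.ev (S.θ σ)) ≠ 0 := by
    rw [ll_add, hgε σ hσ, he0, ← two_mul]
    exact mul_ne_zero two hσ0
  obtain ⟨n', Rq, φ, s, u0, hgood, hs, hR, hR', hu, hφ, hθs, iso, co⟩ :=
    S.step' n hσ (hne σ fun h0 => hs0 (by rw [h0, ll_zero]))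
  replace iso : ∀ t t' : F →ₗ[O] Kr O, Rq ≤ ker t → Rq ≤ ker t' →
      ll ε (t ∘ S.ev φ) * ll (-ε) (t' ∘ S.ev s) + ll (-ε) (t ∘ S.ev φ) * ll ε (t' ∘ S.ev s) +
        (ll ε (t ∘ S.ev s) * ll (-ε) (t' ∘ S.ev φ) + ll (-ε) (t ∘ S.ev s) * ll ε (t' ∘ S.ev φ))
        = 0 := fun t t' ht ht' => by
    rw [← hbb, ← hbb, ← mul_add, iso t t' ht ht', mul_zero]
  have hD : ∀ t : F →ₗ[O] Kr O, t ∈ S.D n ↔ Rq ≤ ker t ∧ t ∘ S.ev s = 0 := fun t => by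
    rw [S.mem_D, hR, PAk2_span]
  have hD' : ∀ t : F →ₗ[O] Kr O, t ∈ S.D n' ↔ Rq ≤ ker t ∧ t ∘ S.ev φ = 0 := fun t => by
    rw [S.mem_D, hR', PAk2_span]
  have hφ1 : ∀ t ∈ S.D n, ll (-ε) (t ∘ S.ev φ) = 0 := fun t ht => by
    rw [pk_phi hφ ht, ll_add, hall t ht σ hσ, he1, add_neg_cancel, mul_zero]
  have hφ0 : ll ε (g ∘ S.ev φ) ≠ 0 := by
    rw [pk_phi hφ hg]
    exact mul_ne_zero (PAk2_unit hu) hs0
  have hs1 : ∀ t : F →ₗ[O] Kr O, Rq ≤ ker t → ll (-ε) (t ∘ S.ev s) = 0 := fun t ht => by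
    have h1 := iso g t ((hD g).1 hg).1 ht
    rw [((hD g).1 hg).2, hφ1 g hg, ll_zero, ll_zero] at h1
    simp only [zero_mul, add_zero] at h1
    exact (mul_eq_zero.1 h1).resolve_left hφ0
  have hq : S.D n ⊓ ker (pkl ε (S.ev φ)) = S.D n' ⊓ ker (pkl ε (S.ev s)) := by
    ext t
    constructor
    · rintro ⟨h3, h4⟩
      exact ⟨(hD' t).2 ⟨((hD t).1 h3).1, hz _ h4 (hφ1 t h3)⟩,
        (congrArg (ll ε) ((hD t).1 h3).2).trans (ll_zero ε)⟩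
    · rintro ⟨h3, h4⟩
      exact ⟨(hD t).2 ⟨((hD' t).1 h3).1, hz _ h4 (hs1 t ((hD' t).1 h3).1)⟩,
        (congrArg (ll ε) ((hD' t).1 h3).2).trans (ll_zero ε)⟩
  have r1 := PAk2_rank (S.D n) (pkl ε (S.ev φ))
  have r2 := PAk2_rank (S.D n') (pkl ε (S.ev s))
  have r3 := (PAk2_line (S.D n) (pkl ε (S.ev φ))).1
  have r4 := (PAk2_line (S.D n') (pkl ε (S.ev s))).1
  have r5 := (PAk2_line (S.D n) (pkl ε (S.ev φ))).2 g hg hφ0
  rw [hq] at r1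
  unfold Sys.dd at h2 ⊢
  refine ⟨n', hgood, by omega, ?_⟩
  by_cases hA : ∃ t ∈ S.D n', ll ε (t ∘ S.ev s) ≠ 0
  · left
    obtain ⟨t, ht, ht0⟩ := hA
    by_contra hnd
    have := PAk2_fin (S.D n') (ker (pkl ε (S.ev s)))
    obtain ⟨w, hw, hw0⟩ := (PAk2_pos (S.D n' ⊓ ker (pkl ε (S.ev s)))).1 (by omega)
    have hw' := hw
    rw [← hq] at hw'
    have h4 := congrArg (ll ε) (S.eig_all hgood.1 hnd hw.1 hw0 (hall w hw'.1) t ht s hs)
    rw [he0] at h4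
    have h5 : t ∘ S.ev (S.θ s) + t ∘ S.ev s = 0 := funext fun i =>
      (map_add t _ _).symm.trans (LinearMap.mem_ker.1 (S.mem_D.1 ht (hθs i)))
    refine mul_ne_zero two ht0 ?_
    rw [two_mul]
    nth_rewrite 1 [← h4]
    rw [← ll_add, h5, ll_zero]
  · right
    have hB : ∀ t ∈ S.D n', ll ε (t ∘ S.ev s) = 0 := fun t ht => by_contra fun h3 => hA ⟨t, ht, h3⟩
    have h3 : S.D n' ⊓ ker (pkl ε (S.ev s)) = S.D n' := inf_eq_left.2 hB
    rw [h3] at r1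
    refine ⟨by omega, fun hp => ?_⟩
    obtain ⟨t, ht, ht1, ht2⟩ := co hp 0 ![1, ε] fun t ht => by
      have h4 : ll (-ε) (t ∘ S.ev φ) = 0 := by
        by_cases h5 : ll ε (t ∘ S.ev s) = 0
        · exact hφ1 t ((hD t).2 ⟨ht, hz _ h5 (hs1 t ht)⟩)
        · have h6 := iso t t ht ht
          rw [hs1 t ht] at h6
          exact PAk2_two two h5 h6
      refine mul_left_cancel₀ two ?_
      rw [(pk_b0 _).1, add_zero, hbb, h4, hi.2]
      simp only [mul_zero, zero_mul, add_zero]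
    have h4 := hB t ((hD' t).2 ⟨ht, ht1⟩)
    rw [ht2, hi.1] at h4
    exact two h4

theorem Sys.bd (n : S.St) (hn : S.kap n ≠ 0) : Bd (S.R n) (S.kap n) := by
  induction hd : S.dd n using Nat.strong_induction_on generalizing n with
  | _ d ih =>
    subst hd
    by_cases h1 : S.dd n ≤ 1
    · unfold Bd
      rw [rl_eq_zero.2 (S.base n hn h1)]
      exact zero_le
    by_cases h2 : S.Drp n
    · obtain ⟨n', hg, hlt⟩ := S.drop n h2
      exact hg.2 (ih _ (by omega) n' hg.1 rfl)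
    obtain ⟨n', hg, hle, h3 | h3⟩ := S.neutral n hn h2 (by omega)
    · obtain ⟨n'', hg', hlt⟩ := S.drop n' h3
      exact hg.2 (hg'.2 (ih _ (by omega) n'' hg'.1 rfl))
    · exact hg.2 (ih _ h3.1 n' hg.1 rfl)

theorem Sys.parity (hp : par) (hn : S.kap S.n0 ≠ 0) : ker (S.kap S.n0) ≤ S.R S.n0 := by
  have h3 : S.dd S.n0 ≤ 2 := by
    by_contra hc
    obtain ⟨t, ht, hi⟩ := PAk2_three (S.D S.n0) (not_le.1 hc)
    obtain ⟨a, ⟨i, hi'⟩, ha⟩ := S.dim hp t ht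
    refine hi' (Ideal.Quotient.eq_zero_iff_mem.1 (hi (fun i => Ideal.Quotient.mk _ (a i)) ?_ i))
    rw [← ha]
    exact Finset.sum_congr rfl fun j _ => PAk2_mk_smul _ _
  by_cases h1 : S.dd S.n0 ≤ 1
  · exact S.base _ hn h1
  exfalso
  by_cases h2 : S.Drp S.n0
  · obtain ⟨n', hg, hlt⟩ := S.drop _ h2
    have := S.dd_pos n' hg.1
    omega
  obtain ⟨n', hg, hle, h4 | h4⟩ := S.neutral _ hn h2 (by omega)
  · obtain ⟨n'', hg', hlt⟩ := S.drop n' h4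
    have := S.dd_pos n'' hg'.1
    omega
  · exact h4.2 hp

end Pool.Agent.B6.PA
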