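import Pool.Agent.Lib.MP_696deb_nt.B2.PAv

/-! Isotropy and co-isotropy in the limit, for arbitrary families. -/

set_option autoImplicit false

open scoped Classical
open Finset Matrix PowerSeries Filter Submodule LinearMap

namespace Pool.Agent.B6.PA

open Pool.Agent.Lib.MP_696deb_nt Pool.Agent.Lib.MP_696deb_nt.B2 Pool.Agent.Lib.MP_696deb_nt.B2.PA

variable {J : Type} {R : ℕ → Submodule Lam (Fr J)} {r : ℕ} {lv : ℕ → ℕ}
  {p s : Fin 2 → Fr (ℕ → J)} {a : Lam}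

theorem pw_pj (k : ℕ) (x y : Fin 2 → Lam) :
    pj k (jv p s x y) = jv (pj k ∘ p) (pj k ∘ s) x y := by
  simp only [jv, map_add, map_smul, Function.comp]

theorem pw_desc (hG : ∀ k, PGen r (R k)) {j : ℕ} {I : Ideal Lam} (hI : aa j j ≤ I)
    (t : Fr (ℕ → J) →ₗ[Lam] Lam ⧸ I) (ht : PRel R ≤ ker t) :
    ∀ᶠ k in UU, ∃ t' : Fr J →ₗ[Lam] Lam ⧸ I, R k ≤ ker t' ∧
      t' ∘ pj k ∘ p = t ∘ p ∧ t' ∘ pj k ∘ s = t ∘ s := by
  filter_upwards [U_desc hG hI t ht (Sum.elim p s)]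
  rintro k ⟨t', h1, h2⟩
  exact ⟨t', h1, funext fun i => h2 (Sum.inl i), funext fun i => h2 (Sum.inr i)⟩

theorem W_isoS (hlv : ∀ k, k < lv k) (hG : ∀ k, PGen r (R k))
    (h : ∀ k, IsoT (lv k) a (R k) (pj k ∘ p) (pj k ∘ s)) {P : Ideal Lam} (ha : a ∉ P) :
    IsoS P (PRel R) p s := by
  refine ⟨_, ha, fun t ht => mem_PRel.2 fun j => ?_⟩
  filter_upwards [pw_desc (p := p) (s := s) hG le_rfl ((aa j j).mkQ ∘ₗ t) fun z hz => by
    rw [LinearMap.mem_ker, LinearMap.comp_apply, show t z = 0 from ht hz, map_zero],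
    ev_lv hlv j]
  rintro k ⟨t1, h1, h2, h3⟩ h4
  refine mem_of_ann (k := j) _ fun t2 h6 => ?_
  have h7 := h k _ h4 t2 t1 h6 h1
  rw [h2, h3] at h7
  rw [map_smul, map_smul, pw_pj, pav_jv]
  exact h7

theorem W_isoR (hlv : ∀ k, k < lv k) (hG : ∀ k, PGen r (R k))
    (h : ∀ k, IsoT (lv k) a (R k) (pj k ∘ p) (pj k ∘ s)) {P : Ideal Lam}
    [P.IsPrime] (ha : a ∉ P) : IsoR P (PRel R) p s := by
  intro t t' ht ht'
  obtain ⟨w, hw⟩ := Ideal.Quotient.mk_surjective (bb (t ∘ p) (t' ∘ s) + bb (t ∘ s) (t' ∘ p))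
  rw [← hw, Ideal.Quotient.eq_zero_iff_mem]
  refine (Ideal.IsPrime.mem_or_mem inferInstance (closedI P fun j => ?_)).resolve_left ha
  let f := Ideal.Quotient.factorₐ Lam (le_sup_left : P ≤ P ⊔ aa j j)
  have hf : ∀ t : Fr (ℕ → J) →ₗ[Lam] Lam ⧸ P, PRel R ≤ ker t → PRel R ≤ ker (f.toLinearMap ∘ₗ t) :=
    fun t ht z hz => by
      rw [LinearMap.mem_ker, LinearMap.comp_apply, show t z = 0 from ht hz, map_zero]
  obtain ⟨k, ⟨t1, h1, h2, h3⟩, ⟨t2, k1, k2, k3⟩, h4⟩ :=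
    ((pw_desc (p := p) (s := s) hG le_sup_right _ (hf t ht)).and
      ((pw_desc (p := p) (s := s) hG le_sup_right _ (hf t' ht')).and (ev_lv hlv j))).exists
  have h7 := h k _ (h4.trans le_sup_right) t1 t2 h1 k1
  rw [h2, h3, k2, k3] at h7
  have h8 := congrArg f hw
  simp only [bb, map_add, map_mul] at h8
  rw [← Ideal.Quotient.eq_zero_iff_mem, ← h7]
  exact congrArg (a • ·) h8

theorem pw_co (hlv : ∀ k, k < lv k) (h : ∀ k, CoT (lv k) a (R k) (pj k ∘ p) (pj k ∘ s))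
    (P : Ideal Lam) (ii : ℕ → ℕ) (h1 : ∀ j, ii j = j ∨ ii j = 1) (h2 : ∀ j, P ≤ aa j (ii j))
    (h3 : ∀ j, aa j (ii j) ≤ P ⊔ aa j j) {x y : Fin 2 → Lam}
    (hxy : jv p s x y ∈ PRel R ⊔ P • ⊤) :
    ∃ T : Fr (ℕ → J) →ₗ[Lam] Lam, (∀ z ∈ PRel R, T z ∈ P) ∧
      (∀ i, T (p i) - a * x i ∈ P) ∧ ∀ i, T (s i) - a * y i ∈ P := by
  obtain ⟨u, hu, v, hv, e⟩ := Submodule.mem_sup.1 hxy
  have anti : ∀ {j j'}, j ≤ j' → P ⊔ aa j' j' ≤ P ⊔ aa j j := fun h =>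
    sup_le_sup_left (aa_anti h h) _
  have key : ∀ j, ∀ᶠ k in UU, ∃ c : J → Lam, (∀ z ∈ R k, lc c z ∈ P ⊔ aa j j) ∧
      (∀ i, lc c (pj k (p i)) - a * x i ∈ P ⊔ aa j j) ∧
      ∀ i, lc c (pj k (s i)) - a * y i ∈ P ⊔ aa j j := fun j => by
    filter_upwards [hu (j + 1), ev_ge j] with k h4 h5
    obtain ⟨t, t1, t2, t3⟩ := h k (j + 1) (ii (j + 1)) (by omega) (by have := hlv k; omega) (h1 _)
      (Ideal.Quotient.mk _ ∘ x) (Ideal.Quotient.mk _ ∘ y) fun t ht => by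
        rw [← pav_jv, ← pw_pj, ← e, map_add, map_add, show t (pj k u) = 0 from
          sup_le ht (pav_kill (aa_anti le_rfl (by rcases h1 (j + 1) with h | h <;> omega)) t) h4,
          zero_add]
        exact pav_kill (h2 _) (t ∘ₗ pj k) hv
    choose c hc using fun z => Ideal.Quotient.mk_surjective (t (sg z))
    have h6 : (aa (j + 1) (ii (j + 1))).mkQ ∘ₗ lc c = t :=
      Finsupp.lhom_ext' fun z => LinearMap.ext_ring ((congrArg _ (lc_sg c z)).trans (hc z))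
    have h7 := (h3 (j + 1)).trans (anti j.le_succ)
    exact ⟨c, fun z hz => h7 (Ideal.Quotient.eq_zero_iff_mem.1
        ((LinearMap.congr_fun h6 z).trans (t1 hz))),
      fun i => h7 (Ideal.Quotient.eq.1 ((LinearMap.congr_fun h6 _).trans (congrFun t2 i))),
      fun i => h7 (Ideal.Quotient.eq.1 ((LinearMap.congr_fun h6 _).trans (congrFun t3 i)))⟩
  obtain ⟨jj, -, h4, h5⟩ := diag key
  obtain ⟨c, hc⟩ := h4.choice
  have h7 : ∀ (w : Fr (ℕ → J)) (d : Lam), (∀ᶠ k in UU, lc (c k) (pj k w) - d ∈ P ⊔ aa (jj k) (jj k)) →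
      lc (fun s : ℕ → J => ul fun k => c k (s k)) w - d ∈ P := fun w d hg => closedI P fun j => by
    obtain ⟨k, k1, k2, k3⟩ := (hg.and ((h5 j).and (pae_lc c j w))).exists
    have k4 := sub_mem (anti k2 k1) (mem_sup_right k3)
    rwa [sub_sub_sub_cancel_left] at k4
  refine ⟨lc fun s : ℕ → J => ul fun k => c k (s k), U_asc P c fun j => ?_,
    fun i => h7 _ _ (hc.mono fun k k1 => k1.2.1 i), fun i => h7 _ _ (hc.mono fun k k1 => k1.2.2 i)⟩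
  filter_upwards [hc, h5 j] with k k1 k2 z hz using anti k2 (k1.1 z hz)

theorem W_coS (hlv : ∀ k, k < lv k) (h : ∀ k, CoT (lv k) a (R k) (pj k ∘ p) (pj k ∘ s))
    {P : Ideal Lam} (hb : a ∉ P) : CoS P (PRel R) p s := by
  refine ⟨a, hb, fun x y hxy => ?_⟩
  obtain ⟨T, h1, h2, h3⟩ := pw_co hlv h ⊥ id (fun _ => Or.inl rfl) (fun _ => bot_le)
    (fun _ => le_sup_right) (mem_sup_left hxy)
  exact ⟨T, h1, funext fun i => sub_eq_zero.1 (h2 i), funext fun i => sub_eq_zero.1 (h3 i)⟩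

theorem W_coR (hlv : ∀ k, k < lv k) (h : ∀ k, CoT (lv k) a (R k) (pj k ∘ p) (pj k ∘ s))
    (hb : a ∉ Ideal.span {(X : Lam)}) : CoR (Ideal.span {X}) (PRel R) p s := by
  refine ⟨a, hb, fun x y hxy => ?_⟩
  obtain ⟨T, h1, h2, h3⟩ := pw_co hlv h (Ideal.span {X}) (fun _ => 1) (fun _ => Or.inr rfl)
    (fun _ => Ideal.span_mono (by simp)) (fun j => Ideal.span_le.2 (Set.pair_subset
      (mem_sup_right (Ideal.subset_span (Set.mem_insert _ _)))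
      (mem_sup_left (Ideal.subset_span (pow_one _))))) hxy
  exact ⟨(Ideal.span {(X : Lam)}).mkQ ∘ₗ T, fun z hz => Ideal.Quotient.eq_zero_iff_mem.2 (h1 z hz),
    fun i => Ideal.Quotient.eq.2 (h2 i), fun i => Ideal.Quotient.eq.2 (h3 i)⟩

end Pool.Agent.B6.PA
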