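import Pool.Agent.Lib.MP_696deb_nt.B6.PA1
import Pool.Agent.Lib.MP_696deb_nt.B6.PAv
import Pool.Agent.Lib.MP_696deb_nt.B2.PAt

/-! The relations that hold in the limit. -/

set_option autoImplicit false

open scoped Classical
open Finset Matrix PowerSeries Filter Submodule LinearMap

namespace Pool.Agent.B6.PA

open Pool.Agent.Lib.MP_696deb_nt
open Pool.Agent.Lib.MP_696deb_nt.B2 hiding Lev Lag IsoW CoW PAStmt
open Pool.Agent.Lib.MP_696deb_nt.B2.PA hiding Sys Eqv L_one L_add L_conj L_sah0 L_sah perp_lag isoT_of coT_of NN mem_NN RFi hi kapi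
  rel_lag kapi_evi kapi_rel rel_add rel_conj rel_gen

section

variable {G : Type} {k : ℕ} {S : Submodule Lam (G → Fin 2 → Ak k)}

theorem perp_lag [Finite S] (φ s : G) :
    perp (S ⊓ Lag k φ s) = perp S ⊔ span Lam {sg (φ, 1), sg (s, 0)} := by
  rw [← Matrix.range_cons_cons_empty _ _ ![]]
  refine perp_ker _ fun c => ?_
  simp only [Fin.forall_fin_two, Matrix.cons_val_zero, Matrix.cons_val_one, lc_sg]
  rfl

theorem isoT_of [Finite S] {a : Lam} {φ s : G} (h : IsoW a S φ s) :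
    IsoT k a (perp S) (fun i => sg (φ, i)) (rot fun i => sg (s, i)) := by
  intro I hI t t' ht ht'
  rw [comp_rot, comp_rot, bb_rot, rot_bb]
  exact h I hI (fun g i => t (sg (g, i))) ((mem_Wk hI).2 ((PAc_lc t).symm ▸ ht))
    (fun g i => t' (sg (g, i))) ((mem_Wk hI).2 ((PAc_lc t').symm ▸ ht'))

theorem coT_of [Finite S] {a : Lam} {φ s : G} (h : CoW a S φ s) :
    CoT k a (perp S) (fun i => sg (φ, i)) (rot fun i => sg (s, i)) := by
  intro j i h1 h2 h3 x y hxy
  obtain ⟨y, rfl⟩ : ∃ y', y = rot y' := ⟨![y 1, -y 0], funext fun i => by fin_cases i <;> simp⟩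
  have hI : aa k k ≤ aa j i := aa_anti h2 (by omega)
  have he : ∀ (c : G → Fin 2 → Lam ⧸ aa j i) (g : G),
      (lc (Function.uncurry c) ∘ fun i => sg (g, i)) = c g := fun c g => funext fun i => lc_sg _ _
  obtain ⟨c, hc, h4, h5⟩ := h j i h1 h2 h3 x y fun c hc => by
    have h4 := hxy _ ((mem_Wk hI).1 hc)
    rwa [comp_rot, he, he, bb_rot, rot_bb] at h4
  refine ⟨lc (Function.uncurry c), (mem_Wk hI).1 hc, (he c φ).trans h4, ?_⟩
  rw [comp_rot, he, h5]
  funext l
  fin_cases l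
  · exact (smul_neg a (y 1)).symm
  · rfl

end

section

variable {G : Type} [Group G] {θ : G →* G} {e k : ℕ} (T : Lev G θ e k) {n : T.St}
  {c : G → Fin 2 → Ak k}

theorem L_one (hc : c ∈ T.S n) : c 1 = 0 := by
  have := T.coc n c hc 1 1
  rw [mul_one, map_one, one_mulVec] at this
  exact left_eq_add.1 this

theorem L_add (hc : c ∈ T.S n) {σ : G} (hσ : σ ∈ T.N) (g : G) : c (σ * g) = c σ + c g := by
  rw [T.coc n c hc, T.actN σ hσ, one_mulVec]

theorem L_conj (hc : c ∈ T.S n) {σ : G} (hσ : σ ∈ T.N) (g : G) :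
    c (g * σ * g⁻¹) = T.act g *ᵥ c σ := by
  have h1 := T.coc n c hc g g⁻¹
  rw [mul_inv_cancel, L_one T hc] at h1
  rw [mul_assoc, T.coc n c hc, L_add T hc hσ, mulVec_add, add_left_comm, ← h1, add_zero]

theorem L_sah0 (hc : c ∈ T.S n) {z : G} {d : Ak k} (hz : T.act z = d • 1)
    (hN : ∀ g, z * g * z⁻¹ * g⁻¹ ∈ T.N) (g : G) :
    (d - 1) • c g = c (z * g * z⁻¹ * g⁻¹) + (T.act g - 1) *ᵥ c z := by
  have h1 := T.coc n c hc z g
  have h2 := L_add T hc (hN g) (g * z)
  rw [show z * g * z⁻¹ * g⁻¹ * (g * z) = z * g by group, h1, T.coc n c hc g, hz,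
    smul_mulVec, one_mulVec] at h2
  rw [sub_smul, one_smul, sub_mulVec, one_mulVec]
  linear_combination (exp := 1) h2

theorem L_sah (hc : c ∈ T.S n) {z : G} {d : Ak k} (hz : T.act z = d • 1)
    (hN : ∀ g, z * g * z⁻¹ * g⁻¹ ∈ T.N) (g : G) :
    ((T.act T.fl - 1).det * (d - 1)) • c g =
      (T.act T.fl - 1).det • c (z * g * z⁻¹ * g⁻¹) -
        ((T.act g - 1) * (T.act T.fl - 1).adjugate) *ᵥ c (z * T.fl * z⁻¹ * T.fl⁻¹) := by
  have h1 := L_sah0 T hc hz hN T.fl
  rw [T.van n c hc, smul_zero] at h1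
  have h2 : c (z * T.fl * z⁻¹ * T.fl⁻¹) = -((T.act T.fl - 1) *ᵥ c z) :=
    eq_neg_of_add_eq_zero_left h1.symm
  rw [mul_smul, L_sah0 T hc hz hN g, h2, mulVec_neg, mulVec_mulVec, Matrix.mul_assoc, adjugate_mul,
    Matrix.mul_smul, mul_one, smul_mulVec, smul_add, sub_neg_eq_add]

end

variable {G : Type} [Group G] {θ : G →* G} {e : ℕ} {lv : ℕ → ℕ} (hlv : ∀ k, k < lv k)
  (T : ∀ k, Lev G θ e (lv k))

theorem lim_err {a : ∀ k, Ak (lv k)} (h : ∀ k, Err e (a k)) {P : Ideal Lam} [hP : P.IsPrime]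
    {y : Lam} (hy : YY y) (h2 : y ∉ P) : lim hlv a ∉ P := fun hm => by
  choose t ht using fun k => h k y hy
  have h3 := congrArg (lim hlv) (funext ht :
    (fun k => Ideal.Quotient.mk (aa (lv k) (lv k)) (y ^ e)) = a * t)
  rw [map_mul, lim_mk hlv fun _ => y ^ e, ul_const] at h3
  exact h2 (hP.mem_of_pow_mem e (h3 ▸ P.mul_mem_right _ hm))

theorem limM_sw : limM hlv (fun _ => sw _) = sw Lam := by
  ext1 i j
  change lim hlv (fun k => sw _ i j) = _
  fin_cases i <;> fin_cases j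
  exacts [map_zero (lim hlv), map_one (lim hlv), map_one (lim hlv), map_zero (lim hlv)]

/-- The product of the normal subgroups. -/
def NN : Subgroup (ℕ → G) := Subgroup.pi Set.univ fun k => (T k).N

theorem mem_NN {σ : ℕ → G} : σ ∈ NN T ↔ ∀ k, σ k ∈ (T k).N := by simp [NN, Subgroup.mem_pi]

/-- The limit of the main modules. -/
noncomputable def RFi : Submodule Lam (Fr (ℕ → G × Fin 2)) := PRel fun k => perp (T k).SF

/-- The limit of the local coordinates. -/
noncomputable def hi : Lam := ul fun k => (T k).h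

/-- The limit of the classes. -/
noncomputable def kapi (n : ∀ k, (T k).St) : Fr (ℕ → G × Fin 2) →ₗ[Lam] Lam :=
  lc fun s : ℕ → G × Fin 2 => ul fun k => lf (Function.uncurry ((T k).kap (n k)) (s k))

omit [Group G] in
theorem rel_lag {S : ∀ k, Submodule Lam (G → Fin 2 → Ak (lv k))} (h : ∀ k, Finite (S k))
    (φ s : ℕ → G) : (PRel fun k => perp (S k ⊓ Lag (lv k) (φ k) (s k))) =
      (PRel fun k => perp (S k)) ⊔ span Lam {evi φ 1, evi s 0} := by
  simp only [perp_lag, ← Matrix.range_cons_cons_empty _ _ ![]]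
  refine U_sup _ (fun k => ![sg (φ k, 1), sg (s k, 0)]) fun i => ?_
  fin_cases i
  exacts [near_evi φ 1, near_evi s 0]

omit [Group G] in
theorem pj_evi (k : ℕ) (g : ℕ → G) : pj k ∘ evi g = fun i => sg (g k, i) :=
  funext fun _ => pj_sg _ _

omit [Group G] in
theorem pj_rot (k : ℕ) (g : ℕ → G) : pj k ∘ rot (evi g) = rot fun i => sg (g k, i) := by
  rw [comp_rot, pj_evi]

variable (n : ∀ k, (T k).St)

theorem kapi_evi (g : ℕ → G) (i : Fin 2) :
    kapi T n (evi g i) = lim hlv fun k => (T k).kap (n k) (g k) i := lc_sg _ _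

include hlv in
theorem kapi_rel : (PRel fun k => perp ((T k).S (n k))) ≤ LinearMap.ker (kapi T n) := by
  intro x hx
  have h := U_asc (R := fun k => perp ((T k).S (n k))) ⊥
    (fun k z => lf (Function.uncurry ((T k).kap (n k)) z)) (fun j => ?_) x hx
  · exact Ideal.mem_bot.1 h
  filter_upwards [ev_lv hlv j] with k hk y hy
  refine mem_sup_right (hk (Ideal.Quotient.eq_zero_iff_mem.1 ?_))
  rw [mk_lc]
  exact mem_perp.1 hy _ ((T k).kap_mem (n k))

theorem rel_add {σ : ℕ → G} (hσ : σ ∈ NN T) (g : ℕ → G) (i : Fin 2) :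
    evi (σ * g) i - (evi σ i + evi g i) ∈ PRel fun k => perp ((T k).S (n k)) :=
  rel_of ((near_evi _ i).sub ((near_evi σ i).add (near_evi g i))) fun k c hc => by
    simp only [map_sub, map_add, lc_sg, Function.uncurry_apply_pair, Pi.mul_apply]
    rw [L_add (T k) hc ((mem_NN T).1 hσ k), Pi.add_apply, sub_self]

theorem rel_conj {σ : ℕ → G} (hσ : σ ∈ NN T) (g : ℕ → G) (i : Fin 2) :
    evi (g * σ * g⁻¹) i - ∑ j, limM hlv (fun k => (T k).act (g k)) i j • evi σ j ∈
      PRel fun k => perp ((T k).S (n k)) :=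
  rel_of ((near_evi _ i).sub (near_mat hlv _ σ i)) fun k c hc => by
    rw [map_sub, lc_mat, lc_sg, Function.uncurry_apply_pair, Pi.mul_apply, Pi.mul_apply,
      Pi.inv_apply, L_conj (T k) hc ((mem_NN T).1 hσ k), sub_self]

theorem rel_gen {z : ℕ → G} {d : ∀ k, Ak (lv k)} (hz : ∀ k, (T k).act (z k) = d k • 1)
    (hN : ∀ k g, z k * g * (z k)⁻¹ * g⁻¹ ∈ (T k).N) (x : Fr (ℕ → G × Fin 2)) :
    lim hlv (fun k => ((T k).act (T k).fl - 1).det * (d k - 1)) • x ∈
      (PRel fun k => perp ((T k).S (n k))) ⊔ span Lam {y | ∃ σ ∈ NN T, ∃ i, y = evi σ i} := by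
  induction x using Finsupp.induction_linear with
  | zero => simp
  | add x y hx hy => rw [smul_add]; exact add_mem hx hy
  | single s a =>
    rw [← Finsupp.smul_single_one, smul_comm]
    refine smul_mem _ a ?_
    obtain ⟨i, hi⟩ := ev_const fun k => (s k).2
    set g : ℕ → G := fun k => (s k).1 with hg
    have h1 : sg s - evi g i ∈ PRel fun k => perp ((T k).S (n k)) :=
      ((near_sg s).sub (near_evi g i)).mem (hi.mono fun k hk => by
        rw [← hk, sub_self]
        exact zero_mem _)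
    have h2 := rel_of (S := fun k => (T k).S (n k))
      (((near_evi g i).smul fun k => lf (((T k).act (T k).fl - 1).det * (d k - 1))).sub
        (((near_evi (fun k => z k * g k * (z k)⁻¹ * (g k)⁻¹) i).smul
          fun k => lf ((T k).act (T k).fl - 1).det).sub
          (near_mat hlv (fun k => ((T k).act (g k) - 1) * ((T k).act (T k).fl - 1).adjugate)
            (fun k => z k * (T k).fl * (z k)⁻¹ * (T k).fl⁻¹) i))) fun k c hc => by
      rw [map_sub, map_sub, lc_mat, map_smul, map_smul, lc_sg, lc_sg, lf_smul, lf_smul, sub_eq_zero]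
      exact congrFun (L_sah (T k) hc (hz k) (hN k) (g k)) i
    have h3 : ∀ g : ℕ → G, ∀ j, evi (fun k => z k * g k * (z k)⁻¹ * (g k)⁻¹) j ∈
        span Lam {y | ∃ σ ∈ NN T, ∃ i, y = evi σ i} := fun g j =>
      subset_span ⟨_, (mem_NN T).2 fun k => hN k (g k), j, rfl⟩
    have h4 := add_mem (mem_sup_left (T := span Lam {y | ∃ σ ∈ NN T, ∃ i, y = evi σ i})
      (add_mem (smul_mem _ (lim hlv fun k => ((T k).act (T k).fl - 1).det * (d k - 1)) h1) h2))
      (mem_sup_right (sub_mem (smul_mem _ (ul fun k => lf ((T k).act (T k).fl - 1).det) (h3 g i))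
        (sum_mem (t := univ) fun j _ => smul_mem _ (limM hlv (fun k => ((T k).act (g k) - 1) *
          ((T k).act (T k).fl - 1).adjugate) i j) (h3 (fun k => (T k).fl) j))))
    convert h4 using 1
    rw [smul_sub, lim_apply]
    abel

end Pool.Agent.B6.PA
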