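import Pool.Agent.Lib.MP_696deb_nt.B6.PAt
import Pool.Agent.Lib.MP_696deb_nt.B2.PAu

/-! The limit system. -/

set_option autoImplicit false

open scoped Classical
open Finset Matrix PowerSeries Filter Submodule LinearMap

namespace Pool.Agent.B6.PA

open Pool.Agent.Lib.MP_696deb_nt
open Pool.Agent.Lib.MP_696deb_nt.B2 hiding Lev Lag IsoW CoW PAStmt
open Pool.Agent.Lib.MP_696deb_nt.B2.PA hiding Sys Eqv L_one L_add L_conj L_sah0 L_sah perp_lag
  isoT_of coT_of NN mem_NN RFi hi kapi rel_lag kapi_evi kapi_rel rel_add rel_conj rel_gen 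
  Ro Ro_van sys_step tame_S0 k0i sys_of

variable {G : Type} [Group G] {θ : G →* G} {e : ℕ} {lv : ℕ → ℕ} (hlv : ∀ k, k < lv k)
  (T : ∀ k, Lev G θ e (lv k))

/-- The limit of a sequence of modules. -/
noncomputable def Ro (S : ∀ k, Submodule Lam (G → Fin 2 → Ak (lv k))) :
    Submodule Lam (Fr (ℕ → G × Fin 2)) := PRel fun k => perp (S k)

omit [Group G] in
theorem Ro_van {S S' : ∀ k, Submodule Lam (G → Fin 2 → Ak (lv k))}
    (hS : Tame S) {g : ℕ → G} (h : ∀ k, S' k = S k ⊓ Van (lv k) (g k)) :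
    Ro S' = Ro S ⊔ span Lam (Set.range (evi g)) := by
  rw [Ro, Ro, ← rel_van hS.1]
  simp only [h]

include hlv in
theorem sys_step {P : Ideal Lam} [hP : P.IsPrime] {y : Lam} (hy : YY y) (h2 : y ∉ P)
    {par : Prop} (hpar : par → P = Ideal.span {X})
    (n : ∀ k, (T k).St) (hn : Tame fun k => (T k).S (n k)) {σ : ℕ → G} (hσ : σ ∈ NN T) :
    ∃ (n' : ∀ k, (T k).St) (_ : Tame fun k => (T k).S (n' k))
      (Rq : Submodule Lam (Fr (ℕ → G × Fin 2))) (φ s : ℕ → G) (u0 u1 u2 : Lam), s ∈ NN T ∧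
      Ro (fun k => (T k).S (n k)) = Rq ⊔ span Lam (Set.range (evi s)) ∧
      Ro (fun k => (T k).S (n' k)) = Rq ⊔ span Lam (Set.range (evi φ)) ∧
      u0 ∉ P ∧ u1 ∉ P ∧ u2 ∉ P ∧
      (∀ i, evi φ i - u0 • (evi σ i + evi (fun k => θ (σ k)) i) ∈ Ro fun k => (T k).S (n k)) ∧
      (∀ i, evi (fun k => θ (s k)) i + evi s i ∈ Ro fun k => (T k).S (n' k)) ∧
      u1 • (kapi T n' ∘ evi s) = u2 • (sw Lam *ᵥ (kapi T n ∘ evi φ)) ∧
      IsoS P Rq (evi φ) (rot (evi s)) ∧ CoS P Rq (evi φ) (rot (evi s)) ∧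
      IsoR P Rq (evi φ) (rot (evi s)) ∧ (par → CoR P Rq (evi φ) (rot (evi s))) := by
  choose n' Sq φ s u0 u1 u2 hs h1 h1' d0 d1 d2 hφ hθ hκ hI using
    fun k => (T k).step (n k) (σ k) ((mem_NN T).1 hσ k)
  have hq : Tame Sq := Tame.of_van s (by simpa only [h1] using hn)
  obtain ⟨hf, r, hr⟩ := id hq
  have hiso : ∀ k, IsoT (lv k) (y ^ e) (perp (Sq k)) (pj k ∘ evi φ) (pj k ∘ rot (evi s)) :=
    fun k => by rw [pj_evi, pj_rot]; exact isoT_of (hI k y hy).1
  have hco : ∀ k, CoT (lv k) (y ^ e) (perp (Sq k)) (pj k ∘ evi φ) (pj k ∘ rot (evi s)) :=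
    fun k => by rw [pj_evi, pj_rot]; exact coT_of (hI k y hy).2
  have h2e : y ^ e ∉ P := fun h => h2 (hP.mem_of_pow_mem e h)
  refine ⟨n', hq.le fun k => (h1' k).trans_le inf_le_left, Ro Sq, φ, s, lim hlv u0, lim hlv u1,
    lim hlv u2, (mem_NN T).2 hs, Ro_van hq h1, Ro_van hq h1', lim_err hlv d0 hy h2,
    lim_err hlv d1 hy h2, lim_err hlv d2 hy h2, fun i => ?_, fun i => ?_,
    ?_, W_isoS hlv hr hiso h2e, W_coS hlv hco h2e, W_isoR hlv hr hiso h2e, fun hp => ?_⟩
  · refine rel_of ((near_evi φ i).sub (((near_evi σ i).add (near_evi _ i)).smul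
      fun k => lf (u0 k))) fun k c hc => ?_
    simp only [map_sub, map_smul, map_add, lc_sg, Function.uncurry_apply_pair, lf_smul]
    rw [hφ k c hc]
    exact sub_self _
  · refine rel_of ((near_evi _ i).add (near_evi s i)) fun k c hc => ?_
    simp only [map_add, lc_sg, Function.uncurry_apply_pair]
    rw [hθ k c hc]
    exact neg_add_cancel _
  · funext i
    have h3 : ∀ k, u1 k * (T k).kap (n' k) (s k) i = u2 k * (sw _ *ᵥ (T k).kap (n k) (φ k)) i :=
      fun k => congrFun (hκ k) i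
    have h4 := congrArg (lim hlv) (funext h3 :
      (u1 * fun k => (T k).kap (n' k) (s k) i) = u2 * fun k => (sw _ *ᵥ (T k).kap (n k) (φ k)) i)
    rw [map_mul, map_mul] at h4
    simp only [Pi.smul_apply, Function.comp_apply, smul_eq_mul, kapi_evi hlv]
    rw [h4]
    congr 1
    rw [sw_vec]
    simp only [sw_vec]
    fin_cases i
    · exact (kapi_evi hlv T n φ 1).symm
    · exact (kapi_evi hlv T n φ 0).symm
  · obtain rfl := hpar hp
    exact W_coR hlv hco h2e

theorem tame_S0 {r0 : ℕ} (hG : ∀ k, PGen r0 (perp (T k).SF)) : Tame fun k => (T k).S0 := by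
  refine ⟨fun k => (T k).fin0, r0 + 2, fun k => ?_⟩
  have := (T k).fin0
  have h := hG k
  rw [Lev.SF, perp_lag] at h
  refine PGen.of_sup ![((T k).φ0, 1), ((T k).s0, 0)] (span_le.2 ?_) h
  rintro _ (rfl | rfl)
  exacts [subset_span ⟨0, rfl⟩, subset_span ⟨1, rfl⟩]

/-- The values of the class at the initial state. -/
noncomputable def k0i (g : ℕ → G) (i : Fin 2) : Lam := kapi T (fun k => (T k).n0) (evi g i)

include hlv in
theorem sys_of {r0 : ℕ} (hG : ∀ k, PGen r0 (perp (T k).SF)) {r : ℕ}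
    (M : Matrix (Fin r) (Fin r) Lam) (E : (Fr (ℕ → G × Fin 2) ⧸ RFi T) ≃ₗ[Lam] Cok M)
    {P : Ideal Lam} [hP : P.IsPrime] {y : Lam} (hy : YY y) (h2 : y ∉ P) {par : Prop}
    (hpar : par → P = Ideal.span {X} ∧ ∃ C, ∀ k j, j ≤ lv k →
      Nat.card (Wk ((T k).S (T k).n0) (aa j 1)) ≤ C * 4 ^ j) :
    ∃ S : Sys Lam P (ℕ → G) (NN T) (Fr (ℕ → G × Fin 2)) par M.det (hi T) (k0i T),
      S.R S.n0 = Ro fun k => (T k).S (T k).n0 := by
  have hX : (2 : Lam) ∈ P → X ∉ P := fun h h' => h2 (by rcases hy with rfl | rfl; exacts [h, h'])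
  have h0 := tame_S0 T hG
  have hn0 : Tame fun k => (T k).S (T k).n0 := h0.le fun k => (T k).S_n0.trans_le inf_le_left
  have hu : ∀ v, 1 + limM hlv (fun k => (T k).act ((T k).un v) - 1) =
      limM hlv fun k => (T k).act ((T k).un v) := fun v => by
    rw [← map_one (limM hlv), ← map_add]
    exact congrArg _ (funext fun k => add_sub_cancel _ _)
  refine ⟨{ θ := MonoidHom.pi fun k => θ.comp (Pi.evalMonoidHom (fun _ => G) k)
            normal := ⟨fun σ hσ g => (mem_NN T).2 fun k =>
              (T k).normal.conj_mem _ ((mem_NN T).1 hσ k) (g k)⟩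
            θN := fun σ hσ => (mem_NN T).2 fun k => (T k).θN _ ((mem_NN T).1 hσ k)
            ev := evi
            z := fun k => (T k).z1
            u := 1 + X
            hu := one_add_X_sq
            two := ?_
            un := fun v k => (T k).un v
            nm := fun v => limM hlv fun k => (T k).act ((T k).un v) - 1
            nm_sq := fun v => ?_
            nm_tr := ?_
            St := {n : ∀ k, (T k).St // Tame fun k => (T k).S (n k)}
            R := fun n => Ro fun k => (T k).S (n.1 k)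
            kap := fun n => kapi T n.1
            kap_R := fun n => kapi_rel hlv T n.1
            fg := fun n => ?_
            gen := fun n x => ?_
            add := fun n σ hσ σ' _ i => rel_add T n.1 hσ σ' i
            eq_un := fun n v σ hσ i => ?_
            eq_unθ := fun n v σ hσ i => ?_
            eq_z := fun n σ hσ i => ?_
            eq_zθ := fun n σ hσ i => ?_
            step := fun n σ hσ => ?_
            n0 := ⟨fun k => (T k).n0, hn0⟩
            R0 := Ro fun k => (T k).S0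
            φ0 := fun k => (T k).φ0
            s0 := fun k => (T k).s0
            R_n0 := Ro_van h0 fun k => (T k).S_n0
            iso0 := ?_
            kap_h := ?_
            kap_k0 := fun _ _ => rfl
            r := r
            M := M
            det := rfl
            pres := ⟨E.toLinearMap ∘ₗ (RFi T).mkQ, E.surjective.comp (mkQ_surjective _), ?_⟩
            dim := fun hp => ?_ }, rfl⟩
  · refine or_iff_not_imp_left.2 fun h3 h4 => ?_
    have h5 := not_not.1 h3
    rw [show (1 + X : Lam) * (1 + X) - 1 = X * X + X * 2 by ring] at h4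
    exact (hP.mem_or_mem ((P.add_mem_iff_left (P.mul_mem_left _ h5)).1 h4)).elim (hX h5) (hX h5)
  · rw [← map_mul, ← map_zero (limM hlv)]
    exact congrArg _ (funext fun k => (T k).un_sq v)
  · rw [← map_mul, limM_trace]
    exact lim_err hlv (fun k => (T k).un_tr) hy h2
  · obtain ⟨_, r, hr⟩ := n.2
    exact U_fg hr
  · have hd := lim_err hlv (fun k => (T k).fl_det) hy h2
    have key : ∀ d : ∀ k, Ak (lv k), lim hlv (fun k => d k - 1) ∉ P →
        lim hlv (fun k => ((T k).act (T k).fl - 1).det * (d k - 1)) ∉ P := fun d h3 h4 =>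
      (hP.mem_or_mem (by rw [← map_mul]; exact h4)).elim hd h3
    by_cases h3 : (2 : Lam) ∈ P
    · refine ⟨_, key _ ?_, rel_gen hlv T n.1 (d := fun k => Ideal.Quotient.mk _ (1 + X))
        (fun k => (T k).act_z1) (fun k => (T k).z1_comm) x⟩
      simp only [map_add, map_one, add_sub_cancel_left]
      rw [lim_mk hlv fun _ => X, ul_const]
      exact hX h3
    · exact ⟨_, key _ (lim_notMem hlv (fun k => (T k).d_dvd) h3),
        rel_gen hlv T n.1 (fun k => (T k).act_z2) (fun k => (T k).z2_comm) x⟩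
  · rw [hu]
    exact rel_conj hlv T n.1 hσ _ i
  · have h := rel_conj hlv T n.1 hσ (fun k => θ ((T k).un v)) i
    have h' : limM hlv (fun k => (T k).act (θ ((T k).un v))) =
        sw Lam * limM hlv (fun k => (T k).act ((T k).un v)) * sw Lam := by
      rw [← limM_sw hlv, ← map_mul, ← map_mul]
      exact congrArg _ (funext fun k => (T k).un_θ v)
    rw [hu, ← h']
    exact h
  · have h := rel_conj hlv T n.1 hσ (fun k => (T k).z1) i
    have h' : limM hlv (fun k => (T k).act (T k).z1) = (1 + X : Lam) • 1 := by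
      rw [← map_one (limM hlv), ← limM_smul]
      exact congrArg _ (funext fun k => (T k).act_z1)
    rw [h'] at h
    simpa [Matrix.one_apply, Ro] using h
  · have h := smul_mem _ (1 + X : Lam) (rel_conj hlv T n.1 hσ (fun k => θ (T k).z1) i)
    have h' : (1 + X : Lam) • limM hlv (fun k => (T k).act (θ (T k).z1)) = 1 := by
      rw [← map_one (limM hlv), ← limM_smul]
      exact congrArg _ (funext fun k => (T k).act_θz1)
    have h'' : (1 + X : Lam) • ∑ j, limM hlv (fun k => (T k).act (θ (T k).z1)) i j • evi σ j =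
        evi σ i := by
      have h3 : ∀ j, (1 + X : Lam) * limM hlv (fun k => (T k).act (θ (T k).z1)) i j =
          (1 : Matrix (Fin 2) (Fin 2) Lam) i j := fun j => congrFun (congrFun h' i) j
      rw [Finset.smul_sum]
      simp only [smul_smul, h3]
      simp [Matrix.one_apply]
    rw [smul_sub, h''] at h
    exact h
  · obtain ⟨n', hn', h⟩ := sys_step hlv T hy h2 (fun hp => (hpar hp).1) n.1 n.2 hσ
    exact ⟨⟨n', hn'⟩, h⟩
  · obtain ⟨hf, r, hr⟩ := h0
    refine W_isoS hlv hr (fun k => ?_) fun h => h2 (hP.mem_of_pow_mem e h)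
    rw [pj_evi, pj_rot]
    exact isoT_of ((T k).iso0 y hy)
  · choose u hu1 hu2 using fun k => (T k).kap_h
    refine ⟨lim hlv u, lim_err hlv hu1 hy h2, ?_⟩
    rw [kapi_evi hlv, hi, ← lim_mk hlv, ← map_mul]
    exact congrArg _ (funext hu2)
  · rw [Ro, ← rel_lag h0.1]
    intro x hx
    rw [LinearMap.mem_ker, LinearMap.comp_apply, mkQ_apply,
      (Submodule.Quotient.mk_eq_zero (RFi T)).2 hx, map_zero]
  · obtain ⟨rfl, C, hC⟩ := hpar hp
    obtain ⟨r, hr⟩ := hn0.2
    have := U_fg hr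
    have h := dim2_of (PRel fun k => perp ((T k).S (T k).n0)) (C := C) fun j => by
      obtain ⟨k, h1, -, h3⟩ := (cnt_lim hlv hn0 j 1).exists
      rw [h3]
      exact hC k j h1
    exact h

end Pool.Agent.B6.PA
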