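import Pool.Agent.Lib.MP_696deb_nt.B2.Base

/-! Cocycles with values in the irreducible plane over the field with two elements, and their
governing cochains. -/

set_option autoImplicit false

open scoped NNReal
open Finset Matrix

namespace Pool.Agent.Lib.MP_696deb_nt.B6

open Pool.Agent.Lib.MP_696deb_nt.B2

abbrev V2 : Type := Fin 2 → ZMod 2

abbrev M2 : Type := Matrix (Fin 2) (Fin 2) (ZMod 2)

/-- The alternating form. -/
def dt (x y : V2) : ZMod 2 := x 0 * y 1 - x 1 * y 0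

/-- Matrices of order three. -/
def Ord3 (A : M2) : Prop := A * A + A + 1 = 0

instance (A : M2) : Decidable (Ord3 A) := inferInstanceAs (Decidable (A * A + A + 1 = 0))

theorem dt_add_left : ∀ x y z : V2, dt (x + y) z = dt x z + dt y z := by decide +kernel

theorem dt_add_right : ∀ x y z : V2, dt x (y + z) = dt x y + dt x z := by decide +kernel

theorem dt_sub_right : ∀ x y z : V2, dt x (y - z) = dt x y + dt x z := by decide +kernel

theorem dt_smul_left : ∀ (t : ZMod 2) (x y : V2), dt (t • x) y = t * dt x y := by decide +kernel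

theorem dt_zero_left : ∀ x : V2, dt 0 x = 0 := by decide +kernel

theorem dt_zero_right : ∀ x : V2, dt x 0 = 0 := by decide +kernel

theorem dt_mul : ∀ A A' : M2, A * A' = 1 → ∀ x y : V2, dt (A *ᵥ x) (A *ᵥ y) = dt x y := by
  decide +kernel

theorem Ord3.fix : ∀ {A : M2}, Ord3 A → ∀ {x : V2}, A *ᵥ x = x → x = 0 := by decide +kernel

theorem Ord3.cob : ∀ {A : M2}, Ord3 A → ∀ x : V2, ∃ y, x = A *ᵥ y - y := by decide +kernel

theorem Ord3.eq : ∀ {A : M2}, Ord3 A → ∀ {B : M2}, Ord3 B → B = A ∨ B = A * A := by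
  decide +kernel

theorem Ord3.conj : ∀ {A : M2}, Ord3 A → ∀ {B B' : M2}, B * B' = 1 → Ord3 (B * A * B') := by
  decide +kernel

theorem Ord3.cube : ∀ {A : M2}, Ord3 A → A * A * A = 1 := by decide +kernel

theorem Ord3.sq : ∀ {A : M2}, Ord3 A → Ord3 (A * A) := by decide +kernel

theorem Ord3.sum : ∀ {A : M2}, Ord3 A → ∀ x : V2, x + A *ᵥ x + (A * A) *ᵥ x = 0 := by
  decide +kernel

theorem Ord3.span : ∀ {A : M2}, Ord3 A → ∀ {u : V2}, u ≠ 0 → ∀ v : V2,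
    v = 0 ∨ v = u ∨ v = A *ᵥ u ∨ v = A *ᵥ A *ᵥ u := by decide +kernel

theorem Ord3.perp : ∀ {A : M2}, Ord3 A → ∀ {u : V2}, u ≠ 0 → ∀ {v : V2}, dt u v = 0 →
    dt u (A *ᵥ v) = 0 → v = 0 := by decide +kernel

/-- The vectors `u` and `v` are moved in the same way. -/
def Same (A T : M2) (u v : V2) : Prop := (T *ᵥ u = u → T *ᵥ v = v) ∧
  (T *ᵥ u = A *ᵥ u → T *ᵥ v = A *ᵥ v) ∧ (T *ᵥ u = A *ᵥ A *ᵥ u → T *ᵥ v = A *ᵥ A *ᵥ v)

instance (A T : M2) (u v : V2) : Decidable (Same A T u v) := inferInstanceAs (Decidable (_ ∧ _ ∧ _))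

theorem Ord3.endo : ∀ {A : M2}, Ord3 A → ∀ {T : M2}, T * T = 1 → T ≠ 1 → ∀ {u : V2}, u ≠ 0 →
    ∀ {v : V2}, Same A T u v → v = 0 ∨ v = u := by decide +kernel

theorem inv_cob : ∀ {T : M2}, T * T = 1 → T ≠ 1 → ∀ {x : V2}, x + T *ᵥ x = 0 →
    ∃ y, x = T *ᵥ y - y := by decide +kernel

theorem v2_self : ∀ x : V2, x + x = 0 := by decide +kernel

theorem z2_self : ∀ x : ZMod 2, x + x = 0 := by decide

theorem Ord3.pow {A : M2} (h : Ord3 A) {k : ℕ} (hk : ¬ 3 ∣ k) : Ord3 (A ^ k) := by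
  have h3 : A ^ 3 = 1 := by rw [pow_succ, _root_.sq, h.cube]
  rw [← Nat.div_add_mod k 3, pow_add, pow_mul, h3, one_pow, one_mul]
  obtain e | e : k % 3 = 1 ∨ k % 3 = 2 := by omega
  · rwa [e, pow_one]
  · rw [e, _root_.sq]
    exact h.sq

open scoped Classical

variable {r : Gam →* M2} {P : Finset ℕ} {a b c : Gam → V2} {φ ψ : Gam → ZMod 2}
  {D : Subgroup Gam} {g h σ : Gam} {w : Plc}

theorem r_inv (r : Gam →* M2) (g : Gam) : r g * r g⁻¹ = 1 := by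
  rw [← map_mul, mul_inv_cancel, map_one]

theorem dt_r (r : Gam →* M2) (g : Gam) (x y : V2) : dt (r g *ᵥ x) (r g *ᵥ y) = dt x y :=
  dt_mul _ _ (r_inv r g) x y

/-- A residual representation that is unramified outside of `P` and odd. -/
structure Rep (P : Finset ℕ) (r : Gam →* M2) : Prop where
  sm : Sm ⊤ r
  two : 2 ∈ P
  unr : ∀ w : Plc, w.p ∉ P → ∀ σ ∈ Ine w, r σ = 1
  cc : r cc ≠ 1

/-- Smooth cocycles. -/
structure Cc (r : Gam →* M2) (a : Gam → V2) : Prop where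
  sm : Sm ⊤ a
  mul : ∀ g h, a (g * h) = a g + r g *ᵥ a h

/-- Functions that vanish on the inertia groups outside of `P`. -/
def Unr {α : Type} [Zero α] (P : Finset ℕ) (f : Gam → α) : Prop :=
  ∀ w : Plc, w.p ∉ P → ∀ σ ∈ Ine w, f σ = 0

/-- The cup product. -/
noncomputable def cp (r : Gam →* M2) (a b : Gam → V2) (g h : Gam) : ZMod 2 := dt (a g) (r g *ᵥ b h)

/-- Cochains whose boundary is the cup product. -/
structure Gov (r : Gam →* M2) (a b : Gam → V2) (φ : Gam → ZMod 2) : Prop where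
  sm : Sm ⊤ φ
  mul : ∀ g h, φ (g * h) = φ g + φ h + cp r a b g h

theorem Cc.one (ha : Cc r a) : a 1 = 0 := by
  have := ha.mul 1 1
  rw [mul_one, map_one, one_mulVec, v2_self] at this
  exact this

theorem Cc.sub (ha : Cc r a) (hb : Cc r b) : Cc r (a - b) :=
  ⟨ha.sm.comp₂ hb.sm (· - ·), fun g h => by
    simp only [Pi.sub_apply, ha.mul, hb.mul, mulVec_sub]
    abel⟩

theorem Cc.mul_zero (ha : Cc r a) (g : Gam) (h0 : a h = 0) : a (g * h) = a g := by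
  rw [ha.mul, h0, mulVec_zero, add_zero]

theorem Cc.inv (ha : Cc r a) (h0 : a g = 0) : a g⁻¹ = 0 := by
  rw [← ha.mul_zero g⁻¹ h0, inv_mul_cancel, ha.one]

theorem Cc.pow (ha : Cc r a) (h0 : a g = 0) (n : ℕ) : a (g ^ n) = 0 := by
  induction n with
  | zero => rw [pow_zero, ha.one]
  | succ n ih => rw [pow_succ, ha.mul_zero _ h0, ih]

theorem Cc.conj (ha : Cc r a) (g : Gam) (h1 : r σ = 1) : a (g * σ * g⁻¹) = r g *ᵥ a σ := by
  have h2 := ha.mul g g⁻¹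
  rw [mul_inv_cancel, ha.one] at h2
  rw [ha.mul, ha.mul, map_mul, h1, mul_one, add_right_comm, ← h2, zero_add]

theorem Cc.cube (ha : Cc r a) (h3 : Ord3 (r g)) : a (g ^ 3) = 0 := by
  rw [pow_succ, sq, ha.mul, ha.mul, map_mul, h3.sum]

theorem r_conj (g : Gam) (h1 : r σ = 1) : r (g * σ * g⁻¹) = 1 := by
  rw [map_mul, map_mul, h1, mul_one, r_inv]

theorem r_cube (h3 : Ord3 (r g)) : r (g ^ 3) = 1 := by
  rw [pow_succ, sq, map_mul, map_mul, h3.cube]

/-- The first cohomology of the symmetric group vanishes. -/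
theorem Cc.eq_zero (ha : Cc r a) {s : Gam} (hs : Ord3 (r s)) (h0 : a s = 0)
    (h1 : ∀ g, r g = 1 → a g = 0) : a = 0 := by
  funext g
  have h2 : Ord3 (r (g * s * g⁻¹)) := by
    rw [map_mul, map_mul]
    exact hs.conj (r_inv r g)
  have h3 : ∀ n : ℕ, r (g * s * g⁻¹) = r (s ^ n) → a (g * s * g⁻¹) = 0 := fun n e => by
    have := ha.mul_zero (s ^ n) (h1 ((s ^ n)⁻¹ * (g * s * g⁻¹)) (by
      rw [map_mul, e, ← map_mul, inv_mul_cancel, map_one]))
    rwa [mul_inv_cancel_left, ha.pow h0] at this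
  have h4 : a (g * s * g⁻¹) = 0 := (hs.eq h2).elim (fun e => h3 1 (by rw [e, pow_one]))
    fun e => h3 2 (by rw [e, sq, map_mul])
  have h5 := ha.mul (g * s * g⁻¹) g
  rw [inv_mul_cancel_right, ha.mul_zero g h0, h4, zero_add] at h5
  exact h2.fix h5.symm

theorem Gov.one (hφ : Gov r a b φ) (ha : Cc r a) : φ 1 = 0 := by
  have := hφ.mul 1 1
  rw [mul_one, cp, ha.one, dt_zero_left, add_zero, z2_self] at this
  exact this

theorem Gov.left (hφ : Gov r a b φ) (h0 : a g = 0) (h : Gam) : φ (g * h) = φ g + φ h := by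
  rw [hφ.mul, cp, h0, dt_zero_left, add_zero]

theorem Gov.right (hφ : Gov r a b φ) (g : Gam) (h0 : b h = 0) : φ (g * h) = φ g + φ h := by
  rw [hφ.mul, cp, h0, mulVec_zero, dt_zero_right, add_zero]

theorem Gov.conj (hφ : Gov r a b φ) (ha : Cc r a) (g : Gam) (h1 : r σ = 1)
    (h2 : a σ = 0) (h3 : b σ = 0) : φ (g * σ * g⁻¹) = φ σ := by
  have h4 := hφ.left (g := g * σ * g⁻¹) (by rw [ha.conj g h1, h2, mulVec_zero]) g
  rw [inv_mul_cancel_right, hφ.right g h3, add_comm] at h4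
  exact (add_right_cancel h4).symm

theorem Gov.pow (hφ : Gov r a b φ) (ha : Cc r a) (h3 : b σ = 0) (n : ℕ) :
    φ (σ ^ n) = n * φ σ := by
  induction n with
  | zero => rw [pow_zero, hφ.one ha, Nat.cast_zero, zero_mul]
  | succ n ih => rw [pow_succ, hφ.right _ h3, ih, Nat.cast_succ, add_mul, one_mul]

theorem Gov.cube (hφ : Gov r a b φ) (ha : Cc r a) (hb : Cc r b) (g : Gam) (h1 : r σ = 1)
    (h2 : a σ = 0) (h3 : b σ = 0) : φ ((g * σ) ^ 3) = φ (g ^ 3) + φ σ := by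
  have e : (g * σ) ^ 3 = g ^ 3 * ((g * g)⁻¹ * σ * (g * g)⁻¹⁻¹) * (g⁻¹ * σ * g⁻¹⁻¹) * σ := by
    rw [pow_succ, sq]
    group
  rw [e, hφ.right _ h3, hφ.right _ (by rw [hb.conj _ h1, h3, mulVec_zero]),
    hφ.right _ (by rw [hb.conj _ h1, h3, mulVec_zero]), hφ.conj ha _ h1 h2 h3,
    hφ.conj ha _ h1 h2 h3, add_assoc, add_assoc, z2_self, add_zero]

theorem Gov.comm (hφ : Gov r a b φ) (ha : Cc r a) (h1 : r g = 1) (h2 : r h = 1) (h3 : a h = 0) :
    φ (g * h * g⁻¹ * h⁻¹) = dt (a g) (b h) := by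
  have h4 := hφ.left (g := g * h * g⁻¹ * h⁻¹)
    (by rw [ha.mul_zero _ (ha.inv h3), ha.conj g h2, h3, mulVec_zero]) (h * g)
  rw [show g * h * g⁻¹ * h⁻¹ * (h * g) = g * h by group, hφ.left h3, hφ.mul, cp, h1, one_mulVec,
    add_comm (φ h), add_comm] at h4
  exact (add_right_cancel h4).symm

theorem c2_of {z : Gam → Gam → ZMod 2} (h1 : Sm2 D z)
    (h2 : ∀ g ∈ D, ∀ h ∈ D, ∀ k ∈ D, z h k + z g (h * k) = z (g * h) k + z g h) : C2 1 D z :=
  ⟨h1, fun g hg h hh k hk => by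
    rw [cy_one_eq, one_mul]
    exact h2 g hg h hh k hk⟩

theorem spl_of {z : Gam → Gam → ZMod 2} (β : Gam → ZMod 2) (h1 : Sm D β)
    (h2 : ∀ g ∈ D, ∀ h ∈ D, z g h = β g + β h - β (g * h)) : Spl 1 D z :=
  ⟨β, h1, fun g hg h hh => by
    rw [cy_one_eq, one_mul]
    exact h2 g hg h hh⟩

theorem sm2_cp (hr : Sm ⊤ r) (ha : Sm ⊤ a) (hb : Sm ⊤ b) : Sm2 ⊤ (cp r a b) :=
  (ha.comp₂ hr Prod.mk).left.comp₂ hb.right fun x y => dt x.1 (x.2 *ᵥ y)

theorem c2_cp (hr : Sm ⊤ r) (ha : Cc r a) (hb : Cc r b) : C2 1 ⊤ (cp r a b) :=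
  c2_of (sm2_cp hr ha.sm hb.sm) fun g _ h _ k _ => by
    simp only [cp, ha.mul, hb.mul, map_mul, mulVec_add, dt_add_left, dt_add_right,
      ← mulVec_mulVec, dt_r]
    ring

/-- Cocycles are trivial at the real place. -/
theorem Cc.inf (hr : Rep P r) (hb : Cc r b) :
    ∃ y, ∀ g ∈ Subgroup.zpowers cc, b g = r g *ᵥ y - y := by
  have h1 := hb.mul cc cc
  rw [cc_mul_cc, hb.one] at h1
  obtain ⟨y, hy⟩ := inv_cob (by rw [← map_mul, cc_mul_cc, map_one]) hr.cc h1.symm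
  refine ⟨y, fun g hg => ?_⟩
  obtain ⟨n, rfl⟩ := hg
  have h2 : ∀ m : ℤ, cc ^ (2 * m) = 1 := fun m => by
    rw [_root_.zpow_mul, zpow_two, cc_mul_cc, _root_.one_zpow]
  rcases Int.even_or_odd' n with ⟨m, rfl | rfl⟩
  · simp only [h2, hb.one, map_one, one_mulVec, sub_self]
  · simp only [_root_.zpow_add_one, h2, one_mul, hy.symm]

theorem spl_cob (hr : Sm ⊤ r) (hc : Sm ⊤ c)
    (h1 : ∀ g ∈ D, ∀ h ∈ D, c (g * h) = c g + r g *ᵥ c h) {y : V2}
    (hy : ∀ g ∈ D, b g = r g *ᵥ y - y) : Spl 1 D (cp r c b) :=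
  spl_of (fun g => dt (c g) (r g *ᵥ y)) ((hc.comp₂ hr fun x A => dt x (A *ᵥ y)).mono le_top)
    fun g hg h hh => by
      simp only [cp, h1 g hg h hh, hy h hh, map_mul, mulVec_sub, dt_add_left, dt_sub_right,
        ← mulVec_mulVec, dt_r]
      generalize dt (c g) (r g *ᵥ r h *ᵥ y) = t, dt (c g) (r g *ᵥ y) = t',
        dt (c h) (r h *ᵥ y) = t''
      revert t t' t''
      decide

theorem Rep.ne_two (hr : Rep P r) (hw : w.p ∉ P) : w.p ≠ 2 := fun e => hw (e ▸ hr.two)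

theorem Gov.tame (hφ : Gov r a b φ) (hr : Rep P r) (ha : Cc r a) (ua : Unr P a)
    (ub : Unr P b) {p : ℕ} (hp : p ∉ P) :
    ∃ e : ZMod 2, ∀ w : Plc, w.p = p → ∀ σ ∈ Ine w, φ σ = e * xi p σ := by
  by_cases h0 : ∃ w : Plc, w.p = p
  swap
  · exact ⟨0, fun w hw => absurd ⟨w, hw⟩ h0⟩
  obtain ⟨v, rfl⟩ := h0
  obtain ⟨τ, hτ⟩ := exists_gen (hr.ne_two hp)
  have h1 : ∀ σ ∈ Ine v, φ σ = φ τ * xi v.p σ := fun σ hσ => by
    obtain ⟨k, hk⟩ := tame_gen (hr.ne_two hp) hτ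
      (π := fun g => Multiplicative.ofAdd (φ g, xi v.p g))
      ((hφ.sm.mono le_top).comp₂ (sm_xi _) fun x y => Multiplicative.ofAdd (x, y))
      (fun g hg k _ => by simp only [hφ.left (ua v hp g hg), xi_hom]; rfl)
      (fun g _ => ⟨1, by
        rw [pow_one, sq, ← ofAdd_add, Prod.mk_add_mk, z2_self, z2_self]; rfl⟩) hσ
    rw [← ofAdd_nsmul, EmbeddingLike.apply_eq_iff_eq, Prod.smul_mk, Prod.mk.injEq,
      xi_eq_one.2 hτ.2] at hk
    rw [hk.1, hk.2, nsmul_eq_mul, nsmul_eq_mul, mul_one, mul_comm]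
  refine ⟨φ τ, fun w hw σ hσ => ?_⟩
  obtain ⟨g, rfl⟩ := plc_conj hw.symm
  have h2 := mem_Ine_smul.1 hσ
  have h3 := hφ.conj ha g (hr.unr v hp _ h2) (ua v hp _ h2) (ub v hp _ h2)
  rw [show g * (g⁻¹ * σ * g) * g⁻¹ = σ by group] at h3
  have h4 := xi_hom v.p g⁻¹ g
  rw [inv_mul_cancel, xi_eq_zero.2 (map_one _)] at h4
  rw [h3, h1 _ h2, xi_hom, xi_hom, add_right_comm, ← h4, zero_add]

/-- A governing cochain that is unramified outside of `P`. -/
theorem exists_gov (F : CFT) (hr : Rep P r) (ha : Cc r a) (hb : Cc r b) (ua : Unr P a)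
    (ub : Unr P b) (iso : ∀ w : Plc, w.p ∈ P → Spl 1 (Dec w) (cp r a b)) :
    ∃ φ, Gov r a b φ ∧ Unr P φ := by
  have h1 := c2_cp hr.sm ha hb
  obtain ⟨y, hy⟩ := hb.inf hr
  obtain ⟨φ, h2, h3⟩ := F.abhn isOpen_univ h1
    (.inr ⟨rfl, spl_cob hr.sm ha.sm (fun g _ h _ => ha.mul g h) hy⟩) fun w => by
      by_cases hw : w.p ∈ P
      · exact (F.zero_iff isOpen_univ (h1.mono le_top)).2 (by rw [top_inf_eq]; exact iso w hw)
      · refine F.unr isOpen_univ (h1.mono le_top) fun g _ h _ σ hσ σ' hσ' => ?_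
        rw [cp, cp, ha.mul_zero g (ua w hw σ hσ.2), hb.mul_zero h (ub w hw σ' hσ'.2), map_mul,
          hr.unr w hw σ hσ.2, mul_one]
  have h4 : Gov r a b φ := ⟨h2, fun g h => by
    have := h3 g trivial h trivial
    rw [cy_one_eq, one_mul] at this
    rw [this]
    generalize φ g = t, φ h = t', φ (g * h) = t''
    revert t t' t''
    decide⟩
  obtain ⟨U, u1, -, u3⟩ := h2
  obtain ⟨s, hs⟩ := finite_ram u1
  choose! e he using fun p (hp : p ∉ P) => h4.tame hr ha ua ub hp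
  have h7 : Sm ⊤ fun g => ∑ p ∈ s.filter Nat.Prime, e p * xi p g :=
    ((Sm.pi fun p : s.filter Nat.Prime => sm_xi (H := ⊤) (p : ℕ)).comp
      fun x => ∑ p : s.filter Nat.Prime, e p * x p).congr fun g _ =>
        sum_coe_sort _ fun p : ℕ => e p * xi p g
  refine ⟨fun g => φ g + ∑ p ∈ s.filter Nat.Prime, e p * xi p g,
    ⟨h4.sm.comp₂ h7 (· + ·), fun g h => ?_⟩, fun w hw σ hσ => ?_⟩
  · simp only [h4.mul, xi_hom, mul_add, sum_add_distrib]
    ring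
  · have h5 : ∀ p ∈ s.filter Nat.Prime, p ≠ w.p → e p * xi p σ = 0 := fun p hp hp' => by
      rw [xi_eq_zero.2 (chi_ine (fun k => ?_) hσ), mul_zero]
      have k' : w.p ∣ 2 * p := by exact_mod_cast k
      rcases (Nat.Prime.dvd_mul w.prime).1 k' with k | k
      · exact hr.ne_two hw ((Nat.prime_dvd_prime_iff_eq w.prime Nat.prime_two).1 k)
      · exact hp' ((Nat.prime_dvd_prime_iff_eq w.prime (mem_filter.1 hp).2).1 k).symm
    by_cases h6 : w.p ∈ s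
    · show φ σ + _ = 0
      rw [sum_eq_single_of_mem w.p (mem_filter.2 ⟨h6, w.prime⟩) h5, he _ hw w rfl σ hσ, z2_self]
    · show φ σ + _ = 0
      rw [sum_eq_zero fun p hp => h5 p hp fun k => h6 (k ▸ (mem_filter.1 hp).1), add_zero,
        ← u3 1 trivial σ trivial (by simpa using hs w h6 hσ), h4.one ha]

end Pool.Agent.Lib.MP_696deb_nt.B6
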