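import Pool.Agent.Lib.MP_696deb_nt.B6.PTa

/-! The reciprocity law for a class that lifts for two different twists. -/

set_option autoImplicit false

open scoped NNReal Classical NumberTheorySymbols
open Finset Matrix

namespace Pool.Agent.Lib.MP_696deb_nt.B6

open Pool.Agent.Lib.MP_696deb_nt.B2

variable {r : Gam →* M2} {P : Finset ℕ} {a b c : Gam → V2} {φ ψ : Gam → ZMod 2}
  {D : Subgroup Gam} {f f' : Gam} {w w' : Plc}

/-- An unramified cocycle is trivial at a place of order three. -/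
theorem Cc.dec (hb : Cc r b) (hr : Sm ⊤ r) (h1 : ∀ σ ∈ Ine w, r σ = 1) (h2 : ∀ σ ∈ Ine w, b σ = 0)
    (hf : IsFrob w w.p f) (h3 : Ord3 (r f)) : ∃ y, ∀ g ∈ Dec w, b g = r g *ᵥ y - y := by
  obtain ⟨y, hy⟩ := h3.cob (b f)
  obtain ⟨U, u1, -, u3⟩ := hb.sm.comp₂ hr Prod.mk
  have h4 : ∀ n : ℕ, b (f ^ n) = r (f ^ n) *ᵥ y - y := fun n => by
    induction n with
    | zero => rw [pow_zero, hb.one, map_one, one_mulVec, sub_self]
    | succ n ih =>
      rw [pow_succ, hb.mul, ih, hy, map_mul, mulVec_sub, mulVec_mulVec]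
      abel
  refine ⟨y, fun g hg => ?_⟩
  obtain ⟨n, σ, k1, k2⟩ := dec_gen hf hg u1
  obtain ⟨e1, e2⟩ := Prod.mk.inj (u3 _ trivial _ trivial k2.1)
  rw [← e1, ← e2, hb.mul_zero _ (h2 σ k1), map_mul, h1 σ k1, mul_one, h4]

/-- The difference of two lifts. -/
structure Dif (r : Gam →* M2) (ψ : Gam → ZMod 2) (a c : Gam → V2) : Prop where
  sm : Sm ⊤ c
  mul : ∀ g h, c (g * h) = c g + r g *ᵥ c h + ψ g • r g *ᵥ a h

/-- The two-cocycle to which the reciprocity law is applied. -/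
noncomputable def zc (r : Gam →* M2) (ψ φ : Gam → ZMod 2) (c b : Gam → V2) (g h : Gam) : ZMod 2 :=
  cp r c b g h + ψ g * φ h

theorem c2_zc (hr : Sm ⊤ r) (hb : Cc r b) (hφ : Gov r a b φ) (hc : Dif r ψ a c) (h1 : Sm ⊤ ψ)
    (h2 : ∀ g h, ψ (g * h) = ψ g + ψ h) : C2 1 ⊤ (zc r ψ φ c b) :=
  c2_of ((sm2_cp hr hc.sm hb.sm).comp₂ (h1.left.comp₂ hφ.sm.right (· * ·)) (· + ·))
    fun g _ h _ k _ => by
      simp only [zc, cp, hc.mul, hb.mul, hφ.mul, h2, map_mul, mulVec_add, dt_add_left,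
        dt_add_right, dt_smul_left, ← mulVec_mulVec, dt_r]
      ring

theorem inv_zc (F : CFT) (hr : Rep P r) (ha : Cc r a) (hb : Cc r b) (ua : Unr P a) (ub : Unr P b)
    (hφ : Gov r a b φ) (uφ : Unr P φ) {m : ℤ} (hc : Dif r (xi m) a c) (hw : w.p ∉ P)
    (hf : IsFrob w w.p f) (h3 : Ord3 (r f)) (h0 : m ≠ 0) (hm : w.V m = (w.p : ℝ≥0)⁻¹) :
    F.inv 1 ⊤ w (zc r (xi m) φ c b) = φ (f ^ 3) := by
  obtain ⟨y, hy⟩ := hb.dec hr.sm (hr.unr w hw) (ub w hw) hf h3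
  obtain ⟨χ, hχ⟩ : ∃ χ : Gam → ZMod 2, ∀ g, χ g = φ g + dt (a g) (r g *ᵥ y) := ⟨_, fun _ => rfl⟩
  have s1 : Sm ⊤ χ := (hφ.sm.comp₂ (ha.sm.comp₂ hr.sm fun x A => dt x (A *ᵥ y)) (· + ·)).congr
    fun g _ => (hχ g).symm
  have s2 : IsHom (⊤ ⊓ Dec w) χ := fun g _ h hh => by
    simp only [hχ, hφ.mul, cp, ha.mul, hy h hh.2, map_mul, mulVec_sub, dt_add_left, dt_sub_right,
      ← mulVec_mulVec, dt_r]
    linear_combination z2_self (dt (a g) (r g *ᵥ r h *ᵥ y))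
  have s3 := F.kum (m := 1) (χ := χ) (κ := xi m) (a := (m : Qbar)) 1 isOpen_univ le_top trivial
    (by rwa [top_inf_eq, Subgroup.relIndex_self, pow_one]) (s1.mono le_top) s2
    (fun σ hσ => by rw [hχ, uφ w hw σ hσ, ua w hw σ hσ, dt_zero_left, add_zero]) (kum_xi h0)
    (by rw [zpow_one, hm])
  have s4 : Spl 1 (⊤ ⊓ Dec w) fun g h => zc r (xi m) φ c b g h + χ g * xi m h :=
    spl_of (fun g => dt (c g) (r g *ᵥ y) + xi m g * χ g)
      (((hc.sm.comp₂ hr.sm fun x A => dt x (A *ᵥ y)).comp₂ ((sm_xi m).comp₂ s1 (· * ·))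
        (· + ·)).mono le_top) fun g hg h hh => by
      rw [s2 g hg h hh, hχ h]
      simp only [zc, cp, hc.mul, hy h hh.2, xi_hom, map_mul, mulVec_sub, dt_add_left,
        dt_sub_right, dt_smul_left, ← mulVec_mulVec, dt_r]
      linear_combination z2_self (dt (c g) (r g *ᵥ r h *ᵥ y)) + z2_self (χ g * xi m h) +
        z2_self (xi m g * φ h) + z2_self (xi m g * dt (a h) (r h *ᵥ y))
  have s5 := (c2_zc hr.sm hb hφ hc (sm_xi m) (xi_hom m)).mono (le_top (a := ⊤ ⊓ Dec w))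
  have s6 := B4bG.c2 (D := ⊤ ⊓ Dec w) ⟨s1.mono le_top, s2⟩ (B4bG.xi _ m)
  have s7 := (F.add isOpen_univ s5 s6).symm.trans ((F.zero_iff isOpen_univ s4.c2).2 s4)
  rw [b4b_cup] at s3
  have s8 : χ (f ^ 3) = χ f := by
    have k1 : f ∈ ⊤ ⊓ Dec w := ⟨trivial, hf.1⟩
    rw [pow_succ, sq, s2 _ (mul_mem k1 k1) _ k1, s2 _ k1 _ k1, z2_self, zero_add]
  rw [hχ, ha.cube h3, dt_zero_left, add_zero] at s8
  rw [s8, ← b4b_eq s7, s3, Int.cast_one, mul_one]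

theorem V_mul {p : ℕ} (hp : p.Prime) (h : w.p ≠ p) :
    w.V ((w.p * p : ℤ) : Qbar) = (w.p : ℝ≥0)⁻¹ := by
  rw [Int.cast_mul, map_mul, (w.V_int_eq_one (a := p)).2 fun k => h
    ((Nat.prime_dvd_prime_iff_eq w.prime hp).1 (by exact_mod_cast k)), mul_one, Int.cast_natCast,
    w.hV]

theorem pt_recip (F : CFT) (hr : Rep P r) (ha : Cc r a) (hb : Cc r b) (ua : Unr P a) (ub : Unr P b)
    (hφ : Gov r a b φ) (uφ : Unr P φ) (hw : w.p ∉ P) (hw' : w'.p ∉ P) (hne : w.p ≠ w'.p)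
    (hf : IsFrob w w.p f) (hf' : IsFrob w' w'.p f') (h3 : Ord3 (r f)) (h3' : Ord3 (r f'))
    (hc : Dif r (xi (w.p * w'.p)) a c) (uc : Unr (insert w.p (insert w'.p P)) c)
    (hd : ∀ v : Plc, v.p ∈ P → ∀ g ∈ Dec v, xi (w.p * w'.p) g = 0)
    (iso : ∀ v : Plc, v.p ∈ P → Spl 1 (Dec v) (cp r c b)) : φ (f ^ 3) = φ (f' ^ 3) := by
  have h0 : (0 : ℤ) < w.p * w'.p := by exact_mod_cast mul_pos w.prime.pos w'.prime.pos
  have h1 := c2_zc hr.sm hb hφ hc (sm_xi _) (xi_hom _)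
  have h2 : ∀ g ∈ Subgroup.zpowers cc, xi (w.p * w'.p) g = 0 := fun g hg =>
    xi_eq_zero.2 (Subgroup.zpowers_le.2 (show cc ∈ (chi (w.p * w'.p)).ker by
      rw [MonoidHom.mem_ker, chi_cc h0.ne', if_pos h0]) hg)
  obtain ⟨y, hy⟩ := hb.inf hr
  have h4 : Spl 1 (Subgroup.zpowers cc) (zc r (xi (w.p * w'.p)) φ c b) := by
    obtain ⟨β, k1, k2⟩ := spl_cob hr.sm hc.sm
      (fun g hg h _ => by rw [hc.mul, h2 g hg, zero_smul, add_zero]) hy
    exact ⟨β, k1, fun g hg h hh => by rw [zc, h2 g hg, zero_mul, add_zero, k2 g hg h hh]⟩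
  have h5 : w ≠ w' := fun e => hne (e ▸ rfl)
  have h6 := F.recip {w, w'} isOpen_univ h1 (.inr ⟨rfl, h4⟩)
    (fun v hv v' hv' g _ e => by
      have e' : v.p = v'.p := e ▸ (smul_p g v).symm
      rw [mem_insert, mem_singleton] at hv hv'
      rcases hv with rfl | rfl <;> rcases hv' with rfl | rfl
      exacts [rfl, absurd e' hne, absurd e'.symm hne, rfl])
    fun v hv => by
      have k1 : ∀ u ∈ ({w, w'} : Finset Plc), v.p ≠ u.p := fun u hu e => by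
        obtain ⟨g, hg⟩ := plc_conj e.symm
        exact hv u hu g trivial hg
      have k2 := k1 w (by simp)
      have k3 := k1 w' (by simp)
      by_cases hv' : v.p ∈ P
      · obtain ⟨β, k4, k5⟩ := iso v hv'
        refine (F.zero_iff isOpen_univ (h1.mono le_top)).2 ?_
        rw [top_inf_eq]
        exact ⟨β, k4, fun g hg h hh => by
          rw [zc, hd v hv' g hg, zero_mul, add_zero, k5 g hg h hh]⟩
      · refine F.unr isOpen_univ (h1.mono le_top) fun g _ h _ σ hσ σ' hσ' => ?_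
        have k4 : xi (w.p * w'.p) σ = 0 := xi_eq_zero.2 (chi_ine (fun k => by
          have k' : v.p ∣ 2 * (w.p * w'.p) := by exact_mod_cast k
          rw [v.prime.dvd_mul, v.prime.dvd_mul, Nat.prime_dvd_prime_iff_eq v.prime Nat.prime_two,
            Nat.prime_dvd_prime_iff_eq v.prime w.prime,
            Nat.prime_dvd_prime_iff_eq v.prime w'.prime] at k'
          exact k'.elim (hr.ne_two hv') fun k => k.elim k2 k3) hσ.2)
        rw [zc, zc, cp, cp, hc.mul, uc v (by simp [k2, k3, hv']) σ hσ.2, ua v hv' σ hσ.2,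
          hb.mul_zero h (ub v hv' σ' hσ'.2), map_mul, hr.unr v hv' σ hσ.2, mul_one, xi_hom, k4,
          hφ.right h (ub v hv' σ' hσ'.2), uφ v hv' σ' hσ'.2]
        simp
  rw [sum_pair h5, inv_zc F hr ha hb ua ub hφ uφ hc hw hf h3 h0.ne' (V_mul w'.prime hne),
    inv_zc F hr ha hb ua ub hφ uφ hc hw' hf' h3' h0.ne'
      (by rw [mul_comm]; exact V_mul w.prime hne.symm)] at h6
  exact (b4b_eq h6).symm

/-- Two primes with the same quadratic symbols have a quotient that is a local square. -/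
theorem xi_dec (h2 : 2 ∈ P) (hw : w.p ∉ P) (hw' : w'.p ∉ P) (hf : IsFrob w w.p f)
    (hf' : IsFrob w' w'.p f') (e1 : chi (-1) f = chi (-1) f') (e2 : ∀ l ∈ P, chi l f = chi l f')
    {v : Plc} (hv : v.p ∈ P) {g : Gam} (hg : g ∈ Dec v) : xi (w.p * w'.p) g = 0 := by
  have k0 : ∀ u : Plc, u.p ∉ P → ∀ t : Plc, t.p ∈ P → ¬ (t.p : ℤ) ∣ u.p ∧ ¬ (u.p : ℤ) ∣ t.p :=
    fun u hu t ht => ⟨fun k => hu ((Nat.prime_dvd_prime_iff_eq t.prime u.prime).1
      (by exact_mod_cast k) ▸ ht), fun k => hu ((Nat.prime_dvd_prime_iff_eq u.prime t.prime).1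
      (by exact_mod_cast k) ▸ ht)⟩
  have k1 : ∀ u : Plc, u.p ∉ P → u.p % 2 = 1 := fun u hu =>
    u.prime.eq_two_or_odd.resolve_left fun e => hu (e ▸ h2)
  have k2 : ∀ u : Plc, u.p ∉ P → ¬ (u.p : ℤ) ∣ 2 := fun u hu k => by
    have := k1 u hu
    rw [(Nat.prime_dvd_prime_iff_eq u.prime Nat.prime_two).1 (by exact_mod_cast k)] at this
    omega
  have k3 : ∀ u : Plc, u.p ∉ P → ∀ m : ℤ, ¬ (u.p : ℤ) ∣ m → ¬ (u.p : ℤ) ∣ 2 * m := fun u hu m hm k =>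
    ((Nat.prime_iff_prime_int.1 u.prime).dvd_or_dvd k).elim (k2 u hu) hm
  have k4 : ∀ u : Plc, ¬ (u.p : ℤ) ∣ -1 := fun u k =>
    u.prime.one_lt.ne' (by exact_mod_cast Int.eq_one_of_dvd_one (by positivity) (dvd_neg.1 k))
  have o1 := k1 w hw
  have o2 := k1 w' hw'
  have j1 : J(-1 | w.p) = J(-1 | w'.p) := by
    rw [← chi_frob (k3 w hw _ (k4 w)) hf, ← chi_frob (k3 w' hw' _ (k4 w')) hf', e1]
  have j2 : J(2 | w.p) = J(2 | w'.p) := by
    rw [← chi_frob (k3 w hw _ (k2 w hw)) hf, ← chi_frob (k3 w' hw' _ (k2 w' hw')) hf']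
    exact_mod_cast e2 2 h2
  rw [jacobiSym.at_neg_one (Nat.odd_iff.2 o1), jacobiSym.at_neg_one (Nat.odd_iff.2 o2),
    ZMod.χ₄_nat_eq_if_mod_four, ZMod.χ₄_nat_eq_if_mod_four] at j1
  rw [jacobiSym.at_two (Nat.odd_iff.2 o1), jacobiSym.at_two (Nat.odd_iff.2 o2),
    ZMod.χ₈_nat_eq_if_mod_eight, ZMod.χ₈_nat_eq_if_mod_eight] at j2
  have j3 : w.p % 8 = w'.p % 8 := by
    split_ifs at j1 j2 <;> omega
  refine xi_eq_zero.2 ?_
  by_cases hv2 : v.p = 2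
  · refine chi_dec_two hv2 ?_ hg
    have : w.p * w'.p % 8 = 1 := by
      rw [Nat.mul_mod, ← j3]
      have : w.p % 8 = 1 ∨ w.p % 8 = 3 ∨ w.p % 8 = 5 ∨ w.p % 8 = 7 := by omega
      rcases this with e | e | e | e <;> rw [e]
    exact_mod_cast this
  have o3 : v.p % 2 = 1 := v.prime.eq_two_or_odd.resolve_left hv2
  have pv := Nat.prime_iff_prime_int.1 v.prime
  refine chi_dec (fun k => (pv.dvd_or_dvd k).elim (fun k => hv2 ((Nat.prime_dvd_prime_iff_eq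
    v.prime Nat.prime_two).1 (by exact_mod_cast k))) fun k =>
      (pv.dvd_or_dvd k).elim (k0 w hw v hv).1 (k0 w' hw' v hv).1) ?_ hg
  have j4 : J(v.p | w.p) = J(v.p | w'.p) := by
    rw [← chi_frob (k3 w hw _ (k0 w hw v hv).2) hf, ← chi_frob (k3 w' hw' _ (k0 w' hw' v hv).2) hf',
      e2 _ hv]
  have j5 : qrSign v.p w.p = qrSign v.p w'.p := by
    rw [qrSign.symm (Nat.odd_iff.2 o3) (Nat.odd_iff.2 o1),
      qrSign.symm (Nat.odd_iff.2 o3) (Nat.odd_iff.2 o2), qrSign, qrSign,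
      ZMod.χ₄_nat_mod_four w.p, ZMod.χ₄_nat_mod_four w'.p, show w.p % 4 = w'.p % 4 by omega]
  have j6 : J(w.p | v.p) = J(w'.p | v.p) := by
    rw [jacobiSym.quadratic_reciprocity' (Nat.odd_iff.2 o1) (Nat.odd_iff.2 o3),
      jacobiSym.quadratic_reciprocity' (Nat.odd_iff.2 o2) (Nat.odd_iff.2 o3), j4, j5]
  rw [jacobiSym.mul_left, j6, ← sq]
  exact jacobiSym.sq_one (Int.isCoprime_iff_gcd_eq_one.1
    (pv.irreducible.coprime_iff_not_dvd.2 (k0 w' hw' v hv).1).symm)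

end Pool.Agent.Lib.MP_696deb_nt.B6
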