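import Pool.Agent.Lib.MP_696deb_nt.Sm.Ell

/-! Curves whose two-torsion is permuted cyclically, twisted Galois action, local conditions. -/

set_option autoImplicit false

open scoped Classical
open WeierstrassCurve WeierstrassCurve.Affine Finset

namespace Pool.Agent.B6.S

open Pool.Agent.Lib.MP_696deb_nt Pool.Agent.Lib.MP_696deb_nt.Sm
open Pool.Agent.Lib.MP_696deb_nt.B2 (jC cc)

/-- The discriminant of `x ^ 3 + a x ^ 2 + b x + c`. -/
def dsc (a b c : ℤ) : ℤ :=
  a ^ 2 * b ^ 2 - 4 * b ^ 3 - 4 * a ^ 3 * c - 27 * c ^ 2 + 18 * a * b * c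

/-- A monic cubic of negative discriminant, its roots, and an automorphism of order three on
them. -/
structure Cv where
  a : ℤ
  b : ℤ
  c : ℤ
  e : Fin 3 → Qb
  h0 : GQ
  R : ℕ
  ha : (a : Qb) = -(e 0 + e 1 + e 2)
  hb : (b : Qb) = e 0 * e 1 + e 0 * e 2 + e 1 * e 2
  hc : (c : Qb) = -(e 0 * e 1 * e 2)
  neg : dsc a b c < 0
  cyc : ∀ i, h0 (e i) = e (i + 2)
  hR : ∀ i, ‖jC (e i)‖ ≤ R
  one : 1 ≤ R

theorem fin3 (i : Fin 3) : i = 0 ∨ i = 1 ∨ i = 2 := by revert i; decide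

namespace Cv

variable (C : Cv)

/-- The discriminant. -/
def disc : ℤ := dsc C.a C.b C.c

/-- The primes up to this bound are treated as bad. -/
def N0 : ℕ := (3 * C.R ^ 2) ^ 3 + C.disc.natAbs + 2

/-- The curve `y ^ 2 = x ^ 3 + a x ^ 2 + b x + c`. -/
def W (F : Type) [Field F] : WeierstrassCurve F := ⟨0, C.a, 0, C.b, C.c⟩

abbrev Pt (F : Type) [Field F] := (C.W F).toAffine.Point

abbrev NS {F : Type} [Field F] (x y : F) : Prop := (C.W F).toAffine.Nonsingular x y

/-- The points over the algebraic numbers. -/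
abbrev A := C.Pt Qb

/-- The square root of the discriminant. -/
noncomputable def del : Qb := (C.e 0 - C.e 1) * (C.e 0 - C.e 2) * (C.e 1 - C.e 2)

theorem del_sq : C.del * C.del = C.disc := by
  simp only [del, disc, dsc]
  push_cast
  rw [C.ha, C.hb, C.hc]
  ring

theorem disc_neg : C.disc < 0 := C.neg

theorem del_ne : C.del ≠ 0 := fun h => C.disc_neg.ne (by
  have := C.del_sq
  rw [h, mul_zero] at this
  exact_mod_cast this.symm)

theorem e_inj : Function.Injective C.e := by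
  have h := C.del_ne
  have h1 : C.e 0 ≠ C.e 1 := sub_ne_zero.1 (left_ne_zero_of_mul (left_ne_zero_of_mul h))
  have h2 : C.e 0 ≠ C.e 2 := sub_ne_zero.1 (right_ne_zero_of_mul (left_ne_zero_of_mul h))
  have h3 : C.e 1 ≠ C.e 2 := sub_ne_zero.1 (right_ne_zero_of_mul h)
  intro i j k
  rcases fin3 i with rfl | rfl | rfl <;> rcases fin3 j with rfl | rfl | rfl <;>
    first | rfl | exact absurd k h1 | exact absurd k h2 | exact absurd k h3 |
      exact absurd k.symm h1 | exact absurd k.symm h2 | exact absurd k.symm h3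

theorem root_iff (x : Qb) :
    x ^ 3 + C.a * x ^ 2 + C.b * x + C.c = (x - C.e 0) * (x - C.e 1) * (x - C.e 2) := by
  rw [C.ha, C.hb, C.hc]; ring

theorem root (i : Fin 3) : C.e i ^ 3 + C.a * C.e i ^ 2 + C.b * C.e i + C.c = 0 := by
  rw [root_iff]
  rcases fin3 i with rfl | rfl | rfl <;> simp

theorem split (i : Fin 3) : Split (C.W Qb) (C.e i) (C.e (i + 1)) (C.e (i + 2)) := by
  have h : Split (C.W Qb) (C.e 0) (C.e 1) (C.e 2) :=
    ⟨rfl, rfl, C.ha, C.hb, C.hc, C.e_inj.ne (by decide), C.e_inj.ne (by decide),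
      C.e_inj.ne (by decide), two_ne_zero⟩
  rcases fin3 i with rfl | rfl | rfl
  · exact h
  · exact h.swap12.swap23
  · exact h.swap13.swap23

theorem vc (g : GQ) : VC (g : Qb →+* Qb) (C.W Qb) (C.W Qb) 1 0 0 0 := by
  constructor <;> simp [W]

/-- The Galois action on points. -/
noncomputable def act (g : GQ) : C.A →+ C.A := (C.vc g).hom

/-- The points of order two. -/
noncomputable def T (i : Fin 3) : C.A := (C.split i).T

/-- The permutation of the roots. -/
noncomputable def pm (g : GQ) (i : Fin 3) : Fin 3 := Function.invFun C.e (g (C.e i))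

/-- An element of order three on the roots that is killed by all quadratic characters. -/
noncomputable def g0 : GQ := C.h0 * C.h0

/-- The Weil pairing on the two-torsion. -/
noncomputable def ep (S S' : C.A) : F2 := if S = 0 ∨ S' = 0 ∨ S = S' then 0 else 1

/-- The two-torsion point attached to three bits. -/
noncomputable def pr (x : Fin 3 → F2) : C.A := ∑ i, (x i).val • C.T i

/-- The Galois action twisted by the quadratic character of `D`. -/
noncomputable def tw (D : ℤ) (g : GQ) (P : C.A) : C.A := sn (chi D g) • C.act g P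

/-- The coboundary of a point. -/
noncomputable def cob (D : ℤ) (Q : C.A) (g : GQ) : C.A := C.tw D g Q - Q

/-- The local condition at `v`. -/
def Loc (v : ℕ) (D : ℤ) (c : GQ → C.A) : Prop := ∃ Q : C.A, ∀ g ∈ Gv v, c g = C.cob D Q g

/-- Smooth cocycles on `H` with values in the two-torsion. -/
structure Z2 (H : Subgroup GQ) (c : GQ → C.A) : Prop where
  two : ∀ g ∈ H, 2 • c g = 0
  coc : ∀ g ∈ H, ∀ h ∈ H, c (g * h) = c g + C.act g (c h)
  sm : B2.Sm H c

/-- Good primes. -/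
def Gp (p : ℕ) : Prop := p.Prime ∧ C.N0 < p

/-- The primes that are bad or divide `D`. -/
def FP (D : ℤ) (v : ℕ) : Prop := v.Prime ∧ (v ≤ C.N0 ∨ (v : ℤ) ∣ D)

/-- A root that is fixed by the Frobenius element. -/
noncomputable def tp (p : ℕ) : Fin 3 := if h : ∃ i, C.pm (frb p) i = i then h.choose else 0

/-- Good primes whose Frobenius element fixes all roots. -/
def Ty1 (p : ℕ) : Prop := C.Gp p ∧ ∀ i, C.pm (frb p) i = i

/-- Good primes whose Frobenius element fixes exactly one root. -/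
def Ty2 (p : ℕ) : Prop := C.Gp p ∧ ∀ i, C.pm (frb p) i = i ↔ i = C.tp p

/-- The symbol of a cocycle at a prime of the second type. -/
noncomputable def sy (c : GQ → C.A) (p : ℕ) : F2 := C.ep (c (frb p)) (C.T (C.tp p))

theorem two_le_N0 : 2 ≤ C.N0 := Nat.le_add_left _ _

theorem Gp.ne_two {C : Cv} {p : ℕ} (h : C.Gp p) : p ≠ 2 := (C.two_le_N0.trans_lt h.2).ne'

theorem Gp.not_dvd {C : Cv} {p : ℕ} (h : C.Gp p) : ¬ (p : ℤ) ∣ C.disc := fun k => by
  have h1 := Nat.le_of_dvd (Int.natAbs_pos.2 C.disc_neg.ne) (Int.natCast_dvd.1 k)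
  have h2 := h.2
  unfold N0 at h2
  omega

theorem gp_of_not_FP {D : ℤ} {p : ℕ} (hp : p.Prime) (h : ¬ C.FP D p) : C.Gp p ∧ ¬ (p : ℤ) ∣ D :=
  ⟨⟨hp, not_le.1 fun k => h ⟨hp, .inl k⟩⟩, fun k => h ⟨hp, .inr k⟩⟩

theorem e_pm (g : GQ) (i : Fin 3) : g (C.e i) = C.e (C.pm g i) := by
  refine (Function.invFun_eq ?_).symm
  have h := congrArg g (C.root i)
  simp only [map_add, map_mul, map_pow, map_intCast, map_zero] at h
  rw [root_iff, mul_eq_zero, mul_eq_zero, sub_eq_zero, sub_eq_zero, sub_eq_zero] at h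
  rcases h with (h | h) | h <;> exact ⟨_, h.symm⟩

theorem pm_mul (g h : GQ) (i : Fin 3) : C.pm (g * h) i = C.pm g (C.pm h i) :=
  C.e_inj (by rw [← e_pm, ← e_pm, ← e_pm]; rfl)

theorem pm_one (i : Fin 3) : C.pm 1 i = i := C.e_inj (by rw [← e_pm]; rfl)

theorem pm_inv (g : GQ) (i : Fin 3) : C.pm g (C.pm g⁻¹ i) = i := by
  rw [← pm_mul, mul_inv_cancel, pm_one]

theorem inv_pm (g : GQ) (i : Fin 3) : C.pm g⁻¹ (C.pm g i) = i := by
  rw [← pm_mul, inv_mul_cancel, pm_one]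

theorem pm_inj (g : GQ) : Function.Injective (C.pm g) := fun i j h => by
  rw [← C.inv_pm g i, h, inv_pm]

theorem pm_bij (g : GQ) : Function.Bijective (C.pm g) :=
  ⟨C.pm_inj g, fun i => ⟨_, C.pm_inv g i⟩⟩

theorem sm_pm (H : Subgroup GQ) : B2.Sm H C.pm :=
  (B2.Sm.pi fun i => B2.sm_apply (H := H) (C.e i)).comp fun f i => Function.invFun C.e (f i)

theorem pm_g0 (i : Fin 3) : C.pm C.g0 i = i + 1 :=
  C.e_inj (by
    rw [← e_pm, g0, AlgEquiv.mul_apply, C.cyc, C.cyc]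
    congr 1
    revert i
    decide)

theorem chi_g0 (d : ℤ) : chi d C.g0 = 0 := by
  rw [g0, chi_mul_g]; exact CharTwo.add_self_eq_zero _

theorem act_some (g : GQ) {x y : Qb} (h : C.NS x y) :
    ∃ h', C.act g (.some x y h) = .some (g x) (g y) h' := by
  refine ⟨by simpa using ((C.vc g).nonsingular x y).mpr h, ?_⟩
  exact ((C.vc g).hom_some h).trans (ell_ext (by simp) (by simp))

theorem act_mul (g h : GQ) (P : C.A) : C.act (g * h) P = C.act g (C.act h P) := by
  rcases P with _ | ⟨x, y, hP⟩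
  · rw [← Point.zero_def, map_zero, map_zero, map_zero]
  · obtain ⟨h1, e1⟩ := C.act_some h hP
    obtain ⟨h2, e2⟩ := C.act_some g h1
    obtain ⟨h3, e3⟩ := C.act_some (g * h) hP
    rw [e1, e2, e3]
    rfl

theorem act_one (P : C.A) : C.act 1 P = P := by
  rcases P with _ | ⟨x, y, hP⟩
  · rw [← Point.zero_def, map_zero]
  · obtain ⟨h1, e1⟩ := C.act_some 1 hP
    rw [e1]
    rfl

theorem act_inj (g : GQ) : Function.Injective (C.act g) := fun P Q h => by
  rw [← C.act_one P, ← inv_mul_cancel g, act_mul, h, ← act_mul, inv_mul_cancel, act_one]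

theorem lc_act (P : C.A) : LC fun g => C.act g P := by
  rcases P with _ | ⟨x, y, hP⟩
  · exact (B2.Sm.const (0 : C.A)).congr fun g _ => (map_zero _).symm
  · obtain ⟨U, h1, h2, h3⟩ := (B2.sm_apply (H := ⊤) x).comp₂ (B2.sm_apply y) Prod.mk
    refine ⟨U, h1, h2, fun g hg k hk e => ?_⟩
    obtain ⟨k1, e1⟩ := C.act_some g hP
    obtain ⟨k2, e2⟩ := C.act_some k hP
    have e3 := h3 g hg k hk e
    exact e1.trans ((ell_ext (congrArg Prod.fst e3) (congrArg Prod.snd e3)).trans e2.symm)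

theorem two_T (i : Fin 3) : 2 • C.T i = 0 := (C.split i).two_nsmul_T

theorem T_add_self (i : Fin 3) : C.T i + C.T i = 0 := (two_nsmul _).symm.trans (C.two_T i)

theorem T_ne (i : Fin 3) : C.T i ≠ 0 := Point.some_ne_zero _

theorem T_inj : Function.Injective C.T := fun _ _ h => C.e_inj ((Point.some.injEq ..).mp h).1

theorem T_add (i : Fin 3) : C.T i + C.T (i + 1) = C.T (i + 2) :=
  (add_comm _ _).trans (ell_T12 (C.split i))

theorem act_T (g : GQ) (i : Fin 3) : C.act g (C.T i) = C.T (C.pm g i) := by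
  obtain ⟨_, e⟩ := C.act_some g (C.split i).nonsingular_root
  exact e.trans (ell_ext (C.e_pm g i) (map_zero g))

theorem tors2 {P : C.A} (h : 2 • P = 0) : P = 0 ∨ ∃ i, P = C.T i := by
  rcases P with _ | ⟨x, y, hP⟩
  · exact .inl rfl
  have hy := (ell_y (C.split 0)).1 h
  have heq := ((C.split 0).nonsingular_iff x y).mp hP
  rw [hy, zero_pow two_ne_zero, eq_comm, mul_eq_zero, mul_eq_zero, sub_eq_zero, sub_eq_zero,
    sub_eq_zero] at heq
  rcases heq with (e | e) | e <;> exact .inr ⟨_, ell_ext e hy⟩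

theorem exists_half (P : C.A) : ∃ Q : C.A, 2 • Q = P := by
  rcases P with _ | ⟨x, y, hP⟩
  · exact ⟨0, nsmul_zero 2⟩
  · obtain ⟨R, hR⟩ := (C.split 0).exists_half hP ⟨_, (rt_mul_self _).symm⟩
      ⟨_, (rt_mul_self _).symm⟩ ⟨_, (rt_mul_self _).symm⟩
    exact ⟨R, hR.symm⟩

theorem tw_add (D : ℤ) (g : GQ) (P Q : C.A) : C.tw D g (P + Q) = C.tw D g P + C.tw D g Q := by
  simp only [tw, map_add, smul_add]

theorem tw_zero (D : ℤ) (g : GQ) : C.tw D g 0 = 0 := by simp only [tw, map_zero, smul_zero]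

theorem tw_sub (D : ℤ) (g : GQ) (P Q : C.A) : C.tw D g (P - Q) = C.tw D g P - C.tw D g Q := by
  simp only [tw, map_sub, smul_sub]

theorem tw_zsmul (D : ℤ) (g : GQ) (k : ℤ) (P : C.A) : C.tw D g (k • P) = k • C.tw D g P := by
  simp only [tw, map_zsmul]; exact smul_comm _ _ _

theorem tw_nsmul (D : ℤ) (g : GQ) (k : ℕ) (P : C.A) : C.tw D g (k • P) = k • C.tw D g P := by
  simp only [tw, map_nsmul]; exact smul_comm _ _ _

theorem tw_sum {ι : Type} (D : ℤ) (g : GQ) (s : Finset ι) (P : ι → C.A) :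
    C.tw D g (∑ i ∈ s, P i) = ∑ i ∈ s, C.tw D g (P i) := by
  simp only [tw, map_sum, Finset.smul_sum]

theorem tw_mul (D : ℤ) (g h : GQ) (P : C.A) : C.tw D (g * h) P = C.tw D g (C.tw D h P) := by
  simp only [tw, map_zsmul, chi_mul_g, sn_add, act_mul, mul_smul]

theorem tw_two (D : ℤ) (g : GQ) {P : C.A} (h : 2 • P = 0) : C.tw D g P = C.act g P := by
  rcases F2_cases (chi D g) with h1 | h1
  · rw [tw, h1, sn_zero, one_zsmul]
  · rw [tw, h1, sn_one, neg_one_zsmul, neg_eq_iff_add_eq_zero, ← two_nsmul, ← map_nsmul, h,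
      map_zero]

theorem tw_twist {D D' : ℤ} (hD : D ≠ 0) (hD' : D' ≠ 0) (g : GQ) (P : C.A) :
    C.tw (D * D') g P = sn (chi D' g) • C.tw D g P := by
  simp only [tw, chi_mul hD hD', sn_add, smul_smul, mul_comm]

theorem tw_g0 (D : ℤ) (P : C.A) : C.tw D C.g0 P = C.act C.g0 P := by
  rw [tw, chi_g0, sn_zero, one_zsmul]

theorem lc_cob (D : ℤ) (Q : C.A) : LC (C.cob D Q) :=
  (lc_chi D).comp₂ (C.lc_act Q) fun c P => sn c • P - Q

theorem cob_add (D : ℤ) (P Q : C.A) : C.cob D (P + Q) = C.cob D P + C.cob D Q := by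
  funext g; simp only [cob, tw_add, Pi.add_apply]; abel

theorem cob_zsmul (D : ℤ) (k : ℤ) (Q : C.A) : C.cob D (k • Q) = k • C.cob D Q := by
  funext g; simp only [cob, tw_zsmul, Pi.smul_apply, smul_sub]

theorem cob_nsmul (D : ℤ) (k : ℕ) (Q : C.A) : C.cob D (k • Q) = k • C.cob D Q := by
  funext g; simp only [cob, tw_nsmul, Pi.smul_apply, smul_sub]

theorem cob_mul (D : ℤ) (Q : C.A) (g h : GQ) :
    C.cob D Q (g * h) = C.cob D Q g + C.tw D g (C.cob D Q h) := by
  simp only [cob, tw_mul, tw_sub]; abel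

theorem loc_zero (v : ℕ) (D : ℤ) : C.Loc v D 0 := ⟨0, fun g _ => by simp [cob, tw_zero]⟩

theorem Loc.add {C : Cv} {v : ℕ} {D : ℤ} {c c' : GQ → C.A} (h : C.Loc v D c) (h' : C.Loc v D c') :
    C.Loc v D (c + c') := by
  obtain ⟨P, hP⟩ := h
  obtain ⟨Q, hQ⟩ := h'
  exact ⟨P + Q, fun g hg => by rw [cob_add, Pi.add_apply, Pi.add_apply, hP g hg, hQ g hg]⟩

theorem Loc.zsmul {C : Cv} {v : ℕ} {D : ℤ} {c : GQ → C.A} (h : C.Loc v D c) (k : ℤ) :
    C.Loc v D (k • c) := by
  obtain ⟨P, hP⟩ := h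
  exact ⟨k • P, fun g hg => by rw [cob_zsmul, Pi.smul_apply, Pi.smul_apply, hP g hg]⟩

theorem Loc.congr {C : Cv} {v : ℕ} {D D' : ℤ} {c c' : GQ → C.A} (h : C.Loc v D c)
    (hD : ∀ g ∈ Gv v, chi D' g = chi D g) (hc : ∀ g ∈ Gv v, c' g = c g) : C.Loc v D' c' := by
  obtain ⟨P, hP⟩ := h
  exact ⟨P, fun g hg => by rw [hc g hg, hP g hg, cob, cob, tw, tw, hD g hg]⟩

theorem loc_cob (v : ℕ) (D : ℤ) (Q : C.A) : C.Loc v D (C.cob D Q) := ⟨Q, fun _ _ => rfl⟩

end Cv

end Pool.Agent.B6.S
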