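import Pool.Agent.Lib.MP_696deb_nt.B6.SA1
import Pool.Agent.Lib.MP_696deb_nt.B6.SF
import Pool.Agent.Lib.MP_696deb_nt.B2.GWg

/-! Cocycles with values in the two-torsion. -/

set_option autoImplicit false

open scoped Classical
open Finset Function

namespace Pool.Agent.B6.S

open Pool.Agent.Lib.MP_696deb_nt Pool.Agent.Lib.MP_696deb_nt.Sm

namespace Cv

variable {C : Cv} {H H' : Subgroup GQ} {c c' : GQ → C.A} {p : ℕ} {D D' : ℤ}

theorem z2_zero (C : Cv) (H : Subgroup GQ) : C.Z2 H 0 :=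
  ⟨fun _ _ => nsmul_zero 2, fun _ _ _ _ => by simp, B2.Sm.const 0⟩

theorem Z2.add (h : C.Z2 H c) (h' : C.Z2 H c') : C.Z2 H (c + c') :=
  ⟨fun g hg => by rw [Pi.add_apply, smul_add, h.two g hg, h'.two g hg, add_zero],
    fun g hg k hk => by
      simp only [Pi.add_apply, h.coc g hg k hk, h'.coc g hg k hk, map_add]
      abel,
    h.sm.comp₂ h'.sm (· + ·)⟩

theorem Z2.neg (h : C.Z2 H c) : C.Z2 H (-c) :=
  ⟨fun g hg => by rw [Pi.neg_apply, smul_neg, h.two g hg, neg_zero],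
    fun g hg k hk => by
      simp only [Pi.neg_apply, h.coc g hg k hk, map_neg]
      abel,
    h.sm.comp (-·)⟩

theorem Z2.sub (h : C.Z2 H c) (h' : C.Z2 H c') : C.Z2 H (c - c') :=
  sub_eq_add_neg c c' ▸ h.add h'.neg

theorem Z2.smul (h : C.Z2 H c) (k : F2) : C.Z2 H (k.val • c) := by
  rcases F2_cases k with rfl | rfl
  · exact (zero_nsmul c).symm ▸ C.z2_zero H
  · rwa [ZMod.val_one, one_nsmul]

theorem z2_sum {ι : Type} (s : Finset ι) {f : ι → GQ → C.A} (h : ∀ i ∈ s, C.Z2 H (f i)) :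
    C.Z2 H (∑ i ∈ s, f i) :=
  Finset.sum_induction f (C.Z2 H) (fun _ _ => Z2.add) (C.z2_zero H) h

theorem Z2.mono (h : C.Z2 H c) (k : H' ≤ H) : C.Z2 H' c :=
  ⟨fun g hg => h.two g (k hg), fun g hg x hx => h.coc g (k hg) x (k hx), h.sm.mono k⟩

theorem Z2.congr (h : C.Z2 H c) (k : ∀ g ∈ H, c' g = c g) : C.Z2 H c' :=
  ⟨fun g hg => (k g hg).symm ▸ h.two g hg, fun g hg x hx => by
    rw [k _ (mul_mem hg hx), k g hg, k x hx, h.coc g hg x hx],
    h.sm.congr fun g hg => (k g hg).symm⟩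

theorem Z2.one (h : C.Z2 H c) : c 1 = 0 := by
  have e := h.coc 1 H.one_mem 1 H.one_mem
  rw [mul_one, act_one] at e
  exact left_eq_add.1 e

theorem z2_cob (H : Subgroup GQ) {S : C.A} (h : 2 • S = 0) : C.Z2 H fun g => C.act g S - S :=
  ⟨fun g _ => by rw [smul_sub, C.two_act g h, h, sub_zero], fun g _ k _ => by
    rw [act_mul, map_sub]
    abel,
    ((C.lc_act S).mono le_top).comp (· - S)⟩

/-- The coboundary of a half of a point that is fixed by `H`. -/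
theorem z2_cob_half {Q : C.A} (h : ∀ g ∈ H, C.tw D g (2 • Q) = 2 • Q) : C.Z2 H (C.cob D Q) := by
  have h2 : ∀ g ∈ H, 2 • C.cob D Q g = 0 := fun g hg => by
    rw [cob, smul_sub, ← tw_nsmul, h g hg, sub_self]
  exact ⟨h2, fun g _ k hk => by rw [cob_mul, C.tw_two D g (h2 k hk)], (C.lc_cob D Q).mono le_top⟩

theorem val_add_smul {S : C.A} (h : 2 • S = 0) (a b : F2) :
    (a + b).val • S = a.val • S + b.val • S := by
  rw [ZMod.val_add, ← nsmul_eq_mod_nsmul _ h, add_nsmul]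

theorem z2_chi (d : ℤ) {S : C.A} (h : 2 • S = 0) (hS : ∀ g ∈ H, C.act g S = S) :
    C.Z2 H fun g => (chi d g).val • S :=
  ⟨fun _ _ => C.two_smul_val _ h, fun g hg k _ => by
    rw [chi_mul_g, val_add_smul h, map_nsmul, hS g hg],
    ((lc_chi d).mono le_top).comp fun a => a.val • S⟩

/-- Normalised cocycles that are unramified at the good primes not dividing `D`. -/
noncomputable def U (C : Cv) (D : ℤ) : AddSubgroup (GQ → C.A) where
  carrier := {c | C.Z2 ⊤ c ∧ c C.g0 = 0 ∧ ∀ q, C.Gp q → ¬ (q : ℤ) ∣ D → c (sig q) = 0}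
  zero_mem' := ⟨C.z2_zero ⊤, rfl, fun _ _ _ => rfl⟩
  add_mem' := fun h h' => ⟨h.1.add h'.1, by rw [Pi.add_apply, h.2.1, h'.2.1, add_zero],
    fun q k k' => by rw [Pi.add_apply, h.2.2 q k k', h'.2.2 q k k', add_zero]⟩
  neg_mem' := fun h => ⟨h.1.neg, by rw [Pi.neg_apply, h.2.1, neg_zero],
    fun q k k' => by rw [Pi.neg_apply, h.2.2 q k k', neg_zero]⟩

theorem mem_U : c ∈ C.U D ↔
    C.Z2 ⊤ c ∧ c C.g0 = 0 ∧ ∀ q, C.Gp q → ¬ (q : ℤ) ∣ D → c (sig q) = 0 := Iff.rfl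

theorem U_mono (h : ∀ q, C.Gp q → (q : ℤ) ∣ D → (q : ℤ) ∣ D') : C.U D ≤ C.U D' :=
  fun _ k => ⟨k.1, k.2.1, fun q h1 h2 => k.2.2 q h1 fun h3 => h2 (h q h1 h3)⟩

/-- Every cocycle can be normalised. -/
theorem Z2.norm (h : C.Z2 ⊤ c) : ∃ S : C.A, 2 • S = 0 ∧ c C.g0 = C.act C.g0 S - S := by
  obtain ⟨S, h1, h2⟩ := C.g0_surj (n := 1) (h.two C.g0 trivial)
  exact ⟨S, h1, h2.symm⟩

theorem nrm_e (C : Cv) (p : ℕ) (i : Fin 3) : nrm p (C.e i) ≤ 1 :=
  (pl p).V_le_one_of_isIntegral (C.int_e i)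

theorem sa2_one {x y : NNReal} (hx : x ≤ 1) (hy : y ≤ 1) (h : x * y = 1) : x = 1 ∧ y = 1 :=
  ⟨le_antisymm hx (h.ge.trans (mul_le_of_le_one_right' hy)),
    le_antisymm hy (h.ge.trans (mul_le_of_le_one_left' hx))⟩

theorem Gp.nrm_sub (h : C.Gp p) {i j : Fin 3} (k : i ≠ j) : nrm p (C.e i - C.e j) = 1 := by
  have h0 : ∀ i j, nrm p (C.e i - C.e j) ≤ 1 := fun i j =>
    (nrm p).map_sub_le (C.nrm_e p i) (C.nrm_e p j)
  have h1 : nrm p C.del * nrm p C.del = 1 := by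
    rw [← map_mul, del_sq]
    exact (nrm_int_eq_one h.1).2 h.not_dvd
  have h2 : nrm p C.del = nrm p (C.e 0 - C.e 1) * nrm p (C.e 0 - C.e 2) * nrm p (C.e 1 - C.e 2) := by
    rw [del, map_mul, map_mul]
  have h3 := mul_le_one' (h0 0 1) (h0 0 2)
  have h4 : nrm p C.del ≤ 1 := h2 ▸ mul_le_one' h3 (h0 1 2)
  obtain ⟨h5, h6⟩ := sa2_one h3 (h0 1 2) (h2 ▸ (sa2_one h4 h4 h1).1)
  obtain ⟨h7, h8⟩ := sa2_one (h0 0 1) (h0 0 2) h5
  rcases fin3 i with rfl | rfl | rfl <;> rcases fin3 j with rfl | rfl | rfl <;>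
    first | exact absurd rfl k | assumption | rwa [Valuation.map_sub_swap]

theorem Gp.pm_ine (h : C.Gp p) {g : GQ} (hg : g ∈ Iv p) (i : Fin 3) : C.pm g i = i := by
  by_contra k
  have h1 := hg.2 _ (C.nrm_e p i)
  rw [e_pm] at h1
  exact h1.ne (h.nrm_sub k)

theorem act_of_pm {g : GQ} (h : ∀ i, C.pm g i = i) {S : C.A} (hS : 2 • S = 0) :
    C.act g S = S := by
  rcases C.tors2 hS with rfl | ⟨i, rfl⟩
  · exact map_zero _
  · rw [act_T, h]

theorem Gp.act_ine (h : C.Gp p) {g : GQ} (hg : g ∈ Iv p) {S : C.A} (hS : 2 • S = 0) :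
    C.act g S = S :=
  act_of_pm (h.pm_ine hg) hS

theorem pm_pow {g : GQ} {i : Fin 3} (h : C.pm g i = i) (n : ℕ) : C.pm (g ^ n) i = i := by
  induction n with
  | zero => rw [pow_zero, pm_one]
  | succ n ih => rw [pow_succ, pm_mul, h, ih]

/-- A smooth function takes all its values at products of a power of Frobenius and an inertia
element. -/
theorem dec_val {α : Type} (hp : p.Prime) (h2 : p ≠ 2) {f : GQ → α} (hf : B2.Sm (Gv p) f)
    {g : GQ} (hg : g ∈ Gv p) : ∃ (n : ℕ) (σ : GQ), σ ∈ Iv p ∧ f g = f (frb p ^ n * σ) := by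
  obtain ⟨U, u1, -, u3⟩ := hf
  obtain ⟨n, σ, h1, h3⟩ := B2.dec_gen (w := pl p) (φ := frb p)
    (by rw [pl_p hp]; exact (frb_spec hp h2).1) (Gv_prime hp ▸ hg) u1
  exact ⟨n, σ, h1, (u3 _ (mul_mem (pow_mem (frb_mem hp h2) n) (Iv_le hp h1)) g hg h3.1).symm⟩

/-- A point of order two that is fixed by the Frobenius element is fixed by the decomposition
group. -/
theorem Gp.act_Gv (h : C.Gp p) {S : C.A} (hS : 2 • S = 0) (k : C.act (frb p) S = S) :
    ∀ g ∈ Gv p, C.act g S = S := by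
  intro g hg
  rcases C.tors2 hS with rfl | ⟨i, rfl⟩
  · exact map_zero _
  · rw [act_T] at k
    obtain ⟨n, σ, hσ, e⟩ := dec_val h.1 h.ne_two (C.sm_pm _) hg
    rw [act_T, e, pm_mul, h.pm_ine hσ, pm_pow (C.T_inj k)]

theorem Gp.pm_Gv (h : C.Gp p) {i : Fin 3} (k : C.pm (frb p) i = i) : ∀ g ∈ Gv p, C.pm g i = i :=
  fun g hg => C.T_inj (by rw [← act_T, h.act_Gv (C.two_T i) (by rw [act_T, k]) g hg])

theorem Z2.ine (hp : C.Gp p) (h : C.Z2 (Gv p) c) {g : GQ} (hg : g ∈ Iv p) :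
    c g = (chi p g).val • c (sig p) := by
  have hI := Iv_le hp.1
  obtain ⟨k, hk⟩ := B2.tame_gen (w := pl p) (by rw [pl_p hp.1]; exact hp.ne_two)
    (gen_sig hp.1 hp.ne_two) (π := fun g => Multiplicative.ofAdd (c g, chi p g))
    ((h.sm.mono hI).comp₂ ((lc_chi p).mono le_top) fun a b => Multiplicative.ofAdd (a, b))
    (fun g hg k hk => by
      beta_reduce
      rw [← ofAdd_add, Prod.mk_add_mk, h.coc g (hI hg) k (hI hk), hp.act_ine hg (h.two k (hI hk)),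
        chi_mul_g])
    (fun g hg => ⟨1, by
      rw [← ofAdd_nsmul, ofAdd_eq_one, pow_one, Prod.smul_mk, h.two g (hI hg), two_nsmul,
        CharTwo.add_self_eq_zero, Prod.mk_zero_zero]⟩) hg
  rw [← ofAdd_nsmul, Prod.smul_mk, chi_sig_self hp.1 hp.ne_two] at hk
  obtain ⟨h1, h2⟩ := Prod.mk.inj (Multiplicative.ofAdd.injective hk)
  rw [h1, h2, nsmul_one, ZMod.val_natCast,
    ← nsmul_eq_mod_nsmul _ (h.two _ (sig_mem hp.1 hp.ne_two))]

theorem Z2.conj (h : C.Z2 H c) {g s : GQ} (hg : g ∈ H) (hs : s ∈ H)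
    (k : C.act (g * s * g⁻¹) (c g) = c g) : c (g * s * g⁻¹) = C.act g (c s) := by
  have e := h.coc _ (mul_mem (mul_mem hg hs) (inv_mem hg)) g hg
  rw [inv_mul_cancel_right, h.coc g hg s hs, k, add_comm] at e
  exact (add_right_cancel e).symm

theorem Z2.sig_fix (hp : C.Gp p) (h : C.Z2 (Gv p) c) :
    ∀ g ∈ Gv p, C.act g (c (sig p)) = c (sig p) := by
  intro g hg
  have h1 := sig_ine hp.1 hp.ne_two
  have h2 : g * sig p * g⁻¹ ∈ Iv p := B2.conj_mem_Ine (Gv_prime hp.1 ▸ hg) h1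
  have h3 : chi p (g * sig p * g⁻¹) = 1 := by
    have e := chi_mul_g p (g * sig p * g⁻¹) g
    rw [inv_mul_cancel_right, chi_mul_g, add_comm, chi_sig_self hp.1 hp.ne_two] at e
    exact (add_right_cancel e).symm
  rw [← h.conj hg (Iv_le hp.1 h1) (hp.act_ine h2 (h.two g hg)), h.ine hp h2, h3, ZMod.val_one,
    one_nsmul]

theorem Z2.dec (hp : C.Gp p) (h : C.Z2 (Gv p) c) (h1 : c (sig p) = 0) (h2 : c (frb p) = 0) :
    ∀ g ∈ Gv p, c g = 0 := by
  intro g hg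
  have hf := frb_mem hp.1 hp.ne_two
  have h3 : ∀ n : ℕ, c (frb p ^ n) = 0 := fun n => by
    induction n with
    | zero => rw [pow_zero, h.one]
    | succ n ih => rw [pow_succ, h.coc _ (pow_mem hf n) _ hf, ih, h2, map_zero, add_zero]
  obtain ⟨n, σ, hσ, e⟩ := dec_val hp.1 hp.ne_two h.sm hg
  rw [e, h.coc _ (pow_mem hf n) _ (Iv_le hp.1 hσ), h3, h.ine hp hσ, h1, nsmul_zero, map_zero,
    add_zero]

theorem Z2.sig_ty2 (hp : C.Ty2 p) (h : C.Z2 (Gv p) c) :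
    c (sig p) = 0 ∨ c (sig p) = C.T (C.tp p) := by
  refine (C.tors2 (h.two _ (sig_mem hp.1.1 hp.1.ne_two))).imp_right fun ⟨i, hi⟩ => ?_
  have h1 := h.sig_fix hp.1 _ (frb_mem hp.1.1 hp.1.ne_two)
  rw [hi, act_T] at h1
  rw [hi, (hp.2 i).1 (C.T_inj h1)]

theorem Z2.sig_ty (hp : C.Gp p) (h : C.Z2 (Gv p) c) :
    c (sig p) = 0 ∨ ∃ i, C.pm (frb p) i = i ∧ c (sig p) = C.T i := by
  refine (C.tors2 (h.two _ (sig_mem hp.1 hp.ne_two))).imp_right fun ⟨i, hi⟩ => ⟨i, ?_, hi⟩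
  have h1 := h.sig_fix hp _ (frb_mem hp.1 hp.ne_two)
  rw [hi, act_T] at h1
  exact C.T_inj h1

/-- A global cocycle that vanishes at `sig p` vanishes on all inertia groups above `p`. -/
theorem Z2.ine_all (hp : C.Gp p) (h : C.Z2 ⊤ c) (h1 : c (sig p) = 0) {w : B2.Plc} (hw : w.p = p) :
    ∀ g ∈ B2.Ine w, c g = 0 ∧ ∀ S : C.A, 2 • S = 0 → C.act g S = S := by
  intro g hg
  obtain ⟨k, rfl⟩ := B2.plc_conj ((pl_p hp.1).trans hw.symm)
  have h2 : k⁻¹ * g * k ∈ Iv p := B2.mem_Ine_smul.1 hg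
  have e : k * (k⁻¹ * g * k) * k⁻¹ = g := by group
  have h3 : ∀ S : C.A, 2 • S = 0 → C.act g S = S := fun S hS => by
    rw [← e, act_mul, act_mul, hp.act_ine h2 (C.two_act _ hS), ← act_mul, mul_inv_cancel, act_one]
  refine ⟨?_, h3⟩
  have h4 := h.conj (g := k) (s := k⁻¹ * g * k) trivial trivial
    (by rw [e]; exact h3 _ (h.two k trivial))
  rw [e, (h.mono le_top).ine hp h2, h1, nsmul_zero, map_zero] at h4
  exact h4

/-- An unramified local cocycle with trivial symbol is a coboundary. -/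
theorem Z2.cob_of_sy (hp : C.Ty2 p) (h : C.Z2 (Gv p) c) (h1 : c (sig p) = 0) (h2 : C.sy c p = 0) :
    ∃ S : C.A, 2 • S = 0 ∧ ∀ g ∈ Gv p, c g = C.act g S - S := by
  rcases (C.ep_T_eq_zero _).1 h2 with h3 | h3
  · exact ⟨0, nsmul_zero 2, fun g hg => by rw [h.dec hp.1 h1 h3 g hg, map_zero, sub_zero]⟩
  · obtain ⟨S, hS, e⟩ := C.exists_sub hp.2
    refine ⟨S, hS, fun g hg => sub_eq_zero.1 ((h.sub (z2_cob _ hS)).dec hp.1 ?_ ?_ g hg)⟩
    · rw [Pi.sub_apply, h1, hp.1.act_ine (sig_ine hp.1.1 hp.1.ne_two) hS, sub_self, sub_self]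
    · rw [Pi.sub_apply, h3, e, sub_self]

theorem Z2.cob_cc (h : C.Z2 (Subgroup.zpowers B2.cc) c) :
    ∃ S : C.A, 2 • S = 0 ∧ ∀ g ∈ Subgroup.zpowers B2.cc, c g = C.act g S - S := by
  have hc := Subgroup.mem_zpowers B2.cc
  have key : ∃ S : C.A, 2 • S = 0 ∧ c B2.cc = C.act B2.cc S - S := by
    rcases C.tors2 (h.two _ hc) with h1 | ⟨i, h1⟩
    · exact ⟨0, nsmul_zero 2, by rw [h1, map_zero, sub_zero]⟩
    · obtain ⟨t, ht⟩ := C.pm_isCC B2.isCC_cc
      obtain ⟨S, hS, e⟩ := C.exists_sub ht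
      have h2 := h.coc _ hc _ hc
      rw [B2.cc_mul_cc, h.one, h1, act_T, ← C.T_add_self i] at h2
      exact ⟨S, hS, by rw [h1, e, (ht i).1 (C.T_inj (add_left_cancel h2)).symm]⟩
  obtain ⟨S, hS, e⟩ := key
  refine ⟨S, hS, fun g hg => ?_⟩
  rcases loc_Gv0 (Gv_zero ▸ hg) with rfl | rfl
  · rw [h.one, act_one, sub_self]
  · exact e

theorem sy_add (hp : p.Prime) (h2 : p ≠ 2) (h : C.Z2 (Gv p) c) (h' : C.Z2 (Gv p) c') :
    C.sy (c + c') p = C.sy c p + C.sy c' p :=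
  C.ep_add_left (h.two _ (frb_mem hp h2)) (h'.two _ (frb_mem hp h2)) (C.two_T _)

theorem sy_cob (hp : C.Ty2 p) {S : C.A} (hS : 2 • S = 0) :
    C.sy (fun g => C.act g S - S) p = 0 := by
  have e := C.ep_act (frb p) S (C.T (C.tp p))
  rw [act_T, hp.fix] at e
  rw [sy, sub_eq_add_neg, C.neg_two hS, C.ep_add_left (C.two_act _ hS) hS (C.two_T _), e]
  exact CharTwo.add_self_eq_zero _

/-- The automorphisms that fix all roots. -/
def Kpm (C : Cv) : Subgroup GQ where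
  carrier := {g | ∀ i, C.pm g i = i}
  one_mem' := C.pm_one
  mul_mem' := fun h h' i => by rw [pm_mul, h' i, h i]
  inv_mem' := fun {g} h i => by
    have e := C.inv_pm g i
    rwa [h i] at e

theorem op_Kpm (C : Cv) : B2.Op C.Kpm := by
  obtain ⟨U, u1, -, u3⟩ := C.sm_pm ⊤
  refine Subgroup.isOpen_mono (H₁ := U) (fun g hg i => ?_) u1
  rw [← u3 1 trivial g trivial (by simpa using hg), pm_one]

theorem tc_Kpm (C : Cv) : B2.TC C.Kpm := fun g hg k => by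
  obtain ⟨t, ht⟩ := C.pm_isCC hg
  exact absurd (((ht 0).1 (k 0)).trans ((ht 1).1 (k 1)).symm) (by decide)

/-- The characters attached to a cocycle on a group that fixes the roots. -/
theorem Z2.hom (h : C.Z2 H c) (k : H ≤ C.Kpm) (i : Fin 3) :
    B2.Sm H (fun g => C.ep (c g) (C.T i)) ∧ B2.IsHom H fun g => C.ep (c g) (C.T i) :=
  ⟨h.sm.comp fun P => C.ep P (C.T i), fun a ha b hb => by
    beta_reduce
    rw [h.coc a ha b hb, act_of_pm (k ha) (h.two b hb),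
      C.ep_add_left (h.two a ha) (h.two b hb) (C.two_T i)]⟩

theorem Z2.of_pm (h : C.Z2 H c) (k : ∀ g ∈ C.Kpm ⊓ H, c g = 0) {a b : GQ} (ha : a ∈ H) (hb : b ∈ H)
    (e : ∀ i, C.pm a i = C.pm b i) (h0 : c a = 0) : c b = 0 := by
  have h1 := mul_mem (inv_mem ha) hb
  have h2 := h.coc a ha _ h1
  rwa [mul_inv_cancel_left, h0, k _ ⟨fun i => by rw [pm_mul, ← e, inv_pm], h1⟩, map_zero,
    add_zero] at h2

/-- Finitely many elements detect finitely many characters. -/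
theorem test_of_finite (h : Finite (B2.Z1 H B2.tr)) : ∃ t : Finset GQ, (∀ g ∈ t, g ∈ H) ∧
    ∀ χ : GQ → F2, B2.Sm H χ → B2.IsHom H χ → (∀ g ∈ t, χ g = 0) → ∀ g ∈ H, χ g = 0 := by
  have key : ∀ z : B2.Z1 H B2.tr, ∃ g ∈ H, z.1 g = 0 → ∀ k ∈ H, z.1 k = 0 := fun z => by
    by_cases e : ∀ k ∈ H, z.1 k = 0
    · exact ⟨1, H.one_mem, fun _ => e⟩
    · obtain ⟨k, e⟩ := not_forall.1 e
      obtain ⟨e1, e2⟩ := Classical.not_imp.1 e
      exact ⟨k, e1, fun e3 => absurd e3 e2⟩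
  choose f h1 h2 using key
  have := Fintype.ofFinite (B2.Z1 H B2.tr)
  refine ⟨univ.image f, fun g hg => ?_, fun χ a b k g hg => ?_⟩
  · obtain ⟨z, -, rfl⟩ := mem_image.1 hg
    exact h1 z
  · let z : B2.Z1 H B2.tr := ⟨_, B2.rs_mem_Z1 (B2.coc_tr.2 ⟨a, b⟩)⟩
    exact (B2.rs_of_mem hg _).symm.trans (h2 z ((B2.rs_of_mem (h1 z) _).trans
      (k _ (mem_image_of_mem f (mem_univ z)))) g hg)

theorem exists_TS (C : Cv) : ∃ t : Finset GQ, ∀ v : ℕ, v.Prime → v ≤ C.N0 →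
    (∀ c, C.Z2 (Gv v) c → (∀ g ∈ t, g ∈ Gv v → c g = 0) → ∀ g ∈ Gv v, c g = 0) ∧
      ∀ d : ℤ, (∀ g ∈ t, g ∈ Gv v → chi d g = 0) → ∀ g ∈ Gv v, chi d g = 0 := by
  have key : ∀ v : ℕ, ∃ t : Finset GQ, v.Prime →
      (∀ c, C.Z2 (Gv v) c → (∀ g ∈ t, g ∈ Gv v → c g = 0) → ∀ g ∈ Gv v, c g = 0) ∧
        ∀ d : ℤ, (∀ g ∈ t, g ∈ Gv v → chi d g = 0) → ∀ g ∈ Gv v, chi d g = 0 := by
    intro v
    obtain ⟨t1, a1, b1⟩ := test_of_finite (B2.finite_Z1_tr C.op_Kpm (pl v))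
    obtain ⟨t2, a2, b2⟩ := test_of_finite (B2.finite_Z1_tr (H := ⊤) isOpen_univ (pl v))
    let r : (Fin 3 → Fin 3) → GQ := fun f =>
      if e : ∃ g ∈ Dec (pl v), C.pm g = f then e.choose else 1
    refine ⟨t1 ∪ t2 ∪ univ.image r, fun hv => ?_⟩
    rw [Gv_prime hv]
    refine ⟨fun c hc k g hg => ?_, fun d k g hg => b2 _ ((lc_chi d).mono le_top)
      (fun a _ b _ => chi_mul_g d a b) (fun a ha => k a
        (mem_union_left _ (mem_union_right _ ha)) (a2 a ha).2) g ⟨trivial, hg⟩⟩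
    have h1 : ∀ g ∈ C.Kpm ⊓ Dec (pl v), c g = 0 := fun g hg => C.eq_zero_of_ep fun i =>
      b1 _ ((hc.mono inf_le_right).hom inf_le_left i).1 ((hc.mono inf_le_right).hom inf_le_left i).2
        (fun a ha => by
          rw [k a (mem_union_left _ (mem_union_left _ ha)) (a1 a ha).2, ep_zero_left]) g hg
    have e : ∃ g' ∈ Dec (pl v), C.pm g' = C.pm g := ⟨g, hg, rfl⟩
    have e1 : r (C.pm g) = e.choose := dif_pos e
    obtain ⟨e2, e3⟩ := e.choose_spec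
    rw [← e1] at e2 e3
    exact hc.of_pm h1 e2 hg (congrFun e3)
      (k _ (mem_union_right _ (mem_image_of_mem r (mem_univ _))) e2)
  choose t ht using key
  refine ⟨(range (C.N0 + 1)).biUnion t, fun v hv h0 => ?_⟩
  have h1 : ∀ g ∈ t v, g ∈ (range (C.N0 + 1)).biUnion t := fun g hg =>
    mem_biUnion.2 ⟨v, mem_range.2 (Nat.lt_succ_of_le h0), hg⟩
  exact ⟨fun c hc k => (ht v hv).1 c hc fun g hg => k g (h1 g hg),
    fun d k => (ht v hv).2 d fun g hg => k g (h1 g hg)⟩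

/-- Test elements for the bad primes. -/
noncomputable def TS (C : Cv) : Finset GQ := C.exists_TS.choose

theorem TS_coc {v : ℕ} (hv : v.Prime) (h0 : v ≤ C.N0) (h : C.Z2 (Gv v) c)
    (k : ∀ g ∈ C.TS, g ∈ Gv v → c g = 0) : ∀ g ∈ Gv v, c g = 0 :=
  (C.exists_TS.choose_spec v hv h0).1 c h k

theorem TS_chi {v : ℕ} (hv : v.Prime) (h0 : v ≤ C.N0) {d : ℤ}
    (k : ∀ g ∈ C.TS, g ∈ Gv v → chi d g = 0) : ∀ g ∈ Gv v, chi d g = 0 :=
  (C.exists_TS.choose_spec v hv h0).2 d k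

theorem sa2_perm : ∀ f : Fin 3 → Fin 3, Injective f → (∀ i, f i ≠ i) →
    (∀ i, i + 1 = f i) ∨ ∀ i, i + 1 + 1 = f i := by
  decide

/-- A normalised cocycle is determined by its restriction to the group that fixes the roots. -/
theorem Z2.eq_zero (h : C.Z2 ⊤ c) (h0 : c C.g0 = 0) (k : ∀ g ∈ C.Kpm, c g = 0) (g : GQ) :
    c g = 0 := by
  have k1 : ∀ g ∈ C.Kpm ⊓ ⊤, c g = 0 := fun g hg => k g hg.1
  have h1 : c (g⁻¹ * C.g0 * g) = 0 := by
    rcases sa2_perm _ (C.pm_inj (g⁻¹ * C.g0 * g)) (fun i e => by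
      have e1 := congrArg (C.pm g) e
      rw [pm_mul, pm_mul, pm_inv, pm_g0] at e1
      exact absurd e1 (by generalize C.pm g i = j; revert j; decide)) with e | e
    · exact h.of_pm k1 trivial trivial (fun i => by rw [pm_g0, e]) h0
    · exact h.of_pm (a := C.g0 * C.g0) k1 trivial trivial (fun i => by rw [pm_mul, pm_g0, pm_g0, e])
        (by rw [h.coc _ trivial _ trivial, h0, map_zero, add_zero])
  have h2 := h.coc g trivial (g⁻¹ * C.g0 * g) trivial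
  rw [h1, map_zero, add_zero, mul_assoc, mul_inv_cancel_left, h.coc _ trivial _ trivial, h0,
    zero_add] at h2
  exact C.g0_fix (n := 1) (h.two g trivial) h2

theorem finite_U (C : Cv) (hD : D ≠ 0) : Finite (C.U D) := by
  obtain ⟨s, -, -, hs⟩ := B2.exists_reps C.op_Kpm (range (C.N0 + 1) ∪ D.natAbs.primeFactors)
  have := finH C.op_Kpm C.tc_Kpm s
  let f : C.U D → Fin 3 → B2.Zu C.Kpm B2.tr s := fun c i =>
    ⟨_, B2.rs_mem_Z1 (B2.coc_tr.2 ((c.2.1.mono le_top).hom le_rfl i)), fun w hw σ hσ => by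
      have h1 : w.p ∉ range (C.N0 + 1) ∪ D.natAbs.primeFactors := fun k => hs w k hw
      rw [notMem_union, mem_range, not_lt] at h1
      have h2 : C.Gp w.p := ⟨w.prime, h1.1⟩
      have h3 : ¬ (w.p : ℤ) ∣ D := fun k => h1.2 (Nat.mem_primeFactors.2
        ⟨w.prime, Int.natCast_dvd.1 k, Int.natAbs_ne_zero.2 hD⟩)
      refine (B2.rs_of_mem hσ.1 _).trans ?_
      rw [(c.2.1.ine_all h2 (c.2.2.2 _ h2 h3) rfl σ hσ.2).1, ep_zero_left]⟩
  refine Finite.of_injective f fun c c' e => Subtype.ext (funext fun g => sub_eq_zero.1 ?_)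
  have h := (c - c').2
  refine h.1.eq_zero h.2.1 (fun g hg => sub_eq_zero.2 ?_) g
  rw [← C.pr_ep (c.2.1.two g trivial), ← C.pr_ep (c'.2.1.two g trivial)]
  refine congrArg C.pr (funext fun i => ?_)
  exact (B2.rs_of_mem hg _).symm.trans
    ((congrFun (congrArg Subtype.val (congrFun e i)) g).trans (B2.rs_of_mem hg _))

theorem card_U (C : Cv) (hD : D ≠ 0) :
    Nat.card (C.U D) ≤ Nat.card (C.U 1) * 4 ^ D.natAbs.primeFactors.card := by
  let f : C.U D →+ (D.natAbs.primeFactors → C.A) :=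
    { toFun := fun c q => c.1 (sig q)
      map_zero' := rfl
      map_add' := fun _ _ => rfl }
  rw [B2.card_ker_range f]
  refine Nat.mul_le_mul ?_ ?_
  · have := C.finite_U one_ne_zero
    refine Nat.card_le_card_of_injective (fun c : f.ker => (⟨c.1.1, c.1.2.1, c.1.2.2.1,
      fun q h1 _ => ?_⟩ : C.U 1)) fun c c' e => Subtype.ext (Subtype.ext ?_)
    · by_cases k : (q : ℤ) ∣ D
      · exact congrFun c.2 ⟨q, Nat.mem_primeFactors.2
          ⟨h1.1, Int.natCast_dvd.1 k, Int.natAbs_ne_zero.2 hD⟩⟩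
      · exact c.1.2.2.2 q h1 k
    · exact Subtype.mk.inj e
  · have := (C.finite_tors 1).to_subtype
    refine (Nat.card_le_card_of_injective (fun x : f.range => fun q =>
      (⟨x.1 q, ?_⟩ : {P : C.A | 2 ^ 1 • P = 0})) fun x y e => Subtype.ext (funext fun q => ?_)).trans
      (le_of_eq ?_)
    · obtain ⟨_, c, rfl⟩ := x
      exact c.2.1.two _ trivial
    · exact congrArg Subtype.val (congrFun e q)
    · rw [Nat.card_fun, Nat.card_coe_set_eq, card_tors, pow_one, Nat.card_eq_fintype_card,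
        Fintype.card_coe]

end Cv

end Pool.Agent.B6.S
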