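import Pool.Agent.Lib.MP_696deb_nt.B6.SA3

/-! The images of local points are isotropic. -/

set_option autoImplicit false

open scoped Classical
open Finset Function

namespace Pool.Agent.B6.S

open Pool.Agent.Lib.MP_696deb_nt Pool.Agent.Lib.MP_696deb_nt.Sm

namespace Cv

variable {C : Cv} {H : Subgroup GQ} {u b : GQ → C.A} {v : ℕ} {D : ℤ} {S S' : C.A}

/-- The scalars of the theta group. -/
noncomputable def lam (C : Cv) : C.A → C.A → Qb
  | .zero, _ => 1
  | .some _ _ _, .zero => 1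
  | .some e _ _, .some x _ _ => if x = e then 3 * e ^ 2 + 2 * C.a * e + C.b else x - e

theorem lam_zero (P : C.A) : C.lam 0 P = 1 := rfl

theorem lam_zero' (S : C.A) : C.lam S 0 = 1 := by
  rcases S with _ | _ <;> rfl

theorem lam_T (i : Fin 3) {x y : Qb} (h : C.NS x y) : C.lam (C.T i) (.some x y h) =
    if x = C.e i then 3 * C.e i ^ 2 + 2 * C.a * C.e i + C.b else x - C.e i := rfl

theorem lam_act (g : GQ) (S P : C.A) : C.lam (C.act g S) (C.act g P) = g (C.lam S P) := by
  rcases S with _ | ⟨e, y, hS⟩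
  · rw [← WeierstrassCurve.Affine.Point.zero_def, map_zero, lam_zero, lam_zero, map_one]
  rcases P with _ | ⟨x, z, hP⟩
  · rw [← WeierstrassCurve.Affine.Point.zero_def, map_zero, lam_zero', lam_zero', map_one]
  obtain ⟨_, e1⟩ := C.act_some g hS
  obtain ⟨_, e2⟩ := C.act_some g hP
  rw [e1, e2]
  simp only [lam, g.injective.eq_iff]
  split_ifs <;> simp [map_ofNat]

theorem lam_neg (S P : C.A) : C.lam S (-P) = C.lam S P := by
  rcases S with _ | _ <;> rcases P with _ | _ <;> rfl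

theorem lam_tw (g : GQ) (S P : C.A) : C.lam (C.act g S) (C.tw D g P) = g (C.lam S P) := by
  rw [← lam_act, tw]
  rcases F2_cases (chi D g) with h | h <;> rw [h]
  · rw [sn_zero, one_zsmul]
  · rw [sn_one, neg_one_zsmul, lam_neg]

theorem der {e1 e2 e3 : Qb} (h : Split (C.W Qb) e1 e2 e3) :
    3 * e1 ^ 2 + 2 * C.a * e1 + C.b = (e1 - e2) * (e1 - e3) := by
  have h1 : (C.a : Qb) = _ := h.a2
  have h2 : (C.b : Qb) = _ := h.a4
  rw [h1, h2]
  ring

theorem split' {i j k : Fin 3} (h1 : i ≠ j) (h2 : i ≠ k) (h3 : j ≠ k) :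
    Split (C.W Qb) (C.e i) (C.e j) (C.e k) := by
  have : (j = i + 1 ∧ k = i + 2) ∨ (j = i + 2 ∧ k = i + 1) := by revert i j k; decide
  rcases this with ⟨rfl, rfl⟩ | ⟨rfl, rfl⟩
  exacts [C.split i, (C.split i).swap23]

theorem eq_T {i : Fin 3} {y : Qb} (h : C.NS (C.e i) y) : .some _ y h = C.T i := by
  have := ((C.split i).nonsingular_iff _ y).mp h
  rw [sub_self, zero_mul, zero_mul] at this
  exact ell_ext rfl ((pow_eq_zero_iff two_ne_zero).mp this)

theorem lam_ne (h : 2 • S = 0) (P : C.A) : C.lam S P ≠ 0 := by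
  rcases C.tors2 h with rfl | ⟨i, rfl⟩
  · exact one_ne_zero
  rcases P with _ | ⟨x, y, hP⟩
  · exact one_ne_zero
  rw [lam_T]
  split_ifs with e
  · rw [der (C.split i)]
    exact mul_ne_zero (sub_ne_zero.2 (C.split i).h12) (sub_ne_zero.2 (C.split i).h13)
  · exact sub_ne_zero.2 e

theorem lam_TT (i j : Fin 3) : C.lam (C.T i) (C.T j) =
    if j = i then 3 * C.e i ^ 2 + 2 * C.a * C.e i + C.b else C.e j - C.e i :=
  (lam_T i _).trans (if_congr C.e_inj.eq_iff rfl rfl)

theorem lam_comm (h : 2 • S = 0) (h' : 2 • S' = 0) :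
    C.lam S' S = sn (C.ep S S') * C.lam S S' := by
  rcases C.tors2 h with rfl | ⟨i, rfl⟩
  · simp [ep_zero_left, lam_zero, lam_zero', sn_zero]
  rcases C.tors2 h' with rfl | ⟨j, rfl⟩
  · simp [ep_zero_right, lam_zero, lam_zero', sn_zero]
  rcases eq_or_ne i j with rfl | e
  · simp [ep_self, sn_zero]
  · simp [ep_T, lam_TT, e, e.symm, sn_one]

/-- The relation that defines the theta group. -/
theorem lam_add (h : 2 • S = 0) (h' : 2 • S' = 0) (P : C.A) :
    C.lam S (P + S') * C.lam S' P = C.lam S S' * C.lam (S + S') P := by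
  rcases C.tors2 h with rfl | ⟨i, rfl⟩
  · rw [lam_zero, lam_zero, zero_add]
  rcases C.tors2 h' with rfl | ⟨j, rfl⟩
  · rw [lam_zero, lam_zero', add_zero, add_zero, mul_comm]
  rcases P with _ | ⟨x, y, hP⟩
  · rw [← WeierstrassCurve.Affine.Point.zero_def, zero_add, lam_zero', lam_zero']
  rcases eq_or_ne i j with rfl | e
  · rw [T_add_self, lam_zero]
    by_cases hx : x = C.e i
    · subst hx
      rw [eq_T hP, T_add_self, lam_zero', mul_comm]
    obtain ⟨x', y', hP', e1, f1, -⟩ := (C.split i).add_T hP hx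
    have hx' : x' ≠ C.e i := fun k => by
      rw [k, sub_self, zero_mul] at f1
      exact mul_ne_zero (sub_ne_zero.2 (C.split i).h12) (sub_ne_zero.2 (C.split i).h13) f1.symm
    rw [show _ + C.T i = _ from e1, lam_T, lam_T, lam_TT, if_neg hx, if_neg hx', if_pos rfl, f1,
      der (C.split i), mul_one]
  obtain ⟨k, k1, k2⟩ : ∃ k, i ≠ k ∧ j ≠ k := by clear h h' e; revert i j; decide
  have s := split' (C := C) e.symm k2 k1
  rw [C.T_add_ne e k1 k2, lam_TT, if_neg e.symm]
  by_cases hx : x = C.e j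
  · subst hx
    rw [eq_T hP, T_add_self, lam_zero', lam_TT, lam_TT, if_pos rfl, if_neg k2, der s, one_mul]
  obtain ⟨x', y', hP', e1, -, f2, -⟩ := s.add_T hP hx
  rw [show _ + C.T j = _ from e1, lam_T, lam_T, lam_T, if_neg hx]
  by_cases hx' : x' = C.e i
  · have hk : x = C.e k := by
      rw [hx', sub_self, zero_mul] at f2
      exact sub_eq_zero.1 ((mul_eq_zero.1 f2.symm).resolve_left (sub_ne_zero.2 s.h12))
    rw [if_pos hx', if_pos hk, der s.swap12, der s.swap13, hk]
    ring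
  · rw [if_neg hx', if_neg fun hk => ?_, f2]
    rw [hk, sub_self, mul_zero] at f2
    exact mul_ne_zero (sub_ne_zero.2 hx') (sub_ne_zero.2 s.h13.symm) f2

theorem lam_four {s t s' t' : C.A} (hs : 2 • s = 0) (hs' : 2 • s' = 0) (ht' : 2 • t' = 0) :
    C.lam s t * C.lam s' t' * C.lam (s' + t') (s + t) =
      sn (C.ep s t') * (C.lam s' s * C.lam t' t * C.lam (s + s') (t + t')) := by
  have h1 := lam_add hs' ht' (s + t)
  have h2 := lam_add ht' hs t
  have h3 := lam_add hs' hs (t + t')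
  have h4 := lam_add hs ht' t
  rw [add_comm t s, add_comm t' s, lam_comm hs ht'] at h2
  rw [add_comm s' s, show t + t' + s = s + t + t' by abel] at h3
  linear_combination (-C.lam s t) * h1 + C.lam s' (s + t + t') * h2 +
    sn (C.ep s t') * C.lam t' t * h3 - sn (C.ep s t') * C.lam s' (s + t + t') * h4

theorem lam_coc (h : C.Z2 H u) {P : C.A} (hP : ∀ g ∈ H, u g = C.cob D P g) {g k : GQ}
    (hg : g ∈ H) (hk : k ∈ H) : C.lam (u g) P * g (C.lam (u k) P) =
      C.lam (C.act g (u k)) (u g) * C.lam (u (g * k)) P := by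
  rw [← lam_tw (D := D), show C.tw D g P = P + u g by rw [hP g hg, cob, add_sub_cancel], mul_comm,
    lam_add (C.two_act g (h.two k hk)) (h.two g hg), h.coc g hg k hk, add_comm]

theorem spl_iso (hH : IsClosed (H : Set GQ)) (h : C.Z2 H u) (k : C.Z2 H b) {P Q : C.A}
    (hP : ∀ g ∈ H, u g = C.cob D P g) (hQ : ∀ g ∈ H, b g = C.cob D Q g) :
    B2.Spl 1 H (C.cu u b) := by
  let φ : C.A → C.A → Qb := fun s t =>
    C.lam s t * C.lam (s + t) (P + Q) / (C.lam s P * C.lam t Q)
  have z : ∀ x : F2, B2.zeta 1 ^ x.val = (sn x : Qb) := fun x => by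
    rcases F2_cases x with rfl | rfl <;> simp [sn_zero, sn_one, B2.zeta, ZMod.val_one]
  have n := fun g hg => lam_ne (h.two g hg)
  have n' := fun g hg => lam_ne (k.two g hg)
  have e : ∀ g ∈ H, (if φ (u g) (b g) = 0 then 1 else φ (u g) (b g)) = φ (u g) (b g) :=
    fun g hg => if_neg (div_ne_zero (mul_ne_zero (n g hg _) (lam_ne ((h.add k).two g hg) _))
      (mul_ne_zero (n g hg _) (n' g hg _)))
  refine (B2.spl_iff hH (c2_cu h k)).2 ⟨fun g => if φ (u g) (b g) = 0 then 1 else φ (u g) (b g),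
    h.sm.comp₂ k.sm fun s t => if φ s t = 0 then 1 else φ s t, fun g => ?_, fun g hg l hl => ?_⟩
  · beta_reduce
    split_ifs with c
    exacts [one_ne_zero, c]
  have gl := mul_mem hg hl
  have h1 := lam_coc h hP hg hl
  have h2 := lam_coc k hQ hg hl
  have h3 := lam_coc (D := D) (h.add k) (P := P + Q)
    (fun g hg => by rw [cob_add, Pi.add_apply, Pi.add_apply, hP g hg, hQ g hg]) hg hl
  have h4 := lam_four (t := b g) (h.two g hg) (C.two_act g (h.two l hl))
    (C.two_act g (k.two l hl))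
  rw [← h.coc g hg l hl, ← k.coc g hg l hl, lam_act] at h4
  simp only [Pi.add_apply, map_add] at h3
  have m1 := lam_ne (C.two_act g (h.two l hl)) (u g)
  have m2 := lam_ne (C.two_act g (k.two l hl)) (b g)
  beta_reduce
  rw [e g hg, e l hl, e _ gl, z, cu]
  simp only [φ, map_div₀, map_mul]
  rw [div_mul_div_comm, mul_mul_mul_comm (C.lam (u g) P), h1, h2,
    mul_mul_mul_comm (C.lam (u g) (b g)), h3, ← mul_assoc, h4]
  have := n _ gl P
  have := n' _ gl Q
  field_simp

theorem Bv_iso (hv : v.Prime) (h : C.Z2 (Gv v) u) (k : C.Z2 (Gv v) b) (hu : C.Loc v D u)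
    (hb : C.Loc v D b) : C.Bv v u b = 0 := by
  obtain ⟨P, hP⟩ := hu
  obtain ⟨Q, hQ⟩ := hb
  exact (Bv_eq_zero hv h k).2 (spl_iso (Gv_prime hv ▸ B2.closed_Dec _) h k hP hQ)

end Cv

end Pool.Agent.B6.S
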