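import Pool.Agent.Lib.MP_696deb_nt.B6.SA4
import Pool.Agent.Lib.MP_696deb_nt.Sm.EllC

/-! The local conditions at good primes. -/

set_option autoImplicit false

open scoped Classical
open Finset Function

namespace Pool.Agent.B6.S

open Pool.Agent.Lib.MP_696deb_nt Pool.Agent.Lib.MP_696deb_nt.Sm

theorem sa5_bit {p : ℕ} (hp : p.Prime) (h2 : p ≠ 2) {e1 e2 e3 : Qb} (f : Fx (Iv p) e1)
    (u12 : nrm p (e1 - e2) = 1) (u13 : nrm p (e1 - e3) = 1) {x y : Qb} (hx : Fx (Iv p) x)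
    (hy : Fx (Iv p) y) (h : y ^ 2 = (x - e1) * (x - e2) * (x - e3)) (h0 : x - e1 ≠ 0) :
    ∀ g ∈ Iv p, chB (x - e1) g = 0 := by
  intro g hg
  have f1 := fx_sub hx f
  have v0 : nrm p (x - e1) ≠ 0 := (Valuation.ne_zero_iff _).2 h0
  have k : ∀ e : Qb, x - e = (x - e1) + (e1 - e) := fun e => by ring
  have e := congrArg (nrm p) h
  rw [map_mul, map_mul, map_pow] at e
  obtain ⟨z, hz, hv⟩ : ∃ z, Fx (Iv p) z ∧ nrm p (x - e1) = nrm p z ^ 2 := by
    rcases lt_trichotomy (nrm p (x - e1)) 1 with c | c | c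
    · refine ⟨y, hy, ?_⟩
      rw [e, k e2, k e3, (nrm p).map_add_eq_of_lt_right (by rwa [u12]),
        (nrm p).map_add_eq_of_lt_right (by rwa [u13]), u12, u13, mul_one, mul_one]
    · exact ⟨1, fun k _ => map_one k, by rw [c, map_one, one_pow]⟩
    · refine ⟨y / (x - e1), fx_div hy f1, ?_⟩
      rw [map_div₀, div_pow, e, k e2, k e3, (nrm p).map_add_eq_of_lt_left (by rwa [u12]),
        (nrm p).map_add_eq_of_lt_left (by rwa [u13]), mul_assoc, ← sq,
        mul_div_cancel_right₀ _ (pow_ne_zero 2 v0)]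
  have z0 : z ≠ 0 := by
    rintro rfl
    exact v0 (by simp [hv])
  obtain ⟨j, hj⟩ := nrm_fx hp hz z0
  rw [hj, inv_pow, ← zpow_natCast, ← zpow_mul] at hv
  rw [chB_ine hp h2 hg (f1 g hg) hv]
  push_cast
  rw [show (2 : F2) = 0 from rfl, mul_zero, zero_mul]

namespace Cv

variable {C : Cv} {c : GQ → C.A} {p : ℕ} {D : ℤ}

theorem half_fix (hp : C.Gp p) {Q : C.A} (h : ∀ g ∈ Iv p, C.act g (2 • Q) = 2 • Q) :
    ∀ g ∈ Iv p, C.act g Q = Q := by
  intro g hg
  have h2 := hp.ne_two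
  have hS : 2 • (C.act g Q - Q) = 0 := by rw [smul_sub, ← map_nsmul, h g hg, sub_self]
  rcases C.tors2 hS with e | ⟨i, e⟩
  · exact sub_eq_zero.1 e
  rcases hQ : 2 • Q with _ | ⟨x, y, hn⟩
  · exact hp.act_ine hg hQ
  exfalso
  have h0 : 2 • Q ≠ 0 := hQ ▸ WeierstrassCurve.Affine.Point.some_ne_zero _
  have hf : ∀ k ∈ Iv p, k x = x ∧ k y = y := by
    intro k hk
    obtain ⟨h', e⟩ := C.act_some k hn
    have h3 := h k hk
    rw [hQ, e] at h3
    exact WeierstrassCurve.Affine.Point.some.inj h3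
  have hx : Fx (Iv p) x := fun k hk => (hf k hk).1
  have hy : Fx (Iv p) y := fun k hk => (hf k hk).2
  have fe : ∀ j, Fx (Iv p) (C.e j) := fun j k hk => by rw [C.e_pm, hp.pm_ine hk]
  have hs : ∀ j, ell_s (C.W Qb) (C.e j) (C.act g Q) = g (ell_s (C.W Qb) (C.e j) Q) := fun j => by
    rcases Q with _ | ⟨u, w, hR⟩
    · exact absurd (nsmul_zero 2) h0
    · obtain ⟨k, e'⟩ := C.act_some g hR
      rw [e', ell_s_some, ell_s_some]
      simp [W, map_ofNat, fe j g hg]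
  rw [sub_eq_iff_eq_add'] at e
  have k : ∀ j, x - C.e j ≠ 0 →
      ell_s (C.W Qb) (C.e j) (Q + C.T i) = -ell_s (C.W Qb) (C.e j) Q → False := fun j k k' => by
    have k1 : chB (x - C.e j) g = 1 := chB_eq k (ell_sq (C.split j) hQ) (by
      rw [← hs, e, k', sn_one, Int.cast_neg, Int.cast_one, neg_one_mul])
    have n : ∀ j : Fin 3, j ≠ j + 1 ∧ j ≠ j + 2 := by decide
    rw [sa5_bit hp.1 h2 (fe j) (hp.nrm_sub (n j).1) (hp.nrm_sub (n j).2) hx hy
      (((C.split j).nonsingular_iff x y).1 hn) k g hg] at k1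
    exact absurd k1 (by decide)
  by_cases c1 : x - C.e (i + 1) = 0
  · refine k (i + 2) ?_ (ell_add_T (C.split i).swap23 h0).2
    rw [sub_eq_zero.1 c1]
    exact sub_ne_zero.2 (C.split i).h23
  · exact k (i + 1) c1 (ell_add_T (C.split i) h0).2

theorem loc_good (hp : C.Gp p) (hD : ¬ (p : ℤ) ∣ D) {n : ℕ} (hn : ∀ g, 2 ^ n • c g = 0)
    (h : C.Loc p D c) : c (sig p) = 0 := by
  have h2 := hp.ne_two
  obtain ⟨Q, hQ⟩ := h
  have h1 : ∀ g ∈ Iv p, c g = C.act g Q - Q := fun g hg => by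
    rw [hQ g (Iv_le hp.1 hg), cob, tw, chi_ine_of_not_dvd hp.1 h2 hD g hg, sn_zero, one_smul]
  have h3 : ∀ (m : ℕ) (P : C.A), (∀ g ∈ Iv p, C.act g (2 ^ m • P) = 2 ^ m • P) →
      ∀ g ∈ Iv p, C.act g P = P := by
    intro m
    induction m with
    | zero => exact fun P hP g hg => by simpa using hP g hg
    | succ m ih =>
      exact fun P hP => half_fix hp (ih (2 • P) fun g hg => by
        rw [← mul_smul, ← pow_succ, hP g hg])
  rw [h1 _ (sig_ine hp.1 h2), h3 n Q (fun g hg => ?_) _ (sig_ine hp.1 h2), sub_self]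
  have h4 := hn g
  rw [h1 g hg, smul_sub, ← map_nsmul] at h4
  exact sub_eq_zero.1 h4

/-- The ramification bit of a cocycle. -/
noncomputable def rm (C : Cv) (c : GQ → C.A) (p : ℕ) : F2 := if c (sig p) = 0 then 0 else 1

/-- A half of a point. -/
noncomputable def hf (C : Cv) (P : C.A) : C.A := (C.exists_half P).choose

theorem two_hf (P : C.A) : 2 • C.hf P = P := (C.exists_half P).choose_spec

/-- The symbol of the Kummer class of the rational point of order two. -/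
noncomputable def sp (C : Cv) (p : ℕ) : F2 := C.sy (C.cob p (C.hf (C.T (C.tp p)))) p

theorem Z2.sig_eq (hp : C.Ty2 p) (h : C.Z2 (Gv p) c) :
    c (sig p) = (C.rm c p).val • C.T (C.tp p) := by
  rcases h.sig_ty2 hp with e | e
  · rw [rm, if_pos e, e, ZMod.val_zero, zero_nsmul]
  · rw [rm, if_neg (e ▸ C.T_ne _), e, ZMod.val_one, one_nsmul]

theorem sa5_fix (hp : C.Ty2 p) : ∀ g ∈ Gv p, C.act g (C.T (C.tp p)) = C.T (C.tp p) :=
  hp.1.act_Gv (C.two_T _) (by rw [act_T, hp.fix])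

theorem sa5_z2 (hp : C.Ty2 p) (D : ℤ) : C.Z2 (Gv p) (C.cob D (C.hf (C.T (C.tp p)))) :=
  z2_cob_half fun g hg => by rw [two_hf, C.tw_two D g (C.two_T _), sa5_fix hp g hg]

theorem sa5_sig (hp : C.Ty2 p) (hD : padicValInt p D = 1) :
    C.cob D (C.hf (C.T (C.tp p))) (sig p) = C.T (C.tp p) := by
  have h2 := hp.1.ne_two
  have hD0 : D ≠ 0 := by
    rintro rfl
    simp at hD
  have h1 := half_fix (Q := C.hf (C.T (C.tp p))) hp.1
    (fun g hg => by rw [two_hf, sa5_fix hp g (Iv_le hp.1.1 hg)]) _ (sig_ine hp.1.1 h2)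
  rw [cob, tw, h1, chi_sig hp.1.1 h2 hD0, hD, Nat.cast_one, sn_one, neg_one_zsmul, sub_eq_add_neg,
    ← neg_add, ← two_nsmul, two_hf, C.neg_two (C.two_T _)]

theorem sa5_sy (hp : C.Ty2 p) (D : ℤ) : C.sy (C.cob D (C.hf (C.T (C.tp p)))) p = C.sp p := by
  have h2 := hp.1.ne_two
  have hm := frb_mem hp.1.1 h2
  by_cases e : chi D (frb p) = chi p (frb p)
  · rw [sp, sy, sy, cob, cob, tw, tw, e]
  have e1 : chi D (frb p) = 1 := by
    rw [chi_frb_self hp.1.1 h2] at e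
    exact (F2_cases _).resolve_left e
  have e2 : C.cob D (C.hf (C.T (C.tp p))) (frb p) =
      C.cob p (C.hf (C.T (C.tp p))) (frb p) + C.T (C.tp p) := by
    have e3 : C.T (C.tp p) = -(2 • C.act (frb p) (C.hf (C.T (C.tp p)))) := by
      rw [← map_nsmul, two_hf, sa5_fix hp _ hm, C.neg_two (C.two_T _)]
    rw [cob, cob, tw, tw, e1, chi_frb_self hp.1.1 h2, sn_one, sn_zero, neg_one_zsmul, one_zsmul]
    generalize C.hf (C.T (C.tp p)) = Q at e3
    rw [e3, two_nsmul]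
    abel
  rw [sp, sy, sy, e2, C.ep_add_left ((sa5_z2 hp p).two _ hm) (C.two_T _) (C.two_T _), ep_self,
    add_zero]

/-- The local condition at a prime of the second type that divides the twist. -/
theorem loc_iff (hp : C.Ty2 p) (hD : padicValInt p D = 1) (h : C.Z2 (Gv p) c) :
    C.Loc p D c ↔ C.sy c p = C.rm c p * C.sp p := by
  have h2 := hp.1.ne_two
  have hd := sa5_z2 hp D
  have h1 := h.sub (hd.smul (C.rm c p))
  have h3 : (c - (C.rm c p).val • C.cob D (C.hf (C.T (C.tp p)))) (sig p) = 0 := by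
    rw [Pi.sub_apply, Pi.smul_apply, sa5_sig hp hD, ← h.sig_eq hp, sub_self]
  have h4 := sy_add hp.1.1 h2 h1 (hd.smul (C.rm c p))
  have h5 : C.sy ((C.rm c p).val • C.cob D (C.hf (C.T (C.tp p)))) p = C.rm c p * C.sp p := by
    rw [sy, Pi.smul_apply, ep_smul_left, ← sa5_sy hp D, sy]
  rw [sub_add_cancel, h5] at h4
  constructor
  · intro k
    have k1 : C.Loc p D (c - (C.rm c p).val • C.cob D (C.hf (C.T (C.tp p)))) := by
      have := k.add ((C.loc_cob p D (C.hf (C.T (C.tp p)))).zsmul (-((C.rm c p).val : ℤ)))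
      rwa [neg_smul, natCast_zsmul, ← sub_eq_add_neg] at this
    have k2 := Bv_iso hp.1.1 h1 hd k1 (C.loc_cob p D _)
    rw [Bv_tame hp.1 h1 hd h3, sa5_sig hp hD] at k2
    rw [h4, sy, k2, zero_add]
  · intro k
    rw [k, eq_comm, add_eq_right] at h4
    obtain ⟨S, hS, k1⟩ := h1.cob_of_sy hp h3 h4
    refine ⟨S + (C.rm c p).val • C.hf (C.T (C.tp p)), fun g hg => ?_⟩
    rw [cob_add, cob_nsmul, Pi.add_apply, cob, C.tw_two D g hS, ← k1 g hg, Pi.sub_apply,
      sub_add_cancel]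

end Cv

end Pool.Agent.B6.S
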