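import Pool.Agent.Lib.MP_696deb_nt.B6.SK2

/-! Sums of reciprocals of the primes of a given type. -/

set_option autoImplicit false

open scoped Classical
open Finset Function

namespace Pool.Agent.B6.S

open Pool.Agent.Lib.MP_696deb_nt Pool.Agent.Lib.MP_696deb_nt.Sm

/-- The iterated logarithm. -/
noncomputable def LL (X : ℕ) : ℝ := Real.log (Real.log X)

/-- The sum of the reciprocals. -/
noncomputable def ms (P : Finset ℕ) : ℝ := ∑ p ∈ P, (1 / p : ℝ)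

/-- The integers of an interval with a property. -/
noncomputable def Wn (z X : ℕ) (P : ℕ → Prop) : Finset ℕ := (Ioc z X).filter P

theorem mem_Wn {z X p : ℕ} {P : ℕ → Prop} : p ∈ Wn z X P ↔ z < p ∧ p ≤ X ∧ P p := by
  simp only [Wn, mem_filter, mem_Ioc, and_assoc]

theorem ms_nonneg (P : Finset ℕ) : 0 ≤ ms P := sum_nonneg fun _ _ => by positivity

theorem ms_mono {P Q : Finset ℕ} (h : P ⊆ Q) : ms P ≤ ms Q :=
  sum_le_sum_of_subset_of_nonneg h fun _ _ _ => by positivity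

theorem ms_union (P Q : Finset ℕ) : ms (P ∪ Q) ≤ ms P + ms Q := by
  have h := sum_union_inter (s₁ := P) (s₂ := Q) (f := fun p => (1 / p : ℝ))
  have h1 := ms_nonneg (P ∩ Q)
  unfold ms at *
  linarith

theorem ms_le {P : Finset ℕ} {X : ℕ} (hX : 2 ≤ X) (hP : ∀ p ∈ P, p.Prime ∧ p ≤ X) :
    ms P ≤ LL X + 17 := by
  have h := mass_le hX hP (r := fun _ => 1) (g := 1) (K := 1) (fun _ => ⟨zero_le_one, le_rfl⟩)
    one_pos fun x => by
      simp only [prod_const_one, sum_const, nsmul_eq_mul, mul_one, one_mul, Nat.cast_le]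
      refine (card_le_card_of_injOn (t := Ioc 0 x) (fun S => ∏ p ∈ S, p) (fun S hS => ?_)
        fun S hS S' hS' e => ?_).trans (by simp)
      · obtain ⟨h1, h2⟩ := mem_filter.1 (mem_coe.1 hS)
        exact mem_coe.2 (mem_Ioc.2 ⟨prod_pos fun p hp => (hP p (mem_powerset.1 h1 hp)).1.pos, h2⟩)
      · have h1 := mem_powerset.1 (mem_filter.1 (mem_coe.1 hS)).1
        have h2 := mem_powerset.1 (mem_filter.1 (mem_coe.1 hS')).1
        rw [← Nat.primeFactors_prod fun p hp => (hP p (h1 hp)).1, ← Nat.primeFactors_prod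
          fun p hp => (hP p (h2 hp)).1]
        exact congrArg _ e
  rw [Real.log_one] at h
  exact h.trans_eq (by rw [LL]; ring)

theorem ms_win {z X : ℕ} (hz : 2 ≤ z) (hX : 2 ≤ X) :
    LL X - LL z - 18 ≤ ms (Wn z X Nat.Prime) := by
  have h1 := mass_ge hX
  have h2 := ms_le (P := (Ioc 0 z).filter Nat.Prime) hz fun p hp =>
    ⟨(mem_filter.1 hp).2, (mem_Ioc.1 (mem_filter.1 hp).1).2⟩
  have h3 := (ms_mono (P := (Ioc 0 X).filter Nat.Prime) fun p hp => by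
    simp only [mem_filter, mem_union, mem_Ioc, mem_Wn] at hp ⊢
    rcases le_or_gt p z with k | k
    · exact .inl ⟨⟨hp.1.1, k⟩, hp.2⟩
    · exact .inr ⟨k, hp.1.2, hp.2⟩).trans
    (ms_union ((Ioc 0 z).filter Nat.Prime) (Wn z X Nat.Prime))
  unfold ms LL at *
  linarith

/-- The mass bound for two disjoint kinds of primes with many fixed points. -/
theorem tc_ms {I : Type} [Fintype I] [Nonempty I] {t : I → Qb} {ac : GQ → I → I} {B : ℝ}
    (h : Tc t ac B) {z X : ℕ} (hz0 : 2 ≤ z) (hX : 2 ≤ X)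
    (hz : (Fintype.card I * B ^ Fintype.card I) ^ Fintype.card I ≤ z)
    (hz' : (2 * B) ^ Fintype.card I ^ 2 ≤ z) (P Q : ℕ → Prop) (a b : ℕ)
    (hP : ∀ p, P p → p.Prime ∧ ¬ Q p ∧ a ≤ #{i | ac (frb p) i = i})
    (hQ : ∀ p, Q p → p.Prime ∧ b ≤ #{i | ac (frb p) i = i}) :
    a * ms (Wn z X P) + b * ms (Wn z X Q) ≤
      LL X + (2 + 15 * Fintype.card I + 2 * Fintype.card I ^ 2) := by
  have hd : Disjoint (Wn z X P) (Wn z X Q) :=
    disjoint_left.2 fun p hp hq => (hP p (mem_Wn.1 hp).2.2).2.1 (mem_Wn.1 hq).2.2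
  refine le_trans ?_ (h.mass (P := Wn z X P ∪ Wn z X Q) (w := pl) (φ := frb)
    hX hz hz' fun p hp => ?_)
  · rw [sum_union hd, ms, ms, mul_sum, mul_sum]
    refine add_le_add (sum_le_sum fun p hp => ?_) (sum_le_sum fun p hp => ?_) <;>
      rw [mul_one_div] <;> refine div_le_div_of_nonneg_right (Nat.cast_le.2 ?_) p.cast_nonneg
    · exact (hP p (mem_Wn.1 hp).2.2).2.2
    · exact (hQ p (mem_Wn.1 hp).2.2).2
  · have k : p.Prime ∧ z < p ∧ p ≤ X := by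
      rcases mem_union.1 hp with k | k <;> rw [mem_Wn] at k
      · exact ⟨(hP p k.2.2).1, k.1, k.2.1⟩
      · exact ⟨(hQ p k.2.2).1, k.1, k.2.1⟩
    exact ⟨Nat.cast_lt.2 k.2.1, k.2.2, pl_p k.1, (frb_spec k.1 (by omega)).1⟩

namespace Cv

variable (C : Cv) {p : ℕ}

/-- Good primes whose Frobenius element fixes no root. -/
def Ty3 (p : ℕ) : Prop := C.Gp p ∧ ∀ i, C.pm (frb p) i ≠ i

theorem ty_cases (h : C.Gp p) : C.Ty1 p ∨ C.Ty2 p ∨ C.Ty3 p := by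
  rcases C.pm_cases (frb p) with k | k | k
  · exact .inl ⟨h, k⟩
  · exact .inr (.inl (C.ty2_iff.2 ⟨h, (C.chi_disc _).2 k⟩))
  · exact .inr (.inr ⟨h, k⟩)

theorem Ty1.not2 {C : Cv} (h : C.Ty1 p) : ¬ C.Ty2 p := fun k =>
  absurd (((k.2 0).1 (h.2 0)).trans ((k.2 1).1 (h.2 1)).symm) (by decide)

theorem Ty2.not3 {C : Cv} (h : C.Ty2 p) : ¬ C.Ty3 p := fun k => k.2 _ h.fix

theorem Ty1.not3 {C : Cv} (h : C.Ty1 p) : ¬ C.Ty3 p := fun k => k.2 0 (h.2 0)

theorem ty1_of_fix (h : C.Gp p) (h2 : ¬ C.Ty2 p) {i : Fin 3} (k : C.pm (frb p) i = i) :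
    C.Ty1 p := by
  rcases C.ty_cases h with a | a | a
  exacts [a, absurd a h2, absurd k (a.2 i)]

theorem tc_e : Tc C.e C.pm C.R := by
  refine ⟨C.e_inj, C.int_e, C.e_pm, fun i j => ?_, by exact_mod_cast C.one, C.hR⟩
  have h : j = i ∨ j = i + 1 ∨ j = i + 1 + 1 := by revert i j; decide
  rcases h with rfl | rfl | rfl
  · exact ⟨1, C.pm_one _⟩
  · exact ⟨C.g0, C.pm_g0 _⟩
  · exact ⟨C.g0 * C.g0, by rw [pm_mul, pm_g0, pm_g0]⟩

theorem tc_del : Tc (fun b : F2 => (sn b : Qb) * C.del) (fun g b => b + chi C.disc g)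
    (max 1 ‖B2.jC C.del‖) := by
  have h1 : IsIntegral ℤ C.del :=
    (((C.int_e 0).sub (C.int_e 1)).mul ((C.int_e 0).sub (C.int_e 2))).mul
      ((C.int_e 1).sub (C.int_e 2))
  refine ⟨fun a b h => sn_cast_inj (mul_right_cancel₀ C.del_ne h),
    fun b => (isIntegral_algebraMap (x := sn b)).mul h1, fun g b => ?_, fun a b => ?_,
    le_max_left _ _, fun b => le_trans ?_ (le_max_right _ _)⟩
  · rw [map_mul, map_intCast, act_del, sn_add, Int.cast_mul, mul_assoc]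
  · by_cases h : a = b
    · exact ⟨C.g0, by rw [chi_g0, add_zero, h]⟩
    · refine ⟨B2.cc, ?_⟩
      rw [loc_chi_cc C.disc_neg.ne, if_neg C.disc_neg.le.not_gt]
      revert a b
      decide
  · rcases F2_cases b with rfl | rfl <;> simp [sn_zero, sn_one]

variable {C} {c : GQ → C.A}

theorem fix_two {φ : GQ} {t : Fin 3} (h : ∀ i, C.pm φ i = i ↔ i = t) {R : C.A}
    (k : C.ep R (C.T t) = 0) : ∃ S S' : C.A, S ≠ S' ∧ 2 • S = 0 ∧ 2 • S' = 0 ∧
      C.act φ S + R = S ∧ C.act φ S' + R = S' := by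
  have e : C.act φ (C.T t) = C.T t := by rw [act_T, (h t).2 rfl]
  suffices a : ∃ S, 2 • S = 0 ∧ C.act φ S + R = S by
    obtain ⟨S, a, b⟩ := a
    refine ⟨S, S + C.T t, fun x => C.T_ne t (left_eq_add.1 x), a,
      by rw [nsmul_add, a, C.two_T, add_zero], b, ?_⟩
    rw [map_add, e, add_right_comm, b]
  rcases (C.ep_T_eq_zero t).1 k with rfl | rfl
  · exact ⟨0, nsmul_zero 2, by rw [map_zero, add_zero]⟩
  · obtain ⟨S, a, b⟩ := C.exists_sub h
    exact ⟨S, a, by rw [sub_eq_iff_eq_add'.1 b, add_assoc, T_add_self, add_zero]⟩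

theorem fix_one {φ : GQ} (h : ∀ i, C.pm φ i ≠ i) {R : C.A} (k : 2 • R = 0) :
    ∃ S : C.A, 2 • S = 0 ∧ C.act φ S + R = S := by
  rcases C.tors2 k with rfl | ⟨i, rfl⟩
  · exact ⟨0, nsmul_zero 2, by rw [map_zero, add_zero]⟩
  refine ⟨C.T (C.pm φ i), C.two_T _, ?_⟩
  rw [act_T]
  refine C.T_add_ne (fun e => ?_) (h _) (h i).symm
  obtain ⟨l, a, b⟩ := (by decide : ∀ i j : Fin 3, ∃ l, l ≠ i ∧ l ≠ j) i (C.pm φ i)
  exact h i ((by decide : ∀ i l u j : Fin 3, l ≠ i → l ≠ j → u ≠ i → u ≠ j → u ≠ l → j = i)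
    i l _ _ a b (fun x => b (C.pm_inj φ (x.trans e.symm))) (fun x => a (C.pm_inj φ x)) (h l))

theorem card_two (C : Cv) [Fintype {S : C.A // 2 • S = 0}] :
    Fintype.card {S : C.A // 2 • S = 0} = 4 := by
  have h := C.card_tors 1
  rw [pow_one, pow_one] at h
  rw [← Nat.card_eq_fintype_card, ← h]
  rfl

theorem finite_two (C : Cv) : Finite {S : C.A // 2 • S = 0} := by
  have h := C.finite_tors 1
  rw [pow_one] at h
  exact h

/-- The masses of the types in an interval. -/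
theorem masses (C : Cv) : ∃ z0 : ℕ, C.N0 ≤ z0 ∧ ∀ z X : ℕ, z0 ≤ z → 2 ≤ X →
    LL X / 2 - LL z - 38 ≤ ms (Wn z X C.Ty2) ∧
    ms (Wn z X C.Ty1) ≤ LL X / 6 + LL z / 3 + 35 ∧
    ∀ (D : ℤ) (c : GQ → C.A) (B : ℝ), c ∈ C.U D → c ≠ 0 → C.KD c B → 1 ≤ B → (6 * B) ^ 16 ≤ z →
      LL X / 6 - 7 / 6 * LL z - 93 ≤ ms (Wn z X fun p => C.Ty2 p ∧ C.sy c p = 1) := by
  obtain ⟨b, hb⟩ : ∃ b : ℝ, b = max 1 ‖B2.jC C.del‖ := ⟨_, rfl⟩
  obtain ⟨z0, hz0⟩ := exists_nat_ge (max (max ((3 * (C.R : ℝ) ^ 3) ^ 3) ((2 * C.R : ℝ) ^ 3 ^ 2))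
    (max ((2 * b ^ 2) ^ 2) ((2 * b) ^ 2 ^ 2)))
  refine ⟨max C.N0 z0, le_max_left _ _, fun z X hz hX => ?_⟩
  have z1 : C.N0 ≤ z := le_of_max_le_left hz
  have z2 : 2 ≤ z := C.two_le_N0.trans z1
  have z3 := hz0.trans (Nat.cast_le.2 (le_of_max_le_right hz))
  simp only [max_le_iff] at z3
  have h0 := ms_win z2 hX
  have h1 := (ms_mono (P := Wn z X Nat.Prime) fun p hp => by
    simp only [mem_Wn, mem_union, ← and_or_left] at hp ⊢
    exact ⟨hp.1, hp.2.1, C.ty_cases ⟨hp.2.2, z1.trans_lt hp.1⟩⟩).trans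
    ((ms_union (Wn z X C.Ty1) _).trans (add_le_add le_rfl
      (ms_union (Wn z X C.Ty2) (Wn z X C.Ty3))))
  have f : ∀ p, C.Gp p → ¬ C.Ty2 p → 2 ≤ #{i : F2 | i + chi C.disc (frb p) = i} := fun p a k => by
    rw [(F2_cases _).resolve_right fun e => k (C.ty2_iff.2 ⟨a, e⟩)]
    simp
  have h2 := tc_ms (hb ▸ C.tc_del) z2 hX (by simpa using z3.2.1) (by simpa using z3.2.2)
    C.Ty1 C.Ty3 2 2 (fun p k => ⟨k.1.1, k.not3, by convert f p k.1 k.not2⟩)
    fun p k => ⟨k.1.1, by convert f p k.1 fun a => a.not3 k⟩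
  have h3 := tc_ms C.tc_e z2 hX (by simpa using z3.1.1) (by simpa using z3.1.2)
    C.Ty1 C.Ty2 3 1 (fun p k => ⟨k.1.1, k.not2, by simp [k.2]⟩)
    fun p k => ⟨k.1.1, card_pos.2 ⟨C.tp p, by simpa using k.fix⟩⟩
  simp only [ZMod.card, Fintype.card_fin] at h2 h3
  push_cast at h2 h3
  refine ⟨by linarith, by linarith, fun D c B hc h0' hB B1 hz' => ?_⟩
  obtain ⟨t, ac, a1, a2⟩ := hB.tc B1 hc h0'
  have := C.finite_two
  have := Fintype.ofFinite {S : C.A // 2 • S = 0}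
  have : Nonempty {S : C.A // 2 • S = 0} := ⟨⟨0, nsmul_zero 2⟩⟩
  have a3 : (2 * (3 * B)) ^ 4 ^ 2 ≤ z := by rw [← mul_assoc]; norm_num; exact hz'
  have h4 := tc_ms a1 z2 hX (by
      rw [C.card_two]
      refine le_trans ?_ a3
      have : 0 ≤ B ^ 16 := by positivity
      push_cast
      ring_nf
      linarith) (by rw [C.card_two]; exact a3)
    (fun p => C.Ty2 p ∧ C.sy c p = 0) C.Ty3 2 1 (fun p k => ⟨k.1.1.1, k.1.not3, by
      obtain ⟨S, S', b1, b2, b3, b4, b5⟩ := fix_two k.1.2 k.2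
      refine one_lt_card.2 ⟨⟨S, b2⟩, ?_, ⟨S', b3⟩, ?_, fun e => b1 (congrArg Subtype.val e)⟩ <;>
        simp only [mem_filter, mem_univ, true_and, Subtype.ext_iff, a2] <;> assumption⟩)
    fun p k => ⟨k.1.1, by
      obtain ⟨S, b1, b2⟩ := fix_one k.2 (hc.1.two (frb p) trivial)
      refine card_pos.2 ⟨⟨S, b1⟩, ?_⟩
      simp only [mem_filter, mem_univ, true_and, Subtype.ext_iff, a2]
      exact b2⟩
  have h5 := (ms_mono (P := Wn z X C.Ty2) fun p hp => by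
    simp only [mem_Wn, mem_union, ← and_or_left] at hp ⊢
    exact ⟨hp.1, hp.2.1, hp.2.2, F2_cases _⟩).trans (ms_union
      (Wn z X fun p => C.Ty2 p ∧ C.sy c p = 0) (Wn z X fun p => C.Ty2 p ∧ C.sy c p = 1))
  rw [C.card_two] at h4
  push_cast at h4
  linarith

end Cv

end Pool.Agent.B6.S
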