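import Pool.Agent.Lib.MP_696deb_nt.B6.SL2
import Pool.Agent.Lib.MP_696deb_nt.B6.SBc

/-! Points of a box at which a cocycle of large conductor is seen by no prime. -/

set_option autoImplicit false

open scoped Classical
open Finset Function

namespace Pool.Agent.B6.S

open Pool.Agent.Lib.MP_696deb_nt Pool.Agent.Lib.MP_696deb_nt.Sm

namespace Cv

variable (C : Cv) {V : Type} [Fintype V]

/-- The cocycle with prescribed ramification at the coordinates of a point. -/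
noncomputable def cb (ε : GQ → C.A) (μ : V → Option (Fin 3)) (x : V → ℕ) : GQ → C.A :=
  ε + ∑ i, C.bo (x i) (μ i)

/-- The type of a prime, with a threshold for the second type. -/
noncomputable def ty (z p : ℕ) : Fin 3 := if C.Ty1 p then 0 else if C.Ty2 p ∧ z < p then 1 else 2

/-- The bad points. -/
def Bad (E : Finset (GQ → C.A)) (z H : ℕ) (x : V → ℕ) : Prop :=
  H + 2 * #{j | C.ty z (x j) = 0} ≤ #{j | C.ty z (x j) = 1} ∧
    ∃ ε ∈ E, ∃ μ : V → Option (Fin 3), (∀ j, C.ty z (x j) ≠ 0 → μ j = none) ∧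
      (∃ j, μ j ≠ none) ∧ ∀ j, C.ty z (x j) = 1 → C.sy (C.cb ε μ x) (x j) = 0

variable {C} {ε : GQ → C.A} {μ : V → Option (Fin 3)} {x : V → ℕ} {i : V} {z p : ℕ}

theorem ty_zero : C.ty z p = 0 ↔ C.Ty1 p := by
  unfold ty
  split_ifs with h k <;> simp [h]

theorem ty_one : C.ty z p = 1 ↔ C.Ty2 p ∧ z < p := by
  unfold ty
  split_ifs with h k
  · simp [h.not2]
  · simp [k]
  · exact ⟨fun e => absurd e (by decide), fun e => absurd e k⟩

theorem bo_none (p : ℕ) : C.bo p none = 0 := rfl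

theorem bo_some (p : ℕ) (a : Fin 3) : C.bo p (some a) = C.be p a := rfl

theorem z2_cb (h : C.Z2 ⊤ ε) : C.Z2 ⊤ (C.cb ε μ x) :=
  h.add (z2_sum _ fun _ _ => C.z2_bo _ _)

theorem cb_update (h : μ i = none) (q : ℕ) : C.cb ε μ (update x i q) = C.cb ε μ x := by
  refine congrArg (ε + ·) (sum_congr rfl fun j _ => ?_)
  by_cases e : j = i
  · rw [e, h, bo_none, bo_none]
  · rw [update_of_ne e]

theorem cb_split {a : Fin 3} (h : μ i = some a) :
    C.cb ε μ x = C.cb ε (update μ i none) x + C.be (x i) a := by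
  have e : ∑ j ∈ univ.erase i, C.bo (x j) (update μ i none j) =
      ∑ j ∈ univ.erase i, C.bo (x j) (μ j) :=
    sum_congr rfl fun j hj => by rw [update_of_ne (mem_erase.1 hj).1]
  rw [cb, cb, ← add_sum_erase _ _ (mem_univ i), ← add_sum_erase _ _ (mem_univ i), update_self, h,
    e, bo_none, bo_some, zero_add, add_assoc, add_comm (C.be (x i) a)]

theorem big_cnt (X : V → Finset ℕ) (J : Finset V) (hε : C.Z2 ⊤ ε) {a : Fin 3}
    (h0 : μ i = some a) (hJ : ∀ j ∈ J, μ j = none ∧ ∀ q ∈ X j, C.Gp q) {B : ℝ} (hB0 : 0 ≤ B)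
    (hB : ∀ j ∈ J, ∀ u v : ℕ → ℝ, (∀ p, |u p| ≤ 1) → (∀ q, |v q| ≤ 1) →
      |∑ p ∈ X i, ∑ q ∈ X j, u p * v q * sg (C.sy (C.be p a) q)| *
        ∏ w ∈ univ \ {i, j}, ((X w).card : ℝ) ≤ B) :
    (#{x ∈ Fintype.piFinset X | ∀ j ∈ J, C.sy (C.cb ε μ x) (x j) = 0} : ℝ) ≤
      (1 / 2) ^ J.card * (Fintype.piFinset X).card + B := by
  have h1 : ∀ F ∈ J.powerset.erase ∅,
      ∑ x ∈ Fintype.piFinset X, sg (∑ j ∈ F, C.sy (C.cb ε μ x) (x j)) ≤ B := by
    intro F hF
    obtain ⟨h3, h4⟩ := mem_erase.1 hF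
    obtain ⟨j, hj⟩ := nonempty_iff_ne_empty.2 h3
    have hj' := mem_powerset.1 h4 hj
    have ne : i ≠ j := fun e => by
      have := (hJ j hj').1
      rw [← e, h0] at this
      exact Option.some_ne_none _ this
    have h5 := sum_bil X ne (fun p q => sg (C.sy (C.be p a) q)) B
      (fun u v hu hv => by convert hB j hj' u v hu hv) hB0
      (fun x => sg (∑ k ∈ F.erase j, C.sy (C.cb ε μ x) (x k)))
      (fun x => sg (C.sy (C.cb ε (update μ i none) x) (x j))) (fun _ => (abs_sg _).le)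
      (fun _ => (abs_sg _).le) (fun x q => by
        rw [cb_update (hJ j hj').1, sum_congr rfl fun k hk => by
          rw [update_of_ne (mem_erase.1 hk).1]])
      fun x q => by rw [cb_update (update_self ..), update_of_ne ne.symm]
    refine le_trans (le_of_eq ?_) ((le_abs_self _).trans h5)
    refine sum_congr (by congr) fun x hx => ?_
    have g := (hJ j hj').2 _ (Fintype.mem_piFinset.1 hx j)
    rw [mul_assoc, ← sg_add, ← sy_add g.1 g.ne_two ((z2_cb hε).mono le_top)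
      ((C.z2_be _ _).mono le_top), ← cb_split h0, ← add_sum_erase _ _ hj, sg_add, mul_comm]
  have h2 := sum_le_card_nsmul _ _ B h1
  have h3 : ((J.powerset.erase ∅).card : ℝ) ≤ 2 ^ J.card := by
    exact_mod_cast card_erase_le.trans_eq (card_powerset J)
  rw [nsmul_eq_mul] at h2
  have h4 := mul_le_mul_of_nonneg_left (h2.trans (mul_le_mul_of_nonneg_right h3 hB0))
    (show (0 : ℝ) ≤ (1 / 2) ^ J.card by positivity)
  rw [← mul_assoc, ← mul_pow, one_div_mul_cancel two_ne_zero, one_pow, one_mul] at h4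
  rw [card_filter, Nat.cast_sum, sum_congr rfl (g := fun x => (1 / 2 : ℝ) ^ J.card *
    ∑ F ∈ J.powerset, sg (∑ j ∈ F, C.sy (C.cb ε μ x) (x j))) fun x _ => by
      rw [← ind_eq]; split_ifs <;> simp,
    ← mul_sum, sum_comm, ← add_sum_erase _ _ (empty_mem_powerset J), mul_add]
  simp only [sum_empty, sg_zero, sum_const, nsmul_eq_mul, mul_one]
  exact add_le_add le_rfl h4

theorem big_type (X : V → Finset ℕ) (T : V → Fin 3) (E : Finset (GQ → C.A))
    (hE : ∀ ε ∈ E, C.Z2 ⊤ ε) (z H : ℕ) (hX : ∀ j, ∀ p ∈ X j, C.Gp p ∧ C.ty z p = T j) {B : ℝ}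
    (hB0 : 0 ≤ B) (hB : ∀ i j a, T i = 0 → T j = 1 → ∀ u v : ℕ → ℝ, (∀ p, |u p| ≤ 1) →
      (∀ q, |v q| ≤ 1) → |∑ p ∈ X i, ∑ q ∈ X j, u p * v q * sg (C.sy (C.be p a) q)| *
        ∏ w ∈ univ \ {i, j}, ((X w).card : ℝ) ≤ B) :
    (#{x ∈ Fintype.piFinset X | C.Bad E z H x} : ℝ) ≤
      E.card * ((1 / 2) ^ H * (Fintype.piFinset X).card + 4 ^ Fintype.card V * B) := by
  have e : ∀ x ∈ Fintype.piFinset X, ∀ j, C.ty z (x j) = T j := fun x hx j =>
    (hX j _ (Fintype.mem_piFinset.1 hx j)).2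
  by_cases hT : H + 2 * #{j | T j = 0} ≤ #{j | T j = 1}
  swap
  · rw [filter_eq_empty_iff.2 fun x hx k => hT (by simpa only [e x hx] using k.1), card_empty,
      Nat.cast_zero]
    positivity
  obtain ⟨M, hM⟩ : ∃ M : Finset (V → Option (Fin 3)), M = {μ ∈ Fintype.piFinset
    fun j => if T j = 0 then (univ : Finset (Option (Fin 3))) else {none} | ∃ j, μ j ≠ none} :=
    ⟨_, rfl⟩
  have m1 : M.card ≤ 4 ^ #{j | T j = 0} := by
    rw [hM]
    refine (card_filter_le _ _).trans_eq ?_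
    rw [Fintype.card_piFinset, ← prod_const, prod_filter]
    exact prod_congr rfl fun j _ => by split_ifs <;> simp
  have m2 : (M.card : ℝ) ≤ 4 ^ Fintype.card V := by
    exact_mod_cast m1.trans (Nat.pow_le_pow_right (by norm_num) (card_le_univ _))
  have m3 : (M.card : ℝ) * (1 / 2) ^ #{j | T j = 1} ≤ (1 / 2) ^ H := by
    refine (mul_le_mul (Nat.cast_le.2 m1) (pow_le_pow_of_le_one (by norm_num) (by norm_num) hT)
      (by positivity) (by positivity)).trans_eq ?_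
    rw [pow_add, pow_mul, Nat.cast_pow, mul_left_comm, ← mul_pow]
    norm_num
  have c1 : #{x ∈ Fintype.piFinset X | C.Bad E z H x} ≤ ∑ ε ∈ E, ∑ μ ∈ M,
      #{x ∈ Fintype.piFinset X | ∀ j ∈ ({j | T j = 1} : Finset V),
        C.sy (C.cb ε μ x) (x j) = 0} := by
    refine le_trans (card_le_card fun x hx => ?_) (card_biUnion_le.trans
      (sum_le_sum fun ε _ => card_biUnion_le))
    obtain ⟨a1, -, ε, a2, μ, a3, a4, a5⟩ := mem_filter.1 hx
    simp only [e x a1] at a3 a5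
    refine mem_biUnion.2 ⟨ε, a2, mem_biUnion.2 ⟨μ, ?_, mem_filter.2 ⟨a1, fun j hj =>
      a5 j (mem_filter.1 hj).2⟩⟩⟩
    rw [hM]
    refine mem_filter.2 ⟨Fintype.mem_piFinset.2 fun j => ?_, a4⟩
    split_ifs with k
    exacts [mem_univ _, mem_singleton.2 (a3 j k)]
  refine (Nat.cast_le.2 c1).trans ?_
  rw [Nat.cast_sum, ← nsmul_eq_mul]
  refine sum_le_card_nsmul _ _ _ fun ε hε => ?_
  rw [Nat.cast_sum]
  refine (sum_le_card_nsmul _ _ ((1 / 2) ^ #{j | T j = 1} * (Fintype.piFinset X).card + B)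
    fun μ hμ => ?_).trans ?_
  · rw [hM] at hμ
    obtain ⟨a1, i, a2⟩ := mem_filter.1 hμ
    have a3 : ∀ j, T j ≠ 0 → μ j = none := fun j k => by
      simpa [k] using Fintype.mem_piFinset.1 a1 j
    obtain ⟨a, a4⟩ := Option.ne_none_iff_exists'.1 a2
    exact big_cnt X _ (hE ε hε) a4 (fun j hj => ⟨a3 j (by rw [(mem_filter.1 hj).2]; decide),
      fun q hq => (hX j q hq).1⟩) hB0 fun j hj =>
        hB i j a (not_not.1 fun k => a2 (a3 i k)) (mem_filter.1 hj).2
  · rw [nsmul_eq_mul, mul_add, ← mul_assoc]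
    exact add_le_add (mul_le_mul_of_nonneg_right m3 (Nat.cast_nonneg _))
      (mul_le_mul_of_nonneg_right m2 hB0)

/-- Few points of a box are bad. -/
theorem big_box (C : Cv) : ∃ K : ℝ, 0 < K ∧ ∀ (V : Type) [Fintype V] (X : V → Finset ℕ)
    (t : V → ℕ) (Y z H : ℕ) (θ : ℝ) (E : Finset (GQ → C.A)), 1 ≤ Y → 0 < θ → (∀ j, Y ≤ t j) →
    (∀ j, ∀ p ∈ X j, C.Gp p ∧ t j < p ∧ p ≤ 2 * t j) → (∀ i j, ∀ p ∈ X i, p ∈ X j → i = j) →
    (∀ j, θ * t j ≤ (X j).card) → (∀ ε ∈ E, C.Z2 ⊤ ε) →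
    (#{x ∈ Fintype.piFinset X | C.Bad E z H x} : ℝ) ≤
      E.card * ((1 / 2) ^ H + 12 ^ Fintype.card V * (K / (θ ^ 2 * (Y : ℝ) ^ (1 / 24 : ℝ)))) *
        (Fintype.piFinset X).card := by
  obtain ⟨K, hK, h⟩ := C.bil
  refine ⟨K, hK, fun V _ X t Y z H θ E hY hθ ht hX hd hb hE => ?_⟩
  have y0 : 0 < (Y : ℝ) ^ (1 / 24 : ℝ) := Real.rpow_pos_of_pos (by exact_mod_cast hY) _
  obtain ⟨B, hB⟩ : ∃ B : ℝ, B = K / (θ ^ 2 * (Y : ℝ) ^ (1 / 24 : ℝ)) * (Fintype.piFinset X).card :=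
    ⟨_, rfl⟩
  have e : ∀ T : V → Fin 3, ({x ∈ Fintype.piFinset X | (fun j => C.ty z (x j)) = T} :
      Finset _) = Fintype.piFinset fun j => {p ∈ X j | C.ty z p = T j} := fun T => by
    ext x
    simp only [mem_filter, Fintype.mem_piFinset, funext_iff, forall_and]
  have c0 := card_eq_sum_card_fiberwise (s := Fintype.piFinset X) (t := univ)
    (f := fun x j => C.ty z (x j)) fun _ _ => mem_univ _
  have c1 := card_eq_sum_card_fiberwise (s := {x ∈ Fintype.piFinset X | C.Bad E z H x}) (t := univ)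
    (f := fun x j => C.ty z (x j)) fun _ _ => mem_univ _
  simp only [filter_comm (C.Bad E z H), e] at c0 c1
  have c2 : ∀ T : V → Fin 3, (#{x ∈ Fintype.piFinset fun j => {p ∈ X j | C.ty z p = T j} |
      C.Bad E z H x} : ℝ) ≤ E.card * ((1 / 2) ^ H *
        (Fintype.piFinset fun j => {p ∈ X j | C.ty z p = T j}).card + 4 ^ Fintype.card V * B) := fun T => by
    refine big_type _ T E hE z H (fun j p hp => ⟨(hX j p (mem_filter.1 hp).1).1,
      (mem_filter.1 hp).2⟩) (by rw [hB]; positivity) fun i j a hi hj u v hu hv => ?_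
    have ne : i ≠ j := fun k => by rw [k, hj] at hi; exact absurd hi (by decide)
    have b1 := h {p ∈ X i | C.ty z p = T i} {p ∈ X j | C.ty z p = T j} (t i) (t j) Y (fun _ => a)
      C.tp 0 1 hY (ht i) (ht j) (.inr one_ne_zero) (disjoint_left.2 fun p k k' =>
        ne (hd i j p (mem_filter.1 k).1 (mem_filter.1 k').1))
      (fun p hp => by
        obtain ⟨a1, a2⟩ := mem_filter.1 hp
        exact ⟨(hX i p a1).1, (hX i p a1).2.1, (hX i p a1).2.2, (ty_zero.1 (a2.trans hi)).2 a⟩)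
      (fun p hp => by
        obtain ⟨a1, a2⟩ := mem_filter.1 hp
        exact ⟨(hX j p a1).1, (hX j p a1).2.1, (hX j p a1).2.2, (ty_one.1 (a2.trans hj)).1.fix⟩)
      u v hu hv
    simp only [zero_mul, one_mul, zero_add] at b1
    have b2 : ∏ w ∈ univ \ {i, j}, (#{p ∈ X w | C.ty z p = T w} : ℝ) ≤
        ∏ w ∈ univ \ {i, j}, ((X w).card : ℝ) :=
      prod_le_prod (fun _ _ => Nat.cast_nonneg _) fun w _ => Nat.cast_le.2 (card_filter_le _ _)
    refine (mul_le_mul b1 b2 (by positivity) (by positivity)).trans ?_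
    rw [hB, Fintype.card_piFinset, Nat.cast_prod, ← prod_sdiff (subset_univ {i, j}), prod_pair ne]
    have b3 := mul_le_mul (hb i) (hb j) (by positivity) (Nat.cast_nonneg _)
    refine le_trans (le_of_eq ?_) (mul_le_mul_of_nonneg_left (mul_le_mul_of_nonneg_left b3
      (by positivity)) (by positivity))
    field_simp
  rw [c1, Nat.cast_sum]
  refine (sum_le_sum fun T _ => c2 T).trans_eq ?_
  rw [← mul_sum, sum_add_distrib, ← mul_sum, ← Nat.cast_sum, ← c0, sum_const, card_univ,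
    Fintype.card_fun, Fintype.card_fin, nsmul_eq_mul, hB, Nat.cast_pow,
    show (12 : ℝ) = 3 * 4 by norm_num, mul_pow]
  push_cast
  ring

end Cv

end Pool.Agent.B6.S
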