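import Pool.Agent.Lib.MP_696deb_nt.B6.SBf
import Pool.Agent.Lib.MP_696deb_nt.B6.SBg

/-! Good integers: cocycles of large conductor are seen by a large prime. -/

set_option autoImplicit false

open scoped Classical
open Finset Function

namespace Pool.Agent.B6.S

open Pool.Agent.Lib.MP_696deb_nt Pool.Agent.Lib.MP_696deb_nt.Sm Pool.Agent.Lib.MP_696deb_nt.Sa

theorem big_num {m : ℕ} (hm : 2 ≤ m) :
    4 ^ m * m ≤ 2 ^ m ^ 3 ∧ 4 ^ m * m * (12 ^ m ^ 10 * (2 ^ m ^ 5) ^ 2) ≤ 2 ^ m ^ 22 := by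
  have h0 : 4 * m ≤ m ^ 3 := by
    rw [pow_succ]; exact Nat.mul_le_mul_right _ (Nat.pow_le_pow_left hm 2)
  have h1 : 4 ^ m * m ≤ 2 ^ m ^ 3 := by
    refine (Nat.mul_le_mul_left _ Nat.lt_two_pow_self.le).trans ?_
    rw [show 4 = 2 ^ 2 from rfl, ← pow_mul, ← pow_add]
    exact Nat.pow_le_pow_right two_pos (by omega)
  refine ⟨h1, (Nat.mul_le_mul h1 (Nat.mul_le_mul_right _
    (Nat.pow_le_pow_left (show 12 ≤ 2 ^ 4 by norm_num) _))).trans ?_⟩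
  have a1 : m ^ 3 ≤ m ^ 10 := Nat.pow_le_pow_right (by omega) (by norm_num)
  have a2 : m ^ 5 ≤ m ^ 10 := Nat.pow_le_pow_right (by omega) (by norm_num)
  have a3 : 2 ^ 12 * m ^ 10 ≤ m ^ 22 := by
    rw [show 22 = 12 + 10 from rfl, pow_add m]
    exact Nat.mul_le_mul_right _ (Nat.pow_le_pow_left hm 12)
  rw [← pow_mul, ← pow_mul, ← pow_add, ← pow_add]
  exact Nat.pow_le_pow_right two_pos (by omega)

theorem big_root {m : ℕ} (hm : 5 ≤ m) : (2 : ℝ) ^ m ^ 22 ≤ (YY m : ℝ) ^ (1 / 24 : ℝ) := by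
  have h1 : m ^ 22 * 24 ≤ m ^ 24 := by
    rw [show 24 = 22 + 2 from rfl, pow_add m]
    exact Nat.mul_le_mul_left _ ((by norm_num : 22 + 2 ≤ 5 ^ 2).trans (Nat.pow_le_pow_left hm 2))
  have h2 : ((2 : ℝ) ^ m ^ 22) ^ 24 ≤ YY m := by
    rw [← pow_mul, YY, Nat.cast_pow]
    exact pow_le_pow_right₀ one_le_two h1
  refine le_of_eq_of_le ?_ (Real.rpow_le_rpow (by positivity) h2 (by norm_num))
  rw [show (1 / 24 : ℝ) = ((24 : ℕ) : ℝ)⁻¹ by norm_num,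
    Real.pow_rpow_inv_natCast (by positivity) (by norm_num)]

theorem pts_eq (B : Sm.Box) :
    @Fintype.piFinset _ (fun a b => Classical.propDecidable (a = b)) _ _ B.X = B.pts := by
  ext x
  simp only [Sm.Box.pts, Fintype.mem_piFinset]

namespace Cv

/-- The bad points of a box. -/
noncomputable def BadS (C : Cv) (B : Sm.Box) (E : Finset (GQ → C.A)) (z H : ℕ) :
    Finset (Fin B.r → ℕ) := B.pts.filter (C.Bad E z H)

variable {C : Cv} {m X n : ℕ}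

theorem mem_BadS (B : Sm.Box) {E : Finset (GQ → C.A)} {z H : ℕ} {x : Fin B.r → ℕ} :
    x ∈ C.BadS B E z H ↔ x ∈ B.pts ∧ C.Bad E z H x := mem_filter

theorem bad_of {V : Type} [Fintype V] {x : V → ℕ} (hm : C.N0 ≤ m) (hX : n ≤ X)
    (hi : Injective x) (hx : lP m n = univ.image x) (h7 : C.H7 m X n) (h5 : C.Sees m (d0 m n) n)
    (h : ¬ C.Sees m (C.d1 m n) n) : C.Bad (C.Uf (d0 m n)) (zz m) (m ^ 3) x := by
  have y1 : YY m ≤ zz m := YY_le (le_trans (by norm_num) (C.two_le_N0.trans hm)) 3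
  have l1 : ∀ j, x j ∈ lP m n := fun j => hx ▸ mem_image_of_mem _ (mem_univ j)
  refine ⟨le_trans (Nat.add_le_add_left (Nat.mul_le_mul_left _ ?_) _) (le_trans h7 ?_), ?_⟩
  · refine card_le_card_of_injOn x (fun j hj => ?_) hi.injOn
    obtain ⟨a1, a2⟩ := mem_filter.1 (l1 j)
    exact mem_coe.2 (mem_inter.2 ⟨a1, mem_Wn.2 ⟨a2, (Nat.le_of_mem_primeFactors a1).trans hX,
      ty_zero.1 (mem_filter.1 (mem_coe.1 hj)).2⟩⟩)
  · refine le_trans (card_le_card fun p hp => ?_) (card_image_le (f := x))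
    obtain ⟨a1, a2⟩ := mem_inter.1 hp
    obtain ⟨a2, -, a3⟩ := mem_Wn.1 a2
    obtain ⟨j, -, rfl⟩ := mem_image.1 (hx ▸ mem_filter.2 ⟨a1, y1.trans_lt a2⟩ : p ∈ univ.image x)
    exact mem_image_of_mem _ (mem_filter.2 ⟨mem_univ _, ty_one.2 ⟨a3, a2⟩⟩)
  simp only [Sees, not_forall, not_exists, not_and] at h
  obtain ⟨c, hc, c0, h⟩ := h
  have g : ∀ q ∈ lP m n, C.Gp q := fun q hq => ⟨Nat.prime_of_mem_primeFactors (mem_filter.1 hq).1,
    (hm.trans (le_YY m)).trans_lt (mem_filter.1 hq).2⟩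
  obtain ⟨μ, b1, b2, b3⟩ := exists_bo (D' := d0 m n) hc (lP m n) g fun q hq k => by
    have a1 := Nat.mem_primeFactors.2 ⟨hq.1, Int.natCast_dvd_natCast.1 k, d1_ne⟩
    rw [d1_pf] at a1
    rcases lt_or_ge (YY m) q with e | e
    · exact .inl (mem_filter.2 ⟨(mem_filter.1 a1).1, e⟩)
    · exact .inr (Int.natCast_dvd_natCast.2 (dvd_prod_of_mem _
        (mem_filter.2 ⟨(mem_filter.1 a1).1, e⟩)))
  have e : C.cb (c - ∑ q ∈ lP m n, C.bo q (μ q)) (fun j => μ (x j)) x = c := by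
    rw [cb, hx, sum_image hi.injOn, sub_add_cancel]
  refine ⟨_, (mem_Uf (Nat.cast_ne_zero.2 (d0_sq m n).ne_zero)).2 b3, fun j => μ (x j),
    fun j k => ?_, ?_, fun j k => ?_⟩
  · by_contra a1
    obtain ⟨a, a2⟩ := Option.ne_none_iff_exists'.1 a1
    exact k (ty_zero.2 (C.ty1_of_fix (g _ (l1 j)) (fun a3 => a1 ((b2 _ (l1 j)).2 (hc.2.2 _ a3.1
      fun a4 => not_dvd_d1 (mem_filter.1 (l1 j)).2 a3 (Int.natCast_dvd_natCast.1 a4))))
      (b1 _ (l1 j) a a2)))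
  · by_contra a1
    simp only [not_exists, not_not] at a1
    rw [sum_eq_zero fun q hq => by
      obtain ⟨j, -, rfl⟩ := mem_image.1 (hx ▸ hq : q ∈ univ.image x)
      rw [a1 j, bo_none], sub_zero] at b3
    obtain ⟨p, a2, a3, a4, a5⟩ := h5 c b3 c0
    exact h p a2 a3 a4 a5
  · rw [e]
    exact (F2_cases _).resolve_right
      (h _ (mem_filter.1 (l1 j)).1 (ty_one.1 k).2 (ty_one.1 k).1)

theorem r5b (C : Cv) : Rare fun m X n =>
    Gd m X n ∧ C.H7 m X n ∧ C.Sees m (d0 m n) n ∧ ¬ C.Sees m (C.d1 m n) n := by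
  obtain ⟨K, hK, h⟩ := C.big_box
  obtain ⟨m1, h1⟩ := box_hyp 0
  obtain ⟨K1, hK1⟩ : ∃ K, K = Nat.card (C.U 1) := ⟨_, rfl⟩
  refine rare_of (C.N0 + m1 + 5) (K1 * (1 + K) * 2) fun m hm X hX S hS => ?_
  have m2 : 2 ≤ m := by omega
  obtain ⟨N, f, a1, a2, a3⟩ := cover (m := m) (X := X) (s := 1) m2 (.inl rfl)
  obtain ⟨η, hη⟩ : ∃ η : ℝ, η = K1 * 4 ^ m * ((1 / 2) ^ m ^ 3 +
    12 ^ m ^ 10 * (K / (((1 / 2) ^ m ^ 5) ^ 2 * 2 ^ m ^ 22))) := ⟨_, rfl⟩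
  have η0 : 0 ≤ η := by rw [hη]; positivity
  have c1 : S.card ≤ ∑ i, (C.BadS (box m X 1 (f i)) (C.Uf (d0 m (f i))) (zz m) (m ^ 3)).card := by
    refine le_trans (card_le_card fun n hn => ?_) (card_biUnion_le.trans (sum_le_sum fun i _ =>
      card_image_le (f := fun x : Fin (lP m (f i)).card → ℕ => d0 m (f i) * ∏ j, x j)))
    obtain ⟨b1, b2, b3, b4, b5⟩ := hS n hn
    obtain ⟨i, x, hx, e⟩ := a3 n b2
    have e1 : d0 m (f i) * ∏ j, x j = n := by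
      change 1 * (d0 m (f i) : ℤ) * ∏ j, (x j : ℤ) = 1 * n at e
      rw [one_mul, one_mul] at e
      exact_mod_cast e
    obtain ⟨e2, e3⟩ := lP_val m2 (.inl rfl) (a1 i) hx
    erw [e1] at e2 e3
    refine mem_biUnion.2 ⟨i, mem_univ i, mem_image.2 ⟨x, (mem_BadS _).2 ⟨hx, ?_⟩, e1⟩⟩
    rw [← e3]
    exact bad_of (by omega) b2.le (fun _ _ k => anG_eq (a1 i) hx hx k) e2 b3 b4 b5
  have c2 : ∀ i, ((C.BadS (box m X 1 (f i)) (C.Uf (d0 m (f i))) (zz m) (m ^ 3)).card : ℝ) ≤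
      η * (box m X 1 (f i)).pts.card := fun i => by
    have b := h1 m (by omega) X _ 1 (.inl rfl) (a1 i)
    have b1 := h _ (box m X 1 (f i)).X (box m X 1 (f i)).t (YY m) (zz m) (m ^ 3) _
      (C.Uf (d0 m (f i))) Nat.one_le_two_pow b.pos b.hY (fun j p hp => ⟨⟨b.wf.prime j p hp,
        lt_of_le_of_lt (le_trans (by omega) (le_YY m)) (anG_cl hp).2.1⟩, b.rng j p hp⟩)
      b.wf.disj b.big fun ε hε => ((mem_Uf (Nat.cast_ne_zero.2 (d0_sq m _).ne_zero)).1 hε).1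
    have b2 : (C.Uf (d0 m (f i))).card ≤ K1 * 4 ^ m := (card_Uf (d0_sq m _).ne_zero).trans
      (hK1 ▸ Nat.mul_le_mul_left _ (Nat.pow_le_pow_right (by norm_num)
        (by rw [d0_pf]; exact (a1 i).g2)))
    have b3 : ((C.Uf (d0 m (f i))).card : ℝ) ≤ K1 * 4 ^ m := by exact_mod_cast b2
    have b4 : Fintype.card (Fin (box m X 1 (f i)).r) ≤ m ^ 10 :=
      (Fintype.card_fin _).trans_le ((card_filter_le _ _).trans (a1 i).g1)
    have b5 := big_root (m := m) (by omega)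
    rw [pts_eq] at b1
    refine le_trans b1 (mul_le_mul_of_nonneg_right (show _ ≤ η from ?_) (Nat.cast_nonneg _))
    rw [hη]
    change _ * (_ + _ * (K / (((1 / 2) ^ m ^ 5) ^ 2 * _))) ≤ _
    gcongr
    norm_num
  have c3 : (S.card : ℝ) ≤ η * (2 * X) := by
    refine (Nat.cast_le.2 c1).trans ?_
    rw [Nat.cast_sum]
    refine (sum_le_sum fun i _ => c2 i).trans ?_
    rw [← mul_sum]
    exact mul_le_mul_of_nonneg_left (by exact_mod_cast a2) η0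
  have c4 : (4 : ℝ) ^ m * m / 2 ^ m ^ 3 ≤ 1 :=
    (div_le_one (by positivity)).2 (by exact_mod_cast (big_num m2).1)
  have c5 : (4 : ℝ) ^ m * m * (12 ^ m ^ 10 * (2 ^ m ^ 5) ^ 2) / 2 ^ m ^ 22 ≤ 1 :=
    (div_le_one (by positivity)).2 (by exact_mod_cast (big_num m2).2)
  have c6 : η * m ≤ K1 * (1 + K) := by
    refine le_of_eq_of_le ?_ (mul_le_mul_of_nonneg_left (add_le_add c4
      (mul_le_of_le_one_left hK.le c5)) K1.cast_nonneg)
    rw [hη, one_div_pow, one_div_pow]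
    field_simp
  refine (mul_le_mul_of_nonneg_right c3 m.cast_nonneg).trans ?_
  rw [mul_right_comm, mul_assoc _ 2]
  exact mul_le_mul_of_nonneg_right c6 (by positivity)

end Cv

end Pool.Agent.B6.S
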