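import Pool.Agent.Lib.MP_696deb_nt.B6.SNb
import Pool.Agent.Lib.MP_696deb_nt.B6.SBig

/-! Almost all squarefree numbers lie in good boxes. -/

set_option autoImplicit false

open scoped Classical
open Finset Function

namespace Pool.Agent.B6.S

open Pool.Agent.Lib.MP_696deb_nt Pool.Agent.Lib.MP_696deb_nt.Sm

theorem an_main (C : Cv) (c : ℕ) {ε : ℝ} (hε : 0 < ε) : ∃ X0 : ℕ, ∀ X ≥ X0, ∀ s : ℤ,
    s = 1 ∨ s = -1 → ∃ (N : ℕ) (B : Fin N → Box C), (∀ i, (B i).Hyp c) ∧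
      ∑ i, (B i).pts.card ≤ 2 * X ∧
      (({m ∈ Icc 1 X | Squarefree m ∧ ¬ ∃ i, ∃ x ∈ (B i).pts, (B i).DD x = s * m} :
        Finset ℕ).card : ℝ) ≤ ε * X := by
  obtain ⟨m1, h1⟩ := ((((((((((Sa.rare1.or Sa.rare2).or Sa.rare3).or Sa.rare4).or Sa.rare5).or
    Sa.rare6).or C.r4).or C.r5a).or C.r5b).or C.r6).or C.r7) ε hε
  obtain ⟨X0, h3⟩ := Sa.exists_sz (m1 + 5 * c + 2)
  refine ⟨X0, fun X hX s hs => ?_⟩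
  obtain ⟨s, rfl⟩ : ∃ u : ℤˣ, (u : ℤ) = s := by
    rcases hs with rfl | rfl
    exacts [⟨1, rfl⟩, ⟨-1, rfl⟩]
  obtain ⟨m, hm, hz⟩ := h3 X hX
  obtain ⟨N, f, a1, a2, a3⟩ := C.cover2 (m := m) (by omega) X s
  refine ⟨N, fun i => C.bq m X s (f i), fun i => (a1 i).hyp (by omega), a2,
    le_trans ?_ (h1 m (by omega) X hz)⟩
  refine Nat.cast_le.2 (card_le_card fun n hn => ?_)
  simp only [mem_filter, mem_Icc] at hn ⊢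
  refine ⟨hn.1, ?_⟩
  by_contra hc
  simp only [not_or, not_and, not_not] at hc
  obtain ⟨⟨⟨⟨⟨⟨⟨⟨⟨⟨b1, b2⟩, b3⟩, b4⟩, b5⟩, b6⟩, b7⟩, b8⟩, b9⟩, b10⟩, b11⟩ := hc
  have q := hn.2.1
  exact hn.2.2 (a3 n ⟨hn.1.1, hn.1.2, q, b1, b3, b7 q b1,
    b9 ⟨hn.1.1, hn.1.2, q, b1, b2, b3, b4 q b2, b5 q b2, b6⟩ b11 (b8 q b2), b10⟩)

end Pool.Agent.B6.S
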