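import Pool.Agent.Lib.MP_696deb_nt.MomComb

/-! Sums of reciprocals of primes from counting bounds. -/

set_option autoImplicit false

open Finset
open scoped Classical ArithmeticFunction.vonMangoldt

namespace Pool.Agent.B6

open Pool.Agent.Lib.MP_696deb_nt Pool.Agent.Lib.MP_696deb_nt.Den Pool.Agent.Lib.MP_696deb_nt.Mom.HT

theorem abel_le {a f : ℕ → ℝ} {K : ℝ} (h : ∀ x : ℕ, ∑ n ∈ Ioc 0 x, a n ≤ K * x)
    (f0 : ∀ n, 0 ≤ f n) (fa : ∀ n, 0 < n → f (n + 1) ≤ f n) (Y : ℕ) :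
    ∑ n ∈ Ioc 0 Y, a n * f n ≤ K * ∑ n ∈ Ioc 0 Y, f n := by
  have key : ∀ Y : ℕ, f Y * (K * Y - ∑ n ∈ Ioc 0 Y, a n) ≤
      K * ∑ n ∈ Ioc 0 Y, f n - ∑ n ∈ Ioc 0 Y, a n * f n := by
    intro Y
    induction Y with
    | zero => simp
    | succ Y ih =>
      have h1 : f (Y + 1) * (K * Y - ∑ n ∈ Ioc 0 Y, a n) ≤ f Y * (K * Y - ∑ n ∈ Ioc 0 Y, a n) := by
        rcases Nat.eq_zero_or_pos Y with rfl | hY
        · simp
        · exact mul_le_mul_of_nonneg_right (fa Y hY) (sub_nonneg.2 (h Y))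
      simp only [sum_Ioc_succ_top (Nat.zero_le Y)]
      push_cast
      linarith
  linarith [key Y, mul_nonneg (f0 Y) (sub_nonneg.2 (h Y))]

theorem euler_le {P : Finset ℕ} (hP : ∀ p ∈ P, p.Prime) {r : ℕ → ℝ} {K L : ℝ} (hK : 0 ≤ K)
    (hL : 0 < L)
    (h : ∀ x : ℕ, ∑ S ∈ P.powerset with ∏ p ∈ S, p ≤ x, ∏ p ∈ S, r p ≤ K * x) :
    ∏ p ∈ P, (1 + r p * xs L p) ≤ K * (1 + L) := by
  have pos : ∀ S ∈ P.powerset, 0 < ∏ p ∈ S, p := fun S hS =>
    prod_pos fun p hp => (hP p (mem_powerset.1 hS hp)).pos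
  set a : ℕ → ℝ := fun n => ∑ S ∈ P.powerset with ∏ p ∈ S, p = n, ∏ p ∈ S, r p with ha
  have h1 : ∀ (x : ℕ) (f : ℕ → ℝ), ∑ n ∈ Ioc 0 x, a n * f n =
      ∑ S ∈ P.powerset with ∏ p ∈ S, p ≤ x, (∏ p ∈ S, r p) * f (∏ p ∈ S, p) := fun x f => by
    rw [← sum_fiberwise_of_maps_to (g := fun S => ∏ p ∈ S, p) (t := Ioc 0 x) fun S hS =>
      mem_Ioc.2 ⟨pos S (mem_filter.1 hS).1, (mem_filter.1 hS).2⟩]
    refine sum_congr rfl fun n hn => ?_
    rw [ha, sum_mul, filter_filter]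
    refine sum_congr (filter_congr fun S _ => ⟨fun e => ⟨e ▸ (mem_Ioc.1 hn).2, e⟩, fun e => e.2⟩)
      fun S hS => by rw [(mem_filter.1 hS).2.2]
  have h2 := abel_le (a := a) (f := xs L) (K := K)
    (fun x => by simpa using (h1 x fun _ => 1).trans_le (by simpa using h x)) (xs_nonneg L)
    (fun n hn => xs_anti hL hn n.le_succ) (∏ p ∈ P, p)
  rw [h1, filter_true_of_mem fun S hS => prod_le_prod_of_subset_of_one_le' (mem_powerset.1 hS)
    fun p hp _ => (hP p hp).one_le] at h2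
  rw [prod_one_add]
  refine le_trans (le_of_eq (sum_congr rfl fun S _ => ?_))
    (h2.trans (mul_le_mul_of_nonneg_left (sum_xs_le hL _) hK))
  rw [prod_mul_distrib]
  congr 1
  induction S using Finset.induction_on with
  | empty => simp [xs_one]
  | insert p S hp ih =>
    rw [prod_insert hp, prod_insert hp, xs_mul, ih (mem_powerset.2
      ((subset_insert p S).trans (mem_powerset.1 ‹_›)))]

theorem inv_le_xs_add {L : ℝ} {p : ℕ} (hp : 0 < p) :
    (1 / p : ℝ) ≤ xs L p + Real.log p / p / L := by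
  have p0 : (0 : ℝ) < p := by exact_mod_cast hp
  have h1 : xs L p = 1 / p * Real.exp (-(Real.log p / L)) := by
    rw [xs, neg_add, Real.rpow_add p0, Real.rpow_neg_one, Real.rpow_def_of_pos p0, one_div (p : ℝ)]
    congr 2
    ring
  have h2 := mul_le_mul_of_nonneg_left (Real.add_one_le_exp (-(Real.log p / L)))
    (one_div_pos.2 p0).le
  rw [h1]
  calc (1 / p : ℝ) = 1 / p * (-(Real.log p / L) + 1) + Real.log p / p / L := by ring
    _ ≤ _ := by linarith

theorem sum_log_div_le {P : Finset ℕ} {X : ℕ} (hX : 1 ≤ X) (hP : ∀ p ∈ P, p.Prime ∧ p ≤ X) :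
    ∑ p ∈ P, Real.log p / p ≤ Real.log X + 6 := by
  have h3 : Real.log 4 ≤ 2 := by
    rw [show (4 : ℝ) = 2 ^ 2 by norm_num, Real.log_pow]
    push_cast
    linarith [log_two_le]
  have h1 := lam_div_upper hX
  have h2 := sum_le_sum_of_subset_of_nonneg (f := fun m : ℕ => Λ m / (m : ℝ)) (s := P) (t := Ioc 0 X)
    (fun p hp => mem_Ioc.2 ⟨(hP p hp).1.pos, (hP p hp).2⟩) fun m _ _ =>
      div_nonneg ArithmeticFunction.vonMangoldt_nonneg m.cast_nonneg
  rw [sum_congr rfl fun p hp => by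
    rw [ArithmeticFunction.vonMangoldt_apply_prime (hP p hp).1]] at h2
  linarith

/-- A linear bound for the summatory function bounds the mass on the primes. -/
theorem mass_le {P : Finset ℕ} {X : ℕ} (hX : 2 ≤ X) (hP : ∀ p ∈ P, p.Prime ∧ p ≤ X) {r : ℕ → ℝ}
    {g K : ℝ} (hr : ∀ p, 0 ≤ r p ∧ r p ≤ g) (hK : 0 < K)
    (h : ∀ x : ℕ, ∑ S ∈ P.powerset with ∏ p ∈ S, p ≤ x, ∏ p ∈ S, r p ≤ K * x) :
    ∑ p ∈ P, r p / p ≤ Real.log (Real.log X) + (Real.log K + 2 + 2 * g ^ 2 + 13 * g) := by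
  set L := Real.log X with hLd
  have hL2 : 1 / 2 ≤ L := log_two_ge.trans (Real.log_le_log two_pos (by exact_mod_cast hX))
  have hL : 0 < L := by linarith
  have g0 : 0 ≤ g := (hr 0).1.trans (hr 0).2
  have h0 : ∀ p, 0 ≤ r p * xs L p := fun p => mul_nonneg (hr p).1 (xs_nonneg _ _)
  have h1 := Real.log_le_log (prod_pos fun p _ => by linarith [h0 p])
    (euler_le (fun p hp => (hP p hp).1) hK.le hL h)
  rw [Real.log_prod fun p _ => by linarith [h0 p], Real.log_mul hK.ne' (by positivity)] at h1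
  have h2 : Real.log (1 + L) ≤ 2 + Real.log L := by
    have := Real.log_le_log (by positivity) (show 1 + L ≤ 3 * L by linarith)
    rw [Real.log_mul (by norm_num) hL.ne'] at this
    linarith [Real.log_le_sub_one_of_pos (show (0 : ℝ) < 3 by norm_num)]
  have h3 : ∑ p ∈ P, (r p * xs L p) ^ 2 ≤ g ^ 2 * 2 := by
    refine le_trans ?_ (mul_le_mul_of_nonneg_left ((sum_le_sum_of_subset_of_nonneg (s := P)
      (t := Icc 1 X) (fun p hp => mem_Icc.2 ⟨(hP p hp).1.pos, (hP p hp).2⟩)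
      fun _ _ _ => by positivity).trans (sum_inv_sq_le X)) (sq_nonneg g))
    rw [mul_sum]
    refine sum_le_sum fun p hp => ?_
    rw [← one_div_pow, ← mul_pow]
    exact pow_le_pow_left₀ (h0 p) (mul_le_mul (hr p).2 (xs_le hL (hP p hp).1.pos)
      (xs_nonneg _ _) g0) 2
  have h4 : ∑ p ∈ P, r p / p ≤ ∑ p ∈ P, (Real.log (1 + r p * xs L p) + (r p * xs L p) ^ 2 +
      g / L * (Real.log p / p)) := sum_le_sum fun p hp => by
    have a1 := mul_le_mul_of_nonneg_left (inv_le_xs_add (L := L) (hP p hp).1.pos) (hr p).1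
    have a2 := mul_le_mul_of_nonneg_right (hr p).2 (show 0 ≤ Real.log p / p / L from
      div_nonneg (div_nonneg (Real.log_natCast_nonneg p) p.cast_nonneg) hL.le)
    have a3 := le_log_add (h0 p)
    calc r p / p = r p * (1 / p) := by ring
      _ ≤ r p * xs L p + g * (Real.log p / p / L) := by linarith
      _ = r p * xs L p + g / L * (Real.log p / p) := by ring
      _ ≤ _ := by linarith
  rw [sum_add_distrib, sum_add_distrib, ← mul_sum] at h4
  have h5 := mul_le_mul_of_nonneg_left (sum_log_div_le (by omega) hP) (div_nonneg g0 hL.le)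
  have h6 : g / L * (L + 6) ≤ 13 * g := by
    rw [div_mul_eq_mul_div, div_le_iff₀ hL]
    nlinarith
  linarith

/-- The lower bound for the sum of the reciprocals of the primes. -/
theorem mass_ge {X : ℕ} (hX : 2 ≤ X) :
    Real.log (Real.log X) - 1 ≤ ∑ p ∈ Ioc 0 X with p.Prime, (1 / p : ℝ) := by
  set P := (Ioc 0 X).filter Nat.Prime with hP
  have hL : 0 < Real.log X := Real.log_pos (by exact_mod_cast hX)
  have h1 : Real.log X ≤ ∑ n ∈ Icc 1 X, (1 / n : ℝ) := by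
    have := log_add_one_le_harmonic X
    rw [harmonic_eq_sum_Icc] at this
    push_cast at this
    simp only [one_div]
    exact (Real.log_le_log (by positivity) (by linarith)).trans this
  choose a b hab using Nat.sq_mul_squarefree
  have h2 : ∑ n ∈ Icc 1 X, (1 / n : ℝ) ≤
      ∑ x ∈ P.powerset ×ˢ Icc 1 X, (∏ p ∈ x.1, (1 / p : ℝ)) * (1 / (x.2 : ℝ) ^ 2) := by
    have e : ∀ n, b n ^ 2 * ∏ p ∈ (a n).primeFactors, p = n := fun n => by
      rw [Nat.prod_primeFactors_of_squarefree (hab n).2, (hab n).1]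
    have h5 := sum_image (s := Icc 1 X) (g := fun n => ((a n).primeFactors, b n))
      (f := fun x : Finset ℕ × ℕ => (∏ p ∈ x.1, (1 / p : ℝ)) * (1 / (x.2 : ℝ) ^ 2))
      fun n _ m _ k => by rw [← e n, ← e m, (Prod.mk.inj k).1, (Prod.mk.inj k).2]
    refine le_trans (le_of_eq (h5.trans (sum_congr rfl fun n _ => ?_)).symm)
      (sum_le_sum_of_subset_of_nonneg (fun x hx => ?_) fun _ _ _ => by positivity)
    · conv_rhs => rw [← e n]
      simp [prod_inv_distrib]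
    · obtain ⟨n, hn, rfl⟩ := mem_image.1 hx
      obtain ⟨n1, n2⟩ := mem_Icc.1 hn
      have d1 : a n ∣ n := Dvd.intro_left _ (hab n).1
      have d2 : b n ∣ n := (dvd_pow_self _ two_ne_zero).trans (Dvd.intro _ (hab n).1)
      refine mem_product.2 ⟨mem_powerset.2 fun p hp => ?_, mem_Icc.2
        ⟨Nat.pos_of_dvd_of_pos d2 n1, (Nat.le_of_dvd n1 d2).trans n2⟩⟩
      have pp := Nat.prime_of_mem_primeFactors hp
      exact mem_filter.2 ⟨mem_Ioc.2 ⟨pp.pos,
        (Nat.le_of_dvd n1 ((Nat.dvd_of_mem_primeFactors hp).trans d1)).trans n2⟩, pp⟩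
  rw [sum_product' (f := fun (S : Finset ℕ) (b : ℕ) => (∏ p ∈ S, (1 / p : ℝ)) * (1 / (b : ℝ) ^ 2)),
    ← sum_mul_sum, ← prod_one_add] at h2
  have h3 : ∏ p ∈ P, (1 + 1 / p : ℝ) ≤ Real.exp (∑ p ∈ P, (1 / p : ℝ)) := by
    rw [Real.exp_sum]
    exact prod_le_prod (fun p _ => by positivity) fun p _ => by
      linarith [Real.add_one_le_exp (1 / p : ℝ)]
  have h4 := Real.log_le_log hL (h1.trans (h2.trans (mul_le_mul h3 (sum_inv_sq_le X)
    (by positivity) (by positivity))))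
  rw [Real.log_mul (by positivity) two_ne_zero, Real.log_exp] at h4
  linarith [log_two_le]

end Pool.Agent.B6
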