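import Pool.Agent.Lib.MP_696deb_nt.B6.SBa
import Pool.Agent.Lib.MP_696deb_nt.B2.B3a
import Pool.Agent.Lib.MP_696deb_nt.B2.B2c
import Pool.Agent.Lib.MP_f8d36e_nt.Quad

/-! Counting primes of degree one by the pigeonhole principle. -/

set_option autoImplicit false

open Finset
open scoped Classical NNReal

namespace Pool.Agent.B6

open Pool.Agent.Lib.MP_696deb_nt Pool.Agent.Lib.MP_696deb_nt.B2 Pool.Agent.Lib.MP_f8d36e_nt

/-- A complete family of conjugate algebraic integers of size at most `B`. -/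
structure Tc {I : Type} (t : I → Qbar) (ac : Gam → I → I) (B : ℝ) : Prop where
  inj : Function.Injective t
  int : ∀ i, IsIntegral ℤ (t i)
  act : ∀ g i, g (t i) = t (ac g i)
  tr : ∀ i j, ∃ g, ac g i = j
  B1 : 1 ≤ B
  bd : ∀ i, ‖jC (t i)‖ ≤ B

theorem frob_int {w : Plc} {φ : Gam} (h : IsFrob w w.p φ) {y : Qbar} (h1 : IsIntegral ℤ y)
    (hy : φ y = y) : ∃ a : ℤ, w.V (y - a) < 1 := by
  have : Fact w.p.Prime := ⟨w.prime⟩
  let := Ideal.Quotient.field (b2aP w)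
  have : CharP (Zbar ⧸ b2aP w) w.p := (CharP.charP_iff_prime_eq_zero w.prime).2 (by
    rw [← map_natCast (Ideal.Quotient.mk (b2aP w))]
    exact Ideal.Quotient.eq_zero_iff_mem.2 (b2a_p_mem w))
  have h2 := h.2 y (w.V_le_one_of_isIntegral h1)
  rw [hy] at h2
  obtain ⟨a, ha⟩ := (mem_bot_iff_intCast w.p _).1 ((Subfield.mem_bot_iff_pow_eq_self
    (F := Zbar ⧸ b2aP w) (p := w.p) (x := Ideal.Quotient.mk (b2aP w) ⟨y, h1⟩)).2 (by
      rw [← map_pow, eq_comm]
      exact Ideal.Quotient.eq.2 (b2a_mem.2 h2)))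
  rw [← map_intCast (Ideal.Quotient.mk (b2aP w)), eq_comm] at ha
  exact ⟨a, b2a_mem.1 (Ideal.Quotient.eq.1 ha)⟩

theorem V_le_of_fx {w : Plc} {y : Qbar} (hy : Fx (Ine w) y) (h : w.V y < 1) :
    w.V y ≤ (w.p : ℝ≥0)⁻¹ := by
  rcases eq_or_ne y 0 with rfl | h0
  · simp
  obtain ⟨k, hk⟩ := V_of_fx_ine hy h0
  have p1 : (1 : ℝ≥0) < w.p := by exact_mod_cast w.prime.one_lt
  rw [hk, ← zpow_neg] at h ⊢
  rw [zpow_lt_one_iff_right₀ p1] at h
  rw [← zpow_neg_one]
  exact zpow_le_zpow_right₀ p1.le (by omega)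

theorem thue_vec {g : ℕ} (hg : g ≠ 0) {S : Finset ℕ} (hS : ∀ p ∈ S, p.Prime) (a : ℕ → ℤ) :
    ∃ v : Fin g → ℤ, v ≠ 0 ∧ (∀ k, |v k| ≤ Nat.nthRoot g (∏ p ∈ S, p)) ∧
      ∀ p ∈ S, (p : ℤ) ∣ ∑ k, v k * a p ^ (k : ℕ) := by
  set H := Nat.nthRoot g (∏ p ∈ S, p) with hH
  obtain ⟨u, hu, u', hu', ne, e⟩ := exists_ne_map_eq_of_card_lt_of_maps_to
    (s := Fintype.piFinset fun _ : Fin g => Icc (0 : ℤ) H)
    (t := S.pi fun p => Ico (0 : ℤ) p) (by
      simpa [card_pi] using Nat.lt_pow_nthRoot_add_one hg (∏ p ∈ S, p))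
    (f := fun u p _ => (∑ k, u k * a p ^ (k : ℕ)) % p) fun u _ => mem_pi.2 fun p hp => by
      have : (0 : ℤ) < p := by exact_mod_cast (hS p hp).pos
      exact mem_Ico.2 ⟨Int.emod_nonneg _ this.ne', Int.emod_lt_of_pos _ this⟩
  refine ⟨u' - u, sub_ne_zero.2 ne.symm, fun k => ?_, fun p hp => ?_⟩
  · have h1 := mem_Icc.1 (Fintype.mem_piFinset.1 hu k)
    have h2 := mem_Icc.1 (Fintype.mem_piFinset.1 hu' k)
    rw [Pi.sub_apply, abs_le]
    omega
  · simp only [Pi.sub_apply, sub_mul, sum_sub_distrib]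
    exact Int.ModEq.dvd (congrFun (congrFun e p) hp)

variable {I : Type} [Fintype I] {t : I → Qbar} {ac : Gam → I → I} {B : ℝ}

/-- The value of a polynomial of small degree. -/
noncomputable def tev (t : I → Qbar) (v : Fin (Fintype.card I) → ℤ) (i : I) : Qbar :=
  ∑ k, v k * t i ^ (k : ℕ)

namespace Tc

variable (h : Tc t ac B)
include h

theorem bij (g : Gam) : Function.Bijective (ac g) := Finite.injective_iff_bijective.1
  fun i j e => h.inj (g.injective (by rw [h.act, h.act, e]))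

theorem ev_act (v : Fin (Fintype.card I) → ℤ) (g : Gam) (i : I) :
    g (tev t v i) = tev t v (ac g i) := by
  simp only [tev, map_sum, map_mul, map_intCast, map_pow, h.act]

theorem ev_int (v : Fin (Fintype.card I) → ℤ) (i : I) : IsIntegral ℤ (tev t v i) :=
  IsIntegral.sum _ fun k _ => (isIntegral_algebraMap (R := ℤ) (A := Qbar) (x := v k)).mul
    ((h.int i).pow _)

theorem ev_ne {v : Fin (Fintype.card I) → ℤ} (hv : v ≠ 0) (i : I) : tev t v i ≠ 0 := fun e => by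
  have h1 := Matrix.eq_zero_of_forall_index_sum_mul_pow_eq_zero (v := fun k => (v k : Qbar))
    (h.inj.comp (Fintype.equivFin I).symm.injective) fun j => by
      obtain ⟨g, hg⟩ := h.tr i ((Fintype.equivFin I).symm j)
      have := h.ev_act v g i
      rw [e, map_zero, hg] at this
      exact this.symm
  exact hv (funext fun k => Int.cast_eq_zero.1 (congrFun h1 k))

theorem exists_norm {v : Fin (Fintype.card I) → ℤ} {H : ℕ} (hH : ∀ k, |v k| ≤ H) :
    ∃ c : ℤ, (c : Qbar) = ∏ i, tev t v i ∧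
      (|c| : ℝ) ≤ (Fintype.card I * B ^ Fintype.card I) ^ Fintype.card I * H ^ Fintype.card I := by
  obtain ⟨c, hc⟩ := quad_int (IsIntegral.prod (s := univ) (tev t v) fun i _ => h.ev_int v i) fun g => by
    rw [map_prod]
    simp only [h.ev_act]
    exact (h.bij g).prod_comp _
  refine ⟨c, hc, ?_⟩
  have h1 := congrArg (fun x => ‖jC x‖) hc
  simp only [map_intCast, Complex.norm_intCast, map_prod, norm_prod] at h1
  rw [h1, ← mul_pow, ← card_univ, ← prod_const]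
  refine prod_le_prod (fun _ _ => norm_nonneg _) fun i _ => ?_
  rw [tev, map_sum, mul_assoc, card_univ, ← nsmul_eq_mul]
  refine (norm_sum_le _ _).trans ((sum_le_card_nsmul _ _
    (B ^ Fintype.card I * H) fun k _ => ?_).trans_eq (by simp))
  rw [map_mul, map_intCast, map_pow, norm_mul, norm_pow, Complex.norm_intCast, mul_comm]
  refine mul_le_mul ((pow_le_pow_left₀ (norm_nonneg _) (h.bd i) _).trans
    (pow_le_pow_right₀ h.B1 k.2.le)) (by exact_mod_cast hH k) (abs_nonneg _)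
    (pow_nonneg (zero_le_one.trans h.B1) _)

/-- Large primes are unramified. -/
theorem ine_fix {w : Plc} (hw : (2 * B) ^ Fintype.card I ^ 2 < w.p) {σ : Gam} (hσ : σ ∈ Ine w)
    (i : I) : ac σ i = i := by
  by_contra ne
  have i1 : ∀ x : I × I, IsIntegral ℤ (t x.1 - t x.2) := fun x => (h.int _).sub (h.int _)
  obtain ⟨c, hc⟩ := quad_int (IsIntegral.prod (s := (univ : Finset I).offDiag)
    (fun x => t x.1 - t x.2) fun x _ => i1 x) fun g => by
      rw [map_prod]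
      exact prod_bijective (Prod.map (ac g) (ac g)) ((h.bij g).prodMap (h.bij g))
        (fun x => by simp [(h.bij g).1.eq_iff]) fun x _ => by simp [h.act]
  have h0 : c ≠ 0 := by
    rintro rfl
    obtain ⟨x, hx, e⟩ := prod_eq_zero_iff.1 (hc.symm.trans Int.cast_zero)
    exact (mem_offDiag.1 hx).2.2 (h.inj (sub_eq_zero.1 e))
  have h1 : w.V c < 1 := by
    rw [hc, ← prod_erase_mul _ _ (show (ac σ i, i) ∈ _ from mem_offDiag.2
      ⟨mem_univ _, mem_univ _, ne⟩)]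
    refine b2a_mul_lt w (w.V_le_one_of_isIntegral (IsIntegral.prod _ fun x _ => i1 x)) ?_
    rw [← h.act]
    exact hσ.2 _ (w.V_le_one_of_isIntegral (h.int i))
  have h2 : (w.p : ℝ) ≤ |(c : ℝ)| := by exact_mod_cast Int.le_abs_of_dvd h0 (b2c_lt.1 h1)
  have h3 := congrArg (fun x => ‖jC x‖) hc
  simp only [map_intCast, Complex.norm_intCast, map_prod, norm_prod] at h3
  have b1 := h.B1
  have h4 := (prod_le_prod (s := (univ : Finset I).offDiag) (fun _ _ => norm_nonneg _)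
    (g := fun _ => 2 * B) fun x _ => (map_sub jC (t x.1) (t x.2) ▸ norm_sub_le _ _).trans
      (by linarith [h.bd x.1, h.bd x.2])).trans_eq (prod_const _)
  have h5 := pow_le_pow_right₀ (show 1 ≤ 2 * B by linarith)
    (show #(univ : Finset I).offDiag ≤ Fintype.card I ^ 2 by
      rw [offDiag_card, card_univ, sq]; omega)
  linarith

theorem count [Nonempty I] {P : Finset ℕ} {w : ℕ → Plc} {φ : ℕ → Gam} {z : ℝ}
    (hz : (Fintype.card I * B ^ Fintype.card I) ^ Fintype.card I ≤ z)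
    (hz' : (2 * B) ^ Fintype.card I ^ 2 ≤ z)
    (hP : ∀ p ∈ P, z < p ∧ (w p).p = p ∧ IsFrob (w p) p (φ p)) (x : ℕ) :
    ∑ S ∈ P.powerset with ∏ p ∈ S, p ≤ x, ∏ p ∈ S, #{i | ac (φ p) i = i} ≤
      3 ^ Fintype.card I * x := by
  have g0 : Fintype.card I ≠ 0 := Fintype.card_ne_zero
  have pp : ∀ p ∈ P, p.Prime := fun p hp => (hP p hp).2.1 ▸ (w p).prime
  rcases Nat.eq_zero_or_pos x with rfl | x0
  · refine (sum_eq_zero fun S hS => absurd (mem_filter.1 hS).2 (not_le.2 (prod_pos fun p hp =>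
      (pp p (mem_powerset.1 (mem_filter.1 hS).1 hp)).pos))).trans_le (Nat.zero_le _)
  set H := Nat.nthRoot (Fintype.card I) x with hH
  have H1 : 1 ≤ H := (Nat.le_nthRoot_iff g0).2 (by rwa [one_pow])
  have H2 : H ^ Fintype.card I ≤ x := (Nat.le_nthRoot_iff g0).1 le_rfl
  simp only [← card_pi]
  rw [← card_sigma]
  refine (card_le_card_of_forall_subsingleton
    (t := Fintype.piFinset fun _ : Fin (Fintype.card I) => Icc (-(H : ℤ)) H)
    (fun a v => (∀ q ∈ P, q ∈ a.1 ↔ (w q).V (∏ i, tev t v i) < 1) ∧ ∀ p (hp : p ∈ a.1),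
      (w p).V (tev t v (a.2 p hp)) < 1 ∧ ((p : ℝ≥0) ^ 2)⁻¹ < (w p).V (∏ i, tev t v i))
    ?_ ?_).trans ?_
  · rintro ⟨S, f⟩ hm
    obtain ⟨hS, hf⟩ := mem_sigma.1 hm
    obtain ⟨hS, hx⟩ := mem_filter.1 hS
    replace hS := mem_powerset.1 hS
    have ex : ∀ p, ∃ a : ℤ, ∀ hp : p ∈ S, (w p).V (t (f p hp) - a) < 1 := fun p => by
      by_cases hp : p ∈ S
      · obtain ⟨a, ha⟩ := frob_int (w := w p) (φ := φ p) ((hP p (hS hp)).2.1.symm ▸
          (hP p (hS hp)).2.2) (h.int (f p hp)) (by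
            rw [h.act, (mem_filter.1 (mem_pi.1 hf p hp)).2])
        exact ⟨a, fun _ => ha⟩
      · exact ⟨0, fun k => absurd k hp⟩
    choose a ha using ex
    obtain ⟨v, v0, v1, v2⟩ := thue_vec g0 (fun p hp => pp p (hS hp)) a
    obtain ⟨c, hc, hb⟩ := h.exists_norm v1
    have c0 : c ≠ 0 := fun e => prod_ne_zero_iff.2 (fun i _ => h.ev_ne v0 i)
      (hc.symm.trans (by rw [e, Int.cast_zero]))
    have k1 : ∀ p (hp : p ∈ S), (w p).V (tev t v (f p hp)) < 1 := fun p hp => by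
      rw [show tev t v (f p hp) = ∑ k, (v k : Qbar) * (t (f p hp) ^ (k : ℕ) - a p ^ (k : ℕ)) +
        ((∑ k, v k * a p ^ (k : ℕ) : ℤ) : Qbar) by simp [tev, mul_sub]]
      exact (w p).V.map_add_lt ((w p).V.map_sum_lt one_ne_zero fun k _ => b2a_mul_lt _
        ((w p).V_int_le _) (b2a_pow_sub _ ((w p).V_le_one_of_isIntegral (h.int _))
          ((w p).V_int_le _) (ha p hp) _)) (b2c_lt.2 ((hP p (hS hp)).2.1.symm ▸ v2 p hp))
    have k2 : ∀ q ∈ P, (w q).V (∏ i, tev t v i) < 1 ↔ (q : ℤ) ∣ c := fun q hq => by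
      rw [← hc, b2c_lt, (hP q hq).2.1]
    have k3 : ∀ p ∈ S, (p : ℤ) ∣ c := fun p hp => (k2 p (hS hp)).1 (by
      rw [← prod_erase_mul _ _ (mem_univ (f p hp))]
      exact b2a_mul_lt _ ((w p).V_le_one_of_isIntegral (IsIntegral.prod _ fun i _ => h.ev_int v i))
        (k1 p hp))
    obtain ⟨d, rfl⟩ : ((∏ p ∈ S, p : ℕ) : ℤ) ∣ c := by
      rw [Nat.cast_prod]
      exact prod_dvd_of_coprime (fun p hp q hq ne => Nat.isCoprime_iff_coprime.2
        ((Nat.coprime_primes (pp p (hS hp)) (pp q (hS hq))).2 ne)) k3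
    have n0 : (0 : ℝ) < (∏ p ∈ S, p : ℕ) := by
      exact_mod_cast prod_pos fun p hp => (pp p (hS hp)).pos
    have k4 : |(d : ℝ)| ≤ z := by
      have e : (Nat.nthRoot (Fintype.card I) (∏ p ∈ S, p) : ℝ) ^ Fintype.card I ≤
          (∏ p ∈ S, p : ℕ) := by exact_mod_cast (Nat.le_nthRoot_iff g0).1 le_rfl
      have b0 := zero_le_one.trans h.B1
      rw [Int.cast_mul, Int.cast_natCast, abs_mul, abs_of_pos n0, mul_comm] at hb
      exact le_of_mul_le_mul_right (hb.trans (mul_le_mul hz e (by positivity)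
        (le_trans (by positivity) hz))) n0
    have k5 : ∀ q ∈ P, ¬ (q : ℤ) ∣ d := fun q hq e => by
      have : (q : ℝ) ≤ |(d : ℝ)| := by exact_mod_cast Int.le_abs_of_dvd (right_ne_zero_of_mul c0) e
      linarith [(hP q hq).1]
    have k6 : ∀ q ∈ P, ∀ T ⊆ S, q ∣ ∏ p ∈ T, p → q ∈ T := fun q hq T hT e => by
      obtain ⟨p, hp, e⟩ := ((pp q hq).prime.dvd_finsetProd_iff _).1 e
      rwa [(Nat.prime_dvd_prime_iff_eq (pp q hq) (pp p (hS (hT hp)))).1 e]
    refine ⟨v, Fintype.mem_piFinset.2 fun k => mem_Icc.2 (abs_le.1 ((v1 k).trans ?_)),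
      fun q hq => ?_, fun p hp => ⟨k1 p hp, ?_⟩⟩
    · exact_mod_cast (Nat.le_nthRoot_iff g0).2 (((Nat.le_nthRoot_iff g0).1 le_rfl).trans hx)
    · rw [k2 q hq]
      exact ⟨k3 q, fun e => k6 q hq S subset_rfl (Int.natCast_dvd_natCast.1
        (((Nat.prime_iff_prime_int.1 (pp q hq)).dvd_or_dvd e).resolve_right (k5 q hq)))⟩
    · have e := (hP p (hS hp)).2.1
      have p1 : (1 : ℝ≥0) < p := by exact_mod_cast (pp p (hS hp)).one_lt
      have u1 : (w p).V d = 1 := (w p).V_int_eq_one.2 (e.symm ▸ k5 p (hS hp))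
      have u2 : (w p).V ((∏ q ∈ S.erase p, q : ℕ) : ℤ) = 1 := (w p).V_int_eq_one.2 (by
        rw [e, Int.natCast_dvd_natCast]
        exact fun k => notMem_erase p S (k6 p (hS hp) _ (erase_subset _ _) k))
      have u3 := (w p).hV
      rw [e] at u3
      rw [← hc, ← mul_prod_erase _ _ hp, Nat.cast_mul, Int.cast_mul, Int.cast_mul, map_mul, map_mul,
        u1, u2, Int.cast_natCast, u3, mul_one, mul_one]
      exact inv_strictAnti₀ (zero_lt_one.trans p1) (lt_self_pow₀ p1 one_lt_two)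
  · rintro v - ⟨S, f⟩ ⟨hm, a1, a2⟩ ⟨S', f'⟩ ⟨hm', b1, b2⟩
    have hS := mem_powerset.1 (mem_filter.1 (mem_sigma.1 hm).1).1
    have hS' := mem_powerset.1 (mem_filter.1 (mem_sigma.1 hm').1).1
    obtain rfl : S = S' := Subset.antisymm (fun q hq => (b1 q (hS hq)).2 ((a1 q (hS hq)).1 hq))
      fun q hq => (a1 q (hS' hq)).2 ((b1 q (hS' hq)).1 hq)
    congr 1
    funext p hp
    by_contra ne
    have e := (hP p (hS hp)).2.1
    have fx : ∀ i, Fx (Ine (w p)) (tev t v i) := fun i σ hσ => by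
      rw [h.ev_act, h.ine_fix (e.symm ▸ hz'.trans_lt (hP p (hS hp)).1) hσ]
    refine (a2 p hp).2.not_ge ?_
    rw [← mul_prod_erase _ _ (mem_univ (f' p hp)), ← mul_prod_erase _ _
      (mem_erase.2 ⟨ne, mem_univ _⟩), map_mul, map_mul, ← mul_assoc, sq, mul_inv]
    have u1 := V_le_of_fx (fx _) (b2 p hp).1
    have u2 := V_le_of_fx (fx _) (a2 p hp).1
    rw [e] at u1 u2
    exact (mul_le_of_le_one_right' ((w p).V_le_one_of_isIntegral
      (IsIntegral.prod _ fun i _ => h.ev_int v i))).trans (mul_le_mul' u1 u2)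
  · rw [Fintype.card_piFinset, prod_const, card_univ, Fintype.card_fin, Int.card_Icc]
    exact (Nat.pow_le_pow_left (show _ ≤ 3 * H by omega) _).trans
      (by rw [mul_pow]; exact Nat.mul_le_mul_left _ H2)

/-- The mass of the primes of degree one, uniformly in the field. -/
theorem mass [Nonempty I] {P : Finset ℕ} {w : ℕ → Plc} {φ : ℕ → Gam} {z : ℝ} {X : ℕ} (hX : 2 ≤ X)
    (hz : (Fintype.card I * B ^ Fintype.card I) ^ Fintype.card I ≤ z)
    (hz' : (2 * B) ^ Fintype.card I ^ 2 ≤ z)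
    (hP : ∀ p ∈ P, z < p ∧ p ≤ X ∧ (w p).p = p ∧ IsFrob (w p) p (φ p)) :
    ∑ p ∈ P, (#{i | ac (φ p) i = i} : ℝ) / p ≤ Real.log (Real.log X) +
      (2 + 15 * Fintype.card I + 2 * Fintype.card I ^ 2) := by
  have h1 := mass_le hX (P := P) (fun p hp => ⟨(hP p hp).2.2.1 ▸ (w p).prime, (hP p hp).2.1⟩)
    (r := fun p => (#{i | ac (φ p) i = i} : ℝ)) (g := Fintype.card I) (K := 3 ^ Fintype.card I)
    (fun p => ⟨Nat.cast_nonneg _, by exact_mod_cast card_le_univ _⟩) (by positivity) fun x => by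
      exact_mod_cast h.count hz hz' (fun p hp => ⟨(hP p hp).1, (hP p hp).2.2⟩) x
  rw [Real.log_pow] at h1
  have h2 := mul_le_mul_of_nonneg_left (Real.log_le_sub_one_of_pos (show (0 : ℝ) < 3 by norm_num))
    (Nat.cast_nonneg (α := ℝ) (Fintype.card I))
  linarith

end Tc

end Pool.Agent.B6
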