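import Pool.Agent.Lib.MP_696deb_nt.B6.SK2

/-! Reciprocity for the cocycles attached to primes, and classes of primes. -/

set_option autoImplicit false

open scoped Classical NumberTheorySymbols
open Finset Function

namespace Pool.Agent.B6.S

open Pool.Agent.Lib.MP_696deb_nt Pool.Agent.Lib.MP_696deb_nt.Sm

namespace Cv

variable (C : Cv)

/-- The diagonal bit of a prime of the second type. -/
noncomputable def spin (p : ℕ) : F2 := C.sy (C.b2 p) p + C.sp p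

/-- Two primes look the same at the bad primes and at the primes of `D`. -/
structure Same (D : ℤ) (p p' : ℕ) : Prop where
  chi : ∀ v, C.FP D v → ∀ g ∈ Gv v, chi ((p : ℤ) * p') g = 0
  be : ∀ v, C.FP D v → ∀ g ∈ Gv v, C.b2 p g = C.b2 p' g
  spin : C.spin p = C.spin p'

variable {C} {p p' q : ℕ} {i j : Fin 3} {c : GQ → C.A} {D : ℤ}

theorem Same.mod8 (h : C.Same D p p') (hp : C.Gp p) (hp' : C.Gp p') : p % 8 = p' % 8 := by
  have h1 := hp.1.eq_two_or_odd.resolve_left hp.ne_two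
  have h2 := hp'.1.eq_two_or_odd.resolve_left hp'.ne_two
  have h3 : (p * p') % 2 = 1 := by rw [Nat.mul_mod, h1, h2]
  have h4 := (two_of_chi (e := 0) (m := (p : ℤ) * p') (by norm_cast; omega) (by
    simpa only [pow_zero, one_mul] using h.chi 2 ⟨Nat.prime_two, .inl C.two_le_N0⟩)).2
  have h5 : (p % 8 * (p' % 8)) % 8 = 1 := by
    rw [← Nat.mul_mod]
    exact_mod_cast h4
  have h6 := Nat.mod_lt p (by norm_num : 0 < 8)
  have h7 := Nat.mod_lt p' (by norm_num : 0 < 8)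
  generalize p % 8 = a at *
  generalize p' % 8 = b at *
  interval_cases a <;> omega

theorem sk3_zero {u b : GQ → C.A} {v : ℕ} (hv : v.Prime) (h : C.Z2 ⊤ u) (k : C.Z2 ⊤ b)
    (h0 : ∀ g ∈ Gv v, b g = 0) : C.Bv v u b = 0 :=
  (Bv_comm hv (h.mono le_top) (k.mono le_top)).trans (Bv_zero hv h0 (h.mono le_top))

theorem sk3_f2 : ∀ x y z : F2, (x + y = z → y = x + z) ∧ (x + y = 0 → x = y) := by decide

theorem be_flip (hp : C.Gp p) (hi : C.pm (frb p) i = i) (hq : C.Gp q) (hj : C.pm (frb q) j = j)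
    (h : q ≠ p) : C.ep (C.be p i (frb q)) (C.T j) = C.ep (C.be q j (frb p)) (C.T i) +
      ∑ v ∈ C.bad, C.Bv v (C.be p i) (C.be q j) := by
  have h1 := C.z2_be p i
  have h2 := C.z2_be q j
  have k := recip' h1 h2 {p, q} (by simp [hp, hq]) fun v hv h0 => by
    rw [mem_insert, mem_singleton, not_or] at h0
    exact ⟨be_unr hp hi hv h0.1, be_unr hq hj hv h0.2⟩
  rw [sum_pair h.symm, Bv_comm hp.1 (h1.mono le_top) (h2.mono le_top),
    Bv_tame hp (h2.mono le_top) (h1.mono le_top) (be_unr hq hj hp h.symm),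
    Bv_tame hq (h1.mono le_top) (h2.mono le_top) (be_unr hp hi hq h), be_sig hp hi,
    be_sig hq hj] at k
  exact (sk3_f2 _ _ _).1 k

theorem Same.sy (h : C.Same D p p') (hD : D ≠ 0) (hp : C.Ty2 p) (hp' : C.Ty2 p')
    (k : ¬ (p : ℤ) ∣ D) (k' : ¬ (p' : ℤ) ∣ D) (hc : c ∈ C.U D) : C.sy c p = C.sy c p' := by
  rcases eq_or_ne p p' with rfl | e
  · rfl
  have h1 := (C.z2_be p (C.tp p)).sub (C.z2_be p' (C.tp p'))
  have h0 : ∀ v, C.FP D v → C.Bv v c (C.be p (C.tp p) - C.be p' (C.tp p')) = 0 := fun v hv =>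
    sk3_zero hv.1 hc.1 h1 fun g hg => sub_eq_zero.2 (h.be v hv g hg)
  have hV : ∀ v, v ∈ D.natAbs.primeFactors.filter C.Gp ↔ C.Gp v ∧ (v : ℤ) ∣ D := fun v => by
    rw [mem_filter, Nat.mem_primeFactors, Int.natCast_dvd]
    exact ⟨fun a => ⟨a.2, a.1.2.1⟩, fun a => ⟨⟨a.1.1, a.2, Int.natAbs_ne_zero.2 hD⟩, a.1⟩⟩
  have k1 := recip' hc.1 h1 (insert p (insert p' (D.natAbs.primeFactors.filter C.Gp)))
    (fun v hv => by
      rcases mem_insert.1 hv with rfl | hv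
      · exact hp.1
      rcases mem_insert.1 hv with rfl | hv
      · exact hp'.1
      · exact ((hV v).1 hv).1) fun v hv h0 => by
      rw [mem_insert, mem_insert, not_or, not_or, hV] at h0
      refine ⟨hc.2.2 v hv fun a => h0.2.2 ⟨hv, a⟩, ?_⟩
      rw [Pi.sub_apply, be_unr hp.1 hp.fix hv h0.1, be_unr hp'.1 hp'.fix hv h0.2.1, sub_self]
  rw [sum_insert (by rw [mem_insert, hV]; tauto), sum_insert (by rw [hV]; tauto),
    sum_eq_zero fun v hv => h0 v ⟨((hV v).1 hv).1.1, .inr ((hV v).1 hv).2⟩,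
    sum_eq_zero fun v hv => h0 v ⟨(mem_bad.1 hv).1, .inl (mem_bad.1 hv).2⟩, add_zero,
    Bv_tame hp.1 (hc.1.mono le_top) (h1.mono le_top) (hc.2.2 p hp.1 k),
    Bv_tame hp'.1 (hc.1.mono le_top) (h1.mono le_top) (hc.2.2 p' hp'.1 k'), Pi.sub_apply,
    Pi.sub_apply, be_sig hp.1 hp.fix, be_sig hp'.1 hp'.fix, be_unr hp'.1 hp'.fix hp.1 e,
    be_unr hp.1 hp.fix hp'.1 e.symm, sub_zero, zero_sub, C.neg_two (C.two_T _)] at k1
  exact (sk3_f2 _ _ 0).2 k1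

/-- An everywhere unramified cocycle that vanishes at the bad primes has trivial symbols. -/
theorem sy_eq_zero (h : C.Z2 ⊤ c) (h1 : ∀ q, C.Gp q → c (sig q) = 0)
    (h2 : ∀ v ∈ C.bad, ∀ g ∈ Gv v, c g = 0) (hp : C.Ty2 p) : C.sy c p = 0 := by
  have h3 := C.z2_be p (C.tp p)
  have k := recip' h h3 {p} (by simp [hp.1]) fun v hv h0 =>
    ⟨h1 v hv, be_unr hp.1 hp.fix hv (notMem_singleton.1 h0)⟩
  rwa [sum_singleton, Bv_tame hp.1 (h.mono le_top) (h3.mono le_top) (h1 p hp.1),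
    be_sig hp.1 hp.fix, sum_eq_zero fun v hv =>
      Bv_zero (mem_bad.1 hv).1 (h2 v hv) (h3.mono le_top)] at k

theorem sk3_TS {u u' : GQ → C.A} (hu : C.Z2 ⊤ u) (hu' : C.Z2 ⊤ u') (h : ∀ g ∈ C.TS, u g = u' g)
    {v : ℕ} (hv : v.Prime) (h0 : v ≤ C.N0) : ∀ g ∈ Gv v, u g = u' g := fun g hg =>
  sub_eq_zero.1 (TS_coc hv h0 ((hu.sub hu').mono le_top)
    (fun g hg _ => sub_eq_zero.2 (h g hg)) g hg)

/-- The sum over the bad primes depends on finitely many values. -/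
theorem bad_congr {u u' b b' : GQ → C.A} (hu : C.Z2 ⊤ u) (hu' : C.Z2 ⊤ u') (hb : C.Z2 ⊤ b)
    (hb' : C.Z2 ⊤ b') (h : ∀ g ∈ C.TS, u g = u' g) (k : ∀ g ∈ C.TS, b g = b' g) :
    ∑ v ∈ C.bad, C.Bv v u b = ∑ v ∈ C.bad, C.Bv v u' b' :=
  sum_congr rfl fun _ hv => Bv_congr (mem_bad.1 hv).1
    (sk3_TS hu hu' h (mem_bad.1 hv).1 (mem_bad.1 hv).2)
    (sk3_TS hb hb' k (mem_bad.1 hv).1 (mem_bad.1 hv).2)

/-- Three bits attached to a prime and an automorphism. -/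
noncomputable def sk3_bits (C : Cv) (p : ℕ) (g : GQ) : F2 × F2 × F2 :=
  (chi p g, C.ep (C.b2 p g) (C.T 0), C.ep (C.b2 p g) (C.T 1))

theorem sk3_eq (hp : C.Gp p) (hp' : C.Gp p') {g : GQ} (h : C.sk3_bits p g = C.sk3_bits p' g) :
    chi ((p : ℤ) * p') g = 0 ∧ C.b2 p g = C.b2 p' g := by
  obtain ⟨h1, h2, h3⟩ : chi p g = chi p' g ∧ C.ep (C.b2 p g) (C.T 0) = C.ep (C.b2 p' g) (C.T 0) ∧
      C.ep (C.b2 p g) (C.T 1) = C.ep (C.b2 p' g) (C.T 1) := by
    simpa only [sk3_bits, Prod.mk.injEq] using h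
  have t : 2 • C.b2 p g = 0 := (C.z2_be p _).two g trivial
  have t' : 2 • C.b2 p' g = 0 := (C.z2_be p' _).two g trivial
  refine ⟨?_, ?_⟩
  · rw [chi_mul (Int.natCast_ne_zero.2 hp.1.ne_zero) (Int.natCast_ne_zero.2 hp'.1.ne_zero), h1]
    exact CharTwo.add_self_eq_zero _
  · have s := (C.sum_ep t).trans (C.sum_ep t').symm
    rw [Fin.sum_univ_three, Fin.sum_univ_three, h2, h3, add_right_inj] at s
    refine (C.pr_ep t).symm.trans ((congrArg C.pr (funext fun i => ?_)).trans (C.pr_ep t'))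
    rcases fin3 i with rfl | rfl | rfl
    exacts [h2, h3, s]

theorem exists_cl (C : Cv) : ∃ K : ℕ, ∃ cl : ℕ → ℕ → ℕ, ∀ d : ℕ, d ≠ 0 →
    (∀ p, cl d p < K * 8 ^ d.primeFactors.card) ∧ ∀ p p', C.Gp p → C.Gp p' → C.Ty2 p → C.Ty2 p' →
      ¬ p ∣ d → ¬ p' ∣ d → cl d p = cl d p' → C.Same d p p' := by
  refine ⟨Fintype.card ((C.TS → F2 × F2 × F2) × F2), fun d p => (Fintype.equivFin
    (((C.TS → F2 × F2 × F2) × F2) × (d.primeFactors → F2 × F2 × F2))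
      ((fun g => C.sk3_bits p g, C.spin p), fun v => C.sk3_bits p (frb v))).val,
    fun d hd => ⟨fun p => (Fin.is_lt _).trans_eq ?_, fun p p' g g' hp hp' k k' h => ?_⟩⟩
  · rw [Fintype.card_prod _ (d.primeFactors → _), Fintype.card_fun (α := d.primeFactors),
      Fintype.card_coe]
    simp
  have e := (Fintype.equivFin _).injective (Fin.ext h)
  have e1 := fun x (hx : x ∈ C.TS) => sk3_eq g g' (congrFun (congrArg (·.1.1) e) ⟨x, hx⟩)
  have key : ∀ v, C.FP d v → (∀ x ∈ Gv v, chi ((p : ℤ) * p') x = 0) ∧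
      ∀ x ∈ Gv v, C.b2 p x = C.b2 p' x := fun v hv => by
    by_cases h0 : v ≤ C.N0
    · exact ⟨TS_chi hv.1 h0 fun x hx _ => (e1 x hx).1,
        sk3_TS (C.z2_be p _) (C.z2_be p' _) (fun x hx => (e1 x hx).2) hv.1 h0⟩
    have h1 : C.Gp v := ⟨hv.1, not_le.1 h0⟩
    have h2 : v ∣ d := Int.natCast_dvd_natCast.1 (hv.2.resolve_left h0)
    have n : v ≠ p := fun a => k (a ▸ h2)
    have n' : v ≠ p' := fun a => k' (a ▸ h2)
    obtain ⟨e2, e3⟩ := sk3_eq g g'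
      (congrFun (congrArg (·.2) e) ⟨v, Nat.mem_primeFactors.2 ⟨hv.1, h2, hd⟩⟩)
    have h3 : ¬ (v : ℤ) ∣ (p : ℤ) * p' := fun a => by
      rcases (Nat.Prime.dvd_mul hv.1).1 (by exact_mod_cast a : v ∣ p * p') with a | a
      · exact n ((Nat.prime_dvd_prime_iff_eq hv.1 g.1).1 a)
      · exact n' ((Nat.prime_dvd_prime_iff_eq hv.1 g'.1).1 a)
    refine ⟨chi_Gv hv.1 h1.ne_two (fun a => h3 (a ▸ dvd_zero _))
      (chi_sig_of_not_dvd hv.1 h1.ne_two h3) e2, fun x hx => sub_eq_zero.1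
        (Z2.dec h1 (((C.z2_be p _).sub (C.z2_be p' _)).mono le_top) ?_ (sub_eq_zero.2 e3) x hx)⟩
    rw [Pi.sub_apply, be_unr g hp.fix h1 n, be_unr g' hp'.fix h1 n', sub_self]
  exact ⟨fun v hv => (key v hv).1, fun v hv => (key v hv).2, congrArg (·.1.2) e⟩

end Cv

end Pool.Agent.B6.S
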