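import Pool.Agent.Lib.MP_696deb_nt.B6.SBc
import Pool.Agent.Lib.MP_696deb_nt.B6.SK3
import Pool.Agent.Lib.MP_696deb_nt.Sa.An

/-! A sieve bound, a deviation bound, windows and the conditions on good integers. -/

set_option autoImplicit false

open scoped Classical
open Finset Function

namespace Pool.Agent.B6.S

open Pool.Agent.Lib.MP_696deb_nt Pool.Agent.Lib.MP_696deb_nt.Sm Pool.Agent.Lib.MP_696deb_nt.Sa
open Pool.Agent.Lib.MP_696deb_nt.Mom.HT

/-- Few integers avoid a set of primes of large mass. -/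
theorem sieve {Z : ℕ} (hZ : 2 ≤ Z) {P : Finset ℕ} (hP : ∀ p ∈ P, p.Prime ∧ Odd p ∧ p ≤ Z)
    {S : Finset ℕ} (hS : ∀ k ∈ S, k ∈ Den.SO Z ∧ ∀ p ∈ P, ¬ p ∣ k) :
    (S.card : ℝ) ≤ 27 * Z * Real.exp (15 - ms P) := by
  obtain ⟨g, hg⟩ : ∃ g : ℕ → ℝ, ∀ p, g p = if p ∈ P then 0 else 1 := ⟨_, fun _ => rfl⟩
  have g1 : ∀ p, 0 ≤ g p ∧ g p ≤ 1 := fun p => by rw [hg]; split_ifs <;> norm_num
  have h1 : (S.card : ℝ) ≤ ∑ n ∈ Den.SO Z, ∏ p ∈ n.primeFactors, g p := by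
    refine le_trans ?_ (sum_le_sum_of_subset_of_nonneg (s := S) (fun k hk => (hS k hk).1)
      fun n _ _ => prod_nonneg fun p _ => (g1 p).1)
    rw [card_eq_sum_ones, Nat.cast_sum, Nat.cast_one]
    refine sum_le_sum fun k hk => (prod_eq_one fun p hp => ?_).ge
    rw [hg, if_neg fun e => (hS k hk).2 p e (Nat.dvd_of_mem_primeFactors hp)]
  set L := Real.log Z with hLd
  have hL2 : 1 / 2 ≤ L := log_two_ge.trans (Real.log_le_log two_pos (by exact_mod_cast hZ))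
  have hL : 0 < L := by linarith
  have x0 := Den.xs_nonneg L
  have h2 := sum_le_log hL Z (a := fun p => 1 - g p) fun p => by
    constructor <;> linarith [g1 p]
  have h3 : ∑ p ∈ P, Den.xs L p ≤ ∑ p ∈ (Den.PP Z).primeFactors, (1 - g p) * Den.xs L p := by
    refine le_trans (sum_le_sum fun p hp => ?_) (sum_le_sum_of_subset_of_nonneg (s := P)
      (fun p hp => ?_) fun p _ _ => mul_nonneg (sub_nonneg.2 (g1 p).2) (x0 p))
    · rw [hg, if_pos hp, sub_zero, one_mul]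
    · rw [Den.PP_pf]
      exact mem_filter.2 ⟨mem_Icc.2 ⟨(hP p hp).1.pos, (hP p hp).2.2⟩, (hP p hp).1, (hP p hp).2.1⟩
  have h4 : ms P ≤ ∑ p ∈ P, Den.xs L p + 13 := by
    have a1 : ms P ≤ ∑ p ∈ P, (Den.xs L p + Real.log p / p / L) :=
      sum_le_sum fun p hp => inv_le_xs_add (hP p hp).1.pos
    rw [sum_add_distrib, ← sum_div] at a1
    have a2 := div_le_div_of_nonneg_right
      (sum_log_div_le (P := P) (by omega) fun p hp => ⟨(hP p hp).1, (hP p hp).2.2⟩) hL.le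
    have a3 : (L + 6) / L ≤ 13 := by rw [div_le_iff₀ hL]; linarith
    linarith
  have p0 : 0 < ∏ p ∈ (Den.PP Z).primeFactors, (1 + (1 - g p) * Den.xs L p) :=
    prod_pos fun p _ => by linarith [mul_nonneg (sub_nonneg.2 (g1 p).2) (x0 p)]
  have h5 : Real.exp (ms P - 15) ≤ ∏ p ∈ (Den.PP Z).primeFactors, (1 + (1 - g p) * Den.xs L p) :=
    (Real.le_log_iff_exp_le p0).1 (by linarith)
  have h6 : (∏ p ∈ (Den.PP Z).primeFactors, (1 + g p * Den.xs L p)) *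
      ∏ p ∈ (Den.PP Z).primeFactors, (1 + (1 - g p) * Den.xs L p) ≤ 3 * L := by
    rw [← prod_mul_distrib]
    refine le_trans (le_of_eq (prod_congr rfl fun p _ => ?_))
      ((Den.prod_xs_le hL (Den.PP_sq Z)).trans (by linarith))
    rw [hg]
    split_ifs <;> ring
  have q0 : 0 ≤ ∏ p ∈ (Den.PP Z).primeFactors, (1 + g p * Den.xs L p) :=
    prod_nonneg fun p _ => by linarith [mul_nonneg (g1 p).1 (x0 p)]
  have h7 : ∏ p ∈ (Den.PP Z).primeFactors, (1 + g p * Den.xs L p) ≤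
      3 * L * Real.exp (15 - ms P) := by
    rw [← neg_sub, Real.exp_neg, ← div_eq_mul_inv, le_div_iff₀ (Real.exp_pos _)]
    exact (mul_le_mul_of_nonneg_left h5 q0).trans h6
  have e1 := ht1 (fun p _ => g1 p) Z
  have e2 := mul_le_mul_of_nonneg_left ((ht2 (fun p _ => g1 p) hL).trans
    (mul_le_mul_of_nonneg_left h7 (by norm_num : (0 : ℝ) ≤ 3)))
    (show (0 : ℝ) ≤ 3 * Z by positivity)
  refine h1.trans (le_of_mul_le_mul_left ((e1.trans e2).trans_eq ?_) hL)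
  ring

/-- The deviation bound. -/
theorem cheb {X : ℕ} {P : Finset ℕ} (hP : ∀ p ∈ P, p.Prime) (hc : P.card ≤ X) {S : Finset ℕ}
    (hS : S ⊆ Icc 1 X) {δ : ℝ} (hδ : 0 ≤ δ)
    (h : ∀ n ∈ S, δ ≤ |((n.primeFactors ∩ P).card : ℝ) - ms P|) :
    S.card * δ ^ 2 ≤ 3 * X * ms P := by
  have h1 := card_nsmul_le_sum S (fun n => (((n.primeFactors ∩ P).card : ℝ) - ms P) ^ 2) (δ ^ 2)
    fun n hn => (pow_le_pow_left₀ hδ (h n hn) 2).trans_eq (sq_abs _)
  rw [nsmul_eq_mul] at h1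
  refine (h1.trans ((sum_le_sum_of_subset_of_nonneg hS fun _ _ _ => sq_nonneg _).trans
    (var_le X P hP))).trans (mul_le_mul_of_nonneg_right ?_ (ms_nonneg P))
  have : (P.card : ℝ) ≤ X := Nat.cast_le.2 hc
  linarith

theorem rare_of {P : ℕ → ℕ → ℕ → Prop} (m0 : ℕ) (A : ℝ)
    (h : ∀ m ≥ m0, ∀ X, Sz m X → ∀ S : Finset ℕ, (∀ n ∈ S, n ∈ Icc 1 X ∧ P m X n) →
      (S.card : ℝ) * m ≤ A * X) : Rare P := by
  intro ε hε
  obtain ⟨m1, h1⟩ := exists_nat_ge (A / ε)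
  refine ⟨m0 + m1 + 1, fun m hm X hX => ?_⟩
  suffices k : ∀ S : Finset ℕ, (∀ n ∈ S, n ∈ Icc 1 X ∧ P m X n) → (S.card : ℝ) ≤ ε * X from
    k _ fun n hn => by simpa only [mem_filter] using hn
  intro S hS
  have h2 := h m (by omega) X hX S hS
  have h3 : (m1 : ℝ) ≤ m := Nat.cast_le.2 (by omega)
  have h4 : (0 : ℝ) < m := Nat.cast_pos.2 (by omega)
  rw [div_le_iff₀ hε] at h1
  refine le_of_mul_le_mul_right (h2.trans ?_) h4
  rw [mul_right_comm]
  exact mul_le_mul_of_nonneg_right (by nlinarith) X.cast_nonneg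

theorem card_Wn (z X : ℕ) (P : ℕ → Prop) : (Wn z X P).card ≤ X :=
  (card_filter_le _ _).trans (by simp)

theorem LL_mono {X Y : ℕ} (h : 2 ≤ X) (k : X ≤ Y) : LL X ≤ LL Y :=
  Real.log_le_log (Real.log_pos (by exact_mod_cast h))
    (Real.log_le_log (by positivity) (Nat.cast_le.2 k))

theorem LL_pow {a : ℕ} (h : a ≠ 0) : Real.log a - 1 ≤ LL (2 ^ a) ∧ LL (2 ^ a) ≤ Real.log a := by
  have h1 : 0 < Real.log 2 := Real.log_pos one_lt_two
  have h2 := Real.log_nonpos h1.le log_two_le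
  have h3 := Real.log_le_log (by norm_num) log_two_ge
  rw [one_div, Real.log_inv] at h3
  rw [LL, Nat.cast_pow, Real.log_pow, Real.log_mul (Nat.cast_ne_zero.2 h) (by exact h1.ne')]
  push_cast
  constructor <;> linarith [log_two_le]

theorem log_pow_two (e : ℕ) : (e : ℝ) / 2 ≤ Real.log (2 ^ e : ℕ) ∧ Real.log (2 ^ e : ℕ) ≤ e := by
  rw [Nat.cast_pow, Real.log_pow]
  push_cast
  constructor <;> nlinarith [log_two_le, log_two_ge, (e.cast_nonneg : (0 : ℝ) ≤ e)]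

theorem LL_ge {e Z : ℕ} (h : 2 ^ 2 ^ e ≤ Z) : (e : ℝ) / 2 - 1 ≤ LL Z := by
  have h1 := LL_mono (Nat.le_self_pow (by positivity) 2) h
  linarith [(LL_pow (a := 2 ^ e) (by positivity)).1, (log_pow_two e).1]

theorem LL_le {a e : ℕ} (h0 : a ≠ 0) (h : a ≤ 2 ^ e) : LL (2 ^ a) ≤ e :=
  (LL_pow h0).2.trans ((Real.log_le_log (by positivity) (Nat.cast_le.2 h)).trans (log_pow_two e).2)

/-- The exponents of the lower ends of the windows. -/
def aw (m : ℕ) : ℕ → ℕ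
  | 0 => m ^ 24
  | k + 1 => m * (aw m k ^ 2 * 2 ^ m ^ 3)

/-- The exponents of the upper ends of the windows. -/
def bw (m k : ℕ) : ℕ := aw m k ^ 2 * 2 ^ m ^ 3

/-- A bound above all windows. -/
def zz (m : ℕ) : ℕ := 2 ^ aw m 3

variable {m : ℕ}

theorem aw_succ (k : ℕ) : aw m (k + 1) = m * bw m k := rfl

theorem aw_le_bw (k : ℕ) : aw m k ≤ bw m k :=
  (Nat.le_self_pow two_ne_zero _).trans (Nat.le_mul_of_pos_right _ (by positivity))

theorem bw_le (hm : 1 ≤ m) (k : ℕ) : bw m k ≤ aw m (k + 1) := Nat.le_mul_of_pos_left _ hm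

theorem aw_mono (hm : 1 ≤ m) : Monotone (aw m) :=
  monotone_nat_of_le_succ fun k => (aw_le_bw k).trans (bw_le hm k)

theorem aw_ne (hm : 1 ≤ m) (k : ℕ) : aw m k ≠ 0 :=
  (lt_of_lt_of_le (show 0 < m ^ 24 by positivity) (aw_mono hm k.zero_le)).ne'

theorem aw_three (hm : 5 ≤ m) : aw m 3 ≤ 2 ^ (22 * m ^ 3) := by
  have h0 : 25 * m ≤ m ^ 3 := by
    rw [pow_succ]
    exact Nat.mul_le_mul_right _ (Nat.pow_le_pow_left hm 2)
  have h1 : m ≤ 2 ^ m ^ 3 := (show m ≤ m ^ 3 by omega).trans Nat.lt_two_pow_self.le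
  have h2 : aw m 0 ≤ 2 ^ (1 * m ^ 3) :=
    (Nat.pow_le_pow_left Nat.lt_two_pow_self.le 24).trans (by
      rw [← pow_mul]; exact Nat.pow_le_pow_right two_pos (by omega))
  have h3 : ∀ k e, aw m k ≤ 2 ^ (e * m ^ 3) → aw m (k + 1) ≤ 2 ^ ((2 * e + 2) * m ^ 3) :=
    fun k e h => (Nat.mul_le_mul h1 (Nat.mul_le_mul_right _ (Nat.pow_le_pow_left h 2))).trans_eq
      (by rw [← pow_mul, ← pow_add, ← pow_add]; congr 1; ring)
  exact h3 2 10 (h3 1 4 (h3 0 1 h2))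

theorem YY_le (hm : 1 ≤ m) (k : ℕ) : YY m ≤ 2 ^ aw m k :=
  Nat.pow_le_pow_right two_pos (aw_mono hm k.zero_le)

theorem le_YY (m : ℕ) : m ≤ YY m :=
  (Nat.le_self_pow (by norm_num) m).trans Nat.lt_two_pow_self.le

theorem LL_zz (hm : 5 ≤ m) : LL (zz m) ≤ 22 * (m : ℝ) ^ 3 :=
  (LL_le (aw_ne (by omega) 3) (aw_three hm)).trans_eq (by push_cast; rfl)

theorem LL_YY (hm : 1 ≤ m) : LL (YY m) ≤ 25 * m :=
  (LL_le (by positivity) ((Nat.pow_le_pow_right hm (by norm_num)).trans (anc_pow m))).trans_eq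
    (by push_cast; rfl)

theorem zz_le (hm : 22 ≤ m) {X : ℕ} (h : Sz m X) : zz m ≤ X := by
  refine le_trans (Nat.pow_le_pow_right two_pos ((aw_three (by omega)).trans
    (Nat.pow_le_pow_right two_pos ?_))) h.1
  rw [pow_succ' m 3]
  exact Nat.mul_le_mul_right _ hm

namespace Cv

variable (C : Cv)

/-- The constant in the number of classes. -/
noncomputable def clK : ℕ := C.exists_cl.choose

/-- The label of the class of a prime. -/
noncomputable def cl : ℕ → ℕ → ℕ := C.exists_cl.choose_spec.choose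

theorem cl_lt {d : ℕ} (h : d ≠ 0) (p : ℕ) : C.cl d p < C.clK * 8 ^ d.primeFactors.card :=
  (C.exists_cl.choose_spec.choose_spec d h).1 p

theorem cl_same {d p p' : ℕ} (h : d ≠ 0) (hp : C.Ty2 p) (hp' : C.Ty2 p') (k : ¬ p ∣ d)
    (k' : ¬ p' ∣ d) (e : C.cl d p = C.cl d p') : C.Same d p p' :=
  (C.exists_cl.choose_spec.choose_spec d h).2 p p' hp.1 hp'.1 hp hp' k k' e

/-- The large prime factors of the second type. -/
noncomputable def lQ (m n : ℕ) : Finset ℕ := n.primeFactors.filter fun p => YY m < p ∧ C.Ty2 p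

/-- The product of the other prime factors. -/
noncomputable def d1 (m n : ℕ) : ℕ :=
  ∏ p ∈ n.primeFactors.filter fun p => ¬ (YY m < p ∧ C.Ty2 p), p

/-- The class of a large prime of the second type. -/
noncomputable def Cq (m X d p : ℕ) : Finset ℕ :=
  Wn (YY m) X fun p' => C.Ty2 p' ∧ kap m p' = kap m p ∧ C.cl d p' = C.cl d p

/-- The primes of the second type in a window. -/
noncomputable def Wi (m k : ℕ) : Finset ℕ := Wn (2 ^ aw m k) (2 ^ bw m k) C.Ty2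

/-- Every nonzero cocycle that is unramified outside `d` is seen by a large prime of `n`. -/
def Sees (m d n : ℕ) : Prop := ∀ c ∈ C.U d, c ≠ 0 →
  ∃ p ∈ n.primeFactors, zz m < p ∧ C.Ty2 p ∧ C.sy c p = 1

def H4 (m X n : ℕ) : Prop :=
  ∀ p ∈ C.lQ m n, (1 / 2 : ℝ) ^ m ^ 11 * p ≤ (C.Cq m X (C.d1 m n) p).card

def H6 (m n : ℕ) : Prop := ∀ k < 3, m ^ 2 ≤ (n.primeFactors ∩ C.Wi m k).card

def H7 (m X n : ℕ) : Prop := m ^ 3 + 2 * (n.primeFactors ∩ Wn (YY m) X C.Ty1).card ≤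
  (n.primeFactors ∩ Wn (zz m) X C.Ty2).card

/-- The cocycles that are unramified outside `d`, as a finite set. -/
noncomputable def Uf (d : ℤ) : Finset (GQ → C.A) :=
  if h : (C.U d : Set (GQ → C.A)).Finite then h.toFinset else ∅

variable {C} {n : ℕ}

theorem mem_Uf {d : ℤ} (h : d ≠ 0) {c : GQ → C.A} : c ∈ C.Uf d ↔ c ∈ C.U d := by
  have k : (C.U d : Set (GQ → C.A)).Finite := C.finite_U h
  rw [Uf, dif_pos k, Set.Finite.mem_toFinset, SetLike.mem_coe]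

theorem card_Uf {d : ℕ} (h : d ≠ 0) :
    (C.Uf d).card ≤ Nat.card (C.U 1) * 4 ^ d.primeFactors.card := by
  have h0 : (d : ℤ) ≠ 0 := Nat.cast_ne_zero.2 h
  have k : (C.U d : Set (GQ → C.A)).Finite := C.finite_U h0
  have h1 := C.card_U h0
  rw [Int.natAbs_natCast] at h1
  rw [Uf, dif_pos k, ← Set.ncard_eq_toFinset_card _ k]
  exact h1

theorem mem_lQ {p : ℕ} : p ∈ C.lQ m n ↔ p ∈ n.primeFactors ∧ YY m < p ∧ C.Ty2 p := mem_filter

theorem d1_mul (h : Squarefree n) : C.d1 m n * ∏ p ∈ C.lQ m n, p = n := by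
  rw [mul_comm]
  exact (prod_filter_mul_prod_filter_not _ _ _).trans (Nat.prod_primeFactors_of_squarefree h)

theorem d1_pf : (C.d1 m n).primeFactors =
    n.primeFactors.filter fun p => ¬ (YY m < p ∧ C.Ty2 p) :=
  Nat.primeFactors_prod fun _ hp => Nat.prime_of_mem_primeFactors (mem_filter.1 hp).1

theorem d1_ne : C.d1 m n ≠ 0 :=
  prod_ne_zero_iff.2 fun _ hp => (Nat.prime_of_mem_primeFactors (mem_filter.1 hp).1).ne_zero

theorem not_dvd_d1 {p : ℕ} (h : YY m < p) (k : C.Ty2 p) : ¬ p ∣ C.d1 m n := fun e => by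
  have := Nat.mem_primeFactors.2 ⟨k.1.1, e, d1_ne⟩
  rw [d1_pf] at this
  exact (mem_filter.1 this).2 ⟨h, k⟩

theorem mem_Cq {X d p p' : ℕ} : p' ∈ C.Cq m X d p ↔ YY m < p' ∧ p' ≤ X ∧ C.Ty2 p' ∧
    kap m p' = kap m p ∧ C.cl d p' = C.cl d p := mem_Wn

end Cv

end Pool.Agent.B6.S
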