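import Pool.Agent.Lib.MP_696deb_nt.B6.SBd

/-! Good integers: small classes and the number of primes of each type. -/

set_option autoImplicit false

open scoped Classical
open Finset Function

namespace Pool.Agent.B6.S

open Pool.Agent.Lib.MP_696deb_nt Pool.Agent.Lib.MP_696deb_nt.Sm Pool.Agent.Lib.MP_696deb_nt.Sa

theorem small_cls (P : Finset ℕ) (K : ℕ → Finset ℕ) (hK : ∀ p ∈ P, p ∈ K p) {θ : ℝ} (hθ : 0 ≤ θ) :
    ms (P.filter fun p => ((K p).card : ℝ) < θ * p) ≤ θ * (P.image K).card := by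
  rw [ms, ← sum_fiberwise_of_maps_to (t := P.image K) (g := K)
    fun p hp => mem_image_of_mem _ (mem_filter.1 hp).1, mul_comm, ← nsmul_eq_mul]
  refine sum_le_card_nsmul _ _ _ fun T hT => ?_
  obtain ⟨q, hq, e⟩ := mem_image.1 hT
  have hc : (0 : ℝ) < T.card := by exact_mod_cast card_pos.2 ⟨q, e ▸ hK q hq⟩
  refine (sum_le_card_nsmul _ _ (θ / T.card) fun p hp => ?_).trans ?_
  · obtain ⟨h1, h2⟩ := mem_filter.1 hp
    have h5 := (mem_filter.1 h1).2
    rw [h2] at h5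
    have h0 : (0 : ℝ) < p := pos_of_mul_pos_right (hc.trans h5) hθ
    rw [div_le_div_iff₀ h0 hc]
    linarith
  · rw [nsmul_eq_mul, mul_div_assoc', div_le_iff₀ hc, mul_comm]
    refine mul_le_mul_of_nonneg_left (Nat.cast_le.2 (card_le_card fun p hp => ?_)) hθ
    obtain ⟨h1, h2⟩ := mem_filter.1 hp
    exact h2 ▸ hK p (mem_filter.1 h1).1

theorem sbe_num {m : ℕ} (hm : 5 ≤ m) :
    (1 + 2 ^ (16 * m ^ 4)) * ((2 ^ (16 * m ^ 4) * m ^ 11 + 1) * 8 ^ m ^ 10) * m ≤ 2 ^ m ^ 11 := by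
  have h0 : m ≤ 2 ^ m := Nat.lt_two_pow_self.le
  have h1 : m ^ 11 ≤ 2 ^ (m * 11) := by rw [pow_mul]; exact Nat.pow_le_pow_left h0 11
  have h2 : 1 + 2 ^ (16 * m ^ 4) ≤ 2 ^ (16 * m ^ 4 + 1) := by
    have := Nat.one_le_two_pow (n := 16 * m ^ 4)
    rw [pow_succ 2]; omega
  have h3 : 2 ^ (16 * m ^ 4) * m ^ 11 + 1 ≤ 2 ^ (16 * m ^ 4 + m * 11 + 1) := by
    have a := Nat.one_le_two_pow (n := 16 * m ^ 4 + m * 11)
    have b := Nat.mul_le_mul_left (2 ^ (16 * m ^ 4)) h1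
    rw [← pow_add] at b
    rw [pow_succ 2]; omega
  have a1 : 5 ^ 3 * m ≤ m ^ 4 := by
    rw [pow_succ m 3]; exact Nat.mul_le_mul_right m (Nat.pow_le_pow_left hm 3)
  have a2 : 5 ^ 6 * m ^ 4 ≤ m ^ 10 := by
    rw [show 10 = 6 + 4 from rfl, pow_add m]
    exact Nat.mul_le_mul_right _ (Nat.pow_le_pow_left hm 6)
  have a3 : m ^ 10 * 5 ≤ m ^ 11 := by rw [pow_succ m 10]; exact Nat.mul_le_mul_left _ hm
  refine (Nat.mul_le_mul (Nat.mul_le_mul h2 (Nat.mul_le_mul_right _ h3)) h0).trans ?_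
  rw [show 8 = 2 ^ 3 from rfl, ← pow_mul, ← pow_add, ← pow_add, ← pow_add]
  exact Nat.pow_le_pow_right two_pos (by omega)

theorem two_le_X {m X : ℕ} (h : Sz m X) : 2 ≤ X :=
  (Nat.le_self_pow (by positivity) 2).trans h.1

namespace Cv

variable (C : Cv)

theorem card_Cq (m X : ℕ) {d : ℕ} (hd : d ≠ 0) :
    (((Wn (YY m) X C.Ty2).image (C.Cq m X d)).card : ℝ) ≤
      (Real.log X * (m : ℝ) ^ 11 + 1) * (C.clK * 8 ^ d.primeFactors.card) := by
  let g : ℕ × ℕ → Finset ℕ := fun t =>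
    Wn (YY m) X fun p' => C.Ty2 p' ∧ kap m p' = t.1 ∧ C.cl d p' = t.2
  have hs : (Wn (YY m) X C.Ty2).image (C.Cq m X d) ⊆
      (range (kap m X + 1) ×ˢ range (C.clK * 8 ^ d.primeFactors.card)).image g := by
    intro T hT
    obtain ⟨p, hp, rfl⟩ := mem_image.1 hT
    obtain ⟨p1, p2, -⟩ := mem_Wn.1 hp
    refine mem_image.2 ⟨(kap m p, C.cl d p), ?_, rfl⟩
    simp only [mem_product, mem_range]
    refine ⟨Nat.lt_succ_of_le (Nat.floor_le_floor ?_), C.cl_lt hd p⟩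
    have h0 : (0 : ℝ) < p := by exact_mod_cast (Nat.zero_le _).trans_lt p1
    exact mul_le_mul_of_nonneg_right (Real.log_le_log h0 (by exact_mod_cast p2)) (by positivity)
  have h1 := (card_le_card hs).trans card_image_le
  rw [card_product, card_range, card_range] at h1
  have h2 : (kap m X : ℝ) ≤ Real.log X * (m : ℝ) ^ 11 :=
    Nat.floor_le (mul_nonneg (Real.log_natCast_nonneg X) (by positivity))
  refine (Nat.cast_le.2 h1).trans ?_
  push_cast
  gcongr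

theorem r4 : Rare fun m X n => Squarefree n ∧ G1 m n ∧ ¬ C.H4 m X n := by
  refine rare_of 5 C.clK fun m hm X hX T hT => ?_
  obtain ⟨D, hD⟩ : ∃ D, D = (Icc 1 X).filter fun d => d.primeFactors.card ≤ m ^ 10 := ⟨_, rfl⟩
  obtain ⟨S, hS⟩ : ∃ S : ℕ → Finset ℕ, ∀ d, S d = (Wn (YY m) X C.Ty2).filter
    (fun p => ((C.Cq m X d p).card : ℝ) < (1 / 2) ^ m ^ 11 * p) := ⟨_, fun _ => rfl⟩
  obtain ⟨B, hB⟩ : ∃ B : ℝ, B = (1 / 2) ^ m ^ 11 * ((2 ^ (16 * m ^ 4) * (m : ℝ) ^ 11 + 1) *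
      (C.clK * 8 ^ m ^ 10)) := ⟨_, rfl⟩
  have hB0 : 0 ≤ B := by rw [hB]; positivity
  have hl := hX.log_le (by omega)
  have hs : ∀ d ∈ D, ms (S d) ≤ B := fun d hd => by
    obtain ⟨h1, h2⟩ := mem_filter.1 (hD ▸ hd)
    rw [hS, hB]
    refine (small_cls _ _ (fun p hp => ?_) (by positivity)).trans (mul_le_mul_of_nonneg_left
      ((C.card_Cq m X (Nat.one_le_iff_ne_zero.1 (mem_Icc.1 h1).1)).trans ?_) (by positivity))
    · rw [mem_Wn] at hp
      exact mem_Cq.2 ⟨hp.1, hp.2.1, hp.2.2, rfl, rfl⟩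
    · gcongr
      norm_num
  have hsub : T ⊆ D.biUnion fun d => (S d).biUnion fun p => (Ioc 0 X).filter (d * p ∣ ·) := by
    intro n hn
    obtain ⟨a1, a2, a3, a4⟩ := hT n hn
    obtain ⟨b1, b2⟩ := mem_Icc.1 a1
    simp only [H4, not_forall, not_le] at a4
    obtain ⟨p, hp, a4⟩ := a4
    obtain ⟨c1, c2, c3⟩ := mem_lQ.1 hp
    refine mem_biUnion.2 ⟨C.d1 m n, ?_, mem_biUnion.2 ⟨p, ?_, mem_filter.2
      ⟨mem_Ioc.2 ⟨b1, b2⟩, ?_⟩⟩⟩
    · rw [hD]
      refine mem_filter.2 ⟨mem_Icc.2 ⟨Nat.pos_of_ne_zero d1_ne,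
        (Nat.le_of_dvd b1 (Dvd.intro _ (d1_mul a2))).trans b2⟩, ?_⟩
      rw [d1_pf]
      exact (card_filter_le _ _).trans a3
    · rw [hS]
      exact mem_filter.2 ⟨mem_Wn.2 ⟨c2, (Nat.le_of_mem_primeFactors c1).trans b2, c3⟩, a4⟩
    · conv_rhs => rw [← d1_mul (C := C) (m := m) a2]
      exact mul_dvd_mul_left _ (dvd_prod_of_mem _ hp)
  have h2 : T.card ≤ ∑ d ∈ D, ∑ p ∈ S d, X / (d * p) :=
    (card_le_card hsub).trans (card_biUnion_le.trans (sum_le_sum fun d _ =>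
      card_biUnion_le.trans (sum_le_sum fun p _ => (Nat.Ioc_filter_dvd_card_eq_div _ _).le)))
  have hX0 : (0 : ℝ) ≤ X := Nat.cast_nonneg X
  have h3 : (T.card : ℝ) ≤ (1 + 2 ^ (16 * m ^ 4)) * (B * X) :=
    calc (T.card : ℝ) ≤ ∑ d ∈ D, ∑ p ∈ S d, ((X / (d * p) : ℕ) : ℝ) := by exact_mod_cast h2
      _ ≤ ∑ d ∈ D, (1 / d : ℝ) * (B * X) := by
        refine sum_le_sum fun d hd => ?_
        calc _ ≤ ∑ p ∈ S d, (1 / d : ℝ) * ((1 / p : ℝ) * X) := sum_le_sum fun p _ => by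
              refine Nat.cast_div_le.trans (le_of_eq ?_)
              push_cast
              ring
          _ = (1 / d : ℝ) * (ms (S d) * X) := by rw [← mul_sum, ← sum_mul, ms]
          _ ≤ _ := by
            have := hs d hd
            gcongr
      _ ≤ _ := by
        rw [← sum_mul]
        refine mul_le_mul_of_nonneg_right (le_trans ?_ ((sum_inv_le X).trans (by linarith)))
          (by positivity)
        rw [hD]
        exact sum_le_sum_of_subset_of_nonneg (filter_subset _ _) fun _ _ _ => by positivity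
  have h4 : (1 + 2 ^ (16 * m ^ 4)) * ((2 ^ (16 * m ^ 4) * (m : ℝ) ^ 11 + 1) * 8 ^ m ^ 10) * m /
      2 ^ m ^ 11 ≤ 1 := (div_le_one (by positivity)).2 (by exact_mod_cast sbe_num hm)
  refine (mul_le_mul_of_nonneg_right h3 m.cast_nonneg).trans (le_of_eq_of_le ?_
    (mul_le_of_le_one_left (show (0 : ℝ) ≤ C.clK * X by positivity) h4))
  rw [hB, one_div_pow]
  ring

theorem r6k {k : ℕ} (hk : k < 3) : Rare fun m _ n => (n.primeFactors ∩ C.Wi m k).card < m ^ 2 := by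
  obtain ⟨z0, -, h⟩ := C.masses
  refine rare_of (z0 + 22) 12 fun m hm X hX S hS => ?_
  have m1 : 1 ≤ m := by omega
  have a0 := aw_ne m1 k
  have b0 : bw m k ≠ 0 := by have := aw_le_bw (m := m) k; omega
  have h1 := (h (2 ^ aw m k) (2 ^ bw m k) (le_trans (by omega) ((le_YY m).trans (YY_le m1 k)))
    (Nat.le_self_pow b0 2)).1
  have h2 := (LL_pow b0).1
  have h3 := (LL_pow a0).2
  have h4 := (log_pow_two (m ^ 3)).1
  rw [bw, Nat.cast_mul, Real.log_mul (by positivity) (by positivity), Nat.cast_pow, Real.log_pow,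
    ← bw] at h2
  have h5 : (C.Wi m k).card ≤ X := (card_Wn _ _ _).trans (le_trans (Nat.pow_le_pow_right two_pos
    ((bw_le m1 k).trans (aw_mono m1 hk))) (zz_le (by omega) hX))
  have m2 : (22 : ℝ) ≤ m := by exact_mod_cast (by omega : 22 ≤ m)
  rw [← Wi] at h1
  push_cast at h2 h4
  have h6 : 2 * (m : ℝ) ^ 2 ≤ ms (C.Wi m k) := by nlinarith [sq_nonneg (m : ℝ)]
  have h7 := cheb (fun p hp => (mem_Wn.1 hp).2.2.1.1) h5 (S := S) (fun n hn => (hS n hn).1)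
    (δ := ms (C.Wi m k) / 2) (by linarith [ms_nonneg (C.Wi m k)]) fun n hn => by
      have a : ((n.primeFactors ∩ C.Wi m k).card : ℝ) ≤ (m : ℝ) ^ 2 := by
        exact_mod_cast (hS n hn).2.le
      exact le_abs.2 (.inr (by linarith))
  generalize ms (C.Wi m k) = μ at h6 h7
  have h8 : (m : ℝ) ≤ μ := by nlinarith
  refine (mul_le_mul_of_nonneg_left h8 (Nat.cast_nonneg _)).trans
    (le_of_mul_le_mul_right (a := μ / 4) ?_ (by linarith))
  linarith

theorem r6 : Rare fun m _ n => ¬ C.H6 m n := by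
  refine (((C.r6k (k := 0) (by norm_num)).or (C.r6k (k := 1) (by norm_num))).or
    (C.r6k (k := 2) (by norm_num))).mono fun m _ n h => ?_
  simp only [H6, not_forall, not_le] at h
  obtain ⟨k, hk, h⟩ := h
  interval_cases k
  · exact .inl (.inl h)
  · exact .inl (.inr h)
  · exact .inr h

end Cv

theorem r7a {P : ℕ → ℕ → Prop} (hP : ∀ m p, P m p → p.Prime) (z : ℕ → ℕ) : Rare fun m X n =>
    LL X / 50 ≤ |((n.primeFactors ∩ Wn (z m) X (P m)).card : ℝ) - ms (Wn (z m) X (P m))| := by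
  refine rare_of 3 15000 fun m hm X hX S hS => ?_
  have h1 := LL_ge hX.1
  have m2 : (3 : ℝ) ≤ m := by exact_mod_cast hm
  have m3 : (27 : ℝ) ≤ (m : ℝ) ^ 3 := le_of_eq_of_le (by norm_num)
    (pow_le_pow_left₀ (by norm_num) m2 3)
  push_cast at h1
  have h2 : 13 * (m : ℝ) ≤ LL X := by nlinarith
  have h3 := ms_le (P := Wn (z m) X (P m)) (two_le_X hX) fun p hp =>
    ⟨hP m p (mem_Wn.1 hp).2.2, (mem_Wn.1 hp).2.1⟩
  have h4 := (cheb (fun p hp => hP m p (mem_Wn.1 hp).2.2) (card_Wn _ _ _) (S := S)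
    (fun n hn => (hS n hn).1) (by linarith) fun n hn => (hS n hn).2).trans
    (mul_le_mul_of_nonneg_left (h3.trans (show _ ≤ 2 * LL X by linarith)) (by positivity))
  refine (mul_le_mul_of_nonneg_left (show (m : ℝ) ≤ LL X by linarith) (Nat.cast_nonneg _)).trans
    (le_of_mul_le_mul_right (a := LL X / 2500) ?_ (by linarith))
  linarith

theorem Cv.r7 (C : Cv) : Rare fun m X n => ¬ C.H7 m X n := by
  obtain ⟨z0, -, h⟩ := C.masses
  intro ε hε
  obtain ⟨m0, h0⟩ := ((r7a (P := fun _ => C.Ty1) (fun _ _ k => k.1.1) YY).or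
    (r7a (P := fun _ => C.Ty2) (fun _ _ k => k.1.1) zz)) ε hε
  refine ⟨m0 + z0 + 500, fun m hm X hX => le_trans (Nat.cast_le.2 (card_le_card fun n hn => ?_))
    (h0 m (by omega) X hX)⟩
  simp only [mem_filter] at hn ⊢
  refine ⟨hn.1, ?_⟩
  by_contra hc
  simp only [not_or, not_le, abs_lt] at hc
  have y1 : z0 ≤ YY m := le_trans (by omega) (le_YY m)
  have h1 := (h _ X y1 (two_le_X hX)).2.1
  have h2 := (h (zz m) X (y1.trans (YY_le (by omega) 3)) (two_le_X hX)).1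
  have h3 := LL_zz (m := m) (by omega)
  have h4 := LL_YY (m := m) (by omega)
  have h5 := LL_ge hX.1
  have m2 : (500 : ℝ) ≤ m := by exact_mod_cast (by omega : 500 ≤ m)
  have m3 : 500 * (m : ℝ) ≤ (m : ℝ) ^ 3 := by nlinarith [sq_nonneg (m : ℝ)]
  have m4 : 500 * (m : ℝ) ^ 3 ≤ (m : ℝ) ^ 4 := by nlinarith
  push_cast at h5
  refine hn.2 ?_
  rw [Cv.H7, ← Nat.cast_le (α := ℝ)]
  push_cast
  linarith [hc.1.2, hc.2.1]

end Pool.Agent.B6.S
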