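import Pool.Agent.Lib.MP_696deb_nt.B6.SBe

/-! Good integers: cocycles of small conductor are seen by a large prime. -/

set_option autoImplicit false

open scoped Classical
open Finset Function

namespace Pool.Agent.B6.S

open Pool.Agent.Lib.MP_696deb_nt Pool.Agent.Lib.MP_696deb_nt.Sm Pool.Agent.Lib.MP_696deb_nt.Sa

theorem sbf_thr {m B d : ℕ} (hm : 2 ≤ m) (hB : 6 * B ≤ m) (hd : d ≤ YY m ^ m) :
    (6 * (B * d ^ 2)) ^ 16 ≤ zz m := by
  rw [anc_YY] at hd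
  have h1 : 6 * B ≤ 2 ^ m ^ 25 :=
    hB.trans ((Nat.le_self_pow (by norm_num) m).trans Nat.lt_two_pow_self.le)
  have h2 : 48 * m ^ 25 ≤ aw m 1 := by
    have a1 : 2 ^ 24 ≤ m ^ 24 := Nat.pow_le_pow_left hm 24
    calc 48 * m ^ 25 ≤ m ^ 24 * m ^ 25 := Nat.mul_le_mul_right _ (by omega)
      _ = m * ((m ^ 24) ^ 2 * 1) := by ring
      _ ≤ _ := Nat.mul_le_mul_left _ (Nat.mul_le_mul_left _ Nat.one_le_two_pow)
  rw [← mul_assoc]
  refine (Nat.pow_le_pow_left (Nat.mul_le_mul h1 (Nat.pow_le_pow_left hd 2)) 16).trans ?_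
  rw [← pow_mul, ← pow_add, ← pow_mul]
  exact Nat.pow_le_pow_right two_pos (le_trans (by omega)
    (h2.trans (aw_mono (by omega) (by norm_num))))

theorem sbf_exp {m : ℕ} (hm : 400 ≤ m) {L L' μ : ℝ} (h1 : ((m ^ 4 - 1 : ℕ) : ℝ) / 2 - 1 ≤ L)
    (h2 : L' ≤ 22 * (m : ℝ) ^ 3) (h3 : L / 6 - 7 / 6 * L' - 93 ≤ μ) :
    Real.exp (15 - μ) ≤ 1 / 2 ^ m ^ 3 := by
  have m2 : (400 : ℝ) ≤ m := by exact_mod_cast hm
  have m3 : 400 * (m : ℝ) ≤ (m : ℝ) ^ 3 := by nlinarith [sq_nonneg (m : ℝ)]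
  have m4 : 400 * (m : ℝ) ^ 3 ≤ (m : ℝ) ^ 4 := by nlinarith
  rw [Nat.cast_sub (Nat.one_le_pow _ _ (by omega))] at h1
  push_cast at h1
  have h4 : (2 : ℝ) ^ m ^ 3 ≤ Real.exp (m ^ 3 : ℕ) := by
    rw [← Real.exp_one_pow]
    exact pow_le_pow_left₀ two_pos.le (by linarith [Real.add_one_le_exp 1]) _
  refine le_trans ?_ (one_div_le_one_div_of_le (by positivity) h4)
  rw [one_div, ← Real.exp_neg]
  push_cast
  exact Real.exp_le_exp.2 (by linarith)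

theorem lP_pf (m n : ℕ) : (∏ p ∈ lP m n, p).primeFactors = lP m n :=
  Nat.primeFactors_prod fun _ hp => Nat.prime_of_mem_primeFactors (mem_filter.1 hp).1

theorem Cv.r5a (C : Cv) : Rare fun m _ n => Squarefree n ∧ G2 m n ∧ ¬ C.Sees m (d0 m n) n := by
  obtain ⟨z0, -, h⟩ := C.masses
  obtain ⟨B, B1, hB⟩ := C.kd_U
  obtain ⟨K, hK⟩ : ∃ K, K = Nat.card (C.U 1) := ⟨_, rfl⟩
  refine rare_of (z0 + 6 * B + 400) (27 * K) fun m hm X hX S hS => ?_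
  have m6 : 6 ≤ m := by omega
  have y1 : YY m ≤ zz m := YY_le (by omega) 3
  have y2 := le_YY m
  obtain ⟨D, hD⟩ : ∃ D, D = (Icc 1 (YY m ^ m)).filter fun d => d.primeFactors.card ≤ m := ⟨_, rfl⟩
  obtain ⟨F, hF⟩ : ∃ F : ℕ → (GQ → C.A) → Finset ℕ, ∀ d c, F d c = (Den.SO (X / d)).filter
    fun k => ∀ p ∈ Wn (zz m) (X / d) fun p => C.Ty2 p ∧ C.sy c p = 1, ¬ p ∣ k := ⟨_, fun _ _ => rfl⟩
  have c1 : S.card ≤ ∑ d ∈ D, ∑ c ∈ (C.Uf d).erase 0, (F d c).card := by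
    refine le_trans (card_le_card (t := D.biUnion fun d => ((C.Uf d).erase 0).biUnion fun c =>
      (F d c).image fun k => d * k) fun n hn => ?_) (card_biUnion_le.trans (sum_le_sum fun d _ =>
        card_biUnion_le.trans (sum_le_sum fun c _ => card_image_le)))
    obtain ⟨a1, a2, a3, a4⟩ := hS n hn
    simp only [Cv.Sees, not_forall, not_exists, not_and] at a4
    obtain ⟨c, hc, c0, a4⟩ := a4
    have d1 : 0 < d0 m n := Nat.pos_of_ne_zero (d0_sq m n).ne_zero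
    have hmul := d0_mul (m := m) a2
    have hk : Squarefree (∏ p ∈ lP m n, p) := (hmul ▸ a2).of_mul_right
    refine mem_biUnion.2 ⟨d0 m n, ?_, mem_biUnion.2 ⟨c, mem_erase.2 ⟨c0,
      (Cv.mem_Uf (Nat.cast_ne_zero.2 d1.ne')).2 hc⟩, mem_image.2 ⟨_, ?_, hmul⟩⟩⟩
    · rw [hD]
      exact mem_filter.2 ⟨mem_Icc.2 ⟨d1, d0_le a3⟩, by rw [d0_pf]; exact a3⟩
    · rw [hF]
      refine mem_filter.2 ⟨Mom.HT.mem_SO.2 ⟨⟨Nat.pos_of_ne_zero hk.ne_zero, ?_⟩, hk,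
        Nat.not_even_iff_odd.1 fun e => ?_⟩, fun p hp e => ?_⟩
      · rw [Nat.le_div_iff_mul_le d1, mul_comm, hmul]; exact (mem_Icc.1 a1).2
      · have := Nat.mem_primeFactors.2 ⟨Nat.prime_two, e.two_dvd, hk.ne_zero⟩
        rw [lP_pf] at this
        have := (mem_filter.1 this).2
        omega
      · obtain ⟨b1, -, b2, b3⟩ := mem_Wn.1 hp
        exact a4 p (Nat.mem_primeFactors.2 ⟨b2.1.1, e.trans (Dvd.intro_left _ hmul), a2.ne_zero⟩)
          b1 b2 b3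
  have c2 : ∀ d ∈ D, ((∑ c ∈ (C.Uf d).erase 0, (F d c).card : ℕ) : ℝ) ≤
      K * 4 ^ m * (27 * X * (1 / 2 ^ m ^ 3)) * (1 / d : ℝ) := by
    intro d hd
    obtain ⟨d1, d2⟩ := mem_filter.1 (hD ▸ hd)
    obtain ⟨d0, d1⟩ := mem_Icc.1 d1
    have dz : (d : ℤ) ≠ 0 := Nat.cast_ne_zero.2 (by omega)
    have hZ := anc_Z m6 hX d0 d1
    have hZ2 : 2 ≤ X / d := le_trans (Nat.le_self_pow (by positivity) 2) hZ
    have e1 : ((C.Uf d).erase 0).card ≤ K * 4 ^ m := card_erase_le.trans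
      ((Cv.card_Uf (by omega)).trans (hK ▸ Nat.mul_le_mul_left _
        (Nat.pow_le_pow_right (by norm_num) d2)))
    have e2 : (((C.Uf d).erase 0).card : ℝ) ≤ K * 4 ^ m := by exact_mod_cast e1
    rw [Nat.cast_sum, mul_assoc]
    refine (sum_le_card_nsmul _ _ (27 * X * (1 / 2 ^ m ^ 3) * (1 / d : ℝ))
      fun c hc => ?_).trans ?_
    · obtain ⟨f1, f2⟩ := mem_erase.1 hc
      rw [Cv.mem_Uf dz] at f2
      have f3 : (1 : ℝ) ≤ B * ((d : ℤ) : ℝ) ^ 2 := by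
        exact_mod_cast Nat.mul_le_mul B1 (Nat.one_le_pow 2 d d0)
      have f4 := (h (zz m) (X / d) (by omega) hZ2).2.2 d c _ f2 f1 (hB d dz c f2) f3
        (by exact_mod_cast sbf_thr (by omega) (by omega) d1)
      have f5 := sbf_exp (by omega) (LL_ge hZ) (LL_zz (by omega)) f4
      have hq : ((X / d : ℕ) : ℝ) ≤ X / d := Nat.cast_div_le
      refine (sieve hZ2 (P := Wn (zz m) (X / d) fun p => C.Ty2 p ∧ C.sy c p = 1)
        (fun p hp => ?_) fun k hk => mem_filter.1 (hF d c ▸ hk)).trans ?_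
      · obtain ⟨-, b1, b2, -⟩ := mem_Wn.1 hp
        exact ⟨b2.1.1, b2.1.1.odd_of_ne_two b2.1.ne_two, b1⟩
      · exact (mul_le_mul (mul_le_mul_of_nonneg_left hq (by norm_num)) f5 (Real.exp_pos _).le
          (by positivity)).trans_eq (by ring)
    · rw [nsmul_eq_mul]
      exact mul_le_mul_of_nonneg_right e2 (by positivity)
  have c3 : (S.card : ℝ) ≤ K * 4 ^ m * (27 * X * (1 / 2 ^ m ^ 3)) * (1 + (m : ℝ) ^ 25) := by
    refine (Nat.cast_le.2 c1).trans ?_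
    rw [Nat.cast_sum]
    refine (sum_le_sum c2).trans ?_
    rw [← mul_sum, hD]
    exact mul_le_mul_of_nonneg_left ((sum_le_sum_of_subset_of_nonneg (filter_subset _ _)
      fun d _ _ => by positivity).trans (sum_inv_d0 m)) (by positivity)
  have c4 : (4 : ℝ) ^ m ≤ 2 ^ (m + 4) * 2 ^ m ^ 2 := by
    rw [← pow_add, show (4 : ℝ) = 2 ^ 2 by norm_num, ← pow_mul]
    exact pow_le_pow_right₀ one_le_two (by nlinarith)
  have c5 : (4 : ℝ) ^ m * (1 + (m : ℝ) ^ 25) * m / 2 ^ m ^ 3 ≤ 1 :=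
    (div_le_one (by positivity)).2 (le_trans (by gcongr) (anc_num m6))
  refine (mul_le_mul_of_nonneg_right c3 m.cast_nonneg).trans (le_of_eq_of_le ?_
    (mul_le_of_le_one_left (show (0 : ℝ) ≤ 27 * K * X by positivity) c5))
  ring

end Pool.Agent.B6.S
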