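import Pool.Agent.Lib.MP_696deb_nt.B6.SX1
import Pool.Agent.Lib.MP_696deb_nt.Sm.PatC
import Pool.Agent.Lib.MP_696deb_nt.Sm.Good

/-! Choice of indices in a generic box. -/

set_option autoImplicit false

open scoped Classical
open Finset Function

namespace Pool.Agent.B6.S

open Pool.Agent.Lib.MP_696deb_nt Pool.Agent.Lib.MP_696deb_nt.Sm

/-- Fourier count of the indices with a prescribed functional. -/
theorem one_count {ι : Type} (I : Finset ι) (V : Finset (ι → F2)) {K : ℕ} (h1 : V.card ≤ K)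
    (z : 0 ∈ V) (ad : ∀ u ∈ V, ∀ v ∈ V, u + v ∈ V)
    (h : ∀ u ∈ V, u ≠ 0 → 2 * K * |∑ j ∈ I, sn (u j)| ≤ I.card) (s : F2) (j1 : ι) :
    I.card ≤ 2 * K * ({j ∈ I | ∀ u ∈ V, u j = s * u j1} : Finset ι).card := by
  set N := ({j ∈ I | ∀ u ∈ V, u j = s * u j1} : Finset ι).card with hN
  have e1 : ∑ j ∈ I, ∑ u ∈ V, sn (u j + s * u j1) = (V.card : ℤ) * N := by
    rw [hN, card_filter, Nat.cast_sum, mul_sum]
    refine sum_congr rfl fun j _ => ?_
    rw [patc_orth V ad]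
    by_cases k1 : ∀ u ∈ V, u j = s * u j1
    · rw [if_pos k1, if_pos k1, Nat.cast_one, mul_one]
    · rw [if_neg k1, if_neg k1]; simp
  have e2 : ∑ j ∈ I, ∑ u ∈ V, sn (u j + s * u j1) =
      ∑ u ∈ V, sn (s * u j1) * ∑ j ∈ I, sn (u j) := by
    rw [sum_comm]
    refine sum_congr rfl fun u _ => ?_
    rw [mul_sum]
    refine sum_congr rfl fun j _ => ?_
    rw [sn_add, mul_comm]
  have e3 := card_nsmul_le_sum (V.erase 0)
    (fun u => 2 * (K : ℤ) * (sn (s * u j1) * ∑ j ∈ I, sn (u j)))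
    (-(I.card : ℤ)) fun u hu => by
      obtain ⟨k0, k⟩ := mem_erase.1 hu
      have k1 := h u k k0
      have k2 : |sn (s * u j1) * ∑ j ∈ I, sn (u j)| = |∑ j ∈ I, sn (u j)| := by
        rw [abs_mul, sn]
        split_ifs <;> simp
      rw [← k2] at k1
      have k3 := mul_le_mul_of_nonneg_left (neg_abs_le (sn (s * u j1) * ∑ j ∈ I, sn (u j)))
        (show (0 : ℤ) ≤ 2 * K by positivity)
      linarith
  rw [e2, ← add_sum_erase _ _ z] at e1
  simp only [Pi.zero_apply, mul_zero, sn_zero, one_mul, sum_const, nsmul_eq_mul, mul_one] at e1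
  rw [← mul_sum, nsmul_eq_mul] at e3
  have c1 : (V.card : ℤ) ≤ K := by exact_mod_cast h1
  have c2 : (((V.erase 0).card : ℕ) : ℤ) ≤ K := by exact_mod_cast card_erase_le.trans h1
  have hK : (0 : ℤ) < K := by exact_mod_cast (card_pos.2 ⟨_, z⟩).trans_le h1
  have c3 : (K : ℤ) * I.card ≤ K * (2 * K * N) := by
    have k1 := mul_le_mul_of_nonneg_right c2 (Nat.cast_nonneg (α := ℤ) I.card)
    have k2 := mul_le_mul_of_nonneg_right c1 (show (0 : ℤ) ≤ 2 * K * N by positivity)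
    have k3 := congrArg (2 * (K : ℤ) * ·) e1
    simp only [mul_add] at k3
    linarith
  exact_mod_cast le_of_mul_le_mul_left c3 hK

namespace Box

variable {C : Cv} {B : Box C} {a : B.Mat} {K : ℕ}

theorem exists_Jev {c : ℕ} (hB : B.Hyp c) (hG : B.Generic K a) : ∃ Jev : Finset (Fin B.r),
    Jev.card ≤ K ∧ ∀ P ∈ B.SA a, (∀ j ∈ Jev, P.2 j = 0) → P = 0 := by
  have k : ∀ P ∈ (B.SA a).erase 0, ∃ j, P.2 j ≠ 0 := fun P hP => by
    obtain ⟨h1, h2⟩ := mem_erase.1 hP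
    by_contra hc
    push Not at hc
    exact h1 (hB.eq_zero h2 (funext hc))
  choose f hf using k
  refine ⟨image (fun P => f P.1 P.2) (attach _), card_image_le.trans ?_, fun P hP h => ?_⟩
  · rw [card_attach]
    exact card_erase_le.trans hG.g1
  · by_contra h0
    have hm : P ∈ (B.SA a).erase 0 := mem_erase.2 ⟨h0, hP⟩
    exact hf P hm (h _ (mem_image.2 ⟨⟨P, hm⟩, mem_attach _ _, rfl⟩))

theorem exists_idx {m : ℕ} (hB : B.Hyp (2 * K * (m + 1))) (hG : B.Generic K a) (j1 : Fin B.r)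
    (s : F2) (k : Fin 3) (F : Finset (Fin B.r)) (hF : F.card ≤ m) :
    ∃ j ∈ B.I k, j ∉ F ∧ ∀ P ∈ B.SA a, P.2 j = s * P.2 j1 := by
  have h := one_count (B.I k) ((B.SA a).image Prod.snd) (card_image_le.trans hG.g1)
    (mem_image.2 ⟨0, zero_mem_SA, rfl⟩) (fun u hu v hv => by
      obtain ⟨P, hP, rfl⟩ := mem_image.1 hu
      obtain ⟨P', hP', rfl⟩ := mem_image.1 hv
      exact mem_image.2 ⟨_, add_mem_SA hP hP', rfl⟩) (fun u hu h0 => by
      obtain ⟨P, hP, rfl⟩ := mem_image.1 hu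
      exact hG.g2 P hP (fun e => h0 (by rw [e]; rfl)) k) s j1
  have hK : 0 < 2 * K := by
    have : 0 < K := (card_pos.2 ⟨_, zero_mem_SA⟩).trans_le hG.g1
    positivity
  have h1 := Nat.le_of_mul_le_mul_left ((hB.hH.trans (hB.win k)).trans h) hK
  obtain ⟨j, hj, hj'⟩ := exists_mem_notMem_of_card_lt_card ((Nat.lt_succ_of_le hF).trans_le h1)
  simp only [mem_filter] at hj
  obtain ⟨k1, k2⟩ := hj
  exact ⟨j, k1, hj', fun P hP => k2 _ (mem_image.2 ⟨P, hP, rfl⟩)⟩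

theorem exists_dirs {n m : ℕ} (hB : B.Hyp (2 * K * (m + n + 3))) (hG : B.Generic K a)
    (j0 j1 : Fin B.r) (F : Finset (Fin B.r)) (hF : F.card ≤ m) :
    ∃ σ : Sx n → Fin B.r, Injective σ ∧ (∀ i, σ i ∉ F) ∧ (∀ j, σ (.inl j) ∈ B.I 0) ∧
      σ ic ∈ B.I 1 ∧ σ ia ∈ B.I 2 ∧ ∀ P ∈ B.SA a,
        (∀ j, P.2 (σ (.inl j)) = 0) ∧ P.2 (σ ia) = P.2 j0 ∧ P.2 (σ ic) = P.2 j1 := by
  have key := exists_idx (m := m + n + 2) hB hG
  obtain ⟨G, hGm⟩ : ∃ G : Finset (Fin B.r), ∀ j, j ∈ G ↔ j ∈ B.I 0 ∧ j ∉ F ∧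
      ∀ P ∈ B.SA a, P.2 j = 0 :=
    ⟨{j ∈ B.I 0 \ F | ∀ P ∈ B.SA a, P.2 j = 0}, fun j => by
      rw [mem_filter, mem_sdiff, and_assoc]⟩
  have hn : n ≤ G.card := by
    by_contra hc
    obtain ⟨j, k1, k2, k3⟩ := key j0 0 0 (F ∪ G) ((card_union_le _ _).trans (by omega))
    refine k2 (mem_union_right _ ((hGm j).2 ⟨k1, fun h => k2 (mem_union_left _ h), ?_⟩))
    simpa only [zero_mul] using k3
  have hτ := fun i => (hGm _).1 (orderEmbOfCardLe_mem G hn i)
  have inj := (orderEmbOfCardLe G hn).injective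
  generalize (orderEmbOfCardLe G hn : Fin n → Fin B.r) = τ at hτ inj
  have c : (F ∪ univ.image τ).card ≤ m + n :=
    (card_union_le _ _).trans (add_le_add hF (card_image_le.trans (by simp)))
  obtain ⟨u, u1, u2, u3⟩ := key j0 1 2 _ (c.trans (by omega))
  obtain ⟨v, v1, v2, v3⟩ := key j1 1 1 (insert u (F ∪ univ.image τ))
    ((card_insert_le _ _).trans (by omega))
  simp only [mem_insert, mem_union, mem_image, mem_univ, true_and, not_or, not_exists] at u2 v2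
  simp only [one_mul] at u3 v3
  refine ⟨Sum.elim τ fun b => cond b u v, ?_, ?_, fun j => (hτ j).1, v1, u1,
    fun P hP => ⟨fun j => (hτ j).2.2 P hP, u3 P hP, v3 P hP⟩⟩
  · rintro (i | _ | _) (j | _ | _) h
    · exact congrArg _ (inj h)
    · exact (v2.2.2 i h).elim
    · exact (u2.2 i h).elim
    · exact (v2.2.2 j h.symm).elim
    · rfl
    · exact (v2.1 h).elim
    · exact (u2.2 j h.symm).elim
    · exact (v2.1 h.symm).elim
    · rfl
  · rintro (i | _ | _)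
    · exact (hτ i).2.1
    · exact v2.2.1
    · exact u2.1

end Box

end Pool.Agent.B6.S
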