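import Pool.Agent.Lib.MP_696deb_nt.B6.SSt
import Pool.Agent.Lib.MP_696deb_nt.B6.SX2

/-! The first moment of the number of lifts. -/

set_option autoImplicit false

open scoped Classical
open Finset Function

namespace Pool.Agent.B6.S

open Pool.Agent.Lib.MP_696deb_nt Pool.Agent.Lib.MP_696deb_nt.Sm

namespace Box

variable {C : Cv} (B : Box C)

/-- The number of points with a lift that has prescribed values. -/
noncomputable def yy (a : B.Mat) (k : ℕ) (P : B.PP) (Jev : Finset (Fin B.r))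
    (e : Fin B.r → C.A) : ℕ := ({x ∈ B.fib a | ∃ c ∈ C.Om (B.DD x) k (B.cls x P),
      ∀ j ∈ Jev, c (sig (x j)) = e j} : Finset _).card

/-- The total number of lifts. -/
noncomputable def ww (a : B.Mat) (k : ℕ) (P : B.PP) : ℕ :=
  ∑ x ∈ B.fib a, (C.Om (B.DD x) k (B.cls x P)).ncard

/-- The possible values. -/
noncomputable def EV (k : ℕ) (Jev : Finset (Fin B.r)) : Finset (Fin B.r → C.A) :=
  Fintype.piFinset fun j => if j ∈ Jev then (C.finite_tors (k + 1)).toFinset else {0}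

/-- The Selmer patterns that can be used for a step. -/
noncomputable def BJ (a : B.Mat) (j0 : Fin B.r) (J : Finset (Fin B.r)) : Finset B.PP :=
  {b ∈ B.SA a | b.2 j0 = 0 ∧ ∀ j ∈ J, b.2 j = 0}

variable {B} {a : B.Mat} {k : ℕ} {P : B.PP} {J Jev : Finset (Fin B.r)} {e : Fin B.r → C.A}

theorem card_EV (k : ℕ) (Jev : Finset (Fin B.r)) :
    (B.EV k Jev).card = 4 ^ ((k + 1) * Jev.card) := by
  rw [EV, Fintype.card_piFinset, pow_mul, ← prod_const (s := Jev), ← Fintype.prod_ite_mem Jev]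
  refine prod_congr rfl fun j _ => ?_
  split_ifs
  · rw [← Set.ncard_eq_toFinset_card _ (C.finite_tors (k + 1)), C.card_tors]
  · exact card_singleton _

theorem chain_two {D : ℤ} {S : Set ℕ} {c z : GQ → C.A} (h1 : C.IsZ D S (k + 1 + 1) c)
    (h2 : 2 ^ (k + 1) • c = z) : 2 • c ∈ C.Om D k z :=
  ⟨h1.two, by rw [← h2, pow_succ, mul_smul]⟩

theorem Wf.chain_fin (h : B.Wf) {x : Fin B.r → ℕ} (hx : x ∈ B.fib a) (k : ℕ) (z : GQ → C.A) :
    (C.Om (B.DD x) k z).Finite :=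
  (Cv.finite_Z (C.finite_AA (h.DD_sqf (mem_fib.1 hx).1).ne_zero) (k + 1)).subset fun _ hc => hc.1

theorem Yc_le_yy : B.Yc a (k + 1) P J Jev e ≤ B.yy a k P Jev e := by
  refine card_le_card fun x hx => ?_
  obtain ⟨hx, c, h1, h2, h3⟩ := mem_filter.1 hx
  exact mem_filter.2 ⟨hx, 2 • c, chain_two h1 h2, h3⟩

theorem Wf.sum_yy_le (h : B.Wf) : ∑ e ∈ B.EV k Jev, B.yy a k P Jev e ≤ B.ww a k P := by
  simp only [yy, card_filter]
  rw [sum_comm]
  refine sum_le_sum fun x hx => ?_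
  rw [← card_filter, ← Set.ncard_coe_finset]
  refine (Set.ncard_le_ncard (fun e he => ?_) ((h.chain_fin hx k _).image
    fun c j => if j ∈ Jev then c (sig (x j)) else 0)).trans (Set.ncard_image_le (h.chain_fin hx k _))
  obtain ⟨he, c, h1, h2⟩ := mem_filter.1 he
  refine ⟨c, h1, funext fun j => ?_⟩
  have := Fintype.mem_piFinset.1 he j
  dsimp only
  split_ifs at this ⊢ with hj
  · exact h2 j hj
  · exact (mem_singleton.1 this).symm

theorem Wf.ww_succ_le (h : B.Wf) (hd : ∀ Q ∈ B.SA a, (∀ j ∈ Jev, Q.2 j = 0) → Q = 0) :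
    B.ww a (k + 1) P ≤ (B.SA a).card * ∑ e ∈ B.EV k Jev, B.Yc a (k + 1) P ∅ Jev e := by
  simp only [Yc, card_filter]
  rw [sum_comm, mul_sum]
  refine sum_le_sum fun x hx => ?_
  have hD := (h.DD_sqf (mem_fib.1 hx).1).ne_zero
  refine (Cv.card_Om_succ (C.finite_AA hD)).trans (Nat.mul_le_mul (h.card_SA hx).le ?_)
  rw [← card_filter, ← Set.ncard_coe_finset]
  refine Set.ncard_le_ncard_of_injOn (fun c j => if j ∈ Jev then c (sig (x j)) else 0) ?_ ?_
    (finite_toSet _)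
  · rintro _ ⟨c, hc, rfl⟩
    refine mem_filter.2 ⟨Fintype.mem_piFinset.2 fun j => ?_, c, by simpa using hc.1, hc.2,
      fun j hj => by simp [hj]⟩
    split_ifs
    · exact (Set.Finite.mem_toFinset _).2 (hc.1.two.tors _)
    · exact mem_singleton_self _
  · rintro _ ⟨c, hc, rfl⟩ _ ⟨c', hc', rfl⟩ e
    refine sub_eq_zero.1 (Cv.detect (T := (fun j => sig (x j)) '' Jev)
      (fun z hz h0 => h.det hd hx hz fun j hj => h0 _ ⟨j, hj, rfl⟩) (hc.1.two.sub hc'.1.two) ?_)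
    rintro _ ⟨j, hj, rfl⟩
    have := congrFun e j
    simp only [if_pos (mem_coe.1 hj)] at this
    exact sub_eq_zero.2 this

theorem Wf.ww_zero (h : B.Wf) (hP : P ∈ B.SA a) : B.ww a 0 P = (B.fib a).card := by
  rw [ww, card_eq_sum_ones]
  exact sum_congr rfl fun x hx => Cv.card_Om_zero (by rw [Cv.AA_zero]; exact (h.mem_SA hx).1 hP)

theorem add_mem_BJ (j0 : Fin B.r) : ∀ u ∈ B.BJ a j0 J, ∀ v ∈ B.BJ a j0 J,
    u + v ∈ B.BJ a j0 J := fun u hu v hv => by
  obtain ⟨u1, u2, u3⟩ := mem_filter.1 hu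
  obtain ⟨v1, v2, v3⟩ := mem_filter.1 hv
  exact mem_filter.2 ⟨add_mem_SA u1 v1, by simp [u2, v2], fun j hj => by simp [u3 j hj, v3 j hj]⟩

theorem card_BJ (j0 : Fin B.r) : (B.SA a).card ≤ 2 * (B.BJ a j0 ∅).card :=
  (card_le_two_ker _ (fun _ hu _ hv => add_mem_SA hu hv) (fun u => u.2 j0) fun _ _ => rfl).trans
    (Nat.mul_le_mul_left _ (card_le_card fun u hu =>
      mem_filter.2 ⟨(mem_filter.1 hu).1, (mem_filter.1 hu).2, by simp⟩))

/-- One step of the flag. -/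
theorem exists_step {K n m : ℕ} (hB : B.Hyp (2 * K * (2 * m + n + 3))) (hG : B.Generic K a)
    (hP : P ∈ B.SA a) {j0 : Fin B.r} (h0 : P.2 j0 = 1) (hJ : J.card ≤ m) (hJev : Jev.card ≤ m)
    (hd : ∀ Q ∈ B.SA a, (∀ j ∈ Jev, Q.2 j = 0) → Q = 0) (hb : 1 < (B.BJ a j0 J).card) :
    ∃ (b : B.PP) (σ : Sx n → Fin B.r), B.StepH a P b J Jev σ ∧
      2 * (B.BJ a j0 (J ∪ univ.image σ)).card = (B.BJ a j0 J).card := by
  obtain ⟨b, hb, b0⟩ := exists_mem_ne hb 0
  obtain ⟨b1, b2, b3⟩ := mem_filter.1 hb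
  obtain ⟨j1, h1⟩ := Function.ne_iff.1 fun k => b0 (hB.eq_zero b1 k)
  have h1 : b.2 j1 = 1 := (F2_cases _).resolve_left h1
  obtain ⟨σ, s1, s2, s3, s4, s5, s6⟩ := exists_dirs (n := n) hB hG j0 j1 (J ∪ Jev)
    ((card_union_le _ _).trans (by omega))
  have key : ∀ u ∈ B.BJ a j0 J, ∀ i, i ≠ ic → u.2 (σ i) = 0 := fun u hu => by
    obtain ⟨u1, u2, -⟩ := mem_filter.1 hu
    rintro (i | _ | _) hi
    exacts [(s6 u u1).1 i, (hi rfl).elim, (s6 u u1).2.1.trans u2]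
  have e : B.BJ a j0 (J ∪ univ.image σ) = {u ∈ B.BJ a j0 J | u.2 j1 = 0} := by
    ext u
    constructor
    · intro hu
      obtain ⟨u1, u2, u3⟩ := mem_filter.1 hu
      exact mem_filter.2 ⟨mem_filter.2 ⟨u1, u2, fun j hj => u3 j (mem_union_left _ hj)⟩,
        (s6 u u1).2.2.symm.trans (u3 _ (mem_union_right _ (mem_image_of_mem _ (mem_univ _))))⟩
    · intro hu
      obtain ⟨u0, u4⟩ := mem_filter.1 hu
      obtain ⟨u1, u2, u3⟩ := mem_filter.1 u0
      refine mem_filter.2 ⟨u1, u2, forall_mem_union.2 ⟨u3, forall_mem_image.2 fun i _ => ?_⟩⟩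
      by_cases hi : i = ic
      · exact hi ▸ (s6 u u1).2.2.trans u4
      · exact key u u0 i hi
  refine ⟨b, σ, ⟨s1, s3, s4, s5, fun i => notMem_union.1 (s2 i), hd, b1, (s6 P hP).1,
    (s6 P hP).2.1.trans h0, b3, key b hb, (s6 b b1).2.2.trans h1⟩, ?_⟩
  rw [e]
  exact le_antisymm (two_ker_le_card _ (add_mem_BJ j0) (fun u => u.2 j1) (fun _ _ => rfl) hb h1)
    (card_le_two_ker _ (add_mem_BJ j0) (fun u => u.2 j1) fun _ _ => rfl)

end Box

theorem flag_main (C : Cv) (K n : ℕ) (hn : 1 ≤ n) {ε : ℝ} (hε : 0 < ε) : ∃ c : ℕ, ∀ B : Box C,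
    B.Hyp c → ∀ a : B.Mat, B.Generic K a → ∀ P ∈ B.SA a, ∀ j0 : Fin B.r, P.2 j0 = 1 →
    ∀ Jev : Finset (Fin B.r), Jev.card ≤ K →
    (∀ Q ∈ B.SA a, (∀ j ∈ Jev, Q.2 j = 0) → Q = 0) → ∀ (e : Fin B.r → C.A) (y : ℕ),
    (∀ J, B.Yc a n P J Jev e ≤ y) →
    (B.Yc a n P ∅ Jev e : ℝ) * (B.BJ a j0 ∅).card ≤
      y + ε * (B.fib a).card * (B.BJ a j0 ∅).card := by
  obtain ⟨c, hc⟩ := step_main C n (K * (n + 2) + K) hn (half_pos hε)
  refine ⟨max c (2 * K * (2 * (K * (n + 2) + K) + n + 3)),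
    fun B hB a hG P hP j0 h0 Jev hJev hd e y hy => ?_⟩
  have key : ∀ (t : ℕ) (J : Finset (Fin B.r)), (B.BJ a j0 J).card = t →
      J.card + t * (n + 2) ≤ K * (n + 2) →
      (B.Yc a n P J Jev e : ℝ) * t ≤ y + ε * (B.fib a).card * t := fun t => by
    induction t using Nat.strong_induction_on with
    | _ t ih =>
    intro J ht hJ
    have p0 : 0 ≤ ε * (B.fib a).card := by positivity
    have y0 : (B.Yc a n P J Jev e : ℝ) ≤ y := Nat.cast_le.2 (hy J)
    by_cases h3 : t ≤ 1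
    · have : (t : ℝ) ≤ 1 := by exact_mod_cast h3
      have := mul_le_mul y0 this (by positivity) (by positivity)
      have : 0 ≤ ε * (B.fib a).card * t := by positivity
      linarith
    obtain ⟨b, σ, k1, k2⟩ := Box.exists_step (n := n) (m := K * (n + 2) + K)
      (hB.mono (le_max_right _ _)) hG hP h0 (J := J) (by omega) (by omega) hd (by omega)
    have k3 := hc B (hB.mono (le_max_left _ _)) a P b J Jev σ e k1 (by omega) (by omega)
    have k4 : (J ∪ univ.image σ).card ≤ J.card + (n + 2) := (card_union_le _ _).trans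
      (Nat.add_le_add_left (card_image_le.trans (by simp)) _)
    generalize hs : (B.BJ a j0 (J ∪ univ.image σ)).card = s at k2
    obtain rfl : t = 2 * s := by omega
    have k5 := ih s (by omega) _ hs (by nlinarith)
    have k6 := mul_le_mul_of_nonneg_right k3 (Nat.cast_nonneg s : (0 : ℝ) ≤ s)
    push_cast
    linarith
  have k0 : (B.BJ a j0 ∅).card ≤ K := (card_filter_le _ _).trans hG.g1
  exact key _ ∅ rfl (by simpa using k0)

theorem chain_main (C : Cv) (K n : ℕ) {ε : ℝ} (hε : 0 < ε) : ∃ c : ℕ, ∀ B : Box C,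
    B.Hyp c → ∀ a : B.Mat, B.Generic K a → ∀ P ∈ B.SA a, ∀ j0 : Fin B.r, P.2 j0 = 1 →
    (B.ww a n P : ℝ) ≤ (2 ^ n + ε) * (B.fib a).card := by
  induction n generalizing ε with
  | zero =>
    refine ⟨0, fun B hB a _ P hP _ _ => ?_⟩
    rw [hB.wf.ww_zero hP]
    nlinarith [(Nat.cast_nonneg (B.fib a).card : (0 : ℝ) ≤ _)]
  | succ k ih =>
    obtain ⟨c, hc⟩ := ih (ε := ε / 16) (by positivity)
    obtain ⟨c', hc'⟩ := flag_main C K (k + 1) (by omega)
      (ε := ε / (16 * 4 ^ ((k + 1) * K) * (K + 1))) (by positivity)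
    refine ⟨max c c', fun B hB a hG P hP j0 h0 => ?_⟩
    have h := hB.wf
    obtain ⟨Jev, hJ, hd⟩ := Box.exists_Jev hB hG
    have k1 := hc B (hB.mono (le_max_left _ _)) a hG P hP j0 h0
    have k2 := sum_le_sum fun e (_ : e ∈ B.EV k Jev) => hc' B
      (hB.mono (le_max_right _ _)) a hG P hP j0 h0 Jev hJ hd e _ fun _ => Box.Yc_le_yy
    have k3 : (B.ww a (k + 1) P : ℝ) ≤ 2 * (B.BJ a j0 ∅).card *
        ∑ e ∈ B.EV k Jev, (B.Yc a (k + 1) P ∅ Jev e : ℝ) := by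
      exact_mod_cast (h.ww_succ_le hd).trans (Nat.mul_le_mul_right _ (Box.card_BJ j0))
    have k4 : ∑ e ∈ B.EV k Jev, (B.yy a k P Jev e : ℝ) ≤ B.ww a k P := by
      exact_mod_cast h.sum_yy_le
    have k5 : ((B.BJ a j0 ∅).card : ℝ) ≤ K + 1 := by
      exact_mod_cast ((card_filter_le _ _).trans hG.g1).trans (Nat.le_succ K)
    have k6 : ((B.EV k Jev).card : ℝ) ≤ 4 ^ ((k + 1) * K) := by
      rw [Box.card_EV]
      exact_mod_cast Nat.pow_le_pow_right (by norm_num) (Nat.mul_le_mul_left _ hJ)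
    rw [← sum_mul, sum_add_distrib, sum_const, nsmul_eq_mul] at k2
    have k7 : (B.EV k Jev).card * (ε / (16 * 4 ^ ((k + 1) * K) * (K + 1)) * (B.fib a).card *
        (B.BJ a j0 ∅).card) ≤ 4 ^ ((k + 1) * K) * (ε / (16 * 4 ^ ((k + 1) * K) * (K + 1)) *
          (B.fib a).card * (K + 1)) := by gcongr
    rw [show 4 ^ ((k + 1) * K) * (ε / (16 * 4 ^ ((k + 1) * K) * (K + 1)) * (B.fib a).card * (K + 1))
      = ε / 16 * (B.fib a).card by field_simp] at k7
    have p0 : 0 ≤ ε * (B.fib a).card := by positivity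
    rw [pow_succ]
    linarith

end Pool.Agent.B6.S
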