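import Pool.Agent.Lib.MP_696deb_nt.B4.HSc
import Pool.Agent.Lib.MP_696deb_nt.B4.FIa
import Pool.Agent.Lib.MP_696deb_nt.B6.D1

/-! Complex Heegner points indexed by ring class groups. -/

set_option autoImplicit false

open Finset
open scoped Classical NumberTheorySymbols

namespace Pool.Agent.B6

open Pool.Agent.Lib.MP_696deb_nt Pool.Agent.Lib.MP_696deb_nt.B2 Pool.Agent.Lib.MP_696deb_nt.B2.CM
open Pool.Agent.B4 (OkN HgN HRp Hg GEq GE.Par GE.Geo GE.Inv0)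

section

variable {W : WeierstrassCurve ℚ} {V : Type} [AddCommGroup V] {S : ℂ → V} {N n c l : ℕ} {r : ℤ}
  {τ τ' : ℂ} {Q : Fm} {T : Finset Fm}

theorem hg_geq (ok : OkN N n c r) (k : HgN N n c r τ) (k' : HgN N n c r τ')
    (e : cl (Oc n c) (sp2 τ 1) = cl _ (sp2 τ' 1)) : GEq N τ' τ := by
  obtain ⟨a, ha, e⟩ := (cl_eq_iff k.iv k'.iv).1 e
  obtain ⟨x, y, z, w, h1, h2, h3⟩ := B4.exists_mob k.pos k'.pos ha e
  have h4 : a * 1 ∈ sp2 (N * τ') 1 := by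
    rw [← k'.mul ok, e, mul_sc, k.mul ok, mul_mem_sc ha]
    exact right_mem_sp2 _ _
  obtain ⟨u, v, h5⟩ := cmd_mem h4
  obtain rfl : z = N * u := (cmd_ext k'.pos.ne' (y := w) (y' := v) (by
    push_cast; linear_combination h5 - h2)).1
  exact ⟨!![x, y; N * u, w], by simpa using h1, by simp, by rw [act_of, h3]⟩

variable (S N n c r) in
/-- The value of an invariant function at the Heegner point of a class. -/
noncomputable def yC (x : Pc n c) : V :=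
  S (if h : ∃ τ, HgN N n c r τ ∧ cl _ (sp2 τ 1) = x then h.choose else 0)

omit [AddCommGroup V] in
theorem yC_eq (ok : OkN N n c r) (hS : GE.Inv0 N S) (h : HgN N n c r τ) :
    yC S N n c r (cl _ (sp2 τ 1)) = S τ := by
  have k : ∃ τ', HgN N n c r τ' ∧ cl (Oc n c) (sp2 τ' 1) = cl _ (sp2 τ 1) := ⟨τ, h, rfl⟩
  obtain ⟨g, g1, g2, e⟩ := hg_geq ok k.choose_spec.1 h k.choose_spec.2
  rw [yC, dif_pos k, e, hS g ⟨g1, g2⟩ τ h.pos]

theorem yC_trace (P : GE.Par W N) (ok : OkN N n (c * l) r) (hl : l.Prime) (h2 : l ≠ 2)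
    (hJ : J(-n | l) = -1) (hc : ¬ l ∣ c) :
    ∑ᶠ x, yC P.φ N n (c * l) r x = P.a l • ∑ᶠ x, yC P.φ N n c r x := by
  have i0 := finite_Pc ok.m4 ok.gt
  have i1 := Fintype.ofFinite (Pc n c)
  have i2 := Fintype.ofFinite (Pc n (c * l))
  rw [finsum_eq_sum_of_fintype, finsum_eq_sum_of_fintype, smul_sum,
    ← sum_fiberwise univ (pj n c (c * l))]
  refine sum_congr rfl fun z _ => ?_
  obtain ⟨τ, h, rfl, k, he, e1⟩ := B4.exists_fibN ok hl h2 hJ hc z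
  have e3 : (univ.filter fun x => pj n c (c * l) x = cl _ (sp2 τ 1)) = univ.map ⟨_, he⟩ := by
    ext x
    simp [e1]
  rw [e3, sum_map, yC_eq ok.of_mul P.inv0 h, ← P.φ_hecke hl
    (hl.coprime_iff_not_dvd.1 (ok.cop.coprime_dvd_left ⟨n * c, by ring⟩)) h.pos]
  refine sum_congr rfl fun i _ => (yC_eq ok P.inv0 (k i)).trans ?_
  rcases i with _ | j <;> simp [rP, ut, act_of, mob, hk]

/-- The sum over the classes of conductor `c` is an odd multiple of the basic sum. -/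
theorem yC_odd (P : GE.Par W N) (ok : OkN N n c r) (hs : Squarefree c)
    (h : ∀ l : ℕ, l.Prime → l ∣ c → l ≠ 2 ∧ J(-n | l) = -1 ∧ Odd (P.a l)) :
    ∃ k : ℤ, Odd k ∧ ∑ᶠ x, yC P.φ N n c r x = k • ∑ᶠ x, yC P.φ N n 1 r x := by
  induction c using induction_on_primes with
  | zero => exact absurd rfl ok.ne
  | one => exact ⟨1, odd_one, (one_smul _ _).symm⟩
  | prime_mul l c hl ih =>
    rw [mul_comm] at ok hs h ⊢
    obtain ⟨k, k1, k2⟩ := ih ok.of_mul hs.of_mul_left fun p hp e => h p hp (e.mul_right _)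
    obtain ⟨a1, a2, a3⟩ := h l hl (dvd_mul_left _ _)
    exact ⟨_, a3.mul k1, by rw [yC_trace P ok hl a1 a2 fun e =>
      hl.not_isUnit (hs l (mul_dvd_mul_right e l)), k2, smul_smul]⟩

theorem isIv_form (ok : Ok n c) (hs : Squarefree n) (hD : fdisc Q = -(n * c ^ 2)) (h : 0 < Q.1)
    (hp : ∀ p : ℕ, p.Prime → p ∣ c → Gal.gp p Q ≠ 0) : IsIv (Oc n c) (sp2 (froot Q) 1) := by
  have h0 : (Q.1 : ℂ) ≠ 0 := by exact_mod_cast h.ne'
  obtain ⟨g, x, y, z, a, b, d, e1, e2, e3, e4⟩ := cmb_gcd Q.1 Q.2.1 Q.2.2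
  have h1 : g.natAbs = 1 := Nat.eq_one_iff_not_exists_prime_dvd.2 fun p p1 p2 => by
    obtain ⟨u, rfl⟩ := Int.natCast_dvd.2 p2
    have h2 : p * p ∣ n * c ^ 2 := Int.natCast_dvd_natCast.1 ⟨u ^ 2 * (4 * a * d - b ^ 2), by
      rw [fdisc, e2, e3, e4] at hD
      push_cast
      linear_combination hD⟩
    by_cases k : p ∣ c
    · refine hp p p1 k ?_
      rw [Gal.gp, if_pos ⟨u * a, by rw [e2, mul_assoc]⟩]
      exact jac_zero_of_dvd p1 ⟨u * d, by rw [e4, mul_assoc]⟩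
    · have k' := p1.coprime_iff_not_dvd.2 k
      exact p1.not_isUnit (hs p (((k'.mul_left k').pow_right 2).dvd_of_dvd_mul_right h2))
  have h2 : g * g = 1 := by rw [← Int.natAbs_mul_self, h1]; rfl
  have h3 := isIv_idl (n := n) (c := c) (m := Q.1) (b := -Q.2.1) (k := Q.2.2) ok.m4
    (by rw [fdisc] at hD; linear_combination hD) h.ne'
    ⟨g * x, -(g * y), g * z, by linear_combination g * e1 + h2⟩
  rw [B4.idl_froot hD h] at h3
  have h4 := h3.sc (inv_ne_zero h0)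
  rwa [sc_inv_sc h0] at h4

/-- Sums over forms with a genus character are sums over classes with signs. -/
theorem sum_hrp [Fintype (Pc n c)] (ok : OkN N n c r) (hs : Squarefree n) (hS : GE.Inv0 N S)
    (hT : HRp N (-(n * c ^ 2)) (r * c) T) {e : ℕ} (e0 : e ≠ 0)
    (h1 : ∀ p : ℕ, p.Prime → p ∣ c → p ∣ e) (h2 : ∀ p : ℕ, p.Prime → p ∣ e → p ≠ 2 ∧ p ∣ n * c) :
    ∃ ε : Pc n c → ℤˣ, (e = 1 → ∀ x, ε x = 1) ∧
      ∑ Q ∈ T, gch e Q • S (froot Q) = ∑ x, (ε x : ℤ) • yC S N n c r x := by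
  have hD := B4.ok_neg ok.toOk
  have hg := fun Q hQ => B4.hg_form ok (hT.mem Q hQ).disc (hT.mem Q hQ).pos (hT.mem Q hQ).lev
    (hT.mem Q hQ).res
  have k : ∀ x : Pc n c, ∃ Q ∈ T, IsIv (Oc n c) (sp2 (froot Q) 1) ∧
      cl _ (sp2 (froot Q) 1) = x := fun x => by
    obtain ⟨Q, a1, a2, a3, a4, a5, rfl⟩ := B4.exists_hform ok x
    obtain ⟨R, r1, g, g1, -, g2⟩ := hT.ex Q ⟨a1, a2, a3, a4⟩
    have i := (hT.mem R r1).im_pos hD
    have k3 := B4.sp2_mob (Matrix.det_fin_two g ▸ g1) i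
    rw [show mob (g 0 0) (g 0 1) (g 1 0) (g 1 1) (froot R) = froot Q from g2.symm] at k3
    have k4 : (g 1 0 : ℂ) * froot R + g 1 1 ≠ 0 := den_ne' (M := g) (by omega) i
    exact ⟨R, r1, k3 ▸ a5.sc k4, by rw [k3, cl_sc a5 k4]⟩
  choose β b1 b2 b3 using k
  choose g g1 g2 using rho_surj ok.toOk
  refine ⟨fun x => ∏ p ∈ e.primeFactors, chi (pst p) (g x), fun h x => by simp [h], ?_⟩
  rw [← sum_subset (s₁ := univ.image β) (fun Q hQ => by
    obtain ⟨x, -, rfl⟩ := mem_image.1 hQ; exact b1 x) fun Q hQ k => ?_,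
    sum_image fun x _ y _ h => by rw [← b3 x, h, b3]]
  · refine sum_congr rfl fun x _ => ?_
    rw [← yC_eq ok hS (hg _ (b1 x) (b2 x)), b3, Units.coe_prod, Gal.gch_eq]
    refine congrArg (· • _) (prod_congr rfl fun p hp => ?_)
    have p1 := Nat.prime_of_mem_primeFactors hp
    have p2 := h2 p p1 (Nat.dvd_of_mem_primeFactors hp)
    exact (B4.chi_form ok.toOk (g1 x) p1 p2.1 p2.2 (hT.mem _ (b1 x)).disc (hT.mem _ (b1 x)).pos
      (b2 x) ((g2 x).trans (b3 x).symm)).symm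
  · rw [of_not_not (a := gch e Q = 0) fun h => k ?_, zero_smul]
    have i := isIv_form ok.toOk hs (hT.mem Q hQ).disc (hT.mem Q hQ).pos fun p p1 p2 =>
      prod_ne_zero_iff.1 h p (Nat.mem_primeFactors.2 ⟨p1, h1 p p1 p2, e0⟩)
    exact mem_image.2 ⟨_, mem_univ _, (hT.uniq _ hQ _ (b1 _)
      (hg_geq ok (hg _ (b1 _) (b2 _)) (hg Q hQ i) (b3 _))).symm⟩

/-- A polynomial vanishes at singular moduli of finitely many orders only. -/
theorem exists_bound {m : Polynomial ℂ} (hm : m ≠ 0) : ∃ B : ℕ, ∀ n c : ℕ, B < n * c ^ 2 →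
    Ok n c → ∀ x, m.eval (jP n c x) ≠ 0 := by
  have key : ∀ (n n' c c' : ℕ) (x : Pc n c) (x' : Pc n' c'), Ok n c → Ok n' c' →
      jP n c x = jP n' c' x' → n' * c' ^ 2 ≤ n * c ^ 2 := fun n n' c c' x x' ok ok' e => by
    obtain ⟨I, hI, rfl⟩ := cl_surj x
    obtain ⟨I', hI', rfl⟩ := cl_surj x'
    rw [jP_cl ok hI, jP_cl ok' hI'] at e
    obtain ⟨a, ha, rfl⟩ := jL_inj (hI.isLat ok) (hI'.isLat ok') e
    have h1 : be n c c ∈ ot (Oc n' c') := hI'.mem_of_mul fun z hz =>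
      (hI.sc ha).mul_mem (be_mem ok.m4 (by simp)) hz
    rw [cma_ot ok'.m4] at h1
    obtain ⟨u, v, h1⟩ := mem_sp2.1 h1
    have h2 : ((c : ℂ) - 2 * u - v * c') + c * dl n = v * c' * dl n' := by
      simp only [be] at h1
      push_cast at h1
      linear_combination 2 * h1
    have h3 : (c : ℝ) * √n = v * c' * √n' := by simpa [dl] using congrArg Complex.im h2
    have h4 : ((n * c ^ 2 : ℕ) : ℝ) = (v ^ 2 * (n' * c' ^ 2 : ℕ) : ℤ) := by
      push_cast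
      linear_combination (c * √n + v * c' * √n') * h3 - c ^ 2 * Real.sq_sqrt (Nat.cast_nonneg n) +
        v ^ 2 * c' ^ 2 * Real.sq_sqrt (Nat.cast_nonneg n')
    have h5 : ((n * c ^ 2 : ℕ) : ℤ) = v ^ 2 * (n' * c' ^ 2 : ℕ) := by exact_mod_cast h4
    have h6 : v ≠ 0 := by
      rintro rfl
      have := B4.ok_neg ok
      push_cast at h5
      omega
    have h7 : 1 ≤ v ^ 2 := by have := sq_pos_of_ne_zero h6; omega
    zify at h5 ⊢
    nlinarith [mul_nonneg (Nat.cast_nonneg (α := ℤ) n') (sq_nonneg (c' : ℤ))]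
  let f : ℂ → ℕ := fun z => if h : ∃ p : ℕ × ℕ, Ok p.1 p.2 ∧ ∃ x, jP p.1 p.2 x = z then
    h.choose.1 * h.choose.2 ^ 2 else 0
  refine ⟨m.roots.toFinset.sup f, fun n c hn ok x e => hn.not_ge ?_⟩
  have h : ∃ p : ℕ × ℕ, Ok p.1 p.2 ∧ ∃ y, jP p.1 p.2 y = jP n c x := ⟨(n, c), ok, x, rfl⟩
  obtain ⟨h1, y, h2⟩ := h.choose_spec
  refine le_trans ?_ (Finset.le_sup (f := f) (b := jP n c x) (by simp [hm, e]))
  simp only [f, dif_pos h]
  exact key _ _ _ _ y x h1 ok h2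

end

variable [Cs]

theorem mem_EN_of {R : EE} (h : ∀ w : Plc, w.p ∣ NN → ∀ σ ∈ Ine w, σ • R = R) : R ∈ EN := by
  have k : IN ≤ MulAction.stabilizer Gam R :=
    iSup_le fun w σ hσ => MulAction.mem_stabilizer_iff.2 (h w.1 w.2 σ hσ)
  exact mem_EN.2 fun g hg => MulAction.mem_stabilizer_iff.1 (k hg)

theorem ine_GK {n : ℕ} (hc : n.Coprime NN) {w : Plc} (hw : w.p ∣ NN) {σ : Gam} (hσ : σ ∈ Ine w) :
    σ ∈ GK n := B4c_mem.2 (chi_ine (fun k => w.prime.not_dvd_one (((Nat.coprime_two_left.2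
      NN_odd).mul_left hc) ▸ Nat.dvd_gcd (by rw [mul_neg, dvd_neg] at k; exact_mod_cast k) hw)) hσ)

/-- Heegner points of large discriminant are unramified at the bad primes. -/
theorem yC_EN {P : GE.Par Wu NN} (G : GE.Geo P) : ∃ B : ℕ, ∀ (n c : ℕ) (r : ℤ), B < n * c ^ 2 →
    OkN NN n c r → ∀ x, ∃ R ∈ EN, pmap jC R = yC P.φ NN n c r x := by
  obtain ⟨B, hB⟩ := exists_bound (m := G.m.map (algebraMap ℤ ℂ))
    ((Polynomial.map_ne_zero_iff (algebraMap ℤ ℂ).injective_int).2 G.m0)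
  refine ⟨B, fun n c r hn ok x => ⟨G.Φ (jQ n c x) (jQ n c (B4.nn NN n c r * x)),
    mem_EN_of fun w hw σ hσ => ?_, ?_⟩⟩
  · have h1 := ine_GK ok.cop.coprime_mul_right hw hσ
    obtain ⟨k, hk⟩ := ok.eq
    obtain ⟨u, hu⟩ := Int.natCast_dvd_natCast.2 hw
    have h2 := rho_ine_split (b := r * c) (k := u * k) ok.toOk (by rw [hk, hu]; ring) (fun e =>
      (Nat.prime_iff_prime_int.1 w.prime).not_isUnit (ok.cop_r.isUnit_of_dvd' ⟨u, hu⟩ e)) hσ
    rw [smul_pt, G.Φ_gal, smul_jQ ok.toOk h1, smul_jQ ok.toOk h1, h2, one_mul, one_mul]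
  · obtain ⟨τ, h, rfl⟩ := B4.exists_hgN ok x
    rw [yC_eq ok P.inv0 h]
    refine G.Φ_eq τ _ _ h.pos ((jC_jQ ok.toOk _).trans (h.jP ok).1)
      ((jC_jQ ok.toOk _).trans (h.jP ok).2) fun e => hB n c hn ok.toOk (cl _ (sp2 τ 1)) ?_
    rw [Polynomial.eval_map_algebraMap, ← jC_jQ ok.toOk, ← B4.GE.map_ev1]
    exact (map_eq_zero jC).2 e

end Pool.Agent.B6
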