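import Pool.Agent.Lib.MP_696deb_nt.B5.GAa
import Pool.Agent.Lib.MP_696deb_nt.B4.GEg

/-! Modular functions without common zero have no common zero modulo almost all places. -/

set_option autoImplicit false

open Polynomial
open scoped Classical

namespace Pool.Agent.B6.SE

open Pool.Agent.Lib.MP_696deb_nt Pool.Agent.Lib.MP_696deb_nt.B2 Pool.Agent.Lib.MP_696deb_nt.B2.CM
  Pool.Agent.B4.GE

variable {N n M : ℕ} {f g : ℂ → ℂ}

/-- Invariant functions whose expansions at all cusps are integral outside of `M`. -/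
def Gi (N n M : ℕ) (f : ℂ → ℂ) : Prop := Inv0 N f ∧ ∀ B : ValuationSubring ℂ,
  B.valuation M = 1 → ∀ g : MZ, g.det = 1 → (fun z => f (act g (n * z))) ∈ LR B.valuation.integer

theorem val_one (B : ValuationSubring ℂ) (hM : M ≠ 0) (h : B.valuation (M : ℂ)⁻¹ ≤ 1) :
    B.valuation M = 1 := by
  rw [map_inv₀, inv_le_one₀ (by simpa [zero_lt_iff] using hM)] at h
  exact le_antisymm (val_nat _ _) h

theorem Gi.norm [Fintype (CI N)] (hN : N ≠ 0) (hn : n ≠ 0) (hM : M ≠ 0) (h : Gi N n M f) :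
    ∃ c : ℂ[X], ∀ z : ℂ, 0 < z.im → ∏ i : CI N, f (act (cr i) z) = c.eval (jf z) := by
  have hI : Inv1 fun z => ∏ i : CI N, f (act (cr i) z) :=
    (h.1.permF hN).inv1 (fun _ a => ∏ k, a k) fun _ a σ => Equiv.prod_comp σ a
  obtain ⟨c, -, hc⟩ := (LE.of_comp hn hI.periodic (LE.congr (prod_mem (t := Finset.univ)
    fun (i : CI N) _ => h.2 ⊤ (val_one ⊤ hM ((ValuationSubring.valuation_le_one_iff _ _).2 trivial))
      _ (cr_det i)) fun z _ => by rw [Finset.prod_apply])).exists_poly hI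
  exact ⟨c, hc⟩

theorem exists_comb {T S : Type} [Fintype T] [Fintype S] (e : T → ℕ) (he : Function.Injective e)
    (v : S → T → ℂ) (h : ∀ s, ∃ t, v s t ≠ 0) : ∃ k : ℕ, ∀ s, ∑ t, (k : ℂ) ^ e t * v s t ≠ 0 := by
  have h1 : ∏ s, ∑ t, monomial (e t) (v s t) ≠ 0 := Finset.prod_ne_zero_iff.2 fun s _ k => by
    obtain ⟨t, ht⟩ := h s
    have := congrArg (coeff · (e t)) k
    simp only [finsetSum_coeff, coeff_monomial, he.eq_iff, Finset.sum_ite_eq', Finset.mem_univ,
      if_true, coeff_zero] at this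
    exact ht this
  by_contra! k
  refine h1 (eq_zero_of_infinite_isRoot _ ((Set.infinite_range_of_injective
    (Nat.cast_injective (R := ℂ))).mono ?_))
  rintro _ ⟨m, rfl⟩
  obtain ⟨s, hs⟩ := k m
  rw [Set.mem_ofPred_eq, IsRoot, eval_prod]
  refine Finset.prod_eq_zero (Finset.mem_univ s) ?_
  simpa only [eval_finsetSum, eval_monomial, mul_comm] using hs

theorem exists_ret : ∃ π : ℂ →+ Qbar, π 1 = 1 ∧ ∀ a x, π (a * jC x) = π a * x := by
  let _ : Algebra Qbar ℂ := jC.toAlgebra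
  obtain ⟨π, h⟩ := (Algebra.linearMap Qbar ℂ).exists_leftInverse_of_injective
    (LinearMap.ker_eq_bot.2 jC.injective)
  refine ⟨π.toAddMonoidHom, by simpa using LinearMap.congr_fun h 1, fun a x => ?_⟩
  rw [mul_comm, mul_comm _ x]
  exact π.map_smul x a

theorem exists_den (s : Finset Qbar) :
    ∃ M : ℕ, M ≠ 0 ∧ ∀ w : Plc, ¬ w.p ∣ M → ∀ y ∈ s, w.V y ≤ 1 := by
  induction s using Finset.induction_on with
  | empty => exact ⟨1, one_ne_zero, by simp⟩
  | insert y s _ ih =>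
    obtain ⟨M, hM, h⟩ := ih
    have : Algebra.IsAlgebraic ℤ ℚ := IsLocalization.isAlgebraic ℚ (nonZeroDivisors ℤ)
    obtain ⟨m, hm, k⟩ := ((Algebra.IsAlgebraic.trans ℤ ℚ Qbar).isAlgebraic y).exists_integral_multiple
    refine ⟨M * m.natAbs, mul_ne_zero hM (Int.natAbs_ne_zero.2 hm), fun w hw z hz => ?_⟩
    rcases Finset.mem_insert.1 hz with rfl | hz
    · have h1 : w.V (m • z) ≤ 1 := (Valuation.integer.integers w.V).mem_of_integral k.tower_top
      rwa [zsmul_eq_mul, map_mul, gg_unit w fun k => hw (k.mul_left _), one_mul] at h1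
    · exact h w (fun k => hw (k.mul_right _)) z hz

theorem val_M {B : ValuationSubring ℂ} {w : Plc} (h : Over B w) (hw : ¬ w.p ∣ M) :
    B.valuation M = 1 := val_one B (fun k => hw (k ▸ dvd_zero _)) (by
  have := (h (M : Qbar)⁻¹).1.2 (by
    rw [map_inv₀, ← Int.cast_natCast, gg_unit w (by simpa using hw), inv_one])
  rwa [map_inv₀, map_natCast] at this)

theorem ns {T : Type} [Fintype T] (hN : N ≠ 0) (hn : n ≠ 0) (hM : M ≠ 0) {f : T → ℂ → ℂ}
    (hf : ∀ t, Gi N n M (f t)) (nz : ∀ z : ℂ, 0 < z.im → ∃ t, f t z ≠ 0) :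
    ∃ M' : ℕ, M' ≠ 0 ∧ ∀ (w : Plc) (B : ValuationSubring ℂ) (τ : ℂ) (x : Qbar), Over B w →
      ¬ w.p ∣ M' → 0 < τ.im → jC x = jf τ → w.V x ≤ 1 → ∃ t, ¬ B.valuation (f t τ) < 1 := by
  have := finite_CI hN
  have := Fintype.ofFinite (CI N)
  obtain ⟨e, he⟩ := Countable.exists_injective_nat T
  have hH : ∀ k : ℕ, Gi N n M fun z => ∑ t, (k : ℂ) ^ e t * f t z := fun k =>
    ⟨fun g hg z hz => Finset.sum_congr rfl fun t _ => by rw [(hf t).1 g hg z hz],
      fun B hB g hg => LE.congr (sum_mem (t := Finset.univ) fun t _ => mul_mem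
        (pow_mem (natCast_mem _ k) (e t)) ((hf t).2 B hB g hg)) fun z _ => by
          rw [Finset.sum_apply]; rfl⟩
  choose c hc using fun k => (hH k).norm hN hn hM
  have h1 : (1 : ℂ[X]) ∈ Ideal.span (Set.range c) := by
    obtain ⟨p, hp⟩ := (IsPrincipalIdealRing.principal (Ideal.span (Set.range c))).principal
    by_contra k
    obtain ⟨y, hy⟩ := IsAlgClosed.exists_root p fun d => k (by
      rw [hp]
      exact Ideal.mem_span_singleton.2 (isUnit_iff_degree_eq_zero.2 d).dvd)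
    obtain ⟨z, hz, rfl⟩ := G5.jf_surj y
    obtain ⟨m, hm⟩ := exists_comb e he (fun (i : CI N) t => f t (act (cr i) z)) fun i =>
      nz _ (act_pos (by rw [cr_det]; exact one_pos) hz)
    refine Finset.prod_ne_zero_iff.2 (fun i _ => hm i) ((hc m z hz).trans (hy.dvd ?_))
    exact Ideal.mem_span_singleton.1 (hp.le (Ideal.subset_span ⟨m, rfl⟩))
  obtain ⟨a, ha⟩ := Finsupp.mem_ideal_span_range_iff_exists_finsupp.1 h1
  obtain ⟨π, p1, p2⟩ := exists_ret
  obtain ⟨D, hD, kD⟩ := exists_den (a.support.biUnion fun k => (a k).support.image fun i =>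
    π ((a k).coeff i))
  refine ⟨M * D, mul_ne_zero hM hD, fun w B τ x hB hw hτ hx hv => ?_⟩
  by_contra! k
  have v1 : ∀ (m : ℕ) (B : ValuationSubring ℂ), B.valuation M = 1 → B.valuation (jf τ) ≤ 1 →
      ∀ i : CI N, B.valuation (∑ t, (m : ℂ) ^ e t * f t (act (cr i) τ)) ≤ 1 := fun m B h1 h2 i =>
    (hH m).1.val_le hN hn ((hH m).2 B h1) (act_pos (by rw [cr_det]; exact one_pos) hτ)
      (by rwa [jf_act (cr_det i) hτ])
  choose y hy using fun m => gef_alg (y := (c m).eval (jf τ)) fun B h => by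
    rw [← hc m τ hτ]
    exact val_prod_le _ (v1 m B (val_one B hM (by simpa using h (M : Qbar)⁻¹)) (hx ▸ h x))
  have v2 : ∀ m, w.V (y m) < 1 := fun m => (hB _).2.1 (by
    obtain ⟨i, hi⟩ := (hH m).1.exists_cr hN Matrix.det_one
    rw [hy, ← hc m τ hτ, ← Finset.mul_prod_erase _ _ (Finset.mem_univ i), map_mul, ← hi τ hτ,
      act_one]
    refine mul_lt_one_of_nonneg_of_lt_one_left zero_le (Valuation.map_sum_lt _ one_ne_zero
      fun t _ => ?_) (val_prod_le _ (v1 m B (val_M hB fun k => hw (k.mul_right _))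
        (hx ▸ (hB x).1.2 hv)))
    rw [map_mul, map_pow]
    exact mul_lt_one_of_nonneg_of_lt_one_right (pow_le_one₀ zero_le (val_nat _ _)) zero_le (k t))
  have h2 := congrArg (fun p => π (p.eval (jC x))) ha
  simp only [Finsupp.sum, eval_finsetSum, eval_mul, eval_one, p1, map_sum] at h2
  refine absurd (congrArg w.V h2) (ne_of_lt ?_)
  rw [map_one]
  refine Valuation.map_sum_lt _ one_ne_zero fun m hm => ?_
  rw [hx, ← hy, p2, map_mul, ← hx, eval_eq_sum, sum_def, map_sum]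
  refine mul_lt_one_of_nonneg_of_lt_one_right (Valuation.map_sum_le _ fun i hi => ?_) zero_le (v2 m)
  rw [← map_pow, p2, map_mul, map_pow]
  exact mul_le_one' (kD w (fun k => hw (k.mul_left _)) _ (Finset.mem_biUnion.2
    ⟨m, hm, Finset.mem_image_of_mem _ hi⟩)) (pow_le_one₀ zero_le hv)

end Pool.Agent.B6.SE
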