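import Pool.Agent.Lib.MP_696deb_nt.B6.SL1
import Pool.Agent.Lib.MP_696deb_nt.B6.SK3
import Pool.Agent.Lib.MP_696deb_nt.Sm.Cnt

/-! The bilinear bound for the symbols between two sets of primes. -/

set_option autoImplicit false

open scoped Classical NumberTheorySymbols
open Finset Function

namespace Pool.Agent.B6.S

open Pool.Agent.Lib.MP_696deb_nt Pool.Agent.Lib.MP_696deb_nt.Sm

theorem sl2_split {ι : Type} [DecidableEq ι] (P : Finset ℕ) (I : Finset ι) (φ : ℕ → ι)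
    (hφ : ∀ p ∈ P, φ p ∈ I)
    (F : ℕ → ℝ) {B : ℝ} (hB : 0 ≤ B)
    (h : ∀ p0 ∈ P, |∑ p ∈ P with φ p = φ p0, F p| ≤ B) : |∑ p ∈ P, F p| ≤ I.card * B := by
  rw [← sum_fiberwise_of_maps_to hφ, ← nsmul_eq_mul]
  refine (abs_sum_le_sum_abs _ _).trans (sum_le_card_nsmul _ _ _ fun x _ => ?_)
  rcases (P.filter fun p => φ p = x).eq_empty_or_nonempty with e | ⟨p, hp⟩
  · rwa [e, sum_empty, abs_zero]
  · exact (mem_filter.1 hp).2 ▸ h p (mem_filter.1 hp).1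

theorem sl2_sn (b : F2) : sg b = (sn b : ℤ) := by
  rcases F2_cases b with rfl | rfl
  · rw [sg_zero, sn_zero, Int.cast_one]
  · rw [sg_one, sn_one, Int.cast_neg, Int.cast_one]

theorem sl2_leg {q : ℕ} (hq : q.Prime) {a : ℤ} (ha : ¬ (q : ℤ) ∣ a) : sn (aleg q a) = J(a | q) := by
  have := Fact.mk hq
  rw [aleg_eq_legendre ha, ← jacobiSym.legendreSym.to_jacobiSym]
  split_ifs with h
  · rw [h, sn_zero]
  · rw [(legendreSym.eq_one_or_neg_one q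
      (by rwa [Ne, ZMod.intCast_zmod_eq_zero_iff_dvd])).resolve_left h, sn_one]

theorem sl2_ker (s u x y z : F2) {E : ℤ} (h : sn z = sn x * sn y * E) :
    sn (s * y + u * z) = sn x ^ s.val * ((sn x * sn y) ^ (s + u).val * E ^ u.val) := by
  have e : ∀ b, sn b * sn b = 1 := by decide
  have h1 : E = sn (x + y + z) := by
    rw [sn_add, sn_add, h]
    linear_combination (-E * sn y * sn y) * e x - E * e y
  rw [h1]
  clear h h1
  revert s u x y z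
  decide

theorem Cv.bil_le (C : Cv) : ∃ K : ℝ, 0 < K ∧ ∀ (P R : Finset ℕ) (t t' : ℕ) (ip jq : ℕ → Fin 3)
    (s u : F2), 1 ≤ t' → t' ≤ t → (s ≠ 0 ∨ u ≠ 0) → Disjoint P R →
    (∀ p ∈ P, C.Gp p ∧ t < p ∧ p ≤ 2 * t ∧ C.pm (frb p) (ip p) = ip p) →
    (∀ q ∈ R, C.Gp q ∧ t' < q ∧ q ≤ 2 * t' ∧ C.pm (frb q) (jq q) = jq q) →
    ∀ a b : ℕ → ℝ, (∀ p, |a p| ≤ 1) → (∀ q, |b q| ≤ 1) →
    |∑ p ∈ P, ∑ q ∈ R, a p * b q *
      sg (s * aleg q p + u * C.ep (C.be p (ip p) (frb q)) (C.T (jq q)))| ≤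
      K * t * t' / (t' : ℝ) ^ (1 / 24 : ℝ) := by
  obtain ⟨K, hK, h⟩ := C.hbil
  have h0 : 0 < (Icc (-(C.N0 : ℤ)) C.N0).card := card_pos.2 ⟨0, by simp⟩
  refine ⟨(Icc (-(C.N0 : ℤ)) C.N0).card * K, by positivity,
    fun P R t t' ip jq s u h1 h2 hs hd hP hR a b ha hb => ?_⟩
  have th := fun p (hp : p ∈ P) => Cv.th_nv (hP p hp).1 (hP p hp).2.2.2
  rw [mul_assoc, mul_assoc, mul_div_assoc, ← mul_assoc K]
  refine sl2_split P _ (fun p => (C.nv p (ip p)).2)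
    (fun p hp => mem_Icc.2 (abs_le.1 (th p hp).2.2.2.1)) _ (by positivity) fun p0 hp0 => ?_
  obtain ⟨-, -, c0, c1, -⟩ := th p0 hp0
  generalize (C.nv p0 (ip p0)).2 = c at c0 c1 ⊢
  have e : ∀ s u : F2, s ≠ 0 ∨ u ≠ 0 → s + u ≠ 0 ∨ u ≠ 0 := by decide
  refine le_of_eq_of_le (congrArg _ (sum_congr rfl fun p hp => sum_congr rfl fun q hq => ?_))
    (h _ R t t' (fun p => (C.nv p (ip p)).1) c (fun q => C.rho q (jq q)) (s + u) u h1 h2 c0
      (e s u hs) (fun p hp => ?_) (fun q hq => ⟨(hR q hq).1, (hR q hq).2.1, (hR q hq).2.2.1,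
        (Cv.rho_spec (hR q hq).1 (hR q hq).2.2.2).2⟩) a
      (fun q => b q * (sn (aleg q c) ^ s.val : ℤ)) ha fun q => ?_)
  · obtain ⟨hp, hc⟩ := mem_filter.1 hp
    obtain ⟨k1, -, -, k2⟩ := hP p hp
    obtain ⟨k3, -, -, k4⟩ := hR q hq
    have k5 : q ≠ p := fun k => disjoint_left.1 hd hp (k ▸ hq)
    have k6 : ¬ (q : ℤ) ∣ c := fun k => by
      have := Int.le_of_dvd (abs_pos.2 c0) ((dvd_abs _ _).2 k)
      have := k3.2
      omega
    have k7 : J(C.Nm (C.nv p (ip p)).1 | q) = sn (aleg q c) * sn (aleg q p) := by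
      rw [(th p hp).2.2.2.2.1, hc, jacobiSym.mul_left, sl2_leg k3.1 k6,
        sl2_leg k3.1 (not_dvd_of_natAbs_eq k3.1 k1.1 k5 rfl)]
    have k8 := Cv.be_frb k1 k2 k3 k4 k5
    rw [k7] at k8
    rw [sl2_sn, sl2_ker s u _ _ _ k8, Cv.th3, k7]
    push_cast
    ring
  · obtain ⟨hp, hc⟩ := mem_filter.1 hp
    exact ⟨(hP p hp).1.1, (hP p hp).2.1, (hP p hp).2.2.1, (th p hp).2.1,
      hc ▸ (th p hp).2.2.2.2.1⟩
  · rw [abs_mul, Int.cast_pow, ← sl2_sn, abs_pow, abs_sg, one_pow, mul_one]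
    exact hb q

theorem Cv.bil (C : Cv) : ∃ K : ℝ, 0 < K ∧ ∀ (P R : Finset ℕ) (t t' y : ℕ) (ip jq : ℕ → Fin 3)
    (s u : F2), 1 ≤ y → y ≤ t → y ≤ t' → (s ≠ 0 ∨ u ≠ 0) → Disjoint P R →
    (∀ p ∈ P, C.Gp p ∧ t < p ∧ p ≤ 2 * t ∧ C.pm (frb p) (ip p) = ip p) →
    (∀ q ∈ R, C.Gp q ∧ t' < q ∧ q ≤ 2 * t' ∧ C.pm (frb q) (jq q) = jq q) →
    ∀ a b : ℕ → ℝ, (∀ p, |a p| ≤ 1) → (∀ q, |b q| ≤ 1) →
    |∑ p ∈ P, ∑ q ∈ R, a p * b q *
      sg (s * aleg q p + u * C.ep (C.be p (ip p) (frb q)) (C.T (jq q)))| ≤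
      K * t * t' / (y : ℝ) ^ (1 / 24 : ℝ) := by
  obtain ⟨K, hK, h⟩ := C.bil_le
  let I : Finset (F2 × (C.TS → C.A)) :=
    univ ×ˢ Fintype.piFinset fun _ => (C.finite_tors 1).toFinset
  refine ⟨(I.card + 1) * K, by positivity,
    fun P R t t' y ip jq s u h1 h2 h3 hs hd hP hR a b ha hb => ?_⟩
  have hy : (0 : ℝ) < y := Nat.cast_pos.2 h1
  have e : ∀ z : ℕ, y ≤ z → K * t * t' / (z : ℝ) ^ (1 / 24 : ℝ) ≤
      K * t * t' / (y : ℝ) ^ (1 / 24 : ℝ) := fun z hz =>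
    div_le_div_of_nonneg_left (by positivity) (by positivity)
      (Real.rpow_le_rpow hy.le (Nat.cast_le.2 hz) (by norm_num))
  have h0 : 0 ≤ K * t * t' / (y : ℝ) ^ (1 / 24 : ℝ) := by positivity
  rw [mul_assoc, mul_assoc, mul_div_assoc, ← mul_assoc K, add_one_mul]
  rcases le_total t' t with k | k
  · exact ((h P R t t' ip jq s u (h1.trans h3) k hs hd hP hR a b ha hb).trans (e t' h3)).trans
      (le_add_of_nonneg_left (by positivity))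
  refine (sl2_split P I (fun p => (ep2 p, fun g => C.be p (ip p) g)) (fun p _ =>
    mem_product.2 ⟨mem_univ _, Fintype.mem_piFinset.2 fun g => (Set.Finite.mem_toFinset _).2
      ((C.z2_be p (ip p)).two g trivial)⟩) _ h0 fun p0 _ => ?_).trans (le_add_of_nonneg_right h0)
  rw [sum_comm]
  refine le_of_eq_of_le (congrArg _ (sum_congr rfl fun q hq => sum_congr rfl fun p hp => ?_))
    ((h R _ t' t jq ip s u (h1.trans h2) k hs (hd.mono_left (filter_subset _ _)).symm hR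
      (fun p hp => hP p (mem_filter.1 hp).1) (fun q => b q * sg (s * (ep2 p0 * ep2 q) +
        u * ∑ v ∈ C.bad, C.Bv v (C.be p0 (ip p0)) (C.be q (jq q)))) a (fun q => ?_) ha).trans
      (mul_right_comm K t t' ▸ e t h2))
  · obtain ⟨hp, hc⟩ := mem_filter.1 hp
    obtain ⟨k1, -, -, k2⟩ := hP p hp
    obtain ⟨k3, -, -, k4⟩ := hR q hq
    have k5 : q ≠ p := fun k => disjoint_left.1 hd hp (k ▸ hq)
    rw [hilb_rec k1.1 k3.1 k1.ne_two k3.ne_two k5.symm, Cv.be_flip k1 k2 k3 k4 k5,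
      show ep2 p = ep2 p0 from congrArg Prod.fst hc,
      Cv.bad_congr (C.z2_be p _) (C.z2_be p0 (ip p0)) (C.z2_be q _) (C.z2_be q (jq q))
        (fun g hg => congrFun (congrArg Prod.snd hc) ⟨g, hg⟩) fun _ _ => rfl,
      mul_add, mul_add, add_add_add_comm, sg_add]
    ring
  · rw [abs_mul, abs_sg, mul_one]
    exact hb q

end Pool.Agent.B6.S
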