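import Pool.Agent.Lib.MP_696deb_nt.Sm.SampM

/-! Weighted grids with several bits on each edge: definitions, the basic decomposition. -/

set_option autoImplicit false
set_option linter.unusedSectionVars false

open Finset
open scoped Classical

namespace Pool.Agent.B6.S

open Pool.Agent.Lib.MP_696deb_nt Sm
open Sm.SD (sampd_prod sampd_pow sampd_fiber sampA_fiber sampA_indep sampA_count sc_count sc_diag
  sc_ite sc_W sc_two sc_arith sc_pow sampm_half sampm_low sampm_one pt Inj)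

/-- Data for sampling grids. -/
structure SD (ι Γ κ Bt : Type) (M : ℕ) where
  X : ι → Finset ℕ
  E : ι → ι → ℕ → ℕ → Bt → ZMod 2
  ia : ι
  ic : ι
  cls : (ι × Fin M → ℕ) → ℕ → κ
  w : (ι × Fin M → ℕ) → ℕ → ℕ → Γ → ZMod 2
  Z : (Γ → ZMod 2) → Prop

/-- Points with all edge bits zero. -/
noncomputable def XA {ι Bt : Type} [Fintype ι] [Fintype Bt] (X : ι → Finset ℕ)
    (E : ι → ι → ℕ → ℕ → Bt → ZMod 2) : Finset (ι → ℕ) :=
  (Fintype.piFinset X).filter fun x => ∀ i j, i ≠ j → E i j (x i) (x j) = 0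

/-- Bit patterns with admissible fibres. -/
noncomputable def ParZ (M : ℕ) {Γ : Type} [Fintype Γ] (Z : (Γ → ZMod 2) → Prop) :
    Finset (Fin M × Fin M × Γ → ZMod 2) :=
  univ.filter fun π => ∀ s t, Z fun γ => π (s, t, γ)

namespace SD

variable {ι Γ κ Bt : Type} [Fintype ι] [Fintype Γ] [Fintype κ] [Fintype Bt] {M : ℕ}
  (D : SD ι Γ κ Bt M)

noncomputable def G : Finset (ι × Fin M → ℕ) := Fintype.piFinset fun v => D.X v.1

def In (v : ι × Fin M) : Prop := v.1 = D.ia ∨ v.1 = D.ic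

noncomputable def G0 : Finset (ι × Fin M → ℕ) :=
  Fintype.piFinset fun v => if D.In v then {0} else D.X v.1

def AllE (x : ι × Fin M → ℕ) : Prop := ∀ v v', v.1 ≠ v'.1 → D.E v.1 v'.1 (x v) (x v') = 0

def IntE (x : ι × Fin M → ℕ) : Prop :=
  ∀ v v', ¬ D.In v → ¬ D.In v' → v.1 ≠ v'.1 → D.E v.1 v'.1 (x v) (x v') = 0

def Comp (x : ι × Fin M → ℕ) (i : ι) (p : ℕ) : Prop := ∀ v, ¬ D.In v → D.E i v.1 p (x v) = 0

noncomputable def K (x : ι × Fin M → ℕ) (k : κ) : Finset ℕ :=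
  (D.X D.ia).filter fun p => D.Comp x D.ia p ∧ D.cls x p = k

noncomputable def R (x : ι × Fin M → ℕ) : Finset ℕ := (D.X D.ic).filter fun r => D.Comp x D.ic r

def Same (x : ι × Fin M → ℕ) : Prop := ∀ s s', D.cls x (x (D.ia, s)) = D.cls x (x (D.ia, s'))

noncomputable def om [NeZero M] (x : ι × Fin M → ℕ) : ℝ :=
  if D.AllE x ∧ D.Same x then
    (((D.X D.ia).card : ℝ) / (D.K x (D.cls x (x (D.ia, 0)))).card) ^ (M - 1) else 0

def InjO (x : ι × Fin M → ℕ) : Prop :=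
  ∀ j s s', j ≠ D.ia → j ≠ D.ic → x (j, s) = x (j, s') → s = s'

def pat (x : ι × Fin M → ℕ) (e : Fin M × Fin M × Γ) : ZMod 2 :=
  D.w x (x (D.ia, e.1)) (x (D.ic, e.2.1)) e.2.2

noncomputable def X' (ξ : ι × Fin M → ℕ) (k : κ) (v : ι × Fin M) : Finset ℕ :=
  if v.1 = D.ia then D.K ξ k else if v.1 = D.ic then D.R ξ else {ξ v}

/-- Pointer copies that are not in the point. -/
def Dum (z : ι → Fin M) (v : ι × Fin M) : Prop := v.1 = D.ia ∧ v.2 ≠ z D.ia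

/-- The edges that remain after the first count. -/
def Keep (z : ι → Fin M) (v v' : ι × Fin M) : Prop :=
  v.1 ≠ v'.1 ∧ ¬ D.Dum z v ∧ ¬ D.Dum z v' ∧ ¬ (v.1 = D.ia ∧ v'.1 = D.ic ∧ v'.2 ≠ z D.ic) ∧
    ¬ (v'.1 = D.ia ∧ v.1 = D.ic ∧ v.2 ≠ z D.ic)

def E2 (z : ι → Fin M) (y : ι × Fin M → ℕ) : Prop :=
  ∀ v v', D.Keep z v v' → D.E v.1 v'.1 (y v) (y v') = 0

structure OK (δ : ℝ) : Prop where
  hac : D.ia ≠ D.ic
  sym : ∀ i j p q, D.E i j p q = D.E j i q p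
  dep : ∀ x x', (∀ v, ¬ D.In v → x v = x' v) → D.cls x = D.cls x' ∧ D.w x = D.w x'
  d0 : 0 ≤ δ
  bil : ∀ i j, i ≠ j → ∀ T : Finset Bt, T.Nonempty →
    ∀ a b : ℕ → ℝ, (∀ p, |a p| ≤ 1) → (∀ q, |b q| ≤ 1) →
    |∑ p ∈ D.X i, ∑ q ∈ D.X j, a p * b q * sg (∑ c ∈ T, D.E i j p q c)| ≤
      δ * (D.X i).card * (D.X j).card
  bilac : ∀ T : Finset Bt, T.Nonempty →
    ∀ a b : ℕ → ℝ, (∀ p, |a p| ≤ 1) → (∀ q, |b q| ≤ 1) → (Fintype.card κ : ℝ) *
    |∑ p ∈ D.X D.ia, ∑ q ∈ D.X D.ic, a p * b q * sg (∑ c ∈ T, D.E D.ia D.ic p q c)| ≤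
      δ * (D.X D.ia).card * (D.X D.ic).card
  big : ∀ j, 1 ≤ δ * (D.X j).card
  bigK : (Fintype.card κ : ℝ) ≤ δ * (D.X D.ia).card
  wsum : ∀ x p r, D.E D.ia D.ic p r = 0 ↔ D.Z (D.w x p r)
  lbil : ∀ x ∈ D.G0, D.InjO x → D.IntE x → ∀ (k : κ) (F : Finset Γ), F.Nonempty →
    ∀ a b : ℕ → ℝ, (∀ p, |a p| ≤ 1) → (∀ q, |b q| ≤ 1) → (Fintype.card κ : ℝ) *
    |∑ p ∈ D.K x k, ∑ r ∈ D.R x, a p * b r * sg (∑ γ ∈ F, D.w x p r γ)| ≤
      δ * (D.X D.ia).card * (D.X D.ic).card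

variable {D} {δ : ℝ}

theorem om_nonneg [NeZero M] (x : ι × Fin M → ℕ) : 0 ≤ D.om x := by
  unfold om
  split_ifs <;> positivity

theorem card_G (h : D.ia ≠ D.ic) : (D.G.card : ℝ) =
    D.G0.card * ((D.X D.ia).card : ℝ) ^ M * ((D.X D.ic).card : ℝ) ^ M := by
  have e : ∀ v : ι × Fin M, (((if D.In v then {0} else D.X v.1 : Finset ℕ).card : ℕ) : ℝ) =
      if v.1 = D.ia ∨ v.1 = D.ic then 1 else ((D.X v.1).card : ℝ) := fun v => by
    by_cases hv : D.In v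
    · rw [if_pos hv, if_pos (show v.1 = D.ia ∨ v.1 = D.ic from hv), card_singleton, Nat.cast_one]
    · rw [if_neg hv, if_neg (show ¬ (v.1 = D.ia ∨ v.1 = D.ic) from hv)]
  rw [G, G0, Fintype.card_piFinset, Fintype.card_piFinset, Nat.cast_prod, Nat.cast_prod,
    prod_congr rfl fun v _ => e v, sampd_prod fun j => ((D.X j).card : ℝ),
    sampd_prod fun j => if j = D.ia ∨ j = D.ic then 1 else ((D.X j).card : ℝ), ← mul_pow, ← mul_pow,
    ← Fintype.prod_ite_eq' D.ia fun j => ((D.X j).card : ℝ),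
    ← Fintype.prod_ite_eq' D.ic fun j => ((D.X j).card : ℝ), ← prod_mul_distrib,
    ← prod_mul_distrib]
  refine congrArg (· ^ M) (prod_congr rfl fun j _ => ?_)
  by_cases h1 : j = D.ia
  · simp [h1, h]
  · by_cases h2 : j = D.ic <;> simp [h1, h2, h.symm]

theorem card_G' : (D.G.card : ℝ) = ((Fintype.piFinset D.X).card : ℝ) ^ M := by
  rw [G, Fintype.card_piFinset, Fintype.card_piFinset, Nat.cast_prod, Nat.cast_prod,
    sampd_prod fun j => ((D.X j).card : ℝ)]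

theorem sum_card_K (ξ : ι × Fin M → ℕ) : ∑ k, ((D.K ξ k).card : ℝ) ≤ (D.X D.ia).card := by
  rw [card_eq_sum_card_fiberwise (f := D.cls ξ) (s := D.X D.ia) (t := univ)
    fun _ _ => mem_univ _, Nat.cast_sum]
  exact sum_le_sum fun k _ => Nat.cast_le.2 (card_le_card fun p hp =>
    mem_filter.2 ⟨(mem_filter.1 hp).1, (mem_filter.1 hp).2.2⟩)

theorem agree {ξ y : ι × Fin M → ℕ} {k : κ} (hy : y ∈ Fintype.piFinset (D.X' ξ k)) :
    ∀ v, ¬ D.In v → y v = ξ v := fun v hv => by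
  have h := Fintype.mem_piFinset.1 hy v
  rwa [X', if_neg fun e => hv (Or.inl e), if_neg fun e => hv (Or.inr e), mem_singleton] at h

/-- The product of the sizes of all sets but one pointer copy and one pivot copy. -/
theorem prod_X' (h : D.ia ≠ D.ic) (ξ : ι × Fin M → ℕ) (k : κ) (s t : Fin M) :
    ∏ v ∈ univ \ {(D.ia, s), (D.ic, t)}, ((D.X' ξ k v).card : ℝ) =
      ((D.K ξ k).card : ℝ) ^ (M - 1) * ((D.R ξ).card : ℝ) ^ (M - 1) := by
  rw [← sampd_pow (univ \ {(D.ia, s), (D.ic, t)}) D.ia s (fun u => by simp [h]),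
    ← sampd_pow (univ \ {(D.ia, s), (D.ic, t)}) D.ic t (fun u => by simp [h.symm]),
    ← prod_mul_distrib]
  refine prod_congr rfl fun v _ => ?_
  by_cases h1 : v.1 = D.ia
  · simp [X', h1, h]
  · by_cases h2 : v.1 = D.ic <;> simp [X', h1, h2, h.symm]

theorem sampd_mem (h : D.ia ≠ D.ic) {ξ y : ι × Fin M → ℕ} {k : κ} :
    y ∈ Fintype.piFinset (D.X' ξ k) ↔ (∀ s, y (D.ia, s) ∈ D.K ξ k) ∧ (∀ s, y (D.ic, s) ∈ D.R ξ) ∧
      ∀ v, ¬ D.In v → y v = ξ v := by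
  refine ⟨fun hy => ⟨fun s => ?_, fun s => ?_, agree hy⟩, fun hy => Fintype.mem_piFinset.2 ?_⟩
  · simpa [X'] using Fintype.mem_piFinset.1 hy (D.ia, s)
  · simpa [X', h.symm] using Fintype.mem_piFinset.1 hy (D.ic, s)
  · rintro ⟨j, s⟩
    unfold X'
    split_ifs with h1 h2
    · obtain rfl : j = D.ia := h1
      exact hy.1 s
    · obtain rfl : j = D.ic := h2
      exact hy.2.1 s
    · exact mem_singleton.2 (hy.2.2 _ fun e => e.elim h1 h2)

theorem sampd_key [NeZero M] (h : D.OK δ) {ξ y : ι × Fin M → ℕ} (hX : ∀ v, D.In v → y v ∈ D.X v.1)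
    (hy : ∀ v, ¬ D.In v → y v = ξ v) : D.AllE y ∧ D.Same y ↔ D.IntE ξ ∧
      y ∈ Fintype.piFinset (D.X' ξ (D.cls ξ (y (D.ia, 0)))) ∧
        ∀ s t, D.E D.ia D.ic (y (D.ia, s)) (y (D.ic, t)) = 0 := by
  rw [sampd_mem h.hac, Same, (h.dep y ξ hy).1]
  refine ⟨fun ⟨A, S⟩ => ⟨fun v v' a b c => ?_, ⟨fun s => mem_filter.2 ⟨hX _ (Or.inl rfl),
    fun v a => ?_, S s 0⟩, fun s => mem_filter.2 ⟨hX _ (Or.inr rfl), fun v a => ?_⟩, hy⟩,
    fun s t => A (_, s) (_, t) h.hac⟩, fun ⟨I, ⟨m1, m2, _⟩, e⟩ => ⟨fun v v' c => ?_, fun s s' =>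
      (mem_filter.1 (m1 s)).2.2.trans (mem_filter.1 (m1 s')).2.2.symm⟩⟩
  · rw [← hy v a, ← hy v' b]
    exact A v v' c
  · rw [← hy v a]
    exact A (_, s) v fun e => a (Or.inl e.symm)
  · rw [← hy v a]
    exact A (_, s) v fun e => a (Or.inr e.symm)
  have hc : ∀ v v', D.In v → ¬ D.In v' → D.E v.1 v'.1 (y v) (y v') = 0 := by
    rintro ⟨j, s⟩ v' (a | a) b <;> obtain rfl : j = _ := a <;> rw [hy v' b]
    exacts [(mem_filter.1 (m1 s)).2.1 v' b, (mem_filter.1 (m2 s)).2 v' b]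
  by_cases a : D.In v <;> by_cases b : D.In v'
  · obtain ⟨j, s⟩ := v
    obtain ⟨j', s'⟩ := v'
    rcases a with a | a <;> obtain rfl : j = _ := a <;> rcases b with b | b <;>
      obtain rfl : j' = _ := b
    exacts [absurd rfl c, e s s', (h.sym _ _ _ _).trans (e s' s), absurd rfl c]
  · exact hc v v' a b
  · exact (h.sym _ _ _ _).trans (hc v' v b a)
  · rw [hy v a, hy v' b]
    exact I v v' a b c

theorem dec [NeZero M] (h : D.OK δ) (Φ : (ι × Fin M → ℕ) → ℝ) :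
    ∑ x ∈ D.G, D.om x * Φ x = ∑ ξ ∈ D.G0, if D.IntE ξ then
      ∑ k, (((D.X D.ia).card : ℝ) / (D.K ξ k).card) ^ (M - 1) *
        ∑ y ∈ Fintype.piFinset (D.X' ξ k),
          if ∀ s t, D.E D.ia D.ic (y (D.ia, s)) (y (D.ic, t)) = 0 then Φ y else 0
      else 0 := by
  rw [G, sampd_fiber _ D.In 0]
  refine sum_congr rfl fun ξ _ => ?_
  have hF : ∀ y ∈ Fintype.piFinset (fun v => if D.In v then D.X v.1 else {ξ v}),
      (∀ v, D.In v → y v ∈ D.X v.1) ∧ ∀ v, ¬ D.In v → y v = ξ v := fun y hy =>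
    ⟨fun v a => by simpa [a] using Fintype.mem_piFinset.1 hy v,
      fun v a => by simpa [a] using Fintype.mem_piFinset.1 hy v⟩
  split_ifs with hI
  swap
  · refine sum_eq_zero fun y hy => ?_
    rw [om, if_neg fun a => hI ((sampd_key h (hF y hy).1 (hF y hy).2).1 a).1, zero_mul]
  have hs : ∀ k, Fintype.piFinset (D.X' ξ k) ⊆
      Fintype.piFinset (fun v => if D.In v then D.X v.1 else {ξ v}) := fun k y hy => by
    obtain ⟨m1, m2, m3⟩ := (sampd_mem h.hac).1 hy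
    refine Fintype.mem_piFinset.2 fun ⟨j, s⟩ => ?_
    split_ifs with a
    · rcases a with a | a <;> obtain rfl : j = _ := a
      exacts [(mem_filter.1 (m1 s)).1, (mem_filter.1 (m2 s)).1]
    · exact mem_singleton.2 (m3 _ a)
  have e : ∀ k (g : (ι × Fin M → ℕ) → ℝ), ∑ y ∈ Fintype.piFinset (D.X' ξ k), g y =
      ∑ y ∈ Fintype.piFinset (fun v => if D.In v then D.X v.1 else {ξ v}),
        if y ∈ Fintype.piFinset (D.X' ξ k) then g y else 0 := fun k g => by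
    rw [sum_ite_mem, inter_eq_right.2 (hs k)]
  rw [sum_congr rfl fun k _ => (congrArg _ (e k _)).trans (mul_sum _ _ _), sum_comm]
  refine sum_congr rfl fun y hy => ?_
  obtain ⟨h1, h2⟩ := hF y hy
  have hK : D.K y = D.K ξ := funext fun k => filter_congr fun p _ => by
    rw [(h.dep y ξ h2).1]
    exact and_congr_left' (forall₂_congr fun v a => by rw [h2 v a])
  rw [sum_eq_single (D.cls ξ (y (D.ia, 0))) (fun k _ hk => by
    rw [if_neg fun a => hk (mem_filter.1 (((sampd_mem h.hac).1 a).1 0)).2.2.symm, mul_zero])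
    (fun a => absurd (mem_univ _) a), om, hK, (h.dep y ξ h2).1]
  by_cases a : D.AllE y ∧ D.Same y
  · obtain ⟨_, a1, a2⟩ := (sampd_key h h1 h2).1 a
    rw [if_pos a, if_pos a1, if_pos a2]
  · rw [if_neg a, zero_mul]
    split_ifs with a1 a2
    exacts [absurd ((sampd_key h h1 h2).2 ⟨hI, a1, a2⟩) a, (mul_zero _).symm, (mul_zero _).symm]

end SD

/-- The counting lemma for a simple graph. -/
theorem ssB_count {V Bt : Type} [Fintype V] [Fintype Bt] (X : V → Finset ℕ) {S : Finset (V → ℕ)}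
    (hS : ∀ x, x ∈ S ↔ ∀ v, x v ∈ X v) (s : Finset (V × V)) 
    (bit : V → V → ℕ → ℕ → Bt → ZMod 2)
    (P : V → Prop) (f g : (V → ℕ) → ℝ) {δ : ℝ} (d0 : 0 ≤ δ) (hor : ∀ e ∈ s, (e.2, e.1) ∉ s)
    (hP : ∀ e ∈ s, ¬ P e.1 ∨ ¬ P e.2) (hf : ∀ x, |f x| ≤ 1)
    (hfP : ∀ x y, (∀ v, P v → x v = y v) → f x = f y)
    (g1 : ∀ x, (∀ e ∈ s, bit e.1 e.2 (x e.1) (x e.2) = 0) → g x = f x)
    (g2 : ∀ x, ¬ (∀ e ∈ s, bit e.1 e.2 (x e.1) (x e.2) = 0) → g x = 0)
    (bil : ∀ e ∈ s, ∀ T : Finset Bt, T.Nonempty →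
      ∀ a b : ℕ → ℝ, (∀ p, |a p| ≤ 1) → (∀ q, |b q| ≤ 1) →
      |∑ p ∈ X e.1, ∑ q ∈ X e.2, a p * b q * sg (∑ c ∈ T, bit e.1 e.2 p q c)| ≤
        δ * (X e.1).card * (X e.2).card) :
    |∑ x ∈ S, g x - (1 / 2) ^ (s.card * Fintype.card Bt) * ∑ x ∈ S, f x| ≤ δ * S.card := by
  obtain rfl : S = Fintype.piFinset X := Finset.ext fun x => (hS x).trans Fintype.mem_piFinset.symm
  have h := count X (s ×ˢ (univ : Finset Bt)) (fun e => e.1.1) (fun e => e.1.2)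
    (fun e p q => bit e.1.1 e.1.2 p q e.2) P f
    (δ * (Fintype.piFinset X).card) (mul_nonneg d0 (Nat.cast_nonneg _))
    (fun e he e' he' h => hor e.1 (mem_product.1 he).1 (by
      rw [h.1, h.2]; exact (mem_product.1 he').1)) (fun e he => hP e.1 (mem_product.1 he).1) hf hfP
    fun e he F _ h1 h2 a b ha hb => by
      replace he := (mem_product.1 he).1
      have ne : e.1.1 ≠ e.1.2 := fun h =>
        hor e.1 he (by rwa [show (e.1.2, e.1.1) = e.1 from Prod.ext h.symm h])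
      have h3 : ∀ p q, ∑ e' ∈ F, bit e'.1.1 e'.1.2 p q e'.2 =
          ∑ c ∈ F.image Prod.snd, bit e.1.1 e.1.2 p q c := fun p q => by
        rw [sum_image fun x hx y hy k => Prod.ext (Prod.ext ((h2 x hx).1.trans (h2 y hy).1.symm)
          ((h2 x hx).2.trans (h2 y hy).2.symm)) k]
        exact sum_congr rfl fun x hx => by rw [(h2 x hx).1, (h2 x hx).2]
      simp only [h3]
      refine (mul_le_mul_of_nonneg_right (bil e.1 he _ (Finset.Nonempty.image ⟨e, h1⟩ _) a b ha hb)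
        (prod_nonneg fun _ _ => Nat.cast_nonneg _)).trans_eq ?_
      rw [Fintype.card_piFinset, Nat.cast_prod, ← prod_sdiff (subset_univ {e.1.1, e.1.2}),
        prod_pair ne]
      ring
  rwa [card_product, card_univ, sum_congr rfl (g := g) fun x _ => by
    split_ifs with hx
    exacts [(g1 x fun e he => funext fun c => hx (e, c) (mem_product.2 ⟨he, mem_univ _⟩)).symm,
      (g2 x fun k => hx fun e he => congrFun (k e.1 (mem_product.1 he).1) e.2).symm]] at h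

/-- Every matrix of bits is taken equally often. -/
theorem unif {ι Bt : Type} [Fintype ι] [LinearOrder ι] [Fintype Bt] (X : ι → Finset ℕ)
    (E : ι → ι → ℕ → ℕ → Bt → ZMod 2) {δ : ℝ} (d0 : 0 ≤ δ)
    (sym : ∀ i j p q, E i j p q = E j i q p)
    (bil : ∀ i j, i ≠ j → ∀ T : Finset Bt, T.Nonempty →
      ∀ a b : ℕ → ℝ, (∀ p, |a p| ≤ 1) → (∀ q, |b q| ≤ 1) →
      |∑ p ∈ X i, ∑ q ∈ X j, a p * b q * sg (∑ c ∈ T, E i j p q c)| ≤
        δ * (X i).card * (X j).card) :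
    |((XA X E).card : ℝ) - (1 / 2) ^ ((univ.filter fun e : ι × ι => e.1 < e.2).card *
      Fintype.card Bt) * (Fintype.piFinset X).card| ≤ δ * (Fintype.piFinset X).card := by
  have e : ∀ x : ι → ℕ, (∀ e ∈ univ.filter fun e : ι × ι => e.1 < e.2,
      E e.1 e.2 (x e.1) (x e.2) = 0) ↔ ∀ i j, i ≠ j → E i j (x i) (x j) = 0 := fun x =>
    ⟨fun h i j hij => (lt_or_gt_of_ne hij).elim (fun k => h (i, j) (by simpa using k))
      fun k => sym _ _ _ _ ▸ h (j, i) (by simpa using k),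
      fun h e he => h _ _ (mem_filter.1 he).2.ne⟩
  have h := ssB_count X (S := Fintype.piFinset X) (fun _ => Fintype.mem_piFinset)
    (univ.filter fun e : ι × ι => e.1 < e.2) E (fun _ => False) (fun _ => 1)
    (fun x => if ∀ i j, i ≠ j → E i j (x i) (x j) = 0 then 1 else 0) d0
    (fun e he h => (mem_filter.1 he).2.not_gt (mem_filter.1 h).2) (fun _ _ => Or.inl id)
    (fun _ => abs_one.le) (fun _ _ _ => rfl) (fun x hx => if_pos ((e x).1 hx))
    (fun x hx => if_neg (mt (e x).2 hx)) fun e he => bil _ _ (mem_filter.1 he).2.ne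
  rw [sum_boole, sum_const, nsmul_one] at h
  refine le_of_eq_of_le (congrArg (fun s : Finset (ι → ℕ) => |(s.card : ℝ) - _|) ?_) h
  exact Finset.ext fun x => by simp only [XA, mem_filter, sampB_mem]

namespace SD

variable {ι Γ κ Bt : Type} [Fintype ι] [LinearOrder ι] [Fintype Γ] [Fintype κ] [Fintype Bt] {M : ℕ}
  [NeZero M] {D : SD ι Γ κ Bt M} {δ : ℝ}

omit [Fintype Γ] [Fintype κ] [Fintype Bt] [NeZero M] in
theorem sampB_pt (D : SD ι Γ κ Bt M) (z : ι → Fin M) : ∃ c : ℝ, ∀ Ψ : (ι → ℕ) → ℝ,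
    ∑ y ∈ D.G, Ψ (pt y z) = c * ∑ x ∈ Fintype.piFinset D.X, Ψ x := by
  refine ⟨_, fun Ψ => ((sum_congr (Finset.ext fun _ => sampB_mem.trans sampB_mem.symm) fun _ _ => rfl).trans
    (sum_indep (fun v : ι × Fin M => D.X v.1) (fun v => v.2 ≠ z v.1) 0 (fun y => Ψ (pt y z))
      fun x y h => congrArg Ψ (funext fun j => h _ fun k => k rfl))).trans (congrArg _ ?_)⟩
  refine sum_nbij' (pt · z) (fun x v => if v.2 = z v.1 then x v.1 else 0) (fun ξ h => ?_)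
    (fun x h => ?_) (fun ξ h => funext fun v => ?_) (fun x _ => funext fun j => if_pos rfl)
    fun _ _ => rfl
  · exact sampB_mem.2 fun j => by simpa [pt] using sampB_mem.1 h (j, z j)
  · refine sampB_mem.2 fun v => ?_
    by_cases k : v.2 = z v.1
    · simpa [k] using sampB_mem.1 h v.1
    · simp [k]
  · by_cases k : v.2 = z v.1
    · rw [if_pos k, pt, ← k]
    · rw [if_neg k]
      exact Eq.symm (by simpa [k] using sampB_mem.1 h v)

theorem use2 (h : D.OK δ) (z : ι → Fin M) : 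
    ∃ m ≤ (Fintype.card ι * M) ^ 2 * Fintype.card Bt,
    ∀ F : (ι → ℕ) → ℝ, (∀ x, |F x| ≤ 1) →
    |((Fintype.piFinset D.X).card : ℝ) * (∑ y ∈ D.G, if D.E2 z y then F (pt y z) else 0) -
      (1 / 2) ^ m * D.G.card * ∑ x ∈ XA D.X D.E, F x| ≤
      δ * D.G.card * (Fintype.piFinset D.X).card := by
  let s : Finset ((ι × Fin M) × ι × Fin M) := univ.filter fun e =>
    e.1.1 < e.2.1 ∧ D.Keep z e.1 e.2 ∧ (¬ e.1.2 = z e.1.1 ∨ ¬ e.2.2 = z e.2.1)
  refine ⟨s.card * Fintype.card Bt, Nat.mul_le_mul_right _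
    ((card_le_univ s).trans_eq (by simp [sq])), fun F hF => ?_⟩
  let Ψ : (ι → ℕ) → ℝ := fun x => if ∀ i j, i ≠ j → D.E i j (x i) (x j) = 0 then F x else 0
  have e : ∀ y, D.E2 z y ↔ (∀ e ∈ s, D.E e.1.1 e.2.1 (y e.1) (y e.2) = 0) ∧
      ∀ i j, i ≠ j → D.E i j (pt y z i) (pt y z j) = 0 := fun y => by
    refine ⟨fun k => ⟨fun e he => k _ _ (mem_filter.1 he).2.2.1, fun i j hij =>
      k (i, z i) (j, z j) ⟨hij, ?_, ?_, ?_, ?_⟩⟩, fun k => ?_⟩
    · rintro ⟨rfl, a⟩; exact a rfl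
    · rintro ⟨rfl, a⟩; exact a rfl
    · rintro ⟨-, rfl, a⟩; exact a rfl
    · rintro ⟨-, rfl, a⟩; exact a rfl
    have k2 : ∀ v v', v.1 < v'.1 → D.Keep z v v' → D.E v.1 v'.1 (y v) (y v') = 0 := by
      rintro ⟨i, a⟩ ⟨j, b⟩ h1 h2
      by_cases h3 : ¬ a = z i ∨ ¬ b = z j
      · exact k.1 (_, _) (mem_filter.2 ⟨mem_univ _, h1, h2, h3⟩)
      · rw [not_or, not_not, not_not] at h3
        obtain ⟨rfl, rfl⟩ := h3
        exact k.2 i j h1.ne
    exact fun v v' h2 => (lt_or_gt_of_ne h2.1).elim (k2 v v' · h2) fun h1 => h.sym _ _ _ _ ▸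
      k2 v' v h1 ⟨h2.1.symm, h2.2.2.1, h2.2.1, h2.2.2.2.2, h2.2.2.2.1⟩
  have h1 := ssB_count (fun v : ι × Fin M => D.X v.1) (S := D.G) (fun _ => sampB_mem) s
    (fun v v' => D.E v.1 v'.1) (fun v => v.2 = z v.1) (fun y => Ψ (pt y z))
    (fun y => if D.E2 z y then F (pt y z) else 0) h.d0
    (fun e he k => (mem_filter.1 he).2.1.not_gt (mem_filter.1 k).2.1)
    (fun e he => (mem_filter.1 he).2.2.2)
    (fun y => by
      simp only [Ψ]
      split_ifs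
      exacts [hF _, by simp])
    (fun x y k => congrArg Ψ (funext fun j => k _ rfl))
    (fun y k => if_congr ((e y).trans (and_iff_right k)) rfl rfl)
    (fun y k => if_neg fun k' => k ((e y).1 k').1)
    fun e he => h.bil _ _ (mem_filter.1 he).2.1.ne
  obtain ⟨c, hc⟩ := sampB_pt D z
  have h2 := hc fun _ => 1
  have h3 : ∑ x ∈ XA D.X D.E, F x = ∑ x ∈ Fintype.piFinset D.X, Ψ x := by
    rw [← sum_filter]
    exact sum_congr (Finset.ext fun x => by simp only [XA, mem_filter, sampB_mem]) fun _ _ => rfl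
  rw [sum_const, sum_const, nsmul_one, nsmul_one] at h2
  rw [hc, ← h3] at h1
  refine le_trans (le_of_eq ?_) (mul_le_mul_of_nonneg_right h1 (Nat.cast_nonneg _))
  rw [← Nat.abs_cast (R := ℝ) (Fintype.piFinset D.X).card, ← abs_mul, Nat.abs_cast, h2]
  congr 1
  ring

end SD

end Pool.Agent.B6.S
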