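import Pool.Agent.Lib.MP_696deb_nt.B6.SX0
import Pool.Agent.Lib.MP_696deb_nt.B6.SL2
import Pool.Agent.Lib.MP_696deb_nt.B6.SSa
import Pool.Agent.Lib.MP_696deb_nt.Sm.SampB

/-! Every matrix of symbols occurs about equally often. -/

set_option autoImplicit false

open scoped Classical
open Finset Function

namespace Pool.Agent.B6.S

open Pool.Agent.Lib.MP_696deb_nt Pool.Agent.Lib.MP_696deb_nt.Sm

/-- The two symbols of a pair of primes. -/
noncomputable def Cv.ed (C : Cv) (p q : ℕ) : Fin 2 → F2 := ![aleg p q, C.sy (C.b2 q) p]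

namespace Box

variable {C : Cv}

/-- The defect of a pair of primes against the matrix `a`. -/
noncomputable def EE (B : Box C) (a : B.Mat) (i j : Fin B.r) (p q : ℕ) : Fin 2 → F2 :=
  if h : i < j then C.ed p q + a ⟨(i, j), h⟩ else if h : j < i then C.ed q p + a ⟨(j, i), h⟩ else 0

/-- The basic large parameter of a box. -/
noncomputable def Lm (B : Box C) : ℝ := 2 ^ ((B.r + B.k0 + 1) ^ 2) / B.θ

variable {B : Box C} {a : B.Mat} {c : ℕ}

theorem EE_lt {i j : Fin B.r} (h : j < i) (p q : ℕ) :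
    B.EE a i j p q = C.ed q p + a ⟨(j, i), h⟩ := by rw [EE, dif_neg h.not_gt, dif_pos h]

theorem EE_sym (i j : Fin B.r) (p q : ℕ) : B.EE a i j p q = B.EE a j i q p := by
  unfold EE
  rcases lt_trichotomy i j with h | h | h
  · rw [dif_pos h, dif_neg h.not_gt, dif_pos h]
  · subst h
    simp only [lt_irrefl, dite_false]
  · rw [dif_neg h.not_gt, dif_pos h, dif_pos h]

theorem XA_eq : XA B.X (B.EE a) = B.fib a := by
  have two : ∀ u v : Fin 2 → F2, u + v = 0 ↔ u = v := by decide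
  ext x
  simp only [XA, fib, pts, mem_filter, sampB_mem]
  refine and_congr_right fun _ => ⟨fun h => funext fun ij => ?_, fun h i j hij => ?_⟩
  · have := h ij.1.1 ij.1.2 ij.2.ne
    rw [EE, dif_pos ij.2] at this
    exact (two _ _).1 this
  · subst h
    unfold EE
    split_ifs with h1 h2
    · exact (two _ _).2 rfl
    · exact (two _ _).2 rfl
    · rfl

theorem Wf.ne_of (h : B.Wf) {i j : Fin B.r} (hij : i ≠ j) {p q : ℕ} (hp : p ∈ B.X i)
    (hq : q ∈ B.X j) : p ≠ q := by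
  rintro rfl
  exact hij (h.disj i j p hp hq)

theorem Wf.nd (h : B.Wf) {i j : Fin B.r} (hij : i ≠ j) {p q : ℕ} (hp : p ∈ B.X i)
    (hq : q ∈ B.X j) : ¬ (p : ℤ) ∣ (q : ℤ) :=
  not_dvd_of_natAbs_eq (h.prime hp) (h.prime hq) (h.ne_of hij hp hq) rfl

theorem Wf.aleg_pair (h : B.Wf) {i j : Fin B.r} (hij : i ≠ j) {p q q' : ℕ} (hp : p ∈ B.X i)
    (hq : q ∈ B.X j) (hq' : q' ∈ B.X j) (h1 : B.EE a i j p q = 0) (h2 : B.EE a i j p q' = 0) :
    aleg p ((q : ℤ) * q') = 0 := by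
  have two : ∀ u v w : F2, u + w = 0 → v + w = 0 → u + v = 0 := by decide
  have pp := h.prime hp
  rcases lt_or_gt_of_ne hij with k | k
  · rw [EE, dif_pos k] at h1 h2
    rw [aleg_mul pp (h.nd hij hp hq) (h.nd hij hp hq')]
    exact two _ _ _ (congrFun h1 0) (congrFun h2 0)
  · rw [EE_lt k] at h1 h2
    have e : (q : ℤ) * q' = pstar q * pstar q' := by
      have := (h.same j q hq q' hq').mod8 (h.gp hq) (h.gp hq')
      rw [pstar, pstar, show q' % 4 = q % 4 by omega]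
      split_ifs
      · rfl
      · rw [neg_mul_neg]
    rw [e, aleg_mul pp (not_dvd_of_natAbs_eq pp (h.prime hq) (h.ne_of hij hp hq) (natAbs_pstar q))
      (not_dvd_of_natAbs_eq pp (h.prime hq') (h.ne_of hij hp hq') (natAbs_pstar q')),
      aleg_pstar pp (h.prime hq) (h.gp hp).ne_two (h.gp hq).ne_two (h.ne_of hij hp hq),
      aleg_pstar pp (h.prime hq') (h.gp hp).ne_two (h.gp hq').ne_two (h.ne_of hij hp hq')]
    exact two _ _ _ (congrFun h1 0) (congrFun h2 0)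

theorem Hyp.pow_le_Lm (h : B.Hyp c) : (2 : ℝ) ^ ((B.r + B.k0 + 1) ^ 2) ≤ B.Lm :=
  (le_div_iff₀ h.pos).2 (mul_le_of_le_one_right (by positivity) h.le1)

theorem Hyp.two_le_Lm (h : B.Hyp c) : 2 ≤ B.Lm :=
  le_trans (le_self_pow₀ (by norm_num) (by positivity)) h.pow_le_Lm

theorem Hyp.Lm_pow_le (h : B.Hyp c) (j : Fin B.r) : B.Lm ^ c ≤ B.t j :=
  h.hc.trans (Nat.cast_le.2 (h.hY j))

theorem Hyp.t_le_card (h : B.Hyp c) (j : Fin B.r) : (B.t j : ℝ) ≤ B.Lm * (B.X j).card := by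
  rw [Lm, div_mul_eq_mul_div, le_div_iff₀ h.pos, mul_comm]
  exact (h.big j).trans (le_mul_of_one_le_left (Nat.cast_nonneg _) (one_le_pow₀ (by norm_num)))

end Box

theorem bil_box (C : Cv) : ∃ m : ℕ, ∀ (B : Box C) (a : B.Mat) (c : ℕ), B.Hyp c → ∀ i j, i ≠ j →
    ∀ L : ℝ, 1 ≤ L → L ^ 24 ≤ B.t i → L ^ 24 ≤ B.t j → ∀ T : Finset (Fin 2), T.Nonempty →
    ∀ α β : ℕ → ℝ, (∀ p, |α p| ≤ 1) → (∀ q, |β q| ≤ 1) →
    |∑ p ∈ B.X i, ∑ q ∈ B.X j, α p * β q * sg (∑ c ∈ T, B.EE a i j p q c)| ≤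
      B.Lm ^ m / L * (B.X i).card * (B.X j).card := by
  obtain ⟨K, hK, hb⟩ := C.bil
  obtain ⟨m, hm⟩ := pow_unbounded_of_one_lt K (one_lt_two : (1 : ℝ) < 2)
  refine ⟨m + 2, fun B a c h i j hij L hL h1 h2 T hT α β hα hβ => ?_⟩
  wlog k : j < i generalizing i j α β
  · have := this j i hij.symm h2 h1 β α hβ hα (hij.lt_or_gt.resolve_right k)
    rw [sum_comm, mul_right_comm]
    simpa only [Box.EE_sym j i, mul_comm (β _)] using this
  have y1 : L ^ 24 ≤ (min (B.t i) (B.t j) : ℕ) := by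
    rw [Nat.cast_min]
    exact le_min h1 h2
  have hb' := hb (B.X i) (B.X j) (B.t i) (B.t j) (min (B.t i) (B.t j)) C.tp C.tp
    (if 0 ∈ T then 1 else 0) (if 1 ∈ T then 1 else 0)
    (by exact_mod_cast (one_le_pow₀ hL).trans y1) (min_le_left _ _) (min_le_right _ _)
    (by
      obtain ⟨x, hx⟩ := hT
      fin_cases x
      · exact .inl ((if_pos hx).trans_ne one_ne_zero)
      · exact .inr ((if_pos hx).trans_ne one_ne_zero))
    (disjoint_left.2 fun p hp hq => hij (h.wf.disj i j p hp hq))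
    (fun p hp => ⟨h.wf.gp hp, (h.rng i p hp).1, (h.rng i p hp).2, (h.wf.ty i p hp).fix⟩)
    (fun p hp => ⟨h.wf.gp hp, (h.rng j p hp).1, (h.rng j p hp).2, (h.wf.ty j p hp).fix⟩)
    (fun p => α p * sg (∑ c ∈ T, a ⟨(j, i), k⟩ c)) β
    (fun p => by rw [abs_mul, abs_sg, mul_one]; exact hα p) hβ
  refine (le_of_eq_of_le (congrArg abs (sum_congr rfl fun p _ => sum_congr rfl fun q _ => ?_))
    hb').trans ?_
  · rw [Box.EE_lt k]
    simp only [Pi.add_apply, sum_add_distrib, sg_add (∑ c ∈ T, C.ed q p c)]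
    rw [← sum_ite_mem_eq T (C.ed q p), Fin.sum_univ_two, ite_mul, ite_mul, one_mul, one_mul,
      zero_mul, zero_mul, mul_comm (sg _), ← mul_assoc, mul_right_comm (α p)]
    rfl
  have l2 := h.two_le_Lm
  have l3 : K ≤ B.Lm ^ m := hm.le.trans (pow_le_pow_left₀ (by norm_num) l2 m)
  have l4 : K * ((B.t i : ℝ) * B.t j) ≤
      B.Lm ^ m * (B.Lm * (B.X i).card * (B.Lm * (B.X j).card)) :=
    mul_le_mul l3 (mul_le_mul (h.t_le_card i) (h.t_le_card j) (Nat.cast_nonneg _)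
      (by positivity)) (by positivity) (by positivity)
  have l5 : L ≤ ((min (B.t i) (B.t j) : ℕ) : ℝ) ^ (1 / 24 : ℝ) := by
    rw [one_div, Real.le_rpow_inv_iff_of_pos (by linarith) (Nat.cast_nonneg _) (by norm_num)]
    exact_mod_cast y1
  rw [div_mul_eq_mul_div, div_mul_eq_mul_div]
  refine div_le_div₀ (by positivity) ?_ (by linarith) l5
  calc _ = K * ((B.t i : ℝ) * B.t j) := by ring
    _ ≤ _ := l4
    _ = _ := by ring

theorem bil_Lm (C : Cv) (e : ℕ) : ∃ c : ℕ, ∀ (B : Box C) (a : B.Mat), B.Hyp c → ∀ i j, i ≠ j →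
    ∀ T : Finset (Fin 2), T.Nonempty → ∀ α β : ℕ → ℝ, (∀ p, |α p| ≤ 1) → (∀ q, |β q| ≤ 1) →
    |∑ p ∈ B.X i, ∑ q ∈ B.X j, α p * β q * sg (∑ c ∈ T, B.EE a i j p q c)| ≤
      (1 / B.Lm) ^ e * (B.X i).card * (B.X j).card := by
  obtain ⟨m, hm⟩ := bil_box C
  refine ⟨(e + m) * 24, fun B a h i j hij T hT α β hα hβ => ?_⟩
  have l2 := h.two_le_Lm
  have l0 : 0 < B.Lm := by linarith
  have k := hm B a _ h i j hij (B.Lm ^ (e + m)) (one_le_pow₀ (by linarith))
    (by rw [← pow_mul]; exact h.Lm_pow_le i) (by rw [← pow_mul]; exact h.Lm_pow_le j) T hT α β hα hβ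
  refine k.trans_eq ?_
  rw [one_div_pow, pow_add, mul_comm (B.Lm ^ e), div_mul_eq_div_div, div_self (by positivity)]

theorem equi_main (C : Cv) {ε : ℝ} (hε : 0 < ε) : ∃ c : ℕ, ∀ B : Box C, B.Hyp c → ∀ a : B.Mat,
    |((B.fib a).card : ℝ) - B.pts.card / Fintype.card B.Mat| ≤
      ε * (B.pts.card / Fintype.card B.Mat) := by
  obtain ⟨e, he⟩ := exists_pow_lt_of_lt_one hε (by norm_num : (1 / 2 : ℝ) < 1)
  obtain ⟨c, hc⟩ := bil_Lm C (e + 2)
  refine ⟨c, fun B h a => ?_⟩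
  have l2 := h.two_le_Lm
  have l0 : 0 < B.Lm := by linarith
  have k := unif B.X (B.EE a) (δ := (1 / B.Lm) ^ (e + 2)) (by positivity) Box.EE_sym (hc B a h)
  rw [Box.XA_eq, Fintype.card_fin] at k
  generalize hN : (univ.filter fun e : Fin B.r × Fin B.r => e.1 < e.2).card = N at k
  have hP : ∀ i : DecidableEq (Fin B.r), (@Fintype.piFinset _ i _ _ B.X) = B.pts := fun i =>
    Finset.ext fun x => sampB_mem.trans sampB_mem.symm
  rw [hP] at k
  have hM : Fintype.card B.Mat = 2 ^ (N * 2) := by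
    rw [Fintype.card_fun, Fintype.card_fun, ZMod.card, Fintype.card_fin, Fintype.card_subtype, ← hN,
      ← pow_mul, mul_comm]
  have hN' : N ≤ (B.r + B.k0 + 1) ^ 2 := by
    rw [← hN]
    refine (card_le_univ _).trans ?_
    rw [Fintype.card_prod, Fintype.card_fin, ← sq]
    exact Nat.pow_le_pow_left (by omega) 2
  have h1 : (2 : ℝ) ^ (N * 2) ≤ B.Lm ^ 2 := by
    rw [pow_mul]
    exact pow_le_pow_left₀ (by positivity)
      ((pow_le_pow_right₀ (by norm_num) hN').trans h.pow_le_Lm) 2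
  have h2 : (1 / B.Lm) ^ (e + 2) * 2 ^ (N * 2) ≤ ε := by
    calc (1 / B.Lm) ^ (e + 2) * 2 ^ (N * 2) ≤ (1 / B.Lm) ^ (e + 2) * B.Lm ^ 2 :=
          mul_le_mul_of_nonneg_left h1 (by positivity)
      _ = (1 / B.Lm) ^ e := by
          rw [pow_add, mul_assoc, ← mul_pow, one_div_mul_cancel l0.ne', one_pow, mul_one]
      _ ≤ (1 / 2) ^ e := pow_le_pow_left₀ (by positivity)
          (one_div_le_one_div_of_le (by norm_num) l2) e
      _ ≤ ε := he.le
  rw [hM]
  push_cast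
  rw [one_div_pow, one_div_mul_eq_div] at k
  refine k.trans ?_
  rw [← mul_div_assoc, le_div_iff₀ (by positivity), mul_right_comm]
  exact mul_le_mul_of_nonneg_right h2 (Nat.cast_nonneg _)

end Pool.Agent.B6.S
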