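import Pool.Agent.Lib.MP_696deb_nt.B6.SZ1
import Pool.Agent.Lib.MP_696deb_nt.Sm.Grid

/-! Governing expansions attached to a grid of primes. -/

set_option autoImplicit false

open scoped Classical
open Finset Function

namespace Pool.Agent.B6.S

open Pool.Agent.Lib.MP_696deb_nt Pool.Agent.Lib.MP_696deb_nt.Sm

namespace Cv

variable (C : Cv) {n M : ℕ}

/-- The properties of the cocycles attached to the pointer primes. -/
structure FKit (pr : Sx n → Fin (M + 1) → ℕ) (Df : ℤ) (f : Fin (M + 1) → GQ → Gm n M → C.A) :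
    Prop where
  two : ∀ s g γ, 2 • f s g γ = 0
  coc : ∀ s g h γ, f s (g * h) γ = f s g γ + C.act g (f s h (γ - bar (dd (uq pr)) g))
  lc : ∀ s, LC (f s)
  fix : ∀ s s' v, C.FP Df v → ∀ g ∈ Gv v, f s g = f s' g
  unr : ∀ s s' q, C.Gp q → (∀ t, q ≠ pr ia t) → f s (sig q) = f s' (sig q)
  ram : ∀ s t γ, f s (sig (pr ia t)) γ = if s = t ∧ γ = 0 then C.T (C.tp (pr ia t)) else 0

/-- The vertex function of the expansion in the directions `T` and the pointer direction. -/
noncomputable def Phi (f : Fin (M + 1) → GQ → Gm n M → C.A) (T : Finset (Fin n)) (y : Zg n M)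
    (g : GQ) : C.A := ∑ γ, (∏ j ∈ T, mu j (y (Sum.inl j)) γ).val • f (y ia) g γ

/-- The label of a grid point. -/
noncomputable def label (pr : Sx n → Fin (M + 1) → ℕ) (f : Fin (M + 1) → GQ → Gm n M → C.A)
    (y : Zg n M) : F2 := C.sy (C.Phi f univ y) (pr ic (y ic))

variable {C} {pr : Sx n → Fin (M + 1) → ℕ} {Df : ℤ} {f : Fin (M + 1) → GQ → Gm n M → C.A}

theorem val_add {S : C.A} (h : 2 • S = 0) (a b : F2) : (a + b).val • S = a.val • S + b.val • S := by
  rcases F2_cases a with rfl | rfl <;> rcases F2_cases b with rfl | rfl <;>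
    simp [ZMod.val_one, CharTwo.add_self_eq_zero, ← two_nsmul, h]

theorem val_mul (S : C.A) (a b : F2) : (a * b).val • S = a.val • b.val • S := by
  rcases F2_cases a with rfl | rfl <;> simp [ZMod.val_one]

theorem val_sum {ι : Type} {S : C.A} (h : 2 • S = 0) (s : Finset ι) (a : ι → F2) :
    (∑ i ∈ s, a i).val • S = ∑ i ∈ s, (a i).val • S := by
  induction s using Finset.induction_on with
  | empty => simp
  | insert i s hi ih => rw [sum_insert hi, sum_insert hi, val_add h, ih]

theorem FKit.two_Phi (h : C.FKit pr Df f) (T : Finset (Fin n)) (y : Zg n M) (g : GQ) :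
    2 • C.Phi f T y g = 0 := by
  rw [Phi, smul_sum]
  exact sum_eq_zero fun γ _ => C.two_smul_val _ (h.two _ _ _)

theorem FKit.label_eq (h : C.FKit pr Df f) (y : Zg n M) : C.label pr f y =
    ∑ γ, (∏ j, mu j (y (Sum.inl j)) γ) * C.sy (fun g => f (y ia) g γ) (pr ic (y ic)) := by
  rw [label, sy, Phi, C.ep_sum_left _ (fun γ _ => C.two_smul_val _ (h.two _ _ _)) (C.two_T _)]
  simp only [ep_smul_left, sy]

theorem FKit.Phi_mul (h : C.FKit pr Df f) (T : Finset (Fin n)) (y : Zg n M) (g g' : GQ) :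
    C.Phi f T y (g * g') = C.Phi f T y g + ∑ R ∈ T.powerset,
      (∏ j ∈ R, chi ((pr (Sum.inl j) 0 : ℤ) * pr (Sum.inl j) (y (Sum.inl j))) g).val •
        C.act g (C.Phi f (T \ R) y g') := by
  unfold Phi
  simp only [h.coc, smul_add, Finset.sum_add_distrib]
  congr 1
  rw [← Equiv.sum_comp (Equiv.addLeft (bar (dd (uq pr)) g))]
  simp only [Equiv.coe_addLeft, add_sub_cancel_left, mu_add, mu_bar, Finset.prod_add, map_sum,
    map_nsmul, smul_sum]
  rw [Finset.sum_comm]
  refine Finset.sum_congr rfl fun γ _ => ?_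
  rw [val_sum (C.two_act _ (h.two _ _ _))]
  exact Finset.sum_congr rfl fun R _ => val_mul _ _ _

end Cv

end Pool.Agent.B6.S
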