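import Pool.Agent.Lib.MP_696deb_nt.B6.SG0

/-! The grid lemma: definitions and the twisting identity. -/

set_option autoImplicit false

open scoped Classical
open Finset Function

namespace Pool.Agent.B6.S

open Pool.Agent.Lib.MP_696deb_nt Pool.Agent.Lib.MP_696deb_nt.Sm
open Pool.Agent.Lib.MP_696deb_nt.Sm.Gd (Lam sum_supp sum_zero sum_mono sum_cl sn_sum pow_F2 lam_of_cl card_Sx off
  lam_off card_erase)

/-- The data of a grid of twists. -/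
structure Gd (C : Cv) (n M : ℕ) where
  pr : Sx n → Fin (M + 1) → ℕ
  Df : ℤ
  f : Fin (M + 1) → GQ → Gm n M → C.A
  J : Finset ℕ
  Jev : Finset ℕ
  a : Zg n M → GQ → C.A
  b : Zg n M → GQ → C.A

namespace Gd

variable {C : Cv} {n M : ℕ} (G : Gd C n M)

def D (y : Zg n M) : ℤ := G.Df * ∏ i, (G.pr i (y i) : ℤ)

/-- The primes at which the larger set is relaxed. -/
def J2 (y : Zg n M) : Set ℕ := (G.J : Set ℕ) ∪ Set.range fun i => G.pr i (y i)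

/-- A lift of `a y` with prescribed values. -/
def Lf (e : ℕ → C.A) (J : Set ℕ) (y : Zg n M) (c : GQ → C.A) : Prop :=
  C.IsZ (G.D y) J (n + 1) c ∧ 2 ^ n • c = G.a y ∧ ∀ q ∈ G.Jev, 2 • c (sig q) = e q

structure Ok : Prop where
  pos : 1 ≤ n
  gp : ∀ i s, C.Gp (G.pr i s)
  cop : ∀ i s, ¬ (G.pr i s : ℤ) ∣ G.Df
  inj : ∀ i s i' s', G.pr i s = G.pr i' s' → i = i' ∧ s = s'
  ne : G.Df ≠ 0
  fix : ∀ i s s' v, C.FP G.Df v → ∀ g ∈ Gv v, chi ((G.pr i s : ℤ) * G.pr i s') g = 0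
  cross : ∀ i s s' i' t, i' ≠ i → ∀ g ∈ Gv (G.pr i' t), chi ((G.pr i s : ℤ) * G.pr i s') g = 0
  kit : C.FKit G.pr G.Df G.f
  hJ : ∀ q ∈ G.J, C.Gp q ∧ (q : ℤ) ∣ G.Df
  a2 : ∀ y g, 2 • G.a y g = 0
  aU : ∀ y j s, G.a (update y (Sum.inl j) s) = G.a y
  a0 : ∀ y j, G.a y (sig (G.pr (Sum.inl j) (y (Sum.inl j)))) = 0
  a1 : ∀ y, G.a y (sig (G.pr ia (y ia))) = C.T (C.tp (G.pr ia (y ia)))
  det : ∀ y c, C.IsZ (G.D y) ∅ 1 c → (∀ q ∈ G.Jev, c (sig q) = 0) → c = 0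
  hb : ∀ y, C.IsZ (G.D y) ∅ 1 (G.b y)
  hbJ : ∀ y, ∀ q ∈ G.J2 y, q ≠ G.pr ic (y ic) → G.b y (sig q) = 0
  pair : ∀ y, G.b y (sig (G.pr ic (y ic))) = C.T (C.tp (G.pr ic (y ic)))

/-- The elements at which a colour is read off. -/
noncomputable def tests : Finset GQ := insert C.g0
  (((G.J ∪ univ.image fun i => G.pr i 0).image sig ∪
    (G.J ∪ univ.image fun i => G.pr i 0).image frb) ∪ G.Jev.image sig)

/-- A set of grid points with lifts that all have the same colour. -/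
structure Mono (e : ℕ → C.A) (Y : Set (Zg n M)) (c : Zg n M → GQ → C.A) : Prop where
  lf : ∀ y ∈ Y, G.Lf e G.J y (c y)
  val : ∀ y ∈ Y, ∀ y' ∈ Y, ∀ g ∈ G.tests, c y g = c y' g
  phi : ∀ y ∈ Y, ∀ y' ∈ Y, ∀ g ∈ G.tests, ∀ T, C.Phi G.f T y g = C.Phi G.f T y' g
  ram : ∀ y ∈ Y, ∀ y' ∈ Y, ∀ i, c y (sig (G.pr i (y i))) = c y' (sig (G.pr i (y' i)))

/-- The weighted sum of the lifts at level `k`. -/
noncomputable def Sg (c : Zg n M → GQ → C.A) (k : ℕ) (w : Zg n M → ℤ) : GQ → C.A :=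
  ∑ y, w y • (2 ^ (n + 1 - k) • c y)

/-- The weighted sum of the vertex functions of the expansion. -/
noncomputable def ph (T : Finset (Sx n)) (w : Zg n M → ℤ) (g : GQ) : C.A :=
  if ia ∈ T then ∑ y, w y • C.Phi G.f {j | Sum.inl j ∈ T} y g else 0

/-- The bit by which the twist at `y` differs from the twist at `x` in direction `i`. -/
noncomputable def cb (x y : Zg n M) (g : GQ) (i : Sx n) : ℤ :=
  (chi ((G.pr i (x i) : ℤ) * G.pr i (y i)) g).val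

variable {G} {e : ℕ → C.A} {Y : Set (Zg n M)} {c : Zg n M → GQ → C.A}

theorem pow_two {P : C.A} (h : 2 • P = 0) (k : ℕ) : 2 ^ (k + 1) • P = 0 := by
  rw [pow_succ, mul_smul, h, smul_zero]

theorem Ok.prime (h : G.Ok) (i : Sx n) (s : Fin (M + 1)) : (G.pr i s).Prime := (h.gp i s).1

theorem Ok.pr_ne (h : G.Ok) (i : Sx n) (s : Fin (M + 1)) : (G.pr i s : ℤ) ≠ 0 := by
  exact_mod_cast (h.prime i s).ne_zero

theorem Ok.dvd_D (h : G.Ok) {p : ℕ} (hp : p.Prime) (y : Zg n M) :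
    (p : ℤ) ∣ G.D y ↔ (p : ℤ) ∣ G.Df ∨ ∃ i, p = G.pr i (y i) := by
  have hp' : Prime (p : ℤ) := Nat.prime_iff_prime_int.1 hp
  rw [D, hp'.dvd_mul, hp'.dvd_finsetProd_iff]
  refine or_congr_right ⟨fun ⟨i, _, hi⟩ => ⟨i, ?_⟩, fun ⟨i, hi⟩ => ⟨i, mem_univ _, hi ▸ dvd_rfl⟩⟩
  exact (Nat.prime_dvd_prime_iff_eq hp (h.prime _ _)).1 (Int.natCast_dvd_natCast.1 hi)

theorem Ok.fp_D (h : G.Ok) {v : ℕ} (y : Zg n M) :
    C.FP (G.D y) v ↔ C.FP G.Df v ∨ ∃ i, v = G.pr i (y i) := by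
  constructor
  · rintro ⟨h1, h2 | h2⟩
    · exact .inl ⟨h1, .inl h2⟩
    · exact ((h.dvd_D h1 y).1 h2).imp_left fun k => ⟨h1, .inr k⟩
  · rintro (⟨h1, h2⟩ | ⟨j, rfl⟩)
    · exact ⟨h1, h2.imp_right fun k => k.mul_right _⟩
    · exact ⟨h.prime _ _, .inr ((h.dvd_D (h.prime _ _) y).2 (.inr ⟨j, rfl⟩))⟩

theorem Ok.notJ (h : G.Ok) (i : Sx n) (s : Fin (M + 1)) : G.pr i s ∉ (G.J : Set ℕ) := fun k =>
  h.cop i s (h.hJ _ k).2

theorem Ok.J2 (h : G.Ok) (y : Zg n M) : ∀ q ∈ G.J2 y, C.Gp q ∧ (q : ℤ) ∣ G.D y := by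
  rintro q (hq | ⟨i, rfl⟩)
  · exact ⟨(h.hJ q hq).1, dvd_mul_of_dvd_left (h.hJ q hq).2 _⟩
  · exact ⟨h.gp _ _, (h.dvd_D (h.prime _ _) y).2 (.inr ⟨i, rfl⟩)⟩

theorem Ok.D_ne (h : G.Ok) (y : Zg n M) : G.D y ≠ 0 :=
  mul_ne_zero h.ne (prod_ne_zero_iff.2 fun _ _ => h.pr_ne _ _)

theorem Ok.chi_D (h : G.Ok) (x y : Zg n M) (g : GQ) :
    chi (G.D y) g = chi (G.D x) g + ∑ i, chi ((G.pr i (x i) : ℤ) * G.pr i (y i)) g := by
  have e : ∀ z : Zg n M, chi (G.D z) g = chi G.Df g + ∑ i, chi (G.pr i (z i)) g := fun z => by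
    rw [D, chi_mul h.ne (prod_ne_zero_iff.2 fun i _ => h.pr_ne _ _),
      chi_prod _ _ fun i _ => h.pr_ne _ _]
  simp only [e, chi_mul (h.pr_ne _ _) (h.pr_ne _ _), sum_add_distrib]
  rw [add_assoc, ← add_assoc (∑ i, chi (G.pr i (x i)) g), CharTwo.add_self_eq_zero, zero_add]

theorem Ok.chi_fix (h : G.Ok) (x y : Zg n M) {v : ℕ} (hv : C.FP G.Df v) :
    ∀ g ∈ Gv v, chi (G.D x) g = chi (G.D y) g := by
  intro g hg
  rw [h.chi_D x y, sum_eq_zero fun i _ => h.fix i _ _ v hv g hg, add_zero]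

theorem Ok.chi_cross (h : G.Ok) {x y : Zg n M} {i : Sx n} (hi : y i = x i) :
    ∀ g ∈ Gv (G.pr i (x i)), chi (G.D x) g = chi (G.D y) g := by
  intro g hg
  rw [h.chi_D x y, sum_eq_zero fun j _ => ?_, add_zero]
  by_cases k : i = j
  · rw [← k, hi, chi_sq]
  · exact h.cross j _ _ i _ k g hg

theorem Sg_apply (c : Zg n M → GQ → C.A) (k : ℕ) (w : Zg n M → ℤ) (g : GQ) :
    Sg c k w g = ∑ y, w y • 2 ^ (n + 1 - k) • c y g := by
  simp only [Sg, Finset.sum_apply, Pi.smul_apply]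

theorem Mono.tors (hm : G.Mono e Y c) {y : Zg n M} (hy : y ∈ Y) (k : ℕ) (g : GQ) :
    2 ^ (n + 1) • 2 ^ k • c y g = 0 := by
  rw [smul_comm, (hm.lf y hy).1.tors, smul_zero]

theorem Mono.Sg_zero (hm : G.Mono e Y c) {w : Zg n M → ℤ} (hw : ∀ y, w y ≠ 0 → y ∈ Y) :
    Sg c 0 w = 0 := funext fun g => by
  rw [Sg_apply]
  exact sum_zero hw fun y hy => (hm.lf y hy).1.tors g

theorem Mono.Sg_g0 (hm : G.Mono e Y c) (k : ℕ) {w : Zg n M → ℤ} (hw : ∀ y, w y ≠ 0 → y ∈ Y) :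
    Sg c k w C.g0 = 0 := by
  rw [Sg_apply]
  exact sum_zero hw fun y hy => by rw [(hm.lf y hy).1.nor, smul_zero]

theorem Sg_pow (c : Zg n M → GQ → C.A) {j k : ℕ} (hj : j ≤ k) (hk : k ≤ n + 1) (w : Zg n M → ℤ)
    (g : GQ) : Sg c j w g = 2 ^ (k - j) • Sg c k w g := by
  rw [Sg_apply, Sg_apply, smul_sum]
  refine sum_congr rfl fun y _ => ?_
  rw [smul_comm (2 ^ (k - j)), smul_smul (2 ^ (k - j)), ← pow_add,
    show k - j + (n + 1 - k) = n + 1 - j by omega]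

theorem Mono.lc (hm : G.Mono e Y c) (k : ℕ) {w : Zg n M → ℤ} (hw : ∀ y, w y ≠ 0 → y ∈ Y) :
    LC (Sg c k w) := by
  refine lc_sum _ fun y _ => ?_
  by_cases h0 : w y = 0
  · rw [h0, zero_smul]
    exact B2.Sm.const 0
  · exact (hm.lf y (hw y h0)).1.lc.comp fun P => w y • 2 ^ (n + 1 - k) • P

theorem pow_shift {P : C.A} (hP : 2 ^ (n + 1) • P = 0) {k : ℕ} (hk : k ≤ n + 1) (r : ℕ) :
    2 ^ (n + 1 - (k - r)) • P = (2 : ℤ) ^ r • 2 ^ (n + 1 - k) • P := by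
  rw [show (2 : ℤ) ^ r = ((2 ^ r : ℕ) : ℤ) by push_cast; rfl, natCast_zsmul, smul_smul, ← pow_add]
  rcases le_total r k with h | h
  · rw [show n + 1 - (k - r) = r + (n + 1 - k) by omega]
  · rw [show n + 1 - (k - r) = n + 1 by omega, show r + (n + 1 - k) = r - k + (n + 1) by omega,
      hP, pow_add, mul_smul, hP, smul_zero]

/-- The twisting identity. -/
theorem Mono.twist (h : G.Ok) (hm : G.Mono e Y c) (x : Zg n M) {k : ℕ} (hk : k ≤ n + 1)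
    {w : Zg n M → ℤ} (hw : ∀ y, w y ≠ 0 → y ∈ Y) (g g' : GQ) :
    Sg c k w (g * g') = Sg c k w g + ∑ R : Finset (Sx n), (-1 : ℤ) ^ R.card •
      C.tw (G.D x) g (Sg c (k - R.card) (fun y => w y * ∏ i ∈ R, G.cb x y g i) g') := by
  simp only [Sg_apply, C.tw_sum, smul_sum]
  rw [sum_comm, ← sum_add_distrib]
  refine sum_congr rfl fun y _ => ?_
  by_cases h0 : w y = 0
  · simp [h0, C.tw_zero]
  have hz := (hm.lf y (hw y h0)).1
  rw [hz.coc, smul_add, smul_add, ← C.tw_nsmul, Cv.tw, h.chi_D x y, sn_add, sn_sum, powerset_univ,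
    mul_sum, sum_smul, smul_sum]
  congr 1
  refine sum_congr rfl fun R _ => ?_
  rw [pow_shift (hz.tors g') hk, Cv.tw, map_zsmul, map_zsmul]
  simp only [smul_smul, cb]
  congr 1
  ring

end Gd

end Pool.Agent.B6.S
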