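import Pool.Agent.Lib.MP_696deb_nt.B6.SG1

/-! The grid lemma: weighted sums of lifts agree with the governing expansion. -/

set_option autoImplicit false

open scoped Classical
open Finset Function

namespace Pool.Agent.B6.S

open Pool.Agent.Lib.MP_696deb_nt Pool.Agent.Lib.MP_696deb_nt.Sm
open Pool.Agent.Lib.MP_696deb_nt.Sm.Gd (Lam sum_supp sum_zero sum_mono sum_cl sn_sum pow_F2 lam_of_cl card_Sx off
  lam_off card_erase)

namespace Gd

variable {C : Cv} {n M : ℕ} {G : Gd C n M} {e : ℕ → C.A} {Y : Set (Zg n M)}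
  {c : Zg n M → GQ → C.A}

/-- The statement that sums agree with the expansion, for all direction sets of size `k`. -/
def AS (G : Gd C n M) (Y : Set (Zg n M)) (c : Zg n M → GQ → C.A) (k : ℕ) : Prop :=
  ∀ T : Finset (Sx n), T.card = k → ic ∉ T → ∀ w, Lam Y T w → ∀ g, Sg c k w g = G.ph T w g

theorem cb_update (x y : Zg n M) (g : GQ) {R : Finset (Sx n)} {i : Sx n} (hi : i ∉ R)
    (s : Fin (M + 1)) : ∏ j ∈ R, G.cb x (update y i s) g j = ∏ j ∈ R, G.cb x y g j := by
  refine prod_congr rfl fun j hj => ?_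
  rw [cb, cb, update_of_ne (by rintro rfl; exact hi hj)]

theorem lam_cb {T : Finset (Sx n)} {w : Zg n M → ℤ} (hw : Lam Y T w) (x : Zg n M) (g : GQ)
    (R : Finset (Sx n)) : Lam Y (T \ R) fun y => w y * ∏ j ∈ R, G.cb x y g j :=
  ⟨fun y hy => hw.1 y (left_ne_zero_of_mul hy), fun i hi =>
    (hw.2 i (mem_sdiff.1 hi).1).mul fun y s => cb_update x y g (mem_sdiff.1 hi).2 s⟩

theorem Phi_ic (U : Finset (Fin n)) (y : Zg n M) (s : Fin (M + 1)) (g : GQ) :
    C.Phi G.f U (update y ic s) g = C.Phi G.f U y g := by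
  simp [Cv.Phi]

theorem ph_neg {T : Finset (Sx n)} (h : ia ∉ T) (w : Zg n M → ℤ) (g : GQ) : G.ph T w g = 0 :=
  if_neg h

theorem ph_pos {T : Finset (Sx n)} (h : ia ∈ T) (w : Zg n M → ℤ) (g : GQ) :
    G.ph T w g = ∑ y, w y • C.Phi G.f {j | Sum.inl j ∈ T} y g := if_pos h

theorem two_ph (h : G.Ok) (T : Finset (Sx n)) (w : Zg n M → ℤ) (g : GQ) : 2 • G.ph T w g = 0 := by
  by_cases ha : ia ∈ T
  · rw [ph_pos ha, smul_sum]
    exact sum_eq_zero fun y _ => by rw [smul_comm, h.kit.two_Phi, smul_zero]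
  · rw [ph_neg ha, smul_zero]

theorem ph_zero (h : G.Ok) {T : Finset (Sx n)} {w : Zg n M → ℤ} (hw : Lam Y T w) {g : GQ}
    (hf : ∀ s s', G.f s g = G.f s' g) : G.ph T w g = 0 := by
  by_cases ha : ia ∈ T
  · rw [ph_pos ha]
    refine (hw.2 _ ha).sum (fun y s => ?_) fun _ => pow_two (h.kit.two_Phi _ _ _) _
    simp [Cv.Phi, hf s (y ia)]
  · exact ph_neg ha _ _

theorem lc_ph (h : G.Ok) (T : Finset (Sx n)) (w : Zg n M → ℤ) : LC (G.ph T w) := by
  exact (B2.Sm.pi h.kit.lc).comp fun F : Fin (M + 1) → Gm n M → C.A => if ia ∈ T then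
    ∑ y, w y • ∑ γ, (∏ j ∈ ({j | Sum.inl j ∈ T} : Finset (Fin n)),
      mu j (y (Sum.inl j)) γ).val • F (y ia) γ else 0

theorem val_prod {ι : Type} (s : Finset ι) (t : ι → F2) :
    ((∏ i ∈ s, t i).val : ℤ) = ∏ i ∈ s, ((t i).val : ℤ) := by
  induction s using Finset.induction_on with
  | empty => rfl
  | insert i s hi ih =>
    rw [prod_insert hi, prod_insert hi, ← ih]
    rcases F2_cases (t i) with k | k <;> simp [k, ZMod.val_one]

theorem ph_mul (h : G.Ok) {T : Finset (Sx n)} (hc : ic ∉ T) (w : Zg n M → ℤ) (g g' : GQ) :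
    G.ph T w (g * g') = G.ph T w g + ∑ R : Finset (Sx n), if R ⊆ T then
      C.act g (G.ph (T \ R) (fun y => w y * ∏ i ∈ R, G.cb 0 y g i) g') else 0 := by
  by_cases ha : ia ∈ T
  swap
  · simp [ph, ha]
  rw [ph_pos ha, ph_pos ha]
  simp only [h.kit.Phi_mul, smul_add, sum_add_distrib, smul_sum]
  congr 1
  rw [sum_comm]
  refine sum_of_injOn (fun R => R.map Embedding.inl) (map_injective _).injOn
    (fun _ _ => mem_univ _) (fun R _ hR => ?_) fun R hR => ?_
  · split_ifs with h1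
    · rw [ph_neg (fun h2 => hR ⟨R.toLeft, ?_, ?_⟩), map_zero]
      · exact mem_coe.2 (mem_powerset.2 fun j hj => by simpa using h1 (mem_toLeft.1 hj))
      · ext i
        rcases i with j | _ | _
        · simp
        · simpa using fun k => hc (h1 k)
        · simpa using (mem_sdiff.1 h2).2
    · rfl
  · have h1 : R.map Embedding.inl ⊆ T := fun i hi => by
      obtain ⟨j, hj, rfl⟩ := mem_map.1 hi
      simpa using mem_powerset.1 hR hj
    have h2 : ({j | Sum.inl j ∈ T \ R.map Embedding.inl} : Finset (Fin n)) =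
        ({j | Sum.inl j ∈ T} : Finset (Fin n)) \ R := by
      ext j
      simp
    rw [if_pos h1, ph_pos (by simpa using ha), h2, map_sum]
    refine sum_congr rfl fun y _ => ?_
    rw [map_zsmul, mul_smul, ← natCast_zsmul, val_prod, prod_map]
    rfl

theorem Mono.bs (h : G.Ok) (_hm : G.Mono e Y c) {k : ℕ} (hk : k ≤ n + 1) (hA : AS G Y c k)
    {T : Finset (Sx n)} (hT : T.card = k + 1) {w : Zg n M → ℤ} (hw : Lam Y T w) {j : ℕ}
    (hj : j ≤ k) (g : GQ) : Sg c j w g = 0 := by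
  have key : ∀ i ∈ T, ic ∉ T.erase i → G.ph (T.erase i) w g = 0 → Sg c j w g = 0 :=
    fun i hi h1 h2 => by
      rw [Sg_pow c hj hk, hA (T.erase i) (by rw [card_erase_of_mem hi, hT]; rfl) h1 w
        (hw.mono (erase_subset _ _)), h2, smul_zero]
  by_cases h1 : ic ∈ T
  · refine key _ h1 (notMem_erase _ _) ?_
    by_cases h2 : ia ∈ T.erase ic
    · rw [ph_pos h2]
      exact (hw.2 _ h1).sum (fun y s => Phi_ic _ _ _ _) fun _ => pow_two (h.kit.two_Phi _ _ _) _
    · exact ph_neg h2 _ _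
  · by_cases h2 : ia ∈ T
    · exact key _ h2 (fun k => h1 (mem_of_mem_erase k)) (ph_neg (notMem_erase _ _) _ _)
    · obtain ⟨i, hi⟩ : T.Nonempty := card_pos.1 (by omega)
      exact key _ hi (fun k => h1 (mem_of_mem_erase k))
        (ph_neg (fun k => h2 (mem_of_mem_erase k)) _ _)

theorem Mono.hom (h : G.Ok) (hm : G.Mono e Y c) {k : ℕ} (hk : k + 1 ≤ n + 1)
    (hA : ∀ j ≤ k, AS G Y c j) {T : Finset (Sx n)} (hT : T.card = k + 1) (hc : ic ∉ T)
    {w : Zg n M → ℤ} (hw : Lam Y T w) : C.Z2 ⊤ fun g => Sg c (k + 1) w g - G.ph T w g := by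
  have h2 : ∀ g, 2 • Sg c (k + 1) w g = 0 := fun g => by
    have h3 := Sg_pow c k.le_succ hk w g
    rw [hm.bs h (by omega) (hA k le_rfl) hT hw le_rfl, Nat.succ_sub le_rfl, Nat.sub_self] at h3
    exact h3.symm
  refine ⟨fun g _ => by rw [smul_sub, h2, two_ph h, sub_zero], fun g _ g' _ => ?_,
    (hm.lc _ hw.1).comp₂ (lc_ph h T w) fun P t => P - t⟩
  rw [hm.twist h 0 hk hw.1, ph_mul h hc, add_sub_add_comm, ← sum_sub_distrib,
    sum_eq_single ∅ (fun R _ hR => ?_) fun k => (k (mem_univ _)).elim]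
  · simp [C.tw_two _ _ (h2 g')]
  have hR0 : 0 < R.card := card_pos.2 (nonempty_iff_ne_empty.2 hR)
  have hwR := lam_cb (G := G) hw 0 g R
  split_ifs with h1
  · rw [hA _ (by omega) (T \ R) (by rw [card_sdiff_of_subset h1, hT])
      (fun k => hc (mem_sdiff.1 k).1) _ hwR, C.tw_two _ _ (two_ph h _ _ _)]
    rcases neg_one_pow_eq_or ℤ R.card with h3 | h3
    · rw [h3, one_smul, sub_self]
    · rw [h3, neg_one_zsmul, C.neg_two (C.two_act _ (two_ph h _ _ _)), sub_self]
  · rw [sub_zero]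
    have h3 : (T ∩ R).card < R.card := card_lt_card ⟨inter_subset_right, fun k =>
      h1 fun i hi => (mem_inter.1 (k hi)).1⟩
    have h4 := card_sdiff_add_card_inter T R
    rcases Nat.eq_zero_or_eq_succ_pred (T \ R).card with h5 | h5
    · rw [show k + 1 - R.card = 0 by omega, hm.Sg_zero hwR.1, Pi.zero_apply, C.tw_zero, smul_zero]
    · rw [Nat.succ_eq_add_one, Nat.pred_eq_sub_one] at h5
      rw [hm.bs h (by omega) (hA _ (by omega)) h5 hwR (by omega), C.tw_zero, smul_zero]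

theorem Mono.sig_off (h : G.Ok) (hm : G.Mono e Y c) {y : Zg n M} (hy : y ∈ Y) {p : ℕ}
    (hp : C.Gp p) (hD : ¬ (p : ℤ) ∣ G.Df) (hn : ∀ i, p ≠ G.pr i (y i)) : c y (sig p) = 0 :=
  (hm.lf y hy).1.unr p hp fun k => ((h.dvd_D hp.1 y).1 k).elim hD fun ⟨i, hi⟩ => hn i hi

theorem Mono.sig_ne (h : G.Ok) (hm : G.Mono e Y c) {y : Zg n M} (hy : y ∈ Y) {i : Sx n}
    {s : Fin (M + 1)} (hs : y i ≠ s) : c y (sig (G.pr i s)) = 0 :=
  hm.sig_off h hy (h.gp _ _) (h.cop _ _) fun j k => by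
    obtain ⟨rfl, rfl⟩ := h.inj _ _ _ _ k
    exact hs rfl

theorem Mono.sig_pr (h : G.Ok) (hm : G.Mono e Y c) (i : Sx n) (s : Fin (M + 1)) :
    ∃ P : C.A, 2 ^ (n + 1) • P = 0 ∧
      ∀ y ∈ Y, c y (sig (G.pr i s)) = if y i = s then P else 0 := by
  by_cases hY : Y.Nonempty
  · obtain ⟨y0, h0⟩ := hY
    refine ⟨_, (hm.lf y0 h0).1.tors (sig (G.pr i (y0 i))), fun y hy => ?_⟩
    split_ifs with k
    · rw [← k, hm.ram y hy y0 h0]
    · exact hm.sig_ne h hy k
  · exact ⟨0, smul_zero _, fun y hy => (hY ⟨y, hy⟩).elim⟩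

theorem Mono.unr (h : G.Ok) (hm : G.Mono e Y c) {k : ℕ}
    {T : Finset (Sx n)} (hT : T.card = k + 1) (hc : ic ∉ T) {w : Zg n M → ℤ} (hw : Lam Y T w)
    {p : ℕ} (hp : C.Gp p) (hD : ¬ (p : ℤ) ∣ G.Df) :
    Sg c (k + 1) w (sig p) = G.ph T w (sig p) := by
  have hoff : (∀ t, p ≠ G.pr ia t) → G.ph T w (sig p) = 0 := fun hp' =>
    ph_zero h hw fun s s' => h.kit.unr s s' p hp hp'
  rw [Sg_apply]
  by_cases hq : ∃ i s, p = G.pr i s
  swap
  · rw [hoff fun t k => hq ⟨_, t, k⟩]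
    exact sum_zero hw.1 fun y hy => by
      rw [hm.sig_off h hy hp hD fun i k => hq ⟨_, _, k⟩, smul_zero]
  obtain ⟨i, s, rfl⟩ := hq
  by_cases h1 : ∃ i' ∈ T, i' ≠ i
  · obtain ⟨i', hi', hne⟩ := h1
    obtain ⟨P, hP, h3⟩ := hm.sig_pr h i s
    rw [sum_supp hw.1 (u := fun y => 2 ^ (n + 1 - (k + 1)) • if y i = s then P else 0)
      fun y hy => by rw [h3 y hy], (hw.2 i' hi').sum (fun y t => by rw [update_of_ne hne.symm])
      fun y => by split_ifs <;> simp [smul_comm (2 ^ (n + 1)), hP]]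
    by_cases hi : i = ia
    · by_cases ha : ia ∈ T
      · rw [ph_pos ha, sum_eq_zero fun y _ => ?_]
        rcases i' with j | _ | _
        · rw [Cv.Phi, sum_eq_zero fun γ _ => ?_, smul_zero]
          rw [hi, h.kit.ram]
          split_ifs with h4
          · rw [h4.2, prod_eq_zero (i := j) (by simpa using hi') (mu_zero _ _), ZMod.val_zero,
              zero_smul]
          · exact smul_zero _
        · exact (hc hi').elim
        · exact (hne hi.symm).elim
      · rw [ph_neg ha]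
    · rw [hoff fun t k => hi (h.inj _ _ _ _ k).1]
  · have h3 : T ⊆ {i} := fun j hj => mem_singleton.2 (by_contra fun k => h1 ⟨j, hj, k⟩)
    have h4 := card_le_card h3
    rw [card_singleton] at h4
    obtain rfl : k = 0 := by omega
    obtain rfl : T = {i} := eq_of_subset_of_card_le h3 (by rw [card_singleton, hT])
    rw [sum_supp hw.1 (u := fun y => if y i = s then G.a y (sig (G.pr i (y i))) else 0)
      fun y hy => ?_]
    · rcases i with j | _ | _
      · simp [h.a0, ph]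
      · exact (hc (mem_singleton_self _)).elim
      · rw [ph_pos (mem_singleton_self _)]
        refine sum_congr rfl fun y _ => ?_
        rw [h.a1]
        by_cases h5 : y ia = s <;> simp [Cv.Phi, h.kit.ram, h5, ZMod.val_one]
    · split_ifs with h5
      · rw [← h5, ← (hm.lf y hy).2.1]
        rfl
      · rw [hm.sig_ne h hy h5, smul_zero]

theorem Mono.loc (h : G.Ok) (hm : G.Mono e Y c) (x : Zg n M) (k : ℕ) {w : Zg n M → ℤ}
    (hw : ∀ y, w y ≠ 0 → y ∈ Y) {v : ℕ} (hv : C.FP G.Df v) (hJ : v ∉ (G.J : Set ℕ)) :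
    C.Loc v (G.D x) (Sg c k w) := by
  refine Cv.loc_sum _ _ _ fun y _ hy => ?_
  rw [← natCast_zsmul]
  exact (((hm.lf y (hw y hy)).1.loc v ((h.fp_D y).2 (.inl hv)) hJ).congr (h.chi_fix x y hv)
    fun _ _ => rfl).zsmul _

theorem Mono.as (h : G.Ok) (hm : G.Mono e Y c) {k : ℕ} (hk : k ≤ n + 1) : AS G Y c k := by
  induction k using Nat.strong_induction_on with
  | _ k ih =>
  intro T hT hc w hw g
  rcases k with _ | k
  · rw [card_eq_zero.1 hT, hm.Sg_zero hw.1, ph_neg (notMem_empty _), Pi.zero_apply]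
  have hz := hm.hom h hk (fun j hj => ih j (by omega) (by omega)) hT hc hw
  obtain ⟨i, hi⟩ : T.Nonempty := card_pos.1 (by omega)
  have ht : ∀ g ∈ G.tests, Sg c (k + 1) w g - G.ph T w g = 0 := fun g hg => by
    rw [Sg_apply, sum_mono hw.1 (hw.2 i hi) (fun y hy y' hy' => by rw [hm.val y hy y' hy' g hg])
      fun y hy => hm.tors hy _ _]
    by_cases ha : ia ∈ T
    · rw [ph_pos ha, sum_mono hw.1 (hw.2 i hi) (fun y hy y' hy' => hm.phi y hy y' hy' g hg _)
        fun _ _ => pow_two (h.kit.two_Phi _ _ _) _, sub_zero]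
    · rw [ph_neg ha, sub_zero]
  have h0 := h.det 0 _ (Cv.isZ_one ⟨hz, ht _ (mem_insert_self _ _), fun p hp hD => ?_⟩
    (fun v hv _ => ?_) fun _ hv => hv.elim) fun q hq =>
      ht _ (mem_insert_of_mem (mem_union_right _ (mem_image_of_mem _ hq)))
  · exact sub_eq_zero.1 (congrFun h0 g)
  · exact sub_eq_zero.2 (hm.unr h hT hc hw hp fun k => hD ((h.dvd_D hp.1 0).2 (Or.inl k)))
  · by_cases hq : v ∈ G.J ∪ univ.image fun i => G.pr i 0
    · have h1 : C.Gp v := by
        rcases mem_union.1 hq with h1 | h1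
        · exact (h.hJ v h1).1
        · obtain ⟨j, -, rfl⟩ := mem_image.1 h1
          exact h.gp _ _
      exact (C.loc_zero v _).congr (fun _ _ => rfl) ((hz.mono le_top).dec h1
        (ht _ (mem_insert_of_mem (mem_union_left _ (mem_union_left _ (mem_image_of_mem _ hq)))))
        (ht _ (mem_insert_of_mem (mem_union_left _ (mem_union_right _ (mem_image_of_mem _ hq))))))
    · have h1 : C.FP G.Df v := ((h.fp_D 0).1 hv).resolve_right fun ⟨j, hj⟩ =>
        hq (mem_union_right _ (mem_image.2 ⟨j, mem_univ _, hj.symm⟩))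
      refine (hm.loc h 0 (k + 1) hw.1 h1 fun k => hq (mem_union_left _ k)).congr
        (fun _ _ => rfl) fun g hg => ?_
      rw [ph_zero h hw fun s s' => h.kit.fix s s' v h1 g hg, sub_zero]

end Gd

end Pool.Agent.B6.S
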