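import Pool.Agent.Lib.MP_696deb_nt.B6.SG2

/-! The grid lemma. -/

set_option autoImplicit false

open scoped Classical
open Finset Function

namespace Pool.Agent.B6.S

open Pool.Agent.Lib.MP_696deb_nt Pool.Agent.Lib.MP_696deb_nt.Sm
open Pool.Agent.Lib.MP_696deb_nt.Sm.Gd (Lam sum_supp sum_zero sum_mono sum_cl sn_sum pow_F2 lam_of_cl card_Sx off
  lam_off card_erase)

namespace Gd

variable {C : Cv} {n M : ℕ} {G : Gd C n M} {e : ℕ → C.A} {Y : Set (Zg n M)}
  {c : Zg n M → GQ → C.A} {b : Zg n M → ℤ} {x : Zg n M}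

theorem Mono.defect (h : G.Ok) (hm : G.Mono e Y c) (hb : ∀ y, b y ≠ 0 → y ∈ Y)
    (hx : Cl (2 ^ (n + 1)) b x) (i : Sx n) : (∀ g, 2 • Sg c (n + 1) (off b x i) g = 0) ∧
      Sg c (n + 1) (off b x i) (sig (G.pr i (x i))) = 0 ∧
      C.Loc (G.pr i (x i)) (G.D x) (Sg c (n + 1) b - Sg c (n + 1) (off b x i)) := by
  refine ⟨fun g => ?_, ?_, ?_⟩
  · have h3 := Sg_pow c n.le_succ le_rfl (off b x i) g
    rw [hm.bs h n.le_succ (hm.as h n.le_succ) (card_erase i) (lam_off hb hx i) le_rfl,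
      Nat.succ_sub le_rfl, Nat.sub_self] at h3
    exact h3.symm
  · rw [Sg_apply]
    refine sum_zero (Y := {y | y ∈ Y ∧ y i ≠ x i}) (fun y hy => ⟨hb y (left_ne_zero_of_mul hy),
      fun k => hy (by simp [k])⟩) fun y hy => ?_
    rw [hm.sig_ne h hy.1 hy.2, smul_zero]
  · rw [Sg, Sg, ← sum_sub_distrib]
    simp only [← sub_smul]
    refine Cv.loc_sum _ _ _ fun y _ hy => ?_
    have h1 : y i = x i := by_contra fun k => hy (by simp [off, k])
    have h2 : y ∈ Y := hb y fun k => hy (by simp [off, k])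
    rw [Nat.sub_self, pow_zero, one_smul]
    exact ((hm.lf y h2).1.loc _ ((h.fp_D y).2 (.inr ⟨i, by rw [h1]⟩)) (h.notJ _ _)).congr
      (h.chi_cross h1) fun _ _ => rfl

theorem Mono.closure (h : G.Ok) (hm : G.Mono e Y c) (hb : ∀ y, b y ≠ 0 → y ∈ Y)
    (hx : Cl (2 ^ (n + 1)) b x) : G.Lf e (G.J2 x) x (Sg c (n + 1) b) := by
  have hS : ∀ g, Sg c (n + 1) b g = ∑ y, b y • c y g := fun g => by
    simp only [Sg_apply, Nat.sub_self, pow_zero, one_smul]
  refine ⟨⟨fun g => ?_, fun g g' => ?_, hm.lc _ hb, fun v hv hJ => ?_, fun v hv => ?_,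
    fun p hp hD => ?_, hm.Sg_g0 _ hb⟩, funext fun g => ?_, fun q hq => ?_⟩
  · have h1 := Sg_pow c (n + 1).zero_le le_rfl b g
    rw [hm.Sg_zero hb] at h1
    exact h1.symm
  · rw [hm.twist h x le_rfl hb, sum_eq_single ∅ (fun R _ hR => ?_) fun k => (k (mem_univ _)).elim]
    · simp
    obtain ⟨i, hi⟩ := nonempty_iff_ne_empty.2 hR
    have h0 : 0 < R.card := card_pos.2 ⟨i, hi⟩
    have h1 : Lam Y (univ \ R) fun y => b y * ∏ j ∈ R, G.cb x y g j :=
      lam_of_cl hb hx (prod_eq_zero hi (by simp [cb, chi_sq])) fun j hj y s =>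
        cb_update x y g (mem_sdiff.1 hj).2 s
    rcases le_or_gt R.card (n + 1) with h2 | h2
    · rw [hm.bs h (Nat.sub_le _ _) (hm.as h (Nat.sub_le _ _)) (by
        rw [card_sdiff_of_subset (subset_univ _), card_Sx]; omega) h1 le_rfl, C.tw_zero, smul_zero]
    · rw [show n + 1 - R.card = 0 by omega, hm.Sg_zero h1.1, Pi.zero_apply, C.tw_zero, smul_zero]
  · exact hm.loc h x _ hb (((h.fp_D x).1 hv).resolve_right
      fun ⟨j, hj⟩ => hJ (Or.inr ⟨j, hj.symm⟩)) fun k => hJ (Or.inl k)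
  · rcases hv with hv | ⟨i, rfl⟩
    · refine Cv.locRel_sum _ _ _ fun y _ hy => ?_
      rw [Nat.sub_self, pow_zero, one_smul]
      exact ((hm.lf y (hb y hy)).1.rel v hv).congr (h.chi_fix x y ⟨(h.hJ v hv).1.1,
        .inr (h.hJ v hv).2⟩) fun _ _ => rfl
    · exact ⟨_, hm.defect h hb hx i⟩
  · rw [hS]
    by_cases hq : ∃ i s, p = G.pr i s
    · obtain ⟨i, s, rfl⟩ := hq
      obtain ⟨P, hP, h3⟩ := hm.sig_pr h i s
      obtain ⟨j, hj⟩ : ∃ j, j ≠ i := by
        by_cases k : ia = i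
        · exact ⟨ic, by simp [← k]⟩
        · exact ⟨ia, k⟩
      rw [sum_supp hb h3, sum_cl (hx j) (fun y t => by rw [update_of_ne hj.symm])
        fun y => by split_ifs <;> simp [hP], if_neg]
      exact fun k => hD ((h.dvd_D hp.1 x).2 (Or.inr ⟨i, by rw [k]⟩))
    · exact sum_zero hb fun y hy => hm.sig_off h hy hp (fun k => hD ((h.dvd_D hp.1 x).2 (Or.inl k)))
        fun i k => hq ⟨_, _, k⟩
  · rw [Pi.smul_apply, hS, smul_sum]
    simp only [smul_comm (2 ^ n)]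
    rw [sum_supp hb (v := fun y => 2 ^ n • c y g) (u := fun y => G.a y g) fun y hy =>
      congrFun (hm.lf y hy).2.1 g]
    exact sum_cl (hx (Sum.inl ⟨0, h.pos⟩)) (fun y s => by rw [h.aU]) fun y => pow_two (h.a2 _ _) _
  · obtain ⟨y0, h0⟩ : ∃ y, b y ≠ 0 := by
      by_contra k
      have h1 := sum_cl (hx ia) (u := fun _ => (1 : F2)) (fun _ _ => rfl) fun _ => pow_F2 _ _
      rw [sum_eq_zero fun y _ => by rw [not_not.1 fun k' => k ⟨y, k'⟩, zero_smul]] at h1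
      exact zero_ne_one h1
    rw [hS, smul_sum]
    simp only [smul_comm 2]
    rw [sum_supp hb (u := fun _ => e q) fun y hy => (hm.lf y hy).2.2 q hq]
    refine sum_cl (hx ia) (u := fun _ => e q) (fun _ _ => rfl) fun _ => ?_
    rw [← (hm.lf y0 (hb y0 h0)).2.2 q hq, smul_comm, (hm.lf y0 (hb y0 h0)).1.tors, smul_zero]

theorem Mono.agree (h : G.Ok) (hm : G.Mono e Y c) (hb : ∀ y, b y ≠ 0 → y ∈ Y)
    (hx : Cl (2 ^ (n + 1)) b x) {c0 : GQ → C.A} (h0 : G.Lf e G.J x c0) :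
    Agree (C.label G.pr G.f) b x := by
  obtain ⟨z1, -, z3⟩ := hm.closure h hb hx
  have z := z1.sub (h0.1.mono Set.subset_union_left fun v hv =>
    ⟨(h.J2 x v hv).1.1, .inr (h.J2 x v hv).2⟩)
  have h2 := congrFun (Cv.detect (T := sig '' (G.Jev : Set ℕ))
    (fun c hc k => h.det x c hc fun q hq => k _ ⟨q, hq, rfl⟩) z.two (by
      rintro _ ⟨q, hq, rfl⟩
      rw [Pi.smul_apply, Pi.sub_apply, smul_sub, z3 q hq, h0.2.2 q hq, sub_self]))
  obtain ⟨u1, u2, u3⟩ := hm.defect h hb hx ic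
  have hr : insert (G.pr ic (x ic)) (G.J2 x) = G.J2 x := Set.insert_eq_of_mem (Or.inr ⟨ic, rfl⟩)
  have hl := lam_off hb hx ic
  have h3 := Cv.recipZ (J := G.J2 x) (r := G.pr ic (x ic)) (h.D_ne x) (by rw [hr]; exact h.J2 x)
    (by rw [hr]; exact z.level fun g => by rw [pow_one]; exact h2 g) (h.hb x) (h.hbJ x) u1 u2
    (by
      have h4 := u3.add ((h0.1.loc _ ((h.fp_D x).2 (.inr ⟨ic, rfl⟩)) (h.notJ _ _)).zsmul (-1))
      rwa [neg_one_zsmul, ← sub_eq_add_neg, sub_right_comm] at h4)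
  have h6 : ({j | Sum.inl j ∈ (univ.erase ic : Finset (Sx n))} : Finset (Fin n)) = univ := by
    ext j
    simp
  rw [h.pair, hm.as h le_rfl _ (card_erase ic) (notMem_erase _ _) _ hl, ph_pos (by simp), h6,
    C.ep_sum_left _ (fun y _ => by rw [smul_comm, h.kit.two_Phi, smul_zero]) (C.two_T _)] at h3
  simp only [fun k y => C.ep_zsmul_left k (h.kit.two_Phi univ y (frb (G.pr ic (x ic))))
    (C.two_T (C.tp (G.pr ic (x ic))))] at h3
  have h5 := sum_cl (hx ic) (u := fun y => C.sy (C.Phi G.f univ y) (G.pr ic (x ic)))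
    (fun y s => by simp only [Cv.sy, Phi_ic]) fun _ => pow_F2 _ _
  rw [Agree, Cv.label, ← h5, ← sub_zero (∑ y, b y • _), ← h3, ← sum_sub_distrib, sum_filter]
  refine sum_congr rfl fun y _ => ?_
  by_cases k : y ic = x ic <;> simp [off, Cv.label, Cv.sy, k]

end Gd

theorem grid_main (C : Cv) (n m : ℕ) : ∃ N : ℕ, ∀ (M : ℕ) (G : Gd C n M) (e : ℕ → C.A) (ε : ℝ),
    G.Ok → G.J.card ≤ m → G.Jev.card ≤ m → Good (n + 1) N ε (C.label G.pr G.f) →
    (({y | ∃ c, G.Lf e G.J y c} : Finset (Zg n M)).card : ℝ) ≤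
      ({y | ∃ c, G.Lf e (G.J2 y) y c} : Finset (Zg n M)).card / 2 + N * ε * (M + 1) ^ (n + 2) := by
  let B := {P : C.A | 2 ^ (n + 1) • P = 0}
  have : Finite B := C.finite_tors (n + 1)
  let K := (Fin (3 * m + 2 * (n + 2) + 1) → B × (Finset (Fin n) → B)) × (Sx n → B)
  refine ⟨Nat.card K, fun M G e ε h hJ hev hg => ?_⟩
  have h1 : ∀ y, ∃ c : GQ → C.A, (∀ g, c g ∈ B) ∧
      ((∃ c, G.Lf e G.J y c) → G.Lf e G.J y c) := fun y => by
    by_cases k : ∃ c, G.Lf e G.J y c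
    · exact ⟨_, k.choose_spec.1.tors, fun _ => k.choose_spec⟩
    · exact ⟨0, fun _ => smul_zero _, fun k' => (k k').elim⟩
  choose c hB hc using h1
  have h2 : G.tests.card ≤ 3 * m + 2 * (n + 2) + 1 := by
    have a1 : (G.J ∪ univ.image fun i => G.pr i 0).card ≤ m + (n + 2) :=
      (card_union_le _ _).trans (add_le_add hJ (card_image_le.trans card_Sx.le))
    have a2 := (card_union_le _ _).trans (add_le_add ((card_union_le _ _).trans (add_le_add
      ((card_image_le (f := sig)).trans a1) ((card_image_le (f := frb)).trans a1)))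
      ((card_image_le (f := sig)).trans hev))
    refine (card_insert_le _ _).trans ?_
    omega
  let τ : Fin (3 * m + 2 * (n + 2) + 1) → GQ := fun k => G.tests.toList.getD k 1
  have h3 : ∀ g ∈ G.tests, ∃ k, τ k = g := fun g hg => by
    obtain ⟨k, hk, rfl⟩ := List.getElem_of_mem (mem_toList.2 hg)
    exact ⟨⟨k, by rw [length_toList] at hk; omega⟩, List.getD_eq_getElem _ _ hk⟩
  let col : Zg n M → K := fun y => (fun k => (⟨c y (τ k), hB _ _⟩,
    fun T => ⟨C.Phi G.f T y (τ k), Gd.pow_two (h.kit.two_Phi _ _ _) _⟩),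
    fun i => ⟨c y (sig (G.pr i (y i))), hB _ _⟩)
  refine half_of_good hg _ _ (fun y => Finite.equivFin K (col y)) fun k b x hb hx => ?_
  have h4 : ∀ y y', Finite.equivFin K (col y) = k → Finite.equivFin K (col y') = k →
      col y = col y' := fun y y' a1 a2 => (Finite.equivFin K).injective (a1.trans a2.symm)
  have hm : G.Mono e {y | (∃ c, G.Lf e G.J y c) ∧ Finite.equivFin K (col y) = k} c := by
    refine ⟨fun y hy => hc y hy.1, fun y hy y' hy' g hg => ?_, fun y hy y' hy' g hg T => ?_,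
      fun y hy y' hy' i => ?_⟩
    · obtain ⟨j, rfl⟩ := h3 g hg
      exact congrArg (fun t : K => (t.1 j).1.1) (h4 y y' hy.2 hy'.2)
    · obtain ⟨j, rfl⟩ := h3 g hg
      exact congrArg (fun t : K => ((t.1 j).2 T).1) (h4 y y' hy.2 hy'.2)
    · exact congrArg (fun t : K => (t.2 i).1) (h4 y y' hy.2 hy'.2)
  have hb' : ∀ y, b y ≠ 0 → y ∈ {y | (∃ c, G.Lf e G.J y c) ∧ Finite.equivFin K (col y) = k} :=
    fun y hy => ⟨(mem_filter.1 (hb y hy).1).2, (hb y hy).2⟩
  exact ⟨mem_filter.2 ⟨mem_univ _, _, hm.closure h hb' hx⟩, fun h5 =>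
    hm.agree h hb' hx (mem_filter.1 h5).2.choose_spec⟩

end Pool.Agent.B6.S
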