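import Pool.Agent.Lib.MP_696deb_nt.B6.SA0
import Pool.Agent.Lib.MP_696deb_nt.Sa.GenA
import Pool.Agent.Lib.MP_696deb_nt.Sa.GenB

/-! Counting lemmas over the field with two elements. -/

set_option autoImplicit false

open scoped Classical
open Finset Function

namespace Pool.Agent.B6.S

open Pool.Agent.Lib.MP_696deb_nt Pool.Agent.Lib.MP_696deb_nt.Sm

/-- The vectors orthogonal to a subgroup that embeds into the coordinates outside `I`. -/
theorem orth_count {ι N : Type} [Fintype ι] [AddCommGroup N] (S : Finset N)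
    (hS : ∀ u ∈ S, ∀ v ∈ S, u + v ∈ S) (h0 : 0 ∈ S) (ν : N → ι → F2)
    (hν : ∀ u v, ν (u + v) = ν u + ν v) (I : Finset ι)
    (h1 : ∀ u ∈ S, u ≠ 0 → ∃ j, j ∉ I ∧ ν u j = 1) (w : ι → F2) :
    S.card * ({π : ι → F2 | (∀ j ∈ I, π j = w j) ∧ ∀ u ∈ S, ∑ j, π j * ν u j = 0} :
      Finset _).card ≤ 2 ^ (Fintype.card ι - I.card) := by
  obtain ⟨T, hT⟩ : ∃ T : Finset (ι → F2),
    T = Fintype.piFinset fun j => if j ∈ I then {w j} else univ := ⟨_, rfl⟩
  have t1 : T.card = 2 ^ (Fintype.card ι - I.card) := by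
    rw [hT, Fintype.card_piFinset, ← card_compl, ← prod_const, ← prod_filter_mul_prod_filter_not
      univ (· ∈ I), prod_eq_one fun j hj => by rw [if_pos (mem_filter.1 hj).2, card_singleton],
      one_mul]
    refine prod_congr (by ext j; simp) fun j hj => ?_
    rw [if_neg (mem_compl.1 hj), card_univ, ZMod.card]
  have t2 : ∀ π : ι → F2, (if ∀ u ∈ S, ∑ j, π j * ν u j = 0 then (S.card : ℝ) else 0) =
      ∑ u ∈ S, sg (∑ j, π j * ν u j) := fun π => by
    split_ifs with h
    · rw [sum_congr rfl fun u hu => by rw [h u hu, sg_zero], sum_const, nsmul_one]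
    · push Not at h
      obtain ⟨v, hv, h⟩ := h
      have e1 : S.image (· + v) = S := eq_of_subset_of_card_le
        (image_subset_iff.2 fun u hu => hS u hu v hv)
        (card_image_of_injective _ (add_left_injective v)).ge
      have e2 : ∑ u ∈ S.image (· + v), sg (∑ j, π j * ν u j) =
          ∑ u ∈ S, -sg (∑ j, π j * ν u j) := by
        rw [sum_image fun _ _ _ _ e => add_left_injective v e]
        refine sum_congr rfl fun u _ => ?_
        simp only [hν, Pi.add_apply, mul_add, sum_add_distrib, sg_add]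
        rw [(F2_cases _).resolve_left h, sg_one, mul_neg_one]
      rw [e1, sum_neg_distrib] at e2
      linarith
  have t3 : ∀ u ∈ S, ∑ π ∈ T, sg (∑ j, π j * ν u j) = if u = 0 then (T.card : ℝ) else 0 :=
    fun u hu => by
      split_ifs with h
      · have e : ν 0 = 0 := by simpa using hν 0 0
        simp [h, e, sg_zero]
      · obtain ⟨j, j1, j2⟩ := h1 u hu h
        simp only [sg_sum]
        rw [hT, ← prod_univ_sum _ fun j t => sg (t * ν u j)]
        refine prod_eq_zero (mem_univ j) ?_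
        rw [if_neg j1, show (univ : Finset F2) = {0, 1} by decide, sum_pair (by decide), j2]
        simp [sg_zero, sg_one]
  have t4 := sum_congr rfl fun π (_ : π ∈ T) => t2 π
  rw [sum_comm, sum_congr rfl t3, sum_ite_eq' S 0, if_pos h0, ← sum_filter, sum_const,
    nsmul_eq_mul] at t4
  rw [← t1, mul_comm]
  refine le_trans (Nat.mul_le_mul_right _ (card_le_card fun π hπ => ?_))
    (le_of_eq (by exact_mod_cast t4))
  obtain ⟨-, a1, a2⟩ := mem_filter.1 hπ
  refine mem_filter.2 ⟨hT ▸ Fintype.mem_piFinset.2 fun j => ?_, a2⟩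
  split_ifs with k
  · exact mem_singleton.2 (a1 j k)
  · exact mem_univ _

/-- The action of random symmetric matrices with zero diagonal on a nonzero vector. -/
theorem sym_count {ι : Type} [Fintype ι] [LinearOrder ι] {π : ι → F2} (h : π ≠ 0) (b : ι → F2) :
    (({a : Sa.Up ι → F2 | ∀ j, ∑ i, π i * Sa.symm a i j = b j} : Finset _).card : ℝ) ≤
      2 * (1 / 2) ^ Fintype.card ι * Fintype.card (Sa.Up ι → F2) := by
  have e1 : (({a : Sa.Up ι → F2 | ∀ j, ∑ i, π i * Sa.symm a i j = b j} : Finset _).card : ℝ) *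
      2 ^ Fintype.card ι = ∑ a : Sa.Up ι → F2, ∑ l : ι → F2,
        sg (∑ j, l j * (∑ i, π i * Sa.symm a i j + b j)) := by
    simp only [Sa.genA_four, Fintype.card_fun, ZMod.card]
    rw [← sum_filter, sum_const, nsmul_eq_mul, Nat.cast_pow, Nat.cast_ofNat]
    congr 3
    ext a
    simp only [funext_iff, Pi.zero_apply, CharTwo.add_eq_zero]
  have e2 : ∀ (a : Sa.Up ι → F2) (l : ι → F2), ∑ j, l j * ∑ i, π i * Sa.symm a i j =
      ∑ e : Sa.Up ι, a e * (l e.1.2 * π e.1.1 + l e.1.1 * π e.1.2) := fun a l => by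
    simp only [mul_sum, ← mul_assoc]
    exact Sa.genA_sum a fun i j => l j * π i
  have e3 : ∀ l : ι → F2, ∑ a : Sa.Up ι → F2,
      sg (∑ j, l j * (∑ i, π i * Sa.symm a i j + b j)) ≤ if ∀ e : Sa.Up ι,
        l e.1.2 * π e.1.1 + l e.1.1 * π e.1.2 = 0 then
          (Fintype.card (Sa.Up ι → F2) : ℝ) else 0 := fun l => by
    simp only [mul_add (l _), sum_add_distrib, sg_add, e2, ← sum_mul, Sa.genA_four, funext_iff,
      Pi.zero_apply]
    refine mul_le_of_le_one_right (by positivity) ((le_abs_self _).trans (abs_sg _).le)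
  have e4 := sum_le_sum fun l (_ : l ∈ univ) => e3 l
  rw [sum_comm, ← e1, ← sum_filter, sum_const, nsmul_eq_mul] at e4
  have e5 : (univ.filter fun l : ι → F2 => ∀ e : Sa.Up ι,
      l e.1.2 * π e.1.1 + l e.1.1 * π e.1.2 = 0).card ≤ 2 := by
    refine (card_le_card fun l hl => ?_).trans (card_le_two (a := 0) (b := π))
    obtain ⟨o, ho⟩ := Function.ne_iff.1 h
    have h1 : π o = 1 := (F2_cases _).resolve_left ho
    have h2 : ∀ i, l i = l o * π i := fun i => by
      rcases lt_trichotomy i o with k | rfl | k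
      · have := (mem_filter.1 hl).2 ⟨(i, o), k⟩
        rw [h1, mul_one, CharTwo.add_eq_zero] at this
        exact this.symm
      · rw [h1, mul_one]
      · have := (mem_filter.1 hl).2 ⟨(o, i), k⟩
        rwa [h1, mul_one, CharTwo.add_eq_zero] at this
    rw [mem_insert, mem_singleton]
    refine (F2_cases (l o)).imp (fun k => funext fun i => ?_) fun k => funext fun i => ?_
    · rw [h2 i, k, zero_mul, Pi.zero_apply]
    · rw [h2 i, k, one_mul]
  have e6 := mul_le_mul_of_nonneg_right (Nat.cast_le (α := ℝ).2 e5)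
    (Nat.cast_nonneg (Fintype.card (Sa.Up ι → F2)))
  rw [one_div_pow, mul_one_div, div_mul_eq_mul_div, le_div_iff₀ (by positivity)]
  exact e4.trans (by exact_mod_cast e6)

/-- Few sign patterns are unbalanced. -/
theorem unbal_count (K : ℕ) {ε : ℝ} (hε : 0 < ε) : ∃ c : ℕ, ∀ {ι : Type} [Fintype ι]
    (I : Finset ι), c ≤ I.card →
    (({w : ι → F2 | (∀ j, j ∉ I → w j = 0) ∧ ¬ 2 * K * |∑ j ∈ I, sn (w j)| ≤ I.card} :
      Finset _).card : ℝ) ≤ ε * 2 ^ I.card := by
  have ht : (0 : ℝ) < 1 / (2 * K + 1) := by positivity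
  have h1 : Filter.Tendsto (fun n : ℕ => 2 * Real.exp (-((1 / (2 * K + 1) : ℝ) ^ 2 * n / 2)))
      Filter.atTop (nhds (2 * 0)) :=
    (Real.tendsto_exp_neg_atTop_nhds_zero.comp
      ((tendsto_natCast_atTop_atTop.const_mul_atTop (by positivity)).atTop_div_const
        two_pos)).const_mul 2
  rw [mul_zero] at h1
  obtain ⟨c, hc⟩ := Filter.eventually_atTop.1 (h1.eventually (ge_mem_nhds hε))
  refine ⟨c, fun {ι} _ I hI => ?_⟩
  let _ : LinearOrder I := LinearOrder.lift' (Fintype.equivFin I) (Fintype.equivFin I).injective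
  have h2 := Sa.hoeff (univ : Finset I) ht.le
  rw [card_univ, Fintype.card_coe] at h2
  refine le_trans (Nat.cast_le.2 ?_) (h2.trans (mul_le_mul_of_nonneg_right (hc _ hI)
    (by positivity)))
  refine card_le_card_of_injOn (fun w j => w j) (fun w hw => ?_) fun w hw w' hw' e => ?_
  · have a := (mem_filter.1 (mem_coe.1 hw)).2.2
    refine mem_coe.2 (mem_filter.2 ⟨by simp, ?_⟩)
    have e : ∀ b, sg b = (sn b : ℝ) := fun b => by
      rcases F2_cases b with rfl | rfl <;> simp [sg_zero, sg_one, sn_zero, sn_one]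
    have a' : (I.card : ℝ) < 2 * K * |∑ j ∈ I, (sn (w j) : ℝ)| := by exact_mod_cast not_le.1 a
    simp only [e]
    rw [sum_coe_sort I fun j => (sn (w j) : ℝ), one_div, inv_mul_lt_iff₀ (by positivity)]
    linarith [abs_nonneg (∑ j ∈ I, (sn (w j) : ℝ))]
  · funext j
    by_cases k : j ∈ I
    · exact congrFun e ⟨j, k⟩
    · rw [(mem_filter.1 (mem_coe.1 hw)).2.1 j k, (mem_filter.1 (mem_coe.1 hw')).2.1 j k]

end Pool.Agent.B6.S
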