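import Pool.Agent.Lib.MP_696deb_nt.B6.SX1
import Pool.Agent.Lib.MP_696deb_nt.B6.SGa

/-! Most matrices are generic. -/

set_option autoImplicit false

open scoped Classical
open Finset Function

namespace Pool.Agent.B6.S

open Pool.Agent.Lib.MP_696deb_nt Pool.Agent.Lib.MP_696deb_nt.Sm

namespace Box

variable {C : Cv} {B : Box C}

theorem Hyp.card_SL {c : ℕ} (h : B.Hyp c) {I : Finset (Fin B.r)} (hI : I = ∅ ∨ ∃ k, I = B.I k)
    (w : Fin B.r → F2) :
    ({P ∈ B.SL | ∀ j ∈ I, P.2 j = w j} : Finset _).card ≤ 2 ^ (B.r - I.card) := by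
  set S : Finset (C.U B.D0) := {u | ((u, 0) : B.PP) ∈ B.SL} with hS
  have mS : ∀ u, u ∈ S ↔ ((u, 0) : B.PP) ∈ B.SL := fun u => by simp [hS]
  have key := orth_count S (fun u hu v hv => (mS _).2 (by
      simpa using add_mem_SL ((mS u).1 hu) ((mS v).1 hv))) ((mS 0).2 zero_mem_SL)
    (fun u j => B.nu u j) (fun u v => funext fun j => nu_add u v j) I (fun u _ h0 => by
      obtain ⟨j, h1, h2⟩ := h.b1 u u.2 fun e => h0 (Subtype.ext e)
      refine ⟨j, ?_, h2⟩
      rcases hI with rfl | ⟨k, rfl⟩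
      · exact notMem_empty _
      · exact h1 k) w
  rw [Fintype.card_fin] at key
  refine le_trans ?_ key
  refine card_le_mul_card_image_of_maps_to (f := fun P : B.PP => P.2) (fun P hP => ?_) _
    fun π _ => ?_
  · obtain ⟨h1, h2⟩ := mem_filter.1 hP
    simp only [mem_filter, mem_univ, true_and]
    exact ⟨h2, fun u hu => h.wf.orth ((mS u).1 hu) rfl h1⟩
  · rcases ({P ∈ ({P ∈ B.SL | ∀ j ∈ I, P.2 j = w j} : Finset _) | P.2 = π} :
      Finset _).eq_empty_or_nonempty with e | ⟨P0, h0⟩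
    · exact (congrArg card e).trans_le (Nat.zero_le _)
    have f2 : ∀ P ∈ ({P ∈ ({P ∈ B.SL | ∀ j ∈ I, P.2 j = w j} : Finset _) | P.2 = π} : Finset _),
        P ∈ B.SL ∧ P.2 = π := fun P hP =>
      ⟨(mem_filter.1 (mem_filter.1 hP).1).1, (mem_filter.1 hP).2⟩
    refine card_le_card_of_injOn (fun P => (P + P0).1) (fun P hP => (mS _).2 ?_)
      fun P hP P' hP' e => ?_
    · have e : (P + P0).2 = 0 := by
        rw [Prod.snd_add, (f2 P hP).2.trans (f2 P0 h0).2.symm]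
        exact congrArg Prod.snd (PP_add_self P0)
      rw [← e]
      exact add_mem_SL (f2 P hP).1 (f2 P0 h0).1
    · exact Prod.ext (add_right_cancel e) ((f2 P hP).2.trans (f2 P' hP').2.symm)

theorem sm_eq (a : B.Mat) (i j : Fin B.r) :
    B.sm a i j = Sa.symm (fun e => a e 1) i j + B.sm 0 i j := by
  rcases lt_trichotomy i j with h | rfl | h
  · simp [sm, Sa.symm, h, h.not_gt]
  · simp [sm, Sa.symm]
  · simp [sm, Sa.symm, h, h.not_gt]

theorem card_lam {P : B.PP} (h : P.2 ≠ 0) :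
    (({a : B.Mat | ∀ j, B.lam a j P = 0} : Finset _).card : ℝ) ≤
      2 * (1 / 2) ^ B.r * Fintype.card B.Mat := by
  have key := sym_count h fun j => - B.lam 0 j P
  rw [Fintype.card_fin] at key
  have e : Fintype.card B.Mat =
      Fintype.card (Sa.Up (Fin B.r) → F2) * Fintype.card (Sa.Up (Fin B.r) → F2) := by
    simp only [Fintype.card_fun, ZMod.card, Fintype.card_fin, ← mul_pow]
    rfl
  have k2 : ({a : B.Mat | ∀ j, B.lam a j P = 0} : Finset _).card ≤
      Fintype.card (Sa.Up (Fin B.r) → F2) * ({a : Sa.Up (Fin B.r) → F2 |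
        ∀ j, ∑ i, P.2 i * Sa.symm a i j = - B.lam 0 j P} : Finset _).card := by
    refine card_le_mul_card_image_of_maps_to (f := fun (a : B.Mat) e => a e 1) (fun a ha => ?_) _
      fun b _ => ?_
    · refine mem_filter.2 ⟨mem_univ _, fun j => eq_neg_of_add_eq_zero_left ?_⟩
      rw [← (mem_filter.1 ha).2 j, lam, lam, add_left_comm, ← sum_add_distrib]
      exact congrArg _ (sum_congr rfl fun i _ => by rw [sm_eq a, mul_add])
    · refine card_le_card_of_injOn (fun a e => a e 0) (fun _ _ => mem_univ _)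
        fun a ha a' ha' e => funext fun ij => funext fun t => ?_
      have e1 := ((mem_filter.1 ha).2.trans (mem_filter.1 ha').2.symm)
      fin_cases t
      · exact congrFun e ij
      · exact congrFun e1 ij
  refine (Nat.cast_le.2 k2).trans ?_
  rw [e, Nat.cast_mul, Nat.cast_mul, ← mul_assoc, mul_comm]
  refine mul_le_mul_of_nonneg_right (le_trans (le_of_eq ?_) key) (Nat.cast_nonneg _)
  congr

/-- The first moment of the number of patterns from a set. -/
theorem sum_lam (T : Finset B.PP) (hT : ∀ P ∈ T, P.2 ≠ 0) {m : ℝ} (hm : T.card ≤ m * 2 ^ B.r) :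
    ∑ a : B.Mat, (({P ∈ T | ∀ j, B.lam a j P = 0} : Finset _).card : ℝ) ≤
      2 * m * Fintype.card B.Mat := by
  have e : ∑ a : B.Mat, (({P ∈ T | ∀ j, B.lam a j P = 0} : Finset _).card : ℝ) =
      ∑ P ∈ T, (({a : B.Mat | ∀ j, B.lam a j P = 0} : Finset _).card : ℝ) := by
    simp only [card_filter, Nat.cast_sum]
    exact sum_comm
  rw [e]
  refine (sum_le_card_nsmul _ _ _ fun P hP => card_lam (hT P hP)).trans ?_
  rw [nsmul_eq_mul]
  refine (mul_le_mul_of_nonneg_right hm (by positivity)).trans_eq ?_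
  rw [one_div, inv_pow]
  field_simp

/-- Few patterns are unbalanced. -/
theorem Hyp.card_unbal {c K : ℕ} (h : B.Hyp c) {ε : ℝ} (k : Fin 3)
    (hu : (({w : Fin B.r → F2 | (∀ j, j ∉ B.I k → w j = 0) ∧
      ¬ 2 * K * |∑ j ∈ B.I k, sn (w j)| ≤ (B.I k).card} : Finset _).card : ℝ) ≤
        ε * 2 ^ (B.I k).card) :
    (({P ∈ B.SL | ¬ 2 * K * |∑ j ∈ B.I k, sn (P.2 j)| ≤ (B.I k).card} : Finset _).card : ℝ) ≤
      ε * 2 ^ B.r := by
  have k1 : ({P ∈ B.SL | ¬ 2 * K * |∑ j ∈ B.I k, sn (P.2 j)| ≤ (B.I k).card} : Finset _).card ≤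
      2 ^ (B.r - (B.I k).card) * ({w : Fin B.r → F2 | (∀ j, j ∉ B.I k → w j = 0) ∧
        ¬ 2 * K * |∑ j ∈ B.I k, sn (w j)| ≤ (B.I k).card} : Finset _).card := by
    refine card_le_mul_card_image_of_maps_to
      (f := fun (P : B.PP) j => if j ∈ B.I k then P.2 j else 0) (fun P hP => ?_) _ fun w _ => ?_
    · refine mem_filter.2 ⟨mem_univ _, fun j hj => if_neg hj, ?_⟩
      rw [sum_congr rfl fun j hj => congrArg sn (if_pos hj)]
      exact (mem_filter.1 hP).2
    · refine le_trans (card_le_card fun P hP => ?_) (h.card_SL (.inr ⟨k, rfl⟩) w)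
      obtain ⟨h1, h2⟩ := mem_filter.1 hP
      exact mem_filter.2 ⟨(mem_filter.1 h1).1, fun j hj => by rw [← h2]; exact (if_pos hj).symm⟩
  have k2 : (B.I k).card ≤ B.r := (card_le_univ _).trans_eq (Fintype.card_fin _)
  refine (Nat.cast_le.2 k1).trans ?_
  rw [Nat.cast_mul, Nat.cast_pow, Nat.cast_ofNat]
  refine (mul_le_mul_of_nonneg_left hu (by positivity)).trans_eq ?_
  rw [mul_left_comm, ← pow_add, Nat.sub_add_cancel k2]

end Box

theorem gen_main (C : Cv) {ε : ℝ} (hε : 0 < ε) : ∃ K c : ℕ, ∀ B : Box C, B.Hyp c →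
    (({a | ¬ B.Generic K a} : Finset B.Mat).card : ℝ) ≤ ε * Fintype.card B.Mat := by
  obtain ⟨K, hK⟩ := exists_nat_ge (4 / ε)
  have K0 : (0 : ℝ) < K := lt_of_lt_of_le (by positivity) hK
  obtain ⟨c, hc⟩ := unbal_count K (ε := ε / 12) (by positivity)
  refine ⟨K, c, fun B h => ?_⟩
  set T1 : Finset B.PP := {P ∈ B.SL | P.2 ≠ 0} with hT1
  set T2 : Finset B.PP :=
    {P ∈ T1 | ∃ k, ¬ 2 * K * |∑ j ∈ B.I k, sn (P.2 j)| ≤ (B.I k).card} with hT2
  have c1 : (T1.card : ℝ) ≤ 1 * 2 ^ B.r := by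
    have := h.card_SL (.inl rfl) 0
    rw [card_empty, Nat.sub_zero] at this
    rw [one_mul]
    exact_mod_cast le_trans (card_le_card fun P hP =>
      mem_filter.2 ⟨(mem_filter.1 hP).1, fun j hj => absurd hj (notMem_empty _)⟩) this
  have c2 : (T2.card : ℝ) ≤ ε / 4 * 2 ^ B.r := by
    have s : T2 ⊆ univ.biUnion fun k => ({P ∈ B.SL |
        ¬ 2 * K * |∑ j ∈ B.I k, sn (P.2 j)| ≤ (B.I k).card} : Finset _) := fun P hP => by
      obtain ⟨h1, k, h2⟩ := mem_filter.1 hP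
      exact mem_biUnion.2 ⟨k, mem_univ _, mem_filter.2 ⟨(mem_filter.1 h1).1, h2⟩⟩
    refine (Nat.cast_le.2 ((card_le_card s).trans card_biUnion_le)).trans ?_
    rw [Nat.cast_sum]
    refine (sum_le_card_nsmul _ _ _ fun k _ =>
      h.card_unbal k (le_of_eq_of_le (congrArg (fun s : Finset _ => (s.card : ℝ)) (by ext; simp))
        (hc (B.I k) (h.hH.trans (h.win k))))).trans_eq ?_
    rw [card_univ, Fintype.card_fin, nsmul_eq_mul]
    push_cast
    ring
  have s1 := Box.sum_lam T1 (fun P hP => (mem_filter.1 hP).2) c1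
  have s2 := Box.sum_lam T2 (fun P hP => (mem_filter.1 (mem_filter.1 hP).1).2) c2
  have m1 : ∀ a, ∀ P ∈ B.SA a, P ≠ 0 → P ∈ T1 ∧ ∀ j, B.lam a j P = 0 := fun a P hP h0 =>
    ⟨mem_filter.2 ⟨(mem_filter.1 hP).1, fun e => h0 (h.eq_zero hP e)⟩, (mem_filter.1 hP).2⟩
  have key : ∀ a, ¬ B.Generic K a → (1 : ℝ) ≤
      (({P ∈ T1 | ∀ j, B.lam a j P = 0} : Finset _).card : ℝ) / K +
        (({P ∈ T2 | ∀ j, B.lam a j P = 0} : Finset _).card : ℝ) := fun a ha => by
    by_cases g1 : (B.SA a).card ≤ K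
    · have : ∃ P ∈ B.SA a, P ≠ 0 ∧
          ∃ k, ¬ 2 * K * |∑ j ∈ B.I k, sn (P.2 j)| ≤ (B.I k).card := by
        by_contra n
        exact ha ⟨g1, fun P hP h0 k => by_contra fun n' => n ⟨P, hP, h0, k, n'⟩⟩
      obtain ⟨P, hP, h0, hk⟩ := this
      refine le_add_of_nonneg_of_le (by positivity) (Nat.one_le_cast.2 (card_pos.2 ⟨P, ?_⟩))
      exact mem_filter.2 ⟨mem_filter.2 ⟨(m1 a P hP h0).1, hk⟩, (m1 a P hP h0).2⟩
    · refine le_add_of_le_of_nonneg ((one_le_div K0).2 (Nat.cast_le.2 ?_)) (Nat.cast_nonneg _)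
      refine le_trans ?_ (card_le_card (s := (B.SA a).erase 0) fun P hP =>
        mem_filter.2 (m1 a P (mem_of_mem_erase hP) (ne_of_mem_erase hP)))
      rw [card_erase_of_mem Box.zero_mem_SA]
      omega
  have k3 : (({a | ¬ B.Generic K a} : Finset B.Mat).card : ℝ) ≤ ∑ a : B.Mat,
      ((({P ∈ T1 | ∀ j, B.lam a j P = 0} : Finset _).card : ℝ) / K +
        (({P ∈ T2 | ∀ j, B.lam a j P = 0} : Finset _).card : ℝ)) := by
    rw [card_filter, Nat.cast_sum]
    refine sum_le_sum fun a _ => ?_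
    split_ifs with g
    · rw [Nat.cast_zero]
      positivity
    · rw [Nat.cast_one]
      exact key a g
  rw [sum_add_distrib, ← sum_div] at k3
  have k4 : 2 * 1 * (Fintype.card B.Mat : ℝ) / K ≤ ε / 2 * Fintype.card B.Mat := by
    rw [div_le_iff₀ K0]
    rw [div_le_iff₀ hε] at hK
    nlinarith [Nat.cast_nonneg (α := ℝ) (Fintype.card B.Mat)]
  have k5 := div_le_div_of_nonneg_right s1 K0.le
  linarith

end Pool.Agent.B6.S
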