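import Pool.Agent.Lib.MP_696deb_nt.B6.SA1
import Pool.Agent.Lib.MP_696deb_nt.Sm.LBil

/-! The cubic ring and its quadratic symbols. -/

set_option autoImplicit false

open scoped Classical NumberTheorySymbols
open Finset Function

namespace Pool.Agent.B6.S

open Pool.Agent.Lib.MP_696deb_nt Pool.Agent.Lib.MP_696deb_nt.Sm

/-- The value at `x` of a polynomial of degree at most two. -/
def ev {R : Type} [CommRing R] (x : R) (m : Fin 3 → ℤ) : R := ∑ k : Fin 3, (m k : R) * x ^ (k : ℕ)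

namespace Cv

variable (C : Cv)

/-- Multiplication by the generator of the cubic ring. -/
def sh (m : Fin 3 → ℤ) : Fin 3 → ℤ := ![-C.c * m 2, m 0 - C.b * m 2, m 1 - C.a * m 2]

/-- The product in the cubic ring. -/
def mu3 (u v : Fin 3 → ℤ) : Fin 3 → ℤ := v 0 • u + v 1 • C.sh u + v 2 • C.sh (C.sh u)

/-- The norm of the cubic ring. -/
def Nm (m : Fin 3 → ℤ) : ℤ := (Matrix.of ![m, C.sh m, C.sh (C.sh m)]).det

/-- The cubic polynomial. -/
def fv {R : Type} [CommRing R] (x : R) : R := x ^ 3 + C.a * x ^ 2 + C.b * x + C.c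

/-- The quadratic symbols of an element of the cubic ring at a prime with a chosen root. -/
noncomputable def th3 (q : ℕ) (ρ : ℤ) (s t : F2) (m : Fin 3 → ℤ) : ℝ :=
  (J(C.Nm m | q) : ℝ) ^ s.val * (J(ev ρ m | q) : ℝ) ^ t.val

theorem ev3 {R : Type} [CommRing R] (x : R) (m : Fin 3 → ℤ) :
    ev x m = m 0 + m 1 * x + m 2 * x ^ 2 := by
  simp [ev, Fin.sum_univ_three]

theorem ev_cast {R : Type} [CommRing R] (x : ℤ) (m : Fin 3 → ℤ) :
    ((ev x m : ℤ) : R) = ev (x : R) m := by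
  simp [ev3]

theorem Nm_eq (m : Fin 3 → ℤ) : C.Nm m = m 0 ^ 3 - C.a * m 0 ^ 2 * m 1 + C.b * m 0 * m 1 ^ 2 -
    C.c * m 1 ^ 3 + (C.a ^ 2 - 2 * C.b) * m 0 ^ 2 * m 2 + (3 * C.c - C.a * C.b) * m 0 * m 1 * m 2 +
    C.a * C.c * m 1 ^ 2 * m 2 + (C.b ^ 2 - 2 * C.a * C.c) * m 0 * m 2 ^ 2 -
    C.b * C.c * m 1 * m 2 ^ 2 + C.c ^ 2 * m 2 ^ 3 := by
  simp only [Nm, sh, Matrix.det_fin_three, Matrix.of_apply, Matrix.cons_val]
  ring

theorem ev_mu3 {R : Type} [CommRing R] {x : R} (h : C.fv x = 0) (u v : Fin 3 → ℤ) :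
    ev x (C.mu3 u v) = ev x u * ev x v := by
  simp only [ev3, mu3, sh, fv, Pi.add_apply, Pi.smul_apply, smul_eq_mul, Matrix.cons_val] at h ⊢
  push_cast
  linear_combination (-(v 1 * u 2 : R) - v 2 * (u 1 - C.a * u 2) - v 2 * u 2 * x) * h

theorem prod_ev (m : Fin 3 → ℤ) : ∏ i, ev (C.e i) m = (C.Nm m : Qb) := by
  simp only [Fin.prod_univ_three, ev3, Nm_eq]
  push_cast
  rw [C.ha, C.hb, C.hc]
  ring

theorem Nm_mu3 (u v : Fin 3 → ℤ) : C.Nm (C.mu3 u v) = C.Nm u * C.Nm v := by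
  have : (C.Nm (C.mu3 u v) : Qb) = C.Nm u * C.Nm v := by
    rw [← prod_ev, ← prod_ev, ← prod_ev, ← prod_mul_distrib]
    exact prod_congr rfl fun i _ => C.ev_mu3 (C.root i) u v
  exact_mod_cast this

theorem Nm_congr {q : ℤ} {u v : Fin 3 → ℤ} (h : ∀ k, u k ≡ v k [ZMOD q]) :
    C.Nm u ≡ C.Nm v [ZMOD q] := by
  simp only [← Int.modEq_natAbs (n := q), ← ZMod.intCast_eq_intCast_iff] at h ⊢
  simp only [Nm_eq]
  push_cast
  rw [h, h, h]

theorem ev_eq_zero {m : Fin 3 → ℤ} {i : Fin 3} (h : ev (C.e i) m = 0) : m = 0 := by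
  have st : ∀ j, ev (C.e j) m = 0 → ev (C.e (j + 1)) m = 0 := fun j k => by
    have := congrArg C.g0 k
    simp only [ev3, map_add, map_mul, map_pow, map_intCast, map_zero, e_pm, pm_g0] at this
    rwa [ev3]
  have h1 := st _ h
  have h2 := st _ h1
  rw [add_assoc, show (1 + 1 : Fin 3) = 2 from rfl] at h2
  have s := C.split i
  have n12 := sub_ne_zero.2 s.h12
  have n13 := sub_ne_zero.2 s.h13
  have n23 := sub_ne_zero.2 s.h23
  rw [ev3] at h h1 h2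
  have e2 : (m 2 : Qb) = 0 := mul_left_cancel₀ (mul_ne_zero (mul_ne_zero n12 n13) n23) (by
    linear_combination (C.e (i + 1) - C.e (i + 2)) * h - (C.e i - C.e (i + 2)) * h1 +
      (C.e i - C.e (i + 1)) * h2)
  have e1 : (m 1 : Qb) = 0 := mul_left_cancel₀ n12 (by
    linear_combination h - h1 - (C.e i ^ 2 - C.e (i + 1) ^ 2) * e2)
  have e0 : (m 0 : Qb) = 0 := by linear_combination h - C.e i * e1 - C.e i ^ 2 * e2
  funext k
  rcases fin3 k with rfl | rfl | rfl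
  exacts [Int.cast_eq_zero.1 e0, Int.cast_eq_zero.1 e1, Int.cast_eq_zero.1 e2]

theorem sh_le {u : Fin 3 → ℤ} {N : ℤ} (h : ∀ k, |u k| ≤ N) (k : Fin 3) :
    |C.sh u k| ≤ (1 + |C.a| + |C.b| + |C.c|) * N := by
  have n : 0 ≤ N := (abs_nonneg _).trans (h 0)
  have t : ∀ x : ℤ, |x * u 2| ≤ |x| * N := fun x => by
    rw [abs_mul]
    exact mul_le_mul_of_nonneg_left (h 2) (abs_nonneg _)
  have pa := mul_nonneg (abs_nonneg C.a) n
  have pb := mul_nonneg (abs_nonneg C.b) n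
  have pc := mul_nonneg (abs_nonneg C.c) n
  rcases fin3 k with rfl | rfl | rfl <;> simp only [sh, Matrix.cons_val]
  · have := t (-C.c)
    rw [abs_neg] at this
    linarith
  · linarith [abs_sub (u 0) (C.b * u 2), h 0, t C.b]
  · linarith [abs_sub (u 1) (C.a * u 2), h 1, t C.a]

theorem exists_mu3_le : ∃ κ : ℕ, 1 ≤ κ ∧ ∀ (u v : Fin 3 → ℤ) (N N' : ℕ), (∀ k, |u k| ≤ N) →
    (∀ k, |v k| ≤ N') → ∀ k, |C.mu3 u v k| ≤ (κ * N * N' : ℕ) := by
  refine ⟨1 + (1 + C.a.natAbs + C.b.natAbs + C.c.natAbs) +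
    (1 + C.a.natAbs + C.b.natAbs + C.c.natAbs) ^ 2, by omega, fun u v N N' hu hv k => ?_⟩
  have h1 := C.sh_le hu
  have h2 := C.sh_le h1 k
  have t : ∀ (j : Fin 3) (x B : ℤ), |x| ≤ B → |v j * x| ≤ N' * B := fun j x B hx => by
    rw [abs_mul]
    exact mul_le_mul (hv j) hx (abs_nonneg _) (by positivity)
  have a0 := t 0 _ _ (hu k)
  have a1 := t 1 _ _ (h1 k)
  have a2 := t 2 _ _ h2
  simp only [mu3, Pi.add_apply, Pi.smul_apply, smul_eq_mul]
  refine (abs_add_three _ _ _).trans ((add_le_add_three a0 a1 a2).trans_eq ?_)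
  push_cast
  ring

theorem abs_th3_le (q : ℕ) (ρ : ℤ) (s t : F2) (m : Fin 3 → ℤ) : |C.th3 q ρ s t m| ≤ 1 := by
  have : ∀ a : ℤ, |(J(a | q) : ℝ)| ≤ 1 := fun a => by
    rcases jacobiSym.trichotomy a q with h | h | h <;> simp [h]
  rw [th3, abs_mul, abs_pow, abs_pow]
  exact mul_le_one₀ (pow_le_one₀ (abs_nonneg _) (this _)) (by positivity)
    (pow_le_one₀ (abs_nonneg _) (this _))

theorem th3_congr (q : ℕ) (ρ : ℤ) (s t : F2) {u v : Fin 3 → ℤ} (h : ∀ k, u k ≡ v k [ZMOD q]) :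
    C.th3 q ρ s t u = C.th3 q ρ s t v := by
  have : ev ρ u ≡ ev ρ v [ZMOD q] := by
    simp only [ev3, Int.cast_id]
    exact ((h 0).add ((h 1).mul_right _)).add ((h 2).mul_right _)
  rw [th3, th3, jacobiSym.mod_left' (C.Nm_congr h), jacobiSym.mod_left' this]

theorem fv_cast {q : ℕ} {ρ : ℤ} (h : (q : ℤ) ∣ C.fv ρ) : C.fv (ρ : ZMod q) = 0 := by
  have := (ZMod.intCast_zmod_eq_zero_iff_dvd _ _).2 h
  simpa [fv] using this

theorem th3_mul {q : ℕ} {ρ : ℤ} (h : (q : ℤ) ∣ C.fv ρ) (s t : F2) (u v : Fin 3 → ℤ) :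
    C.th3 q ρ s t (C.mu3 u v) = C.th3 q ρ s t u * C.th3 q ρ s t v := by
  have : ev ρ (C.mu3 u v) ≡ ev ρ u * ev ρ v [ZMOD q] := by
    rw [← ZMod.intCast_eq_intCast_iff, Int.cast_mul, ev_cast, ev_cast, ev_cast, C.ev_mu3 (C.fv_cast h)]
  rw [th3, th3, th3, jacobiSym.mod_left' this, Nm_mu3, jacobiSym.mul_left, jacobiSym.mul_left]
  push_cast
  ring

theorem exists_flip {q : ℕ} (hq : C.Gp q) {ρ : ℤ} (h : (q : ℤ) ∣ C.fv ρ) {s t : F2}
    (hst : s ≠ 0 ∨ t ≠ 0) : ∃ u, ¬ (q : ℤ) ∣ C.Nm u ∧ C.th3 q ρ s t u = -1 := by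
  have := Fact.mk hq.1
  have h2 : ringChar (ZMod q) ≠ 2 := by rw [ZMod.ringChar_zmod_n]; exact hq.ne_two
  obtain ⟨n', hn'⟩ := FiniteField.exists_nonsquare h2
  obtain ⟨n, rfl⟩ := ZMod.intCast_surjective n'
  have hn := ZMod.nonsquare_iff_jacobiSym_eq_neg_one.2 hn'
  have n0 : (n : ZMod q) ≠ 0 := fun e => hn' (e ▸ IsSquare.zero)
  have c1 : C.Nm ![n, 0, 0] = n ^ 3 := by simp [Nm_eq]
  have c2 : ev ρ ![n, 0, 0] = n := by simp [ev3]
  have c3 : ¬ (q : ℤ) ∣ C.Nm ![n, 0, 0] := by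
    rw [c1, ← ZMod.intCast_zmod_eq_zero_iff_dvd, Int.cast_pow]
    exact pow_ne_zero _ n0
  rcases F2_cases s with rfl | rfl <;> rcases F2_cases t with rfl | rfl
  · simp at hst
  · exact ⟨_, c3, by simp [th3, c2, hn, ZMod.val_one]⟩
  · refine ⟨_, c3, ?_⟩
    simp only [th3, c1, jacobiSym.pow_left, hn, ZMod.val_one, ZMod.val_zero]
    norm_num
  have hc : (C.c : ZMod q) = -(ρ ^ 3 + C.a * ρ ^ 2 + C.b * ρ) := by
    have := C.fv_cast h
    rw [fv] at this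
    linear_combination this
  have hd : (C.disc : ZMod q) = (3 * ρ ^ 2 + 2 * C.a * ρ + C.b) ^ 2 *
      ((C.a + ρ) ^ 2 - 4 * (C.b + C.a * ρ + ρ ^ 2)) := by
    simp only [disc, dsc]
    push_cast
    rw [hc]
    ring
  have d0 : (C.disc : ZMod q) ≠ 0 := mt (ZMod.intCast_zmod_eq_zero_iff_dvd _ _).1 hq.not_dvd
  rw [hd] at d0
  obtain ⟨x', y', e⟩ := FiniteField.exists_root_sum_quadratic
    (f := Polynomial.X ^ 2 - Polynomial.C (n : ZMod q))
    (g := Polynomial.C (-((C.a + ρ) ^ 2 - 4 * (C.b + C.a * ρ + ρ ^ 2)) : ZMod q) * Polynomial.X ^ 2)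
    (Polynomial.degree_X_pow_sub_C two_pos _)
    (Polynomial.degree_C_mul_X_pow _ (neg_ne_zero.2 (right_ne_zero_of_mul d0)))
    (by rw [ZMod.card]; exact hq.1.eq_two_or_odd.resolve_left hq.ne_two)
  obtain ⟨x, rfl⟩ := ZMod.intCast_surjective x'
  obtain ⟨y, rfl⟩ := ZMod.intCast_surjective y'
  simp only [Polynomial.eval_sub, Polynomial.eval_mul, Polynomial.eval_pow, Polynomial.eval_X,
    Polynomial.eval_C] at e
  obtain ⟨l, hl⟩ : ∃ l : ℤ, (x - (C.a + 3 * ρ) * y + l * (3 * ρ ^ 2 + 2 * C.a * ρ + C.b) :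
      ZMod q) ≠ 0 := by
    by_contra! k
    have k0 := k 0
    have k1 := k 1
    push_cast at k0 k1
    exact left_ne_zero_of_mul d0 ((pow_eq_zero_iff two_ne_zero).2 (by linear_combination k1 - k0))
  obtain ⟨u, hu⟩ : ∃ u : Fin 3 → ℤ, u = ![x - (C.a + ρ) * y + l * (C.b + C.a * ρ + ρ ^ 2),
    -2 * y + l * (C.a + ρ), l] := ⟨_, rfl⟩
  have u1 : ((ev ρ u : ℤ) : ZMod q) =
      x - (C.a + 3 * ρ) * y + l * (3 * ρ ^ 2 + 2 * C.a * ρ + C.b) := by
    simp only [hu, ev3, Matrix.cons_val]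
    push_cast
    ring
  have u2 : (C.Nm u : ZMod q) = n * (ev ρ u : ℤ) := by
    rw [u1]
    simp only [hu, Nm_eq, Matrix.cons_val]
    push_cast
    rw [hc]
    linear_combination (x - (C.a + 3 * ρ) * y + l * (3 * ρ ^ 2 + 2 * C.a * ρ + C.b) : ZMod q) * e
  rw [← u1] at hl
  refine ⟨u, mt (ZMod.intCast_zmod_eq_zero_iff_dvd _ _).2 (u2 ▸ mul_ne_zero n0 hl), ?_⟩
  rw [← Int.cast_mul, ZMod.intCast_eq_intCast_iff] at u2
  have u3 := legendreSym.sq_one q hl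
  rw [jacobiSym.legendreSym.to_jacobiSym] at u3
  rw [th3, ZMod.val_one, pow_one, pow_one, jacobiSym.mod_left' u2, jacobiSym.mul_left, hn,
    Int.cast_mul, mul_assoc, ← Int.cast_mul, ← sq, u3]
  norm_num

theorem th3_mean {q : ℕ} [NeZero q] (hq : C.Gp q) {ρ : ℤ} (h : (q : ℤ) ∣ C.fv ρ) {s t : F2}
    (hst : s ≠ 0 ∨ t ≠ 0) : ∑ u : Fin 3 → ZMod q, C.th3 q ρ s t (fun k => (u k).val) = 0 := by
  have := Fact.mk hq.1
  obtain ⟨u, u1, u2⟩ := C.exists_flip hq h hst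
  let M : Matrix (Fin 3) (Fin 3) (ZMod q) :=
    (Int.castRingHom (ZMod q)).mapMatrix (Matrix.of ![u, C.sh u, C.sh (C.sh u)])
  have d : M.det ≠ 0 := by
    rw [← RingHom.map_det]
    exact mt (ZMod.intCast_zmod_eq_zero_iff_dvd _ _).1 u1
  have inj : Injective fun v => Matrix.vecMul v M := fun v w e => sub_eq_zero.1
    (Matrix.eq_zero_of_vecMul_eq_zero d (by rw [Matrix.sub_vecMul]; exact sub_eq_zero.2 e))
  have e := (Finite.injective_iff_bijective.1 inj).sum_comp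
    fun v => C.th3 q ρ s t fun k => (v k).val
  have e' : ∀ v : Fin 3 → ZMod q, (C.th3 q ρ s t fun k => (Matrix.vecMul v M k).val) =
      -C.th3 q ρ s t fun k => (v k).val := fun v => by
    rw [← neg_one_mul, ← u2, ← C.th3_mul h]
    refine C.th3_congr _ _ _ _ fun k => (ZMod.intCast_eq_intCast_iff _ _ _).1 ?_
    simp only [mu3, Pi.add_apply, Pi.smul_apply, smul_eq_mul, Int.cast_add, Int.cast_mul,
      Int.cast_natCast, ZMod.natCast_zmod_val]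
    simp [M, Matrix.vecMul, dotProduct, Fin.sum_univ_three]
  rw [sum_congr rfl fun v _ => e' v, sum_neg_distrib] at e
  linarith

end Cv

end Pool.Agent.B6.S
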