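import Pool.Agent.Lib.MP_696deb_nt.B6.SK0
import Pool.Agent.Lib.MP_696deb_nt.B6.SA2
import Pool.Agent.Lib.MP_696deb_nt.B6.SBb
import Pool.Agent.Lib.MP_696deb_nt.Sm.ThueB

/-! Numbers of the compositum of the cubic field and a multiquadratic field. -/

set_option autoImplicit false

open scoped Classical NumberTheorySymbols
open Finset Function

namespace Pool.Agent.B6.S

open Pool.Agent.Lib.MP_696deb_nt Pool.Agent.Lib.MP_696deb_nt.Sm

namespace Cv

variable (C : Cv) {K : Type} [Fintype K]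

/-- The conjugates of a number of the compositum. -/
noncomputable def al3 (d : K → ℕ) (n : Fin 3 → (K → F2) → ℤ) (i : Fin 3) (γ : K → F2) : Qb :=
  ∑ k : Fin 3, C.e i ^ (k : ℕ) * al d (n k) γ

/-- The signs by which the square roots of the conjugates are permuted. -/
noncomputable def bt3 (d : K → ℕ) (n : Fin 3 → (K → F2) → ℤ) (g : GQ) (i : Fin 3) (γ : K → F2) :
    F2 := if g (sqr (C.al3 d n (C.pm g⁻¹ i) (γ - bar d g))) = sqr (C.al3 d n i γ) then 0 else 1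

/-- The cochain with values in the two-torsion. -/
noncomputable def fn3 (d : K → ℕ) (n : Fin 3 → (K → F2) → ℤ) (g : GQ) (γ : K → F2) : C.A :=
  C.pr fun i => C.bt3 d n g i γ

/-- The reduction of a conjugate to the cubic ring. -/
noncomputable def mv (ρ : K → ℤ) (n : Fin 3 → (K → F2) → ℤ) (γ : K → F2) (k : Fin 3) : ℤ :=
  ∑ T, mat ρ γ T * n k T

/-- The constant in the bound for the norm. -/
def CN (d : K → ℕ) : ℕ := (3 * C.R ^ 2 * (2 ^ Fintype.card K * ∏ i, d i)) ^ (3 * 2 ^ Fintype.card K)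

/-- An integer that is congruent to a root. -/
noncomputable def rho (q : ℕ) (j : Fin 3) : ℤ :=
  if h : ∃ ρ : ℤ, nrm q (C.e j - ρ) < 1 then h.choose else 0

variable {C} {d : K → ℕ} {n : Fin 3 → (K → F2) → ℤ} {p : ℕ} {N c : ℤ}

theorem rho_spec (hp : C.Gp p) {j : Fin 3} (h : C.pm (frb p) j = j) :
    nrm p (C.e j - C.rho p j) < 1 ∧ (p : ℤ) ∣ C.fv (C.rho p j) := by
  have h1 : ∃ ρ : ℤ, nrm p (C.e j - ρ) < 1 :=
    frob_int (w := pl p) (φ := frb p) (by rw [pl_p hp.1]; exact (frb_spec hp.1 hp.ne_two).1)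
      (C.int_e j) (by rw [e_pm, h])
  have h2 : nrm p (C.e j - C.rho p j) < 1 := by
    rw [rho, dif_pos h1]
    exact h1.choose_spec
  refine ⟨h2, (nrm_int_lt hp.1).1 ?_⟩
  generalize C.rho p j = r at h2
  have i1 : ∀ k : ℤ, IsIntegral ℤ (k : Qb) := fun k => isIntegral_algebraMap (x := k)
  have i2 := C.int_e j
  have h3 := (pl p).V_le_one_of_isIntegral
    ((((i2.pow 2).add (i2.mul (i1 r))).add ((i1 r).pow 2)).add ((i1 C.a).mul (i2.add (i1 r))) |>.add
      (i1 C.b)).neg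
  convert B2.b2a_mul_lt (pl p) h3 h2 using 2
  simp only [fv]
  push_cast
  linear_combination C.root j

theorem smul_al3 (g : GQ) (i : Fin 3) (γ : K → F2) :
    g (C.al3 d n i γ) = C.al3 d n (C.pm g i) (γ + bar d g) := by
  rw [al3, al3, map_sum]
  exact sum_congr rfl fun k _ => by rw [map_mul, map_pow, e_pm, smul_al]

theorem int_al3 (i : Fin 3) (γ : K → F2) : IsIntegral ℤ (C.al3 d n i γ) := by
  exact IsIntegral.sum _ fun k _ => ((C.int_e i).pow _).mul (isIntegral_al γ)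

theorem al3_ne (hs : Surjective (bar d)) (hd : ∀ i, d i ≠ 0) (hn : n ≠ 0) (i : Fin 3)
    (γ : K → F2) : C.al3 d n i γ ≠ 0 := by
  intro h
  have b0 : bar d C.g0 = 0 := funext fun k => C.chi_g0 (d k)
  have h1 : ∀ j, C.al3 d n j γ = 0 → C.al3 d n (j + 1) γ = 0 := fun j k => by
    have h2 := smul_al3 (C := C) (d := d) (n := n) C.g0 j γ
    rw [k, map_zero, b0, add_zero, pm_g0] at h2
    exact h2.symm
  have e : ∀ i j : Fin 3, j = i ∨ j = i + 1 ∨ j = i + 1 + 1 := by decide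
  have h3 : (fun k => al d (n k) γ) = 0 :=
    Matrix.eq_zero_of_forall_index_sum_pow_mul_eq_zero C.e_inj fun j => by
      rcases e i j with rfl | rfl | rfl
      exacts [h, h1 _ h, h1 _ (h1 _ h)]
  obtain ⟨k, hk⟩ := Function.ne_iff.1 hn
  exact al_ne hs hd hk γ (congrFun h3 k)

theorem bt3_spec (g : GQ) (i : Fin 3) (γ : K → F2) :
    g (sqr (C.al3 d n (C.pm g⁻¹ i) (γ - bar d g))) =
      (sn (C.bt3 d n g i γ) : Qb) * sqr (C.al3 d n i γ) := by
  have h1 : g (sqr (C.al3 d n (C.pm g⁻¹ i) (γ - bar d g))) ^ 2 = sqr (C.al3 d n i γ) ^ 2 := by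
    rw [← map_pow, sqr_sq, sqr_sq, smul_al3, sub_add_cancel, pm_inv]
  unfold bt3
  split_ifs with h
  · rw [h, sn_zero, Int.cast_one, one_mul]
  · rw [(sq_eq_sq_iff_eq_or_eq_neg.1 h1).resolve_left h, sn_one, Int.cast_neg, Int.cast_one,
      neg_one_mul]

theorem two_fn3 (g : GQ) (γ : K → F2) : 2 • C.fn3 d n g γ = 0 := C.two_pr _

theorem fn3_mul (h0 : ∀ i γ, C.al3 d n i γ ≠ 0) (g h : GQ) (γ : K → F2) :
    C.fn3 d n (g * h) γ = C.fn3 d n g γ + C.act g (C.fn3 d n h (γ - bar d g)) := by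
  rw [fn3, fn3, fn3, act_pr, ← pr_add]
  congr 1
  funext i
  have h1 := bt3_spec (C := C) (d := d) (n := n) (g * h) i γ
  rw [bar_mul, ← sub_sub, AlgEquiv.mul_apply, mul_inv_rev, pm_mul, bt3_spec, map_mul, map_intCast,
    bt3_spec, ← mul_assoc] at h1
  have h2 : sqr (C.al3 d n i γ) ≠ 0 := fun e => h0 i γ (by
    rw [← sqr_sq (C.al3 d n i γ), e, zero_pow two_ne_zero])
  have h3 := mul_right_cancel₀ h2 h1
  refine thuea_sz_inj ?_
  rw [Pi.add_apply, sz_add, mul_comm]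
  exact_mod_cast h3.symm

theorem lc_fn3 : LC (C.fn3 d n) := by
  refine (((B2.Sm.pi fun i : K => B2.sm_xi (H := ⊤) (d i)).comp₂ (C.sm_pm ⊤) Prod.mk).comp₂
    (B2.Sm.pi fun i : Fin 3 => B2.Sm.pi fun δ : K → F2 => B2.sm_apply (sqr (C.al3 d n i δ)))
    fun b F (γ : K → F2) => C.pr fun i =>
      if F (invFun b.2 i) (γ - b.1) = sqr (C.al3 d n i γ) then 0 else 1).congr fun g _ => ?_
  have e : ∀ i, invFun (C.pm g) i = C.pm g⁻¹ i := fun i =>
    C.pm_inj g (by rw [pm_inv, invFun_eq ((C.pm_bij g).2 i)])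
  simp only [e]
  rfl

/-- On a subgroup that fixes the multiquadratic field every component is a cocycle. -/
theorem z2_fn3 (h0 : ∀ i γ, C.al3 d n i γ ≠ 0) {H : Subgroup GQ} (hb : ∀ g ∈ H, bar d g = 0)
    (γ : K → F2) : C.Z2 H fun g => C.fn3 d n g γ := by
  exact ⟨fun g _ => two_fn3 g γ, fun g hg h _ => by rw [fn3_mul h0, hb g hg, sub_zero],
    (lc_fn3.mono le_top).comp fun f => f γ⟩

theorem z2_sum_fn3 (h0 : ∀ i γ, C.al3 d n i γ ≠ 0) : C.Z2 ⊤ fun g => ∑ γ, C.fn3 d n g γ := by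
  refine ⟨fun g _ => ?_, fun g _ h _ => ?_, lc_fn3.comp fun f => ∑ γ, f γ⟩
  · rw [smul_sum]
    exact sum_eq_zero fun γ _ => two_fn3 g γ
  · simp only [fn3_mul h0, sum_add_distrib]
    rw [← map_sum, ← Equiv.sum_comp (Equiv.subRight (bar d g)) (C.fn3 d n h)]
    rfl

theorem exists_norm3 : ∃ N : ℤ, ∏ i, ∏ γ, C.al3 d n i γ = N := by
  have h1 : B2.Fx ⊤ (∏ i, ∏ γ, C.al3 d n i γ) := fun g _ => by
    simp only [map_prod, smul_al3]
    exact Fintype.prod_bijective _ (C.pm_bij g) _ _ fun i =>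
      Equiv.prod_comp (Equiv.addRight (bar d g)) (C.al3 d n (C.pm g i))
  obtain ⟨r, hr⟩ := B2.fx_top h1
  have h2 : IsIntegral ℤ (algebraMap ℚ Qb r) := by
    rw [eq_ratCast, ← hr]
    exact IsIntegral.prod _ fun i _ => IsIntegral.prod _ fun γ _ => int_al3 i γ
  obtain ⟨N, hN⟩ := IsIntegrallyClosed.isIntegral_iff.1
    ((isIntegral_algebraMap_iff (algebraMap ℚ Qb).injective).1 h2)
  exact ⟨N, by rw [hr, ← hN]; simp⟩

theorem norm3_le (h : ∏ i, ∏ γ, C.al3 d n i γ = N) {B : ℕ} (hB : ∀ k T, |n k T| ≤ B)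
    (hd : ∀ i, d i ≠ 0) : |N| ≤ (C.CN d * B ^ (3 * 2 ^ Fintype.card K) : ℕ) := by
  have c : Fintype.card (K → F2) = 2 ^ Fintype.card K := by simp
  have h1 : ∀ k γ, ‖B2.jC (al d (n k) γ)‖ ≤ (2 ^ Fintype.card K * ∏ i, (d i : ℝ)) * B :=
    fun k γ => by
    rw [al, map_sum]
    refine (norm_sum_le _ _).trans ((sum_le_card_nsmul _ _ ((∏ i, (d i : ℝ)) * B)
      fun T _ => ?_).trans_eq ?_)
    · rw [map_mul, norm_mul, map_intCast, Complex.norm_intCast, mul_comm, sT, map_prod, norm_prod]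
      refine mul_le_mul (prod_le_prod (fun i _ => norm_nonneg _) fun i _ => ?_) ?_ (abs_nonneg _)
        (by positivity)
      · rw [map_pow, norm_pow]
        exact thuea_norm_rt (hd i) _
      · have h2 := hB k T
        rw [← one_mul |n k T|, ← thuea_sz_abs (∑ i, γ i * T i), ← abs_mul] at h2
        exact_mod_cast h2
    · rw [card_univ, c, nsmul_eq_mul]
      push_cast
      ring
  have h3 : ∀ i γ, ‖B2.jC (C.al3 d n i γ)‖ ≤
      3 * (C.R : ℝ) ^ 2 * (2 ^ Fintype.card K * ∏ i, (d i : ℝ)) * B := fun i γ => by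
    rw [al3, map_sum]
    refine (norm_sum_le _ _).trans ((sum_le_card_nsmul _ _
      ((C.R : ℝ) ^ 2 * ((2 ^ Fintype.card K * ∏ i, (d i : ℝ)) * B)) fun k _ => ?_).trans_eq ?_)
    · rw [map_mul, norm_mul, map_pow, norm_pow]
      refine mul_le_mul ((pow_le_pow_left₀ (norm_nonneg _) (C.hR i) _).trans
        (pow_le_pow_right₀ (by exact_mod_cast C.one) (Nat.le_of_lt_succ k.2))) (h1 k γ)
        (norm_nonneg _) (by positivity)
    · rw [card_univ, Fintype.card_fin, nsmul_eq_mul]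
      push_cast
      ring
  have h2 : (|N| : ℝ) ≤ (3 * (C.R : ℝ) ^ 2 * (2 ^ Fintype.card K * ∏ i, (d i : ℝ)) * B) ^
      (3 * 2 ^ Fintype.card K) := by
    rw [← Complex.norm_intCast, ← map_intCast B2.jC, ← h, map_prod, norm_prod]
    refine (prod_le_prod (fun i _ => norm_nonneg _) fun i _ => ?_).trans_eq
      (b := ∏ _i : Fin 3, (3 * (C.R : ℝ) ^ 2 * (2 ^ Fintype.card K * ∏ i, (d i : ℝ)) * B) ^
        2 ^ Fintype.card K) ?_
    · rw [map_prod, norm_prod]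
      refine (prod_le_prod (fun γ _ => norm_nonneg _) fun γ _ => h3 i γ).trans_eq ?_
      rw [prod_const, card_univ, c]
    · rw [prod_const, card_univ, Fintype.card_fin, ← pow_mul, mul_comm _ 3]
  rw [mul_pow] at h2
  rw [CN]
  exact_mod_cast h2

end Cv

end Pool.Agent.B6.S
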