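import Pool.Agent.Lib.MP_696deb_nt.B6.SK1

/-! Local behaviour of the cochain of square roots in the compositum. -/

set_option autoImplicit false

open scoped Classical NumberTheorySymbols NNReal
open Finset Function

namespace Pool.Agent.B6.S

open Pool.Agent.Lib.MP_696deb_nt Pool.Agent.Lib.MP_696deb_nt.Sm

section place

variable {w : B2.Plc} {ι : Type} [Fintype ι] {a : ι → Qb} {g : GQ} {x : Qb}

theorem sk1b_one (h : ∀ i, w.V (a i) ≤ 1) (i : ι) : w.V (∏ j, a j) ≤ w.V (a i) := by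
  rw [← mul_prod_erase univ _ (mem_univ i), map_mul, map_prod]
  exact mul_le_of_le_one_right' (prod_le_one' fun j _ => h j)

theorem sk1b_pair (h : ∀ i, w.V (a i) ≤ 1) {i j : ι} (k : j ≠ i) :
    w.V (∏ j, a j) ≤ w.V (a i) * w.V (a j) := by
  rw [← mul_prod_erase univ _ (mem_univ i), ← mul_prod_erase _ _ (mem_erase.2 ⟨k, mem_univ j⟩),
    map_mul, map_mul, ← mul_assoc, map_prod]
  exact mul_le_of_le_one_right' (prod_le_one' fun j _ => h j)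

theorem sk1b_fix (hw : w.p ≠ 2) (hg : g ∈ B2.Ine w) (hx : g x = x) (h : w.V x = 1) :
    g (sqr x) = sqr x :=
  unit_fix hw hg (thb_sqrt (by rwa [sqr_sq])) (by rwa [sqr_sq])

theorem sk1b_gen (hw : w.p ≠ 2) (hg : B2.Gen w g) (hx : g x = x) (h : w.V x = (w.p : ℝ≥0)⁻¹) :
    g (sqr x) ≠ sqr x := fun h4 => by
  have hp : (0 : ℝ≥0) < (w.p : ℝ≥0)⁻¹ := inv_pos.2 (one_pos.trans (B2.b2a_one_lt w))
  have r0 : B2.rt w.p ≠ 0 := B2.b1b_rt_ne (by exact_mod_cast w.prime.ne_zero)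
  have e : (sqr x / B2.rt w.p) ^ 2 = x / w.p := by
    rw [div_pow, sqr_sq, B2.rt_sq, Int.cast_natCast]
  have h3 := unit_fix hw hg.1 (z := sqr x / B2.rt w.p)
    (thb_sqrt (by rw [e, map_div₀, h, w.hV, div_self hp.ne']))
    (by rw [e, map_div₀, hx, map_natCast])
  rw [map_div₀, B2.b2c_neg (by rw [hg.2]; decide), h4, div_neg, neg_eq_self, div_eq_zero_iff] at h3
  rw [← sqr_sq x, h3.resolve_right r0, zero_pow two_ne_zero, map_zero] at h
  exact hp.ne h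

/-- The criterion of Euler. -/
theorem sk1b_euler (hw : w.p ≠ 2) (hg : B2.IsFrob w w.p g) {b : F2} {m : ℤ} (h2 : w.V (x ^ 2) = 1)
    (h1 : w.V (x ^ 2 - m) < 1) (h4 : g x = sn b * x) : sn b = J(m | w.p) := by
  have : Fact w.p.Prime := ⟨w.prime⟩
  have hz := thb_sqrt h2
  have h3 := hg.2 _ hz.le
  have h5 : w.p = 2 * (w.p / 2) + 1 := by
    have := w.prime.eq_two_or_odd
    omega
  have h6 : x ^ w.p = x * (x ^ 2) ^ (w.p / 2) := by
    conv_lhs => rw [h5, pow_succ', pow_mul]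
  rw [h4, h6, mul_comm, ← mul_sub, map_mul, hz, one_mul] at h3
  have h7 := B2.b2a_pow_sub w h2.le (w.V_int_le m) h1 (w.p / 2)
  have h8 : w.V (((m ^ (w.p / 2) - J(m | w.p) : ℤ)) : Qb) < 1 := by
    rw [B2.b2c_lt, ← ZMod.intCast_zmod_eq_zero_iff_dvd, ← jacobiSym.legendreSym.to_jacobiSym,
      Int.cast_sub, legendreSym.eq_pow, Int.cast_pow, sub_self]
  have h9 : (w.p : ℤ) ∣ sn b - J(m | w.p) := by
    rw [← B2.b2c_lt]
    refine (congrArg w.V ?_).trans_lt (w.V.map_add_lt (w.V.map_add_lt h3 h7) h8)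
    push_cast
    ring
  have hm : ¬ (w.p : ℤ) ∣ m := by
    rw [← w.V_int_eq_one, ← h2]
    exact w.V.map_eq_of_sub_lt (by rwa [w.V.map_sub_swap, h2])
  have hJ : J(m | w.p) = 1 ∨ J(m | w.p) = -1 := by
    rw [← jacobiSym.legendreSym.to_jacobiSym]
    exact legendreSym.eq_one_or_neg_one _ (by rwa [Ne, ZMod.intCast_zmod_eq_zero_iff_dvd])
  have hs : sn b = 1 ∨ sn b = -1 := by rcases F2_cases b with rfl | rfl <;> decide
  rcases hJ with hJ | hJ <;> rcases hs with hs | hs <;> rw [hJ, hs] at h9 ⊢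
  · exact absurd (dvd_neg.1 h9) (thb_two hw)
  · exact absurd h9 (thb_two hw)

theorem sk1b_ev {y : Qb} (hx : w.V x ≤ 1) (hy : w.V y ≤ 1) (h : w.V (x - y) < 1)
    (m : Fin 3 → ℤ) : w.V (ev x m - ev y m) < 1 := by
  rw [ev, ev, ← sum_sub_distrib]
  refine w.V.map_sum_lt one_ne_zero fun k _ => ?_
  rw [← mul_sub]
  exact B2.b2a_mul_lt w (w.V_int_le _) (B2.b2a_pow_sub w hx hy h _)

theorem sk1b_ev_le (hx : w.V x ≤ 1) (m : Fin 3 → ℤ) : w.V (ev x m) ≤ 1 :=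
  w.V.map_sum_le fun _ _ => B2.b2a_mul_le w (w.V_int_le _) (B2.b2a_pow_le w hx _)

end place

theorem sk1b_cast (ρ : ℤ) (m : Fin 3 → ℤ) : ((ev ρ m : ℤ) : Qb) = ev (ρ : Qb) m := by
  simp [ev]

theorem sk1b_jac {ι : Type} (s : Finset ι) (M : ι → ℤ) (p : ℕ) :
    J(∏ i ∈ s, M i | p) = ∏ i ∈ s, J(M i | p) := by
  induction s using Finset.induction_on with
  | empty => simp
  | insert a s ha ih => rw [prod_insert ha, prod_insert ha, jacobiSym.mul_left, ih]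

namespace Cv

variable {C : Cv} {K : Type} [Fintype K] {d : K → ℕ} {n : Fin 3 → (K → F2) → ℤ} {p : ℕ} {N c : ℤ}

theorem sk1b_le (p : ℕ) (x : Fin 3 × (K → F2)) : nrm p (C.al3 d n x.1 x.2) ≤ 1 :=
  (pl p).V_le_one_of_isIntegral (int_al3 _ _)

theorem sk1b_unit (hp : p.Prime) (h : ∏ i, ∏ γ, C.al3 d n i γ = N) (hN : ¬ (p : ℤ) ∣ N)
    (i : Fin 3) (γ : K → F2) : nrm p (C.al3 d n i γ) = 1 := by
  refine (sk1b_le p (i, γ)).antisymm ?_
  rw [← (nrm_int_eq_one hp).2 hN, ← h, ← Fintype.prod_prod_type']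
  exact sk1b_one (sk1b_le p) (i, γ)

theorem sk1b_red {ρ : K → ℤ} (hρ : ∀ i, nrm p (B2.rt (d i) - ρ i) < 1) (i : Fin 3) (γ : K → F2) :
    nrm p (C.al3 d n i γ - ev (C.e i) (mv ρ n γ)) < 1 := by
  rw [al3, ev, ← sum_sub_distrib]
  refine (nrm p).map_sum_lt one_ne_zero fun k _ => ?_
  rw [mul_comm (mv ρ n γ k : Qb), ← mul_sub]
  exact B2.b2a_mul_lt _ (B2.b2a_pow_le _ (C.nrm_e p i) _) (red_al hρ γ)

theorem sk1b_rho (hp : C.Gp p) {ρ : K → ℤ} (hρ : ∀ i, nrm p (B2.rt (d i) - ρ i) < 1) {j : Fin 3}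
    (hj : C.pm (frb p) j = j) (γ : K → F2) :
    nrm p (C.al3 d n j γ - (ev (C.rho p j) (mv ρ n γ) : ℤ)) < 1 := by
  rw [sk1b_cast, ← sub_add_sub_cancel _ (ev (C.e j) (mv ρ n γ))]
  exact (nrm p).map_add_lt (sk1b_red hρ j γ)
    (sk1b_ev (C.nrm_e p j) (nrm_int_le _) (rho_spec hp hj).1 _)

theorem sk1b_nm {ρ : K → ℤ} (hρ : ∀ i, nrm p (B2.rt (d i) - ρ i) < 1) (γ : K → F2) :
    nrm p (∏ i, C.al3 d n i γ - C.Nm (mv ρ n γ)) < 1 := by
  rw [← prod_ev]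
  exact (thb_prod univ (fun i => sk1b_ev_le (C.nrm_e p i) _) fun i => sk1b_red hρ i γ).2

theorem sk1b_ine (hp : C.Gp p) {g : GQ} (hg : g ∈ Iv p) (hb : bar d g = 0) (i : Fin 3)
    (γ : K → F2) : g (C.al3 d n i γ) = C.al3 d n i γ ∧ C.bt3 d n g i γ =
      if g (sqr (C.al3 d n i γ)) = sqr (C.al3 d n i γ) then 0 else 1 :=
  ⟨by rw [smul_al3, hp.pm_ine hg, hb, add_zero],
    by rw [bt3, hp.pm_ine (inv_mem hg), hb, sub_zero]⟩

theorem fn3_ine (hp : C.Gp p) (hd : ∀ i, ¬ p ∣ d i) (h : ∏ i, ∏ γ, C.al3 d n i γ = N)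
    (hN : ¬ (p : ℤ) ∣ N) (γ : K → F2) : C.fn3 d n (sig p) γ = 0 := by
  have e := pl_p hp.1
  have h2 : (pl p).p ≠ 2 := e.trans_ne hp.ne_two
  have hσ := sig_ine hp.1 hp.ne_two
  have hb : bar d (sig p) = 0 := funext fun i => B2.xi_eq_zero.2
    (B2.chi_ine (thb_ndvd2 h2 (by rw [e]; exact_mod_cast hd i)) hσ)
  rw [fn3, ← C.pr_const 0]
  refine congrArg C.pr (funext fun i => ?_)
  obtain ⟨k1, k2⟩ := sk1b_ine (n := n) hp hσ hb i γ
  rw [k2, if_pos (sk1b_fix h2 hσ k1 (sk1b_unit hp.1 h hN i γ))]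

theorem fn3_gen (hp : C.Gp p) (hd : ∀ i, J(d i | p) = 1)
    (h : ∏ i, ∏ γ, C.al3 d n i γ = (c * p : ℤ)) (hc : ¬ (p : ℤ) ∣ c) {i : Fin 3}
    (h0 : nrm p (C.al3 d n i 0) < 1) (γ : K → F2) :
    C.fn3 d n (sig p) γ = if γ = 0 then C.T i else 0 := by
  have e := pl_p hp.1
  have h2 : (pl p).p ≠ 2 := e.trans_ne hp.ne_two
  have hσ := sig_ine hp.1 hp.ne_two
  have hb : ∀ σ ∈ Iv p, bar d σ = 0 := fun σ hσ =>
    bar_dec h2 (by rwa [e]) (B2.Ine_le _ hσ)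
  have hq : (0 : ℝ≥0) < ((pl p).p : ℝ≥0)⁻¹ := inv_pos.2 (one_pos.trans (B2.b2a_one_lt _))
  have hV : nrm p (∏ x : Fin 3 × (K → F2), C.al3 d n x.1 x.2) = ((pl p).p : ℝ≥0)⁻¹ := by
    rw [Fintype.prod_prod_type', h, Int.cast_mul, map_mul, (nrm_int_eq_one hp.1).2 hc, one_mul,
      Int.cast_natCast, ← (pl p).hV, e]
  have h1 : ((pl p).p : ℝ≥0)⁻¹ ≤ nrm p (C.al3 d n i 0) := hV ▸ sk1b_one (sk1b_le p) (i, 0)
  have h3 : nrm p (C.al3 d n i 0) = ((pl p).p : ℝ≥0)⁻¹ :=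
    (V_le_of_fx (fun σ hσ => (sk1b_ine hp hσ (hb σ hσ) i 0).1) h0).antisymm h1
  have key : ∀ j, C.bt3 d n (sig p) j γ = if (j, γ) = (i, 0) then 1 else 0 := fun j => by
    obtain ⟨k1, k2⟩ := sk1b_ine (n := n) hp hσ (hb _ hσ) j γ
    rw [k2]
    by_cases k : (j, γ) = (i, 0)
    · obtain ⟨rfl, rfl⟩ := Prod.mk.inj k
      rw [if_pos rfl, if_neg (sk1b_gen h2 (gen_sig hp.1 hp.ne_two) k1 h3)]
    · have h4 := sk1b_pair (sk1b_le (C := C) (d := d) (n := n) p) k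
      rw [hV, h3] at h4
      rw [if_neg k, if_pos (sk1b_fix h2 hσ k1
        ((sk1b_le p (j, γ)).antisymm ((le_mul_iff_one_le_right hq).1 h4)))]
  rw [fn3, funext key]
  split_ifs with hγ
  · simp only [hγ, Prod.mk.injEq, and_true, pr_single]
  · simp only [hγ, Prod.mk.injEq, and_false, if_false, pr_const]

theorem fn3_frob (hp : C.Gp p) (hd : ∀ i, J(d i | p) = 1) {ρ : K → ℤ}
    (hρ : ∀ i, nrm p (B2.rt (d i) - ρ i) < 1) (h : ∏ i, ∏ γ, C.al3 d n i γ = N)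
    (hN : ¬ (p : ℤ) ∣ N) {j : Fin 3} (hj : C.pm (frb p) j = j) :
    (∀ γ, sn (C.ep (C.fn3 d n (frb p) γ) (C.T j)) =
      J(C.Nm (mv ρ n γ) | p) * J(ev (C.rho p j) (mv ρ n γ) | p)) ∧
      J(N | p) = ∏ γ, J(C.Nm (mv ρ n γ) | p) := by
  have e := pl_p hp.1
  have h2 : (pl p).p ≠ 2 := e.trans_ne hp.ne_two
  have hφ : B2.IsFrob (pl p) (pl p).p (frb p) := by
    rw [e]
    exact (frb_spec hp.1 hp.ne_two).1
  have hb : bar d (frb p) = 0 := bar_dec h2 (by rwa [e]) hφ.1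
  refine ⟨fun γ => ?_, ?_⟩
  · have s : ∀ i, frb p (sqr (C.al3 d n (C.pm (frb p)⁻¹ i) γ)) =
        (sn (C.bt3 d n (frb p) i γ) : Qb) * sqr (C.al3 d n i γ) := fun i => by
      have := bt3_spec (C := C) (d := d) (n := n) (frb p) i γ
      rwa [hb, sub_zero] at this
    have k1 := s j
    rw [← hj, inv_pm, hj] at k1
    have k2 := sk1b_euler h2 hφ (by rw [sqr_sq]; exact sk1b_unit hp.1 h hN j γ)
      (by rw [sqr_sq]; exact sk1b_rho hp hρ hj γ) k1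
    have k3 : (∏ i, sqr (C.al3 d n i γ)) ^ 2 = ∏ i, C.al3 d n i γ := by
      simp only [← prod_pow, sqr_sq]
    have k4 := sk1b_euler (b := ∑ i, C.bt3 d n (frb p) i γ) h2 hφ (by
      rw [k3, map_prod]
      exact prod_eq_one fun i _ => sk1b_unit hp.1 h hN i γ)
      (by rw [k3]; exact sk1b_nm hρ γ) (by
        rw [← (C.pm_bij (frb p)⁻¹).prod_comp fun i => sqr (C.al3 d n i γ), map_prod,
          (C.pm_bij (frb p)⁻¹).prod_comp fun i => sqr (C.al3 d n i γ)]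
        simp only [s, Fin.sum_univ_three, Fin.prod_univ_three, sn_add, Int.cast_mul]
        ring)
    rw [e] at k2 k4
    rw [fn3, ep_pr, sn_add, k2, k4, mul_comm]
  · have h1 := (thb_prod (w := pl p) univ (fun γ => nrm_int_le _)
      (sk1b_nm (C := C) (n := n) hρ)).2
    rw [prod_comm, h, ← Int.cast_prod, ← Int.cast_sub, nrm_int_lt hp.1] at h1
    rw [← sk1b_jac]
    exact (jacobiSym.mod_left' (Int.modEq_iff_dvd.2 h1)).symm

/-- A small number of the compositum whose norm is a small multiple of `p`. -/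
theorem exists_ptr3 (hp : C.Gp p) (hs : Surjective (bar d)) (hd : ∀ i, J(d i | p) = 1) {i : Fin 3}
    (hi : C.pm (frb p) i = i) {B : ℕ} (h1 : B ^ (3 * 2 ^ Fintype.card K) ≤ p)
    (h2 : p < (B + 1) ^ (3 * 2 ^ Fintype.card K)) :
    ∃ (n : Fin 3 → (K → F2) → ℤ) (c : ℤ), (∀ k T, |n k T| ≤ B) ∧ (∀ i γ, C.al3 d n i γ ≠ 0) ∧
      c ≠ 0 ∧ |c| ≤ C.CN d ∧ ∏ i, ∏ γ, C.al3 d n i γ = (c * p : ℤ) ∧
      nrm p (C.al3 d n i 0) < 1 := by
  have e := pl_p hp.1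
  have hd' : ∀ i, J(d i | (pl p).p) = 1 := by rwa [e]
  obtain ⟨ρ, hρ⟩ := exists_red (e.trans_ne hp.ne_two) hd'
  have d0 : ∀ i, d i ≠ 0 := fun i k => thb_ndvd (hd' i) (by simp [k])
  obtain ⟨n, n0, hB, hn⟩ := thue (fun x : Fin 3 × (K → F2) => C.rho p i ^ (x.1 : ℕ) * mat ρ 0 x.2)
    hp.1.pos (B := B) (by simpa using h2)
  have a0 := al3_ne (C := C) (n := fun k T => n (k, T)) hs d0 fun k =>
    n0 (funext fun x => congrFun (congrFun k x.1) x.2)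
  have h3 : nrm p (C.al3 d (fun k T => n (k, T)) i 0) < 1 := by
    have k := sk1b_rho (n := fun k T => n (k, T)) hp (fun i => (hρ i).1) hi 0
    rw [← sub_add_cancel (C.al3 ..) _]
    refine (nrm p).map_add_lt k ((nrm_int_lt hp.1).2 ((congrArg _ ?_).mp hn))
    simp only [Fintype.sum_prod_type, ev, mv, Int.cast_id, sum_mul]
    exact sum_congr rfl fun _ _ => sum_congr rfl fun _ _ => by ring
  obtain ⟨N, hN⟩ := exists_norm3 (C := C) (d := d) (n := fun k T => n (k, T))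
  obtain ⟨c, rfl⟩ : (p : ℤ) ∣ N := by
    rw [← nrm_int_lt hp.1, ← hN, ← Fintype.prod_prod_type']
    exact (sk1b_one (sk1b_le p) (i, 0)).trans_lt h3
  refine ⟨_, c, fun k T => hB (k, T), a0, fun k => ?_, ?_, by rw [hN, mul_comm], h3⟩
  · exact prod_ne_zero_iff.2 (fun j _ => prod_ne_zero_iff.2 fun γ _ => a0 j γ)
      (by simpa [k] using hN)
  · have h4 := norm3_le hN (fun k T => hB (k, T)) d0
    have h5 : (0 : ℤ) < p := by exact_mod_cast hp.1.pos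
    rw [abs_mul, abs_of_pos h5, mul_comm, Nat.cast_mul] at h4
    exact le_of_mul_le_mul_right
      (h4.trans (mul_le_mul_of_nonneg_left (by exact_mod_cast h1) (Nat.cast_nonneg _))) h5

end Cv

end Pool.Agent.B6.S
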