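import Pool.Agent.Lib.MP_696deb_nt.B6.SK1b
import Pool.Agent.Lib.MP_696deb_nt.B6.SA5

/-! Cocycles that are ramified at one good prime. -/

set_option autoImplicit false

open scoped Classical NumberTheorySymbols
open Finset Function

namespace Pool.Agent.B6.S

open Pool.Agent.Lib.MP_696deb_nt Pool.Agent.Lib.MP_696deb_nt.Sm

namespace Cv

variable (C : Cv)

/-- A small element of the cubic ring above `p`, with its cofactor. -/
def Th (p : ℕ) (i : Fin 3) (u : (Fin 3 → ℤ) × ℤ) : Prop :=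
  u.1 ≠ 0 ∧ (∀ k, |u.1 k| ^ 3 ≤ p) ∧ u.2 ≠ 0 ∧ |u.2| ≤ C.N0 ∧ C.Nm u.1 = u.2 * p ∧
    nrm p (ev (C.e i) u.1) < 1

/-- A choice of such an element. -/
noncomputable def nv (p : ℕ) (i : Fin 3) : (Fin 3 → ℤ) × ℤ :=
  if h : ∃ u, C.Th p i u then h.choose else (Pi.single 0 1, 0)

/-- The Kummer cocycle of an element of the cubic ring. -/
noncomputable def km (m : Fin 3 → ℤ) (g : GQ) : C.A :=
  C.fn3 (K := Empty) (fun _ => 1) (fun k _ => m k) g 0

/-- The normalisation of a cocycle. -/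
noncomputable def nz (c : GQ → C.A) (g : GQ) : C.A :=
  c g + (C.act g (C.act C.g0 (c C.g0)) - C.act C.g0 (c C.g0))

/-- The normalised cocycle that is ramified at `p` with value `T i`. -/
noncomputable def be (p : ℕ) (i : Fin 3) : GQ → C.A := C.nz (C.km (C.nv p i).1)

/-- The same for a prime of the second type. -/
noncomputable def b2 (p : ℕ) : GQ → C.A := C.be p (C.tp p)

/-- The same with the zero cocycle allowed. -/
noncomputable def bo (p : ℕ) (o : Option (Fin 3)) : GQ → C.A := o.elim 0 (C.be p)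

/-- Square roots that describe a cocycle, with a bound for their size. -/
def KD (c : GQ → C.A) (B : ℝ) : Prop := ∃ w : Fin 3 → Qb,
  (∀ i, w i ≠ 0 ∧ IsIntegral ℤ (w i) ∧ ‖B2.jC (w i)‖ ≤ B) ∧
    ∀ g i, g (w i) = (sn (C.ep (c g) (C.T (C.pm g i))) : Qb) * w (C.pm g i)

variable {C} {p q : ℕ} {i j : Fin 3} {c c' : GQ → C.A} {D D' : ℤ} {B B' : ℝ}

theorem nz_g0 (h : 2 • c C.g0 = 0) : C.nz c C.g0 = 0 := by
  rw [nz]
  rcases C.tors2 h with e | ⟨i, e⟩
  · simp [e]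
  · rw [e, act_T, act_T, pm_g0, pm_g0, add_assoc i, ← add_sub_assoc, sub_eq_zero]
    clear e
    exact C.T_add_ne (by revert i; decide) (by revert i; decide) (by revert i; decide)

theorem sk2_al (m : Fin 3 → ℤ) (i : Fin 3) (γ : Empty → F2) :
    C.al3 (K := Empty) (fun _ => 1) (fun k _ => m k) i γ = ev (C.e i) m := by
  simp [al3, al, sT, ev, sz, mul_comm]

theorem sk2_prod [Fintype (Empty → F2)] (m : Fin 3 → ℤ) :
    ∏ i, ∏ γ, C.al3 (K := Empty) (fun _ => 1) (fun k _ => m k) i γ = (C.Nm m : ℤ) := by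
  simp [sk2_al, prod_ev]

theorem sk2_mv (m : Fin 3 → ℤ) (ρ : Empty → ℤ) (γ : Empty → F2) :
    mv ρ (fun k _ => m k) γ = m := by
  funext k
  simp [mv, mat, sz]

theorem th_nv (hp : C.Gp p) (hi : C.pm (frb p) i = i) : C.Th p i (C.nv p i) := by
  have h : ∃ u, C.Th p i u := by
    obtain ⟨n, c, h1, h2, h3, h4, h5, h6⟩ := exists_ptr3 (K := Empty) (d := fun _ => 1) hp
      (fun _ => ⟨1, Subsingleton.elim _ _⟩) (fun i => i.elim) hi (B := Nat.nthRoot 3 p)
      (by simp)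
      (by simpa using Nat.lt_pow_nthRoot_add_one three_ne_zero p)
    obtain ⟨m, rfl⟩ : ∃ m : Fin 3 → ℤ, n = fun k _ => m k :=
      ⟨fun k => n k 0, funext₂ fun k T => congrArg _ (Subsingleton.elim _ _)⟩
    rw [@sk2_prod C (_)] at h5
    rw [sk2_al] at h6
    refine ⟨(m, c), fun e => h2 0 0 ?_, fun k => ?_, h3, h4.trans ?_, by exact_mod_cast h5, h6⟩
    · rw [sk2_al, show m = 0 from e]
      simp [ev]
    · refine (pow_le_pow_left₀ (abs_nonneg _) (h1 k 0) 3).trans ?_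
      exact_mod_cast Nat.pow_nthRoot_le_iff.2 (.inl three_ne_zero)
    · have : C.CN (K := Empty) (fun _ => 1) ≤ C.N0 := by
        simp only [CN, N0, Fintype.card_eq_zero, pow_zero, prod_const_one, mul_one]
        omega
      exact_mod_cast this
  rw [nv, dif_pos h]
  exact h.choose_spec

theorem z2_km {m : Fin 3 → ℤ} (h : m ≠ 0) : C.Z2 ⊤ (C.km m) := by
  exact z2_fn3 (fun i γ e => h (C.ev_eq_zero ((sk2_al m i γ).symm.trans e)))
    (fun _ _ => Subsingleton.elim _ _) 0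

theorem sk2_nv (C : Cv) (p : ℕ) (i : Fin 3) : (C.nv p i).1 ≠ 0 := by
  rw [nv]
  split_ifs with h
  · exact h.choose_spec.1
  · simp

theorem sk2_two (m : Fin 3 → ℤ) : 2 • C.act C.g0 (C.km m C.g0) = 0 := C.two_act _ (two_fn3 _ _)

theorem z2_be (C : Cv) (p : ℕ) (i : Fin 3) : C.Z2 ⊤ (C.be p i) := by
  exact (z2_km (C.sk2_nv p i)).add (z2_cob ⊤ (sk2_two _))

theorem be_g0 (C : Cv) (p : ℕ) (i : Fin 3) : C.be p i C.g0 = 0 := by
  exact nz_g0 (two_fn3 _ _)

theorem sk2_ndvd {u : (Fin 3 → ℤ) × ℤ} (h : C.Th p i u) (hq : C.Gp q) : ¬ (q : ℤ) ∣ u.2 :=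
  fun k => by
    have h1 := Int.le_of_dvd (abs_pos.2 h.2.2.1) ((dvd_abs _ _).2 k)
    have h2 := h.2.2.2.1
    have h3 := hq.2
    omega

theorem sk2_ndvd' {u : (Fin 3 → ℤ) × ℤ} (h : C.Th p i u) (hp : C.Gp p) (hq : C.Gp q)
    (k : q ≠ p) : ¬ (q : ℤ) ∣ C.Nm u.1 := fun l => by
  rw [h.2.2.2.2.1, (Nat.prime_iff_prime_int.1 hq.1).dvd_mul, Int.natCast_dvd_natCast,
    Nat.prime_dvd_prime_iff_eq hq.1 hp.1] at l
  exact l.elim (sk2_ndvd h hq) k

theorem be_sig (hp : C.Gp p) (hi : C.pm (frb p) i = i) : C.be p i (sig p) = C.T i := by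
  have t := th_nv hp hi
  rw [be, nz, hp.act_ine (sig_ine hp.1 hp.ne_two) (sk2_two _), sub_self, add_zero]
  exact (fn3_gen hp (fun i => i.elim) ((sk2_prod _).trans (by rw [t.2.2.2.2.1])) (sk2_ndvd t hp)
    ((sk2_al _ _ _).symm ▸ t.2.2.2.2.2) 0).trans (if_pos rfl)

theorem be_unr (hp : C.Gp p) (hi : C.pm (frb p) i = i) (hq : C.Gp q) (h : q ≠ p) :
    C.be p i (sig q) = 0 := by
  rw [be, nz, hq.act_ine (sig_ine hq.1 hq.ne_two) (sk2_two _), sub_self, add_zero]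
  exact fn3_ine hq (fun i => i.elim) (sk2_prod _) (sk2_ndvd' (th_nv hp hi) hp hq h) 0

theorem sk2_cob {S : C.A} (h : 2 • S = 0) (g : GQ) (i : Fin 3) :
    C.ep (C.act g S - S) (C.T (C.pm g i)) = C.ep S (C.T i) + C.ep S (C.T (C.pm g i)) := by
  rw [sub_eq_add_neg, C.neg_two h, C.ep_add_left (C.two_act g h) h (C.two_T _), ← act_T, ep_act]

theorem be_frb (hp : C.Gp p) (hi : C.pm (frb p) i = i) (hq : C.Gp q) (hj : C.pm (frb q) j = j)
    (h : q ≠ p) : sn (C.ep (C.be p i (frb q)) (C.T j)) =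
      J(C.Nm (C.nv p i).1 | q) * J(ev (C.rho q j) (C.nv p i).1 | q) := by
  have e := sk2_cob (sk2_two (C := C) (C.nv p i).1) (frb q) j
  rw [hj, CharTwo.add_self_eq_zero] at e
  rw [be, nz, C.ep_add_left (S := C.km _ _) (two_fn3 _ _) ((z2_cob ⊤ (sk2_two _)).two _ trivial)
    (C.two_T _), e, add_zero]
  have k := (fn3_frob (ρ := fun _ => 0) hq (fun i => i.elim) (fun i => i.elim) (sk2_prod _)
    (sk2_ndvd' (th_nv hp hi) hp hq h) hj).1 0
  rwa [sk2_mv] at k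

theorem z2_bo (C : Cv) (p : ℕ) (o : Option (Fin 3)) : C.Z2 ⊤ (C.bo p o) := by
  rcases o with _ | i
  exacts [C.z2_zero ⊤, C.z2_be p i]

/-- Removal of the ramification at a finite set of good primes. -/
theorem exists_bo (h : c ∈ C.U D) (V : Finset ℕ) (hV : ∀ q ∈ V, C.Gp q)
    (hD : ∀ q, C.Gp q → (q : ℤ) ∣ D → q ∈ V ∨ (q : ℤ) ∣ D') :
    ∃ μ : ℕ → Option (Fin 3), (∀ q ∈ V, ∀ i, μ q = some i → C.pm (frb q) i = i) ∧
      (∀ q ∈ V, μ q = none ↔ c (sig q) = 0) ∧ c - ∑ q ∈ V, C.bo q (μ q) ∈ C.U D' := by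
  have k : ∀ q, ∃ o : Option (Fin 3), q ∈ V → (∀ i, o = some i → C.pm (frb q) i = i) ∧
      (o = none ↔ c (sig q) = 0) ∧ C.bo q o (sig q) = c (sig q) := fun q => by
    by_cases hq : q ∈ V
    · rcases Z2.sig_ty (hV q hq) (h.1.mono le_top) with e | ⟨i, hi, e⟩
      · exact ⟨none, fun _ => ⟨by simp, by simp [e], e.symm⟩⟩
      · exact ⟨some i, fun _ => ⟨by simpa using hi, by simp [e, C.T_ne],
          (be_sig (hV q hq) hi).trans e.symm⟩⟩
    · exact ⟨none, fun l => absurd l hq⟩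
  choose μ k using k
  have u : ∀ q ∈ V, ∀ r, C.Gp r → r ≠ q → C.bo q (μ q) (sig r) = 0 := fun q hq r hr n => by
    have := (k q hq).1
    generalize μ q = o at this
    rcases o with _ | i
    exacts [rfl, be_unr (hV q hq) (this i rfl) hr n]
  refine ⟨μ, fun q hq => (k q hq).1, fun q hq => (k q hq).2.1,
    h.1.sub (z2_sum _ fun q _ => C.z2_bo q _), ?_, fun r hr n => ?_⟩
  · rw [Pi.sub_apply, h.2.1, Finset.sum_apply, sum_eq_zero fun q _ => ?_, sub_zero]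
    rcases μ q with _ | i
    exacts [rfl, C.be_g0 q i]
  · rw [Pi.sub_apply, Finset.sum_apply, sub_eq_zero]
    by_cases m : r ∈ V
    · rw [sum_eq_single_of_mem r m fun q hq l => u q hq r hr l.symm, (k r m).2.2]
    · rw [sum_eq_zero fun q hq => u q hq r hr (by rintro rfl; exact m hq)]
      exact h.2.2 r hr fun l => (hD r hr l).elim m n

theorem KD.mono (h : C.KD c B) (k : B ≤ B') : C.KD c B' := by
  obtain ⟨w, h1, h2⟩ := h
  exact ⟨w, fun i => ⟨(h1 i).1, (h1 i).2.1, (h1 i).2.2.trans k⟩, h2⟩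

theorem KD.add (h : C.KD c B) (h' : C.KD c' B') (h2 : ∀ g, 2 • c g = 0) (h2' : ∀ g, 2 • c' g = 0) :
    C.KD (c + c') (B * B') := by
  obtain ⟨w, h1, h3⟩ := h
  obtain ⟨w', h1', h3'⟩ := h'
  refine ⟨fun i => w i * w' i, fun i => ⟨mul_ne_zero (h1 i).1 (h1' i).1,
    (h1 i).2.1.mul (h1' i).2.1, ?_⟩, fun g i => ?_⟩
  · rw [map_mul, norm_mul]
    exact mul_le_mul (h1 i).2.2 (h1' i).2.2 (norm_nonneg _) ((norm_nonneg _).trans (h1 i).2.2)
  · rw [map_mul, h3, h3', Pi.add_apply, C.ep_add_left (h2 g) (h2' g) (C.two_T _), sn_add]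
    push_cast
    ring

theorem sk2_rot (h : c ∈ C.U D) (i j : Fin 3) : ∃ g, C.pm g i = j ∧ c g = 0 := by
  have e : ∀ i j : Fin 3, i = j ∨ i + 1 = j ∨ i + 1 + 1 = j := by decide
  rcases e i j with rfl | rfl | rfl
  · exact ⟨1, C.pm_one _, h.1.one⟩
  · exact ⟨C.g0, C.pm_g0 _, h.2.1⟩
  · exact ⟨C.g0 * C.g0, by rw [pm_mul, pm_g0, pm_g0],
      by rw [h.1.coc _ trivial _ trivial, h.2.1, map_zero, add_zero]⟩

theorem exists_KD (h : c ∈ C.U D) : ∃ B, C.KD c B := by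
  have st : ∀ g, g ∈ MulAction.stabilizer GQ (C.e 0) ↔ C.pm g 0 = 0 := fun g =>
    (show g (C.e 0) = C.e 0 ↔ _ by rw [e_pm, C.e_inj.eq_iff])
  obtain ⟨b, b0, hb⟩ := B2.h90 (B2.b3a_op (C.e 0)).closed
    (f := fun g => (sn (C.ep (c g) (C.T 0)) : Qb))
    ((h.1.sm.mono le_top).comp fun x => (sn (C.ep x (C.T 0)) : Qb))
    (fun g _ => by rcases F2_cases (C.ep (c g) (C.T 0)) with e | e <;> simp [e, sn_zero, sn_one])
    fun g hg k _ => by
      have e := C.ep_act g (c k) (C.T 0)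
      rw [act_T, (st g).1 hg] at e
      rw [h.1.coc _ trivial _ trivial, C.ep_add_left (h.1.two _ trivial)
        (C.two_act _ (h.1.two _ trivial)) (C.two_T _), e, sn_add, map_intCast, Int.cast_mul]
  obtain ⟨n, n0, hn⟩ := ((IsFractionRing.isAlgebraic_iff ℤ ℚ Qb).2
    (Algebra.IsAlgebraic.isAlgebraic b)).exists_integral_multiple
  choose γ h1 h2 using sk2_rot h 0
  refine ⟨∑ i, ‖B2.jC (γ i (n • b))‖, fun i => γ i (n • b), fun i => ⟨?_, hn.map _,
    single_le_sum (f := fun i => ‖B2.jC (γ i (n • b))‖) (fun _ _ => norm_nonneg _) (mem_univ i)⟩,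
    fun g i => ?_⟩
  · simpa [n0] using b0
  · obtain ⟨k, hk⟩ : ∃ k, g * γ i = γ (C.pm g i) * k := ⟨_, (mul_inv_cancel_left _ _).symm⟩
    have k1 : C.pm k 0 = 0 := C.pm_inj (γ (C.pm g i)) (by rw [← pm_mul, ← hk, pm_mul, h1, h1])
    have k2 := congrArg c hk
    rw [h.1.coc _ trivial _ trivial, h.1.coc _ trivial _ trivial, h2, h2, map_zero, add_zero,
      zero_add] at k2
    have k3 := C.ep_act (γ (C.pm g i)) (c k) (C.T 0)
    rw [← k2, act_T, h1] at k3
    rw [k3, ← AlgEquiv.mul_apply, hk, AlgEquiv.mul_apply, map_zsmul k, ← hb k ((st k).2 k1),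
      ← mul_smul_comm, map_mul, map_intCast]

theorem sk2_sn (a : F2) : (sn a : Qb) * sn a = 1 := by
  rw [← Int.cast_mul, ← sn_add, CharTwo.add_self_eq_zero, sn_zero, Int.cast_one]

theorem sk2_norm (a : F2) : ‖B2.jC (sn a)‖ = 1 := by
  rcases F2_cases a with rfl | rfl <;> simp [sn_zero, sn_one]

theorem kd_cob {S : C.A} (h : 2 • S = 0) : C.KD (fun g => C.act g S - S) 1 :=
  ⟨fun i => sn (C.ep S (C.T i)), fun i => ⟨left_ne_zero_of_mul_eq_one (sk2_sn _),
    isIntegral_intCast _, (sk2_norm _).le⟩, fun g i => by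
      rw [sk2_cob h, sn_add, map_intCast, Int.cast_mul, mul_assoc, sk2_sn, mul_one]⟩

theorem kd_km {m : Fin 3 → ℤ} (h : m ≠ 0) (hB : ∀ i, ‖B2.jC (ev (C.e i) m)‖ ≤ B) :
    C.KD (C.km m) (B ^ 2) := by
  obtain ⟨z, hz⟩ : ∃ z : Fin 3 → Qb, z = fun i => sqr (ev (C.e i) m) := ⟨_, rfl⟩
  have z2 : ∀ i, z i ^ 2 = ev (C.e i) m := fun i => hz ▸ sqr_sq _
  have z0 : ∀ i, z i ≠ 0 := fun i e => h (C.ev_eq_zero (i := i) (by rw [← z2, e]; simp))
  have zi : ∀ i, IsIntegral ℤ (z i) := fun i =>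
    .of_pow two_pos (by rw [z2, ← sk2_al m i 0]; exact int_al3 _ _)
  have zb : ∀ i, ‖B2.jC (z i)‖ ≤ √B := fun i =>
    Real.le_sqrt_of_sq_le (by rw [← norm_pow, ← map_pow, z2]; exact hB i)
  have za : ∀ g i, g (z i) =
      sn (C.bt3 (K := Empty) (fun _ => 1) (fun k _ => m k) g (C.pm g i) 0) * z (C.pm g i) :=
    fun g i => by
      have := bt3_spec (C := C) (K := Empty) (d := fun _ => 1) (n := fun k _ => m k) g (C.pm g i) 0
      rwa [inv_pm, sk2_al, sk2_al, ← congrFun hz, ← congrFun hz] at this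
  refine ⟨fun i => z i * ∏ l, z l, fun i => ⟨mul_ne_zero (z0 i) (prod_ne_zero_iff.2 fun l _ => z0 l),
    (zi i).mul (.prod _ fun l _ => zi l), ?_⟩, fun g i => ?_⟩
  · rw [map_mul, map_prod, norm_mul, norm_prod]
    refine (mul_le_mul (zb i) (prod_le_prod (fun _ _ => norm_nonneg _) fun l _ => zb l)
      (by positivity) (Real.sqrt_nonneg _)).trans_eq ?_
    rw [prod_const, card_univ, Fintype.card_fin, ← pow_succ', show 3 + 1 = 2 * 2 from rfl, pow_mul,
      Real.sq_sqrt ((norm_nonneg _).trans (hB 0))]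
  · rw [map_mul, map_prod, za, km, fn3, ep_pr, prod_congr rfl fun l _ => za g l,
      (C.pm_bij g).prod_comp fun l => (sn (C.bt3 (K := Empty) (fun _ => 1) (fun k _ => m k) g l 0) :
        Qb) * z l]
    simp only [Fin.prod_univ_three, Fin.sum_univ_three, sn_add]
    push_cast
    ring

theorem kd_be (hp : C.Gp p) (hi : C.pm (frb p) i = i) : C.KD (C.be p i) ((p : ℝ) ^ 2) := by
  have t := th_nv hp hi
  have R1 : (1 : ℝ) ≤ C.R := by exact_mod_cast C.one
  have k : ∀ l, 3 * (C.R : ℤ) ^ 2 * |(C.nv p i).1 l| ≤ p := fun l => by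
    have h1 : (3 * (C.R : ℤ) ^ 2) ^ 3 ≤ p := by
      have := hp.2
      have : (3 * C.R ^ 2) ^ 3 ≤ p := by
        unfold N0 at this
        omega
      exact_mod_cast this
    have h2 : (1 : ℤ) ≤ p := by exact_mod_cast hp.1.one_le
    refine le_of_pow_le_pow_left₀ three_ne_zero (by positivity) ?_
    rw [mul_pow]
    exact (mul_le_mul h1 (t.2.1 l) (by positivity) (by positivity)).trans (by nlinarith)
  refine ((kd_km (B := p) t.1 fun j => ?_).add (kd_cob (sk2_two _)) (fun _ => two_fn3 _ _)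
    fun g => (z2_cob ⊤ (sk2_two _)).two g trivial).mono (mul_one _).le
  rw [ev, map_sum]
  refine (norm_sum_le _ _).trans ((sum_le_card_nsmul _ _ (p / 3 : ℝ) fun l _ => ?_).trans_eq
    (by simp; ring))
  have k' : 3 * (C.R : ℝ) ^ 2 * |((C.nv p i).1 l : ℝ)| ≤ p := by exact_mod_cast k l
  rw [map_mul, map_pow, map_intCast, norm_mul, norm_pow, Complex.norm_intCast]
  have := mul_le_mul_of_nonneg_left ((pow_le_pow_left₀ (norm_nonneg _) (C.hR j) l).trans
    (pow_le_pow_right₀ R1 (Nat.lt_succ_iff.1 l.2))) (abs_nonneg ((C.nv p i).1 l : ℝ))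
  linarith

theorem kd_zero (C : Cv) : C.KD 0 1 :=
  ⟨fun _ => 1, fun _ => ⟨one_ne_zero, isIntegral_one, by simp⟩, fun g i => by
    simp [ep_zero_left, sn_zero]⟩

theorem kd_sum (V : Finset ℕ) (hV : ∀ q ∈ V, C.Gp q) {μ : ℕ → Option (Fin 3)}
    (h : ∀ q ∈ V, ∀ i, μ q = some i → C.pm (frb q) i = i) :
    C.KD (∑ q ∈ V, C.bo q (μ q)) (∏ q ∈ V, (q : ℝ) ^ 2) := by
  induction V using Finset.induction_on with
  | empty => exact C.kd_zero
  | insert q V hq ih =>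
    rw [sum_insert hq, prod_insert hq]
    refine KD.add ?_ (ih (fun r hr => hV r (mem_insert_of_mem hr))
      fun r hr => h r (mem_insert_of_mem hr)) (fun g => (C.z2_bo _ _).two g trivial)
      fun g => (z2_sum _ fun r _ => C.z2_bo r _).two g trivial
    have k := h q (mem_insert_self _ _)
    have l := hV q (mem_insert_self _ _)
    generalize μ q = o at k
    rcases o with _ | i
    · exact C.kd_zero.mono (one_le_pow₀ (by exact_mod_cast l.1.one_le))
    · exact kd_be l (k i rfl)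

theorem kd_U (C : Cv) : ∃ B : ℕ, 1 ≤ B ∧ ∀ D : ℤ, D ≠ 0 → ∀ c ∈ C.U D, C.KD c (B * (D : ℝ) ^ 2) := by
  have := C.finite_U one_ne_zero
  choose b hb using fun c : C.U 1 => exists_KD c.2
  obtain ⟨M, hM⟩ := (Set.finite_range b).bddAbove
  refine ⟨⌈M⌉₊ + 1, le_add_self, fun D hD c h => ?_⟩
  have hV : ∀ q ∈ D.natAbs.primeFactors.filter C.Gp, C.Gp q := fun q hq => (mem_filter.1 hq).2
  obtain ⟨μ, h1, -, h2⟩ := exists_bo (D' := 1) h _ hV fun q hq k => .inl (mem_filter.2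
    ⟨Nat.mem_primeFactors.2 ⟨hq.1, Int.natCast_dvd.1 k, Int.natAbs_ne_zero.2 hD⟩, hq⟩)
  have k := (hb ⟨_, h2⟩).add (kd_sum _ hV h1) (fun g => h2.1.two g trivial)
    fun g => (z2_sum _ fun r _ => C.z2_bo r _).two g trivial
  rw [sub_add_cancel] at k
  refine k.mono (mul_le_mul ((hM ⟨_, rfl⟩).trans ((Nat.le_ceil M).trans (by simp))) ?_
    (by positivity) (by positivity))
  have := Nat.le_of_dvd (Int.natAbs_pos.2 hD) ((prod_dvd_prod_of_subset _ _ (fun q => q)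
    (filter_subset C.Gp _)).trans (Nat.prod_primeFactors_dvd D.natAbs))
  rw [prod_pow, ← sq_abs (D : ℝ), ← Int.cast_abs, ← Nat.cast_natAbs, ← Nat.cast_prod]
  exact pow_le_pow_left₀ (by positivity) (Nat.cast_le.2 this) 2

/-- The quartic set of a nonzero normalised cocycle. -/
theorem KD.tc (h : C.KD c B) (hB : 1 ≤ B) (hc : c ∈ C.U D) (h0 : c ≠ 0) :
    ∃ (t : {S : C.A // 2 • S = 0} → Qb) (ac : GQ → {S : C.A // 2 • S = 0} → {S : C.A // 2 • S = 0}),
      Tc t ac (3 * B) ∧ ∀ g S, (ac g S).1 = C.act g S.1 + c g := by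
  obtain ⟨w, h1, h2⟩ := h
  obtain ⟨g1, hg⟩ := Function.ne_iff.1 h0
  have two : ∀ g, 2 • c g = 0 := fun g => hc.1.two g trivial
  have ne : ∀ i (a : F2), w (i + 1) ≠ sn a * w i := fun i a e => hg (by
    have r : ∀ i, C.g0 (w i) = w (i + 1) := fun i => by
      rw [h2, hc.2.1, ep_zero_left, sn_zero, pm_g0, Int.cast_one, one_mul]
    have e1 := congrArg C.g0 e
    rw [map_mul, map_intCast, r, r] at e1
    have e2 := congrArg C.g0 e1
    rw [map_mul, map_intCast, r, r, (by decide : ∀ i : Fin 3, i + 1 + 1 + 1 = i), e1, e,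
      ← mul_assoc, sk2_sn, one_mul, ← e] at e2
    rw [e, ← mul_assoc, sk2_sn, one_mul] at e1
    have e3 : ∀ j, w j = w i := fun j => by
      have : ∀ i j : Fin 3, i = j ∨ i + 1 = j ∨ i + 1 + 1 = j := by decide
      rcases this i j with rfl | rfl | rfl
      exacts [rfl, e2.symm, e1]
    have e4 : ∀ j, C.ep (c g1) (C.T j) = C.ep (c g1) (C.T (C.pm g1 i)) := fun j => by
      have a1 := h2 g1 (C.pm g1⁻¹ j)
      rw [pm_inv, e3, h2, e3, e3 j] at a1
      exact (sn_cast_inj (mul_right_cancel₀ (h1 i).1 a1)).symm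
    have e5 := C.sum_ep (two g1)
    rw [Fin.sum_univ_three, e4 0, e4 1, e4 2, CharTwo.add_self_eq_zero, zero_add] at e5
    exact C.eq_zero_of_ep fun j => (e4 j).trans e5)
  have su : ∀ S : C.A, 2 • S = 0 → ∃ g, c g = S := fun S hS => by
    rcases C.tors2 hS with rfl | ⟨j, rfl⟩
    · exact ⟨1, hc.1.one⟩
    obtain ⟨k, hk⟩ := (C.tors2 (two g1)).resolve_left hg
    obtain ⟨g, a1, a2⟩ := sk2_rot hc k j
    exact ⟨g * g1, by rw [hc.1.coc _ trivial _ trivial, a2, hk, act_T, a1, zero_add]⟩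
  refine ⟨fun S => ∑ i, sn (C.ep S.1 (C.T i)) * w i, fun g S => ⟨C.act g S.1 + c g, by
    rw [smul_add, C.two_act g S.2, two, add_zero]⟩, ⟨fun S S' e => ?_, fun S => ?_,
      fun g S => ?_, fun S S' => ?_, by linarith, fun S => ?_⟩, fun _ _ => rfl⟩
  · rcases C.tors2 (P := S.1 - S'.1) (by rw [smul_sub, S.2, S'.2, sub_zero]) with k | ⟨k, hk⟩
    · exact Subtype.ext (sub_eq_zero.1 k)
    exfalso
    refine ne (k + 1) (1 + C.ep S'.1 (C.T (k + 1)) + C.ep S'.1 (C.T (k + 1 + 1))) ?_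
    have s1 := sk2_sn (C.ep S'.1 (C.T (k + 1 + 1)))
    simp only [sub_eq_iff_eq_add.1 hk, C.ep_add_left (C.two_T k) S'.2 (C.two_T _), ep_T, sn_add,
      Fin.sum_univ_three] at e ⊢
    rcases fin3 k with rfl | rfl | rfl <;> simp [sn_zero, sn_one] at e s1 ⊢
    · linear_combination (-(sn (C.ep S'.1 (C.T 2)) : Qb) / 2) * e - w 2 * s1
    · linear_combination (-(sn (C.ep S'.1 (C.T 0)) : Qb) / 2) * e - w 0 * s1
    · linear_combination (-(sn (C.ep S'.1 (C.T 1)) : Qb) / 2) * e - w 1 * s1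
  · exact .sum _ fun i _ => (isIntegral_intCast _).mul (h1 i).2.1
  · rw [map_sum]
    refine (sum_congr rfl fun i _ => ?_).trans ((C.pm_bij g).sum_comp _)
    rw [map_mul, map_intCast, h2, C.ep_add_left (C.two_act g S.2) (two g) (C.two_T _), sn_add,
      ← C.act_T g i, ep_act, Int.cast_mul, mul_assoc]
  · obtain ⟨g, e⟩ := su _ S.2
    obtain ⟨g', e'⟩ := su _ S'.2
    refine ⟨g' * g⁻¹, Subtype.ext ?_⟩
    have := hc.1.coc (g' * g⁻¹) trivial g trivial
    rw [inv_mul_cancel_right, e, e'] at this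
    exact (add_comm _ _).trans this.symm
  · rw [map_sum]
    refine (norm_sum_le _ _).trans ((sum_le_card_nsmul _ _ B fun i _ => ?_).trans_eq (by simp))
    rw [map_mul, norm_mul, sk2_norm, one_mul]
    exact (h1 i).2.2

end Cv

end Pool.Agent.B6.S
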