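import Pool.Agent.Lib.MP_696deb_nt.B6.SK0
import Pool.Agent.Lib.MP_696deb_nt.Sm.ThueA

/-! Bilinear forms in periodic functions of mean zero. -/

set_option autoImplicit false

open scoped Classical NumberTheorySymbols
open Finset Function

namespace Pool.Agent.B6.S

open Pool.Agent.Lib.MP_696deb_nt Pool.Agent.Lib.MP_696deb_nt.Sm

variable {Γ : Type} [Fintype Γ]

/-- The cube of side `2 N + 1`. -/
noncomputable def cube (Γ : Type) [Fintype Γ] (N : ℕ) : Finset (Γ → ℤ) :=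
  Fintype.piFinset fun _ : Γ => Icc (-(N : ℤ)) N

/-- A bounded function of period `r` and mean zero. -/
structure Per (r : ℕ) (θ : (Γ → ℤ) → ℝ) : Prop where
  abs : ∀ v, |θ v| ≤ 1
  per : ∀ v v', (∀ T, v T ≡ v' T [ZMOD r]) → θ v = θ v'
  mean : ∑ v ∈ Fintype.piFinset (fun _ : Γ => Ico (0 : ℤ) r), θ v = 0

theorem sl0_sum {r : ℕ} [NeZero r] {θ : (Γ → ℤ) → ℝ}
    (h : ∀ v v', (∀ T, v T ≡ v' T [ZMOD r]) → θ v = θ v') :
    ∑ v ∈ Fintype.piFinset (fun _ : Γ => Ico (0 : ℤ) r), θ v =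
      ∑ u : Γ → ZMod r, θ fun T => (u T).val := by
  have h1 := lbil_cube (m := r) 0 1 fun u => θ fun T => (u T).val
  rw [Nat.cast_one, Nat.cast_one, one_mul, zero_add, one_pow, one_mul] at h1
  rw [← h1]
  exact sum_congr rfl fun v _ => h _ _ fun T => lbil_val _

theorem Per.of_zmod {r : ℕ} [NeZero r] {θ : (Γ → ℤ) → ℝ} (h1 : ∀ v, |θ v| ≤ 1)
    (h2 : ∀ v v', (∀ T, v T ≡ v' T [ZMOD r]) → θ v = θ v')
    (h3 : ∑ u : Γ → ZMod r, θ (fun T => (u T).val) = 0) : Per r θ :=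
  ⟨h1, h2, (sl0_sum h2).trans h3⟩

theorem sl0_of {r : ℕ} [NeZero r] [Fintype (Γ → ZMod r)] {θ : (Γ → ℤ) → ℝ} (h1 : ∀ v, |θ v| ≤ 1)
    (h2 : ∀ v v', (∀ T, v T ≡ v' T [ZMOD r]) → θ v = θ v')
    (h3 : ∑ u : Γ → ZMod r, θ (fun T => (u T).val) = 0) : Per r θ :=
  Per.of_zmod h1 h2 ((sum_congr (by ext; simp) fun _ _ => rfl).trans h3)

theorem sl0_mean {r r' : ℕ} {θ θ' : (Γ → ℤ) → ℝ} (hr : r.Prime) (hr' : r'.Prime) (hne : r ≠ r')
    (h : Per r θ) (h' : Per r' θ') :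
    ∑ v ∈ Fintype.piFinset (fun _ : Γ => Ico (0 : ℤ) (r * r' : ℕ)), θ v * θ' v = 0 := by
  have : Fact r.Prime := ⟨hr⟩
  have : Fact r'.Prime := ⟨hr'⟩
  let e := ZMod.chineseRemainder ((Nat.coprime_primes hr hr').2 hne)
  let f : (Γ → ZMod r) → ℝ := fun u => θ fun T => (u T).val
  let g : (Γ → ZMod r') → ℝ := fun u => θ' fun T => (u T).val
  let E : (Γ → ZMod (r * r')) ≃ (Γ → ZMod r) × (Γ → ZMod r') :=
    (Equiv.piCongrRight fun _ => e.toEquiv).trans (Equiv.arrowProdEquivProdArrow _ _ _)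
  have h1 := lbil_cube (m := r * r') 0 1 fun u => f (E u).1 * g (E u).2
  rw [E.sum_comp fun w => f w.1 * g w.2, Fintype.sum_prod_type, ← Fintype.sum_mul_sum,
    (sl0_sum h.per).symm.trans h.mean, zero_mul, mul_zero, Nat.cast_one, one_mul, zero_add] at h1
  rw [← h1]
  refine sum_congr rfl fun v _ => ?_
  have h3 : E (fun T => v T) = (fun T => (v T : ZMod r), fun T => (v T : ZMod r')) :=
    Prod.ext (funext fun T => (congrArg Prod.fst (map_intCast e (v T))).trans (Prod.fst_intCast _))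
      (funext fun T => (congrArg Prod.snd (map_intCast e (v T))).trans (Prod.snd_intCast _))
  rw [h3, h.per v _ fun T => lbil_val (v T), h'.per v _ fun T => lbil_val (v T)]

theorem gbil (R : Finset ℕ) (θ : ℕ → (Γ → ℤ) → ℝ) (N Rm : ℕ)
    (hR : ∀ r ∈ R, r.Prime ∧ r ≤ Rm ∧ Per r (θ r)) (A : (Γ → ℤ) → ℝ) (b : ℕ → ℝ)
    (hb : ∀ r, |b r| ≤ 1) :
    (∑ v ∈ cube Γ N, A v * ∑ r ∈ R, b r * θ r v) ^ 2 ≤
      (∑ v ∈ cube Γ N, A v ^ 2) * ((2 * N + 1 : ℝ) ^ Fintype.card Γ * R.card +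
        (R.card : ℝ) ^ 2 * (Fintype.card Γ * (Rm : ℝ) ^ 2 * (2 * N + 1 : ℝ) ^ (Fintype.card Γ - 1))) := by
  have h4 : ((cube Γ N).card : ℝ) = (2 * N + 1 : ℝ) ^ Fintype.card Γ := by
    rw [cube, Fintype.card_piFinset, prod_const, card_univ, Int.card_Icc,
      show (N : ℤ) + 1 - -N = (2 * N + 1 : ℕ) by push_cast; ring, Int.toNat_natCast]
    push_cast
    rfl
  have h5 : ∀ r ∈ R, ∀ r' ∈ R, ∀ v, |θ r v * θ r' v| ≤ 1 := fun r hr r' hr' v => by
    rw [abs_mul]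
    exact mul_le_one₀ ((hR r hr).2.2.abs v) (abs_nonneg _) ((hR r' hr').2.2.abs v)
  generalize hB : Fintype.card Γ * (Rm : ℝ) ^ 2 * (2 * N + 1 : ℝ) ^ (Fintype.card Γ - 1) = B
  have h0 : 0 ≤ B := by rw [← hB]; positivity
  have h6 : ∀ r ∈ R, ∀ r' ∈ R, |∑ v ∈ cube Γ N, θ r v * θ r' v| ≤
      (if r = r' then ((cube Γ N).card : ℝ) else 0) + B := by
    intro r hr r' hr'
    obtain ⟨a1, a3, a4⟩ := hR r hr
    obtain ⟨b1, b3, b4⟩ := hR r' hr'
    split_ifs with e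
    · refine ((abs_sum_le_sum_abs _ _).trans
        (sum_le_card_nsmul _ _ 1 fun v _ => h5 r hr r' hr' v)).trans ?_
      rw [nsmul_one]
      exact le_add_of_nonneg_right h0
    · refine (box_sum (mul_pos a1.pos b1.pos) N _ (h5 r hr r' hr') (fun v v' h => ?_)
        (sl0_mean a1 b1 e a4 b4)).trans ?_
      · push_cast at h
        rw [a4.per v v' fun T => (h T).of_mul_right _, b4.per v v' fun T => (h T).of_mul_left _]
      · rw [zero_add, ← hB, sq]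
        push_cast
        gcongr
  have h7 : ∑ v ∈ cube Γ N, (∑ r ∈ R, b r * θ r v) ^ 2 ≤
      ∑ r ∈ R, ∑ r' ∈ R, ((if r = r' then ((cube Γ N).card : ℝ) else 0) + B) := by
    simp only [sq, sum_mul_sum]
    rw [sum_comm]
    refine sum_le_sum fun r hr => ?_
    rw [sum_comm]
    refine sum_le_sum fun r' hr' => le_trans ?_ (h6 r hr r' hr')
    simp only [mul_mul_mul_comm (b r) _ (b r'), ← mul_sum]
    refine (le_abs_self _).trans ?_
    rw [abs_mul, abs_mul]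
    exact mul_le_of_le_one_left (abs_nonneg _) (mul_le_one₀ (hb r) (abs_nonneg _) (hb r'))
  have h8 : ∑ r ∈ R, ∑ r' ∈ R, ((if r = r' then ((cube Γ N).card : ℝ) else 0) + B) =
      (cube Γ N).card * R.card + R.card ^ 2 * B := by
    rw [sum_congr rfl fun r hr => by rw [sum_add_distrib, sum_ite_eq, if_pos hr, sum_const],
      sum_const, nsmul_eq_mul, nsmul_eq_mul]
    ring
  rw [← h4, ← h8]
  exact (sum_mul_sq_le_sq_mul_sq _ _ _).trans
    (mul_le_mul_of_nonneg_left h7 (sum_nonneg fun _ _ => sq_nonneg _))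

theorem gbil_inj (P R : Finset ℕ) (n : ℕ → Γ → ℤ) (θ : ℕ → (Γ → ℤ) → ℝ) (N Rm : ℕ)
    (hn : ∀ p ∈ P, ∀ T, |n p T| ≤ N) (hinj : Set.InjOn n P)
    (hR : ∀ r ∈ R, r.Prime ∧ r ≤ Rm ∧ Per r (θ r)) (a b : ℕ → ℝ) (ha : ∀ p, |a p| ≤ 1)
    (hb : ∀ r, |b r| ≤ 1) :
    (∑ p ∈ P, ∑ r ∈ R, a p * b r * θ r (n p)) ^ 2 ≤
      P.card * ((2 * N + 1 : ℝ) ^ Fintype.card Γ * R.card +
        (R.card : ℝ) ^ 2 * (Fintype.card Γ * (Rm : ℝ) ^ 2 * (2 * N + 1 : ℝ) ^ (Fintype.card Γ - 1))) := by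
  let A : (Γ → ℤ) → ℝ := fun v => if h : ∃ p ∈ P, n p = v then a h.choose else 0
  have h1 : ∀ p ∈ P, A (n p) = a p := fun p hp => by
    have h : ∃ p' ∈ P, n p' = n p := ⟨p, hp, rfl⟩
    simp only [A, dif_pos h]
    rw [hinj h.choose_spec.1 hp h.choose_spec.2]
  have h2 : ∀ G : ℝ → (Γ → ℤ) → ℝ, (∀ v, G 0 v = 0) →
      ∑ v ∈ cube Γ N, G (A v) v = ∑ p ∈ P, G (a p) (n p) := fun G hG => by
    rw [← sum_congr rfl fun p hp => congrArg (G · (n p)) (h1 p hp),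
      ← sum_image (f := fun v => G (A v) v) hinj]
    refine (sum_subset (fun v hv => ?_) fun v _ hv => ?_).symm
    · obtain ⟨p, hp, rfl⟩ := mem_image.1 hv
      exact Fintype.mem_piFinset.2 fun T => mem_Icc.2 (abs_le.1 (hn p hp T))
    · rw [mem_image] at hv
      simp only [A, dif_neg hv, hG]
  have h3 := gbil R θ N Rm hR A b hb
  rw [h2 (fun x v => x * ∑ r ∈ R, b r * θ r v) fun _ => zero_mul _,
    h2 (fun x _ => x ^ 2) fun _ => by simp] at h3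
  refine le_trans (le_of_eq ?_) (h3.trans (mul_le_mul_of_nonneg_right ?_ (by positivity)))
  · simp only [mul_sum, ← mul_assoc]
  simpa using sum_le_card_nsmul P (fun p => a p ^ 2) 1 fun p _ =>
    (sq_le_one_iff_abs_le_one _).2 (ha p)

theorem Cv.per_th3 (C : Cv) {q : ℕ} (hq : C.Gp q) {ρ : ℤ} (h : (q : ℤ) ∣ C.fv ρ) {s t : F2}
    (hst : s ≠ 0 ∨ t ≠ 0) : Per q (C.th3 q ρ s t) := by
  have : NeZero q := ⟨hq.1.ne_zero⟩
  exact sl0_of (C.abs_th3_le q ρ s t) (fun _ _ => C.th3_congr q ρ s t) (C.th3_mean hq h hst)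

/-- A product of symbols of the reductions of a number of the compositum. -/
theorem Cv.per_prod (C : Cv) {K : Type} [Fintype K] {q : ℕ} (hq : C.Gp q) {ρ : ℤ}
    (h : (q : ℤ) ∣ C.fv ρ) {ρs : K → ℤ} (hρ : ∀ i, ¬ (q : ℤ) ∣ ρs i) {s t : (K → F2) → F2}
    (hst : ∃ γ, s γ ≠ 0 ∨ t γ ≠ 0) :
    Per q fun v : Fin 3 × (K → F2) → ℤ =>
      ∏ γ, C.th3 q ρ (s γ) (t γ) fun k => ∑ T, mat ρs γ T * v (k, T) := by
  have : NeZero q := ⟨hq.1.ne_zero⟩
  refine sl0_of (fun v => ?_) (fun v v' e => prod_congr rfl fun γ _ =>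
    C.th3_congr _ _ _ _ fun k => (ZMod.intCast_eq_intCast_iff _ _ q).1 ?_) ?_
  · rw [abs_prod]
    exact prod_le_one (fun _ _ => abs_nonneg _) fun γ _ => C.abs_th3_le _ _ _ _ _
  · push_cast
    exact sum_congr rfl fun T _ => by rw [(ZMod.intCast_eq_intCast_iff _ _ q).2 (e _)]
  let L : (Fin 3 × (K → F2) → ZMod q) → (K → F2) → Fin 3 → ZMod q :=
    fun u γ k => ∑ T, (mat ρs γ T : ZMod q) * u (k, T)
  have h1 : Injective L := fun u u' e => funext fun x => sub_eq_zero.1 <| congrFun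
    (mat_inj hq.1 hq.ne_two hρ (fun T => u (x.1, T) - u' (x.1, T)) fun γ => by
      simp only [mul_sub, sum_sub_distrib]
      exact sub_eq_zero.2 (congrFun (congrFun e γ) x.1)) x.2
  have h2 : Bijective L := (Fintype.bijective_iff_injective_and_card L).2
    ⟨h1, by simp only [Fintype.card_fun, Fintype.card_prod, pow_mul]⟩
  let f : (K → F2) → (Fin 3 → ZMod q) → ℝ := fun γ w => C.th3 q ρ (s γ) (t γ) fun k => (w k).val
  obtain ⟨γ, hγ⟩ := hst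
  refine (sum_congr rfl fun u _ => ?_).trans ((h2.sum_comp fun w => ∏ γ, f γ (w γ)).trans ?_)
  · refine prod_congr rfl fun γ _ => C.th3_congr _ _ _ _ fun k =>
      (ZMod.intCast_eq_intCast_iff _ _ q).1 ?_
    simp [L]
  · rw [← Fintype.piFinset_univ, ← prod_univ_sum]
    exact prod_eq_zero (mem_univ γ) (C.th3_mean hq h hγ)

end Pool.Agent.B6.S
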