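import Pool.Agent.Lib.MP_696deb_nt.B6.SL0

/-! Amplification of a bilinear form in the cubic ring. -/

set_option autoImplicit false

open scoped Classical NumberTheorySymbols
open Finset Function

namespace Pool.Agent.B6.S

open Pool.Agent.Lib.MP_696deb_nt Pool.Agent.Lib.MP_696deb_nt.Sm

/-- The product of a tuple in the cubic ring. -/
def Cv.pw (C : Cv) : (m : ℕ) → (Fin m → Fin 3 → ℤ) → Fin 3 → ℤ
  | 0, _ => ![1, 0, 0]
  | m + 1, x => C.mu3 (x 0) (C.pw m fun i => x i.succ)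

theorem Cv.Nm_one (C : Cv) : C.Nm ![1, 0, 0] = 1 := by
  simp [Cv.Nm, Cv.sh, Matrix.det_fin_three]

theorem Cv.th3_one (C : Cv) (q : ℕ) (ρ : ℤ) (s t : F2) : C.th3 q ρ s t ![1, 0, 0] = 1 := by
  have h : ev ρ ![1, 0, 0] = 1 := by simp [ev, Fin.sum_univ_three]
  simp [Cv.th3, C.Nm_one, h]

theorem Cv.Nm_pw (C : Cv) (m : ℕ) (x : Fin m → Fin 3 → ℤ) :
    C.Nm (C.pw m x) = ∏ i, C.Nm (x i) := by
  induction m with
  | zero => simp [Cv.pw, C.Nm_one]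
  | succ m ih => rw [Cv.pw, C.Nm_mu3, ih, Fin.prod_univ_succ]

theorem Cv.th3_pw (C : Cv) {q : ℕ} {ρ : ℤ} (h : (q : ℤ) ∣ C.fv ρ) (s t : F2) (m : ℕ)
    (x : Fin m → Fin 3 → ℤ) : C.th3 q ρ s t (C.pw m x) = ∏ i, C.th3 q ρ s t (x i) := by
  induction m with
  | zero => simp [Cv.pw, C.th3_one]
  | succ m ih => rw [Cv.pw, C.th3_mul h, ih, Fin.prod_univ_succ]

theorem Cv.exists_pw_le (C : Cv) : ∃ κ : ℕ, 1 ≤ κ ∧ ∀ (m : ℕ) (x : Fin m → Fin 3 → ℤ) (N : ℕ),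
    (∀ i k, |x i k| ≤ N) → ∀ k, |C.pw m x k| ≤ (κ ^ m * N ^ m : ℕ) := by
  obtain ⟨κ, h1, hκ⟩ := C.exists_mu3_le
  refine ⟨κ, h1, fun m => ?_⟩
  induction m with
  | zero =>
    intro x N _ k
    fin_cases k <;> simp [Cv.pw]
  | succ m ih =>
    intro x N hx k
    have := hκ (x 0) (C.pw m fun i => x i.succ) N (κ ^ m * N ^ m) (hx 0)
      (ih _ N fun i k => hx _ k) k
    rw [Cv.pw]
    refine this.trans (le_of_eq ?_)
    congr 1
    ring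

/-- The mean square of the fibre sums of a map with small fibres. -/
theorem sum_fib_sq {ι V : Type} [DecidableEq V] (T : Finset ι) (U : Finset V) (π : ι → V) (w : ι → ℝ)
    (hw : ∀ x, |w x| ≤ 1) (hπ : ∀ x ∈ T, π x ∈ U) (D : ℕ)
    (hD : ∀ x ∈ T, (T.filter fun y => π y = π x).card ≤ D) :
    ∑ v ∈ U, (∑ x ∈ T.filter (fun y => π y = v), w x) ^ 2 ≤ D * T.card := by
  have h1 : ∀ v ∈ U, (∑ x ∈ T.filter (fun y => π y = v), w x) ^ 2 ≤
      D * ((T.filter fun y => π y = v).card : ℝ) := by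
    intro v _
    have ha : |∑ x ∈ T.filter (fun y => π y = v), w x| ≤ (T.filter fun y => π y = v).card := by
      refine (abs_sum_le_sum_abs _ _).trans ?_
      refine (sum_le_sum fun x _ => hw x).trans (le_of_eq ?_)
      simp
    have hc : (T.filter fun y => π y = v).card ≤ D := by
      rcases (T.filter fun y => π y = v).eq_empty_or_nonempty with he | ⟨x, hx⟩
      · rw [he]; simp
      · rw [mem_filter] at hx
        rw [← hx.2]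
        exact hD x hx.1
    have hc' : ((T.filter fun y => π y = v).card : ℝ) ≤ D := by exact_mod_cast hc
    rw [← sq_abs]
    calc _ ≤ ((T.filter fun y => π y = v).card : ℝ) ^ 2 := by gcongr
      _ ≤ D * ((T.filter fun y => π y = v).card : ℝ) := by rw [sq]; gcongr
  refine (sum_le_sum h1).trans (le_of_eq ?_)
  rw [← mul_sum, card_eq_sum_card_fiberwise (f := π) (s := T) (t := U) hπ]
  push_cast
  rfl

/-- Tuples of primes with the same product. -/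
theorem card_same_prod (m : ℕ) (P : Finset ℕ) (hP : ∀ p ∈ P, p.Prime) (x : Fin m → ℕ)
    (hx : ∀ i, x i ∈ P) (S : Finset (Fin m → ℕ)) (hS : ∀ y ∈ S, (∀ i, y i ∈ P) ∧
      ∏ i, y i = ∏ i, x i) : S.card ≤ m ^ m := by
  have h1 : S ⊆ Fintype.piFinset fun _ : Fin m => univ.image x := by
    intro y hy
    obtain ⟨h1, h2⟩ := hS y hy
    rw [Fintype.mem_piFinset]
    intro i
    have hd : y i ∣ ∏ j, x j := h2 ▸ dvd_prod_of_mem _ (mem_univ i)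
    obtain ⟨j, -, hj⟩ := ((hP _ (h1 i)).prime.dvd_finsetProd_iff _).1 hd
    exact mem_image.2 ⟨j, mem_univ _,
      ((Nat.prime_dvd_prime_iff_eq (hP _ (h1 i)) (hP _ (hx j))).1 hj).symm⟩
  refine (card_le_card h1).trans ?_
  rw [Fintype.card_piFinset]
  have h2 : (univ.image x).card ≤ m := card_image_le.trans (by simp)
  simpa using Nat.pow_le_pow_left h2 m

theorem mem_cube_of {Γ : Type} [Fintype Γ] {N : ℕ} {v : Γ → ℤ} (h : ∀ k, |v k| ≤ N) :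
    v ∈ cube Γ N := by
  rw [cube, Fintype.mem_piFinset]
  intro k
  rw [mem_Icc, ← abs_le]
  exact h k

theorem card_le_dyadic {P : Finset ℕ} {t : ℕ} (h : ∀ p ∈ P, t < p ∧ p ≤ 2 * t) : P.card ≤ t := by
  have : P ⊆ Ioc t (2 * t) := fun p hp => mem_Ioc.2 (h p hp)
  refine (card_le_card this).trans (le_of_eq ?_)
  rw [Nat.card_Ioc]
  omega

/-- The twelfth moment. -/
theorem Cv.mom12 (C : Cv) : ∃ K : ℝ, 1 ≤ K ∧ ∀ (P R : Finset ℕ) (t t' : ℕ) (n : ℕ → Fin 3 → ℤ)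
    (c : ℤ) (ρ : ℕ → ℤ) (s u : F2), 1 ≤ t' → t' ≤ t → c ≠ 0 → (s ≠ 0 ∨ u ≠ 0) →
    (∀ p ∈ P, p.Prime ∧ t < p ∧ p ≤ 2 * t ∧ (∀ k, |n p k| ^ 3 ≤ p) ∧ C.Nm (n p) = c * p) →
    (∀ q ∈ R, C.Gp q ∧ t' < q ∧ q ≤ 2 * t' ∧ (q : ℤ) ∣ C.fv (ρ q)) →
    ∀ a : ℕ → ℝ, (∀ p, |a p| ≤ 1) →
    (∑ q ∈ R, (∑ p ∈ P, a p * C.th3 q (ρ q) s u (n p)) ^ 12) ^ 2 ≤ K * (t : ℝ) ^ 24 * t' := by
  obtain ⟨κ, hκ1, hκ⟩ := C.exists_pw_le
  set L : ℝ := 33 * (κ : ℝ) ^ 12 with hL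
  have hκr : (1 : ℝ) ≤ κ := by exact_mod_cast hκ1
  have hκ12 : (1 : ℝ) ≤ (κ : ℝ) ^ 12 := one_le_pow₀ hκr
  have hL1 : 1 ≤ L := by linarith
  refine ⟨12 ^ 12 * (L ^ 3 + 12 * L ^ 2), ?_, ?_⟩
  · have : 1 ≤ L ^ 3 := one_le_pow₀ hL1
    have : 0 ≤ L ^ 2 := by positivity
    nlinarith
  intro P R t t' n c ρ s u ht' htt hc hsu hP hR a ha
  set N := Nat.findGreatest (fun N => N ^ 3 ≤ 2 * t) (2 * t) with hN
  have hN3 : N ^ 3 ≤ 2 * t :=
    Nat.findGreatest_spec (P := fun N => N ^ 3 ≤ 2 * t) (Nat.zero_le _) (by simp)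
  have hnN : ∀ p ∈ P, ∀ k, |n p k| ≤ N := by
    intro p hp k
    obtain ⟨-, -, h2, h3, -⟩ := hP p hp
    have h4 : (n p k).natAbs ^ 3 ≤ 2 * t := by
      have := h3 k
      rw [← Int.natCast_natAbs] at this
      have h5 : (n p k).natAbs ^ 3 ≤ p := by exact_mod_cast this
      omega
    have h5 : (n p k).natAbs ≤ N :=
      Nat.le_findGreatest (P := fun N => N ^ 3 ≤ 2 * t)
        ((Nat.le_self_pow (by norm_num) _).trans h4) h4
    rw [← Int.natCast_natAbs]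
    exact_mod_cast h5
  set M : ℕ := κ ^ 12 * N ^ 12 with hM
  set T := Fintype.piFinset fun _ : Fin 12 => P with hT
  set π : (Fin 12 → ℕ) → Fin 3 → ℤ := fun x => C.pw 12 fun i => n (x i) with hπ
  set w : (Fin 12 → ℕ) → ℝ := fun x => ∏ i, a (x i) with hw
  set A : (Fin 3 → ℤ) → ℝ := fun v => ∑ x ∈ T.filter (fun y => π y = v), w x with hA
  have hπU : ∀ x ∈ T, π x ∈ cube (Fin 3) M := by
    intro x hx
    exact mem_cube_of (hκ 12 _ N fun i k => hnN _ (Fintype.mem_piFinset.1 hx i) k)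
  have hw1 : ∀ x, |w x| ≤ 1 := by
    intro x
    rw [hw]
    simp only [abs_prod]
    exact prod_le_one (fun i _ => abs_nonneg _) fun i _ => ha _
  have hfib : ∀ x ∈ T, (T.filter fun y => π y = π x).card ≤ 12 ^ 12 := by
    intro x hx
    have hx' := Fintype.mem_piFinset.1 hx
    refine card_same_prod 12 P (fun p hp => (hP p hp).1) x hx' _ fun y hy => ?_
    rw [mem_filter] at hy
    have hy' := Fintype.mem_piFinset.1 hy.1
    refine ⟨hy', ?_⟩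
    have h1 := congrArg C.Nm hy.2
    simp only [hπ, C.Nm_pw] at h1
    rw [prod_congr rfl fun i _ => (hP _ (hy' i)).2.2.2.2,
      prod_congr rfl fun i _ => (hP _ (hx' i)).2.2.2.2, prod_mul_distrib, prod_mul_distrib] at h1
    have h2 := mul_left_cancel₀ (prod_ne_zero_iff.2 fun _ _ => hc) h1
    exact_mod_cast h2
  have hA2 := sum_fib_sq T (cube (Fin 3) M) π w hw1 hπU _ hfib
  have hG := gbil R (fun q => C.th3 q (ρ q) s u) M (2 * t')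
    (fun q hq => ⟨(hR q hq).1.1, (hR q hq).2.2.1, C.per_th3 (hR q hq).1 (hR q hq).2.2.2 hsu⟩) A
    (fun _ => 1) (fun _ => by simp)
  have hE : ∑ q ∈ R, (∑ p ∈ P, a p * C.th3 q (ρ q) s u (n p)) ^ 12 =
      ∑ v ∈ cube (Fin 3) M, A v * ∑ q ∈ R, 1 * C.th3 q (ρ q) s u v := by
    simp only [mul_sum, one_mul]
    rw [sum_comm]
    refine sum_congr rfl fun q hq => ?_
    have h1 : (∑ p ∈ P, a p * C.th3 q (ρ q) s u (n p)) ^ 12 =
        ∑ x ∈ T, w x * C.th3 q (ρ q) s u (π x) := by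
      rw [← Fin.prod_const 12, prod_univ_sum]
      refine sum_congr rfl fun x _ => ?_
      rw [prod_mul_distrib, hπ]
      simp only [C.th3_pw (hR q hq).2.2.2, hw]
    rw [h1, ← sum_fiberwise_of_maps_to hπU]
    refine sum_congr rfl fun v _ => ?_
    rw [hA, sum_mul]
    refine sum_congr rfl fun x hx => ?_
    rw [(mem_filter.1 hx).2]
  rw [hE]
  refine hG.trans ?_
  have hPc : (P.card : ℝ) ≤ t := by
    exact_mod_cast card_le_dyadic fun p hp => ⟨(hP p hp).2.1, (hP p hp).2.2.1⟩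
  have hRc : (R.card : ℝ) ≤ t' := by
    exact_mod_cast card_le_dyadic fun p hp => ⟨(hR p hp).2.1, (hR p hp).2.2.1⟩
  have hTc : (T.card : ℝ) ≤ (t : ℝ) ^ 12 := by
    rw [hT, Fintype.card_piFinset]
    simp only [prod_const, card_univ, Fintype.card_fin]
    push_cast
    gcongr
  have ht'r : (1 : ℝ) ≤ t' := by exact_mod_cast ht'
  have httr : (t' : ℝ) ≤ t := by exact_mod_cast htt
  have htr : (1 : ℝ) ≤ t := ht'r.trans httr
  have hML : (2 * M + 1 : ℝ) ≤ L * (t : ℝ) ^ 4 := by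
    have h1 : (N : ℝ) ^ 3 ≤ 2 * t := by exact_mod_cast hN3
    have h2 : (N : ℝ) ^ 12 ≤ 16 * (t : ℝ) ^ 4 := by
      calc (N : ℝ) ^ 12 = ((N : ℝ) ^ 3) ^ 4 := by ring
        _ ≤ (2 * (t : ℝ)) ^ 4 := by gcongr
        _ = _ := by ring
    have h3 : (M : ℝ) ≤ (κ : ℝ) ^ 12 * (16 * (t : ℝ) ^ 4) := by
      rw [hM]
      push_cast
      gcongr
    have h4 : (1 : ℝ) ≤ (κ : ℝ) ^ 12 * (t : ℝ) ^ 4 := one_le_mul_of_one_le_of_one_le hκ12
      (one_le_pow₀ htr)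
    rw [hL]
    linarith
  have hA3 : ∑ v ∈ cube (Fin 3) M, A v ^ 2 ≤ 12 ^ 12 * (t : ℝ) ^ 12 := by
    refine hA2.trans ?_
    rw [Nat.cast_pow, Nat.cast_ofNat]
    exact mul_le_mul_of_nonneg_left hTc (by positivity)
  have h34 : (t' : ℝ) ^ 3 ≤ (t : ℝ) ^ 4 :=
    (pow_le_pow_left₀ (by positivity) httr 3).trans (pow_le_pow_right₀ htr (by norm_num))
  simp only [Fintype.card_fin]
  calc _ ≤ 12 ^ 12 * (t : ℝ) ^ 12 * ((L * (t : ℝ) ^ 4) ^ 3 * t' +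
        (t' : ℝ) ^ 2 * (3 * (2 * t' : ℝ) ^ 2 * (L * (t : ℝ) ^ 4) ^ 2)) := by
        push_cast
        gcongr
    _ = 12 ^ 12 * (t : ℝ) ^ 12 * (L ^ 3 * (t : ℝ) ^ 12 * t' +
        12 * L ^ 2 * (t : ℝ) ^ 8 * t' * (t' : ℝ) ^ 3) := by ring
    _ ≤ 12 ^ 12 * (t : ℝ) ^ 12 * (L ^ 3 * (t : ℝ) ^ 12 * t' +
        12 * L ^ 2 * (t : ℝ) ^ 8 * t' * (t : ℝ) ^ 4) := by gcongr
    _ = _ := by ring

/-- The bilinear bound when the primes in the numerator are the larger ones. -/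
theorem Cv.hbil (C : Cv) : ∃ K : ℝ, 0 < K ∧ ∀ (P R : Finset ℕ) (t t' : ℕ) (n : ℕ → Fin 3 → ℤ)
    (c : ℤ) (ρ : ℕ → ℤ) (s u : F2), 1 ≤ t' → t' ≤ t → c ≠ 0 → (s ≠ 0 ∨ u ≠ 0) →
    (∀ p ∈ P, p.Prime ∧ t < p ∧ p ≤ 2 * t ∧ (∀ k, |n p k| ^ 3 ≤ p) ∧ C.Nm (n p) = c * p) →
    (∀ q ∈ R, C.Gp q ∧ t' < q ∧ q ≤ 2 * t' ∧ (q : ℤ) ∣ C.fv (ρ q)) →
    ∀ a b : ℕ → ℝ, (∀ p, |a p| ≤ 1) → (∀ q, |b q| ≤ 1) →
    |∑ p ∈ P, ∑ q ∈ R, a p * b q * C.th3 q (ρ q) s u (n p)| ≤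
      K * t * t' / (t' : ℝ) ^ (1 / 24 : ℝ) := by
  obtain ⟨K, hK1, hK⟩ := C.mom12
  refine ⟨K, by linarith, ?_⟩
  intro P R t t' n c ρ s u ht' htt hc hsu hP hR a b ha hb
  have h0 := hK P R t t' n c ρ s u ht' htt hc hsu hP hR a ha
  obtain ⟨S, hS⟩ : ∃ S : ℕ → ℝ, ∀ q, ∑ p ∈ P, a p * C.th3 q (ρ q) s u (n p) = S q :=
    ⟨_, fun _ => rfl⟩
  simp only [hS] at h0
  have hRc : (R.card : ℝ) ≤ t' := by
    exact_mod_cast card_le_dyadic fun p hp => ⟨(hR p hp).2.1, (hR p hp).2.2.1⟩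
  have ht'r : (1 : ℝ) ≤ t' := by exact_mod_cast ht'
  have h1 : |∑ p ∈ P, ∑ q ∈ R, a p * b q * C.th3 q (ρ q) s u (n p)| ≤ ∑ q ∈ R, |S q| := by
    rw [sum_comm]
    refine (abs_sum_le_sum_abs _ _).trans (sum_le_sum fun q _ => ?_)
    have : ∑ p ∈ P, a p * b q * C.th3 q (ρ q) s u (n p) = b q * S q := by
      rw [← hS, mul_sum]
      exact sum_congr rfl fun p _ => by ring
    rw [this, abs_mul]
    exact mul_le_of_le_one_left (abs_nonneg _) (hb q)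
  have h2 : (∑ q ∈ R, |S q|) ^ 12 ≤ (t' : ℝ) ^ 11 * ∑ q ∈ R, S q ^ 12 := by
    have := pow_sum_le_card_mul_sum_pow (s := R) (f := fun q => |S q|)
      (fun q _ => abs_nonneg _) 11
    refine this.trans ?_
    have h3 : ∀ q, |S q| ^ (11 + 1) = S q ^ 12 := fun q => Even.pow_abs (by decide) _
    simp only [h3]
    exact mul_le_mul_of_nonneg_right (pow_le_pow_left₀ (Nat.cast_nonneg _) hRc 11)
      (sum_nonneg fun q _ => Even.pow_nonneg (by decide) _)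
  refine h1.trans (le_of_pow_le_pow_left₀ (n := 24) (by norm_num) (by positivity) ?_)
  have h4 : ((t' : ℝ) ^ (1 / 24 : ℝ)) ^ 24 = t' := by
    rw [← Real.rpow_natCast, ← Real.rpow_mul (by positivity)]
    norm_num
  rw [div_pow, h4, le_div_iff₀ (by positivity)]
  have hK24 : K ≤ K ^ 24 := le_self_pow₀ hK1 (by norm_num)
  calc (∑ q ∈ R, |S q|) ^ 24 * t' = ((∑ q ∈ R, |S q|) ^ 12) ^ 2 * t' := by ring
    _ ≤ ((t' : ℝ) ^ 11 * ∑ q ∈ R, S q ^ 12) ^ 2 * t' := by gcongr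
    _ = (t' : ℝ) ^ 23 * (∑ q ∈ R, S q ^ 12) ^ 2 := by ring
    _ ≤ (t' : ℝ) ^ 23 * (K ^ 24 * (t : ℝ) ^ 24 * t') := by
        refine mul_le_mul_of_nonneg_left (h0.trans ?_) (by positivity)
        gcongr
    _ = _ := by ring

end Pool.Agent.B6.S
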