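import Pool.Agent.Lib.MP_696deb_nt.B6.SMn
import Pool.Agent.Lib.MP_696deb_nt.B6.Cs
import Pool.Agent.Lib.MP_696deb_nt.B6.Tw0

/-! Almost all twists have corank at most one. -/

set_option autoImplicit false

open scoped Classical
open Finset Function

namespace Pool.Agent.B6.S

open Pool.Agent.Lib.MP_696deb_nt Pool.Agent.Lib.MP_696deb_nt.Sm

theorem card_AA_le (C : Cv) {D : ℤ} (hD : D ≠ 0) {n : ℕ} (h : (C.AA D n).ncard < 4) :
    (C.AA D n).ncard ≤ 2 := by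
  have h2 : ∀ c ∈ C.AA D n, 2 • c = 0 := fun c hc => funext fun g => by
    have := C.selb_anti D n.zero_le hc
    rw [Cv.AA_zero] at this
    exact Cv.IsZ.two_eq this g
  let H : AddSubgroup (GQ → C.A) :=
    { carrier := C.AA D n
      add_mem' := Cv.add_mem_AA
      zero_mem' := ⟨0, C.isZ_zero D ∅ _, smul_zero _⟩
      neg_mem' := fun {c} hc => by
        rwa [neg_eq_of_add_eq_zero_left ((two_nsmul c).symm.trans (h2 c hc))] }
  have : Finite H := (C.finite_AA hD).subset (C.selb_anti D n.zero_le)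
  have hp : IsPGroup 2 (Multiplicative H) := fun c =>
    ⟨1, Subtype.ext (h2 _ (Multiplicative.toAdd c).2)⟩
  obtain ⟨k, hk⟩ := hp.exists_card_eq
  have h3 : (C.AA D n).ncard = 2 ^ k := hk
  rw [h3] at h ⊢
  have h4 : k < 2 := (Nat.pow_lt_pow_iff_right one_lt_two).1 h
  exact Nat.pow_le_pow_right (i := k) (j := 1) two_pos (by omega)

theorem card_Z_le (C : Cv) {D : ℤ} (hD : D ≠ 0) {n : ℕ} (h : (C.AA D n).ncard < 4) :
    ∃ c : ℕ, ∀ m, {z | C.IsZ D ∅ m z}.ncard ≤ c * 2 ^ m := by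
  have hf := C.finite_AA hD
  have h8 := card_AA_le C hD h
  have key : ∀ k, {z | C.IsZ D ∅ (n + k) z}.ncard ≤ {z | C.IsZ D ∅ n z}.ncard * 2 ^ k := by
    intro k
    induction k with
    | zero => simp
    | succ k ih =>
      have h1 := selb_le (Cv.finite_Z hf (n + k + 1)) (fun x => 2 ^ (n + k) • x)
        fun x hx => (Cv.selb_card ⟨x, hx, rfl⟩).le
      have h2 : (C.AA D (n + k)).ncard ≤ 2 := (Set.ncard_le_ncard (C.selb_anti D (n.le_add_right k))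
        (hf.subset (C.selb_anti D n.zero_le))).trans h8
      rw [pow_succ, ← mul_assoc]
      exact h1.trans (Nat.mul_le_mul ih h2)
  refine ⟨_, fun m => le_trans (Set.ncard_le_ncard (fun z hz => hz.level fun g => ?_)
    (Cv.finite_Z hf (n + m))) (key m)⟩
  rw [pow_add, mul_smul, hz.tors, smul_zero]

/-- Every Selmer cocycle is a normalised one plus a coboundary. -/
theorem Cv.IsSel.norm {C : Cv} {D : ℤ} {m : ℕ} {c : GQ → C.A} (h : C.IsSel D m c) :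
    ∃ Q : C.A, 2 ^ m • Q = 0 ∧ C.IsZ D ∅ m (c - C.cob D Q) := by
  obtain ⟨Q, h1, h2⟩ := C.g0_surj (h.tors C.g0)
  refine ⟨Q, h1, Cv.IsSel.isZ ⟨fun g => ?_, fun g k => ?_, h.lc.comp₂ (C.lc_cob D Q) (· - ·),
    fun v hv => ?_⟩ (by rw [Pi.sub_apply, Cv.cob, C.tw_g0, h2, sub_self])⟩
  · rw [Pi.sub_apply, smul_sub, h.tors, Cv.cob, smul_sub, ← C.tw_nsmul, h1, C.tw_zero, sub_self,
      sub_self]
  · simp only [Pi.sub_apply, h.coc g k, C.cob_mul, C.tw_sub]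
    abel
  · have := (h.loc v hv).add ((C.loc_cob v D Q).zsmul (-1))
    rwa [neg_one_zsmul, ← sub_eq_add_neg] at this

theorem card_Sel_le (C : Cv) {D : ℤ} (hD : D ≠ 0) {n : ℕ} (h : (C.AA D n).ncard < 4) :
    ∃ c : ℕ, ∀ m, {z | C.IsSel D m z}.Finite ∧ {z | C.IsSel D m z}.ncard ≤ c * 8 ^ m := by
  obtain ⟨c, hc⟩ := card_Z_le C hD h
  refine ⟨c, fun m => ?_⟩
  have h1 : {z | C.IsSel D m z} ⊆ (fun p : C.A × (GQ → C.A) => p.2 + C.cob D p.1) ''
      ({P | 2 ^ m • P = 0} ×ˢ {z | C.IsZ D ∅ m z}) := fun z hz => by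
    obtain ⟨Q, k1, k2⟩ := Cv.IsSel.norm hz
    exact ⟨(Q, _), ⟨k1, k2⟩, sub_add_cancel _ _⟩
  have h2 := (C.finite_tors m).prod (Cv.finite_Z (C.finite_AA hD) m)
  refine ⟨(h2.image _).subset h1, (Set.ncard_le_ncard h1 (h2.image _)).trans
    ((Set.ncard_image_le h2).trans ?_)⟩
  rw [Set.ncard_prod, C.card_tors, show 8 ^ m = 2 ^ m * 4 ^ m from mul_pow 2 4 m, ← mul_assoc,
    mul_comm]
  exact Nat.mul_le_mul_right _ (hc m)

/-- The change of model. -/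
theorem exists_model [Cw] (h1 : WZ.Δ < 0) (h2 : ∀ x : ℚ, cub x ≠ 0) :
    ∃ (C : Cv) (ψ : EE →+ C.A), Injective ψ ∧ ∀ (g : GQ) (P : EE), ψ (g • P) = C.act g (ψ P) := by
  obtain ⟨C, ha, hb, hc⟩ := exists_Cv (a := WZ.b₂) (b := 8 * WZ.b₄) (c := 16 * WZ.b₆)
    (by
      have e : dsc WZ.b₂ (8 * WZ.b₄) (16 * WZ.b₆) = 256 * WZ.Δ := by
        rw [dsc, WeierstrassCurve.Δ]
        linear_combination (64 * WZ.b₂ ^ 2) * WZ.b_relation
      rw [e]
      omega)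
    fun x hx => h2 (x / 4) (by
      have := congrArg (Int.cast (R := ℚ)) hx
      push_cast at this
      rw [cub]
      linear_combination this / 16)
  have h : VC (RingHom.id Qb) (Wu.baseChange Qb) (C.W Qb) 2 0 WZ.a₁ (4 * WZ.a₃) := by
    refine ⟨two_ne_zero, ?_, ?_, ?_, ?_, ?_⟩ <;>
      simp only [RingHom.id_apply, Wu_a₁, Wu_a₂, Wu_a₃, Wu_a₄, Wu_a₆, Cv.W, ha, hb, hc,
        WeierstrassCurve.b₂, WeierstrassCurve.b₄, WeierstrassCurve.b₆] <;> push_cast <;> ring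
  refine ⟨C, h.hom, h.hom_injective, fun g P => ?_⟩
  rcases P with _ | ⟨x, y, hP⟩
  · exact (map_zero (C.act g)).symm
  · obtain ⟨h', e⟩ := C.act_some g ((h.nonsingular x y).2 hP)
    refine Eq.trans ?_ e.symm
    change WeierstrassCurve.Affine.Point.some _ _ _ = _
    congr 1 <;> simp [map_ofNat]

theorem cork_of [Cw] {C : Cv} {ψ : EE →+ C.A} (hi : Injective ψ)
    (hg : ∀ (g : GQ) (P : EE), ψ (g • P) = C.act g (ψ P)) {D : ℤ} (hD : D ≠ 0) {n : ℕ}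
    (h : (C.AA D n).ncard < 4) : Cork D := by
  obtain ⟨c, hc⟩ := card_Sel_le C hD h
  have e1 : ∀ g, sn (chi D g) = B2.chi D g := fun g => by
    rcases F2_cases (chi D g) with k | k
    · rw [k, B2.xi_eq_zero.1 k]
      rfl
    · rw [k, B2.xi_eq_one.1 k]
      rfl
  have e2 : ∀ g P, ψ (tw D g P) = C.tw D g (ψ P) := fun g P => by
    rw [tw, Cv.tw, map_zsmul, hg, e1]
  refine ⟨c, fun m s hs => le_trans ?_ (hc m).2⟩
  rw [← Set.ncard_coe_finset]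
  refine Set.ncard_le_ncard_of_injOn (fun ξ g => ψ (ξ g)) (fun ξ hξ => ?_)
    (fun ξ _ ξ' _ k => funext fun g => hi (congrFun k g)) (hc m).1
  obtain ⟨h1, h2⟩ := hs ξ hξ
  refine ⟨fun g => by rw [← map_nsmul, h2, map_zero],
    fun g k => by rw [h1.coc, map_add, e2], h1.sm.comp ψ, fun v hv => ?_⟩
  obtain ⟨S, hS⟩ := h1.loc (pl v)
  refine ⟨ψ S, fun g k => ?_⟩
  rw [Gv_prime hv] at k
  simp only [Cv.cob, ← e2, ← map_sub, hS g k]

/-- Almost all twists of a curve with negative discriminant and without rational points of order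
two have corank at most one. -/
theorem smith_neg [Cw] (h1 : WZ.Δ < 0) (h2 : ∀ x : ℚ, cub x ≠ 0) {ε : ℝ} (h : 0 < ε) :
    ∃ X0 : ℕ, ∀ X ≥ X0,
      (((Finset.Icc (-(X : ℤ)) X).filter fun d => Squarefree d ∧ ¬ Cork d).card : ℝ) ≤ ε * X := by
  obtain ⟨C, ψ, hi, hg⟩ := exists_model h1 h2
  obtain ⟨n, X0, h1⟩ := smith_AA C h
  refine ⟨X0, fun X hX => le_trans ?_ (h1 X hX)⟩
  refine Nat.cast_le.2 (Finset.card_le_card fun d hd => ?_)
  rw [Finset.mem_filter] at hd ⊢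
  exact ⟨hd.1, hd.2.1, not_lt.1 fun k => hd.2.2 (cork_of hi hg hd.2.1.ne_zero k)⟩

theorem smith6 [Cs] {ε : ℝ} (h : 0 < ε) : ∃ X0 : ℕ, ∀ X ≥ X0,
    (((Finset.Icc (-(X : ℤ)) X).filter fun d => Squarefree d ∧ ¬ Cork d).card : ℝ) ≤ ε * X :=
  smith_neg WZ_neg cub_irr h

end Pool.Agent.B6.S
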