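import Pool.Agent.Lib.MP_696deb_nt.B6.SCh
import Pool.Agent.Lib.MP_696deb_nt.B6.SGn
import Pool.Agent.Lib.MP_696deb_nt.B6.SAn

/-! Few twists have many liftable classes. -/

set_option autoImplicit false

open scoped Classical
open Finset Function

namespace Pool.Agent.B6.S

open Pool.Agent.Lib.MP_696deb_nt Pool.Agent.Lib.MP_696deb_nt.Sm

variable {C : Cv}

theorem main_fib (B : Box C) (p : (Fin B.r → ℕ) → Prop) [DecidablePred p] :
    (({x ∈ B.pts | p x} : Finset _).card : ℝ) =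
      ∑ a : B.Mat, (({x ∈ B.fib a | p x} : Finset _).card : ℝ) := by
  rw [← Nat.cast_sum, card_eq_sum_card_fiberwise (f := B.mat) (t := univ) fun _ _ => mem_univ _]
  congr 2
  ext a
  congr 1
  ext x
  simp only [Box.fib, mem_filter]
  tauto

theorem gen_fib (C : Cv) (K n : ℕ) : ∃ c : ℕ, ∀ B : Box C, B.Hyp c → ∀ a : B.Mat, B.Generic K a →
    (({x ∈ B.fib a | 4 ≤ (C.AA (B.DD x) n).ncard} : Finset _).card : ℝ) * 2 ^ n ≤
      2 * K * (B.fib a).card := by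
  obtain ⟨c, hc⟩ := chain_main C K n one_pos
  refine ⟨c, fun B hB a hG => ?_⟩
  have h := hB.wf
  have k1 : ({x ∈ B.fib a | 4 ≤ (C.AA (B.DD x) n).ncard} : Finset _) ⊆
      ((B.SA a).erase 0).biUnion fun P => {x ∈ B.fib a |
        B.cls x P ∈ C.AA (B.DD x) n ∧ 4 ≤ (C.AA (B.DD x) n).ncard} := fun x hx => by
    obtain ⟨hx, h4⟩ := mem_filter.1 hx
    obtain ⟨z, z1, z2⟩ := Set.exists_ne_of_one_lt_ncard (s := C.AA (B.DD x) n) (by omega) 0
    have z3 := C.selb_anti _ n.zero_le z1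
    rw [Cv.AA_zero] at z3
    obtain ⟨P, rfl⟩ := h.exists_cls (Box.mem_fib.1 hx).1 (Cv.IsZ.mem_U z3)
    exact mem_biUnion.2 ⟨P, mem_erase.2 ⟨fun k => z2 (k ▸ Box.cls_zero x), (h.mem_SA hx).2 z3⟩,
      mem_filter.2 ⟨hx, z1, h4⟩⟩
  have k2 : ∀ P ∈ (B.SA a).erase 0, (({x ∈ B.fib a | B.cls x P ∈ C.AA (B.DD x) n ∧
      4 ≤ (C.AA (B.DD x) n).ncard} : Finset _).card : ℝ) * 2 ^ n ≤ 2 * (B.fib a).card := by
    intro P hP
    obtain ⟨p0, p1⟩ := mem_erase.1 hP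
    obtain ⟨j0, p2⟩ := Function.ne_iff.1 fun k => p0 (hB.eq_zero p1 k)
    have a1 := hc B hB a hG P p1 j0 ((F2_cases _).resolve_left p2)
    have a2 : ({x ∈ B.fib a | B.cls x P ∈ C.AA (B.DD x) n ∧
        4 ≤ (C.AA (B.DD x) n).ncard} : Finset _).card * 4 ^ n ≤ B.ww a n P :=
      (card_nsmul_le_sum _ _ _ fun x hx => Cv.card_Om (C.finite_AA (h.DD_sqf (Box.mem_fib.1
        (mem_filter.1 hx).1).1).ne_zero) (mem_filter.1 hx).2.1 (mem_filter.1 hx).2.2).trans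
        (sum_le_sum_of_subset (filter_subset _ _))
    have a3 := (Nat.cast_le (α := ℝ).2 a2).trans a1
    have a4 : (1 : ℝ) ≤ 2 ^ n := one_le_pow₀ (by norm_num)
    push_cast at a3
    rw [show (4 : ℝ) ^ n = 2 ^ n * 2 ^ n by rw [← mul_pow]; norm_num, ← mul_assoc] at a3
    refine le_of_mul_le_mul_right (a3.trans ?_) (show (0 : ℝ) < 2 ^ n by positivity)
    nlinarith [(Nat.cast_nonneg (B.fib a).card : (0 : ℝ) ≤ _)]
  have k3 : (((B.SA a).erase 0).card : ℝ) ≤ K := Nat.cast_le.2 (card_erase_le.trans hG.g1)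
  have k4 := Nat.cast_le (α := ℝ).2 ((card_le_card k1).trans card_biUnion_le)
  refine (mul_le_mul_of_nonneg_right k4 (by positivity)).trans ?_
  rw [Nat.cast_sum, sum_mul]
  refine (sum_le_card_nsmul _ _ _ k2).trans ?_
  rw [nsmul_eq_mul]
  nlinarith [(Nat.cast_nonneg (B.fib a).card : (0 : ℝ) ≤ _)]

theorem nongen (C : Cv) {ε : ℝ} (hε : 0 < ε) : ∃ K c : ℕ, ∀ B : Box C, B.Hyp c →
    (({x ∈ B.pts | ¬ B.Generic K (B.mat x)} : Finset _).card : ℝ) ≤ ε * B.pts.card := by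
  obtain ⟨K, c, hc⟩ := gen_main C (half_pos hε)
  obtain ⟨c', hc'⟩ := equi_main C one_pos
  refine ⟨K, max c c', fun B hB => ?_⟩
  have k1 := hc B (hB.mono (le_max_left _ _))
  have k0 : (0 : ℝ) < Fintype.card B.Mat := Nat.cast_pos.2 Fintype.card_pos
  rw [main_fib]
  refine (sum_le_sum (g := fun a => if ¬ B.Generic K a then 2 * ((B.pts.card : ℝ) /
    Fintype.card B.Mat) else 0) fun a _ => ?_).trans ?_
  · split_ifs with ha
    · rw [filter_false_of_mem fun x hx => by rw [(Box.mem_fib.1 hx).2]; exact not_not.2 ha]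
      simp
    · have := (abs_le.1 (hc' B (hB.mono (le_max_right _ _)) a)).2
      exact (Nat.cast_le.2 (card_filter_le _ _)).trans (by linarith)
  · rw [← sum_filter, sum_const, nsmul_eq_mul]
    refine (mul_le_mul_of_nonneg_right k1 (by positivity)).trans (le_of_eq ?_)
    field_simp

theorem gen_pts (C : Cv) (K : ℕ) {ε : ℝ} (hε : 0 < ε) : ∃ n c : ℕ, ∀ B : Box C, B.Hyp c →
    (({x ∈ B.pts | B.Generic K (B.mat x) ∧ 4 ≤ (C.AA (B.DD x) n).ncard} : Finset _).card : ℝ) ≤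
      ε * B.pts.card := by
  obtain ⟨n, h0⟩ := pow_unbounded_of_one_lt (2 * K / ε) (one_lt_two (α := ℝ))
  obtain ⟨c, hc⟩ := gen_fib C K n
  refine ⟨n, c, fun B hB => ?_⟩
  have k1 : (2 : ℝ) * K ≤ ε * 2 ^ n := by
    have := h0.le
    rwa [div_le_iff₀' hε] at this
  have k2 := main_fib B fun _ => True
  simp only [filter_true] at k2
  rw [main_fib, k2, mul_sum]
  refine sum_le_sum fun a _ => ?_
  by_cases ha : B.Generic K a
  · refine le_of_mul_le_mul_right ?_ (show (0 : ℝ) < 2 ^ n by positivity)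
    refine (mul_le_mul_of_nonneg_right (Nat.cast_le.2 (card_le_card fun x hx => ?_))
      (by positivity)).trans ((hc B hB a ha).trans ?_)
    · exact mem_filter.2 ⟨(mem_filter.1 hx).1, (mem_filter.1 hx).2.2⟩
    · nlinarith [(Nat.cast_nonneg (B.fib a).card : (0 : ℝ) ≤ _)]
  · rw [filter_false_of_mem fun x hx => by rw [(Box.mem_fib.1 hx).2]; exact fun k => ha k.1]
    simp; positivity

theorem box_main (C : Cv) {ε : ℝ} (hε : 0 < ε) : ∃ n c : ℕ, ∀ B : Box C, B.Hyp c →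
    (({x ∈ B.pts | 4 ≤ (C.AA (B.DD x) n).ncard} : Finset _).card : ℝ) ≤ ε * B.pts.card := by
  obtain ⟨K, a, g⟩ := nongen C (half_pos hε)
  obtain ⟨n, b, m⟩ := gen_pts C K (half_pos hε)
  refine ⟨n, a + b, fun B hB => ?_⟩
  have g := g B (hB.mono (by omega))
  have m := m B (hB.mono (by omega))
  simp only [card_filter, Nat.cast_sum] at g m ⊢
  refine le_trans ?_ ((add_le_add g m).trans (le_of_eq (by ring)))
  simp only [← sum_add_distrib, ← Nat.cast_add]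
  refine sum_le_sum fun x hx => Nat.cast_le.2 ?_
  split_ifs <;> first | omega | tauto

theorem smith_AA (C : Cv) {ε : ℝ} (hε : 0 < ε) : ∃ n X0 : ℕ, ∀ X ≥ X0,
    (({d ∈ Icc (-(X : ℤ)) X | Squarefree d ∧ 4 ≤ (C.AA d n).ncard} : Finset ℤ).card : ℝ) ≤
      ε * X := by
  obtain ⟨n, c, hc⟩ := box_main C (ε := ε / 8) (by positivity)
  obtain ⟨X0, h0⟩ := an_main C c (ε := ε / 4) (by positivity)
  refine ⟨n, X0, fun X hX => ?_⟩
  have key : ∀ s : ℤ, s = 1 ∨ s = -1 → (({m ∈ Icc 1 X | Squarefree m ∧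
      4 ≤ (C.AA (s * m) n).ncard} : Finset ℕ).card : ℝ) ≤ ε / 2 * X := fun s hs => by
    obtain ⟨N, B, k1, k2, k3⟩ := h0 X hX s hs
    have k4 : ({m ∈ Icc 1 X | Squarefree m ∧ 4 ≤ (C.AA (s * m) n).ncard} : Finset ℕ) ⊆
        {m ∈ Icc 1 X | Squarefree m ∧ ¬ ∃ i, ∃ x ∈ (B i).pts, (B i).DD x = s * m} ∪
        univ.biUnion fun i => ({x ∈ (B i).pts | 4 ≤ (C.AA ((B i).DD x) n).ncard} :
          Finset _).image fun x => ((B i).DD x).natAbs := fun m hm => by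
      obtain ⟨m1, m2, m3⟩ := mem_filter.1 hm
      by_cases h : ∃ i, ∃ x ∈ (B i).pts, (B i).DD x = s * m
      · obtain ⟨i, x, hx, e⟩ := h
        refine mem_union_right _ (mem_biUnion.2 ⟨i, mem_univ _, mem_image.2
          ⟨x, mem_filter.2 ⟨hx, e ▸ m3⟩, ?_⟩⟩)
        rw [e]; rcases hs with rfl | rfl <;> simp
      · exact mem_union_left _ (mem_filter.2 ⟨m1, m2, h⟩)
    have k5 := Nat.cast_le (α := ℝ).2 ((card_le_card k4).trans ((card_union_le _ _).trans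
      (Nat.add_le_add_left (card_biUnion_le.trans (sum_le_sum fun i _ => card_image_le)) _)))
    have k6 := sum_le_sum fun i (_ : i ∈ univ) => hc (B i) (k1 i)
    have k7 : ∑ i, ((B i).pts.card : ℝ) ≤ 2 * X := by exact_mod_cast k2
    rw [← mul_sum] at k6
    push_cast at k5
    nlinarith
  have k1 : ({d ∈ Icc (-(X : ℤ)) X | Squarefree d ∧ 4 ≤ (C.AA d n).ncard} : Finset ℤ) ⊆
      ({m ∈ Icc 1 X | Squarefree m ∧ 4 ≤ (C.AA (1 * m) n).ncard} : Finset ℕ).image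
        (fun m : ℕ => (1 : ℤ) * m) ∪
      ({m ∈ Icc 1 X | Squarefree m ∧ 4 ≤ (C.AA (-1 * m) n).ncard} : Finset ℕ).image
        fun m : ℕ => (-1 : ℤ) * m := fun d hd => by
    obtain ⟨d1, d2, d3⟩ := mem_filter.1 hd
    have d4 : d.natAbs ∈ Icc 1 X := by
      have := d2.ne_zero
      rw [mem_Icc] at d1 ⊢
      omega
    have d5 := Int.squarefree_natAbs.2 d2
    rcases le_total 0 d with h | h
    · have e : (1 : ℤ) * d.natAbs = d := by omega
      exact mem_union_left _ (mem_image.2 ⟨_, mem_filter.2 ⟨d4, d5, e.symm ▸ d3⟩, e⟩)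
    · have e : (-1 : ℤ) * d.natAbs = d := by omega
      exact mem_union_right _ (mem_image.2 ⟨_, mem_filter.2 ⟨d4, d5, e.symm ▸ d3⟩, e⟩)
  have k2 := Nat.cast_le (α := ℝ).2 ((card_le_card k1).trans ((card_union_le _ _).trans
    (Nat.add_le_add card_image_le card_image_le)))
  push_cast at k2
  linarith [key 1 (.inl rfl), key (-1) (.inr rfl)]

end Pool.Agent.B6.S
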