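import Pool.Agent.Lib.MP_696deb_nt.B6.SX0
import Pool.Agent.Lib.MP_696deb_nt.B6.SBd

/-! The box of a good integer. -/

set_option autoImplicit false

open scoped Classical
open Finset Function

namespace Pool.Agent.B6.S

open Pool.Agent.Lib.MP_696deb_nt Pool.Agent.Lib.MP_696deb_nt.Sm Pool.Agent.Lib.MP_696deb_nt.Sa

theorem kap_rng {m R p : ℕ} (hm : 2 ≤ m) (h : YY m < R) (h1 : R ≤ p) (e : kap m R = kap m p) :
    R - 1 < p ∧ p ≤ 2 * (R - 1) := by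
  have h3 := anf_YY hm
  refine ⟨by omega, ?_⟩
  have h4 := kap_ratio (m := m) (p := R) (p' := p) (by omega) (by omega) (by omega) e
  have h5 : (4 : ℝ) ≤ (m : ℝ) ^ 11 := by
    have : 2 ^ 11 ≤ m ^ 11 := Nat.pow_le_pow_left hm 11
    have : 4 ≤ m ^ 11 := by omega
    exact_mod_cast this
  have h6 : Real.exp (1 / (m : ℝ) ^ 11) ≤ 4 / 3 :=
    (Real.exp_le_exp.2 (one_div_le_one_div_of_le (by norm_num) h5)).trans
      ((Real.exp_bound_div_one_sub_of_interval (x := 1 / 4) (by norm_num) (by norm_num)).trans_eq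
        (by norm_num))
  have h7 : (p : ℝ) ≤ 4 / 3 * R := h4.trans (mul_le_mul_of_nonneg_right h6 (Nat.cast_nonneg R))
  have h8 : 3 * p ≤ 4 * R := by
    have : (3 * p : ℝ) ≤ 4 * R := by linarith
    exact_mod_cast this
  omega

theorem sna_exp {m c r : ℕ} (hm : 2 ≤ m) (hc : 5 * c ≤ m) (hr : r ≤ m ^ 10) :
    ((r + 1) ^ 2 + m ^ 11) * c ≤ m ^ 24 := by
  have h1 : 1 ≤ m ^ 10 := Nat.one_le_pow _ _ (by omega)
  have h2 : (r + 1) ^ 2 ≤ (2 * m ^ 10) ^ 2 := Nat.pow_le_pow_left (by omega) 2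
  have h3 : m ^ 11 ≤ m ^ 20 := Nat.pow_le_pow_right (by omega) (by norm_num)
  have h4 : m ^ 21 ≤ m ^ 24 := Nat.pow_le_pow_right (by omega) (by norm_num)
  have h5 : (2 * m ^ 10) ^ 2 = 4 * m ^ 20 := by ring
  calc ((r + 1) ^ 2 + m ^ 11) * c ≤ (5 * m ^ 20) * c := Nat.mul_le_mul_right _ (by omega)
    _ = m ^ 20 * (5 * c) := by ring
    _ ≤ m ^ 20 * m := Nat.mul_le_mul_left _ hc
    _ = m ^ 21 := by ring
    _ ≤ _ := h4

namespace Cv

variable (C : Cv)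

/-- Good integers. -/
structure Gq (m X n : ℕ) : Prop where
  pos : 1 ≤ n
  le : n ≤ X
  sq : Squarefree n
  g1 : G1 m n
  g3 : G3 m n
  h4 : C.H4 m X n
  h5 : C.Sees m (C.d1 m n) n
  h6 : C.H6 m n

/-- The large primes of the second type in increasing order. -/
noncomputable def xq (m n : ℕ) (j : Fin (C.lQ m n).card) : ℕ := (C.lQ m n).orderEmbOfFin rfl j

/-- The box of an integer. -/
noncomputable def bq (m X : ℕ) (s : ℤˣ) (n : ℕ) : Box C where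
  r := (C.lQ m n).card
  D0 := s * C.d1 m n
  h0 := mul_ne_zero s.ne_zero (Nat.cast_ne_zero.2 d1_ne)
  X j := C.Cq m X (C.d1 m n) (C.xq m n j)
  t j := sInf (C.Cq m X (C.d1 m n) (C.xq m n j) : Set ℕ) - 1
  I k := univ.filter fun j => C.xq m n j ∈ C.Wi m k
  H := m ^ 2
  Y := YY m
  θ := (1 / 2) ^ m ^ 11

variable {C} {m X n : ℕ} {s : ℤˣ}

theorem xq_mem (j : Fin (C.lQ m n).card) : C.xq m n j ∈ C.lQ m n := orderEmbOfFin_mem _ _ _

theorem xq_surj {p : ℕ} (hp : p ∈ C.lQ m n) : ∃ j, C.xq m n j = p := by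
  have : p ∈ Set.range ((C.lQ m n).orderEmbOfFin rfl) := by
    rw [range_orderEmbOfFin]; exact hp
  exact this

theorem xq_mono : StrictMono (C.xq m n) := ((C.lQ m n).orderEmbOfFin rfl).strictMono

theorem Gq.self (h : C.Gq m X n) {d p : ℕ} (hp : p ∈ C.lQ m n) : p ∈ C.Cq m X d p := by
  obtain ⟨h1, h2, h3⟩ := mem_lQ.1 hp
  exact mem_Cq.2 ⟨h2, (Nat.le_of_mem_primeFactors h1).trans h.le, h3, rfl, rfl⟩

theorem Gq.kap_inj (h : C.Gq m X n) {p q : ℕ} (hp : p ∈ C.lQ m n) (hq : q ∈ C.lQ m n)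
    (e : kap m p = kap m q) : p = q :=
  h.g3 _ (mem_filter.2 ⟨(mem_lQ.1 hp).1, (mem_lQ.1 hp).2.1⟩) _
    (mem_filter.2 ⟨(mem_lQ.1 hq).1, (mem_lQ.1 hq).2.1⟩) e

theorem Cq_eq {d p p' : ℕ} (h : p' ∈ C.Cq m X d p) : C.Cq m X d p' = C.Cq m X d p := by
  obtain ⟨-, -, -, h1, h2⟩ := mem_Cq.1 h
  rw [Cq, Cq, h1, h2]

theorem dvd_D0 {a : ℤ} : a ∣ (C.bq m X s n).D0 ↔ a ∣ C.d1 m n := Units.dvd_mul_left

theorem abs_D0 : (C.bq m X s n).D0.natAbs = C.d1 m n := by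
  change ((s : ℤ) * C.d1 m n).natAbs = _
  rw [Int.natAbs_mul, Int.units_natAbs, one_mul, Int.natAbs_natCast]

theorem mem_I {k : Fin 3} {j : Fin (C.lQ m n).card} :
    j ∈ (C.bq m X s n).I k ↔ C.xq m n j ∈ C.Wi m k :=
  anf_mem_filter (P := fun j => C.xq m n j ∈ C.Wi m k) _ j

theorem Gq.wf (h : C.Gq m X n) : (C.bq m X s n).Wf := by
  refine ⟨?_, fun j p hp => (mem_Cq.1 hp).2.2.1, fun j p hp k => ?_, fun i j p hi hj => ?_,
    fun j => ⟨_, h.self (xq_mem j)⟩, fun j p hp p' hp' => ?_⟩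
  · rw [← Int.squarefree_natAbs, abs_D0]
    exact (d1_mul (C := C) (m := m) h.sq ▸ h.sq :).of_mul_left
  · exact not_dvd_d1 (mem_Cq.1 hp).1 (mem_Cq.1 hp).2.2.1 (Int.natCast_dvd_natCast.1 (dvd_D0.1 k))
  · exact xq_mono.injective (h.kap_inj (xq_mem i) (xq_mem j)
      ((mem_Cq.1 hi).2.2.2.1.symm.trans (mem_Cq.1 hj).2.2.2.1))
  · obtain ⟨a1, -, a2, -, a3⟩ := mem_Cq.1 hp
    obtain ⟨b1, -, b2, -, b3⟩ := mem_Cq.1 hp'
    have k := C.cl_same d1_ne a2 b2 (not_dvd_d1 a1 a2) (not_dvd_d1 b1 b2) (a3.trans b3.symm)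
    have f : ∀ v, C.FP (C.bq m X s n).D0 v → C.FP (C.d1 m n) v := fun v hv =>
      ⟨hv.1, hv.2.imp_right dvd_D0.1⟩
    exact ⟨fun v hv => k.chi v (f v hv), fun v hv => k.be v (f v hv), k.spin⟩

theorem Gq.rng (hm : 2 ≤ m) (h : C.Gq m X n) (j : Fin (C.lQ m n).card) {p : ℕ}
    (hp : p ∈ (C.bq m X s n).X j) : (C.bq m X s n).t j < p ∧ p ≤ 2 * (C.bq m X s n).t j := by
  have hr := mem_Cq.1 ((h.wf (s := s)).rep_mem j)
  exact kap_rng hm hr.1 (Nat.sInf_le (s := ((C.bq m X s n).X j : Set ℕ)) hp)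
    (hr.2.2.2.1.trans (mem_Cq.1 hp).2.2.2.1.symm)

theorem Gq.hyp {c : ℕ} (hm : 5 * c + 2 ≤ m) (h : C.Gq m X n) : (C.bq m X s n).Hyp c := by
  have hm2 : 2 ≤ m := by omega
  have m1 : 1 ≤ m := by omega
  have wf := h.wf (s := s)
  have hx := fun j => h.rng (s := s) hm2 j (h.self (xq_mem j))
  refine ⟨wf, fun j p hp => h.rng hm2 j hp, ?_, ?_, fun j => ?_, fun j => ?_, ?_, ?_,
    fun u hu u0 => ?_, fun k => ?_, fun k k' hkk j hj j' hj' => ?_⟩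
  · change (0 : ℝ) < (1 / 2) ^ m ^ 11
    positivity
  · exact pow_le_one₀ (by norm_num) (by norm_num)
  · refine le_trans ?_ (h.h4 _ (xq_mem j))
    exact mul_le_mul_of_nonneg_left (Nat.cast_le.2 (hx j).1.le)
      (by change (0 : ℝ) ≤ (1 / 2) ^ m ^ 11; positivity)
  · exact Nat.le_sub_one_of_lt (mem_Cq.1 (wf.rep_mem j)).1
  · have hr : (C.bq m X s n).r + (C.bq m X s n).k0 ≤ m ^ 10 := by
      rw [Box.k0, abs_D0, d1_pf]
      exact (card_filter_add_card_filter_not _).le.trans h.g1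
    have h1 := sna_exp (c := c) hm2 (by omega) hr
    change ((2 : ℝ) ^ (((C.bq m X s n).r + (C.bq m X s n).k0 + 1) ^ 2) / (1 / 2) ^ m ^ 11) ^ c ≤
      ((2 ^ m ^ 24 : ℕ) : ℝ)
    rw [one_div, inv_pow, div_inv_eq_mul, ← pow_add, ← pow_mul, Nat.cast_pow, Nat.cast_ofNat]
    exact pow_le_pow_right₀ (by norm_num) h1
  · exact (show c ≤ m by omega).trans (Nat.le_self_pow two_ne_zero m)
  · obtain ⟨p, a1, a2, a3, a4⟩ := h.h5 u (U_mono (fun q _ => dvd_D0.1) hu) u0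
    obtain ⟨j, rfl⟩ := xq_surj (mem_lQ.2 ⟨a1, (YY_le m1 3).trans_lt a2, a3⟩)
    have b := h.self (d := C.d1 m n) (xq_mem j)
    refine ⟨j, fun k hk => ?_, ((wf.same j _ (wf.rep_mem j) _ b).sy (C.bq m X s n).h0
      (wf.ty j _ (wf.rep_mem j)) a3 (wf.cop j _ (wf.rep_mem j)) (wf.cop j _ b) hu).trans a4⟩
    exact a2.not_ge ((mem_Wn.1 (mem_I.1 hk)).2.1.trans
      (Nat.pow_le_pow_right two_pos ((bw_le m1 k).trans (aw_mono m1 k.2))))
  · refine (h.h6 k k.2).trans (le_trans (card_le_card fun p hp => ?_)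
      (card_image_le (f := C.xq m n)))
    obtain ⟨a1, a2⟩ := mem_inter.1 hp
    obtain ⟨j, rfl⟩ := xq_surj (mem_lQ.2 ⟨a1, (YY_le m1 k).trans_lt (mem_Wn.1 a2).1,
      (mem_Wn.1 a2).2.2⟩)
    exact mem_image_of_mem _ (mem_I.2 a2)
  · have a1 := (mem_Wn.1 (mem_I.1 hj)).2.1
    have a2 := (mem_Wn.1 (mem_I.1 hj')).1
    have a3 : aw m (k + 1) ≤ aw m k' := aw_mono m1 hkk
    rw [aw_succ] at a3
    have a4 : 0 < bw m k := (Nat.pos_of_ne_zero (aw_ne m1 k)).trans_le (aw_le_bw k)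
    generalize bw m k = E at a1 a3 a4
    have a5 : c * E + E ≤ m * E := by
      rw [← Nat.succ_mul]; exact Nat.mul_le_mul_right _ (by omega)
    have a6 : 2 ^ E ≤ 2 ^ aw m k' := Nat.pow_le_pow_right (by norm_num) (by omega)
    refine ⟨xq_mono.lt_iff_lt.1 (lt_of_le_of_lt (a1.trans a6) a2), ?_⟩
    have a7 : (C.bq m X s n).t j ^ c ≤ 2 ^ (c * E) := by
      rw [mul_comm, pow_mul]; exact Nat.pow_le_pow_left ((hx j).1.le.trans a1) c
    have a8 : 2 ^ (c * E + 1) ≤ 2 ^ aw m k' := Nat.pow_le_pow_right (by norm_num) (by omega)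
    have a9 := (hx j').2
    rw [pow_succ] at a8
    omega

end Cv

end Pool.Agent.B6.S
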