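import Pool.Agent.Lib.MP_696deb_nt.B6.SNa

/-! The boxes of good integers cover them economically. -/

set_option autoImplicit false

open scoped Classical
open Finset Function

namespace Pool.Agent.B6.S

open Pool.Agent.Lib.MP_696deb_nt Pool.Agent.Lib.MP_696deb_nt.Sm Pool.Agent.Lib.MP_696deb_nt.Sa

namespace Cv

/-- The invariant that determines the box. -/
noncomputable def kq (C : Cv) (m X n : ℕ) : ℕ × Finset (Finset ℕ) :=
  (C.d1 m n, (C.lQ m n).image (C.Cq m X (C.d1 m n)))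

variable {C : Cv} {m X n : ℕ} {s : ℤˣ} {x y : Fin (C.lQ m n).card → ℕ}

theorem snb_mem (hx : x ∈ (C.bq m X s n).pts) (j : Fin (C.lQ m n).card) :
    x j ∈ C.Cq m X (C.d1 m n) (C.xq m n j) := Fintype.mem_piFinset.1 hx j

theorem xq_image : univ.image (C.xq m n) = C.lQ m n := by
  ext p
  simp only [mem_image, mem_univ, true_and]
  exact ⟨fun ⟨j, e⟩ => e ▸ xq_mem j, xq_surj⟩

theorem Gq.idx (h : C.Gq m X n) (hx : x ∈ (C.bq m X s n).pts) (hy : y ∈ (C.bq m X s n).pts)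
    {i j : Fin (C.lQ m n).card} (e : x i = y j) : i = j :=
  (h.wf (s := s)).disj i j _ (snb_mem hx i) (e ▸ snb_mem hy j)

theorem Gq.prod (h : C.Gq m X n) (hx : x ∈ (C.bq m X s n).pts) :
    ∏ j, x j = ∏ p ∈ univ.image x, p :=
  (prod_image (f := fun p => p) fun _ _ _ _ e => h.idx hx hx e).symm

theorem Gq.val (h : C.Gq m X n) (hx : x ∈ (C.bq m X s n).pts) :
    C.lQ m (C.d1 m n * ∏ j, x j) = univ.image x ∧ C.d1 m (C.d1 m n * ∏ j, x j) = C.d1 m n := by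
  have h1 : ∀ p ∈ univ.image x, YY m < p ∧ C.Ty2 p := fun p hp => by
    obtain ⟨j, -, rfl⟩ := mem_image.1 hp
    exact ⟨(mem_Cq.1 (snb_mem hx j)).1, (mem_Cq.1 (snb_mem hx j)).2.2.1⟩
  have h2 : (C.d1 m n * ∏ j, x j).primeFactors =
      (n.primeFactors.filter fun p => ¬ (YY m < p ∧ C.Ty2 p)) ∪ univ.image x := by
    rw [Nat.primeFactors_mul d1_ne
      (prod_ne_zero_iff.2 fun j _ => (mem_Cq.1 (snb_mem hx j)).2.2.1.1.1.ne_zero), d1_pf,
      h.prod hx, Nat.primeFactors_prod fun p hp => (h1 p hp).2.1.1]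
  constructor
  · ext p
    rw [mem_lQ, h2, mem_union]
    exact ⟨fun k => k.1.resolve_left fun a => (mem_filter.1 a).2 k.2, fun k => ⟨.inr k, h1 p k⟩⟩
  · refine prod_congr (Finset.ext fun p => ?_) fun _ _ => rfl
    rw [h2, mem_filter, mem_union]
    exact ⟨fun k => k.1.resolve_right fun a => k.2 (h1 p a),
      fun k => ⟨.inl k, (mem_filter.1 k).2⟩⟩

theorem Gq.key (h : C.Gq m X n) (hx : x ∈ (C.bq m X s n).pts) :
    C.kq m X (C.d1 m n * ∏ j, x j) = C.kq m X n := by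
  obtain ⟨h1, h2⟩ := h.val hx
  rw [kq, kq, h1, h2]
  refine congrArg _ (Finset.ext fun T => ?_)
  conv_rhs => rw [← xq_image]
  simp only [mem_image, mem_univ, true_and, exists_exists_eq_and, Cq_eq (snb_mem hx _)]

theorem Gq.val_mem (hm : 2 ≤ m) (h : C.Gq m X n) (hx : x ∈ (C.bq m X s n).pts) :
    C.d1 m n * ∏ j, x j ∈ Icc 1 (2 * X) := by
  have p1 : ∀ j, 0 < x j := fun j => (mem_Cq.1 (snb_mem hx j)).2.2.1.1.1.pos
  refine mem_Icc.2 ⟨Nat.mul_pos (Nat.pos_of_ne_zero d1_ne) (prod_pos fun j _ => p1 j), ?_⟩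
  have h1 : ((∏ j, x j : ℕ) : ℝ) ≤ ∏ j, (Real.exp (1 / (m : ℝ) ^ 11) * C.xq m n j) := by
    rw [Nat.cast_prod]
    exact prod_le_prod (fun _ _ => Nat.cast_nonneg _) fun j _ => kap_ratio (by omega)
      (mem_lQ.1 (xq_mem j)).2.2.1.1.pos (p1 j) (mem_Cq.1 (snb_mem hx j)).2.2.2.1.symm
  have h2 : ∏ j, C.xq m n j = ∏ p ∈ C.lQ m n, p := by
    conv_rhs => rw [← xq_image]
    exact (prod_image (f := fun p => p) fun _ _ _ _ e => xq_mono.injective e).symm
  have m2 : (2 : ℝ) ≤ m := by exact_mod_cast hm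
  have h3 : ((C.lQ m n).card : ℝ) ≤ (m : ℝ) ^ 10 := by
    exact_mod_cast (card_filter_le _ _).trans h.g1
  have h4 : Real.exp (1 / (m : ℝ) ^ 11) ^ (C.lQ m n).card ≤ 2 := by
    rw [← Real.exp_nat_mul, ← Real.le_log_iff_exp_le two_pos]
    refine le_trans ?_ Mom.HT.log_two_ge
    rw [mul_one_div, div_le_iff₀ (by positivity), pow_succ]
    nlinarith [pow_pos (by linarith : (0 : ℝ) < m) 10]
  rw [prod_mul_distrib, prod_const, card_univ, Fintype.card_fin, ← Nat.cast_prod, h2] at h1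
  have h5 : ∏ j, x j ≤ 2 * ∏ p ∈ C.lQ m n, p := by
    exact_mod_cast h1.trans (mul_le_mul_of_nonneg_right h4 (Nat.cast_nonneg _))
  refine (Nat.mul_le_mul_left _ h5).trans ?_
  rw [mul_left_comm, d1_mul h.sq]
  exact Nat.mul_le_mul_left _ h.le

theorem Gq.val_inj (h : C.Gq m X n) (hx : x ∈ (C.bq m X s n).pts) (hy : y ∈ (C.bq m X s n).pts)
    (hxy : C.d1 m n * ∏ j, x j = C.d1 m n * ∏ j, y j) : x = y := by
  have h1 : univ.image x = univ.image y := (h.val hx).1.symm.trans (hxy ▸ (h.val hy).1)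
  funext j
  obtain ⟨i, -, e⟩ := mem_image.1 (h1 ▸ mem_image_of_mem x (mem_univ j))
  rw [← e, h.idx hy hx e]

theorem Gq.exists_val {n' : ℕ} (h : C.Gq m X n) (h' : C.Gq m X n')
    (hk : C.kq m X n' = C.kq m X n) :
    ∃ x ∈ (C.bq m X s n).pts, (C.bq m X s n).DD x = s * n' := by
  obtain ⟨h1, h2⟩ := Prod.ext_iff.1 hk
  change C.d1 m n' = C.d1 m n at h1
  change (C.lQ m n').image (C.Cq m X (C.d1 m n')) = (C.lQ m n).image (C.Cq m X (C.d1 m n)) at h2
  rw [h1] at h2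
  choose x a b using fun j : Fin (C.lQ m n).card =>
    mem_image.1 (h2.symm.subset (mem_image_of_mem (C.Cq m X (C.d1 m n)) (xq_mem j)))
  have hx : x ∈ (C.bq m X s n).pts := Fintype.mem_piFinset.2 fun j =>
    (b j ▸ h'.self (a j) : x j ∈ C.Cq m X (C.d1 m n) (C.xq m n j))
  have h3 : univ.image x = C.lQ m n' := by
    refine Finset.ext fun p => ⟨fun hp => ?_, fun hp => ?_⟩
    · obtain ⟨j, -, rfl⟩ := mem_image.1 hp
      exact a j
    · obtain ⟨q, hq, e⟩ := mem_image.1 (h2.subset (mem_image_of_mem (C.Cq m X (C.d1 m n)) hp))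
      obtain ⟨j, rfl⟩ := xq_surj hq
      have k : p ∈ C.Cq m X (C.d1 m n) (x j) := by
        rw [b, e]
        exact h'.self hp
      exact mem_image.2 ⟨j, mem_univ j, (h'.kap_inj hp (a j) (mem_Cq.1 k).2.2.2.1).symm⟩
  refine ⟨x, hx, ?_⟩
  change (s : ℤ) * C.d1 m n * ∏ j : Fin (C.lQ m n).card, (x j : ℤ) = _
  rw [← Nat.cast_prod, h.prod hx, h3, ← h1, mul_assoc, ← Nat.cast_mul, d1_mul h'.sq]

theorem cover2 (C : Cv) (hm : 2 ≤ m) (X : ℕ) (s : ℤˣ) : ∃ (N : ℕ) (f : Fin N → ℕ),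
    (∀ i, C.Gq m X (f i)) ∧ ∑ i, (C.bq m X s (f i)).pts.card ≤ 2 * X ∧
      ∀ n, C.Gq m X n → ∃ i, ∃ x ∈ (C.bq m X s (f i)).pts, (C.bq m X s (f i)).DD x = s * n := by
  let K := ((Icc 1 X).filter (C.Gq m X)).image (C.kq m X)
  choose f a b using fun k : K => mem_image.1 k.2
  have g : ∀ k, C.Gq m X (f k) := fun k => (mem_filter.1 (a k)).2
  refine ⟨K.card, fun i => f (K.equivFin.symm i), fun i => g _, ?_, fun n hn => ?_⟩
  · rw [← card_sigma]
    refine (card_le_card_of_injOn (t := Icc 1 (2 * X))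
      (fun z => C.d1 m (f (K.equivFin.symm z.1)) * ∏ j, z.2 j)
      (fun z hz => (g _).val_mem (s := s) (x := z.2) hm (mem_sigma.1 hz).2) ?_).trans (by simp)
    rintro ⟨i, x⟩ hx ⟨j, y⟩ hy e
    have hx := (mem_sigma.1 hx).2
    have hy := (mem_sigma.1 hy).2
    obtain rfl : i = j := K.equivFin.symm.injective (Subtype.ext ((b _).symm.trans
      (((g _).key hx).symm.trans ((congrArg (C.kq m X) e).trans (((g _).key hy).trans (b _))))))
    exact congrArg _ ((g _).val_inj hx hy e)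
  · let k : K := ⟨C.kq m X n, mem_image_of_mem _ (mem_filter.2 ⟨mem_Icc.2 ⟨hn.pos, hn.le⟩, hn⟩)⟩
    refine ⟨K.equivFin k, (g _).exists_val hn ?_⟩
    rw [b, Equiv.symm_apply_apply]

end Cv

end Pool.Agent.B6.S
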