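import Pool.Agent.Lib.MP_696deb_nt.B6.SL0
import Pool.Agent.Lib.MP_696deb_nt.B6.SK3
import Pool.Agent.Lib.MP_696deb_nt.Sm.Cnt

/-! Small numbers above pointer primes and their cochains. -/

set_option autoImplicit false

open Finset Function
open scoped Classical NumberTheorySymbols

namespace Pool.Agent.B6.S

open Pool.Agent.Lib.MP_696deb_nt Pool.Agent.Lib.MP_696deb_nt.Sm

theorem spa_sg (b : F2) : sg b = (sn b : ℝ) := by
  unfold sg sn
  split_ifs <;> simp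

theorem spa_aleg {p : ℕ} (hp : p.Prime) {x : ℤ} (h : ¬ (p : ℤ) ∣ x) :
    sg (aleg p x) = (J(x | p) : ℝ) := by
  have := Fact.mk hp
  have ha : (x : ZMod p) ≠ 0 := by rwa [Ne, ZMod.intCast_zmod_eq_zero_iff_dvd]
  rw [aleg_eq_legendre h, ← jacobiSym.legendreSym.to_jacobiSym]
  rcases legendreSym.eq_one_or_neg_one p ha with h1 | h1
  · rw [h1, if_pos rfl, sg_zero, Int.cast_one]
  · rw [h1, if_neg (by norm_num), sg_one]
    norm_num

theorem spa_pow (a b : F2) : sg (a * b) = sg b ^ a.val := by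
  rcases F2_cases a with rfl | rfl
  · rw [zero_mul, sg_zero, ZMod.val_zero, pow_zero]
  · rw [one_mul, ZMod.val_one, pow_one]

theorem spa_ndvd {p : ℕ} (hp : p.Prime) {a : ℤ} (h : J(a | p) ≠ 0) : ¬ (p : ℤ) ∣ a := fun k => by
  rw [jacobiSym.mod_left, Int.emod_eq_zero_of_dvd k, jacobiSym.zero_left hp.one_lt] at h
  exact h rfl

theorem spa_idx {c : ℤ} {B : ℕ} (h0 : c ≠ 0) (hc : |c| ≤ B) {q : ℕ} (hq : q.Prime)
    (h : (q : ℤ) ∣ c) : ∃ k : Fin (Nat.log 2 B + 1), c.natAbs.primeFactorsList.getD k 0 = q := by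
  have c0 : c.natAbs ≠ 0 := Int.natAbs_ne_zero.2 h0
  obtain ⟨k, hk, e⟩ := List.getElem_of_mem
    ((Nat.mem_primeFactorsList c0).2 ⟨hq, Int.natCast_dvd.1 h⟩)
  have a1 := List.pow_card_le_prod c.natAbs.primeFactorsList 2 fun p hp =>
    (Nat.prime_of_mem_primeFactorsList hp).two_le
  rw [Nat.prod_primeFactorsList c0] at a1
  have a2 : c.natAbs ≤ B := by rwa [← Int.natCast_natAbs, Nat.cast_le] at hc
  have a3 := Nat.le_log_of_pow_le one_lt_two (a1.trans a2)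
  exact ⟨⟨k, by omega⟩, by rw [List.getD_eq_getElem _ _ hk, e]⟩

namespace Cv

variable (C : Cv) {K : Type} [Fintype K]

/-- A small number of the compositum above `p`, with its cofactor. -/
def Spec (d : K → ℕ) (N B p : ℕ) (u : (Fin 3 → (K → F2) → ℤ) × ℤ) : Prop :=
  (∀ k T, |u.1 k T| ≤ N) ∧ (∀ i γ, C.al3 d u.1 i γ ≠ 0) ∧ u.2 ≠ 0 ∧ |u.2| ≤ B ∧
    ∏ i, ∏ γ, C.al3 d u.1 i γ = (u.2 * p : ℤ) ∧ nrm p (C.al3 d u.1 (C.tp p) 0) < 1

/-- A choice of such a number. -/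
noncomputable def pd (d : K → ℕ) (N B p : ℕ) : (Fin 3 → (K → F2) → ℤ) × ℤ :=
  if h : ∃ u, C.Spec d N B p u then h.choose else 0

/-- The norm of the cochain plus the cocycle of the prime. -/
noncomputable def tot (d : K → ℕ) (n : Fin 3 → (K → F2) → ℤ) (p : ℕ) : GQ → C.A :=
  (fun g => ∑ γ, C.fn3 d n g γ) + C.b2 p

theorem pd_mem (d : K → ℕ) (N B p : ℕ) : (C.pd d N B p).2 ∈ Icc (-(B : ℤ)) B := by
  unfold pd
  split_ifs with h
  · exact mem_Icc.2 (abs_le.1 h.choose_spec.2.2.2.1)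
  · simp

variable {C} {d : K → ℕ} {N B p p' q v : ℕ} {u u' : (Fin 3 → (K → F2) → ℤ) × ℤ}

theorem spec_pd (hp : C.Ty2 p) (hs : Surjective (bar d)) (hd : ∀ i, J(d i | p) = 1)
    (hN : p < (N + 1) ^ (3 * 2 ^ Fintype.card K)) (hB : C.CN d ≤ B) :
    C.Spec d N B p (C.pd d N B p) := by
  have g0 : 3 * 2 ^ Fintype.card K ≠ 0 := by positivity
  have b1 := (Nat.le_nthRoot_iff (b := p) g0).1 le_rfl
  obtain ⟨n, c, c1, c2, c3, c4, c5, c6⟩ := exists_ptr3 hp.1 hs hd hp.fix b1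
    (Nat.lt_pow_nthRoot_add_one g0 p)
  have b2 : Nat.nthRoot (3 * 2 ^ Fintype.card K) p ≤ N :=
    Nat.lt_succ_iff.1 (lt_of_pow_lt_pow_left' _ (b1.trans_lt hN))
  have : ∃ u, C.Spec d N B p u := ⟨(n, c), fun k T => (c1 k T).trans (Nat.cast_le.2 b2), c2, c3,
    c4.trans (Nat.cast_le.2 hB), c5, c6⟩
  rw [pd, dif_pos this]
  exact this.choose_spec

theorem Spec.nd (h : C.Spec d N B p u) (hq : B < q) : ¬ (q : ℤ) ∣ u.2 := fun k => by
  have a1 := Int.le_abs_of_dvd h.2.2.1 k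
  have a2 := h.2.2.2.1
  omega

theorem Spec.unr (h : C.Spec d N B p u) (hp : p.Prime) (hq : C.Gp q) (h1 : q ≠ p)
    (h2 : ¬ (q : ℤ) ∣ u.2) (h3 : ∀ i, ¬ q ∣ d i) : C.fn3 d u.1 (sig q) = 0 :=
  funext fun γ => fn3_ine hq h3 h.2.2.2.2.1 (fun k =>
    ((Nat.prime_iff_prime_int.1 hq.1).dvd_or_dvd k).elim h2 fun k =>
      h1 ((Nat.prime_dvd_prime_iff_eq hq.1 hp).1 (Int.natCast_dvd_natCast.1 k))) γ

theorem Spec.ram (h : C.Spec d N B p u) (hp : p.Prime) (hq : C.Gp q) (hB : B < q)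
    (hd : ∀ i, J(d i | q) = 1) (γ : K → F2) :
    C.fn3 d u.1 (sig q) γ = if p = q ∧ γ = 0 then C.T (C.tp q) else 0 := by
  by_cases k : p = q
  · subst k
    simp only [true_and]
    exact fn3_gen hq hd h.2.2.2.2.1 (h.nd hB) h.2.2.2.2.2 γ
  · rw [if_neg fun e => k e.1]
    exact congrFun (h.unr hp hq (Ne.symm k) (h.nd hB) fun i e =>
      spa_ndvd hq.1 (hd i ▸ one_ne_zero) (Int.natCast_dvd_natCast.2 e)) γ

theorem Spec.bad (h : C.Spec d N B p u) (h' : C.Spec d N B p' u') (hv : v.Prime) (h0 : v ≤ C.N0)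
    (hb : ∀ g ∈ Gv v, bar d g = 0) (k : ∀ g ∈ C.TS, C.fn3 d u.1 g = C.fn3 d u'.1 g) :
    ∀ g ∈ Gv v, C.fn3 d u.1 g = C.fn3 d u'.1 g := fun g hg => funext fun γ => sub_eq_zero.1
  (TS_coc hv h0 ((z2_fn3 h.2.1 hb γ).sub (z2_fn3 h'.2.1 hb γ))
    (fun t ht _ => sub_eq_zero.2 (congrFun (k t ht) γ)) g hg)

theorem Spec.good (h : C.Spec d N B p u) (h' : C.Spec d N B p' u') (hv : C.Gp v)
    (hb : ∀ g ∈ Gv v, bar d g = 0) (k1 : C.fn3 d u.1 (sig v) = C.fn3 d u'.1 (sig v))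
    (k2 : C.fn3 d u.1 (frb v) = C.fn3 d u'.1 (frb v)) :
    ∀ g ∈ Gv v, C.fn3 d u.1 g = C.fn3 d u'.1 g := fun g hg => funext fun γ => sub_eq_zero.1
  (((z2_fn3 h.2.1 hb γ).sub (z2_fn3 h'.2.1 hb γ)).dec hv (sub_eq_zero.2 (congrFun k1 γ))
    (sub_eq_zero.2 (congrFun k2 γ)) g hg)

theorem Spec.z2 (h : C.Spec d N B p u) : C.Z2 ⊤ (C.tot d u.1 p) :=
  (z2_sum_fn3 h.2.1).add (C.z2_be _ _)

theorem Spec.tot_sig (h : C.Spec d N B p u) (hp : C.Ty2 p) (hq : C.Gp q) (hB : B < q)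
    (hd : ∀ i, J(d i | q) = 1) : C.tot d u.1 p (sig q) = 0 := by
  simp only [tot, Pi.add_apply, h.ram hp.1.1 hq hB hd]
  by_cases k : p = q
  · subst k
    simp only [true_and, sum_ite_eq', mem_univ, if_true]
    rw [b2, be_sig hp.1 hp.fix, T_add_self]
  · simp only [k, false_and, if_false, sum_const_zero, zero_add]
    exact be_unr hp.1 hp.fix hq (Ne.symm k)

theorem Spec.sy_tot (h : C.Spec d N B p u) (r : ℕ) : C.sy (C.tot d u.1 p) r =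
    ∑ γ, C.ep (C.fn3 d u.1 (frb r) γ) (C.T (C.tp r)) + C.sy (C.b2 p) r := by
  rw [sy, tot, Pi.add_apply, b2, C.ep_add_left ((z2_sum_fn3 h.2.1).two _ trivial)
    ((C.z2_be _ _).two _ trivial) (C.two_T _), C.ep_sum_left _ (fun γ _ => two_fn3 _ γ) (C.two_T _)]
  rfl

/-- In a class the cubic edge is the sum of the label bits up to a function of the other prime. -/
theorem Spec.eta (h : C.Spec d N B p u) (h' : C.Spec d N B p' u') (hp : C.Ty2 p) (hp' : C.Ty2 p')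
    (hB : B < p) (hB' : B < p') (hd : ∀ i, J(d i | p) = 1) (hd' : ∀ i, J(d i | p') = 1)
    (h1 : ∀ q, C.Gp q → q ≠ p → q ≠ p' → C.fn3 d u.1 (sig q) = C.fn3 d u'.1 (sig q))
    (h2 : ∀ v ∈ C.bad, ∀ g ∈ Gv v, C.fn3 d u.1 g = C.fn3 d u'.1 g ∧ C.b2 p g = C.b2 p' g)
    {r : ℕ} (hr : C.Ty2 r) : C.sy (C.tot d u.1 p) r = C.sy (C.tot d u'.1 p') r := by
  have e := sy_eq_zero (h.z2.sub h'.z2) (fun q hq => ?_) (fun v hv g hg => ?_) hr
  · rw [← sub_add_cancel (C.tot d u.1 p) (C.tot d u'.1 p'), sy_add hr.1.1 hr.1.ne_two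
      ((h.z2.sub h'.z2).mono le_top) (h'.z2.mono le_top), e, zero_add]
  · rw [Pi.sub_apply, sub_eq_zero]
    by_cases k : q = p
    · rw [k, h.tot_sig hp hp.1 hB hd, h'.tot_sig hp' hp.1 hB hd]
    by_cases k' : q = p'
    · rw [k', h.tot_sig hp hp'.1 hB' hd', h'.tot_sig hp' hp'.1 hB' hd']
    simp only [tot, Pi.add_apply, h1 q hq k k', b2, be_unr hp.1 hp.fix hq k,
      be_unr hp'.1 hp'.fix hq k']
  · simp only [Pi.sub_apply, tot, Pi.add_apply, (h2 v hv g hg).1, (h2 v hv g hg).2, sub_self]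

/-- The bilinear bound for the functionals of the label bits and of the Legendre bit. -/
theorem ptr_gen (d : K → ℕ) (P R : Finset ℕ) (n : ℕ → Fin 3 → (K → F2) → ℤ) (c : ℤ) (N Rm : ℕ)
    (hn : ∀ p ∈ P, ∀ k T, |n p k T| ≤ N)
    (hP : ∀ p ∈ P, ∏ i, ∏ γ, C.al3 d (n p) i γ = (c * p : ℤ))
    (hR : ∀ r ∈ R, C.Ty2 r ∧ r ≤ Rm ∧ ∀ i, J(d i | r) = 1)
    (hc : ∀ p ∈ P, ∀ r ∈ R, ¬ (r : ℤ) ∣ c * p) {e : F2} {t : (K → F2) → F2} (het : e ≠ 0 ∨ t ≠ 0)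
    (a : ℕ → F2) (w : ℕ → ℕ → F2) (hw : ∀ p ∈ P, ∀ r ∈ R, w p r = e * aleg r p +
      ∑ γ, t γ * C.ep (C.fn3 d (n p) (frb r) γ) (C.T (C.tp r)) + a r)
    (α β : ℕ → ℝ) (hα : ∀ p, |α p| ≤ 1) (hβ : ∀ q, |β q| ≤ 1) :
    (∑ p ∈ P, ∑ r ∈ R, α p * β r * sg (w p r)) ^ 2 ≤
      P.card * ((2 * N + 1 : ℝ) ^ (3 * 2 ^ Fintype.card K) * R.card + (R.card : ℝ) ^ 2 *
        ((3 * 2 ^ Fintype.card K : ℕ) * (Rm : ℝ) ^ 2 *
          (2 * N + 1 : ℝ) ^ (3 * 2 ^ Fintype.card K - 1))) := by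
  rcases R.eq_empty_or_nonempty with rfl | ⟨r0, hr0⟩
  · simp
  have h2 : ∀ r ∈ R, ∃ ρ : K → ℤ, ∀ i, nrm r (B2.rt (d i) - ρ i) < 1 ∧ ¬ (r : ℤ) ∣ ρ i :=
    fun r hr => by
    have := exists_red (w := pl r) (d := d) (by rw [pl_p (hR r hr).1.1.1]; exact (hR r hr).1.1.ne_two)
      (by rw [pl_p (hR r hr).1.1.1]; exact (hR r hr).2.2)
    rwa [pl_p (hR r hr).1.1.1] at this
  choose! ρ hρ using h2
  have hst : ∃ γ, t γ + e ≠ 0 ∨ t γ ≠ 0 := by
    by_cases k : t = 0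
    · exact ⟨0, .inl (by rw [k, Pi.zero_apply, zero_add]; exact het.resolve_right (not_not.2 k))⟩
    · exact (Function.ne_iff.1 k).imp fun _ => .inr
  have k := gbil_inj P R (fun p x => n p x.1 x.2) _ N Rm (fun p hp x => hn p hp x.1 x.2)
    (fun p hp p' hp' e => by
      have e0 : n p = n p' := funext fun k => funext fun T => congrFun e (k, T)
      have e1 : ((c * p : ℤ) : Qb) = (c * p' : ℤ) := by rw [← hP p hp, ← hP p' hp', e0]
      have c0 : c ≠ 0 := fun z => hc p hp r0 hr0 (by rw [z, zero_mul]; exact dvd_zero _)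
      exact_mod_cast mul_left_cancel₀ c0 (Int.cast_injective e1))
    (fun r hr => ⟨(hR r hr).1.1.1, (hR r hr).2.1, C.per_prod (hR r hr).1.1
      (rho_spec (hR r hr).1.1 (hR r hr).1.fix).2 (fun i => (hρ r hr i).2) hst⟩) α
    (fun r => β r * sg (e * aleg r c + a r)) hα fun r => by
      rw [abs_mul, abs_sg, mul_one]
      exact hβ r
  rw [Fintype.card_prod, Fintype.card_fin, Fintype.card_fun, ZMod.card] at k
  refine le_of_eq_of_le (congrArg (· ^ 2)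
    (sum_congr rfl fun p hp => sum_congr rfl fun r hr => ?_)) k
  have rp := (hR r hr).1.1.1
  have nd := hc p hp r hr
  obtain ⟨f1, f2⟩ := fn3_frob (hR r hr).1.1 (hR r hr).2.2 (fun i => (hρ r hr i).1) (hP p hp) nd
    (hR r hr).1.fix
  have f3 : ∀ γ, ¬ (r : ℤ) ∣ C.Nm (mv (ρ r) (n p) γ) := fun γ => spa_ndvd rp
    (prod_ne_zero_iff.1 (f2.symm.trans_ne fun z => by
      have := spa_aleg rp nd
      rw [z, Int.cast_zero] at this
      simpa [this] using abs_sg (aleg r (c * p))) γ (mem_univ γ))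
  have f4 : sg (aleg r c + aleg r p) = sg (∑ γ, aleg r (C.Nm (mv (ρ r) (n p) γ))) := by
    rw [← aleg_mul rp (fun z => nd (z.mul_right _)) fun z => nd (z.mul_left _), spa_aleg rp nd, f2,
      sg_sum, Int.cast_prod]
    exact prod_congr rfl fun γ _ => (spa_aleg rp (f3 γ)).symm
  have f5 : ∀ e x y z s : F2, e * y + s + z = e * x + z + (e * (x + y) + s) := by decide
  rw [hw p hp r hr, f5 e (aleg r c), sg_add, ← mul_assoc, mul_assoc (α p), sg_add (e * (_ + _)),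
    spa_pow e (_ + _), f4, sg_sum, sg_sum, ← prod_pow, ← prod_mul_distrib]
  refine congrArg _ (prod_congr rfl fun γ _ => ?_)
  change _ = C.th3 _ _ _ _ (mv (ρ r) (n p) γ)
  rw [th3, spa_pow, spa_sg (C.ep _ _), f1, Int.cast_mul, ← spa_aleg rp (f3 γ), mul_pow, ← mul_assoc,
    ← spa_pow, ← spa_pow, ← spa_pow, ← sg_add, add_mul, add_comm]

end Cv

end Pool.Agent.B6.S
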