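import Pool.Agent.Lib.MP_696deb_nt.B6.SSb
import Pool.Agent.Lib.MP_696deb_nt.B6.SSc

/-! Weighted grids with several bits: an inequality on good grids passes to the whole set. -/

set_option autoImplicit false

open Finset
open scoped Classical

namespace Pool.Agent.B6.S

open Pool.Agent.Lib.MP_696deb_nt Sm
open Sm.SD (sampd_prod sampd_pow sampd_fiber sampA_fiber sampA_indep sampA_count sc_count sc_diag
  sc_ite sc_W sc_two sc_arith sc_pow sampm_half sampm_low sampm_one pt Inj)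

namespace SD

variable {ι Γ κ Bt : Type} [Fintype ι] [LinearOrder ι] [Fintype Γ] [Fintype κ] [Fintype Bt] {M : ℕ}
  [NeZero M] {D : SD ι Γ κ Bt M} {δ : ℝ}

theorem marg (h : D.OK δ) (z : ι → Fin M) : 
    ∃ m ≤ 2 * ((Fintype.card ι * M) ^ 2 * Fintype.card Bt),
    ∀ F : (ι → ℕ) → ℝ, (∀ x, |F x| ≤ 1) →
    |((Fintype.piFinset D.X).card : ℝ) * ∑ x ∈ D.G, D.om x * F (pt x z) -
      (1 / 2) ^ m * D.G.card * ∑ x ∈ XA D.X D.E, F x| ≤
      2 * δ * D.G.card * (Fintype.piFinset D.X).card := by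
  obtain ⟨m, hm, h2⟩ := use2 h z
  have hr : 1 ≤ Fintype.card ι := Fintype.card_pos_iff.2 ⟨D.ia⟩
  have hM : M ^ 2 ≤ (Fintype.card ι * M) ^ 2 :=
    Nat.pow_le_pow_left (Nat.le_mul_of_pos_left M hr) 2
  have hM' := Nat.mul_le_mul_right (Fintype.card Bt) ((Nat.sub_le _ 1).trans hM)
  refine ⟨(M ^ 2 - 1) * Fintype.card Bt + m, by omega, fun F hF => ?_⟩
  have h1 := use1 h z F hF
  have h3 := h2 F hF
  have h0 : (0 : ℝ) ≤ (Fintype.piFinset D.X).card := Nat.cast_nonneg _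
  have h4 : (0 : ℝ) ≤ (1 / 2) ^ ((M ^ 2 - 1) * Fintype.card Bt) := by positivity
  have h5 : ((1 : ℝ) / 2) ^ ((M ^ 2 - 1) * Fintype.card Bt) ≤ 1 :=
    pow_le_one₀ (by norm_num) (by norm_num)
  rw [pow_add]
  generalize ((1 : ℝ) / 2) ^ ((M ^ 2 - 1) * Fintype.card Bt) = c at *
  generalize ((Fintype.piFinset D.X).card : ℝ) = N at *
  generalize ∑ x ∈ D.G, D.om x * F (pt x z) = T at *
  generalize (∑ y ∈ D.G, if D.E2 z y then F (pt y z) else 0) = U at *
  generalize ∑ x ∈ XA D.X D.E, F x = S at *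
  rw [show N * T - c * (1 / 2) ^ m * D.G.card * S =
    N * (T - c * U) + c * (N * U - (1 / 2) ^ m * D.G.card * S) by ring]
  refine (abs_add_le _ _).trans ?_
  rw [abs_mul, abs_mul, abs_of_nonneg h0, abs_of_nonneg h4]
  have h6 := mul_le_mul_of_nonneg_left h1 h0
  have h7 := mul_le_mul h5 h3 (abs_nonneg _) zero_le_one
  linarith

theorem samp [Nonempty Bt] (h : D.OK δ) {Z : Type} [Fintype Z] [Nonempty Z] (pos : Z → ι → Fin M)
    (Bad : (Fin M × Fin M × Γ → ZMod 2) → Prop) {β ε η : ℝ} (β0 : 0 ≤ β) (β1 : β ≤ 1)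
    (hβ : (((ParZ M D.Z).filter Bad).card : ℝ) ≤ β * (ParZ M D.Z).card) (ε0 : 0 ≤ ε) (η1 : η ≤ 1)
    (hη : δ * 2 ^ (5 * ((Fintype.card ι * M) ^ 2 * Fintype.card Bt) + M ^ 2 * Fintype.card Γ + 10)
      ≤ η)
    (F : (ι → ℕ) → ℝ) (hF : ∀ x, |F x| ≤ 1)
    (hgrid : ∀ x ∈ D.G, Inj x → D.AllE x → D.Same x → ¬ Bad (D.pat x) →
      ∑ z, F (pt x (pos z)) ≤ ε * Fintype.card Z) :
    ∑ x ∈ XA D.X D.E, F x ≤ (ε + β + η) * (XA D.X D.E).card := by
  have d0 := h.d0
  have hX : ∀ j, (0 : ℝ) < (D.X j).card := fun j => (Nat.cast_nonneg _).lt_of_ne fun e => by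
    have := h.big j
    rw [← e] at this
    norm_num at this
  have hN : (0 : ℝ) < (Fintype.piFinset D.X).card := by
    rw [Fintype.card_piFinset, Nat.cast_prod]
    exact prod_pos fun j _ => hX j
  have hG : (0 : ℝ) < D.G.card := by
    choose x hx using fun j => card_pos.1 (Nat.cast_pos.1 (hX j))
    exact Nat.cast_pos.2 (card_pos.2 ⟨fun v => x v.1, by simp [G, hx]⟩)
  have hZ : (0 : ℝ) < Fintype.card Z := Nat.cast_pos.2 Fintype.card_pos
  have hr : 1 ≤ Fintype.card ι := Fintype.card_pos_iff.2 ⟨D.ia⟩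
  have hM : 1 ≤ M := NeZero.pos M
  have hb := bad_le h Bad β0 β1 hβ
  have hn := noninj_le h
  have hu := unif D.X D.E d0 h.sym h.bil
  have hc : (univ.filter fun e : ι × ι => e.1 < e.2).card * Fintype.card Bt ≤
      (Fintype.card ι * M) ^ 2 * Fintype.card Bt :=
    Nat.mul_le_mul_right _ ((card_le_univ _).trans (by
      rw [Fintype.card_prod, ← sq]
      exact Nat.pow_le_pow_left (Nat.le_mul_of_pos_right _ hM) 2))
  have hL : (Fintype.card ι * M ^ 2 : ℝ) ≤ 2 ^ ((Fintype.card ι * M) ^ 2 * Fintype.card Bt) := by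
    have : Fintype.card ι * M ^ 2 ≤ 2 ^ ((Fintype.card ι * M) ^ 2 * Fintype.card Bt) := by
      refine le_trans ?_ Nat.lt_two_pow_self.le
      refine le_trans ?_ (Nat.le_mul_of_pos_right _ Fintype.card_pos)
      rw [mul_pow]
      exact Nat.mul_le_mul_right _ (Nat.le_self_pow two_ne_zero _)
    exact_mod_cast this
  have hS : |∑ x ∈ XA D.X D.E, F x| ≤ (XA D.X D.E).card :=
    (abs_sum_le_sum_abs _ _).trans ((sum_le_card_nsmul _ _ _ fun x _ => hF x).trans (by simp))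
  have hz : ∀ z : ι → Fin M, (D.G.card : ℝ) ≤
      4 * (2 ^ ((Fintype.card ι * M) ^ 2 * Fintype.card Bt)) ^ 3 * ∑ x ∈ D.G, D.om x ∧
      (∑ x ∈ D.G, D.om x) * ∑ x ∈ XA D.X D.E, F x ≤ (XA D.X D.E).card *
        (∑ x ∈ D.G, D.om x * F (pt x z) + 2 * (2 * δ * D.G.card)) := fun z => by
    obtain ⟨m, hm, h1⟩ := marg h z
    have h2 := h1 (fun _ => 1) fun _ => abs_one.le
    simp only [mul_one, sum_const, nsmul_eq_mul] at h2
    refine ⟨sampm_low hN hG.le (Nat.cast_nonneg _) (one_le_pow₀ one_le_two) d0 ?_ (sampm_half hc)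
      (by rw [← pow_mul, mul_comm _ 2]; exact sampm_half hm) hu h2, sampm_one hN hS h2 (h1 F hF)⟩
    refine le_trans ?_ (hη.trans η1)
    rw [← pow_mul, mul_comm, show (8 : ℝ) = 2 ^ 3 by norm_num, ← pow_add]
    exact mul_le_mul_of_nonneg_left (pow_le_pow_right₀ one_le_two (by omega)) d0
  have h1 := (hz (pos (Classical.arbitrary Z))).1
  have h2 := sum_le_sum fun z (_ : z ∈ univ) => (hz (pos z)).2
  have h3 : ∑ z, ∑ x ∈ D.G, D.om x * F (pt x (pos z)) ≤ Fintype.card Z *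
      (ε * ∑ x ∈ D.G, D.om x + ∑ x ∈ D.G, D.om x * (if D.InjO x ∧ Bad (D.pat x) then 1 else 0) +
        ∑ x ∈ D.G, D.om x * (if Inj x then 0 else 1)) := by
    rw [sum_comm, mul_sum, ← sum_add_distrib, ← sum_add_distrib, mul_sum]
    refine sum_le_sum fun x hx => ?_
    rw [← mul_sum, mul_comm ε, ← mul_add, ← mul_add, mul_left_comm]
    by_cases h0 : D.AllE x ∧ D.Same x
    swap
    · rw [om, if_neg h0, zero_mul, zero_mul]
    refine mul_le_mul_of_nonneg_left ?_ (om_nonneg x)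
    have h4 : ∑ z, F (pt x (pos z)) ≤ Fintype.card Z :=
      (sum_le_card_nsmul _ _ _ fun z _ => (le_abs_self _).trans (hF _)).trans (by simp)
    have h5 := mul_nonneg hZ.le ε0
    by_cases hi : Inj x
    · by_cases hB : Bad (D.pat x)
      · rw [if_pos ⟨fun j s s' _ _ => hi j s s', hB⟩, if_pos hi]
        linarith
      · rw [if_neg fun a => hB a.2, if_pos hi]
        linarith [hgrid x hx hi h0.1 h0.2 hB]
    · rw [if_neg hi]
      split_ifs <;> linarith
  rw [sum_const, ← mul_sum, sum_add_distrib, sum_const, card_univ, nsmul_eq_mul,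
    nsmul_eq_mul] at h2
  rw [pow_add, pow_add, mul_comm 5, pow_mul] at hη
  have hP : (1 : ℝ) ≤ 2 ^ (M ^ 2 * Fintype.card Γ) := one_le_pow₀ one_le_two
  have ha : (1 : ℝ) ≤ 2 ^ ((Fintype.card ι * M) ^ 2 * Fintype.card Bt) := one_le_pow₀ one_le_two
  have hA : (0 : ℝ) ≤ (XA D.X D.E).card := Nat.cast_nonneg _
  generalize (2 : ℝ) ^ (M ^ 2 * Fintype.card Γ) = P at *
  generalize (2 : ℝ) ^ ((Fintype.card ι * M) ^ 2 * Fintype.card Bt) = a at *
  generalize (Fintype.card ι * M ^ 2 : ℝ) = L at *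
  generalize ((XA D.X D.E).card : ℝ) = A at *
  generalize ∑ x ∈ XA D.X D.E, F x = S at *
  generalize ∑ x ∈ D.G, D.om x = O at *
  generalize (D.G.card : ℝ) = G at *
  have hO : 0 < O := (mul_pos_iff_of_pos_left (by positivity)).1 (hG.trans_le h1)
  have h4 : 4 + 2 * P + L ≤ 7 * (P * a) := by nlinarith
  have h5 : δ * (28 * (a ^ 4 * P)) ≤ η := by
    refine le_trans (mul_le_mul_of_nonneg_left ?_ d0) hη
    nlinarith [mul_le_mul_of_nonneg_right (pow_le_pow_right₀ ha (show 4 ≤ 5 by norm_num))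
      (zero_le_one.trans hP), show 0 ≤ a ^ 4 * P by positivity]
  have h6 : δ * G * (4 + 2 * P + L) ≤ η * O := by
    nlinarith [mul_le_mul_of_nonneg_left h4 (mul_nonneg d0 hG.le),
      mul_le_mul_of_nonneg_left h1 (show 0 ≤ δ * (P * a) by positivity),
      mul_le_mul_of_nonneg_right h5 hO.le]
  refine le_of_mul_le_mul_left (le_of_mul_le_mul_left (h2.trans ?_) hZ) hO
  rw [show Fintype.card Z * (O * ((ε + β + η) * A)) =
    A * (Fintype.card Z * (O * (ε + β + η))) by ring]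
  refine mul_le_mul_of_nonneg_left ((add_le_add_left h3 _).trans ?_) hA
  rw [← mul_add]
  exact mul_le_mul_of_nonneg_left (by linarith) hZ.le

end SD

/-- The extra bit vanishes and the other bits have even sum. -/
def ZO {Γ : Type} [Fintype Γ] (u : Option Γ → ZMod 2) : Prop := u none = 0 ∧ ∑ γ, u (some γ) = 0

/-- Forgetting the extra bit. -/
def resO {Γ : Type} {M : ℕ} (π : Fin M × Fin M × Option Γ → ZMod 2) (e : Fin M × Fin M × Γ) :
    ZMod 2 := π (e.1, e.2.1, some e.2.2)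

theorem card_ZO {Γ : Type} [Fintype Γ] {M : ℕ} (P : (Fin M × Fin M × Γ → ZMod 2) → Prop) :
    ((ParZ M (ZO (Γ := Γ))).filter fun π => P (resO π)).card = ((Par M Γ).filter P).card := by
  refine card_bij (fun π _ => resO π) (fun π h => ?_) (fun π h π' h' e => ?_) fun π h => ?_
  · simp only [ParZ, Par, mem_filter, mem_univ, true_and] at h ⊢
    exact ⟨fun s t => (h.1 s t).2, h.2⟩
  · simp only [ParZ, mem_filter, mem_univ, true_and] at h h'
    funext ⟨s, t, g⟩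
    rcases g with _ | g
    exacts [(h.1 s t).1.trans (h'.1 s t).1.symm, congrFun e (s, t, g)]
  · simp only [ParZ, Par, mem_filter, mem_univ, true_and] at h ⊢
    exact ⟨fun e => e.2.2.elim 0 fun g => π (e.1, e.2.1, g), ⟨fun s t => ⟨rfl, h.1 s t⟩, h.2⟩, rfl⟩

theorem bad_ZO {Γ : Type} [Fintype Γ] {M : ℕ} {P : (Fin M × Fin M × Γ → ZMod 2) → Prop} {β : ℝ}
    (h : (((Par M Γ).filter P).card : ℝ) ≤ β * (Par M Γ).card) :
    (((ParZ M (ZO (Γ := Γ))).filter fun π => P (resO π)).card : ℝ) ≤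
      β * (ParZ M (ZO (Γ := Γ))).card := by
  have h1 := card_ZO (M := M) (Γ := Γ) fun _ => True
  rw [filter_true, filter_true] at h1
  rwa [card_ZO, h1]

end Pool.Agent.B6.S
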