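import Pool.Agent.Lib.MP_696deb_nt.B6.SPa
import Pool.Agent.Lib.MP_696deb_nt.B6.SEq
import Pool.Agent.Lib.MP_696deb_nt.B6.SG0
import Pool.Agent.Lib.MP_696deb_nt.B6.SSd

/-! Classes of pointer primes. -/

set_option autoImplicit false

open Finset Function
open scoped Classical NumberTheorySymbols

namespace Pool.Agent.B6.S

open Pool.Agent.Lib.MP_696deb_nt Pool.Agent.Lib.MP_696deb_nt.Sm

/-- The two test elements of a good prime. -/
noncomputable def sf (v : ℕ) (b : Bool) : GQ := if b then sig v else frb v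

theorem spb_sum {Γ : Type} [Fintype Γ] (F : Finset (Option Γ)) (w : Option Γ → F2) :
    ∑ o ∈ F, w o = (if none ∈ F then 1 else 0) * w none +
      ∑ γ, (if some γ ∈ F then 1 else 0) * w (some γ) := by
  simp only [boole_mul]
  rw [← sum_ite_mem_eq F, Fintype.sum_option]

namespace Box

variable {C : Cv} (B : Box C) (a : B.Mat) {n M : ℕ} (σ : Sx n → Fin B.r) (N U : ℕ)

def prs (x : Fin B.r × Fin (M + 1) → ℕ) (i : Sx n) (s : Fin (M + 1)) : ℕ := x (σ i, s)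

def dx (x : Fin B.r × Fin (M + 1) → ℕ) : Fin n × Fin M → ℕ := dd (uq (B.prs σ x))

abbrev Tau (n M U : ℕ) : Type := C.TS ⊕ ((B.D0.natAbs.primeFactors ⊕ Fin B.r) × Bool) ⊕
  (Fin n × Fin (M + 1)) ⊕ Fin (Nat.log 2 U + 1)

noncomputable def tst (x : Fin B.r × Fin (M + 1) → ℕ) (c : ℤ) : B.Tau n M U → GQ
  | .inl g => g
  | .inr (.inl (.inl q, b)) => sf q b
  | .inr (.inl (.inr j, b)) => if j ∈ Set.range σ then 1 else sf (x (j, 0)) b
  | .inr (.inr (.inl (j, s))) => sig (x (σ (.inl j), s))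
  | .inr (.inr (.inr k)) => sig (c.natAbs.primeFactorsList.getD k 0)

def Kap (n M U : ℕ) : Type :=
  (Icc (-(U : ℤ)) U : Finset ℤ) × (B.Tau n M U → Gm n M → Fin 3 → F2)

noncomputable instance (n M U : ℕ) : Fintype (B.Kap n M U) :=
  @Fintype.ofFinite _ (by unfold Kap; infer_instance)

noncomputable abbrev pu (x : Fin B.r × Fin (M + 1) → ℕ) (p : ℕ) := C.pd (B.dx σ x) N U p

noncomputable def fp (x : Fin B.r × Fin (M + 1) → ℕ) (p : ℕ) : GQ → Gm n M → C.A :=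
  C.fn3 (B.dx σ x) (B.pu σ N U x p).1

noncomputable def lb (x : Fin B.r × Fin (M + 1) → ℕ) (p r : ℕ) (γ : Gm n M) : F2 :=
  C.ep (B.fp σ N U x p (frb r) γ) (C.T (C.tp r))

noncomputable def sd (M : ℕ) :
    SD (Fin B.r) (Option (Gm n M)) (B.Kap n M U) (Fin 2) (M + 1) where
  X := B.X
  E := B.EE a
  ia := σ ia
  ic := σ ic
  cls x p := (⟨(B.pu σ N U x p).2, C.pd_mem _ _ _ _⟩, fun t γ i =>
    C.bt3 (B.dx σ x) (B.pu σ N U x p).1 (B.tst σ U x (B.pu σ N U x p).2 t) i γ)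
  w x p r o := o.elim (B.EE a (σ ia) (σ ic) p r 0) fun γ => B.lb σ N U x p r γ +
    if γ = 0 then ∑ γ', B.lb σ N U x p r γ' + B.EE a (σ ia) (σ ic) p r 1 else 0
  Z := ZO

/-- The indices other than the two special ones. -/
def Out (j : Fin B.r) : Prop := ¬ (j = σ ia ∨ j = σ ic)

/-- The small primes of the grid are distinct members of their sets. -/
def Nice (x : Fin B.r × Fin (M + 1) → ℕ) : Prop :=
  (∀ j s, B.Out σ j → x (j, s) ∈ B.X j) ∧ ∀ j s s', B.Out σ j → x (j, s) = x (j, s') → s = s'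

/-- The numerical conditions on the two bounds. -/
structure Num (M : ℕ) : Prop where
  hN : ∀ p ∈ B.X (σ ia), p < (N + 1) ^ (3 * 2 ^ (n * M))
  hC : ∀ x : Fin B.r × Fin (M + 1) → ℕ, B.Nice σ x → C.CN (B.dx σ x) ≤ U
  ha : ∀ p ∈ B.X (σ ia), U < p
  hc : ∀ r ∈ B.X (σ ic), U < r

variable {B a σ N U} {x : Fin B.r × Fin (M + 1) → ℕ} {p p' : ℕ}

theorem out_inl (hσ : Injective σ) (j : Fin n) : B.Out σ (σ (.inl j)) := by
  rintro (h | h) <;> exact absurd (hσ h) (by simp)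

theorem out_of {j : Fin B.r} (h : j ∉ Set.range σ) : B.Out σ j := by
  rintro (k | k) <;> exact h ⟨_, k.symm⟩

theorem sd_dep (hσ : Injective σ) (x x' : Fin B.r × Fin (M + 1) → ℕ)
    (h : ∀ v, ¬ (B.sd a σ N U M).In v → x v = x' v) :
    (B.sd a σ N U M).cls x = (B.sd a σ N U M).cls x' ∧
      (B.sd a σ N U M).w x = (B.sd a σ N U M).w x' := by
  have e0 : ∀ j s, x (σ (.inl j), s) = x' (σ (.inl j), s) := fun j s => h _ (out_inl hσ j)
  have e1 : B.dx σ x = B.dx σ x' := by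
    funext k
    simp only [dx, dd, prs, e0]
  have e3 : B.tst σ U x = B.tst σ U x' := by
    funext c t
    rcases t with g | ⟨q | j, i⟩ | ⟨j, s⟩ | k
    · rfl
    · rfl
    · simp only [tst]
      split_ifs with hj
      · rfl
      · rw [h (j, 0) (out_of hj)]
    · simp only [tst, e0]
    · rfl
  constructor
  · funext p
    simp only [sd, pu, e1, e3]
  · funext p r γ
    simp only [sd, lb, fp, pu, e1]

theorem sd_wsum (x : Fin B.r × Fin (M + 1) → ℕ) (p r : ℕ) :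
    B.EE a (σ ia) (σ ic) p r = 0 ↔ ZO ((B.sd a σ N U M).w x p r) := by
  simp only [ZO, sd, Option.elim, sum_add_distrib, sum_ite_eq', mem_univ, if_true]
  rw [← add_assoc, CharTwo.add_self_eq_zero, zero_add, funext_iff, Fin.forall_fin_two]
  rfl

theorem nice_of_G (h : x ∈ (B.sd a σ N U M).G) (hi : SD.Inj x) : B.Nice σ x := by
  simp only [SD.G, Fintype.mem_piFinset] at h
  exact ⟨fun j s _ => h (_, s), fun j s s' _ => hi _ s s'⟩

theorem nice_of_G0 (h : x ∈ (B.sd a σ N U M).G0) (hi : (B.sd a σ N U M).InjO x) : B.Nice σ x := by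
  simp only [SD.G0, Fintype.mem_piFinset] at h
  refine ⟨fun j s k => ?_, fun j s s' k => hi _ s s' (fun e => k (.inl e)) fun e => k (.inr e)⟩
  have := h (j, s)
  rwa [if_neg (show ¬ (B.sd a σ N U M).In (j, s) from k)] at this

theorem Nice.inj (hx : B.Nice σ x) (h : B.Wf) (hσ : Injective σ) {j j' : Fin n}
    {s s' : Fin (M + 1)} (e : x (σ (.inl j), s) = x (σ (.inl j'), s')) : j = j' ∧ s = s' := by
  obtain rfl : j = j' := Sum.inl_injective
    (hσ (h.disj _ _ _ (hx.1 _ s (out_inl hσ j)) (e ▸ hx.1 _ s' (out_inl hσ j'))))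
  exact ⟨rfl, hx.2 _ s s' (out_inl hσ j) e⟩

theorem Nice.surj (hx : B.Nice σ x) (h : B.Wf) (hσ : Injective σ) : Surjective (bar (B.dx σ x)) :=
  bar_surj (fun k : Fin n × Fin M => x (σ (.inl k.1), 0)) (fun k => x (σ (.inl k.1), k.2.succ))
    (fun _ => h.prime (hx.1 _ _ (out_inl hσ _))) (fun _ => h.prime (hx.1 _ _ (out_inl hσ _)))
    (fun _ _ e => Prod.ext (hx.inj h hσ e).1 (Fin.succ_injective _ (hx.inj h hσ e).2))
    fun _ _ e => Fin.succ_ne_zero _ (hx.inj h hσ e).2.symm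

theorem Nice.jac (hx : B.Nice σ x) (h : B.Wf) (hσ : Injective σ) {i : Fin B.r}
    (hi : ∀ j, i ≠ σ (.inl j)) (hp : p ∈ B.X i)
    (hc : ∀ j s, B.EE a i (σ (.inl j)) p (x (σ (.inl j), s)) = 0) (k : Fin n × Fin M) :
    J(B.dx σ x k | p) = 1 := by
  have m := fun s => hx.1 _ s (out_inl hσ k.1)
  have s := spa_aleg (h.prime hp) (x := (x (σ (.inl k.1), 0) : ℤ) * x (σ (.inl k.1), k.2.succ))
    fun e => ((Nat.prime_iff_prime_int.mp (h.prime hp)).dvd_or_dvd e).elim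
      (h.nd (hi k.1) hp (m _)) (h.nd (hi k.1) hp (m _))
  rw [h.aleg_pair (hi k.1) hp (m _) (m _) (hc _ _) (hc _ _), sg_zero, ← Nat.cast_mul] at s
  exact_mod_cast s.symm

theorem Nice.jac' (hx : B.Nice σ x) (h : B.Wf) (hσ : Injective σ) {b : Bool}
    (hp : p ∈ B.X (σ (.inr b))) (hc : (B.sd a σ N U M).Comp x (σ (.inr b)) p) (k : Fin n × Fin M) :
    J(B.dx σ x k | p) = 1 :=
  hx.jac h hσ (fun j e => by simpa using hσ e) hp (fun j s => hc (_, s) (out_inl hσ j)) k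

theorem Nice.spec (hx : B.Nice σ x) (h : B.Wf) (hσ : Injective σ) (hn : B.Num σ N U M)
    (hp : p ∈ B.X (σ ia)) (hc : (B.sd a σ N U M).Comp x (σ ia) p) :
    C.Spec (B.dx σ x) N U p (B.pu σ N U x p) :=
  Cv.spec_pd (h.ty _ p hp) (hx.surj h hσ) (hx.jac' h hσ hp hc) (by simpa using hn.hN p hp)
    (hn.hC x hx)

/-- Two pointer primes in one class have cochains that agree at all other places. -/
theorem Nice.agree (hx : B.Nice σ x) (h : B.Wf) (hσ : Injective σ) (hn : B.Num σ N U M)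
    (he : (B.sd a σ N U M).IntE x) (hp : p ∈ B.X (σ ia)) (hp' : p' ∈ B.X (σ ia))
    (hc : (B.sd a σ N U M).Comp x (σ ia) p) (hc' : (B.sd a σ N U M).Comp x (σ ia) p')
    (hs : (B.sd a σ N U M).cls x p = (B.sd a σ N U M).cls x p') :
    (∀ v, C.FP (B.D0 * ∏ j with j ∉ Set.range σ, (x (j, 0) : ℤ)) v → ∀ g ∈ Gv v,
      B.fp σ N U x p g = B.fp σ N U x p' g) ∧
    ∀ q, C.Gp q → q ≠ p → q ≠ p' → B.fp σ N U x p (sig q) = B.fp σ N U x p' (sig q) := by
  have sp := hx.spec h hσ hn hp hc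
  have sp' := hx.spec h hσ hn hp' hc'
  have ec : (B.pu σ N U x p).2 = (B.pu σ N U x p').2 :=
    congrArg (fun k : B.Kap n M U => (k.1 : ℤ)) hs
  have et : ∀ t, B.fp σ N U x p (B.tst σ U x (B.pu σ N U x p).2 t) =
      B.fp σ N U x p' (B.tst σ U x (B.pu σ N U x p).2 t) := fun t => funext fun γ => by
    refine (congrArg (fun k : B.Kap n M U => C.pr (k.2 t γ)) hs).trans ?_
    rw [ec]
    rfl
  have m := fun j s => hx.1 _ s (out_inl hσ j)
  have hb : ∀ v, C.FP B.D0 v → ∀ g ∈ Gv v, bar (B.dx σ x) g = 0 := fun v hv g hg =>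
    funext fun k => by
      have := (h.same _ _ (m k.1 0) _ (m k.1 k.2.succ)).chi v hv g hg
      rwa [← Nat.cast_mul] at this
  refine ⟨fun v hv => ?_, fun q hq h1 h2 => ?_⟩
  · by_cases h0 : v ≤ C.N0
    · exact sp.bad sp' hv.1 h0 (hb v ⟨hv.1, .inl h0⟩) fun g hg => et (.inl ⟨g, hg⟩)
    have gv : C.Gp v := ⟨hv.1, not_le.1 h0⟩
    rcases (Nat.prime_iff_prime_int.1 hv.1).dvd_or_dvd (hv.2.resolve_left h0) with k | k
    · have k' : v ∈ B.D0.natAbs.primeFactors :=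
        Nat.mem_primeFactors.2 ⟨hv.1, Int.natCast_dvd.1 k, Int.natAbs_ne_zero.2 B.h0⟩
      exact sp.good sp' gv (hb v ⟨hv.1, .inr k⟩) (et (.inr (.inl (.inl ⟨v, k'⟩, true))))
        (et (.inr (.inl (.inl ⟨v, k'⟩, false))))
    · obtain ⟨j, hj, k⟩ := (Prime.dvd_finsetProd_iff (Nat.prime_iff_prime_int.1 hv.1) _).1 k
      replace hj := (mem_filter.1 hj).2
      have mj := hx.1 j 0 (out_of hj)
      obtain rfl := (Nat.prime_dvd_prime_iff_eq hv.1 (h.prime mj)).1 (Int.natCast_dvd_natCast.1 k)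
      have e1 := et (.inr (.inl (.inr j, true)))
      have e2 := et (.inr (.inl (.inr j, false)))
      simp only [tst, if_neg hj] at e1 e2
      refine sp.good sp' gv (fun g hg => ?_) e1 e2
      rw [Gv_prime hv.1] at hg
      refine bar_dec (by rw [pl_p hv.1]; exact gv.ne_two) (fun k => ?_) hg
      rw [pl_p hv.1]
      exact hx.jac h hσ (fun i e => hj ⟨_, e.symm⟩) mj (fun i s => he (j, 0) (_, s) (out_of hj)
        (out_inl hσ i) fun e => hj ⟨_, e.symm⟩) k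
  · by_cases k1 : (q : ℤ) ∣ (B.pu σ N U x p).2
    · obtain ⟨k, rfl⟩ := spa_idx sp.2.2.1 sp.2.2.2.1 hq.1 k1
      exact et (.inr (.inr (.inr k)))
    by_cases k2 : ∃ j t, q = x (σ (.inl j), t)
    · obtain ⟨j, t, rfl⟩ := k2
      exact et (.inr (.inr (.inl (j, t))))
    have k3 : ∀ i, ¬ q ∣ B.dx σ x i := fun i hd => by
      rcases hq.1.dvd_mul.1 hd with k | k <;>
        exact k2 ⟨_, _, (Nat.prime_dvd_prime_iff_eq hq.1 (h.prime (m _ _))).1 k⟩
    exact (sp.unr (h.prime hp) hq h1 k1 k3).trans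
      (sp'.unr (h.prime hp') hq h2 (ec ▸ k1) k3).symm

theorem fkit (h : B.Wf) (hσ : Injective σ) (hn : B.Num σ N U M) (hx : x ∈ (B.sd a σ N U M).G)
    (hi : SD.Inj x) (he : (B.sd a σ N U M).AllE x) (hs : (B.sd a σ N U M).Same x) :
    C.FKit (B.prs σ x) (B.D0 * ∏ j with j ∉ Set.range σ, (x (j, 0) : ℤ))
      fun s => B.fp σ N U x (x (σ ia, s)) := by
  have hnc := nice_of_G hx hi
  simp only [SD.G, Fintype.mem_piFinset] at hx
  have ha : ∀ s, x (σ ia, s) ∈ B.X (σ ia) := fun s => hx (_, s)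
  have hc : ∀ s, (B.sd a σ N U M).Comp x (σ ia) (x (σ ia, s)) := fun s v hv =>
    he (σ ia, s) v fun k => hv (.inl k.symm)
  have sp := fun s => hnc.spec h hσ hn (ha s) (hc s)
  have ag := fun s s' => hnc.agree h hσ hn (fun v v' _ _ => he v v') (ha s) (ha s') (hc s) (hc s')
    (hs s s')
  refine ⟨fun s => Cv.two_fn3, fun s => Cv.fn3_mul (sp s).2.1, fun s => Cv.lc_fn3,
    fun s s' => (ag s s').1, fun s s' q hq k => (ag s s').2 q hq (k s) (k s'), fun s t γ => ?_⟩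
  refine ((sp s).ram (h.prime (ha s)) (h.gp (ha t)) (hn.ha _ (ha t))
    (hnc.jac' h hσ (ha t) (hc t)) γ).trans (if_congr (and_congr_left' ?_) rfl rfl)
  exact ⟨hi _ _ _, fun e => e ▸ rfl⟩

theorem lbil_raw (h : B.Wf) (hσ : Injective σ) (hn : B.Num σ N U M) (hlt : σ ic < σ ia) {Rm : ℕ}
    (hR : ∀ r ∈ B.X (σ ic), r ≤ Rm) (hx : B.Nice σ x) (he : (B.sd a σ N U M).IntE x)
    (k : B.Kap n M U) {F : Finset (Option (Gm n M))} (hF : F.Nonempty) (α β : ℕ → ℝ)
    (hα : ∀ p, |α p| ≤ 1) (hβ : ∀ q, |β q| ≤ 1) :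
    (∑ p ∈ (B.sd a σ N U M).K x k, ∑ r ∈ (B.sd a σ N U M).R x,
      α p * β r * sg (∑ γ ∈ F, (B.sd a σ N U M).w x p r γ)) ^ 2 ≤
      (B.X (σ ia)).card * ((2 * N + 1 : ℝ) ^ (3 * 2 ^ (n * M)) * (B.X (σ ic)).card +
        ((B.X (σ ic)).card : ℝ) ^ 2 * ((3 * 2 ^ (n * M) : ℕ) * (Rm : ℝ) ^ 2 *
          (2 * N + 1 : ℝ) ^ (3 * 2 ^ (n * M) - 1))) := by
  rcases ((B.sd a σ N U M).K x k).eq_empty_or_nonempty with h0 | ⟨p0, h0⟩
  · rw [h0, sum_empty, zero_pow two_ne_zero]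
    positivity
  have hK : ∀ p ∈ (B.sd a σ N U M).K x k, p ∈ B.X (σ ia) ∧ (B.sd a σ N U M).Comp x (σ ia) p ∧
      (B.sd a σ N U M).cls x p = k := fun p hp => mem_filter.1 hp
  have sp := fun p hp => hx.spec h hσ hn (hK p hp).1 (hK p hp).2.1
  have ec : ∀ p ∈ (B.sd a σ N U M).K x k, (B.pu σ N U x p).2 = k.1.1 := fun p hp =>
    congrArg (fun z : B.Kap n M U => z.1.1) (hK p hp).2.2
  have hr : ∀ r ∈ (B.sd a σ N U M).R x, r ∈ B.X (σ ic) := fun r hr => (mem_filter.1 hr).1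
  obtain ⟨V, hV⟩ : ∃ V : Finset (Gm n M), ∀ i : Fintype (Gm n M), @univ _ i = V :=
    ⟨univ, fun _ => Finset.ext fun x => by simp⟩
  have key := Cv.ptr_gen (C := C) (B.dx σ x) ((B.sd a σ N U M).K x k) ((B.sd a σ N U M).R x)
    (fun p => (B.pu σ N U x p).1) k.1.1 N Rm (fun p hp => (sp p hp).1)
    (fun p hp => by rw [← ec p hp]; exact (sp p hp).2.2.2.2.1)
    (fun r hr' => ⟨h.ty _ r (hr r hr'), hR r (hr r hr'),
      hx.jac' h hσ (hr r hr') (mem_filter.1 hr').2⟩)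
    (fun p hp r hr' hd => ((Nat.prime_iff_prime_int.mp (h.prime (hr r hr'))).dvd_or_dvd hd).elim
      (ec p hp ▸ (sp p hp).nd (hn.hc r (hr r hr'))) (h.nd hlt.ne (hr r hr') (hK p hp).1))
    (e := if none ∈ F then 1 else 0) (t := fun γ => if some γ ∈ F then 1 else 0)
    (by
      obtain ⟨_ | γ, hγ⟩ := hF
      · exact .inl ((if_pos hγ).trans_ne one_ne_zero)
      · exact .inr fun e => one_ne_zero ((if_pos hγ).symm.trans (congrFun e γ)))
    (fun r => (if none ∈ F then 1 else 0) * a ⟨(σ ic, σ ia), hlt⟩ 0 + (if some 0 ∈ F then 1 else 0) *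
      (C.sy (C.tot (B.dx σ x) (B.pu σ N U x p0).1 p0) r + a ⟨(σ ic, σ ia), hlt⟩ 1))
    (fun p r => ∑ γ ∈ F, (B.sd a σ N U M).w x p r γ) (fun p hp r hr' => by
      have ag := hx.agree h hσ hn he (hK p hp).1 (hK p0 h0).1 (hK p hp).2.1 (hK p0 h0).2.1
        ((hK p hp).2.2.trans (hK p0 h0).2.2.symm)
      rw [← (sp p hp).eta (sp p0 h0) (h.ty _ _ (hK p hp).1) (h.ty _ _ (hK p0 h0).1)
        (hn.ha _ (hK p hp).1) (hn.ha _ (hK p0 h0).1) (hx.jac' h hσ (hK p hp).1 (hK p hp).2.1)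
        (hx.jac' h hσ (hK p0 h0).1 (hK p0 h0).2.1) ag.2 (fun v hv g hg =>
          ⟨ag.1 v ((Cv.mem_bad.1 hv).imp_right .inl) g hg, (h.same _ _ (hK p hp).1 _
            (hK p0 h0).1).be v ((Cv.mem_bad.1 hv).imp_right .inl) g hg⟩) (h.ty _ r (hr r hr')),
        (sp p hp).sy_tot, spb_sum F]
      simp only [sd, Option.elim, EE_lt hlt, mul_add, sum_add_distrib, Pi.add_apply, Cv.ed,
        Matrix.cons_val, lb, fp]
      rw [sum_eq_single_of_mem (f := fun γ => _ * ite (γ = 0) _ _) 0 (mem_univ _) fun γ _ e => by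
        rw [if_neg e, mul_zero], if_pos rfl]
      simp only [hV]
      ring_nf) α β hα hβ
  rw [Fintype.card_prod, Fintype.card_fin, Fintype.card_fin] at key
  have c1 : (((B.sd a σ N U M).K x k).card : ℝ) ≤ (B.X (σ ia)).card :=
    Nat.cast_le.2 (card_le_card fun p hp => (hK p hp).1)
  have c2 : (((B.sd a σ N U M).R x).card : ℝ) ≤ (B.X (σ ic)).card :=
    Nat.cast_le.2 (card_le_card hr)
  refine key.trans ?_
  gcongr

theorem card_Kap : Fintype.card (B.Kap n M U) = (2 * U + 1) * 2 ^ (3 * 2 ^ (n * M) *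
    (C.TS.card + 2 * (B.r + B.k0) + n * (M + 1) + (Nat.log 2 U + 1))) := by
  rw [Fintype.card_eq_nat_card, Kap, Nat.card_prod, Nat.card_fun, Nat.card_fun, Nat.card_fun,
    ← pow_mul, ← pow_mul]
  congr 1
  · simp only [Nat.card_eq_fintype_card, Fintype.card_coe, Int.card_Icc]
    omega
  · simp only [Nat.card_eq_fintype_card, ZMod.card, Fintype.card_pi, Fintype.card_sum,
      Fintype.card_prod, Fintype.card_fin, Fintype.card_bool, Fintype.card_coe, prod_const,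
      card_univ, k0]
    congr 1
    ring

end Box

end Pool.Agent.B6.S
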