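import Mathlib

/-! Numerical inequalities for sampling. -/

set_option autoImplicit false

namespace Pool.Agent.B6.S

/-- The bound for the cofactors. -/
def CC (R k T : ℕ) : ℕ := (3 * R ^ 2 * (2 ^ k * (2 * T) ^ (2 * k))) ^ (3 * 2 ^ k)

theorem kc_le {R : ℕ} (hR : 1 ≤ R) (a b k : ℕ) : ∃ e : ℕ, ∀ T S : ℕ, 2 ≤ T → 2 ^ S ≤ T →
    CC R k T ≤ T ^ e ∧ (2 * CC R k T + 1) *
      2 ^ (3 * 2 ^ k * (a + 2 * S + b + (Nat.log 2 (CC R k T) + 1))) ≤ T ^ e := by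
  refine ⟨(3 * R ^ 2 + 5 * k) * (3 * 2 ^ k) + 2 +
    (a + 2 + b + ((3 * R ^ 2 + 5 * k) * (3 * 2 ^ k) + 1)) * (3 * 2 ^ k), fun T S hT hS => ?_⟩
  have h1 : CC R k T ≤ T ^ ((3 * R ^ 2 + 5 * k) * (3 * 2 ^ k)) := by
    rw [pow_mul T, CC]
    refine Nat.pow_le_pow_left ?_ _
    have := (Nat.lt_two_pow_self (n := 3 * R ^ 2)).le.trans (Nat.pow_le_pow_left hT _)
    calc _ ≤ T ^ (3 * R ^ 2) * (T ^ k * (T * T) ^ (2 * k)) := by gcongr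
      _ = _ := by ring
  have h0 : 0 < CC R k T := by
    unfold CC
    positivity
  generalize CC R k T = C, (3 * R ^ 2 + 5 * k) * (3 * 2 ^ k) = e at h1 h0 ⊢
  refine ⟨h1.trans (Nat.pow_le_pow_right (by omega) (by omega)), ?_⟩
  rw [pow_add T (e + 2), mul_comm (3 * 2 ^ k), pow_mul 2, pow_mul T]
  refine Nat.mul_le_mul ?_ (Nat.pow_le_pow_left ?_ _)
  · calc _ ≤ C * (2 * 2) := by omega
      _ ≤ T ^ e * (T * T) := by gcongr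
      _ = _ := by ring
  · have h2 := Nat.pow_log_le_self 2 h0.ne'
    calc _ = 2 ^ a * (2 ^ S) ^ 2 * 2 ^ b * (2 ^ Nat.log 2 C * 2) := by ring
      _ ≤ T ^ a * T ^ 2 * T ^ b * (T ^ e * T) := by
        have := h2.trans h1
        gcongr
      _ = _ := by ring

/-- The final inequality for the bilinear bound in a class. -/
theorem lb_num (g e : ℕ) (hg : 0 < g) : ∃ c : ℕ, ∀ (T tc ta Na Nc S : ℝ) (N : ℕ), 2 ≤ T →
    T ^ c ≤ tc → tc ^ c ≤ ta → ta ≤ T * Na → tc ≤ T * Nc → 0 < N → (N : ℝ) ^ g ≤ 2 * ta →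
    2 * ta < (N + 1) ^ g →
    S ^ 2 ≤ Na * ((2 * N + 1) ^ g * Nc + Nc ^ 2 * (g * (2 * tc) ^ 2 * (2 * N + 1) ^ (g - 1))) →
    T ^ e * |S| ≤ Na * Nc := by
  obtain ⟨g, rfl⟩ : ∃ k, g = k + 1 := ⟨g - 1, by omega⟩
  refine ⟨(3 * (g + 1) + 2 * e + 7) * (g + 1),
    fun T tc ta Na Nc S N hT h1 h2 h3 h4 hN h5 h6 h7 => ?_⟩
  have T0 : 0 < T := by linarith
  have T1 : 1 ≤ T := by linarith
  have N1 : (1 : ℝ) ≤ N := by exact_mod_cast hN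
  have k1 : T ^ (2 * (g + 1) + 2 * e + 4) ≤ tc :=
    (pow_le_pow_right₀ T1 (by nlinarith)).trans h1
  have k2 : T ≤ tc := (le_self_pow₀ T1 (by omega)).trans k1
  have c0 : 0 < tc := by linarith
  have a0 : 0 < ta := (pow_pos c0 _).trans_le h2
  have Na0 : 0 < Na := (mul_pos_iff_of_pos_left T0).1 (a0.trans_le h3)
  have Nc0 : 0 < Nc := (mul_pos_iff_of_pos_left T0).1 (c0.trans_le h4)
  have k3 : (2 * N + 1 : ℝ) ^ (g + 1) ≤ 3 ^ (g + 1) * (2 * (T * Na)) :=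
    calc _ ≤ (3 * N : ℝ) ^ (g + 1) := by gcongr; linarith
      _ = 3 ^ (g + 1) * (N : ℝ) ^ (g + 1) := mul_pow _ _ _
      _ ≤ _ := by gcongr; linarith
  have k4 : ∀ x : ℝ, 2 ≤ x → (3 : ℝ) ^ (g + 1) ≤ x ^ (2 * (g + 1)) := fun x hx => by
    rw [pow_mul]
    exact pow_le_pow_left₀ (by norm_num) (by nlinarith) _
  have k5 : 4 * 3 ^ (g + 1) * T ^ (2 * e + 1) ≤ Nc := by
    refine le_of_mul_le_mul_left (le_trans ?_ (k1.trans h4)) T0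
    calc _ = T * (2 * 2 * 3 ^ (g + 1) * T ^ (2 * e + 1)) := by ring
      _ ≤ T * (T * T * T ^ (2 * (g + 1)) * T ^ (2 * e + 1)) := by gcongr; exact k4 T hT
      _ = _ := by ring
  have k6 : 16 * ((g + 1 : ℕ) : ℝ) * 3 ^ (g + 1) * T ^ (2 * e + 1) * tc ^ 2 ≤ 2 * N + 1 := by
    have t2 : 2 ≤ tc := hT.trans k2
    have e1 : ((g + 1 : ℕ) : ℝ) ≤ 2 ^ (g + 1) := by exact_mod_cast Nat.lt_two_pow_self.le
    have e2 : tc ^ (3 * (g + 1) + 2 * e + 7) < N + 1 :=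
      lt_of_pow_lt_pow_left₀ (g + 1) (by linarith) (by rw [← pow_mul]; linarith)
    calc _ = 2 ^ 4 * ((g + 1 : ℕ) : ℝ) * 3 ^ (g + 1) * T ^ (2 * e + 1) * tc ^ 2 := by ring
      _ ≤ tc ^ 4 * tc ^ (g + 1) * tc ^ (2 * (g + 1)) * tc ^ (2 * e + 1) * tc ^ 2 := by
        gcongr
        exacts [e1.trans (by gcongr), k4 tc t2]
      _ = tc ^ (3 * (g + 1) + 2 * e + 7) := by ring
      _ ≤ _ := by linarith
  have k7 : 2 * (T ^ (2 * e) * (2 * N + 1 : ℝ) ^ (g + 1)) ≤ Na * Nc :=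
    calc _ ≤ 2 * (T ^ (2 * e) * (3 ^ (g + 1) * (2 * (T * Na)))) := by gcongr
      _ = Na * (4 * 3 ^ (g + 1) * T ^ (2 * e + 1)) := by ring
      _ ≤ _ := by gcongr
  have k8 : 2 * (T ^ (2 * e) * (((g + 1 : ℕ) : ℝ) * (2 * tc) ^ 2 * (2 * N + 1 : ℝ) ^ g)) ≤ Na := by
    refine le_of_mul_le_mul_left ?_ (show (0 : ℝ) < 2 * N + 1 by linarith)
    calc _ = 8 * ((g + 1 : ℕ) : ℝ) * T ^ (2 * e) * tc ^ 2 * (2 * N + 1 : ℝ) ^ (g + 1) := by ring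
      _ ≤ 8 * ((g + 1 : ℕ) : ℝ) * T ^ (2 * e) * tc ^ 2 * (3 ^ (g + 1) * (2 * (T * Na))) := by gcongr
      _ = 16 * ((g + 1 : ℕ) : ℝ) * 3 ^ (g + 1) * T ^ (2 * e + 1) * tc ^ 2 * Na := by ring
      _ ≤ _ := by gcongr
  rw [Nat.add_sub_cancel] at h7
  refine (pow_le_pow_iff_left₀ (by positivity) (by positivity) two_ne_zero).1 ?_
  have k9 := mul_le_mul_of_nonneg_left h7 (pow_nonneg T0.le (2 * e))
  have l1 := mul_le_mul_of_nonneg_left k7 (mul_pos Na0 Nc0).le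
  have l2 := mul_le_mul_of_nonneg_left k8 (mul_pos Na0 (pow_pos Nc0 2)).le
  rw [mul_pow, sq_abs, ← pow_mul, mul_comm e]
  nlinarith

end Pool.Agent.B6.S
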