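import Pool.Agent.Lib.MP_696deb_nt.B6.SPb
import Pool.Agent.Lib.MP_696deb_nt.B6.SPn

/-! The hypotheses of the sampling theorem hold in a box. -/

set_option autoImplicit false

open Finset Function
open scoped Classical NumberTheorySymbols

namespace Pool.Agent.B6.S

open Pool.Agent.Lib.MP_696deb_nt Pool.Agent.Lib.MP_696deb_nt.Sm

theorem ok_main (C : Cv) (n M e : ℕ) (hn : 1 ≤ n) : ∃ c : ℕ, ∀ B : Box C, B.Hyp c → ∀ (a : B.Mat)
    (σ : Sx n → Fin B.r), Injective σ → (∀ j, σ (Sum.inl j) ∈ B.I 0) → σ ic ∈ B.I 1 →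
    σ ia ∈ B.I 2 → ∃ N U : ℕ, B.Num σ N U M ∧ (B.sd a σ N U M).OK ((1 / B.Lm) ^ e) := by
  obtain ⟨e2, he2⟩ := kc_le C.one C.TS.card (n * (M + 1)) (n * M)
  obtain ⟨c1, hc1⟩ := bil_Lm C e
  obtain ⟨m, hm⟩ := bil_box C
  obtain ⟨c2, hc2⟩ := lb_num (3 * 2 ^ (n * M)) (e + e2) (by positivity)
  refine ⟨c1 + c2 + (e2 + m + e) * 24 + 1, fun B h a σ hσ h0 h1 h2 => ?_⟩
  obtain ⟨j0, -, hj⟩ := exists_max_image univ (fun j => B.t (σ (.inl j))) ⟨⟨0, hn⟩, mem_univ _⟩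
  have o1 := fun c hc => ((h.mono (c := c) hc).ord 0 1 (by decide) _ (h0 j0) _ h1).2
  have o2 := fun c hc => ((h.mono (c := c) hc).ord 1 2 (by decide) _ h1 _ h2).2
  have l1 : B.Lm ≤ B.t (σ (.inl j0)) := by simpa using (h.mono (c := 1) (by omega)).Lm_pow_le _
  generalize B.t (σ (.inl j0)) = T at hj o1 l1
  have l2 := h.two_le_Lm
  have l0 : 0 < B.Lm := by linarith
  have T2 : (2 : ℝ) ≤ T := l2.trans l1
  have T1 : (1 : ℝ) ≤ T := by linarith
  have o3 : B.t (σ ic) ≤ B.t (σ ia) := by simpa using o2 1 (by omega)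
  obtain ⟨k1, k2⟩ := he2 T (B.r + B.k0) (by exact_mod_cast T2) (by
    have : (2 : ℝ) ^ (B.r + B.k0) ≤ T :=
      ((pow_le_pow_right₀ one_le_two (by nlinarith)).trans h.pow_le_Lm).trans l1
    exact_mod_cast this)
  rw [← Box.card_Kap] at k2
  have k3 : (Fintype.card (B.Kap n M (CC C.R (n * M) T)) : ℝ) ≤ (T : ℝ) ^ e2 := by
    exact_mod_cast k2
  have k4 := k1.trans (o1 e2 (by omega))
  have tc : ∀ j, (B.t j : ℝ) ≤ T * (B.X j).card := fun j =>
    (h.t_le_card j).trans (mul_le_mul_of_nonneg_right l1 (Nat.cast_nonneg _))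
  have a0 : 0 < B.t (σ ia) := by
    have := (h.Lm_pow_le (σ ia)).trans_lt' (by positivity)
    exact_mod_cast this
  have g0 : 3 * 2 ^ (n * M) ≠ 0 := by positivity
  have n1 := (Nat.le_nthRoot_iff (b := 2 * B.t (σ ia)) g0).1 le_rfl
  have n2 := Nat.lt_pow_nthRoot_add_one g0 (2 * B.t (σ ia))
  have n0 : 0 < Nat.nthRoot (3 * 2 ^ (n * M)) (2 * B.t (σ ia)) :=
    (Nat.le_nthRoot_iff (a := 1) g0).2 (by rw [one_pow]; omega)
  generalize Nat.nthRoot (3 * 2 ^ (n * M)) (2 * B.t (σ ia)) = N at n0 n1 n2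
  have hnum : B.Num σ N (CC C.R (n * M) T) M := by
    refine ⟨fun p hp => (h.rng _ p hp).2.trans_lt n2, fun x hx => ?_,
      fun p hp => (k4.trans o3).trans_lt (h.rng _ p hp).1, fun p hp => k4.trans_lt (h.rng _ p hp).1⟩
    have b : ∀ j s, x (σ (.inl j), s) ≤ 2 * T := fun j s =>
      (h.rng _ _ (hx.1 _ s (Box.out_inl hσ j))).2.trans (Nat.mul_le_mul_left 2 (hj j (mem_univ _)))
    rw [Cv.CN, Fintype.card_prod, Fintype.card_fin, Fintype.card_fin]
    refine Nat.pow_le_pow_left (Nat.mul_le_mul_left _ (Nat.mul_le_mul_left _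
      ((prod_le_pow_card _ _ ((2 * T) ^ 2) fun i _ => ?_).trans (by simp [pow_mul])))) _
    rw [sq]
    exact Nat.mul_le_mul (b _ _) (b _ _)
  have fin : ∀ u v : ℝ, 0 ≤ u → (T : ℝ) ^ (e + e2) * u ≤ v →
      (Fintype.card (B.Kap n M (CC C.R (n * M) T)) : ℝ) * u ≤ (1 / B.Lm) ^ e * v :=
    fun u v hu huv => by
    rw [one_div_pow, one_div, ← div_eq_inv_mul, le_div_iff₀ (by positivity)]
    refine le_trans ?_ huv
    calc _ ≤ (T : ℝ) ^ e2 * u * (T : ℝ) ^ e := by gcongr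
      _ = _ := by ring
  refine ⟨N, _, hnum, fun k => absurd (hσ k) (by simp), Box.EE_sym, Box.sd_dep hσ, by positivity,
    hc1 B a (h.mono (by omega)), fun F hF α β hα hβ => ?_, fun j => ?_, ?_, Box.sd_wsum,
    fun x hx hi he k F hF α β hα hβ => ?_⟩
  · have b1 : ((T : ℝ) ^ (e2 + m + e)) ^ 24 ≤ B.t (σ ic) := by
      rw [← pow_mul]
      exact_mod_cast o1 _ (by omega)
    have b2 := hm B a _ h (σ ia) (σ ic) (fun k => absurd (hσ k) (by simp)) _ (one_le_pow₀ T1)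
      (b1.trans (Nat.cast_le.2 o3)) b1 F hF α β hα hβ
    rw [mul_assoc]
    refine fin _ _ (abs_nonneg _) ((mul_le_mul_of_nonneg_left b2 (by positivity)).trans ?_)
    rw [mul_assoc, ← mul_assoc]
    refine mul_le_of_le_one_left (by positivity) ?_
    rw [← mul_div_assoc, div_le_one (by positivity)]
    calc _ ≤ (T : ℝ) ^ (e + e2) * (T : ℝ) ^ m := by gcongr
      _ = _ := by ring
  · rw [one_div_pow, one_div, ← div_eq_inv_mul, le_div_iff₀ (by positivity), one_mul]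
    refine le_of_mul_le_mul_left (le_trans ?_ (h.t_le_card j)) l0
    rw [← pow_succ']
    exact (h.mono (by omega)).Lm_pow_le j
  · rw [← mul_one (Fintype.card _ : ℝ)]
    refine fin _ _ zero_le_one (le_of_mul_le_mul_left (le_trans ?_ (tc _)) (by linarith))
    rw [mul_one, ← pow_succ']
    exact_mod_cast (o1 _ (by omega)).trans o3
  · rw [mul_assoc]
    refine fin _ _ (abs_nonneg _) (hc2 T (B.t (σ ic)) (B.t (σ ia)) _ _ _ N T2
      (by exact_mod_cast o1 _ (by omega)) (by exact_mod_cast o2 _ (by omega)) (tc _) (tc _) n0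
      (by exact_mod_cast n1) (by exact_mod_cast n2) ?_)
    have := Box.lbil_raw (a := a) h.wf hσ hnum (h.ord 1 2 (by decide) _ h1 _ h2).1
      (Rm := 2 * B.t (σ ic)) (fun r hr => (h.rng _ r hr).2) (Box.nice_of_G0 hx hi) he k hF α β hα hβ
    rw [Nat.cast_mul 2, Nat.cast_two] at this
    exact this

end Pool.Agent.B6.S
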