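import Pool.Agent.Lib.MP_696deb_nt.B6.SSa

/-! Weighted grids with several bits: removing the pointer classes. -/

set_option autoImplicit false
set_option linter.unusedSectionVars false

open Finset
open scoped Classical

namespace Pool.Agent.B6.S

open Pool.Agent.Lib.MP_696deb_nt Sm
open Sm.SD (sampd_prod sampd_pow sampd_fiber sampA_fiber sampA_indep sampA_count sc_count sc_diag
  sc_ite sc_W sc_two sc_arith sc_pow sampm_half sampm_low sampm_one pt Inj)

namespace SD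

variable {ι Γ κ Bt : Type} [Fintype ι] [Fintype Γ] [Fintype κ] [Fintype Bt] {M : ℕ} [NeZero M]
  {D : SD ι Γ κ Bt M} {δ : ℝ}

/-- The value at the point, cut by the edge of the point. -/
noncomputable def sampAf (D : SD ι Γ κ Bt M) (z : ι → Fin M) (F : (ι → ℕ) → ℝ)
    (y : ι × Fin M → ℕ) : ℝ :=
  if D.E D.ia D.ic (y (D.ia, z D.ia)) (y (D.ic, z D.ic)) = 0 then F (pt y z) else 0

omit [Fintype ι] [Fintype Γ] [Fintype κ] [NeZero M] in
theorem sampA_congr {z : ι → Fin M} (F : (ι → ℕ) → ℝ) {x y : ι × Fin M → ℕ}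
    (h : ∀ j, x (j, z j) = y (j, z j)) : D.sampAf z F x = D.sampAf z F y := by
  rw [sampAf, sampAf, h, h, show pt x z = pt y z from funext h]

omit [NeZero M] in
theorem sampA_cut (h : D.OK δ) {A B : Finset ℕ} (hA : A ⊆ D.X D.ia) (hB : B ⊆ D.X D.ic) (k : κ)
    {T : Finset Bt} (hT : T.Nonempty) {a b : ℕ → ℝ} (ha : ∀ p, |a p| ≤ 1) (hb : ∀ q, |b q| ≤ 1) :
    |∑ p ∈ A, ∑ q ∈ B, a p * b q * sg (∑ c ∈ T, D.E D.ia D.ic p q c)| ≤
      δ * (D.X D.ia).card * (D.X D.ic).card / Fintype.card κ := by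
  have h1 : (0 : ℝ) < Fintype.card κ := Nat.cast_pos.2 (Fintype.card_pos_iff.2 ⟨k⟩)
  have h2 : ∀ (c : ℕ → ℝ) (C : Finset ℕ), (∀ p, |c p| ≤ 1) → ∀ p,
      |if p ∈ C then c p else 0| ≤ 1 := fun c C hc p => by
    split_ifs
    · exact hc p
    · simp
  have h3 := h.bilac T hT _ _ (h2 a A ha) (h2 b B hb)
  rw [← sum_subset hA fun p _ hp => by simp [hp]] at h3
  rw [le_div_iff₀' h1]
  refine le_of_eq_of_le ?_ h3
  congr 2
  refine sum_congr rfl fun p hp => ?_
  rw [← sum_subset hB fun q _ hq => by simp [hq]]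
  exact sum_congr rfl fun q hq => by rw [if_pos hp, if_pos hq]

omit [NeZero M] in
theorem sampA_step (h : D.OK δ) (z : ι → Fin M) {F : (ι → ℕ) → ℝ} (hF : ∀ x, |F x| ≤ 1)
    (ξ : ι × Fin M → ℕ) (k : κ) :
    |(∑ y ∈ Fintype.piFinset (D.X' ξ k),
      if ∀ s t, D.E D.ia D.ic (y (D.ia, s)) (y (D.ic, t)) = 0 then F (pt y z) else 0) -
      (1 / 2) ^ ((M ^ 2 - 1) * Fintype.card Bt) *
        ∑ y ∈ Fintype.piFinset (D.X' ξ k), D.sampAf z F y| ≤
      δ * (D.X D.ia).card * (D.X D.ic).card / Fintype.card κ *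
        (((D.K ξ k).card : ℝ) ^ (M - 1) * ((D.X D.ic).card : ℝ) ^ (M - 1)) := by
  have d0 := h.d0
  have hac := h.hac
  have h1 := sampA_count (D.X' ξ k) (univ.erase (z D.ia, z D.ic) ×ˢ (univ : Finset Bt))
    (fun e => (D.ia, e.1.1)) (fun e => (D.ic, e.1.2)) (fun e p q => D.E D.ia D.ic p q e.2)
    (fun v => ¬ D.In v ∨ v = (D.ia, z D.ia) ∨ v = (D.ic, z D.ic)) (D.sampAf z F)
    (δ * (D.X D.ia).card * (D.X D.ic).card / Fintype.card κ *
      (((D.K ξ k).card : ℝ) ^ (M - 1) * ((D.X D.ic).card : ℝ) ^ (M - 1))) (by positivity)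
    (fun e _ e' _ he => hac (congrArg Prod.fst he.1)) (fun e he => ?_) (fun x => ?_)
    (fun x y hxy => sampA_congr F fun j => hxy _ ?_) fun e _ T _ he hT a b ha hb => ?_
  · rw [card_product, card_erase_of_mem (mem_univ _), card_univ, card_univ, Fintype.card_prod,
      Fintype.card_fin, ← sq] at h1
    refine le_of_eq_of_le ?_ h1
    congr 2
    refine sum_congr rfl fun y _ => ?_
    split_ifs with h2 h3 h3
    · exact (if_pos (h2 _ _)).symm
    · exact (h3 fun e _ => congrFun (h2 e.1.1 e.1.2) e.2).elim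
    · refine (if_neg fun h4 => h2 fun s t => ?_).symm
      by_cases h5 : (s, t) = (z D.ia, z D.ic)
      · obtain ⟨rfl, rfl⟩ := Prod.mk.inj h5
        exact h4
      · exact funext fun c => h3 ((s, t), c)
          (mem_product.2 ⟨mem_erase.2 ⟨h5, mem_univ _⟩, mem_univ _⟩)
    · rfl
  · by_contra hc
    obtain ⟨h2, h3⟩ := not_or.1 hc
    rcases not_not.1 h2 with h2 | h2 | h2
    · exact h2 (Or.inl rfl)
    · rcases not_not.1 h3 with h3 | h3 | h3
      · exact h3 (Or.inr rfl)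
      · exact hac (congrArg Prod.fst h3).symm
      · exact (mem_erase.1 (mem_product.1 he).1).1
          (Prod.ext (Prod.mk.inj h2).2 (Prod.mk.inj h3).2)
    · exact hac (congrArg Prod.fst h2)
  · unfold sampAf
    split_ifs
    · exact hF _
    · simp
  · by_cases h2 : D.In (j, z j)
    · rcases h2 with h2 | h2 <;> obtain rfl : j = _ := h2
      · exact Or.inr (Or.inl rfl)
      · exact Or.inr (Or.inr rfl)
    · exact Or.inl h2
  · have h0 : ∀ e' ∈ T, e'.1 = e.1 := fun e' he' =>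
      Prod.ext (Prod.mk.inj (hT e' he').1).2 (Prod.mk.inj (hT e' he').2).2
    have h6 : ∀ p q, ∑ e' ∈ T, D.E D.ia D.ic p q e'.2 =
        ∑ c ∈ T.image Prod.snd, D.E D.ia D.ic p q c := fun p q =>
      (sum_image fun x hx y hy k => Prod.ext ((h0 x hx).trans (h0 y hy).symm) k).symm
    have h2 : D.X' ξ k (D.ia, e.1.1) = D.K ξ k := if_pos rfl
    have h3 : D.X' ξ k (D.ic, e.1.2) = D.R ξ := (if_neg hac.symm).trans (if_pos rfl)
    have h4 : ((D.R ξ).card : ℝ) ≤ (D.X D.ic).card := Nat.cast_le.2 (card_filter_le _ _)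
    simp only [h6]
    rw [prod_X' hac, h2, h3]
    have h5 := sampA_cut h (A := D.K ξ k) (B := D.R ξ) (filter_subset _ _) (filter_subset _ _) k
      (Finset.Nonempty.image ⟨e, he⟩ Prod.snd) ha hb
    gcongr

omit [Fintype Γ] [Fintype κ] [Fintype Bt] [NeZero M] in
theorem sampA_prod (z : ι → Fin M) (Y : ι × Fin M → Finset ℕ) {A : Finset ℕ}
    (h : ∀ v, v.1 = D.ia → Y v = A) :
    ∏ v with D.Dum z v, ((Y v).card : ℝ) = (A.card : ℝ) ^ (M - 1) := by
  rw [prod_congr rfl fun v hv => by rw [h v (mem_filter.1 hv).2.1], prod_const]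
  congr 1
  rw [show M - 1 = (univ.erase (z D.ia)).card by
    rw [card_erase_of_mem (mem_univ _), card_univ, Fintype.card_fin]]
  refine card_nbij' Prod.snd (fun s => (D.ia, s)) (fun v hv => ?_) (fun s hs => ?_)
    (fun v hv => ?_) fun s _ => rfl
  · exact mem_coe.2 (mem_erase.2 ⟨(mem_filter.1 hv).2.2, mem_univ _⟩)
  · exact mem_coe.2 (mem_filter.2 ⟨mem_univ _, rfl, (mem_erase.1 hs).1⟩)
  · exact Prod.ext (mem_filter.1 hv).2.1.symm rfl

omit [Fintype ι] [Fintype Γ] [Fintype κ] [Fintype Bt] [NeZero M] in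
theorem sampA_eq {z : ι → Fin M} {v : ι × Fin M} (h1 : v.1 = D.ia) (h2 : ¬ D.Dum z v) :
    v = (D.ia, z D.ia) :=
  Prod.ext h1 (by_contra fun h => h2 ⟨h1, h⟩)

omit [NeZero M] in
theorem sampA_E2 (h : D.OK δ) {z : ι → Fin M} {ξ y : ι × Fin M → ℕ}
    (hy : ∀ v, ¬ D.In v → y v = ξ v) : D.E2 z y ↔ D.IntE ξ ∧
      (∀ v, D.In v → ¬ D.Dum z v → D.Comp ξ v.1 (y v)) ∧
      D.E D.ia D.ic (y (D.ia, z D.ia)) (y (D.ic, z D.ic)) = 0 := by
  have hac := h.hac
  have h0 : ∀ v, ¬ D.In v → ¬ D.Dum z v := fun v hv hd => hv (Or.inl hd.1)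
  refine ⟨fun H => ⟨fun v v' a b c => ?_, fun v a b v' c => ?_, H (_, _) (_, _) ⟨hac,
    fun a => a.2 rfl, fun a => hac a.1.symm, fun a => a.2.2 rfl, fun a => hac a.1.symm⟩⟩,
    fun ⟨H1, H2, H3⟩ => ?_⟩
  · rw [← hy v a, ← hy v' b]
    exact H v v' ⟨c, h0 v a, h0 v' b, fun d => a (Or.inl d.1), fun d => b (Or.inl d.1)⟩
  · rw [← hy v' c]
    exact H v v' ⟨fun e => c (a.imp e.symm.trans e.symm.trans), b, h0 v' c,
      fun d => c (Or.inr d.2.1), fun d => c (Or.inl d.1)⟩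
  have h1 : ∀ v v', D.Keep z v v' → v.1 = D.ia → v'.1 = D.ic →
      D.E v.1 v'.1 (y v) (y v') = 0 := fun v v' a b c => by
    obtain rfl := sampA_eq b a.2.1
    obtain rfl : v' = (D.ic, z D.ic) := Prod.ext c (by_contra fun d => a.2.2.2.1 ⟨b, c, d⟩)
    exact H3
  intro v v' a
  by_cases b : D.In v <;> by_cases c : D.In v'
  · rcases b with b | b <;> rcases c with c | c
    · exact absurd (b.trans c.symm) a.1
    · exact h1 v v' a b c
    · rw [h.sym]
      exact h1 v' v ⟨a.1.symm, a.2.2.1, a.2.1, a.2.2.2.2, a.2.2.2.1⟩ c b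
    · exact absurd (b.trans c.symm) a.1
  · rw [hy v' c]
    exact H2 v b a.2.1 v' c
  · rw [h.sym, hy v b]
    exact H2 v' c a.2.2.1 v b
  · rw [hy v b, hy v' c]
    exact H1 v v' b c a.1

omit [Fintype Γ] [Fintype κ] [Fintype Bt] [NeZero M] in
theorem sampA_mem (z : ι → Fin M) (ξ : ι × Fin M → ℕ) (k : κ) :
    Fintype.piFinset (fun v => if D.Dum z v then {0} else D.X' ξ k v) =
      (Fintype.piFinset fun v => if D.Dum z v then {0} else
        if D.In v then D.X v.1 else {ξ v}).filter fun y =>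
        (∀ v, D.In v → ¬ D.Dum z v → D.Comp ξ v.1 (y v)) ∧ D.cls ξ (y (D.ia, z D.ia)) = k := by
  have h1 : ∀ v p, ¬ D.Dum z v → (p ∈ D.X' ξ k v ↔ (p ∈ if D.In v then D.X v.1 else {ξ v}) ∧
      (D.In v → D.Comp ξ v.1 p) ∧ (v = (D.ia, z D.ia) → D.cls ξ p = k)) := by
    intro v p hv
    by_cases a : v.1 = D.ia
    · rw [X', if_pos a, if_pos (show D.In v from Or.inl a), K, mem_filter, a]
      simp only [sampA_eq a hv, In, true_or, forall_const]
    · have b : v ≠ (D.ia, z D.ia) := fun e => a (congrArg Prod.fst e)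
      by_cases c : v.1 = D.ic
      · rw [X', if_neg a, if_pos c, if_pos (show D.In v from Or.inr c), R, mem_filter, c]
        simp only [b, In, c, or_true, forall_const, false_imp_iff, and_true]
      · have d : ¬ D.In v := not_or.2 ⟨a, c⟩
        rw [X', if_neg a, if_neg c, if_neg d]
        simp only [b, d, false_imp_iff, and_true]
  have h2 : ¬ D.Dum z (D.ia, z D.ia) := fun a => a.2 rfl
  ext y
  rw [mem_filter, Fintype.mem_piFinset, Fintype.mem_piFinset]
  refine ⟨fun H => ⟨fun v => ?_, fun v a b => ?_, ?_⟩, fun ⟨H1, H2, H3⟩ v => ?_⟩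
  · have h3 := H v
    by_cases a : D.Dum z v
    · rwa [if_pos a] at h3 ⊢
    · rw [if_neg a] at h3 ⊢
      exact ((h1 v _ a).1 h3).1
  · have h3 := H v
    rw [if_neg b] at h3
    exact ((h1 v _ b).1 h3).2.1 a
  · have h3 := H (D.ia, z D.ia)
    rw [if_neg h2] at h3
    exact ((h1 _ _ h2).1 h3).2.2 rfl
  · have h3 := H1 v
    by_cases a : D.Dum z v
    · rwa [if_pos a] at h3 ⊢
    · rw [if_neg a] at h3 ⊢
      exact (h1 v _ a).2 ⟨h3, fun b => H2 v b a, fun e => e ▸ H3⟩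

omit [NeZero M] in
theorem sampA_main (h : D.OK δ) (z : ι → Fin M) (F : (ι → ℕ) → ℝ) (ξ : ι × Fin M → ℕ) :
    (∑ y ∈ Fintype.piFinset fun v => if D.In v then D.X v.1 else {ξ v},
      if D.E2 z y then F (pt y z) else 0) = if D.IntE ξ then
      ∑ k, (((D.X D.ia).card : ℝ) / (D.K ξ k).card) ^ (M - 1) *
        ∑ y ∈ Fintype.piFinset (D.X' ξ k), D.sampAf z F y else 0 := by
  have h2 : ∀ j, ¬ D.Dum z (j, z j) := fun j a => a.2 (congrArg z a.1)
  have h3 : ∀ k, (((D.X D.ia).card : ℝ) / (D.K ξ k).card) ^ (M - 1) *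
      ∑ y ∈ Fintype.piFinset (D.X' ξ k), D.sampAf z F y = ((D.X D.ia).card : ℝ) ^ (M - 1) *
      ∑ y ∈ Fintype.piFinset (fun v => if D.Dum z v then {0} else D.X' ξ k v),
        D.sampAf z F y := fun k => by
    rw [sampA_indep _ (D.Dum z) 0 _ fun x y hxy => sampA_congr F fun j => hxy _ (h2 j),
      sampA_prod z (D.X' ξ k) (A := D.K ξ k) fun v hv => if_pos hv, ← mul_assoc, ← mul_pow]
    rcases (D.K ξ k).eq_empty_or_nonempty with e | e
    · rw [Fintype.piFinset_eq_empty.2 ⟨(D.ia, z D.ia), by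
        rw [if_neg (h2 _), X', if_pos rfl, e]⟩, sum_empty, mul_zero, mul_zero]
    · rw [div_mul_cancel₀ _ (Nat.cast_ne_zero.2 e.card_pos.ne')]
  rw [sampA_indep _ (D.Dum z) 0 _ fun x y hxy => ?_,
    sampA_prod z _ (A := D.X D.ia) fun v hv => by rw [if_pos (show D.In v from Or.inl hv), hv]]
  · simp only [h3, sampA_mem, sum_filter]
    rw [← mul_sum, sum_comm, ← mul_ite_zero]
    congr 1
    have h4 : ∀ y ∈ Fintype.piFinset fun v => if D.Dum z v then {0} else
        if D.In v then D.X v.1 else {ξ v}, ∀ v, ¬ D.In v → y v = ξ v := fun y hy v hv => by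
      have h5 := Fintype.mem_piFinset.1 hy v
      rwa [if_neg fun a : D.Dum z v => hv (Or.inl a.1), if_neg hv, mem_singleton] at h5
    by_cases h5 : D.IntE ξ
    · rw [if_pos h5]
      refine sum_congr rfl fun y hy => ?_
      have h6 := sampA_E2 h (z := z) (h4 y hy)
      by_cases h7 : ∀ v, D.In v → ¬ D.Dum z v → D.Comp ξ v.1 (y v)
      · rw [sum_eq_single_of_mem _ (mem_univ _) fun k _ hk => if_neg fun a => hk (And.right a).symm,
          if_pos (And.intro h7 rfl), sampAf]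
        exact if_congr ⟨fun a => (h6.1 a).2.2, fun a => h6.2 ⟨h5, h7, a⟩⟩ rfl rfl
      · rw [if_neg fun a => h7 (h6.1 a).2.1]
        exact (sum_eq_zero fun k _ => if_neg fun a => h7 a.1).symm
    · rw [if_neg h5]
      exact sum_eq_zero fun y hy => if_neg fun a => h5 ((sampA_E2 h (h4 y hy)).1 a).1
  · have h4 : D.E2 z x ↔ D.E2 z y := forall₃_congr fun v v' a => by
      rw [hxy v a.2.1, hxy v' a.2.2.1]
    rw [show pt x z = pt y z from funext fun j => hxy _ (h2 j), if_congr h4 rfl rfl]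

theorem use1 (h : D.OK δ) (z : ι → Fin M) (F : (ι → ℕ) → ℝ) (hF : ∀ x, |F x| ≤ 1) :
    |∑ x ∈ D.G, D.om x * F (pt x z) - (1 / 2) ^ ((M ^ 2 - 1) * Fintype.card Bt) *
      ∑ y ∈ D.G, if D.E2 z y then F (pt y z) else 0| ≤ δ * D.G.card := by
  have d0 := h.d0
  have h0 : ∀ a b : ℝ, 0 ≤ a → a / b * b ≤ a := fun a b ha => by
    rcases eq_or_ne b 0 with rfl | hb
    · rwa [mul_zero]
    · exact (div_mul_cancel₀ a hb).le
  have h1 : (∑ y ∈ D.G, if D.E2 z y then F (pt y z) else 0) = ∑ ξ ∈ D.G0, if D.IntE ξ then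
      ∑ k, (((D.X D.ia).card : ℝ) / (D.K ξ k).card) ^ (M - 1) *
        ∑ y ∈ Fintype.piFinset (D.X' ξ k), D.sampAf z F y else 0 :=
    (sampA_fiber _ D.In 0 _).trans (sum_congr rfl fun ξ _ => sampA_main h z F ξ)
  have h2 : ∀ a : ℝ, a ^ M = a * a ^ (M - 1) := fun a => by
    rw [← pow_succ', Nat.sub_add_cancel NeZero.one_le]
  rw [dec h, h1, mul_sum, ← sum_sub_distrib, card_G h.hac]
  refine (abs_sum_le_sum_abs _ _).trans ((sum_le_card_nsmul _ _
    (δ * ((D.X D.ia).card : ℝ) ^ M * ((D.X D.ic).card : ℝ) ^ M) fun ξ _ => ?_).trans_eq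
    (by rw [nsmul_eq_mul]; ring))
  split_ifs
  · rw [mul_sum, ← sum_sub_distrib]
    refine (abs_sum_le_sum_abs _ _).trans ((sum_le_card_nsmul _ _
      (δ * ((D.X D.ia).card : ℝ) ^ M * ((D.X D.ic).card : ℝ) ^ M / Fintype.card κ)
      fun k _ => ?_).trans ?_)
    · have h3 : (((D.X D.ia).card : ℝ) / (D.K ξ k).card * (D.K ξ k).card) ^ (M - 1) ≤
          ((D.X D.ia).card : ℝ) ^ (M - 1) :=
        pow_le_pow_left₀ (by positivity) (h0 _ _ (by positivity)) _
      rw [mul_left_comm, ← mul_sub, abs_mul, abs_of_nonneg (by positivity)]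
      refine (mul_le_mul_of_nonneg_left (sampA_step h z hF ξ k) (by positivity)).trans ?_
      rw [h2 (D.X D.ia).card, h2 (D.X D.ic).card]
      rw [mul_pow] at h3
      have h4 := mul_le_mul_of_nonneg_left h3 (show 0 ≤ δ * (D.X D.ia).card * (D.X D.ic).card /
        Fintype.card κ * ((D.X D.ic).card : ℝ) ^ (M - 1) by positivity)
      exact le_of_eq_of_le (by ring) (h4.trans_eq (by ring))
    · rw [nsmul_eq_mul, card_univ, mul_comm]
      exact h0 _ _ (by positivity)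
  · rw [mul_zero, sub_zero, abs_zero]
    positivity

end SD

end Pool.Agent.B6.S
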