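import Pool.Agent.Lib.MP_696deb_nt.B6.SPc
import Pool.Agent.Lib.MP_696deb_nt.Sa.Lab
import Pool.Agent.Lib.MP_696deb_nt.Sm.Gpt

/-! Sampling of grids in a box. -/

set_option autoImplicit false

open scoped Classical
open Finset Function

namespace Pool.Agent.B6.S

open Pool.Agent.Lib.MP_696deb_nt Pool.Agent.Lib.MP_696deb_nt.Sm

/-- An inequality that holds on every grid with a good label holds on the whole fibre. -/
theorem samp_main (C : Cv) (n M : ℕ) (hn : 1 ≤ n) {ε : ℝ} (hε : 0 < ε) : ∃ c : ℕ, ∀ B : Box C,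
    B.Hyp c → ∀ (a : B.Mat) (σ : Sx n → Fin B.r), Injective σ → (∀ j, σ (Sum.inl j) ∈ B.I 0) →
    σ ic ∈ B.I 1 → σ ia ∈ B.I 2 → ∀ (Bad : (Zg n M → F2) → Prop) (β η : ℝ), 0 ≤ η →
    (∀ Ph h i, i ≠ ic → (∀ y s, h (update y i s) = h y) → Bad (Ph + h) → Bad Ph) →
    (({Ph | Bad Ph} : Finset (Zg n M → F2)).card : ℝ) ≤ β * 2 ^ Fintype.card (Zg n M) →
    ∀ Y1 Y2 : (Fin B.r → ℕ) → Prop,
    (∀ (x0 : Fin B.r → ℕ) (pr : Sx n → Fin (M + 1) → ℕ) (f : Fin (M + 1) → GQ → Gm n M → C.A),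
      (∀ i, Injective (pr i)) → (∀ y, gpt σ x0 pr y ∈ B.fib a) →
      C.FKit pr (B.D0 * ∏ j with j ∉ Set.range σ, (x0 j : ℤ)) f → ¬ Bad (C.label pr f) →
      (({y | Y1 (gpt σ x0 pr y)} : Finset (Zg n M)).card : ℝ) ≤
        ({y | Y2 (gpt σ x0 pr y)} : Finset (Zg n M)).card / 2 + η * (M + 1) ^ (n + 2)) →
    (({x ∈ B.fib a | Y1 x} : Finset _).card : ℝ) ≤
      ({x ∈ B.fib a | Y2 x} : Finset _).card / 2 + (η + 2 * β + ε) * (B.fib a).card := by
  obtain ⟨m, hm⟩ := exists_pow_lt_of_lt_one (lt_min hε one_pos) (by norm_num : (1 / 2 : ℝ) < 1)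
  obtain ⟨c, hc⟩ := ok_main C n M
    (10 * (M + 1) ^ 2 + ((M + 1) ^ 2 * (2 ^ (n * M) + 1) + 10) + m) hn
  refine ⟨c, fun B hB a σ hσ h0 h1 h2 Bad β η hη hinv hβ Y1 Y2 hgrid => ?_⟩
  have β0 : 0 ≤ β := by
    by_contra h
    have := mul_neg_of_neg_of_pos (not_le.1 h)
      (show (0 : ℝ) < 2 ^ Fintype.card (Zg n M) by positivity)
    linarith [(Nat.cast_nonneg _).trans hβ]
  have c0 : (0 : ℝ) ≤ (B.fib a).card := Nat.cast_nonneg _
  have c2 : (0 : ℝ) ≤ ({x ∈ B.fib a | Y2 x} : Finset _).card := Nat.cast_nonneg _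
  rcases le_total 1 β with β1 | β1
  · have : (({x ∈ B.fib a | Y1 x} : Finset _).card : ℝ) ≤ (B.fib a).card :=
      Nat.cast_le.2 (card_filter_le _ _)
    nlinarith [mul_nonneg hη c0, mul_nonneg hε.le c0]
  obtain ⟨N, U, hnum, hok⟩ := hc B hB a σ hσ h0 h1 h2
  have L2 := hB.two_le_Lm
  have L0 : 0 < B.Lm := by linarith
  have key := SD.samp hok (fun y : Zg n M => extend σ y 0) (fun π => Bad (Sa.lab (resO π))) β0 β1
    (bad_ZO (P := fun π => Bad (Sa.lab π)) (Sa.lab_count hn Bad hinv hβ)) hη (min_le_right ε 1) ?_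
    (fun x => (if Y1 x then 1 else 0) - (if Y2 x then 1 else 0) / 2) ?_ ?_
  · change ∑ x ∈ XA B.X (B.EE a), _ ≤ _ * ((XA B.X (B.EE a)).card : ℝ) at key
    rw [Box.XA_eq, sum_sub_distrib, ← sum_div, sum_boole, sum_boole] at key
    nlinarith [mul_nonneg β0 c0, mul_nonneg (sub_nonneg.2 (min_le_left ε 1)) c0]
  · have e1 : (2 : ℝ) ^ B.r ^ 2 ≤ B.Lm :=
      (pow_le_pow_right₀ one_le_two (Nat.pow_le_pow_left (by omega) 2)).trans hB.pow_le_Lm
    have e2 : Fintype.card (Option (Gm n M)) = 2 ^ (n * M) + 1 := by simp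
    rw [e2, Fintype.card_fin, Fintype.card_fin, add_assoc (5 * _),
      show 5 * ((B.r * (M + 1)) ^ 2 * 2) = B.r ^ 2 * (10 * (M + 1) ^ 2) by ring]
    generalize (M + 1) ^ 2 * (2 ^ (n * M) + 1) + 10 = s, 10 * (M + 1) ^ 2 = u
    have e3 : (2 : ℝ) ^ (B.r ^ 2 * u + s) ≤ B.Lm ^ (u + s) := by
      rw [pow_add, pow_add B.Lm, pow_mul]
      gcongr
    refine le_trans ?_ hm.le
    rw [pow_add (1 / B.Lm) _ m]
    calc _ ≤ (1 / B.Lm) ^ (u + s) * (1 / 2) ^ m * B.Lm ^ (u + s) := by gcongr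
      _ = _ := by rw [mul_right_comm, ← mul_pow, one_div_mul_cancel L0.ne', one_pow, one_mul]
  · intro x
    split_ifs <;> norm_num [abs_le]
  · intro x hx hi he hs hb
    have ept : ∀ y : Zg n M,
        gpt σ (fun j => x (j, 0)) (B.prs σ x) y = SD.pt x (extend σ y 0) := by
      intro y
      funext j
      by_cases hj : ∃ i, σ i = j
      · obtain ⟨i, rfl⟩ := hj
        simp only [gpt, SD.pt, hσ.extend_apply, Box.prs]
      · simp only [gpt, SD.pt, extend_apply' _ _ _ hj, Pi.zero_apply]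
    have fk := Box.fkit hB.wf hσ hnum hx hi he hs
    have el : C.label (B.prs σ x) (fun s => B.fp σ N U x (x (σ ia, s))) =
        Sa.lab (resO ((B.sd a σ N U M).pat x)) := by
      refine Eq.trans (funext fun y => ?_) (Sa.lab_congr hn (π := fun e =>
        B.lb σ N U x (x (σ ia, e.1)) (x (σ ic, e.2.1)) e.2.2) fun s t γ h => ?_)
      · rw [fk.label_eq]
        exact sum_congr rfl fun γ _ => mul_comm _ _
      · simp only [resO, SD.pat, Box.sd, Option.elim, if_neg h, add_zero]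
    have := hgrid (fun j => x (j, 0)) (B.prs σ x) _ (fun i s s' h => hi _ _ _ h) (fun y => ?_) fk
      (by rwa [el])
    · simp only [ept] at this
      rw [sum_sub_distrib, ← sum_div, sum_boole, sum_boole]
      have e : (Fintype.card (Zg n M) : ℝ) = (M + 1) ^ (n + 2) := by simp
      rw [e]
      linarith
    · rw [ept, ← Box.XA_eq]
      simp only [SD.G, Fintype.mem_piFinset] at hx
      simp only [XA, mem_filter, Fintype.mem_piFinset]
      exact ⟨fun j => hx (j, _), fun i j hij => he (i, _) (j, _) hij⟩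

end Pool.Agent.B6.S
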