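import Pool.Agent.Lib.MP_696deb_nt.B6.SX1a

/-! Selmer classes in a box are described by patterns. -/

set_option autoImplicit false

open scoped Classical
open Finset Function

namespace Pool.Agent.B6.S

open Pool.Agent.Lib.MP_696deb_nt Pool.Agent.Lib.MP_696deb_nt.Sm

namespace Box

variable {C : Cv} {B : Box C} {a : B.Mat} {x x' : Fin B.r → ℕ} {P P' : B.PP} {c : GQ → C.A}

theorem Wf.mem_SL (h : B.Wf) (hx : x ∈ B.pts) :
    P ∈ B.SL ↔ ∀ v, C.FP B.D0 v → C.Loc v (B.DD x) (B.cls x P) := by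
  rw [SL, mem_filter_univ]
  exact ⟨fun k => k x hx, fun k y hy v hv =>
    (k v hv).congr (h.chi_DD hy hx hv) (h.cls_fix hy hx hv P)⟩

theorem Wf.mem_SA (h : B.Wf) (hx : x ∈ B.fib a) :
    P ∈ B.SA a ↔ C.IsZ (B.DD x) ∅ 1 (B.cls x P) := by
  have hx' := (mem_fib.1 hx).1
  rw [SA, mem_filter, h.mem_SL hx']
  refine ⟨fun k => Cv.isZ_one (h.cls_mem hx' P) (fun v hv _ => ?_) fun _ hv => hv.elim,
    fun k => ⟨fun v hv => k.loc v ((h.fp_DD hx').2 (.inl hv)) id, fun j =>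
      (h.loc_iff hx P j).1 (k.loc _ ((h.fp_DD hx').2 (.inr ⟨j, rfl⟩)) id)⟩⟩
  rcases (h.fp_DD hx').1 hv with e | ⟨j, rfl⟩
  · exact k.1 v e
  · exact (h.loc_iff hx P j).2 (k.2 j)

theorem nu_add (u u' : C.U B.D0) (j : Fin B.r) :
    B.nu (u + u' : C.U B.D0) j = B.nu u j + B.nu u' j :=
  C.ep_add_left (u.2.1.two _ trivial) (u'.2.1.two _ trivial) (C.two_T _)

theorem lam_add (a : B.Mat) (j : Fin B.r) (P P' : B.PP) :
    B.lam a j (P + P') = B.lam a j P + B.lam a j P' := by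
  simp only [lam, Prod.fst_add, Prod.snd_add, nu_add, Pi.add_apply, add_mul, sum_add_distrib]
  ring

theorem PP_add_self (P : B.PP) : P + P = 0 :=
  Prod.ext (Subtype.ext (funext fun g => (two_nsmul _).symm.trans (P.1.2.1.two g trivial)))
    (funext fun _ => CharTwo.add_self_eq_zero _)

theorem zero_mem_SL : 0 ∈ B.SL :=
  (mem_filter_univ _).2 fun x _ v _ => (cls_zero x).symm ▸ C.loc_zero v _

theorem add_mem_SL (hP : P ∈ B.SL) (hP' : P' ∈ B.SL) : P + P' ∈ B.SL :=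
  (mem_filter_univ _).2 fun x hx v hv => (cls_add x P P').symm ▸
    ((mem_filter_univ _).1 hP x hx v hv).add ((mem_filter_univ _).1 hP' x hx v hv)

theorem zero_mem_SA : 0 ∈ B.SA a :=
  mem_filter.2 ⟨zero_mem_SL, fun j => by
    have := lam_add a j 0 0
    rwa [add_zero, CharTwo.add_self_eq_zero] at this⟩

theorem add_mem_SA (hP : P ∈ B.SA a) (hP' : P' ∈ B.SA a) : P + P' ∈ B.SA a :=
  mem_filter.2 ⟨add_mem_SL (mem_filter.1 hP).1 (mem_filter.1 hP').1, fun j => by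
    rw [lam_add, (mem_filter.1 hP).2, (mem_filter.1 hP').2, add_zero]⟩

theorem Wf.card_SA (h : B.Wf) (hx : x ∈ B.fib a) : (C.AA (B.DD x) 0).ncard = (B.SA a).card := by
  have hx' := (mem_fib.1 hx).1
  rw [← Set.ncard_coe_finset, ← Set.ncard_image_of_injective _ (h.cls_inj hx'), Cv.AA_zero]
  refine congrArg _ (Set.ext fun c => ⟨fun k => ?_, ?_⟩)
  · obtain ⟨P, rfl⟩ := h.exists_cls hx' (Cv.IsZ.mem_U k)
    exact ⟨P, (h.mem_SA hx).2 k, rfl⟩
  · rintro ⟨P, k, rfl⟩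
    exact (h.mem_SA hx).1 k

/-- Orthogonality of the classes that satisfy the local conditions at the fixed primes. -/
theorem Wf.orth (h : B.Wf) (hP : P ∈ B.SL) (h0 : P.2 = 0) (hP' : P' ∈ B.SL) :
    ∑ j, P'.2 j * B.nu P.1 j = 0 := by
  have hx := h.rep_pts
  have hD := (h.DD_sqf hx).ne_zero
  have u := h.cls_mem hx P
  have b := h.cls_mem hx P'
  have e : C.fpS (B.DD B.rep) = C.fpS B.D0 ∪ univ.image B.rep := by
    ext v
    simp only [Cv.mem_fpS hD, h.fp_DD hx, mem_union, Cv.mem_fpS B.h0, mem_image, mem_univ,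
      true_and, eq_comm]
  have k := Cv.recipU hD u b
  rw [e, sum_union (disjoint_right.2 fun v hv hv' => by
    obtain ⟨j, -, rfl⟩ := mem_image.1 hv
    exact h.not_FP (h.rep_mem j) ((Cv.mem_fpS B.h0).1 hv')), sum_eq_zero fun v hv => by
      have hv := (Cv.mem_fpS B.h0).1 hv
      exact Cv.Bv_iso hv.1 (u.1.mono le_top) (b.1.mono le_top) ((h.mem_SL hx).1 hP v hv)
        ((h.mem_SL hx).1 hP' v hv), zero_add, sum_image (h.inj hx).injOn] at k
  rw [← k]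
  refine sum_congr rfl fun j _ => ?_
  rw [Cv.Bv_tame (h.gp (h.rep_mem j)) (u.1.mono le_top) (b.1.mono le_top)
    ((h.cls_sig_zero hx P j).2 (congrFun h0 j)), h.cls_sig hx, Cv.ep_smul_right]
  simp [cls, h0, nu, Cv.sy]

theorem Hyp.eq_zero {k : ℕ} (h : B.Hyp k) (hP : P ∈ B.SA a) (h0 : P.2 = 0) : P = 0 := by
  refine Prod.ext (Subtype.ext (by_contra fun e => ?_)) h0
  obtain ⟨j, -, hj⟩ := h.b1 _ P.1.2 e
  simpa [lam, h0, hj] using (mem_filter.1 hP).2 j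

/-- Detection of Selmer classes by their values at the primes of `Jev`. -/
theorem Wf.det (h : B.Wf) {Jev : Finset (Fin B.r)}
    (hd : ∀ Q ∈ B.SA a, (∀ j ∈ Jev, Q.2 j = 0) → Q = 0) (hx : x ∈ B.fib a)
    (hc : C.IsZ (B.DD x) ∅ 1 c) (h0 : ∀ j ∈ Jev, c (sig (x j)) = 0) : c = 0 := by
  have hx' := (mem_fib.1 hx).1
  obtain ⟨P, rfl⟩ := h.exists_cls hx' hc.mem_U
  rw [hd P ((h.mem_SA hx).2 hc) fun j hj => (h.cls_sig_zero hx' P j).1 (h0 j hj), cls_zero]

end Box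

end Pool.Agent.B6.S
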