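import Pool.Agent.Lib.MP_696deb_nt.B6.SSp
import Pool.Agent.Lib.MP_696deb_nt.B6.SG3
import Pool.Agent.Lib.MP_696deb_nt.B6.SX1
import Pool.Agent.Lib.MP_696deb_nt.Sm.GoodB

/-! The halving step on a fibre of a box. -/

set_option autoImplicit false

open scoped Classical
open Finset Function

namespace Pool.Agent.B6.S

open Pool.Agent.Lib.MP_696deb_nt Pool.Agent.Lib.MP_696deb_nt.Sm

namespace Box

variable {C : Cv} (B : Box C)

/-- The class of `P` at `x` has a relaxed lift with prescribed values. -/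
def Lx (n : ℕ) (P : B.PP) (J Jev : Finset (Fin B.r)) (e : Fin B.r → C.A) (x : Fin B.r → ℕ) :
    Prop := ∃ c, C.IsZ (B.DD x) (x '' J) (n + 1) c ∧ 2 ^ n • c = B.cls x P ∧
      ∀ j ∈ Jev, 2 • c (sig (x j)) = e j

noncomputable def Yc (a : B.Mat) (n : ℕ) (P : B.PP) (J Jev : Finset (Fin B.r))
    (e : Fin B.r → C.A) : ℕ := ({x ∈ B.fib a | B.Lx n P J Jev e x} : Finset _).card

/-- The grid attached to a sample. -/
noncomputable def gd {n M : ℕ} (σ : Sx n → Fin B.r) (x0 : Fin B.r → ℕ)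
    (pr : Sx n → Fin (M + 1) → ℕ) (f : Fin (M + 1) → GQ → Gm n M → C.A) (P b : B.PP)
    (J Jev : Finset (Fin B.r)) : Gd C n M where
  pr := pr
  Df := B.D0 * ∏ j with j ∉ Set.range σ, (x0 j : ℤ)
  f := f
  J := J.image x0
  Jev := Jev.image x0
  a y := B.cls (gpt σ x0 pr y) P
  b y := B.cls (gpt σ x0 pr y) b

/-- The combinatorial hypotheses of the step. -/
structure StepH {n : ℕ} (a : B.Mat) (P b : B.PP) (J Jev : Finset (Fin B.r))
    (σ : Sx n → Fin B.r) : Prop where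
  inj : Injective σ
  w0 : ∀ j, σ (.inl j) ∈ B.I 0
  w1 : σ ic ∈ B.I 1
  w2 : σ ia ∈ B.I 2
  out : ∀ i, σ i ∉ J ∧ σ i ∉ Jev
  det : ∀ Q ∈ B.SA a, (∀ j ∈ Jev, Q.2 j = 0) → Q = 0
  hb : b ∈ B.SA a
  hU : ∀ j, P.2 (σ (.inl j)) = 0
  ha : P.2 (σ ia) = 1
  hJ : ∀ j ∈ J, b.2 j = 0
  hS : ∀ i, i ≠ ic → b.2 (σ i) = 0
  pair : b.2 (σ ic) = 1

variable {B} {n M : ℕ} {σ : Sx n → Fin B.r} {x0 : Fin B.r → ℕ}
  {pr : Sx n → Fin (M + 1) → ℕ} {f : Fin (M + 1) → GQ → Gm n M → C.A} {P b : B.PP}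
  {J Jev : Finset (Fin B.r)} {a : B.Mat}

theorem step_prod {β : Type} [CommMonoid β] (h : Injective σ) (F : Fin B.r → β) :
    ∏ j, F j = (∏ j with j ∉ Set.range σ, F j) * ∏ i, F (σ i) := by
  rw [← prod_filter_mul_prod_filter_not univ (· ∈ Set.range σ), mul_comm, ← prod_image h.injOn]
  congr 2
  ext j
  simp

theorem step_Df (y : Zg n M) : ∏ j with j ∉ Set.range σ, (gpt σ x0 pr y j : ℤ) =
    ∏ j with j ∉ Set.range σ, (x0 j : ℤ) :=
  prod_congr rfl fun j hj => by rw [gpt_not x0 pr y (mem_filter.1 hj).2]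

theorem gd_D (h : Injective σ) (y : Zg n M) :
    (B.gd σ x0 pr f P b J Jev).D y = B.DD (gpt σ x0 pr y) := by
  rw [DD, step_prod h, step_Df, ← mul_assoc]
  simp only [gpt_apply x0 pr y h]
  rfl

theorem gd_ok (h : B.Wf) (hn : 1 ≤ n) (hs : B.StepH a P b J Jev σ) (hp : ∀ i, Injective (pr i))
    (hx : ∀ y, gpt σ x0 pr y ∈ B.fib a)
    (hk : C.FKit pr (B.D0 * ∏ j with j ∉ Set.range σ, (x0 j : ℤ)) f) :
    (B.gd σ x0 pr f P b J Jev).Ok := by
  have hi := hs.inj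
  have hx' := fun y => (mem_fib.1 (hx y)).1
  have ga := fun y => gpt_apply x0 pr y hi
  have hm : ∀ i s, pr i s ∈ B.X (σ i) := fun i s => ga (fun _ => s) i ▸ mem_pts.1 (hx' _) (σ i)
  have hout : ∀ j ∈ J ∪ Jev, j ∉ Set.range σ := by
    rintro _ hj ⟨i, rfl⟩
    exact (mem_union.1 hj).elim (hs.out i).1 (hs.out i).2
  have hsig : ∀ y i (A : B.PP), B.cls (gpt σ x0 pr y) A (sig (pr i (y i))) =
      (A.2 (σ i)).val • C.T (C.tp (pr i (y i))) := fun y i A => ga y i ▸ h.cls_sig (hx' y) A (σ i)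
  have hsq : ∀ y : Zg n M, Squarefree ((B.D0 * ∏ j with j ∉ Set.range σ, (x0 j : ℤ)) *
      ∏ i, (pr i (y i) : ℤ)) := fun y => by
    have := h.DD_sqf (hx' y)
    rwa [← gd_D (f := f) (P := P) (b := b) (J := J) (Jev := Jev) hi] at this
  refine ⟨hn, fun i s => h.gp (hm i s), fun i s hd => ?_, fun i s i' s' e => ?_,
    left_ne_zero_of_mul (hsq 0).ne_zero, fun i s s' v hv => ?_, fun i s s' i' t hne => ?_,
    hk, fun q hq => ?_, fun y g => (h.cls_mem (hx' y) P).1.two g trivial, fun y j s => ?_,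
    fun y j => ?_, fun y => ?_, fun y c hc h0 => ?_, fun y => ?_, fun y q hq hne => ?_,
    fun y => ?_⟩
  · exact (Nat.prime_iff_prime_int.1 (h.prime (hm i s))).not_isUnit
      (hsq (fun _ => s) _ (mul_dvd_mul hd (dvd_prod_of_mem _ (mem_univ i))))
  · obtain rfl : i = i' := hi (h.disj _ _ _ (hm i s) (by
      rw [show pr i s = pr i' s' from e]; exact hm _ _))
    exact ⟨rfl, hp i e⟩
  · by_cases h0 : C.FP B.D0 v
    · exact (h.same _ _ (hm i s) _ (hm i s')).chi v h0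
    have hv' := Nat.prime_iff_prime_int.1 hv.1
    obtain ⟨j, hj, k⟩ := hv'.exists_mem_finset_dvd ((hv'.dvd_or_dvd (hv.2.resolve_left
      fun k => h0 ⟨hv.1, .inl k⟩)).resolve_left fun k => h0 ⟨hv.1, .inr k⟩)
    have hj := (mem_filter.1 hj).2
    have e := fun y => gpt_not x0 pr y hj
    obtain rfl : v = x0 j := (Nat.prime_dvd_prime_iff_eq hv.1
      (e 0 ▸ h.prime (mem_pts.1 (hx' 0) j))).1 (Int.natCast_dvd_natCast.1 k)
    have := h.chi_cross (hx fun _ => s) (hx fun _ => s') (i := σ i) (j := j)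
      (fun k => hj ⟨i, k⟩) ((e _).trans (e _).symm)
    rwa [e, ga, ga] at this
  · have := h.chi_cross (hx (update (fun _ => t) i s)) (hx (update (fun _ => t) i s')) (i := σ i)
      (j := σ i') (fun k => hne (hi k).symm) (by rw [ga, ga, update_of_ne hne, update_of_ne hne])
    rwa [ga, ga, ga, update_of_ne hne, update_self, update_self] at this
  · obtain ⟨j, hj, rfl⟩ := mem_image.1 hq
    have hj := hout j (mem_union_left _ hj)
    exact ⟨h.gp (gpt_not x0 pr 0 hj ▸ mem_pts.1 (hx' 0) j),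
      (dvd_prod_of_mem (fun j => (x0 j : ℤ)) (mem_filter.2 ⟨mem_univ j, hj⟩)).mul_left _⟩
  · refine cls_congr fun k hk => ?_
    by_cases h1 : k ∈ Set.range σ
    · obtain ⟨i, rfl⟩ := h1
      rw [ga, ga, update_of_ne (by rintro rfl; exact hk (hs.hU j))]
    · rw [gpt_not x0 pr _ h1, gpt_not x0 pr _ h1]
  · exact (hsig y _ P).trans (by rw [hs.hU, ZMod.val_zero, zero_smul])
  · exact (hsig y _ P).trans (by rw [hs.ha, ZMod.val_one, one_smul]; rfl)
  · rw [gd_D hi] at hc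
    refine h.det hs.det (hx y) hc fun j hj => ?_
    rw [gpt_not x0 pr y (hout j (mem_union_right _ hj))]
    exact h0 _ (mem_image_of_mem _ hj)
  · rw [gd_D hi]
    exact (h.mem_SA (hx y)).1 hs.hb
  · rcases hq with hq | ⟨i, rfl⟩
    · obtain ⟨j, hj, rfl⟩ := mem_image.1 hq
      rw [← gpt_not x0 pr y (hout j (mem_union_left _ hj))]
      exact (h.cls_sig_zero (hx' y) b j).2 (hs.hJ j hj)
    · exact (hsig y i b).trans (by
        rw [hs.hS i (by rintro rfl; exact hne rfl), ZMod.val_zero, zero_smul])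
  · exact (hsig y _ b).trans (by rw [hs.pair, ZMod.val_one, one_smul]; rfl)

theorem gd_lf (h : B.Wf) (hs : B.StepH a P b J Jev σ) (hx : ∀ y, gpt σ x0 pr y ∈ B.fib a)
    (e : Fin B.r → C.A) : ∃ e' : ℕ → C.A, ∀ y,
      ((∃ c, (B.gd σ x0 pr f P b J Jev).Lf e' (B.gd σ x0 pr f P b J Jev).J y c) ↔
        B.Lx n P J Jev e (gpt σ x0 pr y)) ∧
      ((∃ c, (B.gd σ x0 pr f P b J Jev).Lf e' ((B.gd σ x0 pr f P b J Jev).J2 y) y c) ↔
        B.Lx n P (J ∪ univ.image σ) Jev e (gpt σ x0 pr y)) := by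
  have hi := hs.inj
  have hout : ∀ j ∈ J ∪ Jev, j ∉ Set.range σ := by
    rintro _ hj ⟨i, rfl⟩
    exact (mem_union.1 hj).elim (hs.out i).1 (hs.out i).2
  refine ⟨extend (gpt σ x0 pr 0) e 0, fun y => ?_⟩
  have e1 : ((J.image x0 : Finset ℕ) : Set ℕ) = gpt σ x0 pr y '' J := by
    rw [coe_image]
    exact Set.image_congr fun j hj => (gpt_not x0 pr y (hout j (mem_union_left _ hj))).symm
  have e2 : (B.gd σ x0 pr f P b J Jev).J2 y = gpt σ x0 pr y '' (J ∪ univ.image σ : Finset _) := by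
    rw [coe_union, Set.image_union, ← e1, coe_image (s := univ), coe_univ, Set.image_univ,
      ← Set.range_comp]
    exact congrArg (fun F => _ ∪ Set.range F) (funext fun i => (gpt_apply x0 pr y hi i).symm)
  have e3 : ∀ c : GQ → C.A, (∀ q ∈ Jev.image x0, 2 • c (sig q) = extend (gpt σ x0 pr 0) e 0 q) ↔
      ∀ j ∈ Jev, 2 • c (sig (gpt σ x0 pr y j)) = e j := fun c => by
    rw [forall_mem_image]
    refine forall₂_congr fun j hj => ?_
    have hj := hout j (mem_union_right _ hj)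
    rw [gpt_not x0 pr y hj]
    conv_lhs => rw [← gpt_not x0 pr 0 hj, (h.inj (mem_fib.1 (hx 0)).1).extend_apply,
      gpt_not x0 pr 0 hj]
  constructor <;> refine exists_congr fun c => ?_
  · rw [Gd.Lf, gd_D hi, ← e1, ← e3]; rfl
  · rw [Gd.Lf, gd_D hi, e2, ← e3]; rfl

end Box

theorem step_main (C : Cv) (n m : ℕ) (hn : 1 ≤ n) {ε : ℝ} (hε : 0 < ε) : ∃ c : ℕ, ∀ B : Box C,
    B.Hyp c → ∀ (a : B.Mat) (P b : B.PP) (J Jev : Finset (Fin B.r)) (σ : Sx n → Fin B.r)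
    (e : Fin B.r → C.A), B.StepH a P b J Jev σ → J.card ≤ m → Jev.card ≤ m →
    (B.Yc a n P J Jev e : ℝ) ≤ B.Yc a n P (J ∪ univ.image σ) Jev e / 2 + ε * (B.fib a).card := by
  obtain ⟨N, hN⟩ := grid_main C n m
  have p1 : 0 < ε / (4 * (N + 1)) := by positivity
  obtain ⟨M, hM⟩ := good_count n (n + 1) N p1 (β := ε / 8) (by positivity)
  obtain ⟨c, hc⟩ := samp_main C n M hn (ε := ε / 4) (by positivity)
  refine ⟨c, fun B hB a P b J Jev σ e hs hJ hJ' => ?_⟩
  refine (hc B hB a σ hs.inj hs.w0 hs.w1 hs.w2 (fun Ph => ¬ Good (n + 1) N (ε / (4 * (N + 1))) Ph)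
    (ε / 8) (N * (ε / (4 * (N + 1)))) (by positivity)
    (fun Ph h i hi hh => mt fun k => k.add (by omega) hi hh) (by convert hM) (B.Lx n P J Jev e)
    (B.Lx n P (J ∪ univ.image σ) Jev e) fun x0 pr f hp hx hk hg => ?_).trans ?_
  · obtain ⟨e', he⟩ := Box.gd_lf (f := f) hB.wf hs hx e
    have := hN M (B.gd σ x0 pr f P b J Jev) e' _ (Box.gd_ok hB.wf hn hs hp hx hk)
      (card_image_le.trans hJ) (card_image_le.trans hJ') (not_not.1 hg)
    simp only [fun y => (he y).1, fun y => (he y).2] at this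
    convert this
  · refine add_le_add (le_of_eq (by rw [Box.Yc])) (mul_le_mul_of_nonneg_right ?_ (by positivity))
    have : N * (ε / (4 * (N + 1))) ≤ ε / 4 := by
      rw [← mul_div_assoc, div_le_div_iff₀ (by positivity) (by positivity)]
      nlinarith [(Nat.cast_nonneg N : (0 : ℝ) ≤ N)]
    linarith

end Pool.Agent.B6.S
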