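import Pool.Agent.Lib.MP_696deb_nt.B6.SZ0
import Pool.Agent.Lib.MP_696deb_nt.Sm.SelB

/-! Counting of lifts and reciprocity. -/

set_option autoImplicit false

open scoped Classical
open Finset Function

namespace Pool.Agent.B6.S

open Pool.Agent.Lib.MP_696deb_nt Pool.Agent.Lib.MP_696deb_nt.Sm

namespace Cv

variable {C : Cv} {D : ℤ} {J : Set ℕ} {n : ℕ} {c c' : GQ → C.A}

theorem selb_anti (C : Cv) (D : ℤ) {m n : ℕ} (h : m ≤ n) : C.AA D n ⊆ C.AA D m :=
  antitone_nat_of_succ_le (f := C.AA D) (C.AA_succ D) h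

/-- The lifts form a coset. -/
theorem selb_Om (h : c' ∈ C.Om D n c) :
    C.Om D n c = (fun z => c' + z) '' {z | C.IsZ D ∅ n z} := by
  ext x
  constructor
  · rintro ⟨h1, h2⟩
    refine ⟨x - c', (h1.sub h.1).level fun g => ?_, add_sub_cancel _ _⟩
    rw [← Pi.smul_apply, smul_sub, h2, h.2, sub_self, Pi.zero_apply]
  · rintro ⟨z, hz, rfl⟩
    refine ⟨h.1.add (hz.level fun g => ?_), ?_⟩
    · rw [pow_succ', mul_smul, hz.tors, smul_zero]
    · rw [smul_add, h.2, show 2 ^ n • z = 0 from funext hz.tors, add_zero]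

theorem selb_card (h : c ∈ C.AA D n) : (C.Om D n c).ncard = {z | C.IsZ D ∅ n z}.ncard := by
  obtain ⟨c', h'⟩ := h
  rw [selb_Om h', Set.ncard_image_of_injective _ (add_right_injective c')]

theorem finite_Z (h : (C.AA D 0).Finite) (n : ℕ) : {c | C.IsZ D ∅ n c}.Finite := by
  induction n with
  | zero =>
    exact (Set.finite_singleton 0).subset fun c hc => funext fun g => by simpa using hc.tors g
  | succ n ih =>
    refine Set.Finite.of_finite_fibers (fun x => 2 ^ n • x)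
      (h.subset (C.selb_anti D n.zero_le)) ?_
    rintro _ ⟨x, hx, rfl⟩
    exact (ih.image _).subset (selb_Om (c' := x) ⟨hx, rfl⟩).subset

theorem card_Om_zero (h : c ∈ C.AA D 0) : (C.Om D 0 c).ncard = 1 := by
  obtain ⟨x, hx, rfl⟩ := h
  refine Set.ncard_eq_one.2 ⟨x, Set.eq_singleton_iff_unique_mem.2 ⟨⟨hx, rfl⟩, fun y hy => ?_⟩⟩
  simpa using hy.2

/-- Many lifts when the group of liftable classes is large. -/
theorem card_Om (hf : (C.AA D 0).Finite) (h : c ∈ C.AA D n) (h4 : 4 ≤ (C.AA D n).ncard) :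
    4 ^ n ≤ (C.Om D n c).ncard := by
  have key : ∀ m ≤ n, 4 ^ m ≤ {z | C.IsZ D ∅ m z}.ncard := fun m hm => by
    induction m with
    | zero => exact (Set.ncard_pos (finite_Z hf 0)).2 ⟨0, C.isZ_zero D ∅ 0⟩
    | succ m ih =>
      have h1 := (Nat.le_succ m).trans hm
      have h2 : 4 ≤ (C.AA D m).ncard := h4.trans
        (Set.ncard_le_ncard (C.selb_anti D h1) (hf.subset (C.selb_anti D m.zero_le)))
      exact (Nat.mul_le_mul (ih h1) h2).trans (selb_ge (finite_Z hf (m + 1)) (fun x => 2 ^ m • x)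
        fun x hx => (selb_card ⟨x, hx, rfl⟩).ge)
  exact (key n le_rfl).trans (selb_card h).ge

theorem card_Om_succ (hf : (C.AA D 0).Finite) :
    (C.Om D (n + 1) c).ncard ≤
      (C.AA D 0).ncard * ((fun x => 2 • x) '' C.Om D (n + 1) c).ncard := by
  refine selb_le ((finite_Z hf (n + 1 + 1)).subset fun x hx => hx.1) _ fun x hx => ?_
  rw [← Set.ncard_image_of_injective (C.AA D 0) (add_right_injective x)]
  refine Set.ncard_le_ncard (fun y hy => ⟨y - x, ?_, add_sub_cancel _ _⟩) (hf.image _)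
  rw [AA_zero]
  refine (hy.1.1.sub hx.1).level fun g => ?_
  rw [pow_one, ← Pi.smul_apply, smul_sub, hy.2, sub_self, Pi.zero_apply]

theorem Loc.z2 {v : ℕ} (h : C.Loc v D c) (h2 : ∀ g ∈ Gv v, 2 • c g = 0) : C.Z2 (Gv v) c := by
  obtain ⟨Q, hQ⟩ := h
  refine ⟨h2, fun g hg k hk => ?_, ((C.lc_cob D Q).mono le_top).congr fun g hg => (hQ g hg).symm⟩
  rw [hQ _ (mul_mem hg hk), cob_mul, ← hQ g hg, ← hQ k hk, C.tw_two D g (h2 k hk)]

theorem Bv_rel {q : ℕ} {b u : GQ → C.A} (hq : C.Gp q) (hc : C.Z2 (Gv q) c) (hb : C.Z2 (Gv q) b)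
    (lb : C.Loc q D b) (hu2 : ∀ g, 2 • u g = 0) (hu : u (sig q) = 0) (hl : C.Loc q D (c - u)) :
    C.Bv q c b = C.ep (u (frb q)) (b (sig q)) := by
  have h1 : C.Z2 (Gv q) (c - u) := hl.z2 fun g hg => by
    rw [Pi.sub_apply, smul_sub, hc.two g hg, hu2, sub_zero]
  have h2 : C.Z2 (Gv q) u := by simpa using hc.sub h1
  have h3 := Bv_add_left hq.1 h1 h2 hb
  rwa [sub_add_cancel, Bv_iso hq.1 h1 hb hl lb, zero_add, Bv_tame hq h2 hb hu] at h3

/-- The primes that are bad or divide `D`. -/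
def fpS (C : Cv) (D : ℤ) : Finset ℕ := C.bad ∪ D.natAbs.primeFactors

theorem mem_fpS (hD : D ≠ 0) {v : ℕ} : v ∈ C.fpS D ↔ C.FP D v := by
  rw [fpS, mem_union, mem_bad, Nat.mem_primeFactors, FP, and_or_left, Int.natCast_dvd]
  simp [hD]

theorem recipU (hD : D ≠ 0) (h : c ∈ C.U D) (h' : c' ∈ C.U D) :
    ∑ v ∈ C.fpS D, C.Bv v c c' = 0 :=
  recip h.1 h'.1 _ (fun _ hv => ((mem_fpS hD).1 hv).1) fun v hv k =>
    have k' := C.gp_of_not_FP hv fun e => k ((mem_fpS hD).2 e)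
    ⟨k'.1, h.2.2 v k'.1 k'.2, h'.2.2 v k'.1 k'.2⟩

/-- Reciprocity: a cocycle that is Selmer up to unramified defects on `J` and at `r`, paired with
a Selmer class that is unramified on `J`. -/
theorem recipZ (hD : D ≠ 0) {r : ℕ} {b u : GQ → C.A}
    (hJ : ∀ q ∈ insert r J, C.Gp q ∧ (q : ℤ) ∣ D) (hc : C.IsZ D (insert r J) 1 c)
    (hb : C.IsZ D ∅ 1 b) (hbJ : ∀ q ∈ J, q ≠ r → b (sig q) = 0) (hu2 : ∀ g, 2 • u g = 0)
    (hu : u (sig r) = 0) (hl : C.Loc r D (c - u)) : C.ep (u (frb r)) (b (sig r)) = 0 := by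
  obtain ⟨rp, rD⟩ := hJ r (Set.mem_insert _ _)
  have zc := fun v => hc.mem_U.1.mono (le_top (a := Gv v))
  have zb := fun v => hb.mem_U.1.mono (le_top (a := Gv v))
  have lb := fun v hv => hb.loc v hv (Set.notMem_empty v)
  have h := recipU hD hc.mem_U hb.mem_U
  rw [sum_eq_single_of_mem r ((mem_fpS hD).2 ⟨rp.1, .inr rD⟩) fun v hv hr => ?_] at h
  · rwa [Bv_rel rp (zc r) (zb r) (lb r ⟨rp.1, .inr rD⟩) hu2 hu hl] at h
  · have k := (mem_fpS hD).1 hv
    by_cases k' : v ∈ insert r J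
    · obtain ⟨w, w1, w2, w3⟩ := hc.rel v k'
      rw [Bv_rel (hJ v k').1 (zc v) (zb v) (lb v k) w1 w2 w3, hbJ v (k'.resolve_left hr) hr,
        ep_zero_right]
    · exact Bv_iso k.1 (zc v) (zb v) (hc.loc v k k') (lb v k)

end Cv

end Pool.Agent.B6.S
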