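import Pool.Agent.Lib.MP_696deb_nt.B6.SK3
import Pool.Agent.Lib.MP_696deb_nt.B6.SZ1

/-! Boxes of primes of the second type, matrices of symbols and patterns. -/

set_option autoImplicit false

open scoped Classical
open Finset Function

namespace Pool.Agent.B6.S

open Pool.Agent.Lib.MP_696deb_nt Pool.Agent.Lib.MP_696deb_nt.Sm

/-- A box: a fixed part, `r` sets of large primes, three windows and numerical parameters. -/
structure Box (C : Cv) where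
  r : ℕ
  D0 : ℤ
  h0 : D0 ≠ 0
  X : Fin r → Finset ℕ
  t : Fin r → ℕ
  I : Fin 3 → Finset (Fin r)
  H : ℕ
  Y : ℕ
  θ : ℝ

namespace Box

variable {C : Cv} (B : Box C)

noncomputable instance : Fintype (C.U B.D0) := @Fintype.ofFinite _ (C.finite_U B.h0)

/-- Two bits for every pair of indices. -/
abbrev Mat := {ij : Fin B.r × Fin B.r // ij.1 < ij.2} → Fin 2 → F2

/-- Patterns: a cocycle ramified at the fixed primes and the ramification at the large primes. -/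
abbrev PP := C.U B.D0 × (Fin B.r → F2)

def k0 : ℕ := B.D0.natAbs.primeFactors.card

def DD (x : Fin B.r → ℕ) : ℤ := B.D0 * ∏ j, (x j : ℤ)

def pts : Finset (Fin B.r → ℕ) := Fintype.piFinset B.X

/-- The matrix of symbols of a point. -/
noncomputable def mat (x : Fin B.r → ℕ) : B.Mat := fun ij =>
  ![aleg (x ij.1.1) (x ij.1.2), C.sy (C.b2 (x ij.1.2)) (x ij.1.1)]

/-- The points with a given matrix. -/
noncomputable def fib (a : B.Mat) : Finset (Fin B.r → ℕ) := {x ∈ B.pts | B.mat x = a}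

/-- A representative prime of the `j`-th set. -/
noncomputable def rep (j : Fin B.r) : ℕ := sInf (B.X j : Set ℕ)

/-- The symbol of a cocycle at the primes of the `j`-th set. -/
noncomputable def nu (c : GQ → C.A) (j : Fin B.r) : F2 := C.sy c (B.rep j)

/-- The contribution of the bad primes to reciprocity. -/
noncomputable def kap (i j : Fin B.r) : F2 :=
  ∑ v ∈ C.bad, C.Bv v (C.b2 (B.rep i)) (C.b2 (B.rep j))

/-- The symbol at the `j`-th prime of the cocycle attached to the `i`-th prime. -/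
noncomputable def sm (a : B.Mat) (i j : Fin B.r) : F2 :=
  if h : j < i then a ⟨(j, i), h⟩ 1 else if h : i < j then a ⟨(i, j), h⟩ 1 + B.kap i j
    else C.spin (B.rep j)

/-- The linear form that describes the local condition at the `j`-th prime. -/
noncomputable def lam (a : B.Mat) (j : Fin B.r) (P : B.PP) : F2 :=
  B.nu P.1 j + ∑ i, P.2 i * B.sm a i j

/-- The cocycle with a given pattern. -/
noncomputable def cls (x : Fin B.r → ℕ) (P : B.PP) : GQ → C.A :=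
  P.1 + ∑ j, (P.2 j).val • C.b2 (x j)

/-- The patterns that satisfy the local conditions at the fixed primes. -/
noncomputable def SL : Finset B.PP :=
  {P | ∀ x ∈ B.pts, ∀ v, C.FP B.D0 v → C.Loc v (B.DD x) (B.cls x P)}

/-- The Selmer patterns. -/
noncomputable def SA (a : B.Mat) : Finset B.PP := {P ∈ B.SL | ∀ j, B.lam a j P = 0}

/-- Genericity of a matrix. -/
structure Generic (K : ℕ) (a : B.Mat) : Prop where
  g1 : (B.SA a).card ≤ K
  g2 : ∀ P ∈ B.SA a, P ≠ 0 → ∀ k, 2 * K * |∑ j ∈ B.I k, sn (P.2 j)| ≤ (B.I k).card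

/-- The qualitative hypotheses on a box. -/
structure Wf : Prop where
  sqf : Squarefree B.D0
  ty : ∀ j, ∀ p ∈ B.X j, C.Ty2 p
  cop : ∀ j, ∀ p ∈ B.X j, ¬ (p : ℤ) ∣ B.D0
  disj : ∀ i j, ∀ p ∈ B.X i, p ∈ B.X j → i = j
  ne : ∀ j, (B.X j).Nonempty
  same : ∀ j, ∀ p ∈ B.X j, ∀ p' ∈ B.X j, C.Same B.D0 p p'

/-- The quantitative hypotheses on a box. -/
structure Hyp (c : ℕ) : Prop where
  wf : B.Wf
  rng : ∀ j, ∀ p ∈ B.X j, B.t j < p ∧ p ≤ 2 * B.t j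
  pos : 0 < B.θ
  le1 : B.θ ≤ 1
  big : ∀ j, B.θ * B.t j ≤ (B.X j).card
  hY : ∀ j, B.Y ≤ B.t j
  hc : (2 ^ ((B.r + B.k0 + 1) ^ 2) / B.θ) ^ c ≤ B.Y
  hH : c ≤ B.H
  b1 : ∀ u ∈ C.U B.D0, u ≠ 0 → ∃ j, (∀ k, j ∉ B.I k) ∧ B.nu u j = 1
  win : ∀ k, B.H ≤ (B.I k).card
  ord : ∀ k k', k < k' → ∀ j ∈ B.I k, ∀ j' ∈ B.I k', j < j' ∧ B.t j ^ c ≤ B.t j'

variable {B} {a : B.Mat} {x x' : Fin B.r → ℕ}

theorem Hyp.mono {c c' : ℕ} (h : B.Hyp c') (hc : c ≤ c') : B.Hyp c := by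
  have h1 : (1 : ℝ) ≤ 2 ^ ((B.r + B.k0 + 1) ^ 2) / B.θ :=
    (one_le_div h.pos).2 (h.le1.trans (one_le_pow₀ one_le_two))
  refine ⟨h.wf, h.rng, h.pos, h.le1, h.big, h.hY, (pow_le_pow_right₀ h1 hc).trans h.hc,
    hc.trans h.hH, h.b1, h.win, fun k k' hk j hj j' hj' => ?_⟩
  obtain ⟨a, b⟩ := h.ord k k' hk j hj j' hj'
  have h2 : (1 : ℝ) ≤ B.t j := ((one_le_pow₀ h1).trans h.hc).trans (Nat.cast_le.2 (h.hY j))
  exact ⟨a, (Nat.pow_le_pow_right (by exact_mod_cast h2) hc).trans b⟩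

theorem mem_pts : x ∈ B.pts ↔ ∀ j, x j ∈ B.X j := Fintype.mem_piFinset

theorem mem_fib : x ∈ B.fib a ↔ x ∈ B.pts ∧ B.mat x = a := mem_filter

theorem Wf.inj (h : B.Wf) (hx : x ∈ B.pts) : Injective x := fun i j e =>
  h.disj i j _ (mem_pts.1 hx i) (e ▸ mem_pts.1 hx j)

theorem Wf.rep_mem (h : B.Wf) (j : Fin B.r) : B.rep j ∈ B.X j :=
  Nat.sInf_mem (s := (B.X j : Set ℕ)) (h.ne j)

theorem Wf.rep_pts (h : B.Wf) : B.rep ∈ B.pts := mem_pts.2 h.rep_mem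

theorem Wf.gp (h : B.Wf) {j : Fin B.r} {p : ℕ} (hp : p ∈ B.X j) : C.Gp p := (h.ty j p hp).1

theorem Wf.prime (h : B.Wf) {j : Fin B.r} {p : ℕ} (hp : p ∈ B.X j) : p.Prime := (h.gp hp).1

theorem Wf.not_FP (h : B.Wf) {j : Fin B.r} {p : ℕ} (hp : p ∈ B.X j) : ¬ C.FP B.D0 p := fun k =>
  k.2.elim (h.gp hp).2.not_ge (h.cop j p hp)

theorem Wf.DD_sqf (h : B.Wf) (hx : x ∈ B.pts) : Squarefree (B.DD x) := by
  have hp : ∀ j, Prime (x j : ℤ) := fun j =>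
    Nat.prime_iff_prime_int.1 (h.prime (mem_pts.1 hx j))
  refine squarefree_mul_iff.2 ⟨IsRelPrime.prod_right fun i _ => ?_, h.sqf,
    squarefree_prod_of_pairwise_isCoprime (fun i _ j _ hij => ?_) fun i _ => (hp _).squarefree⟩
  · exact ((hp _).irreducible.isRelPrime_iff_not_dvd.2 (h.cop _ _ (mem_pts.1 hx i))).symm
  · exact (hp _).irreducible.isRelPrime_iff_not_dvd.2 fun k => hij (h.inj hx
      ((Nat.prime_dvd_prime_iff_eq (h.prime (mem_pts.1 hx i)) (h.prime (mem_pts.1 hx j))).1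
        (Int.natCast_dvd_natCast.1 k)))

theorem Wf.dvd_DD (h : B.Wf) (hx : x ∈ B.pts) {p : ℕ} (hp : p.Prime) :
    (p : ℤ) ∣ B.DD x ↔ (p : ℤ) ∣ B.D0 ∨ ∃ j, p = x j := by
  have hp' : Prime (p : ℤ) := Nat.prime_iff_prime_int.1 hp
  rw [DD, hp'.dvd_mul, hp'.dvd_finsetProd_iff]
  refine or_congr_right ⟨fun ⟨i, _, hi⟩ => ⟨i, ?_⟩, fun ⟨i, hi⟩ => ⟨i, mem_univ _, hi ▸ dvd_rfl⟩⟩
  exact (Nat.prime_dvd_prime_iff_eq hp (h.prime (mem_pts.1 hx i))).1 (Int.natCast_dvd_natCast.1 hi)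

theorem Wf.fp_DD (h : B.Wf) (hx : x ∈ B.pts) {v : ℕ} :
    C.FP (B.DD x) v ↔ C.FP B.D0 v ∨ ∃ j, v = x j := by
  constructor
  · rintro ⟨h1, h2 | h2⟩
    · exact .inl ⟨h1, .inl h2⟩
    · exact ((h.dvd_DD hx h1).1 h2).imp_left fun k => ⟨h1, .inr k⟩
  · rintro (⟨h1, h2⟩ | ⟨j, rfl⟩)
    · exact ⟨h1, h2.imp_right fun k => k.mul_right _⟩
    · have := h.prime (mem_pts.1 hx j)
      exact ⟨this, .inr ((h.dvd_DD hx this).2 (.inr ⟨j, rfl⟩))⟩

theorem Wf.val_DD (h : B.Wf) (hx : x ∈ B.pts) (j : Fin B.r) : padicValInt (x j) (B.DD x) = 1 := by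
  have h1 := h.prime (mem_pts.1 hx j)
  rw [padicValInt, ← Nat.factorization_def _ h1]
  exact Nat.factorization_eq_one_of_squarefree (Int.squarefree_natAbs.2 (h.DD_sqf hx)) h1
    (Int.natCast_dvd.1 ((h.dvd_DD hx h1).2 (.inr ⟨j, rfl⟩)))

end Box

end Pool.Agent.B6.S
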