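import Pool.Agent.Lib.MP_696deb_nt.B6.SX0
import Pool.Agent.Lib.MP_696deb_nt.Sm.PatA

/-! The cocycles attached to patterns. -/

set_option autoImplicit false

open scoped Classical
open Finset Function

namespace Pool.Agent.B6.S

open Pool.Agent.Lib.MP_696deb_nt Pool.Agent.Lib.MP_696deb_nt.Sm

namespace Box

variable {C : Cv} {B : Box C} {a : B.Mat} {x x' : Fin B.r → ℕ} {P P' : B.PP} {c : GQ → C.A}

theorem sx1a_eq : ∀ a b : F2, a + b = 0 ↔ a = b := by decide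

theorem sx1a_app (x : Fin B.r → ℕ) (P : B.PP) (g : GQ) :
    B.cls x P g = P.1.1 g + ∑ j, (P.2 j).val • C.b2 (x j) g := by
  simp only [cls, Pi.add_apply, Finset.sum_apply, Pi.smul_apply]

theorem sx1a_two (p : ℕ) (g : GQ) : 2 • C.b2 p g = 0 := (C.z2_be p _).two g trivial

theorem sx1a_val {S : C.A} (h : 2 • S = 0) (a b : F2) :
    (a + b).val • S = a.val • S + b.val • S := by
  rcases F2_cases a with rfl | rfl
  · rw [zero_add, ZMod.val_zero, zero_nsmul, zero_add]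
  rcases F2_cases b with rfl | rfl
  · rw [add_zero, ZMod.val_zero, zero_nsmul, add_zero]
  · rw [CharTwo.add_self_eq_zero, ZMod.val_zero, zero_nsmul, ZMod.val_one, one_nsmul, ← two_nsmul,
      h]

theorem Wf.sx1a_same (h : B.Wf) (hx : x ∈ B.pts) (hx' : x' ∈ B.pts) (j : Fin B.r) :
    C.Same B.D0 (x j) (x' j) := h.same j _ (mem_pts.1 hx j) _ (mem_pts.1 hx' j)

theorem Wf.sx1a_unr (h : B.Wf) (hx : x ∈ B.pts) (i : Fin B.r) {q : ℕ} (hq : C.Gp q)
    (e : q ≠ x i) : C.b2 (x i) (sig q) = 0 :=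
  Cv.be_unr (h.gp (mem_pts.1 hx i)) (h.ty i _ (mem_pts.1 hx i)).fix hq e

/-- Two points look alike at the fixed primes. -/
theorem Wf.chi_DD (h : B.Wf) (hx : x ∈ B.pts) (hx' : x' ∈ B.pts) {v : ℕ} (hv : C.FP B.D0 v) :
    ∀ g ∈ Gv v, chi (B.DD x) g = chi (B.DD x') g := by
  intro g hg
  have n : ∀ {y}, y ∈ B.pts → ∀ j, (y j : ℤ) ≠ 0 := fun hy j =>
    Int.natCast_ne_zero.2 (h.prime (mem_pts.1 hy j)).ne_zero
  rw [DD, DD, chi_mul B.h0 (prod_ne_zero_iff.2 fun j _ => n hx j),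
    chi_mul B.h0 (prod_ne_zero_iff.2 fun j _ => n hx' j), chi_prod _ _ fun j _ => n hx j,
    chi_prod _ _ fun j _ => n hx' j]
  exact congrArg _ (sum_congr rfl fun j _ => (sx1a_eq _ _).1
    ((chi_mul (n hx j) (n hx' j) g).symm.trans ((h.sx1a_same hx hx' j).chi v hv g hg)))

theorem Wf.cls_fix (h : B.Wf) (hx : x ∈ B.pts) (hx' : x' ∈ B.pts) {v : ℕ} (hv : C.FP B.D0 v)
    (P : B.PP) : ∀ g ∈ Gv v, B.cls x P g = B.cls x' P g := by
  intro g hg
  rw [sx1a_app, sx1a_app]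
  exact congrArg _ (sum_congr rfl fun j _ => congrArg _ ((h.sx1a_same hx hx' j).be v hv g hg))

/-- Two points of a fibre that share a prime look alike at that prime. -/
theorem Wf.chi_cross (h : B.Wf) (hx : x ∈ B.fib a) (hx' : x' ∈ B.fib a) {i j : Fin B.r}
    (hij : i ≠ j) (hj : x j = x' j) : ∀ g ∈ Gv (x j), chi ((x i : ℤ) * x' i) g = 0 := by
  obtain ⟨h0, e⟩ := mem_fib.1 hx
  obtain ⟨h0', e'⟩ := mem_fib.1 hx'
  have g := fun k => h.gp (mem_pts.1 h0 k)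
  have g' := fun k => h.gp (mem_pts.1 h0' k)
  have n := (h.inj h0).ne hij
  have n' := (h.inj h0').ne hij
  have h2 : ¬ (x j : ℤ) ∣ x i := not_dvd_of_natAbs_eq (g j).1 (g i).1 n.symm rfl
  have h3 : ¬ (x j : ℤ) ∣ x' i := hj ▸ not_dvd_of_natAbs_eq (g' j).1 (g' i).1 n'.symm rfl
  have h4 : aleg (x j) (x i) = aleg (x' j) (x' i) := by
    rcases lt_or_gt_of_ne hij with k | k
    · have k1 : aleg (x i) (x j) = aleg (x' i) (x' j) :=
        congrFun (congrFun (e.trans e'.symm) ⟨(i, j), k⟩) 0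
      have k2 := (h.sx1a_same h0 h0' i).mod8 (g i) (g' i)
      rw [pata_recip (g i).1 (g j).1 (g i).ne_two (g j).ne_two n,
        pata_recip (g' i).1 (g' j).1 (g' i).ne_two (g' j).ne_two n', k1, pata_neg (g i).1,
        pata_neg (g' i).1, hj, show x i % 4 = x' i % 4 by omega]
    · exact congrFun (congrFun (e.trans e'.symm) ⟨(j, i), k⟩) 0
  refine chi_Gv_of_aleg (g j).1 (g j).ne_two
    (fun k => ((Nat.prime_iff_prime_int.1 (g j).1).dvd_or_dvd k).elim h2 h3) ?_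
  rw [aleg_mul (g j).1 h2 h3, h4, hj, CharTwo.add_self_eq_zero]

theorem cls_add (x : Fin B.r → ℕ) (P P' : B.PP) : B.cls x (P + P') = B.cls x P + B.cls x P' := by
  funext g
  rw [Pi.add_apply, sx1a_app, sx1a_app, sx1a_app, add_add_add_comm, ← sum_add_distrib]
  exact congrArg₂ _ rfl (sum_congr rfl fun j _ => sx1a_val (sx1a_two _ g) _ _)

theorem cls_zero (x : Fin B.r → ℕ) : B.cls x 0 = 0 := by
  have h := cls_add x (0 : B.PP) 0
  rwa [add_zero, left_eq_add] at h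

theorem cls_congr (h : ∀ j, P.2 j ≠ 0 → x j = x' j) : B.cls x P = B.cls x' P := by
  rw [cls, cls, add_right_inj]
  refine sum_congr rfl fun j _ => ?_
  by_cases k : P.2 j = 0
  · rw [k, ZMod.val_zero, zero_nsmul, zero_nsmul]
  · rw [h j k]

theorem Wf.cls_mem (h : B.Wf) (hx : x ∈ B.pts) (P : B.PP) : B.cls x P ∈ C.U (B.DD x) :=
  add_mem (Cv.U_mono (fun _ _ k => k.mul_right _) P.1.2) (sum_mem fun j _ => nsmul_mem
    (Cv.mem_U.2 ⟨C.z2_be _ _, C.be_g0 _ _, fun _ hq k => h.sx1a_unr hx j hq fun e =>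
      k ((h.dvd_DD hx hq.1).2 (.inr ⟨j, e⟩))⟩) _)

theorem Wf.cls_sig (h : B.Wf) (hx : x ∈ B.pts) (P : B.PP) (j : Fin B.r) :
    B.cls x P (sig (x j)) = (P.2 j).val • C.T (C.tp (x j)) := by
  have k := mem_pts.1 hx j
  rw [sx1a_app, P.1.2.2.2 _ (h.gp k) (h.cop j _ k), zero_add, sum_eq_single j (fun i _ e => by
    rw [h.sx1a_unr hx i (h.gp k) ((h.inj hx).ne e.symm), smul_zero]) fun e =>
    (e (mem_univ j)).elim]
  exact congrArg _ (Cv.be_sig (h.gp k) (h.ty j _ k).fix)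

theorem Wf.cls_sig_zero (h : B.Wf) (hx : x ∈ B.pts) (P : B.PP) (j : Fin B.r) :
    B.cls x P (sig (x j)) = 0 ↔ P.2 j = 0 := by
  rw [h.cls_sig hx]
  rcases F2_cases (P.2 j) with e | e <;> rw [e]
  · exact iff_of_true (zero_nsmul _) rfl
  · rw [ZMod.val_one, one_nsmul]
    exact iff_of_false (C.T_ne _) one_ne_zero

theorem Wf.cls_inj (h : B.Wf) (hx : x ∈ B.pts) : Injective (B.cls x) := by
  intro P P' e
  have k : P.2 = P'.2 := funext fun j => (sx1a_eq _ _).1 ((h.cls_sig_zero hx (P + P') j).1 (by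
    rw [cls_add, e, Pi.add_apply, ← two_nsmul]
    exact (h.cls_mem hx P').1.two _ trivial))
  rw [cls, cls, k] at e
  exact Prod.ext (Subtype.ext (add_right_cancel e)) k

theorem Wf.exists_cls (h : B.Wf) (hx : x ∈ B.pts) (hc : c ∈ C.U (B.DD x)) :
    ∃ P, c = B.cls x P := by
  have k := sub_mem hc (h.cls_mem hx (0, fun j => C.rm c (x j)))
  refine ⟨(⟨_, k.1, k.2.1, fun q hq hd => ?_⟩, fun j => C.rm c (x j)), ?_⟩
  · by_cases e : ∃ j, q = x j
    · obtain ⟨j, rfl⟩ := e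
      rw [Pi.sub_apply, h.cls_sig hx, sub_eq_zero]
      exact (hc.1.mono le_top).sig_eq (h.ty j _ (mem_pts.1 hx j))
    · exact k.2.2 q hq fun a => ((h.dvd_DD hx hq.1).1 a).elim hd e
  · simp only [cls, ZeroMemClass.coe_zero, zero_add, sub_add_cancel]

theorem Wf.sy_nu (h : B.Wf) {j : Fin B.r} {p : ℕ} (hp : p ∈ B.X j) (hc : c ∈ C.U B.D0) :
    C.sy c p = B.nu c j :=
  (h.same j p hp _ (h.rep_mem j)).sy B.h0 (h.ty j p hp) (h.ty j _ (h.rep_mem j)) (h.cop j p hp)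
    (h.cop j _ (h.rep_mem j)) hc

theorem Wf.sy_b2 (h : B.Wf) (hx : x ∈ B.fib a) {i j : Fin B.r} (hij : i ≠ j) :
    C.sy (C.b2 (x i)) (x j) = B.sm a i j := by
  obtain ⟨h0, rfl⟩ := mem_fib.1 hx
  rcases lt_or_gt_of_ne hij with k | k
  · have ti := h.ty i _ (mem_pts.1 h0 i)
    have tj := h.ty j _ (mem_pts.1 h0 j)
    rw [sm, dif_neg k.not_gt, dif_pos k]
    refine (Cv.be_flip ti.1 ti.fix tj.1 tj.fix ((h.inj h0).ne hij.symm)).trans
      (congrArg₂ _ rfl (sum_congr rfl fun v hv => ?_))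
    have f : C.FP B.D0 v := ⟨(Cv.mem_bad.1 hv).1, .inl (Cv.mem_bad.1 hv).2⟩
    exact Cv.Bv_congr f.1 ((h.sx1a_same h0 h.rep_pts i).be v f)
      ((h.sx1a_same h0 h.rep_pts j).be v f)
  · rw [sm, dif_pos k]
    rfl

theorem Wf.sy_cls (h : B.Wf) (hx : x ∈ B.fib a) (P : B.PP) (j : Fin B.r) :
    C.sy (B.cls x P) (x j) + P.2 j * C.sp (x j) = B.lam a j P := by
  have h0 := (mem_fib.1 hx).1
  have k : ∀ i, P.2 i * B.sm a i j = P.2 i * C.sy (C.b2 (x i)) (x j) +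
      if i = j then P.2 j * C.sp (x j) else 0 := fun i => by
    split_ifs with e
    · rw [e, sm, dif_neg (lt_irrefl j), dif_neg (lt_irrefl j),
        ← (h.sx1a_same h0 h.rep_pts j).spin, Cv.spin, mul_add]
    · rw [add_zero, h.sy_b2 hx e]
  have t := fun i => C.two_smul_val (P.2 i) (sx1a_two (x i) (frb (x j)))
  rw [lam, sum_congr rfl fun i _ => k i, sum_add_distrib, sum_ite_eq', if_pos (mem_univ j),
    ← add_assoc, ← h.sy_nu (mem_pts.1 h0 j) P.1.2, Cv.sy, sx1a_app,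
    C.ep_add_left (P.1.2.1.two _ trivial) (by rw [smul_sum, sum_eq_zero fun i _ => t i])
      (C.two_T _), C.ep_sum_left _ (fun i _ => t i) (C.two_T _)]
  simp only [Cv.ep_smul_left, Cv.sy]

theorem Wf.loc_iff (h : B.Wf) (hx : x ∈ B.fib a) (P : B.PP) (j : Fin B.r) :
    C.Loc (x j) (B.DD x) (B.cls x P) ↔ B.lam a j P = 0 := by
  have h0 := (mem_fib.1 hx).1
  have k : C.rm (B.cls x P) (x j) = P.2 j := by
    rw [Cv.rm]
    split_ifs with e <;> rw [h.cls_sig_zero h0] at e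
    · exact e.symm
    · exact ((F2_cases _).resolve_left e).symm
  rw [Cv.loc_iff (h.ty j _ (mem_pts.1 h0 j)) (h.val_DD h0 j) ((h.cls_mem h0 P).1.mono le_top), k,
    ← h.sy_cls hx, sx1a_eq]

end Box

end Pool.Agent.B6.S
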