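import Pool.Agent.Lib.MP_696deb_nt.B6.Red0
import Pool.Agent.Lib.MP_696deb_nt.B2.TA0

/-! Bases of the Tate module and the function that computes the Weil pairing. -/

set_option autoImplicit false

open scoped NNReal Classical
open Matrix

namespace Pool.Agent.B6

open Pool.Agent.Lib.MP_696deb_nt (Pt pmap xco yco xco_some yco_some xco_pmap yco_pmap xco_neg pmap_injective pmap_pmap)
open Pool.Agent.Lib.MP_696deb_nt.B2

variable [Cw]

/-- The quotient `σ(2u+v) σ(v)^3 / (σ(u+2v) σ(u)^3)`. -/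
noncomputable def ps2 (A B : EE) : Qbar := (xco (A + B) - xco A) / (xco (A + B) - xco B)

/-- The quotient `σ(nu+v) / σ(u+nv)` for `n = 2 ^ m`, up to functions of one variable. -/
noncomputable def wpsi : ℕ → EE → EE → Qbar
  | 0, _, _ => 1
  | m + 1, A, B => wpsi m (2 • A) B * ps2 A (2 ^ m • B)

/-- Neither point is a multiple of the other. -/
def Gnn (P Q : EE) : Prop := P ∉ AddSubgroup.zmultiples Q ∧ Q ∉ AddSubgroup.zmultiples P

/-- The conditions under which `wpsi` has neither a zero nor a pole. -/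
def Gw (m : ℕ) (A B : EE) : Prop :=
  2 ^ m • A ≠ 0 ∧ 2 ^ m • B ≠ 0 ∧ ∀ i j, i ≤ m → j ≤ m → 2 ^ i • A + 2 ^ j • B ≠ 0

/-- The same conditions for all translates by torsion points. -/
def Gv (m : ℕ) (A B : EE) : Prop :=
  ∀ x y : EE, 2 ^ m • x = 0 → 2 ^ m • y = 0 → Gw m (A + x) (B + y)

/-- A basis of the Tate module. -/
structure Emb where
  emb : (m : ℕ) → (Fin 2 → ZMod (2 ^ m)) →+ EE
  inj : ∀ m, Function.Injective (emb m)
  surj : ∀ m P, 2 ^ m • P = 0 → ∃ x, emb m x = P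
  two : ∀ m k x, 2 ^ k • emb (m + k) x =
    emb m fun i => ZMod.castHom (pow_dvd_pow 2 (Nat.le_add_right m k)) (ZMod (2 ^ m)) (x i)
  weil : ∀ m, ∃ u : (ZMod (2 ^ m))ˣ, ∀ A B x y, Gv m A B →
    wpsi m (A + emb m x) (B + emb m y) * wpsi m A B =
      zeta m ^ (u * det2 x y).val * (wpsi m A (B + emb m y) * wpsi m (A + emb m x) B)

/-- A basis with the Galois representation. -/
structure TB extends Emb where
  ρ : Gam →* M2
  smul : ∀ m g x, g • emb m x = emb m (mred m (ρ g) *ᵥ x)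

theorem Gnn.gw {m : ℕ} {A B : EE} (h : Gnn (2 ^ m • A) (2 ^ m • B)) : Gw m A B := by
  have k : ∀ {A B : EE} {i j : ℕ}, i ≤ j → i ≤ m → 2 ^ i • A + 2 ^ j • B = 0 →
      2 ^ m • A ∈ AddSubgroup.zmultiples (2 ^ m • B) := fun {A B i j} h1 h2 e => by
    obtain ⟨a, rfl⟩ := Nat.exists_eq_add_of_le h1
    obtain ⟨b, rfl⟩ := Nat.exists_eq_add_of_le h2
    have e' : 2 ^ (i + b) • A = -(2 ^ a • 2 ^ (i + b) • B : EE) := by
      rw [add_comm i b, pow_add, mul_smul, eq_neg_of_add_eq_zero_left e, smul_neg, ← mul_smul,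
        ← mul_smul, pow_add, mul_comm (2 ^ a), mul_assoc]
    rw [e']
    exact neg_mem (nsmul_mem (AddSubgroup.mem_zmultiples _) _)
  refine ⟨fun e => h.1 (e ▸ zero_mem _), fun e => h.2 (e ▸ zero_mem _), fun i j hi hj e => ?_⟩
  rcases le_total i j with h1 | h1
  exacts [h.1 (k h1 hi e), h.2 (k h1 hj ((add_comm _ _).trans e))]

theorem Gnn.gv {m : ℕ} {A B : EE} (h : Gnn (2 ^ m • A) (2 ^ m • B)) : Gv m A B :=
  fun x y hx hy => Gnn.gw (by rwa [smul_add, smul_add, hx, hy, add_zero, add_zero])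

theorem Gv.gw {m : ℕ} {A B : EE} (h : Gv m A B) : Gw m A B := by
  simpa using h 0 0 (smul_zero _) (smul_zero _)

theorem Gv.add {m : ℕ} {A B x y : EE} (h : Gv m A B) (hx : 2 ^ m • x = 0) (hy : 2 ^ m • y = 0) :
    Gv m (A + x) (B + y) := fun s t hs ht => by
  rw [add_assoc, add_assoc]
  exact h _ _ (by rw [smul_add, hx, hs, add_zero]) (by rw [smul_add, hy, ht, add_zero])

theorem gv_self {m : ℕ} {A : EE} (h : ¬ IsOfFinAddOrder A) : Gv m A A := fun x y hx hy => by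
  have k : ∀ n : ℕ, 0 < n → n • A ≠ 0 := fun n hn e =>
    h (isOfFinAddOrder_iff_nsmul_eq_zero.2 ⟨n, hn, e⟩)
  refine ⟨by rw [smul_add, hx, add_zero]; exact k _ (by positivity),
    by rw [smul_add, hy, add_zero]; exact k _ (by positivity), fun i j _ _ e => ?_⟩
  have e' := congrArg (fun P : EE => 2 ^ m • P) e
  simp only [smul_add, smul_comm (2 ^ m) _ x, smul_comm (2 ^ m) _ y, hx, hy, smul_zero,
    add_zero] at e'
  exact k (2 ^ m * (2 ^ i + 2 ^ j)) (by positivity) (by rw [mul_smul, add_smul, smul_add, e'])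

theorem Gw.succ {m : ℕ} {A B : EE} (h : Gw (m + 1) A B) : Gw m (2 • A) B ∧ A ≠ 0 ∧
    2 ^ m • B ≠ 0 ∧ A + 2 ^ m • B ≠ 0 ∧ 2 • A + 2 ^ m • B ≠ 0 ∧ A + 2 • 2 ^ m • B ≠ 0 := by
  have hB : 2 ^ m • B ≠ 0 := fun e => h.2.1 (by rw [pow_succ', mul_smul, e, smul_zero])
  refine ⟨⟨by rw [← mul_smul, ← pow_succ]; exact h.1, hB, fun i j hi hj => ?_⟩,
    fun e => h.1 (by rw [e, smul_zero]), hB, by simpa using h.2.2 0 m (by omega) (by omega),
    by simpa using h.2.2 1 m (by omega) (by omega), ?_⟩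
  · rw [← mul_smul, ← pow_succ]
    exact h.2.2 _ _ (by omega) (by omega)
  · rw [← mul_smul, ← pow_succ']
    simpa using h.2.2 0 (m + 1) (by omega) le_rfl

theorem eq_or_of_xco {P Q : EE} (hP : P ≠ 0) (hQ : Q ≠ 0) (h : xco P = xco Q) :
    P = Q ∨ P = -Q := by
  rcases P with _ | ⟨x, y, hp⟩
  · exact absurd rfl hP
  rcases Q with _ | ⟨x', y', hq⟩
  · exact absurd rfl hQ
  exact WeierstrassCurve.Affine.Point.X_eq_iff.1 h

theorem Emb.tors (E : Emb) (m : ℕ) (x : Fin 2 → ZMod (2 ^ m)) : 2 ^ m • E.emb m x = 0 := by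
  rw [← map_nsmul, show 2 ^ m • x = 0 from funext fun i => by
    rw [Pi.smul_apply, nsmul_eq_mul, ZMod.natCast_self, zero_mul, Pi.zero_apply], map_zero]

theorem TB.mred_eq (T : TB) {m : ℕ} {g : Gam} {A : Matrix (Fin 2) (Fin 2) (ZMod (2 ^ m))}
    (h : ∀ x, g • T.emb m x = T.emb m (A *ᵥ x)) : mred m (T.ρ g) = A :=
  Matrix.ext_of_mulVec_single fun _ => T.inj m ((T.smul m g _).symm.trans (h _))

theorem TB.mred_eq_one (T : TB) {m : ℕ} {g : Gam} (h : ∀ P : EE, 2 ^ m • P = 0 → g • P = P) :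
    mred m (T.ρ g) = 1 :=
  T.mred_eq fun x => by rw [one_mulVec, h _ (T.tors m x)]

end Pool.Agent.B6
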