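import Pool.Agent.Lib.MP_696deb_nt.B6.TA0
import Pool.Agent.Lib.MP_696deb_nt.B2.TAb

/-! The Galois representation and its determinant. -/

set_option autoImplicit false

open scoped NNReal Classical
open Matrix NumberTheorySymbols

namespace Pool.Agent.B6

open Pool.Agent.Lib.MP_696deb_nt (Pt pmap xco yco xco_some yco_some xco_pmap yco_pmap xco_neg pmap_injective pmap_pmap)
open Pool.Agent.Lib.MP_696deb_nt.B2

variable [Cw]

theorem wpsi_smul (g : Gam) (m : ℕ) (A B : EE) : g (wpsi m A B) = wpsi m (g • A) (g • B) := by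
  induction m generalizing A with
  | zero => exact map_one g
  | succ m ih =>
    rw [wpsi, wpsi, map_mul, ih, ps2, ps2, map_div₀, map_sub, map_sub, ← xco_smul, ← xco_smul,
      ← xco_smul, smul_add, smul_comm g, smul_comm g]

theorem wpsi_ne {m : ℕ} {A B : EE} (h : Gw m A B) : wpsi m A B ≠ 0 := by
  induction m generalizing A with
  | zero => exact one_ne_zero
  | succ m ih =>
    obtain ⟨w0, w1, w2, w3, w4, w5⟩ := h.succ
    refine mul_ne_zero (ih w0) (div_ne_zero (fun e => ?_) fun e => ?_)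
    · rcases eq_or_of_xco w3 w1 (sub_eq_zero.1 e) with e | e
      · exact w2 (add_eq_left.1 e)
      · exact w4 (by rw [two_nsmul, add_assoc, e, add_neg_cancel])
    · rcases eq_or_of_xco w3 w2 (sub_eq_zero.1 e) with e | e
      · exact w1 (add_eq_right.1 e)
      · exact w5 (by rw [two_nsmul, ← add_assoc, e, neg_add_cancel])

theorem Emb.exists_rho (E : Emb) : ∃ T : TB, T.toEmb = E := by
  choose f hf using fun (m : ℕ) (g : Gam) (x : Fin 2 → ZMod (2 ^ m)) =>
    E.surj m (g • E.emb m x) (by rw [smul_comm, E.tors, smul_zero])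
  choose r hr using fun (g : Gam) (i j : Fin 2) => exists_lim (fun m => f m g (Pi.single j 1) i)
    fun m k => congrFun (E.inj m ((E.two m k (f (m + k) g (Pi.single j 1))).symm.trans (by
      rw [hf, hf m g (Pi.single j 1), smul_comm, E.two]
      congr 2
      funext l
      rw [Pi.apply_single (fun _ => ZMod.castHom _ (ZMod (2 ^ m))) (fun _ => map_zero _), map_one])))
      i
  have k : ∀ m g x, g • E.emb m x = E.emb m (mred m (of (r g)) *ᵥ x) := fun m g x => by
    have e : x = (x 0).val • Pi.single 0 1 + (x 1).val • Pi.single 1 1 := by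
      funext i
      rw [Pi.add_apply, Pi.smul_apply, Pi.smul_apply]
      fin_cases i <;> simp
    have e' : ∀ j, mred m (of (r g)) *ᵥ Pi.single j 1 = f m g (Pi.single j 1) := fun j => by
      funext i
      rw [mulVec_single_one, col_apply, mred_apply, of_apply, hr]
    rw [e, mulVec_add, mulVec_smul, mulVec_smul, e', e', map_add, map_add, map_nsmul, map_nsmul,
      map_nsmul, map_nsmul, hf, hf, smul_add, smul_comm g, smul_comm g]
  refine ⟨⟨E, ⟨⟨fun g => of (r g), mred_ext fun m => ?_⟩, fun g h => mred_ext fun m => ?_⟩, k⟩, rfl⟩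
  · exact Matrix.ext_of_mulVec_single fun _ => E.inj m (by rw [← k, mred_one, one_mulVec, one_smul])
  · exact Matrix.ext_of_mulVec_single fun _ => E.inj m (by
      rw [← k, mred_mul, ← mulVec_mulVec, ← k, ← k, mul_smul])

theorem Emb.exists_change (E : Emb) {B : M2} (h : IsUnit B.det) :
    ∃ E' : Emb, ∀ m x, E'.emb m x = E.emb m (mred m B *ᵥ x) := by
  obtain ⟨⟨B, C, h1, h2⟩, rfl⟩ := (isUnit_iff_isUnit_det B).2 h
  refine ⟨⟨fun m => (E.emb m).comp (mulVecLin (mred m B)).toAddMonoidHom, fun m x y e => ?_,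
    fun m P e => ?_, fun m k x => (E.two m k _).trans (congrArg _ (tab_cast m k B x)),
    fun m => ?_⟩, fun _ _ => rfl⟩
  · have e' : mred m C *ᵥ mred m B *ᵥ x = mred m C *ᵥ mred m B *ᵥ y :=
      congrArg (mred m C *ᵥ ·) (E.inj m e)
    rwa [mulVec_mulVec, mulVec_mulVec, ← mred_mul, h2, mred_one, one_mulVec, one_mulVec] at e'
  · obtain ⟨x, rfl⟩ := E.surj m P e
    refine ⟨mred m C *ᵥ x, congrArg (E.emb m) (?_ : mred m B *ᵥ mred m C *ᵥ x = x)⟩
    rw [mulVec_mulVec, ← mred_mul, h1, mred_one, one_mulVec]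
  · obtain ⟨u, hu⟩ := E.weil m
    refine ⟨u * (h.map (PadicInt.toZModPow m)).unit, fun A A' x y k => (hu A A' _ _ k).trans ?_⟩
    rw [Units.val_mul, IsUnit.unit_spec, mul_assoc, ← mred_det, ← det2_mulVec]
    rfl

theorem TB.sm (T : TB) (m : ℕ) : Sm ⊤ fun g => mred m (T.ρ g) :=
  ((Sm.pi fun j : Fin 2 => sm_pt ⊤ (T.emb m (Pi.single j 1))).comp fun P =>
    of fun i j => Function.invFun (T.emb m) (P j) i).congr fun g _ => Matrix.ext fun i j => by
      rw [of_apply, T.smul, Function.leftInverse_invFun (T.inj m), mulVec_single_one, col_apply]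

theorem tab_half (m : ℕ) (P : EE) : ∃ R : EE, 2 ^ m • R = P := by
  induction m with
  | zero => exact ⟨P, one_smul _ _⟩
  | succ m ih =>
    obtain ⟨R, rfl⟩ := ih
    obtain ⟨R, rfl⟩ := exists_half R
    exact ⟨R, by rw [pow_succ, mul_smul]⟩

theorem tab_not {P Q : EE} (h : 2 • Q = 0) (h0 : P ≠ 0) (h1 : P ≠ Q) :
    P ∉ AddSubgroup.zmultiples Q := fun e => by
  obtain ⟨c, rfl⟩ := AddSubgroup.mem_zmultiples_iff.1 e
  have k : ∀ k : ℤ, (2 * k) • Q = 0 := fun k => by
    rw [mul_comm, mul_smul, two_zsmul, ← two_nsmul, h, smul_zero]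
  obtain ⟨c, rfl | rfl⟩ := Int.even_or_odd' c
  · exact h0 (k c)
  · exact h1 (by rw [add_smul, k, zero_add, one_smul])

theorem Emb.ne (E : Emb) {m : ℕ} {x : Fin 2 → ZMod (2 ^ m)} (h : x ≠ 0) : E.emb m x ≠ 0 :=
  fun e => h (E.inj m (e.trans (map_zero _).symm))

theorem TB.det (T : TB) (g : Gam) : (T.ρ g).det = cyc g := by
  refine PadicInt.ext_of_toZModPow.1 fun m => ?_
  obtain ⟨u, hu⟩ := T.weil m
  obtain ⟨A, hA⟩ := tab_half m (T.emb 1 ![1, 0])
  obtain ⟨B, hB⟩ := tab_half m (T.emb 1 ![0, 1])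
  have k : ∀ g : Gam, Gv m (g • A) (g • B) := fun g => Gnn.gv (by
    rw [smul_comm, hA, smul_comm, hB]
    have k1 : ∀ x, 2 • g • T.emb 1 x = 0 := fun x => by
      rw [smul_comm]
      exact (congrArg _ (T.tors 1 x)).trans (smul_zero g)
    have k2 : ∀ x, x ≠ 0 → g • T.emb 1 x ≠ 0 := fun x hx e =>
      T.ne hx ((smul_eq_zero_iff_eq g).1 e)
    have k3 : g • T.emb 1 ![1, 0] ≠ g • T.emb 1 ![0, 1] := fun e =>
      absurd (T.inj 1 (smul_left_cancel g e)) (by decide)
    exact ⟨tab_not (k1 _) (k2 _ (by decide)) k3, tab_not (k1 _) (k2 _ (by decide)) k3.symm⟩)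
  have e := congrArg g (hu A B ![1, 0] ![0, 1] (by simpa using k 1))
  simp only [map_mul, wpsi_smul, smul_add, T.smul, smul_zeta_val] at e
  rw [hu _ _ _ _ (k g), det2_mulVec, mred_det] at e
  have e' := zeta_val_inj (mul_right_cancel₀ (mul_ne_zero
    (wpsi_ne (by simpa using k g 0 _ (smul_zero _) (T.tors m _)))
    (wpsi_ne (by simpa using k g _ 0 (T.tors m _) (smul_zero _)))) e)
  simpa [det2, cy, mul_comm] using e'

end Pool.Agent.B6
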