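import Pool.Agent.Lib.MP_696deb_nt.B6.TAd
import Pool.Agent.Lib.MP_696deb_nt.B6.Cs

/-! Places of multiplicative reduction: unramified points are divisible by two. -/

set_option autoImplicit false

open scoped NNReal Classical
open WeierstrassCurve WeierstrassCurve.Affine

namespace Pool.Agent.B6

open Pool.Agent.Lib.MP_696deb_nt Pool.Agent.Lib.MP_696deb_nt.B2

theorem tag_sqrt {w : Plc} (hw : w.p ≠ 2) {σ : Gam} (hσ : σ ∈ Ine w) (h1 : chi w.p σ = 1)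
    {s : Qbar} {k : ℤ} (hs : w.V (s ^ 2) = ((w.p : ℝ≥0) ^ k)⁻¹) (h2 : σ (s ^ 2) = s ^ 2) :
    σ s = s := by
  have p0 : (w.p : ℝ≥0) ≠ 0 := Nat.cast_ne_zero.2 w.prime.ne_zero
  have r1 : w.V (rt w.p) ^ 2 = (w.p : ℝ≥0)⁻¹ := by rw [← map_pow, rt_sq, Int.cast_natCast, w.hV]
  have r0 : w.V (rt w.p) ≠ 0 := fun k => inv_ne_zero p0 (by rw [← r1, k]; simp)
  have v1 : w.V (s / rt w.p ^ k) = 1 := by
    rw [← pow_eq_one_iff_of_nonneg zero_le two_ne_zero, map_div₀, div_pow, ← map_pow, hs,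
      map_zpow₀, ← zpow_natCast, ← zpow_mul, mul_comm, zpow_mul, zpow_natCast, r1, inv_zpow,
      div_self (inv_ne_zero (zpow_ne_zero _ p0))]
  rw [map_pow] at h2
  refine (sq_eq_sq_iff_eq_or_eq_neg.1 h2).resolve_right fun e => ?_
  have v2 := hσ.2 _ v1.le
  have v3 : w.V ((-2 : ℤ) : Qbar) = 1 := w.V_int_eq_one.2 fun e =>
    hw ((Nat.prime_dvd_prime_iff_eq w.prime Nat.prime_two).1 (by exact_mod_cast dvd_neg.1 e))
  rw [map_div₀, map_zpow₀, chi_eq_one.1 h1, e,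
    show -s / rt w.p ^ k - s / rt w.p ^ k = ((-2 : ℤ) : Qbar) * (s / rt w.p ^ k) by
      push_cast; ring, map_mul, v1, v3, one_mul] at v2
  exact v2.false

section

variable [Cw]

/-- The three roots of the cubic in some order. -/
structure Rts (a b c : Qbar) : Prop where
  b2 : (WZ.b₂ : Qbar) = -4 * (a + b + c)
  b4 : (WZ.b₄ : Qbar) = 2 * (a * b + a * c + b * c)
  b6 : (WZ.b₆ : Qbar) = -4 * (a * b * c)

variable {a b c : Qbar}

theorem rts_er : Rts (er 0) (er 1) (er 2) := ⟨er_b₂, er_b₄, er_b₆⟩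

theorem Rts.rot (h : Rts a b c) : Rts b c a :=
  ⟨by rw [h.b2]; ring, by rw [h.b4]; ring, by rw [h.b6]; ring⟩

theorem Rts.cub_eq (h : Rts a b c) (x : Qbar) : cub x = 4 * ((x - a) * ((x - b) * (x - c))) := by
  rw [cub, h.b2, h.b4, h.b6]
  ring

theorem Rts.root (h : Rts a b c) {x : Qbar} : cub x = 0 ↔ x = a ∨ x = b ∨ x = c := by
  simp [h.cub_eq, sub_eq_zero]

theorem Rts.b8 (h : Rts a b c) : (WZ.b₈ : Qbar) =
    4 * (a + b + c) * (a * b * c) - (a * b + a * c + b * c) ^ 2 := by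
  have e : (4 * WZ.b₈ : Qbar) = WZ.b₂ * WZ.b₆ - WZ.b₄ ^ 2 := by exact_mod_cast WZ.b_relation
  rw [h.b2, h.b4, h.b6] at e
  linear_combination (1 / 4) * e

theorem Rts.disc (h : Rts a b c) : (WZ.Δ : Qbar) = 16 * ((a - b) * ((a - c) * (b - c))) ^ 2 := by
  rw [Δ]
  push_cast
  rw [h.b8, h.b2, h.b4, h.b6]
  ring

theorem Rts.c4 (h : Rts a b c) : (WZ.c₄ : Qbar) = 16 * ((a - b) * (a - c) + (b - c) ^ 2) := by
  rw [c₄]
  push_cast
  rw [h.b2, h.b4]
  ring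

theorem Rts.ne (h : Rts a b c) : a ≠ b ∧ a ≠ c ∧ b ≠ c := by
  have e : (WZ.Δ : Qbar) ≠ 0 := Int.cast_ne_zero.2 WZ_ne
  rw [h.disc] at e
  simpa [sub_eq_zero, not_or] using e

theorem cub_smul (g : Gam) {x : Qbar} (h : cub x = 0) : cub (g x) = 0 := by
  rw [← map_cub, h, map_zero]

/-- The formula for the halves of a point. -/
theorem Rts.half (h : Rts a b c) {P : EE} (hP : P ≠ 0) {r s t : Qbar} (h0 : r ^ 2 = xco P - a)
    (h1 : s ^ 2 = xco P - b) (h2 : t ^ 2 = xco P - c) : ∃ Q : EE, 2 • Q = P ∧ ∀ g : Gam,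
      g (xco P) = xco P → g r = r → g (s + t) = s + t → g (s * t) = s * t → g • Q = Q := by
  rcases P with _ | ⟨x, y, hp⟩
  · exact absurd rfl hP
  rw [xco_some] at h0 h1 h2
  obtain ⟨n1, n2, n3⟩ := h.ne
  obtain rfl : a = x - r ^ 2 := by rw [h0]; ring
  obtain rfl : b = x - s ^ 2 := by rw [h1]; ring
  obtain rfl : c = x - t ^ 2 := by rw [h2]; ring
  obtain ⟨X, hX⟩ : ∃ X, X = x + r * (s + t) + s * t := ⟨_, rfl⟩
  obtain ⟨η, hη⟩ : ∃ η, η = 2 * (r ^ 2 + r * (s + t) + s * t) * (s + t) := ⟨_, rfl⟩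
  have e1 : cub X = η ^ 2 := by rw [h.cub_eq, hX, hη]; ring
  have e0 : η ≠ 0 := by
    rw [hη, show r ^ 2 + r * (s + t) + s * t = (r + s) * (r + t) by ring]
    refine mul_ne_zero (mul_ne_zero two_ne_zero (mul_ne_zero (fun k => n1 ?_) fun k => n2 ?_))
      fun k => n3 ?_ <;> rw [eq_neg_of_add_eq_zero_left k, neg_sq]
  have hq : (Wu.baseChange Qbar).toAffine.Nonsingular X ((η - WZ.a₁ * X - WZ.a₃) / 2) := by
    rw [Wu_nonsingular]
    simp only [cub, b₂, b₄, b₆] at e1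
    push_cast at e1
    linear_combination (-1 / 4) * e1
  have e2 : dup2 (Wu.baseChange Qbar) X ≠ 0 := by rw [dup2_cub, e1]; exact pow_ne_zero 2 e0
  have e : dup1 (Wu.baseChange Qbar) X = x * dup2 (Wu.baseChange Qbar) X := by
    rw [dup2_cub, e1, dup1, Wu_b₄, Wu_b₆, Wu_b₈, h.b4, h.b6, h.b8, hX, hη]
    ring
  have fx : ∀ g : Gam, g x = x → g r = r → g (s + t) = s + t → g (s * t) = s * t →
      g • (.some X _ hq : EE) = .some X _ hq := fun g k0 k1 k2 k3 => by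
    have k4 : g X = X := by rw [hX, map_add, map_add, map_mul, k0, k1, k2, k3]
    have k5 : g η = η := by
      rw [hη, map_mul, map_mul, map_add, map_add, map_mul, map_pow, k1, k2, k3, map_ofNat]
    refine r0_fix g (Point.some_ne_zero _) k4 ?_
    simp only [yco_some, map_div₀, map_sub, map_mul, map_intCast, map_ofNat, k4, k5]
  obtain ⟨y', h', e3⟩ := two_nsmul_some hq e2
  rcases (Point.X_eq_iff (h₁ := hp) (h₂ := h')).1 (by rw [e, mul_div_cancel_right₀ _ e2]) with k | k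
  · exact ⟨_, e3.trans k.symm, fx⟩
  · exact ⟨-.some X _ hq, by rw [neg_nsmul, e3, k], fun g k0 k1 k2 k3 => by
      rw [smul_neg, fx g k0 k1 k2 k3]⟩

end

variable [Cs] {w : Plc} {a b c : Qbar} {g σ τ : Gam}

/-- The roots of the cubic at a bad place: one simple root and one double root. -/
structure Bad (w : Plc) (a b c : Qbar) : Prop extends Rts a b c where
  ab : w.V (a - b) = 1
  ac : w.V (a - c) = 1
  bc : w.V (b - c) < 1

omit [Cs] in
theorem tag_V (hw : w.p ≠ 2) (k : ℕ) : w.V (2 ^ k) = 1 := by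
  rw [map_pow, show (2 : Qbar) = ((2 : ℤ) : Qbar) by norm_num, w.V_int_eq_one.2, one_pow]
  exact fun e => hw ((Nat.prime_dvd_prime_iff_eq w.prime Nat.prime_two).1 (by exact_mod_cast e))

theorem Rts.bad (hw : w.p ∣ NN) (h : Rts a b c) (k : w.V (b - c) < 1) : Bad w a b c := by
  have h2 := ne_two_of_dvd hw
  have ma : a ∈ w.V.integer := V_root h2 (h.root.2 (.inl rfl))
  have mb : b ∈ w.V.integer := V_root h2 (h.root.2 (.inr (.inl rfl)))
  have mc : c ∈ w.V.integer := V_root h2 (h.root.2 (.inr (.inr rfl)))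
  have h3 : w.V (WZ.c₄ : Qbar) = 1 := w.V_int_eq_one.2 fun e =>
    (Nat.prime_iff_prime_int.1 w.prime).not_isUnit
      (WZ_cop.isUnit_of_dvd' e ((dvd_Δ w.prime).2 hw))
  rw [h.c4, map_mul, show (16 : Qbar) = 2 ^ 4 by norm_num, tag_V h2, one_mul] at h3
  have h4 : w.V ((b - c) ^ 2) < 1 := by rw [sq]; exact r0_mul w k k.le
  refine ⟨h, le_antisymm (sub_mem ma mb) (not_lt.1 fun e => ?_),
    le_antisymm (sub_mem ma mc) (not_lt.1 fun e => ?_), k⟩
  · exact (w.V.map_add_lt (r0_mul w e (sub_mem ma mc)) h4).ne h3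
  · exact (w.V.map_add_lt (by rw [mul_comm]; exact r0_mul w e (sub_mem ma mb)) h4).ne h3

theorem exists_bad (hw : w.p ∣ NN) : ∃ a b c, Bad w a b c := by
  have h := rts_er
  have h1 : w.V (WZ.Δ : Qbar) < 1 := lt_of_le_of_ne (w.V_int_le _) fun e =>
    w.V_int_eq_one.1 e ((dvd_Δ w.prime).2 hw)
  rw [h.disc, map_mul, show (16 : Qbar) = 2 ^ 4 by norm_num, tag_V (ne_two_of_dvd hw), one_mul,
    map_pow, pow_lt_one_iff two_ne_zero, map_mul, map_mul] at h1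
  by_cases k1 : w.V (er 1 - er 2) < 1
  · exact ⟨_, _, _, h.bad hw k1⟩
  by_cases k2 : w.V (er 2 - er 0) < 1
  · exact ⟨_, _, _, h.rot.bad hw k2⟩
  refine ⟨_, _, _, h.rot.rot.bad hw (not_le.1 fun k3 => h1.not_ge ?_)⟩
  rw [w.V.map_sub_swap] at k2
  exact one_le_mul k3 (one_le_mul (not_lt.1 k2) (not_lt.1 k1))

theorem Bad.act (h : Bad w a b c) (hg : g ∈ Dec w) :
    g a = a ∧ ((g b = b ∧ g c = c) ∨ (g b = c ∧ g c = b)) := by
  have k1 : w.V (g a - g b) = 1 := by rw [← map_sub, mem_Dec.1 hg, h.ab]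
  have k2 : w.V (g a - g c) = 1 := by rw [← map_sub, mem_Dec.1 hg, h.ac]
  have k3 : g b ≠ g c := fun e => h.ne.2.2 (g.injective e)
  have k4 := h.bc.ne
  have k5 : w.V (c - b) ≠ 1 := by rwa [w.V.map_sub_swap]
  have k0 : w.V 0 ≠ 1 := by simp
  rcases h.root.1 (cub_smul g (h.root.2 (.inl rfl))) with e1 | e1 | e1 <;>
    rcases h.root.1 (cub_smul g (h.root.2 (.inr (.inl rfl)))) with e2 | e2 | e2 <;>
    rcases h.root.1 (cub_smul g (h.root.2 (.inr (.inr rfl)))) with e3 | e3 | e3 <;>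
    rw [e1, e2] at k1 <;> rw [e1, e3] at k2 <;> rw [e2, e3] at k3 <;>
    first
      | exact ⟨e1, .inl ⟨e2, e3⟩⟩
      | exact ⟨e1, .inr ⟨e2, e3⟩⟩
      | exact absurd rfl k3
      | exact absurd k1 k4
      | exact absurd k1 k5
      | exact absurd k2 k4
      | exact absurd k2 k5
      | exact absurd (sub_self (_ : Qbar) ▸ k1) k0
      | exact absurd (sub_self (_ : Qbar) ▸ k2) k0

theorem chi_Δ_ine (hw : w.p ∣ NN) (hσ : σ ∈ Ine w) : chi WZ.Δ σ = chi w.p σ := by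
  obtain ⟨k, u, ⟨j, rfl⟩, hu, e⟩ := val_Δ w.prime hw
  have p0 : (w.p : ℤ) ≠ 0 := Nat.cast_ne_zero.2 w.prime.ne_zero
  have u0 : u ≠ 0 := fun k => hu (k ▸ dvd_zero _)
  rw [e, chi_mul (pow_ne_zero _ p0) u0, pow_succ, pow_mul', chi_mul (by positivity) p0, chi_sq,
    one_mul, chi_ine ((Nat.prime_iff_prime_int.1 w.prime).not_dvd_mul (fun k => ne_two_of_dvd hw
      ((Nat.prime_dvd_prime_iff_eq w.prime Nat.prime_two).1 (by exact_mod_cast k))) hu) hσ, mul_one]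

theorem Bad.fix (h : Bad w a b c) (hw : w.p ∣ NN) (hσ : σ ∈ Ine w) (k : σ b = b) :
    chi w.p σ = 1 := by
  obtain ⟨k1, k2⟩ := h.act hσ.1
  have k3 : σ c = c := k2.elim And.right fun e => absurd (k.symm.trans e.1) h.ne.2.2
  rw [← chi_Δ_ine hw hσ]
  exact tad_chi fun i => by rcases h.root.1 (cub_er i) with e | e | e <;> rwa [e]

theorem Bad.gen (h : Bad w a b c) (hw : w.p ∣ NN) (hτ : Gen w τ) : τ b = c ∧ τ c = b :=
  (h.act hτ.1.1).2.resolve_left fun e => by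
    have := (h.fix hw hτ.1 e.1).symm.trans hτ.2
    exact absurd this (by decide)

/-- Unramified points are divisible by two. -/
theorem div_ine (hw : w.p ∣ NN) (P : EE) (hP : ∀ σ ∈ Ine w, σ • P = P) :
    ∃ Q : EE, (∀ σ ∈ Ine w, σ • Q = Q) ∧ 2 • Q = P := by
  by_cases p0 : P = 0
  · exact ⟨0, fun σ _ => smul_zero σ, by rw [p0, smul_zero]⟩
  have h2 := ne_two_of_dvd hw
  obtain ⟨a, b, c, h⟩ := exists_bad hw
  obtain ⟨τ, hτ⟩ := exists_gen h2
  obtain ⟨t1, t2⟩ := h.gen hw hτ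
  have hx : ∀ σ ∈ Ine w, σ (xco P) = xco P := fun σ hσ => by rw [← xco_smul, hP σ hσ]
  have hy : ∀ σ ∈ Ine w, σ (yco P) = yco P := fun σ hσ => by rw [← yco_smul, hP σ hσ]
  have e := (cub_xco p0).symm.trans (h.cub_eq _)
  have hη : Fx (Ine w) (2 * yco P + WZ.a₁ * xco P + WZ.a₃) := fun σ hσ => by
    simp only [map_add, map_mul, map_ofNat, map_intCast, hx σ hσ, hy σ hσ]
  generalize 2 * yco P + WZ.a₁ * xco P + WZ.a₃ = η at e hη
  have b0 : xco P - b ≠ 0 := fun k => h.ne.2.2 (by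
    rw [← t1, ← sub_eq_zero.1 k, hx τ hτ.1])
  have v1 : w.V (xco P - c) = w.V (xco P - b) := by
    rw [← mem_Dec.1 hτ.1.1 (xco P - b), map_sub τ, hx τ hτ.1, t1]
  have v0 : w.V (xco P - b) ≠ 0 := by simpa using b0
  obtain ⟨k, hk⟩ : ∃ k : ℤ, w.V (xco P - b) = ((w.p : ℝ≥0) ^ k)⁻¹ := by
    have e1 : xco P - a = (xco P - b) - (a - b) := by ring
    rcases lt_trichotomy (w.V (xco P - b)) 1 with k | k | k
    · have v2 := congrArg w.V e
      rw [map_pow, map_mul, map_mul, map_mul, v1, e1, w.V.map_sub_eq_of_lt_right (h.ab ▸ k), h.ab,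
        show (4 : Qbar) = 2 ^ 2 by norm_num, tag_V h2, one_mul, one_mul, ← sq,
        pow_left_inj₀ zero_le zero_le two_ne_zero] at v2
      rw [← v2]
      exact V_of_fx_ine hη fun k => v0 (by rw [← v2, k, map_zero])
    · exact ⟨0, by simpa using k⟩
    · have v2 : w.V (xco P - a) = w.V (xco P - b) := by
        rw [e1, w.V.map_sub_eq_of_lt_left (h.ab ▸ k)]
      rw [← v2]
      exact V_of_fx_ine (fun σ hσ => by rw [map_sub, hx σ hσ, (h.act hσ.1).1])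
        fun k => v0 (by rw [← v2, k, map_zero])
  obtain ⟨s, hs⟩ := IsAlgClosed.exists_pow_nat_eq (xco P - b) two_pos
  have ht : τ s ^ 2 = xco P - c := by rw [← map_pow, hs, map_sub, hx τ hτ.1, t1]
  have s0 : s ≠ 0 := fun k => b0 (by rw [← hs, k]; ring)
  have s1 : τ s ≠ 0 := by simpa using s0
  have f1 : ∀ σ ∈ Ine w, σ b = b → σ s = s := fun σ hσ k =>
    tag_sqrt h2 hσ (h.fix hw hσ k) (hs ▸ hk) (by rw [hs, map_sub, hx σ hσ, k])
  have f2 : ∀ σ ∈ Ine w, (σ s = s ∧ σ (τ s) = τ s) ∨ (σ s = τ s ∧ σ (τ s) = s) := fun σ hσ => by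
    have i1 : τ⁻¹ c = b := by rw [← t1]; exact τ.symm_apply_apply b
    have i2 : ∀ {u : Gam} {x : Qbar}, (τ⁻¹ * u) x = x → u x = τ x := fun {u x} k => by
      conv_rhs => rw [← k]
      exact (τ.apply_symm_apply _).symm
    rcases (h.act hσ.1).2 with k | k
    · refine .inl ⟨f1 σ hσ k.1, i2 (u := σ * τ) (f1 _ (mul_mem (inv_mem hτ.1) (mul_mem hσ hτ.1)) ?_)⟩
      rw [AlgEquiv.mul_apply, AlgEquiv.mul_apply, t1, k.2, i1]
    · refine .inr ⟨i2 (f1 _ (mul_mem (inv_mem hτ.1) hσ) ?_), f1 (σ * τ) (mul_mem hσ hτ.1) ?_⟩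
      · rw [AlgEquiv.mul_apply, k.1, i1]
      · rw [AlgEquiv.mul_apply, t1, k.2]
  generalize τ s = t at ht s1 f2
  obtain ⟨Q, q1, q2⟩ := h.toRts.half p0 (r := η / (2 * (s * t))) (by
    rw [div_pow, e, ← hs, ← ht]; field_simp; ring) hs ht
  refine ⟨Q, fun σ hσ => ?_, q1⟩
  have f3 : σ (s * t) = s * t := by
    rcases f2 σ hσ with k | k <;> rw [map_mul, k.1, k.2, mul_comm]
  refine q2 σ (hx σ hσ) (by rw [map_div₀, map_mul, map_ofNat, f3, hη σ hσ]) ?_ f3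
  rcases f2 σ hσ with k | k <;> rw [map_add, k.1, k.2, add_comm]

end Pool.Agent.B6
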