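import Pool.Agent.Lib.MP_696deb_nt.B6.TAg

/-! The representation at a place of multiplicative reduction. -/

set_option autoImplicit false

open scoped NNReal Classical
open Matrix

namespace Pool.Agent.B6

open Pool.Agent.Lib.MP_696deb_nt (Pt pmap xco yco)
open Pool.Agent.Lib.MP_696deb_nt.B2
open Pool.Agent.B4 (tm_unit tm_cases tm_even tmPi tm_eq tm_upow tm_conj_pow tm_inv_mat)

theorem tah_basis {v : Fin 2 → ℤ_[2]} (h : (fun i => PadicInt.toZModPow 1 (v i)) ≠ 0) :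
    ∃ B : M2, B.det = 1 ∧ B *ᵥ ![1, 0] = v := by
  by_cases h0 : IsUnit (v 0)
  · obtain ⟨u, e⟩ := h0.exists_right_inv
    refine ⟨!![v 0, 0; v 1, u], by rw [det_fin_two_of, e]; ring, funext fun i => ?_⟩
    fin_cases i <;> simp [mulVec, dotProduct]
  by_cases h1 : IsUnit (v 1)
  · obtain ⟨u, e⟩ := h1.exists_right_inv
    refine ⟨!![v 0, -u; v 1, 0], by rw [det_fin_two_of]; linear_combination e, funext fun i => ?_⟩
    fin_cases i <;> simp [mulVec, dotProduct]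
  rw [tm_unit] at h0 h1
  exact absurd (funext (Fin.forall_fin_two.2
    ⟨(tm_cases _).resolve_right h0, (tm_cases _).resolve_right h1⟩)) h

theorem tah_red (m : ℕ) (A : M2) (v : Fin 2 → ℤ_[2]) :
    (mred m A *ᵥ fun i => PadicInt.toZModPow m (v i)) = fun i => PadicInt.toZModPow m ((A *ᵥ v) i) :=
  funext fun i => by simp [mulVec, dotProduct, mred_apply]

/-- A matrix that fixes the first column of `B`. -/
theorem tah_uni {A B : M2} (hB : IsUnit B.det) (hA : A.det = 1)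
    (h : A *ᵥ B *ᵥ ![1, 0] = B *ᵥ ![1, 0]) : ∃ c, A * B = B * !![1, c; 0, 1] := by
  obtain ⟨⟨B, C, h1, h2⟩, rfl⟩ := (isUnit_iff_isUnit_det B).2 hB
  simp only at h ⊢
  have k1 : A * B = B * (C * A * B) := by rw [← mul_assoc, ← mul_assoc, h1, one_mul]
  have k2 : (C * A * B) *ᵥ ![1, 0] = ![1, 0] := by
    rw [← mulVec_mulVec, ← mulVec_mulVec, h, mulVec_mulVec, h2, one_mulVec]
  have k3 : (C * A * B).det = 1 := by
    rw [det_mul, det_mul, hA, mul_one, ← det_mul, h2, det_one]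
  generalize C * A * B = M at k1 k2 k3
  have m0 : M 0 0 = 1 := by simpa [mulVec, dotProduct] using congrFun k2 0
  have m1 : M 1 0 = 0 := by simpa [mulVec, dotProduct] using congrFun k2 1
  rw [det_fin_two, m0, m1, one_mul, mul_zero, sub_zero] at k3
  exact ⟨M 0 1, by rw [k1, eta_fin_two M, m0, m1, k3]; rfl⟩

theorem tah_mod2 {A B : M2} {c : ℤ_[2]} (hB : IsUnit B.det) (h : A * B = B * !![1, c; 0, 1])
    (hc : ¬ IsUnit c) : mred 1 A = 1 := by
  obtain ⟨⟨B, C, h1, h2⟩, rfl⟩ := (isUnit_iff_isUnit_det B).2 hB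
  simp only at h
  have k : mred 1 !![1, c; 0, 1] = 1 := by
    ext i j
    fin_cases i <;> fin_cases j <;> simp [mred_apply, (tm_cases _).resolve_right (mt tm_unit.2 hc)]
  rw [← mul_one A, ← h1, ← mul_assoc, h, mred_mul, mred_mul, k, mul_one, ← mred_mul, h1, mred_one]

variable [Cs] {w : Plc} {a b c : Qbar}

/-- The inertia group fixes a primitive vector of the Tate module. -/
theorem TB.exists_vec (T : TB) (hw : w.p ∣ NN) {P : EE} (h2 : 2 • P = 0)
    (hP : ∀ σ ∈ Ine w, σ • P = P) : ∃ v : Fin 2 → ℤ_[2],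
      (T.emb 1 fun i => PadicInt.toZModPow 1 (v i)) = P ∧ ∀ σ ∈ Ine w, T.ρ σ *ᵥ v = v := by
  choose! f f1 f2 using div_ine hw
  have r1 : ∀ m, ∀ σ ∈ Ine w, σ • f^[m] P = f^[m] P := fun m => by
    induction m with
    | zero => exact hP
    | succ m ih => rw [Function.iterate_succ_apply']; exact f1 _ ih
  have r2 : ∀ m k, 2 ^ k • f^[m + k] P = f^[m] P := fun m k => by
    induction k with
    | zero => simp
    | succ k ih => rw [← add_assoc, Function.iterate_succ_apply', pow_succ, mul_smul, f2 _ (r1 _), ih]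
  choose x hx using fun m => T.surj m (2 • f^[m] P) (by
    have := r2 0 m
    rw [zero_add] at this
    rw [smul_comm, this]
    exact h2)
  choose v hv using fun i : Fin 2 => exists_lim (fun m => x m i) fun m k =>
    congrFun (T.inj m ((T.two m k (x (m + k))).symm.trans (by
      rw [hx, hx m, smul_comm, r2]))) i
  have e : ∀ m, (fun i => PadicInt.toZModPow m (v i)) = x m := fun m => funext fun i => hv i m
  refine ⟨v, by rw [e, hx]; exact f2 P hP, fun σ hσ => funext fun i =>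
    PadicInt.ext_of_toZModPow.1 fun m => congrFun (?_ : (fun i => PadicInt.toZModPow m
      ((T.ρ σ *ᵥ v) i)) = fun i => PadicInt.toZModPow m (v i)) i⟩
  rw [← tah_red, e]
  exact T.inj m (by rw [← T.smul, hx, smul_comm, r1 m σ hσ])

theorem TB.gen_ne (T : TB) (hw : w.p ∣ NN) {τ : Gam} (hτ : Gen w τ) : mred 1 (T.ρ τ) ≠ 1 :=
  fun k => absurd ((T.chi_one k).symm.trans ((chi_Δ_ine hw hτ.1).trans hτ.2)) (by decide)

theorem TB.exists_fix (T : TB) (hw : w.p ∣ NN) : ∃ v : Fin 2 → ℤ_[2],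
    (fun i => PadicInt.toZModPow 1 (v i)) ≠ 0 ∧ ∀ σ ∈ Ine w, T.ρ σ *ᵥ v = v := by
  obtain ⟨a, b, c, h⟩ := exists_bad hw
  have ha := h.root.2 (.inl rfl)
  obtain ⟨v, h1, h2⟩ := T.exists_vec hw (two_tp a ha) fun σ hσ =>
    (two_fix σ (two_tp a ha)).2 (h.act hσ.1).1
  exact ⟨v, fun k => tp_ne a ha (by rw [← h1, k, map_zero]), h2⟩

theorem TB.mult (T : TB) (w : Plc) (hw : w.p ∣ NN) :
    ∃ (B : M2) (s : ℤ), (s = 1 ∨ s = -1) ∧ B.det = 1 ∧
    (∀ σ ∈ Ine w, ∃ c, T.ρ σ * B = B * !![1, c; 0, 1] ∧ (Gen w σ → IsUnit c)) ∧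
    ∀ φ, IsFrob w w.p φ → ∃ b, T.ρ φ * B = B * !![(s : ℤ_[2]) * w.p, b; 0, s] := by
  have h2 := ne_two_of_dvd hw
  obtain ⟨v, v0, hv⟩ := T.exists_fix hw
  obtain ⟨B, dB, rfl⟩ := tah_basis v0
  have uB : IsUnit B.det := dB ▸ isUnit_one
  have hI : ∀ σ ∈ Ine w, ∃ c, T.ρ σ * B = B * !![1, c; 0, 1] ∧ (Gen w σ → IsUnit c) :=
    fun σ hσ => by
      obtain ⟨c, hc⟩ := tah_uni uB ((T.det σ).trans (cyc_ine h2 hσ)) (hv σ hσ)
      exact ⟨c, hc, fun hg => by_contra fun k => T.gen_ne hw hg (tah_mod2 uB hc k)⟩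
  obtain ⟨h1, h3⟩ := tm_inv_mat dB
  generalize B.adjugate = B' at h1 h3
  have k1 : ∀ A : M2, A * B = B * (B' * A * B) := fun A => by
    rw [← mul_assoc, ← mul_assoc, h1, one_mul]
  have k0 : ∀ {X Y : M2}, B * X = B * Y → X = Y := fun {X Y} e => by
    rw [← one_mul X, ← h3, mul_assoc, e, ← mul_assoc, h3, one_mul]
  obtain ⟨τ, hτ⟩ := exists_gen h2
  obtain ⟨c, hX, hc⟩ := hI τ hτ.1
  replace hc := (hc hτ).ne_zero
  have hfr : ∀ φ, IsFrob w w.p φ → T.ρ φ * T.ρ τ = T.ρ τ ^ w.p * T.ρ φ := fun φ hφ => by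
    have e : T.ρ (φ * τ * φ⁻¹) = T.ρ (τ ^ w.p) := mred_ext fun k => tm_eq (by
      rw [map_pow]
      refine tame_frob (H := ⊤) h2 ?_ (fun g _ h _ => map_mul _ g h) (fun g hg => ⟨k, ?_⟩)
        isOpen_univ hφ ⟨trivial, hτ.1⟩ trivial
      · obtain ⟨U, u1, u2, u3⟩ := T.sm k
        exact ⟨U, u1, u2, fun g _ h _ e => Units.ext (u3 g trivial h trivial e)⟩
      · obtain ⟨d, hd, -⟩ := hI g hg.2
        rw [← map_pow]
        refine Units.ext (Eq.trans ?_ (mred_one k))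
        show mred k (T.ρ (g ^ 2 ^ k)) = _
        rw [map_pow, ← mul_one (T.ρ g ^ _), ← h1, ← mul_assoc, tm_conj_pow hd, tm_upow, mred_mul,
          mred_mul, mred_mul]
        congr 1
        refine (congrArg _ ?_).trans (mul_one _)
        ext i j
        fin_cases i <;> fin_cases j <;> simp [mred_apply]
        rw [show (PadicInt.toZModPow k (2 : ℤ_[2])) = 2 from map_ofNat _ 2,
          show (2 : ZMod (2 ^ k)) ^ k = 0 by exact_mod_cast ZMod.natCast_self (2 ^ k), zero_mul])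
    rw [← map_pow, ← e, ← map_mul, ← map_mul, inv_mul_cancel_right]
  have hF : ∀ φ, IsFrob w w.p φ → ∃ (ε : ℤ) (b : ℤ_[2]), (ε = 1 ∨ ε = -1) ∧
      T.ρ φ * B = B * !![(ε : ℤ_[2]) * w.p, b; 0, ε] := fun φ hφ => by
    have k2 := k1 (T.ρ φ)
    generalize B' * T.ρ φ * B = M at k2
    have k3 : M * !![1, c; 0, 1] = !![1, w.p * c; 0, 1] * M := k0 (by
      rw [← mul_assoc, ← k2, mul_assoc, ← hX, ← mul_assoc, hfr φ hφ, mul_assoc, k2, ← mul_assoc,
        tm_conj_pow hX, tm_upow, mul_assoc])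
    have k4 : M.det = w.p := by
      have k5 := congrArg Matrix.det k2
      rw [det_mul, det_mul, dB, mul_one, one_mul, T.det, cyc_frob h2 hφ] at k5
      exact k5.symm
    obtain ⟨x, y, z, t, rfl⟩ : ∃ x y z t, M = !![x, y; z, t] := ⟨_, _, _, _, eta_fin_two M⟩
    have k6 := congrFun (congrFun k3 1) 1
    have k7 := congrFun (congrFun k3 0) 1
    rw [det_fin_two_of] at k4
    simp only [mul_fin_two, of_apply, cons_val', cons_val_one, cons_val_zero,
      cons_val_fin_one] at k6 k7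
    obtain rfl : z = 0 := mul_left_cancel₀ hc (by linear_combination k6)
    obtain rfl : x = w.p * t := mul_left_cancel₀ hc (by linear_combination k7)
    rcases mul_self_eq_one_iff.1 (mul_left_cancel₀ (Nat.cast_ne_zero.2 w.prime.ne_zero)
      (show (w.p : ℤ_[2]) * (t * t) = w.p * 1 by linear_combination k4)) with rfl | rfl
    · exact ⟨1, y, .inl rfl, by simpa using k2⟩
    · exact ⟨-1, y, .inr rfl, by simpa using k2⟩
  obtain ⟨φ₀, hφ₀⟩ := exists_frob w
  obtain ⟨ε, b, e1, e2⟩ := hF φ₀ hφ₀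
  refine ⟨B, ε, e1, dB, hI, fun φ hφ => ?_⟩
  obtain ⟨c', hc', -⟩ := hI _ (hφ₀.inv_mul_mem hφ)
  refine ⟨ε * w.p * c' + b, ?_⟩
  rw [← mul_inv_cancel_left φ₀ φ, map_mul, mul_assoc, hc', ← mul_assoc, e2, mul_assoc]
  congr 1
  ext i k
  fin_cases i <;> fin_cases k <;> simp

end Pool.Agent.B6
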