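import Pool.Agent.Lib.MP_696deb_nt.B2.TW5
import Pool.Agent.Lib.MP_696deb_nt.B6.LKc
import Pool.Agent.Lib.MP_696deb_nt.B6.LB
import Pool.Agent.Lib.MP_696deb_nt.B6.GWi

/-! The twisted action on torsion points, corestriction, and counting lemmas. -/

set_option autoImplicit false

open scoped NNReal Classical
open Finset Matrix

namespace Pool.Agent.B6

open Pool.Agent.Lib.MP_696deb_nt Pool.Agent.Lib.MP_696deb_nt.B2
open Pool.Agent.Lib.MP_696deb_nt.B6 (Act0 sg)

theorem tg_cor {M : Type} [AddCommGroup M] {a : Gam → M →+ M} {c : Gam → M} {n : ℕ} {τ : Gam}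
    (ha : Act0 ⊤ a) (h : Coc (GK n) a c) (hτ : τ ∉ GK n) : Coc ⊤ a (cor n τ a c) := by
  have i : τ⁻¹ ∉ GK n := fun k => hτ (inv_mem_iff.1 k)
  refine ⟨?_, fun g _ u _ => ?_⟩
  · obtain ⟨U, u1, u2, u3⟩ := h.1
    have := normal_GK n
    refine ⟨U ⊓ GK n, u1.inf (op_GK n), inferInstance, fun g _ u _ e => ?_⟩
    have e1 : (g * τ)⁻¹ * (u * τ) ∈ U := by simpa [mul_assoc] using u2.conj_mem _ e.1 τ⁻¹
    have e2 : g ∈ GK n ↔ u ∈ GK n := by
      simpa using (mul_mem_cancel_right (H := GK n) (x := g⁻¹ * u) (y := g) e.2).symm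
    by_cases hg : g ∈ GK n
    · have hu := e2.1 hg
      rw [cor_of_mem hg, cor_of_mem hu, u3 g hg u hu e.1,
        u3 _ (conj_GK hg τ) _ (conj_GK hu τ) (by simpa [mul_assoc] using e1)]
    · have hu := mt e2.2 hg
      rw [cor_of_notMem hg, cor_of_notMem hu, u3 _ (mul_mem_GK hg hτ) _ (mul_mem_GK hu hτ) e1,
        u3 _ (mul_mem_GK i hg) _ (mul_mem_GK i hu) (by simpa [mul_assoc] using e.1)]
  have K : ∀ r s t, r⁻¹ * g * s ∈ GK n → s⁻¹ * u * t ∈ GK n → a r (c (r⁻¹ * (g * u) * t)) =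
      a r (c (r⁻¹ * g * s)) + a g (a s (c (s⁻¹ * u * t))) := fun r s t h1 h2 => by
    rw [show r⁻¹ * (g * u) * t = r⁻¹ * g * s * (s⁻¹ * u * t) by group, h.2 _ h1 _ h2, map_add,
      ← ha.mul _ trivial _ trivial, ← ha.mul _ trivial _ trivial,
      show r * (r⁻¹ * g * s) = g * s by group]
  by_cases hg : g ∈ GK n <;> by_cases hu : u ∈ GK n
  · rw [cor_of_mem hg, cor_of_mem hu, cor_of_mem (mul_mem hg hu), h.2 g hg u hu,
      K τ τ τ (conj_GK hg τ) (conj_GK hu τ), map_add]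
    abel
  · have k := K τ τ 1 (conj_GK hg τ) (by simpa using mul_mem_GK i hu)
    rw [mul_one, mul_one] at k
    rw [cor_of_mem hg, cor_of_notMem hu, cor_of_notMem (mt (mul_mem_cancel_left hg).1 hu),
      mul_assoc, h.2 g hg _ (mul_mem_GK hu hτ), k, map_add]
    abel
  · have k := K 1 τ τ (by simpa using mul_mem_GK hg hτ) (conj_GK hu τ)
    simp only [inv_one, one_mul, ha.one] at k
    rw [cor_of_notMem hg, cor_of_mem hu, cor_of_notMem (mt (mul_mem_cancel_right hu).1 hg), k,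
      ← mul_assoc, h.2 _ (mul_mem_GK i hg) u hu, map_add, map_add, ← ha.mul τ trivial _ trivial,
      mul_inv_cancel_left]
    abel
  · have k := K 1 τ 1 (by simpa using mul_mem_GK hg hτ) (by simpa using mul_mem_GK i hu)
    have k' := K τ 1 τ (by simpa using mul_mem_GK i hg) (by simpa using mul_mem_GK hu hτ)
    simp only [inv_one, one_mul, mul_one, ha.one] at k k'
    rw [cor_of_notMem hg, cor_of_notMem hu, cor_of_mem (mul_mem_GK hg hu), k, k', map_add]
    abel

theorem tg_finite {X A : Type*} {P : A → Prop} {N : ℕ}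
    (h : ∀ s : Finset A, (∀ x ∈ s, P x) → s.card ≤ N) {f : X → A} (hf : Function.Injective f)
    (k : ∀ x, P (f x)) : Finite X := by
  by_contra! e
  obtain ⟨s, hs⟩ := Infinite.exists_subset_card_eq X (N + 1)
  have := h (s.image f) (forall_mem_image.2 fun x _ => k x)
  rw [card_image_of_injective _ hf] at this
  omega

variable [Md]

/-- The twisted action in coordinates. -/
noncomputable def tv (T : Tate) (d : ℤ) (m : ℕ) (g : Gam) : Vm m →+ Vm m :=
  (Matrix.mulVecLin ((chi d g : ℤ) • mred m (T.ρ g))).toAddMonoidHom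

variable {T : Tate} {d e : ℤ} {m n : ℕ} {g τ : Gam}

theorem tv_apply (x : Vm m) : tv T d m g x = (chi d g : ℤ) • (mred m (T.ρ g) *ᵥ x) :=
  smul_mulVec (chi d g : ℤ) (mred m (T.ρ g)) x

theorem emb_tv (x : Vm m) : T.emb m (tv T d m g x) = tw d g (T.emb m x) := by
  rw [tv_apply, map_zsmul, tw, T.smul]

theorem emb_kill (T : Tate) (x : Vm m) : 2 ^ m • T.emb m x = 0 := by
  rw [← map_nsmul, Vm_kill, map_zero]

theorem tv_congr (h : chi e g = chi d g) : tv T e m g = tv T d m g := by rw [tv, tv, h]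

theorem act_tv (T : Tate) (d : ℤ) (m : ℕ) (D : Subgroup Gam) : Act0 D (tv T d m) where
  sm := (sm_chi d).comp₂ ((T.sm m).mono le_top) fun e A =>
    (Matrix.mulVecLin ((e : ℤ) • A)).toAddMonoidHom
  one x := T.inj m (by rw [emb_tv, lk_tw_one])
  mul g _ h _ x := T.inj m (by rw [emb_tv, emb_tv, emb_tv, lk_tw_mul])

omit [Md] in
theorem tg_odd {A : Type*} [AddCommGroup A] {u : ℤ} (hu : Odd u) {P : A} (h : 2 • P = 0) :
    u • P = P := by
  obtain ⟨k, rfl⟩ := hu
  rw [add_smul, one_smul, mul_comm, mul_smul, ofNat_zsmul, h, smul_zero, zero_add]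

omit [Md] in
theorem tg_odd_unit (u : ℤˣ) : Odd (u : ℤ) := by
  rcases Int.units_eq_one_or u with rfl | rfl <;> decide

/-- Elements of order three modulo two have no eigenvector. -/
theorem tv_eig (h3 : T.O3 g) {u : ℤ} (hu : Odd u) {v : Vm m} (h : tv T d m g v = u • v) :
    v = 0 := by
  have key : ∀ (k : ℕ) (P : EE), 2 ^ k • P = 0 → tw d g P = u • P → P = 0 := fun k => by
    induction k with
    | zero => exact fun P h _ => by simpa using h
    | succ k ih =>
      intro P h1 h2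
      have h4 := ih (2 • P) (by rw [smul_smul, ← pow_succ, h1])
        (by rw [← lkT_apply, map_nsmul, lkT_apply, h2, smul_comm])
      obtain ⟨x, rfl⟩ := T.surj 1 P h4
      rw [tg_odd hu h4, tw, T.smul, tg_odd (tg_odd_unit _) (emb_kill (m := 1) T _)] at h2
      rw [B6.N2.fpf _ (T.sig g⁻¹) (by rw [← map_mul, mul_inv_cancel, map_one]) h3 x (T.inj 1 h2),
        map_zero]
  exact T.inj m ((key m _ (emb_kill T v) (by rw [← emb_tv, h, map_zsmul])).trans (map_zero _).symm)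

/-- The inertia groups at odd places act through two-groups. -/
theorem ta_tv (T : Tate) (d : ℤ) (m : ℕ) {H : Subgroup Gam} {w : Plc} {q : ℕ} {φ : Gam}
    (t : Tm H w q φ τ) : TA H w q φ τ (tv T d m) := by
  refine ⟨t, act_tv T d m _, fun σ hσ => ⟨m + 1, fun x => ?_⟩, m, Vm_kill⟩
  have h1 : (T.ρ σ - 1) * (T.ρ σ - 1) = 0 := by
    by_cases hw : w.p ∣ NN
    · exact T.unip hw hσ
    · rw [T.unr w (fun k => ((dvd_two_NN w.prime).1 k).elim t.odd hw) σ hσ, sub_self, mul_zero]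
  have h2 : ∀ k : ℕ, T.ρ σ ^ k = 1 + k • (T.ρ σ - 1) := fun k => by
    induction k with
    | zero => simp
    | succ k ih =>
      rw [pow_succ, ih, succ_nsmul, ← sub_add_cancel (T.ρ σ) 1, add_sub_cancel_right, mul_add,
        add_mul, smul_mul_assoc, h1, smul_zero, one_mul, mul_one]
      abel
  rw [tv_apply, map_pow, map_pow, pow_succ' 2, pow_mul, Int.units_sq, one_pow, h2, Units.val_one,
    one_smul, show ∀ A, mred m A = (PadicInt.toZModPow m).mapMatrix A from fun _ => rfl, map_add,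
    map_one, map_nsmul, add_mulVec, one_mulVec, smul_mulVec, mul_nsmul', Vm_kill, smul_zero,
    add_zero]

/-- Cochains that are coboundaries for the twisted action on all points. -/
def LTv (T : Tate) (d : ℤ) (m : ℕ) (D : Subgroup Gam) (x : Gam → Vm m) : Prop :=
  ∃ S : EE, ∀ g ∈ D, T.emb m (x g) = tw d g S - S

variable {D : Subgroup Gam} {x : Gam → Vm m}

theorem lt_cob {y : Vm m} (h : ∀ g ∈ D, x g = cob (tv T d m) y g) : LTv T d m D x :=
  ⟨T.emb m y, fun g hg => by rw [h g hg, cob, map_sub, emb_tv]⟩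

theorem LTv.nsmul (h : LTv T d m D x) (k : ℕ) : LTv T d m D (k • x) := by
  obtain ⟨S, h⟩ := h
  refine ⟨k • S, fun g hg => ?_⟩
  rw [Pi.smul_apply, map_nsmul, h g hg, smul_sub, ← lkT_apply, ← map_nsmul, lkT_apply]

theorem lt_cor (he : ∀ g ∈ GK n, chi e g = chi d g) (h : ∀ w : Plc, LTv T d m (GK n ⊓ Dec w) x)
    (w : Plc) (τ : Gam) : LTv T e m (GK n ⊓ Dec w) (cor n τ (tv T e m) x) := by
  obtain ⟨S, hS⟩ := h w
  obtain ⟨S', hS'⟩ := h (τ⁻¹ • w)
  have k : ∀ g ∈ GK n, ∀ P, tw d g P = lkT e g P := fun g hg P => by rw [lkT_apply, tw, tw, he g hg]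
  refine ⟨S + tw e τ S', fun g hg => ?_⟩
  rw [cor_of_mem hg.1, map_add, emb_tv, hS g hg, hS' _ ⟨conj_GK hg.1 τ, mem_Dec_smul.2 (by
    simpa [mul_assoc] using hg.2)⟩, k g hg.1, k _ (conj_GK hg.1 τ)]
  simp only [← lkT_apply, map_sub, map_add]
  simp only [lkT_apply, ← lk_tw_mul, show τ * (τ⁻¹ * g * τ) = g * τ by group]
  abel

theorem lt_double (h : Coc D (tv T d m) x) (k : LTv T d m (GK n ⊓ D) x) : LTv T d m D (2 • x) := by
  obtain ⟨S, k⟩ := k
  obtain ⟨η, hη⟩ : ∃ η : Gam → EE, ∀ g, T.emb m (x g) = η g + (lkT d g S - S) :=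
    ⟨fun g => T.emb m (x g) - (lkT d g S - S), fun g => (sub_add_cancel _ _).symm⟩
  have e0 : ∀ g ∈ GK n ⊓ D, η g = 0 := fun g hg => by
    have := hη g
    rwa [k g hg, lkT_apply, right_eq_add] at this
  have e1 : ∀ g ∈ D, ∀ u ∈ D, η (g * u) = η g + lkT d g (η u) := fun g hg u hu => by
    have := congrArg (T.emb m) (h.2 g hg u hu)
    rw [map_add, emb_tv, hη, hη, hη, lkT_apply (g * u), lk_tw_mul] at this
    simp only [← lkT_apply, map_add, map_sub] at this
    linear_combination (norm := abel1) this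
  by_cases hD : ∃ t ∈ D, t ∉ GK n
  · obtain ⟨t, t1, t2⟩ := hD
    have e2 : ∀ g ∈ D, g ∉ GK n → η g = η t := fun g hg h' => by
      have i : t⁻¹ * g ∈ GK n ⊓ D :=
        ⟨mul_mem_GK (fun k => t2 (inv_mem_iff.1 k)) h', D.mul_mem (inv_mem t1) hg⟩
      have := e1 t t1 _ i.2
      rwa [mul_inv_cancel_left, e0 _ i, map_zero, add_zero] at this
    refine ⟨2 • S - η t, fun g hg => ?_⟩
    have e3 := e1 g hg t t1
    rw [Pi.smul_apply, map_nsmul, hη, ← lkT_apply, map_sub, map_nsmul]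
    by_cases h' : g ∈ GK n
    · rw [e2 _ (mul_mem hg t1) (mt (mul_mem_cancel_left h').1 t2), e0 g ⟨h', hg⟩] at e3
      rw [e0 g ⟨h', hg⟩]
      linear_combination (norm := abel1) -e3
    · rw [e0 _ ⟨mul_mem_GK h' t2, mul_mem hg t1⟩, e2 g hg h'] at e3
      rw [e2 g hg h']
      linear_combination (norm := abel1) -e3
  · refine ⟨2 • S, fun g hg => ?_⟩
    rw [Pi.smul_apply, map_nsmul, k g ⟨by_contra fun h' => hD ⟨g, hg, h'⟩, hg⟩, smul_sub,
      ← lkT_apply, ← map_nsmul, lkT_apply]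

/-- A cocycle over the quadratic field that is locally trivial gives a Selmer cocycle. -/
theorem hSel_of (he : ∀ g ∈ GK n, chi e g = chi d g) (h : Coc (GK n) (tv T d m) x)
    (k : ∀ w : Plc, LTv T d m (GK n ⊓ Dec w) x) (hτ : τ ∉ GK n) :
    hSel e fun g => T.emb m ((2 • cor n τ (tv T e m) x) g) := by
  have h1 := tg_cor (act_tv T e m ⊤) (c := x)
    ⟨h.1, fun g hg u hu => by rw [tv_congr (he g hg), h.2 g hg u hu]⟩ hτ
  refine ⟨(Coc.nsmul h1 2).1.comp (T.emb m), fun g u => by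
    rw [(Coc.nsmul h1 2).2 g trivial u trivial, map_add, emb_tv],
    fun w => lt_double (h1.lo_mono le_top) (lt_cor he k w τ), -T.emb m (cor n τ (tv T e m) x cc), ?_⟩
  have := congrArg (T.emb m) (h1.2 cc trivial cc trivial)
  rw [cc_mul_cc, lf_one (act_tv T e m ⊤) h1, map_zero, map_add, emb_tv] at this
  rw [Pi.smul_apply, map_nsmul, ← lkT_apply, map_neg, lkT_apply]
  linear_combination (norm := abel1) -this

omit [Md] in
theorem hSel.add [Cw] {ξ η : Gam → EE} (h : hSel d ξ) (k : hSel d η) : hSel d (ξ + η) where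
  sm := h.sm.comp₂ k.sm (· + ·)
  coc g u := by
    simp only [Pi.add_apply, h.coc, k.coc, ← lkT_apply, map_add]
    abel
  loc w := by
    obtain ⟨S, hS⟩ := h.loc w
    obtain ⟨S', hS'⟩ := k.loc w
    refine ⟨S + S', fun g hg => ?_⟩
    simp only [Pi.add_apply, hS g hg, hS' g hg, ← lkT_apply, map_add]
    abel
  inf := by
    obtain ⟨S, hS⟩ := h.inf
    obtain ⟨S', hS'⟩ := k.inf
    refine ⟨S + S', ?_⟩
    simp only [Pi.add_apply, hS, hS', ← lkT_apply, map_add]
    abel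

/-- The number of Selmer cocycles that vanish at an element of order three modulo two. -/
theorem cork_zero (T : Tate) (h : Cork d) : ∃ C : ℕ, ∀ (j : ℕ) (g : Gam), T.O3 g →
    ∀ s : Finset (Gam → EE), (∀ ξ ∈ s, hSel d ξ ∧ (∀ g, 2 ^ j • ξ g = 0) ∧ ξ g = 0) →
      s.card ≤ C * 2 ^ j := by
  obtain ⟨C, hC⟩ := h
  refine ⟨C, fun j g hg s hs => ?_⟩
  have h2 := hC j ((s ×ˢ univ).image fun z : (Gam → EE) × Vm j => z.1 + lkC d (T.emb j z.2))
    fun ξ hξ => by
      obtain ⟨z, hz, rfl⟩ := mem_image.1 hξ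
      obtain ⟨k1, k2, -⟩ := hs _ (mem_product.1 hz).1
      refine ⟨k1.add (lkC_sel _), fun u => ?_⟩
      rw [Pi.add_apply, smul_add, k2, lkC_kill fun v => ?_, add_zero]
      rw [emb_kill, ← lkT_apply, map_zero]
  rw [card_image_of_injOn fun z hz y hy e => ?_, card_product, card_univ, card_Vm,
    show 8 = 2 * 4 from rfl, mul_pow, ← mul_assoc] at h2
  · exact Nat.le_of_mul_le_mul_right h2 (by positivity)
  have e1 : z.2 = y.2 := sub_eq_zero.1 (tv_eig (d := d) hg odd_one (T.inj j (by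
    have := congrFun e g
    simp only [Pi.add_apply, lkC, (hs _ (mem_product.1 hz).1).2.2,
      (hs _ (mem_product.1 hy).1).2.2] at this
    rw [emb_tv, ← lkT_apply, one_smul, map_sub, map_sub]
    linear_combination (norm := abel1) this)))
  exact Prod.ext (by simpa only [e1, add_left_inj] using e) e1

/-- The number of cocycles that are killed by a power of two. -/
theorem card_two (T : Tate) (n : ℕ) (s : Finset Plc) : ∃ K : ℕ, ∀ (d : ℤ) (m b : ℕ)
    (t : Finset (Gam → Vm m)), (∀ x ∈ t, x ∈ Zu (GK n) (tv T d m) s ∧ 2 ^ b • x = 0) →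
      t.card ≤ K ^ b := by
  have := B6.finite_Zu3 (op_GK n) (B6.dual3_W (sig := T.sig) (T.sm 1) 0 (GK n)) s
  refine ⟨Nat.card (Zu (GK n) (sg T.sig) s), fun d m => card_tors _ fun t h => ?_⟩
  have k0 : ∀ x ∈ t, ∀ g, 2 ^ 1 • T.emb m (x g) = 0 := fun x hx g => by
    rw [← map_nsmul, pow_one, ← Pi.smul_apply, (h x hx).2, Pi.zero_apply, map_zero]
  have k1 : ∀ v : Vm m, ∃ y : Vm 1, 2 ^ 1 • T.emb m v = 0 → T.emb 1 y = T.emb m v := fun v => by
    by_cases k : 2 ^ 1 • T.emb m v = 0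
    · exact (T.surj 1 _ k).imp fun _ e _ => e
    · exact ⟨0, fun e => absurd e k⟩
  choose f hf using k1
  have f0 : f 0 = 0 := T.inj 1 (by rw [hf 0 (by simp), map_zero, map_zero])
  have k2 : ∀ x ∈ t, (fun g => f (x g)) ∈ Zu (GK n) (sg T.sig) s := fun x hx => by
    obtain ⟨⟨⟨a1, a2⟩, a3⟩, a4⟩ := (h x hx).1
    refine ⟨⟨⟨a1.comp f, fun g hg u hu => T.inj 1 ?_⟩, fun g hg => ?_⟩, fun w hw σ hσ => ?_⟩
    · rw [map_add, hf _ (k0 x hx _), hf _ (k0 x hx _), a2 g hg u hu, map_add, emb_tv,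
        ← hf _ (k0 x hx u), tw, T.smul, tg_odd (tg_odd_unit _) (emb_kill (m := 1) T _)]
      rfl
    · simp only [a3 g hg, f0]
    · simp only [a4 w hw σ hσ, f0]
  rw [← Nat.card_eq_finsetCard]
  refine Nat.card_le_card_of_injective (β := Zu (GK n) (sg T.sig) s)
    (fun x => ⟨_, k2 x.1 x.2⟩) fun x y e => Subtype.ext (funext fun g => T.inj m ?_)
  rw [← hf _ (k0 _ x.2 g), ← hf _ (k0 _ y.2 g)]
  exact congrArg _ (congrFun (congrArg Subtype.val e) g)

end Pool.Agent.B6
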