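import Pool.Agent.Lib.MP_696deb_nt.B6.TG0

/-! Local triviality of cocycles with values in torsion points, and the bound for the Selmer group
over the quadratic field. -/

set_option autoImplicit false

open scoped NNReal Classical
open Finset Matrix

namespace Pool.Agent.B6

open Pool.Agent.Lib.MP_696deb_nt Pool.Agent.Lib.MP_696deb_nt.B2

theorem tg_pow (m : ℕ) {N : ℤ} {r : ℕ} (h : N ≠ 0) (hr : N.natAbs ≤ r) :
    ∃ k : ℤ, ∀ z : Vm m, (k * N) • z = 2 ^ r • z := by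
  obtain ⟨v, u, hu, e⟩ := Nat.exists_eq_two_pow_mul_odd (Int.natAbs_ne_zero.2 h)
  obtain ⟨q, hq⟩ := exists_inv_odd m hu
  obtain ⟨t, rfl⟩ := Nat.exists_eq_add_of_le
    (Nat.lt_two_pow_self.le.trans ((Nat.le_mul_of_pos_right _ hu.pos).trans (e ▸ hr)))
  refine ⟨2 ^ t * q.val * N.sign, fun z => funext fun i => ?_⟩
  rw [mul_assoc, Int.sign_mul_self_eq_natAbs, e]
  simp only [Pi.smul_apply, zsmul_eq_mul, nsmul_eq_mul]
  push_cast
  rw [ZMod.natCast_zmod_val]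
  linear_combination 2 ^ (v + t) * z i * hq

variable [Md]

variable {T : Tate} {f d d' e e' : ℤ} {m n : ℕ} {w : Plc} {g τ φ : Gam} {x : Gam → Vm m}
  {D H : Subgroup Gam}

theorem lt_conj (h : Coc H (tv T d m) x) (hn : H.Normal) (k : LTv T d m (H ⊓ Dec w) x) {u : Gam}
    (hu : u ∈ H) : LTv T d m (H ⊓ Dec (u • w)) x := by
  obtain ⟨S, k⟩ := k
  refine ⟨tw d u S - T.emb m (x u), fun g hg => ?_⟩
  have h1 : u⁻¹ * g * u ∈ H := by simpa using hn.conj_mem g hg.1 u⁻¹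
  have h2 := congrArg (T.emb m) ((h.2 g hg.1 u hu).symm.trans
    ((congrArg x (by group)).trans (h.2 u hu _ h1)))
  rw [map_add, map_add, emb_tv, emb_tv, k _ ⟨h1, mem_Dec_smul.1 hg.2⟩, ← lkT_apply u, map_sub,
    lkT_apply, ← lk_tw_mul, show u * (u⁻¹ * g * u) = g * u by group, lk_tw_mul] at h2
  simp only [← lkT_apply, map_sub] at h2 ⊢
  linear_combination (norm := abel1) h2

theorem lt_of_LD (L : LD H w) (h : Coc (H ⊓ Dec w) (tv T d m) x) {S : EE}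
    (e1 : T.emb m (x L.φ) = tw d L.φ S - S)
    (e2 : ∀ σ ∈ H ⊓ Ine w, T.emb m (x σ) = tw d σ S - S) : LTv T d m (H ⊓ Dec w) x := by
  have k1 : ∀ g ∈ H ⊓ Dec w, ∀ u ∈ H ⊓ Dec w, T.emb m (x g) = tw d g S - S →
      T.emb m (x u) = tw d u S - S → T.emb m (x (g * u)) = tw d (g * u) S - S :=
    fun g hg u hu e e' => by
      rw [h.2 g hg u hu, map_add, emb_tv, e, e', lk_tw_mul, ← lkT_apply g (_ - _), map_sub]
      exact sub_add_sub_cancel' _ _ _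
  have k0 : L.φ ∈ H ⊓ Dec w := ⟨L.φ_mem, L.frob.1⟩
  have k2 : ∀ j : ℕ, T.emb m (x (L.φ ^ j)) = tw d (L.φ ^ j) S - S := fun j => by
    induction j with
    | zero => exact e2 _ (pow_zero L.φ ▸ one_mem _)
    | succ j ih => rw [pow_succ]; exact k1 _ (pow_mem k0 j) _ k0 ih e1
  obtain ⟨U, u1, -, u3⟩ := (h.1.comp₂ (sm_chi d) Prod.mk).comp₂ (sm_pt _ S)
    fun z P => T.emb m z.1 - ((z.2 : ℤ) • P - S)
  refine ⟨S, fun g hg => ?_⟩
  obtain ⟨j, σ, hσ, k⟩ := L.gen g hg U u1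
  have k3 : σ ∈ H ⊓ Dec w := ⟨hσ.1, Ine_le w hσ.2⟩
  exact sub_eq_zero.1 ((u3 _ (mul_mem (pow_mem k0 j) k3) g hg k.1).symm.trans
    (sub_eq_zero.2 (k1 _ (pow_mem k0 j) _ k3 (k2 j) (e2 σ hσ))))

/-- A matrix with nonzero determinant acts surjectively on the torsion points. -/
theorem exists_pre (T : Tate) {A : Matrix (Fin 2) (Fin 2) ℤ_[2]} (hA : A.det ≠ 0) (v : Vm m) :
    ∃ (k : ℕ) (y : Vm k), T.emb k (mred k A *ᵥ y) = T.emb m v := by
  obtain ⟨u, N, e⟩ : ∃ (u : ℤ_[2]ˣ) (N : ℕ), A.det = u * 2 ^ N :=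
    ⟨_, _, PadicInt.unitCoeff_spec hA⟩
  refine ⟨m + N, mred _ ((↑u⁻¹ : ℤ_[2]) • A.adjugate) *ᵥ fun i => ((v i).val : ZMod _), ?_⟩
  rw [mulVec_mulVec, ← mred_mul, Matrix.mul_smul, mul_adjugate, smul_smul, e,
    Units.inv_mul_cancel_left]
  refine Eq.trans ?_ ((T.two m N fun i => ((v i).val : ZMod _)).trans (congrArg _ ?_))
  · rw [← map_nsmul]
    refine congrArg _ (funext fun i => ?_)
    fin_cases i <;> simp [mred, mulVec, dotProduct, map_ofNat]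
  · exact funext fun i => by rw [map_natCast, ZMod.natCast_zmod_val]

/-- At a bad place the Frobenius element is a scalar on the invariants of inertia. -/
theorem Tate.tg_line (T : Tate) (hw : w.p ∣ NN) (hτ : Gen w τ) (hφ : IsFrob w w.p φ) :
    ∃ s : ℤ, (s = 1 ∨ s = -1) ∧ ∀ z : Vm m, mred m (T.ρ τ) *ᵥ z = z →
      mred m (T.ρ φ) *ᵥ z = (s * w.p) • z := by
  obtain ⟨B, s, hs, hB, h1, h2⟩ := T.mult w hw
  obtain ⟨c, e1, c1⟩ := h1 τ hτ.1
  obtain ⟨b, e2⟩ := h2 φ hφ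
  refine ⟨s, hs, fun z hz => ?_⟩
  obtain ⟨v, rfl⟩ : ∃ v, z = mred m B *ᵥ v := ⟨mred m B.adjugate *ᵥ z, by
    rw [mulVec_mulVec, ← mred_mul, mul_adjugate, hB, one_smul, mred_one, one_mulVec]⟩
  have h3 := congrArg (mred m B.adjugate *ᵥ ·) hz
  simp only [mulVec_mulVec, ← mred_mul, e1, ← mul_assoc, adjugate_mul, hB, one_smul, one_mul,
    mred_one, one_mulVec] at h3
  have h4 : v 1 = 0 := ((c1 hτ).map (PadicInt.toZModPow m)).mul_right_eq_zero.1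
    (by simpa [mred, mulVec, dotProduct] using congrFun h3 0)
  rw [mulVec_mulVec, ← mred_mul, e2, mred_mul, ← mulVec_mulVec, ← mulVec_smul]
  refine congrArg _ (funext fun i => ?_)
  fin_cases i <;> simp [mred, mulVec, dotProduct, h4]

/-- Two twists that become isomorphic over the quadratic field and ramify there like `f`. -/
structure TwPr (n : ℕ) (f d d' : ℤ) : Prop where
  nok : Nok n
  fok : Fok n f
  m4 : d % 4 = 1
  eq : ∀ g ∈ GK n, chi d' g = chi d g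
  ne : ∀ g ∉ GK n, chi d' g = -chi d g
  ine : ∀ w : Plc, ∀ g ∈ GK n ⊓ Ine w, chi d g = chi f g

theorem twPr (hn : Nok n) (hf : Fok n f) (he : e * e' = -n) (h4 : e % 4 = 1) :
    TwPr n f (f * e) (f * e') := by
  have h1 := hn.m4
  have h2 : e' % 4 = 1 := by
    have := congrArg (· % 4) he
    simp only [Int.mul_emod e, h4, one_mul, Int.emod_emod] at this
    omega
  have e1 := chi_mul hf.ne (show e ≠ 0 by omega)
  have e2 := chi_mul hf.ne (show e' ≠ 0 by omega)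
  have e3 : ∀ g, chi e' g = chi (-n) g * chi e g := fun g => by
    rw [← he, chi_mul (by omega) (by omega), mul_right_comm, Int.units_mul_self, one_mul]
  refine ⟨hn, hf, by rw [Int.mul_emod, hf.m4, h4]; rfl,
    fun g hg => by rw [e1, e2, e3, B4c_mem.1 hg, one_mul],
    fun g hg => by rw [e1, e2, e3, B4c_notMem.1 hg, neg_one_mul, mul_neg], fun w g hg => ?_⟩
  rw [e1, mul_eq_left]
  by_cases h : (w.p : ℤ) ∣ e
  · have := xi_eq_zero.1 (xi_ine h2 (fun k => w.prime.prime.not_isUnit (hn.good.sqf _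
      (by exact_mod_cast dvd_neg.1 (he ▸ mul_dvd_mul h k)))) hg.2)
    rwa [e3, B4c_mem.1 hg.1, one_mul] at this
  · exact xi_eq_zero.1 (xi_ine h4 h hg.2)

theorem TwPr.chi_ine (hc : TwPr n f d d') (hf : ¬ (w.p : ℤ) ∣ f) (hg : g ∈ GK n ⊓ Ine w) :
    chi d g = 1 := (hc.ine w g hg).trans (hc.fok.chi_ine hf hg.2)

theorem TwPr.tv_ine (hc : TwPr n f d d') (hw : ¬ w.p ∣ 2 * NN) (hf : ¬ (w.p : ℤ) ∣ f)
    (hg : g ∈ GK n ⊓ Ine w) (v : Vm m) : tv T d m g v = v := by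
  rw [tv_apply, hc.chi_ine hf hg, T.unr w hw g hg.2, mred_one, one_mulVec, Units.val_one, one_smul]

/-- Unramified cocycles are locally trivial at the good places. -/
theorem TwPr.lt_unr (hc : TwPr n f d d') (hw : ¬ w.p ∣ 2 * NN) (hf : ¬ (w.p : ℤ) ∣ f)
    (h : Coc (GK n ⊓ Dec w) (tv T d m) x) (h0 : ∀ σ ∈ GK n ⊓ Ine w, x σ = 0) :
    LTv T d m (GK n ⊓ Dec w) x := by
  obtain ⟨L⟩ := exists_LD (op_GK n) w
  obtain ⟨k, y, e⟩ := exists_pre T (A := (((chi d L.φ : ℤ) : ℤ_[2]) • T.ρ L.φ - 1)) (by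
    rw [Int.cast_smul_eq_zsmul]
    exact T.hasse w L.φ L.f _ hw L.frob L.f_pos.ne') (x L.φ)
  refine lt_of_LD L h (S := T.emb k y) ?_ fun σ hσ => ?_
  · rw [← e, mred_smul_sub, map_sub, ← tv_apply, emb_tv]
  · rw [h0 σ hσ, map_zero, ← emb_tv, hc.tv_ine hw hf hσ, sub_self]

/-- At the bad places unramified classes are killed by a bounded factor. -/
theorem TwPr.lt_bad (hc : TwPr n f d d') (hw : w.p ∣ NN) (h : Coc (GK n ⊓ Dec w) (tv T d m) x)
    {y : Vm m} (hy : ∀ σ ∈ Ine w, x σ = cob (tv T d m) y σ) :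
    LTv T d m (GK n ⊓ Dec w) (2 ^ (NN + 1) • x) := by
  have hτ := gn_spec (ne_two_of_dvd hw)
  have t := ta_tv T d m (tm_split (op_GK n) (ne_two_of_dvd hw) (hc.nok.split hw) (fr_spec w) hτ)
  have h1 := h.lo_sub (lf_coc_cob t.act y)
  have h2 : ∀ σ ∈ GK n ⊓ Ine w, (x - cob (tv T d m) y) σ = 0 := fun σ hσ =>
    sub_eq_zero.2 (hy σ hσ.2)
  have h3 := lf_fix t.act h1 h2 t.tm.φ_mem ⟨t.tm.τ_mem.1, hτ.1⟩
  obtain ⟨s, hs, h4⟩ := T.tg_line (m := m) hw hτ (fr_spec w)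
  have h5 := h3
  rw [tv_apply, hc.chi_ine (fun k => (hc.fok.spl _ w.prime k).1 hw) ⟨t.tm.τ_mem.1, hτ.1⟩,
    Units.val_one, one_smul] at h5
  have h6 := w.prime.one_lt
  have h7 := Nat.le_of_dvd NN_pos hw
  obtain ⟨k, hk⟩ := tg_pow m (N := chi d (fr w) * (s * w.p) - 1) (r := NN + 1) (by
    rcases Int.units_eq_one_or (chi d (fr w)) with e | e <;> rcases hs with rfl | rfl <;>
      simp only [e, Units.val_one, Units.val_neg] <;> omega) (by
    rcases Int.units_eq_one_or (chi d (fr w)) with e | e <;> rcases hs with rfl | rfl <;>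
      simp only [e, Units.val_one, Units.val_neg] <;> omega)
  refine lt_cob (y := k • (x - cob (tv T d m) y) (fr w) + 2 ^ (NN + 1) • y) fun g hg => ?_
  rw [lf_cob_add, ← t.eq_cob (Coc.nsmul h1 (2 ^ (NN + 1))) ?_ ?_ hg, cob, map_nsmul, ← smul_sub,
    Pi.smul_apply, Pi.smul_apply, ← smul_add, Pi.sub_apply, cob, sub_add_cancel]
  · rw [Pi.smul_apply, h2 _ ⟨t.tm.τ_mem.1, hτ.1⟩, map_zsmul, h3, smul_zero, sub_self]
  · rw [Pi.smul_apply, ← hk, map_zsmul, tv_apply, h4 _ h5]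
    module

/-- At the primes of the twist all classes are killed by two. -/
theorem TwPr.lt_neg (hc : TwPr n f d d') (hw : (w.p : ℤ) ∣ f)
    (h : Coc (GK n ⊓ Dec w) (tv T d m) x) : LTv T d m (GK n ⊓ Dec w) (2 • x) := by
  have w2 := hc.fok.ne_two hw
  have hτ := gn_spec w2
  have t := ta_tv T d m (tm_split (op_GK n) w2 (hc.fok.split hw) (fr_spec w) hτ)
  have h1 : ∀ v, tv T d m (gn w) v = -v := fun v => by
    rw [tv_apply, hc.ine w _ ⟨t.tm.τ_mem.1, hτ.1⟩, hc.fok.chi_gen hw hτ,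
      T.unr w (hc.fok.nd30 w.prime hw) _ hτ.1, mred_one, one_mulVec, Units.val_neg, Units.val_one,
      neg_one_smul]
  have h2 : ∀ j : ℕ, x (gn w ^ (2 * j + 1)) = x (gn w) ∧
      ∀ v, tv T d m (gn w ^ (2 * j + 1)) v = -v := fun j => by
    induction j with
    | zero => exact ⟨rfl, h1⟩
    | succ j ih =>
      have k := pow_mem t.tm.τ_mem (2 * j + 1)
      have k' := mul_mem t.tm.τ_mem k
      rw [show 2 * (j + 1) + 1 = 2 * j + 1 + 1 + 1 by ring, pow_succ' _ (_ + 1 + 1),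
        pow_succ' _ (_ + 1), h.2 _ t.tm.τ_mem _ k', h.2 _ t.tm.τ_mem _ k, ih.1, h1, h1]
      exact ⟨by simp, fun v => by
        rw [t.act.mul _ t.tm.τ_mem _ k', t.act.mul _ t.tm.τ_mem _ k, h1, h1, ih.2, neg_neg]⟩
  obtain ⟨j, hj⟩ := t.tm.odd_q
  have r := t.rel h hτ.1
  rw [hj, (h2 j).1, (h2 j).2] at r
  refine lt_cob (y := -x (gn w)) fun g hg => t.eq_cob (Coc.nsmul h 2) ?_ ?_ hg
  · rw [h1, Pi.smul_apply]
    module
  · rw [map_neg, Pi.smul_apply]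
    linear_combination (norm := module) r

/-- At the inert primes where Frobenius has order three all cocycles are unramified. -/
theorem TwPr.unr_o3 (hc : TwPr n f d d') (hw : Adm n w.p) (hr : ¬ Rt w.p)
    (h : Coc (GK n ⊓ Dec w) (tv T d m) x) (hg : g ∈ Ine w) : x g = 0 := by
  have hτ := gn_spec hw.ne_two
  have t := ta_tv T d m (tm_inert hw.ne_two hw.ine (fr_spec w) (hw.out (fr_spec w)) hτ)
  have k : ∀ σ ∈ Ine w, ∀ v, tv T d m σ v = v := fun σ hσ =>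
    hc.tv_ine hw.nd30 (hw.ndf hc.fok) ⟨hw.ine hσ, hσ⟩
  have r := t.rel h hτ.1
  rw [k _ (pow_mem hτ.1 _), lf_pow_fix t.act h t.tm.τ_mem (k _ hτ.1 _), add_comm,
    add_left_inj, ← natCast_zsmul] at r
  exact t.zero_ine h (tv_eig (T.o3_fq hw.nd30 hr) t.tm.odd_q.natCast r) hg

/-- Selmer cocycles over the quadratic field with values in torsion points. -/
structure KV (T : Tate) (n : ℕ) (f d : ℤ) (m : ℕ) (x : Gam → Vm m) : Prop where
  z : x ∈ Z1 (GK n) (tv T d m)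
  unr : ∀ w : Plc, ¬ w.p ∣ 2 * NN → ¬ (w.p : ℤ) ∣ f → ∀ σ ∈ GK n ⊓ Ine w, x σ = 0
  lur : ∀ w : Plc, w.p ∣ NN → ∃ y, ∀ σ ∈ Ine w, x σ = cob (tv T d m) y σ
  kum : KumP T m (GK n ⊓ Dec w2) x

theorem TwPr.kum_iff (hc : TwPr n f d d') :
    KumP T m (GK n ⊓ Dec w2) x ↔ LTv T d m (GK n ⊓ Dec w2) x :=
  exists_congr fun S => forall₂_congr fun g hg => by
    rw [tw, chi_GK_two hc.m4 hc.nok.m8 w2_p hg, Units.val_one, one_smul]

theorem TwPr.lt (hc : TwPr n f d d') (h : KV T n f d m x) (w : Plc) :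
    LTv T d m (GK n ⊓ Dec w) (2 ^ (NN + 1) • x) := by
  have h1 : Coc (GK n ⊓ Dec w) (tv T d m) x := h.z.1.lo_mono inf_le_left
  by_cases hf : (w.p : ℤ) ∣ f
  · rw [pow_succ, mul_smul]
    exact (hc.lt_neg hf h1).nsmul _
  by_cases hw : w.p ∣ 2 * NN
  · rcases (dvd_two_NN w.prime).1 hw with k | k
    · obtain ⟨u, hu, rfl⟩ := conj_of_inert (k.trans w2_p.symm) (fr_spec w2).1 (hc.nok.out_two w2_p)
      exact (lt_conj h.z.1 (normal_GK n) (hc.kum_iff.1 h.kum) hu).nsmul _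
    · exact (h.lur w k).elim fun _ => hc.lt_bad k h1
  · exact (hc.lt_unr hw hf h1 (h.unr w hw hf)).nsmul _

theorem TwPr.card_KV (hc : TwPr n f d d') (T : Tate) : ∃ K : ℕ, ∀ (m b : ℕ)
    (t : Finset (Gam → Vm m)), (∀ z ∈ t, (∃ x y, KV T n f d m x ∧ KV T n f d m y ∧ z = x - y) ∧
      2 ^ b • z = 0) → t.card ≤ K ^ b := by
  obtain ⟨s, -, -, hs⟩ := exists_reps (op_GK n) ((2 * NN).primeFactors ∪ f.natAbs.primeFactors)
  obtain ⟨K, hK⟩ := card_two T n s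
  have k : ∀ (m : ℕ) (x : Gam → Vm m), KV T n f d m x → x ∈ Zu (GK n) (tv T d m) s :=
    fun m x h => ⟨h.z, fun w hw => h.unr w (fun k => hs w (mem_union_left _ (Nat.mem_primeFactors.2
      ⟨w.prime, k, mul_ne_zero two_ne_zero NN_ne⟩)) hw) fun k => hs w (mem_union_right _
        (Nat.mem_primeFactors.2 ⟨w.prime, Int.natCast_dvd.1 k, Int.natAbs_ne_zero.2 hc.fok.ne⟩)) hw⟩
  refine ⟨K, fun m b t ht => hK d m b t fun z hz => ?_⟩
  obtain ⟨⟨x, y, h1, h2, rfl⟩, h3⟩ := ht z hz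
  exact ⟨sub_mem (k m x h1) (k m y h2), h3⟩

/-- The bound for the Selmer group over the quadratic field. -/
theorem TwPr.cork_link (hc : TwPr n f d d') (T : Tate) (h : Cork d) (h' : Cork d') :
    ∃ C : ℕ, ∀ (j : ℕ) (τ : Gam), τ ∉ GK n → T.O3 (τ * τ) → ∀ s : Finset (Gam → Vm j),
      (∀ x ∈ s, KV T n f d j x ∧ x (τ * τ) = 0) → s.card ≤ C * 4 ^ j := by
  obtain ⟨C, hC⟩ := cork_zero T h
  obtain ⟨C', hC'⟩ := cork_zero T h'
  obtain ⟨K, hK⟩ := hc.card_KV T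
  refine ⟨K ^ (NN + 3) * (C * C'), fun j τ hτ hv s hs => ?_⟩
  obtain ⟨F, hF⟩ : ∃ F : ℤ → (Gam → Vm j) → Gam → EE,
    ∀ e x, F e x = fun g => T.emb j ((2 • cor n τ (tv T e j) (2 ^ (NN + 1) • x)) g) :=
    ⟨_, fun _ _ => rfl⟩
  have k1 : ∀ e, (∀ g ∈ GK n, chi e g = chi d g) → ∀ ξ ∈ s.image (F e),
      hSel e ξ ∧ (∀ g, 2 ^ j • ξ g = 0) ∧ ξ (τ * τ) = 0 := fun e h1 ξ hξ => by
    obtain ⟨x, hx, rfl⟩ := mem_image.1 hξ
    rw [hF]
    refine ⟨hSel_of h1 (Coc.nsmul (hs x hx).1.z.1 _) (hc.lt (hs x hx).1) hτ,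
      fun g => emb_kill T _, ?_⟩
    simp only [Pi.smul_apply, cor_sq hτ (c := 2 ^ (NN + 1) • x)
      (by rw [Pi.smul_apply, (hs x hx).2, smul_zero]), smul_zero, map_zero]
  have k5 : ∀ x g, g ∈ GK n → F d x g + F d' x g = T.emb j (2 ^ (NN + 3) • x g) := fun x g hg => by
    simp only [hF, Pi.smul_apply]
    rw [← map_add, cor_of_mem hg, cor_of_mem hg, tv_apply, tv_apply, hc.ne τ hτ, Units.val_neg,
      Pi.smul_apply]
    exact congrArg _ (by module)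
  have k6 := card_fib (hK j (NN + 3)) s (fun x => (F d x, F d' x))
    fun x hx y hy e => ⟨⟨x, y, (hs x hx).1, (hs y hy).1, rfl⟩, funext fun g => by
      rw [Pi.smul_apply, Pi.sub_apply, smul_sub, Pi.zero_apply, sub_eq_zero]
      by_cases hg : g ∈ GK n
      · refine T.inj j ?_
        rw [← k5 x g hg, ← k5 y g hg, (Prod.mk.inj e).1, (Prod.mk.inj e).2]
      · rw [(hs x hx).1.z.2 g hg, (hs y hy).1.z.2 g hg]⟩
  refine k6.trans ?_
  rw [mul_assoc]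
  refine Nat.mul_le_mul_left _ ((card_le_card (t := s.image (F d) ×ˢ s.image (F d'))
    fun z hz => ?_).trans ?_)
  · simp only [mem_image] at hz
    obtain ⟨x, hx, rfl⟩ := hz
    exact mem_product.2 ⟨mem_image_of_mem _ hx, mem_image_of_mem _ hx⟩
  rw [card_product]
  refine (Nat.mul_le_mul (hC j _ hv _ (k1 d fun _ _ => rfl)) (hC' j _ hv _ (k1 d' hc.eq))).trans
    (le_of_eq ?_)
  rw [show 4 ^ j = 2 ^ j * 2 ^ j from mul_pow 2 2 j]
  ring

end Pool.Agent.B6
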