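import Pool.Agent.Lib.MP_696deb_nt.B6.TWb
import Pool.Agent.Lib.MP_696deb_nt.B2.XTW

/-! The characters of the tower, the group that acts trivially, deep places. -/

set_option autoImplicit false

open scoped NNReal Classical
open Finset Matrix NumberTheorySymbols PowerSeries

namespace Pool.Agent.B6

open Pool.Agent.Lib.MP_696deb_nt Pool.Agent.Lib.MP_696deb_nt.B2 Pool.Agent.Lib.MP_696deb_nt.B6

theorem xtw_sign (u v : ℤˣ) : ((u : ℤ) : Lam) - ((v : ℤ) : Lam) ∈ Ideal.span {(2 : Lam)} := by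
  rw [Ideal.mem_span_singleton]
  rcases Int.units_eq_one_or u with rfl | rfl <;> rcases Int.units_eq_one_or v with rfl | rfl
  exacts [⟨0, by simp⟩, ⟨1, by norm_num⟩, ⟨-1, by norm_num⟩, ⟨0, by simp⟩]

theorem xtw_mul {I : Ideal Lam} {x : Lam} (u : Lam) (h : x - 1 ∈ I) : u * x - u ∈ I :=
  mul_sub_one u x ▸ I.mul_mem_left u h

/-- Odd powers of the generator are generators. -/
theorem xtw_gen {m : ℕ} (hm : Odd m) : ∃ u : Lam, IsUnit u ∧ (1 + X : Lam) ^ m = 1 + u * X := by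
  refine ⟨∑ i ∈ range m, (1 + X) ^ i, ?_, ?_⟩
  · rw [isUnit_iff_constantCoeff, PadicInt.isUnit_iff]
    simpa [map_sum] using PadicInt.norm_natCast_eq_one_iff.2 (Nat.coprime_two_left.2 hm)
  · have := geom_sum_mul (1 + X : Lam) m
    rw [add_sub_cancel_left] at this
    rw [this, add_sub_cancel]

variable [Md]

variable {n k : ℕ} {S : HS n} {T : Tate} {lam w : Plc} {f : ℤ} {Q : Finset Plc} {z g : Gam}

theorem exists_Tw (_hq : QuadStmt) (_ch : ChebStmt) (T : Tate) (hn : Nok n) (hf : Fok n f)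
    (S : HS n) (k : ℕ) : ∃ lam, S.Tw k lam f := by
  obtain ⟨w, φ, z, -, h⟩ := exists_tower T hn hf S (s := 2 * k + 3) (by omega) 0
  exact ⟨w, φ, z, h⟩

theorem HS.Tw.adm (h : S.Tw k lam f) : Adm n lam.p := h.choose_spec.choose_spec.adm

theorem HS.Tw.dvd (h : S.Tw k lam f) : 2 ^ (2 * k + 4) ∣ lam.p + 1 := h.choose_spec.choose_spec.dvd

theorem HS.Tw.nrt (h : S.Tw k lam f) : ¬ Rt lam.p := h.choose_spec.choose_spec.nrt

theorem HS.Tw.odd_al (h : S.Tw k lam f) : Odd (al lam.p) :=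
  Int.not_even_iff_odd.1 (mt (even_al lam.prime h.adm.nd30).1 h.nrt)

theorem HS.Tw.o3 (h : S.Tw k lam f) (T : Tate) (hg : IsFrob lam lam.p g) : T.O3 g :=
  (T.par lam g h.adm.nd30 hg).2 h.nrt

/-- The exponent of a Frobenius element at a prime of the twist is odd. -/
theorem HS.Tw.odd_ex (h : S.Tw k lam f) (hw : (w.p : ℤ) ∣ f) (hg : IsFrob w w.p g) :
    Odd (S.ν lam.p (2 * k + 3) (S.ψ lam.p g)).toAdd.val :=
  h.choose_spec.choose_spec.gf w hw g hg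

/-- The square of the Frobenius element of the tower has no fixed vector. -/
theorem HS.Tw.unit_fq (h : S.Tw k lam f) (T : Tate) : IsUnit (T.ρ (fq lam) - 1).det := by
  have h1 := (T.o3_iff.1 (h.o3 T (fr_spec lam))).sq
  have h2 : ∀ A : B6.M2, Ord3 A → (A - 1) 0 0 * (A - 1) 1 1 - (A - 1) 0 1 * (A - 1) 1 0 ≠ 0 := by
    decide +kernel
  have h3 : T.r2 (fr lam) * T.r2 (fr lam) - 1 = mred 1 (T.ρ (fq lam) - 1) := by
    rw [← map_mul]
    exact ((map_sub (RingHom.mapMatrix (PadicInt.toZModPow (p := 2) 1)) (T.ρ (fq lam)) 1).trans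
      (by rw [map_one]; rfl)).symm
  have h4 := h2 _ h1
  rw [← det_fin_two, h3] at h4
  have h5 := fun e => h4 ((mred_det 1 _).trans e)
  rw [← RingHom.mem_ker, PadicInt.ker_toZModPow, pow_one, ← PadicInt.maximalIdeal_eq_span_p] at h5
  exact IsLocalRing.notMem_maximalIdeal.1 h5

theorem HS.ψ_one (S : HS n) {c : ℕ} (h : Adm n c) : S.ψ c 1 = 1 := by
  simpa using S.mul c h 1 (one_mem _) 1 (one_mem _)

theorem HS.Psi_one (S : HS n) (e : ℤ) : S.Psi k lam e 1 = 1 := by simp [HS.Psi]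

theorem HS.psi_of (h : S.ψ lam.p g = 1) (e : ℤ) : S.psi k lam e g = 1 := by
  rw [HS.psi, h, S.Psi_one]

theorem HS.psf_of (h : S.ψ lam.p g = 1) (h' : chi f g = 1) (e : ℤ) : S.psf k lam f e g = 1 := by
  rw [HS.psf, HS.psi_of h, h', Units.val_one, Int.cast_one, one_mul]

theorem HS.psf_one (e : ℤ) (g : Gam) : S.psf k lam 1 e g = S.psi k lam e g := by
  rw [HS.psf, xi_eq_zero.1 (B2.xi_one g), Units.val_one, Int.cast_one, one_mul]

theorem HS.Psi_mul (S : HS n) (e : ℤ) (x y : S.C lam.p) :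
    S.Psi k lam e (x * y) - S.Psi k lam e x * S.Psi k lam e y ∈ aa k k := by
  have := Ideal.mul_mem_left _ ((S.gen e (S.pr 1 lam.p (x * y)) : ℤ) : Lam) (xtw_mod k
    ((S.ν lam.p (2 * k + 3) x).toAdd.val + (S.ν lam.p (2 * k + 3) y).toAdd.val))
  convert this using 1
  simp only [HS.Psi, map_mul, toAdd_mul, ZMod.val_add, Units.val_mul, Int.cast_mul, pow_add]
  ring

/-- The class of an element of the decomposition group of an inert place is trivial. -/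
theorem HS.ψ_dec (S : HS n) {c : ℕ} (h : Adm n c) (hw : ¬ w.p ∣ c) (hI : Ine w ≤ GK n) {φ : Gam}
    (hφ : IsFrob w w.p φ) (h' : φ ∉ GK n) (hg : g ∈ GK n ⊓ Dec w) : S.ψ c g = 1 := by
  obtain ⟨U, u1, -, u3⟩ := S.sm c h
  obtain ⟨j, σ, hσ, e⟩ := dec_gen_inert hφ h' hI hg u1
  have h1 := mul_mem_GK h' h'
  rw [← u3 _ (mul_mem (pow_mem h1 j) (hI hσ)) g hg.1 e.1, S.mul c h _ (pow_mem h1 j) _ (hI hσ),
    S.unr c w h hw σ ⟨hI hσ, hσ⟩, mul_one]
  clear e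
  induction j with
  | zero => rw [pow_zero, S.ψ_one h]
  | succ j ih => rw [pow_succ, S.mul c h _ (pow_mem h1 j) _ h1, ih, S.dih c h φ h', mul_one]

theorem HS.Tw.exists_z (h : S.Tw k lam f) (hf : Fok n f) (e : ℤ) :
    ∃ z, Gen lam z ∧ S.psf k lam f e z = 1 + X ∧
      (1 + X) * S.psf k lam f e (cc * z * cc) - 1 ∈ aa k k := by
  obtain ⟨φ, z, h⟩ := h
  have key : ∀ (v : Plc) (y : Gam), v.p = lam.p → y ∈ Ine v →
      S.psf k lam f e y = (1 + X) ^ (S.ex lam.p (2 * k + 3) y).val := fun v y hv hy => by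
    have a : Adm n v.p := hv ▸ h.adm
    rw [HS.psf, HS.psi, HS.Psi, S.pr_ψ 1 _ h.adm (one_dvd _) y (a.ine hy), S.unr 1 v (adm_one n)
      (fun k => v.prime.ne_one (Nat.dvd_one.1 k)) y ⟨a.ine hy, hy⟩, hf.chi_ine (a.ndf hf) hy]
    simp [HS.ex]
  have o : 1 < 2 ^ (2 * k + 3) := Nat.one_lt_two_pow (by omega)
  have n0 : 0 < n := Nat.pos_of_ne_zero fun e => by
    have := h.adm.inert
    rw [e, Nat.cast_zero, neg_zero, jacobiSym.zero_left lam.prime.one_lt] at this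
    exact absurd this (by decide)
  refine ⟨z, h.gen, by rw [key lam z rfl h.gen.1, h.ex_z, ZMod.val_one'' o.ne', pow_one], ?_⟩
  have h1 := h.gen.smul cc
  rw [cc_inv] at h1
  rw [key (cc • lam) _ rfl h1.1, S.ex_cc h.adm n0 _ (h.adm.ine h.gen.1), h.ex_z, ← pow_succ',
    ← neg_mem_iff, neg_sub]
  have h2 := xtw_mod k ((-1 : ZMod (2 ^ (2 * k + 3))).val + 1)
  rwa [(Nat.dvd_iff_mod_eq_zero ..).1 ((ZMod.natCast_eq_zero_iff _ _).1 (by simp)), pow_zero] at h2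

theorem HS.Tw.chr (h : S.Tw k lam f) (hn : Nok n) (hf : Fok n f) (e : ℤ) :
    Chr f n k lam (S.psf k lam f e) := by
  obtain ⟨z, z1, z2, -⟩ := h.exists_z hf e
  have l := h.adm
  have k0 : ∀ g, S.ψ lam.p g = 1 → chi f g = 1 → S.psf k lam f e g - 1 ∈ aa k k := fun g a b => by
    rw [HS.psf_of a b, sub_self]
    exact zero_mem _
  refine ⟨⟨(sm_chi f).comp₂ (S.sm _ l) fun u x => ((u : ℤ) : Lam) * S.Psi k lam e x,
    k0 _ (S.ψ_one l) (map_one _), fun g hg u hu => ?_, fun g => ?_,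
    fun g hg => k0 _ (S.dih _ l g hg) (by rw [map_mul, Int.units_mul_self]),
    fun w hw σ hσ => ?_, fun w hw g hg => k0 _ (S.ψ_dec l (xtw_ndvd (hw ▸ l.ne_two.symm))
      (hn.ine_two hw) (fr_spec w) (hn.out_two hw) hg) (chi_GK_two hf.m4 hn.m8 hw hg),
    fun w hw φ hφ => ?_⟩,
    z, z1, by rw [z2, sub_self]; exact zero_mem _⟩
  · rw [HS.psf, HS.psf, HS.psf, HS.psi, HS.psi, HS.psi, S.mul _ l g hg u hu, map_mul, Units.val_mul, Int.cast_mul,
      mul_mul_mul_comm _ (S.Psi k lam e _), ← mul_sub]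
    exact Ideal.mul_mem_left _ _ (S.Psi_mul e _ _)
  · have h1 : Ideal.span {(X : Lam)} ≤ aa 1 1 :=
      (Ideal.span_singleton_le_iff_mem _).2 (by simpa using X_mem_aa 1 1)
    have t : Ideal.span {(2 : Lam)} ≤ aa 1 1 :=
      (Ideal.span_singleton_le_iff_mem _).2 (by simpa using two_mem_aa 1 1)
    rw [HS.psf, HS.psi, HS.Psi, ← mul_assoc, ← Int.cast_mul, ← Units.val_mul]
    rw [← sub_add_sub_cancel]
    exact add_mem (xtw_mul _ (h1 (xtw_X _))) (t ((Int.cast_one (R := Lam)) ▸ xtw_sign _ 1))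
  · rw [HS.psf, HS.psi_of (S.unr _ w l (xtw_ndvd hw) σ hσ), mul_one, sub_self]
    exact zero_mem _
  · obtain ⟨u, u1, u2⟩ := xtw_gen (h.odd_ex hw hφ)
    have t : Ideal.span {(2 : Lam)} ≤ aa 1 k :=
      (Ideal.span_singleton_le_iff_mem _).2 (by simpa using two_mem_aa 1 k)
    refine ⟨u, u1, ?_⟩
    rw [HS.psf, HS.psi, HS.Psi, ← mul_assoc, ← Int.cast_mul, ← Units.val_mul, u2, ← sub_one_mul]
    exact Ideal.mul_mem_right _ _ (t ((Int.cast_one (R := Lam)) ▸ xtw_sign _ 1))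

theorem HS.N_le : S.N T k lam f ≤ GK n := fun _ h => h.1

theorem HS.N_conj (hz : z ∈ S.N T k lam f) (g : Gam) : g * z * g⁻¹ ∈ S.N T k lam f := by
  have h1 := (normal_GK n).conj_mem z hz.1 g
  refine ⟨h1, ?_, fun h => ?_, by rw [map_mul, map_mul, hz.2.2.2, mul_one, ← map_mul,
    mul_inv_cancel, map_one]⟩
  · rw [map_mul, map_mul, mred_mul, mred_mul, hz.2.1, mul_one, ← mred_mul, ← map_mul,
      mul_inv_cancel, map_one, mred_one]
  by_cases hg : g ∈ GK n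
  · have := S.mul _ h _ h1 g hg
    rwa [inv_mul_cancel_right, S.mul _ h g hg z hz.1, hz.2.2.1 h, mul_one, right_eq_mul] at this
  · have h2 := mul_mem_GK hg hg
    have := S.dih _ h (g * z) (mt (mul_mem_cancel_right hz.1).1 hg)
    rwa [show g * z * (g * z) = g * z * g⁻¹ * (g * g * z) by group,
      S.mul _ h _ h1 _ (mul_mem h2 hz.1), S.mul _ h _ h2 _ hz.1, S.dih _ h g hg, hz.2.2.1 h,
      mul_one, mul_one] at this

theorem HS.normal_N (S : HS n) (T : Tate) (k : ℕ) (lam : Plc) (f : ℤ) : (S.N T k lam f).Normal :=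
  ⟨fun _ hz g => HS.N_conj hz g⟩

theorem HS.N_cc (hz : z ∈ S.N T k lam f) : cc * z * cc ∈ S.N T k lam f := by
  simpa only [cc_inv] using HS.N_conj hz cc

theorem HS.op_N (hl : Adm n lam.p) : Op (S.N T k lam f) := by
  obtain ⟨U, u1, -, u3⟩ := (((T.sm (k + 2)).mono le_top).comp₂ (S.sm _ hl) Prod.mk).comp₂
    (sm_chi f) Prod.mk
  refine Subgroup.isOpen_mono (H₁ := U ⊓ GK n) (fun g hg => ?_) (u1.inf (op_GK n))
  have h1 := Prod.mk.inj (u3 1 (one_mem _) g hg.2 (by simpa using hg.1))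
  have := Prod.mk.inj h1.1
  exact ⟨hg.2, by rw [← this.1, map_one, mred_one], fun _ => by rw [← this.2, S.ψ_one hl],
    by rw [← h1.2, map_one]⟩

theorem HS.psf_N (hl : Adm n lam.p) (hz : z ∈ S.N T k lam f) (e : ℤ) : S.psf k lam f e z = 1 :=
  HS.psf_of (hz.2.2.1 hl) hz.2.2.2 e

theorem HS.rho_N (hz : z ∈ S.N T k lam f) {m : ℕ} (hm : m ≤ k + 2) : mred m (T.ρ z) = 1 :=
  (la_mred_le hm (hz.2.1.trans (mred_one _).symm)).trans (mred_one m)

theorem HS.ψ_N (hl : Adm n lam.p) (hz : z ∈ S.N T k lam f) : S.ψ 1 z = 1 := by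
  rw [← S.pr_ψ 1 _ hl (one_dvd _) z hz.1, hz.2.2.1 hl, map_one]

/-- The elements of `N` act trivially. -/
theorem HS.act_N (hl : Adm n lam.p) (hz : z ∈ S.N T k lam f) (e : ℤ) {B : Type} [AddCommGroup B]
    [Module Lam B] (hB : Kil k B) (x : Fin 2 → B) : act T (S.psf k lam f e) B z x = x := by
  rw [act_apply, rep, HS.psf_N hl hz, one_smul,
    mact_mred hB ((HS.rho_N hz (Nat.le_add_right k 2)).trans (mred_one k).symm),
    Matrix.map_one _ (map_zero _) (map_one _), mact_one]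

theorem HS.Dp.deep (h : S.Dp T k lam f w) (hl : Adm n lam.p) (e : ℤ) :
    DpL n k T lam (S.psf k lam f e) w :=
  ⟨h.adm, h.ne, h.mem.2.1, by rw [HS.psf_N hl h.mem, sub_self]; exact zero_mem _⟩

theorem HS.Tw.sok (h : S.Tw k lam f) (hn : Nok n) (hf : Fok n f) (hQ : S.DpS T k lam f Q) (e : ℤ) :
    SOk T n f k lam (S.psf k lam f e) Q :=
  ⟨hn, hf, h.adm, h.nrt, h.dvd, h.chr hn hf e, fun w hw => (hQ.dp w hw).deep h.adm e, hQ.inj⟩

theorem HS.dpS_empty (S : HS n) (T : Tate) (k : ℕ) (lam : Plc) (f : ℤ) : S.DpS T k lam f ∅ :=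
  ⟨fun _ h => absurd h (notMem_empty _), fun _ h => absurd h (notMem_empty _)⟩

theorem HS.Dp.dpS (h : S.Dp T k lam f w) : S.DpS T k lam f {w} := ⟨by simpa using h, by simp⟩

theorem HS.Dp.fq_mem (h : S.Dp T k lam f w) : fq w ∈ S.N T k lam f :=
  deep_sq (S.normal_N T k lam f) h.mem

theorem HS.Dp.ine_le (h : S.Dp T k lam f w) (hf : Fok n f) : Ine w ≤ S.N T k lam f := fun σ hσ =>
  ⟨h.adm.ine hσ, by rw [T.unr w h.adm.nd30 σ hσ, mred_one],
    fun hl => S.unr _ w hl (xtw_ndvd h.ne) σ ⟨h.adm.ine hσ, hσ⟩, hf.chi_ine (h.adm.ndf hf) hσ⟩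

theorem HS.Dp.gn_mem (h : S.Dp T k lam f w) (hf : Fok n f) : gn w ∈ S.N T k lam f :=
  h.ine_le hf (gn_spec h.adm.ne_two).1

theorem HS.Dp.dvd (h : S.Dp T k lam f w) : 2 ^ (k + 2) ∣ w.p + 1 ∧ (2 : ℤ) ^ (k + 2) ∣ al w.p :=
  deep_dvd T h.adm.ndM (fr_spec w) h.mem.2.1

/-- All branches of all twists agree modulo two. -/
theorem HS.psf_two (f f' e e' : ℤ) (g : Gam) :
    S.psf k lam f e g - S.psf k lam f' e' g ∈ Ideal.span {(2 : Lam)} := by
  rw [HS.psf, HS.psf, HS.psi, HS.psi, HS.Psi, HS.Psi, ← mul_assoc, ← mul_assoc, ← sub_mul,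
    ← Int.cast_mul, ← Int.cast_mul, ← Units.val_mul, ← Units.val_mul]
  exact Ideal.mul_mem_right _ _ (xtw_sign _ _)

/-- The value at zero is the character of the branch. -/
theorem HS.psf_X {e : ℤ} (hl : Adm n lam.p) (hf : f ≠ 0) (he : e ∣ n) (h4 : e % 4 = 1) {g : Gam}
    (hg : g ∈ GK n) :
    S.psf k lam f e g - ((chi (f * e) g : ℤ) : Lam) ∈ Ideal.span {(X : Lam)} := by
  rw [HS.psf, HS.psi, HS.Psi, S.pr_ψ 1 _ hl (one_dvd _) g hg, S.gen_ψ e he h4 g hg,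
    chi_mul hf (by omega), Units.val_mul, Int.cast_mul, ← mul_assoc]
  exact xtw_mul _ (xtw_X _)

theorem IN_conj (hz : z ∈ IN) (g : Gam) : g * z * g⁻¹ ∈ IN :=
  (iSup_le fun w σ hσ => ine_le_IN (w := g • w.1) w.2
    (mem_Ine_smul.2 (by simpa [mul_assoc] using hσ)) : IN ≤ IN.comap (MulAut.conj g).toMonoidHom) hz

theorem IN_cc (hz : z ∈ IN) : cc * z * cc ∈ IN := by simpa only [cc_inv] using IN_conj hz cc

theorem Tate.det_IN (T : Tate) (hz : z ∈ IN) : (T.ρ z).det = 1 :=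
  (iSup_le fun w σ hσ => (T.det σ).trans (cyc_ine (ne_two_of_dvd w.2) hσ) :
    IN ≤ (detMonoidHom.comp T.ρ).ker) hz

theorem HS.ψ_IN (S : HS n) (hn : Nok n) {c : ℕ} (hc : Adm n c) (hz : z ∈ IN) : S.ψ c z = 1 := by
  have h : IsHom (GK n) fun g => Additive.ofMul (S.ψ c g) := fun g hg u hu =>
    congrArg Additive.ofMul (S.mul c hc g hg u hu)
  have k : IN ≤ kerOn (GK n) _ h := iSup_le fun w σ hσ =>
    have h1 := hn.IN_le (ine_le_IN w.2 hσ)
    ⟨h1, S.unr c w hc (fun e => (hc.2 _ w.1.prime e).1 ((w.2.mul_left 2).trans dvd_MM)) σ ⟨h1, hσ⟩⟩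
  exact (k hz).2

theorem HS.psf_IN (hn : Nok n) (hf : Fok n f) (hl : Adm n lam.p) (hz : z ∈ IN) (e : ℤ) :
    S.psf k lam f e z = 1 := HS.psf_of (S.ψ_IN hn hl hz) (hf.chi_IN hz) e

/-- Elements that act as scalars are central modulo `N`. -/
theorem HS.comm_N (hz : z ∈ GK n) {c : ℤ_[2]} (h2 : mred (k + 2) (T.ρ z) = mred (k + 2) (c • 1))
    (hg : g ∈ GK n) : z * g * z⁻¹ * g⁻¹ ∈ S.N T k lam f := by
  have h5 := mul_mem (mul_mem (mul_mem hz hg) (inv_mem hz)) (inv_mem hg)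
  refine ⟨h5, ?_, fun hl => ?_, by
    simp only [map_mul, map_inv, mul_inv_cancel_comm, mul_inv_cancel]⟩
  · have e : mred (k + 2) (T.ρ (z * g)) = mred (k + 2) (T.ρ (g * z)) := by
      rw [map_mul, map_mul, mred_mul, mred_mul, h2, ← mred_mul, ← mred_mul, smul_one_mul,
        mul_smul_one]
    rw [mul_assoc, map_mul, mred_mul, e, ← mred_mul, ← map_mul, ← _root_.mul_inv_rev,
      mul_inv_cancel, map_one, mred_one]
  · have := S.mul _ hl _ h5 _ (mul_mem hg hz)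
    rwa [show z * g * z⁻¹ * g⁻¹ * (g * z) = z * g by group, S.mul _ hl z hz g hg,
      S.mul _ hl g hg z hz, mul_comm (S.ψ _ z), right_eq_mul] at this

/-- An element that acts as minus one. -/
theorem HS.exists_scalar (hn : Nok n) (hf : Fok n f) (hl : Adm n lam.p) : ∃ z ∈ IN,
    z ∈ GK n ∧ mred (k + 2) (T.ρ z) = -1 ∧ S.ψ lam.p z = 1 ∧ chi f z = 1 ∧
      ∀ g ∈ GK n, z * g * z⁻¹ * g⁻¹ ∈ S.N T k lam f := by
  obtain ⟨w, v, s, t, h⟩ := T.exists_tv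
  obtain ⟨z, h1, h2⟩ := h.big ((-1 : ℤ_[2]) • 1) (by simp [det_fin_two]) (k + 2)
  have h3 := h.le_IN h1
  refine ⟨z, h3, hn.IN_le h3, h2.trans ?_, S.ψ_IN hn hl h3, hf.chi_IN h3,
    fun g hg => HS.comm_N (hn.IN_le h3) h2 hg⟩
  ext i j
  fin_cases i <;> fin_cases j <;> simp [mred]

/-- The choice of a deep place. -/
theorem HS.exists_dp (ch : ChebStmt) (hn : Nok n) (hl : Adm n lam.p) {A : Type} [AddCommGroup A]
    {m : ℕ} (hA : ∀ x : A, 2 ^ m • x = 0) {c : Gam → A} (sm : Sm (GK n) c)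
    (hom : IsHom (S.N T k lam f) c) (hz : z ∈ S.N T k lam f) (B : Finset ℕ) :
    ∃ (w : Plc) (u : ℕ), w.p ∉ B ∧ Odd u ∧ S.Dp T k lam f w ∧
      c (fq w) = u • (c z + c (cc * z * cc)) := by
  obtain ⟨U, u1, -, u3⟩ := id sm
  obtain ⟨B', hB⟩ := finite_ram u1
  obtain ⟨w, φ, s, u, h1, h2, h3, h4⟩ := exists_TwD ch T hn.pos (HS.op_N hl) (S.normal_N T k lam f)
    HS.N_le (m := k + 2) (fun g hg => hg.2.1) hA (Set.finite_singleton c)
    (fun _ e => (show _ = c from e) ▸ ⟨sm.mono HS.N_le, hom⟩) hz ((insert lam.p (B ∪ B')).sup id)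
  have h5 : w.p ∉ insert lam.p (B ∪ B') := fun e => h1.not_ge (le_sup (f := id) e)
  rw [mem_insert, mem_union, not_or, not_or] at h5
  have h6 := h2.frob.inv_mul_mem (fr_spec w)
  have h7 : ∀ σ ∈ Ine w, c σ = 0 := fun σ hσ => by
    rw [← u3 1 (one_mem _) σ (HS.N_le (h2.ine hσ)) (by simpa using hB w h5.2.2 hσ), hom.one]
  have h8 := conj_mem_Ine (inv_mem h2.frob.1) h6
  refine ⟨w, u, h5.2.1, h3, ⟨.of_prime h2.nd30 h2.inert, h5.1, ?_⟩, ?_⟩
  · simpa [mul_assoc] using mul_mem h2.mem (h2.ine h6)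
  · rw [← h4 c rfl, show fq w = φ * φ * (φ⁻¹ * (φ⁻¹ * fr w) * φ⁻¹⁻¹ * (φ⁻¹ * fr w)) by
      rw [fq]; group, hom _ h2.sq _ (h2.ine (mul_mem h8 h6)), h7 _ (mul_mem h8 h6), add_zero]

/-- A group is not the union of two proper subgroups. -/
theorem HS.Often.exists (ch : ChebStmt) (hn : Nok n) (hl : Adm n lam.p) {P P' : Plc → Prop}
    (h : S.Often T k lam f P) (h' : S.Often T k lam f P') :
    ∃ w, S.Dp T k lam f w ∧ P w ∧ P' w := by
  obtain ⟨m, c, c1, c2, ⟨z, hz, c3⟩, c4⟩ := h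
  obtain ⟨m', c', c1', c2', ⟨z', hz', c3'⟩, c4'⟩ := h'
  obtain ⟨y, hy, y1, y2⟩ : ∃ y ∈ S.N T k lam f, c y + c (cc * y * cc) ≠ 0 ∧
      c' y + c' (cc * y * cc) ≠ 0 := by
    by_cases e : c' z + c' (cc * z * cc) = 0
    · by_cases e' : c z' + c (cc * z' * cc) = 0
      · refine ⟨z * z', mul_mem hz hz', ?_, ?_⟩
        · rwa [cc_mul, c2 _ hz _ hz', c2 _ (HS.N_cc hz) _ (HS.N_cc hz'), add_add_add_comm, e',
            add_zero]
        · rwa [cc_mul, c2' _ hz _ hz', c2' _ (HS.N_cc hz) _ (HS.N_cc hz'), add_add_add_comm, e,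
            zero_add]
      · exact ⟨z', hz', e', c3'⟩
    · exact ⟨z, hz, c3, e⟩
  obtain ⟨w, u, -, hu, hw, e⟩ := HS.exists_dp ch hn hl (A := ZMod (2 ^ m) × ZMod (2 ^ m'))
    (m := m + m') (fun x => Prod.ext (xtw_kill (Nat.le_add_right m m') _)
      (xtw_kill (Nat.le_add_left m' m) _))
    (c1.comp₂ c1' Prod.mk) (fun g hg u hu => Prod.ext (c2 g hg u hu) (c2' g hg u hu)) hy ∅
  exact ⟨w, hw, c4 w hw ((congrArg Prod.fst e).trans_ne (xtw_odd hu y1)),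
    c4' w hw ((congrArg Prod.snd e).trans_ne (xtw_odd hu y2))⟩

end Pool.Agent.B6
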