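import Pool.Agent.Lib.MP_696deb_nt.B2.XNZ
import Pool.Agent.Lib.MP_696deb_nt.B6.TG1
import Pool.Agent.Lib.MP_696deb_nt.B6.XTW

/-! The upper bound on the target branch. -/

set_option autoImplicit false

open scoped NNReal Classical
open Finset Matrix NumberTheorySymbols PowerSeries

namespace Pool.Agent.B6

open Pool.Agent.Lib.MP_696deb_nt Pool.Agent.Lib.MP_696deb_nt.B2

/-- Evaluation at zero. -/
noncomputable def evV (j : ℕ) : (Fin 2 → Lam ⧸ aa j 1) →+ Vm j :=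
  (ev j 1 (.inr one_ne_zero)).toAddMonoidHom.compLeft (Fin 2)

theorem evV_inj (j : ℕ) : Function.Injective (evV j) := fun _ _ e =>
  funext fun i => (xnz_bij j).1 (congrFun e i)

theorem evV_surj (j : ℕ) (y : Vm j) : ∃ x, evV j x = y := by
  choose x hx using fun i => (xnz_bij j).2 (y i)
  exact ⟨x, funext hx⟩

variable [Md]

variable {T : Tate} {ψ : Gam → Lam} {n j : ℕ} {f d d' e e' : ℤ} {lam : Plc} {g : Gam}
  {c : Gam → Fin 2 → Lam ⧸ aa j 1}

/-- At zero the action is the twisted action on torsion points. -/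
theorem evV_act (h : ψ g - ((chi d g : ℤ) : Lam) ∈ Ideal.span {(X : Lam)})
    (v : Fin 2 → Lam ⧸ aa j 1) : evV j (act T ψ _ g v) = tv T d j g (evV j v) := by
  obtain ⟨y, hy⟩ := Ideal.mem_span_singleton.1 h
  have k : constantCoeff (ψ g) = ((chi d g : ℤ) : ℤ_[2]) := by
    rw [eq_add_of_sub_eq hy]
    simp
  have e2 : ∀ z : Lam, ev j 1 (.inr one_ne_zero) (Ideal.Quotient.mk _ z) =
      PadicInt.toZModPow j (constantCoeff z) := fun _ => rfl
  funext i
  rw [act_quot, tv_apply]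
  fin_cases i <;> simp [evV, rep, e2, k, mred, mul_assoc]

/-- The Selmer conditions at zero. -/
theorem TwPr.inSU_iff (hc : TwPr n f d d') (hl : Adm n lam.p) (hr : ¬ Rt lam.p)
    (hψ : ∀ g ∈ GK n, ψ g - ((chi d g : ℤ) : Lam) ∈ Ideal.span {(X : Lam)}) :
    InSU T n f lam ψ ∅ (fun _ => .tr) c ↔ KV T n f d j fun g => evV j (c g) := by
  have k0 : ∀ {v}, evV j v = 0 ↔ v = 0 := map_eq_zero_iff _ (evV_inj j)
  have k1 : ∀ g ∈ GK n, ∀ x, evV j (cob (act T ψ _) x g) = cob (tv T d j) (evV j x) g :=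
    fun g hg x => by rw [cob, cob, map_sub, evV_act (hψ g hg)]
  constructor
  · intro h
    have h1 := h.z1.1.map (evV j) fun g hg => evV_act (T := T) (hψ g hg)
    refine ⟨⟨h1, fun g hg => k0.2 (h.z1.2 g hg)⟩, fun w hw hf σ hσ => ?_, fun w hw => ?_,
      h.kum j (ev j 1 (.inr one_ne_zero)).toAddMonoidHom⟩
    · by_cases k : w.p = lam.p
      · exact hc.unr_o3 (k ▸ hl) (k ▸ hr) (h1.lo_mono inf_le_left) hσ.2
      · exact k0.2 (h.unr w hw hf k (fun _ h => absurd h (notMem_empty _)) σ hσ)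
    · obtain ⟨x, hx⟩ := h.lur w hw
      exact ⟨evV j x, fun σ hσ => by rw [hx σ hσ, k1 σ (hc.nok.split hw (Ine_le w hσ))]⟩
  · intro h
    refine ⟨⟨⟨?_, fun g hg u hu => evV_inj j ?_⟩, fun g hg => k0.1 (h.z.2 g hg)⟩,
      fun w hw hf _ _ σ hσ => k0.1 (h.unr w hw hf σ hσ), fun w hw => ?_,
      KumC.of_inj (m := j) (fun x => by simp) (ev j 1 (.inr one_ne_zero)).toAddMonoidHom
        (xnz_bij j).1 h.kum.kumC, fun w hw => absurd hw (notMem_empty w)⟩
    · obtain ⟨U, u1, u2, u3⟩ := h.z.1.1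
      exact ⟨U, u1, u2, fun g hg u hu e => evV_inj j (u3 g hg u hu e)⟩
    · rw [map_add, evV_act (hψ g hg)]
      exact h.z.1.2 g hg u hu
    · obtain ⟨y, hy⟩ := h.lur w hw
      obtain ⟨x, rfl⟩ := evV_surj j y
      exact ⟨x, fun σ hσ => evV_inj j
        ((hy σ hσ).trans (k1 σ (hc.nok.split hw (Ine_le w hσ)) x).symm)⟩

/-- The upper bound on the target branch. -/
theorem tg_bound (T : Tate) (hn : Nok n) (hf : Fok n f) (S : HS n) (he : e * e' = -n)
    (h4 : e % 4 = 1) (h : Cork (f * e)) (h' : Cork (f * e')) : ∃ C : ℕ, ∀ k lam, S.Tw k lam f →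
      ∀ j ≤ k, Nat.card (SM T n f lam (S.psf k lam f e) ∅ (fun _ => .tr) (Lam ⧸ aa j 1)) ≤
        C * 4 ^ j := by
  have hc := twPr hn hf he h4
  obtain ⟨C, hC⟩ := hc.cork_link T h h'
  exact ⟨C, fun k lam hl j _ => natCard_le (hC j (fr lam) (hl.adm.out (fr_spec lam))
    (T.o3_fq hl.adm.nd30 hl.nrt)) (f := fun c g => evV j (c.1 g))
    (fun c c' e => Subtype.ext (funext fun g => evV_inj j (congrFun e g))) fun c =>
      ⟨(hc.inSU_iff hl.adm hl.nrt fun _ => HS.psf_X hl.adm hf.ne (dvd_neg.1 ⟨e', he.symm⟩) h4).1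
        c.2.1, (congrArg (evV j) c.2.2).trans (map_zero _)⟩⟩

end Pool.Agent.B6
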